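import Pool.Agent.AEG.GlueS

/-!
# Reversal of an embedded line
-/

namespace AEG

open Finset AE15 AED AEB
open scoped Classical

variable {V : Type*} {R : V → V → Prop}

/-- one vertex of the line, placed at `y`, with its side trees: all used vertices form `S` -/
def OneS (R : V → V → Prop) (q : Fd × Fd) (y : V) (S : Finset V) : Prop := ∃ S₁ S₂, Disjoint S₁ S₂ ∧ y ∉ S₁ ∪ S₂ ∧
  S = insert y (S₁ ∪ S₂) ∧ Emb (SPD.rv R) q.1 y S₁ ∧ Emb R q.2 y S₂

/-- the line with its side trees, the first vertex placed at `y` and the last one at `z`: all used vertices form `S` -/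
def LnS (R : V → V → Prop) : List (Fd × Fd) → V → V → Finset V → Prop
  | [], _, _, _ => False
  | [q], y, z, S => z = y ∧ OneS R q y S
  | q :: q' :: L, y, z, S => ∃ x S₀ S₃, Disjoint S₀ S₃ ∧ R y x ∧ S = S₀ ∪ S₃ ∧ OneS R q y S₀ ∧ LnS R (q' :: L) x z S₃

theorem OneS.mem {q : Fd × Fd} {y : V} {S : Finset V} (h : OneS R q y S) : y ∈ S := by
  obtain ⟨S₁, S₂, -, -, rfl, -, -⟩ := h
  exact mem_insert_self _ _

theorem LnS.mem {L : List (Fd × Fd)} : ∀ {y z : V} {S : Finset V}, LnS R L y z S → y ∈ S ∧ z ∈ S := by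
  induction L with
  | nil => intro y z S h; exact h.elim
  | cons q L ih =>
    intro y z S h
    cases L with
    | nil =>
      obtain ⟨rfl, h⟩ := h
      exact ⟨h.mem, h.mem⟩
    | cons q' L =>
      obtain ⟨x, S₀, S₃, -, -, rfl, h1, h2⟩ := h
      exact ⟨mem_union_left _ h1.mem, mem_union_right _ (ih h2).2⟩

theorem lnS_of_embS {L : List (Fd × Fd)} : ∀ {y : V} {S : Finset V}, y ∉ S → EmbS R L y S →
    ∃ z, LnS R L y z (insert y S) := by
  induction L with
  | nil => intro y S _ h; exact h.elim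
  | cons q L ih =>
    intro y S hy h
    cases L with
    | nil =>
      obtain ⟨S₁, S₂, h1, rfl, h2, h3⟩ := h
      exact ⟨y, rfl, S₁, S₂, h1, hy, rfl, h2, h3⟩
    | cons q' L =>
      obtain ⟨S₁, S₂, z, S₃, h1, h2, h3, h4, rfl, h5, h6, h7⟩ := h
      obtain ⟨w, hw⟩ := ih h3 h7
      rw [mem_union, not_or] at hy
      refine ⟨w, z, insert y (S₁ ∪ S₂), insert z S₃, ?_, h4, ?_, ⟨S₁, S₂, h1, hy.1, rfl, h5, h6⟩, hw⟩
      · rw [disjoint_insert_left]
        exact ⟨hy.2, h2⟩
      · rw [insert_union]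

theorem embS_of_lnS {L : List (Fd × Fd)} : ∀ {y z : V} {S : Finset V}, LnS R L y z S → EmbS R L y (S.erase y) := by
  induction L with
  | nil => intro y z S h; exact h.elim
  | cons q L ih =>
    intro y z S h
    cases L with
    | nil =>
      obtain ⟨rfl, S₁, S₂, h1, h2, rfl, h3, h4⟩ := h
      rw [erase_insert h2]
      exact ⟨S₁, S₂, h1, rfl, h3, h4⟩
    | cons q' L =>
      obtain ⟨x, S₀, S₃, h1, h2, rfl, ⟨S₁, S₂, k1, k2, rfl, k3, k4⟩, h5⟩ := h
      have hx := h5.mem.1
      have hy3 : y ∉ S₃ := (disjoint_insert_left.1 h1).1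
      have hins : insert x (S₃.erase x) = S₃ := insert_erase hx
      refine ⟨S₁, S₂, x, S₃.erase x, k1, ?_, notMem_erase _ _, h2, ?_, k3, k4, ih h5⟩
      · rw [hins]
        exact (disjoint_insert_left.1 h1).2
      · rw [hins, insert_union, erase_insert]
        rw [mem_union, not_or]
        exact ⟨k2, hy3⟩

theorem LnS.append {L₁ : List (Fd × Fd)} : ∀ {L₂ : List (Fd × Fd)} {y z y' z' : V} {S₁ S₂ : Finset V}, LnS R L₁ y z S₁ →
    LnS R L₂ y' z' S₂ → R z y' → Disjoint S₁ S₂ → LnS R (L₁ ++ L₂) y z' (S₁ ∪ S₂) := by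
  induction L₁ with
  | nil => intro L₂ y z y' z' S₁ S₂ h; exact h.elim
  | cons q L ih =>
    intro L₂ y z y' z' S₁ S₂ h h' hz hd
    cases L with
    | nil =>
      obtain ⟨rfl, h⟩ := h
      cases L₂ with
      | nil => exact h'.elim
      | cons q' L₂ => exact ⟨y', S₁, S₂, hd, hz, rfl, h, h'⟩
    | cons q' L =>
      obtain ⟨x, S₀, S₃, h1, h2, rfl, h4, h5⟩ := h
      rw [disjoint_union_left] at hd
      refine ⟨x, S₀, S₃ ∪ S₂, ?_, h2, union_assoc _ _ _, h4, ih h5 h' hz hd.2⟩
      rw [disjoint_union_right]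
      exact ⟨h1, hd.1⟩

theorem OneS.swap {q : Fd × Fd} {y : V} {S : Finset V} (h : OneS (SPD.rv R) q y S) : OneS R q.swap y S := by
  obtain ⟨S₁, S₂, h1, h2, rfl, h3, h4⟩ := h
  exact ⟨S₂, S₁, h1.symm, by rwa [union_comm], by rw [union_comm], h4, h3⟩

theorem LnS.rev {L : List (Fd × Fd)} : ∀ {y z : V} {S : Finset V}, LnS (SPD.rv R) L y z S →
    LnS R (L.map Prod.swap).reverse z y S := by
  induction L with
  | nil => intro y z S h; exact h.elim
  | cons q L ih =>
    intro y z S h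
    cases L with
    | nil =>
      obtain ⟨rfl, h⟩ := h
      exact ⟨rfl, h.swap⟩
    | cons q' L =>
      obtain ⟨x, S₀, S₃, h1, h2, rfl, h4, h5⟩ := h
      rw [List.map_cons, List.reverse_cons, union_comm]
      exact (ih h5).append (L₂ := [q.swap]) ⟨rfl, h4.swap⟩ h2 h1.symm

/-- **reversal**: an embedding of the reversed line in the reversed tournament is an embedding of the line -/
theorem embS_rev {L : List (Fd × Fd)} {y : V} {S : Finset V}
    (h : EmbS (SPD.rv R) (L.map Prod.swap).reverse y S) (hy : y ∉ S) :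
    ∃ y' S', y' ∉ S' ∧ insert y' S' = insert y S ∧ EmbS R L y' S' := by
  obtain ⟨z, hz⟩ := lnS_of_embS hy h
  have h1 := hz.rev
  have h2 : ((L.map Prod.swap).reverse.map Prod.swap).reverse = L := by
    rw [List.map_reverse, List.reverse_reverse, List.map_map]
    simp
  rw [h2] at h1
  exact ⟨z, (insert y S).erase z, notMem_erase _ _, insert_erase hz.mem.2, embS_of_lnS h1⟩

/-- the conditions on the list -/
theorem szS_rev (L : List (Fd × Fd)) : ((L.map Prod.swap).reverse.map (fun q => q.1.size + q.2.size + 1)).sum =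
    (L.map (fun q => q.1.size + q.2.size + 1)).sum := by
  rw [List.map_reverse, List.sum_reverse, List.map_map]
  congr 1
  apply List.map_congr_left
  intro q _
  simp only [Function.comp_apply, Prod.fst_swap, Prod.snd_swap]
  omega

theorem mem_rev {L : List (Fd × Fd)} {q : Fd × Fd} : q ∈ (L.map Prod.swap).reverse ↔ q.swap ∈ L := by
  rw [List.mem_reverse, List.mem_map]
  constructor
  · rintro ⟨a, ha, rfl⟩
    rwa [Prod.swap_swap]
  · intro h
    exact ⟨q.swap, h, Prod.swap_swap q⟩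

end AEG
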