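import Pool.Agent.AEG.PackB
import Pool.Agent.AEG.RevS

/-!
# The line from the forests at its vertices
-/

set_option autoImplicit false

namespace AEG

open Finset AE15 AED AEB SPD
open scoped Classical

variable {V : Type} {R : V → V → Prop}

theorem EmbAllB.perm {os os' : List (V × Fd)} (h : os.Perm os') : ∀ {S : Finset V}, EmbAllB R os S → EmbAllB R os' S := by
  induction h with
  | nil => exact fun h => h
  | cons x _ ih =>
    rintro S ⟨S₁, S₂, h1, h2, h3, h4⟩
    exact ⟨S₁, S₂, h1, h2, h3, ih h4⟩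
  | swap x y l =>
    rintro S ⟨S₁, S', h1, rfl, h3, S₂, S₃, h4, rfl, h5, h6⟩
    rw [disjoint_union_right] at h1
    refine ⟨S₂, S₁ ∪ S₃, ?_, ?_, h5, S₁, S₃, h1.2, rfl, h3, h6⟩
    · rw [disjoint_union_right]
      exact ⟨h1.1.symm, h4⟩
    · rw [← union_assoc, ← union_assoc, union_comm S₁ S₂]
  | trans _ _ ih1 ih2 => exact fun h => ih2 (ih1 h)

/-- the line from the forests at its vertices -/
theorem lnS_chain : ∀ (os : List (V × (Fd × Fd))) (hne : os ≠ []) (SA SD : Finset V), (os.map Prod.fst).Nodup →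
    (os.map Prod.fst).IsChain R → EmbAllB (rv R) (os.map (fun p => (p.1, p.2.1))) SA →
    EmbAllB R (os.map (fun p => (p.1, p.2.2))) SD → Disjoint SA SD → (∀ p ∈ os, p.1 ∉ SA ∧ p.1 ∉ SD) →
    LnS R (os.map Prod.snd) (os.head hne).1 (os.getLast hne).1 ((os.map Prod.fst).toFinset ∪ (SA ∪ SD))
  | [], hne => absurd rfl hne
  | [p], _ => by
    rintro SA SD - - ⟨A, A', h1, rfl, h2, h3⟩ ⟨D, D', h4, rfl, h5, h6⟩ h7 h8
    obtain rfl : A' = ∅ := h3
    obtain rfl : D' = ∅ := h6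
    rw [union_empty, union_empty] at h7 h8 ⊢
    have h9 := h8 p List.mem_cons_self
    refine ⟨rfl, A, D, h7, ?_, ?_, h2, h5⟩
    · rw [List.head_cons, mem_union, not_or]
      exact h9
    · simp
  | p :: p' :: os, _ => by
    rintro SA SD hnd hch ⟨A, A', h1, rfl, h2, h3⟩ ⟨D, D', h4, rfl, h5, h6⟩ h7 h8
    rw [List.map_cons] at hnd
    rw [List.map_cons, List.map_cons, List.isChain_cons_cons] at hch
    rw [disjoint_union_left, disjoint_union_right, disjoint_union_right] at h7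
    obtain ⟨⟨e1, e2⟩, e3, e4⟩ := h7
    have h9 := h8 p List.mem_cons_self
    simp only [mem_union, not_or] at h9
    have h10 : ∀ r ∈ p' :: os, (r.1 ∉ A ∧ r.1 ∉ A') ∧ r.1 ∉ D ∧ r.1 ∉ D' := by
      intro r hr
      have := h8 r (List.mem_cons_of_mem _ hr)
      simpa only [mem_union, not_or] using this
    have ih := lnS_chain (p' :: os) (by simp) A' D' (List.nodup_cons.1 hnd).2 (by
      rw [List.map_cons]; exact hch.2) h3 h6 e4 (fun r hr => ⟨(h10 r hr).1.2, (h10 r hr).2.2⟩)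
    refine ⟨p'.1, insert p.1 (A ∪ D), ((p' :: os).map Prod.fst).toFinset ∪ (A' ∪ D'), ?_, hch.1, ?_,
      ⟨A, D, e1, ?_, rfl, h2, h5⟩, ?_⟩
    · rw [disjoint_insert_left, disjoint_union_left]
      refine ⟨?_, ?_, ?_⟩
      · rw [mem_union, mem_union, List.mem_toFinset, not_or, not_or]
        exact ⟨(List.nodup_cons.1 hnd).1, h9.1.2, h9.2.2⟩
      · rw [disjoint_union_right, disjoint_union_right]
        refine ⟨?_, h1, e2⟩
        rw [disjoint_left]
        intro v hv hv'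
        rw [List.mem_toFinset, List.mem_map] at hv'
        obtain ⟨r, hr, rfl⟩ := hv'
        exact (h10 r hr).1.1 hv
      · rw [disjoint_union_right, disjoint_union_right]
        refine ⟨?_, e3.symm, h4⟩
        rw [disjoint_left]
        intro v hv hv'
        rw [List.mem_toFinset, List.mem_map] at hv'
        obtain ⟨r, hr, rfl⟩ := hv'
        exact (h10 r hr).2.1 hv
    · ext v
      simp only [List.map_cons, List.toFinset_cons, mem_union, mem_insert]
      tauto
    · rw [List.head_cons, mem_union, not_or]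
      exact ⟨h9.1.1, h9.2.1⟩
    · rw [List.getLast_cons_cons]
      exact ih

/-- the line from the forests at its first vertices and the rest of the line -/
theorem embS_chain {os : List (V × (Fd × Fd))} (hne : os ≠ []) {SA SD T : Finset V} {L' : List (Fd × Fd)}
    (h1 : (os.map Prod.fst).Nodup) (h2 : (os.map Prod.fst).IsChain R)
    (h3 : EmbAllB (rv R) (os.map (fun p => (p.1, p.2.1))) SA) (h4 : EmbAllB R (os.map (fun p => (p.1, p.2.2))) SD)
    (h5 : Disjoint SA SD) (h6 : ∀ p ∈ os, p.1 ∉ SA ∧ p.1 ∉ SD)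
    (h7 : (L' = [] ∧ T = ∅) ∨ ∃ z S', z ∉ S' ∧ T = insert z S' ∧ R (os.getLast hne).1 z ∧ EmbS R L' z S')
    (h8 : Disjoint T ((os.map Prod.fst).toFinset ∪ (SA ∪ SD))) :
    EmbS R (os.map Prod.snd ++ L') (os.head hne).1 ((((os.map Prod.fst).toFinset ∪ (SA ∪ SD)) ∪ T).erase (os.head hne).1) := by
  have h9 := lnS_chain os hne SA SD h1 h2 h3 h4 h5 h6
  rcases h7 with ⟨rfl, rfl⟩ | ⟨z, S', g1, rfl, g2, g3⟩
  · rw [List.append_nil, union_empty]
    exact embS_of_lnS h9
  · obtain ⟨z', g4⟩ := lnS_of_embS g1 g3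
    exact embS_of_lnS (h9.append g4 g2 h8.symm)

/-! ### Further facts -/

theorem embAllB_nil {S : Finset V} : EmbAllB R [] S ↔ S = ∅ := Iff.rfl

theorem embAllB_single {p : V × Fd} {S : Finset V} : EmbAllB R [p] S ↔ AED.Emb R p.2 p.1 S := by
  constructor
  · rintro ⟨S₁, S₂, h1, rfl, h3, h4⟩
    rw [show S₂ = ∅ from h4, union_empty]
    exact h3
  · intro h
    exact ⟨S, ∅, disjoint_empty_right _, by simp, h, rfl⟩

/-- concatenation -/
theorem embAllB_append {os os' : List (V × Fd)} {S : Finset V} :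
    EmbAllB R (os ++ os') S ↔ ∃ S₁ S₂, Disjoint S₁ S₂ ∧ S = S₁ ∪ S₂ ∧ EmbAllB R os S₁ ∧ EmbAllB R os' S₂ := by
  induction os generalizing S with
  | nil =>
    constructor
    · intro h
      exact ⟨∅, S, by simp, by simp, rfl, h⟩
    · rintro ⟨S₁, S₂, -, rfl, h1, h2⟩
      rw [show S₁ = ∅ from h1, empty_union]
      exact h2
  | cons p os ih =>
    constructor
    · rintro ⟨B₁, B₂, h1, rfl, h2, h3⟩
      obtain ⟨A₁, A₂, h4, rfl, h5, h6⟩ := ih.1 h3
      rw [disjoint_union_right] at h1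
      exact ⟨B₁ ∪ A₁, A₂, disjoint_union_left.2 ⟨h1.2, h4⟩, (union_assoc _ _ _).symm, ⟨B₁, A₁, h1.1, rfl, h2, h5⟩, h6⟩
    · rintro ⟨A₁, A₂, h4, rfl, ⟨B₁, B₂, h1, rfl, h2, h3⟩, h6⟩
      rw [disjoint_union_left] at h4
      exact ⟨B₁, B₂ ∪ A₂, disjoint_union_right.2 ⟨h1, h4.1⟩, union_assoc _ _ _, h2, ih.2 ⟨B₂, A₂, h4.2, rfl, h3, h6⟩⟩

/-- the set of the hosts -/
noncomputable def hostsF (os : List (V × (Fd × Fd))) : Finset V := (os.map Prod.fst).toFinset

theorem mem_hostsF {os : List (V × (Fd × Fd))} {v : V} : v ∈ hostsF os ↔ ∃ p ∈ os, p.1 = v := by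
  simp [hostsF]

theorem card_hostsF {os : List (V × (Fd × Fd))} (h : (os.map Prod.fst).Nodup) : (hostsF os).card = os.length := by
  rw [hostsF, List.toFinset_card_of_nodup h, List.length_map]

end AEG
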