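import Pool.Agent.AEG.GAll
import Pool.Agent.AE15.SuperC

/-!
# The group cut lemma for all sizes, with the counts at every host and with capacities of the reserve

`gcut_allB`: as `AEG.gcut_all`, but the constants do not depend on `N`, `e` and `lam`; the vertices of the reserves have
in-degree (out-degree) at least `lam` in `X` and linear out-degree (in-degree) in the large part; every host has the
count on the small side (and on both sides in the linear case).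
-/

set_option autoImplicit false

namespace AEG

open Finset AE15 SPD
open scoped Classical

variable {V : Type*} {R : V → V → Prop}

/-- the additional conclusions of the group cut lemma -/
structure GX (R : V → V → Prop) (X : Finset V) (N e lam : ℕ) (κ s τ β : ℝ) (ys : List V)
    (P₁ P₂ U₁ U₂ R₁ R₂ : Finset V) : Prop where
  inn : U₂ = X → ∀ z ∈ ys, MSide (rv R) U₁ P₁ (κ * U₁.card) (β * P₁.card) s τ (4 * (N * (e + 1))) z
  out : U₁ = X → ∀ z ∈ ys, MSide R U₂ P₂ (κ * U₂.card) (β * P₂.card) s τ (4 * (N * (e + 1))) z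
  cap₁ : ∀ w ∈ R₁, lam ≤ (nO R X w).card ∧ κ * X.card ≤ (nI R P₁ w).card
  cap₂ : ∀ w ∈ R₂, lam ≤ (nI R X w).card ∧ κ * X.card ≤ (nO R P₂ w).card

theorem GX.dual {X : Finset V} {N e lam : ℕ} {κ s τ β : ℝ} {ys : List V} {P₁ P₂ U₁ U₂ R₁ R₂ : Finset V}
    (h : GX (rv R) X N e lam κ s τ β ys P₁ P₂ U₁ U₂ R₁ R₂) : GX R X N e lam κ s τ β ys.reverse P₂ P₁ U₂ U₁ R₂ R₁ where
  inn := fun h1 z hz => h.out h1 z (List.mem_reverse.1 hz)
  out := fun h1 z hz => h.inn h1 z (List.mem_reverse.1 hz)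
  cap₁ := h.cap₂
  cap₂ := h.cap₁

theorem MSide.weak {U P : Finset V} {k k' t t' s s' τ τ' : ℝ} {e e' : ℕ} {y : V} (h : MSide R U P k t s τ e y)
    (hk : k' ≤ k) (ht : t ≤ t') (hs : s' ≤ s) (hτ : τ' ≤ τ) (he : e ≤ e') : MSide R U P k' t' s' τ' e' y :=
  h.mono5 (Subset.refl _) hk ht hs hτ he

/-- the first part is small -/
theorem gcut_all_smallB (hT : AE32.Tour R) {X Bd : Finset V} {p N e lam : ℕ} {κ₀ η κ s τ ε₀ β ζ : ℝ} (h0 : 0 < κ₀)
    (hη : 25 * κ₀ ≤ η) (hβη : 8 * η ≤ β) (hβ1 : β ≤ 1) (hζ : 8 * κ₀ ≤ ζ) (hN : 1 ≤ N)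
    (hpN : 8 + 4 * (N * (e + 1) : ℕ) ≤ κ₀ * p) (hX : ((p + N + e : ℕ) : ℝ) ≤ κ₀ * X.card) (hBd : Bd.card ≤ e)
    (_hκ0 : 0 ≤ κ) (hκ : κ ≤ κ₀ ^ 2 / 8) (hs : s ≤ κ₀) (hτ : τ ≤ κ₀ / 2) (hε₀ : ε₀ ≤ κ₀)
    (hlam : lam ≤ p) :
    ∃ (ys : List V) (y₁ y₂ : V) (P₁ P₂ U₁ U₂ R₁ R₂ : Finset V), P₁.card = p ∧
      GA R X Bd N (5 * (N * e) + 8 * lam) κ (1 / 4) s τ ε₀ β ζ ys y₁ y₂ P₁ P₂ U₁ U₂ R₁ R₂ ∧
      GX R X N e lam κ s τ β ys P₁ P₂ U₁ U₂ R₁ R₂ := by
  obtain ⟨n, hnd⟩ : ∃ n : ℝ, n = (X.card : ℝ) := ⟨_, rfl⟩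
  have hn0 : 0 ≤ n := by rw [hnd]; exact Nat.cast_nonneg _
  have hη1 : η ≤ 1 / 8 := by linarith
  have hκ1 : κ₀ ≤ 1 / 200 := by linarith
  have hp0 : (0 : ℝ) ≤ p := Nat.cast_nonneg _
  have hNe0 : (0 : ℝ) ≤ ((N * (e + 1) : ℕ) : ℝ) := Nat.cast_nonneg _
  have hκp : κ₀ * p ≤ 1 / 200 * p := mul_le_mul_of_nonneg_right hκ1 hp0
  have hNe : N ≤ N * (e + 1) := Nat.le_mul_of_pos_right _ (by omega)
  have hee : e ≤ N * e := Nat.le_mul_of_pos_left _ hN
  have hNer : N * (e + 1) = N * e + N := by ring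
  have h8p : 200 * (8 + 4 * (N * (e + 1))) ≤ p := by
    have h1 : 200 * (8 + 4 * ((N * (e + 1) : ℕ) : ℝ)) ≤ p := by linarith
    exact_mod_cast h1
  have hκn : κ₀ * n ≤ 1 / 200 * n := mul_le_mul_of_nonneg_right hκ1 hn0
  have hX1 : ((p + N + e : ℕ) : ℝ) ≤ 1 / 200 * X.card := by
    rw [← hnd] at hX ⊢
    linarith
  have hX2 : 200 * (p + N + e) ≤ X.card := by
    have h1 : 200 * ((p + N + e : ℕ) : ℝ) ≤ X.card := by linarith
    exact_mod_cast h1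
  have hBadq : ∀ g ∈ low R lam X, (X.filter (fun w => R w g ∧ Good R (κ₀ ^ 2 / 4) η X w)).card < p + N := by
    intro g hg
    have h1 := (mem_low.1 hg).2
    have h2 : (X.filter (fun w => R w g ∧ Good R (κ₀ ^ 2 / 4) η X w)).card ≤ (nI R X g).card := by
      apply card_le_card
      intro w hw
      rw [mem_filter] at hw
      exact mem_nI.2 ⟨hw.1, hw.2.1⟩
    omega
  obtain ⟨G, ys, y, P₁, P₂, U₁, Rsv, Gc, Ex, h, hlin, hreach⟩ := gcutR hT (X := X) (Bd := Bd) (Bad := low R lam X) (p := p)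
    (q := p + N) (N := N) (e := e) h0 hη hη1 hN hpN le_rfl (by omega) hX hBd hBadq
  have hlowc := card_low_in hT lam X
  have hsq : κ₀ ^ 2 / 8 ≤ κ₀ ^ 2 / 4 := by nlinarith
  have hκ4 : κ ≤ κ₀ ^ 2 / 4 := hκ.trans hsq
  have hP₂X : P₂ ⊆ X := fun u hu => ((h.part u).1 hu).1
  have hyX : ∀ z ∈ ys, z ∈ X := fun z hz => h.hGX (h.hys z hz).1
  have hP₁X : P₁ ⊆ X := h.hP₁.trans (h.hU₁.trans h.hGX)
  have hcard : P₁.card + N + P₂.card = X.card := by
    have h1 : X = P₁ ∪ (ys.toFinset ∪ P₂) := by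
      ext u
      rw [mem_union, mem_union, List.mem_toFinset]
      constructor
      · intro hu
        by_cases h2 : u ∈ P₁
        · exact Or.inl h2
        · by_cases h3 : u ∈ ys
          · exact Or.inr (Or.inl h3)
          · exact Or.inr (Or.inr ((h.part u).2 ⟨hu, h2, h3⟩))
      · rintro (h2 | h2 | h2)
        · exact hP₁X h2
        · exact hyX u h2
        · exact hP₂X h2
    have h2 : (ys.toFinset ∪ P₂).card = ys.toFinset.card + P₂.card := by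
      apply card_union_of_disjoint
      rw [disjoint_left]
      intro u hu hu'
      exact (h.hys u (List.mem_toFinset.1 hu)).2.2.2.1 hu'
    have h3 : (P₁ ∪ (ys.toFinset ∪ P₂)).card = P₁.card + (ys.toFinset ∪ P₂).card := by
      apply card_union_of_disjoint
      rw [disjoint_left]
      intro u hu hu'
      rcases mem_union.1 hu' with h4 | h4
      · exact (h.hys u (List.mem_toFinset.1 h4)).2.2.1 hu
      · exact disjoint_left.1 h.disj hu h4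
    have h4 : ys.toFinset.card = N := by rw [List.toFinset_card_of_nodup h.nodup, h.len]
    rw [← h1] at h3
    omega
  have hP₂c : (X.card : ℝ) / 2 ≤ P₂.card := by
    have h1 : X.card ≤ 2 * P₂.card := by
      have := h.card₁
      omega
    have h2 : (X.card : ℝ) ≤ 2 * P₂.card := by exact_mod_cast h1
    linarith
  have hP₂n : (P₂.card : ℝ) ≤ X.card := by exact_mod_cast card_le_card hP₂X
  have hU₁3 : U₁.card ≤ 3 * P₁.card := by
    have h1 := h.hU₁c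
    have h2 := h.card₁
    omega
  have hU₁3r : (U₁.card : ℝ) ≤ 3 * P₁.card := by exact_mod_cast hU₁3
  have hη0 : 0 < η := by linarith
  have hβ0 : 0 < β := by linarith
  have ht₂ : η * X.card ≤ β * P₂.card := by
    have h1 : β * ((X.card : ℝ) / 2) ≤ β * P₂.card := mul_le_mul_of_nonneg_left hP₂c hβ0.le
    have h2 : 8 * η * (X.card : ℝ) ≤ β * X.card := mul_le_mul_of_nonneg_right hβη (by rw [← hnd]; exact hn0)
    rw [← hnd] at h1 h2 ⊢
    have h3 : 0 ≤ η * n := mul_nonneg hη0.le hn0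
    linarith
  have ht₁ : 2 * η * U₁.card ≤ β * P₁.card := by
    have h1 : 2 * η * (U₁.card : ℝ) ≤ 2 * η * (3 * P₁.card) := mul_le_mul_of_nonneg_left hU₁3r (by linarith)
    have h2 : 8 * η * (P₁.card : ℝ) ≤ β * P₁.card := mul_le_mul_of_nonneg_right hβη (Nat.cast_nonneg _)
    have h3 : 0 ≤ η * (P₁.card : ℝ) := mul_nonneg hη0.le (Nat.cast_nonneg _)
    linarith
  have hrea : ∀ w, Good R (κ₀ ^ 2 / 4) η X w → Rea R X P₂ (κ * X.card) (β * P₂.card) w := by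
    intro w hw
    exact AECut.rea_mono (AECut.Good.rea hw hP₂X ht₂) (mul_le_mul_of_nonneg_right hκ4 (Nat.cast_nonneg _)) le_rfl
  have hkX : κ * (X.card : ℝ) ≤ κ₀ ^ 2 / 4 * X.card := mul_le_mul_of_nonneg_right hκ4 (Nat.cast_nonneg _)
  have hgood : ∀ g ∈ G, RHost R X P₂ (κ * X.card) (β * P₂.card) s g := by
    intro g hg
    refine ⟨AECut.rea_mono (hreach g hg) hkX ht₂, ?_⟩
    have h1 := hlin g hg
    have h2 : ((P₂.filter (fun w => R g w ∧ Good R (κ₀ ^ 2 / 4) η X w)).card : ℝ) ≤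
        ((P₂.filter (fun w => R g w ∧ Rea R X P₂ (κ * X.card) (β * P₂.card) w)).card : ℝ) := by
      apply Nat.cast_le.2
      apply card_le_card
      intro w hw
      rw [mem_filter] at hw ⊢
      exact ⟨hw.1, hw.2.1, hrea w hw.2.2⟩
    have h3 : s * (P₂.card : ℝ) ≤ κ₀ * P₂.card := mul_le_mul_of_nonneg_right hs (Nat.cast_nonneg _)
    have h4 : κ₀ * (P₂.card : ℝ) ≤ κ₀ * X.card := mul_le_mul_of_nonneg_left hP₂n h0.le
    linarith
  have hyl : y ∈ ys := List.mem_of_getLast? h.last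
  have hyG : y ∈ G := (h.hys y hyl).1
  obtain ⟨y₁, hy₁⟩ : ∃ y₁, ys.head? = some y₁ := by
    cases hys : ys with
    | nil =>
      have h1 := h.len
      rw [hys, List.length_nil] at h1
      omega
    | cons a l => exact ⟨a, rfl⟩
  have hηs : κ₀ ≤ η / 8 := by linarith
  have hkU : κ * (U₁.card : ℝ) ≤ κ₀ ^ 2 / 8 * U₁.card := mul_le_mul_of_nonneg_right hκ (Nat.cast_nonneg _)
  have hU₁n : (U₁.card : ℝ) ≤ ζ * X.card := by
    have h1 : (U₁.card : ℝ) ≤ 2 * ((p + N + e : ℕ) : ℝ) := by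
      have h2 : U₁.card ≤ 2 * (p + N + e) := by
        have := h.hU₁c
        omega
      exact_mod_cast h2
    have h2 : 8 * κ₀ * (X.card : ℝ) ≤ ζ * X.card := mul_le_mul_of_nonneg_right hζ (Nat.cast_nonneg _)
    rw [← hnd] at h2 hX ⊢
    have h3 : 0 ≤ κ₀ * n := mul_nonneg h0.le hn0
    linarith
  have hU₁X : U₁ ≠ X := by
    intro he
    have h1 := h.hU₁c
    rw [he] at h1
    omega
  refine ⟨ys, y₁, y, P₁, P₂, U₁, X, ∅, Rsv.filter (fun w => R y w), h.card₁, ?_⟩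
  refine ⟨⟨h.len, h.nodup, h.chain, hy₁, h.last, ?_, h.hP₁, hP₂X, h.hU₁.trans h.hGX, Subset.refl _, h.disj, ?_, hcard,
    ?_, ?_, Or.inr (Or.inl ⟨rfl, hU₁n⟩), ?_, ?_, ?_, ?_, ?_, ?_, ?_, ?_, ?_, ?_, ?_, ?_⟩, ?_, ?_, ?_, ?_⟩
  · intro z hz
    obtain ⟨h1, h2, h3, h4, h5⟩ := h.hys z hz
    exact ⟨h2, hyX z hz, h3, h4, h5⟩
  · intro u hu
    by_cases h2 : u ∈ P₁
    · exact Or.inl h2
    · by_cases h3 : u ∈ ys
      · exact Or.inr (Or.inr h3)
      · exact Or.inr (Or.inl ((h.part u).2 ⟨hu, h2, h3⟩))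
  · have h1 : (0 : ℝ) ≤ P₁.card := Nat.cast_nonneg _
    linarith
  · have h1 : (0 : ℝ) ≤ X.card := Nat.cast_nonneg _
    linarith
  · intro z hz
    exact ((h.inn z hz).toR hkU ht₁ (hs.trans hηs) (le_refl (η / 8)) le_rfl).toRHost
  · intro z hz
    exact hgood z (h.hys z hz).1
  · refine (h.inn₁ y₁ ?_).toR hkU ht₁ (hs.trans hηs) ?_ ?_
    · rw [hy₁]
      rfl
    · linarith
    · omega
  · refine ⟨hgood y hyG, ?_, ?_⟩
    · intro w hw
      rw [mem_filter] at hw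
      obtain ⟨h1, h2, h3⟩ := h.hRsv w hw.1
      exact ⟨h1, hw.2, hrea w (h.good w h2)⟩
    · intro j hj
      have hjn : (j : ℝ) ≤ κ₀ / 2 * X.card := by
        refine hj.trans ((mul_le_mul_of_nonneg_right hτ (Nat.cast_nonneg _)).trans ?_)
        exact mul_le_mul_of_nonneg_left hP₂n (by linarith)
      have hXpos : (0 : ℝ) < X.card := by
        have h1 : 0 < X.card := by omega
        exact_mod_cast h1
      have hjn2 : (j : ℝ) < κ₀ * X.card := by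
        have h1 : 0 < κ₀ * (X.card : ℝ) := mul_pos h0 hXpos
        linarith
      have h1 := h.cnt j hjn2.le
      have hset : ∀ u, P₂.filter (fun w => R y w ∧ R w u ∧ w ∈ G ∧ w ∉ low R lam X) ⊆
          P₂.filter (fun w => R y w ∧ R w u ∧ Rea R X P₂ (κ * X.card) (β * P₂.card) w) := by
        intro u w hw
        rw [mem_filter] at hw ⊢
        exact ⟨hw.1, hw.2.1, hw.2.2.1, hrea w (h.good w hw.2.2.2.1)⟩
      have h2 : P₂.filter (fun u => R u y ∧ (∀ w ∈ Rsv.filter (fun w => R y w), ¬ R w u) ∧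
          (P₂.filter (fun w => R y w ∧ R w u ∧ Rea R X P₂ (κ * X.card) (β * P₂.card) w)).card ≤ j) ⊆
          Ex ∪ Gc.filter (fun u => (P₂.filter (fun w => R y w ∧ R w u ∧ w ∈ G ∧ w ∉ low R lam X)).card ≤ j) := by
        intro u hu
        rw [mem_filter] at hu
        obtain ⟨hu1, hu2, hu3, hu4⟩ := hu
        have hu5 := (card_le_card (hset u)).trans hu4
        rw [mem_union]
        rcases h.out u hu1 hu2 with h3 | ⟨w, h3, h4, h5⟩ | h3 | h3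
        · exact Or.inl h3
        · exact absurd h5 (hu3 w (mem_filter.2 ⟨h3, h4⟩))
        · exact Or.inr (mem_filter.2 ⟨h3, hu5⟩)
        · exfalso
          have h4 : ((P₂.filter (fun w => R y w ∧ R w u ∧ w ∈ G ∧ w ∉ low R lam X)).card : ℝ) ≤ j := by
            exact_mod_cast hu5
          linarith
      have h3 := (card_le_card h2).trans (card_union_le _ _)
      have h4 := h.hEx
      omega
  · simp
  · refine (card_filter_le _ _).trans (h.hRc.trans ?_)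
    have := h.card₁
    omega
  · rw [card_empty, Nat.cast_zero]
    have h1 : (0 : ℝ) ≤ ζ := by linarith
    exact mul_nonneg h1 (Nat.cast_nonneg _)
  · have h1 : ((Rsv.filter (fun w => R y w)).card : ℝ) ≤ 3 * ((p + N + e : ℕ) : ℝ) := by
      have h2 : (Rsv.filter (fun w => R y w)).card ≤ 3 * (p + N + e) := by
        refine (card_filter_le _ _).trans (h.hRc.trans ?_)
        omega
      exact_mod_cast h2
    have h2 : 8 * κ₀ * (X.card : ℝ) ≤ ζ * X.card := mul_le_mul_of_nonneg_right hζ (Nat.cast_nonneg _)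
    rw [← hnd] at h2 hX ⊢
    have h3 : 0 ≤ κ₀ * n := mul_nonneg h0.le hn0
    linarith
  · intro _ g hg
    exact hgood g (h.hU₁ hg)
  · intro hc
    exact absurd rfl hc
  · intro hc
    exact absurd hc hU₁X
  · intro _ C hCX _ hC
    have h1 : P₂ \ C ⊆ X \ C := sdiff_subset_sdiff hP₂X (Subset.refl _)
    have h2 : ((P₂ \ C).card : ℝ) ≤ (X \ C).card := by exact_mod_cast card_le_card h1
    have h3 : ((X \ C).card : ℝ) + C.card = X.card := by exact_mod_cast card_sdiff_add_card_eq_card hCX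
    have h4 : (P₁.card : ℝ) + N + P₂.card = X.card := by exact_mod_cast hcard
    have h5 : (P₁.card : ℝ) + N ≤ κ₀ * X.card := by
      refine le_trans ?_ hX
      have h6 := h.card₁
      exact_mod_cast (by omega : P₁.card + N ≤ p + N + e)
    have h6 : ε₀ * (X.card : ℝ) ≤ κ₀ * X.card := mul_le_mul_of_nonneg_right hε₀ (Nat.cast_nonneg _)
    have h7 : 25 * κ₀ * (X.card : ℝ) ≤ η * X.card := mul_le_mul_of_nonneg_right hη (Nat.cast_nonneg _)
    rw [← hnd] at h3 h4 h5 h6 h7 ht₂ hC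
    have h8 : 0 ≤ κ₀ * n := mul_nonneg h0.le hn0
    linarith
  · intro _ z hz
    exact (h.inn z hz).weak hkU ht₁ (hs.trans hηs) (by linarith) le_rfl
  · intro hc
    exact absurd hc hU₁X
  · intro w hw
    exact absurd hw (notMem_empty w)
  · intro w hw
    rw [mem_filter] at hw
    obtain ⟨h1, h2, h3⟩ := h.hRsv w hw.1
    constructor
    · by_contra hc
      push Not at hc
      exact h3 (mem_low.2 ⟨hP₂X h1, hc⟩)
    · have h4 := hlin w h2
      have h5 : ((P₂.filter (fun w' => R w w' ∧ Good R (κ₀ ^ 2 / 4) η X w')).card : ℝ) ≤ (nO R P₂ w).card := by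
        apply Nat.cast_le.2
        apply card_le_card
        intro w' hw'
        rw [mem_filter] at hw'
        exact mem_nO.2 ⟨hw'.1, hw'.2.1⟩
      have h6 : κ ≤ κ₀ := hκ.trans (by nlinarith)
      have h7 : κ * (X.card : ℝ) ≤ κ₀ * X.card := mul_le_mul_of_nonneg_right h6 (Nat.cast_nonneg _)
      linarith

/-- **The group cut lemma for all sizes, with counts and capacities** -/
theorem gcut_allB {β ζ : ℝ} (hβ : 0 < β) (hβ1 : β ≤ 1) (hζ : 0 < ζ) :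
    ∃ κ ξ s τ ε₀ : ℝ, 0 < κ ∧ κ ≤ 1 ∧ 0 < ξ ∧ ξ ≤ 1 ∧ 0 < s ∧ 0 < τ ∧ 0 < ε₀ ∧ ∀ N e lam : ℕ, 1 ≤ N → ∃ n₀ : ℕ,
      ∀ {V : Type*} {R : V → V → Prop}, AE32.Tour R → ∀ (X Bd : Finset V) (p : ℕ), Bd.card ≤ e → n₀ ≤ p →
        p + n₀ ≤ X.card → ∃ (ys : List V) (y₁ y₂ : V) (P₁ P₂ U₁ U₂ R₁ R₂ : Finset V), P₁.card = p ∧
          GA R X Bd N (5 * (N * e) + 8 * lam) κ ξ s τ ε₀ β ζ ys y₁ y₂ P₁ P₂ U₁ U₂ R₁ R₂ ∧
          GX R X N e lam κ s τ β ys P₁ P₂ U₁ U₂ R₁ R₂ := by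
  -- the small case
  obtain ⟨κ₀, hκ₀⟩ : ∃ κ₀ : ℝ, κ₀ = min (β / 200) (ζ / 8) := ⟨_, rfl⟩
  have h0 : 0 < κ₀ := by rw [hκ₀]; exact lt_min (by positivity) (by positivity)
  have hκβ : κ₀ ≤ β / 200 := by rw [hκ₀]; exact min_le_left _ _
  have hκζ : 8 * κ₀ ≤ ζ := by
    have : κ₀ ≤ ζ / 8 := by rw [hκ₀]; exact min_le_right _ _
    linarith
  have hκ1 : κ₀ ≤ 1 / 200 := by linarith
  -- the linear case
  obtain ⟨η', hη'⟩ : ∃ η' : ℝ, η' = κ₀ * β / 16 := ⟨_, rfl⟩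
  have hη'0 : 0 < η' := by rw [hη']; positivity
  have hη'1 : η' ≤ κ₀ / 16 := by
    rw [hη']
    have : κ₀ * β ≤ κ₀ * 1 := mul_le_mul_of_nonneg_left hβ1 h0.le
    linarith
  obtain ⟨κ₁, hκ₁⟩ : ∃ κ₁ : ℝ, κ₁ = η' / 20 := ⟨_, rfl⟩
  have hκ₁0 : 0 < κ₁ := by rw [hκ₁]; positivity
  have hκ₁₀ : κ₁ ≤ κ₀ := by rw [hκ₁]; linarith
  have hsq : κ₁ ^ 2 ≤ κ₀ ^ 2 := by nlinarith
  have hκ₁1 : κ₁ ≤ 1 := by linarith
  have hκ₁sq : κ₁ ^ 2 / 8 ≤ 1 := by nlinarith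
  refine ⟨κ₁ ^ 2 / 8, min (1 / 4) (κ₀ / 2), η' / 8, η' / 8, η', by positivity, hκ₁sq,
    lt_min (by norm_num) (by positivity), (min_le_left _ _).trans (by norm_num), by positivity, by positivity, hη'0, ?_⟩
  intro N e lam hN
  obtain ⟨n₀, hn₀⟩ : ∃ n₀ : ℕ, n₀ = ⌈(16 + 8 * ((N * (e + 1) : ℕ) : ℝ) + 4 * N + 4 * e) / κ₁⌉₊ + N + lam := ⟨_, rfl⟩
  refine ⟨n₀, ?_⟩
  intro V R hT X Bd p hBd hp hpX
  have hNe0 : (0 : ℝ) ≤ ((N * (e + 1) : ℕ) : ℝ) := Nat.cast_nonneg _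
  have hN0 : (0 : ℝ) ≤ N := Nat.cast_nonneg _
  have he0 : (0 : ℝ) ≤ e := Nat.cast_nonneg _
  have hnum : ∀ m : ℕ, n₀ ≤ m + N + lam → 16 + 8 * ((N * (e + 1) : ℕ) : ℝ) + 4 * N + 4 * e ≤ κ₁ * m := by
    intro m hm
    have h1 : (16 + 8 * ((N * (e + 1) : ℕ) : ℝ) + 4 * N + 4 * e) / κ₁ ≤ m := by
      refine (Nat.le_ceil _).trans ?_
      have h2 : ⌈(16 + 8 * ((N * (e + 1) : ℕ) : ℝ) + 4 * N + 4 * e) / κ₁⌉₊ ≤ m := by omega
      exact_mod_cast h2
    rw [div_le_iff₀ hκ₁0] at h1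
    linarith
  have hNn₀ : N ≤ n₀ := by omega
  obtain ⟨p₂, hp₂⟩ : ∃ p₂ : ℕ, p + N + p₂ = X.card := ⟨X.card - (p + N), by omega⟩
  have hp₂n : n₀ ≤ p₂ + N + lam := by omega
  have hlam₁ : lam ≤ p := by omega
  have hlam₂ : lam ≤ p₂ := by omega
  have hn1 := hnum p (by omega)
  have hn2 := hnum p₂ hp₂n
  have hpr0 : (0 : ℝ) ≤ p := Nat.cast_nonneg _
  have hp₂r0 : (0 : ℝ) ≤ p₂ := Nat.cast_nonneg _
  have hκ₁p : κ₁ * p ≤ κ₀ * p := mul_le_mul_of_nonneg_right hκ₁₀ hpr0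
  have hκ₁p₂ : κ₁ * p₂ ≤ κ₀ * p₂ := mul_le_mul_of_nonneg_right hκ₁₀ hp₂r0
  have hXr : (p : ℝ) + N + p₂ = X.card := by exact_mod_cast hp₂
  have hX0 : (0 : ℝ) ≤ X.card := Nat.cast_nonneg _
  have hs' : η' / 8 ≤ κ₀ := by linarith
  have hweak : ∀ {R : V → V → Prop} {ys : List V} {y₁ y₂ : V} {P₁ P₂ U₁ U₂ R₁ R₂ : Finset V},
      GA R X Bd N (5 * (N * e) + 8 * lam) (κ₁ ^ 2 / 8) (1 / 4) (η' / 8) (η' / 8) η' β ζ ys y₁ y₂ P₁ P₂ U₁ U₂ R₁ R₂ →
      GA R X Bd N (5 * (N * e) + 8 * lam) (κ₁ ^ 2 / 8) (min (1 / 4) (κ₀ / 2)) (η' / 8) (η' / 8) η' β ζ ys y₁ y₂ P₁ P₂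
        U₁ U₂ R₁ R₂ := by
    intro R ys y₁ y₂ P₁ P₂ U₁ U₂ R₁ R₂ h
    exact { h with
      sz₁ := (mul_le_mul_of_nonneg_right (min_le_left _ _) (Nat.cast_nonneg _)).trans h.sz₁
      sz₂ := (mul_le_mul_of_nonneg_right (min_le_left _ _) (Nat.cast_nonneg _)).trans h.sz₂ }
  by_cases hA : ((p + N + e : ℕ) : ℝ) ≤ κ₀ * X.card
  · obtain ⟨ys, y₁, y₂, P₁, P₂, U₁, U₂, R₁, R₂, h1, h2, h2x⟩ := gcut_all_smallB hT (X := X) (Bd := Bd) (p := p)
      (N := N) (e := e) (lam := lam) (κ₀ := κ₀) (η := β / 8) (κ := κ₁ ^ 2 / 8) (s := η' / 8) (τ := η' / 8) (ε₀ := η') (β := β) (ζ := ζ) h0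
      (by linarith) (by linarith) hβ1 hκζ hN (by linarith) hA hBd (by positivity) (by linarith) hs' (by linarith)
      (by linarith) hlam₁
    exact ⟨ys, y₁, y₂, P₁, P₂, U₁, U₂, R₁, R₂, h1, hweak h2, h2x⟩
  by_cases hB : ((p₂ + N + e : ℕ) : ℝ) ≤ κ₀ * X.card
  · obtain ⟨ys, y₁, y₂, P₁, P₂, U₁, U₂, R₁, R₂, h1, h2, h2x⟩ := gcut_all_smallB (rv_tour hT) (X := X) (Bd := Bd)
      (p := p₂) (N := N) (e := e) (lam := lam) (κ₀ := κ₀) (η := β / 8) (κ := κ₁ ^ 2 / 8) (s := η' / 8) (τ := η' / 8) (ε₀ := η') (β := β)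
      (ζ := ζ) h0 (by linarith) (by linarith) hβ1 hκζ hN (by linarith) hB hBd (by positivity) (by linarith) hs'
      (by linarith) (by linarith) hlam₂
    refine ⟨ys.reverse, y₂, y₁, P₂, P₁, U₂, U₁, R₂, R₁, ?_, hweak h2.dual, h2x.dual⟩
    have := h2.card
    omega
  push Not at hA hB
  push_cast at hA hB
  have hA' : κ₀ / 2 * X.card ≤ p := by
    have h1 : 4 * (N : ℝ) + 4 * e ≤ κ₀ * X.card := by
      have h2 : κ₀ * (p : ℝ) ≤ κ₀ * X.card := mul_le_mul_of_nonneg_left (by linarith) h0.le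
      linarith
    linarith
  have hB' : κ₀ / 2 * X.card ≤ p₂ := by
    have h1 : 4 * (N : ℝ) + 4 * e ≤ κ₀ * X.card := by
      have h2 : κ₀ * (p : ℝ) ≤ κ₀ * X.card := mul_le_mul_of_nonneg_left (by linarith) h0.le
      linarith
    linarith
  have hηX : η' * X.card ≤ κ₀ / 16 * X.card := mul_le_mul_of_nonneg_right hη'1 hX0
  have hκX : 0 ≤ κ₀ * (X.card : ℝ) := mul_nonneg h0.le hX0
  have hβP : ∀ m : ℝ, κ₀ / 2 * X.card ≤ m → 2 * η' * X.card ≤ β * m := by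
    intro m hm
    have h1 : β * (κ₀ / 2 * X.card) ≤ β * m := mul_le_mul_of_nonneg_left hm hβ.le
    have h2 : 2 * η' * X.card = β * (κ₀ * X.card) / 8 := by rw [hη']; ring
    have h3 : 0 ≤ β * (κ₀ * X.card) := mul_nonneg hβ.le hκX
    linarith
  obtain ⟨P₁, P₂, ys, h1, h2, h3, h4, h5, h6, h7, h8, h9, h10, h11, h12, h13, h14, h15⟩ := gcut_lin hT (X := X)
    (Bd := Bd) (p := p) (N := N) (e := e) (κ₀ := κ₁) (η := η') hκ₁0 (by rw [hκ₁]; linarith) (by linarith)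
    (by
      have h1 : κ₁ * p ≤ κ₁ * X.card := mul_le_mul_of_nonneg_left (by linarith) hκ₁0.le
      linarith) (by linarith) (by linarith) hBd
  have hP₁r : (P₁.card : ℝ) = p := by exact_mod_cast h8
  have hP₂r : (P₂.card : ℝ) = p₂ := by exact_mod_cast (by omega : P₂.card = p₂)
  have ht₁ : 2 * η' * X.card ≤ β * P₁.card := hβP _ (by rw [hP₁r]; exact hA')
  have ht₂ : 2 * η' * X.card ≤ β * P₂.card := hβP _ (by rw [hP₂r]; exact hB')
  have hk : κ₁ ^ 2 / 8 * (X.card : ℝ) ≤ κ₁ ^ 2 / 4 * X.card :=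
    mul_le_mul_of_nonneg_right (by nlinarith) hX0
  have hee : e ≤ N * e := Nat.le_mul_of_pos_left _ hN
  have hyne : ys ≠ [] := by
    rintro rfl
    rw [List.length_nil] at h1
    omega
  obtain ⟨y₁, hy₁⟩ : ∃ y₁, ys.head? = some y₁ := ⟨_, List.head?_eq_some_head hyne⟩
  obtain ⟨y₂, hy₂⟩ : ∃ y₂, ys.getLast? = some y₂ := ⟨_, List.getLast?_eq_some_getLast hyne⟩
  have hmin1 : ∀ m : ℝ, κ₀ / 2 * X.card ≤ m → min (1 / 4) (κ₀ / 2) * (X.card : ℝ) ≤ m := fun m hm =>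
    (mul_le_mul_of_nonneg_right (min_le_right _ _) hX0).trans hm
  refine ⟨ys, y₁, y₂, P₁, P₂, X, X, ∅, ∅, h8, ?_⟩
  refine ⟨⟨h1, h2, h3, hy₁, hy₂, ?_, h4, h5, Subset.refl _, Subset.refl _, h6, ?_, h9, hmin1 _ (by rw [hP₁r]; exact hA'),
    hmin1 _ (by rw [hP₂r]; exact hB'), Or.inl ⟨rfl, rfl⟩, ?_, ?_, ?_, ?_, by simp, by simp, ?_, ?_, ?_, ?_, ?_, ?_⟩,
    ?_, ?_, ?_, ?_⟩
  · intro z hz
    obtain ⟨a1, a2, a3, a4⟩ := h7 z hz
    exact ⟨a1, a1, a2, a3, a4⟩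
  · intro u hu
    by_contra hc
    push Not at hc
    obtain ⟨hc1, hc2, hc3⟩ := hc
    have h16 : insert u (P₁ ∪ (ys.toFinset ∪ P₂)) ⊆ X := by
      apply insert_subset hu
      apply union_subset h4 (union_subset _ h5)
      intro z hz
      exact (h7 z (List.mem_toFinset.1 hz)).1
    have h17 : (insert u (P₁ ∪ (ys.toFinset ∪ P₂))).card = P₁.card + (N + P₂.card) + 1 := by
      rw [card_insert_of_notMem, card_union_of_disjoint, card_union_of_disjoint,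
        List.toFinset_card_of_nodup h2, h1]
      · rw [disjoint_left]
        intro z hz hz'
        exact (h7 z (List.mem_toFinset.1 hz)).2.2.1 hz'
      · rw [disjoint_left]
        intro z hz hz'
        rcases mem_union.1 hz' with h18 | h18
        · exact (h7 z (List.mem_toFinset.1 h18)).2.1 hz
        · exact disjoint_left.1 h6 hz h18
      · rw [mem_union, mem_union, List.mem_toFinset]
        rintro (h18 | h18 | h18)
        · exact hc1 h18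
        · exact hc3 h18
        · exact hc2 h18
    have h18 := card_le_card h16
    omega
  · intro z hz
    exact ((h10 z hz).toR hk ht₁ le_rfl (le_refl (η' / 8)) le_rfl).toRHost
  · intro z hz
    exact ((h12 z hz).toR hk ht₂ le_rfl (le_refl (η' / 8)) le_rfl).toRHost
  · refine (h11 y₁ (by rw [hy₁]; rfl)).toR hk ht₁ le_rfl le_rfl ?_
    omega
  · refine (h13 y₂ (by rw [hy₂]; rfl)).toR hk ht₂ le_rfl le_rfl ?_
    omega
  · rw [card_empty, Nat.cast_zero]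
    exact mul_nonneg hζ.le hX0
  · rw [card_empty, Nat.cast_zero]
    exact mul_nonneg hζ.le hX0
  · intro hc
    exact absurd rfl hc
  · intro hc
    exact absurd rfl hc
  · intro _ C hCX hC hCc
    refine (h15 C hCX (AEF.Closed_mono (by nlinarith) hC) ?_).trans ht₁
    rw [hP₁r] at hCc
    exact hCc
  · intro _ C hCX hC hCc
    refine (h14 C hCX (AEF.Closed_mono (by nlinarith) hC) ?_).trans ht₂
    rw [hP₂r] at hCc
    linarith
  · intro _ z hz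
    exact (h10 z hz).weak hk ht₁ le_rfl le_rfl le_rfl
  · intro _ z hz
    exact (h12 z hz).weak hk ht₂ le_rfl le_rfl le_rfl
  · intro w hw
    exact absurd hw (notMem_empty w)
  · intro w hw
    exact absurd hw (notMem_empty w)

end AEG
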