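import Pool.Agent.AEG.PackHosts
import Pool.Agent.SPD.ConstE
import Pool.Agent.SPD.FinalD
import Pool.Agent.SPD.TopTwo

/-!
# Packing several forests at several hosts which reach robustly almost all of a part
-/

namespace AEG

open Finset AE15 SPD
open scoped Classical

variable {V : Type} {R : V → V → Prop}

/-- the items of partial embeddings have bounded degrees -/
theorem PEs.deg {b : ℕ} : ∀ {os : List (V × Fo)} {Z : Finset V} {L : List (Item V)}, PEs R os Z L →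
    (∀ p ∈ os, p.2.Deg b) → ∀ q ∈ L, q.2.len ≤ b ∧ q.2.Deg b
  | [], Z, L, ⟨_, h2⟩, _, q, hq => by
    rw [h2] at hq
    simp at hq
  | p :: os, Z, L, ⟨Z₁, Z₂, L₁, L₂, _, _, h3, h4, h5⟩, hd, q, hq => by
    rw [h3] at hq
    rcases List.mem_append.1 hq with h | h
    · exact h4.deg (hd p List.mem_cons_self) q h
    · exact PEs.deg h5 (fun p' hp' => hd p' (List.mem_cons_of_mem _ hp')) q h

/-- a host which reaches robustly almost all of `P` has many out-neighbours -/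
theorem Rea.many {U P : Finset V} {k t : ℝ} {z : V} (h : Rea R U P k t z) :
    min k (P.card - t) ≤ (nO R U z).card := by
  obtain ⟨W, hW, hWt⟩ := h
  have key : ∀ W, Rch R U k z W → W = nO R U z ∨ k ≤ (nO R U z).card := by
    intro W hW
    induction hW with
    | base => exact Or.inl rfl
    | step W' z' _ _ _ hk ih =>
      right
      rcases ih with h | h
      · rw [h] at hk
        refine hk.trans ?_
        exact_mod_cast card_le_card (filter_subset _ _)
      · exact h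
  rcases key W hW with h | h
  · rw [h] at hWt
    refine (min_le_right _ _).trans ?_
    have h1 : P.card ≤ (P \ nO R U z).card + (nO R U z).card := by
      refine (card_le_card (s := P) (t := (P \ nO R U z) ∪ nO R U z) ?_).trans (card_union_le _ _)
      intro w hw
      rw [mem_union, mem_sdiff]
      tauto
    have h2 : (P.card : ℝ) ≤ (P \ nO R U z).card + (nO R U z).card := by exact_mod_cast h1
    linarith
  · exact (min_le_left _ _).trans h

/-- small forests are packed greedily -/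
theorem small_all {U : Finset V} {C₀ s₀ b : ℕ} {κ η : ℝ}
    (hEE : ∀ c : Fo, c.len ≤ b → c.Deg b → EE R 1 C₀ κ η c) :
    ∀ (os : List (V × Fo)) (A : Finset V), (∀ p ∈ os, p.2.len ≤ b ∧ p.2.Deg b ∧ p.2.size ≤ s₀ ∧
      A.card + os.length * s₀ + s₀ + 1 + C₀ ≤ (nO R U p.1).card) →
      ∃ S, EmbAll R os S ∧ S ⊆ U ∧ Disjoint S A ∧ S.card ≤ os.length * s₀
  | [], A, _ => ⟨∅, rfl, empty_subset _, disjoint_empty_left _, by simp⟩
  | p :: os, A, h => by
    obtain ⟨h1, h2, h3, h4⟩ := h p List.mem_cons_self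
    have hl : (p :: os).length * s₀ = os.length * s₀ + s₀ := by
      rw [List.length_cons]
      ring
    have hcard : p.2.size + 1 + C₀ ≤ (nO R U p.1 \ A).card := by
      have := le_card_sdiff A (nO R U p.1)
      omega
    obtain ⟨S, hS, x, A₁, B₁, hx1, hx2, hx3, hx4, hx5, hx6, hx7⟩ := hEE p.2 h1 h2 (nO R U p.1 \ A) (fun _ => True) (by
      have : ((p.2.size + 1 + C₀ : ℕ) : ℝ) ≤ (nO R U p.1 \ A).card := by exact_mod_cast hcard
      push_cast at this
      linarith) (fun u _ => Or.inl trivial)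
    have hA1 : A₁ ⊆ nO R U p.1 \ A := by
      refine Subset.trans ?_ hS
      rw [hx5]
      exact (subset_union_left).trans (subset_insert _ _)
    have hE : Emb R p.2 (R p.1) A₁ := hx6.mono (fun v hv _ => by
      have := hA1 hv
      rw [mem_sdiff, mem_nO] at this
      exact this.1.2)
    have hA1c : A₁.card ≤ s₀ := by rw [hE.card]; exact h3
    obtain ⟨S₂, hS1, hS2, hS3, hS4⟩ := small_all (U := U) (C₀ := C₀) (s₀ := s₀) hEE os (A ∪ A₁) (by
      intro q hq
      obtain ⟨g1, g2, g3, g4⟩ := h q (List.mem_cons_of_mem _ hq)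
      refine ⟨g1, g2, g3, ?_⟩
      have := card_union_le A A₁
      omega)
    rw [disjoint_union_right] at hS3
    refine ⟨A₁ ∪ S₂, ⟨A₁, S₂, hS3.2.symm, rfl, hE, hS1⟩, union_subset ?_ hS2, ?_, ?_⟩
    · intro v hv
      have := hA1 hv
      rw [mem_sdiff, mem_nO] at this
      exact this.1.1
    · rw [disjoint_union_left]
      exact ⟨(disjoint_sdiff_self_left).mono_left hA1, hS3.1⟩
    · have := card_union_le A₁ S₂
      omega

theorem tot_le {os : List (V × Fo)} {s : ℕ} (h : ∀ p ∈ os, p.2.size ≤ s) : tot os ≤ os.length * s := by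
  induction os with
  | nil => simp [tot]
  | cons p os ih =>
    have h1 := ih (fun q hq => h q (List.mem_cons_of_mem _ hq))
    have h2 := h p List.mem_cons_self
    have h3 : tot (p :: os) = p.2.size + tot os := by simp [tot]
    rw [h3, List.length_cons, add_mul, one_mul]
    omega

/-- **Packing**: several forests of bounded degree are embedded at several hosts, which reach robustly almost all of
`P`; only boundedly many vertices outside `P` are used, all outside a given small set `A` -/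
theorem pack (b N : ℕ) (hb : 1 ≤ b) (hN : 1 ≤ N) {κc ξ₀ : ℝ} (hκc : 0 < κc) (hκc1 : κc ≤ 1) (hξ₀ : 0 < ξ₀)
    (hξ₀1 : ξ₀ ≤ 1) : ∃ (C J : ℕ) (δA : ℝ), 0 < δA ∧ ∀ {V : Type} {R : V → V → Prop}, AE32.Tour R →
    ∀ (U P A : Finset V) (y : V) (F : Fo) (os : List (V × Fo)) (t : ℝ), P ⊆ U → os.length + 1 ≤ N → F.len ≤ b →
      F.Deg b → (∀ p ∈ os, p.2.len ≤ b ∧ p.2.Deg b ∧ p.2.size ≤ F.size) → y ∈ U → y ∉ P → y ∈ A →
      (∀ p ∈ os, p.1 ∈ U ∧ p.1 ∉ P ∧ p.1 ∈ A) → ξ₀ * U.card ≤ P.card → Rea R U P (κc * U.card) t y →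
      (∀ p ∈ os, Rea R U P (κc * U.card) t p.1) →
      (∀ u ∈ P, R y u ∨ ∃ w ∈ P, R y w ∧ R w u ∧ Rea R U P (κc * U.card) t w) →
      (N + 1) * t ≤ et (N * b ^ 2) * P.card → (A.card : ℝ) ≤ δA * U.card → tot ((y, F) :: os) + C ≤ P.card →
      ∃ S, EmbAll R ((y, F) :: os) S ∧ S ⊆ U ∧ Disjoint (S \ P) A ∧ (S \ P).card ≤ J := by
  obtain ⟨B, hB⟩ : ∃ B : ℕ, B = N * b ^ 2 := ⟨_, rfl⟩
  rw [← hB]
  have hbb : b ≤ b ^ 2 := Nat.le_self_pow (by norm_num) b
  have hbB : b ≤ B := by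
    rw [hB]
    exact hbb.trans (Nat.le_mul_of_pos_left _ hN)
  have hB1 : 1 ≤ B := hb.trans hbB
  obtain ⟨hom, hom1, hcc, hcc1, het, het1, het1', het1'', hka0, hka0', hka1, hka1', hka, hka', hka'', hkaom, hsg2,
    hmu, hmu1⟩ := const_facts B hB1
  obtain ⟨M, hM⟩ : ∃ M : ℕ, M = ⌈8 / κc⌉₊ + 1 := ⟨_, rfl⟩
  obtain ⟨ρ, hρ⟩ : ∃ ρ : ℝ, ρ = min (min (ka B) κc) (et B) / 8 := ⟨_, rfl⟩
  have hρ0 : 0 < ρ := by rw [hρ]; positivity
  have hρ1 : ρ ≤ ka B / 8 := by
    rw [hρ]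
    exact div_le_div_of_nonneg_right ((min_le_left _ _).trans (min_le_left _ _)) (by norm_num)
  have hρ2 : ρ ≤ κc / 8 := by
    rw [hρ]
    exact div_le_div_of_nonneg_right ((min_le_left _ _).trans (min_le_right _ _)) (by norm_num)
  have hρ3 : ρ ≤ et B / 8 := by
    rw [hρ]
    exact div_le_div_of_nonneg_right (min_le_right _ _) (by norm_num)
  obtain ⟨σ, hσ⟩ : ∃ σ : ℝ, σ = min (ρ * ka B / 32) (ρ * ξ₀ * κc / 64) := ⟨_, rfl⟩
  have hσ0 : 0 < σ := by rw [hσ]; positivity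
  have hσ1 : σ ≤ ρ * ka B / 32 := by rw [hσ]; exact min_le_left _ _
  have hσ2 : σ ≤ ρ * ξ₀ * κc / 64 := by rw [hσ]; exact min_le_right _ _
  obtain ⟨δ, hδ⟩ : ∃ δ : ℝ, δ = cc B * σ / 4 := ⟨_, rfl⟩
  have hδ0 : 0 < δ := by rw [hδ]; positivity
  have hccσ : cc B * σ ≤ 1 / 48 * σ := mul_le_mul_of_nonneg_right hcc1 hσ0.le
  have hδσ : δ ≤ σ / 192 := by rw [hδ]; linarith only [hccσ]
  have hρκ : ρ * ka B ≤ ρ * 1 := mul_le_mul_of_nonneg_left hka'' hρ0.le
  have hσρ : σ ≤ ρ / 32 := by linarith only [hσ1, hρκ]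
  have hρ1' : ρ ≤ 1 := by linarith only [hρ1, hka'']
  obtain ⟨m, hm⟩ : ∃ m : ℕ, m = N * b ^ (M + 1) + 2 * b ^ (M + 1) + b := ⟨_, rfl⟩
  obtain ⟨n₁, hn₁⟩ := host_items hδ0 (by linarith only [hδσ, hσρ, hρ1', hσ0, hρ0]) hcc m
  obtain ⟨C₀, hC₀⟩ := ee_one B hB1
  obtain ⟨s₀, hs₀⟩ : ∃ s₀ : ℕ, s₀ = b * (b + 1) := ⟨_, rfl⟩
  obtain ⟨J, hJ⟩ : ∃ J : ℕ, J = (N + 3) * cnt b M + N * s₀ + 10 := ⟨_, rfl⟩
  obtain ⟨n₂, hn₂⟩ := exists_nat_ge ((100 + (J : ℝ) + m * C₀) / δ)
  rw [div_le_iff₀ hδ0] at hn₂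
  have hκξ : 0 < κc * ξ₀ := by positivity
  obtain ⟨n₃, hn₃⟩ := exists_nat_ge (((N : ℝ) * s₀ + s₀ + 1 + C₀) / (κc * ξ₀ / 4))
  rw [div_le_iff₀ (by positivity)] at hn₃
  obtain ⟨C, hC⟩ : ∃ C : ℕ, C = 2 * n₁ + n₂ + n₃ + C₀ + J + 1 := ⟨_, rfl⟩
  obtain ⟨δA, hδA⟩ : ∃ δA : ℝ, δA = ρ * ξ₀ * κc / 32 := ⟨_, rfl⟩
  have hδA0 : 0 < δA := by rw [hδA]; positivity
  refine ⟨C, J, δA, hδA0, ?_⟩
  intro V R hT U P A y F os t hPU hlenN hFl hFd hos hyU hyP hyA hosU hξU hReay hReaos hdom ht hAc htot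
  have hPC : C ≤ P.card := by omega
  have hU0 : (0 : ℝ) ≤ U.card := Nat.cast_nonneg _
  have hP0 : (0 : ℝ) ≤ P.card := Nat.cast_nonneg _
  have hPUc : (P.card : ℝ) ≤ U.card := by exact_mod_cast card_le_card hPU
  have ht0 : 0 ≤ t := by
    obtain ⟨W, _, hW⟩ := hReay
    exact le_trans (Nat.cast_nonneg _) hW
  have hlen1 : ((os.length : ℝ) + 1) ≤ N := by exact_mod_cast hlenN
  by_cases hsz : F.size ≤ b * (b + 1)
  · -- small forests
    have hNt : t ≤ (N + 1) * t := by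
      have : 0 ≤ (N : ℝ) * t := by positivity
      linarith
    have htP : t ≤ P.card / 2 := by
      have h1 : et B * P.card ≤ 1 / 240 * P.card := mul_le_mul_of_nonneg_right het1 hP0
      linarith
    have hmany : ∀ z, Rea R U P (κc * U.card) t z → κc * ξ₀ / 2 * U.card ≤ (nO R U z).card := by
      intro z hz
      refine le_trans ?_ (Rea.many hz)
      refine le_min ?_ ?_
      · have h1 : κc * ξ₀ ≤ κc * 1 := mul_le_mul_of_nonneg_left hξ₀1 hκc.le
        refine mul_le_mul_of_nonneg_right (by linarith) hU0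
      · have h1 : κc * (ξ₀ * U.card) ≤ 1 * P.card := mul_le_mul hκc1 hξU (by positivity) (by norm_num)
        have h2 : κc * ξ₀ / 2 * U.card = κc * (ξ₀ * U.card) / 2 := by ring
        rw [h2]
        linarith
    have hn3 : (N : ℝ) * s₀ + s₀ + 1 + C₀ ≤ κc * ξ₀ / 4 * U.card := by
      have h1 : (n₃ : ℝ) ≤ U.card := by
        refine le_trans ?_ hPUc
        exact_mod_cast (by omega : n₃ ≤ P.card)
      have h2 := mul_le_mul_of_nonneg_right h1 (by positivity : (0 : ℝ) ≤ κc * ξ₀ / 4)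
      linarith
    have hAc' : (A.card : ℝ) ≤ κc * ξ₀ / 4 * U.card := by
      refine hAc.trans (mul_le_mul_of_nonneg_right ?_ hU0)
      rw [hδA]
      have h1 : ρ * (ξ₀ * κc) ≤ 1 * (ξ₀ * κc) := mul_le_mul_of_nonneg_right hρ1' (by positivity)
      linarith
    have hbig : ∀ z, Rea R U P (κc * U.card) t z →
        A.card + ((y, F) :: os).length * s₀ + s₀ + 1 + C₀ ≤ (nO R U z).card := by
      intro z hz
      have h1 := hmany z hz
      have h2 : (((y, F) :: os).length : ℝ) * s₀ ≤ N * s₀ := by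
        refine mul_le_mul_of_nonneg_right ?_ (Nat.cast_nonneg _)
        rw [List.length_cons]
        push_cast
        exact hlen1
      have h3 : (A.card : ℝ) + ((y, F) :: os).length * s₀ + s₀ + 1 + C₀ ≤ (nO R U z).card := by linarith
      exact_mod_cast h3
    obtain ⟨S, h1, h2, h3, h4⟩ := small_all (R := R) (U := U) (C₀ := C₀) (s₀ := s₀) (b := b) (κ := ka B) (η := et B)
      (fun c h1 h2 => hC₀ hT c (h1.trans hbB) (deg_mono hbB h2)) ((y, F) :: os) A (by
        intro p hp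
        rcases List.mem_cons.1 hp with rfl | hp
        · exact ⟨hFl, hFd, by rw [hs₀]; exact hsz, hbig _ hReay⟩
        · obtain ⟨g1, g2, g3⟩ := hos p hp
          exact ⟨g1, g2, by rw [hs₀]; exact g3.trans hsz, hbig _ (hReaos p hp)⟩)
    refine ⟨S, h1, h2, h3.mono_left sdiff_subset, (card_le_card sdiff_subset).trans (h4.trans ?_)⟩
    have h5 : ((y, F) :: os).length * s₀ ≤ N * s₀ := Nat.mul_le_mul_right _ (by rw [List.length_cons]; exact hlenN)
    rw [hJ]
    omega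
  -- the main case
  push Not at hsz
  have key : 100 + (J : ℝ) + m * C₀ ≤ δ * P.card := by
    have h1 : (n₂ : ℝ) ≤ P.card := by exact_mod_cast (by omega : n₂ ≤ P.card)
    have h2 : (n₂ : ℝ) * δ ≤ P.card * δ := mul_le_mul_of_nonneg_right h1 hδ0.le
    linarith only [h2, hn₂]
  have hmC0 : (0 : ℝ) ≤ (m : ℝ) * C₀ := by positivity
  have hJ0 : (0 : ℝ) ≤ J := by positivity
  have g1 : 100 ≤ δ * P.card := by linarith only [key, hmC0, hJ0]
  have g2 : (J : ℝ) ≤ δ * P.card := by linarith only [key, hmC0, hJ0]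
  have k2 : δ * P.card ≤ σ * P.card := mul_le_mul_of_nonneg_right (by linarith only [hδσ, hσ0]) hP0
  have k3 : δ * P.card ≤ om B / 4 * P.card :=
    mul_le_mul_of_nonneg_right (by linarith only [hδσ, hσρ, hρ1, hkaom, hσ0, hρ0, hom]) hP0
  have k4 : δ * P.card ≤ ρ * P.card := mul_le_mul_of_nonneg_right (by linarith only [hδσ, hσρ, hσ0, hρ0]) hP0
  have k5 : δ * P.card ≤ ka0 B * P.card :=
    mul_le_mul_of_nonneg_right (by linarith only [hδσ, hσρ, hρ1, hka', hka1', hσ0, hρ0, hka0]) hP0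
  have g3 : (J : ℝ) ≤ σ * P.card := by linarith only [g2, k2]
  have g4 : (m : ℝ) * C₀ ≤ om B / 4 * P.card := by linarith only [key, k3, hJ0]
  have g5 : 2 ≤ ρ * P.card := by linarith only [g1, k4]
  have g6 : 8 ≤ ka0 B * P.card := by linarith only [g1, k5]
  have hCst := cst_of B hB1 (n := (P.card : ℝ)) hρ0 hρ1 hσ0 hσ1 (by rw [← hδ]; exact g1)
  obtain ⟨x, hS⟩ := exists_super hT P hka0 hka0' het1'' (by linarith only [g6])
  have hk1 : ka0 B ^ 2 / 4 = ka1 B := rfl
  rw [hk1] at hS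
  have hxP : x ∈ P := hS.1
  have hPn : P.Nonempty := ⟨x, hxP⟩
  have hfc : 2 * (δ + δ) ≤ cc B * σ := le_of_eq (by rw [hδ]; ring)
  have hκ₁ : σ ≤ ka1 B := by linarith only [hσρ, hρ1, hka', hρ0, hka, hσ0]
  have hcka : cc B * ka1 B / 4 = ka B := rfl
  have hcet : cc B * et B / 4 = et1 B := rfl
  have het1τ : σ ≤ et1 B / 8 := by
    linarith only [hσρ, hρ1, hka', hka1', hka0', hρ0, hka, hka1, hka0, het1']
  have hkap : 0 < cc B * ka1 B := by positivity
  have hetp : 0 < cc B * et B := by positivity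
  obtain ⟨𝓕, H, hF, hHP, hHc, hHx, _, hfin⟩ := final_lemma' hT (κ := ka B) (η := et B) (σ := σ) (δ := δ)
    (ε := δ) (c := cc B) hS hPn hka het hka1 het1' hσ0 hδ0.le hδ0 hcc het1τ hfc hκ₁
    (by linarith only [hcka, hkap]) (by linarith only [hcet, hetp]) ∅ J g3
  -- the hosts
  obtain ⟨Ys, hYs⟩ : ∃ Ys : Finset V, Ys = insert y (os.map Prod.fst).toFinset := ⟨_, rfl⟩
  have hyYs : y ∈ Ys := by rw [hYs]; exact mem_insert_self _ _
  have hosYs : ∀ p ∈ os, p.1 ∈ Ys := by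
    intro p hp
    rw [hYs, mem_insert, List.mem_toFinset]
    exact Or.inr (List.mem_map.2 ⟨p, hp, rfl⟩)
  have hYsm : ∀ z ∈ Ys, z = y ∨ ∃ p ∈ os, p.1 = z := by
    intro z hz
    rw [hYs, mem_insert, List.mem_toFinset, List.mem_map] at hz
    exact hz
  have hYsc : Ys.card ≤ N := by
    rw [hYs]
    refine (card_insert_le _ _).trans ?_
    have h1 := List.toFinset_card_le (os.map Prod.fst)
    rw [List.length_map] at h1
    omega
  obtain ⟨w, Ks, hwU, hwx, hKP, hKh, hKc, hyL, hwL⟩ := multi_hosts hT (U := U) (P := P) (Ys := Ys) (y := y) (x := x)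
    (κc := κc) (t := t) (ξ := ξ₀) (η := et B) (κ₀ := ka0 B) (η₁ := et1 B) (ρ := ρ) hka0 hka0' het1''
    hκc hκc1 hξ₀ hξ₀1 hPU (by
      intro z hz
      rcases hYsm z hz with rfl | ⟨p, hp, rfl⟩
      · exact hyU
      · exact (hosU p hp).1) hyYs hxP hξU (by
      intro z hz
      rcases hYsm z hz with rfl | ⟨p, hp, rfl⟩
      · exact hReay
      · exact hReaos p hp) hdom (by
      have h1 : (Ys.card : ℝ) ≤ N := by exact_mod_cast hYsc
      refine le_trans (mul_le_mul_of_nonneg_right (by linarith only [h1]) ht0) ht) (by linarith only [het1]) hρ0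
    (by linarith only [hρ3, het]) hρ2 g5 g6
  rw [hk1] at hKh
  rw [← hM] at hyL hwL
  -- the placed vertices
  obtain ⟨A₁, hA₁⟩ : ∃ A₁ : Finset V, A₁ = {x, w} ∪ H ∪ A := ⟨_, rfl⟩
  have hAA1 : A ⊆ A₁ := by rw [hA₁]; exact subset_union_right
  have hHA1 : H ⊆ A₁ := by rw [hA₁]; exact (subset_union_right).trans subset_union_left
  have hxA1 : x ∈ A₁ := by rw [hA₁]; simp
  have hwA1 : w ∈ A₁ := by rw [hA₁]; simp
  have hcnt0 : (0 : ℝ) ≤ cnt b M := by positivity
  have hlenR : ((os.length + 1 : ℕ) : ℝ) * cnt b M ≤ N * cnt b M := by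
    refine mul_le_mul_of_nonneg_right ?_ hcnt0
    exact_mod_cast hlenN
  have hJcnt : ((N : ℝ) + 3) * cnt b M + 10 ≤ J := by
    rw [hJ]
    push_cast
    have : (0 : ℝ) ≤ (N : ℝ) * s₀ := by positivity
    linarith
  have hNcnt : (0 : ℝ) ≤ N * cnt b M := by positivity
  have hA1c : (A₁.card : ℝ) + (J : ℝ) ≤ ρ * ξ₀ * κc / 4 * U.card := by
    have h1 : A₁.card ≤ 2 + H.card + A.card := by
      rw [hA₁]
      exact (card_union_le _ _).trans (Nat.add_le_add_right ((card_union_le _ _).trans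
        (Nat.add_le_add_right card_le_two _)) _)
    have h2 : (A₁.card : ℝ) ≤ 2 + H.card + A.card := by exact_mod_cast h1
    have h3 : 2 * σ * P.card ≤ 2 * σ * U.card := mul_le_mul_of_nonneg_left hPUc (by positivity)
    have h4 : 2 * σ * U.card ≤ ρ * ξ₀ * κc / 32 * U.card := mul_le_mul_of_nonneg_right (by linarith only [hσ2]) hU0
    have h5 : δ * P.card ≤ δ * U.card := mul_le_mul_of_nonneg_left hPUc hδ0.le
    have h6 : δ * U.card ≤ ρ * ξ₀ * κc / 64 * U.card :=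
      mul_le_mul_of_nonneg_right (by linarith only [hδσ, hσ2, hσ0]) hU0
    have h7 : (0 : ℝ) ≤ ρ * ξ₀ * κc * U.card := mul_nonneg (by positivity) hU0
    rw [hδA] at hAc
    linarith only [h2, h3, h4, h5, h6, h7, hAc, hHc, key, hmC0]
  obtain ⟨Z₁, L₁, Lh₁, cf, hPE, hxZ, hyZ, hZ1, hZ1c, hL1, hLh1, hlenh, hszF⟩ := side_place hT hb (b := b)
    (hKP.trans hPU) (hyL y hyYs) hwL (c₀ := F) (x := x) (A := A₁) (hwx.imp id (fun h => ⟨h.2.1, h.2.2⟩))
    (fun e => hyP (e ▸ hxP)) hFl hFd hsz (hAA1 hyA) hwA1 hxA1 (by linarith only [hA1c, hJcnt, hcnt0, hNcnt])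
  obtain ⟨Z₂, L₂, hPEs, hZ2U, hZ2A, hZ2c, hL2c, hL2h⟩ := place_all (R := R) hb (hKP.trans hPU) (k := ρ * ξ₀ * κc / 4 * U.card)
    M os (A₁ ∪ Z₁) (by
      intro p hp
      obtain ⟨h1, h2, h3⟩ := hos p hp
      exact ⟨hyL p.1 (hosYs p hp), mem_union_left _ (hAA1 (hosU p hp).2.2), h1, h2⟩) (by
      have h1 : ((A₁ ∪ Z₁).card : ℝ) ≤ A₁.card + Z₁.card := by exact_mod_cast card_union_le _ _
      have h2 : (Z₁.card : ℝ) ≤ 2 * cnt b M + 2 := by exact_mod_cast hZ1c
      linarith only [h1, h2, hlenR, hA1c, hJcnt, hcnt0])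
  rw [disjoint_union_right] at hZ2A
  obtain ⟨hZ2A1, hZ21⟩ := hZ2A
  obtain ⟨Za, hZa⟩ : ∃ Za : Finset V, Za = Z₁ ∪ Z₂ := ⟨_, rfl⟩
  have hZaJ : Za.card ≤ J := by
    rw [hZa]
    have h1 := card_union_le Z₁ Z₂
    have h2 : os.length * cnt b M ≤ N * cnt b M := Nat.mul_le_mul_right _ (by omega)
    have h3 : (N + 3) * cnt b M = N * cnt b M + 3 * cnt b M := by ring
    omega
  have hall : PEs R ((y, F) :: os) Za (L₁ ++ L₂) := ⟨Z₁, Z₂, L₁, L₂, hZ21.symm, hZa, rfl, hPE, hPEs⟩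
  have hLperm : (L₁ ++ L₂).Perm ((R x, cf) :: (Lh₁ ++ L₂)) := by
    rw [← List.cons_append]
    exact hL1.append_right _
  have hisz : isz (L₁ ++ L₂) = cf.size + 1 + isz (Lh₁ ++ L₂) := by
    have h1 : isz (L₁ ++ L₂) = isz ((R x, cf) :: (Lh₁ ++ L₂)) := by
      unfold isz
      exact (hLperm.map _).sum_eq
    rw [h1, isz_cons]
  have htots := hall.size
  have hEEc : ∀ c : Fo, c.len ≤ b ∧ c.Deg b → EE R 1 C₀ (ka B) (et B) c := fun c h =>
    hC₀ hT c (h.1.trans hbB) (deg_mono hbB h.2)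
  have hitems : ∀ q ∈ L₁ ++ L₂, q.2.len ≤ b ∧ q.2.Deg b := hall.deg (by
    intro p hp
    rcases List.mem_cons.1 hp with rfl | hp
    · exact hFd
    · exact (hos p hp).2.1)
  have hZaH : Disjoint Za H := by
    rw [disjoint_left]
    intro z hz hzH
    rw [hZa, mem_union] at hz
    rcases hz with h | h
    · rcases hZ1 z h with h1 | h1 | h1
      · rw [h1] at hzH
        exact hT.irr _ (hHx _ hzH)
      · rw [h1] at hzH
        rcases hwx with h2 | h2
        · exact hyP (h2.1 ▸ hHP hzH)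
        · exact hT.asym _ _ h2.2.2 (hHx _ hzH)
      · exact h1.2 (hHA1 hzH)
    · exact disjoint_left.1 hZ2A1 h (hHA1 hzH)
  obtain ⟨T, hTP, hTE⟩ := coreX hT hCst hS hF hHP hHc (D := ∅) (J := J) (by rw [← hδ]; exact hfin) (by
      rw [card_empty, Nat.cast_zero]
      exact mul_nonneg (by positivity) hP0) hKP hKh hKc (Za := Za) (L := L₁ ++ L₂) (Lh := Lh₁ ++ L₂) (cf := cf)
    (t := (tot ((y, F) :: os) : ℕ)) (z := (Za.card : ℕ)) (Nat.cast_nonneg _) (by
      have h1 : tot ((y, F) :: os) = Za.card + (cf.size + 1) + isz (Lh₁ ++ L₂) := by omega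
      rw [h1]
      push_cast
      ring) hZaJ hZaH (by rw [hZa]; exact mem_union_left _ hxZ) (by
      rw [← hδ]
      have h1 : (Za.card : ℝ) ≤ J := by exact_mod_cast hZaJ
      linarith only [h1, g2]) hLperm (by
      intro p hp
      rcases List.mem_append.1 hp with h | h
      · exact hLh1 p h
      · obtain ⟨z, h1, h2⟩ := hL2h p h
        exact ⟨z, Or.inr h1, h2⟩) (m := m) (by
      rw [List.length_append, hm]
      have h1 : os.length * b ^ (M + 1) ≤ N * b ^ (M + 1) := Nat.mul_le_mul_right _ (by omega)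
      omega) (n₁ := n₁) (by omega) (by rw [← hδ]; exact hn₁)
    (K := 1) (C := C₀) (K' := 1) (C' := C₀) zero_le_one (Nat.cast_nonneg _) le_rfl (Nat.cast_nonneg _)
    (by linarith only [hom]) g4 (fun p hp => hEEc _ (hitems p (hLperm.mem_iff.2 (List.mem_cons_of_mem _ hp))))
    (hEEc _ (hitems (R x, cf) (hLperm.mem_iff.2 List.mem_cons_self))) (by
      have h1 : tot ((y, F) :: os) ≤ ((y, F) :: os).length * F.size := tot_le (by
        intro p hp
        rcases List.mem_cons.1 hp with rfl | hp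
        · exact le_rfl
        · exact (hos p hp).2.2)
      have h2 : ((y, F) :: os).length * F.size ≤ N * (3 * b ^ 3 * (cf.size + 1)) :=
        Nat.mul_le_mul (by rw [List.length_cons]; exact hlenN) hszF
      have h3 : (tot ((y, F) :: os) : ℝ) ≤ N * (3 * b ^ 3 * (cf.size + 1)) := by exact_mod_cast h1.trans h2
      have hbR : (1 : ℝ) ≤ b := by exact_mod_cast hb
      have hNR : (1 : ℝ) ≤ N := by exact_mod_cast hN
      have h4 : om B * ((N : ℝ) ^ 2 * b ^ 4) = 1 / 6 := by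
        unfold om
        rw [hB]
        push_cast
        have hb0 : (b : ℝ) ≠ 0 := by positivity
        have hN0 : (N : ℝ) ≠ 0 := by positivity
        field_simp
      have h5 : (N : ℝ) * b ^ 3 ≤ N ^ 2 * b ^ 4 := by
        have h6 : (b : ℝ) ^ 3 ≤ b ^ 4 := pow_le_pow_right₀ hbR (by norm_num)
        have h7 : (N : ℝ) ≤ N ^ 2 := le_self_pow₀ hNR (by norm_num)
        exact mul_le_mul h7 h6 (by positivity) (by positivity)
      have h8 : (0 : ℝ) ≤ cf.size + 1 := by positivity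
      calc 2 * om B * (tot ((y, F) :: os) : ℝ) ≤ 2 * om B * (N * (3 * b ^ 3 * (cf.size + 1))) :=
            mul_le_mul_of_nonneg_left h3 (by positivity)
        _ = 6 * (om B * (N * b ^ 3)) * (cf.size + 1) := by ring
        _ ≤ 6 * (om B * (N ^ 2 * b ^ 4)) * (cf.size + 1) := by
            apply mul_le_mul_of_nonneg_right _ h8
            apply mul_le_mul_of_nonneg_left _ (by norm_num)
            exact mul_le_mul_of_nonneg_left h5 hom.le
        _ = cf.size + 1 := by rw [h4]; ring) (by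
      have h1 : tot ((y, F) :: os) + C₀ + J ≤ P.card := by omega
      have h2 : ((tot ((y, F) :: os) + C₀ + J : ℕ) : ℝ) ≤ P.card := by exact_mod_cast h1
      have h3 : (Za.card : ℝ) ≤ J := by exact_mod_cast hZaJ
      push_cast at h2
      linarith only [h2, h3])
  have hTZ : Disjoint Za T := (disjoint_sdiff_self_right).mono_right hTP
  have hSP : (Za ∪ T) \ P ⊆ Za \ P := by
    intro v hv
    rw [mem_sdiff, mem_union] at hv
    rw [mem_sdiff]
    rcases hv.1 with h | h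
    · exact ⟨h, hv.2⟩
    · exact absurd (sdiff_subset (hTP h)) hv.2
  refine ⟨Za ∪ T, hall.complete T hTZ hTE, ?_, ?_, ?_⟩
  · refine union_subset ?_ ((hTP.trans sdiff_subset).trans hPU)
    intro v hv
    rw [hZa, mem_union] at hv
    rcases hv with h | h
    · rcases hZ1 v h with h1 | h1 | h1
      · exact hPU (h1 ▸ hxP)
      · exact h1 ▸ hwU
      · exact h1.1
    · exact hZ2U h
  · rw [disjoint_left]
    intro v hv hvA
    have hv' := hSP hv
    rw [mem_sdiff, hZa, mem_union] at hv'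
    rcases hv'.1 with h | h
    · rcases hZ1 v h with h1 | h1 | h1
      · exact hv'.2 (h1 ▸ hxP)
      · rcases hwx with h2 | h2
        · exact hyZ (h2.1 ▸ h1 ▸ h)
        · exact hv'.2 (h1 ▸ h2.1)
      · exact h1.2 (hAA1 hvA)
    · exact disjoint_left.1 hZ2A1 h (hAA1 hvA)
  · exact ((card_le_card hSP).trans (card_le_card sdiff_subset)).trans hZaJ

end AEG
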