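import Pool.Agent.AEM.Order

/-!
# Routes from one host to the next

`M` is the set of the link hosts which can be used (out-neighbours of the last host), `A` is the part of `P` which is
reached from `M`, `F` is a small set which has to be avoided, `y` is the first host of the next group. The route has
exactly two links (`v`, `a`) or exactly three links (`v`, `a`, `w`).
-/

set_option autoImplicit false

namespace AEG

open Finset
open scoped Classical

variable {V : Type*} {R : V → V → Prop}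

/-- all but one of the vertices which are in `M` or dominated by `M \ F` are dominated by `M \ F` -/
theorem card_no_dom (hT : AE32.Tour R) {M A F : Finset V} (hcov : ∀ u ∈ A, u ∈ M ∨ ∃ v ∈ M, v ∉ F ∧ R v u) :
    ((A \ F).filter (fun u => ¬ ∃ v ∈ M, v ∉ F ∧ R v u)).card ≤ 1 := by
  rw [card_le_one]
  intro u hu w hw
  rw [mem_filter, mem_sdiff] at hu hw
  by_contra hne
  have hu1 : u ∈ M := (hcov u hu.1.1).resolve_right hu.2
  have hw1 : w ∈ M := (hcov w hw.1.1).resolve_right hw.2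
  rcases hT.tot u w hne with h | h
  · exact hw.2 ⟨u, hu1, hu.1.2, h⟩
  · exact hu.2 ⟨w, hw1, hw.1.2, h⟩

/-- **A route with two links.** -/
theorem exists_route2 (hT : AE32.Tour R) {M A F : Finset V} {y : V}
    (hcov : ∀ u ∈ A, u ∈ M ∨ ∃ v ∈ M, v ∉ F ∧ R v u) (hA : 2 ≤ ((A \ F).filter (fun u => R u y)).card) :
    ∃ v a, v ∈ M ∧ a ∈ A ∧ v ∉ F ∧ a ∉ F ∧ R v a ∧ R a y ∧ v ≠ a := by
  have h1 := card_no_dom hT hcov
  have h2 : ¬ (A \ F).filter (fun u => R u y) ⊆ (A \ F).filter (fun u => ¬ ∃ v ∈ M, v ∉ F ∧ R v u) := by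
    intro h3
    have := card_le_card h3
    omega
  rw [not_subset] at h2
  obtain ⟨a, ha, ha'⟩ := h2
  rw [mem_filter, mem_sdiff] at ha
  rw [mem_filter, mem_sdiff, not_and, not_not] at ha'
  obtain ⟨v, hv, hvF, hva⟩ := ha' ha.1
  exact ⟨v, a, hv, ha.1.1, hvF, ha.1.2, hva, ha.2, fun h => hT.irr a (h ▸ hva)⟩

/-- **A route with three links.** `hcnt`: the count at the host `y`, in `P`. -/
theorem exists_route3 (hT : AE32.Tour R) {M A F P : Finset V} {y : V} {e : ℕ} (hAP : A ⊆ P) (hyA : y ∉ A)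
    (hcov : ∀ u ∈ A, u ∈ M ∨ ∃ v ∈ M, v ∉ F ∧ R v u)
    (hcnt : (P.filter (fun u => R y u ∧ (P.filter (fun w => R u w ∧ R w y)).card ≤ F.card + 1)).card ≤ e)
    (hA : e + 3 ≤ (A \ F).card) :
    ∃ v a w, v ∈ M ∧ a ∈ A ∧ w ∈ P ∧ v ∉ F ∧ a ∉ F ∧ w ∉ F ∧ R v a ∧ R a w ∧ R w y ∧ v ≠ a ∧ v ≠ w ∧ a ≠ w := by
  have h1 := card_no_dom hT hcov
  obtain ⟨A₁, hA₁⟩ : ∃ A₁, A₁ = (A \ F).filter (fun u => (∃ v ∈ M, v ∉ F ∧ R v u) ∧
      ¬ (R y u ∧ (P.filter (fun w => R u w ∧ R w y)).card ≤ F.card + 1)) := ⟨_, rfl⟩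
  have h2 : 2 ≤ A₁.card := by
    have h3 : A \ F ⊆ A₁ ∪ (((A \ F).filter (fun u => ¬ ∃ v ∈ M, v ∉ F ∧ R v u)) ∪
        P.filter (fun u => R y u ∧ (P.filter (fun w => R u w ∧ R w y)).card ≤ F.card + 1)) := by
      intro u hu
      have huP : u ∈ P := hAP (mem_sdiff.1 hu).1
      rw [hA₁]
      simp only [mem_union, mem_filter]
      tauto
    have h4 := card_le_card h3
    have h5 := card_union_le A₁ (((A \ F).filter (fun u => ¬ ∃ v ∈ M, v ∉ F ∧ R v u)) ∪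
        P.filter (fun u => R y u ∧ (P.filter (fun w => R u w ∧ R w y)).card ≤ F.card + 1))
    have h6 := card_union_le ((A \ F).filter (fun u => ¬ ∃ v ∈ M, v ∉ F ∧ R v u))
        (P.filter (fun u => R y u ∧ (P.filter (fun w => R u w ∧ R w y)).card ≤ F.card + 1))
    omega
  obtain ⟨a, ha, b, hb, hab⟩ := one_lt_card.1 (show 1 < A₁.card by omega)
  have key : ∀ a ∈ A₁, R y a → ∃ v a w, v ∈ M ∧ a ∈ A ∧ w ∈ P ∧ v ∉ F ∧ a ∉ F ∧ w ∉ F ∧ R v a ∧ R a w ∧ R w y ∧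
      v ≠ a ∧ v ≠ w ∧ a ≠ w := by
    intro a ha hya
    rw [hA₁, mem_filter, mem_sdiff] at ha
    obtain ⟨⟨haA, haF⟩, ⟨v, hv, hvF, hva⟩, h3⟩ := ha
    have h4 : F.card + 1 < (P.filter (fun w => R a w ∧ R w y)).card := by
      by_contra h5
      exact h3 ⟨hya, by omega⟩
    have h5 : (insert v F).card ≤ F.card + 1 := card_insert_le _ _
    obtain ⟨w, hw, hw'⟩ := exists_mem_notMem_of_card_lt_card (lt_of_le_of_lt h5 h4)
    rw [mem_filter] at hw
    rw [mem_insert, not_or] at hw'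
    exact ⟨v, a, w, hv, haA, hw.1, hvF, haF, hw'.2, hva, hw.2.1, hw.2.2, fun h => hT.irr a (h ▸ hva),
      fun h => hw'.1 h.symm, fun h => hT.irr a (by rw [← h] at hw; exact hw.2.1)⟩
  have key2 : ∀ a ∈ A₁, ∀ b ∈ A₁, R b y → R a b → ∃ v a w, v ∈ M ∧ a ∈ A ∧ w ∈ P ∧ v ∉ F ∧ a ∉ F ∧ w ∉ F ∧ R v a ∧
      R a w ∧ R w y ∧ v ≠ a ∧ v ≠ w ∧ a ≠ w := by
    intro a ha b hb hby hab
    rw [hA₁, mem_filter, mem_sdiff] at ha hb
    obtain ⟨⟨haA, haF⟩, ⟨v, hv, hvF, hva⟩, h3⟩ := ha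
    exact ⟨v, a, b, hv, haA, hAP hb.1.1, hvF, haF, hb.1.2, hva, hab, hby, fun h => hT.irr a (h ▸ hva),
      fun h => hT.asym _ _ hab (h ▸ hva), fun h => hT.irr a (by rw [← h] at hab; exact hab)⟩
  have hay : a ≠ y := fun h => hyA (by rw [← h]; rw [hA₁, mem_filter, mem_sdiff] at ha; exact ha.1.1)
  have hby : b ≠ y := fun h => hyA (by rw [← h]; rw [hA₁, mem_filter, mem_sdiff] at hb; exact hb.1.1)
  rcases hT.tot a y hay with h3 | h3
  · rcases hT.tot b y hby with h4 | h4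
    · rcases hT.tot a b hab with h5 | h5
      · exact key2 a ha b hb h4 h5
      · exact key2 b hb a ha h3 h5
    · exact key b hb h4
  · exact key a ha h3

end AEG
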