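import Pool.Agent.AEG.State
import Pool.Agent.AEG.Route
import Pool.Agent.AEG.GAllB
import Pool.Agent.AEG.PackB
import Pool.Agent.AE15.Reach

/-!
# The front of a cluster round

`small_at`: small side forests at a given host.

`front`: the two link vertices `v`, `a` in front of the first host `y₁` of the next group, with their side forests.
-/

set_option autoImplicit false

namespace AEG

open Finset AE15 AED AEB SPD
open scoped Classical

variable {V : Type} {R : V → V → Prop}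

/-- a small out-forest at a given host, avoiding a small set -/
theorem small_out (hT : AE32.Tour R) {X F : Finset V} {h : V} {G : Fd} {B₀ : ℕ} (h1 : ∀ r ∈ G.trees, r.1 = true)
    (hB : G.size ≤ B₀) (hout : F.card + 2 ^ B₀ ≤ (nO R X h).card) :
    ∃ S, Emb R G h S ∧ S ⊆ nO R X h ∧ Disjoint S F := by
  have hcard : 2 ^ G.size ≤ (nO R X h \ F).card := by
    have h5 := le_card_sdiff F (nO R X h)
    have h6 : 2 ^ G.size ≤ 2 ^ B₀ := Nat.pow_le_pow_right (by norm_num) hB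
    omega
  obtain ⟨w, hwl, hwS, hwR⟩ := exists_tl hT G.size _ hcard
  have hwS' : ∀ x ∈ w, x ∈ nO R X h ∧ x ∉ F := by
    intro x hx
    have := hwS x hx
    rw [mem_sdiff] at this
    exact this
  refine ⟨w.toFinset, emb_flags hT G h1 h w hwR (fun x hx => (mem_nO.1 (hwS' x hx).1).2) hwl, ?_, ?_⟩
  · intro x hx
    rw [List.mem_toFinset] at hx
    exact (hwS' x hx).1
  · rw [disjoint_left]
    intro x hx
    rw [List.mem_toFinset] at hx
    exact (hwS' x hx).2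

/-- small side forests at a given host, avoiding a small set -/
theorem small_at (hT : AE32.Tour R) {X F : Finset V} {h : V} {q : Fd × Fd} {B₀ : ℕ}
    (h1 : ∀ r ∈ q.1.trees, r.1 = true) (h2 : ∀ r ∈ q.2.trees, r.1 = true) (hB : q.1.size + q.2.size ≤ B₀)
    (hin : F.card + 2 ^ B₀ ≤ (nI R X h).card) (hout : F.card + 2 ^ B₀ ≤ (nO R X h).card) :
    ∃ SA SD, Emb (rv R) q.1 h SA ∧ Emb R q.2 h SD ∧ SA ⊆ nI R X h ∧ SD ⊆ nO R X h ∧ Disjoint SA F ∧
      Disjoint SD F ∧ Disjoint SA SD ∧ h ∉ SA ∧ h ∉ SD ∧ SA.card + SD.card ≤ B₀ := by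
  obtain ⟨SA, a1, a2, a3⟩ := small_out (R := rv R) (rv_tour hT) (X := X) (F := F) (h := h) h1
    (by omega : q.1.size ≤ B₀) hin
  obtain ⟨SD, d1, d2, d3⟩ := small_out hT (X := X) (F := F) (h := h) h2 (by omega : q.2.size ≤ B₀) hout
  have a2' : SA ⊆ nI R X h := a2
  refine ⟨SA, SD, a1, d1, a2', d2, a3, d3, ?_, ?_, ?_, ?_⟩
  · rw [disjoint_left]
    intro x hx hx'
    exact hT.asym _ _ (mem_nI.1 (a2' hx)).2 (mem_nO.1 (d2 hx')).2
  · exact fun hh => hT.irr _ (mem_nI.1 (a2' hh)).2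
  · exact fun hh => hT.irr _ (mem_nO.1 (d2 hh)).2
  · rw [EmbB.card a1, EmbB.card d1]
    exact hB

/-- **The front of a cluster round** -/
theorem front (hT : AE32.Tour R) {Y V₀ P₁ F : Finset V} {Nn : V → Prop} {κ η s s₁ : ℝ} {lam sig K w f B₀ c : ℕ} {y₁ : V}
    {t₁ t₂ : Fd × Fd} (hSt : StM R Y V₀ Nn κ η s lam sig K) (hκη : κ ≤ 1 - η)
    (hw : (V₀ \ low R sig (Y ∪ V₀)).card ≤ w) (hP : P₁ ⊆ (Y ∪ V₀) \ low R sig (Y ∪ V₀))
    (hy : s₁ * P₁.card ≤ ((P₁.filter (fun a => R a y₁)).card : ℝ)) (hF : F.card ≤ f)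
    (ht₁ : ∀ r ∈ t₁.1.trees, r.1 = true) (ht₁' : ∀ r ∈ t₁.2.trees, r.1 = true) (hB₁ : t₁.1.size + t₁.2.size ≤ B₀)
    (ht₂ : ∀ r ∈ t₂.1.trees, r.1 = true) (ht₂' : ∀ r ∈ t₂.2.trees, r.1 = true) (hB₂ : t₂.1.size + t₂.2.size ≤ B₀)
    (hc : f + 2 + B₀ + 2 ^ B₀ ≤ c) (hlam : c ≤ lam) (hsig : c ≤ sig) (hκY : (c : ℝ) ≤ κ * Y.card)
    (hbig : ((w + 2 * c + K * f + f + 2 : ℕ) : ℝ) ≤ s₁ * P₁.card) :
    ∃ (v a : V) (SA SD : Finset V), v ∈ Y ∧ Nn v ∧ a ∈ P₁ ∧ a ∈ Y ∧ R v a ∧ R a y₁ ∧ v ≠ a ∧ v ∉ F ∧ a ∉ F ∧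
      EmbAllB (rv R) [(v, t₁.1), (a, t₂.1)] SA ∧ EmbAllB R [(v, t₁.2), (a, t₂.2)] SD ∧ SA ⊆ Y ∪ V₀ ∧ SD ⊆ Y ∪ V₀ ∧
      Disjoint SA SD ∧ Disjoint SA F ∧ Disjoint SD F ∧ v ∉ SA ∧ v ∉ SD ∧ a ∉ SA ∧ a ∉ SD ∧
      SA.card + SD.card ≤ 2 * B₀ := by
  obtain ⟨M, hM⟩ : ∃ M, M = Y.filter (fun v => Nn v ∧ c ≤ (nI R (Y ∪ V₀) v).card ∧ c ≤ (nO R Y v).card) := ⟨_, rfl⟩
  obtain ⟨A, hA⟩ : ∃ A, A = P₁.filter (fun a => R a y₁ ∧ a ∈ Y ∧ c ≤ (nO R Y a).card ∧
    (¬ Nn a → f < (nI R (cg R Y V₀ Nn κ η lam) a).card)) := ⟨_, rfl⟩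
  have hcgM : cg R Y V₀ Nn κ η lam ⊆ M := by
    intro v hv
    rw [mem_cg] at hv
    obtain ⟨h1, h2, h3, h4⟩ := hv
    rw [hM, mem_filter]
    refine ⟨h1, h2, hlam.trans h4, ?_⟩
    have h5 := h3.deg hκη
    exact_mod_cast hκY.trans h5
  have hin : ∀ a ∈ P₁, sig ≤ (nI R (Y ∪ V₀) a).card := by
    intro a ha
    have h1 := hP ha
    rw [mem_sdiff] at h1
    by_contra h2
    push Not at h2
    exact h1.2 (mem_low.2 ⟨h1.1, h2⟩)
  have hcov : ∀ u ∈ A, u ∈ M ∨ ∃ v ∈ M, v ∉ F ∧ R v u := by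
    intro u hu
    rw [hA, mem_filter] at hu
    obtain ⟨h1, -, h3, h4, h5⟩ := hu
    by_cases hN : Nn u
    · left
      rw [hM, mem_filter]
      exact ⟨h3, hN, hsig.trans (hin u h1), h4⟩
    · right
      have h6 := h5 hN
      obtain ⟨v, hv, hvF⟩ := exists_mem_notMem_of_card_lt_card (lt_of_le_of_lt hF h6)
      rw [mem_nI] at hv
      exact ⟨v, hcgM hv.1, hvF, hv.2⟩
  have hlowY : (Y.filter (fun v => (nO R Y v).card < c)).card ≤ 2 * c := by
    have h1 := card_low_in (rv_tour hT) c Y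
    exact h1
  have hcount : 2 ≤ ((A \ F).filter (fun u => R u y₁)).card := by
    have h1 : P₁.filter (fun a => R a y₁) ⊆ ((A \ F).filter (fun u => R u y₁)) ∪ (F ∪ ((V₀ \ low R sig (Y ∪ V₀)) ∪
        (Y.filter (fun v => (nO R Y v).card < c) ∪ Y.filter (fun u => ¬ Nn u ∧ sig ≤ (nI R (Y ∪ V₀) u).card ∧
          (nI R (cg R Y V₀ Nn κ η lam) u).card ≤ f)))) := by
      intro a ha
      rw [mem_filter] at ha
      obtain ⟨ha, hay⟩ := ha
      have h2 := hP ha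
      rw [mem_sdiff, mem_union] at h2
      by_cases haF : a ∈ F
      · exact mem_union_right _ (mem_union_left _ haF)
      by_cases haY : a ∈ Y
      · by_cases h3 : (nO R Y a).card < c
        · exact mem_union_right _ (mem_union_right _ (mem_union_right _ (mem_union_left _ (mem_filter.2 ⟨haY, h3⟩))))
        · by_cases h4 : ¬ Nn a ∧ (nI R (cg R Y V₀ Nn κ η lam) a).card ≤ f
          · exact mem_union_right _ (mem_union_right _ (mem_union_right _ (mem_union_right _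
              (mem_filter.2 ⟨haY, h4.1, hin a ha, h4.2⟩))))
          · refine mem_union_left _ (mem_filter.2 ⟨mem_sdiff.2 ⟨?_, haF⟩, hay⟩)
            rw [hA, mem_filter]
            refine ⟨ha, hay, haY, by omega, ?_⟩
            intro h5
            by_contra h6
            exact h4 ⟨h5, by omega⟩
      · have haV : a ∈ V₀ := h2.1.resolve_left haY
        exact mem_union_right _ (mem_union_right _ (mem_union_left _ (mem_sdiff.2 ⟨haV, h2.2⟩)))
    have h2 := card_le_card h1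
    have h3 := card_union_le ((A \ F).filter (fun u => R u y₁)) (F ∪ ((V₀ \ low R sig (Y ∪ V₀)) ∪
        (Y.filter (fun v => (nO R Y v).card < c) ∪ Y.filter (fun u => ¬ Nn u ∧ sig ≤ (nI R (Y ∪ V₀) u).card ∧
          (nI R (cg R Y V₀ Nn κ η lam) u).card ≤ f))))
    have h4 := card_union_le F ((V₀ \ low R sig (Y ∪ V₀)) ∪
        (Y.filter (fun v => (nO R Y v).card < c) ∪ Y.filter (fun u => ¬ Nn u ∧ sig ≤ (nI R (Y ∪ V₀) u).card ∧
          (nI R (cg R Y V₀ Nn κ η lam) u).card ≤ f)))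
    have h5 := card_union_le (V₀ \ low R sig (Y ∪ V₀))
        (Y.filter (fun v => (nO R Y v).card < c) ∪ Y.filter (fun u => ¬ Nn u ∧ sig ≤ (nI R (Y ∪ V₀) u).card ∧
          (nI R (cg R Y V₀ Nn κ η lam) u).card ≤ f))
    have h6 := card_union_le (Y.filter (fun v => (nO R Y v).card < c)) (Y.filter (fun u => ¬ Nn u ∧
      sig ≤ (nI R (Y ∪ V₀) u).card ∧ (nI R (cg R Y V₀ Nn κ η lam) u).card ≤ f))
    have h7 := hSt.cnt f
    have h8 : w + 2 * c + K * f + f + 2 ≤ (P₁.filter (fun a => R a y₁)).card := by exact_mod_cast hbig.trans hy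
    omega
  obtain ⟨v, a, hv, ha, hvF, haF, hva, hay, hne⟩ := exists_route2 hT hcov hcount
  rw [hM, mem_filter] at hv
  rw [hA, mem_filter] at ha
  obtain ⟨v1, v2, v3, v4⟩ := hv
  obtain ⟨a1, -, a3, a4, -⟩ := ha
  have hoY : ∀ u, (nO R Y u).card ≤ (nO R (Y ∪ V₀) u).card := fun u => card_le_card (nO_mono subset_union_left)
  -- the side forests of `v`
  have hF1 : (insert a (insert v F)).card ≤ f + 2 := by
    have e1 := card_insert_le a (insert v F)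
    have e2 := card_insert_le v F
    omega
  obtain ⟨SA₁, SD₁, b1, b2, b3, b4, b5, b6, b7, b8, b9, b10⟩ := small_at hT (X := Y ∪ V₀) (F := insert a (insert v F))
    (h := v) ht₁ ht₁' hB₁ (by omega) (by have := hoY v; omega)
  have hF2 : (SA₁ ∪ SD₁ ∪ insert a (insert v F)).card ≤ f + 2 + B₀ := by
    have e1 := card_union_le (SA₁ ∪ SD₁) (insert a (insert v F))
    have e2 := card_union_le SA₁ SD₁
    omega
  obtain ⟨SA₂, SD₂, d1, d2, d3, d4, d5, d6, d7, d8, d9, d10⟩ := small_at hT (X := Y ∪ V₀)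
    (F := SA₁ ∪ SD₁ ∪ insert a (insert v F)) (h := a) ht₂ ht₂' hB₂ (by have := hin a a1; omega)
    (by have := hoY a; omega)
  rw [disjoint_union_right, disjoint_union_right, disjoint_insert_right, disjoint_insert_right] at d5 d6
  rw [disjoint_insert_right, disjoint_insert_right] at b5 b6
  refine ⟨v, a, SA₁ ∪ SA₂, SD₁ ∪ SD₂, v1, v2, a1, a3, hva, hay, hne, hvF, haF,
    ⟨SA₁, SA₂, d5.1.1.symm, rfl, b1, SA₂, ∅, disjoint_empty_right _, (union_empty _).symm, d1, rfl⟩,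
    ⟨SD₁, SD₂, d6.1.2.symm, rfl, b2, SD₂, ∅, disjoint_empty_right _, (union_empty _).symm, d2, rfl⟩,
    union_subset (b3.trans nI_sub) (d3.trans nI_sub), union_subset (b4.trans nO_sub) (d4.trans nO_sub), ?_, ?_, ?_, ?_,
    ?_, ?_, ?_, ?_⟩
  · rw [disjoint_union_left, disjoint_union_right, disjoint_union_right]
    exact ⟨⟨b7, d6.1.1.symm⟩, d5.1.2, d7⟩
  · rw [disjoint_union_left]
    exact ⟨b5.2.2, d5.2.2.2⟩
  · rw [disjoint_union_left]
    exact ⟨b6.2.2, d6.2.2.2⟩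
  · rw [mem_union, not_or]
    exact ⟨b8, d5.2.2.1⟩
  · rw [mem_union, not_or]
    exact ⟨b9, d6.2.2.1⟩
  · rw [mem_union, not_or]
    exact ⟨b5.1, d8⟩
  · rw [mem_union, not_or]
    exact ⟨b6.1, d9⟩
  · have e1 := card_union_le SA₁ SA₂
    have e2 := card_union_le SD₁ SD₂
    omega

/-- **The front of a cluster round**, avoiding a set of linear size; nothing is required of the capacities of the state -/
theorem front_big (hT : AE32.Tour R) {Y V₀ P₁ F : Finset V} {Nn : V → Prop} {κ η s s₁ : ℝ} {lam sig K w f B₀ c j : ℕ} {y₁ : V}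
    {t₁ t₂ : Fd × Fd} (hSt : StM R Y V₀ Nn κ η s lam sig K) (hκη : κ ≤ 1 - η)
    (hw : (V₀ \ low R sig (Y ∪ V₀)).card ≤ w) (hP : P₁ ⊆ (Y ∪ V₀) \ low R sig (Y ∪ V₀))
    (hy : s₁ * P₁.card ≤ ((P₁.filter (fun a => R a y₁)).card : ℝ)) (hF : F.card ≤ f)
    (ht₁ : ∀ r ∈ t₁.1.trees, r.1 = true) (ht₁' : ∀ r ∈ t₁.2.trees, r.1 = true) (hB₁ : t₁.1.size + t₁.2.size ≤ B₀)
    (ht₂ : ∀ r ∈ t₂.1.trees, r.1 = true) (ht₂' : ∀ r ∈ t₂.2.trees, r.1 = true) (hB₂ : t₂.1.size + t₂.2.size ≤ B₀)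
    (hc : f + 2 + B₀ + 2 ^ B₀ ≤ c) (hj : f + 2 * c ≤ j) (hκY : (c : ℝ) ≤ κ * Y.card)
    (hbig : ((w + 4 * c + K * j + f + 2 : ℕ) : ℝ) ≤ s₁ * P₁.card) :
    ∃ (v a : V) (SA SD : Finset V), v ∈ Y ∧ Nn v ∧ a ∈ P₁ ∧ a ∈ Y ∧ R v a ∧ R a y₁ ∧ v ≠ a ∧ v ∉ F ∧ a ∉ F ∧
      EmbAllB (rv R) [(v, t₁.1), (a, t₂.1)] SA ∧ EmbAllB R [(v, t₁.2), (a, t₂.2)] SD ∧ SA ⊆ Y ∪ V₀ ∧ SD ⊆ Y ∪ V₀ ∧
      Disjoint SA SD ∧ Disjoint SA F ∧ Disjoint SD F ∧ v ∉ SA ∧ v ∉ SD ∧ a ∉ SA ∧ a ∉ SD ∧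
      SA.card + SD.card ≤ 2 * B₀ := by
  obtain ⟨M, hM⟩ : ∃ M, M = Y.filter (fun v => Nn v ∧ c ≤ (nI R (Y ∪ V₀) v).card ∧ c ≤ (nO R Y v).card) := ⟨_, rfl⟩
  obtain ⟨A, hA⟩ : ∃ A, A = P₁.filter (fun a => R a y₁ ∧ a ∈ Y ∧ c ≤ (nO R Y a).card ∧ c ≤ (nI R (Y ∪ V₀) a).card ∧
    (¬ Nn a → j < (nI R (cg R Y V₀ Nn κ η lam) a).card)) := ⟨_, rfl⟩
  have hin : ∀ a ∈ P₁, sig ≤ (nI R (Y ∪ V₀) a).card := by
    intro a ha
    have h1 := hP ha
    rw [mem_sdiff] at h1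
    by_contra h2
    push Not at h2
    exact h1.2 (mem_low.2 ⟨h1.1, h2⟩)
  have hcov : ∀ u ∈ A, u ∈ M ∨ ∃ v ∈ M, v ∉ F ∧ R v u := by
    intro u hu
    rw [hA, mem_filter] at hu
    obtain ⟨h1, -, h3, h4, h4', h5⟩ := hu
    by_cases hN : Nn u
    · left
      rw [hM, mem_filter]
      exact ⟨h3, hN, h4', h4⟩
    · right
      have h6 := h5 hN
      have h7 : (F ∪ low R c (Y ∪ V₀)).card ≤ j := (card_union_le _ _).trans (by have := card_low_in hT c (Y ∪ V₀); omega)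
      obtain ⟨v, hv, hvF⟩ := exists_mem_notMem_of_card_lt_card (lt_of_le_of_lt h7 h6)
      rw [mem_nI, mem_cg] at hv
      rw [mem_union, not_or, mem_low, not_and, not_lt] at hvF
      obtain ⟨⟨g1, g2, g3, -⟩, g5⟩ := hv
      refine ⟨v, ?_, hvF.1, g5⟩
      rw [hM, mem_filter]
      exact ⟨g1, g2, hvF.2 (mem_union_left _ g1), by exact_mod_cast hκY.trans (g3.deg hκη)⟩
  have hlowY : (Y.filter (fun v => (nO R Y v).card < c)).card ≤ 2 * c := by
    have h1 := card_low_in (rv_tour hT) c Y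
    exact h1
  have hcount : 2 ≤ ((A \ F).filter (fun u => R u y₁)).card := by
    have h1 : P₁.filter (fun a => R a y₁) ⊆ ((A \ F).filter (fun u => R u y₁)) ∪ ((F ∪ low R c (Y ∪ V₀)) ∪ ((V₀ \ low R sig (Y ∪ V₀)) ∪
        (Y.filter (fun v => (nO R Y v).card < c) ∪ Y.filter (fun u => ¬ Nn u ∧ sig ≤ (nI R (Y ∪ V₀) u).card ∧
          (nI R (cg R Y V₀ Nn κ η lam) u).card ≤ j)))) := by
      intro a ha
      rw [mem_filter] at ha
      obtain ⟨ha, hay⟩ := ha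
      have h2 := hP ha
      rw [mem_sdiff, mem_union] at h2
      by_cases haF : a ∈ F
      · exact mem_union_right _ (mem_union_left _ (mem_union_left _ haF))
      by_cases hal : a ∈ low R c (Y ∪ V₀)
      · exact mem_union_right _ (mem_union_left _ (mem_union_right _ hal))
      have hal' : c ≤ (nI R (Y ∪ V₀) a).card := by
        by_contra hcc
        push Not at hcc
        exact hal (mem_low.2 ⟨mem_union.2 h2.1, hcc⟩)
      by_cases haY : a ∈ Y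
      · by_cases h3 : (nO R Y a).card < c
        · exact mem_union_right _ (mem_union_right _ (mem_union_right _ (mem_union_left _ (mem_filter.2 ⟨haY, h3⟩))))
        · by_cases h4 : ¬ Nn a ∧ (nI R (cg R Y V₀ Nn κ η lam) a).card ≤ j
          · exact mem_union_right _ (mem_union_right _ (mem_union_right _ (mem_union_right _
              (mem_filter.2 ⟨haY, h4.1, hin a ha, h4.2⟩))))
          · refine mem_union_left _ (mem_filter.2 ⟨mem_sdiff.2 ⟨?_, haF⟩, hay⟩)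
            rw [hA, mem_filter]
            refine ⟨ha, hay, haY, by omega, hal', ?_⟩
            intro h5
            by_contra h6
            exact h4 ⟨h5, by omega⟩
      · have haV : a ∈ V₀ := h2.1.resolve_left haY
        exact mem_union_right _ (mem_union_right _ (mem_union_left _ (mem_sdiff.2 ⟨haV, h2.2⟩)))
    have h2 := card_le_card h1
    have h3 := card_union_le ((A \ F).filter (fun u => R u y₁)) ((F ∪ low R c (Y ∪ V₀)) ∪ ((V₀ \ low R sig (Y ∪ V₀)) ∪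
        (Y.filter (fun v => (nO R Y v).card < c) ∪ Y.filter (fun u => ¬ Nn u ∧ sig ≤ (nI R (Y ∪ V₀) u).card ∧
          (nI R (cg R Y V₀ Nn κ η lam) u).card ≤ j))))
    have h4' := card_union_le F (low R c (Y ∪ V₀))
    have h4'' := card_low_in hT c (Y ∪ V₀)
    have h4 := card_union_le (F ∪ low R c (Y ∪ V₀)) ((V₀ \ low R sig (Y ∪ V₀)) ∪
        (Y.filter (fun v => (nO R Y v).card < c) ∪ Y.filter (fun u => ¬ Nn u ∧ sig ≤ (nI R (Y ∪ V₀) u).card ∧
          (nI R (cg R Y V₀ Nn κ η lam) u).card ≤ j)))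
    have h5 := card_union_le (V₀ \ low R sig (Y ∪ V₀))
        (Y.filter (fun v => (nO R Y v).card < c) ∪ Y.filter (fun u => ¬ Nn u ∧ sig ≤ (nI R (Y ∪ V₀) u).card ∧
          (nI R (cg R Y V₀ Nn κ η lam) u).card ≤ j))
    have h6 := card_union_le (Y.filter (fun v => (nO R Y v).card < c)) (Y.filter (fun u => ¬ Nn u ∧
      sig ≤ (nI R (Y ∪ V₀) u).card ∧ (nI R (cg R Y V₀ Nn κ η lam) u).card ≤ j))
    have h7 := hSt.cnt j
    have h8 : w + 4 * c + K * j + f + 2 ≤ (P₁.filter (fun a => R a y₁)).card := by exact_mod_cast hbig.trans hy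
    omega
  obtain ⟨v, a, hv, ha, hvF, haF, hva, hay, hne⟩ := exists_route2 hT hcov hcount
  rw [hM, mem_filter] at hv
  rw [hA, mem_filter] at ha
  obtain ⟨v1, v2, v3, v4⟩ := hv
  obtain ⟨a1, -, a3, a4, a4', -⟩ := ha
  have hoY : ∀ u, (nO R Y u).card ≤ (nO R (Y ∪ V₀) u).card := fun u => card_le_card (nO_mono subset_union_left)
  -- the side forests of `v`
  have hF1 : (insert a (insert v F)).card ≤ f + 2 := by
    have e1 := card_insert_le a (insert v F)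
    have e2 := card_insert_le v F
    omega
  obtain ⟨SA₁, SD₁, b1, b2, b3, b4, b5, b6, b7, b8, b9, b10⟩ := small_at hT (X := Y ∪ V₀) (F := insert a (insert v F))
    (h := v) ht₁ ht₁' hB₁ (by omega) (by have := hoY v; omega)
  have hF2 : (SA₁ ∪ SD₁ ∪ insert a (insert v F)).card ≤ f + 2 + B₀ := by
    have e1 := card_union_le (SA₁ ∪ SD₁) (insert a (insert v F))
    have e2 := card_union_le SA₁ SD₁
    omega
  obtain ⟨SA₂, SD₂, d1, d2, d3, d4, d5, d6, d7, d8, d9, d10⟩ := small_at hT (X := Y ∪ V₀)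
    (F := SA₁ ∪ SD₁ ∪ insert a (insert v F)) (h := a) ht₂ ht₂' hB₂ (by omega)
    (by have := hoY a; omega)
  rw [disjoint_union_right, disjoint_union_right, disjoint_insert_right, disjoint_insert_right] at d5 d6
  rw [disjoint_insert_right, disjoint_insert_right] at b5 b6
  refine ⟨v, a, SA₁ ∪ SA₂, SD₁ ∪ SD₂, v1, v2, a1, a3, hva, hay, hne, hvF, haF,
    ⟨SA₁, SA₂, d5.1.1.symm, rfl, b1, SA₂, ∅, disjoint_empty_right _, (union_empty _).symm, d1, rfl⟩,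
    ⟨SD₁, SD₂, d6.1.2.symm, rfl, b2, SD₂, ∅, disjoint_empty_right _, (union_empty _).symm, d2, rfl⟩,
    union_subset (b3.trans nI_sub) (d3.trans nI_sub), union_subset (b4.trans nO_sub) (d4.trans nO_sub), ?_, ?_, ?_, ?_,
    ?_, ?_, ?_, ?_⟩
  · rw [disjoint_union_left, disjoint_union_right, disjoint_union_right]
    exact ⟨⟨b7, d6.1.1.symm⟩, d5.1.2, d7⟩
  · rw [disjoint_union_left]
    exact ⟨b5.2.2, d5.2.2.2⟩
  · rw [disjoint_union_left]
    exact ⟨b6.2.2, d6.2.2.2⟩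
  · rw [mem_union, not_or]
    exact ⟨b8, d5.2.2.1⟩
  · rw [mem_union, not_or]
    exact ⟨b9, d6.2.2.1⟩
  · rw [mem_union, not_or]
    exact ⟨b5.1, d8⟩
  · rw [mem_union, not_or]
    exact ⟨b6.1, d9⟩
  · have e1 := card_union_le SA₁ SA₂
    have e2 := card_union_le SD₁ SD₂
    omega

end AEG
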