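import Pool.Agent.AEG.P1Part
import Pool.Agent.AEG.GCutG
import Pool.Agent.AEG.Front
import Pool.Agent.AEG.ChainE

/-!
# The round with a small second part: the cut and the side of the first part

`exists_cutD`: the cut. `midD`: after a bounded set `E` has been fixed, the two link vertices, the hosts in front of the
first host of the cut, all in-forests and the out-forests of these hosts.
-/

set_option autoImplicit false

namespace AEG

open Finset AE15 AED AEB SPD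
open scoped Classical

section cut

variable {V : Type*} {R : V → V → Prop}

/-- the data of a cut whose second part is small -/
structure CutD (R : V → V → Prop) (X : Finset V) (cap N p q : ℕ) (κ₀ η₀ : ℝ) (G : Finset V) (ys : List V) (y : V)
    (P₁ P₂ U₂ Rsv Gc Ex Bad : Finset V) : Prop where
  gcd : GCD R X ∅ Bad p q N 0 κ₀ η₀ G ys y P₁ P₂ U₂ Rsv Gc Ex
  rsv : Rsv = ∅
  ex : Ex = ∅
  hBad : Bad.card ≤ 2 * cap
  hcap : ∀ g ∈ G, g ∉ Bad → cap ≤ (X.filter (fun v => rv R v g ∧ Good (rv R) (κ₀ ^ 2 / 4) η₀ X v)).card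
  lin : ∀ g ∈ G, κ₀ * X.card ≤ ((P₁.filter (fun w => R w g ∧ Good (rv R) (κ₀ ^ 2 / 4) η₀ X w)).card : ℝ)

theorem exists_cutD (hT : AE32.Tour R) {X : Finset V} {cap N p : ℕ} {κ₀ η₀ : ℝ} (h0 : 0 < κ₀) (hη : 25 * κ₀ ≤ η₀)
    (hη1 : η₀ ≤ 1 / 8) (hN : 1 ≤ N) (hp : ((8 + 4 * N : ℕ) : ℝ) ≤ κ₀ * p) (hcap : (cap : ℝ) ≤ κ₀ * p)
    (hX : ((2 * p : ℕ) : ℝ) ≤ κ₀ * X.card) : ∃ (G : Finset V) (ys : List V) (y : V) (P₁ P₂ U₂ Rsv Gc Ex Bad : Finset V),
      CutD R X cap N p (2 * p) κ₀ η₀ G ys y P₁ P₂ U₂ Rsv Gc Ex Bad := by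
  obtain ⟨Bad, hBad⟩ : ∃ Bad, Bad = (X.filter (fun v => Good (rv R) (κ₀ ^ 2 / 4) η₀ X v)).filter
      (fun g => (X.filter (fun v => rv R v g ∧ Good (rv R) (κ₀ ^ 2 / 4) η₀ X v)).card < cap) := ⟨_, rfl⟩
  have hp0 : (0 : ℝ) ≤ p := Nat.cast_nonneg _
  have hκp : κ₀ * p ≤ 1 * p := mul_le_mul_of_nonneg_right (by linarith) hp0
  have hNp : 8 + 4 * N ≤ p := by
    have : ((8 + 4 * N : ℕ) : ℝ) ≤ p := by linarith
    exact_mod_cast this
  obtain ⟨G, ys, y, P₁, P₂, U₂, Gc, h1, h3, -⟩ := gcutGR_dual hT (X := X) (Bd := ∅) (Bad := Bad) (p := p) (q := 2 * p)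
    (N := N) (e := 0) (b₀ := cap) h0 hη hη1 hN (by
      rw [Nat.zero_add, Nat.mul_one]
      push_cast at hp ⊢
      linarith) (by omega) (by rw [Nat.add_zero]; exact hX) (by simp) hcap (by
      intro g hg
      rw [hBad, mem_filter] at hg
      exact hg.2)
  refine ⟨G, ys, y, P₁, P₂, U₂, ∅, Gc, ∅, Bad, h1, rfl, rfl, ?_, ?_, h3⟩
  · rw [hBad]
    exact card_bad (rv_tour hT) X (fun v => Good (rv R) (κ₀ ^ 2 / 4) η₀ X v) cap
  · intro g hg hgB
    rw [hBad, mem_filter, mem_filter, not_and, not_lt] at hgB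
    exact hgB ⟨h1.hGX hg, h1.good g hg⟩

end cut

variable {V : Type} {R : V → V → Prop}

theorem totB_append (os os' : List (V × Fd)) : totB (os ++ os') = totB os + totB os' := by
  simp [totB]

theorem totB_zip_le (f : Fd × Fd → Fd) : ∀ (zs : List V) (L : List (Fd × Fd)),
    totB (zs.zip (L.map f)) ≤ (L.map (fun t => (f t).size)).sum
  | [], L => by simp [totB]
  | z :: zs, [] => by simp [totB]
  | z :: zs, t :: L => by
    have ih := totB_zip_le f zs L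
    simp only [List.map_cons, List.zip_cons_cons, List.sum_cons]
    have h1 : totB ((z, f t) :: zs.zip (L.map f)) = (f t).size + totB (zs.zip (L.map f)) := by simp [totB]
    omega

theorem totB_zip_eq (f : Fd × Fd → Fd) : ∀ (zs : List V) (L : List (Fd × Fd)), L.length ≤ zs.length →
    totB (zs.zip (L.map f)) = (L.map (fun t => (f t).size)).sum
  | [], L, h => by
    have : L = [] := List.length_eq_zero_iff.1 (by simpa using h)
    subst this
    simp [totB]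
  | z :: zs, [], _ => by simp [totB]
  | z :: zs, t :: L, h => by
    have ih := totB_zip_eq f zs L (by simpa using h)
    simp only [List.map_cons, List.zip_cons_cons, List.sum_cons]
    have h1 : totB ((z, f t) :: zs.zip (L.map f)) = (f t).size + totB (zs.zip (L.map f)) := by simp [totB]
    omega

theorem mem_zip_map {f : Fd × Fd → Fd} {zs : List V} {L : List (Fd × Fd)} {p : V × Fd} (h : p ∈ zs.zip (L.map f)) :
    p.1 ∈ zs ∧ ∃ t ∈ L, p.2 = f t := by
  obtain ⟨p1, p2⟩ := p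
  obtain ⟨h1, h2⟩ := List.of_mem_zip h
  rw [List.mem_map] at h2
  obtain ⟨t, ht, h3⟩ := h2
  exact ⟨h1, t, ht, h3.symm⟩

/-- **The middle part of the round with a small second part** -/
theorem midD (b l N B₀ : ℕ) (hb : 1 ≤ b) (hN : 1 ≤ N) : ∃ (c₀ : ℕ) (ηR : ℝ), 0 < ηR ∧ ηR ≤ 1 / 8 ∧
    ∀ κ₀ η₀ : ℝ, 0 < κ₀ → 25 * κ₀ ≤ η₀ → 2 * η₀ ≤ ηR → ∃ σ κ' : ℝ, 0 < σ ∧ σ ≤ κ₀ / 64 ∧ 0 < κ' ∧ κ' ≤ κ₀ / 64 ∧
    ∀ f : ℕ, ∃ C₁ : ℕ, ∀ (Kst w : ℕ) (κ : ℝ), 0 < κ → ∃ C : ℕ,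
    ∀ {V : Type} {R : V → V → Prop}, AE32.Tour R → ∀ {Y V₀ X : Finset V} {Nn : V → Prop} {η s : ℝ} {lam sig : ℕ},
      StM R Y V₀ Nn κ η s lam sig Kst → κ ≤ 1 - η → (V₀ \ low R sig (Y ∪ V₀)).card ≤ w →
      X = (Y ∪ V₀) \ low R sig (Y ∪ V₀) → C ≤ X.card → ∀ {p q : ℕ} {G : Finset V} {ys : List V} {y : V}
      {P₁ P₂ U₂ Rsv Gc Ex Bad : Finset V},
      CutD R X (2 * c₀ + N + (f + N + 2 + 2 * B₀)) N p q κ₀ η₀ G ys y P₁ P₂ U₂ Rsv Gc Ex Bad →
      (q : ℝ) ≤ κ' * X.card → ∀ E : Finset V, E.card ≤ f →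
      ∀ (l₁ l₂ qa : Fd × Fd) (pre post : List (Fd × Fd)), (∀ r ∈ l₁.1.trees, r.1 = true) →
        (∀ r ∈ l₁.2.trees, r.1 = true) → l₁.1.size + l₁.2.size ≤ B₀ → (∀ r ∈ l₂.1.trees, r.1 = true) →
        (∀ r ∈ l₂.2.trees, r.1 = true) → l₂.1.size + l₂.2.size ≤ B₀ → pre.length + post.length + 1 ≤ N →
        FOK b l 0 qa.1 → (∀ r ∈ qa.1.trees, r.1 = true) →
        (∀ t ∈ pre ++ post, FOK b l 0 t.1 ∧ (∀ r ∈ t.1.trees, r.1 = true) ∧ t.1.size ≤ qa.1.size) →
        (∀ t ∈ pre, ∀ r ∈ t.2.trees, r.1 = true) → (((pre.map (fun t => t.2.size)).sum : ℕ) : ℝ) ≤ σ * X.card →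
        ((pre ++ qa :: post).map (fun t => t.1.size)).sum + (pre.map (fun t => t.2.size)).sum + C₁ ≤ P₁.card →
        ∃ (v a : V) (zs : List V) (SA SD : Finset V), zs.length = pre.length ∧ v ∈ Y ∧ Nn v ∧ a ∈ P₁ ∧
          (∀ z ∈ zs, z ∈ P₁) ∧ (v :: a :: (zs ++ ys)).Nodup ∧ (v :: a :: (zs ++ ys)).IsChain R ∧
          (∀ z ∈ v :: a :: zs, z ∈ Y ∪ V₀ ∧ z ∉ E) ∧
          EmbAllB (rv R) ((v, l₁.1) :: (a, l₂.1) :: (zs.zip (pre.map Prod.fst) ++ ys.zip ((qa :: post).map Prod.fst))) SA ∧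
          EmbAllB R ((v, l₁.2) :: (a, l₂.2) :: zs.zip (pre.map Prod.snd)) SD ∧ SA ⊆ Y ∪ V₀ ∧ SD ⊆ Y ∪ V₀ ∧
          Disjoint SA SD ∧ (∀ z ∈ v :: a :: (zs ++ ys), z ∉ SA ∧ z ∉ SD) ∧ Disjoint SA E ∧ Disjoint SD E ∧
          (insert v (insert a (SA ∪ SD)) ∩ P₂).card ≤ 2 * c₀ * c₀ + 2 * B₀ + 2 ∧
          (P₁ \ (SA ∪ SD)).card + (((pre ++ qa :: post).map (fun t => t.1.size)).sum +
            (pre.map (fun t => t.2.size)).sum) ≤ P₁.card + 2 * c₀ * c₀ := by
  obtain ⟨c₀, ηR, hηR, hηR1, hpart⟩ := p1_part b l N 1 hb hN le_rfl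
  refine ⟨c₀, ηR, hηR, hηR1, ?_⟩
  intro κ₀ η₀ hκ₀ hη₀ hηη
  obtain ⟨σ, κ', hσ, hσ1, hκ', hκ'1, hpart⟩ := hpart κ₀ η₀ hκ₀ hη₀ hηη 1 one_pos
  refine ⟨σ, κ', hσ, hσ1, hκ', hκ'1, ?_⟩
  intro f
  have hη1 : η₀ ≤ 1 / 16 := by linarith
  have hκ₀1 : κ₀ ≤ 1 / 400 := by linarith
  obtain ⟨f₁, hf₁⟩ : ∃ f₁ : ℕ, f₁ = f + N + 2 + 2 * B₀ := ⟨_, rfl⟩
  obtain ⟨C', hpart⟩ := hpart 0 f₁ N (2 * (2 * c₀ + N + f₁))
  obtain ⟨c₁, hc₁⟩ : ∃ c₁ : ℕ, c₁ = 2 + B₀ + 2 ^ B₀ := ⟨_, rfl⟩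
  refine ⟨C' + f₁, fun Kst w κ hκ => ?_⟩
  obtain ⟨κm, hκm⟩ : ∃ κm : ℝ, κm = min κ 1 := ⟨_, rfl⟩
  have hκm0 : 0 < κm := by rw [hκm]; exact lt_min hκ one_pos
  have hκm1 : κm ≤ κ := by rw [hκm]; exact min_le_left _ _
  have hκm2 : κm ≤ 1 := by rw [hκm]; exact min_le_right _ _
  obtain ⟨cc, hcc⟩ : ∃ cc : ℕ, cc = (5 + 3 * Kst) * (f + 2 * N) + (4 + 2 * Kst) * c₁ + 2 + w + (f + 2 * N) + c₁ + w + 1 :=
    ⟨_, rfl⟩
  obtain ⟨C, hC⟩ : ∃ C : ℕ, C = C' + ⌈(8 * cc : ℝ) / (κ₀ * κm)⌉₊ := ⟨_, rfl⟩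
  refine ⟨C, ?_⟩
  intro V R hT Y V₀ X Nn η s lam sig hSt hκη hw hX hCX p q G ys y P₁ P₂ U₂ Rsv Gc Ex Bad hcut hq E hE l₁ l₂ qa pre
    post hl₁ hl₁' hB₁ hl₂ hl₂' hB₂ hlen hqa hqa' hpp hpre hpreD hsz
  obtain ⟨n, hn⟩ : ∃ n : ℝ, n = (X.card : ℝ) := ⟨_, rfl⟩
  have hn0 : 0 ≤ n := by rw [hn]; exact Nat.cast_nonneg _
  have hccn : 8 * (cc : ℝ) ≤ κ₀ * κm * n := by
    have h1 : (8 * cc : ℝ) / (κ₀ * κm) ≤ n := by
      rw [hn]
      refine (Nat.le_ceil _).trans ?_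
      exact_mod_cast (by omega : ⌈(8 * cc : ℝ) / (κ₀ * κm)⌉₊ ≤ X.card)
    rw [div_le_iff₀ (by positivity)] at h1
    linarith
  have hκκ : κ₀ * κm * n ≤ κ₀ * n := by
    have h1 : κ₀ * κm ≤ κ₀ * 1 := mul_le_mul_of_nonneg_left hκm2 hκ₀.le
    have := mul_le_mul_of_nonneg_right h1 hn0
    linarith
  have hκκ' : κ₀ * κm * n ≤ κm * n / 400 := by
    have h1 : κ₀ * κm ≤ 1 / 400 * κm := mul_le_mul_of_nonneg_right hκ₀1 hκm0.le
    have := mul_le_mul_of_nonneg_right h1 hn0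
    linarith
  have hκn : κ₀ * n ≤ n / 400 := by
    have := mul_le_mul_of_nonneg_right hκ₀1 hn0
    linarith
  have hcc0 : (0 : ℝ) ≤ cc := Nat.cast_nonneg _
  have h := hcut.gcd
  have hP₁X : P₁ ⊆ X := fun u hu => ((h.part u).1 hu).1
  have hP₂X : P₂ ⊆ X := h.hP₂.trans (h.hU₂.trans h.hGX)
  have hXU : X ⊆ Y ∪ V₀ := by rw [hX]; exact sdiff_subset
  -- sizes
  have hqn : (q : ℝ) ≤ n / 25600 := by
    rw [← hn] at hq
    have := mul_le_mul_of_nonneg_right (hκ'1.trans (by linarith : κ₀ / 64 ≤ 1 / 25600)) hn0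
    linarith
  have hccN : ((f + 2 * N : ℕ) : ℝ) + 2 * w + 1 ≤ cc := by
    have : f + 2 * N + 2 * w + 1 ≤ cc := by rw [hcc]; omega
    exact_mod_cast this
  have hP₁c : n / 2 ≤ P₁.card := by
    have h1 : X ⊆ P₁ ∪ (P₂ ∪ ys.toFinset) := by
      intro u hu
      by_cases h2 : u ∈ P₂
      · exact mem_union_right _ (mem_union_left _ h2)
      by_cases h3 : u ∈ ys
      · exact mem_union_right _ (mem_union_right _ (List.mem_toFinset.2 h3))
      · exact mem_union_left _ ((h.part u).2 ⟨hu, h2, h3⟩)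
    have h2 := (card_le_card h1).trans (card_union_le _ _)
    have h3 := card_union_le P₂ ys.toFinset
    have h4 := ys.toFinset_card_le
    rw [h.len] at h4
    have h5 := card_le_card h.hP₂
    have h6 := h.hU₂c
    have h7 : n ≤ P₁.card + (2 * q + N) := by
      rw [hn]
      exact_mod_cast (by omega : X.card ≤ P₁.card + (2 * q + N))
    have h8 : (N : ℝ) ≤ ((f + 2 * N : ℕ) : ℝ) := by exact_mod_cast (by omega : N ≤ f + 2 * N)
    have h9 : (0 : ℝ) ≤ w := Nat.cast_nonneg _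
    linarith
  have hP₁n : (P₁.card : ℝ) ≤ n := by
    rw [hn]
    exact_mod_cast card_le_card hP₁X
  have hYn : n ≤ Y.card + w := by
    have h1 : X ⊆ Y ∪ (V₀ \ low R sig (Y ∪ V₀)) := by
      intro u hu
      rw [hX, mem_sdiff, mem_union] at hu
      rcases hu.1 with h2 | h2
      · exact mem_union_left _ h2
      · exact mem_union_right _ (mem_sdiff.2 ⟨h2, hu.2⟩)
    have h2 := (card_le_card h1).trans (card_union_le _ _)
    rw [hn]
    exact_mod_cast h2.trans (Nat.add_le_add_left hw _)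
  -- the hosts in front of `y`
  have hRc := h.hRc
  obtain ⟨zs, z1, z2, z3, z4⟩ := p1_hosts hT h (Fb := E) (r := pre.length) (by
    have h1 := card_union_le E Rsv
    have h2 : 4 * (E ∪ Rsv).card + 8 * pre.length ≤ 4 * (f + (2 * q + 1)) + 8 * N := by omega
    have h3 : ((4 * (E ∪ Rsv).card + 8 * pre.length : ℕ) : ℝ) ≤ ((4 * (f + (2 * q + 1)) + 8 * N : ℕ) : ℝ) := by
      exact_mod_cast h2
    have h4 : ((4 * (f + (2 * q + 1)) + 8 * N : ℕ) : ℝ) ≤ 8 * q + 4 * cc := by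
      have h5 : 4 * (f + (2 * q + 1)) + 8 * N ≤ 8 * q + 4 * cc := by
        have : f + 2 * N + 1 ≤ cc := by rw [hcc]; omega
        omega
      exact_mod_cast h5
    have h5 : (q : ℝ) ≤ κ₀ / 64 * n := by
      rw [← hn] at hq
      exact hq.trans (mul_le_mul_of_nonneg_right hκ'1 hn0)
    rw [← hn]
    linarith)
  have hyl : y ∈ ys := List.mem_of_mem_head? (by rw [h.first]; rfl)
  -- the vertices which cover many vertices
  obtain ⟨High, hHigh⟩ : ∃ High : Finset V, High = ∅ := ⟨_, rfl⟩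
  obtain ⟨F, hF⟩ : ∃ F, F = High ∪ (E ∪ (zs.toFinset ∪ ys.toFinset)) := ⟨_, rfl⟩
  have hFc : F.card ≤ High.card + (f + 2 * N) := by
    rw [hF]
    have h1 := card_union_le High (E ∪ (zs.toFinset ∪ ys.toFinset))
    have h2 := card_union_le E (zs.toFinset ∪ ys.toFinset)
    have h3 := card_union_le zs.toFinset ys.toFinset
    have h4 := zs.toFinset_card_le
    have h5 := ys.toFinset_card_le
    rw [h.len] at h5
    omega
  have hHn : 100 * (((Kst : ℝ) + 1) * High.card) ≤ κ₀ * κm * n := by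
    rw [hHigh, card_empty, Nat.cast_zero, mul_zero, mul_zero]
    positivity
  have hK0 : (0 : ℝ) ≤ Kst := Nat.cast_nonneg _
  have hH0 : (0 : ℝ) ≤ High.card := Nat.cast_nonneg _
  have hKH : 0 ≤ (Kst : ℝ) * High.card := mul_nonneg hK0 hH0
  -- the first host
  obtain ⟨z₀, hz₀, hz₀G⟩ : ∃ z₀, (zs ++ ys).head? = some z₀ ∧ z₀ ∈ G := by
    cases hzs : zs with
    | nil => exact ⟨y, by rw [List.nil_append]; exact h.first, (h.hys y hyl).1⟩
    | cons z l => exact ⟨z, by simp, (z4 z (by rw [hzs]; exact List.mem_cons_self)).2.1⟩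
  obtain ⟨v, a, A₁, D₁, v1, v2, a1, a2, va, az, hva, vF, aF, e1, e2, e3, e4, e5, e6, e7, g1, g2, g3, g4, g5⟩ :=
    front_big hT (Y := Y) (V₀ := V₀) (P₁ := P₁) (F := F) (s₁ := κ₀) (f := F.card) (B₀ := B₀) (c := F.card + c₁)
      (j := 3 * F.card + 2 * c₁) (y₁ := z₀) (t₁ := l₁) (t₂ := l₂) hSt hκη hw (by rw [← hX]; exact hP₁X) (by
      have h1 := hcut.lin z₀ hz₀G
      have h2 : ((P₁.filter (fun w => R w z₀ ∧ Good (rv R) (κ₀ ^ 2 / 4) η₀ X w)).card : ℝ) ≤
          (P₁.filter (fun a => R a z₀)).card := by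
        apply Nat.cast_le.2
        apply card_le_card
        intro w hw
        rw [mem_filter] at hw ⊢
        exact ⟨hw.1, hw.2.1⟩
      have h3 : κ₀ * (P₁.card : ℝ) ≤ κ₀ * n := mul_le_mul_of_nonneg_left hP₁n hκ₀.le
      rw [← hn] at h1
      linarith) le_rfl hl₁ hl₁' hB₁ hl₂ hl₂' hB₂ (by omega) (by omega) (by
      have h1 : ((F.card + c₁ : ℕ) : ℝ) ≤ High.card + cc := by
        have : F.card + c₁ ≤ High.card + cc := by
          have : f + 2 * N + c₁ ≤ cc := by rw [hcc]; omega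
          omega
        exact_mod_cast this
      have h2 : κm * n ≤ κ * Y.card + κm * w := by
        have h3 : κm * n ≤ κm * (Y.card + w) := mul_le_mul_of_nonneg_left hYn hκm0.le
        have h4 : κm * (Y.card : ℝ) ≤ κ * Y.card := mul_le_mul_of_nonneg_right hκm1 (Nat.cast_nonneg _)
        linarith
      have h3 : κm * (w : ℝ) ≤ 1 * w := mul_le_mul_of_nonneg_right hκm2 (Nat.cast_nonneg _)
      have h4 : (w : ℝ) ≤ cc := by
        have : w ≤ cc := by rw [hcc]; omega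
        exact_mod_cast this
      have h5 : 0 ≤ κm * n := mul_nonneg hκm0.le hn0
      linarith) (by
      have h1 : w + 4 * (F.card + c₁) + Kst * (3 * F.card + 2 * c₁) + F.card + 2 ≤
          (5 + 3 * Kst) * High.card + cc := by
        have h2 : (5 + 3 * Kst) * F.card ≤ (5 + 3 * Kst) * (High.card + (f + 2 * N)) := Nat.mul_le_mul_left _ hFc
        have h3 : (5 + 3 * Kst) * (High.card + (f + 2 * N)) = (5 + 3 * Kst) * High.card + (5 + 3 * Kst) * (f + 2 * N) :=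
          Nat.mul_add _ _ _
        have h4 : w + 4 * (F.card + c₁) + Kst * (3 * F.card + 2 * c₁) + F.card + 2 =
          (5 + 3 * Kst) * F.card + (4 + 2 * Kst) * c₁ + 2 + w := by ring
        rw [h4, hcc]
        omega
      have h2 : ((w + 4 * (F.card + c₁) + Kst * (3 * F.card + 2 * c₁) + F.card + 2 : ℕ) : ℝ) ≤
          (5 + 3 * Kst) * High.card + cc := by exact_mod_cast h1
      refine h2.trans ?_
      have h3 : κ₀ * (n / 2) ≤ κ₀ * P₁.card := mul_le_mul_of_nonneg_left hP₁c hκ₀.le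
      have h4 : (5 + 3 * (Kst : ℝ)) * High.card ≤ 5 * (((Kst : ℝ) + 1) * High.card) := by
        have : 5 * (((Kst : ℝ) + 1) * High.card) = 5 * High.card + 5 * (Kst * High.card) := by ring
        have h5 : (5 + 3 * (Kst : ℝ)) * High.card = 5 * High.card + 3 * (Kst * High.card) := by ring
        linarith
      linarith)
  rw [hF, mem_union, mem_union, mem_union, List.mem_toFinset, List.mem_toFinset] at vF aF
  push Not at vF aF
  rw [hF, disjoint_union_right, disjoint_union_right, disjoint_union_right] at e6 e7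
  obtain ⟨vH, vE, vz, vy⟩ := vF
  obtain ⟨aH, aE, az', ay⟩ := aF
  obtain ⟨e61, e62, e63, e64⟩ := e6
  obtain ⟨e71, e72, e73, e74⟩ := e7
  -- the bounded set
  obtain ⟨F₁, hF₁⟩ : ∃ F₁, F₁ = E ∪ (zs.toFinset ∪ insert v (insert a (A₁ ∪ D₁))) := ⟨_, rfl⟩
  have hF₁c : F₁.card ≤ f₁ := by
    rw [hF₁]
    have h1 := card_union_le E (zs.toFinset ∪ insert v (insert a (A₁ ∪ D₁)))
    have h2 := card_union_le zs.toFinset (insert v (insert a (A₁ ∪ D₁)))
    have h3 := card_insert_le v (insert a (A₁ ∪ D₁))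
    have h4 := card_insert_le a (A₁ ∪ D₁)
    have h5 := card_union_le A₁ D₁
    have h6 := zs.toFinset_card_le
    omega
  have r2 : Disjoint F₁ Rsv := by rw [hcut.rsv]; exact disjoint_empty_right _
  obtain ⟨Hr, V₂, b1, b2, b3, b4, b5, b6, -, b8⟩ := hpart hT h (by
      have := hcut.hBad
      rw [← hf₁] at this
      exact this) (by
      intro g hg hgB
      have := hcut.hcap g hg hgB
      rw [← hf₁] at this
      exact this) hq (by omega) F₁ hF₁c r2
  have hysl : ys = y :: ys.tail := by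
    have h1 := h.first
    cases hys : ys with
    | nil => rw [hys] at h1; simp at h1
    | cons u tl =>
      rw [hys, List.head?_cons, Option.some.injEq] at h1
      rw [h1, List.tail_cons]
  have hsum : ((pre ++ qa :: post).map (fun t => t.1.size)).sum =
      qa.1.size + ((pre.map (fun t => t.1.size)).sum + (post.map (fun t => t.1.size)).sum) := by
    simp only [List.map_append, List.map_cons, List.sum_append, List.sum_cons]
    omega
  obtain ⟨os, hos⟩ : ∃ os, os = zs.zip (pre.map Prod.fst) ++ ys.tail.zip (post.map Prod.fst) := ⟨_, rfl⟩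
  have htot : totB ((y, qa.1) :: os) ≤ ((pre ++ qa :: post).map (fun t => t.1.size)).sum := by
    have h1 : totB ((y, qa.1) :: os) = qa.1.size + totB os := by simp [totB]
    have h2 := totB_zip_le Prod.fst zs pre
    have h3 := totB_zip_le Prod.fst ys.tail post
    rw [hos, totB_append] at h1
    rw [hos, h1, hsum]
    omega
  have htotD := totB_zip_le Prod.snd zs pre
  obtain ⟨A₂, D₂, s1, s2, s3, s4, s5⟩ := b8 ∅ (disjoint_empty_left _) (disjoint_empty_left _) (by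
      rw [card_empty, Nat.cast_zero]
      exact mul_nonneg hσ.le (Nat.cast_nonneg _)) qa.1 os (zs.zip (pre.map Prod.snd)) (by
      have h1 : (zs.zip (pre.map Prod.fst)).length ≤ pre.length := by
        rw [List.length_zip, List.length_map]
        exact min_le_right _ _
      have h2 : (ys.tail.zip (post.map Prod.fst)).length ≤ post.length := by
        rw [List.length_zip, List.length_map]
        exact min_le_right _ _
      rw [hos, List.length_append]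
      omega) hqa hqa' (by
      intro t ht
      rw [hos, List.mem_append] at ht
      rcases ht with ht | ht
      · obtain ⟨k1, t', k2, k3⟩ := mem_zip_map ht
        obtain ⟨k4, k5, k6⟩ := hpp t' (List.mem_append_left _ k2)
        rw [k3]
        exact ⟨k4, k5, by omega, (z4 _ k1).2.1, Or.inl (by
          rw [hF₁]
          exact mem_union_right _ (mem_union_left _ (List.mem_toFinset.2 k1)))⟩
      · obtain ⟨k1, t', k2, k3⟩ := mem_zip_map ht
        obtain ⟨k4, k5, k6⟩ := hpp t' (List.mem_append_right _ k2)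
        have k7 : t.1 ∈ ys := List.mem_of_mem_tail k1
        rw [k3]
        exact ⟨k4, k5, by omega, (h.hys _ k7).1, Or.inr k7⟩) (by
      intro t ht
      obtain ⟨k1, t', k2, k3⟩ := mem_zip_map ht
      rw [k3]
      exact ⟨hpre t' k2, (z4 _ k1).2.2.2.2.2.2⟩) (by
      refine le_trans ?_ hpreD
      exact_mod_cast htotD) (by
      have h1 : P₁.card ≤ (P₁ \ (F₁ ∪ ∅)).card + F₁.card := by
        rw [union_empty]
        have := le_card_sdiff F₁ P₁
        omega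
      omega)
  rw [union_empty] at s3 s4
  have hA₂ : ∀ u ∈ A₂, (u ∈ P₁ ∨ u ∈ V₂) ∧ u ∉ F₁ := by
    intro u hu
    have := s4 hu
    rw [mem_sdiff, mem_union] at this
    exact this
  have hD₂ : ∀ u ∈ D₂, u ∈ P₁ ∧ u ∉ F₁ := by
    intro u hu
    have := s3 hu
    rw [mem_sdiff, mem_union, not_or] at this
    exact ⟨this.1, this.2.1⟩
  have hF₁m : ∀ u, u ∉ F₁ → u ∉ E ∧ u ∉ zs ∧ u ≠ v ∧ u ≠ a ∧ u ∉ A₁ ∧ u ∉ D₁ := by
    intro u hu
    rw [hF₁, mem_union, mem_union, mem_insert, mem_insert, mem_union, List.mem_toFinset] at hu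
    push Not at hu
    exact ⟨hu.1, hu.2.1, hu.2.2.1, hu.2.2.2.1, hu.2.2.2.2.1, hu.2.2.2.2.2⟩
  have hA₁A₂ : Disjoint A₁ A₂ := by
    rw [disjoint_left]
    exact fun u hu hu' => (hF₁m u (hA₂ u hu').2).2.2.2.2.1 hu
  have hD₁D₂ : Disjoint D₁ D₂ := by
    rw [disjoint_left]
    exact fun u hu hu' => (hF₁m u (hD₂ u hu').2).2.2.2.2.2 hu
  have hA₁D₂ : Disjoint A₁ D₂ := by
    rw [disjoint_left]
    exact fun u hu hu' => (hF₁m u (hD₂ u hu').2).2.2.2.2.1 hu
  have hA₂D₁ : Disjoint A₂ D₁ := by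
    rw [disjoint_left]
    exact fun u hu hu' => (hF₁m u (hA₂ u hu).2).2.2.2.2.2 hu'
  have hV₂X : V₂ ⊆ X := b4.trans hP₂X
  have hyP : ∀ z ∈ ys, z ∉ A₂ ∧ z ∉ D₂ := by
    intro z hz
    obtain ⟨-, -, k3, k4, -⟩ := h.hys z hz
    refine ⟨fun hc => ?_, fun hc => k3 (hD₂ z hc).1⟩
    rcases (hA₂ z hc).1 with k5 | k5
    · exact k3 k5
    · exact k4 (b4 k5)
  refine ⟨v, a, zs, A₁ ∪ A₂, D₁ ∪ D₂, z1, v1, v2, a1, fun z hz => (z4 z hz).1, ?_, ?_, ?_, ?_, ?_, ?_, ?_, ?_, ?_, ?_, ?_,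
    ?_, ?_⟩
  · rw [List.nodup_cons, List.nodup_cons]
    refine ⟨?_, ?_, z2⟩
    · rw [List.mem_cons, List.mem_append]
      push Not
      exact ⟨hva, vz, vy⟩
    · rw [List.mem_append]
      push Not
      exact ⟨az', ay⟩
  · rw [List.isChain_cons_cons, List.isChain_cons]
    refine ⟨va, ?_, z3⟩
    intro x hx
    rw [hz₀, Option.mem_def, Option.some.injEq] at hx
    exact hx ▸ az
  · intro z hz
    rcases List.mem_cons.1 hz with rfl | hz
    · exact ⟨mem_union_left _ v1, vE⟩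
    rcases List.mem_cons.1 hz with rfl | hz
    · exact ⟨mem_union_left _ a2, aE⟩
    · obtain ⟨k1, -, -, -, k5, -, -⟩ := z4 z hz
      exact ⟨hXU (hP₁X k1), k5⟩
  · have h1 : EmbAllB (rv R) ([(v, l₁.1), (a, l₂.1)] ++ ((y, qa.1) :: os)) (A₁ ∪ A₂) :=
      embAllB_append.2 ⟨A₁, A₂, hA₁A₂, rfl, e1, s1⟩
    refine EmbAllB.perm ?_ h1
    rw [hos]
    conv_rhs => rw [hysl]
    simp only [List.cons_append, List.nil_append, List.map_cons, List.zip_cons_cons]
    exact ((List.perm_middle.symm).cons _).cons _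
  · exact embAllB_append.2 ⟨D₁, D₂, hD₁D₂, rfl, e2, s2⟩
  · refine union_subset e3 ?_
    intro u hu
    rcases (hA₂ u hu).1 with k1 | k1
    · exact hXU (hP₁X k1)
    · exact hXU (hV₂X k1)
  · refine union_subset e4 ?_
    intro u hu
    exact hXU (hP₁X (hD₂ u hu).1)
  · rw [disjoint_union_left, disjoint_union_right, disjoint_union_right]
    exact ⟨⟨e5, hA₁D₂⟩, hA₂D₁, s5⟩
  · intro z hz
    rw [mem_union, mem_union, not_or, not_or]
    rcases List.mem_cons.1 hz with rfl | hz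
    · exact ⟨⟨g1, fun hc => (hF₁m _ (hA₂ _ hc).2).2.2.1 rfl⟩, g2, fun hc => (hF₁m _ (hD₂ _ hc).2).2.2.1 rfl⟩
    rcases List.mem_cons.1 hz with rfl | hz
    · exact ⟨⟨g3, fun hc => (hF₁m _ (hA₂ _ hc).2).2.2.2.1 rfl⟩, g4, fun hc => (hF₁m _ (hD₂ _ hc).2).2.2.2.1 rfl⟩
    rcases List.mem_append.1 hz with hz | hz
    · exact ⟨⟨fun hc => disjoint_left.1 e63 hc (List.mem_toFinset.2 hz), fun hc => (hF₁m _ (hA₂ _ hc).2).2.1 hz⟩,
        fun hc => disjoint_left.1 e73 hc (List.mem_toFinset.2 hz), fun hc => (hF₁m _ (hD₂ _ hc).2).2.1 hz⟩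
    · exact ⟨⟨fun hc => disjoint_left.1 e64 hc (List.mem_toFinset.2 hz), (hyP z hz).1⟩,
        fun hc => disjoint_left.1 e74 hc (List.mem_toFinset.2 hz), (hyP z hz).2⟩
  · rw [disjoint_union_left]
    refine ⟨e62, ?_⟩
    rw [disjoint_left]
    exact fun u hu hu' => (hF₁m u (hA₂ u hu).2).1 hu'
  · rw [disjoint_union_left]
    refine ⟨e72, ?_⟩
    rw [disjoint_left]
    exact fun u hu hu' => (hF₁m u (hD₂ u hu).2).1 hu'
  · have h1 : insert v (insert a (A₁ ∪ A₂ ∪ (D₁ ∪ D₂))) ∩ P₂ ⊆ insert v (insert a (A₁ ∪ D₁)) ∪ V₂ := by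
      intro u hu
      rw [mem_inter, mem_insert, mem_insert, mem_union, mem_union, mem_union] at hu
      rw [mem_union, mem_insert, mem_insert, mem_union]
      obtain ⟨k1, k2⟩ := hu
      have hP12 : u ∉ P₁ := fun hc => disjoint_left.1 h.disj hc k2
      rcases k1 with k1 | k1 | (k1 | k1) | (k1 | k1)
      · tauto
      · tauto
      · tauto
      · rcases (hA₂ u k1).1 with k3 | k3
        · exact absurd k3 hP12
        · tauto
      · tauto
      · exact absurd (hD₂ u k1).1 hP12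
    have h2 := (card_le_card h1).trans (card_union_le _ _)
    have h3 := card_insert_le v (insert a (A₁ ∪ D₁))
    have h4 := card_insert_le a (A₁ ∪ D₁)
    have h5 := card_union_le A₁ D₁
    omega
  · have hA₂c := EmbAllB.card s1
    have hD₂c := EmbAllB.card s2
    have h1 : totB ((y, qa.1) :: os) = ((pre ++ qa :: post).map (fun t => t.1.size)).sum := by
      have h2 := totB_zip_eq Prod.fst zs pre z1.ge
      have h3 := totB_zip_eq Prod.fst ys.tail post (by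
        rw [List.length_tail, h.len]
        omega)
      have h4 : totB ((y, qa.1) :: os) = qa.1.size + totB os := by simp [totB]
      rw [hos, totB_append] at h4
      rw [hos, h4, hsum]
      omega
    have h2 : totB (zs.zip (pre.map Prod.snd)) = (pre.map (fun t => t.2.size)).sum := totB_zip_eq Prod.snd zs pre z1.ge
    have h3 : (P₁ \ (A₁ ∪ A₂ ∪ (D₁ ∪ D₂))).card ≤ (P₁ \ (A₂ ∪ D₂)).card := by
      apply card_le_card
      apply sdiff_subset_sdiff (Subset.refl _)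
      exact union_subset_union subset_union_right subset_union_right
    have h4 : (P₁ \ (A₂ ∪ D₂)).card + (A₂ ∪ D₂).card ≤ P₁.card + V₂.card := by
      have h5 : (P₁ \ (A₂ ∪ D₂)) ∪ (A₂ ∪ D₂) ⊆ P₁ ∪ V₂ := by
        intro u hu
        rw [mem_union, mem_sdiff, mem_union] at hu
        rw [mem_union]
        rcases hu with k1 | k1 | k1
        · exact Or.inl k1.1
        · exact (hA₂ u k1).1
        · exact Or.inl (hD₂ u k1).1
      have h6 := (card_le_card h5).trans (card_union_le _ _)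
      rw [card_union_of_disjoint sdiff_disjoint] at h6
      exact h6
    rw [card_union_of_disjoint s5, hA₂c, hD₂c, h1, h2] at h4
    omega

end AEG
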