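import Pool.Agent.AEG.ThinM
import Pool.Agent.AEG.PackR
import Pool.Agent.AEG.ChainE

/-!
# Packing on the pool side of a group

`pack_GSd`: the forests at the hosts of a group are packed into the pool, up to a bounded number of vertices.
-/

set_option autoImplicit false

namespace AEG

open Finset AE15 AED AEB SPD
open scoped Classical

/-- a list with a largest element in front -/
theorem exists_front_max {V : Type} (os : List (V × Fd)) (h : os ≠ []) :
    ∃ (q : V × Fd) (os' : List (V × Fd)), (q :: os').Perm os ∧ ∀ p ∈ os', p.2.size ≤ q.2.size := by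
  obtain ⟨q, hq, hmax⟩ := exists_max_image os.toFinset (fun p => p.2.size) (by
    obtain ⟨p, hp⟩ := List.exists_mem_of_ne_nil os h
    exact ⟨p, List.mem_toFinset.2 hp⟩)
  rw [List.mem_toFinset] at hq
  refine ⟨q, os.erase q, (List.perm_cons_erase hq).symm, ?_⟩
  intro p hp
  exact hmax p (List.mem_toFinset.2 (List.mem_of_mem_erase hp))

/-- **Packing on the pool side of a group.** -/
theorem pack_GSd (b l N : ℕ) (hb : 1 ≤ b) (hN : 1 ≤ N) : ∃ η : ℝ, 0 < η ∧ η ≤ 1 / 8 ∧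
    ∀ (K e : ℕ) (κ ξ s τ : ℝ), 0 < κ → κ ≤ 1 → 0 < ξ → ξ ≤ 1 → 0 < s → 0 < τ → ∃ J : ℕ, ∀ cA : ℕ, ∃ C : ℕ,
    ∀ {V : Type} {R : V → V → Prop}, AE32.Tour R → ∀ {U P ys : Finset V} {t : ℝ}, GSd R U P ys κ t s τ K e →
      ξ * U.card ≤ P.card → t ≤ η * P.card → ys.card ≤ N → ∀ (os : List (V × Fd)) (A : Finset V), os.length ≤ N →
      os ≠ [] → (∀ q ∈ os, q.1 ∈ ys ∧ FOK b l 0 q.2 ∧ ∀ t ∈ q.2.trees, t.1 = true) → A.card ≤ cA →
      totB os + C ≤ P.card →
      ∃ S, EmbAllB R os S ∧ S ⊆ U ∧ Disjoint (S \ P) A ∧ Disjoint S ys ∧ (S \ P).card ≤ J := by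
  obtain ⟨c₀, η, hη0, hη1, hpack⟩ := packR b l N 1 hb hN le_rfl
  refine ⟨η, hη0, hη1, ?_⟩
  intro K e κ ξ s τ hκ hκ1 hξ hξ1 hs hτ
  obtain ⟨δA, hδ, hpack⟩ := hpack κ ξ s hκ hκ1 hξ hξ1 hs
  obtain ⟨C, J, hpack⟩ := hpack (K * (2 * c₀) + e)
  refine ⟨J, fun cA => ?_⟩
  obtain ⟨n₁, hn₁⟩ := exists_nat_ge (((cA : ℝ) + N) / δA + 2 * c₀ / τ)
  refine ⟨C + n₁, ?_⟩
  intro V R hT U P ys t hG hξP ht hys os A hlen hne hos hA htot
  obtain ⟨q, os', hperm, hmax⟩ := exists_front_max os hne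
  have htot' : totB (q :: os') = totB os := (hperm.map (fun p : V × Fd => p.2.size)).sum_eq
  have hos' : ∀ p ∈ q :: os', p.1 ∈ ys ∧ FOK b l 0 p.2 ∧ ∀ t ∈ p.2.trees, t.1 = true := fun p hp =>
    hos p (hperm.mem_iff.1 hp)
  have hlen' : os'.length + 1 ≤ N := by
    have := hperm.length_eq
    rw [List.length_cons] at this
    omega
  have hPU : (P.card : ℝ) ≤ U.card := by exact_mod_cast card_le_card hG.sub
  have hn₁' : (n₁ : ℝ) ≤ P.card := by exact_mod_cast (by omega : n₁ ≤ P.card)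
  have t1 : 0 ≤ ((cA : ℝ) + N) / δA := by positivity
  have t2 : 0 ≤ 2 * (c₀ : ℝ) / τ := by positivity
  have b1 : (cA : ℝ) + N ≤ δA * U.card := by
    have h1 : ((cA : ℝ) + N) / δA ≤ U.card := by linarith
    rw [div_le_iff₀ hδ] at h1
    linarith
  have b2 : ((2 * c₀ : ℕ) : ℝ) ≤ τ * P.card := by
    have h1 : 2 * (c₀ : ℝ) / τ ≤ P.card := by linarith
    rw [div_le_iff₀ hτ] at h1
    push_cast
    linarith
  obtain ⟨hq1, hq2, hq3⟩ := hos' q List.mem_cons_self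
  have hysP : ∀ y ∈ ys, y ∉ P := fun y hy => disjoint_left.1 hG.ysP hy
  obtain ⟨S, h1, h2, h3, h4⟩ := hpack hT U P P (A ∪ ys) q.1 q.2 os' t (Subset.refl _) hG.sub hlen' hq2 hq3 (fun p hp => by
      obtain ⟨g1, g2, g3⟩ := hos' p (List.mem_cons_of_mem _ hp)
      refine ⟨g2, g3, ?_⟩
      have := hmax p hp
      omega) (hG.ysU hq1) (hysP _ hq1) (mem_union_right _ hq1) (fun p hp => by
      obtain ⟨g1, g2, g3⟩ := hos' p (List.mem_cons_of_mem _ hp)
      exact ⟨hG.ysU g1, hysP _ g1, mem_union_right _ g1⟩) hξP (hG.reach _ hq1) (hG.lin _ hq1) (by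
      have g1 := hG.cnt q.1 hq1 (2 * c₀) b2
      refine le_trans (card_le_card ?_) g1
      intro u hu
      rw [mem_filter] at hu ⊢
      obtain ⟨u1, u2, u3⟩ := hu
      refine ⟨u1, u2, ?_⟩
      obtain ⟨L, hL⟩ : ∃ L, L = P.filter (fun v => Rea R U P (κ * U.card) t v) := ⟨_, rfl⟩
      have g2 : P.filter (fun w => R q.1 w ∧ R w u ∧ Rea R U P (κ * U.card) t w) ⊆
          L.filter (fun w => (nI R L w).card < c₀) := by
        intro w hw
        rw [mem_filter] at hw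
        obtain ⟨w1, w2, w3, w4⟩ := hw
        rw [mem_filter, hL, mem_filter]
        refine ⟨⟨w1, w4⟩, ?_⟩
        by_contra hcon
        push Not at hcon
        apply u3
        refine ⟨w, w1, w2, w3, w4, hcon.trans (card_le_card ?_)⟩
        intro v hv
        rw [mem_nI, mem_filter] at hv
        rw [mem_filter]
        exact ⟨hv.1.1, hv.2, hv.1.2⟩
      exact (card_le_card g2).trans (card_lowin hT L c₀)) (fun p hp => by
      obtain ⟨g1, g2, g3⟩ := hos' p (List.mem_cons_of_mem _ hp)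
      exact hG.reach _ g1) ht (by
      have g1 : ((A ∪ ys).card : ℝ) ≤ (cA : ℝ) + N := by
        exact_mod_cast (card_union_le _ _).trans (Nat.add_le_add hA hys)
      linarith) (by
      rw [show ((q.1, q.2) :: os') = q :: os' from rfl, htot']
      omega)
  rw [disjoint_union_right] at h3
  refine ⟨S, EmbAllB.perm hperm h1, h2, h3.1, ?_, h4⟩
  rw [disjoint_left]
  intro x hx hxy
  exact disjoint_left.1 h3.2 (mem_sdiff.2 ⟨hx, hysP _ hxy⟩) hxy

end AEG
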