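import Pool.Agent.AEG.StC
import Pool.Agent.AEG.PackM
import Pool.Agent.AEG.MidD

/-!
# Closing a critical group

`StE.perturb`: the state of a free set survives if boundedly many vertices are removed and a few are added. `finB_of`: the
in-items of the last critical group are packed, the rest of the pool is added to the free set.
-/

set_option autoImplicit false

namespace AEG

open Finset AE15 AED AEB SPD
open scoped Classical

section perturb

variable {V : Type} {R : V → V → Prop} {X J A E : Finset V} {N : V → Prop} {κ κ' η η' s s' : ℝ}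

/-- good vertices after the perturbation -/
theorem good_perturb {v : V} (h : Good R κ η X v) (hJ : J ⊆ X) (h1 : κ' * ((X \ J) ∪ A).card + J.card ≤ κ * X.card)
    (h2 : η * X.card + A.card ≤ η' * ((X \ J) ∪ A).card) : Good R κ' η' ((X \ J) ∪ A) v := by
  intro C hC hvC hcl
  have h3 := h ((C ∩ X) ∪ J) (union_subset inter_subset_right hJ) (by
    intro u hu
    rw [mem_nO] at hu
    by_cases huJ : u ∈ J
    · exact mem_union_right _ huJ
    · exact mem_union_left _ (mem_inter.2 ⟨hvC (mem_nO.2 ⟨mem_union_left _ (mem_sdiff.2 ⟨hu.1, huJ⟩), hu.2⟩), hu.1⟩)) (by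
    intro z hz hzC
    rw [mem_union, mem_inter, not_or] at hzC
    have hz1 : z ∈ (X \ J) ∪ A := mem_union_left _ (mem_sdiff.2 ⟨hz, hzC.2⟩)
    have h4 := hcl z hz1 (fun h => hzC.1 ⟨h, hz⟩)
    have h5 : ((nI R ((C ∩ X) ∪ J) z).card : ℝ) ≤ (nI R C z).card + J.card := by
      have h6 : nI R ((C ∩ X) ∪ J) z ⊆ nI R C z ∪ J := by
        intro u hu
        rw [mem_nI, mem_union, mem_inter] at hu
        rw [mem_union, mem_nI]
        rcases hu.1 with h | h
        · exact Or.inl ⟨h.1, hu.2⟩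
        · exact Or.inr h
      exact_mod_cast (card_le_card h6).trans (card_union_le _ _)
    linarith)
  have h4 : ((X \ J) ∪ A) \ C ⊆ (X \ ((C ∩ X) ∪ J)) ∪ A := by
    intro u hu
    rw [mem_sdiff, mem_union, mem_sdiff] at hu
    rw [mem_union, mem_sdiff, mem_union, mem_inter]
    tauto
  have h5 : ((((X \ J) ∪ A) \ C).card : ℝ) ≤ (X \ ((C ∩ X) ∪ J)).card + A.card := by
    exact_mod_cast (card_le_card h4).trans (card_union_le _ _)
  linarith

/-- **The state survives** if the set `J` is removed and the set `A` is added -/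
theorem StE.perturb {lam lam' f w K le j₀ : ℕ} (h : StE R X E N κ η s lam 0 (f + j₀) w K le) (hJ : J ⊆ X)
    (hJc : J.card ≤ j₀) (h1 : κ' * ((X \ J) ∪ A).card + J.card ≤ κ * X.card)
    (h2 : η * X.card + A.card ≤ η' * ((X \ J) ∪ A).card) (h3 : s' * ((X \ J) ∪ A).card + J.card ≤ s * X.card)
    (hlam : lam' + j₀ ≤ lam ∨ lam' = 0) :
    StE R ((X \ J) ∪ A) (E \ J) N κ' η' s' lam' 0 f (w + K * j₀ + A.card) K (le - j₀) := by
  have hnI : ∀ v, (nI R X v).card ≤ (nI R ((X \ J) ∪ A) v).card + j₀ := by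
    intro v
    have h4 : nI R X v ⊆ nI R ((X \ J) ∪ A) v ∪ J := by
      intro u hu
      rw [mem_nI] at hu
      rw [mem_union, mem_nI, mem_union, mem_sdiff]
      by_cases huJ : u ∈ J
      · exact Or.inr huJ
      · exact Or.inl ⟨Or.inl ⟨hu.1, huJ⟩, hu.2⟩
    exact (card_le_card h4).trans ((card_union_le _ _).trans (Nat.add_le_add_left hJc _))
  have hcap : ∀ v, lam ≤ (nI R X v).card → lam' ≤ (nI R ((X \ J) ∪ A) v).card := by
    intro v hv
    have h4 := hnI v
    rcases hlam with h5 | h5 <;> omega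
  have hcg : ∀ v ∈ cg R X ∅ N κ η lam, v ∉ J → v ∈ cg R ((X \ J) ∪ A) ∅ N κ' η' lam' := by
    intro v hv hvJ
    rw [mem_cg, union_empty] at hv ⊢
    exact ⟨mem_union_left _ (mem_sdiff.2 ⟨hv.1, hvJ⟩), hv.2.1, good_perturb hv.2.2.1 hJ h1 h2, hcap v hv.2.2.2⟩
  have hJc' : ((cg R X ∅ N κ η lam).card : ℝ) ≤ (cg R ((X \ J) ∪ A) ∅ N κ' η' lam').card + J.card := by
    have h4 : cg R X ∅ N κ η lam ⊆ cg R ((X \ J) ∪ A) ∅ N κ' η' lam' ∪ J := by
      intro v hv
      by_cases hvJ : v ∈ J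
      · exact mem_union_right _ hvJ
      · exact mem_union_left _ (hcg v hv hvJ)
    exact_mod_cast (card_le_card h4).trans (card_union_le _ _)
  refine ⟨?_, ?_, ?_, ?_⟩
  · intro u hu
    rw [mem_sdiff] at hu
    exact mem_union_left _ (mem_sdiff.2 ⟨h.sub hu.1, hu.2⟩)
  · have h4 := h.dense
    linarith
  · intro j hj
    have h4 := h.cnt (j + j₀) (by omega)
    have h5 : ((((X \ J) ∪ A) \ (E \ J)).filter (fun u => ¬ N u ∧ 0 ≤ (nI R ((X \ J) ∪ A) u).card ∧
        (nI R (cg R ((X \ J) ∪ A) ∅ N κ' η' lam') u).card ≤ j)) ⊆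
        ((X \ E).filter (fun u => ¬ N u ∧ 0 ≤ (nI R X u).card ∧ (nI R (cg R X ∅ N κ η lam) u).card ≤ j + j₀)) ∪ A := by
      intro u hu
      rw [mem_filter, mem_sdiff, mem_union, mem_sdiff, mem_sdiff] at hu
      rw [mem_union, mem_filter, mem_sdiff]
      obtain ⟨⟨hu1, hu2⟩, hu3, -, hu4⟩ := hu
      rcases hu1 with hu1 | hu1
      · left
        refine ⟨⟨hu1.1, fun hE => hu2 ⟨hE, hu1.2⟩⟩, hu3, Nat.zero_le _, ?_⟩
        have h6 : nI R (cg R X ∅ N κ η lam) u ⊆ nI R (cg R ((X \ J) ∪ A) ∅ N κ' η' lam') u ∪ J := by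
          intro v hv
          rw [mem_nI] at hv
          by_cases hvJ : v ∈ J
          · exact mem_union_right _ hvJ
          · exact mem_union_left _ (mem_nI.2 ⟨hcg v hv.1 hvJ, hv.2⟩)
        exact (card_le_card h6).trans ((card_union_le _ _).trans (Nat.add_le_add hu4 hJc))
      · exact Or.inr hu1
    have h6 := (card_le_card h5).trans (card_union_le _ _)
    have h7 : K * (j + j₀) = K * j₀ + K * j := by ring
    omega
  · intro u hu
    rw [mem_sdiff] at hu
    have h4 := h.thr u hu.1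
    have h5 : (X \ E).filter (fun b => R b u ∧ Good R κ η X b ∧ lam ≤ (nI R X b).card) ⊆
        ((((X \ J) ∪ A) \ (E \ J)).filter (fun b => R b u ∧ Good R κ' η' ((X \ J) ∪ A) b ∧
          lam' ≤ (nI R ((X \ J) ∪ A) b).card)) ∪ J := by
      intro b hb
      rw [mem_filter, mem_sdiff] at hb
      by_cases hbJ : b ∈ J
      · exact mem_union_right _ hbJ
      · refine mem_union_left _ (mem_filter.2 ⟨mem_sdiff.2 ⟨mem_union_left _ (mem_sdiff.2 ⟨hb.1.1, hbJ⟩), ?_⟩, hb.2.1,
          good_perturb hb.2.2.1 hJ h1 h2, hcap b hb.2.2.2⟩)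
        intro hc
        exact hb.1.2 (mem_sdiff.1 hc).1
    have h6 := (card_le_card h5).trans (card_union_le _ _)
    omega

end perturb

/-- **Closing a critical group**: the in-items of its hosts are packed, and the rest of the pool is added to the free set.
`hpack`: the packing lemma on the pool side, with the constants of the state. -/
theorem finB_of {CS : CSt} {b l : ℕ} {κp ξp sp τp ηp : ℝ} {Kp ep : ℕ} {κ η s : ℝ} {f K cF cc Nn J₀ C₀ : ℕ} (C₂ : ℕ)
    (hκ : 0 < κ) (hη : 0 < η) (hs : 0 < s)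
    (hCS : ∀ (V : Type) (R : V → V → Prop) (P X : Finset V) (ys : List V) (y : V) (lam w bb le : ℕ),
      CS V R P X ys y lam w bb le → ∃ E U Fx : Finset V,
        StC R P X E U Fx ys y κp ξp sp τp ηp Kp ep κ η s (f + J₀) K cF cc lam w bb le)
    (hpack : ∀ {V : Type} {R : V → V → Prop}, AE32.Tour R → ∀ {U P ys : Finset V} {t : ℝ},
      GSd R U P ys κp t sp τp Kp ep → ξp * U.card ≤ P.card → t ≤ ηp * P.card → ys.card ≤ Nn →
      ∀ os : List (V × Fd), os.length ≤ Nn → os ≠ [] → (∀ q ∈ os, q.1 ∈ ys ∧ FOK b l 0 q.2 ∧ ∀ t ∈ q.2.trees, t.1 = true) →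
      totB os + C₀ ≤ P.card → ∃ S, EmbAllB R os S ∧ S ⊆ U ∧ Disjoint S ys ∧ (S \ P).card ≤ J₀) :
    ∃ C : ℕ, ∀ ξ : ℝ, ξ ≤ 1 / 2 → ξ ≤ η / 2 → FinB CS b l (κ / 2) (2 * η) (s / 2) f K Nn ξ C C₀ C₂ := by
  obtain ⟨n₁, hn₁⟩ := exists_big [((J₀ : ℝ), κ / 4), ((J₀ : ℝ), 1 / 4), ((J₀ : ℝ), s / 4)] (by
    intro q hq
    simp only [List.mem_cons, List.not_mem_nil, or_false] at hq
    rcases hq with rfl | rfl | rfl
    · show 0 < κ / 4
      positivity
    · show (0 : ℝ) < 1 / 4
      norm_num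
    · show 0 < s / 4
      positivity)
  refine ⟨n₁ + K * J₀ + C₂ + J₀, ?_⟩
  intro ξ hξ1 hξη V R hT P X ys y lam w bb le c₁ gr L hcs hlen hgr hgr0 hgrN hc₁ hPl hPu hPξ hX
  obtain ⟨E, U, Fx, h⟩ := hCS V R P X ys y lam w bb le hcs
  obtain ⟨n, hn⟩ : ∃ n : ℝ, n = (X.card : ℝ) := ⟨_, rfl⟩
  have hbig := hn₁ X.card (by omega)
  rw [← hn] at hbig hPξ
  have b1 : (J₀ : ℝ) ≤ κ / 4 * n := hbig (_, κ / 4) (by simp)
  have b2 : (J₀ : ℝ) ≤ 1 / 4 * n := hbig (_, 1 / 4) (by simp)
  have b3 : (J₀ : ℝ) ≤ s / 4 * n := hbig (_, s / 4) (by simp)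
  have hn0 : 0 ≤ n := by rw [hn]; exact Nat.cast_nonneg _
  -- the packing
  obtain ⟨os, hos⟩ : ∃ os, os = ys.zip (gr.map Prod.fst) := ⟨_, rfl⟩
  have hosm : ∀ q ∈ os, q.1 ∈ ys ∧ ∃ t ∈ gr, q.2 = t.1 := by
    intro q hq
    rw [hos] at hq
    exact mem_zip_map hq
  have hoslen : os.length = gr.length := by
    rw [hos, List.length_zip, List.length_map, hlen, min_self]
  have htot : totB os = inS gr := by
    rw [hos]
    exact totB_zip_eq Prod.fst ys gr hlen.ge
  obtain ⟨t, ht, hG⟩ := h.side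
  obtain ⟨S, hE, hSU, hSy, hSP⟩ := hpack (rv_tour hT) hG h.cardU ht ((List.toFinset_card_le _).trans (by omega)) os
    (by omega) (by
      intro h0
      rw [h0, List.length_nil] at hoslen
      exact hgr0 (List.length_eq_zero_iff.1 hoslen.symm)) (by
      intro q hq
      obtain ⟨h1, t', h2, h3⟩ := hosm q hq
      have h4 := hgr t' h2
      rw [h3]
      exact ⟨List.mem_toFinset.2 h1, h4.1, h4.2.2.1⟩) (by omega)
  have hSc : S.card = inS gr := by rw [EmbAllB.card hE, htot]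
  have hSPX : S ⊆ P ∪ X := by
    intro u hu
    have h1 := h.subU (hSU hu)
    rw [mem_union, List.mem_toFinset] at h1
    rcases h1 with h1 | h1
    · exact h1
    · exact absurd (List.mem_toFinset.2 h1) (disjoint_left.1 hSy hu)
  obtain ⟨J, hJ⟩ : ∃ J, J = S \ P := ⟨_, rfl⟩
  obtain ⟨A, hA⟩ : ∃ A, A = P \ S := ⟨_, rfl⟩
  have hJX : J ⊆ X := by
    intro u hu
    rw [hJ, mem_sdiff] at hu
    exact (mem_union.1 (hSPX hu.1)).resolve_left hu.2
  have hJc : J.card ≤ J₀ := by rw [hJ]; exact hSP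
  have hAP : A ⊆ P := by rw [hA]; exact sdiff_subset
  have hAX : Disjoint (X \ J) A := (h.dis.mono_left hAP).symm.mono_left sdiff_subset
  have hX'c : ((X \ J) ∪ A).card + S.card = P.card + X.card := by
    have h1 := card_union_of_disjoint hAX
    have h2 := card_sdiff_add_card_eq_card hJX
    have h3 : (P \ S).card + (P ∩ S).card = P.card := card_sdiff_add_card_inter P S
    have h4 : (S \ P).card + (S ∩ P).card = S.card := card_sdiff_add_card_inter S P
    rw [inter_comm] at h4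
    rw [← hA] at h3
    rw [← hJ] at h4
    omega
  have hAc : A.card ≤ c₁ + C₂ + J₀ := by
    have h3 : (P \ S).card + (P ∩ S).card = P.card := card_sdiff_add_card_inter P S
    have h4 : (S \ P).card + (S ∩ P).card = S.card := card_sdiff_add_card_inter S P
    rw [inter_comm] at h4
    rw [← hA] at h3
    rw [← hJ] at h4
    omega
  have hJr : (J.card : ℝ) ≤ J₀ := by exact_mod_cast hJc
  have hJ0 : (0 : ℝ) ≤ J.card := Nat.cast_nonneg _
  have hA0 : (0 : ℝ) ≤ A.card := Nat.cast_nonneg _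
  have hAr : (A.card : ℝ) ≤ ξ * n := by
    have : (A.card : ℝ) ≤ P.card := by exact_mod_cast card_le_card hAP
    linarith
  have hξn : ξ * n ≤ 1 / 2 * n := mul_le_mul_of_nonneg_right hξ1 hn0
  have hξη' : ξ * n ≤ η / 2 * n := mul_le_mul_of_nonneg_right hξη hn0
  have hX'r : (((X \ J) ∪ A).card : ℝ) = n - J.card + A.card := by
    have h1 := card_union_of_disjoint hAX
    have h2 := card_sdiff_add_card_eq_card hJX
    have h3 : ((((X \ J) ∪ A).card + J.card : ℕ) : ℝ) = ((X.card + A.card : ℕ) : ℝ) := by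
      exact_mod_cast (by omega : ((X \ J) ∪ A).card + J.card = X.card + A.card)
    push_cast at h3
    rw [hn]
    linarith
  have hX'u : (((X \ J) ∪ A).card : ℝ) ≤ 3 / 2 * n := by linarith
  have hX'l : 3 / 4 * n ≤ (((X \ J) ∪ A).card : ℝ) := by linarith
  have hst := h.st.perturb (κ' := κ / 2) (η' := 2 * η) (s' := s / 2) (J := J) (A := A)
    (lam' := lam - (n₁ + K * J₀ + C₂ + J₀)) hJX hJc (by
      rw [← hn]
      have := mul_le_mul_of_nonneg_left hX'u (by positivity : 0 ≤ κ / 2)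
      linarith) (by
      rw [← hn]
      have := mul_le_mul_of_nonneg_left hX'l (by positivity : 0 ≤ 2 * η)
      linarith) (by
      rw [← hn]
      have := mul_le_mul_of_nonneg_left hX'u (by positivity : 0 ≤ s / 2)
      linarith) (by omega)
  refine ⟨(X \ J) ∪ A, E \ J, w + K * J₀ + A.card, le - J₀, by omega, by omega, ?_, ?_, hst, ?_⟩
  · exact union_subset (sdiff_subset.trans subset_union_right) (hAP.trans subset_union_left)
  · rw [← hSc]
    exact hX'c
  · intro hIn
    refine ⟨S, (X \ J) ∪ A, hSPX, union_subset (sdiff_subset.trans subset_union_right) (hAP.trans subset_union_left), ?_,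
      ?_, hIn⟩
    · rw [disjoint_left]
      intro u hu hu'
      rw [mem_union, mem_sdiff, hJ, hA, mem_sdiff, mem_sdiff] at hu'
      rcases hu' with h1 | h1
      · by_cases h2 : u ∈ P
        · exact disjoint_left.1 h.dis h2 h1.1
        · exact h1.2 ⟨hu, h2⟩
      · exact h1.2 hu
    · rw [← hos]
      exact hE

end AEG
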