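import Pool.Agent.AEG.StCm
import Pool.Agent.AEG.FinBt
import Pool.Agent.AEG.PackQ

/-!
# Critical groups: assembly

`CritF`: the form of the step from a critical group to the next group, `EnterF`: the form of the entering step.
`critPack_of`: both, together with the packing of the last part, give `CritPack`.
-/

set_option autoImplicit false

namespace AEG

open Finset AE15 AED AEB SPD
open scoped Classical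

/-- the constants behind the step from a critical group to the next group -/
noncomputable def ckC (κ₀ η₀ τo : ℝ) (Ko eo : ℕ) (κo ηS so : ℝ) (fo K₁ C₁ cc : ℕ) : CK where
  κp := κ₀ ^ 2 / 512
  ξp := 1 / 16
  sp := η₀ / 512
  τp := τo
  ηp := 25 * η₀
  Kp := Ko
  ep := eo
  κ := κo
  η := ηS
  s := so
  f := fo
  K := K₁
  cF := K₁ * cc + C₁
  cc := cc

/-- the constants behind the entering step -/
noncomputable def ckE (H : ℕ) (κ₀ η₀ τo : ℝ) (Ko eo : ℕ) (κo ηS so : ℝ) (fo K₁ C₁ cc : ℕ) : CK where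
  κp := κ₀ ^ 2 / (512 * (H + 1))
  ξp := 1 / 16
  sp := η₀ / (256 * (H + 1))
  τp := τo
  ηp := 25 * η₀
  Kp := Ko
  ep := eo
  κ := κo
  η := ηS
  s := so
  f := fo
  K := K₁
  cF := K₁ * cc + C₁
  cc := cc

/-- **From a critical group to the next group**, with the order of the constants -/
def CritF (b l : ℕ) : Prop := ∃ (w₀ : ℕ) (cκ : ℝ) (a₀ : ℕ), 1 ≤ cκ ∧ 1 ≤ a₀ ∧ ∀ (Nn : ℕ) (ζ : ℝ), 1 ≤ Nn → 0 < ζ →
  ζ ≤ 1 → ∃ ηm : ℝ, 0 < ηm ∧ ∀ ηS : ℝ, 0 < ηS → ηS ≤ ηm →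
  ∀ κ₀ η₀ : ℝ, 0 < κ₀ → 25 * κ₀ ≤ η₀ → η₀ ≤ 1 / 8 → ∃ (τo : ℝ) (Ko eo : ℕ), 0 < τo ∧
  ∀ (κp ξp sp τp ηp : ℝ) (Kp ep : ℕ), 0 < κp → κp ≤ 1 → 0 < ξp → ξp ≤ 1 → 0 < sp → sp ≤ 1 → 0 < τp → τp ≤ 1 →
  0 < ηp → ηp ≤ 1 → 2 * (a₀ * Nn * ηp) ≤ 1 → ∃ C₀ : ℕ, ∀ C₂i : ℕ, ∃ κo so : ℝ, 0 < κo ∧ 0 < so ∧
  ∀ κS : ℝ, 0 < κS → ∃ K₁ C₁ cc₀ : ℕ,
  ∀ (sS : ℝ) (f Ki cFi cci fo cco Λp K₀ : ℕ), 0 < sS → cc₀ ≤ cci → cFi + Nn + 10 ≤ f →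
  2048 * (a₀ * (Nn : ℝ) ^ a₀) / (κp / cκ * (ξp / 2)) ^ 2 ≤ Λp → 2048 / η₀ ≤ Λp → ∃ (ξ : ℝ) (C : ℕ), 0 < ξ ∧
    CritB2 (CSof ⟨κp, ξp, sp, τp, ηp, Kp, ep, κS, ηS, sS, f, Ki, cFi, cci⟩)
      (CSof (ckC κ₀ η₀ τo Ko eo κo ηS so fo K₁ C₁ cco)) b l K₀ 64 Λp 48 Nn ζ ξ C C₀ C₂i 0 (w₀ + 4)

/-- **Entering**, with the order of the constants -/
def EnterF (b l K₀ : ℕ) (η' : ℝ) (Λ H aM : ℕ) : Prop := ∀ (Nn : ℕ) (ζ ηS : ℝ), 0 < ζ → 0 < ηS →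
  ∃ κo so : ℝ, 0 < κo ∧ 0 < so ∧ ∀ κ₀ η₀ : ℝ, 0 < κ₀ → 25 * κ₀ ≤ η₀ → η₀ ≤ 1 / 8 → ∃ (τo : ℝ) (Ko eo C₂ : ℕ), 0 < τo ∧
  ∀ κ η : ℝ, 0 < κ → η ≤ η' → ∃ K₁ C₁ : ℕ, ∀ (s : ℝ) (f K' fo cc Λp : ℕ), Nn + 3 ≤ f → (aM : ℝ) / η₀ ≤ Λp →
  ∃ (ξ : ℝ) (C : ℕ), 0 < ξ ∧ EnterB (CSof (ckE H κ₀ η₀ τo Ko eo κo ηS so fo K₁ C₁ cc)) b l K₀ κ η s Λ Λp 48 f K' Nn ζ ξ
    C 0 C₂

/-- **Assembly** -/
theorem critPack_of {b l K₀ : ℕ} (hb : 1 ≤ b) (hC : CritF b l) {η' : ℝ} {Λ H aM : ℕ}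
    (hE : EnterF b l K₀ η' Λ H aM) : ∃ a₀ k₀ : ℕ, ∀ κ η s : ℝ, 0 < κ → η ≤ η' →
    CritPack b l K₀ κ η s (max 64 Λ) 48 a₀ k₀ := by
  obtain ⟨wC, cκ, aC, hcκ, haC, hC⟩ := hC
  obtain ⟨aF, haF, hpack⟩ := pack_GSdq b l hb
  obtain ⟨a, ha⟩ : ∃ a, a = max aC aF := ⟨_, rfl⟩
  have haC' : aC ≤ a := by rw [ha]; exact le_max_left _ _
  have haF' : aF ≤ a := by rw [ha]; exact le_max_right _ _
  obtain ⟨Γ, hΓ⟩ : ∃ Γ : ℝ, Γ = 2048 * aC * (1250 ^ 2 * (a : ℝ) ^ 2 * (512 * (H + 1)) * 32 * cκ) ^ 2 := ⟨_, rfl⟩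
  refine ⟨⌈Γ⌉₊ + (2048 + aM) * 50 * a, aC + 4, ?_⟩
  intro κ η s hκ hη Nn ζ₀ ηw hNn hζ₀ hηw
  obtain ⟨ζ, hζd⟩ : ∃ ζ : ℝ, ζ = min ζ₀ 1 := ⟨_, rfl⟩
  have hζ : 0 < ζ := by rw [hζd]; exact lt_min hζ₀ one_pos
  have hζ1 : ζ ≤ 1 := by rw [hζd]; exact min_le_right _ _
  have hζζ : ζ ≤ ζ₀ := by rw [hζd]; exact min_le_left _ _
  obtain ⟨ηmC, hηmC, hC⟩ := hC Nn ζ hNn hζ hζ1
  obtain ⟨ηS, hηSd⟩ : ∃ ηS : ℝ, ηS = min ηmC (ηw / 2) := ⟨_, rfl⟩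
  have hηS : 0 < ηS := by rw [hηSd]; exact lt_min hηmC (by positivity)
  have hηSC : ηS ≤ ηmC := by rw [hηSd]; exact min_le_left _ _
  have hηSw : 2 * ηS ≤ ηw := by
    have : ηS ≤ ηw / 2 := by rw [hηSd]; exact min_le_right _ _
    linarith
  replace hC := hC ηS hηS hηSC
  obtain ⟨κE, sE, hκE, hsE, hE⟩ := hE Nn ζ ηS hζ hηS
  -- the inner pair
  have hNn0 : (1 : ℝ) ≤ Nn := by exact_mod_cast hNn
  have ha1 : (1 : ℝ) ≤ a := by exact_mod_cast haC.trans haC'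
  have haN : (1 : ℝ) ≤ a * Nn := one_le_mul_of_one_le_of_one_le ha1 hNn0
  obtain ⟨η₀, hη₀d⟩ : ∃ η₀ : ℝ, η₀ = 1 / (50 * (a * Nn)) := ⟨_, rfl⟩
  have hη₀ : 0 < η₀ := by rw [hη₀d]; positivity
  have hη₀e : η₀ * (50 * (a * Nn)) = 1 := by rw [hη₀d]; field_simp
  have hη₀1 : η₀ ≤ 1 / 50 := by
    rw [hη₀d]
    exact one_div_le_one_div_of_le (by norm_num) (by linarith)
  obtain ⟨κ₀, hκ₀d⟩ : ∃ κ₀ : ℝ, κ₀ = η₀ / 25 := ⟨_, rfl⟩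
  have hκ₀ : 0 < κ₀ := by rw [hκ₀d]; positivity
  have hκ₀1 : 25 * κ₀ ≤ η₀ := by rw [hκ₀d]; linarith
  obtain ⟨τC, KC, eC, hτC, hC⟩ := hC κ₀ η₀ hκ₀ hκ₀1 (by linarith)
  obtain ⟨τE, KE, eE, C₂E, hτE, hE⟩ := hE κ₀ η₀ hκ₀ hκ₀1 (by linarith)
  obtain ⟨K₁E, C₁E, hE⟩ := hE κ η hκ hη
  -- the pool constants
  have hH1 : (1 : ℝ) ≤ H + 1 := by
    have : (0 : ℝ) ≤ H := Nat.cast_nonneg _
    linarith
  obtain ⟨κp, hκpd⟩ : ∃ κp : ℝ, κp = κ₀ ^ 2 / (512 * (H + 1)) := ⟨_, rfl⟩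
  have hκp : 0 < κp := by rw [hκpd]; positivity
  have hκp5 : κp ≤ κ₀ ^ 2 / 512 := by
    rw [hκpd]
    apply div_le_div_of_nonneg_left (by positivity) (by norm_num)
    linarith
  have hκ₀2 : κ₀ ≤ 1 := by linarith
  have hκ₀3 : κ₀ ^ 2 ≤ 1 := pow_le_one₀ hκ₀.le hκ₀2
  have hκp1 : κp ≤ 1 := by
    refine hκp5.trans ?_
    rw [div_le_one (by norm_num)]
    linarith
  obtain ⟨sp, hspd⟩ : ∃ sp : ℝ, sp = η₀ / (512 * (H + 1)) := ⟨_, rfl⟩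
  have hsp : 0 < sp := by rw [hspd]; positivity
  have hsp5 : sp ≤ η₀ / 512 := by
    rw [hspd]
    apply div_le_div_of_nonneg_left hη₀.le (by norm_num)
    linarith
  have hsp6 : sp ≤ η₀ / (256 * (H + 1)) := by
    rw [hspd]
    apply div_le_div_of_nonneg_left hη₀.le (by positivity)
    linarith
  have hsp1 : sp ≤ 1 := by
    refine hsp5.trans ?_
    rw [div_le_one (by norm_num)]
    linarith
  obtain ⟨τp, hτpd⟩ : ∃ τp : ℝ, τp = min (min τC τE) 1 := ⟨_, rfl⟩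
  have hτp : 0 < τp := by rw [hτpd]; exact lt_min (lt_min hτC hτE) one_pos
  have hτp1 : τp ≤ 1 := by rw [hτpd]; exact min_le_right _ _
  have hτpC : τp ≤ τC := by rw [hτpd]; exact (min_le_left _ _).trans (min_le_left _ _)
  have hτpE : τp ≤ τE := by rw [hτpd]; exact (min_le_left _ _).trans (min_le_right _ _)
  obtain ⟨Kp, hKpd⟩ : ∃ Kp, Kp = max KC KE := ⟨_, rfl⟩
  obtain ⟨ep, hepd⟩ : ∃ ep, ep = max eC eE := ⟨_, rfl⟩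
  have hηp1 : 25 * η₀ ≤ 1 := by linarith
  have hpC : 2 * ((aC : ℝ) * Nn * (25 * η₀)) ≤ 1 := by
    have h1 : (aC : ℝ) * Nn ≤ a * Nn := mul_le_mul_of_nonneg_right (by exact_mod_cast haC') (Nat.cast_nonneg _)
    have h2 := mul_le_mul_of_nonneg_right h1 (by positivity : 0 ≤ 50 * η₀)
    linarith [show a * (Nn : ℝ) * (50 * η₀) = η₀ * (50 * (a * Nn)) by ring]
  have hpF : (aF : ℝ) * Nn * (25 * η₀) ≤ 1 := by
    have h1 : (aF : ℝ) * Nn ≤ a * Nn := mul_le_mul_of_nonneg_right (by exact_mod_cast haF') (Nat.cast_nonneg _)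
    have h2 := mul_le_mul_of_nonneg_right h1 (by positivity : 0 ≤ 25 * η₀)
    linarith [show a * (Nn : ℝ) * (25 * η₀) = η₀ * (50 * (a * Nn)) / 2 by ring]
  obtain ⟨C₀C, hC⟩ := hC κp (1 / 16) sp τp (25 * η₀) Kp ep hκp hκp1 (by norm_num) (by norm_num) hsp hsp1 hτp hτp1
    (by positivity) hηp1 hpC
  obtain ⟨dA, hdA, -, hpack⟩ := hpack Nn hNn κp (1 / 16) sp τp hκp hκp1 (by norm_num) (by norm_num) hsp hτp
  obtain ⟨J₀, C₀F, hpack⟩ := hpack Kp ep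
  obtain ⟨C₀, hC₀d⟩ : ∃ C₀, C₀ = max C₀C C₀F := ⟨_, rfl⟩
  have hC₀C : C₀C ≤ C₀ := by rw [hC₀d]; exact le_max_left _ _
  have hC₀F : C₀F ≤ C₀ := by rw [hC₀d]; exact le_max_right _ _
  obtain ⟨C₂, hC₂d⟩ : ∃ C₂, C₂ = max (wC + 4) C₂E := ⟨_, rfl⟩
  obtain ⟨κC, sC, hκC, hsC, hC⟩ := hC (C₀ + C₂)
  obtain ⟨κS, hκSd⟩ : ∃ κS : ℝ, κS = min κC κE := ⟨_, rfl⟩
  have hκS : 0 < κS := by rw [hκSd]; exact lt_min hκC hκE
  obtain ⟨sS, hsSd⟩ : ∃ sS : ℝ, sS = min sC sE := ⟨_, rfl⟩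
  have hsS : 0 < sS := by rw [hsSd]; exact lt_min hsC hsE
  obtain ⟨K₁C, C₁C, ccC, hC⟩ := hC κS hκS
  obtain ⟨cF, hcFd⟩ : ∃ cF, cF = max (K₁C * ccC + C₁C) (K₁E * ccC + C₁E) := ⟨_, rfl⟩
  obtain ⟨K₁, hK₁d⟩ : ∃ K₁, K₁ = max K₁C K₁E := ⟨_, rfl⟩
  refine ⟨κS / 2, sS / 2, by positivity, by positivity, Nn + 3, K₁, C₀, C₂, ?_⟩
  intro f K' hf
  obtain ⟨f', hf'd⟩ : ∃ f', f' = f + cF + Nn + 10 := ⟨_, rfl⟩
  obtain ⟨Λp, hΛpd⟩ : ∃ Λp, Λp = (⌈Γ⌉₊ + (2048 + aM) * 50 * a) * Nn ^ (aC + 4) := ⟨_, rfl⟩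
  have hNp : (Nn : ℝ) ≤ (Nn : ℝ) ^ (aC + 4) := by
    have := pow_le_pow_right₀ hNn0 (show 1 ≤ aC + 4 by omega)
    rwa [pow_one] at this
  have hΛ1 : 2048 * (aC * (Nn : ℝ) ^ aC) / (κp / cκ * (1 / 16 / 2)) ^ 2 ≤ Λp := by
    have h1 : κp / cκ * (1 / 16 / 2) = 1 / (1250 ^ 2 * (a : ℝ) ^ 2 * (512 * (H + 1)) * 32 * cκ * (Nn : ℝ) ^ 2) := by
      rw [hκpd, hκ₀d, hη₀d]
      field_simp
      ring
    have h2 : 2048 * (aC * (Nn : ℝ) ^ aC) / (κp / cκ * (1 / 16 / 2)) ^ 2 = Γ * (Nn : ℝ) ^ (aC + 4) := by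
      rw [h1, hΓ, pow_add]
      field_simp
    rw [h2, hΛpd]
    push_cast
    apply mul_le_mul_of_nonneg_right _ (by positivity)
    have h3 : Γ ≤ ⌈Γ⌉₊ := Nat.le_ceil _
    have h4 : (0 : ℝ) ≤ (2048 + aM) * 50 * a := by positivity
    linarith
  have hΛ23 : ∀ B : ℝ, 0 ≤ B → B ≤ 2048 + aM → B / η₀ ≤ Λp := by
    intro B hB0 hB
    have h1 : B / η₀ = B * (50 * a) * Nn := by
      rw [hη₀d]
      field_simp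
    rw [h1, hΛpd]
    push_cast
    have h2 : B * (50 * (a : ℝ)) ≤ ⌈Γ⌉₊ + (2048 + aM) * 50 * a := by
      have h3 := mul_le_mul_of_nonneg_right hB (by positivity : (0 : ℝ) ≤ 50 * a)
      have h4 : (0 : ℝ) ≤ ⌈Γ⌉₊ := Nat.cast_nonneg _
      linarith
    exact mul_le_mul h2 hNp (Nat.cast_nonneg _) (by positivity)
  obtain ⟨ξC, CC, hξC, hC⟩ := hC sS (f' + J₀) K₁ cF ccC (f' + J₀) ccC Λp K₀ hsS le_rfl (by omega) hΛ1 (hΛ23 2048 (by norm_num) (by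
      have : (0 : ℝ) ≤ aM := Nat.cast_nonneg _
      linarith))
  obtain ⟨ξE, CE, hξE, hE⟩ := hE s f K' (f' + J₀) ccC Λp hf
    (hΛ23 aM (Nat.cast_nonneg _) (by linarith))
  obtain ⟨k, hk⟩ : ∃ k : CK, k = ⟨κp, 1 / 16, sp, τp, 25 * η₀, Kp, ep, κS, ηS, sS, f' + J₀, K₁, cF, ccC⟩ := ⟨_, rfl⟩
  have hkC : (ckC κ₀ η₀ τC KC eC κC ηS sC (f' + J₀) K₁C C₁C ccC).Le k := by
    rw [hk]
    exact ⟨hκp5, le_rfl, hsp5, hτpC, le_rfl, by rw [hKpd]; exact le_max_left _ _, by rw [hepd]; exact le_max_left _ _,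
      by rw [hκSd]; exact min_le_left _ _, le_rfl, by rw [hsSd]; exact min_le_left _ _, le_rfl,
      by rw [hK₁d]; exact le_max_left _ _, by rw [hcFd]; exact le_max_left _ _, le_rfl⟩
  have hkE : (ckE H κ₀ η₀ τE KE eE κE ηS sE (f' + J₀) K₁E C₁E ccC).Le k := by
    rw [hk]
    exact ⟨hκpd.le, le_rfl, hsp6, hτpE, le_rfl, by rw [hKpd]; exact le_max_right _ _,
      by rw [hepd]; exact le_max_right _ _, by rw [hκSd]; exact min_le_right _ _, le_rfl,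
      by rw [hsSd]; exact min_le_right _ _, le_rfl, by rw [hK₁d]; exact le_max_right _ _,
      by rw [hcFd]; exact le_max_right _ _, le_rfl⟩
  obtain ⟨CF, hF⟩ := finB_of (CS := CSof k) (b := b) (l := l) (κp := κp) (ξp := 1 / 16) (sp := sp) (τp := τp)
    (ηp := 25 * η₀) (Kp := Kp) (ep := ep) (κ := κS) (η := ηS) (s := sS) (f := f') (K := K₁) (cF := cF) (cc := ccC)
    (Nn := Nn) (J₀ := J₀) (C₀ := C₀) C₂ hκS hηS hsS (by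
      intro V R P X ys y lam w bb le h
      rw [hk] at h
      exact h) (by
      intro V R hT U P ys t hG hξ ht hys os hos hos0 hosm hsz
      obtain ⟨S, h1, h2, -, h4, h5⟩ := hpack hT hG hξ (by
        have h6 := mul_le_mul_of_nonneg_left ht (by positivity : (0 : ℝ) ≤ aF * Nn)
        have h7 := mul_le_mul_of_nonneg_right hpF (Nat.cast_nonneg P.card)
        linarith [show (aF : ℝ) * Nn * (25 * η₀ * P.card) = aF * Nn * (25 * η₀) * P.card by ring]) hys os ∅ hos hos0 hosm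
        (by rw [card_empty, Nat.cast_zero]; positivity) (by omega)
      exact ⟨S, h1, h2, h4, h5⟩)
  obtain ⟨ξ, hξd⟩ : ∃ ξ : ℝ, ξ = min (min ξC ξE) (min (1 / 2) (ηS / 2)) := ⟨_, rfl⟩
  have hξ : 0 < ξ := by rw [hξd]; exact lt_min (lt_min hξC hξE) (lt_min (by norm_num) (by positivity))
  have hξC' : ξ ≤ ξC := by rw [hξd]; exact (min_le_left _ _).trans (min_le_left _ _)
  have hξE' : ξ ≤ ξE := by rw [hξd]; exact (min_le_left _ _).trans (min_le_right _ _)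
  have hξ1 : ξ ≤ 1 / 2 := by rw [hξd]; exact (min_le_right _ _).trans (min_le_left _ _)
  have hξη : ξ ≤ ηS / 2 := by rw [hξd]; exact (min_le_right _ _).trans (min_le_right _ _)
  obtain ⟨C, hCd⟩ : ∃ C, C = CC + CE + CF := ⟨_, rfl⟩
  refine ⟨CSof k, ξ, C, hξ, ?_, ?_, ?_⟩
  · rw [← hΛpd]
    exact hE.mono (CSof.imp hkE) (le_max_right _ _) le_rfl le_rfl le_rfl le_rfl le_rfl hζζ hξE'
      (by omega) (Nat.zero_le _) (by rw [hC₂d]; exact le_max_right _ _)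
  · rw [← hΛpd]
    apply CritB2.toCritB
    rw [← hk] at hC
    exact hC.mono (CSt.Imp.refl _) (CSof.imp hkC) (le_max_left _ _) le_rfl le_rfl le_rfl hζζ hξC'
      (by omega) hC₀C (by omega) (Nat.zero_le _) (by rw [hC₂d]; exact le_max_left _ _)
  · have hF' : FinB (CSof k) b l (κS / 2) (2 * ηS) (sS / 2) f' K₁ Nn ξ CF C₀ C₂ := hF ξ hξ1 hξη
    have h1 : f ≤ f' := by omega
    have h2 : CF ≤ C := by omega
    intro V R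
    exact hF'.mono (CSt.Imp.refl _) le_rfl hηSw le_rfl h1 le_rfl le_rfl le_rfl h2 le_rfl le_rfl

end AEG
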