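import Pool.Agent.AEG.MainCS
import Pool.Agent.AEG.CritPk

/-!
# The fine class with critical groups: the final theorem
-/

set_option autoImplicit false

namespace AEG

theorem critPack_all {b l K₀ : ℕ} (hb : 1 ≤ b) (hC : CritF b l)
    (hE : ∃ (η' : ℝ) (Λ H aM : ℕ), 0 < η' ∧ EnterF b l K₀ η' Λ H aM) :
    ∃ (η' : ℝ) (Λ A a₀ k₀ : ℕ), 0 < η' ∧ ∀ κ η s : ℝ, 0 < κ → 0 < s → η ≤ η' → CritPack b l K₀ κ η s Λ A a₀ k₀ := by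
  obtain ⟨η', Λ, H, aM, hη', hE⟩ := hE
  obtain ⟨a₀, k₀, h⟩ := critPack_of hb hC hE
  exact ⟨η', _, 48, a₀, k₀, hη', fun κ η s h1 _ h2 => h κ η s h1 h2⟩

end AEG
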