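import Pool.Agent.AEG.CritR
import Pool.Agent.AEG.CritPk

/-!
# `CritF`

`critF_of`: the form of `critB_of` which the assembly uses.
-/

set_option autoImplicit false

namespace AEG

/-- **`CritF`** -/
theorem critF_of (b l : ℕ) (hb : 1 ≤ b) : CritF b l := by
  obtain ⟨w₀, cκ, a₀, hcκ, ha₀, h⟩ := critB_of b l hb
  refine ⟨w₀, cκ, a₀, hcκ, ha₀, fun Nn ζ h1 h2 h3 => ?_⟩
  obtain ⟨ηm, hηm, h⟩ := h Nn ζ h1 h2 h3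
  refine ⟨ηm, hηm, fun ηS h4 h5 κ₀ η₀ h6 h7 h8 => ?_⟩
  obtain ⟨τo, Ko, eo, hτ, h⟩ := h ηS h4 h5 κ₀ η₀ h6 h7 h8
  refine ⟨τo, Ko, eo, hτ, fun κp ξp sp τp ηp Kp ep g1 g2 g3 g4 g5 g6 g7 _ _ _ g8 => ?_⟩
  obtain ⟨_, C₀, h⟩ := h κp ξp sp τp ηp Kp ep g1 g2 g3 g4 g5 g6 g7 g8
  refine ⟨C₀, fun C₂i => ?_⟩
  obtain ⟨κo, so, hκ, hs, h⟩ := h C₂i
  refine ⟨κo, so, hκ, hs, fun κS hκS => ?_⟩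
  obtain ⟨K₁, C₁, cc₀, h⟩ := h κS hκS
  exact ⟨K₁, C₁, cc₀, fun sS f Ki cFi cci fo cco Λp K₀ _ i1 i2 i3 i4 => h sS f Ki cFi cci fo cco Λp K₀ i1 i2 i3 i4⟩

end AEG
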