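import Pool.Agent.AEG.EnterC
import Pool.Agent.AEG.CritPk

/-!
# Entering a critical group: final form
-/

set_option autoImplicit false

namespace AEG

open Finset AE15 AED AEB SPD
open scoped Classical

/-- **Entering a critical group** -/
theorem enterF (b l K₀ : ℕ) (hb : 1 ≤ b) : ∃ (H Λ aM : ℕ) (η' : ℝ), 0 < η' ∧ EnterF b l K₀ η' Λ H aM := by
  obtain ⟨p, hp, hpb, hpl, hab, -⟩ := exists_np b l 0 hb
  subst hpb hpl
  obtain ⟨M, H, hM, hcore⟩ := enterB_core p hp hab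
  obtain ⟨D₀, hD₀⟩ : ∃ D₀, D₀ = 64 + p.A + K₀ := ⟨_, rfl⟩
  obtain ⟨ω, c, η, η₁, κ₀, κ₁, κ, γ₀, τ, s, σ₂, μ, P⟩ := exists_KB (D := D₀) (by omega)
  have hη0 : 0 < η := P.num.2.2.2.2.1
  have hc0 : 0 < c := P.num.2.2.1
  have hωK : 2 * ω * (K₀ + 1) ≤ 1 := by
    rw [P.hω]
    have h1 : ((K₀ + 1 : ℕ) : ℝ) ≤ D₀ := by exact_mod_cast (by omega : K₀ + 1 ≤ D₀)
    have h2 : (0 : ℝ) < D₀ := by exact_mod_cast (by omega : 0 < D₀)
    have h3 : 2 * (1 / (2 * (D₀ : ℝ))) * (K₀ + 1) = (K₀ + 1) / D₀ := by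
      field_simp
    rw [h3, div_le_one h2]
    push_cast at h1
    exact h1
  refine ⟨H, 16 * M + 200, 3072 * (H + 1) * (8 * M + 64), η / 2, by positivity, ?_⟩
  intro Nn ζ ηS hζ hηS
  obtain ⟨n₁, hn₁⟩ := exists_nat_ge (2 / ζ)
  rw [div_le_iff₀ hζ] at hn₁
  obtain ⟨D₀', hD₀'⟩ : ∃ D₀', D₀' = 64 + p.A + n₁ := ⟨_, rfl⟩
  obtain ⟨ω', c', η', η₁', κ₀', κ₁', κ', γ₀', τ', s', σ₂', μ', P'⟩ := exists_KB (D := D₀') (by omega)
  have hη0' : 0 < η' := P'.num.2.2.2.2.1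
  have hc0' : 0 < c' := P'.num.2.2.1
  have hω' : 4 * ω' ≤ ζ := by
    rw [P'.hω]
    have h1 : (n₁ : ℝ) ≤ D₀' := by exact_mod_cast (by omega : n₁ ≤ D₀')
    have h2 : (0 : ℝ) < D₀' := by exact_mod_cast (by omega : 0 < D₀')
    have h3 : 4 * (1 / (2 * (D₀' : ℝ))) = 2 / D₀' := by
      field_simp
      norm_num
    rw [h3, div_le_iff₀ h2]
    have := mul_le_mul_of_nonneg_right h1 hζ.le
    linarith
  obtain ⟨ηa, hηa0, hηa1, hηa2, hηa3, hηa4⟩ : ∃ ηa : ℝ, 0 < ηa ∧ ηa ≤ 1 / 8 ∧ 16 * ηa ≤ c * η' ∧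
      16 * ηa ≤ c * (c' * ηS) ∧ 8 * ηa ≤ η := by
    refine ⟨min (1 / 8) (min (min (c * η' / 16) (c * (c' * ηS) / 16)) (η / 8)), ?_, ?_, ?_, ?_, ?_⟩
    · exact lt_min (by norm_num) (lt_min (lt_min (by positivity) (by positivity)) (by positivity))
    · exact min_le_left _ _
    · linarith [((min_le_right (1 / 8 : ℝ) (min (min (c * η' / 16) (c * (c' * ηS) / 16)) (η / 8))).trans
        (min_le_left _ _)).trans (min_le_left _ _)]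
    · linarith [((min_le_right (1 / 8 : ℝ) (min (min (c * η' / 16) (c * (c' * ηS) / 16)) (η / 8))).trans
        (min_le_left _ _)).trans (min_le_right _ _)]
    · linarith [(min_le_right (1 / 8 : ℝ) (min (min (c * η' / 16) (c * (c' * ηS) / 16)) (η / 8))).trans
        (min_le_right _ _)]
  obtain ⟨κo, so, hκo, hso, hcore⟩ := hcore (D₀ := D₀) (by omega) P (D₀' := D₀') (by omega) P' (K₀ := K₀) hωK (ζ := ζ)
    (ηw := ηS) (κa := ηa / 25) (ηa := ηa) hζ hω' hηS (by positivity) (by linarith) hηa1 hηa2 hηa3 hηa4 Nn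
  refine ⟨κo, so, hκo, hso, ?_⟩
  intro κi ηi h0i hκηi hηi1
  obtain ⟨τo, Ko, eo, C₂, hτo, hcore⟩ := hcore h0i hκηi hηi1
  refine ⟨τo, Ko, eo, C₂, hτo, ?_⟩
  intro κS ηS' hκS hηS'
  obtain ⟨K₁, C₁, hcore⟩ := hcore (κS := κS) (ηS := ηS') hκS (by linarith)
  exact ⟨K₁, C₁, fun sS f K' fo cc Λp hf hΛp => hcore sS f K' fo cc Λp hf hΛp⟩

end AEG
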