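import Pool.Agent.AEG.AllC
import Pool.Agent.AEG.CritT
import Pool.Agent.AEG.EnterF

/-!
# The fine class: the final theorem
-/

set_option autoImplicit false

namespace AEG

theorem mainC (Δ l K₀ : ℕ) :
    ∃ θ : ℝ, 0 < θ ∧ ∀ B : ℕ, ∃ C : ℕ, ∀ k n : ℕ, k + C ≤ n →
    ∀ R : Fin n → Fin n → Prop, (∀ a, ¬ R a a) → (∀ a b, a ≠ b → R a b ∨ R b a) → (∀ a b, R a b → ¬ R b a) →
    ∀ E : Fin (k + 1) → Fin (k + 1) → Prop,
      (∀ a b, E a b → ¬ E b a) →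
      (SimpleGraph.fromRel E).IsTree →
      (∀ v, ((SimpleGraph.fromRel E).neighborSet v).ncard ≤ Δ) →
      (∃ (m : ℕ) (p : ℕ → Fin (k + 1)) (a d s : ℕ → ℕ), (∀ i < m, E (p i) (p (i + 1))) ∧
        (∀ i ≤ m, ∀ u, E (p i) u → (∀ j ≤ m, u ≠ p j) → ∀ q : ℕ → Fin (k + 1), ¬ ∀ j ≤ l, E (q j) (q (j + 1)) ∧
          (SimpleGraph.fromRel E).dist (p i) (q (j + 1)) < (SimpleGraph.fromRel E).dist (p i) (q j) ∧
          (SimpleGraph.fromRel E).dist u (q j) < (SimpleGraph.fromRel E).dist (p i) (q j)) ∧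
        (∀ i ≤ m, ∀ u, E u (p i) → (∀ j ≤ m, u ≠ p j) → ∀ q : ℕ → Fin (k + 1), ¬ ∀ j ≤ l, E (q (j + 1)) (q j) ∧
          (SimpleGraph.fromRel E).dist (p i) (q (j + 1)) < (SimpleGraph.fromRel E).dist (p i) (q j) ∧
          (SimpleGraph.fromRel E).dist u (q j) < (SimpleGraph.fromRel E).dist (p i) (q j)) ∧
        (∀ i ≤ m, a i = {x | ∃ u, E u (p i) ∧ (∀ j ≤ m, u ≠ p j) ∧
          (SimpleGraph.fromRel E).dist (p i) x = (SimpleGraph.fromRel E).dist u x + 1}.ncard) ∧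
        (∀ i ≤ m, d i = {x | ∃ u, E (p i) u ∧ (∀ j ≤ m, u ≠ p j) ∧
          (SimpleGraph.fromRel E).dist (p i) x = (SimpleGraph.fromRel E).dist u x + 1}.ncard) ∧
        (∀ i ≤ m, s i = {x | (SimpleGraph.fromRel E).dist (p 0) x =
          (SimpleGraph.fromRel E).dist (p 0) (p i) + (SimpleGraph.fromRel E).dist (p i) x}.ncard) ∧
        (∀ i < m, d i ≤ K₀ * s (i + 1)) ∧ a m + d m ≤ B ∧ (∀ i ≤ m, (a i : ℝ) ≤ θ * s i + B)) →
      ∃ f : Fin (k + 1) → Fin n, Function.Injective f ∧ ∀ a b, E a b → R (f a) (f b) :=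
  mainC_of (fun b l K₀ hb => by
    obtain ⟨H, Λ, aM, η', hη', h⟩ := enterF b l K₀ hb
    exact critPack_all hb (critF_of b l hb) ⟨η', Λ, H, aM, hη', h⟩) Δ l K₀

end AEG
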