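import Pool.Agent.AEG.GroupC
import Pool.Agent.AEB.NPx

/-!
# The heavy stage with a drop
-/

set_option autoImplicit false

namespace AEG

open Finset AE15 AED AEB
open scoped Classical

/-- **Heavy stage, drop** -/
theorem groupD (b l K₀ : ℕ) (hb : 1 ≤ b) : ∃ (η' : ℝ) (Λ A : ℕ), 0 < η' ∧ ∀ κ s η : ℝ, 0 < κ → 0 < s → η ≤ η' →
    GroupD b l K₀ κ η s Λ A := by
  obtain ⟨p, hp, hpb, hpl, hab, -⟩ := exists_np b l 0 hb
  subst hpb hpl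
  obtain ⟨D₀, hD₀⟩ : ∃ D₀, D₀ = 64 + p.A + K₀ := ⟨_, rfl⟩
  obtain ⟨ω, c, η, η₁, κ₀, κ₁, κ, γ₀, τ, s, σ₂, μ, P⟩ := exists_KB (D := D₀) (by omega)
  have hη0 : 0 < η := P.num.2.2.2.2.1
  have hωK : 2 * ω * (K₀ + 1) ≤ 1 := by
    have h1 : (K₀ : ℝ) + 1 ≤ D₀ := by exact_mod_cast (by omega : K₀ + 1 ≤ D₀)
    have h2 : (0 : ℝ) < D₀ := by
      have : (0 : ℝ) ≤ K₀ := Nat.cast_nonneg _
      linarith
    rw [P.hω]
    have h3 : 2 * (1 / (2 * (D₀ : ℝ))) * (K₀ + 1) = (K₀ + 1) / D₀ := by field_simp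
    rw [h3, div_le_one h2]
    exact h1
  refine ⟨η / 2, 512, 48, by positivity, ?_⟩
  intro κS sS ηS hκS hsS hηS Nn ζ ηw hζ hηw
  obtain ⟨m, hm⟩ := exists_nat_ge (4 / ζ)
  obtain ⟨D₀', hD₀'⟩ : ∃ D₀', D₀' = 64 + p.A + m := ⟨_, rfl⟩
  obtain ⟨ω', c', η', η₁', κ₀', κ₁', κ', γ₀', τ', s', σ₂', μ', P'⟩ := exists_KB (D := D₀') (by omega)
  have hω' : 4 * ω' ≤ ζ := by
    have h1 : (m : ℝ) ≤ D₀' := by exact_mod_cast (by omega : m ≤ D₀')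
    have h2 : (0 : ℝ) < D₀' := by exact_mod_cast (by omega : 0 < D₀')
    rw [div_le_iff₀ hζ] at hm
    rw [P'.hω]
    have h3 : 4 * (1 / (2 * (D₀' : ℝ))) = 2 / D₀' := by field_simp; norm_num
    rw [h3, div_le_iff₀ h2]
    have h4 : (m : ℝ) * ζ ≤ D₀' * ζ := mul_le_mul_of_nonneg_right h1 hζ.le
    linarith
  obtain ⟨ηm, hηm0, hηm1, hcore⟩ := group_core p hp hab (D₀ := D₀) (by omega) P (D₀' := D₀') (by omega) P' (K₀ := K₀)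
    hωK hζ hω' hηw hκS (ηS := ηS) (by linarith) Nn
  obtain ⟨κw, sw, ξ₁, K₁, C₁, hκw, hsw, hξ₁, hcore⟩ := hcore (k₀ := ηm / 25) (ηc := ηm) (by positivity) (by linarith)
    le_rfl
  refine ⟨κw, sw, hκw, hsw, Nn + 3, K₁, ?_⟩
  intro f K' hf
  obtain ⟨ξ₂, C₂, hξ₂, hcut⟩ := grp_cut (κ₀ := ηm / 25) (η := ηm) (by positivity) (by linarith) hηm1 Nn Nn K'
  obtain ⟨Ct, hCt⟩ : ∃ Ct, Ct = 1 + 33 * C₁ + C₂ := ⟨_, rfl⟩
  refine ⟨min ξ₁ ξ₂ / 3, Ct, by have := lt_min hξ₁ hξ₂; linarith, ?_⟩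
  intro V R hT X N lam sig w lam' cx l₁ l₂ l₃ gr L hS hBr hgr hL hNoD hCc hsz hζX hlam hlamsig hΛ hξ
  have hgr0 : gr ≠ [] := by
    rintro rfl
    have h1 : inS ([] : List (Fd × Fd)) = 0 := rfl
    omega
  have hgl : 1 ≤ gr.length := by
    rcases gr with _ | ⟨q, gr⟩
    · exact absurd rfl hgr0
    · simp
  obtain ⟨q, hq⟩ : ∃ q, q = inS [l₁, l₂, l₃] := ⟨_, rfl⟩
  obtain ⟨Q, hQ⟩ : ∃ Q, Q = inS gr := ⟨_, rfl⟩
  rw [← hq] at hlam hΛ hξ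
  rw [← hQ] at hΛ hξ
  have hX0 : (0 : ℝ) ≤ X.card := Nat.cast_nonneg _
  have hm1 : min ξ₁ ξ₂ / 3 * (X.card : ℝ) ≤ ξ₁ / 3 * X.card :=
    mul_le_mul_of_nonneg_right (by linarith [min_le_left ξ₁ ξ₂]) hX0
  have hm2 : min ξ₁ ξ₂ / 3 * (X.card : ℝ) ≤ ξ₂ / 3 * X.card :=
    mul_le_mul_of_nonneg_right (by linarith [min_le_right ξ₁ ξ₂]) hX0
  have hb3 : (((Q + q + C₁) + 0 + lam' : ℕ) : ℝ) ≤ 3 * ((q + Q : ℕ) : ℝ) := by
    exact_mod_cast (by omega : (Q + q + C₁) + 0 + lam' ≤ 3 * (q + Q))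
  have hb2 : (((Q + q + C₁) + 0 : ℕ) : ℝ) ≤ 3 * ((q + Q : ℕ) : ℝ) := by
    exact_mod_cast (by omega : (Q + q + C₁) + 0 ≤ 3 * (q + Q))
  obtain ⟨G, ys, y, P₁, P₂, U₁, hGC, hroute⟩ := hcut hT (sg := 0) (p := Q + q + C₁) (r := 16 * q + C₁)
    (gl := gr.length) hS hgl hgr hf (by omega) (by linarith) (Or.inr (by omega))
  have hys0 : ys ≠ [] := by
    intro h
    have := hGC.len
    rw [h] at this
    simp at this
    omega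
  obtain ⟨y₁, hy₁⟩ : ∃ y₁, ys.head? = some y₁ := by
    rcases ys with _ | ⟨y₁, ys⟩
    · exact absurd rfl hys0
    · exact ⟨y₁, rfl⟩
  obtain ⟨v, a, w₀, hv, hvX, hNv, ha, hw₀, hvF, -, -, hva, hvw, haw, hRva, hRaw, hRwy, h1, h2, h3⟩ :=
    hroute y₁ hy₁ ys.toFinset (by
      have := ys.toFinset_card_le
      rw [hGC.len] at this
      omega)
  obtain ⟨w', hw', hA⟩ := hcore hT (Q + q + C₁) 0 lam' f cx l₁ l₂ l₃ gr L hGC hgr0 hgr hBr hNoD hsz hζX (by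
      rcases hv with hv | hv
      · exact Or.inl (mem_cg.1 hv).2.2.1
      · exact Or.inr hv) hvX hNv ha hw₀ (fun h => hvF (List.mem_toFinset.2 h)) hva hvw haw hRva hRaw (by
      intro z hz
      rw [hy₁] at hz
      simp only [Option.mem_def, Option.some.injEq] at hz
      rw [← hz]
      exact hRwy) (by rw [← hq]; exact h1) (by rw [← hq]; exact h2) (by rw [← hq]; exact h3)
      (by rw [← hq, ← hQ]) (by linarith)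
  rw [← hQ] at hw'
  exact ⟨w', by omega, hA⟩

end AEG
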