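import Pool.Agent.AEG.GroupEG

/-!
# The steep heavy stage

`groupE`: the items of the three links are placed exactly, or their surplus `E` is covered through many vertices.
-/

set_option autoImplicit false

namespace AEG

open Finset AE15 AED AEB SPD
open scoped Classical

theorem ge_taut {x a b c y t s g : Prop} : (x ∧ ¬ (((a ∨ b ∨ c) ∨ y) ∨ ((t ∨ s) ∨ g))) ↔
    (x ∧ ¬ a ∧ ¬ b ∧ ¬ c ∧ ¬ y ∧ ¬ t ∧ ¬ s ∧ ¬ g) := by tauto

/-- **Heavy stage, drop, steep.** -/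
theorem groupE (b l K₀ : ℕ) (hb : 1 ≤ b) (Λ₁ : ℕ) : ∃ η' : ℝ, 0 < η' ∧ ∀ κ η s : ℝ, 0 < κ → η ≤ η' →
    GroupE b l K₀ κ η s (64 * Λ₁ + 1000) Λ₁ 48 := by
  obtain ⟨p, hp, hpb, hpl, hab, -⟩ := exists_np b l 0 hb
  subst hpb hpl
  -- the constants of the strong state
  obtain ⟨D₀, hD₀⟩ : ∃ D₀ : ℕ, D₀ = 64 + p.A + 2 * (K₀ + 1) := ⟨_, rfl⟩
  obtain ⟨ω, c, ηP, η₁, κ₀, κ₁, κP, γ₀, τ, sP, σ₂, μ, P⟩ := exists_KB (D := D₀) (by omega)
  have hω : ω * (4 * ((K₀ : ℝ) + 1)) ≤ 1 := by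
    rw [P.hω]
    have h1 : (2 * ((K₀ : ℝ) + 1)) ≤ D₀ := by
      rw [hD₀]
      push_cast
      have : (0 : ℝ) ≤ p.A := Nat.cast_nonneg _
      linarith
    have h2 : (0 : ℝ) ≤ K₀ := Nat.cast_nonneg _
    have h3 : (0 : ℝ) < D₀ := by linarith
    rw [one_div, inv_mul_le_iff₀ (by positivity)]
    linarith
  obtain ⟨hω0, hω1, hc0, hc1, hηP0, hηP1, -, -, -, -, -, hκP0, -, -, -, -, -, -, -, -⟩ := P.num
  refine ⟨ηP / 2, by positivity, ?_⟩
  intro κ η s hκ hη Nn ζ ηw hζ hηw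
  -- the constants of the share `ζ`
  obtain ⟨m, hm⟩ := exists_nat_ge (4 / ζ)
  obtain ⟨D₀', hD₀'⟩ : ∃ D₀' : ℕ, D₀' = 64 + p.A + m := ⟨_, rfl⟩
  obtain ⟨ω', c', ηP', η₁', κ₀', κ₁', κP', γ₀', τ', sP', σ₂', μ', P'⟩ := exists_KB (D := D₀') (by omega)
  have hω' : 2 * ω' ≤ ζ / 2 := by
    rw [P'.hω]
    have h1 : (m : ℝ) ≤ D₀' := by exact_mod_cast (by omega : m ≤ D₀')
    have h2 : 4 / ζ ≤ D₀' := hm.trans h1
    have h3 : (0 : ℝ) < D₀' := lt_of_lt_of_le (by positivity) h2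
    rw [div_le_iff₀ hζ] at h2
    have h4 : 2 * (1 / (2 * (D₀' : ℝ))) = 1 / D₀' := by field_simp
    rw [h4, div_le_iff₀ h3]
    linarith
  obtain ⟨hω0', hω1', hc0', hc1', hηP0', hηP1', -, -, -, -, -, hκP0', -, -, -, -, -, -, -, -⟩ := P'.num
  obtain ⟨ηq, hηq0, hηq1, hpack⟩ := pack_GSd p.b p.l (Nn + 1) hb (by omega)
  -- the constant of the cut
  obtain ⟨ηc, hηc0, e1, e2, e3, e4, e5⟩ : ∃ ηc : ℝ, 0 < ηc ∧ 24 * ηc ≤ ηq ∧ 16 * ηc ≤ c * ηP' ∧
      16 * ηc ≤ c * (c' * ηw) ∧ ηc ≤ 1 / 8 ∧ 4 * ηc ≤ ηP := by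
    have h1 : 0 < c * ηP' := by positivity
    have h2 : 0 < c * (c' * ηw) := by positivity
    refine ⟨min (ηq / 24) (min (c * ηP' / 16) (min (c * (c' * ηw) / 16) (min (1 / 8) (ηP / 4)))), ?_, ?_, ?_, ?_, ?_, ?_⟩
    · exact lt_min (by positivity) (lt_min (by positivity) (lt_min (by positivity) (lt_min (by norm_num) (by positivity))))
    · linarith [min_le_left (ηq / 24) (min (c * ηP' / 16) (min (c * (c' * ηw) / 16) (min (1 / 8) (ηP / 4))))]
    · linarith [(min_le_right (ηq / 24) (min (c * ηP' / 16) (min (c * (c' * ηw) / 16) (min (1 / 8) (ηP / 4))))).trans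
        (min_le_left _ _)]
    · linarith [(min_le_right (ηq / 24) (min (c * ηP' / 16) (min (c * (c' * ηw) / 16) (min (1 / 8) (ηP / 4))))).trans
        ((min_le_right _ _).trans (min_le_left _ _))]
    · exact (min_le_right _ _).trans ((min_le_right _ _).trans ((min_le_right _ _).trans (min_le_left _ _)))
    · linarith [(min_le_right (ηq / 24) (min (c * ηP' / 16) (min (c * (c' * ηw) / 16) (min (1 / 8) (ηP / 4))))).trans
        ((min_le_right _ _).trans ((min_le_right _ _).trans (min_le_right _ _)))]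
  obtain ⟨κc, hκc⟩ : ∃ κc : ℝ, κc = ηc / 25 := ⟨_, rfl⟩
  have hκc0 : 0 < κc := by rw [hκc]; positivity
  have hκc1 : κc ≤ 1 := by rw [hκc]; linarith
  obtain ⟨κg, hκg⟩ : ∃ κg : ℝ, κg = κc ^ 2 / 8 := ⟨_, rfl⟩
  have hκg0 : 0 < κg := by rw [hκg]; positivity
  have hκg1 : κg ≤ 1 := by
    rw [hκg]
    have : κc ^ 2 ≤ 1 := pow_le_one₀ hκc0.le hκc1
    linarith
  obtain ⟨κU, hκU0, f1, f2, f3⟩ : ∃ κU : ℝ, 0 < κU ∧ κU ≤ κ ∧ κU ≤ κg ∧ 2 * κU ≤ κP := by
    refine ⟨min κ (min κg (κP / 2)), lt_min hκ (lt_min hκg0 (by positivity)), min_le_left _ _,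
      (min_le_right _ _).trans (min_le_left _ _), ?_⟩
    linarith [(min_le_right κ (min κg (κP / 2))).trans (min_le_right _ _)]
  obtain ⟨k1, hk1⟩ := exists_nat_ge (32 / κc)
  obtain ⟨Kd, hKd⟩ : ∃ Kd, Kd = 24 + k1 := ⟨_, rfl⟩
  have hKd2 : 32 / κc ≤ Kd := by
    rw [hKd]
    push_cast
    linarith
  obtain ⟨w₀, κl, sl, τl, Kl, hκl0, hκl1, hsl0, hsl1, hτl0, hτl1, hlink⟩ := link_exact p.b p.l hb (2 * Λ₁ + 6) 6
    (κ := κg) (ξ := 1 / 6) (s := ηc / 8) (τ := ηc / 8) hκg0 hκg1 (by norm_num) (by norm_num) (by positivity)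
    (by linarith) (by positivity) 4 (4 * Nn) Nn
  obtain ⟨Cl, el, hlink⟩ := hlink 3 1 le_rfl
  obtain ⟨J, hpack⟩ := hpack Kl el κl (1 / 12) sl τl hκl0 (by linarith) (by norm_num) (by norm_num) hsl0 hτl0
  obtain ⟨Cp, hpack⟩ := hpack 0
  obtain ⟨κ₂, s₂, δ, Mt, Ct, K₁, C₁, C₂, hκ₂, hs₂, hδ, hMt, htwo⟩ := p2_twoE p hp hab (by omega) P (by omega) P'
    (κU := κU) (κg := κg) (ηg := 2 * ηc) (γ := κc / 4) (ζ := ζ / 2) (η₂ := ηw) hκU0 f3 hκg0 (by positivity)
    (by positivity) (by linarith) (by positivity) hω' hηw (by linarith) (by linarith) (Nn + 3) Kd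
  refine ⟨κ₂, s₂, hκ₂, hs₂, Nn + 3, K₁, ?_⟩
  intro f K' hf
  obtain ⟨ξc, Cc, hξc, hcut⟩ := grp_cut (κ₀ := κc) (η := ηc) hκc0 (by rw [hκc]; linarith) e4 Nn Nn K'
  -- the constants `ξ` and `C`
  obtain ⟨Cb, hCb⟩ : ∃ Cb : ℕ, Cb = 32 * Cl + Cc + 16 * Cp + 4 * Nn + 2 * Ct + C₂ + 4 * J + 6 * w₀ + C₁ + 100 := ⟨_, rfl⟩
  obtain ⟨ξ, hξ0, g1, g2, g3, g4, g5⟩ : ∃ ξ : ℝ, 0 < ξ ∧ 2 * ξ ≤ ξc ∧ 100 * ξ ≤ κc ∧ (2 * Mt + 8) * ξ ≤ δ ∧
      16 * ξ ≤ ζ ∧ 32 * ((K₀ : ℝ) + 1) * ξ ≤ 1 := by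
    have hK : (0 : ℝ) ≤ K₀ := Nat.cast_nonneg _
    have hM : (0 : ℝ) ≤ Mt := Nat.cast_nonneg _
    refine ⟨min (ξc / 2) (min (κc / 100) (min (δ / (2 * Mt + 8)) (min (ζ / 16) (1 / (32 * ((K₀ : ℝ) + 1)))))),
      ?_, ?_, ?_, ?_, ?_, ?_⟩
    · exact lt_min (by positivity) (lt_min (by positivity) (lt_min (by positivity) (lt_min (by positivity) (by positivity))))
    · linarith [min_le_left (ξc / 2) (min (κc / 100) (min (δ / (2 * Mt + 8)) (min (ζ / 16) (1 / (32 * ((K₀ : ℝ) + 1))))))]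
    · have h1 := (min_le_right (ξc / 2) (min (κc / 100) (min (δ / (2 * Mt + 8)) (min (ζ / 16)
        (1 / (32 * ((K₀ : ℝ) + 1))))))).trans (min_le_left _ _)
      linarith
    · have h1 := (min_le_right (ξc / 2) (min (κc / 100) (min (δ / (2 * Mt + 8)) (min (ζ / 16)
        (1 / (32 * ((K₀ : ℝ) + 1))))))).trans ((min_le_right _ _).trans (min_le_left _ _))
      rw [le_div_iff₀ (by positivity)] at h1
      linarith
    · have h1 := (min_le_right (ξc / 2) (min (κc / 100) (min (δ / (2 * Mt + 8)) (min (ζ / 16)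
        (1 / (32 * ((K₀ : ℝ) + 1))))))).trans ((min_le_right _ _).trans ((min_le_right _ _).trans (min_le_left _ _)))
      linarith
    · have h1 := (min_le_right (ξc / 2) (min (κc / 100) (min (δ / (2 * Mt + 8)) (min (ζ / 16)
        (1 / (32 * ((K₀ : ℝ) + 1))))))).trans ((min_le_right _ _).trans ((min_le_right _ _).trans (min_le_right _ _)))
      rw [le_div_iff₀ (by positivity)] at h1
      linarith
  obtain ⟨Cb', hCb'⟩ : ∃ Cb' : ℕ, Cb' = Cb + 24 * (3 + J) + Cp + 3 + w₀ + J := ⟨_, rfl⟩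
  refine ⟨ξ, Cb', hξ0, ?_⟩
  intro V R hT X N lam sig w lam' cc l₁ l₂ l₃ gr L hS hBr hgr hL hNoD hcc hszc hζX hlam hlamsig hlam' hqC hQ hξX
  -- numbers
  obtain ⟨q, hq⟩ : ∃ q, q = inS [l₁, l₂, l₃] := ⟨_, rfl⟩
  obtain ⟨Q, hQQ⟩ : ∃ Q, Q = inS gr := ⟨_, rfl⟩
  rw [← hq] at hlam hlam' hqC hQ hξX ⊢
  rw [← hQQ] at hQ hξX
  have hqe : q = l₁.1.size + l₂.1.size + l₃.1.size := by
    rw [hq]
    simp [inS]
    ring
  obtain ⟨n, hn⟩ : ∃ n : ℝ, n = (X.card : ℝ) := ⟨_, rfl⟩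
  obtain ⟨x, hx⟩ : ∃ x : ℝ, x = ξ * n := ⟨_, rfl⟩
  have hξX' : ((q + Q : ℕ) : ℝ) ≤ x := by rw [hx, hn]; exact hξX
  have hQ' : (64 * Λ₁ + 1000) * (w + sig + q + lam') = 64 * (Λ₁ * (w + sig + q + lam')) + 1000 * (w + sig + q + lam') := by
    ring
  have hKq : (2 * Λ₁ + 6) * q = 2 * (Λ₁ * q) + 6 * q := by ring
  have hΛq : Λ₁ * q ≤ Λ₁ * (w + sig + q + lam') := Nat.mul_le_mul_left _ (by omega)
  have hlamq : (64 * Λ₁ + 1000) * q = 64 * (Λ₁ * q) + 1000 * q := by ring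
  obtain ⟨LQ, hLQ⟩ : ∃ LQ, LQ = Λ₁ * q := ⟨_, rfl⟩
  rw [hQ'] at hQ
  rw [← hLQ] at hΛq hKq hlamq
  have hQ1 : 64 * LQ + 1000 * (w + sig + q + lam') + Cb' ≤ Q := by omega
  have i1 : (Q : ℝ) ≤ x := by
    refine le_trans ?_ hξX'
    exact_mod_cast (by omega : Q ≤ q + Q)
  have i2 : (64 * LQ : ℝ) + 1000 * (w + sig + q + lam') + Cb' ≤ x := by
    refine le_trans ?_ i1
    exact_mod_cast hQ1
  have w1 : (0 : ℝ) ≤ w := Nat.cast_nonneg _
  have w2 : (0 : ℝ) ≤ sig := Nat.cast_nonneg _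
  have w3 : (0 : ℝ) ≤ q := Nat.cast_nonneg _
  have w4 : (0 : ℝ) ≤ lam' := Nat.cast_nonneg _
  have w5 : (0 : ℝ) ≤ LQ := Nat.cast_nonneg _
  have hCbC : (Cb : ℝ) ≤ Cb' := by exact_mod_cast (by omega : Cb ≤ Cb')
  have hCbr : (Cb : ℝ) = 32 * Cl + Cc + 16 * Cp + 4 * Nn + 2 * Ct + C₂ + 4 * J + 6 * w₀ + C₁ + 100 := by
    rw [hCb]
    push_cast
    ring
  have w6 : (0 : ℝ) ≤ Cl := Nat.cast_nonneg _
  have w7 : (0 : ℝ) ≤ Cc := Nat.cast_nonneg _
  have w8 : (0 : ℝ) ≤ Cp := Nat.cast_nonneg _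
  have w9 : (0 : ℝ) ≤ Nn := Nat.cast_nonneg _
  have w10 : (0 : ℝ) ≤ Ct := Nat.cast_nonneg _
  have w11 : (0 : ℝ) ≤ C₂ := Nat.cast_nonneg _
  have w12 : (0 : ℝ) ≤ J := Nat.cast_nonneg _
  have w13 : (0 : ℝ) ≤ w₀ := Nat.cast_nonneg _
  have w14 : (0 : ℝ) ≤ C₁ := Nat.cast_nonneg _
  have hx100 : (100 : ℝ) ≤ x := by linarith
  have hn0 : 0 < n := by
    rw [hx] at hx100
    by_contra h
    push Not at h
    have := mul_nonpos_of_nonneg_of_nonpos hξ0.le h
    linarith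
  have j1 : 2 * x ≤ ξc * n := by
    rw [hx]
    have := mul_le_mul_of_nonneg_right g1 hn0.le
    linarith
  have j2 : 100 * x ≤ κc * n := by
    rw [hx]
    have := mul_le_mul_of_nonneg_right g2 hn0.le
    linarith
  have j3 : (2 * Mt + 8) * x ≤ δ * n := by
    rw [hx]
    have := mul_le_mul_of_nonneg_right g3 hn0.le
    linarith
  have j4 : 16 * x ≤ ζ * n := by
    rw [hx]
    have := mul_le_mul_of_nonneg_right g4 hn0.le
    linarith
  have j5 : 32 * ((K₀ : ℝ) + 1) * x ≤ n := by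
    rw [hx]
    have := mul_le_mul_of_nonneg_right g5 hn0.le
    linarith
  have j6 : κc * n ≤ n := by
    have := mul_le_mul_of_nonneg_right hκc1 hn0.le
    linarith
  -- the cut
  obtain ⟨pp, hpp⟩ : ∃ pp, pp = Q + q + (Cp + 3) := ⟨_, rfl⟩
  obtain ⟨r, hr⟩ : ∃ r, r = (2 * Λ₁ + 6 + 24) * q + Cl := ⟨_, rfl⟩
  have hr' : r = 2 * LQ + 30 * q + Cl := by rw [hr, hLQ]; ring
  have hgr1 : gr ≠ [] := by
    rintro rfl
    have : Q = 0 := by rw [hQQ]; rfl
    omega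
  have hgl1 : 1 ≤ gr.length := List.length_pos_of_ne_nil hgr1
  have hpr : ((pp + 0 : ℕ) : ℝ) ≤ 2 * x := by
    rw [hpp]
    push_cast at hξX' ⊢
    linarith
  have hppr : (pp : ℝ) ≤ 2 * x := by simpa using hpr
  obtain ⟨G, ys, y, P₁, P₂, U₁, hG, hroute⟩ := hcut hT (sg := 0) (p := pp) (r := r) (gl := gr.length) hS hgl1 hgr hf
    (by rw [hlamq] at hlam; omega) (by rw [← hn]; linarith) (Or.inr (by omega))
  -- the cut is made in the whole set
  have hlow : X \ low R 0 X = X := by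
    have h1 : low R 0 X = ∅ := by
      rw [eq_empty_iff_forall_notMem]
      intro u hu
      rw [mem_low] at hu
      omega
    rw [h1, sdiff_empty]
  rw [hlow] at hG
  have hyl : y ∈ ys := List.mem_of_getLast? hG.last
  have hyne : ys ≠ [] := List.ne_nil_of_mem hyl
  obtain ⟨y₁, hy₁⟩ : ∃ y₁, ys.head? = some y₁ := ⟨ys.head hyne, List.head?_eq_some_head hyne⟩
  obtain ⟨v, a, w', hv, hvX, hvN, haP, hwP, hvF, haF, hwF, hva, hvw, haw, r1, r2, r3, hrv, hra, hrw⟩ :=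
    hroute y₁ (by rw [hy₁]; rfl) ys.toFinset (ys.toFinset_card_le.trans (by rw [hG.len]; exact hgr))
  rw [List.mem_toFinset] at hvF haF hwF
  have hP₁G : P₁ ⊆ G := hG.hP₁.trans hG.hU₁
  have hP₁X : P₁ ⊆ X := hP₁G.trans hG.hG
  have hP₂X : P₂ ⊆ X := fun u hu => ((hG.part u).1 hu).1
  have hpart : ∀ z ∈ X, z ∈ P₁ ∨ z ∈ P₂ ∨ z ∈ ys := by
    intro z hz
    by_cases h1 : z ∈ P₁
    · exact Or.inl h1
    · by_cases h2 : z ∈ ys
      · exact Or.inr (Or.inr h2)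
      · exact Or.inr (Or.inl ((hG.part z).2 ⟨hz, h1, h2⟩))
  have hysc : ys.toFinset.card ≤ Nn := ys.toFinset_card_le.trans (by rw [hG.len]; exact hgr)
  have hglr : (gr.length : ℝ) ≤ Nn := by exact_mod_cast hgr
  have hnO : ∀ (W : Finset V) (h : V), nO (rv R) W h = nI R W h := fun _ _ => rfl
  have hnI : ∀ (W : Finset V) (h : V), nI (rv R) W h = nO R W h := fun _ _ => rfl
  obtain ⟨My, hMy⟩ : ∃ My, My = P₂.filter (fun w => R y w ∧ w ∈ G) := ⟨_, rfl⟩
  have hMyP : My ⊆ P₂ := by rw [hMy]; exact filter_subset _ _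
  have hcntG := hG.cnt
  have hlinG := hG.lin
  rw [← hMy] at hcntG hlinG
  obtain ⟨I, hI⟩ : ∃ I, I = P₂.filter (fun u => R u y ∧ ((nI R My u).card : ℝ) ≤ κc / 4 * X.card) := ⟨_, rfl⟩
  obtain ⟨s₀, hs₀⟩ : ∃ s₀ : ℕ, s₀ = ⌈2 * κc * X.card⌉₊ := ⟨_, rfl⟩
  have hs₀1 : (s₀ : ℝ) ≤ 2 * κc * n + 1 := by
    rw [hs₀, hn]
    exact (Nat.ceil_lt_add_one (by positivity)).le
  have htot1 : totB [(v, l₁.1), (a, l₂.1), (w', l₃.1)] = q := by
    rw [hqe]
    simp [totB]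
    ring
  have hU₁6 : (U₁.card : ℝ) ≤ 6 * pp := by exact_mod_cast hG.cardU
  have hP₁c : (P₁.card : ℝ) = pp := by exact_mod_cast hG.card₁
  have hGc : (G.card : ℝ) ≤ (G ∩ P₂).card + pp + Nn := by
    have h1 : G ⊆ (G ∩ P₂) ∪ (P₁ ∪ ys.toFinset) := by
      intro z hz
      rw [mem_union, mem_inter, mem_union, List.mem_toFinset]
      rcases hpart z (hG.hG hz) with h2 | h2 | h2
      · exact Or.inr (Or.inl h2)
      · exact Or.inl ⟨hz, h2⟩
      · exact Or.inr (Or.inr h2)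
    have h2 := (card_le_card h1).trans (card_union_le _ _)
    have h3 := card_union_le P₁ ys.toFinset
    have h4 := hG.card₁
    have h5 : G.card ≤ (G ∩ P₂).card + pp + Nn := by omega
    exact_mod_cast h5
  have hGc2 := hG.hGc
  rw [← hn] at hGc2 hlinG
  have hBrF : ∀ t : Fd × Fd, t ∈ l₁ :: l₂ :: l₃ :: (gr ++ L) → FOK p.b p.l 0 t.1 ∧ (∀ z ∈ t.1.trees, z.1 = true) ∧
      FOK p.b p.l 0 t.2 ∧ ∀ z ∈ t.2.trees, z.1 = true := by
    intro t ht
    obtain ⟨h1, h2, h3, h4⟩ := hBr t ht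
    exact ⟨h1, h3, h2, h4⟩
  obtain ⟨b1, b2, b3, b4⟩ := hBrF l₁ (by simp)
  obtain ⟨b5, b6, b7, b8⟩ := hBrF l₂ (by simp)
  obtain ⟨b9, b10, b11, b12⟩ := hBrF l₃ (by simp)
  have hBrG : ∀ t ∈ gr, FOK p.b p.l 0 t.1 ∧ (∀ z ∈ t.1.trees, z.1 = true) ∧
      FOK p.b p.l 0 t.2 ∧ ∀ z ∈ t.2.trees, z.1 = true := fun t ht => hBrF t (by simp [ht])
  -- the items of the links
  obtain ⟨T, S, E, Bp, hTP, hTH, hSP, hSH, hEP, hEH, hSE, hEmb1, cTS, cSE, cSE', hD, hBp, hGS⟩ := hlink (rv_tour hT)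
    (X := X) (U := U₁) (P := P₁) (P₂ := P₂) (ys := ys.toFinset) (G := G) (Hs := {v, a, w'}) (Av := ∅)
    (t := 2 * ηc * U₁.card) (s₀ := s₀) (os := [(v, l₁.1), (a, l₂.1), (w', l₃.1)]) (by rw [hκg]; exact hG.side) (by
      rw [hP₁c]
      linarith) (by
      rw [htot1, hG.card₁]
      omega) hysc (by simp) card_le_three (by
      rw [disjoint_left]
      intro z hz
      rw [mem_insert, mem_insert, mem_singleton] at hz
      rw [List.mem_toFinset]
      rcases hz with rfl | rfl | rfl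
      · exact hvF
      · exact haF
      · exact hwF) (by
      intro t ht
      simp only [List.mem_cons, List.not_mem_nil, or_false] at ht
      rcases ht with rfl | rfl | rfl
      · exact ⟨by simp, b1, b2⟩
      · exact ⟨by simp, b5, b6⟩
      · exact ⟨by simp, b9, b10⟩) hG.disj (by
      rw [disjoint_left]
      intro z hz
      exact (hG.hys z (List.mem_toFinset.1 hz)).2.2.2) (by
      intro z hz
      rw [List.mem_toFinset]
      exact hpart z hz) (by simp) (by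
      intro u hu huG
      rw [hnI]
      have h1 := hG.bulk u (hP₂X hu) huG
      have h2 : ((nO R G u).card : ℝ) ≤ s₀ := by
        rw [hs₀]
        exact h1.le.trans (Nat.le_ceil _)
      exact_mod_cast h2) (by
      rw [htot1, hKq]
      have h1 : ((s₀ + (2 * LQ + 6 * q) + Cl : ℕ) : ℝ) ≤ (G ∩ P₂).card := by
        push_cast
        linarith
      exact_mod_cast h1) (by
      rw [htot1]
      intro t ht
      rw [hnO]
      simp only [List.mem_cons, List.not_mem_nil, or_false] at ht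
      rcases ht with rfl | rfl | rfl
      · show (2 * Λ₁ + 6 + 24) * q + Cl ≤ (nI R X v).card
        omega
      · show (2 * Λ₁ + 6 + 24) * q + Cl ≤ (nI R X a).card
        omega
      · show (2 * Λ₁ + 6 + 24) * q + Cl ≤ (nI R X w').card
        omega) I (fun u => nI R My u) (fun u _ => nI_sub.trans hMyP) (by
      intro k
      by_cases hk : (k : ℝ) ≤ κc / 4 * X.card
      · have h1 : I.filter (fun j => (nI R My j).card = k) ⊆ P₂.filter (fun u => R u y ∧ (nI R My u).card ≤ k) := by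
          intro u hu
          rw [mem_filter, hI, mem_filter] at hu
          rw [mem_filter]
          exact ⟨hu.1.1, hu.1.2.1, hu.2.le⟩
        have h2 : ((I.filter (fun j => (nI R My j).card = k)).card : ℝ) ≤ 6 * k := by
          exact_mod_cast (card_le_card h1).trans (hcntG k hk)
        linarith
      · have h1 : I.filter (fun j => (nI R My j).card = k) = ∅ := by
          rw [filter_eq_empty_iff]
          intro u hu h2
          rw [hI, mem_filter] at hu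
          rw [← h2] at hk
          exact hk hu.2.2
        rw [h1]
        have : (0 : ℝ) ≤ k := Nat.cast_nonneg _
        simp only [card_empty, Nat.cast_zero]
        linarith)
  rw [htot1] at cTS cSE cSE' hBp
  rw [empty_union] at hTH hSH hEH hBp
  -- the items of the group
  obtain ⟨A₁, hA₁⟩ : ∃ A₁ : Finset V, A₁ = (T ∪ (S ∪ E)) ∪ {v, a, w'} := ⟨_, rfl⟩
  have hA₁m : ∀ z, z ∈ A₁ ↔ (z ∈ T ∨ z ∈ S ∨ z ∈ E) ∨ z = v ∨ z = a ∨ z = w' := by
    intro z
    rw [hA₁, mem_union, mem_union, mem_union, mem_insert, mem_insert, mem_singleton]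
  have hHm : ∀ z, z ∈ ({v, a, w'} : Finset V) ↔ z = v ∨ z = a ∨ z = w' := by
    intro z
    rw [mem_insert, mem_insert, mem_singleton]
  have hGS' := hGS A₁ (by
      refine (card_le_card (t := {v, a, w'}) ?_).trans card_le_three
      intro z hz
      rw [mem_sdiff, hA₁m, mem_union, mem_union] at hz
      rw [hHm]
      exact hz.1.resolve_left hz.2) (by
      rw [disjoint_left]
      intro z hz hz'
      rw [List.mem_toFinset] at hz'
      obtain ⟨-, -, h1, h2⟩ := hG.hys z hz'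
      rcases (hA₁m z).1 hz with (h3 | h3 | h3) | h3 | h3 | h3
      · exact h2 (hTP h3)
      · exact h1 (hSP h3)
      · exact h1 (hEP h3)
      · rw [h3] at hz'; exact hvF hz'
      · rw [h3] at hz'; exact haF hz'
      · rw [h3] at hz'; exact hwF hz')
  have hP₁A : pp ≤ (P₁ \ A₁).card + q + 3 := by
    have h1 : P₁ ⊆ (P₁ \ A₁) ∪ ((S ∪ E) ∪ {v, a, w'}) := by
      intro z hz
      rw [mem_union, mem_sdiff, hA₁m, mem_union, mem_union, hHm]
      have h2 : z ∉ T := fun h => disjoint_left.1 hG.disj hz (hTP h)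
      by_cases h3 : z ∈ S ∨ z ∈ E
      · exact Or.inr (Or.inl h3)
      · by_cases h4 : z = v ∨ z = a ∨ z = w'
        · exact Or.inr (Or.inr h4)
        · refine Or.inl ⟨hz, ?_⟩
          rintro ((h5 | h5) | h5)
          · exact h2 h5
          · exact h3 h5
          · exact h4 h5
    have h2 := (card_le_card h1).trans (card_union_le _ _)
    have h3 := card_union_le (S ∪ E) {v, a, w'}
    have h4 := card_union_le S E
    have h5 : ({v, a, w'} : Finset V).card ≤ 3 := card_le_three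
    have h6 := hG.card₁
    omega
  have hP₁A2 : (pp : ℝ) ≤ 2 * (P₁ \ A₁).card := by
    have h1 : pp ≤ 2 * (P₁ \ A₁).card := by omega
    exact_mod_cast h1
  have hU₁A : ((U₁ \ A₁).card : ℝ) ≤ U₁.card := by exact_mod_cast card_le_card sdiff_subset
  have hlenz : ys.length = gr.length := hG.len
  have hzne : (ys.zip gr).map (fun p => (p.1, p.2.1)) ≠ [] := by
    intro h1
    have h2 := congrArg List.length h1
    rw [List.length_map, List.length_zip, List.length_nil, hlenz, min_self] at h2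
    omega
  have hzmem : ∀ t ∈ ys.zip gr, t.1 ∈ ys ∧ t.2 ∈ gr := fun t ht => ⟨(List.of_mem_zip (a := t.1) (b := t.2) ht).1,
    (List.of_mem_zip (a := t.1) (b := t.2) ht).2⟩
  have htot2 : totB ((ys.zip gr).map (fun p => (p.1, p.2.1))) = Q := by
    rw [hQQ]
    exact ge_zip_in ys gr hlenz
  obtain ⟨Sg, hEmb2, hSgU, -, hSgys, hSgJ⟩ := hpack (rv_tour hT) hGS' (by linarith) (by
      have h1 : 24 * ηc * (P₁ \ A₁).card ≤ ηq * (P₁ \ A₁).card := mul_le_mul_of_nonneg_right e1 (Nat.cast_nonneg _)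
      have h2 : 2 * ηc * U₁.card ≤ 2 * ηc * (6 * (2 * (P₁ \ A₁).card)) :=
        mul_le_mul_of_nonneg_left (by linarith) (by positivity)
      linarith) (by omega) ((ys.zip gr).map (fun p => (p.1, p.2.1))) ∅ (by
      rw [List.length_map, List.length_zip, hlenz, min_self]
      omega) hzne (by
      intro t ht
      rw [List.mem_map] at ht
      obtain ⟨t', ht', rfl⟩ := ht
      obtain ⟨h1, h2⟩ := hzmem t' ht'
      obtain ⟨h3, h4, -, -⟩ := hBrG _ h2
      exact ⟨List.mem_toFinset.2 h1, h3, h4⟩) (by simp) (by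
      rw [htot2]
      omega)
  -- the free set
  obtain ⟨X₀, hX₀⟩ : ∃ X₀ : Finset V, X₀ = X \ ((({v, a, w'} : Finset V) ∪ ys.toFinset) ∪ ((T ∪ S) ∪ Sg)) := ⟨_, rfl⟩
  have hE : GEd R X G P₁ P₂ ys v a w' T S E Bp Sg X₀ q Q (2 * Λ₁ + 6) w₀ J gr.length pp := by
    refine ⟨hP₁X, hP₂X, hpart, fun z hz => disjoint_left.1 hG.disj hz, ?_, hG.len, hG.card₁, hvX, haP, hwP, hTP, hSP, hEP,
      fun z hz => disjoint_left.1 hSE hz, ?_, ?_, ?_, cTS, cSE, cSE', ?_, ?_, ?_, ?_, ?_⟩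
    · intro z hz
      obtain ⟨h1, -, h2, h3⟩ := hG.hys z hz
      exact ⟨hG.hG h1, h2, h3⟩
    · refine ⟨fun h => disjoint_left.1 hTH h ?_, fun h => disjoint_left.1 hTH h ?_, fun h => disjoint_left.1 hTH h ?_⟩ <;>
        simp
    · refine ⟨fun h => disjoint_left.1 hSH h ?_, fun h => disjoint_left.1 hSH h ?_, fun h => disjoint_left.1 hSH h ?_⟩ <;>
        simp
    · refine ⟨fun h => disjoint_left.1 hEH h ?_, fun h => disjoint_left.1 hEH h ?_, fun h => disjoint_left.1 hEH h ?_⟩ <;>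
        simp
    · intro hEn
      obtain ⟨h1, h2, h3, h4, h5, h6⟩ := hBp hEn
      refine ⟨h1, h2, ?_, h5, ?_⟩
      · intro z hz
        have h7 := disjoint_left.1 h4 hz
        rw [hHm, not_or, not_or] at h7
        exact ⟨disjoint_left.1 h3 hz, h7⟩
      · intro u hu
        rw [← hnO]
        exact h6 u hu
    · intro z hz
      have h1 := mem_sdiff.1 (hSgU hz)
      rw [hA₁m] at h1
      have h2 : z ∉ ys := fun h => disjoint_left.1 hSgys hz (List.mem_toFinset.2 h)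
      push Not at h1
      exact ⟨hG.hG (hG.hU₁ h1.1), h1.2.1.1, h1.2.1.2.1, h1.2.1.2.2, h1.2.2.1, h1.2.2.2.1, h1.2.2.2.2, h2⟩
    · rw [EmbAllB.card hEmb2, htot2]
    · refine (card_le_card ?_).trans hSgJ
      intro z hz
      rw [mem_sdiff] at hz
      rw [mem_sdiff, mem_sdiff]
      exact ⟨hz.1, fun h => hz.2 h.1⟩
    · intro z
      rw [hX₀, mem_sdiff, mem_union, mem_union, mem_union, mem_union, hHm, List.mem_toFinset]
      exact ge_taut
  -- the protected set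
  obtain ⟨PZ, hPZ⟩ : ∃ PZ : Finset V, PZ = ((X₀ \ P₂) ∪ X₀.filter (fun v => (nI R X₀ v).card < Mt * lam' + Ct)) ∪
      bpE E Bp Sg := ⟨_, rfl⟩
  obtain ⟨Inc, hInc⟩ : ∃ Inc : Finset V, Inc = PZ.filter (fun v => (nI R PZ v).card < lam') := ⟨_, rfl⟩
  have hIncc : Inc.card ≤ 2 * lam' := by rw [hInc]; exact card_low_in hT lam' PZ
  have hInc' : ∀ z ∈ PZ, z ∉ Inc → lam' ≤ (nI R PZ z).card := by
    intro z hz hzI
    by_contra hc
    push Not at hc
    apply hzI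
    rw [hInc, mem_filter]
    exact ⟨hz, hc⟩
  obtain ⟨Dz, hDz⟩ : ∃ Dz : Finset V, Dz = (My ∩ X₀) \ Inc := ⟨_, rfl⟩
  have hBPZ : bpE E Bp Sg ⊆ PZ := by rw [hPZ]; exact subset_union_right
  have hPZX : PZ ⊆ X₀ := by
    rw [hPZ]
    refine union_subset (union_subset sdiff_subset (filter_subset _ _)) (fun z hz => (hE.bpE_sub z hz).1)
  have hEPZ : E ⊆ PZ := by
    intro z hz
    rw [hPZ, mem_union, mem_union, mem_sdiff]
    exact Or.inl (Or.inl (hE.EX₀ z hz))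
  have hused := hE.card_used
  have hout := hE.card_out
  have hX₀X := hE.X₀X
  have husedr : ((X \ X₀).card : ℝ) ≤ 3 + Nn + q + Q := by
    have h1 : (X \ X₀).card ≤ 3 + Nn + q + Q := by omega
    exact_mod_cast h1
  have houtr : ((X \ P₂).card : ℝ) ≤ pp + Nn := by
    have h1 : (X \ P₂).card ≤ pp + Nn := by omega
    exact_mod_cast h1
  have hP₂c : n ≤ P₂.card + (pp + Nn) := by
    have h1 := card_sdiff_add_card_eq_card hP₂X
    have h2 : (X.card : ℝ) = (X \ P₂).card + P₂.card := by exact_mod_cast h1.symm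
    rw [hn]
    linarith
  have hP₂2 : n ≤ 2 * P₂.card := by linarith
  have hlamx : (lam' : ℝ) ≤ x := by linarith
  have hlamx' : (Mt : ℝ) * lam' ≤ Mt * x := mul_le_mul_of_nonneg_left hlamx (Nat.cast_nonneg _)
  have hqQ : (q : ℝ) + Q ≤ x := by
    have h1 : ((q + Q : ℕ) : ℝ) = q + Q := by push_cast; ring
    linarith
  have hsm : ((PZ.card + (X \ X₀).card + (X \ P₂).card : ℕ) : ℝ) ≤ δ * X.card := by
    have h1 : PZ.card ≤ (pp + gr.length) + 2 * (Mt * lam' + Ct) + (2 * LQ + 6 * q + 1) := by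
      have h2 : (X₀ \ P₂).card ≤ pp + gr.length := (card_le_card (sdiff_subset_sdiff hX₀X (Subset.refl _))).trans hout
      have h3 : (X₀.filter (fun v => (nI R X₀ v).card < Mt * lam' + Ct)).card ≤ 2 * (Mt * lam' + Ct) :=
        card_low_in hT _ X₀
      have h4 := hE.bpE_card
      rw [hKq] at h4
      have h5 := card_union_le ((X₀ \ P₂) ∪ X₀.filter (fun v => (nI R X₀ v).card < Mt * lam' + Ct)) (bpE E Bp Sg)
      have h6 := card_union_le (X₀ \ P₂) (X₀.filter (fun v => (nI R X₀ v).card < Mt * lam' + Ct))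
      rw [hPZ]
      omega
    have h2 : (PZ.card : ℝ) ≤ (pp + Nn) + 2 * (Mt * lam' + Ct) + (2 * LQ + 6 * q + 1) := by
      have h3 : PZ.card ≤ (pp + Nn) + 2 * (Mt * lam' + Ct) + (2 * LQ + 6 * q + 1) := by omega
      exact_mod_cast h3
    rw [← hn]
    push_cast
    have h3 : (2 * Mt + 8) * x = 2 * (Mt * x) + 8 * x := by ring
    linarith
  have hDzc : κc / 4 * n ≤ (Dz.card : ℝ) := by
    have h1 : My ⊆ Dz ∪ ((X \ X₀) ∪ Inc) := by
      intro z hz
      rw [hDz, mem_union, mem_union, mem_sdiff, mem_sdiff, mem_inter]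
      by_cases h1 : z ∈ X₀
      · by_cases h2 : z ∈ Inc
        · exact Or.inr (Or.inr h2)
        · exact Or.inl ⟨⟨hz, h1⟩, h2⟩
      · exact Or.inr (Or.inl ⟨hP₂X (hMyP hz), h1⟩)
    have h2 := (card_le_card h1).trans (card_union_le _ _)
    have h3 := card_union_le (X \ X₀) Inc
    have h4 : My.card ≤ Dz.card + ((X \ X₀).card + 2 * lam') := by omega
    have h5 : (My.card : ℝ) ≤ Dz.card + ((X \ X₀).card + 2 * lam') := by exact_mod_cast h4
    linarith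
  have hgoodG : ∀ z ∈ G, Good R κg (2 * ηc) X z := by
    intro z hz
    rw [hκg]
    exact hG.good z hz
  -- the sizes
  have hsz0 : szS (l₁ :: l₂ :: l₃ :: (gr ++ L)) = l₁.1.size + l₁.2.size + 1 + szS (l₂ :: l₃ :: (gr ++ L)) := szS_cons _ _
  have hsz1 : szS (l₂ :: l₃ :: (gr ++ L)) = l₂.1.size + l₂.2.size + 1 + (l₃.1.size + l₃.2.size + 1 + (szS gr + szS L)) := by
    rw [szS_cons, szS_cons, ge_szS_append]
  have hszg := ge_zip_sz ys gr hlenz
  rw [← hQQ] at hszg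
  obtain ⟨tz, htz⟩ : ∃ tz, tz = totB ((ys.zip gr).map (fun p => (p.1, p.2.2))) := ⟨_, rfl⟩
  rw [← htz] at hszg
  have htB1 : totB [(v, l₁.2)] = l₁.2.size := by simp [totB]
  have htB2 : totB ((a, l₂.2) :: (w', l₃.2) :: (ys.zip gr).map (fun p => (p.1, p.2.2))) =
      l₂.2.size + (l₃.2.size + tz) := by
    rw [htz]
    simp [totB]
  have hNoD1 : l₁.2.size ≤ K₀ * szS (l₂ :: l₃ :: (gr ++ L)) := hNoD.1
  have hD1 : ((K₀ : ℝ) + 1) * l₁.2.size ≤ K₀ * n := by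
    have h1 : szS (l₂ :: l₃ :: (gr ++ L)) + l₁.2.size ≤ X.card := by omega
    have h2 : (szS (l₂ :: l₃ :: (gr ++ L)) : ℝ) + l₁.2.size ≤ n := by
      rw [hn]
      exact_mod_cast h1
    have h3 : (l₁.2.size : ℝ) ≤ K₀ * szS (l₂ :: l₃ :: (gr ++ L)) := by exact_mod_cast hNoD1
    have h4 : (K₀ : ℝ) * (szS (l₂ :: l₃ :: (gr ++ L)) + l₁.2.size) ≤ K₀ * n :=
      mul_le_mul_of_nonneg_left h2 (Nat.cast_nonneg _)
    have h5 : (K₀ : ℝ) * (szS (l₂ :: l₃ :: (gr ++ L)) + l₁.2.size) =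
        K₀ * szS (l₂ :: l₃ :: (gr ++ L)) + K₀ * l₁.2.size := by ring
    have h6 : ((K₀ : ℝ) + 1) * l₁.2.size = K₀ * l₁.2.size + l₁.2.size := by ring
    linarith
  obtain ⟨w₁, hw₁⟩ : ∃ w₁, w₁ = Cp + 3 + w₀ + J + 24 * (3 + J + 2 * lam') + 6 * w₀ := ⟨_, rfl⟩
  obtain ⟨S₁, S₂, hE3, hE4, hS₁X, hS₂X, hSd, hSt⟩ := htwo hT (X := X) (X₀ := X₀) (Y := P₂) (Dz := Dz) (PZ := PZ) (E := E)
    (Bp := bpE E Bp Sg) (y := y) lam' w₁ 0 f (Λ₁ * q) [(v, l₁.2)]
    ((a, l₂.2) :: (w', l₃.2) :: (ys.zip gr).map (fun p => (p.1, p.2.2))) (by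
      have h1 : (C₂ : ℝ) ≤ X.card := by
        rw [← hn]
        linarith
      exact_mod_cast h1) hP₂X hX₀X (by simp) (by
      rw [List.length_cons, List.length_cons, List.length_map, List.length_zip, hlenz, min_self]
      omega) (by
      intro t ht
      simp only [List.mem_cons, List.not_mem_nil, or_false] at ht
      subst ht
      refine ⟨hvX, fun h => ((hE.hX₀ v).1 h).2.1 rfl, ?_, b3, b4⟩
      rcases hv with h1 | h1
      · refine GdU.of_good (mem_cg.1 h1).2.2.1 hP₂X f1 ?_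
        have h2 : η * X.card ≤ ηP / 2 * n := by
          rw [← hn]
          exact mul_le_mul_of_nonneg_right hη hn0.le
        have h3 : ηP / 2 * n ≤ ηP / 2 * (2 * P₂.card) := mul_le_mul_of_nonneg_left hP₂2 (by linarith)
        linarith
      · refine GdU.of_good (hgoodG v (hP₁G h1)) hP₂X f2 ?_
        have h2 : 2 * ηc * X.card ≤ ηP / 2 * n := by
          rw [← hn]
          exact mul_le_mul_of_nonneg_right (by linarith) hn0.le
        have h3 : ηP / 2 * n ≤ ηP / 2 * (2 * P₂.card) := mul_le_mul_of_nonneg_left hP₂2 (by linarith)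
        linarith) (by
      intro t ht
      rw [List.mem_cons, List.mem_cons, List.mem_map] at ht
      rcases ht with rfl | rfl | ⟨t', ht', rfl⟩
      · exact ⟨hP₁X haP, fun h => ((hE.hX₀ a).1 h).2.2.1 rfl, hgoodG a (hP₁G haP), b7, b8⟩
      · exact ⟨hP₁X hwP, fun h => ((hE.hX₀ w').1 h).2.2.2.1 rfl, hgoodG w' (hP₁G hwP), b11, b12⟩
      · obtain ⟨h1, h2⟩ := hzmem t' ht'
        obtain ⟨-, -, h3, h4⟩ := hBrG _ h2
        have h5 := (hG.hys _ h1).1
        exact ⟨hG.hG h5, fun h => ((hE.hX₀ _).1 h).2.2.2.2.1 h1, hgoodG _ h5, h3, h4⟩) (by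
      intro z hz
      rw [hPZ, mem_union, mem_union]
      exact Or.inl (Or.inl hz)) (by
      intro z hz
      rw [hPZ, mem_union, mem_union]
      exact Or.inl (Or.inr hz)) hPZX hsm (by
      rw [hDz]
      exact sdiff_subset.trans (inter_subset_left.trans hMyP)) (by
      rw [hDz]
      exact sdiff_subset.trans inter_subset_right) (by
      intro z hz
      rw [hDz, mem_sdiff, mem_inter, hMy, mem_filter] at hz
      exact ⟨hz.1.1.2.1, hgoodG z hz.1.1.2.2⟩) (by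
      rw [← hn]
      exact hDzc) (by
      intro z hz hzP
      rw [hDz, mem_sdiff] at hz
      exact hInc' z hzP hz.2) hEPZ hBPZ (fun z hz => hgoodG z (hE.bpE_sub z hz).2.1)
      (hE.thr hInc' hIncc hBPZ rfl hlam' (by omega)) (by
      rw [hDz]
      refine hE.cnt hT hyl hMyP hκc0 hcntG ?_ hIncc ?_ (by omega) hKd2 (by omega)
      · intro u hu huy hq
        refine hD u ?_
        rw [hI, mem_filter]
        exact ⟨hu, huy, hq⟩
      · rw [← hn]
        push_cast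
        linarith) (by
      rw [htB1]
      have h1 : 0 ≤ ω * P₂.card := by positivity
      have h2 : (P₂.card : ℝ) ≤ n := by
        rw [hn]
        exact_mod_cast card_le_card hP₂X
      have hK0 : (0 : ℝ) < K₀ + 1 := by positivity
      have h3 : ω * P₂.card ≤ ω * n := mul_le_mul_of_nonneg_left h2 hω0.le
      have h4 : ω * (4 * ((K₀ : ℝ) + 1)) * n ≤ 1 * n := mul_le_mul_of_nonneg_right hω hn0.le
      have h5 : ((K₀ : ℝ) + 1) * (l₁.2.size + C₂) ≤ ((K₀ : ℝ) + 1) * ((1 - ω) * P₂.card) := by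
        have h6 : ((K₀ : ℝ) + 1) * (n - 3 * x - ω * n) ≤ ((K₀ : ℝ) + 1) * ((1 - ω) * P₂.card) :=
          mul_le_mul_of_nonneg_left (by linarith) hK0.le
        have h7 : ((K₀ : ℝ) + 1) * C₂ ≤ (K₀ + 1) * x := mul_le_mul_of_nonneg_left (by linarith) hK0.le
        have h8 : ((K₀ : ℝ) + 1) * (n - 3 * x - ω * n) =
            K₀ * n + n - 3 * ((K₀ + 1) * x) - ω * (4 * ((K₀ : ℝ) + 1)) * n / 4 := by ring
        have h9 : ((K₀ : ℝ) + 1) * (l₁.2.size + C₂) = (K₀ + 1) * l₁.2.size + (K₀ + 1) * C₂ := by ring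
        have h10 : 32 * ((K₀ : ℝ) + 1) * x = 32 * ((K₀ + 1) * x) := by ring
        have h11 : 0 ≤ ((K₀ : ℝ) + 1) * x := by positivity
        linarith
      exact le_of_mul_le_mul_left h5 hK0) (by
      rw [htB1, htB2]
      have h1 : (l₁.2.size + (l₂.2.size + (l₃.2.size + tz))) + Q + q + 3 + gr.length + (szS L + cc) = X.card := by omega
      have h2 : (((l₁.2.size + (l₂.2.size + (l₃.2.size + tz)) : ℕ)) : ℝ) + Q + q + 3 + gr.length + ((szS L + cc : ℕ) : ℝ) =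
          n := by
        rw [hn]
        exact_mod_cast h1
      have h3 : ζ * n ≤ ((szS L + cc : ℕ) : ℝ) := by
        rw [hn]
        exact hζX
      have h4 : n ≤ P₂.card + (pp + gr.length) := by
        have h5 := card_sdiff_add_card_eq_card hP₂X
        have h6 : X.card ≤ P₂.card + (pp + gr.length) := by omega
        rw [hn]
        exact_mod_cast h6
      have h5 : (pp : ℝ) = Q + q + (Cp + 3) := by
        rw [hpp]
        push_cast
        ring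
      rw [← hn]
      linarith)
  obtain ⟨hcard, hInS⟩ := hE.glue (L := L) (N := N) hlenz hG.nodup hG.chain hG.last ⟨hvF, haF, hwF⟩ hva hvw haw hvN r1 r2
    (fun z hz => by
      rw [hy₁] at hz
      cases hz
      exact r3) hEmb1 hEmb2 hE3 hE4 hS₁X hS₂X hSd
  refine ⟨w₁ + C₁, E, by omega, by omega, X₀ \ (S₁ ∪ S₂), y, sdiff_subset.trans hX₀X, hcard, hSt, hInS⟩

end AEG
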