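import Pool.Agent.AEG.GroupC
import Pool.Agent.AEB.NPx

/-!
# The heavy stage `GroupN`
-/

set_option autoImplicit false

namespace AEG

open Finset AE15 AED AEB SPD
open scoped Classical

/-- **Heavy stage, the mass behind is comparable** -/
theorem groupN (b l K₀ : ℕ) (hb : 1 ≤ b) : ∃ (η' : ℝ) (Λ A : ℕ), 0 < η' ∧ ∀ κ η s : ℝ, 0 < κ → η ≤ η' →
    GroupN b l K₀ κ η s Λ A := by
  obtain ⟨p, hp, hpb, hpl, hab, -⟩ := exists_np b l 0 hb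
  subst hpb hpl
  obtain ⟨D₀, hD₀⟩ : ∃ D₀, D₀ = 64 + p.A + K₀ := ⟨_, rfl⟩
  obtain ⟨ω, c, η, η₁, κ₀, κ₁, κ, γ₀, τ, s, σ₂, μ, P⟩ := exists_KB (D := D₀) (by omega)
  have hη0 : 0 < η := P.num.2.2.2.2.1
  have hωK : 2 * ω * (K₀ + 1) ≤ 1 := by
    rw [P.hω]
    have h1 : ((K₀ + 1 : ℕ) : ℝ) ≤ D₀ := by exact_mod_cast (by omega : K₀ + 1 ≤ D₀)
    have h2 : (0 : ℝ) < D₀ := by exact_mod_cast (by omega : 0 < D₀)
    have h3 : 2 * (1 / (2 * (D₀ : ℝ))) * (K₀ + 1) = (K₀ + 1) / D₀ := by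
      field_simp
    rw [h3, div_le_one h2]
    push_cast at h1
    exact h1
  refine ⟨η / 2, 64, 48, by positivity, ?_⟩
  intro κS ηS sS hκS hηS Nn ζ ηw hζ hηw
  obtain ⟨n₁, hn₁⟩ := exists_nat_ge (2 / ζ)
  rw [div_le_iff₀ hζ] at hn₁
  obtain ⟨D₀', hD₀'⟩ : ∃ D₀', D₀' = 64 + p.A + n₁ := ⟨_, rfl⟩
  obtain ⟨ω', c', η', η₁', κ₀', κ₁', κ', γ₀', τ', s', σ₂', μ', P'⟩ := exists_KB (D := D₀') (by omega)
  have hω' : 4 * ω' ≤ ζ := by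
    rw [P'.hω]
    have h1 : (n₁ : ℝ) ≤ D₀' := by exact_mod_cast (by omega : n₁ ≤ D₀')
    have h2 : (0 : ℝ) < D₀' := by exact_mod_cast (by omega : 0 < D₀')
    have h3 : 4 * (1 / (2 * (D₀' : ℝ))) = 2 / D₀' := by
      field_simp
      norm_num
    rw [h3, div_le_iff₀ h2]
    have := mul_le_mul_of_nonneg_right h1 hζ.le
    linarith
  obtain ⟨ηm, hηm0, hηm1, hcore⟩ := group_core p hp hab (D₀ := D₀) (by omega) P (D₀' := D₀') (by omega) P' hωK hζ hω' hηw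
    hκS (ηS := ηS) (by linarith) Nn
  obtain ⟨κw, sw, ξ, K₁, C, hκw, hsw, hξ, hcore⟩ := hcore (k₀ := ηm / 25) (ηc := ηm) (by positivity) (by linarith) le_rfl
  refine ⟨κw, sw, hκw, hsw, Nn + 3, K₁, ?_⟩
  intro f K' hf
  obtain ⟨ξ₂, C₂, hξ₂, hcut⟩ := grp_cut (κ₀ := ηm / 25) (η := ηm) (by positivity) (by linarith) hηm1 Nn Nn K'
  refine ⟨min (ξ / 4) (ξ₂ / 4), 2 * C + C₂ + 1, lt_min (by positivity) (by positivity), ?_⟩
  intro V R hT X N lam sig w lam' cx l₁ l₂ l₃ gr L hSt hbr hlen hne hnd hc hszc hζX h1 h2 h3 h4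
  obtain ⟨q, hq⟩ : ∃ q, q = inS [l₁, l₂, l₃] := ⟨_, rfl⟩
  obtain ⟨Q, hQ⟩ : ∃ Q, Q = inS gr := ⟨_, rfl⟩
  rw [← hq] at h1 h2 h4 ⊢
  rw [← hQ] at h3 h4 ⊢
  have hgr : gr ≠ [] := by
    rintro rfl
    simp [inS] at hQ
    omega
  have hgl : 1 ≤ gr.length := List.length_pos_iff.2 hgr
  obtain ⟨pp, hpp⟩ : ∃ pp, pp = max (Q + q) w + (C + C₂) := ⟨_, rfl⟩
  obtain ⟨T, hTd⟩ : ∃ T, T = w + sig + q + Q := ⟨_, rfl⟩
  have hTξ : (T : ℝ) ≤ min (ξ / 4) (ξ₂ / 4) * X.card := by rw [hTd]; exact h4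
  have hX0 : (0 : ℝ) ≤ X.card := Nat.cast_nonneg _
  have hp4 : pp + sig + lam' ≤ 4 * T := by omega
  have hp4' : ((pp + sig + lam' : ℕ) : ℝ) ≤ 4 * T := by exact_mod_cast hp4
  have hξ1 : ((pp + sig + lam' : ℕ) : ℝ) ≤ ξ * X.card := by
    have := hTξ.trans (mul_le_mul_of_nonneg_right (min_le_left _ _) hX0)
    linarith
  have hξ3 : ((pp + sig : ℕ) : ℝ) ≤ ξ₂ * X.card := by
    have := hTξ.trans (mul_le_mul_of_nonneg_right (min_le_right _ _) hX0)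
    have h5 : ((pp + sig : ℕ) : ℝ) ≤ ((pp + sig + lam' : ℕ) : ℝ) := by exact_mod_cast (by omega)
    linarith
  obtain ⟨G, ys, y, P₁, P₂, U₁, hG, hroute⟩ := hcut hT (p := pp) (sg := sig) (r := 16 * q + C) (gl := gr.length) hSt hgl
    hlen hf (by omega) hξ3 (Or.inl ⟨rfl, by omega, by omega⟩)
  have hys : ys ≠ [] := by
    intro h
    have := hG.len
    rw [h] at this
    simp at this
    omega
  obtain ⟨y₁, hy₁⟩ : ∃ y₁, y₁ ∈ ys.head? := by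
    obtain ⟨y₁, ys', rfl⟩ := List.exists_cons_of_ne_nil hys
    exact ⟨y₁, by simp⟩
  have hF : ys.toFinset.card ≤ Nn := (List.toFinset_card_le ys).trans (by rw [hG.len]; exact hlen)
  obtain ⟨v, a, w₀, r1, r2, r3, r4, r5, r6, -, -, r7, r8, r9, r10, r11, r12, r13, r14, r15⟩ :=
    hroute y₁ hy₁ ys.toFinset hF
  obtain ⟨w', hw', hA⟩ := hcore hT (v := v) (a := a) (w₀ := w₀) pp sig lam' f cx l₁ l₂ l₃ gr L hG hgr hlen hbr hnd hszc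
    hζX (r1.imp_left fun h => (mem_cg.1 h).2.2.1) r2 r3 r4 r5 (fun h => r6 (List.mem_toFinset.2 h)) r7 r8 r9 r10 r11
    (fun y₂ hy₂ => by
      have h5 : ys.head? = some y₁ := hy₁
      rw [h5] at hy₂
      obtain rfl : y₁ = y₂ := by simpa using hy₂
      exact r12) (by rw [← hq]; exact r13) (by rw [← hq]; exact r14) (by rw [← hq]; exact r15)
    (by rw [← hq, ← hQ]; omega) hξ1
  refine ⟨w', ?_, hA⟩
  rw [← hQ] at hw'
  omega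

end AEG
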