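import Pool.Agent.AEG.MainGS
import Pool.Agent.AEG.GroupN
import Pool.Agent.AEG.GroupD
import Pool.Agent.AEG.GroupE

/-!
# The fine class: the coded statement
-/

set_option autoImplicit false

namespace AEG

/-- **The fine class** -/
theorem codF_all {b l K₀ : ℕ} (hb : 1 ≤ b) :
    ∃ K₂ : ℕ, ∀ N₁ B : ℕ, ∃ (θ : ℝ) (C : ℕ), 0 < θ ∧ CodF b l K₀ K₂ N₁ B θ C := by
  obtain ⟨η', hη', hE⟩ := groupE b l K₀ hb 1
  exact codF_of' hb (groupN b l K₀ hb) (groupD b l K₀ hb) ⟨η', _, 1, 48, hη', le_rfl, hE⟩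

/-- the graph form -/
theorem mainF (Δ l K₀ : ℕ) : ∃ K₂ : ℕ, ∀ N₁ B : ℕ, ∃ θ : ℝ, 0 < θ ∧ ∃ C : ℕ, ∀ k n : ℕ, k + C ≤ n →
    ∀ R : Fin n → Fin n → Prop, (∀ a, ¬ R a a) → (∀ a b, a ≠ b → R a b ∨ R b a) → (∀ a b, R a b → ¬ R b a) →
    ∀ E : Fin (k + 1) → Fin (k + 1) → Prop,
      (∀ a b, E a b → ¬ E b a) →
      (SimpleGraph.fromRel E).IsTree →
      (∀ v, ((SimpleGraph.fromRel E).neighborSet v).ncard ≤ Δ) →
      (∃ (m : ℕ) (p : ℕ → Fin (k + 1)) (a d s : ℕ → ℕ), (∀ i < m, E (p i) (p (i + 1))) ∧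
        (∀ i ≤ m, ∀ u, E (p i) u → (∀ j ≤ m, u ≠ p j) → ∀ q : ℕ → Fin (k + 1), ¬ ∀ j ≤ l, E (q j) (q (j + 1)) ∧
          (SimpleGraph.fromRel E).dist (p i) (q (j + 1)) < (SimpleGraph.fromRel E).dist (p i) (q j) ∧
          (SimpleGraph.fromRel E).dist u (q j) < (SimpleGraph.fromRel E).dist (p i) (q j)) ∧
        (∀ i ≤ m, ∀ u, E u (p i) → (∀ j ≤ m, u ≠ p j) → ∀ q : ℕ → Fin (k + 1), ¬ ∀ j ≤ l, E (q (j + 1)) (q j) ∧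
          (SimpleGraph.fromRel E).dist (p i) (q (j + 1)) < (SimpleGraph.fromRel E).dist (p i) (q j) ∧
          (SimpleGraph.fromRel E).dist u (q j) < (SimpleGraph.fromRel E).dist (p i) (q j)) ∧
        (∀ i ≤ m, a i = {x | ∃ u, E u (p i) ∧ (∀ j ≤ m, u ≠ p j) ∧
          (SimpleGraph.fromRel E).dist (p i) x = (SimpleGraph.fromRel E).dist u x + 1}.ncard) ∧
        (∀ i ≤ m, d i = {x | ∃ u, E (p i) u ∧ (∀ j ≤ m, u ≠ p j) ∧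
          (SimpleGraph.fromRel E).dist (p i) x = (SimpleGraph.fromRel E).dist u x + 1}.ncard) ∧
        (∀ i ≤ m, s i = {x | (SimpleGraph.fromRel E).dist (p 0) x =
          (SimpleGraph.fromRel E).dist (p 0) (p i) + (SimpleGraph.fromRel E).dist (p i) x}.ncard) ∧
        (∀ i < m, d i ≤ K₀ * s (i + 1)) ∧ a m + d m ≤ B ∧ (∀ i ≤ m, (a i : ℝ) ≤ θ * s i + B) ∧
        ∀ i, i + N₁ ≤ m + 1 → ∃ j, i ≤ j ∧ j + 8 ≤ i + N₁ ∧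
          K₂ * ∑ t ∈ Finset.Ico j (j + 8), a t ≤ ∑ t ∈ Finset.Ico (j + 8) (m + 1), a t + B) →
      ∃ f : Fin (k + 1) → Fin n, Function.Injective f ∧ ∀ a b, E a b → R (f a) (f b) := by
  obtain ⟨K₂, h⟩ := codF_all (b := Δ + 1) (l := l) (K₀ := K₀) (by omega)
  refine ⟨K₂, fun N₁ B => ?_⟩
  obtain ⟨θ, C, hθ, hC⟩ := h N₁ B
  exact ⟨θ, hθ, C + 1, fun k n hk => final_of_CodF Δ l K₀ K₂ N₁ B θ C hC k n (by omega)⟩

end AEG
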