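import Pool.Agent.AEG.HandS
import Pool.Agent.AE15.SuperC

/-!
# The state between two rounds

`Y` carries the structure, `V` is the set of all other free vertices; `N` is the set of the vertices which may host the
next vertex of the line.
-/

set_option autoImplicit false

namespace AEG

open Finset AE15 AED AEB
open scoped Classical

/-- the capable good vertices of `Y` with property `N` -/
noncomputable def cg {T : Type*} (R : T → T → Prop) (Y V : Finset T) (N : T → Prop) (κ η : ℝ) (lam : ℕ) : Finset T :=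
  Y.filter (fun v => N v ∧ Good R κ η Y v ∧ lam ≤ (nI R (Y ∪ V) v).card)

theorem mem_cg {T : Type*} {R : T → T → Prop} {Y V : Finset T} {N : T → Prop} {κ η : ℝ} {lam : ℕ} {v : T} :
    v ∈ cg R Y V N κ η lam ↔ v ∈ Y ∧ N v ∧ Good R κ η Y v ∧ lam ≤ (nI R (Y ∪ V) v).card := by
  simp [cg]

/-- **The state.** All but few of the non-low vertices of `Y` outside `N` have many capable good dominators in `N` -/
structure StM {T : Type*} (R : T → T → Prop) (Y V : Finset T) (N : T → Prop) (κ η s : ℝ) (lam sig K : ℕ) : Prop where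
  disj : Disjoint Y V
  dense : s * Y.card ≤ ((cg R Y V N κ η lam).card : ℝ)
  cnt : ∀ j : ℕ, (Y.filter (fun u => ¬ N u ∧ sig ≤ (nI R (Y ∪ V) u).card ∧
    (nI R (cg R Y V N κ η lam) u).card ≤ j)).card ≤ K * j

/-- every non-low vertex of `Y` is in `N` or has a capable good dominator in `N` -/
theorem StM.cov {T : Type*} {R : T → T → Prop} {Y V : Finset T} {N : T → Prop} {κ η s : ℝ} {lam sig K : ℕ}
    (h : StM R Y V N κ η s lam sig K) {u : T} (hu : u ∈ Y) (hs : sig ≤ (nI R (Y ∪ V) u).card) (hN : ¬ N u) :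
    ∃ v ∈ cg R Y V N κ η lam, R v u := by
  have h1 := h.cnt 0
  rw [mul_zero, Nat.le_zero, card_eq_zero, filter_eq_empty_iff] at h1
  have h2 := h1 hu
  rw [not_and, not_and, not_le] at h2
  obtain ⟨v, hv⟩ := card_pos.1 (h2 hN hs)
  exact ⟨v, (mem_nI.1 hv).1, (mem_nI.1 hv).2⟩

/-- monotonicity in the capacities -/
theorem StM.mono {T : Type*} {R : T → T → Prop} {Y V : Finset T} {N : T → Prop} {κ η s : ℝ} {lam lam' sig sig' K K' : ℕ}
    (h : StM R Y V N κ η s lam sig K) (h1 : lam' ≤ lam) (h2 : sig ≤ sig') (h3 : K ≤ K') :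
    StM R Y V N κ η s lam' sig' K' := by
  have hsub : cg R Y V N κ η lam ⊆ cg R Y V N κ η lam' := by
    intro v hv
    rw [mem_cg] at hv ⊢
    exact ⟨hv.1, hv.2.1, hv.2.2.1, h1.trans hv.2.2.2⟩
  refine ⟨h.disj, h.dense.trans (Nat.cast_le.2 (card_le_card hsub)), fun j => ?_⟩
  refine (card_le_card ?_).trans ((h.cnt j).trans (Nat.mul_le_mul_right _ h3))
  intro u hu
  rw [mem_filter] at hu ⊢
  exact ⟨hu.1, hu.2.1, h2.trans hu.2.2.1, (card_le_card (nI_mono hsub)).trans hu.2.2.2⟩

/-- the line `L` is contained in `X`, its first vertex having property `N` -/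
def InS {T : Type*} (R : T → T → Prop) (L : List (Fd × Fd)) (N : T → Prop) (X : Finset T) : Prop :=
  ∃ y ∈ X, N y ∧ ∃ S ⊆ X, y ∉ S ∧ EmbS R L y S

/-- the next state: what remains to be embedded is the line `L'`, in `Y' ∪ V'`, behind the host `y` -/
def Nxt {T : Type*} (R : T → T → Prop) (κ η s : ℝ) (lam sig K w : ℕ) (L : List (Fd × Fd)) (N : T → Prop) (X : Finset T)
    (L' : List (Fd × Fd)) (C : ℕ) : Prop :=
  L' ≠ [] ∧ ∃ (Y' V' : Finset T) (y : T), StM R Y' V' (R y) κ η s lam sig K ∧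
    (V' \ low R sig (Y' ∪ V')).card ≤ w ∧ szS L' + C ≤ (Y' ∪ V').card ∧ Y' ∪ V' ⊆ X ∧
    (InS R L' (R y) (Y' ∪ V') → InS R L N X)

end AEG
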