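import Pool.Agent.AEG.GlueC
import Pool.Agent.AEG.State

/-!
# The cluster round with a small second part: the sets of the embedded part
-/

set_option autoImplicit false

namespace AEG

open Finset AE15 AED AEB SPD
open scoped Classical

variable {V : Type} {R : V → V → Prop}

/-- the sets of the embedded part before the last step -/
structure SmD (R : V → V → Prop) (YV X P₁ P₂ U₂ H Z TA TD SA SD E : Finset V) (ys ys' zs hs : List V) (v a z yl : V) :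
    Prop where
  hXY : X ⊆ YV
  hPU : P₂ ⊆ U₂
  hUX : U₂ ⊆ X
  hPX : P₁ ⊆ X
  part : ∀ u, u ∈ P₁ ↔ u ∈ X ∧ u ∉ P₂ ∧ u ∉ ys
  hys : ∀ u ∈ ys, u ∈ X ∧ u ∉ P₂ ∧ u ∉ P₁
  hys' : ∃ r, ys' = ys.take r
  hyl : ys'.getLast? = some yl
  hH : H ⊆ P₂
  hsz : hs.getLast? = some z
  hsn : hs.Nodup
  hsc : (yl :: hs).IsChain R
  hsP : ∀ h ∈ hs, h ∈ P₂ ∧ h ∉ H
  hTA : TA ⊆ P₁
  hTD : TD ⊆ U₂
  TDH : Disjoint TD H
  TAy : ∀ u ∈ TA, u ∉ ys
  TDy : ∀ u ∈ TD, u ∉ ys
  TAD : Disjoint TA TD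
  hsT : ∀ h ∈ hs, h ∉ TA ∧ h ∉ TD
  hZ : Z ⊆ U₂
  Zm : ∀ u ∈ Z, u ∉ ys ∧ u ∉ hs ∧ u ∉ H ∧ u ∉ TA ∧ u ∉ TD
  Em : ∀ u, u ∉ E → u ∉ ys ∧ u ∉ hs ∧ u ∉ H ∧ u ∉ TA ∧ u ∉ TD ∧ u ∉ Z
  hsE : ∀ u ∈ hs, u ∈ E
  zsP : ∀ u ∈ zs, u ∈ P₁
  nod : (v :: a :: (zs ++ ys)).Nodup
  chn : (v :: a :: (zs ++ ys)).IsChain R
  fr : ∀ u ∈ v :: a :: zs, u ∈ YV ∧ u ∉ E
  SAX : SA ⊆ YV
  SDX : SD ⊆ YV
  SAD : Disjoint SA SD
  hsS : ∀ u ∈ v :: a :: (zs ++ ys), u ∉ SA ∧ u ∉ SD
  SAE : ∀ u ∈ SA, u ∉ E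
  SDE : ∀ u ∈ SD, u ∉ E

variable {YV X P₁ P₂ U₂ H Z TA TD SA SD E W : Finset V} {ys ys' zs hs : List V} {v a z yl : V}

theorem SmD.sub (h : SmD R YV X P₁ P₂ U₂ H Z TA TD SA SD E ys ys' zs hs v a z yl) {u : V} (hu : u ∈ ys') : u ∈ ys := by
  obtain ⟨r, hr⟩ := h.hys'
  rw [hr] at hu
  exact List.mem_of_mem_take hu

theorem SmD.dis (h : SmD R YV X P₁ P₂ U₂ H Z TA TD SA SD E ys ys' zs hs v a z yl) {u : V} (hu : u ∈ P₁) : u ∉ P₂ :=
  ((h.part u).1 hu).2.1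

theorem SmD.fr' (h : SmD R YV X P₁ P₂ U₂ H Z TA TD SA SD E ys ys' zs hs v a z yl) {u : V} (hu : u = v ∨ u = a ∨ u ∈ zs) :
    u ∈ YV ∧ u ∉ E := h.fr u (by simpa only [List.mem_cons] using hu)

/-- the set `W` of all used vertices before the last step -/
theorem SmD.w (h : SmD R YV X P₁ P₂ U₂ H Z TA TD SA SD E ys ys' zs hs v a z yl)
    (hWm : ∀ u, u ∈ W ↔ u = v ∨ u = a ∨ u ∈ zs ∨ u ∈ ys' ∨ u ∈ hs ∨ u ∈ SA ∨ u ∈ TA ∨ u ∈ SD ∨ u ∈ Z ∨ u ∈ TD)
    {m w₀ B : ℕ} (hm : (insert v (insert a (SA ∪ SD)) ∩ P₂).card ≤ m) (hZc : Z.card ≤ w₀) (hl : hs.length ≤ 2)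
    (hTD : TD.card ≤ 2 * B) : Disjoint W H ∧ (W ∩ P₂).card ≤ w₀ + (m + (2 + 2 * B)) := by
  constructor
  · rw [disjoint_left]
    intro u hu huH
    have huP : u ∈ P₂ := h.hH huH
    rw [hWm] at hu
    rcases hu with hu | hu | hu | hu | hu | hu | hu | hu | hu | hu
    · exact (h.Em u (h.fr' (Or.inl hu)).2).2.2.1 huH
    · exact (h.Em u (h.fr' (Or.inr (Or.inl hu))).2).2.2.1 huH
    · exact (h.Em u (h.fr' (Or.inr (Or.inr hu))).2).2.2.1 huH
    · exact (h.hys u (h.sub hu)).2.1 huP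
    · exact (h.hsP u hu).2 huH
    · exact (h.Em u (h.SAE u hu)).2.2.1 huH
    · exact h.dis (h.hTA hu) huP
    · exact (h.Em u (h.SDE u hu)).2.2.1 huH
    · exact (h.Zm u hu).2.2.1 huH
    · exact disjoint_left.1 h.TDH hu huH
  · have h1 : W ∩ P₂ ⊆ Z ∪ ((insert v (insert a (SA ∪ SD)) ∩ P₂) ∪ (hs.toFinset ∪ TD)) := by
      intro u hu
      rw [mem_inter, hWm] at hu
      obtain ⟨hu, huP⟩ := hu
      simp only [mem_union, mem_inter, mem_insert, List.mem_toFinset]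
      rcases hu with hu | hu | hu | hu | hu | hu | hu | hu | hu | hu
      · exact Or.inr (Or.inl ⟨Or.inl hu, huP⟩)
      · exact Or.inr (Or.inl ⟨Or.inr (Or.inl hu), huP⟩)
      · exact absurd huP (h.dis (h.zsP u hu))
      · exact absurd huP (h.hys u (h.sub hu)).2.1
      · exact Or.inr (Or.inr (Or.inl hu))
      · exact Or.inr (Or.inl ⟨Or.inr (Or.inr (Or.inl hu)), huP⟩)
      · exact absurd huP (h.dis (h.hTA hu))
      · exact Or.inr (Or.inl ⟨Or.inr (Or.inr (Or.inr hu)), huP⟩)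
      · exact Or.inl hu
      · exact Or.inr (Or.inr (Or.inr hu))
    have h2 := card_le_card h1
    have h3 := card_union_le Z ((insert v (insert a (SA ∪ SD)) ∩ P₂) ∪ (hs.toFinset ∪ TD))
    have h4 := card_union_le (insert v (insert a (SA ∪ SD)) ∩ P₂) (hs.toFinset ∪ TD)
    have h5 := card_union_le hs.toFinset TD
    have h6 := hs.toFinset_card_le
    omega

/-- **The next state** -/
theorem SmD.nxt (h : SmD R YV X P₁ P₂ U₂ H Z TA TD SA SD E ys ys' zs hs v a z yl)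
    (hW : W = (v :: a :: (zs ++ (ys' ++ hs))).toFinset ∪ ((SA ∪ TA) ∪ (SD ∪ (Z ∪ TD))))
    {S Ez Y V₀ : Finset V} {Pn : V → Prop} {κ η s : ℝ} {lam' sig sig' K₁ w₁ C : ℕ} {l₁ l₂ qa : Fd × Fd}
    {pre post ts L' : List (Fd × Fd)} (hYV : YV = Y ∪ V₀) (hXl : X = (Y ∪ V₀) \ low R sig (Y ∪ V₀)) (hsig : sig ≤ sig')
    (hL' : L' ≠ []) (hPn : Pn v) (hlz : zs.length = pre.length) (hly : ys'.length = post.length + 1)
    (hlh : hs.length = ts.length)
    (hTA : EmbAllB (rv R) (hs.zip (ts.map Prod.fst)) TA) (hTD : EmbAllB R (hs.zip (ts.map Prod.snd)) TD)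
    (hSA : EmbAllB (rv R) ((v, l₁.1) :: (a, l₂.1) :: (zs.zip (pre.map Prod.fst) ++
      ys'.zip ((qa :: post).map Prod.fst))) SA)
    (hSD : EmbAllB R ((v, l₁.2) :: (a, l₂.2) :: zs.zip (pre.map Prod.snd)) SD)
    (hS : EmbAllB R (ys'.zip ((qa :: post).map Prod.snd)) (Z ∪ S)) (hSm : S ⊆ P₂ \ (W ∪ H ∪ Ez)) (hEz : Ez ⊆ P₂)
    (hst : ∀ (V' : Finset V) (sig : ℕ), Ez \ W ⊆ V' → Disjoint (P₂ \ (W ∪ Ez ∪ S)) V' →
      StM R (P₂ \ (W ∪ Ez ∪ S)) V' (R z) κ η s lam' sig K₁)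
    (hw : Ez.card + (P₁ \ (SA ∪ SD)).card + ys.length ≤ w₁)
    (hc : szS (l₁ :: l₂ :: (pre ++ ((qa :: post) ++ ts)) ++ L') + C = YV.card) :
    Nxt R κ η s lam' sig' K₁ w₁ (l₁ :: l₂ :: (pre ++ ((qa :: post) ++ ts)) ++ L') Pn YV L' C := by
  obtain ⟨hts, hhts⟩ : ∃ hts, hts = a :: (zs ++ (ys' ++ hs)) := ⟨_, rfl⟩
  have hhm : ∀ u, u ∈ v :: hts ↔ u = v ∨ u = a ∨ u ∈ zs ∨ u ∈ ys' ∨ u ∈ hs := by
    intro u
    rw [hhts]
    simp only [List.mem_cons, List.mem_append]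
  have hWm : ∀ u, u ∈ W ↔ u = v ∨ u = a ∨ u ∈ zs ∨ u ∈ ys' ∨ u ∈ hs ∨ u ∈ SA ∨ u ∈ TA ∨ u ∈ SD ∨ u ∈ Z ∨ u ∈ TD := by
    intro u
    rw [hW, ← hhts]
    simp only [mem_union, List.mem_toFinset, hhm, or_assoc]
  have hSP : ∀ u ∈ S, u ∈ P₂ := fun u hu => (mem_sdiff.1 (hSm hu)).1
  have hSW : ∀ u ∈ S, u ∉ W := fun u hu hc => (mem_sdiff.1 (hSm hu)).2 (mem_union_left _ (mem_union_left _ hc))
  have hSE : ∀ u ∈ S, u ∉ Ez := fun u hu hc => (mem_sdiff.1 (hSm hu)).2 (mem_union_right _ hc)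
  have hSW' : ∀ u ∈ S, u ≠ v ∧ u ≠ a ∧ u ∉ zs ∧ u ∉ ys' ∧ u ∉ hs ∧ u ∉ SA ∧ u ∉ TA ∧ u ∉ SD ∧ u ∉ Z ∧ u ∉ TD := by
    intro u hu
    have h1 := hSW u hu
    rw [hWm] at h1
    simpa only [not_or] using h1
  obtain ⟨At, hAt⟩ : ∃ At, At = SA ∪ TA := ⟨_, rfl⟩
  obtain ⟨Dt, hDt⟩ : ∃ Dt, Dt = SD ∪ ((Z ∪ S) ∪ TD) := ⟨_, rfl⟩
  obtain ⟨line, hline⟩ : ∃ line, line = l₁ :: l₂ :: (pre ++ ((qa :: post) ++ ts)) := ⟨_, rfl⟩
  obtain ⟨Us, hUs⟩ : ∃ Us, Us = (v :: hts).toFinset ∪ (At ∪ Dt) := ⟨_, rfl⟩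
  have hUsm : ∀ u, u ∈ Us ↔ u ∈ W ∨ u ∈ S := by
    intro u
    rw [hWm, hUs, mem_union, mem_union, List.mem_toFinset, hhm, hAt, hDt, mem_union, mem_union, mem_union, mem_union]
    constructor
    · rintro ((h | h | h | h | h) | (h | h) | h | (h | h) | h) <;> simp only [h, true_or, or_true]
    · rintro ((h | h | h | h | h | h | h | h | h | h) | h) <;> simp only [h, true_or, or_true]
  have hzipf : ∀ g : Fd × Fd → Fd, (v :: hts).zip (line.map g) = ((v, g l₁) :: (a, g l₂) :: zs.zip (pre.map g)) ++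
      (ys'.zip ((qa :: post).map g) ++ hs.zip (ts.map g)) := by
    intro g
    rw [hhts, hline, List.map_cons, List.map_cons, List.map_append, List.map_append, List.zip_cons_cons,
      List.zip_cons_cons, List.zip_append (by rw [hlz, List.length_map]), List.zip_append (by
        rw [hly, List.length_map, List.length_cons])]
    rfl
  have h3 : v :: hts = (v :: a :: (zs ++ ys')) ++ hs := by
    rw [hhts]
    simp
  obtain ⟨r, hr⟩ := h.hys'
  have hsplit : (v :: a :: (zs ++ ys)) = (v :: a :: (zs ++ ys')) ++ ys.drop r := by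
    rw [hr, List.cons_append, List.cons_append, List.append_assoc, List.take_append_drop]
  have hnod : (v :: hts).Nodup := by
    have h2 : (v :: a :: (zs ++ ys')).Nodup := by
      have := h.nod
      rw [hsplit, List.nodup_append] at this
      exact this.1
    rw [h3, List.nodup_append]
    refine ⟨h2, h.hsn, ?_⟩
    intro u hu u' hu' huu
    subst huu
    simp only [List.mem_cons, List.mem_append] at hu
    rcases hu with h4 | h4 | h4 | h4
    · exact (h.Em u (h.fr' (Or.inl h4)).2).2.1 hu'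
    · exact (h.Em u (h.fr' (Or.inr (Or.inl h4))).2).2.1 hu'
    · exact (h.Em u (h.fr' (Or.inr (Or.inr h4))).2).2.1 hu'
    · exact (h.hys u (h.sub h4)).2.1 (h.hsP u hu').1
  have hchn : (v :: hts).IsChain R := by
    have h2 : (v :: a :: (zs ++ ys')).IsChain R := by
      have := h.chn
      rw [hsplit] at this
      exact this.left_of_append
    have h8 := h.hsc
    rw [List.isChain_cons] at h8
    rw [h3, List.isChain_append]
    refine ⟨h2, h8.2, ?_⟩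
    intro x hx x' hx'
    have h4 : (v :: a :: (zs ++ ys')).getLast? = some yl := by
      rw [show v :: a :: (zs ++ ys') = (v :: a :: zs) ++ ys' by simp, List.getLast?_append, h.hyl]
      rfl
    rw [h4, Option.mem_def, Option.some.injEq] at hx
    rw [← hx]
    exact h8.1 x' hx'
  have hUX : U₂ ⊆ YV := h.hUX.trans h.hXY
  have hA : EmbAllB (rv R) ((v :: hts).zip (line.map Prod.fst)) At := by
    rw [hzipf Prod.fst, ← List.append_assoc]
    refine embAllB_append.2 ⟨SA, TA, ?_, hAt, ?_, hTA⟩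
    · rw [disjoint_left]
      intro u hu hu'
      exact (h.Em u (h.SAE u hu)).2.2.2.1 hu'
    · rw [List.cons_append, List.cons_append]
      exact hSA
  have hD : EmbAllB R ((v :: hts).zip (line.map Prod.snd)) Dt := by
    rw [hzipf Prod.snd]
    refine embAllB_append.2 ⟨SD, (Z ∪ S) ∪ TD, ?_, hDt, hSD, ?_⟩
    · rw [disjoint_left]
      intro u hu hu'
      rw [mem_union, mem_union] at hu'
      rcases hu' with (h' | h') | h'
      · exact (h.Em u (h.SDE u hu)).2.2.2.2.2 h'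
      · exact (hSW' u h').2.2.2.2.2.2.2.1 hu
      · exact (h.Em u (h.SDE u hu)).2.2.2.2.1 h'
    · refine embAllB_append.2 ⟨Z ∪ S, TD, ?_, rfl, hS, hTD⟩
      rw [disjoint_left]
      intro u hu hu'
      rcases mem_union.1 hu with h' | h'
      · exact (h.Zm u h').2.2.2.2 hu'
      · exact (hSW' u h').2.2.2.2.2.2.2.2.2 hu'
  have hAD : Disjoint At Dt := by
    rw [disjoint_left]
    intro u hu hu'
    rw [hAt, mem_union] at hu
    rw [hDt, mem_union, mem_union, mem_union] at hu'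
    rcases hu with h1 | h1 <;> rcases hu' with h' | (h' | h') | h'
    · exact disjoint_left.1 h.SAD h1 h'
    · exact (h.Em u (h.SAE u h1)).2.2.2.2.2 h'
    · exact (hSW' u h').2.2.2.2.2.1 h1
    · exact (h.Em u (h.SAE u h1)).2.2.2.2.1 h'
    · exact (h.Em u (h.SDE u h')).2.2.2.1 h1
    · exact (h.Zm u h').2.2.2.1 h1
    · exact (hSW' u h').2.2.2.2.2.2.1 h1
    · exact disjoint_left.1 h.TAD h1 h'
  have hhosts : ∀ u ∈ v :: hts, u ∈ YV ∧ u ∉ At ∧ u ∉ Dt := by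
    have key : ∀ u, u = v ∨ u = a ∨ u ∈ zs → u ∉ S → u ∈ YV ∧ u ∉ At ∧ u ∉ Dt := by
      intro u hu huS
      have h1 := h.Em u (h.fr' hu).2
      have h2 := h.hsS u (by
        rw [List.mem_cons, List.mem_cons, List.mem_append]
        rcases hu with hu | hu | hu
        · exact Or.inl hu
        · exact Or.inr (Or.inl hu)
        · exact Or.inr (Or.inr (Or.inl hu)))
      rw [hAt, hDt, mem_union, mem_union, mem_union, mem_union, not_or, not_or, not_or, not_or]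
      exact ⟨(h.fr' hu).1, ⟨h2.1, h1.2.2.2.1⟩, h2.2, ⟨h1.2.2.2.2.2, huS⟩, h1.2.2.2.2.1⟩
    intro u hu
    rw [hhm] at hu
    rcases hu with hu | hu | hu | hu | hu
    · exact key u (Or.inl hu) (fun hc => (hSW' u hc).1 hu)
    · exact key u (Or.inr (Or.inl hu)) (fun hc => (hSW' u hc).2.1 hu)
    · exact key u (Or.inr (Or.inr hu)) (fun hc => (hSW' u hc).2.2.1 hu)
    · have h1 := h.sub hu
      have h2 := h.hsS u (by
        rw [List.mem_cons, List.mem_cons, List.mem_append]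
        exact Or.inr (Or.inr (Or.inr h1)))
      rw [hAt, hDt, mem_union, mem_union, mem_union, mem_union, not_or, not_or, not_or, not_or]
      exact ⟨h.hXY (h.hys u h1).1, ⟨h2.1, fun hc => h.TAy u hc h1⟩, h2.2,
        ⟨fun hc => (h.Zm u hc).1 h1, fun hc => (hSW' u hc).2.2.2.1 hu⟩, fun hc => h.TDy u hc h1⟩
    · have h1 := h.hsE u hu
      rw [hAt, hDt, mem_union, mem_union, mem_union, mem_union, not_or, not_or, not_or, not_or]
      exact ⟨hUX (h.hPU (h.hsP u hu).1), ⟨fun hc => h.SAE u hc h1, (h.hsT u hu).1⟩, fun hc => h.SDE u hc h1,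
        ⟨fun hc => (h.Zm u hc).2.1 hu, fun hc => (hSW' u hc).2.2.2.2.1 hu⟩, (h.hsT u hu).2⟩
  obtain ⟨hUsc, hUsX, hInS⟩ := embS_glue (R := R) (X := YV) (Pn := Pn) (v := v) (z := z) (hs := hts) (line := line)
    (At := At) (Dt := Dt) (by
      rw [hhts, hline]
      simp only [List.length_cons, List.length_append]
      omega) hnod hchn hA hD hAD hhosts (by
      rw [hAt]
      exact union_subset h.SAX ((h.hTA.trans h.hPX).trans h.hXY)) (by
      rw [hDt]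
      refine union_subset h.SDX (union_subset (union_subset (h.hZ.trans hUX) ?_) (h.hTD.trans hUX))
      intro u hu
      exact hUX (h.hPU (hSP u hu))) (by
      rw [h3, List.getLast?_append, h.hsz]
      rfl) hPn hUs
  obtain ⟨Y', hY'⟩ : ∃ Y', Y' = P₂ \ (W ∪ Ez ∪ S) := ⟨_, rfl⟩
  obtain ⟨V', hV'⟩ : ∃ V', V' = (YV \ Us) \ Y' := ⟨_, rfl⟩
  rw [← hline] at hc ⊢
  have hY'm : ∀ u, u ∈ Y' ↔ u ∈ P₂ ∧ u ∉ W ∧ u ∉ Ez ∧ u ∉ S := by
    intro u
    rw [hY', mem_sdiff, mem_union, mem_union, not_or, not_or, and_assoc]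
  have hYV' : Y' ∪ V' = YV \ Us := by
    rw [hV']
    apply union_sdiff_of_subset
    intro u hu
    rw [hY'm] at hu
    rw [mem_sdiff, hUsm, not_or]
    exact ⟨hUX (h.hPU hu.1), hu.2.1, hu.2.2.2⟩
  refine ⟨hL', Y', V', z, ?_, ?_, ?_, ?_, ?_⟩
  · have h1 := hst V' sig' (by
      intro u hu
      rw [mem_sdiff] at hu
      rw [hV', mem_sdiff, mem_sdiff, hUsm, hY'm, not_or]
      exact ⟨⟨hUX (h.hPU (hEz hu.1)), hu.2, fun hc => hSE u hc hu.1⟩, fun hc => hc.2.2.1 hu.1⟩) (by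
      rw [← hY', hV']
      exact disjoint_sdiff)
    rw [← hY'] at h1
    exact h1
  · have h1 : V' \ low R sig' (Y' ∪ V') ⊆ Ez ∪ (P₁ \ (SA ∪ SD)) ∪ ys.toFinset := by
      intro u hu
      rw [mem_sdiff] at hu
      obtain ⟨hu, hul⟩ := hu
      rw [mem_union, mem_union, mem_sdiff, mem_union, List.mem_toFinset]
      have huV := hu
      rw [hV', mem_sdiff, mem_sdiff, hUsm, hY'm, not_or] at hu
      obtain ⟨⟨huX, huW, huS⟩, huY⟩ := hu
      by_cases h1 : u ∈ low R sig (Y ∪ V₀)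
      · exfalso
        apply hul
        rw [mem_low] at h1 ⊢
        refine ⟨mem_union_right _ huV, lt_of_le_of_lt ?_ (lt_of_lt_of_le h1.2 hsig)⟩
        apply card_le_card
        apply nI_mono
        rw [hYV', ← hYV]
        exact sdiff_subset
      · have h2 : u ∈ X := by
          rw [hXl, mem_sdiff, ← hYV]
          exact ⟨huX, by rw [hYV]; exact h1⟩
        by_cases h3 : u ∈ ys
        · exact Or.inr h3
        · by_cases h4 : u ∈ P₂
          · left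
            left
            by_contra h5
            exact huY ⟨h4, huW, h5, huS⟩
          · left
            right
            refine ⟨(h.part u).2 ⟨h2, h4, h3⟩, ?_⟩
            rw [hWm] at huW
            simp only [not_or] at huW
            rintro (h5 | h5)
            · exact huW.2.2.2.2.2.1 h5
            · exact huW.2.2.2.2.2.2.2.1 h5
    have h2 := (card_le_card h1).trans (card_union_le _ _)
    have h3 := card_union_le Ez (P₁ \ (SA ∪ SD))
    have h4 := ys.toFinset_card_le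
    omega
  · rw [hYV']
    have h1 := card_sdiff_add_card_eq_card hUsX
    rw [szS_append] at hc
    omega
  · rw [hYV']
    exact sdiff_subset
  · intro h
    rw [hYV'] at h
    exact hInS L' h

end AEG
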