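import Pool.Agent.AEG.TailD
import Pool.Agent.AEG.ClSmA
import Pool.Agent.AEG.MidD
import Pool.Agent.AEG.P2Part2
import Pool.Agent.AEG.SplitM

/-!
# The cluster round with a small second part
-/

set_option autoImplicit false

namespace AEG

open Finset AE15 AED AEB SPD
open scoped Classical

/-- the number of vertices of the first part of the cut -/
theorem CutD.card_part {V : Type*} {R : V → V → Prop} {X : Finset V} {cap N p q : ℕ} {κ₀ η₀ : ℝ} {G : Finset V}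
    {ys : List V} {y : V} {P₁ P₂ U₂ Rsv Gc Ex Bad : Finset V}
    (h : CutD R X cap N p q κ₀ η₀ G ys y P₁ P₂ U₂ Rsv Gc Ex Bad) : P₁.card + (p + N) = X.card := by
  have h1 : P₁ = X \ (P₂ ∪ ys.toFinset) := by
    ext u
    rw [h.gcd.part, mem_sdiff, mem_union, List.mem_toFinset, not_or]
  have h2 : P₂ ∪ ys.toFinset ⊆ X := by
    refine union_subset (h.gcd.hP₂.trans (h.gcd.hU₂.trans h.gcd.hGX)) ?_
    intro u hu
    exact h.gcd.hGX (h.gcd.hys u (List.mem_toFinset.1 hu)).1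
  have h3 : (P₂ ∪ ys.toFinset).card = p + N := by
    rw [card_union_of_disjoint, List.toFinset_card_of_nodup h.gcd.nodup, h.gcd.len, h.gcd.card₂]
    rw [disjoint_right]
    intro u hu
    exact (h.gcd.hys u (List.mem_toFinset.1 hu)).2.2.2.1
  have h4 := card_sdiff_add_card_eq_card h2
  rw [← h1, h3] at h4
  exact h4

/-- **Cluster round, second part small** -/
theorem clSm_core (p : NP) (hp : p.OK) (hab : ab p.b p.l ≤ p.a) {D₁ : ℕ} (hD₁ : p.A ≤ D₁)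
    {ω' c' η' η₁' κ₀' κ₁' κ' γ₀' τ' s' σ₂' μ' : ℝ} (P' : KB D₁ ω' c' η' η₁' κ₀' κ₁' κ' γ₀' τ' s' σ₂' μ') {δ : ℝ}
    (hδ : 2 * ω' ≤ δ) (N B : ℕ) (hN : 1 ≤ N) :
    ∃ ζ : ℝ, 0 < ζ ∧ ∀ {D₀ : ℕ}, D₁ ≤ D₀ → ∀ {ω c η η₁ κ₀ κ₁ κ γ₀ τ s σ₂ μ : ℝ},
      KB D₀ ω c η η₁ κ₀ κ₁ κ γ₀ τ s σ₂ μ → ∃ K₁ : ℕ, ∀ lam' : ℕ, ∃ w₁ : ℕ, ∀ K w sig : ℕ, ∃ C₀ : ℕ, ∀ C, C₀ ≤ C →
      ∀ {T : Type} {R : T → T → Prop} {l₁ l₂ qa t₁ t₂ : Fd × Fd} {pre post rest : List (Fd × Fd)} {Pn : T → Prop}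
      {Y V : Finset T} {lam : ℕ},
      Inp p.b p.l R κ η s lam sig K w C (l₁ :: l₂ :: (pre ++ qa :: (post ++ t₁ :: t₂ :: rest))) Pn Y V →
      smB B l₁ → smB B l₂ → smB B t₁ → smB B t₂ → (pre ++ qa :: post).length ≤ N → rest ≠ [] →
      (∀ t ∈ pre ++ post, t.1.size ≤ qa.1.size) →
      ((outS (pre ++ qa :: post) + szS rest + C : ℕ) : ℝ) ≤ ζ * (Y ∪ V).card →
      δ * (outS (qa :: post) + szS rest + C : ℕ) ≤ (szS rest + C : ℕ) →
      ∀ sig', sig ≤ sig' →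
        Nxt R κ η s lam' sig' K₁ w₁ (l₁ :: l₂ :: (pre ++ qa :: (post ++ t₁ :: t₂ :: rest))) Pn (Y ∪ V) (t₂ :: rest) C ∨
        Nxt R κ η s lam' sig' K₁ w₁ (l₁ :: l₂ :: (pre ++ qa :: (post ++ t₁ :: t₂ :: rest))) Pn (Y ∪ V) rest C := by
  obtain ⟨gω0, gω1, gc0, gc1, gη0, gη1, gη₁0, gη₁1, gκ₀0, gκ₁0, gκ₁1, gκ0, gκ1, gs0, gγ₀0, gτ0, gσ₂0, gμ0, gκ₁η, gκs⟩ :=
    P'.num
  -- the constants of the cut
  obtain ⟨c₀, ηR, hηR, hηR1, hmid⟩ := midD p.b p.l N B hp.hb hN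
  obtain ⟨ηc, hηc⟩ : ∃ ηc : ℝ, ηc = min (ηR / 2) (η' / 8) := ⟨_, rfl⟩
  have hηc0 : 0 < ηc := by rw [hηc]; positivity
  have hηc1 : ηc ≤ ηR / 2 := by rw [hηc]; exact min_le_left _ _
  have hηc2 : ηc ≤ η' / 8 := by rw [hηc]; exact min_le_right _ _
  obtain ⟨κc, hκc⟩ : ∃ κc : ℝ, κc = ηc / 25 := ⟨_, rfl⟩
  have hκc0 : 0 < κc := by rw [hκc]; positivity
  have hκc1 : 25 * κc ≤ ηc := by rw [hκc]; linarith
  obtain ⟨σ, κm, hσ, hσ1, hκm, hκm1, hmid⟩ := hmid κc ηc hκc0 hκc1 (by linarith)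
  obtain ⟨κU, hκU⟩ : ∃ κU : ℝ, κU = min (κ' / 4) (κc ^ 2 / 8) := ⟨_, rfl⟩
  have hU0 : 0 < κU := by rw [hκU]; positivity
  have hU1 : κU ≤ κ' / 4 := by rw [hκU]; exact min_le_left _ _
  have hU2 : κU ≤ κc ^ 2 / 8 := by rw [hκU]; exact min_le_right _ _
  obtain ⟨ζ, hζ⟩ : ∃ ζ : ℝ, ζ = min (κm / 4) (min (σ / 2) (κc / 32)) := ⟨_, rfl⟩
  have hζ0 : 0 < ζ := by rw [hζ]; positivity
  have hζ1 : ζ ≤ κm / 4 := by rw [hζ]; exact min_le_left _ _
  have hζ2 : ζ ≤ σ / 2 := by rw [hζ]; exact (min_le_right _ _).trans (min_le_left _ _)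
  have hζ3 : ζ ≤ κc / 32 := by rw [hζ]; exact (min_le_right _ _).trans (min_le_right _ _)
  refine ⟨ζ, hζ0, ?_⟩
  intro D₀ hDD ω c η η₁ κ₀ κ₁ κ γ₀ τ s σ₂ μ P
  obtain ⟨hω0, hω1, hc0, hc1, hη0, hη1, hη₁0, hη₁1, hκ₀0, hκ₁0, hκ₁1, hκ0, hκ1, hs0, hγ₀0, hτ0, hσ₂0, hμ0, hκ₁η, hκs⟩ :=
    P.num
  have hcη : c * η ≤ 1 * η := mul_le_mul_of_nonneg_right (by linarith) hη0.le
  have hκη : κ ≤ 1 - η := by linarith
  obtain ⟨w₀, hP2⟩ := p2_part2 p hp hab hD₁ P' hDD P hU0 (by linarith) N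
  obtain ⟨h₀, K₁, hP2⟩ := hP2 (2 * c₀ * c₀ + 2 * B + 2 + (2 + 2 * B))
  refine ⟨K₁, fun lam' => ?_⟩
  obtain ⟨c₂, -, hP2⟩ := hP2 lam'
  obtain ⟨f, hf⟩ : ∃ f : ℕ, f = 4 * N + 2 + h₀ + 2 * B := ⟨_, rfl⟩
  obtain ⟨C₃, hP2⟩ := hP2 f
  obtain ⟨C₁, hmid⟩ := hmid (f + w₀)
  obtain ⟨C₁', hC₁'⟩ : ∃ x : ℕ, x = C₁ + (4 + 4 * B) := ⟨_, rfl⟩
  refine ⟨4 * N + 2 * c₂ + (C₁' + 2 * c₀ * c₀) + N, fun K w sig => ?_⟩
  obtain ⟨Cm, hmid⟩ := hmid K w κ hκ0
  obtain ⟨ct, hct⟩ : ∃ x : ℕ, x = h₀ + N + 2 + 3 * B + 2 ^ B := ⟨_, rfl⟩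
  obtain ⟨cap, hcap⟩ : ∃ x : ℕ, x = 2 * c₀ + N + (f + w₀ + N + 2 + 2 * B) := ⟨_, rfl⟩
  obtain ⟨n₃, h3⟩ := exists_big [((2 * (sig : ℝ) + N + C₁' + C₃), ω'), ((ct : ℝ), κc ^ 2 / 8), ((ct : ℝ), γ₀ / 4),
      ((8 + 4 * (N : ℝ)), κc), ((ct : ℝ), κc), ((ct : ℝ), 1 - η'), ((cap : ℝ), κc)] (by
    intro q hq
    simp only [List.mem_cons, List.not_mem_nil, or_false] at hq
    rcases hq with rfl | rfl | rfl | rfl | rfl | rfl | rfl
    · exact gω0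
    · show 0 < κc ^ 2 / 8
      positivity
    · show 0 < γ₀ / 4
      positivity
    · exact hκc0
    · exact hκc0
    · show 0 < 1 - η'
      linarith
    · exact hκc0)
  refine ⟨n₃ + C₃ + cap + Cm + 4 * sig + N + C₁', fun C hC => ?_⟩
  intro T R l₁ l₂ qa t₁ t₂ pre post rest Pn Y V lam hI e1 e2 e3 e4 hlen hre hmax hζ' hδ' sig' hsig'
  have hT := hI.tour
  obtain ⟨gr, hgr⟩ : ∃ gr, gr = pre ++ qa :: post := ⟨_, rfl⟩
  have hLgr : l₁ :: l₂ :: (pre ++ qa :: (post ++ t₁ :: t₂ :: rest)) = l₁ :: l₂ :: (gr ++ t₁ :: t₂ :: rest) := by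
    rw [hgr]
    simp
  rw [hLgr] at hI ⊢
  rw [← hgr] at hlen hζ'
  have hcl : ∀ q, q ∈ l₁ :: l₂ :: (gr ++ t₁ :: t₂ :: rest) → BrOk p.b p.l q := fun q hq => hI.cl q hq
  have hgl : pre.length + post.length + 1 = gr.length := by
    rw [hgr, List.length_append, List.length_cons]
    omega
  have hoS : outS gr = outS pre + outS (qa :: post) := by rw [hgr, outS_append]
  -- the universe of the cut
  obtain ⟨X, hX⟩ : ∃ X, X = (Y ∪ V) \ low R sig (Y ∪ V) := ⟨_, rfl⟩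
  have hXYV : X ⊆ Y ∪ V := by rw [hX]; exact sdiff_subset
  have hn1 : (Y ∪ V).card ≤ X.card + 2 * sig := by
    have h1 := le_card_sdiff (low R sig (Y ∪ V)) (Y ∪ V)
    have h2 := card_low_in hT sig (Y ∪ V)
    rw [← hX] at h1
    omega
  have hn2 : X.card ≤ (Y ∪ V).card := card_le_card hXYV
  have hcard := hI.card
  have hszL : szS (l₁ :: l₂ :: (gr ++ t₁ :: t₂ :: rest)) = (l₁.1.size + l₁.2.size + 1) + (l₂.1.size + l₂.2.size + 1) +
      (inS gr + outS gr + gr.length) + ((t₁.1.size + t₁.2.size + 1) + (t₂.1.size + t₂.2.size + 1) + szS rest) := by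
    rw [szS_cons, szS_cons, szS_append, szS_cons, szS_cons, szS_eq gr]
    omega
  have e1' : l₁.1.size + l₁.2.size ≤ B := e1
  have e2' : l₂.1.size + l₂.2.size ≤ B := e2
  have e3' : t₁.1.size + t₁.2.size ≤ B := e3
  have e4' : t₂.1.size + t₂.2.size ≤ B := e4
  obtain ⟨m₁, hm₁⟩ : ∃ m : ℕ, m = inS gr + outS pre + C₁' := ⟨_, rfl⟩
  obtain ⟨p₂, hp₂⟩ : ∃ m : ℕ, m = X.card - N - m₁ := ⟨_, rfl⟩
  have hpX : p₂ + N + m₁ = X.card := by omega
  have hplow : outS (qa :: post) + szS rest + C ≤ p₂ + 2 * sig + N + C₁' := by omega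
  have hpup : p₂ ≤ outS (qa :: post) + szS rest + C := by omega
  have hpbig : n₃ + C₃ + cap + Cm + 2 * sig ≤ p₂ := by omega
  have hbig := h3 p₂ (by omega)
  have b1 : 2 * (sig : ℝ) + N + C₁' + C₃ ≤ ω' * p₂ := hbig (_, ω') (by simp)
  have b2 : (ct : ℝ) ≤ κc ^ 2 / 8 * p₂ := hbig ((ct : ℝ), κc ^ 2 / 8) (by simp)
  have b3 : (ct : ℝ) ≤ γ₀ / 4 * p₂ := hbig ((ct : ℝ), γ₀ / 4) (by simp)
  have b4 : 8 + 4 * (N : ℝ) ≤ κc * p₂ := hbig ((8 + 4 * (N : ℝ)), κc) (by simp)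
  have b5 : (ct : ℝ) ≤ κc * p₂ := hbig ((ct : ℝ), κc) (by simp)
  have b6 : (ct : ℝ) ≤ (1 - η') * p₂ := hbig ((ct : ℝ), 1 - η') (by simp)
  have b7 : (cap : ℝ) ≤ κc * p₂ := hbig ((cap : ℝ), κc) (by simp)
  obtain ⟨n, hn⟩ : ∃ n : ℝ, n = (X.card : ℝ) := ⟨_, rfl⟩
  have hpn : (p₂ : ℝ) ≤ n := by
    rw [hn]
    exact_mod_cast (by omega : p₂ ≤ X.card)
  have hn0 : 0 ≤ n := by rw [hn]; exact Nat.cast_nonneg _
  have hYV2 : ((Y ∪ V).card : ℝ) ≤ 2 * n := by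
    rw [hn]
    exact_mod_cast (by omega : (Y ∪ V).card ≤ 2 * X.card)
  have hsm : ((outS gr + szS rest + C : ℕ) : ℝ) ≤ 2 * ζ * n := by
    have := mul_le_mul_of_nonneg_left hYV2 hζ0.le
    linarith
  have hp2n : (p₂ : ℝ) ≤ 2 * ζ * n := by
    refine le_trans ?_ hsm
    exact_mod_cast (by omega : p₂ ≤ outS gr + szS rest + C)
  have hκn : κc / 32 * n ≤ κc * n := mul_le_mul_of_nonneg_right (by linarith) hn0
  have hζn1 : ζ * n ≤ κm / 4 * n := mul_le_mul_of_nonneg_right hζ1 hn0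
  have hζn2 : ζ * n ≤ σ / 2 * n := mul_le_mul_of_nonneg_right hζ2 hn0
  have hζn3 : ζ * n ≤ κc / 32 * n := mul_le_mul_of_nonneg_right hζ3 hn0
  -- the cut
  obtain ⟨G, ys, y, P₁, P₂, U₂, Rsv, Gc, Ex, Bad, hcut⟩ := exists_cutD hT (X := X) (cap := cap) (N := N) (p := p₂)
    hκc0 hκc1 (by linarith) hN (by push_cast; linarith) b7 (by
      rw [← hn]
      push_cast
      linarith)
  have hg := hcut.gcd
  have hP₁c : P₁.card = m₁ := by
    have := hcut.card_part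
    omega
  have hP₂c : P₂.card = p₂ := hg.card₂
  have hU₂c : U₂.card ≤ 4 * p₂ := by
    have := hg.hU₂c
    omega
  have hPU : P₂ ⊆ U₂ := hg.hP₂
  have hU₂X : U₂ ⊆ X := hg.hU₂.trans hg.hGX
  have hP₁X : P₁ ⊆ X := fun u hu => ((hg.part u).1 hu).1
  have hP₂X : P₂ ⊆ X := hPU.trans hU₂X
  have hU₂r : (U₂.card : ℝ) ≤ 4 * p₂ := by exact_mod_cast hU₂c
  have hPUr : (p₂ : ℝ) ≤ U₂.card := by
    rw [← hP₂c]
    exact_mod_cast card_le_card hPU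
  have hp₂0 : (0 : ℝ) ≤ p₂ := Nat.cast_nonneg _
  -- the hosts of the group
  obtain ⟨ys', hys'⟩ : ∃ l, l = ys.take (post.length + 1) := ⟨_, rfl⟩
  have hys'l : ys'.length = post.length + 1 := by
    rw [hys', List.length_take, hg.len]
    omega
  have hys'm : ∀ u ∈ ys', u ∈ ys := by
    intro u hu
    rw [hys'] at hu
    exact List.mem_of_mem_take hu
  have hys'ne : ys' ≠ [] := by
    intro h
    rw [h, List.length_nil] at hys'l
    omega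
  obtain ⟨yl, hyl⟩ : ∃ yl, ys'.getLast? = some yl := ⟨_, List.getLast?_eq_some_getLast hys'ne⟩
  have hyly : yl ∈ ys := hys'm yl (List.mem_of_getLast? hyl)
  have hMS := hg.out yl hyly
  obtain ⟨k, hk⟩ : ∃ k : ℝ, k = κc ^ 2 / 8 * U₂.card := ⟨_, rfl⟩
  obtain ⟨t, ht⟩ : ∃ t : ℝ, t = 2 * ηc * U₂.card := ⟨_, rfl⟩
  have htη : t ≤ η' * P₂.card := by
    rw [ht, hP₂c]
    have h1 : 2 * ηc * (U₂.card : ℝ) ≤ 2 * ηc * (4 * p₂) := mul_le_mul_of_nonneg_left hU₂r (by linarith)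
    have h2 : ηc * (p₂ : ℝ) ≤ η' / 8 * p₂ := mul_le_mul_of_nonneg_right hηc2 hp₂0
    linarith
  rw [← hk, ← ht] at hMS
  obtain ⟨Bz, hBz⟩ : ∃ Bz, Bz = P₂.filter (fun u => R u yl ∧
      (P₂.filter (fun w => R yl w ∧ R w u ∧ Rea R U₂ P₂ k t w)).card ≤ 0) := ⟨_, rfl⟩
  have hBzc : Bz.card ≤ 4 * N := by
    have h1 := hMS.cnt 0 (by
      rw [Nat.cast_zero]
      have : (0 : ℝ) ≤ P₂.card := Nat.cast_nonneg _
      positivity)
    rw [← hBz] at h1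
    omega
  obtain ⟨Ez, hEz⟩ : ∃ Ez, Ez = Bz ∪ low R c₂ P₂ := ⟨_, rfl⟩
  have hEzP : Ez ⊆ P₂ := by
    rw [hEz, hBz]
    refine union_subset (filter_subset _ _) ?_
    intro u hu
    exact (mem_low.1 hu).1
  have hEzc : Ez.card ≤ 4 * N + 2 * c₂ := by
    rw [hEz]
    exact (card_union_le _ _).trans (Nat.add_le_add hBzc (card_low_in hT c₂ P₂))
  obtain ⟨z, hzP, hzE, hzO, H, hHP, hHc, hHE, hzH, hP2⟩ := hP2 hT (U := U₂) (Y := P₂) (Bz := Bz) (Ex := Ez) (by omega) hPU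
    (by
      rw [hP₂c]
      have h1 : κU * (U₂.card : ℝ) ≤ κU * (4 * p₂) := mul_le_mul_of_nonneg_left hU₂r hU0.le
      have h2 : κU * (p₂ : ℝ) ≤ κ' / 4 * p₂ := mul_le_mul_of_nonneg_right hU1 hp₂0
      linarith) (by omega) hEz
  have hzyl : z ≠ yl := by
    rintro rfl
    exact (hg.hys z hyly).2.2.2.1 hzP
  have hreaU : ∀ w, Rea R U₂ P₂ k t w → ct ≤ (nO R U₂ w).card := by
    intro w hw
    have h1 := Rea.many hw
    have h2 : (ct : ℝ) ≤ min k ((P₂.card : ℝ) - t) := by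
      refine le_min ?_ ?_
      · rw [hk]
        refine b2.trans (mul_le_mul_of_nonneg_left hPUr (by positivity))
      · rw [hP₂c] at htη ⊢
        linarith
    exact_mod_cast h2.trans h1
  have hcovz : R yl z ∨ ∃ w ∈ P₂, R yl w ∧ R w z ∧ ct ≤ (nO R U₂ w).card := by
    rcases hT.tot yl z hzyl.symm with h | h
    · exact Or.inl h
    · right
      have h1 : z ∉ Bz := by
        intro hc
        apply hzE
        rw [hEz]
        exact mem_union_left _ hc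
      rw [hBz, mem_filter] at h1
      have h2 : 0 < (P₂.filter (fun w => R yl w ∧ R w z ∧ Rea R U₂ P₂ k t w)).card := by
        by_contra hc
        exact h1 ⟨hzP, h, by omega⟩
      obtain ⟨w, hw⟩ := card_pos.1 h2
      rw [mem_filter] at hw
      exact ⟨w, hw.1, hw.2.1, hw.2.2.1, hreaU w hw.2.2.2⟩
  have hinP : ∀ w ∈ P₂, (∅ : Finset T).card + ct ≤ (nI R P₁ w).card := by
    intro w hw
    have h1 := hcut.lin w (hg.hU₂ (hPU hw))
    have h2 : ((P₁.filter (fun v => R v w ∧ Good (rv R) (κc ^ 2 / 4) ηc X v)).card : ℝ) ≤ (nI R P₁ w).card := by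
      apply Nat.cast_le.2
      apply card_le_card
      intro v hv
      rw [mem_filter] at hv
      exact mem_nI.2 ⟨hv.1, hv.2.1⟩
    have h4 : κc * (p₂ : ℝ) ≤ κc * n := mul_le_mul_of_nonneg_left hpn hκc0.le
    have h5 : (ct : ℝ) ≤ (nI R P₁ w).card := by
      rw [← hn] at h1
      linarith
    rw [card_empty, Nat.zero_add]
    exact_mod_cast h5
  have hysT : ys.toFinset.card ≤ N := by
    have := ys.toFinset_card_le
    rw [hg.len] at this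
    exact this
  have hok : ∀ q ∈ gr, BrOk p.b p.l q := fun q hq => hcl q (by simp [hq])
  have hk1 := hcl l₁ (by simp)
  have hk2 := hcl l₂ (by simp)
  have hk3 := hcl t₁ (by simp)
  have hk4 := hcl t₂ (by simp)
  have hokqa := hok qa (by rw [hgr]; simp)
  obtain ⟨hs, ts, L', TA, TD, c1, c2, c3, c4, c5, c6, c7, c8, c9, c10, c11, c12, c13, c14, c15, c16, c17, c18, c19, c20⟩ :=
    tailD hT (P₁ := P₁) (P₂ := P₂) (U₂ := U₂) (Rsv := ∅) (H := H) (Q := ys.toFinset) (yl := yl) (z := z) (B := B)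
      (c := ct) (h₀ := h₀) (r := N) (t₁ := t₁) (t₂ := t₂) (rest := rest) hPU hg.disj hzP hzH hHc hysT hcovz
      (by omega) (by
        have h1 : (ct : ℝ) ≤ (nO R P₂ z).card := by
          rw [hP₂c] at hzO
          linarith
        exact_mod_cast h1) hinP hk3.2.2.1 hk3.2.2.2 e3' hk4.2.2.1 hk4.2.2.2 e4' hre
  have hhsT : hs.toFinset.card ≤ 2 := hs.toFinset_card_le.trans c5
  -- the tops of the out-forests of the group
  obtain ⟨F₀, hF₀⟩ : ∃ F₀, F₀ = ys.toFinset ∪ (hs.toFinset ∪ (H ∪ (TA ∪ TD))) := ⟨_, rfl⟩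
  have hF₀c : F₀.card ≤ f := by
    have h1 := card_union_le ys.toFinset (hs.toFinset ∪ (H ∪ (TA ∪ TD)))
    have h2 := card_union_le hs.toFinset (H ∪ (TA ∪ TD))
    have h3 := card_union_le H (TA ∪ TD)
    have h4 := card_union_le TA TD
    rw [hF₀]
    omega
  obtain ⟨os, hos⟩ : ∃ os, os = ys'.zip ((qa :: post).map Prod.snd) := ⟨_, rfl⟩
  have hosm : ∀ q ∈ os, q.1 ∈ ys' ∧ ∃ r ∈ qa :: post, q.2 = r.2 := by
    intro q hq
    rw [hos] at hq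
    exact mem_zip_map hq
  obtain ⟨Z, Lp, hPEs, hZU, hZF, hZc, hP2⟩ := hP2 os F₀ (by
      rw [hos, List.length_zip, List.length_map, List.length_cons, hys'l]
      omega) (by
      intro q hq
      obtain ⟨h1, r, h2, h3⟩ := hosm q hq
      have h4 := hys'm _ h1
      have h5 : BrOk p.b p.l r := hok r (by rw [hgr]; exact List.mem_append_right _ h2)
      rw [h3]
      refine ⟨(hg.hys _ h4).2.1, ?_, h5.2.1, h5.2.2.2⟩
      have h6 := (hg.out _ h4).reach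
      rw [← hk, ← ht] at h6
      exact rea_gdU h6 (by
        rw [hk]
        exact mul_le_mul_of_nonneg_right hU2 (Nat.cast_nonneg _)) (Subset.refl _) htη) hF₀c
  -- the middle part
  obtain ⟨E, hE⟩ : ∃ E, E = F₀ ∪ Z := ⟨_, rfl⟩
  have hEc : E.card ≤ f + w₀ := by
    rw [hE]
    exact (card_union_le _ _).trans (Nat.add_le_add hF₀c hZc)
  obtain ⟨v, a, zs, SA, SD, d1, d2, d3, d4, d5, d6, d7, d8, d9, d10, d11, d12, d13, d14, d15, d16, d17, d18⟩ :=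
    hmid hT hI.st hκη hI.low hX (by omega) (by rw [← hcap]; exact hcut) (by
      rw [← hn]
      push_cast
      linarith) E hEc l₁ l₂ qa pre post hk1.2.2.1 hk1.2.2.2 e1' hk2.2.2.1 hk2.2.2.2 e2' (by omega) hokqa.1
      hokqa.2.2.1 (by
      intro r hr
      have h1 : BrOk p.b p.l r := hok r (by
        rw [hgr]
        rcases List.mem_append.1 hr with h | h
        · exact List.mem_append_left _ h
        · exact List.mem_append_right _ (List.mem_cons_of_mem _ h))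
      exact ⟨h1.1, h1.2.2.1, hmax r hr⟩) (by
      intro r hr
      exact (hok r (by rw [hgr]; exact List.mem_append_left _ hr)).2.2.2) (by
      have h1 : (((pre.map (fun t => t.2.size)).sum : ℕ) : ℝ) ≤ ((outS gr + szS rest + C : ℕ) : ℝ) := by
        apply Nat.cast_le.2
        have : (pre.map (fun t => t.2.size)).sum = outS pre := rfl
        omega
      rw [← hn]
      linarith) (by
      have h1 : ((pre ++ qa :: post).map (fun t => t.1.size)).sum = inS gr := by rw [hgr]; rfl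
      have h2 : (pre.map (fun t => t.2.size)).sum = outS pre := rfl
      rw [h1, h2, hP₁c, hm₁]
      omega)
  have hzipA : ys.zip ((qa :: post).map Prod.fst) = ys'.zip ((qa :: post).map Prod.fst) := by
    rw [zip_take_left ys, List.length_map, List.length_cons, ← hys']
  rw [hzipA] at d9
  -- the sets
  have hEm : ∀ u, u ∉ E → u ∉ ys ∧ u ∉ hs ∧ u ∉ H ∧ u ∉ TA ∧ u ∉ TD ∧ u ∉ Z := by
    intro u hu
    rw [hE, mem_union, hF₀, mem_union, mem_union, mem_union, mem_union, List.mem_toFinset, List.mem_toFinset] at hu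
    simp only [not_or] at hu
    exact ⟨hu.1.1, hu.1.2.1, hu.1.2.2.1, hu.1.2.2.2.1, hu.1.2.2.2.2, hu.2⟩
  have hFm : ∀ u ∈ Z, u ∉ ys ∧ u ∉ hs ∧ u ∉ H ∧ u ∉ TA ∧ u ∉ TD := by
    intro u hu
    have h1 : u ∉ F₀ := fun h => disjoint_left.1 hZF hu h
    rw [hF₀, mem_union, mem_union, mem_union, mem_union, List.mem_toFinset, List.mem_toFinset] at h1
    simp only [not_or] at h1
    exact ⟨h1.1, h1.2.1, h1.2.2.1, h1.2.2.2.1, h1.2.2.2.2⟩
  have hSm : SmD R (Y ∪ V) X P₁ P₂ U₂ H Z TA TD SA SD E ys ys' zs hs v a z yl :=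
    { hXY := hXYV
      hPU := hPU
      hUX := hU₂X
      hPX := hP₁X
      part := hg.part
      hys := fun u hu => ⟨hg.hGX (hg.hys u hu).1, (hg.hys u hu).2.2.2.1, (hg.hys u hu).2.2.1⟩
      hys' := ⟨_, hys'⟩
      hyl := hyl
      hH := hHP
      hsz := c6
      hsn := c7
      hsc := c8
      hsP := c9
      hTA := c12
      hTD := c14
      TDH := c15
      TAy := fun u hu hc => disjoint_left.1 c16 hu (List.mem_toFinset.2 hc)
      TDy := fun u hu hc => disjoint_left.1 c17 hu (List.mem_toFinset.2 hc)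
      TAD := c18
      hsT := c19
      hZ := hZU
      Zm := hFm
      Em := hEm
      hsE := by
        intro u hu
        rw [hE, mem_union, hF₀, mem_union, mem_union, List.mem_toFinset, List.mem_toFinset]
        exact Or.inl (Or.inr (Or.inl hu))
      zsP := d5
      nod := d6
      chn := d7
      fr := d8
      SAX := d11
      SDX := d12
      SAD := d13
      hsS := d14
      SAE := fun u hu h => disjoint_left.1 d15 hu h
      SDE := fun u hu h => disjoint_left.1 d16 hu h }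
  obtain ⟨W, hW⟩ : ∃ W, W = (v :: a :: (zs ++ (ys' ++ hs))).toFinset ∪ ((SA ∪ TA) ∪ (SD ∪ (Z ∪ TD))) := ⟨_, rfl⟩
  have hWm : ∀ u, u ∈ W ↔ u = v ∨ u = a ∨ u ∈ zs ∨ u ∈ ys' ∨ u ∈ hs ∨ u ∈ SA ∨ u ∈ TA ∨ u ∈ SD ∨ u ∈ Z ∨ u ∈ TD := by
    intro u
    rw [hW]
    simp only [mem_union, List.mem_toFinset, List.mem_cons, List.mem_append, or_assoc]
  obtain ⟨hWH, hWc⟩ := hSm.w hWm d17 hZc c5 ((Nat.le_add_left _ _).trans c20)
  have hzhs : z ∈ hs := List.mem_of_getLast? c6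
  have htot : totB os ≤ outS (qa :: post) := by
    rw [hos]
    exact totB_zip_le Prod.snd ys' (qa :: post)
  have hcap2 : (totB os : ℝ) + C₃ ≤ (1 - ω') * P₂.card := by
    rw [hP₂c]
    have h1 : (totB os : ℝ) ≤ outS (qa :: post) := by exact_mod_cast htot
    have h2 : ((outS (qa :: post) + szS rest + C : ℕ) : ℝ) ≤ ((p₂ + 2 * sig + N + C₁' : ℕ) : ℝ) := by
      exact_mod_cast hplow
    push_cast at h2
    have h4 : δ * (p₂ : ℝ) ≤ δ * ((outS (qa :: post) + szS rest + C : ℕ) : ℝ) := by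
      apply mul_le_mul_of_nonneg_left _ (by linarith only [gω0, hδ])
      exact_mod_cast hpup
    have h5 : 2 * ω' * (p₂ : ℝ) ≤ δ * p₂ := mul_le_mul_of_nonneg_right hδ hp₂0
    push_cast at hδ' h4
    linarith only [h1, h2, h4, h5, hδ', b1]
  obtain ⟨S, hES, hSP, hSt⟩ := hP2 W (by
      intro u hu
      rw [hWm]
      simp only [hu, true_or, or_true]) (by
      rw [hWm]
      simp only [hzhs, true_or, or_true]) (by
      intro q hq
      rw [hWm]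
      have h1 := (hosm q hq).1
      simp only [h1, true_or, or_true]) hWH hWc hcap2
  have hLL : l₁ :: l₂ :: (gr ++ t₁ :: t₂ :: rest) = l₁ :: l₂ :: (pre ++ ((qa :: post) ++ ts)) ++ L' := by
    rw [hgr, ← c1]
    simp
  have hkey := hSm.nxt hW (S := S) (Ez := Ez) (Y := Y) (V₀ := V) (Pn := Pn) (κ := κ) (η := η) (s := s) (lam' := lam')
    (sig := sig) (sig' := sig') (K₁ := K₁) (w₁ := 4 * N + 2 * c₂ + (C₁' + 2 * c₀ * c₀) + N) (C := C) (l₁ := l₁)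
    (l₂ := l₂) (qa := qa) (pre := pre) (post := post) (ts := ts) (L' := L') rfl hX hsig' c3 d3 d1 hys'l c4 c10 c11 d9 d10
    (by rw [← hos]; exact hES) hSP hEzP hSt (by
      have h4 : ((pre ++ qa :: post).map (fun t => t.1.size)).sum = inS gr := by rw [hgr]; rfl
      have h5 : (pre.map (fun t => t.2.size)).sum = outS pre := rfl
      rw [h4, h5, hP₁c, hm₁] at d18
      have h6 := hg.len
      clear * - d18 hEzc h6
      omega) (by
      rw [← hLL]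
      exact hcard)
  rw [← hLL] at hkey
  rcases c2 with rfl | rfl
  · exact Or.inl hkey
  · exact Or.inr hkey

/-- **Cluster round, second part small** -/
theorem clSm (b l B N : ℕ) (hb : 1 ≤ b) (hN : 1 ≤ N) {δ : ℝ} (hδ : 0 < δ) : ∃ ζ : ℝ, 0 < ζ ∧ ∃ D₁ : ℕ, ∀ D₀, D₁ ≤ D₀ →
    ∀ ω c η η₁ κ₀ κ₁ κ γ₀ τ s σ₂ μ : ℝ, KB D₀ ω c η η₁ κ₀ κ₁ κ γ₀ τ s σ₂ μ → ClSm b l B N ζ δ κ η s := by
  obtain ⟨p, hp, hpb, hpl, hab, -⟩ := exists_np b l 0 hb
  subst hpb hpl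
  obtain ⟨D₁, hD₁⟩ : ∃ D₁ : ℕ, D₁ = p.A + 64 + ⌈1 / δ⌉₊ := ⟨_, rfl⟩
  obtain ⟨ω', c', η', η₁', κ₀', κ₁', κ', γ₀', τ', s', σ₂', μ', P'⟩ := exists_KB (D := D₁) (by omega)
  have hω : 2 * ω' ≤ δ := by
    have h1 : 1 / δ ≤ D₁ := by
      refine (Nat.le_ceil _).trans ?_
      exact_mod_cast (by omega : ⌈1 / δ⌉₊ ≤ D₁)
    have h2 : (0 : ℝ) < D₁ := by exact_mod_cast (by omega : 0 < D₁)
    rw [div_le_iff₀ hδ] at h1
    rw [P'.hω, mul_one_div, div_le_iff₀ (by positivity)]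
    linarith
  obtain ⟨ζ, hζ, hcore⟩ := clSm_core p hp hab (by omega : p.A ≤ D₁) P' hω N B hN
  refine ⟨ζ, hζ, D₁, ?_⟩
  intro D₀ hD ω c η η₁ κ₀ κ₁ κ γ₀ τ s σ₂ μ P
  obtain ⟨K₁, hcore⟩ := hcore hD P
  refine ⟨0, K₁, fun lam₁ _ => ?_⟩
  obtain ⟨w₁, hcore⟩ := hcore lam₁
  refine ⟨w₁, fun K w => ⟨0, fun B₂ _ => ⟨0, fun sig _ => ?_⟩⟩⟩
  obtain ⟨C₀, hcore⟩ := hcore K w sig
  refine ⟨C₀, fun C hC lam _ => ?_⟩
  intro T R l₁ l₂ qa t₁ t₂ pre post rest Pn Y V hI e1 e2 e3 e4 hlen hre hmax _ hζ' hδ'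
  exact hcore C hC hI e1 e2 e3 e4 hlen hre hmax hζ' hδ' sig le_rfl

end AEG
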