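import Pool.Agent.AEG.HostS
import Pool.Agent.AEG.Front

/-!
# The last cluster with links, both parts of linear size
-/

set_option autoImplicit false

namespace AEG

open Finset AE15 AED AEB SPD
open scoped Classical

variable {V : Type} {R : V → V → Prop}

theorem fl_szS_split (L : List (Fd × Fd)) : szS L = (L.map (fun q => q.1.size)).sum + (L.map (fun q => q.2.size)).sum +
    L.length := by
  induction L with
  | nil => simp [szS]
  | cons q L ih =>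
    rw [szS_cons, ih]
    simp only [List.map_cons, List.sum_cons, List.length_cons]
    omega

theorem fl_szS_append (L L' : List (Fd × Fd)) : szS (L ++ L') = szS L + szS L' := by
  unfold szS
  rw [List.map_append, List.sum_append]

/-- the lists of forests at the hosts, the largest forest first -/
theorem exists_lists {b l N : ℕ} {ys : List V} {G : List (Fd × Fd)} (f : Fd × Fd → Fd) (hlen : ys.length = G.length)
    (hG : G ≠ []) (hGN : G.length ≤ N) (hcl : ∀ q ∈ G, FOK b l 0 (f q) ∧ ∀ t ∈ (f q).trees, t.1 = true) :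
    ∃ (x : V × Fd) (L : List (V × Fd)), ((ys.zip G).map (fun p => (p.1, f p.2))).Perm (x :: L) ∧
      (∀ p ∈ L, p.2.size ≤ x.2.size) ∧
      (∀ p ∈ x :: L, p.1 ∈ ys ∧ FOK b l 0 p.2 ∧ ∀ t ∈ p.2.trees, t.1 = true) ∧ L.length + 1 ≤ N ∧
      totB (x :: L) = (G.map (fun q => (f q).size)).sum := by
  have hG' : ys.zip G ≠ [] := by
    intro h
    have := congrArg List.length h
    rw [List.length_zip, hlen, min_self] at this
    simp at this
    exact hG this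
  obtain ⟨x, L, hL, hmax⟩ := exists_largest (L := (ys.zip G).map (fun p => (p.1, f p.2))) (by simpa using hG')
  refine ⟨x, L, hL, hmax, ?_, ?_, ?_⟩
  · intro p hp
    have h1 := hL.symm.subset hp
    rw [List.mem_map] at h1
    obtain ⟨r, hr, rfl⟩ := h1
    have h2 := List.of_mem_zip (a := r.1) (b := r.2) hr
    exact ⟨h2.1, hcl r.2 h2.2⟩
  · have := hL.length_eq
    rw [List.length_map, List.length_zip, hlen, min_self, List.length_cons] at this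
    omega
  · rw [← fl_totB_perm hL, totB_zip hlen]

/-- **The core of the last cluster, both parts of linear size**: the cut, and the packing avoiding a bounded set `Fr`
which is chosen behind the cut. -/
theorem lin_core (b l N f : ℕ) (hb : 1 ≤ b) (hN : 1 ≤ N) {κ' : ℝ} (hκ'0 : 0 < κ') (hκ'1 : κ' ≤ 1) :
    ∃ (δ β : ℝ) (C : ℕ), 0 < δ ∧ 0 < β ∧
    ∀ {V : Type} {R : V → V → Prop}, AE32.Tour R → ∀ (G rest : List (Fd × Fd)) (X : Finset V), G ≠ [] → G.length ≤ N →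
      (∀ q ∈ G, FOK b l 0 q.1 ∧ FOK b l 0 q.2 ∧ (∀ t ∈ q.1.trees, t.1 = true) ∧ ∀ t ∈ q.2.trees, t.1 = true) →
      szS (G ++ rest) + C ≤ X.card → κ' * X.card ≤ (((G.map (fun q => q.1.size)).sum : ℕ) : ℝ) →
      (((G.map (fun q => q.1.size)).sum : ℕ) : ℝ) + κ' * X.card ≤ X.card → ((szS rest : ℕ) : ℝ) ≤ δ * X.card →
      ∃ (ys : List V) (P₁ : Finset V) (y₁ yl : V), ys.length = G.length ∧ ys.Nodup ∧ ys.IsChain R ∧ (∀ y ∈ ys, y ∈ X) ∧
        ys.head? = some y₁ ∧ ys.getLast? = some yl ∧ P₁ ⊆ X ∧ κ' * X.card ≤ P₁.card ∧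
        β * P₁.card ≤ ((P₁.filter (fun a => R a y₁)).card : ℝ) ∧
        ∀ Fr : Finset V, Fr.card ≤ f → ∃ S₁ ⊆ X, ∃ S₂ ⊆ X, ∃ T ⊆ X, Disjoint S₁ S₂ ∧
          Disjoint S₁ ys.toFinset ∧ Disjoint S₂ ys.toFinset ∧ Disjoint S₁ T ∧ Disjoint S₂ T ∧ Disjoint T ys.toFinset ∧
          Disjoint S₁ Fr ∧ Disjoint S₂ Fr ∧ Disjoint T Fr ∧
          EmbAllB (rv R) ((ys.zip G).map (fun p => (p.1, p.2.1))) S₁ ∧
          EmbAllB R ((ys.zip G).map (fun p => (p.1, p.2.2))) S₂ ∧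
          ((rest = [] ∧ T = ∅) ∨ ∃ z S', z ∉ S' ∧ T = insert z S' ∧ R yl z ∧ EmbS R rest z S') := by
  obtain ⟨c₀, η, hη0, hη8, hpack⟩ := packTwo b l N 1 hb hN le_rfl
  obtain ⟨β, hβ⟩ : ∃ β : ℝ, β = η * κ' / 8 := ⟨_, rfl⟩
  have hβ0 : 0 < β := by rw [hβ]; positivity
  have hβκ : β ≤ κ' / 8 := by
    have : η * κ' ≤ 1 * κ' := mul_le_mul_of_nonneg_right (by linarith only [hη8]) hκ'0.le
    rw [hβ]
    linarith only [this]
  have hβ1 : β ≤ 1 / 8 := by linarith only [hβκ, hκ'1]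
  obtain ⟨κ₀, hκ₀⟩ : ∃ κ₀ : ℝ, κ₀ = β / 20 := ⟨_, rfl⟩
  have hκ₀0 : 0 < κ₀ := by rw [hκ₀]; positivity
  have hκ₀1 : κ₀ ≤ 1 := by rw [hκ₀]; linarith only [hβ1]
  have hκc1 : κ₀ ^ 2 / 4 ≤ 1 := by nlinarith only [hκ₀0, hκ₀1]
  obtain ⟨Cp, δp, hδp, hpack⟩ := hpack 16 (16 * (2 * c₀) + (16 * f + 4 * N)) (κ₀ ^ 2 / 4) (κ' / 2 / 2) (β / 16 / 2)
    (β / 32 / 2) (by positivity) hκc1 (by positivity) (by linarith only [hκ'1]) (by positivity) (by positivity)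
  obtain ⟨cc, hTt⟩ := exists_T N hβ0
  obtain ⟨n₁, hn₁⟩ := exists_big [(((8 + 4 * N : ℕ) : ℝ), κ₀), (((2 * c₀ : ℕ) : ℝ), β / 32 / 2 * (κ' / 4)),
      ((cc : ℝ), β * κ' / 64), ((f : ℝ), β * κ' / 512), ((f : ℝ), δp / 2), (((Cp + f + N : ℕ) : ℝ), κ' / 4)] (by
    intro q hq
    simp only [List.mem_cons, List.not_mem_nil, or_false] at hq
    rcases hq with rfl | rfl | rfl | rfl | rfl | rfl
    · exact hκ₀0
    · show 0 < β / 32 / 2 * (κ' / 4)
      positivity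
    · show 0 < β * κ' / 64
      positivity
    · show 0 < β * κ' / 512
      positivity
    · show 0 < δp / 2
      positivity
    · show 0 < κ' / 4
      positivity)
  refine ⟨min (δp / 2) (β * κ' / 512), β / 8, 2 * Cp + 2 * f + N + n₁ + 2, lt_min (by positivity) (by positivity),
    by positivity, ?_⟩
  intro V R hT G rest X hG hGN hcl hsz hA hD hrest
  obtain ⟨n, hn⟩ : ∃ n : ℝ, n = (X.card : ℝ) := ⟨_, rfl⟩
  obtain ⟨m, hm⟩ : ∃ m : ℕ, m = G.length := ⟨_, rfl⟩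
  obtain ⟨Q, hQ⟩ : ∃ Q : ℕ, Q = (G.map (fun q => q.1.size)).sum := ⟨_, rfl⟩
  obtain ⟨O, hO⟩ : ∃ O : ℕ, O = (G.map (fun q => q.2.size)).sum := ⟨_, rfl⟩
  have hszG : szS (G ++ rest) = Q + O + m + szS rest := by
    rw [fl_szS_append, fl_szS_split G, hQ, hO, hm]
  rw [← hQ, ← hn] at hA
  rw [← hQ, ← hn] at hD
  rw [← hn] at hrest
  have hn0 : 0 ≤ n := by rw [hn]; exact Nat.cast_nonneg _
  have hmN : m ≤ N := by rw [hm]; exact hGN
  have hm1 : 1 ≤ m := by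
    rw [hm]
    exact List.length_pos_iff.2 hG
  have hmNR : (m : ℝ) ≤ N := by exact_mod_cast hmN
  have hXn := hn₁ X.card (by omega)
  rw [← hn] at hXn
  have g1 : ((8 + 4 * N : ℕ) : ℝ) ≤ κ₀ * n := hXn (_, _) (by simp)
  have g2 : ((2 * c₀ : ℕ) : ℝ) ≤ β / 32 / 2 * (κ' / 4) * n := hXn (((2 * c₀ : ℕ) : ℝ), β / 32 / 2 * (κ' / 4)) (by simp)
  have g3 : (cc : ℝ) ≤ β * κ' / 64 * n := hXn ((cc : ℝ), β * κ' / 64) (by simp)
  have g4 : (f : ℝ) ≤ β * κ' / 512 * n := hXn ((f : ℝ), β * κ' / 512) (by simp)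
  have g5 : (f : ℝ) ≤ δp / 2 * n := hXn ((f : ℝ), δp / 2) (by simp)
  have g6 : ((Cp + f + N : ℕ) : ℝ) ≤ κ' / 4 * n := hXn (((Cp + f + N : ℕ) : ℝ), κ' / 4) (by simp)
  push_cast at g1 g6
  have hβn : β * n ≤ κ' / 8 * n := mul_le_mul_of_nonneg_right hβκ hn0
  have hCp0 : (0 : ℝ) ≤ Cp := Nat.cast_nonneg _
  have hf0 : (0 : ℝ) ≤ f := Nat.cast_nonneg _
  have hN0 : (0 : ℝ) ≤ N := Nat.cast_nonneg _
  have hκn : 0 ≤ κ' * n := mul_nonneg hκ'0.le hn0
  -- the cut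
  obtain ⟨P₁, P₂, ys, c1, c2, c3, c4, c5, c6, c7, c8, c9, c10, -, c11, -, -, -⟩ := gcut_lin hT (X := X) (Bd := ∅)
    (p := Q + Cp + f) (N := m) (e := 0) hκ₀0 (η := β) (by rw [hκ₀]; linarith only []) hβ1 (by
      rw [← hn]
      push_cast
      linarith only [g1, hmNR]) (by
      rw [← hn]
      push_cast
      linarith only [hA, hCp0, hf0, hβn, hκn]) (by
      rw [← hn]
      push_cast
      linarith only [hD, g6, hβn, hmNR, hκn]) (by simp)
  simp only [Nat.zero_add, mul_one] at c10 c11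
  have hP₁c : (P₁.card : ℝ) = Q + Cp + f := by exact_mod_cast c8
  have hP₂c : X.card = Q + Cp + f + m + P₂.card := by omega
  have hP₂c' : n = Q + Cp + f + m + P₂.card := by rw [hn]; exact_mod_cast hP₂c
  rw [← hn] at c10 c11
  have hP₁κ : κ' * n ≤ P₁.card := by linarith only [hA, hP₁c, hCp0, hf0]
  have hP₂κ : κ' * 3 / 4 * n ≤ P₂.card := by linarith only [hD, g6, hP₂c', hmNR]
  have hlen : ys.length = G.length := c1.trans hm
  have hysne : ys ≠ [] := by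
    intro h
    rw [h] at c1
    simp at c1
    omega
  obtain ⟨yl, hyl⟩ : ∃ yl, ys.getLast? = some yl := ⟨_, List.getLast?_eq_getLast_of_ne_nil hysne⟩
  have hylm : yl ∈ ys := List.mem_of_getLast? hyl
  obtain ⟨y₁, hy₁⟩ : ∃ y₁, ys.head? = some y₁ := ⟨_, List.head?_eq_some_head hysne⟩
  have hy₁m : y₁ ∈ ys := List.mem_of_head? hy₁
  have hP₁0 : (0 : ℝ) ≤ P₁.card := Nat.cast_nonneg _
  -- the lists
  obtain ⟨x₁, L₁, hL₁, hmax₁, hmem₁, hlL₁, htot₁⟩ := exists_lists (b := b) (l := l) (N := N) Prod.fst hlen hG hGN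
    (fun q hq => ⟨(hcl q hq).1, (hcl q hq).2.2.1⟩)
  obtain ⟨x₂, L₂, hL₂, hmax₂, hmem₂, hlL₂, htot₂⟩ := exists_lists (b := b) (l := l) (N := N) Prod.snd hlen hG hGN
    (fun q hq => ⟨(hcl q hq).2.1, (hcl q hq).2.2.2⟩)
  rw [← hQ] at htot₁
  rw [← hO] at htot₂
  have hx₁ := hmem₁ x₁ List.mem_cons_self
  have hx₂ := hmem₂ x₂ List.mem_cons_self
  refine ⟨ys, P₁, y₁, yl, hlen, c2, c3, fun y hy => (c7 y hy).1, hy₁, hyl, c4, by rw [← hn]; exact hP₁κ, ?_, ?_⟩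
  · refine (c10 y₁ hy₁m).lin.trans ?_
    apply Nat.cast_le.2
    apply card_le_card
    intro w hw
    rw [mem_filter] at hw ⊢
    exact ⟨hw.1, hw.2.1⟩
  intro Fr hFr
  have hFrR : (Fr.card : ℝ) ≤ f := by exact_mod_cast hFr
  obtain ⟨k, hk⟩ : ∃ k : ℝ, k = κ₀ ^ 2 / 4 * n := ⟨_, rfl⟩
  obtain ⟨t, ht⟩ : ∃ t : ℝ, t = 2 * β * n := ⟨_, rfl⟩
  rw [← hk, ← ht] at c10 c11
  have hkX : k = κ₀ ^ 2 / 4 * X.card := by rw [hk, hn]
  have hEc : β / 8 * P₂.card ≤ (nO R P₂ yl).card := by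
    refine (c11 yl hylm).lin.trans ?_
    apply Nat.cast_le.2
    apply card_le_card
    intro w hw
    rw [mem_filter] at hw
    exact mem_nO.2 ⟨hw.1, hw.2.1⟩
  have hδ1 : min (δp / 2) (β * κ' / 512) * n ≤ β * κ' / 512 * n := mul_le_mul_of_nonneg_right (min_le_right _ _) hn0
  have hδ2 : min (δp / 2) (β * κ' / 512) * n ≤ δp / 2 * n := mul_le_mul_of_nonneg_right (min_le_left _ _) hn0
  have hβκn : 0 ≤ β * κ' * n := by positivity
  have hβP : β * κ' * 3 / 4 * n ≤ β * P₂.card := by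
    have := mul_le_mul_of_nonneg_left hP₂κ hβ0.le
    linarith only [this]
  obtain ⟨T, hTP₂, hTFr, hTc, hTE, hHS⟩ := hTt hT X P₂ Fr rest x₂.1 yl k t (by
      have h1 := c11 x₂.1 hx₂.1
      exact ⟨h1.reach, h1.lin, fun j hj => (h1.cnt j hj).trans (by omega)⟩) hEc (by
      push_cast
      linarith only [g3, g4, hFrR, hrest, hδ1, hβP, hβκn])
  have hTcR : (T.card : ℝ) = szS rest := by exact_mod_cast hTc
  have hTn : (T.card : ℝ) ≤ β * κ' / 512 * n := by linarith only [hTcR, hrest, hδ1]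
  -- the second part
  obtain ⟨P₂', hP₂'⟩ : ∃ P₂' : Finset V, P₂' = P₂ \ T := ⟨_, rfl⟩
  rw [← hP₂'] at hHS
  have hP₂'c : P₂'.card + T.card = P₂.card := by
    rw [hP₂']
    exact card_sdiff_add_card_eq_card hTP₂
  have hP₂'cR : (P₂'.card : ℝ) + T.card = P₂.card := by exact_mod_cast hP₂'c
  have hβκ1 : β * κ' / 512 * n ≤ κ' / 4 * n := by
    have : β * (κ' * n) ≤ 1 * (κ' * n) := mul_le_mul_of_nonneg_right (by linarith only [hβ1]) hκn
    linarith only [this, hκn]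
  have hP₂'κ : κ' / 2 * n ≤ P₂'.card := by linarith only [hP₂κ, hP₂'cR, hTn, hβκ1]
  have hP₂'sub : P₂' ⊆ P₂ := by rw [hP₂']; exact sdiff_subset
  have hβP' : β * κ' / 2 * n ≤ β * P₂'.card := by
    have := mul_le_mul_of_nonneg_left hP₂'κ hβ0.le
    linarith only [this]
  have hβP₁ : β * κ' * n ≤ β * P₁.card := by
    have := mul_le_mul_of_nonneg_left hP₁κ hβ0.le
    linarith only [this]
  have hβκ2 : β * κ' * n ≤ κ' * n := by
    have h1 : β * (κ' * n) ≤ 1 * (κ' * n) := mul_le_mul_of_nonneg_right (by linarith only [hβ1]) hκn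
    linarith only [h1]
  have hηt : t = η / 2 * (κ' / 2 * n) := by
    rw [ht, hβ]
    ring
  have hH₂ : PackH R b l N 1 16 (4 * N) (κ₀ ^ 2 / 4) (κ' / 2) (β / 16) (β / 32) (η / 2) X P₂' x₂.1 x₂.2 L₂ t := by
    refine hHS.packH hkX (hP₂'sub.trans c5) hlL₂ hx₂.2.1 hx₂.2.2 ?_ ⟨(c7 _ hx₂.1).1, fun h =>
      (c7 _ hx₂.1).2.2.1 (hP₂'sub h)⟩ ?_ (by rw [← hn]; exact hP₂'κ) ?_ ?_
    · intro p hp
      have h1 := hmem₂ p (List.mem_cons_of_mem _ hp)
      refine ⟨h1.2.1, h1.2.2, ?_⟩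
      have := hmax₂ p hp
      omega
    · intro p hp
      have h1 := (hmem₂ p (List.mem_cons_of_mem _ hp)).1
      exact ⟨(c7 _ h1).1, fun h => (c7 _ h1).2.2.1 (hP₂'sub h)⟩
    · intro p hp
      exact rea_sub (c11 _ (hmem₂ p (List.mem_cons_of_mem _ hp)).1).reach hP₂'sub
    · rw [hηt]
      exact mul_le_mul_of_nonneg_left hP₂'κ (by positivity)
  have hH₂' := hH₂.sdiff (F₀ := Fr) (e₀ := f) (η := η) (by positivity) (by linarith only []) (by positivity)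
    (by positivity) hFr (by
      have h1 : 2 * (f : ℝ) ≤ P₂'.card := by linarith only [g4, hP₂'κ, hβκ2, hκn]
      exact_mod_cast h1) (by linarith only [g4, hβP', hβκn]) (by linarith only [g4, hβP', hβκn])
  have hP₂Fr : (P₂'.card : ℝ) ≤ (P₂' \ Fr).card + Fr.card := by
    have := le_card_sdiff Fr P₂'
    exact_mod_cast (by omega : P₂'.card ≤ (P₂' \ Fr).card + Fr.card)
  have hc₀P : ((2 * c₀ : ℕ) : ℝ) ≤ β / 32 / 2 * (P₂' \ Fr).card := by
    have h1 : κ' / 4 * n ≤ (P₂' \ Fr).card := by linarith only [hP₂Fr, hFrR, g4, hP₂'κ, hβκ2, hκn]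
    have h2 : β / 32 / 2 * (κ' / 4 * n) ≤ β / 32 / 2 * (P₂' \ Fr).card := mul_le_mul_of_nonneg_left h1 (by positivity)
    linarith only [g2, h2]
  have hY₂ := hH₂'.toY hT hc₀P
  -- the first part
  have hH₁ : PackH (rv R) b l N 1 16 (16 * (2 * c₀) + 4 * N) (κ₀ ^ 2 / 4) (κ' / 2) (β / 16) (β / 32) (η / 2) X P₁ x₁.1
      x₁.2 L₁ t := by
    refine ((c10 _ hx₁.1).hs (Mc := 16) (e' := 16 * (2 * c₀) + 4 * N) (s' := β / 16) (τ' := β / 32)
      (by linarith only [hβ0]) (by linarith only [hβ0]) (by norm_num) (by omega)).packH hkX c4 hlL₁ hx₁.2.1 hx₁.2.2 ?_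
      ⟨(c7 _ hx₁.1).1, (c7 _ hx₁.1).2.1⟩ ?_ (by rw [← hn]; linarith only [hP₁κ, hκn]) ?_ ?_
    · intro p hp
      have h1 := hmem₁ p (List.mem_cons_of_mem _ hp)
      refine ⟨h1.2.1, h1.2.2, ?_⟩
      have := hmax₁ p hp
      omega
    · intro p hp
      have h1 := (hmem₁ p (List.mem_cons_of_mem _ hp)).1
      exact ⟨(c7 _ h1).1, (c7 _ h1).2.1⟩
    · intro p hp
      exact (c10 _ (hmem₁ p (List.mem_cons_of_mem _ hp)).1).reach
    · rw [hηt]
      exact mul_le_mul_of_nonneg_left (by linarith only [hP₁κ, hκn]) (by positivity)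
  have hH₁' := hH₁.sdiff (F₀ := Fr) (e₀ := f) (η := η) (by positivity) (by linarith only []) (by positivity)
    (by positivity) hFr (by
      have h1 : 2 * (f : ℝ) ≤ P₁.card := by linarith only [g4, hP₁κ, hβκ2, hκn]
      exact_mod_cast h1) (by linarith only [g4, hβP₁, hβκn]) (by linarith only [g4, hβP₁, hβκn])
  rw [show 16 * f + (16 * (2 * c₀) + 4 * N) = 16 * (2 * c₀) + (16 * f + 4 * N) by omega] at hH₁'
  have hP₁Fr : P₁.card ≤ (P₁ \ Fr).card + Fr.card := by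
    have := le_card_sdiff Fr P₁
    omega
  have hP₂Fr' : P₂'.card ≤ (P₂' \ Fr).card + Fr.card := by
    have := le_card_sdiff Fr P₂'
    omega
  obtain ⟨S₁, hS₁, S₂, hS₂, e1, e2, e3, e4, e5, e6, e7⟩ := hpack hT X X (P₁ \ Fr) (P₂' \ Fr) (P₂' \ Fr) (T ∪ Fr)
    ys.toFinset x₁.1 x₂.1 x₁.2 x₂.2 L₁ L₂ t t hH₁' hY₂ (Subset.refl _)
    ((c6.mono_left sdiff_subset).mono_right (sdiff_subset.trans hP₂'sub)) (by
      rw [disjoint_union_left]
      exact ⟨(c6.symm.mono_left hTP₂).mono_right sdiff_subset, disjoint_sdiff⟩) (by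
      rw [disjoint_union_left]
      refine ⟨?_, disjoint_sdiff⟩
      rw [hP₂']
      exact disjoint_sdiff.mono_right sdiff_subset) (by
      have h1 : ((((T ∪ Fr) ∩ X).card : ℕ) : ℝ) ≤ T.card + Fr.card := by
        exact_mod_cast (card_le_card inter_subset_left).trans (card_union_le _ _)
      rw [← hn]
      linarith only [h1, hTcR, hrest, hδ2, g5, hFrR]) (by
      have h1 : (((T ∪ Fr).card : ℕ) : ℝ) ≤ T.card + Fr.card := by
        exact_mod_cast card_union_le _ _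
      rw [← hn]
      linarith only [h1, hTcR, hrest, hδ2, g5, hFrR]) ((List.toFinset_card_le _).trans (by omega))
    (List.mem_toFinset.2 hx₁.1) (List.mem_toFinset.2 hx₂.1)
    (fun p hp => List.mem_toFinset.2 (hmem₁ p (List.mem_cons_of_mem _ hp)).1)
    (fun p hp => List.mem_toFinset.2 (hmem₂ p (List.mem_cons_of_mem _ hp)).1) (by
      rw [disjoint_left]
      intro v hv hv'
      exact (c7 v (List.mem_toFinset.1 hv)).2.1 (mem_sdiff.1 hv').1) (by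
      rw [disjoint_left]
      intro v hv hv'
      exact (c7 v (List.mem_toFinset.1 hv)).2.2.1 (hP₂'sub (mem_sdiff.1 hv').1)) (by
      show totB (x₁ :: L₁) + Cp ≤ (P₁ \ Fr).card
      omega) (by
      show totB (x₂ :: L₂) + Cp ≤ (P₂' \ Fr).card
      omega)
  rw [disjoint_union_right] at e4 e5
  exact ⟨S₁, hS₁, S₂, hS₂, T, hTP₂.trans c5, e1, e2, e3, e4.1, e5.1, by
      rw [disjoint_left]
      intro v hv hv'
      exact (c7 v (List.mem_toFinset.1 hv')).2.2.1 (hTP₂ hv), e4.2, e5.2, hTFr, EmbAllB.perm hL₁.symm e6,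
    EmbAllB.perm hL₂.symm e7, hTE⟩

/-- **The last cluster without links, both parts of linear size.** -/
theorem fin_lin_start (b l N : ℕ) (hb : 1 ≤ b) (hN : 1 ≤ N) {κ : ℝ} (hκ : 0 < κ) : ∃ (δ : ℝ) (C : ℕ), 0 < δ ∧
    ∀ {V : Type} {R : V → V → Prop}, AE32.Tour R → ∀ (G rest : List (Fd × Fd)) (X : Finset V), G ≠ [] → G.length ≤ N →
      (∀ q ∈ G, FOK b l 0 q.1 ∧ FOK b l 0 q.2 ∧ (∀ t ∈ q.1.trees, t.1 = true) ∧ ∀ t ∈ q.2.trees, t.1 = true) →
      szS (G ++ rest) + C ≤ X.card → κ * X.card ≤ (((G.map (fun q => q.1.size)).sum : ℕ) : ℝ) →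
      (((G.map (fun q => q.1.size)).sum : ℕ) : ℝ) + κ * X.card ≤ X.card → ((szS rest : ℕ) : ℝ) ≤ δ * X.card →
      ∃ y ∈ X, ∃ S ⊆ X, y ∉ S ∧ EmbS R (G ++ rest) y S := by
  obtain ⟨δ, β, C, hδ, -, h⟩ := lin_core b l N 0 hb hN (lt_min hκ one_pos) (min_le_right κ 1)
  refine ⟨δ, C, hδ, ?_⟩
  intro V R hT G rest X hG hGN hcl hsz hA hD hrest
  have hX0 : (0 : ℝ) ≤ X.card := Nat.cast_nonneg _
  have h1 : min κ 1 * (X.card : ℝ) ≤ κ * X.card := mul_le_mul_of_nonneg_right (min_le_left _ _) hX0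
  obtain ⟨ys, P₁, y₁, yl, c1, c2, c3, c4, -, c6, -, -, -, c10⟩ := h hT G rest X hG hGN hcl hsz (h1.trans hA)
    (by linarith only [h1, hD]) hrest
  obtain ⟨S₁, hS₁, S₂, hS₂, T, hTX, e1, e2, e3, e4, e5, e6, -, -, -, e7, e8, e9⟩ := c10 ∅ (by simp)
  exact fin_glue hG c1 c2 c3 c4 c6 e7 e8 hS₁ hS₂ hTX e1 e2 e3 e4 e5 e6 e9

/-- the line from two links, the group and the rest -/
theorem glue_link {X SA SD S₁ S₂ T : Finset V} {v a y₁ yl : V} {ys : List V} {q₁ q₂ : Fd × Fd} {G rest : List (Fd × Fd)}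
    {Nn : V → Prop} (hG : G ≠ []) (hlen : ys.length = G.length) (hnd : ys.Nodup) (hch : ys.IsChain R)
    (hX : ∀ y ∈ ys, y ∈ X) (hy₁ : ys.head? = some y₁) (hyl : ys.getLast? = some yl) (hv : v ∈ X) (hNv : Nn v) (ha : a ∈ X)
    (hva : R v a) (hay : R a y₁) (hne : v ≠ a) (hvy : v ∉ ys.toFinset) (hayy : a ∉ ys.toFinset)
    (hA : EmbAllB (rv R) [(v, q₁.1), (a, q₂.1)] SA) (hD : EmbAllB R [(v, q₁.2), (a, q₂.2)] SD) (hSA : SA ⊆ X) (hSD : SD ⊆ X)
    (hAD : Disjoint SA SD) (hAy : Disjoint SA ys.toFinset) (hDy : Disjoint SD ys.toFinset) (hvA : v ∉ SA) (hvD : v ∉ SD)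
    (haA : a ∉ SA) (haD : a ∉ SD) (h1 : EmbAllB (rv R) ((ys.zip G).map (fun p => (p.1, p.2.1))) S₁)
    (h2 : EmbAllB R ((ys.zip G).map (fun p => (p.1, p.2.2))) S₂) (hS₁ : S₁ ⊆ X) (hS₂ : S₂ ⊆ X) (hTX : T ⊆ X)
    (h3 : Disjoint S₁ S₂) (h4 : Disjoint S₁ ys.toFinset) (h5 : Disjoint S₂ ys.toFinset) (h6 : Disjoint S₁ T)
    (h7 : Disjoint S₂ T) (h8 : Disjoint T ys.toFinset) (h10 : Disjoint S₁ (insert v (insert a (SA ∪ SD))))
    (h11 : Disjoint S₂ (insert v (insert a (SA ∪ SD)))) (h12 : Disjoint T (insert v (insert a (SA ∪ SD))))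
    (h9 : (rest = [] ∧ T = ∅) ∨ ∃ z S', z ∉ S' ∧ T = insert z S' ∧ R yl z ∧ EmbS R rest z S') :
    InS R (q₁ :: q₂ :: (G ++ rest)) Nn X := by
  have hfst : (ys.zip G).map Prod.fst = ys := List.map_fst_zip hlen.le
  have hsnd : (ys.zip G).map Prod.snd = G := List.map_snd_zip hlen.symm.le
  have hne' : ys.zip G ≠ [] := by
    intro h
    rw [h] at hsnd
    exact hG hsnd.symm
  obtain ⟨os, hos⟩ : ∃ os, os = (v, q₁) :: (a, q₂) :: ys.zip G := ⟨_, rfl⟩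
  have hone : os ≠ [] := by rw [hos]; simp
  have hl : (os.getLast hone).1 = yl := by
    have h13 : os.getLast? = (ys.zip G).getLast? := by
      rw [hos, List.getLast?_cons_cons]
      obtain ⟨r, rs, hr⟩ := List.exists_cons_of_ne_nil hne'
      rw [hr, List.getLast?_cons_cons]
    have h14 : (os.getLast? ).map Prod.fst = some yl := by
      rw [h13, ← List.getLast?_map, hfst, hyl]
    rw [List.getLast?_eq_getLast_of_ne_nil hone] at h14
    exact Option.some.inj h14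
  rw [disjoint_insert_right, disjoint_insert_right, disjoint_union_right] at h10 h11 h12
  obtain ⟨i1, i2, i3, i4⟩ := h10
  obtain ⟨j1, j2, j3, j4⟩ := h11
  obtain ⟨k1, k2, k3, k4⟩ := h12
  have hhd : (os.head hone).1 = v := by
    subst hos
    rfl
  have hfo : os.map Prod.fst = v :: a :: ys := by rw [hos, List.map_cons, List.map_cons, hfst]
  have hso : os.map Prod.snd = q₁ :: q₂ :: G := by rw [hos, List.map_cons, List.map_cons, hsnd]
  rw [List.mem_toFinset] at hvy hayy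
  have hE := embS_chain hone (SA := SA ∪ S₁) (SD := SD ∪ S₂) (T := T) (L' := rest) (by
      rw [hfo, List.nodup_cons, List.nodup_cons, List.mem_cons, not_or]
      exact ⟨⟨hne, hvy⟩, hayy, hnd⟩) (by
      rw [hfo, List.isChain_cons_cons, List.isChain_cons]
      refine ⟨hva, ?_, hch⟩
      rw [hy₁]
      intro z hz
      rw [Option.mem_some_iff] at hz
      rw [← hz]
      exact hay) (by
      rw [hos]
      exact embAllB_append.2 ⟨SA, S₁, i3.symm, rfl, hA, h1⟩) (by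
      rw [hos]
      exact embAllB_append.2 ⟨SD, S₂, j4.symm, rfl, hD, h2⟩) (by
      rw [disjoint_union_left, disjoint_union_right, disjoint_union_right]
      exact ⟨⟨hAD, j3.symm⟩, i4, h3⟩) (by
      intro p hp
      simp only [mem_union, not_or]
      rw [hos, List.mem_cons, List.mem_cons] at hp
      rcases hp with rfl | rfl | hp
      · exact ⟨⟨hvA, i1⟩, hvD, j1⟩
      · exact ⟨⟨haA, i2⟩, haD, j2⟩
      · have hpy : p.1 ∈ ys.toFinset := List.mem_toFinset.2 (List.of_mem_zip (a := p.1) (b := p.2) hp).1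
        exact ⟨⟨fun h => disjoint_left.1 hAy h hpy, fun h => disjoint_left.1 h4 h hpy⟩,
          fun h => disjoint_left.1 hDy h hpy, fun h => disjoint_left.1 h5 h hpy⟩) (by rw [hl]; exact h9) (by
      rw [hfo, List.toFinset_cons, List.toFinset_cons]
      simp only [disjoint_union_right, disjoint_insert_right]
      exact ⟨⟨k1, k2, h8⟩, ⟨k3, h6.symm⟩, k4, h7.symm⟩)
  rw [hfo, hso, hhd] at hE
  refine ⟨v, hv, hNv, _, ?_, notMem_erase _ _, hE⟩
  refine (erase_subset _ _).trans (union_subset (union_subset ?_ (union_subset (union_subset hSA hS₁)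
    (union_subset hSD hS₂))) hTX)
  intro u hu
  rw [List.mem_toFinset, List.mem_cons, List.mem_cons] at hu
  rcases hu with rfl | rfl | hu
  · exact hv
  · exact ha
  · exact hX u hu

/-- **The last cluster with links, both parts of linear size.** -/
theorem fin_lin_link (b l N B₀ : ℕ) (hb : 1 ≤ b) (hN : 1 ≤ N) {κ₁ : ℝ} (hκ₁ : 0 < κ₁) : ∃ (δ : ℝ) (c : ℕ), 0 < δ ∧
    ∀ {κs ηs s : ℝ}, 0 < κs → κs ≤ 1 - ηs → ∀ lam sig K w : ℕ, c ≤ lam → c ≤ sig → ∃ C : ℕ,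
    ∀ {V : Type} {R : V → V → Prop}, AE32.Tour R → ∀ {Y V₀ : Finset V} {Nn : V → Prop},
      StM R Y V₀ Nn κs ηs s lam sig K → (V₀ \ low R sig (Y ∪ V₀)).card ≤ w →
      ∀ (q₁ q₂ : Fd × Fd) (G rest : List (Fd × Fd)), (∀ r ∈ q₁.1.trees, r.1 = true) → (∀ r ∈ q₁.2.trees, r.1 = true) →
      q₁.1.size + q₁.2.size ≤ B₀ → (∀ r ∈ q₂.1.trees, r.1 = true) → (∀ r ∈ q₂.2.trees, r.1 = true) →
      q₂.1.size + q₂.2.size ≤ B₀ → G ≠ [] → G.length ≤ N →
      (∀ q ∈ G, FOK b l 0 q.1 ∧ FOK b l 0 q.2 ∧ (∀ t ∈ q.1.trees, t.1 = true) ∧ ∀ t ∈ q.2.trees, t.1 = true) →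
      szS (q₁ :: q₂ :: (G ++ rest)) + C ≤ (Y ∪ V₀).card →
      κ₁ * ((Y ∪ V₀) \ low R sig (Y ∪ V₀)).card ≤ (((G.map (fun q => q.1.size)).sum : ℕ) : ℝ) →
      (((G.map (fun q => q.1.size)).sum : ℕ) : ℝ) + κ₁ * ((Y ∪ V₀) \ low R sig (Y ∪ V₀)).card ≤
        ((Y ∪ V₀) \ low R sig (Y ∪ V₀)).card →
      ((szS rest : ℕ) : ℝ) ≤ δ * ((Y ∪ V₀) \ low R sig (Y ∪ V₀)).card →
      InS R (q₁ :: q₂ :: (G ++ rest)) Nn (Y ∪ V₀) := by
  obtain ⟨κ', hκ'⟩ : ∃ κ' : ℝ, κ' = min κ₁ 1 := ⟨_, rfl⟩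
  have hκ'0 : 0 < κ' := by rw [hκ']; exact lt_min hκ₁ one_pos
  have hκ'κ : κ' ≤ κ₁ := by rw [hκ']; exact min_le_left _ _
  have hκ'1 : κ' ≤ 1 := by rw [hκ']; exact min_le_right _ _
  obtain ⟨δ, β, Cl, hδ, hβ, h⟩ := lin_core b l N (2 * B₀ + 2) hb hN hκ'0 hκ'1
  refine ⟨δ, N + 2 + B₀ + 2 ^ B₀, hδ, ?_⟩
  intro κs ηs s hκs hκη lam sig K w hlam hsig
  obtain ⟨n₂, hn₂⟩ := exists_big [(((N + 2 + B₀ + 2 ^ B₀ : ℕ) : ℝ), κs),
      (((w + 2 * (N + 2 + B₀ + 2 ^ B₀) + K * N + N + 2 : ℕ) : ℝ), β * κ')] (by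
    intro q hq
    simp only [List.mem_cons, List.not_mem_nil, or_false] at hq
    rcases hq with rfl | rfl
    · exact hκs
    · show 0 < β * κ'
      positivity)
  refine ⟨Cl + 2 * sig + n₂ + w, ?_⟩
  intro V R hT Y V₀ Nn hSt hw q₁ q₂ G rest f1 f2 f3 f4 f5 f6 hG hGN hcl hsz hA hD hrest
  obtain ⟨X, hX⟩ : ∃ X : Finset V, X = (Y ∪ V₀) \ low R sig (Y ∪ V₀) := ⟨_, rfl⟩
  rw [← hX] at hA hD hrest
  have hlow := AE15.card_low_in hT sig (Y ∪ V₀)
  have hXsub : X ⊆ Y ∪ V₀ := by rw [hX]; exact sdiff_subset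
  have hXc : (Y ∪ V₀).card ≤ X.card + 2 * sig := by
    have := le_card_sdiff (low R sig (Y ∪ V₀)) (Y ∪ V₀)
    rw [← hX] at this
    omega
  have hXY : X.card ≤ Y.card + w := by
    have h1 : X ⊆ Y ∪ (V₀ \ low R sig (Y ∪ V₀)) := by
      intro u hu
      rw [hX, mem_sdiff, mem_union] at hu
      rw [mem_union, mem_sdiff]
      rcases hu.1 with h2 | h2
      · exact Or.inl h2
      · exact Or.inr ⟨h2, hu.2⟩
    have h2 := (card_le_card h1).trans (card_union_le _ _)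
    omega
  have hX0 : (0 : ℝ) ≤ X.card := Nat.cast_nonneg _
  have hsz2 : szS (G ++ rest) ≤ szS (q₁ :: q₂ :: (G ++ rest)) := by
    rw [szS_cons, szS_cons]
    omega
  have h1 : κ' * (X.card : ℝ) ≤ κ₁ * X.card := mul_le_mul_of_nonneg_right hκ'κ hX0
  obtain ⟨ys, P₁, y₁, yl, c1, c2, c3, c4, c5, c6, c7, c8, c9, c10⟩ := h hT G rest X hG hGN hcl (by omega) (h1.trans hA)
    (by linarith only [h1, hD]) hrest
  have hYn := hn₂ Y.card (by omega) (((N + 2 + B₀ + 2 ^ B₀ : ℕ) : ℝ), κs) (by simp)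
  have hXn := hn₂ X.card (by omega) (((w + 2 * (N + 2 + B₀ + 2 ^ B₀) + K * N + N + 2 : ℕ) : ℝ), β * κ') (by simp)
  obtain ⟨v, a, SA, SD, d1, d2, d3, d4, d5, d6, d7, d8, d9, d10, d11, d12, d13, d14, d15, d16, d17, d18, d19, d20, d21⟩ :=
    front hT (P₁ := P₁) (F := ys.toFinset) (y₁ := y₁) (t₁ := q₁) (t₂ := q₂) (f := N) (B₀ := B₀)
      (c := N + 2 + B₀ + 2 ^ B₀) hSt hκη hw (by rw [← hX]; exact c7) c9 ((List.toFinset_card_le _).trans (by omega)) f1 f2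
      f3 f4 f5 f6 le_rfl hlam hsig hYn (by
        have h2 : β * (κ' * X.card) ≤ β * P₁.card := mul_le_mul_of_nonneg_left c8 hβ.le
        have h3 : β * κ' * (X.card : ℝ) = β * (κ' * X.card) := by ring
        rw [h3] at hXn
        exact hXn.trans h2)
  obtain ⟨S₁, hS₁, S₂, hS₂, T, hTX, e1, e2, e3, e4, e5, e6, e10, e11, e12, e7, e8, e9⟩ :=
    c10 (insert v (insert a (SA ∪ SD))) (by
      have h2 := card_insert_le v (insert a (SA ∪ SD))
      have h3 := card_insert_le a (SA ∪ SD)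
      have h4 := card_union_le SA SD
      omega)
  exact glue_link (q₁ := q₁) (q₂ := q₂) hG c1 c2 c3 (fun y hy => hXsub (c4 y hy)) c5 c6 (mem_union_left _ d1) d2
    (mem_union_left _ d4) d5 d6 d7 d8 d9 d10 d11 d12 d13 d14 d15 d16 d17 d18 d19 d20 e7 e8 (hS₁.trans hXsub)
    (hS₂.trans hXsub) (hTX.trans hXsub) e1 e2 e3 e4 e5 e6 e10 e11 e12 e9

end AEG
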