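import Pool.Agent.AEG.SplitM
import Pool.Agent.AEG.FinLK

/-!
# The final cluster of M2, both parts of linear size
-/

set_option autoImplicit false

namespace AEG

open Finset Relation AE15 AED AEB
open scoped Classical

/-- **Final cluster, both parts linear** -/
theorem finBoth (b l B N : ℕ) (hb : 1 ≤ b) (hN : 1 ≤ N) (ζ : ℝ) (hζ : 0 < ζ) : ∃ δ : ℝ, 0 < δ ∧
    ∀ κ η s : ℝ, StOk κ η s → FinBoth b l B N ζ δ κ η s := by
  obtain ⟨δ, c, hδ, h⟩ := fin_lin_link b l N B hb hN hζ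
  refine ⟨δ / 2, by positivity, ?_⟩
  intro κ η s hst
  refine ⟨c, fun lam hlam K w => ⟨c, fun sig hsig => ?_⟩⟩
  obtain ⟨C, h⟩ := h hst.1 hst.2.2.1 lam sig K w hlam hsig (s := s)
  refine ⟨C + 4 * sig, fun C' hC' => ?_⟩
  intro T R l₁ l₂ gr rest P Y V hI e1 e2 hne hlen hin hout hr
  obtain ⟨X, hX⟩ : ∃ X : Finset T, X = (Y ∪ V) \ low R sig (Y ∪ V) := ⟨_, rfl⟩
  have hlow := AE15.card_low_in hI.tour sig (Y ∪ V)
  have hXc : (Y ∪ V).card ≤ X.card + 2 * sig := by
    have := le_card_sdiff (low R sig (Y ∪ V)) (Y ∪ V)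
    rw [← hX] at this
    omega
  have hXc' : X.card ≤ (Y ∪ V).card := by rw [hX]; exact card_le_card sdiff_subset
  have hsz := hI.card
  have hsz2 : szS (l₁ :: l₂ :: (gr ++ rest)) = (l₁.1.size + l₁.2.size + 1) + (l₂.1.size + l₂.2.size + 1) +
      (inS gr + outS gr + gr.length) + szS rest := by
    rw [szS_cons, szS_cons, fl_szS_append, fl_szS_split gr]
    unfold inS outS
    omega
  have h2 : (Y ∪ V).card ≤ 2 * X.card := by omega
  have h2R : ((Y ∪ V).card : ℝ) ≤ 2 * X.card := by exact_mod_cast h2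
  have hXR : (X.card : ℝ) ≤ (Y ∪ V).card := by exact_mod_cast hXc'
  have h3 : inS gr + outS gr ≤ X.card := by omega
  have h3R : (inS gr : ℝ) + outS gr ≤ X.card := by exact_mod_cast h3
  have h4 : ζ * (X.card : ℝ) ≤ ζ * (Y ∪ V).card := mul_le_mul_of_nonneg_left hXR hζ.le
  have h5 : δ / 2 * ((Y ∪ V).card : ℝ) ≤ δ / 2 * (2 * X.card) := mul_le_mul_of_nonneg_left h2R (by positivity)
  have hC0 : (0 : ℝ) ≤ C' := Nat.cast_nonneg _
  push_cast at hr
  have hmem : ∀ q ∈ l₁ :: l₂ :: (gr ++ rest), BrOk b l q := hI.cl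
  have m1 := hmem l₁ (by simp)
  have m2 := hmem l₂ (by simp)
  exact h hI.tour hI.st hI.low l₁ l₂ gr rest m1.2.2.1 m1.2.2.2 e1 m2.2.2.1 m2.2.2.2 e2 hne hlen
    (fun q hq => hmem q (by simp [hq])) (by omega) (by
      rw [← hX]
      exact h4.trans hin) (by
      rw [← hX]
      have h6 : (((gr.map (fun q => q.1.size)).sum : ℕ) : ℝ) = inS gr := rfl
      rw [h6]
      linarith only [h3R, h4, hout]) (by
      rw [← hX]
      linarith only [hr, h5, hC0])

end AEG
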