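import Pool.Agent.AEG.CovR

/-!
# The reserve for the packing at the exact host, with a given bounded set removed

`GC.res'` and `GCD.res'` are `GC.res` and `GCD.res` after the removal of a given bounded set `F₁` which is disjoint from
the reserve `Rsv` of the cut.
-/

set_option autoImplicit false

namespace AEG

open Finset AE15 AEB SPD
open scoped Classical

variable {V : Type*} {R : V → V → Prop}

/-- **The reserve at the last host of the group cut** (first part small), a bounded set `F₁` being removed -/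
theorem GC.res' (hT : AE32.Tour R) {X Bd Bad : Finset V} {p q N e : ℕ} {κ₀ η : ℝ} {G : Finset V} {ys : List V} {y : V}
    {P₁ P₂ U₁ Rsv Gc Ex : Finset V} (h : GC R X Bd Bad p q N e κ₀ η G ys y P₁ P₂ U₁ Rsv Gc Ex) {F₁ : Finset V}
    {c₀ j f : ℕ} (hF : F₁.card ≤ f) (hFR : Disjoint F₁ Rsv) (hj : ((j + f : ℕ) : ℝ) < κ₀ * X.card)
    (hcap : ∀ g ∈ G, g ∉ Bad → 2 * c₀ + N + f ≤ (X.filter (fun v => R v g ∧ Good R (κ₀ ^ 2 / 4) η X v)).card) :
    ∃ Hr V₂ : Finset V, Hr ⊆ P₂ ∧ Disjoint Hr F₁ ∧ V₂ ⊆ P₁ ∧ Disjoint V₂ F₁ ∧ V₂.card ≤ 2 * c₀ * c₀ ∧ Rsv ⊆ Hr ∧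
      Hr.card ≤ (2 * q + e + 1 + (6 * (j + f) + 4 * Bad.card + 4 * (N * e))) * (1 + c₀) ∧
      ∀ S₀ : Finset V, Disjoint S₀ Hr → S₀.card + 2 * c₀ ≤ j → ∀ k t : ℝ, k ≤ κ₀ ^ 2 / 4 * X.card → η * X.card ≤ t →
        ∀ P : Finset V, P = P₂ \ (F₁ ∪ S₀) →
        (P.filter (fun u => R u y ∧ ¬ ∃ w ∈ P, R y w ∧ R w u ∧ Rea R X P k t w ∧
          c₀ ≤ ((P ∪ V₂).filter (fun v => R v w ∧ Rea R X P k t v)).card)).card ≤
            e + (6 * f + 4 * Bad.card + 4 * (N * e)) ∧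
        κ₀ * X.card - f - S₀.card ≤ ((P.filter (fun w => R y w ∧ Rea R X P k t w)).card : ℝ) := by
  obtain ⟨Dm, hDm⟩ : ∃ Dm, Dm = P₂.filter (fun w => R y w ∧ w ∈ G ∧ w ∉ Bad) := ⟨_, rfl⟩
  have hP₂X : P₂ ⊆ X := fun w hw => ((h.part w).1 hw).1
  have hfil : ∀ u, Dm.filter (fun w => R w u) = P₂.filter (fun w => R y w ∧ R w u ∧ w ∈ G ∧ w ∉ Bad) := by
    intro u
    ext w
    rw [hDm, mem_filter, mem_filter, mem_filter]
    tauto
  have hfil' : ∀ u, (Dm.filter (fun w => R w u)).card ≤ ((Dm \ F₁).filter (fun w => R w u)).card + f := by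
    intro u
    have h1 : Dm.filter (fun w => R w u) ⊆ (Dm \ F₁).filter (fun w => R w u) ∪ F₁ := by
      intro w hw
      rw [mem_filter] at hw
      rw [mem_union, mem_filter, mem_sdiff]
      by_cases h2 : w ∈ F₁
      · exact Or.inr h2
      · exact Or.inl ⟨⟨hw.1, h2⟩, hw.2⟩
    exact ((card_le_card h1).trans (card_union_le _ _)).trans (Nat.add_le_add_left hF _)
  have hjf : ((j + f : ℕ) : ℝ) = (j : ℝ) + f := by push_cast; ring
  have hf0 : (0 : ℝ) ≤ f := Nat.cast_nonneg _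
  have hj0 : (0 : ℝ) ≤ j := Nat.cast_nonneg _
  obtain ⟨Hr, V₂, a1, a2, a3, a4, a5, a6⟩ := exists_res hT (P₁ := P₁ \ F₁) (P₂ := P₂ \ F₁) (Rsv := Rsv) (Dm := Dm \ F₁)
    (Gc := Gc) (Ex := Ex) (Gd := Good R (κ₀ ^ 2 / 4) η X) (y := y) (c₀ := c₀) (j := j)
    (B := 6 * (j + f) + 4 * Bad.card + 4 * (N * e)) (e₁ := 6 * f + 4 * Bad.card + 4 * (N * e)) (by
      intro w hw
      rw [mem_sdiff, hDm, mem_filter] at hw
      exact ⟨mem_sdiff.2 ⟨hw.1.1, hw.2⟩, hw.1.2.1, h.good w hw.1.2.2.1⟩)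
      (fun w hw => mem_sdiff.2 ⟨(h.hRsv w hw).1, fun hwF => disjoint_left.1 hFR hwF hw⟩) (by
      intro w hw
      rw [mem_sdiff, hDm, mem_filter] at hw
      have h1 := hcap w hw.1.2.2.1 hw.1.2.2.2
      have h2 : X.filter (fun v => R v w ∧ Good R (κ₀ ^ 2 / 4) η X v) ⊆
          ((P₁ \ F₁) ∪ (P₂ \ F₁)).filter (fun v => R v w ∧ Good R (κ₀ ^ 2 / 4) η X v) ∪ (ys.toFinset ∪ F₁) := by
        intro v hv
        rw [mem_filter] at hv
        rw [mem_union, mem_filter, mem_union, mem_union, mem_sdiff, mem_sdiff, List.mem_toFinset]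
        by_cases h5 : v ∈ F₁
        · exact Or.inr (Or.inr h5)
        · by_cases h3 : v ∈ ys
          · exact Or.inr (Or.inl h3)
          · by_cases h4 : v ∈ P₁
            · exact Or.inl ⟨Or.inl ⟨h4, h5⟩, hv.2⟩
            · exact Or.inl ⟨Or.inr ⟨(h.part v).2 ⟨hv.1, h4, h3⟩, h5⟩, hv.2⟩
      have h3 := (card_le_card h2).trans (card_union_le _ _)
      have h4 := ys.toFinset_card_le
      have h5 := card_union_le ys.toFinset F₁
      rw [h.len] at h4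
      omega) (by
      intro u hu huy
      rw [mem_sdiff] at hu
      rcases h.out u hu.1 huy with h1 | ⟨w, h1, h2, h3⟩ | h1 | h1
      · exact Or.inl h1
      · refine Or.inr (Or.inl ⟨w, h1, ?_, h3⟩)
        rw [mem_sdiff, hDm, mem_filter]
        obtain ⟨h4, h5, h6⟩ := h.hRsv w h1
        exact ⟨⟨h4, h2, h5, h6⟩, fun hwF => disjoint_left.1 hFR hwF h1⟩
      · exact Or.inr (Or.inr (Or.inl h1))
      · refine Or.inr (Or.inr (Or.inr ?_))
        have h2 := hfil' u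
        rw [hfil u] at h2
        have h3 : j + f < (P₂.filter (fun w => R y w ∧ R w u ∧ w ∈ G ∧ w ∉ Bad)).card := by
          exact_mod_cast hj.trans_le h1
        omega) (by
      have h1 := h.cnt f (by linarith)
      have h2 : (Gc.filter (fun u => ((Dm \ F₁).filter (fun w => R w u)).card = 0)) ⊆
          Gc.filter (fun u => (P₂.filter (fun w => R y w ∧ R w u ∧ w ∈ G ∧ w ∉ Bad)).card ≤ f) := by
        intro u hu
        rw [mem_filter] at hu
        rw [mem_filter]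
        have h3 := hfil' u
        rw [hfil u] at h3
        exact ⟨hu.1, by omega⟩
      have h3 := card_le_card h2
      omega) (by
      have h1 := h.cnt (j + f) hj.le
      have h2 : (Gc.filter (fun u => ((Dm \ F₁).filter (fun w => R w u)).card ≤ j)) ⊆
          Gc.filter (fun u => (P₂.filter (fun w => R y w ∧ R w u ∧ w ∈ G ∧ w ∉ Bad)).card ≤ j + f) := by
        intro u hu
        rw [mem_filter] at hu
        rw [mem_filter]
        have h3 := hfil' u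
        rw [hfil u] at h3
        exact ⟨hu.1, by omega⟩
      exact (card_le_card h2).trans h1)
  have hHF : Disjoint Hr F₁ := disjoint_of_subset_left a1 sdiff_disjoint
  refine ⟨Hr, V₂, a1.trans sdiff_subset, hHF, a2.trans sdiff_subset, disjoint_of_subset_left a2 sdiff_disjoint, a3, a4,
    a5.trans (Nat.mul_le_mul_right _ (Nat.add_le_add_right h.hRc _)), ?_⟩
  intro S₀ hS₀ hSj k t hk ht P hP
  have hPe : P = (P₂ \ F₁) \ S₀ := by
    rw [hP, sdiff_sdiff_left, sup_eq_union]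
  have hrea : ∀ v, Good R (κ₀ ^ 2 / 4) η X v → Rea R X P k t v := fun v hv =>
    AECut.rea_mono (AECut.Good.rea hv (by rw [hP]; exact sdiff_subset.trans hP₂X) ht) hk le_rfl
  have a6' := a6 S₀ hS₀ hSj
  rw [← hPe] at a6'
  constructor
  · refine le_trans (card_le_card ?_) (a6'.trans (Nat.add_le_add_right h.hEx _))
    intro u hu
    rw [mem_filter] at hu ⊢
    refine ⟨hu.1, hu.2.1, fun hc => hu.2.2 ?_⟩
    obtain ⟨w, h1, h2, h3, h4, h5⟩ := hc
    refine ⟨w, h1, h2, h3, hrea w h4, h5.trans (card_le_card ?_)⟩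
    intro v hv
    rw [mem_filter] at hv ⊢
    exact ⟨hv.1, hv.2.1, hrea v hv.2.2⟩
  · have h1 := h.lin
    have h2 : P₂.filter (fun w => R y w ∧ w ∈ G ∧ w ∉ Bad) ⊆
        P.filter (fun w => R y w ∧ Rea R X P k t w) ∪ (F₁ ∪ S₀) := by
      intro w hw
      rw [mem_filter] at hw
      rw [mem_union, mem_filter]
      by_cases h3 : w ∈ F₁ ∪ S₀
      · exact Or.inr h3
      · exact Or.inl ⟨by rw [hP, mem_sdiff]; exact ⟨hw.1, h3⟩, hw.2.1, hrea w (h.good w hw.2.2.1)⟩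
    have h3 := (card_le_card h2).trans (card_union_le _ _)
    have h4 := card_union_le F₁ S₀
    have h5 : ((P₂.filter (fun w => R y w ∧ w ∈ G ∧ w ∉ Bad)).card : ℝ) ≤
        (P.filter (fun w => R y w ∧ Rea R X P k t w)).card + (f + S₀.card) := by
      exact_mod_cast h3.trans (Nat.add_le_add_left (h4.trans (Nat.add_le_add_right hF _)) _)
    linarith

/-- **The reserve at the first host of the dual group cut** (second part small), a bounded set `F₁` being removed -/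
theorem GCD.res' (hT : AE32.Tour R) {X Bd Bad : Finset V} {p q N e : ℕ} {κ₀ η : ℝ} {G : Finset V} {ys : List V} {y : V}
    {P₁ P₂ U₂ Rsv Gc Ex : Finset V} (h : GCD R X Bd Bad p q N e κ₀ η G ys y P₁ P₂ U₂ Rsv Gc Ex) {F₁ : Finset V}
    {c₀ j f : ℕ} (hF : F₁.card ≤ f) (hFR : Disjoint F₁ Rsv) (hj : ((j + f : ℕ) : ℝ) < κ₀ * X.card)
    (hcap : ∀ g ∈ G, g ∉ Bad →
      2 * c₀ + N + f ≤ (X.filter (fun v => rv R v g ∧ Good (rv R) (κ₀ ^ 2 / 4) η X v)).card) :
    ∃ Hr V₂ : Finset V, Hr ⊆ P₁ ∧ Disjoint Hr F₁ ∧ V₂ ⊆ P₂ ∧ Disjoint V₂ F₁ ∧ V₂.card ≤ 2 * c₀ * c₀ ∧ Rsv ⊆ Hr ∧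
      Hr.card ≤ (2 * q + e + 1 + (6 * (j + f) + 4 * Bad.card + 4 * (N * e))) * (1 + c₀) ∧
      ∀ S₀ : Finset V, Disjoint S₀ Hr → S₀.card + 2 * c₀ ≤ j → ∀ k t : ℝ, k ≤ κ₀ ^ 2 / 4 * X.card → η * X.card ≤ t →
        ∀ P : Finset V, P = P₁ \ (F₁ ∪ S₀) →
        (P.filter (fun u => rv R u y ∧ ¬ ∃ w ∈ P, rv R y w ∧ rv R w u ∧ Rea (rv R) X P k t w ∧
          c₀ ≤ ((P ∪ V₂).filter (fun v => rv R v w ∧ Rea (rv R) X P k t v)).card)).card ≤
            e + (6 * f + 4 * Bad.card + 4 * (N * e)) ∧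
        κ₀ * X.card - f - S₀.card ≤ ((P.filter (fun w => rv R y w ∧ Rea (rv R) X P k t w)).card : ℝ) :=
  GC.res' (rv_tour hT) h.gc hF hFR hj hcap

end AEG
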