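import Pool.Agent.AEG.GlueS

/-!
# The line of a coded tree as one coded forest
-/

namespace AEG

open Finset Relation AE15 AED AEB
open scoped Classical

/-- all arcs reversed -/
def flip : Fd → Fd
  | .nil => .nil
  | .node d c s => .node (!d) (flip c) (flip s)

/-- the trees of two forests at the same vertex -/
def app : Fd → Fd → Fd
  | .nil, G => G
  | .node d c s, G => .node d c (app s G)

/-- the rest of the line as a forest: one tree, whose root is the first vertex of the line -/
def toF : List (Fd × Fd) → Fd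
  | [] => .nil
  | q :: L => .node true (app (flip q.1) (app q.2 (toF L))) .nil

/-- the children forest of the first vertex of the line -/
def chF (q : Fd × Fd) (L : List (Fd × Fd)) : Fd := app (flip q.1) (app q.2 (toF L))

/-- number of vertices of the line and its side trees -/
def szS (L : List (Fd × Fd)) : ℕ := (L.map (fun q => q.1.size + q.2.size + 1)).sum

theorem szS_cons (q : Fd × Fd) (L : List (Fd × Fd)) : szS (q :: L) = q.1.size + q.2.size + 1 + szS L := by
  simp [szS]

theorem flip_size (F : Fd) : (flip F).size = F.size := by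
  induction F with
  | nil => rfl
  | node d c s ihc ihs => simp only [flip, Fd.size, ihc, ihs]

theorem flip_len (F : Fd) : (flip F).len = F.len := by
  induction F with
  | nil => rfl
  | node d c s _ ihs => simp only [flip, Fd.len, ihs]

theorem flip_deg {b : ℕ} {F : Fd} (h : F.Deg b) : (flip F).Deg b := by
  induction F with
  | nil => trivial
  | node d c s ihc ihs =>
    obtain ⟨h1, h2, h3⟩ := h
    exact ⟨by rw [flip_len]; exact h1, ihc h2, ihs h3⟩

theorem app_size (F G : Fd) : (app F G).size = F.size + G.size := by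
  induction F with
  | nil => simp [app, Fd.size]
  | node d c s _ ihs => simp only [app, Fd.size, ihs]; omega

theorem app_len (F G : Fd) : (app F G).len = F.len + G.len := by
  induction F with
  | nil => simp [app, Fd.len]
  | node d c s _ ihs => simp only [app, Fd.len, ihs]; omega

theorem app_deg {b : ℕ} {F G : Fd} (hF : F.Deg b) (hG : G.Deg b) : (app F G).Deg b := by
  induction F with
  | nil => exact hG
  | node d c s _ ihs => exact ⟨hF.1, hF.2.1, ihs hF.2.2⟩

theorem app_inR {l j : ℕ} {F G : Fd} (hF : InR l j F) (hG : InR l j G) : InR l j (app F G) := by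
  induction F with
  | nil => exact hG
  | node d c s _ ihs => exact ⟨hF.1, ihs hF.2⟩

theorem deg_mono {b b' : ℕ} (hb : b ≤ b') {F : Fd} (h : F.Deg b) : F.Deg b' := by
  induction F with
  | nil => trivial
  | node d c s ihc ihs => exact ⟨h.1.trans hb, ihc h.2.1, ihs h.2.2⟩

theorem inR_mono {l l' : ℕ} (hl : l ≤ l') {F : Fd} : ∀ {j : ℕ}, InR l j F → InR l' j F := by
  induction F with
  | nil => intro j _; trivial
  | node d c s ihc ihs =>
    intro j h
    refine ⟨?_, ihs h.2⟩
    cases d with
    | true => exact ihc h.1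
    | false => exact ⟨h.1.1.trans hl, ihc h.1.2⟩

/-- small forests have short runs -/
theorem inR_of_size {l : ℕ} {F : Fd} : ∀ {j : ℕ}, F.size + j ≤ l → InR l j F := by
  induction F with
  | nil => intro j _; trivial
  | node d c s ihc ihs =>
    intro j h
    simp only [Fd.size] at h
    refine ⟨?_, ihs (by omega)⟩
    cases d with
    | true => exact ihc (by omega)
    | false => exact ⟨by omega, ihc (by omega)⟩

theorem toF_size (L : List (Fd × Fd)) : (toF L).size = szS L := by
  induction L with
  | nil => rfl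
  | cons q L ih =>
    rw [szS_cons, ← ih]
    simp only [toF, Fd.size, app_size, flip_size]
    omega

theorem toF_len (L : List (Fd × Fd)) : (toF L).len ≤ 1 := by
  cases L with
  | nil => simp [toF, Fd.len]
  | cons q L => simp [toF, Fd.len]

theorem chF_size (q : Fd × Fd) (L : List (Fd × Fd)) : (chF q L).size + 1 = szS (q :: L) := by
  rw [szS_cons, ← toF_size]
  simp only [chF, app_size, flip_size]
  omega

/-- the class of the tree of the line -/
theorem chF_fok {b l B : ℕ} (q : Fd × Fd) (L : List (Fd × Fd)) (h : ∀ t ∈ q :: L, FOK b l 0 t.1 ∧ FOK b l 0 t.2)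
    (hB : ∀ t ∈ q :: L, t.1.size ≤ B) : FOK (2 * b + 1) (max l B) 0 (chF q L) := by
  have key : ∀ L : List (Fd × Fd), (∀ t ∈ L, FOK b l 0 t.1 ∧ FOK b l 0 t.2) → (∀ t ∈ L, t.1.size ≤ B) →
      (toF L).Deg (2 * b + 1) ∧ InR (max l B) 0 (toF L) := by
    intro L
    induction L with
    | nil => intro _ _; exact ⟨trivial, trivial⟩
    | cons q L ih =>
      intro h hB
      obtain ⟨i1, i2⟩ := ih (fun t ht => h t (List.mem_cons_of_mem _ ht)) (fun t ht => hB t (List.mem_cons_of_mem _ ht))
      obtain ⟨⟨a1, a2, -⟩, c1, c2, c3⟩ := h q List.mem_cons_self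
      have hq := hB q List.mem_cons_self
      have e1 := toF_len L
      refine ⟨⟨?_, app_deg (deg_mono (by omega) (flip_deg a2)) (app_deg (deg_mono (by omega) c2) i1), trivial⟩, ?_, trivial⟩
      · rw [app_len, app_len, flip_len]
        omega
      · exact app_inR (inR_of_size (by rw [flip_size]; omega)) (app_inR (inR_mono (le_max_left _ _) c3) i2)
  obtain ⟨k1, k2⟩ := key (q :: L) h hB
  exact ⟨k1.1, k1.2.1, k2.1⟩

variable {V : Type*} {R : V → V → Prop}

theorem emb_flip {F : Fd} {v : V} {S : Finset V} (h : Emb R (flip F) v S) : Emb (SPD.rv R) F v S := by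
  induction F generalizing v S with
  | nil => exact h
  | node d c s ihc ihs =>
    obtain ⟨x, A, B, h1, h2, h3, h4, h5, h6, h7⟩ := h
    refine ⟨x, A, B, ?_, h2, h3, h4, h5, ihc h6, ihs h7⟩
    cases d with
    | true => simpa [Adj, SPD.rv] using h1
    | false => simpa [Adj, SPD.rv] using h1

theorem emb_app {F G : Fd} {v : V} {S : Finset V} (h : Emb R (app F G) v S) :
    ∃ S₁ S₂, Disjoint S₁ S₂ ∧ S = S₁ ∪ S₂ ∧ Emb R F v S₁ ∧ Emb R G v S₂ := by
  induction F generalizing S with
  | nil => exact ⟨∅, S, disjoint_empty_left _, (empty_union _).symm, rfl, h⟩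
  | node d c s _ ihs =>
    obtain ⟨x, A, B, h1, h2, h3, h4, rfl, h6, h7⟩ := h
    obtain ⟨S₁, S₂, g1, rfl, g2, g3⟩ := ihs h7
    rw [disjoint_union_right] at h4
    rw [mem_union, not_or] at h3
    refine ⟨insert x (A ∪ S₁), S₂, ?_, ?_, ⟨x, A, S₁, h1, h2, h3.1, h4.1, rfl, h6, g2⟩, g3⟩
    · rw [disjoint_insert_left, disjoint_union_left]
      exact ⟨h3.2, h4.2, g1⟩
    · rw [insert_union, union_assoc]

theorem embS_of_chF (q : Fd × Fd) (L : List (Fd × Fd)) {y : V} {S : Finset V} (h : Emb R (chF q L) y S) :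
    EmbS R (q :: L) y S := by
  induction L generalizing q y S with
  | nil =>
    obtain ⟨S₁, S', h1, rfl, h2, h3⟩ := emb_app h
    obtain ⟨S₂, S₃, h4, rfl, h5, h6⟩ := emb_app h3
    rw [show S₃ = ∅ from h6, union_empty] at h1 ⊢
    exact ⟨S₁, S₂, h1, rfl, emb_flip h2, h5⟩
  | cons q' L ih =>
    obtain ⟨S₁, S', h1, rfl, h2, h3⟩ := emb_app h
    obtain ⟨S₂, S'', h4, rfl, h5, h6⟩ := emb_app h3
    obtain ⟨z, A, B, g1, g2, g3, g4, g5, g6, g7⟩ := h6
    rw [show B = ∅ from g7, union_empty] at g5
    subst g5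
    rw [disjoint_union_right] at h1
    refine ⟨S₁, S₂, z, A, h1.1, disjoint_union_left.2 ⟨h1.2, h4⟩, g2, ?_, ?_, emb_flip h2, h5, ih q' g6⟩
    · simpa [Adj] using g1
    · rw [union_assoc]

/-- hand-over: the tree of the line in the coded form -/
theorem embS_of_in (q : Fd × Fd) (L : List (Fd × Fd)) {N : V → Prop} {X : Finset V} (h : In R (chF q L) N X) :
    ∃ y ∈ X, N y ∧ ∃ S ⊆ X, y ∉ S ∧ EmbS R (q :: L) y S := by
  obtain ⟨y, hy, S, hS, hyS, hN, hE⟩ := h
  exact ⟨y, hy, hN, S, hS, hyS, embS_of_chF q L hE⟩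

theorem EmbS.card {L : List (Fd × Fd)} {y : V} {S : Finset V} (h : EmbS R L y S) : S.card + 1 = szS L := by
  induction L generalizing y S with
  | nil => exact absurd h id
  | cons q L ih =>
    cases L with
    | nil =>
      obtain ⟨S₁, S₂, h1, rfl, h2, h3⟩ := h
      rw [card_union_of_disjoint h1, h2.card, h3.card, szS_cons]
      simp [szS]
    | cons q' L =>
      obtain ⟨S₁, S₂, z, S₃, h1, h2, h3, -, rfl, h5, h6, h7⟩ := h
      have e := ih h7
      rw [card_union_of_disjoint h2, card_union_of_disjoint h1, card_insert_of_notMem h3, h5.card, h6.card, szS_cons]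
      omega

end AEG
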