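import Pool.Agent.AEG.FinalM

/-!
# Class M2: the list side of the driver
-/

namespace AEG

open Finset Relation AE15 AED AEB
open scoped Classical

/-- the branches at the vertex with number `i` have at most `B` vertices -/
def SmL (B : ℕ) (L : List (Fd × Fd)) (i : ℕ) : Prop := ∃ q, L[i]? = some q ∧ q.1.size + q.2.size ≤ B

/-- the in-branches at the vertex with number `i` have more than `B` vertices -/
def BgL (B : ℕ) (L : List (Fd × Fd)) (i : ℕ) : Prop := ∃ q, L[i]? = some q ∧ B < q.1.size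

/-- three consecutive vertices with small branches -/
def TrL (B : ℕ) (L : List (Fd × Fd)) (j : ℕ) : Prop := SmL B L j ∧ SmL B L (j + 1) ∧ SmL B L (j + 2)

/-- before every vertex with more than `B` vertices in its in-branches there are three consecutive vertices with small
branches -/
def FolL (B : ℕ) (L : List (Fd × Fd)) : Prop := ∀ h, BgL B L h → ∃ j, j + 3 ≤ h ∧ TrL B L j

/-- before every vertex with more than `B₂` vertices in its in-branches there are three consecutive vertices with small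
branches, or the first two vertices have small branches -/
def QL (B B₂ : ℕ) (L : List (Fd × Fd)) : Prop := ∀ g, BgL B₂ L g → (∃ j, j + 3 ≤ g ∧ TrL B L j) ∨
  (2 ≤ g ∧ SmL B L 0 ∧ SmL B L 1)

theorem BgL.mono {B B₂ : ℕ} (h : B ≤ B₂) {L : List (Fd × Fd)} {i : ℕ} (hb : BgL B₂ L i) : BgL B L i := by
  obtain ⟨q, h1, h2⟩ := hb
  exact ⟨q, h1, by omega⟩

theorem BgL.lt {B : ℕ} {L : List (Fd × Fd)} {i : ℕ} (hb : BgL B L i) : i < L.length := by
  obtain ⟨q, h1, -⟩ := hb
  by_contra h
  rw [List.getElem?_eq_none (by omega)] at h1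
  simp at h1

theorem BgL.not_sm {B B₂ : ℕ} (h : B ≤ B₂) {L : List (Fd × Fd)} {i : ℕ} (hb : BgL B₂ L i) : ¬ SmL B L i := by
  obtain ⟨q, h1, h2⟩ := hb
  rintro ⟨q', h3, h4⟩
  rw [h1] at h3
  obtain rfl : q = q' := by simpa using h3
  omega

theorem smL_drop {B n : ℕ} {L : List (Fd × Fd)} {i : ℕ} : SmL B (L.drop n) i ↔ SmL B L (n + i) := by
  simp [SmL, List.getElem?_drop]

theorem bgL_drop {B n : ℕ} {L : List (Fd × Fd)} {i : ℕ} : BgL B (L.drop n) i ↔ BgL B L (n + i) := by
  simp [BgL, List.getElem?_drop]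

theorem trL_drop {B n : ℕ} {L : List (Fd × Fd)} {j : ℕ} : TrL B (L.drop n) j ↔ TrL B L (n + j) := by
  simp only [TrL, smL_drop, add_assoc]

theorem ClsM.trip {B N : ℕ} {L : List (Fd × Fd)} (h : ClsM B N L) {i : ℕ} (hi : N ≤ i) (hb : BgL B L i) :
    ∃ j, i ≤ j + N ∧ j + 3 ≤ i ∧ TrL B L j := by
  have hil := hb.lt
  obtain ⟨q, h1, h2⟩ := hb
  obtain ⟨j, j1, j2, j3⟩ := h i hi q h1 h2
  have hs : ∀ s < 3, SmL B L (j + s) := by
    intro s hs
    have : j + s < L.length := by omega
    exact ⟨L[j + s], List.getElem?_eq_getElem this, j3 s hs _ (List.getElem?_eq_getElem this)⟩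
  exact ⟨j, j1, j2, hs 0 (by omega), hs 1 (by omega), hs 2 (by omega)⟩

/-- the class is closed under suffixes -/
theorem ClsM.drop {B N : ℕ} {L : List (Fd × Fd)} (h : ClsM B N L) (n : ℕ) : ClsM B N (L.drop n) := by
  intro i hi q hq hB
  rw [List.getElem?_drop] at hq
  obtain ⟨j, j1, j2, j3⟩ := h (n + i) (by omega) q hq hB
  refine ⟨j - n, by omega, by omega, ?_⟩
  intro s hs q' hq'
  rw [List.getElem?_drop, show n + (j - n + s) = j + s by omega] at hq'
  exact j3 s hs q' hq'

/-- **the end of a group**: the vertices before `t` are the links -/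
theorem exists_end {B N : ℕ} {L : List (Fd × Fd)} (hc : ClsM B N L) {g t : ℕ} (hg : BgL B L g)
    (hJ : ∀ j, TrL B L j → j + 3 ≤ g → j + 3 ≤ t) :
    ∃ e, g ≤ e ∧ e < L.length ∧ e + 1 ≤ t + N ∧ FolL B (L.drop (e + 1)) := by
  set Nx : ℕ → Prop := fun e => g ≤ e ∧ BgL B L e ∧ ∀ h, e < h → BgL B L h → ∃ j, e < j ∧ j + 3 ≤ h ∧ TrL B L j with hNx
  have hex : ∃ e, Nx e := by
    -- the last one
    set S : Finset ℕ := (Finset.range L.length).filter (fun i => BgL B L i) with hS
    have hgS : g ∈ S := mem_filter.2 ⟨Finset.mem_range.2 hg.lt, hg⟩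
    have hmem := S.max'_mem ⟨g, hgS⟩
    refine ⟨S.max' ⟨g, hgS⟩, S.le_max' g hgS, (mem_filter.1 hmem).2, ?_⟩
    intro h h1 h2
    exfalso
    have := S.le_max' h (mem_filter.2 ⟨Finset.mem_range.2 h2.lt, h2⟩)
    omega
  obtain ⟨e1, e2, e3⟩ := Nat.find_spec hex
  set e := Nat.find hex with he
  refine ⟨e, e1, e2.lt, ?_, ?_⟩
  · by_cases hN : N ≤ e
    · obtain ⟨j, j1, j2, j3⟩ := hc.trip hN e2
      by_cases h3 : j + 3 ≤ g
      · have := hJ j j3 h3
        omega
      · exfalso
        -- the triple is behind `g`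
        have hgj : g < j := by
          rcases Nat.lt_or_ge g j with h | h
          · exact h
          · exfalso
            obtain ⟨k1, k2, k3⟩ := j3
            have h4 : g = j ∨ g = j + 1 ∨ g = j + 2 := by omega
            rcases h4 with h4 | h4 | h4
            · exact hg.not_sm le_rfl (h4 ▸ k1)
            · exact hg.not_sm le_rfl (h4 ▸ k2)
            · exact hg.not_sm le_rfl (h4 ▸ k3)
        set S : Finset ℕ := (Finset.range j).filter (fun i => BgL B L i) with hS
        have hgS : g ∈ S := mem_filter.2 ⟨Finset.mem_range.2 hgj, hg⟩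
        have hmem := S.max'_mem ⟨g, hgS⟩
        rw [mem_filter, Finset.mem_range] at hmem
        have hlt : S.max' ⟨g, hgS⟩ < e := by omega
        refine Nat.find_min hex hlt ⟨S.le_max' g hgS, hmem.2, ?_⟩
        intro h h1 h2
        refine ⟨j, hmem.1, ?_, j3⟩
        have hjh : j ≤ h := by
          by_contra hc'
          have := S.le_max' h (mem_filter.2 ⟨Finset.mem_range.2 (by omega), h2⟩)
          omega
        obtain ⟨k1, k2, k3⟩ := j3
        have n1 : h ≠ j := fun hh => h2.not_sm le_rfl (hh ▸ k1)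
        have n2 : h ≠ j + 1 := fun hh => h2.not_sm le_rfl (hh ▸ k2)
        have n3 : h ≠ j + 2 := fun hh => h2.not_sm le_rfl (hh ▸ k3)
        omega
    · omega
  · intro h hh
    rw [bgL_drop] at hh
    obtain ⟨j, j1, j2, j3⟩ := e3 (e + 1 + h) (by omega) hh
    refine ⟨j - (e + 1), by omega, ?_⟩
    rw [trL_drop, show e + 1 + (j - (e + 1)) = j by omega]
    exact j3

/-- total size of the in-branches -/
def inS (L : List (Fd × Fd)) : ℕ := (L.map (fun q => q.1.size)).sum

theorem lt_inS_of_mem {B₂ : ℕ} {L : List (Fd × Fd)} {q : Fd × Fd} (hq : q ∈ L) (h : B₂ < q.1.size) : B₂ < inS L := by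
  have : q.1.size ≤ inS L := List.single_le_sum (by simp) _ (List.mem_map.2 ⟨q, hq, rfl⟩)
  omega

theorem split3 (L : List (Fd × Fd)) {t e : ℕ} (h : t ≤ e + 1) :
    L = L.take t ++ (L.drop t).take (e + 1 - t) ++ L.drop (e + 1) := by
  have h1 : L.drop (e + 1) = (L.drop t).drop (e + 1 - t) := by
    rw [List.drop_drop]
    congr 1
    omega
  rw [h1, List.append_assoc, List.take_append_drop, List.take_append_drop]

theorem mem_mid {L : List (Fd × Fd)} {t e g : ℕ} {q : Fd × Fd} (hq : L[g]? = some q) (h1 : t ≤ g) (h2 : g ≤ e) :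
    q ∈ (L.drop t).take (e + 1 - t) := by
  apply List.mem_of_getElem? (i := g - t)
  rw [List.getElem?_take_of_lt (by omega), List.getElem?_drop, show t + (g - t) = g by omega, hq]

theorem smL_of_take {B : ℕ} {L : List (Fd × Fd)} {t : ℕ} (h : ∀ i < t, SmL B L i) : ∀ q ∈ L.take t, q.1.size + q.2.size ≤ B := by
  intro q hq
  obtain ⟨i, hi⟩ := List.mem_iff_getElem?.1 hq
  have hit : i < t := by
    by_contra hc
    rw [List.getElem?_eq_none (by rw [List.length_take]; omega)] at hi
    simp at hi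
  rw [List.getElem?_take_of_lt hit] at hi
  obtain ⟨q', h1, h2⟩ := h i hit
  rw [hi] at h1
  obtain rfl : q = q' := by simpa using h1
  exact h2

/-- **the next step**: no large in-branches; or a group behind two or three links; or a tame round is possible, whatever
number of vertices (one or two) it places -/
theorem next_step {B B₂ N : ℕ} (hB : B ≤ B₂) {L : List (Fd × Fd)} (hc : ClsM B N L) (hQ : QL B B₂ L) :
    (∀ g, ¬ BgL B₂ L g) ∨
      (∃ lk gr rest, L = lk ++ gr ++ rest ∧ (lk.length = 2 ∨ lk.length = 3) ∧ (∀ q ∈ lk, q.1.size + q.2.size ≤ B) ∧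
        gr ≠ [] ∧ gr.length ≤ N ∧ B₂ < inS gr ∧ ClsM B N rest ∧ FolL B rest) ∨
      ((∀ i < 2, ¬ BgL B₂ L i) ∧ 3 ≤ L.length ∧ QL B B₂ (L.drop 1) ∧ QL B B₂ (L.drop 2)) := by
  by_cases hno : ∃ g, BgL B₂ L g
  swap
  · left
    exact fun g hg => hno ⟨g, hg⟩
  right
  have hg := Nat.find_spec hno
  have hmin : ∀ g', BgL B₂ L g' → Nat.find hno ≤ g' := fun g' h => Nat.find_min' hno h
  set g := Nat.find hno with hgdef
  have hg0 : BgL B L g := hg.mono hB
  -- the cut behind `t` links
  have hcut : ∀ t, (t = 2 ∨ t = 3) → t ≤ g → (∀ i < t, SmL B L i) → (∀ j, TrL B L j → j + 3 ≤ g → j + 3 ≤ t) →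
      ∃ lk gr rest, L = lk ++ gr ++ rest ∧ (lk.length = 2 ∨ lk.length = 3) ∧ (∀ q ∈ lk, q.1.size + q.2.size ≤ B) ∧
        gr ≠ [] ∧ gr.length ≤ N ∧ B₂ < inS gr ∧ ClsM B N rest ∧ FolL B rest := by
    intro t ht htg hsm hJ
    obtain ⟨e, e1, e2, e3, e4⟩ := exists_end hc hg0 hJ
    obtain ⟨q, hq1, hq2⟩ := hg
    have hmem := mem_mid hq1 htg e1
    refine ⟨L.take t, (L.drop t).take (e + 1 - t), L.drop (e + 1), split3 L (by omega), ?_, smL_of_take hsm,
      List.ne_nil_of_mem hmem, ?_, lt_inS_of_mem hmem hq2, hc.drop _, e4⟩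
    · rw [List.length_take]
      omega
    · rw [List.length_take]
      omega
  by_cases hJ : ∃ j, j + 3 ≤ g ∧ TrL B L j
  · -- the last triple before `g`
    set S : Finset ℕ := (Finset.range g).filter (fun j => j + 3 ≤ g ∧ TrL B L j) with hS
    have hne : S.Nonempty := by
      obtain ⟨j, j1, j2⟩ := hJ
      exact ⟨j, mem_filter.2 ⟨Finset.mem_range.2 (by omega), j1, j2⟩⟩
    obtain ⟨j, hj1, hj2⟩ : ∃ j ∈ S, ∀ j' ∈ S, j' ≤ j := ⟨S.max' hne, S.max'_mem hne, fun j' h => S.le_max' j' h⟩
    rw [mem_filter, Finset.mem_range] at hj1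
    obtain ⟨-, hj3, hj4⟩ := hj1
    rcases Nat.eq_zero_or_pos j with h0 | h0
    · left
      subst h0
      refine hcut 3 (Or.inr rfl) (by omega) ?_ ?_
      · intro i hi
        obtain ⟨k1, k2, k3⟩ := hj4
        have : i = 0 ∨ i = 1 ∨ i = 2 := by omega
        rcases this with rfl | rfl | rfl
        exacts [k1, k2, k3]
      · intro j' h1 h2
        have := hj2 j' (mem_filter.2 ⟨Finset.mem_range.2 (by omega), h2, h1⟩)
        omega
    · right
      have hgl := hg.lt
      refine ⟨fun i hi hbi => ?_, by omega, ?_, ?_⟩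
      · have := hmin i hbi
        omega
      · intro g' hg'
        rw [bgL_drop] at hg'
        have := hmin _ hg'
        left
        refine ⟨j - 1, by omega, ?_⟩
        rw [trL_drop, show 1 + (j - 1) = j by omega]
        exact hj4
      · intro g' hg'
        rw [bgL_drop] at hg'
        have := hmin _ hg'
        by_cases h2 : 2 ≤ j
        · left
          refine ⟨j - 2, by omega, ?_⟩
          rw [trL_drop, show 2 + (j - 2) = j by omega]
          exact hj4
        · right
          obtain rfl : j = 1 := by omega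
          refine ⟨by omega, ?_, ?_⟩
          · rw [smL_drop]
            exact hj4.2.1
          · rw [smL_drop]
            exact hj4.2.2
  · left
    rcases hQ g hg with h | ⟨h1, h2, h3⟩
    · exact absurd h hJ
    · refine hcut 2 (Or.inl rfl) h1 ?_ ?_
      · intro i hi
        have : i = 0 ∨ i = 1 := by omega
        rcases this with rfl | rfl
        exacts [h2, h3]
      · intro j' h4 h5
        exact absurd ⟨j', h5, h4⟩ hJ

/-- after a group the list is in the class of the driver, and its first three vertices have small in-branches -/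
theorem FolL.QL {B B₂ : ℕ} (hB : B ≤ B₂) {L : List (Fd × Fd)} (h : FolL B L) : QL B B₂ L := fun g hg =>
  Or.inl (h g (hg.mono hB))

theorem FolL.small {B : ℕ} {L : List (Fd × Fd)} (h : FolL B L) : ∀ i < 3, ¬ BgL B L i := by
  intro i hi hb
  obtain ⟨j, j1, -⟩ := h i hb
  omega

theorem QL.of_no {B B₂ : ℕ} {L : List (Fd × Fd)} (h : ∀ g, ¬ BgL B₂ L g) (n : ℕ) : AEG.QL B B₂ (L.drop n) := by
  intro g hg
  rw [bgL_drop] at hg
  exact absurd hg (h _)

/-- **the start**: the list is in the class of the driver, or it starts with a group -/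
theorem start_step {B B₂ N : ℕ} (hB : B ≤ B₂) {L : List (Fd × Fd)} (hc : ClsM B N L) : QL B B₂ L ∨
    ∃ gr rest, L = gr ++ rest ∧ gr ≠ [] ∧ gr.length ≤ N ∧ B₂ < inS gr ∧ ClsM B N rest ∧ FolL B rest := by
  by_cases hQ : QL B B₂ L
  · exact Or.inl hQ
  right
  unfold QL at hQ
  push Not at hQ
  obtain ⟨g, hg, hg1, -⟩ := hQ
  obtain ⟨e, e1, e2, e3, e4⟩ := exists_end (t := 0) hc (hg.mono hB) (fun j h1 h2 => absurd h1 (hg1 j h2))
  obtain ⟨q, hq1, hq2⟩ := hg
  have hmem := mem_mid (t := 0) hq1 (Nat.zero_le _) e1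
  have h3 := split3 L (t := 0) (e := e) (Nat.zero_le _)
  rw [List.take_zero, List.nil_append] at h3
  refine ⟨(L.drop 0).take (e + 1 - 0), L.drop (e + 1), h3, List.ne_nil_of_mem hmem, ?_, lt_inS_of_mem hmem hq2, hc.drop _, e4⟩
  rw [List.length_take]
  omega

end AEG
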