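import Pool.Agent.AEM.Order
import Pool.Agent.AEG.PackB
import Pool.Agent.AEX.Four

/-!
# Predecessors of an exact host

`exists_pred`: in a large set `W` of in-neighbours of `y` outside of a small set `F` there is a chain of `r` hosts in
front of `y`, each of which has a quarter of `W` as out-neighbours outside of `F` and the chain.

`pred`: forests which hang on these hosts by arcs leaving them, of small total size, are embedded outside of `F` and the
chain.
-/

set_option autoImplicit false

namespace AEG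

open Finset AE15 AED AEB AELT
open scoped Classical

section general

variable {V : Type*} {R : V → V → Prop}

theorem deg_mono_pred {c : Fd} {b b' : ℕ} (h : c.Deg b) (hb : b ≤ b') : c.Deg b' := by
  induction c with
  | nil => trivial
  | node d c s ihc ihs => exact ⟨h.1.trans hb, ihc h.2.1, ihs h.2.2⟩

theorem exists_deg_pred (c : Fd) : ∃ b, c.len ≤ b ∧ c.Deg b := by
  induction c with
  | nil => exact ⟨0, le_rfl, trivial⟩
  | node d c s ihc ihs =>
    obtain ⟨b₁, h1, h2⟩ := ihc
    obtain ⟨b₂, h3, h4⟩ := ihs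
    refine ⟨b₁ + b₂ + 1, ?_, h1.trans (by omega), deg_mono_pred h2 (by omega), deg_mono_pred h4 (by omega)⟩
    simp only [Fd.len]
    omega

/-- every oriented tree is contained in every set with four times as many vertices -/
theorem tree_four (hT : AE32.Tour R) (c : Fd) {X : Finset V} (hX : 4 * (c.size + 1) ≤ X.card) :
    In R c (fun _ => True) X := by
  obtain ⟨b, h1, h2⟩ := exists_deg_pred c
  refine AEX.un_four hT b c h1 h2 X ?_
  have : ((4 * (c.size + 1) : ℕ) : ℝ) ≤ X.card := by exact_mod_cast hX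
  push_cast at this
  linarith

/-- chains of hosts in front of `y` -/
theorem exists_pred (hT : AE32.Tour R) {W F : Finset V} {r : ℕ} {y : V} (hW : ∀ w ∈ W, R w y)
    (hr : 4 * F.card + 8 * r ≤ W.card) : ∃ zs : List V, zs.length = r ∧ zs.Nodup ∧ (zs ++ [y]).IsChain R ∧
      (∀ z ∈ zs, z ∈ W ∧ z ∉ F) ∧ ∀ z ∈ zs, W.card ≤ 8 * (nO R (W \ (F ∪ zs.toFinset)) z).card := by
  obtain ⟨X, hX⟩ : ∃ X, X = W \ F := ⟨_, rfl⟩
  have hXc : W.card ≤ X.card + F.card := by
    have := le_card_sdiff F W
    rw [← hX] at this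
    omega
  obtain ⟨p, hp⟩ := AEM.exists_medO R X
  have hpos : ∀ t, ∃ u, t < X.card → u ∈ X ∧ p u = t := by
    intro t
    by_cases ht : t < X.card
    · obtain ⟨u, hu⟩ := hp.exists_pos ht
      exact ⟨u, fun _ => hu⟩
    · exact ⟨y, fun h => absurd h ht⟩
  choose f hf using hpos
  obtain ⟨zs, hzs⟩ : ∃ zs, zs = (List.range r).map f := ⟨_, rfl⟩
  have hrX : ∀ t, t < r → t < X.card := fun t ht => by omega
  have hmem : ∀ z ∈ zs, z ∈ X ∧ p z < r := by
    intro z hz
    rw [hzs, List.mem_map] at hz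
    obtain ⟨t, ht, rfl⟩ := hz
    rw [List.mem_range] at ht
    obtain ⟨h1, h2⟩ := hf t (hrX t ht)
    exact ⟨h1, by omega⟩
  refine ⟨zs, by rw [hzs, List.length_map, List.length_range], ?_, ?_, ?_, ?_⟩
  · rw [hzs]
    refine List.Nodup.map_on ?_ List.nodup_range
    intro s hs t ht hst
    rw [List.mem_range] at hs ht
    rw [← (hf s (hrX s hs)).2, ← (hf t (hrX t ht)).2, hst]
  · have h1 : zs.IsChain R := by
      rw [hzs, List.isChain_iff_getElem]
      intro i hi
      rw [List.length_map, List.length_range] at hi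
      simp only [List.getElem_map, List.getElem_range]
      obtain ⟨a1, a2⟩ := hf i (hrX i (by omega))
      obtain ⟨a3, a4⟩ := hf (i + 1) (hrX (i + 1) (by omega))
      exact hp.succ hT a1 a3 (by omega)
    rw [List.isChain_append]
    refine ⟨h1, List.isChain_singleton y, ?_⟩
    intro a ha b hb
    simp only [List.head?_cons, Option.mem_def, Option.some.injEq] at hb
    subst hb
    have h2 := (hmem a (List.mem_of_getLast? ha)).1
    rw [hX, mem_sdiff] at h2
    exact hW a h2.1
  · intro z hz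
    have h1 := (hmem z hz).1
    rw [hX, mem_sdiff] at h1
    exact h1
  · intro z hz
    obtain ⟨h1, h2⟩ := hmem z hz
    have h3 := hp.outdeg hT h1
    have h4 : (X.filter (fun w => p z < p w ∧ R z w)).card ≤ (nO R (W \ (F ∪ zs.toFinset)) z).card + zs.toFinset.card := by
      refine le_trans (card_le_card ?_) (card_union_le _ _)
      intro w hw
      rw [mem_filter, hX, mem_sdiff] at hw
      rw [mem_union, mem_nO, mem_sdiff, mem_union]
      by_cases h5 : w ∈ zs.toFinset
      · exact Or.inr h5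
      · exact Or.inl ⟨⟨hw.1.1, not_or.2 ⟨hw.1.2, h5⟩⟩, hw.2.2⟩
    have h5 : zs.toFinset.card ≤ r := by
      refine (List.toFinset_card_le _).trans ?_
      rw [hzs, List.length_map, List.length_range]
    omega

end general

variable {V : Type} {R : V → V → Prop}

/-- a forest whose trees hang by arcs leaving the host -/
theorem fd_four (hT : AE32.Tour R) (v : V) : ∀ (F : Fd) (Y : Finset V), (∀ q ∈ F.trees, q.1 = true) →
    (∀ y ∈ Y, R v y) → 4 * F.size ≤ Y.card → ∃ S ⊆ Y, AED.Emb R F v S
  | .nil, Y, _, _, _ => ⟨∅, empty_subset _, rfl⟩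
  | .node d c s, Y, hF, hY, hc => by
    have hd : d = true := hF (d, c) List.mem_cons_self
    subst hd
    simp only [Fd.size] at hc
    obtain ⟨x, hx, A, hA, hxA, -, hE⟩ := tree_four hT c (X := Y) (by omega)
    have hAc := EmbB.card hE
    have hins : insert x A ⊆ Y := insert_subset hx hA
    have h1 : (Y \ insert x A).card + (A.card + 1) = Y.card := by
      rw [← card_insert_of_notMem hxA]
      exact card_sdiff_add_card_eq_card hins
    obtain ⟨B, hB, hEB⟩ := fd_four hT v s (Y \ insert x A) (fun q hq => hF q (List.mem_cons_of_mem _ hq))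
      (fun y hy => hY y (mem_sdiff.1 hy).1) (by omega)
    have hdis : Disjoint B (insert x A) := disjoint_of_subset_left hB sdiff_disjoint
    rw [disjoint_insert_right] at hdis
    refine ⟨insert x (A ∪ B), ?_, x, A, B, ?_, hxA, hdis.1, hdis.2.symm, rfl, hE, hEB⟩
    · refine insert_subset hx (union_subset hA (hB.trans sdiff_subset))
    · show R v x
      exact hY x hx

/-- forests at several hosts which have many out-neighbours -/
theorem all_four (hT : AE32.Tour R) (Z : Finset V) : ∀ (os : List (V × Fd)) (A : Finset V),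
    (∀ p ∈ os, (∀ q ∈ p.2.trees, q.1 = true) ∧ 4 * totB os + A.card ≤ (nO R Z p.1).card) →
      ∃ S ⊆ Z, Disjoint S A ∧ EmbAllB R os S
  | [], A, _ => ⟨∅, empty_subset _, disjoint_empty_left _, rfl⟩
  | p :: os, A, h => by
    obtain ⟨h1, h2⟩ := h p List.mem_cons_self
    have htot : totB (p :: os) = p.2.size + totB os := by simp [totB]
    obtain ⟨S, hS, hE⟩ := fd_four hT p.1 p.2 (nO R Z p.1 \ A) h1 (fun y hy => (mem_nO.1 (mem_sdiff.1 hy).1).2) (by
      have := le_card_sdiff A (nO R Z p.1)
      omega)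
    have hSc := EmbB.card hE
    obtain ⟨T, hT1, hT2, hT3⟩ := all_four hT Z os (A ∪ S) (by
      intro q hq
      obtain ⟨h3, h4⟩ := h q (List.mem_cons_of_mem _ hq)
      refine ⟨h3, ?_⟩
      have := card_union_le A S
      omega)
    rw [disjoint_union_right] at hT2
    have hSA : Disjoint S A := disjoint_of_subset_left hS sdiff_disjoint
    refine ⟨S ∪ T, union_subset (hS.trans (sdiff_subset.trans nO_sub)) hT1, ?_, S, T, hT2.2.symm, rfl, hE, hT3⟩
    rw [disjoint_union_left]
    exact ⟨hSA, hT2.1⟩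

/-- **Predecessors of an exact host** -/
theorem pred (hT : AE32.Tour R) {W F : Finset V} {r : ℕ} {y : V} (hW : ∀ w ∈ W, R w y)
    (hr : 4 * F.card + 8 * r ≤ W.card) : ∃ zs : List V, zs.length = r ∧ zs.Nodup ∧ (zs ++ [y]).IsChain R ∧
      (∀ z ∈ zs, z ∈ W ∧ z ∉ F) ∧ (∀ z ∈ zs, W.card ≤ 8 * (nO R (W \ (F ∪ zs.toFinset)) z).card) ∧
      ∀ os : List (V × Fd), (∀ p ∈ os, p.1 ∈ zs ∧ ∀ q ∈ p.2.trees, q.1 = true) → 32 * totB os ≤ W.card →
        ∃ S ⊆ W, Disjoint S F ∧ (∀ z ∈ zs, z ∉ S) ∧ S.card = totB os ∧ EmbAllB R os S := by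
  obtain ⟨zs, h1, h2, h3, h4, h5⟩ := exists_pred hT hW hr
  refine ⟨zs, h1, h2, h3, h4, h5, fun os hos htot => ?_⟩
  obtain ⟨S, a1, -, a3⟩ := all_four hT (W \ (F ∪ zs.toFinset)) os ∅ (by
    intro p hp
    obtain ⟨h6, h7⟩ := hos p hp
    have h8 := h5 p.1 h6
    refine ⟨h7, ?_⟩
    rw [card_empty]
    omega)
  refine ⟨S, a1.trans sdiff_subset, ?_, ?_, EmbAllB.card a3, a3⟩
  · rw [disjoint_left]
    intro u hu huF
    exact (mem_sdiff.1 (a1 hu)).2 (mem_union_left _ huF)
  · intro z hz hzS
    exact (mem_sdiff.1 (a1 hzS)).2 (mem_union_right _ (List.mem_toFinset.2 hz))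

end AEG
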