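import Pool.Agent.AEG.PackTwo
import Pool.Agent.AEG.HandS
import Pool.Agent.AEG.ListM
import Pool.Agent.AEG.CovX
import Pool.Agent.AEG.Pred

/-!
# The final stage with a small first part

The in-branches of the group are small in total, and the last vertex of the group has a linear out-branch; what follows
it is small.
-/

set_option autoImplicit false

namespace AEG

open Finset AE15 AED AEB SPD
open scoped Classical

namespace FS

section glue

variable {V : Type} {R : V → V → Prop}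

theorem embAllB_perm {l l' : List (V × Fd)} (h : l.Perm l') : ∀ {S : Finset V}, EmbAllB R l S → EmbAllB R l' S := by
  induction h with
  | nil => intro S h; exact h
  | cons p _ ih =>
    rintro S ⟨S₁, S₂, h1, h2, h3, h4⟩
    exact ⟨S₁, S₂, h1, h2, h3, ih h4⟩
  | swap p q l =>
    rintro S ⟨S₁, S₂, h1, h2, h3, S₃, S₄, h4, h5, h6, h7⟩
    subst h5
    rw [disjoint_union_right] at h1
    refine ⟨S₃, S₁ ∪ S₄, ?_, ?_, h6, S₁, S₄, h1.2, rfl, h3, h7⟩
    · rw [disjoint_union_right]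
      exact ⟨h1.1.symm, h4⟩
    · rw [h2, union_left_comm]
  | trans _ _ ih₁ ih₂ => intro S h; exact ih₂ (ih₁ h)

theorem totB_perm {l l' : List (V × Fd)} (h : l.Perm l') : totB l = totB l' := (h.map _).sum_eq

/-- the rest of the line, below the host `y` -/
def Rst (R : V → V → Prop) (rest : List (Fd × Fd)) (T : Finset V) (y : V) : Prop :=
  (rest = [] ∧ T = ∅) ∨ ∃ r rest' z T₀, rest = r :: rest' ∧ R y z ∧ z ∉ T₀ ∧ T = insert z T₀ ∧ EmbS R (r :: rest') z T₀

/-- the line of a group with its branches and the rest of the line -/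
theorem chain_glue {rest : List (Fd × Fd)} {T : Finset V} : ∀ (zs : List (V × (Fd × Fd))) (z : V × (Fd × Fd))
    (SA SD : Finset V), ((z :: zs).map Prod.fst).IsChain R → ((z :: zs).map Prod.fst).Nodup →
    EmbAllB (rv R) ((z :: zs).map (fun r => (r.1, r.2.1))) SA →
    EmbAllB R ((z :: zs).map (fun r => (r.1, r.2.2))) SD → Disjoint SA SD →
    (∀ r ∈ z :: zs, r.1 ∉ SA ∧ r.1 ∉ SD ∧ r.1 ∉ T) → Disjoint SA T → Disjoint SD T →
    (∀ y ∈ ((z :: zs).map Prod.fst).getLast?, Rst R rest T y) →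
    ∃ S, EmbS R ((z :: zs).map Prod.snd ++ rest) z.1 S ∧ z.1 ∉ S ∧ S ⊆ SA ∪ SD ∪ (zs.map Prod.fst).toFinset ∪ T
  | [], z, SA, SD, _, _, ⟨S₁, S₂, a1, a2, a3, a4⟩, ⟨S₃, S₄, b1, b2, b3, b4⟩, hd, hh, hAT, hDT, hl => by
    rw [show S₂ = ∅ from a4, union_empty] at a2
    rw [show S₄ = ∅ from b4, union_empty] at b2
    subst a2 b2
    obtain ⟨h1, h2, h3⟩ := hh z List.mem_cons_self
    have hz := hl z.1 (by simp)
    rcases hz with ⟨rfl, rfl⟩ | ⟨r, rest', w, T₀, rfl, hw1, hw2, rfl, hw3⟩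
    · refine ⟨SA ∪ SD, ⟨SA, SD, hd, rfl, a3, b3⟩, ?_, ?_⟩
      · rw [mem_union, not_or]
        exact ⟨h1, h2⟩
      · intro u hu
        simp only [mem_union] at hu ⊢
        tauto
    · refine ⟨(SA ∪ SD) ∪ insert w T₀, ⟨SA, SD, w, T₀, hd, ?_, hw2, hw1, rfl, a3, b3, hw3⟩, ?_, ?_⟩
      · rw [disjoint_union_left]
        exact ⟨hAT, hDT⟩
      · rw [mem_union, mem_union, not_or, not_or]
        exact ⟨⟨h1, h2⟩, h3⟩
      · intro u hu
        simp only [mem_union] at hu ⊢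
        tauto
  | z' :: zs, z, SA, SD, hch, hnd, ⟨S₁, S₂, a1, a2, a3, a4⟩, ⟨S₃, S₄, b1, b2, b3, b4⟩, hd, hh, hAT, hDT, hl => by
    subst a2 b2
    obtain ⟨h1, h2, h3⟩ := hh z List.mem_cons_self
    rw [mem_union, not_or] at h1 h2
    rw [disjoint_union_left, disjoint_union_right, disjoint_union_right] at hd
    rw [disjoint_union_left] at hAT hDT
    have hh' : ∀ r ∈ z' :: zs, r.1 ∉ S₂ ∧ r.1 ∉ S₄ ∧ r.1 ∉ T := by
      intro r hr
      obtain ⟨g1, g2, g3⟩ := hh r (List.mem_cons_of_mem _ hr)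
      rw [mem_union, not_or] at g1 g2
      exact ⟨g1.2, g2.2, g3⟩
    rw [List.map_cons, List.map_cons, List.isChain_cons_cons] at hch
    rw [List.map_cons, List.nodup_cons] at hnd
    obtain ⟨S, c1, c2, c3⟩ := chain_glue zs z' S₂ S₄ (by rw [List.map_cons]; exact hch.2) hnd.2 a4 b4 hd.2.2 hh' hAT.2
      hDT.2 (by
        intro y hy
        refine hl y ?_
        rw [List.map_cons, List.map_cons, List.getLast?_cons_cons]
        rw [List.map_cons] at hy
        exact hy)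
    have hhost : ∀ r ∈ z' :: zs, r.1 ∉ S₁ ∧ r.1 ∉ S₃ := by
      intro r hr
      obtain ⟨g1, g2, -⟩ := hh r (List.mem_cons_of_mem _ hr)
      rw [mem_union, not_or] at g1 g2
      exact ⟨g1.1, g2.1⟩
    have hins : insert z'.1 S ⊆ S₂ ∪ S₄ ∪ ((z' :: zs).map Prod.fst).toFinset ∪ T := by
      intro u hu
      rcases mem_insert.1 hu with rfl | hu
      · rw [mem_union, mem_union]
        refine Or.inl (Or.inr ?_)
        rw [List.mem_toFinset, List.map_cons]
        exact List.mem_cons_self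
      · have h4 := c3 hu
        simp only [mem_union, List.mem_toFinset, List.map_cons, List.mem_cons] at h4 ⊢
        tauto
    have hdis : ∀ u ∈ S₁ ∪ S₃, u ∉ insert z'.1 S := by
      intro u hu hu'
      have h4 := hins hu'
      rw [mem_union, mem_union, mem_union, List.mem_toFinset, List.mem_map] at h4
      rw [mem_union] at hu
      rcases h4 with ((h4 | h4) | ⟨r, hr, rfl⟩) | h4
      · rcases hu with hu | hu
        · exact disjoint_left.1 a1 hu h4
        · exact disjoint_left.1 hd.2.1 h4 hu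
      · rcases hu with hu | hu
        · exact disjoint_left.1 hd.1.2 hu h4
        · exact disjoint_left.1 b1 hu h4
      · rcases hu with hu | hu
        · exact (hhost r hr).1 hu
        · exact (hhost r hr).2 hu
      · rcases hu with hu | hu
        · exact disjoint_left.1 hAT.1 hu h4
        · exact disjoint_left.1 hDT.1 hu h4
    refine ⟨(S₁ ∪ S₃) ∪ insert z'.1 S, ⟨S₁, S₃, z'.1, S, hd.1.1, ?_, c2, hch.1, rfl, a3, b3, c1⟩, ?_, ?_⟩
    · rw [disjoint_left]
      exact hdis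
    · rw [mem_union, mem_union, not_or, not_or]
      refine ⟨⟨h1.1, h2.1⟩, fun hz => ?_⟩
      have h4 := hins hz
      rw [mem_union, mem_union, mem_union, List.mem_toFinset] at h4
      rcases h4 with ((h4 | h4) | h4) | h4
      · exact h1.2 h4
      · exact h2.2 h4
      · exact hnd.1 h4
      · exact h3 h4
    · intro u hu
      rcases mem_union.1 hu with hu | hu
      · simp only [mem_union] at hu ⊢
        tauto
      · have h4 := hins hu
        simp only [mem_union, List.mem_toFinset] at h4 ⊢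
        tauto

end glue

theorem szS_append (L L' : List (Fd × Fd)) : szS (L ++ L') = szS L + szS L' := by simp [szS]

/-- total out-mass -/
def ouS (L : List (Fd × Fd)) : ℕ := (L.map (fun q => q.2.size)).sum

theorem szS_split (L : List (Fd × Fd)) : szS L = inS L + ouS L + L.length := by
  induction L with
  | nil => rfl
  | cons q L ih =>
    rw [szS_cons, ih]
    simp only [inS, ouS, List.map_cons, List.sum_cons, List.length_cons]
    ring

theorem exists_maxL {α : Type*} (l : List α) (f : α → ℕ) (h : l ≠ []) : ∃ a ∈ l, ∀ b ∈ l, f b ≤ f a := by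
  induction l with
  | nil => exact absurd rfl h
  | cons a l ih =>
    by_cases hl : l = []
    · subst hl
      exact ⟨a, List.mem_cons_self, fun b hb => by rw [List.mem_singleton.1 hb]⟩
    · obtain ⟨c, hc, hc'⟩ := ih hl
      by_cases hac : f a ≤ f c
      · refine ⟨c, List.mem_cons_of_mem _ hc, fun b hb => ?_⟩
        rcases List.mem_cons.1 hb with rfl | hb
        · exact hac
        · exact hc' b hb
      · refine ⟨a, List.mem_cons_self, fun b hb => ?_⟩
        rcases List.mem_cons.1 hb with rfl | hb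
        · exact le_rfl
        · exact (hc' b hb).trans (not_le.1 hac).le

end FS

variable {V : Type} {R : V → V → Prop}

/-- **The final stage, first part small.** -/
theorem fin_small (b l N : ℕ) (hb : 1 ≤ b) (hN : 1 ≤ N) {kap : ℝ} (hkap : 0 < kap) :
    ∃ (kap1 delta : ℝ) (C : ℕ), 0 < kap1 ∧ 0 < delta ∧ ∀ {V : Type} {R : V → V → Prop}, AE32.Tour R →
      ∀ (G rest : List (Fd × Fd)) (q : Fd × Fd) (X : Finset V), (G ++ [q]).length ≤ N →
        (∀ t ∈ G ++ q :: rest, FOK b l 0 t.1 ∧ FOK b l 0 t.2 ∧ (∀ r ∈ t.1.trees, r.1 = true) ∧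
          ∀ r ∈ t.2.trees, r.1 = true) →
        szS (G ++ q :: rest) + C ≤ X.card → ((inS (G ++ [q]) : ℕ) : ℝ) ≤ kap1 * X.card →
        kap * X.card ≤ (q.2.size : ℝ) → (szS rest : ℝ) ≤ delta * X.card →
        ∃ y ∈ X, ∃ S ⊆ X, y ∉ S ∧ EmbS R (G ++ q :: rest) y S := by
  obtain ⟨K, hK⟩ : ∃ K : ℕ, K = ⌈1 / kap⌉₊ + 1 := ⟨_, rfl⟩
  have hK1 : 1 ≤ K := by omega
  obtain ⟨c₀, η, hη0, hη8, h2⟩ := packTwo b l N K hb hN hK1
  obtain ⟨η₀, hη₀⟩ : ∃ η₀ : ℝ, η₀ = η / 8 := ⟨_, rfl⟩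
  obtain ⟨κ₀, hκ₀⟩ : ∃ κ₀ : ℝ, κ₀ = η₀ / 25 := ⟨_, rfl⟩
  have hη₀0 : 0 < η₀ := by rw [hη₀]; positivity
  have hκ₀0 : 0 < κ₀ := by rw [hκ₀]; positivity
  have hκ₀1 : κ₀ ≤ 1 / 1600 := by rw [hκ₀, hη₀]; linarith
  obtain ⟨lam, hlam⟩ : ∃ lam : ℕ, lam = 2 * c₀ + N := ⟨_, rfl⟩
  obtain ⟨e, he⟩ : ∃ e : ℕ, e = 4 * N + 8 * lam := ⟨_, rfl⟩
  have hκ2 : κ₀ ^ 2 / 8 ≤ 1 := by
    have : κ₀ ^ 2 ≤ 1 := pow_le_one₀ hκ₀0.le (by linarith)
    linarith
  obtain ⟨C₀, δ, hδ, h2⟩ := h2 4 e (κ₀ ^ 2 / 8) (1 / 4) (κ₀ / 2) (η₀ / 8) (by positivity) hκ2 (by norm_num) (by norm_num)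
    (by positivity) (by positivity)
  obtain ⟨n₁, hn₁⟩ : ∃ n₁ : ℕ, n₁ = ⌈(8 + 4 * N : ℝ) / κ₀⌉₊ + lam + N := ⟨_, rfl⟩
  obtain ⟨σ, hσ⟩ : ∃ σ : ℝ, σ = κ₀ / (64 * (1 + c₀)) := ⟨_, rfl⟩
  have hc0 : (0 : ℝ) ≤ c₀ := Nat.cast_nonneg _
  have hσ0 : 0 < σ := by rw [hσ]; positivity
  have hσ1 : σ * (1 + c₀) = κ₀ / 64 := by
    rw [hσ]
    field_simp
  have hσκ : σ ≤ κ₀ / 64 := by
    have : 0 ≤ σ * c₀ := by positivity
    linarith
  obtain ⟨n₂, hn₂⟩ := exists_big [(((2 * c₀ + 1 : ℕ) : ℝ), σ / 2),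
      ((((4 * (C₀ + n₁) + 1 + 8 * lam) * (1 + c₀) : ℕ) : ℝ), κ₀ / 16), ((1 : ℝ), κ₀)] (by
    intro q hq
    simp only [List.mem_cons, List.not_mem_nil, or_false] at hq
    rcases hq with rfl | rfl | rfl
    · show 0 < σ / 2
      positivity
    · show 0 < κ₀ / 16
      positivity
    · exact hκ₀0)
  refine ⟨σ, min δ (σ / 2), 2 * C₀ + n₁ + n₂ + 1, hσ0, lt_min hδ (by positivity), ?_⟩
  intro V R hT Gl rest q X hlen hcls hsz hQ hq hrest
  obtain ⟨n, hn⟩ : ∃ n : ℝ, n = (X.card : ℝ) := ⟨_, rfl⟩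
  rw [← hn] at hQ hq hrest
  have hn0 : (0 : ℝ) ≤ n := by rw [hn]; exact Nat.cast_nonneg _
  have g := hn₂ X.card (by omega)
  have g1 : ((2 * c₀ + 1 : ℕ) : ℝ) ≤ σ / 2 * n := by rw [hn]; exact g (_, _) (by simp)
  have g2 : (((4 * (C₀ + n₁) + 1 + 8 * lam) * (1 + c₀) : ℕ) : ℝ) ≤ κ₀ / 16 * n := by
    rw [hn]; exact g (_, _) (by simp)
  have g3 : (1 : ℝ) ≤ κ₀ * n := by rw [hn]; exact g (1, κ₀) (by simp)
  have hnpos : 0 < n := by
    by_contra hc
    have : n = 0 := le_antisymm (not_lt.1 hc) hn0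
    rw [this] at g3
    norm_num at g3
  have hrest1 : (szS rest : ℝ) ≤ δ * n := hrest.trans (mul_le_mul_of_nonneg_right (min_le_left _ _) hn0)
  have hrest2 : (szS rest : ℝ) ≤ σ / 2 * n := hrest.trans (mul_le_mul_of_nonneg_right (min_le_right _ _) hn0)
  obtain ⟨L, hL⟩ : ∃ L : List (Fd × Fd), L = Gl ++ [q] := ⟨_, rfl⟩
  have hLr : Gl ++ q :: rest = L ++ rest := by rw [hL, List.append_assoc]; rfl
  rw [hLr] at hsz hcls ⊢
  rw [← hL] at hlen hQ
  have hqL : q ∈ L := by rw [hL]; simp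
  have hLlen : 1 ≤ L.length := by rw [hL, List.length_append]; simp
  obtain ⟨Q, hQd⟩ : ∃ Q : ℕ, Q = inS L := ⟨_, rfl⟩
  rw [← hQd] at hQ
  obtain ⟨p, hp⟩ : ∃ p : ℕ, p = Q + C₀ + n₁ := ⟨_, rfl⟩
  have hg2 : 4 * ((C₀ : ℝ) + n₁) * (1 + c₀) + (1 + 8 * lam) * (1 + c₀) ≤ κ₀ / 16 * n := by
    refine le_trans (le_of_eq ?_) g2
    push_cast
    ring
  have hcn0 : (0 : ℝ) ≤ (C₀ : ℝ) + n₁ := by positivity
  have hlam0 : (0 : ℝ) ≤ lam := Nat.cast_nonneg _
  have hpr : (p : ℝ) = Q + C₀ + n₁ := by rw [hp]; push_cast; ring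
  have hQ0 : (0 : ℝ) ≤ Q := Nat.cast_nonneg _
  have h4p : 4 * (p : ℝ) * (1 + c₀) ≤ κ₀ / 8 * n - (1 + 8 * lam) * (1 + c₀) := by
    have h3 : 4 * (Q : ℝ) * (1 + c₀) ≤ κ₀ / 16 * n := by
      have h4 : 4 * (Q : ℝ) * (1 + c₀) ≤ 4 * (σ * n) * (1 + c₀) := by
        have h5 : (0 : ℝ) ≤ 4 * (1 + c₀) := by positivity
        have h6 := mul_le_mul_of_nonneg_left hQ h5
        linarith
      have h5 : 4 * (σ * n) * (1 + c₀) = 4 * (σ * (1 + c₀)) * n := by ring
      rw [h5, hσ1] at h4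
      linarith
    rw [hpr]
    linarith
  have h4p' : 4 * (p : ℝ) ≤ κ₀ / 8 * n := by
    have h3 : (0 : ℝ) ≤ 4 * (p : ℝ) * c₀ := by positivity
    have h4 : (0 : ℝ) ≤ (1 + 8 * lam) * (1 + c₀) := by positivity
    linarith
  -- the cut
  obtain ⟨Bad, hBad⟩ : ∃ Bad : Finset V, Bad = (X.filter (Good R (κ₀ ^ 2 / 4) η₀ X)).filter (fun g =>
    (X.filter (fun v => R v g ∧ Good R (κ₀ ^ 2 / 4) η₀ X v)).card < lam) := ⟨_, rfl⟩
  have hBadc : Bad.card ≤ 2 * lam := by rw [hBad]; exact card_bad hT X _ lam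
  have hn1p : n₁ ≤ p := by omega
  obtain ⟨G₁, ys, y, P₁, P₂, U₁, Rsv, Gc, Ex, hgc⟩ := gcut hT (X := X) (Bd := ∅) (Bad := Bad) (p := p) (q := 2 * p)
    (N := L.length) (e := 0) (κ₀ := κ₀) (η := η₀) hκ₀0 (by rw [hκ₀]; linarith) (by rw [hη₀]; linarith) hLlen (by
      have h3 : (8 + 4 * N : ℝ) / κ₀ ≤ p := by
        refine (Nat.le_ceil _).trans ?_
        exact_mod_cast (by omega : ⌈(8 + 4 * N : ℝ) / κ₀⌉₊ ≤ p)
      rw [div_le_iff₀ hκ₀0] at h3
      have h4 : ((L.length * (0 + 1) : ℕ) : ℝ) ≤ N := by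
        rw [Nat.zero_add, Nat.mul_one]
        exact_mod_cast hlen
      linarith) (by omega) (by omega) (by
      rw [← hn]
      push_cast
      have : (0 : ℝ) ≤ p := Nat.cast_nonneg _
      linarith) (by simp) (by
      intro g hg
      rw [hBad, mem_filter] at hg
      omega)
  -- the reserve
  obtain ⟨j, hj⟩ : ∃ j : ℕ, j = ⌊σ * n⌋₊ := ⟨_, rfl⟩
  have hj1 : (j : ℝ) ≤ σ * n := by rw [hj]; exact Nat.floor_le (by positivity)
  have hj2 : σ * n < j + 1 := by rw [hj]; exact Nat.lt_floor_add_one _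
  have hσn : σ * n ≤ κ₀ / 64 * n := mul_le_mul_of_nonneg_right hσκ hn0
  obtain ⟨Hr, V₂, r1, r2, r3, r4, r5, r6⟩ := hgc.res hT (c₀ := c₀) (j := j) (by
      rw [← hn]
      have : 0 < κ₀ * n := by positivity
      linarith) (by
      intro g hg hgB
      by_contra hc
      apply hgB
      rw [hBad, mem_filter, mem_filter]
      exact ⟨⟨hgc.hGX hg, hgc.good g hg⟩, by omega⟩)
  have hHr : (Hr.card : ℝ) ≤ κ₀ / 4 * n := by
    have h3 : (Hr.card : ℝ) ≤ (((2 * (2 * p) + 0 + 1 + (6 * j + 4 * Bad.card + 4 * (L.length * 0))) * (1 + c₀) : ℕ) : ℝ) := by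
      exact_mod_cast r5
    have h4 : (Bad.card : ℝ) ≤ 2 * lam := by exact_mod_cast hBadc
    have h5 : (((2 * (2 * p) + 0 + 1 + (6 * j + 4 * Bad.card + 4 * (L.length * 0))) * (1 + c₀) : ℕ) : ℝ) =
        4 * (p : ℝ) * (1 + c₀) + 6 * (j * (1 + c₀)) + (1 + 4 * Bad.card) * (1 + c₀) := by
      push_cast
      ring
    have h6 : (j : ℝ) * (1 + c₀) ≤ κ₀ / 64 * n := by
      have := mul_le_mul_of_nonneg_right hj1 (by positivity : (0 : ℝ) ≤ 1 + c₀)
      have h7 : σ * n * (1 + c₀) = σ * (1 + c₀) * n := by ring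
      rw [h7, hσ1] at this
      exact this
    have h7 : (1 + 4 * (Bad.card : ℝ)) * (1 + c₀) ≤ (1 + 8 * lam) * (1 + c₀) :=
      mul_le_mul_of_nonneg_right (by linarith) (by positivity)
    have h8 : 0 ≤ κ₀ * n := by positivity
    linarith
  have hys : ∀ z ∈ ys, z ∈ X ∧ z ∉ P₁ ∧ z ∉ P₂ := fun z hz =>
    ⟨hgc.hGX (hgc.hys z hz).1, (hgc.hys z hz).2.2.1, (hgc.hys z hz).2.2.2.1⟩
  have hyy : y ∈ ys := List.mem_of_mem_getLast? hgc.last
  have hU₁c : (U₁.card : ℝ) ≤ 4 * p := by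
    have h3 := hgc.hU₁c
    exact_mod_cast (by omega : U₁.card ≤ 4 * p)
  have hP₁X : P₁ ⊆ X := hgc.hP₁.trans (hgc.hU₁.trans hgc.hGX)
  have hP₂X : P₂ ⊆ X := fun w hw => ((hgc.part w).1 hw).1
  -- the rest of the line
  obtain ⟨T, hTP, hTH, hTU, hTc, hTR⟩ : ∃ T : Finset V, T ⊆ P₂ ∧ Disjoint T Hr ∧ Disjoint T U₁ ∧ T.card = szS rest ∧
      FS.Rst R rest T y := by
    rcases rest with _ | ⟨r, rest'⟩
    · exact ⟨∅, empty_subset _, disjoint_empty_left _, disjoint_empty_left _, rfl, Or.inl ⟨rfl, rfl⟩⟩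
    · obtain ⟨D, hD⟩ : ∃ D : Finset V, D = (P₂.filter (fun w => R y w)) \ (Hr ∪ U₁) := ⟨_, rfl⟩
      have h3 : κ₀ * n ≤ ((P₂.filter (fun w => R y w)).card : ℝ) := by
        rw [hn]
        refine hgc.lin.trans (Nat.cast_le.2 (card_le_card ?_))
        intro w hw
        rw [mem_filter] at hw ⊢
        exact ⟨hw.1, hw.2.1⟩
      have h4 : ((P₂.filter (fun w => R y w)).card : ℝ) ≤ D.card + (Hr.card + U₁.card) := by
        have h5 := le_card_sdiff (Hr ∪ U₁) (P₂.filter (fun w => R y w))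
        have h6 := card_union_le Hr U₁
        rw [← hD] at h5
        exact_mod_cast (by omega : (P₂.filter (fun w => R y w)).card ≤ D.card + (Hr.card + U₁.card))
      have h5 : 4 * ((chF r rest').size + 1) ≤ D.card := by
        rw [chF_size]
        have h6 : 4 * (szS (r :: rest') : ℝ) ≤ D.card := by linarith
        exact_mod_cast h6
      obtain ⟨z, hz, -, S, hS, hzS, hE⟩ := embS_of_in r rest' (tree_four hT (chF r rest') h5)
      have hins : insert z S ⊆ D := insert_subset hz hS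
      rw [hD] at hz
      refine ⟨insert z S, ?_, ?_, ?_, ?_, Or.inr ⟨r, rest', z, S, rfl, (mem_filter.1 (mem_sdiff.1 hz).1).2, hzS, rfl, hE⟩⟩
      · refine hins.trans ?_
        rw [hD]
        exact sdiff_subset.trans (filter_subset _ _)
      · rw [hD] at hins
        exact disjoint_of_subset_left hins (disjoint_of_subset_right subset_union_left sdiff_disjoint)
      · rw [hD] at hins
        exact disjoint_of_subset_left hins (disjoint_of_subset_right subset_union_right sdiff_disjoint)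
      · rw [card_insert_of_notMem hzS, hE.card]
  have hTcr : (T.card : ℝ) = szS rest := by rw [hTc]
  have hTX : T ⊆ X := hTP.trans hP₂X
  -- the list of the hosts
  obtain ⟨zs, hzs⟩ : ∃ zs : List (V × (Fd × Fd)), zs = ys.zip L := ⟨_, rfl⟩
  have hylen : ys.length = L.length := hgc.len
  have hfst : zs.map Prod.fst = ys := by rw [hzs]; exact List.map_fst_zip hylen.le
  have hsnd : zs.map Prod.snd = L := by rw [hzs]; exact List.map_snd_zip hylen.ge
  have hzslen : zs.length = L.length := by rw [hzs, List.length_zip, hylen, min_self]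
  have hmem : ∀ r ∈ zs, r.1 ∈ ys ∧ r.2 ∈ L := by
    intro r hr
    rw [hzs] at hr
    exact List.of_mem_zip hr
  have hyq : (y, q) ∈ zs := by
    obtain ⟨ys', rfl⟩ : ∃ ys', ys = ys' ++ [y] := List.getLast?_eq_some_iff.1 hgc.last
    have h3 : ys'.length = Gl.length := by
      rw [hL, List.length_append, List.length_append] at hylen
      simpa using hylen
    rw [hzs, hL, List.zip_append h3]
    simp
  have hcls' : ∀ r ∈ zs, FOK b l 0 r.2.1 ∧ FOK b l 0 r.2.2 ∧ (∀ t ∈ r.2.1.trees, t.1 = true) ∧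
      ∀ t ∈ r.2.2.trees, t.1 = true := fun r hr => hcls r.2 (List.mem_append_left _ (hmem r hr).2)
  obtain ⟨la, hla⟩ : ∃ la : List (V × Fd), la = zs.map (fun r => (r.1, r.2.1)) := ⟨_, rfl⟩
  obtain ⟨ld, hld⟩ : ∃ ld : List (V × Fd), ld = zs.map (fun r => (r.1, r.2.2)) := ⟨_, rfl⟩
  have hla' : ∀ p ∈ la, p.1 ∈ ys ∧ FOK b l 0 p.2 ∧ ∀ t ∈ p.2.trees, t.1 = true := by
    intro p hp
    rw [hla, List.mem_map] at hp
    obtain ⟨r, hr, rfl⟩ := hp
    exact ⟨(hmem r hr).1, (hcls' r hr).1, (hcls' r hr).2.2.1⟩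
  have hld' : ∀ p ∈ ld, p.1 ∈ ys ∧ FOK b l 0 p.2 ∧ (∀ t ∈ p.2.trees, t.1 = true) ∧ p.2.size ≤ FS.ouS L := by
    intro p hp
    rw [hld, List.mem_map] at hp
    obtain ⟨r, hr, rfl⟩ := hp
    refine ⟨(hmem r hr).1, (hcls' r hr).2.1, (hcls' r hr).2.2.2, ?_⟩
    exact List.single_le_sum (by simp) _ (List.mem_map.2 ⟨r.2, (hmem r hr).2, rfl⟩)
  have hlalen : la.length = L.length := by rw [hla, List.length_map, hzslen]
  have hldlen : ld.length = L.length := by rw [hld, List.length_map, hzslen]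
  have htla : totB la = inS L := by
    rw [hla, ← hsnd]
    simp only [totB, inS, List.map_map, Function.comp_def]
  have htld : totB ld = FS.ouS L := by
    rw [hld, ← hsnd]
    simp only [totB, FS.ouS, List.map_map, Function.comp_def]
  obtain ⟨p₁, hp₁, hp₁m⟩ := FS.exists_maxL la (fun p => p.2.size) (by
    intro h
    rw [h] at hlalen
    simp at hlalen
    omega)
  have hyqd : (y, q.2) ∈ ld := by
    rw [hld, List.mem_map]
    exact ⟨(y, q), hyq, rfl⟩
  have perm₁ : la.Perm (p₁ :: la.erase p₁) := List.perm_cons_erase hp₁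
  have perm₂ : ld.Perm ((y, q.2) :: ld.erase (y, q.2)) := List.perm_cons_erase hyqd
  have hlen₁ : (la.erase p₁).length + 1 ≤ N := by
    have := perm₁.length_eq
    rw [List.length_cons] at this
    omega
  have hlen₂ : (ld.erase (y, q.2)).length + 1 ≤ N := by
    have := perm₂.length_eq
    rw [List.length_cons] at this
    omega
  -- sizes
  have hszL : szS (L ++ rest) = inS L + FS.ouS L + L.length + szS rest := by
    rw [FS.szS_append, FS.szS_split]
  have hXc : X.card ≤ P₁.card + L.length + P₂.card := by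
    have h3 : X ⊆ (P₁ ∪ ys.toFinset) ∪ P₂ := by
      intro u hu
      rw [mem_union, mem_union, List.mem_toFinset]
      by_cases h4 : u ∈ P₁
      · exact Or.inl (Or.inl h4)
      · by_cases h5 : u ∈ ys
        · exact Or.inl (Or.inr h5)
        · exact Or.inr ((hgc.part u).2 ⟨hu, h4, h5⟩)
    have h4 := card_le_card h3
    have h5 := card_union_le (P₁ ∪ ys.toFinset) P₂
    have h6 := card_union_le P₁ ys.toFinset
    have h7 := ys.toFinset_card_le
    omega
  have hP₁c : P₁.card = p := hgc.card₁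
  obtain ⟨P, hP⟩ : ∃ P : Finset V, P = P₂ \ T := ⟨_, rfl⟩
  have hPc : P₂.card = P.card + szS rest := by
    rw [hP, ← hTc]
    exact (card_sdiff_add_card_eq_card hTP).symm
  obtain ⟨Y, hY⟩ : ∃ Y : Finset V, Y = X \ (ys.toFinset ∪ T) := ⟨_, rfl⟩
  have hPY : P ⊆ Y := by
    intro u hu
    rw [hP, mem_sdiff] at hu
    rw [hY, mem_sdiff, mem_union, List.mem_toFinset, not_or]
    exact ⟨hP₂X hu.1, fun h => (hys u h).2.2 hu.1, hu.2⟩
  have hVY : V₂ ⊆ Y := by
    intro u hu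
    have hu1 := r2 hu
    rw [hY, mem_sdiff, mem_union, List.mem_toFinset, not_or]
    exact ⟨hP₁X hu1, fun h => (hys u h).2.1 hu1, fun h => disjoint_left.1 hgc.disj hu1 (hTP h)⟩
  have hPn : n ≤ 2 * P.card := by
    have h3 : n ≤ p + N + (P.card + szS rest) := by
      rw [hn]
      exact_mod_cast (by omega : X.card ≤ p + N + (P.card + szS rest))
    have h4 : (N : ℝ) ≤ κ₀ / 16 * n := by
      have h5 : N ≤ (4 * (C₀ + n₁) + 1 + 8 * lam) * (1 + c₀) := by
        calc N ≤ 4 * (C₀ + n₁) + 1 + 8 * lam := by omega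
          _ = (4 * (C₀ + n₁) + 1 + 8 * lam) * 1 := (mul_one _).symm
          _ ≤ _ := Nat.mul_le_mul_left _ (by omega)
      have h6 : (N : ℝ) ≤ (((4 * (C₀ + n₁) + 1 + 8 * lam) * (1 + c₀) : ℕ) : ℝ) := by exact_mod_cast h5
      linarith
    have h5 : κ₀ * n ≤ 1 / 1600 * n := mul_le_mul_of_nonneg_right hκ₀1 hn0
    linarith
  have hTj : T.card + 2 * c₀ ≤ j := by
    have h3 : ((T.card + 2 * c₀ : ℕ) : ℝ) < j + 1 := by
      push_cast at g1 ⊢
      rw [hTcr]
      linarith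
    have h4 : T.card + 2 * c₀ < j + 1 := by exact_mod_cast h3
    omega
  obtain ⟨s1, s2⟩ := r6 T hTH hTj (κ₀ ^ 2 / 8 * X.card) (η₀ * X.card) (by
    have : (0 : ℝ) ≤ κ₀ ^ 2 * X.card := by positivity
    linarith) le_rfl
  rw [← hP] at s1 s2
  have hreaX : ∀ z ∈ ys, Rea R X P (κ₀ ^ 2 / 8 * X.card) (η₀ * X.card) z := by
    intro z hz
    refine AECut.rea_mono (AECut.Good.rea (hgc.good z (hgc.hys z hz).1) (hPY.trans ?_) le_rfl) ?_ le_rfl
    · rw [hY]; exact sdiff_subset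
    · have : (0 : ℝ) ≤ κ₀ ^ 2 * X.card := by positivity
      linarith
  have hside₂ : PackY R b l N K e c₀ (κ₀ ^ 2 / 8) (1 / 4) (κ₀ / 2) η X Y P y q.2 (ld.erase (y, q.2)) (η₀ * X.card) := by
    refine ⟨hPY, by rw [hY]; exact sdiff_subset, hlen₂, (hld' _ hyqd).2.1, (hld' _ hyqd).2.2.1, ?_, (hys y hyy).1, ?_, ?_,
      ?_, hreaX y hyy, ?_, ?_, ?_, ?_⟩
    · intro t ht
      obtain ⟨-, h3, h4, h5⟩ := hld' t (List.mem_of_mem_erase ht)
      refine ⟨h3, h4, ?_⟩
      have h6 : (t.2.size : ℝ) ≤ n := by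
        rw [hn]
        exact_mod_cast (by omega : t.2.size ≤ X.card)
      have h7 : n ≤ 1 / kap * q.2.size := by
        rw [div_mul_eq_mul_div, one_mul, le_div_iff₀ hkap]
        linarith
      have h8 : 1 / kap * q.2.size ≤ K * (q.2.size + 1) := by
        have h9 : 1 / kap ≤ K := by
          rw [hK]
          push_cast
          have := Nat.le_ceil (1 / kap)
          linarith
        have h10 : (0 : ℝ) ≤ q.2.size := Nat.cast_nonneg _
        have h11 : (0 : ℝ) ≤ K := Nat.cast_nonneg _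
        have h12 := mul_le_mul_of_nonneg_right h9 h10
        linarith
      exact_mod_cast (h6.trans h7).trans h8
    · rw [hY, mem_sdiff, mem_union, List.mem_toFinset]
      exact fun h => h.2 (Or.inl hyy)
    · intro t ht
      obtain ⟨h3, -⟩ := hld' t (List.mem_of_mem_erase ht)
      refine ⟨(hys _ h3).1, fun h => (hys _ h3).2.2 ?_⟩
      rw [hP, mem_sdiff] at h
      exact h.1
    · rw [← hn]
      linarith
    · refine le_trans ?_ s2
      rw [hTcr, ← hn]
      have h3 : (P.card : ℝ) ≤ n := by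
        rw [hn]
        exact_mod_cast card_le_card (hPY.trans (by rw [hY]; exact sdiff_subset))
      have h4 := mul_le_mul_of_nonneg_left h3 (by positivity : (0 : ℝ) ≤ κ₀ / 2)
      have h5 : 0 ≤ κ₀ * n := by positivity
      linarith
    · refine le_trans (card_le_card ?_) (s1.trans ?_)
      · intro u hu
        rw [mem_filter] at hu ⊢
        refine ⟨hu.1, hu.2.1, fun hc => hu.2.2 ?_⟩
        obtain ⟨w, h3, h4, h5, h6, h7⟩ := hc
        refine ⟨w, h3, h4, h5, h6, h7.trans (card_le_card ?_)⟩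
        intro v hv
        rw [mem_filter, mem_union] at hv
        rw [mem_filter]
        exact ⟨hv.1.elim (fun h => hPY h) (fun h => hVY h), hv.2⟩
      · rw [he]
        omega
    · intro t ht
      exact hreaX _ (hld' t (List.mem_of_mem_erase ht)).1
    · rw [← hn, hη₀]
      have h3 := mul_le_mul_of_nonneg_left hPn (by positivity : (0 : ℝ) ≤ η / 8)
      have h4 : 0 ≤ η * (P.card : ℝ) := by positivity
      linarith
  have hside₁ : PackH (rv R) b l N K 4 e (κ₀ ^ 2 / 8) (1 / 4) (κ₀ / 2) (η₀ / 8) η U₁ P₁ p₁.1 p₁.2 (la.erase p₁)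
      (2 * η₀ * U₁.card) := by
    obtain ⟨a1, a2, a3⟩ := hla' p₁ hp₁
    have hms := hgc.inn p₁.1 a1
    have hUP : (U₁.card : ℝ) ≤ 4 * P₁.card := by rw [hP₁c]; exact hU₁c
    refine ⟨hgc.hP₁, hlen₁, a2, a3, ?_, (hgc.hys _ a1).2.1, (hys _ a1).2.1, ?_, by linarith, hms.reach, ?_, ?_, ?_, ?_⟩
    · intro t ht
      obtain ⟨-, h3, h4⟩ := hla' t (List.mem_of_mem_erase ht)
      refine ⟨h3, h4, ?_⟩
      have h5 := hp₁m t (List.mem_of_mem_erase ht)
      have h6 : p₁.2.size + 1 ≤ K * (p₁.2.size + 1) := Nat.le_mul_of_pos_left _ hK1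
      omega
    · intro t ht
      have h3 := (hla' t (List.mem_of_mem_erase ht)).1
      exact ⟨(hgc.hys _ h3).2.1, (hys _ h3).2.1⟩
    · refine le_trans (mul_le_mul_of_nonneg_right ?_ (Nat.cast_nonneg _)) hms.lin
      rw [hκ₀]
      linarith
    · intro i hi
      refine (hms.cnt i hi).trans ?_
      rw [he]
      omega
    · intro t ht
      exact (hgc.inn _ (hla' t (List.mem_of_mem_erase ht)).1).reach
    · rw [hη₀]
      have h3 := mul_le_mul_of_nonneg_left hUP (by positivity : (0 : ℝ) ≤ 2 * (η / 8))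
      linarith
  have hTP₁ : Disjoint T P₁ := disjoint_of_subset_left hTP hgc.disj.symm
  obtain ⟨S₁, hS₁X, S₂, hS₂X, d1, d2, d3, d4, d5, e1, e2⟩ := h2 hT X U₁ P₁ Y P T ys.toFinset p₁.1 y p₁.2 q.2
    (la.erase p₁) (ld.erase (y, q.2)) (2 * η₀ * U₁.card) (η₀ * X.card) hside₁ hside₂ (hgc.hU₁.trans hgc.hGX)
    (by rw [hP]; exact disjoint_of_subset_right sdiff_subset hgc.disj) hTP₁ (by
      rw [hY]
      exact disjoint_of_subset_left subset_union_right disjoint_sdiff) (by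
      rw [disjoint_iff_inter_eq_empty.1 hTU, card_empty, Nat.cast_zero]
      positivity) (by rw [hTcr, ← hn]; exact hrest1) (by
      have := ys.toFinset_card_le
      omega) (List.mem_toFinset.2 (hla' p₁ hp₁).1) (List.mem_toFinset.2 hyy)
    (fun t ht => List.mem_toFinset.2 (hla' t (List.mem_of_mem_erase ht)).1)
    (fun t ht => List.mem_toFinset.2 (hld' t (List.mem_of_mem_erase ht)).1) (by
      rw [disjoint_left]
      intro u hu
      exact (hys u (List.mem_toFinset.1 hu)).2.1) (by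
      rw [hY]
      exact disjoint_of_subset_left subset_union_left disjoint_sdiff) (by
      have h3 : totB ((p₁.1, p₁.2) :: la.erase p₁) = inS L := by rw [← htla]; exact (FS.totB_perm perm₁).symm
      omega) (by
      have h3 : totB ((y, q.2) :: ld.erase (y, q.2)) = FS.ouS L := by rw [← htld]; exact (FS.totB_perm perm₂).symm
      omega)
  have e1' : EmbAllB (rv R) la S₁ := FS.embAllB_perm perm₁.symm e1
  have e2' : EmbAllB R ld S₂ := FS.embAllB_perm perm₂.symm e2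
  rw [hla] at e1'
  rw [hld] at e2'
  obtain ⟨z₀, zs', hz⟩ : ∃ z₀ zs', zs = z₀ :: zs' := by
    rcases zs with _ | ⟨z₀, zs'⟩
    · rw [List.length_nil] at hzslen
      omega
    · exact ⟨z₀, zs', rfl⟩
  rw [hz] at e1' e2' hfst hsnd hmem
  have hTys : ∀ z ∈ ys, z ∉ T := fun z hz' h => (hys z hz').2.2 (hTP h)
  obtain ⟨S, f1, f2, f3⟩ := FS.chain_glue zs' z₀ S₁ S₂ (rest := rest) (T := T) (by rw [hfst]; exact hgc.chain)
    (by rw [hfst]; exact hgc.nodup) e1' e2' d1 (by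
      intro r hr
      have h3 := (hmem r hr).1
      exact ⟨fun h => disjoint_left.1 d2 h (List.mem_toFinset.2 h3), fun h => disjoint_left.1 d3 h (List.mem_toFinset.2 h3),
        hTys _ h3⟩) d4 d5 (by
      intro y' hy'
      rw [hfst, hgc.last, Option.mem_def, Option.some.injEq] at hy'
      rw [← hy']
      exact hTR)
  rw [hsnd] at f1
  have hz₀ := (hmem z₀ List.mem_cons_self).1
  refine ⟨z₀.1, (hys _ hz₀).1, S, f3.trans ?_, f2, f1⟩
  refine union_subset (union_subset (union_subset hS₁X hS₂X) ?_) hTX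
  intro u hu
  rw [List.mem_toFinset] at hu
  refine (hys u ?_).1
  rw [← hfst, List.map_cons]
  exact List.mem_cons_of_mem _ hu

end AEG
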