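import Pool.Agent.AEG.GlueD
import Pool.Agent.AEG.SplitM
import Pool.Agent.AEG.P2Fin

/-!
# The last cluster, second part small
-/

set_option autoImplicit false

namespace AEG

open Finset AE15 AED AEB SPD
open scoped Classical

section sizes

variable {V : Type*} {R : V → V → Prop}

/-- the sizes of the parts of a cut -/
theorem GCD.card_eq {X Bd Bad : Finset V} {p q N e : ℕ} {κ₀ η : ℝ} {G : Finset V} {ys : List V} {y : V}
    {P₁ P₂ U₂ Rsv Gc Ex : Finset V} (h : GCD R X Bd Bad p q N e κ₀ η G ys y P₁ P₂ U₂ Rsv Gc Ex) :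
    P₁.card + N + p = X.card := by
  have hyX : ∀ z ∈ ys, z ∈ X := fun z hz => h.hGX (h.hys z hz).1
  have hP₂X : P₂ ⊆ X := h.hP₂.trans (h.hU₂.trans h.hGX)
  have h1 : X = P₁ ∪ (ys.toFinset ∪ P₂) := by
    ext u
    rw [mem_union, mem_union, List.mem_toFinset]
    constructor
    · intro hu
      by_cases h2 : u ∈ P₂
      · exact Or.inr (Or.inr h2)
      · by_cases h3 : u ∈ ys
        · exact Or.inr (Or.inl h3)
        · exact Or.inl ((h.part u).2 ⟨hu, h2, h3⟩)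
    · rintro (h2 | h2 | h2)
      · exact ((h.part u).1 h2).1
      · exact hyX u h2
      · exact hP₂X h2
  have h2 : (ys.toFinset ∪ P₂).card = ys.toFinset.card + P₂.card := by
    apply card_union_of_disjoint
    rw [disjoint_left]
    intro u hu hu'
    exact (h.hys u (List.mem_toFinset.1 hu)).2.2.2.1 hu'
  have h3 : (P₁ ∪ (ys.toFinset ∪ P₂)).card = P₁.card + (ys.toFinset ∪ P₂).card := by
    apply card_union_of_disjoint
    rw [disjoint_left]
    intro u hu hu'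
    rcases mem_union.1 hu' with h4 | h4
    · exact (h.hys u (List.mem_toFinset.1 h4)).2.2.1 hu
    · exact disjoint_left.1 h.disj hu h4
  have h4 : ys.toFinset.card = N := by rw [List.toFinset_card_of_nodup h.nodup, h.len]
  have h5 := h.card₂
  rw [← h1] at h3
  omega

end sizes

/-- **Final cluster, second part small** -/
theorem finOut (b l B N : ℕ) (hb : 1 ≤ b) : ∃ ζ δ : ℝ, 0 < ζ ∧ 0 < δ ∧ ∀ κ η s : ℝ, StOk κ η s →
    FinOut b l B N ζ δ κ η s := by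
  obtain ⟨N', hN'⟩ : ∃ N', N' = N + 1 := ⟨_, rfl⟩
  obtain ⟨c₀, ηR, hηR, hηR1, hmid⟩ := midD b l N' B hb (by omega)
  obtain ⟨ηF, hηF, hηF1, hfin⟩ := p2_fin b l N' hb (by omega)
  obtain ⟨η₀, hη₀⟩ : ∃ η₀ : ℝ, η₀ = min (ηR / 2) (ηF / 16) := ⟨_, rfl⟩
  have hη₀0 : 0 < η₀ := by rw [hη₀]; positivity
  have hη₀R : 2 * η₀ ≤ ηR := by
    have : η₀ ≤ ηR / 2 := by rw [hη₀]; exact min_le_left _ _
    linarith
  have hη₀F : 16 * η₀ ≤ ηF := by
    have : η₀ ≤ ηF / 16 := by rw [hη₀]; exact min_le_right _ _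
    linarith
  obtain ⟨κ₀, hκ₀⟩ : ∃ κ₀ : ℝ, κ₀ = η₀ / 25 := ⟨_, rfl⟩
  have hκ₀0 : 0 < κ₀ := by rw [hκ₀]; positivity
  have hκη : 25 * κ₀ ≤ η₀ := by rw [hκ₀]; linarith
  have hη₀1 : η₀ ≤ 1 / 16 := by linarith
  obtain ⟨σ, κ', hσ, hσ1, hκ', hκ'1, hmid⟩ := hmid κ₀ η₀ hκ₀0 hκη hη₀R
  obtain ⟨J₂, hJ₂⟩ : ∃ J₂, J₂ = 2 * c₀ * c₀ + 2 * B + 2 := ⟨_, rfl⟩
  obtain ⟨δ₀, f, C₂, hδ₀, hfin⟩ := hfin κ₀ η₀ (4 * (N' * (0 + 1))) J₂ hκ₀0 (by linarith) hη₀0 hη₀F
  obtain ⟨C₁, hmid⟩ := hmid f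
  obtain ⟨cap, hcap⟩ : ∃ cap, cap = 2 * c₀ + N' + (f + N' + 2 + 2 * B) := ⟨_, rfl⟩
  obtain ⟨ζ, hζ⟩ : ∃ ζ : ℝ, ζ = min (κ' / 8) (σ / 2) := ⟨_, rfl⟩
  have hζ0 : 0 < ζ := by rw [hζ]; positivity
  have hζ1 : ζ ≤ κ' / 8 := by rw [hζ]; exact min_le_left _ _
  have hζ2 : ζ ≤ σ / 2 := by rw [hζ]; exact min_le_right _ _
  refine ⟨ζ, δ₀ / 2, hζ0, by positivity, ?_⟩
  intro κ η s hst
  unfold FinOut
  refine ⟨0, fun lam _ K w => ?_⟩
  obtain ⟨C₃, hmid⟩ := hmid K w κ hst.1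
  refine ⟨0, fun sig _ => ?_⟩
  obtain ⟨cc, hcc⟩ : ∃ cc : ℕ, cc = 2 * sig + N' + C₁ + C₂ + C₃ + 2 * B + 2 + N := ⟨_, rfl⟩
  obtain ⟨C₀, hC₀⟩ : ∃ C₀ : ℕ, C₀ = 2 * cc + 2 * ⌈((8 + 4 * N' + cap : ℕ) : ℝ) / κ₀⌉₊ := ⟨_, rfl⟩
  refine ⟨C₀, fun C hC => ?_⟩
  intro T R l₁ l₂ qa pre post rest P Y V hI hl₁ hl₂ hlen hqa hζX hδr
  have hT := hI.tour
  obtain ⟨X, hX⟩ : ∃ X, X = (Y ∪ V) \ low R sig (Y ∪ V) := ⟨_, rfl⟩
  have hlow := card_low_in hT sig (Y ∪ V)
  have hXU : X ⊆ Y ∪ V := by rw [hX]; exact sdiff_subset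
  have hXn : (Y ∪ V).card ≤ X.card + 2 * sig := by
    have := le_card_sdiff (low R sig (Y ∪ V)) (Y ∪ V)
    rw [← hX] at this
    omega
  have hXn' : X.card ≤ (Y ∪ V).card := card_le_card hXU
  -- the sizes
  obtain ⟨mi, hmi⟩ : ∃ mi, mi = ((pre ++ qa :: post).map (fun t => t.1.size)).sum := ⟨_, rfl⟩
  obtain ⟨mo, hmo⟩ : ∃ mo, mo = (pre.map (fun t => t.2.size)).sum := ⟨_, rfl⟩
  obtain ⟨mq, hmq⟩ : ∃ mq, mq = ((qa :: post).map (fun t => t.2.size)).sum := ⟨_, rfl⟩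
  have hout : outS (pre ++ qa :: post) = mo + mq := by
    rw [hmo, hmq]
    simp [outS]
  have houtq : outS (qa :: post) = mq := by rw [hmq]; rfl
  have hn := hI.card
  have hL : szS (l₁ :: l₂ :: (pre ++ qa :: (post ++ rest))) =
      (l₁.1.size + l₁.2.size + 1) + ((l₂.1.size + l₂.2.size + 1) + (mi + (mo + mq) + (pre ++ qa :: post).length +
        szS rest)) := by
    have h1 : pre ++ qa :: (post ++ rest) = (pre ++ qa :: post) ++ rest := by simp
    rw [szS_cons, szS_cons, h1, szS_append, szS_eq (pre ++ qa :: post), hout, hmi]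
    rfl
  rw [hL] at hn
  unfold smB at hl₁ hl₂
  rw [hout] at hζX
  rw [houtq] at hδr
  -- the cut
  obtain ⟨p, hp⟩ : ∃ p, p = X.card - (N' + (mi + mo + C₁)) := ⟨_, rfl⟩
  have hp1 : mq + szS rest + cc ≤ p ∧ p + (N' + (mi + mo + C₁)) = X.card ∧ mq + szS rest + C ≤ 2 * p := by omega
  obtain ⟨hp1, hp2, hp3⟩ := hp1
  have hp4 : p ≤ 2 * (mo + mq + szS rest + C) := by omega
  have hpC : C ≤ 2 * p := by omega
  have hpκ : ((8 + 4 * N' + cap : ℕ) : ℝ) ≤ κ₀ * p := by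
    have h1 : ((8 + 4 * N' + cap : ℕ) : ℝ) / κ₀ ≤ p := by
      refine (Nat.le_ceil _).trans ?_
      exact_mod_cast (by omega : ⌈((8 + 4 * N' + cap : ℕ) : ℝ) / κ₀⌉₊ ≤ p)
    rw [div_le_iff₀ hκ₀0] at h1
    linarith
  have hnX : ((Y ∪ V).card : ℝ) ≤ 2 * X.card := by exact_mod_cast (by omega : (Y ∪ V).card ≤ 2 * X.card)
  have hX0 : (0 : ℝ) ≤ X.card := Nat.cast_nonneg _
  have hp4' : (p : ℝ) ≤ 2 * ((mo + mq + szS rest + C : ℕ) : ℝ) := by exact_mod_cast hp4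
  have hζX' : ζ * (Y ∪ V).card ≤ 2 * (ζ * X.card) := by
    have := mul_le_mul_of_nonneg_left hnX hζ0.le
    linarith
  have h2p : ((2 * p : ℕ) : ℝ) ≤ κ' * X.card := by
    push_cast
    have h1 : ζ * X.card ≤ κ' / 8 * X.card := mul_le_mul_of_nonneg_right hζ1 hX0
    linarith
  have h2p' : ((2 * p : ℕ) : ℝ) ≤ κ₀ * X.card :=
    h2p.trans (mul_le_mul_of_nonneg_right (by linarith) hX0)
  obtain ⟨G, ys, y, P₁, P₂, U₂, Rsv, Gc, Ex, Bad, hcut⟩ := exists_cutD hT (X := X) (cap := cap) (N := N') (p := p)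
    (κ₀ := κ₀) (η₀ := η₀) hκ₀0 hκη (by linarith) (by omega) (by
      refine le_trans ?_ hpκ
      exact_mod_cast (by omega : 8 + 4 * N' ≤ 8 + 4 * N' + cap)) (by
      refine le_trans ?_ hpκ
      exact_mod_cast (by omega : cap ≤ 8 + 4 * N' + cap)) h2p'
  have h := hcut.gcd
  have hcard := h.card_eq
  have hP₁c : P₁.card = mi + mo + C₁ := by omega
  have hP₂c : P₂.card = p := h.card₂
  have hP₁X : P₁ ⊆ X := fun u hu => ((h.part u).1 hu).1
  have hP₂X : P₂ ⊆ X := h.hP₂.trans (h.hU₂.trans h.hGX)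
  -- the last host
  have hyl : post.length < ys.length := by
    rw [h.len]
    simp only [List.length_append, List.length_cons] at hlen
    omega
  obtain ⟨yl, hyl'⟩ : ∃ yl, yl = ys[post.length] := ⟨_, rfl⟩
  have hylm : yl ∈ ys := by rw [hyl']; exact List.getElem_mem hyl
  have hcl : ∀ t ∈ pre ++ qa :: post, BrOk b l t := by
    intro t ht
    apply hI.cl
    simp only [List.mem_append, List.mem_cons] at ht ⊢
    tauto
  have hcl₁ : BrOk b l l₁ := hI.cl _ (by simp)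
  have hcl₂ : BrOk b l l₂ := hI.cl _ (by simp)
  -- the second part
  obtain ⟨E, hEU, hEf, hEy, hfin⟩ := hfin hT (U := U₂) (P := P₂) (ys := ys) (os := ys.zip ((qa :: post).map Prod.snd))
    (rest := rest) (yl := yl) h.hP₂ (by have := h.hU₂c; omega) (by omega) (by
      intro z hz
      obtain ⟨-, k2, -, k4, -⟩ := h.hys z hz
      exact ⟨k2, k4, h.out z hz⟩) h.len.le (by
      intro hc
      have h1 : (ys.zip ((qa :: post).map Prod.snd)).length = 0 := by rw [hc]; rfl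
      rw [List.length_zip, List.length_map, List.length_cons] at h1
      omega) (by
      rw [List.length_zip, List.length_map, List.length_cons, h.len]
      exact min_le_left _ _) (by
      intro o ho
      obtain ⟨k1, t, k2, k3⟩ := mem_zip_map ho
      obtain ⟨-, k4, -, k5⟩ := hcl t (List.mem_append_right _ k2)
      rw [k3]
      exact ⟨k1, k4, k5⟩) hylm (by
      refine hδr.trans ?_
      have h1 : ((mq + szS rest + C : ℕ) : ℝ) ≤ 2 * p := by exact_mod_cast hp3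
      have := mul_le_mul_of_nonneg_left h1 (by positivity : 0 ≤ δ₀ / 2)
      rw [hP₂c]
      linarith)
  -- the first part
  obtain ⟨v, a, zs, SA, SD, e1, e2, e3, e4, e5, e6, e7, e8, e9, e10, e11, e12, e13, e14, e15, e16, e17, e18⟩ :=
    hmid hT hI.st hst.2.2.1 hI.low hX (by omega) (by rw [← hcap]; exact hcut) h2p E hEf l₁ l₂ qa pre post hcl₁.2.2.1
      hcl₁.2.2.2 hl₁ hcl₂.2.2.1 hcl₂.2.2.2 hl₂ (by
      simp only [List.length_append, List.length_cons] at hlen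
      omega) (hcl qa (by simp)).1 (hcl qa (by simp)).2.2.1 (by
      intro t ht
      have h1 : t ∈ pre ++ qa :: post := by
        simp only [List.mem_append, List.mem_cons] at ht ⊢
        tauto
      exact ⟨(hcl t h1).1, (hcl t h1).2.2.1, hqa t ht⟩) (by
      intro t ht
      exact (hcl t (List.mem_append_left _ ht)).2.2.2) (by
      rw [← hmo]
      have h1 : (mo : ℝ) ≤ ((mo + mq + szS rest + C : ℕ) : ℝ) := by exact_mod_cast (by omega)
      have h2 : ζ * X.card ≤ σ / 2 * X.card := mul_le_mul_of_nonneg_right hζ2 hX0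
      linarith) (by
      rw [← hmi, ← hmo]
      omega)
  have hzP : ∀ z ∈ zs, z ∉ P₂ := fun z hz hc => disjoint_left.1 h.disj (e5 z hz) hc
  obtain ⟨W, hW⟩ : ∃ W, W = zs.toFinset ∪ insert v (insert a (SA ∪ SD)) := ⟨_, rfl⟩
  have hWm : ∀ u, u ∈ W ↔ u ∈ zs ∨ u = v ∨ u = a ∨ u ∈ SA ∨ u ∈ SD := by
    intro u
    rw [hW, mem_union, List.mem_toFinset, mem_insert, mem_insert, mem_union]
  obtain ⟨S, T', s1, s2, s3, s4, s5, s6, s7, -, s9⟩ := hfin W (by
      refine le_trans (card_le_card ?_) (e17.trans (by rw [hJ₂]))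
      intro u hu
      rw [mem_inter, hWm] at hu
      rw [mem_inter, mem_insert, mem_insert, mem_union]
      refine ⟨?_, hu.2⟩
      rcases hu.1 with h1 | h1
      · exact absurd hu.2 (hzP u h1)
      · exact h1) (by
      rw [disjoint_left]
      intro u hu huE
      rw [hWm] at hu
      rcases hu with h1 | rfl | rfl | h1 | h1
      · exact (e8 u (List.mem_cons_of_mem _ (List.mem_cons_of_mem _ h1))).2 huE
      · exact (e8 u List.mem_cons_self).2 huE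
      · exact (e8 u (List.mem_cons_of_mem _ List.mem_cons_self)).2 huE
      · exact disjoint_left.1 e15 h1 huE
      · exact disjoint_left.1 e16 h1 huE) (by
      have := totB_zip_le Prod.snd ys (qa :: post)
      rw [← hmq] at this
      omega)
  have hyX : ∀ z ∈ ys, z ∈ Y ∪ V := fun z hz => hXU (h.hGX (h.hys z hz).1)
  refine glueD (yl := yl) (S₂ := S) (T := T') (SA := SA) (SD := SD) e1 (by omega) e6 e7 e3 (by
    rw [hyl']
    exact List.getElem?_eq_getElem hyl) e9 e10 s1 e13 ?_ ?_ ?_ e11 e12 ?_ (s5.trans (hP₂X.trans hXU)) s9 ?_ ?_ s7.symm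
  · rw [disjoint_left]
    exact fun u hu hu' => disjoint_left.1 s3 hu' ((hWm u).2 (Or.inr (Or.inr (Or.inr (Or.inl hu)))))
  · rw [disjoint_left]
    exact fun u hu hu' => disjoint_left.1 s3 hu' ((hWm u).2 (Or.inr (Or.inr (Or.inr (Or.inr hu)))))
  · intro z hz
    obtain ⟨k1, k2⟩ := e14 z hz
    rcases List.mem_cons.1 hz with rfl | hz'
    · exact ⟨(e8 z List.mem_cons_self).1, k1, k2,
        fun hc => disjoint_left.1 s3 hc ((hWm z).2 (Or.inr (Or.inl rfl))),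
        fun hc => disjoint_left.1 s6 hc ((hWm z).2 (Or.inr (Or.inl rfl)))⟩
    rcases List.mem_cons.1 hz' with rfl | hz''
    · exact ⟨(e8 z (List.mem_cons_of_mem _ List.mem_cons_self)).1, k1, k2,
        fun hc => disjoint_left.1 s3 hc ((hWm z).2 (Or.inr (Or.inr (Or.inl rfl)))),
        fun hc => disjoint_left.1 s6 hc ((hWm z).2 (Or.inr (Or.inr (Or.inl rfl))))⟩
    rcases List.mem_append.1 hz'' with hz3 | hz3
    · exact ⟨(e8 z (List.mem_cons_of_mem _ (List.mem_cons_of_mem _ hz3))).1, k1, k2,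
        fun hc => disjoint_left.1 s3 hc ((hWm z).2 (Or.inl hz3)),
        fun hc => disjoint_left.1 s6 hc ((hWm z).2 (Or.inl hz3))⟩
    · exact ⟨hyX z hz3, k1, k2, s4 z hz3, fun hc => (h.hys z hz3).2.2.2.1 (s5 hc)⟩
  · refine s2.trans (union_subset (hEU.trans (h.hU₂.trans (h.hGX.trans hXU))) (hP₂X.trans hXU))
  · rw [disjoint_left]
    exact fun u hu hu' => disjoint_left.1 s6 hu ((hWm u).2 (Or.inr (Or.inr (Or.inr (Or.inl hu')))))
  · rw [disjoint_left]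
    exact fun u hu hu' => disjoint_left.1 s6 hu ((hWm u).2 (Or.inr (Or.inr (Or.inr (Or.inr hu')))))

end AEG
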