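import Pool.Agent.AEG.FinB
import Pool.Agent.AEG.Short

/-!
# The final step at the first vertex of the line, in the form for the tame round
-/

set_option autoImplicit false

namespace AEG

open Finset AE15 AED AEB
open scoped Classical

/-- **Final step at the first vertex of the line**, from the state -/
theorem finAS (p : NP) (hp : p.OK) (hab : ab p.b p.l ≤ p.a) {DF : ℕ} (hD : 2 * p.A ≤ DF)
    {ω c ηF η₁ κ₀ κ₁ κF γ₀ τ s σ₂ μ : ℝ} (P : KB DF ω c ηF η₁ κ₀ κ₁ κF γ₀ τ s σ₂ μ) : ∃ K : ℕ, 16 * p.b ≤ K ∧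
    ∀ κU s' : ℝ, 0 < κU → κU ≤ κF → 0 < s' → ∃ M C₀ : ℕ, ∀ h lam sig w K1 : ℕ, M * h + C₀ ≤ lam → ∃ C : ℕ,
    ∀ {V : Type} {R : V → V → Prop}, AE32.Tour R → ∀ {Y W : Finset V} {N : V → Prop},
      StM R Y W N κU ηF s' lam sig K1 → (W \ low R sig (Y ∪ W)).card ≤ w →
      ∀ {q : Fd × Fd} {L : List (Fd × Fd)}, q.1.size ≤ h → (∀ q' ∈ L.head?, q'.1.size ≤ h) →
      (∀ t ∈ q :: L, BrOk p.b p.l t) → K * (szS L + 1) ≤ q.2.size → szS (q :: L) + C ≤ (Y ∪ W).card →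
      InS R (q :: L) N (Y ∪ W) := by
  obtain ⟨K, hK⟩ := finAL p hp hab hD P
  refine ⟨K + 16 * p.b, by omega, ?_⟩
  intro κU s' hU0 hUκ hs'
  refine ⟨4, p.e, ?_⟩
  intro h lam sig w K1 hlam
  obtain ⟨C, hC⟩ := hK hU0 hUκ le_rfl hs' h lam sig w K1 hlam
  refine ⟨C, ?_⟩
  intro V R hT Y W N hS hw q L hq hL hcl hKq hsz
  refine hC hT hS hw hq ?_ (hcl q List.mem_cons_self).2.2.1 (fun t ht => ⟨(hcl t ht).1, (hcl t ht).2.1⟩) ?_ hsz
  · intro t ht
    cases L with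
    | nil => simp at ht
    | cons q' L' =>
      have h1 : t = q' := by simpa using ht
      rw [h1]
      exact hL q' (by simp)
  · have h1 : K * (szS L + 1) ≤ (K + 16 * p.b) * (szS L + 1) := Nat.mul_le_mul_right _ (by omega)
    omega

end AEG
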