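import Pool.Agent.AEG.TameR
import Pool.Agent.AEG.FinAL

/-!
# The tame rounds, for all small constants
-/

set_option autoImplicit false

namespace AEG

open Finset AE15 AED AEB
open scoped Classical

/-- **The tame rounds** -/
theorem tameR (b l : ℕ) (hb : 1 ≤ b) : ∃ D₁ : ℕ, ∀ D₀, D₁ ≤ D₀ → ∀ ω c η η₁ κ₀ κ₁ κ γ₀ τ s σ₂ μ : ℝ,
    KB D₀ ω c η η₁ κ₀ κ₁ κ γ₀ τ s σ₂ μ → TameR b l κ η s := by
  obtain ⟨p, hp, hpb, hpl, hab, -⟩ := exists_np b l 0 hb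
  subst hpb hpl
  have h64 := hp.D₀
  obtain ⟨ωF, cF, ηF, η₁F, κ₀F, κ₁F, κF, γF, τF, sF, σF, μF, PF⟩ := exists_KB (D := 2 * p.A) (by omega)
  obtain ⟨K, hK, hA⟩ := finAS p hp hab le_rfl PF
  have hκF : 0 < κF := PF.num.2.2.2.2.2.2.2.2.2.2.2.1
  refine ⟨2 * p.A + 2 * p.b * (K + 2) + 2 * ((K + 1) * K + K), ?_⟩
  intro D₀ hD ω c η η₁ κ₀ κ₁ κ γ₀ τ s σ₂ μ P
  refine tameR_of p hp hab hκF (K := K) hA hK (by omega) (by omega) (by omega) P ?_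
  have h1 : (0 : ℝ) < 2 * p.A := by
    have : 0 < p.A := by omega
    positivity
  have h2 : (2 * p.A : ℝ) ≤ D₀ := by exact_mod_cast (by omega : 2 * p.A ≤ D₀)
  have h3 : ω ≤ ωF := by
    rw [P.hω, PF.hω]
    push_cast
    apply one_div_le_one_div_of_le (by positivity)
    linarith
  rw [P.hη, PF.hη]
  linarith

end AEG
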