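import Pool.Agent.AEG.MainM2
import Pool.Agent.AEG.SplitM
import Pool.Agent.AEG.FinBothM
import Pool.Agent.AEG.ClLinM
import Pool.Agent.AEG.FinIn
import Pool.Agent.AEG.FinOut
import Pool.Agent.AEG.ClSm
import Pool.Agent.AEG.TameAll

/-!
# Class M2: all rounds together
-/

set_option autoImplicit false

namespace AEG

open Finset Relation AE15 AED AEB

/-- **The coded statement of the class M2** -/
theorem codII (b l B N : ℕ) (hb : 1 ≤ b) : ∃ C : ℕ, CodII b l B N C := by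
  obtain ⟨p, hp, rfl, rfl, hab, -⟩ := exists_np b l 0 hb
  refine codII_of (tameR p.b p.l hb) (fun ζ δ hζ hδ => ?_) (fun δ hδ => clSm p.b p.l B (2 * (N + 6)) hb (by omega) hδ)
    (finBoth p.b p.l B (2 * (N + 6)) hb (by omega)) (fin_in p.b p.l B (2 * (N + 6)) hb) (finOut p.b p.l B (2 * (N + 6)) hb)
  obtain ⟨D₁, h⟩ := clLin p hp hab B (2 * (N + 6)) (by omega) hζ hδ
  exact ⟨D₁, fun D₀ hD ω c η η₁ κ₀ κ₁ κ γ₀ τ s σ₂ μ P => h D₀ hD P⟩

end AEG
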