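import Pool.Agent.AEG.CovR

/-!
# Avoiding a bounded set in the reserve of a group cut

`GC.avoid`, `GCD.avoid`: few vertices of the reserve cover many vertices. A bounded set `F₁` which avoids them can be
removed from the reserve; the vertices which lose their reserved dominator become exceptional.
-/

set_option autoImplicit false

namespace AEG

open Finset AE15 AEB SPD
open scoped Classical

variable {V : Type*} {R : V → V → Prop}

theorem GC.avoid {X Bd Bad : Finset V} {p q N e : ℕ} {κ₀ η : ℝ} {G : Finset V} {ys : List V} {y : V}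
    {P₁ P₂ U₁ Rsv Gc Ex : Finset V} (h : GC R X Bd Bad p q N e κ₀ η G ys y P₁ P₂ U₁ Rsv Gc Ex) (M : ℕ) :
    ∃ High ⊆ Rsv, High.card * M ≤ P₂.card ∧ ∀ (F₁ : Finset V) (f : ℕ), F₁.card ≤ f → Disjoint F₁ High →
      ∃ Rsv' Ex', Rsv' ⊆ Rsv ∧ Disjoint F₁ Rsv' ∧
        GC R X Bd Bad p q N (e + M * f) κ₀ η G ys y P₁ P₂ U₁ Rsv' Gc Ex' := by
  obtain ⟨Cu, hCu⟩ : ∃ Cu, Cu = P₂.filter (fun u => ∃ w ∈ Rsv, R y w ∧ R w u) := ⟨_, rfl⟩
  have hD : ∀ u, ∃ w, u ∈ Cu → w ∈ Rsv ∧ R y w ∧ R w u := by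
    intro u
    by_cases hu : u ∈ Cu
    · have h1 := hu
      rw [hCu, mem_filter] at h1
      obtain ⟨w, hw1, hw2, hw3⟩ := h1.2
      exact ⟨w, fun _ => ⟨hw1, hw2, hw3⟩⟩
    · exact ⟨u, fun hc => absurd hc hu⟩
  choose Dc hDc using hD
  obtain ⟨High, hHigh⟩ : ∃ High, High = Rsv.filter (fun w => M ≤ (Cu.filter (fun u => Dc u = w)).card) := ⟨_, rfl⟩
  have hCuc : Cu.card ≤ P₂.card := by rw [hCu]; exact card_filter_le _ _
  refine ⟨High, by rw [hHigh]; exact filter_subset _ _, ?_, ?_⟩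
  · have h1 := card_eq_sum_card_fiberwise (s := Cu.filter (fun u => Dc u ∈ High)) (t := High) (f := Dc) (by
      intro u hu
      rw [mem_coe, mem_filter] at hu
      exact hu.2)
    have h2 : High.card * M ≤ ∑ w ∈ High, ((Cu.filter (fun u => Dc u ∈ High)).filter (fun u => Dc u = w)).card := by
      rw [← smul_eq_mul]
      apply card_nsmul_le_sum
      intro w hw
      have h3 : Cu.filter (fun u => Dc u = w) ⊆ (Cu.filter (fun u => Dc u ∈ High)).filter (fun u => Dc u = w) := by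
        intro u hu
        rw [mem_filter] at hu
        rw [mem_filter, mem_filter]
        exact ⟨⟨hu.1, by rw [hu.2]; exact hw⟩, hu.2⟩
      have h4 := hw
      rw [hHigh, mem_filter] at h4
      exact h4.2.trans (card_le_card h3)
    rw [← h1] at h2
    exact h2.trans ((card_filter_le _ _).trans hCuc)
  · intro F₁ f hF hd
    obtain ⟨E', hE'⟩ : ∃ E', E' = Cu.filter (fun u => Dc u ∈ F₁) := ⟨_, rfl⟩
    have hE'c : E'.card ≤ M * f := by
      have h1 := card_le_mul_card_image (f := Dc) E' M (by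
        intro w hw
        rw [mem_image] at hw
        obtain ⟨u, hu, rfl⟩ := hw
        rw [hE', mem_filter] at hu
        have h2 : Dc u ∉ High := fun hc => disjoint_left.1 hd hu.2 hc
        rw [hHigh, mem_filter, not_and, not_le] at h2
        refine (card_le_card ?_).trans (h2 (hDc u hu.1).1).le
        intro u' hu'
        rw [mem_filter, hE', mem_filter] at hu'
        exact mem_filter.2 ⟨hu'.1.1, hu'.2⟩)
      have h3 : (E'.image Dc).card ≤ f := by
        refine (card_le_card ?_).trans hF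
        intro w hw
        rw [mem_image] at hw
        obtain ⟨u, hu, rfl⟩ := hw
        rw [hE', mem_filter] at hu
        exact hu.2
      exact h1.trans (Nat.mul_le_mul_left _ h3)
    have he : e ≤ e + M * f := Nat.le_add_right _ _
    refine ⟨Rsv \ F₁, Ex ∪ E', sdiff_subset, disjoint_sdiff, ?_⟩
    exact { h with
      inn := fun z hz => (h.inn z hz).mono5 (Subset.refl _) le_rfl le_rfl le_rfl le_rfl
        (Nat.mul_le_mul_left _ (Nat.mul_le_mul_left _ (by omega)))
      inn₁ := fun z hz => (h.inn₁ z hz).mono5 (Subset.refl _) le_rfl le_rfl le_rfl le_rfl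
        (Nat.mul_le_mul_left _ he)
      hRsv := fun w hw => h.hRsv w (mem_sdiff.1 hw).1
      hRc := (card_le_card sdiff_subset).trans (h.hRc.trans (by omega))
      out := by
        intro u hu huy
        rcases h.out u hu huy with h1 | ⟨w, h1, h2, h3⟩ | h1 | h1
        · exact Or.inl (mem_union_left _ h1)
        · have huC : u ∈ Cu := by
            rw [hCu]
            exact mem_filter.2 ⟨hu, w, h1, h2, h3⟩
          obtain ⟨g1, g2, g3⟩ := hDc u huC
          by_cases h4 : Dc u ∈ F₁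
          · exact Or.inl (mem_union_right _ (by rw [hE']; exact mem_filter.2 ⟨huC, h4⟩))
          · exact Or.inr (Or.inl ⟨Dc u, mem_sdiff.2 ⟨g1, h4⟩, g2, g3⟩)
        · exact Or.inr (Or.inr (Or.inl h1))
        · exact Or.inr (Or.inr (Or.inr h1))
      cnt := fun j hj => (h.cnt j hj).trans (by
        have := Nat.mul_le_mul_left N he
        omega)
      hEx := (card_union_le _ _).trans (Nat.add_le_add h.hEx hE'c) }

theorem GCD.avoid {X Bd Bad : Finset V} {p q N e : ℕ} {κ₀ η : ℝ} {G : Finset V} {ys : List V} {y : V}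
    {P₁ P₂ U₂ Rsv Gc Ex : Finset V} (h : GCD R X Bd Bad p q N e κ₀ η G ys y P₁ P₂ U₂ Rsv Gc Ex) (M : ℕ) :
    ∃ High ⊆ Rsv, High.card * M ≤ P₁.card ∧ ∀ (F₁ : Finset V) (f : ℕ), F₁.card ≤ f → Disjoint F₁ High →
      ∃ Rsv' Ex', Rsv' ⊆ Rsv ∧ Disjoint F₁ Rsv' ∧
        GCD R X Bd Bad p q N (e + M * f) κ₀ η G ys y P₁ P₂ U₂ Rsv' Gc Ex' := by
  obtain ⟨High, h1, h2, h3⟩ := h.gc.avoid M
  refine ⟨High, h1, h2, fun F₁ f hF hd => ?_⟩
  obtain ⟨Rsv', Ex', g1, g2, g3⟩ := h3 F₁ f hF hd
  refine ⟨Rsv', Ex', g1, g2, ?_⟩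
  have g4 := g3.dual
  rw [List.reverse_reverse] at g4
  exact g4

end AEG
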