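import Pool.Agent.AEG.DefsF
import Pool.Agent.AEG.Short

/-!
# The fine class: lists, elementary facts about the state, bookkeeping
-/

set_option autoImplicit false

namespace AEG

open Finset AE15 AED AEB
open scoped Classical

/-! ### The class -/

/-- the lines of the fine class without critical groups -/
structure ClsF (b l K₀ K₂ N₁ B : ℕ) (θ : ℝ) (L : List (Fd × Fd)) : Prop where
  br : ∀ q ∈ L, BrO b l q
  noD : ∀ q L', (q :: L') <:+ L → L' ≠ [] → NoD K₀ q L'
  last : ∀ q, [q] <:+ L → q.1.size + q.2.size ≤ B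
  inn : ∀ q L', (q :: L') <:+ L → (q.1.size : ℝ) ≤ θ * szS (q :: L') + B
  flat : ∀ i, i + N₁ ≤ L.length → ∃ j, i ≤ j ∧ j + 8 ≤ i + N₁ ∧
    K₂ * inS ((L.drop j).take 8) ≤ inS (L.drop (j + 8)) + B

theorem ClsF.drop {b l K₀ K₂ N₁ B : ℕ} {θ : ℝ} {L : List (Fd × Fd)} (h : ClsF b l K₀ K₂ N₁ B θ L) (n : ℕ) :
    ClsF b l K₀ K₂ N₁ B θ (L.drop n) := by
  refine ⟨fun q hq => h.br q (List.mem_of_mem_drop hq), fun q L' h1 => h.noD q L' (h1.trans (List.drop_suffix n L)),
    fun q h1 => h.last q (h1.trans (List.drop_suffix n L)), fun q L' h1 => h.inn q L' (h1.trans (List.drop_suffix n L)),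
    fun i hi => ?_⟩
  rw [List.length_drop] at hi
  rcases Nat.eq_zero_or_pos (L.length - n) with h0 | h0
  · -- the list is empty
    refine ⟨i, le_rfl, ?_, ?_⟩
    · have hi0 : i + N₁ = 0 := by omega
      obtain ⟨j, hj1, hj2, -⟩ := h.flat 0 (by omega)
      omega
    · have : L.drop n = [] := List.drop_eq_nil_of_le (by omega)
      simp [this, inS]
  · obtain ⟨j, hj1, hj2, hj3⟩ := h.flat (n + i) (by omega)
    refine ⟨j - n, by omega, by omega, ?_⟩
    rw [List.drop_drop, List.drop_drop, show n + (j - n) = j by omega, show n + (j - n + 8) = j + 8 by omega]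
    exact hj3

theorem ClsF.grow {b l K₀ K₂ N₁ B : ℕ} {θ : ℝ} {L : List (Fd × Fd)} (h : ClsF b l K₀ K₂ N₁ B θ L) (hθ : θ ≤ 1 / 2) :
    szS L + (2 * B + 2) ≤ (2 * K₀ + 4) * (szS (L.drop 1) + (2 * B + 2)) := by
  cases L with
  | nil =>
    simp only [szS, List.drop_nil, List.map_nil, List.sum_nil, Nat.zero_add]
    nlinarith
  | cons q L =>
    rw [List.drop_one, List.tail_cons]
    have h1 := h.inn q L List.suffix_rfl
    have h2 : q.2.size ≤ K₀ * szS L + B := by
      by_cases hL : L = []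
      · subst hL
        have := h.last q List.suffix_rfl
        omega
      · have := h.noD q L List.suffix_rfl hL
        unfold NoD at this
        omega
    have h3 : (q.1.size : ℝ) ≤ 1 / 2 * szS (q :: L) + B :=
      h1.trans (add_le_add_left (mul_le_mul_of_nonneg_right hθ (Nat.cast_nonneg _)) _)
    have h4 : 2 * q.1.size ≤ szS (q :: L) + 2 * B := by
      have : (2 * q.1.size : ℝ) ≤ szS (q :: L) + 2 * B := by linarith
      exact_mod_cast this
    rw [szS_cons] at h4 ⊢
    nlinarith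

theorem ClsF.grow' {b l K₀ K₂ N₁ B : ℕ} {θ : ℝ} {L : List (Fd × Fd)} (h : ClsF b l K₀ K₂ N₁ B θ L) (hθ : θ ≤ 1 / 2)
    (n : ℕ) : szS L + (2 * B + 2) ≤ (2 * K₀ + 4) ^ n * (szS (L.drop n) + (2 * B + 2)) := by
  induction n with
  | zero => simp
  | succ n ih =>
    have h1 := (h.drop n).grow hθ
    rw [List.drop_drop] at h1
    calc szS L + (2 * B + 2) ≤ (2 * K₀ + 4) ^ n * (szS (L.drop n) + (2 * B + 2)) := ih
      _ ≤ (2 * K₀ + 4) ^ n * ((2 * K₀ + 4) * (szS (L.drop (n + 1)) + (2 * B + 2))) := Nat.mul_le_mul_left _ h1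
      _ = (2 * K₀ + 4) ^ (n + 1) * (szS (L.drop (n + 1)) + (2 * B + 2)) := by ring

/-- short lists are small -/
theorem ClsF.small {b l K₀ K₂ N₁ B : ℕ} {θ : ℝ} {L : List (Fd × Fd)} (h : ClsF b l K₀ K₂ N₁ B θ L) (hθ : θ ≤ 1 / 2)
    {n : ℕ} (hn : L.length ≤ n) : szS L ≤ (2 * K₀ + 4) ^ n * (2 * B + 2) := by
  have h1 := h.grow' hθ n
  rw [List.drop_eq_nil_of_le hn] at h1
  simp only [szS, List.map_nil, List.sum_nil, Nat.zero_add] at h1 ⊢
  omega

theorem ClsF.noDs {b l K₀ K₂ N₁ B : ℕ} {θ : ℝ} {gr L : List (Fd × Fd)} (h : ClsF b l K₀ K₂ N₁ B θ (gr ++ L))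
    (hL : L ≠ []) : NoDs K₀ gr L := by
  induction gr with
  | nil => trivial
  | cons q gr ih =>
    refine ⟨h.noD q (gr ++ L) List.suffix_rfl (by simp [hL]), ih ?_⟩
    have := h.drop 1
    simpa using this

/-- there is a vertex with a large in-branch in a short list of large mass -/
theorem exists_big_in (L : List (Fd × Fd)) : ∃ i, (i < L.length ∨ inS L = 0) ∧
    inS L ≤ L.length * inS ((L.drop i).take 1) := by
  induction L with
  | nil => exact ⟨0, Or.inr rfl, by simp [inS]⟩
  | cons q L ih =>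
    obtain ⟨i, hi, h⟩ := ih
    by_cases hc : inS ((L.drop i).take 1) ≤ q.1.size
    · refine ⟨0, Or.inl (by simp), ?_⟩
      have h1 : inS ((List.drop 0 (q :: L)).take 1) = q.1.size := by simp [inS]
      have h2 : inS (q :: L) = q.1.size + inS L := by simp [inS]
      rw [h1, h2, List.length_cons]
      have h3 : L.length * inS ((L.drop i).take 1) ≤ L.length * q.1.size := Nat.mul_le_mul_left _ hc
      calc q.1.size + inS L ≤ q.1.size + L.length * q.1.size := by omega
        _ = (L.length + 1) * q.1.size := by ring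
    · refine ⟨i + 1, ?_, ?_⟩
      · rcases hi with hi | hi
        · exact Or.inl (by simp; omega)
        · by_cases hL : i < L.length
          · exact Or.inl (by simp; omega)
          · exfalso
            apply hc
            rw [List.drop_eq_nil_of_le (by omega)]
            simp [inS]
      · have h1 : List.drop (i + 1) (q :: L) = L.drop i := by simp
        have h2 : inS (q :: L) = q.1.size + inS L := by simp [inS]
        rw [h1, h2, List.length_cons]
        have h3 : q.1.size ≤ inS ((L.drop i).take 1) := by omega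
        calc q.1.size + inS L ≤ inS ((L.drop i).take 1) + L.length * inS ((L.drop i).take 1) := by omega
          _ = (L.length + 1) * inS ((L.drop i).take 1) := by ring

theorem inS_take_add_drop (L : List (Fd × Fd)) (n : ℕ) : inS (L.take n) + inS (L.drop n) = inS L := by
  rw [← inS_append, List.take_append_drop]

theorem inS_drop_le (L : List (Fd × Fd)) (n : ℕ) : inS (L.drop n) ≤ inS L := by
  have := inS_take_add_drop L n
  omega

theorem inS_take_le (L : List (Fd × Fd)) (n : ℕ) : inS (L.take n) ≤ inS L := by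
  have := inS_take_add_drop L n
  omega

theorem inS_take_mono (L : List (Fd × Fd)) {m n : ℕ} (h : m ≤ n) : inS (L.take m) ≤ inS (L.take n) := by
  have : L.take m = (L.take n).take m := by rw [List.take_take, min_eq_left h]
  rw [this]
  exact inS_take_le _ _

theorem inS_drop_anti (L : List (Fd × Fd)) {m n : ℕ} (h : m ≤ n) : inS (L.drop n) ≤ inS (L.drop m) := by
  have : L.drop n = (L.drop m).drop (n - m) := by rw [List.drop_drop]; congr 1; omega
  rw [this]
  exact inS_drop_le _ _

theorem inS_le_szS (L : List (Fd × Fd)) : inS L ≤ szS L := by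
  rw [szS_eq]
  omega

/-! ### The state -/

theorem StE.mono {T : Type*} {R : T → T → Prop} {X E : Finset T} {N : T → Prop} {κ η s : ℝ}
    {lam lam' sig sig' f w w' K K' lamE : ℕ} (h : StE R X E N κ η s lam sig f w K lamE) (h1 : lam' ≤ lam)
    (h2 : sig ≤ sig') (h3 : w ≤ w') (h4 : K ≤ K') : StE R X E N κ η s lam' sig' f w' K' lamE := by
  have hsub : cg R X ∅ N κ η lam ⊆ cg R X ∅ N κ η lam' := by
    intro v hv
    rw [mem_cg] at hv ⊢
    exact ⟨hv.1, hv.2.1, hv.2.2.1, h1.trans hv.2.2.2⟩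
  refine ⟨h.sub, h.dense.trans (Nat.cast_le.2 (card_le_card hsub)), fun j hj => ?_, fun u hu => ?_⟩
  · refine (card_le_card ?_).trans ((h.cnt j hj).trans (Nat.add_le_add h3 (Nat.mul_le_mul_right _ h4)))
    intro u hu
    rw [mem_filter] at hu ⊢
    exact ⟨hu.1, hu.2.1, h2.trans hu.2.2.1, (card_le_card (nI_mono hsub)).trans hu.2.2.2⟩
  · refine (h.thr u hu).trans (card_le_card ?_)
    intro v hv
    rw [mem_filter] at hv ⊢
    exact ⟨hv.1, hv.2.1, hv.2.2.1, h1.trans hv.2.2.2⟩

/-- lowering the threshold `sig` costs at most `2 * sig` -/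
theorem StE.sig_lower {T : Type*} {R : T → T → Prop} (hT : AE32.Tour R) {X E : Finset T} {N : T → Prop} {κ η s : ℝ}
    {lam sig f w K lamE : ℕ} (h : StE R X E N κ η s lam sig f w K lamE) (sig' : ℕ) :
    StE R X E N κ η s lam sig' f (w + 2 * sig) K lamE := by
  refine ⟨h.sub, h.dense, fun j hj => ?_, h.thr⟩
  have h1 : (X \ E).filter (fun u => ¬ N u ∧ sig' ≤ (nI R X u).card ∧ (nI R (cg R X ∅ N κ η lam) u).card ≤ j) ⊆
      (X \ E).filter (fun u => ¬ N u ∧ sig ≤ (nI R X u).card ∧ (nI R (cg R X ∅ N κ η lam) u).card ≤ j) ∪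
        low R sig X := by
    intro u hu
    rw [mem_filter] at hu
    rw [mem_union, mem_filter, mem_low]
    by_cases hc : sig ≤ (nI R X u).card
    · exact Or.inl ⟨hu.1, hu.2.1, hc, hu.2.2.2⟩
    · exact Or.inr ⟨(mem_sdiff.1 hu.1).1, by omega⟩
  have h2 := h.cnt j hj
  have h3 : (low R sig X).card ≤ 2 * sig := card_lowin hT X sig
  have h4 := (card_le_card h1).trans (card_union_le _ _)
  omega

/-- a small line is contained in the set of the possible hosts -/
theorem StE.finish {V : Type} {R : V → V → Prop} (hT : AE32.Tour R) {X E : Finset V} {N : V → Prop} {κ η s : ℝ}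
    {lam sig f w K lamE : ℕ} (h : StE R X E N κ η s lam sig f w K lamE) {L : List (Fd × Fd)} (hL : L ≠ [])
    (hsz : 4 * (szS L : ℝ) ≤ s * X.card) : InS R L N X := by
  have h1 : 4 * (szS L : ℝ) ≤ ((cg R X ∅ N κ η lam).card : ℝ) := hsz.trans h.dense
  obtain ⟨y, hy, S, hS, hyS, hE⟩ := inX_four hT hL (X := cg R X ∅ N κ η lam) (by exact_mod_cast h1)
  have hsub : cg R X ∅ N κ η lam ⊆ X := fun v hv => (mem_cg.1 hv).1
  exact ⟨y, hsub hy, (mem_cg.1 hy).2.1, S, hS.trans hsub, hyS, hE⟩

end AEG
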