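import Pool.Agent.AEG.Link
import Pool.Agent.H12AE.Cap

/-!
# The capacity ladder outside a part which contains the poor vertices

`X` is covered by `P₁`, `Y`, `P₂` and the poor vertices of `X` lie in `P₁`. Let `B` be the set of the vertices of
`P₂ ∩ lin` with fewer than `M` in-neighbours in `P₁`. If `B` is small then every vertex of `X` which is not poor has `M`
in-neighbours in `P₁`, or `m` in-neighbours in `P₂ ∩ lin` (outside a given small set) which have `M` in-neighbours in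
`P₁`.
-/

set_option autoImplicit false

namespace AEG

open Finset AE15 SPD Pool.Agent.H12AE
open scoped Classical

variable {V : Type} {R : V → V → Prop}

/-- the vertices of `P₂` of large out-degree with few in-neighbours in `P₁` -/
noncomputable def poor₁ (R : V → V → Prop) (X P₁ P₂ : Finset V) (w M : ℕ) : Finset V :=
  (P₂ ∩ lin R X w).filter (fun h => (nI R P₁ h).card < M)

/-- types 1 and 2 -/
theorem cap_one {X P₁ Y P₂ Av : Finset V} {w t M m : ℕ} {h : V} (hX : X ⊆ P₁ ∪ Y ∪ P₂) (hh : h ∈ X)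
    (hn : h ∉ poor R X w t) (ht : M + Y.card + (poor₁ R X P₁ P₂ w M).card + Av.card + m ≤ t) :
    Cap (rv R) P₁ ((P₂ ∩ lin R X w) \ Av) M m 1 h := by
  by_cases h1 : M ≤ (nI R P₁ h).card
  · exact Or.inl h1
  · right
    have h2 := cap (R := R) hX hh hn
    have h3 : (nI R (P₁ ∩ lin R X w) h).card ≤ (nI R P₁ h).card := card_le_card (nI_mono inter_subset_left)
    have h4 : nI R (P₂ ∩ lin R X w) h ⊆
        (((P₂ ∩ lin R X w) \ Av).filter (fun u => rv R h u ∧ Cap (rv R) P₁ ((P₂ ∩ lin R X w) \ Av) M m 0 u)) ∪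
          (poor₁ R X P₁ P₂ w M ∪ Av) := by
      intro u hu
      rw [mem_nI] at hu
      rw [mem_union, mem_union, mem_filter, mem_sdiff, poor₁, mem_filter]
      by_cases h5 : u ∈ Av
      · exact Or.inr (Or.inr h5)
      · by_cases h6 : (nI R P₁ u).card < M
        · exact Or.inr (Or.inl ⟨hu.1, h6⟩)
        · exact Or.inl ⟨⟨hu.1, h5⟩, hu.2, not_lt.1 h6⟩
    have h5 := (card_le_card h4).trans (card_union_le _ _)
    have h6 := card_union_le (poor₁ R X P₁ P₂ w M) Av
    have h7 : m ≤ (((P₂ ∩ lin R X w) \ Av).filter (fun u => rv R h u ∧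
        Cap (rv R) P₁ ((P₂ ∩ lin R X w) \ Av) M m 0 u)).card := by
      have h8 : (nI R (P₂ ∩ lin R X w) h).card ≤ (((P₂ ∩ lin R X w) \ Av).filter (fun u => rv R h u ∧
        Cap (rv R) P₁ ((P₂ ∩ lin R X w) \ Av) M m 0 u)).card + ((poor₁ R X P₁ P₂ w M).card + Av.card) :=
        h5.trans (Nat.add_le_add_left h6 _)
      generalize (((P₂ ∩ lin R X w) \ Av).filter (fun u => rv R h u ∧
        Cap (rv R) P₁ ((P₂ ∩ lin R X w) \ Av) M m 0 u)).card = q at h8 ⊢
      omega
    exact h7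

/-- type 3: many in-neighbours which are not poor -/
theorem cap_two {X P₁ Y P₂ Av W : Finset V} {w t M m : ℕ} {h : V} (hX : X ⊆ P₁ ∪ Y ∪ P₂)
    (hW : ∀ u ∈ W, u ∈ (P₂ ∩ lin R X w) \ Av ∧ u ∈ X ∧ R u h ∧ u ∉ poor R X w t) (hWm : m ≤ W.card)
    (ht : M + Y.card + (poor₁ R X P₁ P₂ w M).card + Av.card + m ≤ t) :
    Cap (rv R) P₁ ((P₂ ∩ lin R X w) \ Av) M m 2 h := by
  right
  refine hWm.trans (card_le_card ?_)
  intro u hu
  obtain ⟨h1, h2, h3, h4⟩ := hW u hu
  rw [mem_filter]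
  exact ⟨h1, h3, cap_one hX h2 h4 ht⟩

/-- in case (ii) a vertex which is not poor has many in-neighbours in `P₁`, or in `P₂ ∩ lin` outside a given set -/
theorem cap_or {X P₁ Y P₂ Av : Finset V} {w t M : ℕ} {h : V} (hX : X ⊆ P₁ ∪ Y ∪ P₂) (hh : h ∈ X)
    (hn : h ∉ poor R X w t) (h1 : (nI R P₁ h).card < M) :
    t ≤ M + Y.card + Av.card + (nI R ((P₂ ∩ lin R X w) \ Av) h).card := by
  have h2 := cap (R := R) hX hh hn
  have h3 : (nI R (P₁ ∩ lin R X w) h).card ≤ (nI R P₁ h).card := card_le_card (nI_mono inter_subset_left)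
  have h4 : nI R (P₂ ∩ lin R X w) h ⊆ nI R ((P₂ ∩ lin R X w) \ Av) h ∪ Av := by
    intro u hu
    rw [mem_nI] at hu
    rw [mem_union, mem_nI, mem_sdiff]
    by_cases h5 : u ∈ Av
    · exact Or.inr h5
    · exact Or.inl ⟨⟨hu.1, h5⟩, hu.2⟩
  have h5 := (card_le_card h4).trans (card_union_le _ _)
  omega

end AEG
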