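import Pool.Agent.AEG.HeavyF

/-!
# The fine class with critical groups: the heavy stages, list form

The share `ζ` of the mass behind does not depend on `B`, as the excess is at least `2 * B + 2`.
-/

set_option autoImplicit false

namespace AEG

open Finset AE15 AED AEB
open scoped Classical

/-- the mass behind is a share of the whole -/
theorem ClsF.share' {b l K₀ K₂ N₁ B : ℕ} {θ : ℝ} {L : List (Fd × Fd)} (h : ClsF b l K₀ K₂ N₁ B θ L) (hθ : θ ≤ 1 / 2)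
    {c : ℕ} (hc : 2 * B + 2 ≤ c) {n m : ℕ} (hnm : n ≤ m) :
    szS L + c ≤ 2 * (2 * K₀ + 4) ^ m * (szS (L.drop n) + c) := by
  have h1 := h.grow' hθ n
  have h2 : (2 * K₀ + 4) ^ n ≤ (2 * K₀ + 4) ^ m := Nat.pow_le_pow_right (by omega) hnm
  have h3 : 1 ≤ (2 * K₀ + 4) ^ m := Nat.one_le_pow _ _ (by omega)
  generalize (2 * K₀ + 4) ^ m = a at h2 h3 ⊢
  have h4 : szS L + (2 * B + 2) ≤ a * (szS (L.drop n) + c) :=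
    h1.trans (Nat.mul_le_mul h2 (by omega))
  have h5 : 1 * c ≤ a * (szS (L.drop n) + c) := Nat.mul_le_mul h3 (by omega)
  have h6 : 2 * a * (szS (L.drop n) + c) = 2 * (a * (szS (L.drop n) + c)) := by ring
  omega

theorem ClsF.share {b l K₀ K₂ N₁ B : ℕ} {θ : ℝ} {L : List (Fd × Fd)} (h : ClsF b l K₀ K₂ N₁ B θ L) (hθ : θ ≤ 1 / 2)
    {c : ℕ} (hc : 2 * B + 2 ≤ c) {n m : ℕ} (hnm : n ≤ m) {ζ : ℝ} (hζ0 : 0 ≤ ζ)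
    (hζ : ζ * (2 * (2 * K₀ + 4) ^ m : ℕ) ≤ 1) :
    ζ * ((szS L + c : ℕ) : ℝ) ≤ ((szS (L.drop n) + c : ℕ) : ℝ) := by
  have h1 := h.share' hθ hc hnm
  have h2 : ((szS L + c : ℕ) : ℝ) ≤ (2 * (2 * K₀ + 4) ^ m : ℕ) * ((szS (L.drop n) + c : ℕ) : ℝ) := by exact_mod_cast h1
  have h3 := mul_le_mul_of_nonneg_left h2 hζ0
  have h4 := mul_le_mul_of_nonneg_right hζ (Nat.cast_nonneg (α := ℝ) (szS (L.drop n) + c))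
  linarith [(by ring : ζ * ((2 * (2 * K₀ + 4) ^ m : ℕ) * ((szS (L.drop n) + c : ℕ) : ℝ)) =
    ζ * (2 * (2 * K₀ + 4) ^ m : ℕ) * ((szS (L.drop n) + c : ℕ) : ℝ))]

section
variable {b l K₀ : ℕ} {κ η s : ℝ} {Λ A Nn : ℕ} {ζ : ℝ} {K₁ f K' : ℕ} {ξ : ℝ} {C : ℕ}

/-- the list side of the three heavy stages -/
theorem heavy_pre' {K₂ N₁ B : ℕ} {θ : ℝ} {V : Type} {X : Finset V} {L : List (Fd × Fd)} {j : ℕ}
    (hcl : ClsF b l K₀ K₂ N₁ B θ L) (hθ : θ ≤ 1 / 2) (hjN : j ≤ Nn)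
    (hζ : ζ * (2 * (2 * K₀ + 4) ^ (Nn + 3) : ℕ) ≤ 1) (hζ0 : 0 < ζ)
    {l₁ l₂ l₃ t₁ t₂ t₃ : Fd × Fd} {gr L' : List (Fd × Fd)} (hLe : L = l₁ :: l₂ :: l₃ :: (gr ++ t₁ :: t₂ :: t₃ :: L'))
    (hne : L' ≠ []) (hgr : gr.length + 3 = j) (hd : L' = L.drop (j + 3)) {c : ℕ} (hc : 2 * B + 2 ≤ c)
    (hX : szS L + c = X.card) :
    (∀ q ∈ l₁ :: l₂ :: l₃ :: (gr ++ t₁ :: t₂ :: t₃ :: L'), BrO b l q) ∧ gr.length ≤ Nn ∧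
      NoDs K₀ (l₁ :: l₂ :: l₃ :: (gr ++ [t₁, t₂, t₃])) L' ∧ ζ * X.card ≤ (szS L' + c : ℕ) := by
  refine ⟨?_, by omega, ?_, ?_⟩
  · rw [← hLe]
    exact hcl.br
  · apply ClsF.noDs (l := l) (b := b) (K₂ := K₂) (N₁ := N₁) (B := B) (θ := θ) _ hne
    rw [hLe] at hcl
    simpa using hcl
  · rw [← hX, hd]
    exact hcl.share hθ hc (by omega) hζ0.le hζ

theorem CloseNC.step' (h : CloseNC b l K₀ κ η s Λ A Nn ζ K₁ f K' ξ C) {V : Type} {R : V → V → Prop} (hT : AE32.Tour R)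
    {X : Finset V} {N : V → Prop} {lam sig w : ℕ} (lam' : ℕ) {K₂ N₁ B : ℕ} {θ : ℝ} {L : List (Fd × Fd)}
    (hcl : ClsF b l K₀ K₂ N₁ B θ L) (hθ : θ ≤ 1 / 2)
    (hζ : ζ * (2 * (2 * K₀ + 4) ^ (Nn + 3) : ℕ) ≤ 1) (hζ0 : 0 < ζ)
    (hSt : StE R X ∅ N κ η s lam sig f w K' 0) {j : ℕ} (hj : 3 ≤ j) (hjN : j ≤ Nn) (hjL : j + 4 ≤ L.length)
    (hX : szS L + C + (2 * B + 2) ≤ X.card) (h1 : Λ * inS (L.take 3) + C ≤ lam)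
    (h2 : Λ * (inS (L.take 3) + inS ((L.drop j).take 3) + lam' + 1) + C ≤ sig) {Q : ℕ}
    (hQ : inS (L.take 3) + Q + inS (L.drop j) = inS L) (h3 : C ≤ Q)
    (h4 : ((w + sig + inS (L.take 3) + Q : ℕ) : ℝ) ≤ ξ * X.card) :
    ∃ (i : ℕ) (X' : Finset V) (z : V) (w' : ℕ), 1 ≤ i ∧ i ≤ 3 ∧
      w' ≤ max (w - Q) (inS (L.take 3)) + A * (inS ((L.drop j).take 3) + lam') + C ∧ X' ⊆ X ∧
      X'.card + szS L = X.card + szS (L.drop (j + i)) ∧ StE R X' ∅ (R z) κ η s lam' sig f w' K₁ 0 ∧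
      (InS R (L.drop (j + i)) (R z) X' → InS R L N X) := by
  obtain ⟨l₁, l₂, l₃, t₁, t₂, t₃, gr, L', e0, e1, e2, e3, e4, e5, e6, e7, e8⟩ := split_j hj hjL
  obtain rfl : inS gr = Q := by omega
  obtain ⟨c, hc⟩ : ∃ c, szS L + c = X.card := ⟨X.card - szS L, by omega⟩
  obtain ⟨p1, p2, p3, p4⟩ := heavy_pre' hcl hθ hjN hζ hζ0 e0 e1 e2 e8 (c := c) (by omega) hc
  rw [← e3] at h1 h2 h4 ⊢
  rw [← e4] at h2 ⊢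
  rw [e0] at hc
  obtain ⟨w', hw', hA⟩ := h hT X N lam sig w lam' c l₁ l₂ l₃ t₁ t₂ t₃ gr L' hSt p1 p2 e1 p3 (by rw [← e0] at hc; omega) hc p4 h1
    h2 h3 h4
  rw [← e0] at hA
  obtain ⟨i, X', z, i1, i2, a1, a2, a3, a4⟩ := hA.list e6 e7 e8
  exact ⟨i, X', z, w', i1, i2, hw', a1, a2, a3, a4⟩

theorem CloseDC.step' (h : CloseDC b l K₀ κ η s Λ A Nn ζ K₁ f K' ξ C) {V : Type} {R : V → V → Prop} (hT : AE32.Tour R)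
    {X : Finset V} {N : V → Prop} {lam sig w : ℕ} (lam' : ℕ) {K₂ N₁ B : ℕ} {θ : ℝ} {L : List (Fd × Fd)}
    (hcl : ClsF b l K₀ K₂ N₁ B θ L) (hθ : θ ≤ 1 / 2)
    (hζ : ζ * (2 * (2 * K₀ + 4) ^ (Nn + 3) : ℕ) ≤ 1) (hζ0 : 0 < ζ)
    (hSt : StE R X ∅ N κ η s lam sig f w K' 0) {j : ℕ} (hj : 3 ≤ j) (hjN : j ≤ Nn) (hjL : j + 4 ≤ L.length)
    (hX : szS L + C + (2 * B + 2) ≤ X.card) (h1 : Λ * inS (L.take 3) + C ≤ lam) (h2 : lam ≤ sig) {Q : ℕ}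
    (hQ : inS (L.take 3) + Q + inS (L.drop j) = inS L)
    (h3 : Λ * (w + sig + inS (L.take 3) + inS ((L.drop j).take 3) + lam') + C ≤ Q)
    (h4 : ((inS (L.take 3) + Q : ℕ) : ℝ) ≤ ξ * X.card) :
    ∃ (i : ℕ) (X' : Finset V) (z : V) (w' : ℕ), 1 ≤ i ∧ i ≤ 3 ∧
      w' ≤ inS (L.take 3) + A * (inS ((L.drop j).take 3) + lam') + C ∧ X' ⊆ X ∧
      X'.card + szS L = X.card + szS (L.drop (j + i)) ∧ StE R X' ∅ (R z) κ η s lam' 0 f w' K₁ 0 ∧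
      (InS R (L.drop (j + i)) (R z) X' → InS R L N X) := by
  obtain ⟨l₁, l₂, l₃, t₁, t₂, t₃, gr, L', e0, e1, e2, e3, e4, e5, e6, e7, e8⟩ := split_j hj hjL
  obtain rfl : inS gr = Q := by omega
  obtain ⟨c, hc⟩ : ∃ c, szS L + c = X.card := ⟨X.card - szS L, by omega⟩
  obtain ⟨p1, p2, p3, p4⟩ := heavy_pre' hcl hθ hjN hζ hζ0 e0 e1 e2 e8 (c := c) (by omega) hc
  rw [← e3] at h1 h3 h4 ⊢
  rw [← e4] at h3 ⊢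
  rw [e0] at hc
  obtain ⟨w', hw', hA⟩ := h hT X N lam sig w lam' c l₁ l₂ l₃ t₁ t₂ t₃ gr L' hSt p1 p2 e1 p3 (by rw [← e0] at hc; omega) hc p4 h1
    h2 h3 h4
  rw [← e0] at hA
  obtain ⟨i, X', z, i1, i2, a1, a2, a3, a4⟩ := hA.list e6 e7 e8
  exact ⟨i, X', z, w', i1, i2, hw', a1, a2, a3, a4⟩

theorem CloseEC.step' (h : CloseEC b l K₀ κ η s Λ A Nn ζ K₁ f K' ξ C) {V : Type} {R : V → V → Prop}
    (hT : AE32.Tour R) {X : Finset V} {N : V → Prop} {lam sig w : ℕ} (lam' : ℕ) {K₂ N₁ B : ℕ} {θ : ℝ}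
    {L : List (Fd × Fd)} (hcl : ClsF b l K₀ K₂ N₁ B θ L) (hθ : θ ≤ 1 / 2)
    (hζ : ζ * (2 * (2 * K₀ + 4) ^ (Nn + 3) : ℕ) ≤ 1) (hζ0 : 0 < ζ)
    (hSt : StE R X ∅ N κ η s lam sig f w K' 0) {j : ℕ} (hj : 3 ≤ j) (hjN : j ≤ Nn) (hjL : j + 4 ≤ L.length)
    (hX : szS L + C + (2 * B + 2) ≤ X.card) (h1 : Λ * inS (L.take 3) + C ≤ lam) (h2 : lam ≤ sig)
    (h5 : A * (inS ((L.drop j).take 3) + lam') + C ≤ inS (L.take 3)) {Q : ℕ}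
    (hQ : inS (L.take 3) + Q + inS (L.drop j) = inS L)
    (h3 : Λ * (w + sig + inS (L.take 3) + inS ((L.drop j).take 3) + lam') + C ≤ Q)
    (h4 : ((inS (L.take 3) + Q : ℕ) : ℝ) ≤ ξ * X.card) :
    ∃ (i : ℕ) (X' : Finset V) (z : V) (w' : ℕ), 1 ≤ i ∧ i ≤ 3 ∧
      w' ≤ A * (inS ((L.drop j).take 3) + lam') + C ∧ X' ⊆ X ∧
      X'.card + szS L = X.card + szS (L.drop (j + i)) ∧
      StE R X' ∅ (R z) κ η s lam' 0 f w' K₁ 0 ∧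
      (InS R (L.drop (j + i)) (R z) X' → InS R L N X) := by
  obtain ⟨l₁, l₂, l₃, t₁, t₂, t₃, gr, L', e0, e1, e2, e3, e4, e5, e6, e7, e8⟩ := split_j hj hjL
  obtain rfl : inS gr = Q := by omega
  obtain ⟨c, hc⟩ : ∃ c, szS L + c = X.card := ⟨X.card - szS L, by omega⟩
  obtain ⟨p1, p2, p3, p4⟩ := heavy_pre' hcl hθ hjN hζ hζ0 e0 e1 e2 e8 (c := c) (by omega) hc
  rw [← e3] at h1 h3 h4 h5
  rw [← e4] at h3 h5 ⊢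
  rw [e0] at hc
  obtain ⟨w', hw', hA⟩ := h hT X N lam sig w lam' c l₁ l₂ l₃ t₁ t₂ t₃ gr L' hSt p1 p2 e1 p3 (by rw [← e0] at hc; omega) hc p4
    h1 h2 h5 h3 h4
  rw [← e0] at hA
  obtain ⟨i, X', z, i1, i2, a1, a2, a3, a4⟩ := hA.list e6 e7 e8
  exact ⟨i, X', z, w', i1, i2, hw', a1, a2, a3, a4⟩

end

end AEG
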