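import Pool.Agent.AEG.BookF

/-!
# The fine class with critical groups: a flat place, or the in-mass decays fast
-/

set_option autoImplicit false

namespace AEG

open Finset AE15 AED AEB
open scoped Classical

/-- in front of `n` windows which are not flat the in-mass is large -/
theorem crit_pow {Kf B a n : ℕ} {L : List (Fd × Fd)}
    (h : ∀ i < n, ¬ Kf * inS ((L.drop (a + 8 * i)).take 8) ≤ inS (L.drop (a + 8 * i + 8)) + B) :
    (Kf + 1) ^ n * inS (L.drop (a + 8 * n)) ≤ Kf ^ n * inS (L.drop a) := by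
  induction n with
  | zero => simp
  | succ n ih =>
    have h1 := ih fun i hi => h i (by omega)
    have h2 := h n (by omega)
    rw [not_le] at h2
    have h3 := inS_take_add_drop (L.drop (a + 8 * n)) 8
    rw [List.drop_drop] at h3
    rw [show a + 8 * (n + 1) = a + 8 * n + 8 by ring]
    have h4 : (Kf + 1) * inS (L.drop (a + 8 * n + 8)) ≤ Kf * inS (L.drop (a + 8 * n)) := by
      rw [← h3, mul_add, add_mul, one_mul]
      omega
    calc (Kf + 1) ^ (n + 1) * inS (L.drop (a + 8 * n + 8)) =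
          (Kf + 1) ^ n * ((Kf + 1) * inS (L.drop (a + 8 * n + 8))) := by ring
      _ ≤ (Kf + 1) ^ n * (Kf * inS (L.drop (a + 8 * n))) := Nat.mul_le_mul_left _ h4
      _ = Kf * ((Kf + 1) ^ n * inS (L.drop (a + 8 * n))) := by ring
      _ ≤ Kf * (Kf ^ n * inS (L.drop a)) := Nat.mul_le_mul_left _ h1
      _ = Kf ^ (n + 1) * inS (L.drop a) := by ring

/-- powers beat polynomials -/
theorem exists_pow_crit {Kf : ℕ} (hK : 1 ≤ Kf) (D a₀ k₀ : ℕ) :
    ∃ n : ℕ, 1 ≤ n ∧ D * (a₀ * (8 * n + 16) ^ k₀ + 1) * Kf ^ n ≤ (Kf + 1) ^ n := by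
  have hKr : (0 : ℝ) < Kf := by exact_mod_cast hK
  have hr : (1 : ℝ) < (Kf + 1) / Kf := by
    rw [lt_div_iff₀ hKr]
    linarith
  have h1 := tendsto_pow_const_div_const_pow_of_one_lt k₀ hr
  have hc : (0 : ℝ) < 1 / (D * (a₀ * 24 ^ k₀ + 1) + 1) := by positivity
  obtain ⟨n, hn, hn1⟩ := ((h1.eventually (gt_mem_nhds hc)).and (Filter.eventually_ge_atTop 1)).exists
  refine ⟨n, hn1, ?_⟩
  have hrn : (0 : ℝ) < ((Kf + 1) / Kf) ^ n := by positivity
  rw [div_lt_div_iff₀ hrn (by positivity), one_mul] at hn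
  have hn0 : (1 : ℝ) ≤ n := by exact_mod_cast hn1
  have h2 : (1 : ℝ) ≤ (n : ℝ) ^ k₀ := one_le_pow₀ hn0
  have h3 : ((8 * n + 16 : ℝ)) ^ k₀ ≤ 24 ^ k₀ * (n : ℝ) ^ k₀ := by
    rw [← mul_pow]
    exact pow_le_pow_left₀ (by positivity) (by linarith) _
  have h4 : (D : ℝ) * (a₀ * (8 * n + 16) ^ k₀ + 1) ≤ ((Kf + 1) / Kf) ^ n := by
    calc (D : ℝ) * (a₀ * (8 * n + 16) ^ k₀ + 1) ≤ D * (a₀ * (24 ^ k₀ * (n : ℝ) ^ k₀) + (n : ℝ) ^ k₀) := by gcongr
      _ = (n : ℝ) ^ k₀ * (D * (a₀ * 24 ^ k₀ + 1)) := by ring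
      _ ≤ (n : ℝ) ^ k₀ * (D * (a₀ * 24 ^ k₀ + 1) + 1) := by gcongr; linarith
      _ ≤ ((Kf + 1) / Kf) ^ n := hn.le
  rw [div_pow, le_div_iff₀ (by positivity)] at h4
  exact_mod_cast h4

/-- a flat place, or a large mass -/
theorem flat_or_crit {Kf B a n D p : ℕ} (hK : 1 ≤ Kf) (hn : D * (p + 1) * Kf ^ n ≤ (Kf + 1) ^ n) (L : List (Fd × Fd)) :
    (∃ i < n, Kf * inS ((L.drop (a + 8 * i)).take 8) ≤ inS (L.drop (a + 8 * i + 8)) + B) ∨
      D * (p + 1) * inS (L.drop (a + 8 * n)) ≤ inS (L.drop a) := by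
  by_cases h : ∃ i < n, Kf * inS ((L.drop (a + 8 * i)).take 8) ≤ inS (L.drop (a + 8 * i + 8)) + B
  · exact Or.inl h
  · right
    push Not at h
    have h1 := crit_pow (Kf := Kf) (B := B) (a := a) (n := n) (L := L) fun i hi => not_le.2 (h i hi)
    have h2 := Nat.mul_le_mul_right (inS (L.drop (a + 8 * n))) hn
    have h3 : Kf ^ n * (D * (p + 1) * inS (L.drop (a + 8 * n))) ≤ Kf ^ n * inS (L.drop a) := by
      calc Kf ^ n * (D * (p + 1) * inS (L.drop (a + 8 * n))) = D * (p + 1) * Kf ^ n * inS (L.drop (a + 8 * n)) := by ring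
        _ ≤ _ := h2.trans h1
    exact Nat.le_of_mul_le_mul_left h3 (by positivity)

end AEG
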