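import Pool.Agent.AEG.CloseC
import Pool.Agent.AEG.IndC

/-!
# The fine class with critical groups: chains of critical groups
-/

set_option autoImplicit false

namespace AEG

open Finset AE15 AED AEB SPD
open scoped Classical

/-- splitting the line behind a critical group -/
theorem split_four {L : List (Fd × Fd)} {j : ℕ} (hj : 5 ≤ j) (hL : j < L.length) :
    ∃ (k₁ k₂ k₃ k₄ : Fd × Fd) (gr L' : List (Fd × Fd)), L = k₁ :: k₂ :: k₃ :: k₄ :: (gr ++ L') ∧ L' = L.drop j ∧
      L' ≠ [] ∧ gr ≠ [] ∧ gr.length + 4 = j ∧ inS gr + inS L' = inS (L.drop 4) ∧ gr = (L.drop 4).take (j - 4) := by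
  obtain ⟨k₁, k₂, k₃, k₄, L₁, rfl⟩ : ∃ k₁ k₂ k₃ k₄ L₁, L = k₁ :: k₂ :: k₃ :: k₄ :: L₁ := by
    match L, hL with
    | k₁ :: k₂ :: k₃ :: k₄ :: L, _ => exact ⟨k₁, k₂, k₃, k₄, L, rfl⟩
    | [], h => exact absurd h (by simp)
    | [_], h => exact absurd h (by simp; omega)
    | [_, _], h => exact absurd h (by simp; omega)
    | [_, _, _], h => exact absurd h (by simp; omega)
  obtain ⟨d, rfl⟩ := Nat.exists_eq_add_of_le hj
  simp only [List.length_cons] at hL
  have e4 : List.drop 4 (k₁ :: k₂ :: k₃ :: k₄ :: L₁) = L₁ := by simp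
  have e5 : List.drop (5 + d) (k₁ :: k₂ :: k₃ :: k₄ :: L₁) = L₁.drop (d + 1) := by
    rw [show 5 + d = (d + 1) + 1 + 1 + 1 + 1 by omega]
    simp
  have hlen : (L₁.drop (d + 1)).length = L₁.length - (d + 1) := List.length_drop ..
  refine ⟨k₁, k₂, k₃, k₄, L₁.take (d + 1), L₁.drop (d + 1), by rw [List.take_append_drop], e5.symm, ?_, ?_, ?_, ?_, ?_⟩
  · intro h
    rw [h] at hlen
    simp at hlen
    omega
  · intro h
    have h1 : (L₁.take (d + 1)).length = 0 := by rw [h]; rfl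
    rw [List.length_take] at h1
    omega
  · rw [List.length_take]
    omega
  · rw [e4]
    exact inS_take_add_drop _ _
  · rw [e4, show 5 + d - 4 = d + 1 by omega]

/-- a group of large in-mass has a small share of the line -/
theorem group_sm {b l K₀ M₉ C Λ A Nn K₂ K₃ Kh k1 k2 B C₅ Bq B₂ W : ℕ} {δ e ξ θ : ℝ}
    (num : NumF δ e ξ θ M₉ C Λ A Nn K₂ K₃ Kh k1 k2 B C₅ Bq B₂ W) {L : List (Fd × Fd)} (hcl : ClsF b l K₀ 0 8 B θ L)
    {a n : ℕ} (hn : n ≤ Nn) {M : ℕ} (hM : B₂ ≤ M) (hMQ : M ≤ 4 * inS ((L.drop a).take n)) {z : ℕ} (hz : szS L ≤ z) :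
    4 * (M : ℝ) ≤ ξ * z := by
  obtain ⟨t, -, ht⟩ := exists_big_in ((L.drop a).take n)
  have h4 : inS ((((L.drop a).take n).drop t).take 1) ≤ inS ((L.drop (a + t)).take 1) := by
    rw [List.drop_take, List.take_take, List.drop_drop]
    exact inS_take_mono _ (min_le_left _ _)
  have h5 : ((L.drop a).take n).length ≤ Nn := by
    rw [List.length_take]
    omega
  have h6 : inS ((L.drop a).take n) ≤ Nn * inS ((L.drop (a + t)).take 1) := ht.trans (Nat.mul_le_mul h5 h4)
  have h7 : M ≤ 4 * Nn * inS ((L.drop (a + t)).take 1) := by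
    rw [mul_assoc]
    omega
  have h1 := hcl.single num.θ0 (a + t)
  have h8 : θ * (szS L : ℝ) ≤ θ * z := by
    apply mul_le_mul_of_nonneg_left _ num.θ0
    exact_mod_cast hz
  exact num.sm M _ z hM (Or.inr h7) (h1.trans (by linarith))

section
variable {CS : CSt} {b l K₀ Nn f Kw Kx K : ℕ} {κ η s κw sw ξ ξ' ξc δx ζ θ δ e : ℝ}
  {Λ A A' p Λ₂ Λ₃ c₂ c₄ c₅ c₆ c₇ Cc C₀ C₂ Cx K₂ g C₅ B₂ Cb B M₉ K₃ Kh k1 k2 Bq W nn n₁ Cd : ℕ}

/-- **Chains of critical groups** -/
theorem crit_ind (nc : NumC ξ ξ' ξc δx ζ Λ A p Λ₂ Λ₃ c₂ c₄ c₅ c₆ c₇ Cc C₀ C₂ Cx K₂ g C₅ B₂ Cb)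
    (num : NumF δ e ξ θ M₉ C₅ Λ A' Nn K₂ K₃ Kh k1 k2 B C₅ Bq B₂ W) (hA' : A * (1 + Λ) ≤ A')
    (hC₅ : A * c₅ + c₆ + Cx ≤ C₅) (hW : A' * (17 * B₂ + C₅) + C₅ ≤ W) (hKx : Kx ≤ K)
    (hB : CritB CS b l K₀ Λ p A Nn ζ ξc Cc C₀ C₂) (hF : FinB CS b l κw η sw f Kw Nn ξc Cc C₀ C₂)
    (hX : ExitRC b l K₀ κ η s κw η sw Λ A Kx f Kw δx Cx) (hg : g = 2 * (2 * K₀ + 4) ^ (Nn + 8))
    (hnn : 8 * nn + 16 ≤ Nn) (hn₁ : Nn + 20 ≤ n₁)
    (hpow : (2 * Λ₃ + 2) * (p + 1) * (4 * K₂) ^ nn ≤ (4 * K₂ + 1) ^ nn) (hpB : 8 * ((p + 1) * c₄) ≤ B₂)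
    (hsw : 4 * (((2 * K₀ + 4) ^ n₁ * (2 * B + 2) : ℕ) : ℝ) ≤ sw * Cb) (hsw0 : 0 < sw) (hCbB : 2 * B + 2 ≤ Cb)
    (hCd : Cd ≤ Cb) {V : Type} {R : V → V → Prop} (hT : AE32.Tour R) {sigE : ℕ}
    (hEnd : ∀ {L : List (Fd × Fd)}, L ≠ [] → ClsF b l K₀ 0 8 B θ L → ∀ {X : Finset V} {N : V → Prop} {lam w : ℕ},
      StE R X ∅ N κ η s lam sigE f w K 0 → w ≤ W → inS L ≤ 2 * B₂ → 16 * inS (L.take 3) + C₅ ≤ lam →
      szS L + Cd ≤ X.card → InS R L N X) {n : ℕ}
    (hih : ∀ n' < n, DoneL b l K₀ κ η s e θ f K k1 k2 K₂ K₃ B C₅ Λ B₂ Cd R n') :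
    ∀ m : ℕ, m < n → n₁ < m → ∀ {L : List (Fd × Fd)}, L.length = m → ClsF b l K₀ 0 8 B θ L →
      ∀ {P X : Finset V} {ys : List V} {y : V} {gr : List (Fd × Fd)} {w c : ℕ},
      CPos CS b l ξ' Λ₂ c₂ p Λ₃ c₄ Cc C₀ C₂ Nn Cb R L P X ys y gr w c → PGoal R ys gr y L (P ∪ X) := by
  have hθ := num.θ2
  have he0 := num.e0.le
  have hgg : ∀ {L : List (Fd × Fd)} {c j : ℕ}, ClsF b l K₀ 0 8 B θ L → Cb ≤ c → j ≤ Nn + 8 →
      szS L + c ≤ g * (szS (L.drop j) + c) := by
    intro L c j h1 h2 h3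
    rw [hg]
    exact h1.share' hθ (hCbB.trans h2) h3
  intro m
  induction m using Nat.strong_induction_on with
  | _ m ih =>
    intro hmn hm L hlen hcl P X ys y gr w c h
    have hcb := h.cb
    have hmP : inS L ≤ P.card := by
      have h1 := (crit_num nc h (hgg hcl hcb (j := 0) (by omega))).1
      have := h.lo
      omega
    -- short rest
    have hshort : ∀ j : ℕ, 5 ≤ j → j ≤ Nn + 4 → (L.drop j).length ≤ n₁ → PGoal R ys gr y L (P ∪ X) := by
      intro j hj1 hj2 hj3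
      obtain ⟨k₁, k₂, k₃, k₄, gr', L', e0, e1, e2, e3, e4, e5, -⟩ := split_four hj1 (L := L) (by omega)
      have hgj := hgg hcl hcb (j := j) (by omega)
      rw [← e1] at hgj hj3
      obtain ⟨X', E, y', w', lamE, hSt, -, -, hX', hback⟩ := crit_close nc hB hF hT h hcl e0 e2 e3 (by omega) hgj 0
        (Nat.zero_le _)
      apply hback
      apply hSt.finish hT e2
      have hcl' : ClsF b l K₀ 0 8 B θ L' := by
        rw [e1]
        exact hcl.drop _
      have h1 := hcl'.small hθ hj3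
      have h2 : (szS L' : ℝ) ≤ (((2 * K₀ + 4) ^ n₁ * (2 * B + 2) : ℕ) : ℝ) := by exact_mod_cast h1
      have h3 : (Cb : ℝ) ≤ X'.card := by
        have : Cb ≤ X'.card := by omega
        exact_mod_cast this
      have h4 := mul_le_mul_of_nonneg_left h3 hsw0.le
      linarith
    -- closing
    have hclose : ∀ (j lam' : ℕ), 5 ≤ j → j ≤ Nn + 4 → n₁ < (L.drop j).length → lam' ≤ 2 * Λ * P.card + C₅ + 17 * B₂ →
        (∀ (i : ℕ) (X₂ : Finset V) (z : V) (w₂ : ℕ), 1 ≤ i → i ≤ 3 → X₂.card = szS ((L.drop j).drop i) + c →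
          StE R X₂ ∅ (R z) κ η s lam' 0 f w₂ K 0 → w₂ ≤ A' * (inS ((L.drop j).take 3) + lam') + C₅ →
          InS R ((L.drop j).drop i) (R z) X₂) → PGoal R ys gr y L (P ∪ X) := by
      intro j lam' hj1 hj2 hj3 hlam' hcont
      obtain ⟨k₁, k₂, k₃, k₄, gr', L', e0, e1, e2, e3, e4, e5, -⟩ := split_four hj1 (L := L) (by omega)
      have hgj := hgg hcl hcb (j := j) (by omega)
      rw [← e1] at hgj hj3 hcont
      have hcl' : ClsF b l K₀ 0 8 B θ L' := by
        rw [e1]
        exact hcl.drop _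
      obtain ⟨X', E, y', w', lamE, hSt, hwE, hw', hX', hback⟩ := crit_close nc hB hF hT h hcl e0 e2 e3 (by omega) hgj
        (inS (L'.take 3)) (inS_take_le _ _)
      obtain ⟨-, -, -, -, n5⟩ := crit_num nc h hgj
      have hmL' : inS L' ≤ inS L := by
        rw [e1]
        exact inS_drop_le _ _
      obtain ⟨i, X₂, z, w₂, i1, i2, hX₂, hSt₂, hw₂, hback₂⟩ := crit_exit nc hX hT hcl' (by omega) hSt hwE hw' hX' hcb
        (hmL'.trans hmP) n5 lam' hlam'
      apply hback
      apply hback₂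
      refine hcont i X₂ z w₂ i1 i2 hX₂ (hSt₂.mono le_rfl le_rfl le_rfl hKx) ?_
      have h1 : A * (1 + Λ) * (inS (L'.take 3) + lam') ≤ A' * (inS (L'.take 3) + lam') := Nat.mul_le_mul_right _ hA'
      have h2 : A * (1 + Λ) * (inS (L'.take 3) + lam') = A * (Λ * inS (L'.take 3)) + A * (inS (L'.take 3) + lam') +
        A * Λ * lam' := by ring
      have h3 : A * (Λ * inS (L'.take 3) + c₅) = A * (Λ * inS (L'.take 3)) + A * c₅ := by ring
      omega
    by_cases hsmall : inS (L.drop 4) < B₂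
    · -- the mass behind is bounded
      by_cases hl5 : (L.drop 5).length ≤ n₁
      · exact hshort 5 le_rfl (by omega) hl5
      rw [not_le] at hl5
      refine hclose 5 (16 * B₂ + C₅) le_rfl (by omega) hl5 (by omega) ?_
      intro i X₂ z w₂ i1 i2 hX₂ hSt₂ hw₂
      have h5 : inS (L.drop 5) ≤ inS (L.drop 4) := inS_drop_anti L (by omega)
      have h6 : inS ((L.drop 5).take 3) ≤ inS (L.drop 5) := inS_take_le _ _
      have h7 : inS ((L.drop 5).drop i) ≤ inS (L.drop 5) := inS_drop_le _ _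
      have h8 : inS (((L.drop 5).drop i).take 3) ≤ inS ((L.drop 5).drop i) := inS_take_le _ _
      have h9 : A' * (inS ((L.drop 5).take 3) + (16 * B₂ + C₅)) ≤ A' * (17 * B₂ + C₅) := Nat.mul_le_mul_left _ (by omega)
      have hne : (L.drop 5).drop i ≠ [] := by
        intro h10
        have h11 : ((L.drop 5).drop i).length = (L.drop 5).length - i := List.length_drop ..
        rw [h10] at h11
        simp at h11
        omega
      exact hEnd hne ((hcl.drop 5).drop i) (hSt₂.mono le_rfl (Nat.zero_le _) le_rfl le_rfl) (by omega) (by omega)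
        (by omega) (by omega)
    rw [not_lt] at hsmall
    rcases flat_or_crit (Kf := 4 * K₂) (B := B) (a := 5) (D := 2 * Λ₃ + 2) (p := p)
      (by have := num.K₂b; omega) hpow L with ⟨i₁, hi₁, hrun⟩ | hcr
    · -- a flat place
      obtain ⟨j, hj⟩ : ∃ j, j = 5 + 8 * i₁ := ⟨_, rfl⟩
      rw [← hj] at hrun
      by_cases hlj : (L.drop j).length ≤ n₁
      · exact hshort j (by omega) (by omega) hlj
      rw [not_le] at hlj
      obtain ⟨R', hR'⟩ : ∃ R', R' = inS (L.drop j) := ⟨_, rfl⟩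
      obtain ⟨q0, hq0⟩ : ∃ q0, q0 = inS ((L.drop j).take 8) := ⟨_, rfl⟩
      obtain ⟨xR, hxR⟩ : ∃ xR, xR = R' / (4 * K₂) := ⟨_, rfl⟩
      obtain ⟨q', hq'⟩ : ∃ q', q' = q0 + xR := ⟨_, rfl⟩
      obtain ⟨qt, hqt⟩ : ∃ qt, qt = inS ((L.drop j).take 3) := ⟨_, rfl⟩
      have hqt0 : qt ≤ q0 := by
        rw [hqt, hq0]
        exact inS_take_mono _ (by omega)
      have hq0R : q0 ≤ R' := by
        rw [hq0, hR']
        exact inS_take_le _ _
      have hxRR : xR ≤ R' := by
        rw [hxR]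
        exact Nat.div_le_self _ _
      have hR'P : R' ≤ P.card := by
        rw [hR']
        exact (inS_drop_le _ _).trans hmP
      have hq0K : 4 * K₂ * q0 ≤ inS (L.drop (j + 8)) + B := by rw [hq0]; exact hrun
      have hq'R : K₂ * q' ≤ R' + B := by
        rw [hq', hxR]
        exact sum_small (hq0K.trans (Nat.add_le_add_right (by rw [hR']; exact inS_drop_anti L (by omega)) _)) le_rfl
      obtain ⟨lam', hlam'⟩ : ∃ lam', lam' = Λ * q' + C₅ := ⟨_, rfl⟩
      refine hclose j lam' (by omega) (by omega) hlj ?_ ?_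
      · have h1 : Λ * q' ≤ Λ * (2 * P.card) := Nat.mul_le_mul_left _ (by omega)
        have h2 : Λ * (2 * P.card) = 2 * Λ * P.card := by ring
        omega
      intro i X₂ z w₂ i1 i2 hX₂ hSt₂ hw₂
      rw [List.drop_drop] at hX₂ ⊢
      rw [← hqt] at hw₂
      have h3 : (L.drop (j + i)).length = (L.drop j).length - i := by rw [List.length_drop, List.length_drop]; omega
      have h3' : (L.drop j).length = L.length - j := List.length_drop ..
      have hne : L.drop (j + i) ≠ [] := by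
        intro h10
        rw [h10] at h3
        simp at h3
        omega
      have d3 : inS (L.drop (j + i)) ≤ R' := by
        rw [hR']
        exact inS_drop_anti L (by omega)
      have h6 : R' ≤ inS (L.drop (j + i)) + q0 := by
        have h4 := inS_take_add_drop (L.drop j) i
        rw [List.drop_drop] at h4
        have h5 : inS ((L.drop j).take i) ≤ inS ((L.drop j).take 8) := inS_take_mono _ (by omega)
        omega
      have h7 : inS (L.drop (j + 8)) ≤ inS (L.drop (j + i)) := inS_drop_anti L (by omega)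
      have d5 : K₂ * q' ≤ inS (L.drop (j + i)) + B := by
        rw [hq', hxR]
        exact sum_small' num.K₂b (hq0K.trans (Nat.add_le_add_right h7 _)) h6
      have d6 : inS ((L.drop (j + i)).take (8 - i)) ≤ q0 := by
        rw [hq0]
        exact take_drop_le L (by omega)
      have hcap' : Λ * (inS ((L.drop (j + i)).take (8 - i)) + inS (L.drop (j + i)) / (4 * K₂)) + C₅ ≤ lam' := by
        rw [hlam', hq', hxR]
        apply Nat.add_le_add_right
        apply Nat.mul_le_mul_left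
        exact Nat.add_le_add d6 (Nat.div_le_div_right d3)
      have hq16 : (16 * (0 : ℕ) : ℝ) ≤ e * R' + Bq := by
        have h8 := mul_nonneg he0 (Nat.cast_nonneg (α := ℝ) R')
        have h9 := Nat.cast_nonneg (α := ℝ) Bq
        push_cast
        linarith
      by_cases hB2 : 2 * B₂ ≤ R'
      · have hBB := num.B₂a
        have hK8 : 8 * q0 ≤ 4 * K₂ * q0 := Nat.mul_le_mul_right _ (by have := num.K₂b; omega)
        have hBm : B₂ ≤ inS (L.drop (j + i)) := by omega
        have hR2 : R' ≤ 2 * inS (L.drop (j + i)) := by omega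
        have c6 := num.afterD _ R' 0 q' qt hBm hR2 d5 (by omega) hq16
        refine hih _ (by omega) rfl hne (hcl.drop _) (M := inS (L.drop (j + i))) (k := 0) (r := 8 - i)
          ⟨hSt₂.mono le_rfl (Nat.zero_le _) le_rfl le_rfl, by omega, le_rfl, by omega, hBm, ?_,
          PosF.heavy hrun i2, Or.inl ⟨rfl, by omega, hcap'⟩⟩
        apply JF.start he0 (Nat.cast_nonneg _)
        refine le_trans ?_ c6
        rw [← hlam']
        have h8 : w₂ ≤ 0 + A' * (qt + lam') + C₅ := by omega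
        exact_mod_cast h8
      · rw [not_le] at hB2
        have c7 := num.endW R' 0 q' qt hB2.le hq'R (by omega) hq16
        rw [← hlam'] at c7
        refine hEnd hne (hcl.drop _) (hSt₂.mono le_rfl (Nat.zero_le _) le_rfl le_rfl) (by omega) (by omega) ?_
          (by omega)
        have h1 : inS ((L.drop (j + i)).take 3) ≤ inS ((L.drop (j + i)).take (8 - i)) := inS_take_mono _ (by omega)
        have h2 : 16 * inS ((L.drop (j + i)).take (8 - i)) ≤ Λ * inS ((L.drop (j + i)).take (8 - i)) :=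
          Nat.mul_le_mul_right _ num.Λa
        have h3 := hcap'
        rw [mul_add] at h3
        omega
    · -- the next group is critical
      obtain ⟨j, hj⟩ : ∃ j, j = 5 + 8 * nn := ⟨_, rfl⟩
      rw [← hj] at hcr
      by_cases hlj : (L.drop j).length ≤ n₁
      · exact hshort j (by omega) (by omega) hlj
      rw [not_le] at hlj
      obtain ⟨k₁, k₂, k₃, k₄, gr', L', e0, e1, e2, e3, e4, e5, e6⟩ := split_four (j := j) (by omega) (L := L) (by
        rw [List.length_drop] at hlj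
        omega)
      have hgj := hgg hcl hcb (j := j) (by omega)
      rw [← e1] at hgj hlj hcr
      have h5 : inS (L.drop 5) ≤ inS (L.drop 4) := inS_drop_anti L (by omega)
      have hcrit : (p + 1) * (Λ₃ * inS L' + c₄) ≤ inS gr' := by
        have h1 : (2 * Λ₃ + 2) * (p + 1) * inS L' = 2 * ((p + 1) * (Λ₃ * inS L')) + 2 * ((p + 1) * inS L') := by ring
        have h2 : (p + 1) * (Λ₃ * inS L' + c₄) = (p + 1) * (Λ₃ * inS L') + (p + 1) * c₄ := by ring
        have h3 : 1 * inS L' ≤ (p + 1) * inS L' := Nat.mul_le_mul_right _ (by omega)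
        omega
      obtain ⟨P', X', ys', y', w', hC', hback⟩ := crit_step nc hB hT h hcl e0 e2 e3 (by omega) hgj hcrit (by
        by_cases hgB : inS gr' ≤ B₂
        · exact Or.inl hgB
        · rw [not_le] at hgB
          right
          have h1 := group_sm num hcl (a := 4) (n := j - 4) (by omega) hgB.le (by rw [← e6]; omega)
            (z := szS L + c) (by omega)
          push_cast at h1 ⊢
          linarith)
      apply hback
      have hl' : L'.length < m := by
        rw [e1, List.length_drop]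
        omega
      exact ih L'.length hl' (by omega) hlj rfl (by rw [e1]; exact hcl.drop _) hC'

end

end AEG
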