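import Pool.Agent.AEG.ExitA

/-!
# The exit

`exit_core`: the out- and in-branches of at most three vertices are embedded, and the rest carries the state at `z`.

`exitR`: the exit.
-/

set_option autoImplicit false

namespace AEG

open Finset AE15 AED AEB SPD
open scoped Classical

theorem exit_core (p : NP) (hp : p.OK) (hab : ab p.b p.l ≤ p.a) {D₀ : ℕ} (hD₀ : p.A ≤ D₀)
    {ω c η η₁ κ₀ κ₁ κ γ₀ τ s σ₂ μ : ℝ} (P : KB D₀ ω c η η₁ κ₀ κ₁ κ γ₀ τ s σ₂ μ) {κU : ℝ} (hU0 : 0 < κU) (hUκ : 2 * κU ≤ κ)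
    (Kz : ℕ) :
    ∃ (M₁ C₁ : ℕ) (δ : ℝ) (C : ℕ), 1 ≤ M₁ ∧ 0 < δ ∧ ∀ {V : Type} {R : V → V → Prop}, AE32.Tour R →
      ∀ {X Ex G Tz : Finset V} {z : V} {N : V → Prop} (lam' sig f w₁ qt : ℕ) (os₀ : List (V × (Fd × Fd))) (q : Fd × Fd)
        (L' : List (Fd × Fd)),
      C ≤ X.card → (os₀ ++ [(z, q)]).length ≤ 3 → ((os₀ ++ [(z, q)]).map Prod.fst).Nodup →
      ((os₀ ++ [(z, q)]).map Prod.fst).IsChain R → (∀ v, ((os₀ ++ [(z, q)]).map Prod.fst).head? = some v → N v) →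
      (∀ t ∈ os₀ ++ [(z, q)], t.1 ∈ X ∧ Good R κU η X t.1 ∧ BrO p.b p.l t.2 ∧ 4 * qt + C ≤ (nI R X t.1).card) →
      totB ((os₀ ++ [(z, q)]).map (fun t => (t.1, t.2.1))) ≤ qt →
      (totB ((os₀ ++ [(z, q)]).map (fun t => (t.1, t.2.2))) : ℝ) + C ≤ (1 - ω) * X.card →
      G ⊆ X → (∀ g ∈ G, Good R κ₁ η₁ X g) → γ₀ / 4 * X.card ≤ ((nO R (G \ Ex) z).card : ℝ) →
      (∀ j : ℕ, (X.filter (fun u => u ∉ Ex ∧ R u z ∧ (nI R (nO R (G \ Ex) z) u).card ≤ j)).card ≤ Kz * j) →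
      Tz = X.filter (fun v => (nI R X v).card < M₁ * lam' + C₁ + qt + 3) →
      (∀ v ∈ Tz, v ∉ Ex → lam' + qt + 3 ≤ (nI R Tz v).card) →
      (Ex.filter (fun u => sig ≤ (nI R X u).card)).card ≤ w₁ →
      ((qt + lam' : ℕ) : ℝ) ≤ δ * X.card →
      ∃ X' ⊆ X, X'.card + szS ((os₀ ++ [(z, q)]).map Prod.snd ++ L') = X.card + szS L' ∧
        StE R X' ∅ (R z) κ η s lam' sig f (w₁ + C₁) M₁ 0 ∧
        (InS R L' (R z) X' → InS R ((os₀ ++ [(z, q)]).map Prod.snd ++ L') N X) := by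
  have hnum := P.num
  obtain ⟨hω0, hω1, hc0, hc1, hη0, hη1, hη₁0, hη₁1, hκ₀0, hκ₁0, hκ₁1, hκ0, hκ1, hs0, hγ₀0, hτ0, hσ₂0, hμ0, hκ₁η, hκs⟩ :=
    hnum
  obtain ⟨w₀, M₁, C₁, δ', C', hM₁, hδ'0, hP2⟩ := p2_st p hp hab hD₀ P (κU := κU) (κa := κ₁) (ηa := η₁) (γ := γ₀ / 8)
    (κ' := κ) (η' := η) (s' := s) hU0 hUκ hκ₁0 (by positivity) hκ0 P.hκ.le hη0 hη₁1 hs0 (by
      rw [P.hs, P.hγ₀]; linarith) 3 (4 * Kz)
  obtain ⟨CE, hCE, hEE⟩ := ee_all p hp hab hD₀ P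
  obtain ⟨Ci, hitems⟩ := items_crude P p CE
  obtain ⟨cZ, hcZ⟩ := Pool.Agent.H12AE.exists_class 2 (3 * Kz : ℝ) 3 le_rfl
  -- the constant `δ`
  obtain ⟨δ, hδ0, hδ1, hδ2⟩ : ∃ δ : ℝ, 0 < δ ∧ (4 * M₁ + 8 : ℝ) * δ ≤ δ' ∧ δ ≤ γ₀ / 16 := by
    have h3 : (0 : ℝ) < 4 * (M₁ : ℝ) + 8 := by positivity
    refine ⟨min (δ' / (4 * M₁ + 8)) (γ₀ / 16), lt_min (by positivity) (by positivity), ?_, min_le_right _ _⟩
    have h4 := mul_le_mul_of_nonneg_left (min_le_left (δ' / (4 * M₁ + 8 : ℝ)) (γ₀ / 16)) h3.le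
    rwa [mul_div_cancel₀ _ h3.ne'] at h4
  obtain ⟨n₂, hn₂⟩ := exists_big [((4 * C₁ + 24 : ℝ), δ'), ((3 : ℝ), γ₀ / 16)] (by
    intro q hq
    simp only [List.mem_cons, List.not_mem_nil, or_false] at hq
    rcases hq with rfl | rfl
    · exact hδ'0
    · show 0 < γ₀ / 16
      positivity)
  refine ⟨M₁, C₁, δ, C' + n₂ + (4 * Ci + cZ + 3), hM₁, hδ0, ?_⟩
  intro V R hT X Ex G Tz z N lam' sig f w₁ qt os₀ q L' hCX hlen hnd hch hhead hos hin hout hG hGg hzN hcnt hTz hInc hEx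
    hsm
  have g := hn₂ X.card (by omega)
  have g1 : (4 * C₁ + 24 : ℝ) ≤ δ' * X.card := g ((4 * C₁ + 24 : ℝ), δ') (by simp)
  have g2 : (3 : ℝ) ≤ γ₀ / 16 * X.card := g ((3 : ℝ), γ₀ / 16) (by simp)
  obtain ⟨os, hosd⟩ : ∃ os, os = os₀ ++ [(z, q)] := ⟨_, rfl⟩
  have hzos : (z, q) ∈ os := by rw [hosd]; simp
  -- the hosts
  obtain ⟨Hs, hHs⟩ : ∃ Hs, Hs = (os.map Prod.fst).toFinset := ⟨_, rfl⟩
  have hHsm : ∀ v, v ∈ Hs ↔ ∃ t ∈ os, t.1 = v := by
    intro v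
    rw [hHs, List.mem_toFinset, List.mem_map]
  have hHsc : Hs.card ≤ 3 := by
    rw [hHs]
    refine (List.toFinset_card_le _).trans ?_
    rw [List.length_map, hosd]
    exact hlen
  rw [← hosd] at hos
  have hHsX : Hs ⊆ X := by
    intro v hv
    obtain ⟨t, ht, rfl⟩ := (hHsm v).1 hv
    exact (hos t ht).1
  have hzHs : z ∈ Hs := (hHsm z).2 ⟨(z, q), hzos, rfl⟩
  -- the dominators
  obtain ⟨Dn, hDn⟩ : ∃ Dn, Dn = nO R (G \ Ex) z \ Hs := ⟨_, rfl⟩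
  have hDnm : ∀ v ∈ Dn, v ∈ G ∧ v ∉ Ex ∧ R z v ∧ v ∉ Hs := by
    intro v hv
    rw [hDn, mem_sdiff, mem_nO, mem_sdiff] at hv
    exact ⟨hv.1.1.1, hv.1.1.2, hv.1.2, hv.2⟩
  have hDu : ∀ u, (nI R (nO R (G \ Ex) z) u).card ≤ (nI R Dn u).card + 3 := by
    intro u
    have h1 : nI R (nO R (G \ Ex) z) u ⊆ nI R Dn u ∪ Hs := by
      intro v hv
      rw [mem_nI] at hv
      rw [mem_union, mem_nI, hDn, mem_sdiff]
      by_cases h2 : v ∈ Hs
      · exact Or.inr h2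
      · exact Or.inl ⟨⟨hv.1, h2⟩, hv.2⟩
    have h2 := (card_le_card h1).trans (card_union_le _ _)
    omega
  -- the class
  obtain ⟨Z, hZA, -, -, hZD, hZE, -⟩ := hcZ (X \ Hs) (X.filter (fun u => u ∉ Ex ∧ R u z)) (fun u => nI R Dn u) (by
      intro u _ v hv
      rw [mem_nI] at hv
      obtain ⟨h1, h2, h3, h4⟩ := hDnm v hv.1
      exact mem_sdiff.2 ⟨hG h1, h4⟩) (by
      intro k
      have h1 : (X.filter (fun u => u ∉ Ex ∧ R u z)).filter (fun u => (nI R Dn u).card = k) ⊆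
          X.filter (fun u => u ∉ Ex ∧ R u z ∧ (nI R (nO R (G \ Ex) z) u).card ≤ k + 3) := by
        intro u hu
        rw [mem_filter, mem_filter] at hu
        rw [mem_filter]
        have := hDu u
        exact ⟨hu.1.1, hu.1.2.1, hu.1.2.2, by omega⟩
      have h2 := (card_le_card h1).trans (hcnt (k + 3))
      have h3 : (((X.filter (fun u => u ∉ Ex ∧ R u z)).filter (fun u => (nI R Dn u).card = k)).card : ℝ) ≤
          (Kz : ℝ) * (k + 3) := by exact_mod_cast h2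
      have h4 : (0 : ℝ) ≤ Kz := Nat.cast_nonneg _
      have h5 : (0 : ℝ) ≤ (k : ℝ) := Nat.cast_nonneg _
      have h6 : (Kz : ℝ) * (k + 3) ≤ Kz * (3 * (k + 1)) := mul_le_mul_of_nonneg_left (by linarith) h4
      linarith) Hs (fun h => nI R (X \ Hs) h) (fun h _ => nI_sub) hHsc
  -- the in-branches
  obtain ⟨SA, hSAZ, hSA⟩ := hitems (R := rv R) (rv_tour hT) (hEE (rv_tour hT)) Z (os.map (fun t => (t.1, t.2.1))) (by
      intro t ht
      rw [List.mem_map] at ht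
      obtain ⟨t, ht, rfl⟩ := ht
      exact ⟨(hos t ht).2.2.1.1, (hos t ht).2.2.1.2.2.1⟩) (by
      intro t ht
      rw [List.mem_map] at ht
      obtain ⟨t, ht, rfl⟩ := ht
      have h1 := (hos t ht).2.2.2
      have h2 := hZE t.1 ((hHsm _).2 ⟨t, ht, rfl⟩)
      rw [← hosd] at hin
      have h3 : (nI R X t.1).card ≤ (nI R (X \ Hs) t.1).card + Hs.card := by
        refine le_trans (card_le_card ?_) (card_union_le _ _)
        intro v hv
        rw [mem_nI] at hv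
        rw [mem_union, mem_nI, mem_sdiff]
        by_cases h4 : v ∈ Hs
        · exact Or.inr h4
        · exact Or.inl ⟨⟨hv.1, h4⟩, hv.2⟩
      have h4 : (nI R (X \ Hs) t.1 ∩ Z).card ≤ (nO (rv R) Z t.1).card := by
        apply card_le_card
        intro v hv
        rw [mem_inter, mem_nI] at hv
        exact mem_nO.2 ⟨hv.2, hv.1.2⟩
      simp only at h2 ⊢
      omega)
  have hSAc : SA.card ≤ qt := by
    rw [EmbAllB.card hSA]
    rw [← hosd] at hin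
    exact hin
  have hSAm : ∀ v ∈ SA, v ∈ X ∧ v ∉ Hs := fun v hv => mem_sdiff.1 (hZA (hSAZ hv))
  -- the free set
  obtain ⟨X₀, hX₀⟩ : ∃ X₀, X₀ = X \ (Hs ∪ SA) := ⟨_, rfl⟩
  have hX₀m : ∀ v, v ∈ X₀ ↔ v ∈ X ∧ v ∉ Hs ∧ v ∉ SA := by
    intro v
    rw [hX₀, mem_sdiff, mem_union, not_or]
  have hHSc : (Hs ∪ SA).card ≤ qt + 3 := (card_union_le _ _).trans (by omega)
  have hnX : ∀ (W : Finset V) (v : V), (nI R W v).card ≤ (nI R (W \ (Hs ∪ SA)) v).card + (qt + 3) := by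
    intro W v
    refine le_trans (card_le_card (t := nI R (W \ (Hs ∪ SA)) v ∪ (Hs ∪ SA)) ?_) ((card_union_le _ _).trans (by omega))
    intro u hu
    rw [mem_nI] at hu
    rw [mem_union, mem_nI, mem_sdiff]
    by_cases h4 : u ∈ Hs ∪ SA
    · exact Or.inr h4
    · exact Or.inl ⟨⟨hu.1, h4⟩, hu.2⟩
  obtain ⟨Dz, hDz⟩ : ∃ Dz, Dz = Dn \ SA := ⟨_, rfl⟩
  have hDzm : ∀ v ∈ Dz, v ∈ G ∧ v ∉ Ex ∧ R z v ∧ v ∉ Hs ∧ v ∉ SA := by
    intro v hv
    rw [hDz, mem_sdiff] at hv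
    obtain ⟨h1, h2, h3, h4⟩ := hDnm v hv.1
    exact ⟨h1, h2, h3, h4, hv.2⟩
  have hqr : (qt : ℝ) + lam' ≤ δ * X.card := by
    push_cast at hsm
    exact hsm
  have hX0r : (0 : ℝ) ≤ X.card := Nat.cast_nonneg _
  have hqt0 : (0 : ℝ) ≤ qt := Nat.cast_nonneg _
  have hlam0 : (0 : ℝ) ≤ lam' := Nat.cast_nonneg _
  obtain ⟨Zt, S, hES, -, hZtX, -, -, hSX, hSX₀, hSZt, -, hSt⟩ := hP2 hT (U := X) (X₀ := X₀) (Y := X) (Dz := Dz)
    (PZ := Tz \ (Hs ∪ SA)) (y := z) lam' w₁ sig f (os.map (fun t => (t.1, t.2.2))) (by omega) (Subset.refl _) (by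
      rw [List.length_map, hosd]
      exact hlen) (by
      intro t ht
      rw [List.mem_map] at ht
      obtain ⟨t, ht, rfl⟩ := ht
      exact ⟨(hos t ht).1, GdU_self.2 (hos t ht).2.1, (hos t ht).2.2.1.2.1, (hos t ht).2.2.1.2.2.2⟩) (by
      intro t ht
      rw [List.mem_map] at ht
      obtain ⟨t, ht, rfl⟩ := ht
      rw [hX₀m]
      exact fun h => h.2.1 ((hHsm _).2 ⟨t, ht, rfl⟩)) (by
      intro v hv
      rw [mem_filter, hX₀m] at hv
      rw [mem_sdiff, mem_union, not_or, hTz, mem_filter]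
      refine ⟨⟨hv.1.1, ?_⟩, hv.1.2.1, hv.1.2.2⟩
      have h1 := hnX X v
      rw [← hX₀] at h1
      omega) (by
      intro v hv
      rw [mem_sdiff, mem_union, not_or, hTz, mem_filter] at hv
      exact (hX₀m v).2 ⟨hv.1.1, hv.2.1, hv.2.2⟩) (by
      have h1 : (Tz \ (Hs ∪ SA)).card ≤ 2 * (M₁ * lam' + C₁ + qt + 3) := by
        refine (card_le_card sdiff_subset).trans ?_
        rw [hTz]
        exact card_lowin hT X _
      have h2 : (X \ X₀).card ≤ qt + 3 := by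
        refine le_trans (card_le_card ?_) hHSc
        intro v hv
        rw [mem_sdiff, hX₀] at hv
        by_contra h3
        exact hv.2 (mem_sdiff.2 ⟨hv.1, h3⟩)
      have h3 : (X \ X).card = 0 := by simp
      have h4 : (X₀ \ X).card = 0 := by
        rw [card_eq_zero, sdiff_eq_empty_iff_subset, hX₀]
        exact sdiff_subset
      have h5 : (Tz \ (Hs ∪ SA)).card + (X \ X₀).card + (X \ X).card + (X₀ \ X).card ≤
          2 * (M₁ * lam' + C₁ + qt + 3) + (qt + 3) := by omega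
      have h6 : (((Tz \ (Hs ∪ SA)).card + (X \ X₀).card + (X \ X).card + (X₀ \ X).card : ℕ) : ℝ) ≤
          2 * (M₁ * lam' + C₁ + qt + 3) + (qt + 3) := by exact_mod_cast h5
      refine h6.trans ?_
      have h7 : (4 * M₁ + 8 : ℝ) * (qt + lam') ≤ (4 * M₁ + 8 : ℝ) * (δ * X.card) :=
        mul_le_mul_of_nonneg_left hqr (by positivity)
      have h8 : (4 * M₁ + 8 : ℝ) * δ * X.card ≤ δ' * X.card := mul_le_mul_of_nonneg_right hδ1 hX0r
      have h9 : (0 : ℝ) ≤ M₁ * qt := by positivity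
      have h10 : (0 : ℝ) ≤ M₁ * lam' := by positivity
      have h11 : (4 * M₁ + 8 : ℝ) * (qt + lam') = 4 * (M₁ * qt) + 4 * (M₁ * lam') + 8 * qt + 8 * lam' := by ring
      linarith) (fun v hv => hG (hDzm v hv).1) (by
      intro v hv
      obtain ⟨h1, h2, h3, h4, h5⟩ := hDzm v hv
      exact (hX₀m v).2 ⟨hG h1, h4, h5⟩) (fun v hv => ⟨(hDzm v hv).2.2.1, hGg v (hDzm v hv).1⟩) (by
      have h1 : nO R (G \ Ex) z ⊆ Dz ∪ (Hs ∪ SA) := by
        intro v hv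
        rw [mem_union, hDz, mem_sdiff, hDn, mem_sdiff, mem_union]
        tauto
      have h2 : ((nO R (G \ Ex) z).card : ℝ) ≤ Dz.card + (qt + 3) := by
        have h3 := (card_le_card h1).trans (card_union_le _ _)
        exact_mod_cast h3.trans (Nat.add_le_add_left hHSc _)
      have h3 : δ * X.card ≤ γ₀ / 16 * X.card := mul_le_mul_of_nonneg_right hδ2 hX0r
      linarith) (by
      intro v hv hvP
      have h1 := hInc v (mem_sdiff.1 hvP).1 (hDzm v hv).2.1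
      have h2 := hnX Tz v
      omega) (by
      intro j
      have h1 : X₀.filter (fun u => ¬ R z u ∧ sig ≤ (nI R X₀ u).card ∧ (nI R Dz u).card ≤ j) ⊆
          Ex.filter (fun u => sig ≤ (nI R X u).card) ∪
          X.filter (fun u => u ∉ Ex ∧ R u z ∧ (nI R (nO R (G \ Ex) z) u).card ≤ 4 * j + 3) := by
        intro u hu
        rw [mem_filter, hX₀m] at hu
        obtain ⟨⟨h1, h2, h3⟩, h4, h5, h6⟩ := hu
        rw [mem_union, mem_filter, mem_filter]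
        by_cases h7 : u ∈ Ex
        · exact Or.inl ⟨h7, h5.trans (card_le_card (nI_mono (by rw [hX₀]; exact sdiff_subset)))⟩
        · right
          have h8 : R u z := by
            rcases hT.tot u z (fun e => h2 (e ▸ hzHs)) with h | h
            · exact h
            · exact absurd h h4
          refine ⟨h1, h7, h8, ?_⟩
          have h9 := hZD u (mem_filter.2 ⟨h1, h7, h8⟩)
          have h10 : (nI R Dn u \ Z).card ≤ (nI R Dz u).card := by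
            apply card_le_card
            intro v hv
            rw [mem_sdiff, mem_nI] at hv
            rw [mem_nI, hDz, mem_sdiff]
            exact ⟨⟨hv.1.1, fun h => hv.2 (hSAZ h)⟩, hv.1.2⟩
          have h11 := hDu u
          omega
      have h2 := (card_le_card h1).trans (card_union_le _ _)
      have h3 := hcnt (4 * j + 3)
      have h4 : Kz * (4 * j + 3) ≤ 4 * Kz * (j + 1) := by
        have : 4 * Kz * (j + 1) = Kz * (4 * j + 4) := by ring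
        rw [this]
        exact Nat.mul_le_mul_left _ (by omega)
      omega) (by
      rw [← hosd] at hout
      push_cast at hout
      have h1 : (0 : ℝ) ≤ n₂ := Nat.cast_nonneg _
      have h2 : (0 : ℝ) ≤ Ci := Nat.cast_nonneg _
      have h3 : (0 : ℝ) ≤ cZ := Nat.cast_nonneg _
      linarith)
  have hSDm : ∀ v ∈ Zt ∪ S, v ∈ X ∧ v ∉ Hs ∧ v ∉ SA := by
    intro v hv
    rcases mem_union.1 hv with h | h
    · exact (hX₀m v).1 (hZtX h)
    · exact (hX₀m v).1 (hSX₀ h)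
  have hX'e : X₀ \ (Zt ∪ S) = X \ (Hs ∪ (SA ∪ (Zt ∪ S))) := by
    rw [hX₀]
    ext v
    simp only [mem_sdiff, mem_union]
    tauto
  rw [hX'e] at hSt
  rw [hosd] at hSA hES
  have hgl := line_glue (R := R) (os₀ := os₀) (z := z) (q := q) (L' := L') (Nn := N) (X₀ := X) (SA := SA) (SD := Zt ∪ S)
    hnd hch hSA hES (by
      rw [disjoint_left]
      exact fun v h1 h2 => (hSDm v h2).2.2 h1) (by
      intro t ht
      rw [← hosd] at ht
      have h1 : t.1 ∈ Hs := (hHsm _).2 ⟨t, ht, rfl⟩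
      exact ⟨fun h => (hSAm _ h).2 h1, fun h => (hSDm _ h).2.1 h1⟩) hhead (by
      rw [← hosd, ← hHs]
      exact union_subset hHsX (union_subset (fun v hv => (hSAm v hv).1) (fun v hv => (hSDm v hv).1)))
  rw [← hosd, ← hHs] at hgl
  refine ⟨X \ (Hs ∪ (SA ∪ (Zt ∪ S))), sdiff_subset, ?_, hSt, ?_⟩
  · rw [← hosd]
    exact hgl.1
  · rw [← hosd]
    exact hgl.2

/-- no out-drop: the out-branches leave a share -/
theorem nods3 {K₀ n : ℕ} {t₁ t₂ t₃ : Fd × Fd} {L : List (Fd × Fd)} (h : NoDs K₀ [t₁, t₂, t₃] L)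
    (hn : szS (t₁ :: t₂ :: t₃ :: L) ≤ n) :
    n ≤ (K₀ + 1) ^ 3 * (n - (t₁.2.size + t₂.2.size + t₃.2.size)) := by
  obtain ⟨h1, h2, h3, -⟩ := h
  simp only [NoD, List.cons_append, List.nil_append] at h1 h2 h3
  rw [szS_cons] at hn
  have e1 : t₁.2.size + szS (t₂ :: t₃ :: L) ≤ n := by omega
  have e2 : szS (t₂ :: t₃ :: L) = t₂.1.size + t₂.2.size + 1 + szS (t₃ :: L) := szS_cons _ _
  have e3 : szS (t₃ :: L) = t₃.1.size + t₃.2.size + 1 + szS L := szS_cons _ _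
  obtain ⟨n₁, hn₁⟩ : ∃ n₁, n₁ = n - t₁.2.size := ⟨_, rfl⟩
  obtain ⟨n₂, hn₂⟩ : ∃ n₂, n₂ = n₁ - t₂.2.size := ⟨_, rfl⟩
  obtain ⟨n₃, hn₃⟩ : ∃ n₃, n₃ = n₂ - t₃.2.size := ⟨_, rfl⟩
  have a1 : n ≤ (K₀ + 1) * n₁ := by
    have : K₀ * szS (t₂ :: t₃ :: L) ≤ K₀ * n₁ := Nat.mul_le_mul_left _ (by omega)
    have e : (K₀ + 1) * n₁ = K₀ * n₁ + n₁ := by ring
    omega
  have a2 : n₁ ≤ (K₀ + 1) * n₂ := by
    have : K₀ * szS (t₃ :: L) ≤ K₀ * n₂ := Nat.mul_le_mul_left _ (by omega)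
    have e : (K₀ + 1) * n₂ = K₀ * n₂ + n₂ := by ring
    omega
  have a3 : n₂ ≤ (K₀ + 1) * n₃ := by
    have : K₀ * szS L ≤ K₀ * n₃ := Nat.mul_le_mul_left _ (by omega)
    have e : (K₀ + 1) * n₃ = K₀ * n₃ + n₃ := by ring
    omega
  have e : n - (t₁.2.size + t₂.2.size + t₃.2.size) = n₃ := by omega
  rw [e]
  calc n ≤ (K₀ + 1) * n₁ := a1
    _ ≤ (K₀ + 1) * ((K₀ + 1) * n₂) := Nat.mul_le_mul_left _ a2
    _ ≤ (K₀ + 1) * ((K₀ + 1) * ((K₀ + 1) * n₃)) := Nat.mul_le_mul_left _ (Nat.mul_le_mul_left _ a3)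
    _ = (K₀ + 1) ^ 3 * n₃ := by ring

/-- **The exit** -/
theorem exitR (p : NP) (hp : p.OK) (hab : ab p.b p.l ≤ p.a) (K₀ : ℕ) {D₀ : ℕ} (hD₀ : p.A ≤ D₀) (hDK : (K₀ + 1) ^ 3 ≤ D₀)
    {ω c η η₁ κ₀ κ₁ κ γ₀ τ s σ₂ μ : ℝ} (P : KB D₀ ω c η η₁ κ₀ κ₁ κ γ₀ τ s σ₂ μ) {ηw : ℝ} (hηw : ηw ≤ η) :
    ExitR p.b p.l K₀ κ η s ηw 4 10 := by
  intro κw sw hκw hsw
  have hnum := P.num
  obtain ⟨hω0, hω1, hc0, hc1, hη0, hη1, hη₁0, hη₁1, hκ₀0, hκ₁0, hκ₁1, hκ0, hκ1, hs0, hγ₀0, hτ0, hσ₂0, hμ0, hκ₁η, hκs⟩ :=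
    hnum
  obtain ⟨Kz, nz, hsup⟩ := super_zE P
  obtain ⟨κU, hU0, hU1, hU2⟩ : ∃ κU : ℝ, 0 < κU ∧ 2 * κU ≤ κ ∧ κU ≤ κw :=
    ⟨min (κ / 2) κw, lt_min (by positivity) hκw, by linarith [min_le_left (κ / 2) κw], min_le_right _ _⟩
  obtain ⟨M₁, C₁, δ', C', hM₁, hδ'0, hcore⟩ := exit_core p hp hab hD₀ P hU0 hU1 Kz
  refine ⟨M₁, fun f K' => ?_⟩
  obtain ⟨δ, hδ0, hδ1, hδ2⟩ : ∃ δ : ℝ, 0 < δ ∧ δ ≤ δ' ∧ (16 : ℝ) * δ ≤ γ₀ / 32 := by
    refine ⟨min δ' (γ₀ / 512), lt_min hδ'0 (by positivity), min_le_left _ _, ?_⟩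
    linarith [min_le_right δ' (γ₀ / 512)]
  obtain ⟨n₂, hn₂⟩ := exists_big [((2 * C' + 6 : ℝ), γ₀ / 32), ((C' : ℝ), ω)] (by
    intro q hq
    simp only [List.mem_cons, List.not_mem_nil, or_false] at hq
    rcases hq with rfl | rfl
    · show 0 < γ₀ / 32
      positivity
    · exact hω0)
  refine ⟨δ, nz + n₂ + C₁ + 2 * C' + 6, hδ0, ?_⟩
  intro V R hT X E N lam sig w lamE lam' t₁ t₂ t₃ L hSt hE hBr hL hNoD hlam hsm hCX hsz
  have g := hn₂ X.card (by omega)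
  have g1 : (2 * C' + 6 : ℝ) ≤ γ₀ / 32 * X.card := g ((2 * C' + 6 : ℝ), γ₀ / 32) (by simp)
  have g2 : (C' : ℝ) ≤ ω * X.card := g ((C' : ℝ), ω) (by simp)
  have hX0 : (0 : ℝ) ≤ X.card := Nat.cast_nonneg _
  obtain ⟨qt, hqt⟩ : ∃ qt, qt = inS [t₁, t₂, t₃] := ⟨_, rfl⟩
  have hqt' : qt = t₁.1.size + (t₂.1.size + t₃.1.size) := by rw [hqt]; simp [inS]
  rw [← hqt] at hlam hsm
  -- the exceptional sets
  obtain ⟨V₀, hV₀⟩ : ∃ V₀, V₀ = (X \ E).filter (fun u => ¬ N u ∧ sig ≤ (nI R X u).card ∧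
      (nI R (cg R X ∅ N κw ηw lam) u).card ≤ 0) := ⟨_, rfl⟩
  have hV₀c : V₀.card ≤ w := by
    rw [hV₀]
    have := hSt.cnt 0 (Nat.zero_le _)
    omega
  obtain ⟨Tz, hTz⟩ : ∃ Tz, Tz = X.filter (fun v => (nI R X v).card < M₁ * lam' + C₁ + qt + 3) := ⟨_, rfl⟩
  obtain ⟨Inc, hInc⟩ : ∃ Inc, Inc = Tz.filter (fun v => (nI R Tz v).card < lam' + qt + 3) := ⟨_, rfl⟩
  have hIncc : Inc.card ≤ 2 * (lam' + qt + 3) := by rw [hInc]; exact card_lowin hT Tz _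
  obtain ⟨Ls, hLs⟩ : ∃ Ls, Ls = X.filter (fun v => (nI R X v).card < sig) := ⟨_, rfl⟩
  have hLsc : Ls.card ≤ 2 * sig := by rw [hLs]; exact card_lowin hT X _
  obtain ⟨Lq, hLq⟩ : ∃ Lq, Lq = X.filter (fun v => (nI R X v).card < 4 * qt + C') := ⟨_, rfl⟩
  have hLqc : Lq.card ≤ 2 * (4 * qt + C') := by rw [hLq]; exact card_lowin hT X _
  obtain ⟨Ex, hEx⟩ : ∃ Ex, Ex = V₀ ∪ Inc ∪ Lq ∪ Ls := ⟨_, rfl⟩
  have hExc : Ex.card ≤ w + 2 * (lam' + qt + 3) + 2 * (4 * qt + C') + 2 * sig := by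
    rw [hEx]
    have h1 := card_union_le (V₀ ∪ Inc ∪ Lq) Ls
    have h2 := card_union_le (V₀ ∪ Inc) Lq
    have h3 := card_union_le V₀ Inc
    omega
  obtain ⟨G, hG, z, hzX, hGg, hzG, hzEx, hzN, hcnt⟩ := hsup hT (Y := X) (Ex := Ex) (by omega) (by
    have h1 : (Ex.card : ℝ) ≤ 16 * ((w + sig + qt + lam' : ℕ) : ℝ) + (2 * C' + 6) := by
      have h2 : Ex.card ≤ 16 * (w + sig + qt + lam') + (2 * C' + 6) := by omega
      exact_mod_cast h2
    have h3 : (16 : ℝ) * δ * X.card ≤ γ₀ / 32 * X.card := mul_le_mul_of_nonneg_right hδ2 hX0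
    linarith)
  have hzm : z ∉ V₀ ∧ z ∉ Inc ∧ z ∉ Lq ∧ z ∉ Ls := by
    rw [hEx] at hzEx
    simp only [mem_union, not_or] at hzEx
    exact ⟨hzEx.1.1.1, hzEx.1.1.2, hzEx.1.2, hzEx.2⟩
  have hz1 : sig ≤ (nI R X z).card := by
    by_contra hc
    push Not at hc
    exact hzm.2.2.2 (by rw [hLs, mem_filter]; exact ⟨hzX, hc⟩)
  have hz2 : 4 * qt + C' ≤ (nI R X z).card := by
    by_contra hc
    push Not at hc
    exact hzm.2.2.1 (by rw [hLq, mem_filter]; exact ⟨hzX, hc⟩)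
  obtain ⟨pre, hpre, hpreX, hprech, hprend, hprehd⟩ := exit_way hT hSt (by
    rcases hE with h | h
    · exact Or.inl h
    · exact Or.inr (by omega)) hzX hz1 (by rw [← hV₀]; exact hzm.1)
  have hgoodU : ∀ {v : V} {k e : ℝ}, Good R k e X v → κU ≤ k → e ≤ η → Good R κU η X v := by
    intro v k e h1 h2 h3
    exact GdU_self.1 (AEB.Good.gdU h1 (Subset.refl _) (mul_le_mul_of_nonneg_right h2 (Nat.cast_nonneg _)) h3)
  have hzgood : Good R κU η X z := by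
    refine hgoodU (hGg z hzG) (by linarith) ?_
    have hcη : c * η ≤ 1 * η := mul_le_mul_of_nonneg_right (by linarith) hη0.le
    linarith
  -- the out-branches
  have hDs : ((t₁.2.size + t₂.2.size + t₃.2.size : ℕ) : ℝ) ≤ (1 - 2 * ω) * X.card := by
    have h1 := nods3 hNoD hsz
    have h2 : t₁.2.size + t₂.2.size + t₃.2.size ≤ X.card := by
      rw [szS_cons, szS_cons, szS_cons] at hsz
      omega
    have h3 : X.card ≤ D₀ * (X.card - (t₁.2.size + t₂.2.size + t₃.2.size)) :=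
      h1.trans (Nat.mul_le_mul_right _ hDK)
    have h4 : (X.card : ℝ) ≤ D₀ * (X.card - ((t₁.2.size + t₂.2.size + t₃.2.size : ℕ) : ℝ)) := by
      have h5 : (X.card : ℝ) ≤ ((D₀ * (X.card - (t₁.2.size + t₂.2.size + t₃.2.size)) : ℕ) : ℝ) := by exact_mod_cast h3
      rw [Nat.cast_mul, Nat.cast_sub h2] at h5
      exact h5
    have h5 : (0 : ℝ) < D₀ := by
      have := P.hD
      exact_mod_cast (by omega : 0 < D₀)
    have h6 : 2 * ω * D₀ = 1 := by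
      rw [P.hω]
      field_simp
    have h7 : 2 * ω * X.card ≤ 2 * ω * (D₀ * (X.card - ((t₁.2.size + t₂.2.size + t₃.2.size : ℕ) : ℝ))) :=
      mul_le_mul_of_nonneg_left h4 (by positivity)
    have h8 : 2 * ω * (D₀ * (X.card - ((t₁.2.size + t₂.2.size + t₃.2.size : ℕ) : ℝ))) =
        (2 * ω * D₀) * (X.card - ((t₁.2.size + t₂.2.size + t₃.2.size : ℕ) : ℝ)) := by ring
    rw [h8, h6] at h7
    linarith
  -- the general step
  have main : ∀ (os₀ : List (V × (Fd × Fd))) (q : Fd × Fd) (L' : List (Fd × Fd)), os₀.map Prod.fst = pre →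
      (os₀ ++ [(z, q)]).map Prod.snd ++ L' = t₁ :: t₂ :: t₃ :: L →
      totB ((os₀ ++ [(z, q)]).map (fun t => (t.1, t.2.1))) ≤ qt →
      totB ((os₀ ++ [(z, q)]).map (fun t => (t.1, t.2.2))) ≤ t₁.2.size + t₂.2.size + t₃.2.size →
      (L' = t₂ :: t₃ :: L ∨ L' = t₃ :: L ∨ L' = L) →
      After3 R κ η s f M₁ lam' sig (w + (2 * (lam' + qt + 3) + 2 * (4 * qt + C')) + C₁) X N (t₁ :: t₂ :: t₃ :: L) t₂ t₃
        L := by
    intro os₀ q L' hos hLL hin hout hL'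
    have hfst : (os₀ ++ [(z, q)]).map Prod.fst = pre ++ [z] := by rw [List.map_append, hos]; rfl
    have hsub : ∀ t ∈ os₀ ++ [(z, q)], t.2 ∈ t₁ :: t₂ :: t₃ :: L := by
      intro t ht
      rw [← hLL, List.mem_append]
      exact Or.inl (List.mem_map_of_mem ht)
    obtain ⟨X', hX', hc', hSt', hIn'⟩ := hcore hT (X := X) (Ex := Ex) (G := G) (Tz := Tz) (z := z) (N := N) lam' sig f
      (w + (2 * (lam' + qt + 3) + 2 * (4 * qt + C'))) qt os₀ q L' (by omega) (by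
        have h1 : (os₀ ++ [(z, q)]).length = ((os₀ ++ [(z, q)]).map Prod.fst).length := by rw [List.length_map]
        rw [h1, hfst, List.length_append]
        simp only [List.length_cons, List.length_nil]
        omega) (by rw [hfst]; exact hprend) (by rw [hfst]; exact hprech) (by rw [hfst]; exact hprehd) (by
        intro t ht
        have h1 : t.1 ∈ pre ++ [z] := by
          rw [← hfst]
          exact List.mem_map_of_mem ht
        have h2 : BrO p.b p.l t.2 := hBr t.2 (hsub t ht)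
        rw [List.mem_append, List.mem_singleton] at h1
        rcases h1 with h1 | h1
        · obtain ⟨h3, h4, h5⟩ := hpreX t.1 h1
          exact ⟨h3, hgoodU h4 hU2 hηw, h2, by omega⟩
        · rw [h1]
          exact ⟨hzX, hzgood, h2, hz2⟩) hin (by
        have h1 : (totB ((os₀ ++ [(z, q)]).map (fun t => (t.1, t.2.2))) : ℝ) ≤
            ((t₁.2.size + t₂.2.size + t₃.2.size : ℕ) : ℝ) := by exact_mod_cast hout
        linarith) hG hGg hzN hcnt hTz (by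
        intro v hv hvE
        by_contra hc
        push Not at hc
        apply hvE
        rw [hEx]
        simp only [mem_union]
        exact Or.inl (Or.inl (Or.inr (by rw [hInc, mem_filter]; exact ⟨hv, hc⟩)))) (by
        have h1 : Ex.filter (fun u => sig ≤ (nI R X u).card) ⊆ V₀ ∪ Inc ∪ Lq := by
          intro u hu
          rw [mem_filter, hEx] at hu
          simp only [mem_union] at hu ⊢
          rcases hu.1 with h | h
          · exact h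
          · rw [hLs, mem_filter] at h
            omega
        have h2 := (card_le_card h1).trans (card_union_le _ _)
        have h3 := card_union_le V₀ Inc
        omega) (by
        have h1 : ((qt + lam' : ℕ) : ℝ) ≤ ((w + sig + qt + lam' : ℕ) : ℝ) := by exact_mod_cast (by omega)
        have h2 : δ * X.card ≤ δ' * X.card := mul_le_mul_of_nonneg_right hδ1 hX0
        linarith)
    rw [hLL] at hc' hIn'
    exact ⟨L', X', z, hL', hX', hc', hSt', hIn'⟩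
  refine ⟨w + (2 * (lam' + qt + 3) + 2 * (4 * qt + C')) + C₁, ?_, ?_⟩
  · rw [← hqt]
    omega
  · match pre, hpre, main with
    | [], _, main =>
      exact main [] t₁ (t₂ :: t₃ :: L) rfl rfl (by simp [totB]; try omega) (by simp [totB]; try omega) (Or.inl rfl)
    | [a], _, main =>
      exact main [(a, t₁)] t₂ (t₃ :: L) rfl rfl (by simp [totB]; try omega) (by simp [totB]; try omega)
        (Or.inr (Or.inl rfl))
    | [a, b], _, main =>
      exact main [(a, t₁), (b, t₂)] t₃ L rfl rfl (by simp [totB]; try omega) (by simp [totB]; try omega)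
        (Or.inr (Or.inr rfl))

end AEG
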