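import Pool.Agent.AEG.DefsC
import Pool.Agent.AEG.HeavyC
import Pool.Agent.AEG.ExitR

/-!
# The fine class with critical groups: from a critical group to an open state
-/

set_option autoImplicit false

namespace AEG

open Finset AE15 AED AEB SPD
open scoped Classical

/-- the exit with constants -/
def ExitRC (b l K₀ : ℕ) (κ η s κw ηw sw : ℝ) (Λ A K₁ f K' : ℕ) (δ : ℝ) (C : ℕ) : Prop :=
  ∀ {V : Type} {R : V → V → Prop}, AE32.Tour R →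
  ∀ (X E : Finset V) (N : V → Prop) (lam sig w lamE lam' : ℕ) (t₁ t₂ t₃ : Fd × Fd) (L : List (Fd × Fd)),
    StE R X E N κw ηw sw lam sig f w K' lamE → (E = ∅ ∨ w + 2 * sig + C ≤ lamE) →
    (∀ q ∈ t₁ :: t₂ :: t₃ :: L, BrO b l q) → L ≠ [] → NoDs K₀ [t₁, t₂, t₃] L →
    Λ * inS [t₁, t₂, t₃] + C ≤ lam → ((w + sig + inS [t₁, t₂, t₃] + lam' : ℕ) : ℝ) ≤ δ * X.card → C ≤ X.card →
    szS (t₁ :: t₂ :: t₃ :: L) ≤ X.card →
    ∃ w', w' ≤ w + A * (inS [t₁, t₂, t₃] + lam') + C ∧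
      After3 R κ η s f K₁ lam' sig w' X N (t₁ :: t₂ :: t₃ :: L) t₂ t₃ L

/-- the numbers for the critical groups. `Λ₂ * m + c₂`: capacity of the links of a critical group with mass `m` behind it;
`(p + 1) * (Λ₃ * m + c₄)`: smallest mass of a critical group with mass `m` behind it; `g`: growth of the line along a
group; `Cb`: the excess -/
structure NumC (ξ ξ' ξc δx ζ : ℝ) (Λ A p Λ₂ Λ₃ c₂ c₄ c₅ c₆ c₇ Cc C₀ C₂ Cx K₂ g C₅ B₂ Cb : ℕ) : Prop where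
  Λ1 : 1 ≤ Λ
  a1 : Λ * (1 + (A + 2) * Λ) ≤ Λ₂
  a2 : Λ * ((A + 2) * c₅ + c₆ + c₇) + Cc ≤ c₂
  a3 : c₅ = Cc + Cx
  a4 : c₇ = C₀ + Λ * Cc + Cc
  a5 : c₆ = c₇ + 3 * Cc + Cx
  a6 : 4 * K₂ * Λ₂ + 2 * Λ₂ + 2 ≤ Λ₃
  a7 : 4 * K₂ * (c₂ + 2 * Cc + 1) + c₂ + c₇ + 2 * Cc + C₀ ≤ c₄
  Cb1 : Cc + Cx ≤ Cb
  ξ0 : 0 ≤ ξ'
  ξ2 : 2 * ξ' ≤ 1
  g1 : 1 ≤ g
  z1 : ζ * (2 * g) ≤ 1
  ζ0 : 0 ≤ ζ
  x1 : 4 * (1 + (A + 2) * Λ) * ξ' ≤ ξc
  x2 : 4 * (((A + 2) * c₅ + c₆ : ℕ) : ℝ) ≤ ξc * Cb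
  x3 : 8 * g * ξ' ≤ ξc
  x4 : 8 * ((c₇ + C₂ : ℕ) : ℝ) ≤ ξc * Cb
  x4' : 2 * ((c₇ + C₂ : ℕ) : ℝ) ≤ Cb
  x5 : 2 * (A * Λ + 1 + 2 * Λ) * g * ξ' ≤ δx
  x6 : 2 * ((A * c₅ + c₆ + C₅ + 17 * B₂ : ℕ) : ℝ) ≤ δx * Cb
  x7 : ξ * g ≤ ξ'
  x8 : 2 * ((2 * B₂ + C₀ + C₂ : ℕ) : ℝ) ≤ ξ' * Cb

/-- a state of the driver with an open critical group -/
structure CPos (CS : CSt) (b l : ℕ) (ξ' : ℝ) (Λ₂ c₂ p Λ₃ c₄ Cc C₀ C₂ Nn Cb : ℕ) {V : Type} (R : V → V → Prop)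
    (L : List (Fd × Fd)) (P X : Finset V) (ys : List V) (y : V) (gr : List (Fd × Fd)) (w c : ℕ) : Prop where
  cs : CS V R P X ys y 0 w (Λ₂ * inS L + c₂) (2 * Cc)
  len : ys.length = gr.length
  br : ∀ q ∈ gr, BrO b l q
  ne : gr ≠ []
  lenN : gr.length ≤ Nn
  lo : inS gr + inS (L.take 4) + C₀ ≤ P.card
  hi : P.card ≤ inS gr + inS (L.take 4) + C₀ + C₂
  size : P.card + X.card = inS gr + szS L + c
  crit : (p + 1) * (Λ₃ * inS L + c₄) ≤ inS gr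
  wC : w ≤ Cc
  cb : Cb ≤ c
  small : (P.card : ℝ) ≤ ξ' * (szS L + c : ℕ)

section
variable {CS : CSt} {b l K₀ Nn f Kw : ℕ} {κ η s κw sw ξ ξ' ξc δx ζ θ : ℝ}
  {Λ A p Λ₂ Λ₃ c₂ c₄ c₅ c₆ c₇ Cc C₀ C₂ Cx K₂ g C₅ B₂ Cb B : ℕ}

/-- the number part of a step out of an open critical group -/
theorem crit_num (nc : NumC ξ ξ' ξc δx ζ Λ A p Λ₂ Λ₃ c₂ c₄ c₅ c₆ c₇ Cc C₀ C₂ Cx K₂ g C₅ B₂ Cb) {V : Type}
    {R : V → V → Prop} {L : List (Fd × Fd)} {P X : Finset V} {ys : List V} {y : V} {gr : List (Fd × Fd)} {w c : ℕ}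
    (h : CPos CS b l ξ' Λ₂ c₂ p Λ₃ c₄ Cc C₀ C₂ Nn Cb R L P X ys y gr w c) {L' : List (Fd × Fd)}
    (hg : szS L + c ≤ g * (szS L' + c)) :
    inS L ≤ inS gr ∧ (p + 1) * (2 * inS L + c₂ + c₇ + 2 * Cc + C₀) ≤ inS gr ∧
      ζ * ((P.card + X.card : ℕ) : ℝ) ≤ (szS L' + c : ℕ) ∧
      (∀ x : ℕ, x ≤ inS L → ((P.card + (Λ * x + c₅) + (A * (Λ * x + c₅) + c₆) : ℕ) : ℝ) ≤ ξc * X.card) ∧
      (P.card : ℝ) ≤ ξ' * g * (szS L' + c : ℕ) := by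
  have hp1 : Λ₃ * inS L + c₄ ≤ inS gr := by
    have h1 := h.crit
    have h2 : 1 * (Λ₃ * inS L + c₄) ≤ (p + 1) * (Λ₃ * inS L + c₄) := Nat.mul_le_mul_right _ (by omega)
    omega
  have hΛ₃ : 2 ≤ Λ₃ := by
    have := nc.a6
    omega
  have h2m : 2 * inS L ≤ Λ₃ * inS L := Nat.mul_le_mul_right _ hΛ₃
  have hm : inS L ≤ inS gr := by omega
  have hmP : inS L ≤ P.card := by
    have := h.lo
    omega
  have hZ : ((szS L + c : ℕ) : ℝ) ≤ g * (szS L' + c : ℕ) := by exact_mod_cast hg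
  have hZ0 : (0 : ℝ) ≤ (szS L + c : ℕ) := Nat.cast_nonneg _
  have hZ'0 : (0 : ℝ) ≤ (szS L' + c : ℕ) := Nat.cast_nonneg _
  have hPr := h.small
  have hsz : (P.card : ℝ) + X.card = (inS gr : ℕ) + (szS L + c : ℕ) := by
    have := h.size
    push_cast
    have h3 : ((P.card + X.card : ℕ) : ℝ) = ((inS gr + szS L + c : ℕ) : ℝ) := by exact_mod_cast this
    push_cast at h3
    linarith
  have hgrP : ((inS gr : ℕ) : ℝ) ≤ P.card := by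
    have := h.lo
    have h3 : inS gr ≤ P.card := by omega
    exact_mod_cast h3
  have hcb : (Cb : ℝ) ≤ (szS L + c : ℕ) := by
    have := h.cb
    have h3 : Cb ≤ szS L + c := by omega
    exact_mod_cast h3
  refine ⟨hm, ?_, ?_, ?_, ?_⟩
  · refine le_trans (Nat.mul_le_mul_left _ ?_) h.crit
    have := nc.a7
    omega
  · have h1 : ((P.card + X.card : ℕ) : ℝ) ≤ 2 * (szS L + c : ℕ) := by
      push_cast at hsz ⊢
      have : ξ' * ((szS L : ℝ) + c) ≤ 1 * ((szS L : ℝ) + c) := by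
        apply mul_le_mul_of_nonneg_right _ (by positivity)
        linarith [nc.ξ2, nc.ξ0]
      push_cast at hPr
      linarith
    have h2 : ((P.card + X.card : ℕ) : ℝ) ≤ 2 * g * (szS L' + c : ℕ) := by linarith
    have h3 := mul_le_mul_of_nonneg_left h2 nc.ζ0
    have h4 := mul_le_mul_of_nonneg_right nc.z1 hZ'0
    linarith [(by ring : ζ * (2 * g * ((szS L' + c : ℕ) : ℝ)) = ζ * (2 * g) * ((szS L' + c : ℕ) : ℝ))]
  · intro x hx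
    have h1 : P.card + (Λ * x + c₅) + (A * (Λ * x + c₅) + c₆) ≤ (1 + (A + 2) * Λ) * P.card + ((A + 2) * c₅ + c₆) := by
      have h2 : Λ * x ≤ Λ * P.card := Nat.mul_le_mul_left _ (hx.trans hmP)
      have h3 : A * (Λ * x + c₅) ≤ A * (Λ * P.card + c₅) := Nat.mul_le_mul_left _ (by omega)
      have h4 : (1 + (A + 2) * Λ) * P.card + ((A + 2) * c₅ + c₆) =
        P.card + (Λ * P.card + c₅) + (A * (Λ * P.card + c₅) + c₆) + Λ * P.card + c₅ := by ring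
      omega
    have h2 : ((P.card + (Λ * x + c₅) + (A * (Λ * x + c₅) + c₆) : ℕ) : ℝ) ≤
        ((1 + (A + 2) * Λ) * P.card + ((A + 2) * c₅ + c₆) : ℕ) := by exact_mod_cast h1
    have h3 : (4 * (1 + (A + 2) * Λ) : ℝ) * P.card ≤ 4 * (1 + (A + 2) * Λ) * (ξ' * (szS L + c : ℕ)) :=
      mul_le_mul_of_nonneg_left hPr (by positivity)
    have h4 := mul_le_mul_of_nonneg_right nc.x1 hZ0
    have h5 := nc.x2
    have hξc : 0 ≤ ξc := by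
      have := nc.x1
      have h6 := mul_nonneg (by positivity : (0 : ℝ) ≤ 4 * (1 + (A + 2) * Λ)) nc.ξ0
      linarith
    have h6 : ξc * (Cb : ℝ) ≤ ξc * (szS L + c : ℕ) := mul_le_mul_of_nonneg_left hcb hξc
    have h7 : (szS L + c : ℕ) ≤ (2 : ℝ) * X.card := by
      have h8 : ξ' * (szS L + c : ℕ) ≤ 1 / 2 * ((szS L + c : ℕ) : ℝ) := by
        apply mul_le_mul_of_nonneg_right _ hZ0
        linarith [nc.ξ2]
      have h9 : (0 : ℝ) ≤ (inS gr : ℕ) := Nat.cast_nonneg _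
      linarith
    have h8 : ξc * (szS L + c : ℕ) ≤ ξc * (2 * X.card) := mul_le_mul_of_nonneg_left h7 hξc
    refine h2.trans ?_
    push_cast at h3 h4 h5 h6 h8 ⊢
    linarith
  · have h1 := mul_le_mul_of_nonneg_left hZ nc.ξ0
    linarith [(by ring : ξ' * (g * ((szS L' + c : ℕ) : ℝ)) = ξ' * g * ((szS L' + c : ℕ) : ℝ))]

theorem take4 {k₁ k₂ k₃ k₄ : Fd × Fd} {L' : List (Fd × Fd)} : (k₁ :: k₂ :: k₃ :: k₄ :: L').take 4 = [k₁, k₂, k₃, k₄] := by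
  simp

theorem inS_fourL {k₁ k₂ k₃ k₄ : Fd × Fd} {gr L' : List (Fd × Fd)} : inS (k₁ :: k₂ :: k₃ :: k₄ :: (gr ++ L')) =
    inS [k₁, k₂, k₃, k₄] + inS gr + inS L' := by
  rw [show k₁ :: k₂ :: k₃ :: k₄ :: (gr ++ L') = [k₁, k₂, k₃, k₄] ++ (gr ++ L') by rfl, inS_append, inS_append]
  ring

/-- **Closing a critical group**: the next group is hosted, both groups are packed -/
theorem crit_close (nc : NumC ξ ξ' ξc δx ζ Λ A p Λ₂ Λ₃ c₂ c₄ c₅ c₆ c₇ Cc C₀ C₂ Cx K₂ g C₅ B₂ Cb)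
    (hB : CritB CS b l K₀ Λ p A Nn ζ ξc Cc C₀ C₂) (hF : FinB CS b l κw η sw f Kw Nn ξc Cc C₀ C₂) {V : Type}
    {R : V → V → Prop} (hT : AE32.Tour R) {L : List (Fd × Fd)} {P X : Finset V} {ys : List V} {y : V}
    {gr : List (Fd × Fd)} {w c : ℕ}
    (h : CPos CS b l ξ' Λ₂ c₂ p Λ₃ c₄ Cc C₀ C₂ Nn Cb R L P X ys y gr w c) (hcl : ClsF b l K₀ 0 8 B θ L)
    {k₁ k₂ k₃ k₄ : Fd × Fd} {gr' L' : List (Fd × Fd)} (hL : L = k₁ :: k₂ :: k₃ :: k₄ :: (gr' ++ L')) (hne : L' ≠ [])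
    (hgr : gr' ≠ []) (hlen : gr'.length ≤ Nn) (hg : szS L + c ≤ g * (szS L' + c)) (qt : ℕ) (hqt : qt ≤ inS L') :
    ∃ (X' E : Finset V) (y' : V) (w' lamE : ℕ), StE R X' E (R y') κw η sw (Λ * qt + Cx) 0 f w' Kw lamE ∧
      w' + Cx ≤ lamE ∧ w' ≤ A * (Λ * qt + c₅) + c₆ ∧ X'.card = szS L' + c ∧
      (InS R L' (R y') X' → PGoal R ys gr y L (P ∪ X)) := by
  obtain ⟨n1, n2, n3, n4, n5⟩ := crit_num nc h hg
  have htk : inS (L.take 4) = inS [k₁, k₂, k₃, k₄] := by rw [hL, take4]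
  have hsum : inS L = inS [k₁, k₂, k₃, k₄] + inS gr' + inS L' := by rw [hL, inS_fourL]
  have hlo := h.lo
  have hhi := h.hi
  have hsize := h.size
  have hcs := h.cs
  have hwC := h.wC
  have hcb := h.cb
  have hCb1 := nc.Cb1
  obtain ⟨q, hq⟩ : ∃ q, q = inS [k₁, k₂, k₃, k₄] := ⟨_, rfl⟩
  obtain ⟨m, hm⟩ : ∃ m, m = inS L := ⟨_, rfl⟩
  rw [htk] at hlo hhi
  rw [hL] at hsize
  have e3 := nc.a3
  have e4 := nc.a4
  have e5 := nc.a5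
  have hp1 : 2 * inS L + c₂ + c₇ + 2 * Cc + C₀ ≤ inS gr := by
    have h1 : 1 * (2 * inS L + c₂ + c₇ + 2 * Cc + C₀) ≤ (p + 1) * (2 * inS L + c₂ + c₇ + 2 * Cc + C₀) :=
      Nat.mul_le_mul_right _ (by omega)
    omega
  -- the capacity
  have hcap : Λ * (inS [k₁, k₂, k₃, k₄] + inS gr' + 0 + 0 + (A * (Λ * qt + c₅) + c₆) + (Λ * qt + c₅) + c₇) + Cc ≤
      Λ₂ * inS L + c₂ := by
    have h1 : qt ≤ inS L := by omega
    have h2 : Λ * qt ≤ Λ * inS L := Nat.mul_le_mul_left _ h1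
    have h3 : A * (Λ * qt + c₅) ≤ A * (Λ * inS L + c₅) := Nat.mul_le_mul_left _ (by omega)
    have h4 : inS [k₁, k₂, k₃, k₄] + inS gr' + 0 + 0 + (A * (Λ * qt + c₅) + c₆) + (Λ * qt + c₅) + c₇ ≤
        (1 + (A + 2) * Λ) * inS L + ((A + 2) * c₅ + c₆ + c₇) := by
      have h5 : (1 + (A + 2) * Λ) * inS L + ((A + 2) * c₅ + c₆ + c₇) =
        inS L + A * (Λ * inS L + c₅) + (Λ * inS L + c₅) + (Λ * inS L + c₅) + c₆ + c₇ := by ring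
      omega
    have h5 := Nat.mul_le_mul_left Λ h4
    have h6 : Λ * ((1 + (A + 2) * Λ) * inS L + ((A + 2) * c₅ + c₆ + c₇)) =
      Λ * (1 + (A + 2) * Λ) * inS L + Λ * ((A + 2) * c₅ + c₆ + c₇) := by ring
    have h7 := Nat.mul_le_mul_right (inS L) nc.a1
    have h8 := nc.a2
    omega
  have hΛp : p * (inS [k₁, k₂, k₃, k₄] + inS gr' + 0 + 0 + c₇ + Cc) ≤ P.card := by
    have h1 : p * (inS [k₁, k₂, k₃, k₄] + inS gr' + 0 + 0 + c₇ + Cc) ≤ (p + 1) * (2 * inS L + c₂ + c₇ + 2 * Cc + C₀) :=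
      Nat.mul_le_mul (by omega) (by omega)
    omega
  have hΛw : Λ * w + Cc ≤ inS gr' + c₇ := by
    have h1 : Λ * w ≤ Λ * Cc := Nat.mul_le_mul_left _ hwC
    omega
  obtain ⟨P', X', ys', y', w', hw', hP', hX', hcs', hlen', hlo', hhi', hsz', hback⟩ := hB hT P X ys y w
    (Λ₂ * inS L + c₂) (2 * Cc) (Λ * qt + c₅) 0 (A * (Λ * qt + c₅) + c₆) 0 c₇ c k₁ k₂ k₃ k₄ gr gr' L' hcs h.len
    (fun q hq => by
      rcases List.mem_append.1 hq with hq | hq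
      · exact h.br q hq
      · exact hcl.br q (by rw [hL]; exact hq)) h.ne h.lenN hgr hlen hne
    (by
      apply ClsF.noDs (l := l) (b := b) (K₂ := 0) (N₁ := 8) (B := B) (θ := θ) _ hne
      rw [hL] at hcl
      simpa using hcl) (by omega) (by omega) (by omega) (by omega) (by omega) n3 hcap hΛp (Or.inr ⟨rfl, rfl⟩) hΛw
    (by omega) (by
      have h1 := n4 qt (by omega)
      have h2 : P.card + (Λ * qt + c₅) + (A * (Λ * qt + c₅) + c₆) =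
        P.card + (Λ * qt + c₅) + (A * (Λ * qt + c₅) + c₆) := rfl
      exact h1)
  -- packing the new group
  have hX'c : szS L' + c ≤ X'.card + (c₇ + C₂) := by omega
  have hx4 : 2 * (c₇ + C₂) ≤ Cb := by exact_mod_cast nc.x4'
  have hP'c : P'.card ≤ P.card + (c₇ + C₂) := by omega
  have hsm : (P'.card : ℝ) ≤ ξc * X'.card := by
    have h1 : (P'.card : ℝ) ≤ P.card + (c₇ + C₂ : ℕ) := by exact_mod_cast hP'c
    have h2 : ((szS L' + c : ℕ) : ℝ) ≤ X'.card + (c₇ + C₂ : ℕ) := by exact_mod_cast hX'c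
    have h3 : (Cb : ℝ) ≤ (szS L' + c : ℕ) := by
      have : Cb ≤ szS L' + c := by omega
      exact_mod_cast this
    have h4 : (2 * (c₇ + C₂ : ℕ) : ℝ) ≤ Cb := by exact_mod_cast hx4
    have hZ0 : (0 : ℝ) ≤ (szS L' + c : ℕ) := Nat.cast_nonneg _
    have h5 := mul_le_mul_of_nonneg_right nc.x3 hZ0
    have hξc : 0 ≤ ξc := by
      have h6 : 0 ≤ 8 * g * ξ' := mul_nonneg (by positivity) nc.ξ0
      linarith [nc.x3]
    have h6 : ξc * (Cb : ℝ) ≤ ξc * (szS L' + c : ℕ) := mul_le_mul_of_nonneg_left h3 hξc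
    have h7 := nc.x4
    have h8 : ((szS L' + c : ℕ) : ℝ) ≤ 2 * X'.card := by linarith
    have h9 : ξc * ((szS L' + c : ℕ) : ℝ) ≤ ξc * (2 * X'.card) := mul_le_mul_of_nonneg_left h8 hξc
    linarith [(by ring : 8 * g * ξ' * ((szS L' + c : ℕ) : ℝ) = 8 * (ξ' * g * ((szS L' + c : ℕ) : ℝ)))]
  obtain ⟨X₂, E, w₂, lamE, hw₂, hlE, hX₂, hc₂, hSt, hback₂⟩ := hF hT P' X' ys' y' (Λ * qt + c₅) w' 0
    (A * (Λ * qt + c₅) + c₆) c₇ gr' L' hcs' hlen' (fun q hq => hcl.br q (by rw [hL]; simp [hq])) hgr hlen (by omega)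
    (by omega) (by omega) hsm (by omega)
  refine ⟨X₂, E, y', w₂, lamE, hSt.mono (by omega) le_rfl le_rfl le_rfl, by omega, by omega, by omega, ?_⟩
  intro hI
  have h1 := hback (hback₂ hI)
  rw [hL]
  exact h1

/-- the exit behind a closed critical group -/
theorem crit_exit (nc : NumC ξ ξ' ξc δx ζ Λ A p Λ₂ Λ₃ c₂ c₄ c₅ c₆ c₇ Cc C₀ C₂ Cx K₂ g C₅ B₂ Cb) {Kx : ℕ}
    (hX : ExitRC b l K₀ κ η s κw η sw Λ A Kx f Kw δx Cx) {V : Type} {R : V → V → Prop} (hT : AE32.Tour R)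
    {L' : List (Fd × Fd)} (hcl : ClsF b l K₀ 0 8 B θ L') (hlen : 4 ≤ L'.length) {X' E : Finset V} {N : V → Prop}
    {w' lamE c Pc : ℕ} (hSt : StE R X' E N κw η sw (Λ * inS (L'.take 3) + Cx) 0 f w' Kw lamE) (hw : w' + Cx ≤ lamE)
    (hw' : w' ≤ A * (Λ * inS (L'.take 3) + c₅) + c₆) (hX' : X'.card = szS L' + c) (hc : Cb ≤ c) (hm : inS L' ≤ Pc)
    (hP : (Pc : ℝ) ≤ ξ' * g * (szS L' + c : ℕ)) (lam' : ℕ) (hlam' : lam' ≤ 2 * Λ * Pc + C₅ + 17 * B₂) :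
    ∃ (i : ℕ) (X₂ : Finset V) (z : V) (w₂ : ℕ), 1 ≤ i ∧ i ≤ 3 ∧ X₂.card = szS (L'.drop i) + c ∧
      StE R X₂ ∅ (R z) κ η s lam' 0 f w₂ Kx 0 ∧ w₂ ≤ w' + A * (inS (L'.take 3) + lam') + Cx ∧
      (InS R (L'.drop i) (R z) X₂ → InS R L' N X') := by
  obtain ⟨t₁, t₂, t₃, L, rfl, hL⟩ : ∃ t₁ t₂ t₃ L, L' = t₁ :: t₂ :: t₃ :: L ∧ L ≠ [] := by
    match L', hlen with
    | q₁ :: q₂ :: q₃ :: q₄ :: L, _ => exact ⟨q₁, q₂, q₃, q₄ :: L, rfl, by simp⟩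
  have e : (t₁ :: t₂ :: t₃ :: L).take 3 = [t₁, t₂, t₃] := by simp
  rw [e] at hSt hw' ⊢
  have hN : NoDs K₀ [t₁, t₂, t₃] L := ClsF.noDs (L := L) (gr := [t₁, t₂, t₃]) (by simpa using hcl) hL
  have hqt : inS [t₁, t₂, t₃] ≤ Pc := by
    have h1 : inS [t₁, t₂, t₃] ≤ inS (t₁ :: t₂ :: t₃ :: L) := by
      rw [← e]
      exact inS_take_le _ _
    omega
  have hCb1 := nc.Cb1
  have hsm : ((w' + 0 + inS [t₁, t₂, t₃] + lam' : ℕ) : ℝ) ≤ δx * X'.card := by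
    have h1 : w' + 0 + inS [t₁, t₂, t₃] + lam' ≤ (A * Λ + 1 + 2 * Λ) * Pc + (A * c₅ + c₆ + C₅ + 17 * B₂) := by
      have h2 : Λ * inS [t₁, t₂, t₃] ≤ Λ * Pc := Nat.mul_le_mul_left _ hqt
      have h3 : A * (Λ * inS [t₁, t₂, t₃] + c₅) ≤ A * (Λ * Pc + c₅) := Nat.mul_le_mul_left _ (by omega)
      have h4 : (A * Λ + 1 + 2 * Λ) * Pc + (A * c₅ + c₆ + C₅ + 17 * B₂) =
        A * (Λ * Pc + c₅) + c₆ + Pc + (2 * Λ * Pc + C₅ + 17 * B₂) := by ring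
      omega
    have h2 : ((w' + 0 + inS [t₁, t₂, t₃] + lam' : ℕ) : ℝ) ≤
        (A * Λ + 1 + 2 * Λ) * Pc + (A * c₅ + c₆ + C₅ + 17 * B₂ : ℕ) := by exact_mod_cast h1
    have hZ0 : (0 : ℝ) ≤ (szS (t₁ :: t₂ :: t₃ :: L) + c : ℕ) := Nat.cast_nonneg _
    have h3 := mul_le_mul_of_nonneg_left hP (by positivity : (0 : ℝ) ≤ 2 * (A * Λ + 1 + 2 * Λ))
    have h4 := mul_le_mul_of_nonneg_right nc.x5 hZ0
    have h5 := nc.x6
    have hδ0 : 0 ≤ δx := by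
      have h6 : 0 ≤ 2 * (A * Λ + 1 + 2 * Λ) * g * ξ' := mul_nonneg (by positivity) nc.ξ0
      linarith [nc.x5]
    have h6 : δx * (Cb : ℝ) ≤ δx * (szS (t₁ :: t₂ :: t₃ :: L) + c : ℕ) := by
      apply mul_le_mul_of_nonneg_left _ hδ0
      have : Cb ≤ szS (t₁ :: t₂ :: t₃ :: L) + c := by omega
      exact_mod_cast this
    rw [hX']
    linarith [(by ring : 2 * (A * Λ + 1 + 2 * Λ) * g * ξ' * ((szS (t₁ :: t₂ :: t₃ :: L) + c : ℕ) : ℝ) =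
      2 * (A * Λ + 1 + 2 * Λ) * (ξ' * g * ((szS (t₁ :: t₂ :: t₃ :: L) + c : ℕ) : ℝ)))]
  obtain ⟨w₂, hw₂, L₂, X₂, z, h4, -, h6, h7, h8⟩ := hX hT X' E N (Λ * inS [t₁, t₂, t₃] + Cx) 0 w' lamE lam' t₁ t₂ t₃ L hSt
    (Or.inr (by omega)) hcl.br hL hN le_rfl hsm (by omega) (by omega)
  rcases h4 with rfl | rfl | rfl
  · exact ⟨1, X₂, z, w₂, le_rfl, by omega, by simp only [List.drop_succ_cons, List.drop_zero]; omega, h7, hw₂,
      by simpa using h8⟩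
  · exact ⟨2, X₂, z, w₂, by omega, by omega, by simp only [List.drop_succ_cons, List.drop_zero]; omega, h7, hw₂,
      by simpa using h8⟩
  · exact ⟨3, X₂, z, w₂, by omega, le_rfl, by simp only [List.drop_succ_cons, List.drop_zero]; omega, h7, hw₂,
      by simpa using h8⟩

/-- **From a critical group to a critical group** -/
theorem crit_step (nc : NumC ξ ξ' ξc δx ζ Λ A p Λ₂ Λ₃ c₂ c₄ c₅ c₆ c₇ Cc C₀ C₂ Cx K₂ g C₅ B₂ Cb)
    (hB : CritB CS b l K₀ Λ p A Nn ζ ξc Cc C₀ C₂) {V : Type}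
    {R : V → V → Prop} (hT : AE32.Tour R) {L : List (Fd × Fd)} {P X : Finset V} {ys : List V} {y : V}
    {gr : List (Fd × Fd)} {w c : ℕ}
    (h : CPos CS b l ξ' Λ₂ c₂ p Λ₃ c₄ Cc C₀ C₂ Nn Cb R L P X ys y gr w c) (hcl : ClsF b l K₀ 0 8 B θ L)
    {k₁ k₂ k₃ k₄ : Fd × Fd} {gr' L' : List (Fd × Fd)} (hL : L = k₁ :: k₂ :: k₃ :: k₄ :: (gr' ++ L')) (hne : L' ≠ [])
    (hgr : gr' ≠ []) (hlen : gr'.length ≤ Nn) (hg : szS L + c ≤ g * (szS L' + c))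
    (hcrit : (p + 1) * (Λ₃ * inS L' + c₄) ≤ inS gr')
    (hsmall : inS gr' ≤ B₂ ∨ ((4 * inS gr' : ℕ) : ℝ) ≤ ξ * (szS L + c : ℕ)) :
    ∃ (P' X' : Finset V) (ys' : List V) (y' : V) (w' : ℕ),
      CPos CS b l ξ' Λ₂ c₂ p Λ₃ c₄ Cc C₀ C₂ Nn Cb R L' P' X' ys' y' gr' w' c ∧
      (PGoal R ys' gr' y' L' (P' ∪ X') → PGoal R ys gr y L (P ∪ X)) := by
  obtain ⟨n1, n2, n3, n4, n5⟩ := crit_num nc h hg
  have htk : inS (L.take 4) = inS [k₁, k₂, k₃, k₄] := by rw [hL, take4]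
  have hsum : inS L = inS [k₁, k₂, k₃, k₄] + inS gr' + inS L' := by rw [hL, inS_fourL]
  have hlo := h.lo
  have hhi := h.hi
  have hsize := h.size
  have hwC := h.wC
  have hcb := h.cb
  have hCb1 := nc.Cb1
  rw [htk] at hlo hhi
  rw [hL] at hsize
  have e3 := nc.a3
  have e4 := nc.a4
  have e5 := nc.a5
  have e7 := nc.a7
  have hp1 : 2 * inS L + c₂ + c₇ + 2 * Cc + C₀ ≤ inS gr := by
    have h1 : 1 * (2 * inS L + c₂ + c₇ + 2 * Cc + C₀) ≤ (p + 1) * (2 * inS L + c₂ + c₇ + 2 * Cc + C₀) :=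
      Nat.mul_le_mul_right _ (by omega)
    omega
  -- the mass behind the new group is small
  have ht4 : inS (L'.take 4) ≤ inS L' := inS_take_le _ _
  have hq2 : Λ₂ * inS L' + inS L' + c₂ + c₇ + 2 * Cc + C₀ ≤ Λ₃ * inS L' + c₄ := by
    have h1 : (Λ₂ + 1) * inS L' ≤ Λ₃ * inS L' := Nat.mul_le_mul_right _ (by have := nc.a6; omega)
    have h2 : (Λ₂ + 1) * inS L' = Λ₂ * inS L' + inS L' := by ring
    omega
  have hq3 : (p + 1) * (Λ₂ * inS L' + inS L' + c₂ + c₇ + 2 * Cc + C₀) ≤ inS gr' :=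
    (Nat.mul_le_mul_left _ hq2).trans hcrit
  have hq4 : Λ₂ * inS L' + inS L' + c₂ + c₇ + 2 * Cc + C₀ ≤ inS gr' := by
    have h1 : 1 * (Λ₂ * inS L' + inS L' + c₂ + c₇ + 2 * Cc + C₀) ≤
        (p + 1) * (Λ₂ * inS L' + inS L' + c₂ + c₇ + 2 * Cc + C₀) := Nat.mul_le_mul_right _ (by omega)
    omega
  have hΛ₂ : 2 * Λ ≤ Λ₂ := by
    have h1 : Λ * 2 ≤ Λ * (1 + (A + 2) * Λ) := by
      apply Nat.mul_le_mul_left
      have h2 : 1 * 1 ≤ (A + 2) * Λ := Nat.mul_le_mul (by omega) nc.Λ1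
      omega
    have := nc.a1
    omega
  have hcap : Λ * (inS [k₁, k₂, k₃, k₄] + inS gr' + inS (L'.take 4) + (Λ₂ * inS L' + c₂) + 2 * Cc + 0 + C₀) + Cc ≤
      Λ₂ * inS L + c₂ := by
    have h1 : Λ * (inS [k₁, k₂, k₃, k₄] + inS gr' + inS (L'.take 4) + (Λ₂ * inS L' + c₂) + 2 * Cc + 0 + C₀) ≤
        Λ * (2 * inS L) := Nat.mul_le_mul_left _ (by omega)
    have h2 : Λ * (2 * inS L) = 2 * Λ * inS L := by ring
    have h3 : 2 * Λ * inS L ≤ Λ₂ * inS L := Nat.mul_le_mul_right _ hΛ₂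
    have h4 := nc.a2
    omega
  have hΛp : p * (inS [k₁, k₂, k₃, k₄] + inS gr' + inS (L'.take 4) + (Λ₂ * inS L' + c₂) + C₀ + Cc) ≤ P.card := by
    have h1 : p * (inS [k₁, k₂, k₃, k₄] + inS gr' + inS (L'.take 4) + (Λ₂ * inS L' + c₂) + C₀ + Cc) ≤
        (p + 1) * (2 * inS L + c₂ + c₇ + 2 * Cc + C₀) := Nat.mul_le_mul (by omega) (by omega)
    omega
  have halt : p * ((Λ₂ * inS L' + c₂) + 0 + C₀ + Cc) ≤ inS gr' ∧ inS (L'.take 4) ≤ Λ₂ * inS L' + c₂ := by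
    refine ⟨le_trans (Nat.mul_le_mul (by omega) (by omega)) hq3, ?_⟩
    have h1 : 1 * inS L' ≤ Λ₂ * inS L' := Nat.mul_le_mul_right _ (by have := nc.Λ1; omega)
    omega
  have hΛw : Λ * w + Cc ≤ inS gr' + C₀ := by
    have h1 : Λ * w ≤ Λ * Cc := Nat.mul_le_mul_left _ hwC
    omega
  obtain ⟨P', X', ys', y', w', hw', hP', hX', hcs', hlen', hlo', hhi', hsz', hback⟩ := hB hT P X ys y w
    (Λ₂ * inS L + c₂) (2 * Cc) 0 (Λ₂ * inS L' + c₂) (2 * Cc) (inS (L'.take 4)) C₀ c k₁ k₂ k₃ k₄ gr gr' L' h.cs h.len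
    (fun q hq => by
      rcases List.mem_append.1 hq with hq | hq
      · exact h.br q hq
      · exact hcl.br q (by rw [hL]; exact hq)) h.ne h.lenN hgr hlen hne
    (by
      apply ClsF.noDs (l := l) (b := b) (K₂ := 0) (N₁ := 8) (B := B) (θ := θ) _ hne
      rw [hL] at hcl
      simpa using hcl) (by omega) le_rfl (by omega) (by omega) (by omega) n3 hcap hΛp (Or.inl halt) hΛw
    (by omega) (by
      have h1 := n4 0 (by omega)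
      refine le_trans ?_ h1
      have h2 : P.card + 0 + 2 * Cc ≤ P.card + (Λ * 0 + c₅) + (A * (Λ * 0 + c₅) + c₆) := by omega
      exact_mod_cast h2)
  refine ⟨P', X', ys', y', w', ⟨hcs', hlen', fun q hq => hcl.br q (by rw [hL]; simp [hq]), hgr, hlen, hlo', hhi', hsz',
    hcrit, by omega, hcb, ?_⟩, ?_⟩
  · -- the new part is small
    have h1 : P'.card ≤ 2 * inS gr' + (C₀ + C₂) := by omega
    have h2 : (P'.card : ℝ) ≤ 2 * (inS gr' : ℕ) + (C₀ + C₂ : ℕ) := by exact_mod_cast h1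
    have h3 := nc.x8
    have hZ0 : (0 : ℝ) ≤ (szS L' + c : ℕ) := Nat.cast_nonneg _
    have h4 : ξ' * (Cb : ℝ) ≤ ξ' * (szS L' + c : ℕ) := by
      apply mul_le_mul_of_nonneg_left _ nc.ξ0
      have : Cb ≤ szS L' + c := by omega
      exact_mod_cast this
    push_cast at h3
    rcases hsmall with h5 | h5
    · have h6 : ((inS gr' : ℕ) : ℝ) ≤ B₂ := by exact_mod_cast h5
      have h7 : (0 : ℝ) ≤ ξ' * (szS L' + c : ℕ) := mul_nonneg nc.ξ0 hZ0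
      push_cast at h2
      linarith
    · have h6 : ((szS L + c : ℕ) : ℝ) ≤ g * (szS L' + c : ℕ) := by exact_mod_cast hg
      by_cases hξ : 0 ≤ ξ
      · have h7 := mul_le_mul_of_nonneg_left h6 hξ
        have h8 := mul_le_mul_of_nonneg_right nc.x7 hZ0
        push_cast at h2 h5 h7 h8
        have h9 : (0 : ℝ) ≤ B₂ := Nat.cast_nonneg _
        push_cast at h4 ⊢
        linarith
      · rw [not_le] at hξ
        have h7 : ξ * ((szS L + c : ℕ) : ℝ) ≤ 0 := mul_nonpos_of_nonpos_of_nonneg hξ.le (Nat.cast_nonneg _)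
        push_cast at h2 h5 h7
        have h9 : (0 : ℝ) ≤ B₂ := Nat.cast_nonneg _
        have h10 : (0 : ℝ) ≤ ξ' * (szS L' + c : ℕ) := mul_nonneg nc.ξ0 hZ0
        push_cast at h4 h10 ⊢
        linarith
  · intro hI
    rw [hL]
    exact hback hI

end

end AEG
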