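import Pool.Agent.AEG.ClusterA

/-!
# The cluster round: glue
-/

set_option autoImplicit false

namespace AEG

open Finset AE15 AED AEB SPD
open scoped Classical

/-- concatenation of three lists -/
theorem embAllB_cat3 {V : Type} {R : V → V → Prop} {o₁ o₂ o₃ : List (V × Fd)} {S₁ S₂ S₃ : Finset V}
    (h1 : EmbAllB R o₁ S₁) (h2 : EmbAllB R o₂ S₂) (h3 : EmbAllB R o₃ S₃) (d12 : Disjoint S₁ S₂) (d13 : Disjoint S₁ S₃)
    (d23 : Disjoint S₂ S₃) : EmbAllB R (o₁ ++ (o₂ ++ o₃)) (S₁ ∪ (S₂ ∪ S₃)) :=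
  embAllB_append.2 ⟨S₁, S₂ ∪ S₃, disjoint_union_right.2 ⟨d12, d13⟩, rfl, h1, embAllB_append.2 ⟨S₂, S₃, d23, rfl, h2, h3⟩⟩

/-- **Glue**: the embedded part of the line and the state behind its last host `z` give the next state -/
theorem nxt_glue {T : Type} {R : T → T → Prop} {κ η s : ℝ} {lam sig K w C : ℕ} {os₀ : List (T × (Fd × Fd))} {z v : T}
    {q : Fd × Fd} {L' : List (Fd × Fd)} {Nn : T → Prop} {X₀ Y' V' SA SD : Finset T}
    (h1 : ((os₀ ++ [(z, q)]).map Prod.fst).Nodup) (h2 : ((os₀ ++ [(z, q)]).map Prod.fst).IsChain R)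
    (h3 : EmbAllB (rv R) ((os₀ ++ [(z, q)]).map (fun p => (p.1, p.2.1))) SA)
    (h4 : EmbAllB R ((os₀ ++ [(z, q)]).map (fun p => (p.1, p.2.2))) SD) (h5 : Disjoint SA SD)
    (h6 : ∀ p ∈ os₀ ++ [(z, q)], p.1 ∉ SA ∧ p.1 ∉ SD)
    (hv : ((os₀ ++ [(z, q)]).map Prod.fst).head? = some v) (hN : Nn v)
    (hX : ((os₀ ++ [(z, q)]).map Prod.fst).toFinset ∪ (SA ∪ SD) ⊆ X₀) (hL' : L' ≠ [])
    (hsz : szS ((os₀ ++ [(z, q)]).map Prod.snd ++ L') + C ≤ X₀.card) (hSt : StM R Y' V' (R z) κ η s lam sig K)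
    (hYV : Y' ∪ V' = X₀ \ (((os₀ ++ [(z, q)]).map Prod.fst).toFinset ∪ (SA ∪ SD)))
    (hw : (V' \ low R sig (Y' ∪ V')).card ≤ w) :
    Nxt R κ η s lam sig K w ((os₀ ++ [(z, q)]).map Prod.snd ++ L') Nn X₀ L' C := by
  obtain ⟨os, hos⟩ : ∃ os, os = os₀ ++ [(z, q)] := ⟨_, rfl⟩
  have hlast : os.getLast? = some (z, q) := by rw [hos, List.getLast?_concat]
  rw [← hos] at h1 h2 h3 h4 h6 hv hX hsz hYV ⊢
  have hne : os ≠ [] := by
    rintro rfl
    simp at hlast
  have hlast' : (os.getLast hne).1 = z := by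
    rw [List.getLast?_eq_getLast_of_ne_nil hne, Option.some_inj] at hlast
    rw [hlast]
  have hhead : (os.head hne).1 = v := by
    cases os with
    | nil => exact absurd rfl hne
    | cons x os => simpa using hv
  have hcard := card_used h3 h4
  refine ⟨hL', Y', V', z, hSt, hw, ?_, ?_, ?_⟩
  · have h7 : X₀.card = (X₀ \ ((os.map Prod.fst).toFinset ∪ (SA ∪ SD))).card +
        ((os.map Prod.fst).toFinset ∪ (SA ∪ SD)).card := (card_sdiff_add_card_eq_card hX).symm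
    have h8 : szS (os.map Prod.snd ++ L') = szS (os.map Prod.snd) + szS L' := by simp [szS]
    rw [hYV]
    omega
  · rw [hYV]
    exact sdiff_subset
  · rintro ⟨y, hy, hzy, S, hS, hyS, hE⟩
    rw [hYV] at hy hS
    have hd : Disjoint (insert y S) ((os.map Prod.fst).toFinset ∪ (SA ∪ SD)) := by
      rw [disjoint_left]
      intro x hx
      rcases mem_insert.1 hx with rfl | hx
      · exact (mem_sdiff.1 hy).2
      · exact (mem_sdiff.1 (hS hx)).2
    have hmain := embS_chain hne h1 h2 h3 h4 h5 h6 (T := insert y S) (L' := L')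
      (Or.inr ⟨y, S, hyS, rfl, by rw [hlast']; exact hzy, hE⟩) hd
    rw [hhead] at hmain
    have hvm : v ∈ (os.map Prod.fst).toFinset := by
      rw [List.mem_toFinset]
      exact List.mem_of_head? hv
    refine ⟨v, hX (mem_union_left _ hvm), hN, _, ?_, notMem_erase _ _, hmain⟩
    refine (erase_subset _ _).trans (union_subset hX ?_)
    intro x hx
    rcases mem_insert.1 hx with rfl | hx
    · exact (mem_sdiff.1 hy).1
    · exact (mem_sdiff.1 (hS hx)).1

end AEG
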