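import Pool.Agent.AECut.CutS2
import Pool.Agent.AEM.Order

/-!
# Group cuts: the median cut of a set
-/

set_option autoImplicit false

namespace AEG

open Finset AE15 SPD
open scoped Classical

variable {V : Type*} {R : V → V → Prop}

/-- one side of a group cut at the host `y`, in the ambient set `U`: all but `e` of the vertices of `P` are out-neighbours
of `y` or are dominated by out-neighbours of `y` which reach almost all of `P`, with a count -/
structure MSide (R : V → V → Prop) (U P : Finset V) (k t s τ : ℝ) (e : ℕ) (y : V) : Prop where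
  reach : Rea R U P k t y
  lin : s * P.card ≤ ((P.filter (fun w => R y w ∧ Rea R U P k t w)).card : ℝ)
  cnt : ∀ j : ℕ, (j : ℝ) ≤ τ * P.card →
    (P.filter (fun u => R u y ∧ (P.filter (fun w => R y w ∧ R w u ∧ Rea R U P k t w)).card ≤ j)).card ≤ 4 * j + e

/-- closed sets do not cross a median order -/
theorem med_closed (hT : AE32.Tour R) {Z U C Z₁ Z₂ : Finset V} {π : V → ℕ} (h : AEM.MedO R Z π) (hZU : Z ⊆ U)
    {κ₀ : ℝ} (h0 : 0 < κ₀) (hU : 0 < U.card) (hC : Closed R (κ₀ ^ 2 / 4) U C) (h1 : Z₁ ⊆ Z) (h2 : Z₂ ⊆ Z)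
    (h12 : ∀ a ∈ Z₁, ∀ b ∈ Z₂, π a < π b) :
    ((Z₁ ∩ C).card : ℝ) ≤ κ₀ * U.card ∨ ((Z₂ \ C).card : ℝ) ≤ κ₀ * U.card := by
  by_contra hcon
  push Not at hcon
  obtain ⟨hA, hB⟩ := hcon
  have hn0 : (0 : ℝ) < U.card := by exact_mod_cast hU
  have hApos : 0 < (Z₁ ∩ C).card := by
    have h3 : (0 : ℝ) < (Z₁ ∩ C).card := lt_of_le_of_lt (mul_nonneg h0.le hn0.le) hA
    exact_mod_cast h3
  obtain ⟨a₀, ha₀⟩ := card_pos.1 hApos
  have hne : (Z ∩ C).Nonempty := ⟨a₀, mem_inter.2 ⟨h1 (mem_inter.1 ha₀).1, (mem_inter.1 ha₀).2⟩⟩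
  obtain ⟨x, hx, hmin⟩ := exists_min_image (Z ∩ C) π hne
  rw [mem_inter] at hx
  set S := Z.filter (fun u => u ∉ C ∧ π x < π u) with hS
  have hSZ : S ⊆ Z := filter_subset _ _
  have hSm : ∀ {u}, u ∈ S ↔ u ∈ Z ∧ u ∉ C ∧ π x < π u := by
    intro u
    rw [hS, mem_filter]
  have hfront := h.front x hx.1 S hSZ (fun u hu => (hSm.1 hu).2.2)
  have hk : ∀ u ∈ S, ((Z.filter (fun w => w ∉ S ∧ π x ≤ π w ∧ π w < π u ∧ R w u)).card : ℝ) ≤
      κ₀ ^ 2 / 4 * U.card := by
    intro u hu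
    have hu' := hSm.1 hu
    refine le_trans ?_ (hC u (hZU hu'.1) hu'.2.1).le
    apply Nat.cast_le.2
    apply card_le_card
    intro w hw
    rw [mem_filter] at hw
    rw [mem_nI]
    refine ⟨?_, hw.2.2.2.2⟩
    by_contra hwC
    apply hw.2.1
    rw [hSm]
    refine ⟨hw.1, hwC, lt_of_le_of_ne hw.2.2.1 (fun e => ?_)⟩
    exact hwC ((h.inj x hx.1 w hw.1 e) ▸ hx.2)
  have hBS : Z₂ \ C ⊆ S := by
    intro u hu
    rw [mem_sdiff] at hu
    rw [hSm]
    refine ⟨h2 hu.1, hu.2, ?_⟩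
    exact lt_of_le_of_lt (hmin a₀ (mem_inter.2 ⟨h1 (mem_inter.1 ha₀).1, (mem_inter.1 ha₀).2⟩))
      (h12 a₀ (mem_inter.1 ha₀).1 u hu.1)
  have hAB : ∀ u ∈ Z₂ \ C, (Z₁ ∩ C).card ≤
      (Z.filter (fun w => w ∉ S ∧ π x ≤ π w ∧ π w < π u ∧ R u w)).card +
      (Z.filter (fun w => w ∉ S ∧ π x ≤ π w ∧ π w < π u ∧ R w u)).card := by
    intro u hu
    have hu' := mem_sdiff.1 hu
    refine le_trans (card_le_card ?_) (card_union_le _ _)
    intro a ha
    have ha' := mem_inter.1 ha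
    have haZ := h1 ha'.1
    have h3 : a ∉ S := fun h' => (hSm.1 h').2.1 ha'.2
    have h4 := hmin a (mem_inter.2 ⟨haZ, ha'.2⟩)
    have h5 := h12 a ha'.1 u hu'.1
    have h6 : u ≠ a := by
      rintro rfl
      exact lt_irrefl _ h5
    rw [mem_union]
    rcases hT.tot u a h6 with h7 | h7
    · exact Or.inl (mem_filter.2 ⟨haZ, h3, h4, h5, h7⟩)
    · exact Or.inr (mem_filter.2 ⟨haZ, h3, h4, h5, h7⟩)
  have h3 : (Z₂ \ C).card * (Z₁ ∩ C).card ≤
      ∑ u ∈ S, (Z.filter (fun w => w ∉ S ∧ π x ≤ π w ∧ π w < π u ∧ R u w)).card +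
      ∑ u ∈ S, (Z.filter (fun w => w ∉ S ∧ π x ≤ π w ∧ π w < π u ∧ R w u)).card := by
    rw [← sum_add_distrib]
    refine le_trans ?_ (sum_le_sum_of_subset hBS)
    rw [← smul_eq_mul]
    exact card_nsmul_le_sum _ _ _ hAB
  have h4 : ((Z₂ \ C).card : ℝ) * (Z₁ ∩ C).card ≤
      2 * ∑ u ∈ S, ((Z.filter (fun w => w ∉ S ∧ π x ≤ π w ∧ π w < π u ∧ R w u)).card : ℝ) := by
    have h5 : (Z₂ \ C).card * (Z₁ ∩ C).card ≤
        2 * ∑ u ∈ S, (Z.filter (fun w => w ∉ S ∧ π x ≤ π w ∧ π w < π u ∧ R w u)).card := by omega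
    exact_mod_cast h5
  have h5 : ∑ u ∈ S, ((Z.filter (fun w => w ∉ S ∧ π x ≤ π w ∧ π w < π u ∧ R w u)).card : ℝ) ≤
      U.card * (κ₀ ^ 2 / 4 * U.card) := by
    refine (sum_le_sum hk).trans ?_
    rw [sum_const, nsmul_eq_mul]
    refine mul_le_mul_of_nonneg_right ?_ (by positivity)
    exact_mod_cast card_le_card (hSZ.trans hZU)
  have h6 : (κ₀ * U.card) * (κ₀ * U.card) < ((Z₂ \ C).card : ℝ) * (Z₁ ∩ C).card := by
    apply mul_lt_mul'' hB hA <;> positivity
  have h7 : 0 < (κ₀ * U.card) * (κ₀ * U.card) := by positivity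
  nlinarith

/-- **One side of a median cut** -/
theorem mside (hT : AE32.Tour R) {κ₀ s₀ t s τ : ℝ} {U U₀ Z Zg Sk Ex P : Finset V} {π : V → ℕ} {y : V} {e₁ e₂ : ℕ}
    (h0 : 0 < κ₀) (hUc : 1 ≤ κ₀ * U.card) (hU₀ : U₀ ⊆ U)
    (hstr : ∀ z ∈ U, z ∉ U₀ → ((nO R U₀ z).card : ℝ) < κ₀ * U.card)
    (hcl : ∀ C ⊆ U, Closed R (κ₀ ^ 2 / 4) U C → 2 * κ₀ * U.card ≤ ((U₀ ∩ C).card : ℝ) →
      U \ U₀ ⊆ C ∧ ((U₀ \ C).card : ℝ) < s₀)
    (hZ : AECut.base R κ₀ U U₀ = Z) (hmed : AEM.MedO R Z π) (hy : y ∈ Z) (hgZ : Zg ⊆ Z)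
    (hg : ∀ a ∈ Z, a ∉ Zg → ∀ b ∈ Zg, π a < π b) (hyg : y ∉ Zg) (hEx : ∀ w ∈ Z, π y < π w → w ∈ Zg ∨ w ∈ Ex)
    (he₁ : Ex.card ≤ e₁) (hSk : Sk ⊆ Z) (he₂ : Sk.card ≤ e₂) (hP : P = Zg ∪ (Sk ∪ (U \ Z)))
    (ht1 : 5 * κ₀ * U.card + e₂ + 1 ≤ t) (ht2 : (P.card : ℝ) + s₀ + κ₀ * U.card ≤ U.card + t)
    (hs : 2 * s * P.card + 2 * e₁ ≤ (Zg.card : ℝ)) (hτ : 2 * τ * P.card + 2 * e₁ + 4 * κ₀ * U.card < (Zg.card : ℝ)) :
    MSide R U P (κ₀ ^ 2 / 4 * U.card) t s τ (4 * e₁ + e₂) y := by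
  have hUpos : 0 < U.card := by
    rcases Nat.eq_zero_or_pos U.card with h | h
    · rw [h] at hUc
      norm_num at hUc
    · exact h
  have hκn : 0 ≤ κ₀ * U.card := by positivity
  have hbU₀ : Z ⊆ U₀ := by
    rw [← hZ]
    exact AECut.base_sub
  have hZU : Z ⊆ U := hbU₀.trans hU₀
  have hfew : ∀ u ∈ U, u ∉ Z → ((nO R U₀ u).card : ℝ) ≤ 2 * κ₀ * U.card := by
    intro u hu hu'
    exact AECut.few_of_notMem_base h0.le hstr hu (by rw [hZ]; exact hu')
  have hPU : P ⊆ U := by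
    rw [hP]
    exact union_subset (hgZ.trans hZU) (union_subset (hSk.trans hZU) sdiff_subset)
  -- the vertices of `Z` are good
  have hrea : ∀ w ∈ Z, Rea R U P (κ₀ ^ 2 / 4 * U.card) t w := by
    intro w hw
    apply AECut.OG.rea
    intro C hCU hwC hC
    have hUC : 2 * κ₀ * U.card ≤ ((U₀ ∩ C).card : ℝ) := by
      rw [← hZ] at hw
      refine (AECut.mem_base.1 hw).2.trans ?_
      have : nO R U₀ w ⊆ U₀ ∩ C := by
        intro v hv
        rw [mem_nO] at hv
        exact mem_inter.2 ⟨hv.1, hwC (mem_nO.2 ⟨hU₀ hv.1, hv.2⟩)⟩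
      exact_mod_cast card_le_card this
    obtain ⟨hU₀C, hs₀⟩ := hcl C hCU hC hUC
    have hE : (((U \ Z) \ C).card : ℝ) ≤ 4 * κ₀ * U.card + 1 := by
      have h2 : (U \ Z) \ C ⊆ U₀.filter (fun u => ((nO R U₀ u).card : ℝ) < 2 * κ₀ * U.card) := by
        intro u hu
        rw [mem_sdiff, mem_sdiff] at hu
        rw [mem_filter]
        have hu0 : u ∈ U₀ := by
          by_contra hc
          exact hu.2 (hU₀C (mem_sdiff.2 ⟨hu.1.1, hc⟩))
        refine ⟨hu0, ?_⟩
        by_contra hc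
        push Not at hc
        apply hu.1.2
        rw [← hZ]
        exact AECut.mem_base.2 ⟨hu0, hc⟩
      have h3 := AECut.card_few hT U₀ (k := 2 * κ₀ * U.card) (by positivity)
      have h4 : (((U \ Z) \ C).card : ℝ) ≤
          ((U₀.filter (fun u => ((nO R U₀ u).card : ℝ) < 2 * κ₀ * U.card)).card : ℝ) := by
        exact_mod_cast card_le_card h2
      linarith
    rcases med_closed hT hmed hZU h0 hUpos hC (Z₁ := Z \ Zg) (Z₂ := Zg) sdiff_subset hgZ
      (fun a ha b hb => hg a (mem_sdiff.1 ha).1 (mem_sdiff.1 ha).2 b hb) with h3 | h3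
    · have h2 : (U.card : ℝ) - s₀ < C.card := by
        have h3 : U \ C ⊆ U₀ \ C := by
          intro u hu
          rw [mem_sdiff] at hu ⊢
          refine ⟨?_, hu.2⟩
          by_contra hc
          exact hu.2 (hU₀C (mem_sdiff.2 ⟨hu.1, hc⟩))
        have h4 : ((U \ C).card : ℝ) ≤ (U₀ \ C).card := by exact_mod_cast card_le_card h3
        have h5 : ((U \ C).card : ℝ) + C.card = U.card := by
          exact_mod_cast card_sdiff_add_card_eq_card hCU
        linarith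
      have h4 : C ⊆ (P ∩ C) ∪ ((Z \ Zg) ∩ C) := by
        intro u hu
        have huU := hCU hu
        rw [hP]
        simp only [mem_union, mem_inter, mem_sdiff]
        tauto
      have h5 : (C.card : ℝ) ≤ (P ∩ C).card + ((Z \ Zg) ∩ C).card := by
        exact_mod_cast (card_le_card h4).trans (card_union_le _ _)
      have h6 : ((P \ C).card : ℝ) + (P ∩ C).card = P.card := by
        exact_mod_cast card_sdiff_add_card_inter _ C
      linarith
    · have h4 : P \ C ⊆ (Zg \ C) ∪ (Sk ∪ ((U \ Z) \ C)) := by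
        intro u hu
        rw [hP] at hu
        simp only [mem_union, mem_sdiff] at hu ⊢
        tauto
      have h5 := (card_le_card h4).trans ((card_union_le _ _).trans (Nat.add_le_add_left (card_union_le _ _) _))
      have h6 : ((P \ C).card : ℝ) ≤ (Zg \ C).card + (Sk.card + ((U \ Z) \ C).card) := by exact_mod_cast h5
      have h7 : (Sk.card : ℝ) ≤ e₂ := by exact_mod_cast he₂
      linarith
  -- the out-degree of `y`
  have hdeg : Zg.card ≤ 2 * (nO R Zg y).card + 2 * e₁ := by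
    have h1 := hmed.outdeg hT hy
    have h2 : Zg.card ≤ Z.card - 1 - π y := by
      have h3 := hmed.card_seg (a := π y + 1) (b := Z.card) le_rfl
      have h4 : Zg ⊆ Z.filter (fun w => π y + 1 ≤ π w ∧ π w < Z.card) := by
        intro w hw
        rw [mem_filter]
        exact ⟨hgZ hw, hg y hy hyg w hw, hmed.lt w (hgZ hw)⟩
      have h5 := card_le_card h4
      omega
    have h3 : (Z.filter (fun w => π y < π w ∧ R y w)).card ≤ (nO R Zg y).card + e₁ := by
      have h4 : Z.filter (fun w => π y < π w ∧ R y w) ⊆ nO R Zg y ∪ Ex := by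
        intro w hw
        rw [mem_filter] at hw
        rw [mem_union, mem_nO]
        rcases hEx w hw.1 hw.2.1 with h5 | h5
        · exact Or.inl ⟨h5, hw.2.2⟩
        · exact Or.inr h5
      have h5 := (card_le_card h4).trans (card_union_le _ _)
      omega
    omega
  have hdegR : (Zg.card : ℝ) ≤ 2 * ((nO R Zg y).card : ℝ) + 2 * e₁ := by exact_mod_cast hdeg
  have hZgP : Zg ⊆ P := by
    rw [hP]
    exact subset_union_left
  refine ⟨hrea y hy, ?_, ?_⟩
  · have h1 : ((nO R Zg y).card : ℝ) ≤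
        ((P.filter (fun w => R y w ∧ Rea R U P (κ₀ ^ 2 / 4 * U.card) t w)).card : ℝ) := by
      apply Nat.cast_le.2
      apply card_le_card
      intro w hw
      rw [mem_nO] at hw
      rw [mem_filter]
      exact ⟨hZgP hw.1, hw.2, hrea w (hgZ hw.1)⟩
    linarith
  · intro j hj
    obtain ⟨D, hD⟩ : ∃ D : V → Finset V, D = fun u =>
      P.filter (fun w => R y w ∧ R w u ∧ Rea R U P (κ₀ ^ 2 / 4 * U.card) t w) := ⟨_, rfl⟩
    have hDg : ∀ u, nI R (nO R Zg y) u ⊆ D u := by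
      intro u w hw
      rw [mem_nI, mem_nO] at hw
      rw [hD]
      simp only [mem_filter]
      exact ⟨hZgP hw.1.1, hw.1.2, hw.2, hrea w (hgZ hw.1.1)⟩
    have h1 : P.filter (fun u => R u y ∧ (D u).card ≤ j) ⊆
        Z.filter (fun u => π y < π u ∧ R u y ∧ (AEM.btw R Z π y u).card ≤ j + e₁) ∪ Sk := by
      intro u hu
      rw [mem_filter, hP, mem_union, mem_union] at hu
      obtain ⟨hu1, hu2, hu3⟩ := hu
      rw [mem_union, mem_filter]
      rcases hu1 with hu1 | hu1 | hu1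
      · left
        refine ⟨hgZ hu1, hg y hy hyg u hu1, hu2, ?_⟩
        have h2 : AEM.btw R Z π y u ⊆ D u ∪ Ex := by
          intro w hw
          rw [AEM.mem_btw] at hw
          rw [mem_union]
          rcases hEx w hw.1 hw.2.1 with h5 | h5
          · exact Or.inl (hDg u (mem_nI.2 ⟨mem_nO.2 ⟨h5, hw.2.2.2.1⟩, hw.2.2.2.2⟩))
          · exact Or.inr h5
        have h3 := (card_le_card h2).trans (card_union_le _ _)
        omega
      · exact Or.inr hu1
      · exfalso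
        rw [mem_sdiff] at hu1
        have h2 : (nO R Zg y).card ≤ (nI R (nO R Zg y) u).card + (nO R U₀ u).card := by
          have h3 := card_nO_add_nI hT (X := nO R Zg y) (v := u) (fun h' => hu1.2 (hgZ (nO_sub h')))
          have h4 : (nO R (nO R Zg y) u).card ≤ (nO R U₀ u).card :=
            card_le_card (nO_mono (nO_sub.trans (hgZ.trans hbU₀)))
          omega
        have h3 := card_le_card (hDg u)
        have h4 := hfew u hu1.1 hu1.2
        have h5 : ((nO R Zg y).card : ℝ) ≤ (D u).card + (nO R U₀ u).card := by exact_mod_cast h2.trans (by omega)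
        have h6 : ((D u).card : ℝ) ≤ j := by exact_mod_cast hu3
        linarith
    have h2 := hmed.few hT hy (j + e₁)
    have h3 := (card_le_card h1).trans (card_union_le _ _)
    simp only [hD] at h3
    omega

theorem MSide.mono {U P : Finset V} {k t s τ : ℝ} {e e' : ℕ} {y : V} (h : MSide R U P k t s τ e y) (he : e ≤ e') :
    MSide R U P k t s τ e' y :=
  ⟨h.reach, h.lin, fun j hj => (h.cnt j hj).trans (by omega)⟩

/-- a window of `N` consecutive places without elements of a small set -/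
theorem exists_window {Z Bd : Finset V} {π : V → ℕ} {a₀ N e : ℕ} (ha : N * e ≤ a₀) (hBd : Bd.card ≤ e) :
    ∃ a ≤ a₀, a₀ ≤ a + N * e ∧ ∀ w ∈ Z, a ≤ π w → π w < a + N → w ∉ Bd := by
  by_contra hcon
  push Not at hcon
  have h1 : ∀ k, k ≤ e → k * N ≤ a₀ := fun k hk => (Nat.mul_le_mul_right N hk).trans (by rw [Nat.mul_comm]; exact ha)
  have h2 : ∀ k, ∃ b, k ≤ e → b ∈ Bd ∧ a₀ - k * N ≤ π b ∧ π b < a₀ - k * N + N := by
    intro k
    by_cases hk : k ≤ e
    · obtain ⟨w, hw, h3, h4, h5⟩ := hcon (a₀ - k * N) (Nat.sub_le _ _) (by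
        have h3 := Nat.mul_le_mul_left N hk
        rw [Nat.mul_comm N k] at h3
        omega)
      exact ⟨w, fun _ => ⟨h5, h3, h4⟩⟩
    · obtain ⟨w, -⟩ := hcon a₀ le_rfl (by omega)
      exact ⟨w, fun h => absurd h hk⟩
  choose f hf using h2
  have h3 : (range (e + 1)).card ≤ Bd.card := by
    apply card_le_card_of_injOn f
    · intro k hk
      rw [coe_range, Set.mem_Iio] at hk
      exact mem_coe.2 (hf k (by omega)).1
    · intro k hk l hl hkl
      rw [coe_range, Set.mem_Iio] at hk hl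
      by_contra hne
      have key : ∀ k l, k < l → l ≤ e → f k = f l → False := by
        intro k l hkl hl h
        have h4 := hf k (by omega)
        have h5 := hf l hl
        rw [← h] at h5
        have h6 := Nat.mul_le_mul_right N (show k + 1 ≤ l from hkl)
        rw [Nat.add_mul, Nat.one_mul] at h6
        have h7 := h1 l hl
        omega
      rcases Nat.lt_or_gt_of_ne hne with h4 | h4
      · exact key k l h4 (by omega) hkl
      · exact key l k h4 (by omega) hkl.symm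
  rw [card_range] at h3
  omega

/-- **The median cut**: `U = P + ys + Z`, `|P| = p`, the hosts `ys` avoid `Bd` and form a path, every host has a good
in-side `P`, and a graded out-side `Z`; no exceptions for the out-side of the last host and the in-side of the first host
if `Bd` is empty (`e = 0`). -/
theorem medcut (hT : AE32.Tour R) {U Bd : Finset V} {p N e : ℕ} {κ₀ η : ℝ} (h0 : 0 < κ₀) (hη : 20 * κ₀ ≤ η)
    (hη1 : η ≤ 1 / 8) (hp : η * U.card ≤ p) (hpN : 8 + 4 * (N * (e + 1) : ℕ) ≤ κ₀ * p) (hU : p + N ≤ U.card)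
    (hBd : Bd.card ≤ e) :
    ∃ (P Z : Finset V) (ys : List V), ys.length = N ∧ ys.Nodup ∧ ys.IsChain R ∧ P ⊆ U ∧ Z ⊆ U ∧ Disjoint P Z ∧
      (∀ y ∈ ys, y ∈ U ∧ y ∉ P ∧ y ∉ Z ∧ y ∉ Bd) ∧ P.card = p ∧ P.card + N + Z.card = U.card ∧
      (∀ y ∈ ys, MSide (rv R) U P (κ₀ ^ 2 / 4 * U.card) (2 * η * U.card) (η / 8) (η / 8) (4 * (N * (e + 1))) y) ∧
      (∀ y ∈ ys.head?, MSide (rv R) U P (κ₀ ^ 2 / 4 * U.card) (2 * η * U.card) (η / 8) (η / 8) (N * e) y) ∧
      (∀ y ∈ ys, ∀ j : ℕ, (Z.filter (fun u => R u y ∧ (Z.filter (fun w => R y w ∧ R w u)).card ≤ j)).card ≤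
        4 * j + 4 * (N * (e + 1))) ∧
      (∀ y ∈ ys.getLast?, ∀ j : ℕ, (Z.filter (fun u => R u y ∧ (Z.filter (fun w => R y w ∧ R w u)).card ≤ j)).card ≤
        4 * j + 4 * (N * e)) := by
  obtain ⟨n, hnd⟩ : ∃ n : ℝ, n = (U.card : ℝ) := ⟨_, rfl⟩
  have hNe : N * (e + 1) = N * e + N := by ring
  have hpn : (p : ℝ) ≤ n := by
    rw [hnd]
    exact_mod_cast (show p ≤ U.card by omega)
  have hn0 : 0 ≤ n := by rw [hnd]; exact Nat.cast_nonneg _
  have hκp : κ₀ * p ≤ κ₀ * n := mul_le_mul_of_nonneg_left hpn h0.le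
  have hκ8 : κ₀ ≤ 1 / 160 := by linarith
  have hE : 8 + 4 * ((N * e : ℕ) : ℝ) + 4 * N ≤ κ₀ * n := by
    rw [hNe] at hpN
    push_cast at hpN ⊢
    linarith
  have hNe0 : (0 : ℝ) ≤ ((N * e : ℕ) : ℝ) := Nat.cast_nonneg _
  have hN0 : (0 : ℝ) ≤ N := Nat.cast_nonneg _
  have hηn : 20 * (κ₀ * n) ≤ η * n := by
    have := mul_le_mul_of_nonneg_right hη hn0
    linarith
  rw [← hnd] at hp
  -- the structure set
  obtain ⟨U₀, hU₀, hU₀c, hstr, hcl⟩ := AECut.struct_size (rv_tour hT) U (κ₀ := κ₀) (s := n - p + η * n) h0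
    (by linarith) (by rw [← hnd]; linarith) (by rw [← hnd]; linarith)
  obtain ⟨Z, hZ⟩ : ∃ Z, AECut.base (rv R) κ₀ U U₀ = Z := ⟨_, rfl⟩
  have hFc := AECut.card_sdiff_base (rv_tour hT) (κ₀ := κ₀) h0.le hU₀
  rw [hZ, ← hnd] at hFc
  have hZU : Z ⊆ U := by
    rw [← hZ]
    exact AECut.base_sub.trans hU₀
  have hFp : ((U \ Z).card : ℝ) ≤ p := by linarith
  have hFpn : (U \ Z).card ≤ p := by exact_mod_cast hFp
  have hFZ : (U \ Z).card + Z.card = U.card := card_sdiff_add_card_eq_card hZU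
  obtain ⟨a₀, ha₀⟩ : ∃ a₀ : ℕ, a₀ + (U \ Z).card = p := ⟨p - (U \ Z).card, by omega⟩
  have ha₀r : (a₀ : ℝ) + (U \ Z).card = p := by exact_mod_cast ha₀
  have ha₀1 : η * n - 4 * (κ₀ * n) - 1 ≤ a₀ := by linarith
  obtain ⟨π, hπ⟩ := AEM.exists_medO R Z
  have hπr : AEM.MedO (rv R) Z (fun u => Z.card - 1 - π u) := hπ.rev
  obtain ⟨a, haa, haN, hwin⟩ := exists_window (Z := Z) (π := π) (a₀ := a₀) (N := N) (e := e) (by
    have h1 : ((N * e : ℕ) : ℝ) ≤ a₀ := by linarith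
    exact_mod_cast h1) hBd
  have haz : a₀ + N ≤ Z.card := by omega
  obtain ⟨v₀, hv₀⟩ : U.Nonempty := by
    rw [← card_pos]
    have h1 : (0 : ℝ) < U.card := by
      rw [← hnd]
      by_contra hc
      push Not at hc
      have h2 : κ₀ * n ≤ 0 := mul_nonpos_of_nonneg_of_nonpos h0.le hc
      linarith
    exact_mod_cast h1
  have hg : ∀ t, ∃ u, t < Z.card → u ∈ Z ∧ π u = t := by
    intro t
    by_cases ht : t < Z.card
    · obtain ⟨u, hu, hut⟩ := hπ.exists_pos ht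
      exact ⟨u, fun _ => ⟨hu, hut⟩⟩
    · exact ⟨v₀, fun h => absurd h ht⟩
  choose g hg using hg
  have hgi : ∀ i < N, g (a + i) ∈ Z ∧ π (g (a + i)) = a + i := fun i hi => hg _ (by omega)
  obtain ⟨Zg, hZg⟩ : ∃ Zg, Zg = Z.filter (fun w => 0 ≤ π w ∧ π w < a) := ⟨_, rfl⟩
  obtain ⟨Sk, hSk⟩ : ∃ Sk, Sk = Z.filter (fun w => a + N ≤ π w ∧ π w < a₀ + N) := ⟨_, rfl⟩
  obtain ⟨Z₂, hZ₂⟩ : ∃ Z₂, Z₂ = Z.filter (fun w => a₀ + N ≤ π w ∧ π w < Z.card) := ⟨_, rfl⟩
  have hZgc : Zg.card = a := by rw [hZg, hπ.card_seg (by omega), Nat.sub_zero]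
  have hSkc : Sk.card = a₀ - a := by rw [hSk, hπ.card_seg (by omega)]; omega
  have hZ₂c : Z₂.card = Z.card - (a₀ + N) := by rw [hZ₂, hπ.card_seg le_rfl]
  have hZgm : ∀ {w}, w ∈ Zg ↔ w ∈ Z ∧ π w < a := by
    intro w
    rw [hZg, mem_filter]
    simp
  have hSkm : ∀ {w}, w ∈ Sk ↔ w ∈ Z ∧ a + N ≤ π w ∧ π w < a₀ + N := by
    intro w
    rw [hSk, mem_filter]
  have hZ₂m : ∀ {w}, w ∈ Z₂ ↔ w ∈ Z ∧ a₀ + N ≤ π w := by
    intro w
    rw [hZ₂, mem_filter]
    constructor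
    · rintro ⟨h1, h2, _⟩
      exact ⟨h1, h2⟩
    · rintro ⟨h1, h2⟩
      exact ⟨h1, h2, hπ.lt w h1⟩
  have hZgZ : Zg ⊆ Z := fun w hw => (hZgm.1 hw).1
  have hSkZ : Sk ⊆ Z := fun w hw => (hSkm.1 hw).1
  obtain ⟨P, hP⟩ : ∃ P, P = Zg ∪ (Sk ∪ (U \ Z)) := ⟨_, rfl⟩
  have hPm : ∀ {w}, w ∈ P ↔ w ∈ Zg ∨ w ∈ Sk ∨ w ∈ U \ Z := by
    intro w
    rw [hP, mem_union, mem_union]
  have hPc : P.card = p := by
    have h1 : (Sk ∪ (U \ Z)).card = Sk.card + (U \ Z).card := by
      apply card_union_of_disjoint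
      rw [disjoint_left]
      intro w h1 h2
      exact (mem_sdiff.1 h2).2 (hSkZ h1)
    have h2 : P.card = Zg.card + (Sk ∪ (U \ Z)).card := by
      rw [hP]
      apply card_union_of_disjoint
      rw [disjoint_left]
      intro w h1 h2
      rcases mem_union.1 h2 with h2 | h2
      · have h3 := hZgm.1 h1
        have h4 := hSkm.1 h2
        omega
      · exact (mem_sdiff.1 h2).2 (hZgZ h1)
    omega
  have hPr : (P.card : ℝ) = p := by exact_mod_cast hPc
  have hSkNe : Sk.card ≤ N * e := by omega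
  have hmain : ∀ i < N, MSide (rv R) U P (κ₀ ^ 2 / 4 * U.card) (2 * η * U.card) (η / 8) (η / 8) (4 * i + N * e)
      (g (a + i)) := by
    intro i hi
    obtain ⟨hgZ, hgπ⟩ := hgi i hi
    have hi' : (i : ℝ) ≤ N := by exact_mod_cast hi.le
    have har : (a₀ : ℝ) ≤ a + (N * e : ℕ) := by exact_mod_cast haN
    have hηp : η * p ≤ η * n := mul_le_mul_of_nonneg_left hpn (by linarith)
    refine mside (rv_tour hT) (s₀ := n - p + η * n) (U₀ := U₀) (Z := Z) (Zg := Zg) (Sk := Sk)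
      (Ex := Z.filter (fun w => a ≤ π w ∧ π w < a + i)) (π := fun u => Z.card - 1 - π u) (e₁ := i) (e₂ := N * e) h0
      (by rw [← hnd]; linarith) hU₀ hstr hcl hZ hπr hgZ hZgZ ?_ ?_ ?_ ?_ hSkZ hSkNe hP ?_ ?_ ?_ ?_
    · intro x hx hxg b hb
      have h1 := hZgm.1 hb
      have h2 : a ≤ π x := by
        by_contra hc
        push Not at hc
        exact hxg (hZgm.2 ⟨hx, hc⟩)
      have h3 := hπ.lt x hx
      show Z.card - 1 - π x < Z.card - 1 - π b
      omega
    · intro h1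
      have h2 := hZgm.1 h1
      omega
    · intro w hw h1
      have h2 := hπ.lt w hw
      have h3 : π w < a + i := by
        have h4 : Z.card - 1 - π (g (a + i)) < Z.card - 1 - π w := h1
        omega
      by_cases h4 : π w < a
      · exact Or.inl (hZgm.2 ⟨hw, h4⟩)
      · exact Or.inr (mem_filter.2 ⟨hw, by omega, h3⟩)
    · rw [hπ.card_seg (by omega)]
      omega
    · rw [← hnd]; linarith
    · rw [← hnd]; linarith
    · rw [hZgc, hPr]; linarith
    · rw [hZgc, hPr, ← hnd]; linarith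
  have hout : ∀ i < N, ∀ j : ℕ, (Z₂.filter (fun u => R u (g (a + i)) ∧
      (Z₂.filter (fun w => R (g (a + i)) w ∧ R w u)).card ≤ j)).card ≤ 4 * (j + (a₀ + N - (a + i + 1))) := by
    intro i hi j
    obtain ⟨hgZ, hgπ⟩ := hgi i hi
    refine le_trans (card_le_card ?_) (hπ.few hT hgZ (j + (a₀ + N - (a + i + 1))))
    intro u hu
    rw [mem_filter] at hu ⊢
    obtain ⟨hu1, hu2, hu3⟩ := hu
    have hu4 := hZ₂m.1 hu1
    refine ⟨hu4.1, by omega, hu2, ?_⟩
    have h1 : AEM.btw R Z π (g (a + i)) u ⊆ (Z₂.filter (fun w => R (g (a + i)) w ∧ R w u)) ∪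
        Z.filter (fun w => a + i + 1 ≤ π w ∧ π w < a₀ + N) := by
      intro w hw
      rw [AEM.mem_btw] at hw
      rw [mem_union, mem_filter, mem_filter]
      by_cases h2 : a₀ + N ≤ π w
      · exact Or.inl ⟨hZ₂m.2 ⟨hw.1, h2⟩, hw.2.2.2.1, hw.2.2.2.2⟩
      · exact Or.inr ⟨hw.1, by omega, by omega⟩
    have h2 := (card_le_card h1).trans (card_union_le _ _)
    rw [hπ.card_seg (by omega)] at h2
    omega
  refine ⟨P, Z₂, (List.range N).map (fun i => g (a + i)), ?_, ?_, ?_, ?_, ?_, ?_, ?_, hPc, ?_, ?_, ?_, ?_, ?_⟩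
  · rw [List.length_map, List.length_range]
  · apply List.Nodup.map_on _ List.nodup_range
    intro i hi j hj hij
    rw [List.mem_range] at hi hj
    have h1 := (hgi i hi).2
    have h2 := (hgi j hj).2
    rw [hij] at h1
    omega
  · rw [List.isChain_map, List.isChain_range]
    intro m hm
    have h1 := hgi m (by omega)
    have h2 := hgi (m + 1) (by omega)
    exact hπ.succ hT h1.1 h2.1 (by
      show π (g (a + (m + 1))) = π (g (a + m)) + 1
      omega)
  · intro w hw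
    rcases hPm.1 hw with h1 | h1 | h1
    · exact hZU (hZgZ h1)
    · exact hZU (hSkZ h1)
    · exact (mem_sdiff.1 h1).1
  · intro w hw
    exact hZU (hZ₂m.1 hw).1
  · rw [disjoint_left]
    intro w h1 h2
    have h3 := hZ₂m.1 h2
    rcases hPm.1 h1 with h4 | h4 | h4
    · have h5 := hZgm.1 h4
      omega
    · have h5 := hSkm.1 h4
      omega
    · exact (mem_sdiff.1 h4).2 h3.1
  · intro y hy
    rw [List.mem_map] at hy
    obtain ⟨i, hi, rfl⟩ := hy
    rw [List.mem_range] at hi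
    obtain ⟨hgZ, hgπ⟩ := hgi i hi
    refine ⟨hZU hgZ, ?_, ?_, hwin _ hgZ (by omega) (by omega)⟩
    · intro h1
      rcases hPm.1 h1 with h2 | h2 | h2
      · have h3 := hZgm.1 h2
        omega
      · have h3 := hSkm.1 h2
        omega
      · exact (mem_sdiff.1 h2).2 hgZ
    · intro h1
      have h2 := hZ₂m.1 h1
      omega
  · omega
  · intro y hy
    rw [List.mem_map] at hy
    obtain ⟨i, hi, rfl⟩ := hy
    rw [List.mem_range] at hi
    exact (hmain i hi).mono (by omega)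
  · intro y hy
    rcases Nat.eq_zero_or_pos N with hN | hN
    · rw [hN] at hy
      simp at hy
    · rw [List.head?_map, List.head?_range, if_neg (by omega)] at hy
      simp only [Option.map_some, Option.mem_def, Option.some.injEq] at hy
      rw [← hy]
      exact (hmain 0 hN).mono (by omega)
  · intro y hy j
    rw [List.mem_map] at hy
    obtain ⟨i, hi, rfl⟩ := hy
    rw [List.mem_range] at hi
    exact (hout i hi j).trans (by omega)
  · intro y hy j
    rcases Nat.eq_zero_or_pos N with hN | hN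
    · rw [hN] at hy
      simp at hy
    · rw [List.getLast?_map, List.getLast?_range, if_neg (by omega)] at hy
      simp only [Option.map_some, Option.mem_def, Option.some.injEq] at hy
      rw [← hy]
      exact (hout (N - 1) (by omega) j).trans (by omega)

end AEG
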