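import Pool.Agent.AEG.PackB
import Pool.Agent.AEG.Med
import Pool.Agent.AEG.ListM
import Pool.Agent.AEG.ChainE

/-!
# The small side of a cluster round: all in-branches of the group at its hosts
-/

set_option autoImplicit false

namespace AEG

open Finset AE15 AED AEB SPD
open scoped Classical

/-- `Rea` for a smaller part -/
theorem rea_anti {V : Type} {R : V → V → Prop} {U P P' : Finset V} {k t : ℝ} {w : V} (h : Rea R U P k t w)
    (hP : P' ⊆ P) : Rea R U P' k t w := by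
  obtain ⟨W, hW, hWt⟩ := h
  refine ⟨W, hW, le_trans ?_ hWt⟩
  exact_mod_cast card_le_card (sdiff_subset_sdiff hP (Subset.refl _))

/-- a largest element of a list of forests -/
theorem exists_argmax {V : Type} : ∀ (L : List (V × Fd)), L ≠ [] → ∃ x ∈ L, ∀ q ∈ L, q.2.size ≤ x.2.size
  | [], h => absurd rfl h
  | [x], _ => ⟨x, by simp, by simp⟩
  | x :: y :: L, _ => by
    obtain ⟨m, hm, hmax⟩ := exists_argmax (y :: L) (by simp)
    by_cases h : m.2.size ≤ x.2.size
    · refine ⟨x, by simp, ?_⟩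
      intro q hq
      rcases List.mem_cons.1 hq with rfl | hq
      · exact le_rfl
      · exact (hmax q hq).trans h
    · refine ⟨m, List.mem_cons_of_mem _ hm, ?_⟩
      intro q hq
      rcases List.mem_cons.1 hq with rfl | hq
      · omega
      · exact hmax q hq

theorem totB_perm {V : Type} {L L' : List (V × Fd)} (h : L.Perm L') : totB L = totB L' := by
  unfold totB
  exact (h.map _).sum_eq

/-- **The small side of a cluster round**: all forests are embedded at their hosts, outside a bounded set `A` containing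
the hosts -/
theorem p1_lin (b l N : ℕ) (hb : 1 ≤ b) (hN : 1 ≤ N) : ∃ ηp : ℝ, 0 < ηp ∧ ηp ≤ 1 ∧ ∀ (κc ξ s₁ τ₁ : ℝ),
    0 < κc → κc ≤ 1 → 0 < ξ → ξ ≤ 1 → 0 < s₁ → 0 < τ₁ → ∀ e tm : ℕ, ∃ J C : ℕ, ∀ am : ℕ, ∃ n₀ : ℕ,
    ∀ {V : Type} {R : V → V → Prop}, AE32.Tour R → ∀ (U P A : Finset V) (L : List (V × Fd)) (t : ℝ),
      P ⊆ U → L ≠ [] → L.length ≤ N → (∀ q ∈ L, FOK b l 0 q.2 ∧ ∀ r ∈ q.2.trees, r.1 = true) →
      (∀ q ∈ L, q.1 ∈ U ∧ q.1 ∉ P ∧ q.1 ∈ A ∧ MSide R U P (κc * U.card) t s₁ τ₁ e q.1) →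
      ξ * U.card ≤ P.card → t ≤ ηp * P.card → A.card ≤ am → (A ∩ P).card ≤ tm → totB L + C ≤ P.card → n₀ ≤ P.card →
      ∃ S, EmbAllB R L S ∧ S ⊆ U ∧ Disjoint S A ∧ (S \ P).card ≤ J := by
  obtain ⟨η, hη0, hη1, hpack⟩ := packB b l N 1 hb hN le_rfl
  refine ⟨η / 2, by positivity, by linarith, ?_⟩
  intro κc ξ s₁ τ₁ hκc hκc1 hξ hξ1 hs₁ hτ₁ e tm
  obtain ⟨C, J, δA, hδA, hpack⟩ := hpack (e + 4 * tm) κc (ξ / 2) (s₁ / 2) (τ₁ / 2) hκc hκc1 (by positivity)
    (by linarith) (by positivity) (by positivity)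
  refine ⟨J, C + tm, fun am => ?_⟩
  obtain ⟨n₀, hn₀⟩ := exists_big [((2 * tm : ℝ), 1), ((am : ℝ), δA), ((2 * tm : ℝ), s₁), ((2 * tm : ℝ), τ₁)] (by
    intro q hq
    simp only [List.mem_cons, List.not_mem_nil, or_false] at hq
    rcases hq with rfl | rfl | rfl | rfl
    · exact one_pos
    · exact hδA
    · exact hs₁
    · exact hτ₁)
  refine ⟨n₀, ?_⟩
  intro V R hT U P A L t hPU hL hlen hLF hLh hξU ht hA hAP htot hn
  have hbig := hn₀ P.card hn
  have b1 : (2 * tm : ℝ) ≤ 1 * P.card := hbig ((2 * tm : ℝ), 1) (by simp)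
  have b2 : (am : ℝ) ≤ δA * P.card := hbig ((am : ℝ), δA) (by simp)
  have b3 : (2 * tm : ℝ) ≤ s₁ * P.card := hbig ((2 * tm : ℝ), s₁) (by simp)
  have b4 : (2 * tm : ℝ) ≤ τ₁ * P.card := hbig ((2 * tm : ℝ), τ₁) (by simp)
  obtain ⟨x, hx, hmax⟩ := exists_argmax L hL
  obtain ⟨L₁, L₂, hsplit⟩ := List.append_of_mem hx
  have hperm : L.Perm ((x.1, x.2) :: (L₁ ++ L₂)) := by
    rw [hsplit]
    exact List.perm_middle
  have hsub : ∀ q ∈ L₁ ++ L₂, q ∈ L := fun q hq => hperm.symm.subset (List.mem_cons_of_mem _ hq)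
  obtain ⟨P', hP'⟩ : ∃ P', P' = P \ A := ⟨_, rfl⟩
  have hP'P : P' ⊆ P := by rw [hP']; exact sdiff_subset
  have hPc : P.card ≤ P'.card + tm := by
    have h1 : P ⊆ P' ∪ (A ∩ P) := by
      intro v hv
      rw [hP', mem_union, mem_sdiff, mem_inter]
      tauto
    have h2 := (card_le_card h1).trans (card_union_le _ _)
    omega
  have hPr : (P.card : ℝ) ≤ P'.card + tm := by exact_mod_cast hPc
  have hP'r : (P'.card : ℝ) ≤ P.card := by exact_mod_cast card_le_card hP'P
  have hUP : (P.card : ℝ) ≤ U.card := by exact_mod_cast card_le_card hPU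
  have hfil : ∀ (Q : V → Prop) [DecidablePred Q], (P.filter Q).card ≤ (P'.filter Q).card + tm := by
    intro Q _
    have h1 : P.filter Q ⊆ P'.filter Q ∪ (A ∩ P) := by
      intro v hv
      rw [mem_filter] at hv
      rw [hP', mem_union, mem_filter, mem_sdiff, mem_inter]
      tauto
    have h2 := (card_le_card h1).trans (card_union_le _ _)
    omega
  obtain ⟨hxU, hxP, hxA, hxM⟩ := hLh x hx
  obtain ⟨S, h1, h2, h3, h4⟩ := hpack hT U P' A x.1 x.2 (L₁ ++ L₂) t (hP'P.trans hPU) (by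
      have := hperm.length_eq
      rw [List.length_cons] at this
      omega) (hLF x hx).1 (hLF x hx).2 (by
      intro q hq
      refine ⟨(hLF q (hsub q hq)).1, (hLF q (hsub q hq)).2, ?_⟩
      have := hmax q (hsub q hq)
      omega) hxU (fun h => hxP (hP'P h)) hxA (by
      intro q hq
      obtain ⟨q1, q2, q3, -⟩ := hLh q (hsub q hq)
      exact ⟨q1, fun h => q2 (hP'P h), q3⟩) (by
      linarith) (rea_anti hxM.reach hP'P) (by
      have h5 := hxM.lin
      have h6 : ((P.filter (fun w => R x.1 w ∧ Rea R U P (κc * U.card) t w)).card : ℝ) ≤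
          (P'.filter (fun w => R x.1 w ∧ Rea R U P (κc * U.card) t w)).card + tm := by exact_mod_cast hfil _
      have h7 : ((P'.filter (fun w => R x.1 w ∧ Rea R U P (κc * U.card) t w)).card : ℝ) ≤
          (P'.filter (fun w => R x.1 w ∧ Rea R U P' (κc * U.card) t w)).card := by
        refine Nat.cast_le.2 (card_le_card ?_)
        intro w hw
        rw [mem_filter] at hw ⊢
        exact ⟨hw.1, hw.2.1, rea_anti hw.2.2 hP'P⟩
      have h8 : s₁ / 2 * P'.card ≤ s₁ / 2 * P.card := mul_le_mul_of_nonneg_left hP'r (by positivity)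
      linarith) (by
      intro j hj
      have h5 := hxM.cnt (j + tm) (by
        push_cast
        have h8 : τ₁ / 2 * P'.card ≤ τ₁ / 2 * P.card := mul_le_mul_of_nonneg_left hP'r (by positivity)
        linarith)
      refine (card_le_card ?_).trans (h5.trans (by omega))
      intro u hu
      rw [mem_filter] at hu ⊢
      refine ⟨hP'P hu.1, hu.2.1, ?_⟩
      refine (hfil _).trans (Nat.add_le_add_right (le_trans (card_le_card ?_) hu.2.2) _)
      intro w hw
      rw [mem_filter] at hw ⊢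
      exact ⟨hw.1, hw.2.1, hw.2.2.1, rea_anti hw.2.2.2 hP'P⟩) (by
      intro q hq
      exact rea_anti (hLh q (hsub q hq)).2.2.2.reach hP'P) (by
      have h5 : (P.card : ℝ) ≤ 2 * P'.card := by linarith
      have h6 : η * (P.card : ℝ) ≤ η * (2 * P'.card) := mul_le_mul_of_nonneg_left h5 hη0.le
      linarith) (by
      have h5 : (A.card : ℝ) ≤ am := by exact_mod_cast hA
      have h6 : δA * (P.card : ℝ) ≤ δA * U.card := mul_le_mul_of_nonneg_left hUP hδA.le
      linarith) (by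
      have h5 := totB_perm hperm
      omega)
  refine ⟨S, h1.perm hperm.symm, h2, ?_, ?_⟩
  · rw [disjoint_left]
    intro v hv hvA
    by_cases hvP : v ∈ P'
    · rw [hP', mem_sdiff] at hvP
      exact hvP.2 hvA
    · exact disjoint_left.1 h3 (mem_sdiff.2 ⟨hv, hvP⟩) hvA
  · refine (card_le_card ?_).trans h4
    exact sdiff_subset_sdiff (Subset.refl _) hP'P

end AEG
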