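import Pool.Agent.AEG.Front
import Pool.Agent.AEG.P1Lin
import Pool.Agent.AEG.P2Part
import Pool.Agent.AEG.ChainE

/-!
# The cluster round: auxiliary statements

`zw_choice`, `tail_part`: from the last host of the group to the super vertex `z`.
-/

set_option autoImplicit false

namespace AEG

open Finset AE15 AED AEB SPD
open scoped Classical

variable {V : Type} {R : V → V → Prop}

/-- the last host `y` dominates `z`, or a good vertex which dominates `z` -/
theorem zw_choice (hT : AE32.Tour R) {X P Rs : Finset V} {k t s τ : ℝ} {e j c : ℕ} {y z : V}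
    (h : RSide R X P Rs k t s τ e y) (hPX : P ⊆ X) (hy : y ∉ P) (hj : 2 * c ≤ j)
    (hcap : ∀ w ∈ Rs, c ≤ (nI R X w).card) (hout : ∀ w, Rea R X P k t w → c ≤ (nO R X w).card) (hz : z ∈ P)
    (hzB : z ∉ P.filter (fun u => R u y ∧ (∀ w ∈ Rs, ¬ R w u) ∧
      (P.filter (fun w => R y w ∧ R w u ∧ Rea R X P k t w)).card ≤ j)) :
    R y z ∨ ∃ w ∈ P, R y w ∧ R w z ∧ c ≤ (nI R X w).card ∧ c ≤ (nO R X w).card := by
  rw [or_iff_not_imp_left]
  intro hyz
  have hne : z ≠ y := fun h => hy (h ▸ hz)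
  have hzy : R z y := (hT.tot z y hne).resolve_right hyz
  by_cases h1 : ∀ w ∈ Rs, ¬ R w z
  · have h2 : j < (P.filter (fun w => R y w ∧ R w z ∧ Rea R X P k t w)).card := by
      by_contra hcon
      exact hzB (mem_filter.2 ⟨hz, hzy, h1, by omega⟩)
    have h3 := card_lowin hT X c
    have h4 : ¬ P.filter (fun w => R y w ∧ R w z ∧ Rea R X P k t w) ⊆ X.filter (fun v => (nI R X v).card < c) := by
      intro h5
      have := card_le_card h5
      omega
    rw [not_subset] at h4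
    obtain ⟨w, hw, hw'⟩ := h4
    rw [mem_filter] at hw
    refine ⟨w, hw.1, hw.2.1, hw.2.2.1, ?_, hout w hw.2.2.2⟩
    by_contra hcon
    exact hw' (mem_filter.2 ⟨hPX hw.1, by omega⟩)
  · push Not at h1
    obtain ⟨w, hw, hwz⟩ := h1
    obtain ⟨g1, g2, g3⟩ := h.hRs w hw
    exact ⟨w, g1, g2, hwz, hcap w hw, hout w g3⟩

/-- the links behind the group -/
theorem tail_part (hT : AE32.Tour R) {X P H F : Finset V} {y z : V} {B₀ c : ℕ} {t₁ t₂ : Fd × Fd}
    (rest : List (Fd × Fd))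
    (hyz : R y z ∨ ∃ w ∈ P, R y w ∧ R w z ∧ c ≤ (nI R X w).card ∧ c ≤ (nO R X w).card)
    (hz : z ∈ P) (hzI : c ≤ (nI R X z).card) (hzO : c ≤ (nO R X z).card) (hHz : ∀ v ∈ H, R z v)
    (hc : F.card + H.card + 1 + B₀ + 2 ^ B₀ ≤ c)
    (ht₁ : ∀ r ∈ t₁.1.trees, r.1 = true) (ht₁' : ∀ r ∈ t₁.2.trees, r.1 = true) (hB₁ : t₁.1.size + t₁.2.size ≤ B₀)
    (ht₂ : ∀ r ∈ t₂.1.trees, r.1 = true) (ht₂' : ∀ r ∈ t₂.2.trees, r.1 = true) (hB₂ : t₂.1.size + t₂.2.size ≤ B₀) :
    ∃ (tl₀ : List (V × (Fd × Fd))) (q : Fd × Fd) (L' : List (Fd × Fd)) (SA SD : Finset V),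
      (tl₀ ++ [(z, q)]).map Prod.snd ++ L' = t₁ :: t₂ :: rest ∧ (L' = t₂ :: rest ∨ L' = rest) ∧
      (tl₀ ++ [(z, q)]).length ≤ 2 ∧ (y :: (tl₀ ++ [(z, q)]).map Prod.fst).IsChain R ∧
      ((tl₀ ++ [(z, q)]).map Prod.fst).Nodup ∧ (∀ t ∈ tl₀ ++ [(z, q)], t.1 ∈ P ∧ t.1 ∉ H) ∧
      EmbAllB (rv R) ((tl₀ ++ [(z, q)]).map (fun p => (p.1, p.2.1))) SA ∧
      EmbAllB R ((tl₀ ++ [(z, q)]).map (fun p => (p.1, p.2.2))) SD ∧ SA ⊆ X ∧ SD ⊆ X ∧ Disjoint SA SD ∧
      (∀ x ∈ SA ∪ SD, x ∉ F ∧ x ∉ H ∧ ∀ t ∈ tl₀ ++ [(z, q)], x ≠ t.1) ∧ SA.card + SD.card ≤ 2 * B₀ := by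
  have hzH : z ∉ H := fun h => hT.irr z (hHz z h)
  have hFH := card_union_le F H
  rcases hyz with hyz | ⟨w, hwP, hyw, hwz, hwI, hwO⟩
  · obtain ⟨SA, SD, b1, b2, b3, b4, b5, b6, b7, b8, b9, b10⟩ := small_at hT (X := X) (F := F ∪ H) (h := z) ht₁ ht₁' hB₁
      (by omega) (by omega)
    refine ⟨[], t₁, t₂ :: rest, SA, SD, rfl, Or.inl rfl, by simp, ?_, by simp, ?_, ?_, ?_, b3.trans nI_sub,
      b4.trans nO_sub, b7, ?_, by omega⟩
    · simpa using hyz
    · intro t ht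
      simp only [List.nil_append, List.mem_singleton] at ht
      subst ht
      exact ⟨hz, hzH⟩
    · exact embAllB_single.2 b1
    · exact embAllB_single.2 b2
    · intro x hx
      rw [disjoint_union_right, disjoint_left, disjoint_left] at b5 b6
      have key : x ∉ F ∧ x ∉ H ∧ x ≠ z := by
        rcases mem_union.1 hx with hx | hx
        · exact ⟨b5.1 hx, b5.2 hx, fun h => b8 (h ▸ hx)⟩
        · exact ⟨b6.1 hx, b6.2 hx, fun h => b9 (h ▸ hx)⟩
      refine ⟨key.1, key.2.1, ?_⟩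
      intro t ht
      simp only [List.nil_append, List.mem_singleton] at ht
      subst ht
      exact key.2.2
  · have hwH : w ∉ H := fun h => hT.asym _ _ hwz (hHz w h)
    have hwz' : w ≠ z := fun h => hT.irr z (h ▸ hwz)
    have e1 := card_insert_le z (F ∪ H)
    obtain ⟨SA₁, SD₁, b1, b2, b3, b4, b5, b6, b7, b8, b9, b10⟩ := small_at hT (X := X) (F := insert z (F ∪ H)) (h := w)
      ht₁ ht₁' hB₁ (by omega) (by omega)
    have e2 := card_insert_le w ((F ∪ H) ∪ (SA₁ ∪ SD₁))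
    have e3 := card_union_le (F ∪ H) (SA₁ ∪ SD₁)
    have e4 := card_union_le SA₁ SD₁
    obtain ⟨SA₂, SD₂, d1, d2, d3, d4, d5, d6, d7, d8, d9, d10⟩ := small_at hT (X := X)
      (F := insert w ((F ∪ H) ∪ (SA₁ ∪ SD₁))) (h := z) ht₂ ht₂' hB₂ (by omega) (by omega)
    rw [disjoint_insert_right, disjoint_union_right, disjoint_left, disjoint_left] at b5 b6
    rw [disjoint_insert_right, disjoint_union_right, disjoint_union_right, disjoint_union_right] at d5 d6
    obtain ⟨d51, ⟨d52, d53⟩, d54, d55⟩ := d5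
    obtain ⟨d61, ⟨d62, d63⟩, d64, d65⟩ := d6
    rw [disjoint_left] at d52 d53 d62 d63
    refine ⟨[(w, t₁)], t₂, rest, SA₁ ∪ SA₂, SD₁ ∪ SD₂, rfl, Or.inr rfl, by simp, ?_, ?_, ?_, ?_, ?_,
      union_subset (b3.trans nI_sub) (d3.trans nI_sub), union_subset (b4.trans nO_sub) (d4.trans nO_sub), ?_, ?_, ?_⟩
    · simpa using ⟨hyw, hwz⟩
    · simpa using hwz'
    · intro t ht
      simp only [List.cons_append, List.nil_append, List.mem_cons, List.not_mem_nil, or_false] at ht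
      rcases ht with rfl | rfl
      · exact ⟨hwP, hwH⟩
      · exact ⟨hz, hzH⟩
    · exact ⟨SA₁, SA₂, d54.symm, rfl, b1, SA₂, ∅, disjoint_empty_right _, (union_empty _).symm, d1, rfl⟩
    · exact ⟨SD₁, SD₂, d65.symm, rfl, b2, SD₂, ∅, disjoint_empty_right _, (union_empty _).symm, d2, rfl⟩
    · rw [disjoint_union_left, disjoint_union_right, disjoint_union_right]
      exact ⟨⟨b7, d64.symm⟩, d55, d7⟩
    · intro x hx
      have key : x ∉ F ∧ x ∉ H ∧ x ≠ w ∧ x ≠ z := by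
        rw [mem_union, mem_union, mem_union] at hx
        rcases hx with (hx | hx) | (hx | hx)
        · exact ⟨b5.2.1 hx, b5.2.2 hx, fun h => b8 (h ▸ hx), fun h => b5.1 (h ▸ hx)⟩
        · exact ⟨d52 hx, d53 hx, fun h => d51 (h ▸ hx), fun h => d8 (h ▸ hx)⟩
        · exact ⟨b6.2.1 hx, b6.2.2 hx, fun h => b9 (h ▸ hx), fun h => b6.1 (h ▸ hx)⟩
        · exact ⟨d62 hx, d63 hx, fun h => d61 (h ▸ hx), fun h => d9 (h ▸ hx)⟩
      refine ⟨key.1, key.2.1, ?_⟩
      intro t ht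
      simp only [List.cons_append, List.nil_append, List.mem_cons, List.not_mem_nil, or_false] at ht
      rcases ht with rfl | rfl
      · exact key.2.2.1
      · exact key.2.2.2
    · have f1 := card_union_le SA₁ SA₂
      have f2 := card_union_le SD₁ SD₂
      omega

/-- number of the used vertices -/
theorem card_used {os : List (V × (Fd × Fd))} {SA SD : Finset V}
    (h3 : EmbAllB (rv R) (os.map (fun p => (p.1, p.2.1))) SA) (h4 : EmbAllB R (os.map (fun p => (p.1, p.2.2))) SD) :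
    ((os.map Prod.fst).toFinset ∪ (SA ∪ SD)).card ≤ szS (os.map Prod.snd) := by
  have h1 := card_union_le (os.map Prod.fst).toFinset (SA ∪ SD)
  have h2 := card_union_le SA SD
  have h5 : (os.map Prod.fst).toFinset.card ≤ os.length := by
    have := List.toFinset_card_le (os.map Prod.fst)
    rwa [List.length_map] at this
  have h6 := EmbAllB.card h3
  have h7 := EmbAllB.card h4
  have h8 : ∀ os : List (V × (Fd × Fd)), os.length + totB (os.map (fun p => (p.1, p.2.1))) +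
      totB (os.map (fun p => (p.1, p.2.2))) = szS (os.map Prod.snd) := by
    intro os
    induction os with
    | nil => rfl
    | cons p os ih =>
      rw [List.map_cons, List.map_cons, List.map_cons, szS_cons, ← ih]
      simp only [totB, List.map_cons, List.sum_cons, List.length_cons]
      omega
  have h9 := h8 os
  omega

end AEG
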