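import Pool.Agent.AEG.ClusG

/-!
# The cluster round: the end
-/

set_option autoImplicit false

namespace AEG

open Finset AE15 AED AEB SPD
open scoped Classical

theorem mem_chosen {V : Type} {Ys H Ht St Sf Z : Finset V} {v a x : V} :
    x ∈ insert v (insert a (Ys ∪ H ∪ Ht ∪ St ∪ Sf)) ∪ Z ↔
      x = v ∨ x = a ∨ x ∈ Ys ∨ x ∈ H ∨ x ∈ Ht ∨ x ∈ St ∨ x ∈ Sf ∨ x ∈ Z := by
  simp only [mem_union, mem_insert, or_assoc]

theorem mem_usedW {V : Type} {Ys Ht St Sf Z Sg : Finset V} {v a x : V} :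
    x ∈ insert v (insert a (Ys ∪ Ht)) ∪ St ∪ Sf ∪ Z ∪ Sg ↔
      x = v ∨ x = a ∨ x ∈ Ys ∨ x ∈ Ht ∨ x ∈ St ∨ x ∈ Sf ∨ x ∈ Z ∨ x ∈ Sg := by
  simp only [mem_union, mem_insert, or_assoc]

theorem used_eq {V : Type} {Ys Ht SAt SDt SAf SDf Z Sg S : Finset V} {v a : V} :
    insert v (insert a (Ys ∪ Ht)) ∪ ((SAf ∪ (Sg ∪ SAt)) ∪ (SDf ∪ ((Z ∪ S) ∪ SDt))) =
      (insert v (insert a (Ys ∪ Ht)) ∪ (SAt ∪ SDt) ∪ (SAf ∪ SDf) ∪ Z ∪ Sg) ∪ S := by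
  ext x
  simp only [mem_union, mem_insert]
  tauto

/-- **The end of a cluster round** -/
theorem cluster_end {T : Type} {R : T → T → Prop} {κ η s : ℝ} {lam' sig sig' K₁ C C₁ J₁ e₂ : ℕ}
    {X₀ U₁ U₂ P₁ P₂ H Ex Z S SAt SDt SAf SDf SAg W A : Finset T} {ys : List T} {y₁ y₂ v a z : T}
    {tl₀ tl : List (T × (Fd × Fd))} {q₀ l₁ l₂ : Fd × Fd} {gr L' : List (Fd × Fd)} {Nn : T → Prop}
    (hW : W = insert v (insert a (ys.toFinset ∪ hostsF tl)) ∪ (SAt ∪ SDt) ∪ (SAf ∪ SDf) ∪ Z ∪ SAg)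
    (hA : A = insert v (insert a (ys.toFinset ∪ H ∪ hostsF tl ∪ (SAt ∪ SDt) ∪ (SAf ∪ SDf))) ∪ Z)
    (hX₁ : U₂ = X₀ \ low R sig X₀) (hpart : ∀ u ∈ U₂, u ∈ P₁ ∨ u ∈ P₂ ∨ u ∈ ys)
    (hU₁ : U₁ ⊆ U₂) (hP₂ : P₂ ⊆ U₂) (hys : ∀ y ∈ ys, y ∈ U₂ ∧ y ∉ P₁ ∧ y ∉ P₂) (hnd : ys.Nodup) (hch : ys.IsChain R)
    (hfi : ys.head? = some y₁) (hla : ys.getLast? = some y₂) (hlen : ys.length = gr.length)
    (htl : tl = tl₀ ++ [(z, q₀)]) (e4 : (y₂ :: tl.map Prod.fst).IsChain R) (e5 : (tl.map Prod.fst).Nodup)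
    (e6 : ∀ t ∈ tl, t.1 ∈ P₂) (e7 : EmbAllB (rv R) (tl.map (fun p => (p.1, p.2.1))) SAt)
    (e8 : EmbAllB R (tl.map (fun p => (p.1, p.2.2))) SDt) (e9 : SAt ⊆ U₂) (e10 : SDt ⊆ U₂) (e11 : Disjoint SAt SDt)
    (e12 : ∀ x ∈ SAt ∪ SDt, x ∉ ys.toFinset ∧ ∀ t ∈ tl, x ≠ t.1)
    (f1 : v ∈ X₀) (f2 : Nn v) (f4 : a ∈ X₀) (f5 : R v a) (f6 : R a y₁) (f7 : v ≠ a)
    (f8 : v ∉ ys.toFinset ∪ H ∪ hostsF tl ∪ (SAt ∪ SDt)) (f9 : a ∉ ys.toFinset ∪ H ∪ hostsF tl ∪ (SAt ∪ SDt))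
    (f10 : EmbAllB (rv R) [(v, l₁.1), (a, l₂.1)] SAf) (f11 : EmbAllB R [(v, l₁.2), (a, l₂.2)] SDf) (f12 : SAf ⊆ X₀)
    (f13 : SDf ⊆ X₀) (f14 : Disjoint SAf SDf) (f15 : Disjoint SAf (ys.toFinset ∪ H ∪ hostsF tl ∪ (SAt ∪ SDt)))
    (f16 : Disjoint SDf (ys.toFinset ∪ H ∪ hostsF tl ∪ (SAt ∪ SDt))) (f17 : v ∉ SAf) (f18 : v ∉ SDf) (f19 : a ∉ SAf)
    (f20 : a ∉ SDf) (hZF : Disjoint Z (insert v (insert a (ys.toFinset ∪ H ∪ hostsF tl ∪ (SAt ∪ SDt) ∪ (SAf ∪ SDf)))))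
    (hZU : Z ⊆ U₂) (g1 : EmbAllB (rv R) ((ys.zip gr).map (fun r => (r.1, r.2.1))) SAg) (g2 : SAg ⊆ U₁)
    (g3 : Disjoint SAg A) (g4 : (SAg \ P₁).card ≤ J₁) (hE : EmbAllB R ((ys.zip gr).map (fun r => (r.1, r.2.2))) (Z ∪ S))
    (hS : S ⊆ P₂ \ (W ∪ H ∪ Ex)) (hExc : Ex.card ≤ e₂) (hP₁c : P₁.card = inS gr + C₁) (hsig : sig ≤ sig')
    (hSt : StM R (P₂ \ (W ∪ Ex ∪ S)) ((X₀ \ (W ∪ S)) \ (P₂ \ (W ∪ Ex ∪ S))) (R z) κ η s lam' sig' K₁)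
    (hsz : szS (l₁ :: l₂ :: (gr ++ (tl.map Prod.snd ++ L'))) + C ≤ X₀.card) (hL' : L' ≠ [])
    (hAgc : SAg.card = inS gr) :
    Nxt R κ η s lam' sig' K₁ (C₁ + J₁ + e₂) (l₁ :: l₂ :: (gr ++ (tl.map Prod.snd ++ L'))) Nn X₀ L' C := by
  have hU₂X : U₂ ⊆ X₀ := by rw [hX₁]; exact sdiff_subset
  -- the whole list of hosts
  obtain ⟨os₀, hos₀⟩ : ∃ os₀, os₀ = (v, l₁) :: (a, l₂) :: (ys.zip gr ++ tl₀) := ⟨_, rfl⟩
  have hos : os₀ ++ [(z, q₀)] = [(v, l₁), (a, l₂)] ++ (ys.zip gr ++ tl) := by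
    rw [hos₀, htl]
    simp
  have hfst : (os₀ ++ [(z, q₀)]).map Prod.fst = v :: a :: (ys ++ tl.map Prod.fst) := by
    rw [hos, List.map_append, List.map_append, List.map_fst_zip (by omega)]
    rfl
  have hsnd : (os₀ ++ [(z, q₀)]).map Prod.snd = l₁ :: l₂ :: (gr ++ tl.map Prod.snd) := by
    rw [hos, List.map_append, List.map_append, List.map_snd_zip (by omega)]
    rfl
  have hhosts : ((os₀ ++ [(z, q₀)]).map Prod.fst).toFinset = insert v (insert a (ys.toFinset ∪ hostsF tl)) := by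
    rw [hfst, List.toFinset_cons, List.toFinset_cons, List.toFinset_append]
    rfl
  have htlm : ∀ x ∈ tl.map Prod.fst, x ∈ hostsF tl := fun x hx => List.mem_toFinset.2 hx
  have hHt : ∀ x ∈ hostsF tl, x ∈ P₂ ∧ x ∈ tl.map Prod.fst := by
    intro x hx
    have h1 := List.mem_toFinset.1 hx
    rw [List.mem_map] at h1
    obtain ⟨t, ht, rfl⟩ := h1
    exact ⟨e6 t ht, List.mem_map.2 ⟨t, ht, rfl⟩⟩
  have hF1 : ∀ x, x ∉ ys.toFinset ∪ H ∪ hostsF tl ∪ (SAt ∪ SDt) →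
      x ∉ ys ∧ x ∉ hostsF tl ∧ x ∉ SAt ∧ x ∉ SDt := by
    intro x hx
    rw [mem_union, mem_union, mem_union, mem_union, List.mem_toFinset] at hx
    push Not at hx
    exact ⟨hx.1.1.1, hx.1.2, hx.2.1, hx.2.2⟩
  have hv1 := hF1 v f8
  have ha1 := hF1 a f9
  have hSAf1 : ∀ x ∈ SAf, x ∉ ys ∧ x ∉ hostsF tl ∧ x ∉ SAt ∧ x ∉ SDt := fun x hx => hF1 x (disjoint_left.1 f15 hx)
  have hSDf1 : ∀ x ∈ SDf, x ∉ ys ∧ x ∉ hostsF tl ∧ x ∉ SAt ∧ x ∉ SDt := fun x hx => hF1 x (disjoint_left.1 f16 hx)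
  have hF2 : ∀ x, x ∉ insert v (insert a (ys.toFinset ∪ H ∪ hostsF tl ∪ (SAt ∪ SDt) ∪ (SAf ∪ SDf))) →
      x ≠ v ∧ x ≠ a ∧ x ∉ ys ∧ x ∉ hostsF tl ∧ x ∉ SAt ∧ x ∉ SDt ∧ x ∉ SAf ∧ x ∉ SDf := by
    intro x hx
    rw [mem_insert, mem_insert, mem_union] at hx
    push Not at hx
    obtain ⟨h1, h2, h3, h4⟩ := hx
    rw [mem_union, not_or] at h4
    obtain ⟨h5, h6, h7, h8⟩ := hF1 x h3
    exact ⟨h1, h2, h5, h6, h7, h8, h4.1, h4.2⟩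
  have hZ1 : ∀ x ∈ Z, x ≠ v ∧ x ≠ a ∧ x ∉ ys ∧ x ∉ hostsF tl ∧ x ∉ SAt ∧ x ∉ SDt ∧ x ∉ SAf ∧ x ∉ SDf :=
    fun x hx => hF2 x (disjoint_left.1 hZF hx)
  have hAg1 : ∀ x ∈ SAg, (x ≠ v ∧ x ≠ a ∧ x ∉ ys ∧ x ∉ hostsF tl ∧ x ∉ SAt ∧ x ∉ SDt ∧ x ∉ SAf ∧ x ∉ SDf) ∧ x ∉ Z := by
    intro x hx
    have h1 := disjoint_left.1 g3 hx
    rw [hA, mem_union, not_or] at h1
    exact ⟨hF2 x h1.1, h1.2⟩
  have hWm : ∀ x, x ∉ W → x ≠ v ∧ x ≠ a ∧ x ∉ ys ∧ x ∉ hostsF tl ∧ x ∉ SAt ∧ x ∉ SDt ∧ x ∉ SAf ∧ x ∉ SDf ∧ x ∉ Z ∧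
      x ∉ SAg := by
    intro x hx
    rw [hW, mem_usedW] at hx
    push Not at hx
    obtain ⟨h1, h2, h3, h4, h5, h6, h7, h8⟩ := hx
    rw [List.mem_toFinset] at h3
    rw [mem_union, not_or] at h5 h6
    exact ⟨h1, h2, h3, h4, h5.1, h5.2, h6.1, h6.2, h7, h8⟩
  have hSm : ∀ x ∈ S, x ∈ P₂ ∧ x ∉ W ∧ x ∉ H ∧ x ∉ Ex := by
    intro x hx
    have h1 := hS hx
    rw [mem_sdiff, mem_union, mem_union] at h1
    push Not at h1
    exact ⟨h1.1, h1.2.1.1, h1.2.1.2, h1.2.2⟩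
  have hS1 : ∀ x ∈ S, x ≠ v ∧ x ≠ a ∧ x ∉ ys ∧ x ∉ hostsF tl ∧ x ∉ SAt ∧ x ∉ SDt ∧ x ∉ SAf ∧ x ∉ SDf ∧ x ∉ Z ∧
      x ∉ SAg := fun x hx => hWm x (hSm x hx).2.1
  have htl2 : ∀ x, x ∈ SAt ∪ SDt → x ∉ ys ∧ x ∉ hostsF tl := by
    intro x hx
    obtain ⟨h1, h2⟩ := e12 x hx
    refine ⟨fun h => h1 (List.mem_toFinset.2 h), fun h => ?_⟩
    obtain ⟨t, ht, hxt⟩ := List.mem_map.1 (List.mem_toFinset.1 h)
    exact h2 t ht hxt.symm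
  -- the two sets
  obtain ⟨SA, hSA⟩ : ∃ SA, SA = SAf ∪ (SAg ∪ SAt) := ⟨_, rfl⟩
  obtain ⟨SD, hSD⟩ : ∃ SD, SD = SDf ∪ ((Z ∪ S) ∪ SDt) := ⟨_, rfl⟩
  have hused : ((os₀ ++ [(z, q₀)]).map Prod.fst).toFinset ∪ (SA ∪ SD) = W ∪ S := by
    rw [hhosts, hSA, hSD, hW]
    exact used_eq
  have hEA : EmbAllB (rv R) ((os₀ ++ [(z, q₀)]).map (fun p => (p.1, p.2.1))) SA := by
    rw [hos, hSA, List.map_append, List.map_append]
    refine embAllB_cat3 f10 g1 e7 ?_ ?_ ?_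
    · rw [disjoint_left]
      exact fun x hx hx' => (hAg1 x hx').1.2.2.2.2.2.2.1 hx
    · rw [disjoint_left]
      exact fun x hx hx' => (hSAf1 x hx).2.2.1 hx'
    · rw [disjoint_left]
      exact fun x hx hx' => (hAg1 x hx).1.2.2.2.2.1 hx'
  have hED : EmbAllB R ((os₀ ++ [(z, q₀)]).map (fun p => (p.1, p.2.2))) SD := by
    rw [hos, hSD, List.map_append, List.map_append]
    refine embAllB_cat3 f11 hE e8 ?_ ?_ ?_
    · rw [disjoint_left]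
      intro x hx hx'
      rcases mem_union.1 hx' with h | h
      · exact (hZ1 x h).2.2.2.2.2.2.2 hx
      · exact (hS1 x h).2.2.2.2.2.2.2.1 hx
    · rw [disjoint_left]
      exact fun x hx hx' => (hSDf1 x hx).2.2.2 hx'
    · rw [disjoint_left]
      intro x hx hx'
      rcases mem_union.1 hx with h | h
      · exact (hZ1 x h).2.2.2.2.2.1 hx'
      · exact (hS1 x h).2.2.2.2.2.1 hx'
  have hAD : Disjoint SA SD := by
    rw [hSA, hSD, disjoint_left]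
    intro x hx hx'
    rw [mem_union, mem_union] at hx
    rw [mem_union, mem_union, mem_union] at hx'
    rcases hx with h | h | h
    · rcases hx' with h' | (h' | h') | h'
      · exact disjoint_left.1 f14 h h'
      · exact (hZ1 x h').2.2.2.2.2.2.1 h
      · exact (hS1 x h').2.2.2.2.2.2.1 h
      · exact (hSAf1 x h).2.2.2 h'
    · rcases hx' with h' | (h' | h') | h'
      · exact (hAg1 x h).1.2.2.2.2.2.2.2 h'
      · exact (hAg1 x h).2 h'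
      · exact (hS1 x h').2.2.2.2.2.2.2.2.2 h
      · exact (hAg1 x h).1.2.2.2.2.2.1 h'
    · rcases hx' with h' | (h' | h') | h'
      · exact (hSDf1 x h').2.2.1 h
      · exact (hZ1 x h').2.2.2.2.1 h
      · exact (hS1 x h').2.2.2.2.1 h
      · exact disjoint_left.1 e11 h h'
  have hhn : ∀ p ∈ os₀ ++ [(z, q₀)], p.1 ∉ SA ∧ p.1 ∉ SD := by
    intro p hp
    have hp1 : p.1 ∈ (os₀ ++ [(z, q₀)]).map Prod.fst := List.mem_map.2 ⟨p, hp, rfl⟩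
    rw [hfst, List.mem_cons, List.mem_cons, List.mem_append] at hp1
    obtain ⟨x, hx⟩ : ∃ x, x = p.1 := ⟨_, rfl⟩
    rw [← hx] at hp1 ⊢
    rw [hSA, hSD]
    simp only [mem_union, not_or]
    rcases hp1 with h | h | h | h
    · subst h
      exact ⟨⟨f17, fun h' => (hAg1 _ h').1.1 rfl, hv1.2.2.1⟩, f18,
        ⟨fun h' => (hZ1 _ h').1 rfl, fun h' => (hS1 _ h').1 rfl⟩, hv1.2.2.2⟩
    · subst h
      exact ⟨⟨f19, fun h' => (hAg1 _ h').1.2.1 rfl, ha1.2.2.1⟩, f20,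
        ⟨fun h' => (hZ1 _ h').2.1 rfl, fun h' => (hS1 _ h').2.1 rfl⟩, ha1.2.2.2⟩
    · exact ⟨⟨fun h' => (hSAf1 _ h').1 h, fun h' => (hAg1 _ h').1.2.2.1 h, fun h' => (htl2 _ (mem_union_left _ h')).1 h⟩,
        fun h' => (hSDf1 _ h').1 h, ⟨fun h' => (hZ1 _ h').2.2.1 h, fun h' => (hS1 _ h').2.2.1 h⟩,
        fun h' => (htl2 _ (mem_union_right _ h')).1 h⟩
    · have h2 := htlm _ h
      exact ⟨⟨fun h' => (hSAf1 _ h').2.1 h2, fun h' => (hAg1 _ h').1.2.2.2.1 h2,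
        fun h' => (htl2 _ (mem_union_left _ h')).2 h2⟩,
        fun h' => (hSDf1 _ h').2.1 h2, ⟨fun h' => (hZ1 _ h').2.2.2.1 h2, fun h' => (hS1 _ h').2.2.2.1 h2⟩,
        fun h' => (htl2 _ (mem_union_right _ h')).2 h2⟩
  have hnodup : ((os₀ ++ [(z, q₀)]).map Prod.fst).Nodup := by
    rw [hfst, List.nodup_cons, List.nodup_cons, List.nodup_append]
    refine ⟨?_, ?_, hnd, e5, ?_⟩
    · rw [List.mem_cons, List.mem_append, not_or, not_or]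
      exact ⟨f7, hv1.1, fun h => hv1.2.1 (htlm _ h)⟩
    · rw [List.mem_append, not_or]
      exact ⟨ha1.1, fun h => ha1.2.1 (htlm _ h)⟩
    · intro x hx y hy hxy
      subst hxy
      exact (hys x hx).2.2 (hHt x (htlm x hy)).1
  have hchain : ((os₀ ++ [(z, q₀)]).map Prod.fst).IsChain R := by
    rw [hfst]
    rw [List.isChain_cons]
    refine ⟨?_, ?_⟩
    · intro b hb
      simp only [List.head?_cons, Option.mem_def, Option.some.injEq] at hb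
      rw [← hb]
      exact f5
    · rw [List.isChain_cons]
      refine ⟨?_, ?_⟩
      · intro b hb
        rw [List.head?_append, hfi] at hb
        simp only [Option.some_or, Option.mem_def, Option.some.injEq] at hb
        rw [← hb]
        exact f6
      · rw [List.isChain_append]
        rw [List.isChain_cons] at e4
        refine ⟨hch, e4.2, ?_⟩
        intro x hx y hy
        rw [hla, Option.mem_def, Option.some.injEq] at hx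
        rw [← hx]
        exact e4.1 y hy
  have hWX : W ∪ S ⊆ X₀ := by
    rw [hW]
    intro x hx
    rw [mem_union, mem_usedW] at hx
    rcases hx with (h | h | h | h | h | h | h | h) | h
    · rw [h]; exact f1
    · rw [h]; exact f4
    · exact hU₂X (hys x (List.mem_toFinset.1 h)).1
    · exact hU₂X (hP₂ (hHt x h).1)
    · exact hU₂X (union_subset e9 e10 h)
    · exact union_subset f12 f13 h
    · exact hU₂X (hZU h)
    · exact hU₂X (hU₁ (g2 h))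
    · exact hU₂X (hP₂ (hSm x h).1)
  have hYV : (P₂ \ (W ∪ Ex ∪ S)) ∪ ((X₀ \ (W ∪ S)) \ (P₂ \ (W ∪ Ex ∪ S))) = X₀ \ (W ∪ S) := by
    rw [union_sdiff_self_eq_union, union_eq_right]
    intro x hx
    rw [mem_sdiff, mem_union, mem_union] at hx
    push Not at hx
    rw [mem_sdiff, mem_union]
    push Not
    exact ⟨hU₂X (hP₂ hx.1), hx.2.1.1, hx.2.2⟩
  have hlist : l₁ :: l₂ :: (gr ++ (tl.map Prod.snd ++ L')) = (os₀ ++ [(z, q₀)]).map Prod.snd ++ L' := by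
    rw [hsnd]
    simp
  rw [hlist] at hsz ⊢
  refine nxt_glue hnodup hchain hEA hED hAD hhn (v := v) (by rw [hfst]; rfl) f2 (by rw [hused]; exact hWX) hL' hsz hSt
    (by rw [hused]; exact hYV) ?_
  rw [hYV]
  have hsub : ((X₀ \ (W ∪ S)) \ (P₂ \ (W ∪ Ex ∪ S))) \ low R sig' (X₀ \ (W ∪ S)) ⊆ (P₁ \ SAg) ∪ Ex := by
    intro x hx
    rw [mem_sdiff, mem_sdiff, mem_sdiff, mem_union] at hx
    obtain ⟨⟨⟨h1, h2⟩, h3⟩, h4⟩ := hx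
    rw [not_or] at h2
    have hxU : x ∈ U₂ := by
      rw [hX₁, mem_sdiff]
      refine ⟨h1, fun h5 => h4 ?_⟩
      have h6 := low_mono (sdiff_subset (s := X₀) (t := W ∪ S)) h5 (mem_sdiff.2 ⟨h1, by rw [mem_union, not_or]; exact h2⟩)
      rw [mem_low] at h6 ⊢
      exact ⟨h6.1, h6.2.trans_le hsig⟩
    rw [mem_union]
    rcases hpart x hxU with h | h | h
    · exact Or.inl (mem_sdiff.2 ⟨h, (hWm x h2.1).2.2.2.2.2.2.2.2.2⟩)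
    · right
      by_contra h5
      apply h3
      rw [mem_sdiff, mem_union, mem_union]
      push Not
      exact ⟨h, ⟨h2.1, h5⟩, h2.2⟩
    · exact absurd h (hWm x h2.1).2.2.1
  have h1 := (card_le_card hsub).trans (card_union_le _ _)
  have h2 : (P₁ \ SAg).card + (SAg ∩ P₁).card = P₁.card := by
    rw [inter_comm]
    exact card_sdiff_add_card_inter P₁ SAg
  have h3 : (SAg \ P₁).card + (SAg ∩ P₁).card = SAg.card := card_sdiff_add_card_inter SAg P₁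
  omega

end AEG
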