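import Pool.Agent.AEG.DefsG

/-!
# The fine class: composition of the heavy stages
-/

set_option autoImplicit false

namespace AEG

open Finset AE15 AED AEB
open scoped Classical

theorem NoDs.split {K : ℕ} {a b' L : List (Fd × Fd)} (h : NoDs K (a ++ b') L) : NoDs K a (b' ++ L) ∧ NoDs K b' L := by
  induction a with
  | nil => exact ⟨trivial, h⟩
  | cons q a ih =>
    obtain ⟨h1, h2⟩ := h
    obtain ⟨h3, h4⟩ := ih h2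
    refine ⟨⟨?_, h3⟩, h4⟩
    have h5 : NoD K q ((a ++ b') ++ L) := h1
    rwa [List.append_assoc] at h5

/-- the two parts of a heavy stage together -/
theorem after_comp {V : Type} {R : V → V → Prop} {κ η s : ℝ} {f K₁ lam' sig' w' : ℕ} {X X' : Finset V}
    {N N' : V → Prop} {Lt : List (Fd × Fd)} {t₁ t₂ t₃ : Fd × Fd} {L : List (Fd × Fd)} (hX : X' ⊆ X)
    (hc : X'.card + szS Lt = X.card + szS (t₁ :: t₂ :: t₃ :: L))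
    (hb : InS R (t₁ :: t₂ :: t₃ :: L) N' X' → InS R Lt N X)
    (h : After3 R κ η s f K₁ lam' sig' w' X' N' (t₁ :: t₂ :: t₃ :: L) t₂ t₃ L) :
    After R κ η s f K₁ lam' sig' w' X N Lt t₂ t₃ L := by
  obtain ⟨L', X'', z, h1, h2, h3, h4, h5⟩ := h
  exact ⟨L', X'', z, h1, h2.trans hX, by omega, h4, fun h6 => hb (h5 h6)⟩

theorem closeN_of {b l K₀ : ℕ} {κ η s ηw : ℝ} {Λ A ΛX AX Λ' A' : ℕ} (hηw : 0 < ηw) (hG : GroupN b l K₀ κ η s Λ A)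
    (hE : ExitR b l K₀ κ η s ηw ΛX AX) (hΛ : Λ * (ΛX + 1) + A * ΛX + 1 ≤ Λ') (hA : A * ΛX + AX ≤ A') :
    CloseN b l K₀ κ η s Λ' A' := by
  intro Nn ζ hζ
  obtain ⟨κw, sw, hκw, hsw, f₀, KG, hG⟩ := hG Nn ζ ηw hζ hηw
  obtain ⟨KX, hE⟩ := hE κw sw hκw hsw
  refine ⟨f₀, KX, ?_⟩
  intro f K' hf
  obtain ⟨δ, CX, hδ, hE⟩ := hE f KG
  obtain ⟨ξG, CG, hξG, hG⟩ := hG f K' hf
  obtain ⟨C, hC⟩ : ∃ C, C = Λ * CX + CG + A * CX + CX := ⟨_, rfl⟩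
  refine ⟨min ξG (δ * ζ / 5), C, lt_min hξG (by positivity), ?_⟩
  intro V R hT X N lam sig w lam' c l₁ l₂ l₃ t₁ t₂ t₃ gr L hSt hbr hlen hne hnd hc hszc hζX h1 h2 h3 h4
  obtain ⟨qt, hqt⟩ : ∃ qt, qt = inS [t₁, t₂, t₃] := ⟨_, rfl⟩
  obtain ⟨q, hq⟩ : ∃ q, q = inS [l₁, l₂, l₃] := ⟨_, rfl⟩
  obtain ⟨Q, hQ⟩ : ∃ Q, Q = inS gr := ⟨_, rfl⟩
  rw [← hqt] at h2 ⊢
  rw [← hq] at h1 h2 h4 ⊢
  rw [← hQ] at h3 h4 ⊢
  have hnd' : NoDs K₀ (l₁ :: l₂ :: l₃ :: gr) ([t₁, t₂, t₃] ++ L) ∧ NoDs K₀ [t₁, t₂, t₃] L := by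
    apply NoDs.split
    simpa using hnd
  have hsz : szS L ≤ szS (t₁ :: t₂ :: t₃ :: L) := by simp only [szS_cons]; omega
  -- consequences of `Λ'`
  have e1 : Λ * q ≤ Λ' * q := Nat.mul_le_mul_right _ (by nlinarith)
  have e2 : (Λ * (ΛX + 1) + A * ΛX + 1) * (q + qt + lam' + 1) ≤ Λ' * (q + qt + lam' + 1) := Nat.mul_le_mul_right _ hΛ
  have e3 : (Λ * (ΛX + 1) + A * ΛX + 1) * (q + qt + lam' + 1) = Λ * ΛX * (q + qt + lam' + 1) + Λ * (q + qt + lam' + 1) +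
    A * ΛX * (q + qt + lam' + 1) + (q + qt + lam' + 1) := by ring
  have e4 : Λ * ΛX * qt ≤ Λ * ΛX * (q + qt + lam' + 1) := Nat.mul_le_mul_left _ (by omega)
  have e5 : Λ * (q + 1) ≤ Λ * (q + qt + lam' + 1) := Nat.mul_le_mul_left _ (by omega)
  have e6 : A * ΛX * qt ≤ A * ΛX * (q + qt + lam' + 1) := Nat.mul_le_mul_left _ (by omega)
  have e7 : Λ * (q + (ΛX * qt + CX) + 1) = Λ * (q + 1) + Λ * ΛX * qt + Λ * CX := by ring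
  obtain ⟨w₁, hw₁, X', y, hX', hc', hSt', hb⟩ := hG hT X N lam sig w (ΛX * qt + CX) c l₁ l₂ l₃ gr (t₁ :: t₂ :: t₃ :: L)
    hSt hbr hlen (by simp) (by simpa using hnd'.1) (by omega) hszc
    (hζX.trans (by exact_mod_cast Nat.add_le_add_right hsz c)) (by rw [← hq]; omega) (by rw [← hq]; omega) (by omega)
    (by
      rw [← hq, ← hQ]
      exact h4.trans (mul_le_mul_of_nonneg_right (min_le_left _ _) (Nat.cast_nonneg _)))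
  rw [← hq, ← hQ] at hw₁
  have hX'c : X'.card = szS (t₁ :: t₂ :: t₃ :: L) + c := by omega
  have hX'ζ : ζ * X.card ≤ X'.card := by
    rw [hX'c]
    exact hζX.trans (by exact_mod_cast Nat.add_le_add_right hsz c)
  have e8 : A * (ΛX * qt + CX) = A * ΛX * qt + A * CX := by ring
  have hδ' : ((w₁ + sig + inS [t₁, t₂, t₃] + lam' : ℕ) : ℝ) ≤ δ * X'.card := by
    have h5 : w₁ + sig + qt + lam' ≤ 5 * (w + sig + q + Q) := by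
      have : max (w - Q) q ≤ w + q := by omega
      omega
    have h6 : ((w₁ + sig + qt + lam' : ℕ) : ℝ) ≤ 5 * ((w + sig + q + Q : ℕ) : ℝ) := by exact_mod_cast h5
    have h7 : ((w + sig + q + Q : ℕ) : ℝ) ≤ δ * ζ / 5 * X.card :=
      h4.trans (mul_le_mul_of_nonneg_right (min_le_right _ _) (Nat.cast_nonneg _))
    have h8 := mul_le_mul_of_nonneg_left hX'ζ hδ.le
    rw [← hqt]
    linarith
  obtain ⟨w', hw', hA'⟩ := hE hT X' ∅ (R y) (ΛX * qt + CX) sig w₁ 0 lam' t₁ t₂ t₃ L hSt' (Or.inl rfl)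
    (fun q hq => hbr q (by
      simp only [List.mem_cons, List.mem_append] at hq ⊢
      tauto)) hne hnd'.2 (by rw [← hqt]) hδ' (by omega) (by omega)
  refine ⟨w', ?_, after_comp hX' hc' hb hA'⟩
  rw [← hqt] at hw'
  have e9 : (A * ΛX + AX) * (qt + lam') ≤ A' * (qt + lam') := Nat.mul_le_mul_right _ hA
  have e10 : (A * ΛX + AX) * (qt + lam') = A * ΛX * qt + A * ΛX * lam' + AX * (qt + lam') := by ring
  omega

theorem closeD_of {b l K₀ : ℕ} {κ η s ηw : ℝ} {Λ A ΛX AX Λ' A' : ℕ} (hηw : 0 < ηw) (hG : GroupD b l K₀ κ η s Λ A)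
    (hE : ExitR b l K₀ κ η s ηw ΛX AX) (hΛ : Λ * (ΛX + 1) + A * ΛX + 1 ≤ Λ') (hA : A * ΛX + AX ≤ A') :
    CloseD b l K₀ κ η s Λ' A' := by
  intro Nn ζ hζ
  obtain ⟨κw, sw, hκw, hsw, f₀, KG, hG⟩ := hG Nn ζ ηw hζ hηw
  obtain ⟨KX, hE⟩ := hE κw sw hκw hsw
  refine ⟨f₀, KX, ?_⟩
  intro f K' hf
  obtain ⟨δ, CX, hδ, hE⟩ := hE f KG
  obtain ⟨ξG, CG, hξG, hG⟩ := hG f K' hf
  obtain ⟨C, hC⟩ : ∃ C, C = Λ * CX + CG + A * CX + CX := ⟨_, rfl⟩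
  refine ⟨min ξG (δ * ζ / 5), C, lt_min hξG (by positivity), ?_⟩
  intro V R hT X N lam sig w lam' c l₁ l₂ l₃ t₁ t₂ t₃ gr L hSt hbr hlen hne hnd hc hszc hζX h1 h2 h3 h4
  obtain ⟨qt, hqt⟩ : ∃ qt, qt = inS [t₁, t₂, t₃] := ⟨_, rfl⟩
  obtain ⟨q, hq⟩ : ∃ q, q = inS [l₁, l₂, l₃] := ⟨_, rfl⟩
  obtain ⟨Q, hQ⟩ : ∃ Q, Q = inS gr := ⟨_, rfl⟩
  rw [← hqt] at h3 ⊢
  rw [← hq] at h1 h3 h4 ⊢
  rw [← hQ] at h3 h4
  have hnd' : NoDs K₀ (l₁ :: l₂ :: l₃ :: gr) ([t₁, t₂, t₃] ++ L) ∧ NoDs K₀ [t₁, t₂, t₃] L := by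
    apply NoDs.split
    simpa using hnd
  have hsz : szS L ≤ szS (t₁ :: t₂ :: t₃ :: L) := by simp only [szS_cons]; omega
  have e1 : Λ * q ≤ Λ' * q := Nat.mul_le_mul_right _ (by nlinarith)
  obtain ⟨u, hu⟩ : ∃ u, u = w + sig + q + qt + lam' := ⟨_, rfl⟩
  rw [← hu] at h3
  have e2 : (Λ * (ΛX + 1) + A * ΛX + 1) * u ≤ Λ' * u := Nat.mul_le_mul_right _ hΛ
  have e3 : (Λ * (ΛX + 1) + A * ΛX + 1) * u = Λ * ΛX * u + Λ * u + A * ΛX * u + u := by ring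
  have e4 : Λ * ΛX * qt ≤ Λ * ΛX * u := Nat.mul_le_mul_left _ (by omega)
  have e5 : Λ * (w + sig + q) ≤ Λ * u := Nat.mul_le_mul_left _ (by omega)
  have e6 : A * ΛX * qt ≤ A * ΛX * u := Nat.mul_le_mul_left _ (by omega)
  have e7 : Λ * (w + sig + q + (ΛX * qt + CX)) = Λ * (w + sig + q) + Λ * ΛX * qt + Λ * CX := by ring
  obtain ⟨w₁, hw₁, X', y, hX', hc', hSt', hb⟩ := hG hT X N lam sig w (ΛX * qt + CX) c l₁ l₂ l₃ gr (t₁ :: t₂ :: t₃ :: L)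
    hSt hbr hlen (by simp) (by simpa using hnd'.1) (by omega) hszc
    (hζX.trans (by exact_mod_cast Nat.add_le_add_right hsz c)) (by rw [← hq]; omega) h2 (by rw [← hq, ← hQ]; omega)
    (by
      rw [← hq, ← hQ]
      exact h4.trans (mul_le_mul_of_nonneg_right (min_le_left _ _) (Nat.cast_nonneg _)))
  rw [← hq] at hw₁
  have hX'c : X'.card = szS (t₁ :: t₂ :: t₃ :: L) + c := by omega
  have hX'ζ : ζ * X.card ≤ X'.card := by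
    rw [hX'c]
    exact hζX.trans (by exact_mod_cast Nat.add_le_add_right hsz c)
  have e8 : A * (ΛX * qt + CX) = A * ΛX * qt + A * CX := by ring
  have hδ' : ((w₁ + 0 + inS [t₁, t₂, t₃] + lam' : ℕ) : ℝ) ≤ δ * X'.card := by
    have h5 : w₁ + 0 + qt + lam' ≤ 5 * (q + Q) := by omega
    have h6 : ((w₁ + 0 + qt + lam' : ℕ) : ℝ) ≤ 5 * ((q + Q : ℕ) : ℝ) := by exact_mod_cast h5
    have h7 : ((q + Q : ℕ) : ℝ) ≤ δ * ζ / 5 * X.card :=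
      h4.trans (mul_le_mul_of_nonneg_right (min_le_right _ _) (Nat.cast_nonneg _))
    have h8 := mul_le_mul_of_nonneg_left hX'ζ hδ.le
    rw [← hqt]
    linarith
  obtain ⟨w', hw', hA'⟩ := hE hT X' ∅ (R y) (ΛX * qt + CX) 0 w₁ 0 lam' t₁ t₂ t₃ L hSt' (Or.inl rfl)
    (fun q hq => hbr q (by
      simp only [List.mem_cons, List.mem_append] at hq ⊢
      tauto)) hne hnd'.2 (by rw [← hqt]) hδ' (by omega) (by omega)
  refine ⟨w', ?_, after_comp hX' hc' hb hA'⟩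
  rw [← hqt] at hw'
  have e9 : (A * ΛX + AX) * (qt + lam') ≤ A' * (qt + lam') := Nat.mul_le_mul_right _ hA
  have e10 : (A * ΛX + AX) * (qt + lam') = A * ΛX * qt + A * ΛX * lam' + AX * (qt + lam') := by ring
  omega

theorem closeE_of {b l K₀ : ℕ} {κ η s ηw : ℝ} {Λ Λ₁ A ΛX AX Λ' A' : ℕ} (hηw : 0 < ηw) (hΛ₁ : 1 ≤ Λ₁)
    (hG : GroupE b l K₀ κ η s Λ Λ₁ A) (hE : ExitR b l K₀ κ η s ηw ΛX AX) (hΛ : Λ * (ΛX + 1) + A * ΛX + 1 ≤ Λ')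
    (hA : A * ΛX + AX + ΛX ≤ A') : CloseE b l K₀ κ η s Λ' A' := by
  intro Nn ζ hζ
  obtain ⟨κw, sw, hκw, hsw, f₀, KG, hG⟩ := hG Nn ζ ηw hζ hηw
  obtain ⟨KX, hE⟩ := hE κw sw hκw hsw
  refine ⟨f₀, KX, ?_⟩
  intro f K' hf
  obtain ⟨δ, CX, hδ, hE⟩ := hE f KG
  obtain ⟨ξG, CG, hξG, hG⟩ := hG f K' hf
  obtain ⟨C, hC⟩ : ∃ C, C = Λ * CX + CG + A * CX + CX := ⟨_, rfl⟩
  refine ⟨min ξG (δ * ζ / 5), C, lt_min hξG (by positivity), ?_⟩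
  intro V R hT X N lam sig w lam' c l₁ l₂ l₃ t₁ t₂ t₃ gr L hSt hbr hlen hne hnd hc hszc hζX h1 h2 h0 h3 h4
  obtain ⟨qt, hqt⟩ : ∃ qt, qt = inS [t₁, t₂, t₃] := ⟨_, rfl⟩
  obtain ⟨q, hq⟩ : ∃ q, q = inS [l₁, l₂, l₃] := ⟨_, rfl⟩
  obtain ⟨Q, hQ⟩ : ∃ Q, Q = inS gr := ⟨_, rfl⟩
  rw [← hqt] at h3 h0 ⊢
  rw [← hq] at h1 h3 h4 h0
  rw [← hQ] at h3 h4
  have hnd' : NoDs K₀ (l₁ :: l₂ :: l₃ :: gr) ([t₁, t₂, t₃] ++ L) ∧ NoDs K₀ [t₁, t₂, t₃] L := by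
    apply NoDs.split
    simpa using hnd
  have hsz : szS L ≤ szS (t₁ :: t₂ :: t₃ :: L) := by simp only [szS_cons]; omega
  have e1 : Λ * q ≤ Λ' * q := Nat.mul_le_mul_right _ (by nlinarith)
  obtain ⟨u, hu⟩ : ∃ u, u = w + sig + q + qt + lam' := ⟨_, rfl⟩
  rw [← hu] at h3
  have e2 : (Λ * (ΛX + 1) + A * ΛX + 1) * u ≤ Λ' * u := Nat.mul_le_mul_right _ hΛ
  have e3 : (Λ * (ΛX + 1) + A * ΛX + 1) * u = Λ * ΛX * u + Λ * u + A * ΛX * u + u := by ring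
  have e4 : Λ * ΛX * qt ≤ Λ * ΛX * u := Nat.mul_le_mul_left _ (by omega)
  have e5 : Λ * (w + sig + q) ≤ Λ * u := Nat.mul_le_mul_left _ (by omega)
  have e6 : A * ΛX * qt ≤ A * ΛX * u := Nat.mul_le_mul_left _ (by omega)
  have e7 : Λ * (w + sig + q + (ΛX * qt + CX)) = Λ * (w + sig + q) + Λ * ΛX * qt + Λ * CX := by ring
  have e8 : A * (ΛX * qt + CX) = A * ΛX * qt + A * CX := by ring
  have e9 : (A * ΛX + AX + ΛX) * (qt + lam') ≤ A' * (qt + lam') := Nat.mul_le_mul_right _ hA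
  have e10 : (A * ΛX + AX + ΛX) * (qt + lam') = A * ΛX * qt + A * ΛX * lam' + AX * (qt + lam') + ΛX * qt + ΛX * lam' := by
    ring
  obtain ⟨w₁, E, hw₁, -, X', y, hX', hc', hSt', hb⟩ := hG hT X N lam sig w (ΛX * qt + CX) c l₁ l₂ l₃ gr
    (t₁ :: t₂ :: t₃ :: L) hSt hbr hlen (by simp) (by simpa using hnd'.1) (by omega) hszc
    (hζX.trans (by exact_mod_cast Nat.add_le_add_right hsz c)) (by rw [← hq]; omega) h2 (by rw [← hq]; omega)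
    (by rw [← hq]; omega) (by rw [← hq, ← hQ]; omega)
    (by
      rw [← hq, ← hQ]
      exact h4.trans (mul_le_mul_of_nonneg_right (min_le_left _ _) (Nat.cast_nonneg _)))
  rw [← hq] at hSt'
  have hX'c : X'.card = szS (t₁ :: t₂ :: t₃ :: L) + c := by omega
  have hX'ζ : ζ * X.card ≤ X'.card := by
    rw [hX'c]
    exact hζX.trans (by exact_mod_cast Nat.add_le_add_right hsz c)
  have hδ' : ((w₁ + 0 + inS [t₁, t₂, t₃] + lam' : ℕ) : ℝ) ≤ δ * X'.card := by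
    have h5 : w₁ + 0 + qt + lam' ≤ 5 * (q + Q) := by omega
    have h6 : ((w₁ + 0 + qt + lam' : ℕ) : ℝ) ≤ 5 * ((q + Q : ℕ) : ℝ) := by exact_mod_cast h5
    have h7 : ((q + Q : ℕ) : ℝ) ≤ δ * ζ / 5 * X.card :=
      h4.trans (mul_le_mul_of_nonneg_right (min_le_right _ _) (Nat.cast_nonneg _))
    have h8 := mul_le_mul_of_nonneg_left hX'ζ hδ.le
    rw [← hqt]
    linarith
  have hlamE : w₁ + 2 * 0 + CX ≤ Λ₁ * q := by
    have h5 : 1 * q ≤ Λ₁ * q := Nat.mul_le_mul_right _ hΛ₁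
    omega
  obtain ⟨w', hw', hA'⟩ := hE hT X' E (R y) (ΛX * qt + CX) 0 w₁ (Λ₁ * q) lam' t₁ t₂ t₃ L hSt' (Or.inr hlamE)
    (fun q hq => hbr q (by
      simp only [List.mem_cons, List.mem_append] at hq ⊢
      tauto)) hne hnd'.2 (by rw [← hqt]) hδ' (by omega) (by omega)
  refine ⟨w', ?_, after_comp hX' hc' hb hA'⟩
  rw [← hqt] at hw'
  omega

end AEG
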