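import Pool.Agent.AEG.ItG
import Pool.Agent.AEB.PELem

/-!
# Assembly of one embedding step, with items of any kind
-/

namespace AEG

open Finset AE15 AED AEB
open scoped Classical

variable {V : Type} {R : V → V → Prop}

/-- **Core**: the pending items `Lh` are embedded in disjoint pieces of `X`, outside of the set `Za` of all used vertices;
then the final item `cf` at the host `e` is embedded in the rest. -/
theorem coreG {X H Z Za : Finset V} {h e : V} {ω c μ ε δ : ℝ} {m : ℕ} (hω : 0 < ω)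
    (hω1 : ω ≤ 1 / 6) (hc : c = ω / 8) (hμ : 0 < μ) (hμω : μ ≤ ω / 16) (hδ : δ ≤ μ / 2)
    (hn40 : 40 ≤ X.card) (hmn : m ≤ X.card)
    {𝓕x : Finset (Finset V)} (h𝓕x : 𝓕x.card ≤ 8 * X.card ^ 2) (hHX : H ⊆ X) (hHc : (H.card : ℝ) ≤ μ / 2 * X.card)
    {F : Fd} {L Lh : List (V × Fd)} {cf : Fd} {t : V × Fd → ℝ}
    (hfin : ∀ A Q P : Finset V, A ⊆ X → (X.card : ℝ) ≤ 2 * A.card → Q ⊆ A → Rep A 𝓕x ε Q →
        c * A.card ≤ Q.card → P ⊆ X → Disjoint P Za → Q ⊆ P → H ⊆ P →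
        (((X \ A) \ P).card : ℝ) ≤ δ * X.card → X.card + (cf.size + 1) ≤ P.card + (F.size + (Za \ Z).card) →
        ∃ x ∈ P, ∃ B ⊆ P, x ∉ B ∧ R e x ∧ Emb R cf x B)
    (hPE : PE R F h Z L) (hZa : insert h Z ⊆ Za)
    (hmem : ∀ q ∈ L, q.1 = h ∨ q.1 ∈ Z) (hZH : Disjoint Za H) (hZc : (Za.card : ℝ) ≤ δ * X.card)
    (hL : L.Perm ((e, cf) :: Lh)) (hlen : Lh.length ≤ m)
    (ht0 : ∀ q ∈ Lh, 0 ≤ t q) (hit : ∀ q ∈ Lh, ItX R X ε μ (t q) q.1 q.2)
    (hsum : (Lh.map t).sum ≤ (1 - 5 * ω / 16) * X.card)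
    {n₁ : ℕ} (hn₁ : 2 * n₁ ≤ X.card) (hhost : ∀ (A : Finset V) (𝓕 : Finset (Finset V)), n₁ ≤ A.card →
      𝓕.card ≤ A.card ^ 5 →
      ∀ (L : List (V × Fd)) (t : V × Fd → ℝ), L.length ≤ m → (∀ q ∈ L, 0 ≤ t q) →
        (∀ q ∈ L, ItOk R A 𝓕 ε (t q) q.1 q.2) → (L.map t).sum ≤ (1 - 2 * c) * A.card →
        ∃ S Q : Finset V, S ⊆ A ∧ Q ⊆ A ∧ Disjoint S Q ∧ EmbI R L S ∧ c * A.card ≤ Q.card ∧ Rep A 𝓕 ε Q) :
    ∃ S ⊆ X, Disjoint S Za ∧ Emb R F h (Z ∪ S) := by
  obtain ⟨n, hnd⟩ : ∃ n : ℝ, n = (X.card : ℝ) := ⟨_, rfl⟩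
  have hn40' : (40 : ℝ) ≤ n := by rw [hnd]; exact_mod_cast hn40
  have hn0 : 0 < n := by linarith
  rw [← hnd] at hHc hZc hsum
  -- the set `A`
  set A := X \ (Za ∪ H) with hA
  have hAX : A ⊆ X := sdiff_subset
  have hXA : ((X \ A).card : ℝ) ≤ μ * n := by
    have h1 : X \ A ⊆ Za ∪ H := by
      intro w hw
      rw [hA, mem_sdiff, mem_sdiff] at hw
      by_contra hc
      exact hw.2 ⟨hw.1, hc⟩
    have h2 : ((X \ A).card : ℝ) ≤ Za.card + H.card := by
      have h3 := (card_le_card h1).trans (card_union_le _ _)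
      exact_mod_cast h3
    have h5 : δ * n ≤ μ / 2 * n := mul_le_mul_of_nonneg_right hδ hn0.le
    linarith
  have hAc : (1 - μ) * n ≤ A.card := by
    have h1 : X.card = A.card + (X \ A).card := by
      have := card_sdiff_add_card_eq_card hAX
      omega
    have h2 : n = A.card + (X \ A).card := by rw [hnd]; exact_mod_cast h1
    linarith
  have hμ1 : μ ≤ 1 / 2 := by linarith
  have hA2 : n ≤ 2 * A.card := by
    have : μ * n ≤ 1 / 2 * n := mul_le_mul_of_nonneg_right hμ1 hn0.le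
    linarith
  -- the families
  have hfam : ∀ q : V × Fd, ∃ 𝓕 : Finset (Finset V), 𝓕.card ≤ 7 * X.card ^ 2 ∧
      (q ∈ Lh → q.1 ∉ A → ItOk R A 𝓕 ε (t q) q.1 q.2) := by
    intro q
    by_cases hq : q ∈ Lh
    · obtain ⟨𝓕, h1, h2⟩ := hit q hq
      exact ⟨𝓕, h1, fun _ hqA => h2 A hAX (by rw [← hnd]; exact hXA) hqA⟩
    · exact ⟨∅, by simp, fun h => absurd h hq⟩
  choose Fam hFam1 hFam2 using hfam
  set 𝓕 := 𝓕x ∪ Lh.toFinset.biUnion Fam with h𝓕
  have h𝓕c : 𝓕.card ≤ A.card ^ 5 := by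
    have h1 : 𝓕.card ≤ 8 * X.card ^ 2 + Lh.toFinset.card * (7 * X.card ^ 2) := by
      refine (card_union_le _ _).trans (Nat.add_le_add h𝓕x ?_)
      exact card_biUnion_le_card_mul _ _ _ (fun y _ => hFam1 y)
    have h2 : Lh.toFinset.card ≤ X.card := (List.toFinset_card_le _).trans (hlen.trans hmn)
    have h3 : (𝓕.card : ℝ) ≤ 8 * n ^ 2 + n * (7 * n ^ 2) := by
      have h4 : (𝓕.card : ℝ) ≤ 8 * n ^ 2 + Lh.toFinset.card * (7 * n ^ 2) := by
        rw [hnd]; exact_mod_cast h1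
      have h5 : (Lh.toFinset.card : ℝ) ≤ n := by rw [hnd]; exact_mod_cast h2
      have h6 : (Lh.toFinset.card : ℝ) * (7 * n ^ 2) ≤ n * (7 * n ^ 2) :=
        mul_le_mul_of_nonneg_right (by linarith) (by positivity)
      linarith
    have h7 : (n / 2) ^ 5 ≤ (A.card : ℝ) ^ 5 := pow_le_pow_left₀ (by positivity) (by linarith) 5
    have h8 : 8 * n ^ 2 + n * (7 * n ^ 2) ≤ (n / 2) ^ 5 := by
      have h9 : 8 * n ^ 2 + n * (7 * n ^ 2) = n ^ 2 * (7 * n + 8) := by ring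
      have h10 : (n / 2) ^ 5 = n ^ 2 * (n * (n * n / 32)) := by ring
      have h11 : 40 * 40 ≤ n * n := mul_le_mul hn40' hn40' (by norm_num) hn0.le
      have h12 : n * 12 ≤ n * (n * n / 32) := mul_le_mul_of_nonneg_left (by linarith) hn0.le
      rw [h9, h10]
      exact mul_le_mul_of_nonneg_left (by linarith) (by positivity)
    exact_mod_cast h3.trans (h8.trans h7)
  -- sizes
  have hsz : F.size = Z.card + (cf.size + 1 + AEB.isz Lh) := by
    rw [hPE.size]
    congr 1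
    unfold AEB.isz
    rw [(hL.map _).sum_eq]
    simp
  have hsum' : (Lh.map t).sum ≤ (1 - 2 * c) * A.card := by
    have h3 : (1 - ω / 16) * n ≤ A.card := by
      refine le_trans (mul_le_mul_of_nonneg_right ?_ hn0.le) hAc
      linarith
    have h4 : (1 - 2 * c) * ((1 - ω / 16) * n) ≤ (1 - 2 * c) * A.card := mul_le_mul_of_nonneg_left h3 (by linarith)
    refine le_trans ?_ h4
    rw [hc]
    have h5 : (1 - 2 * (ω / 8)) * ((1 - ω / 16) * n) = (1 - 5 * ω / 16) * n + (ω * ω) / 64 * n := by ring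
    have h6 : 0 ≤ (ω * ω) / 64 * n := by positivity
    rw [h5]
    linarith
  obtain ⟨S, Q, hSA, hQA, hSQ, hSE, hQc, hQr⟩ := hhost A 𝓕 (by
      have h1 : 2 * (n₁ : ℝ) ≤ n := by rw [hnd]; exact_mod_cast hn₁
      have h2 : (n₁ : ℝ) ≤ A.card := by linarith
      exact_mod_cast h2) h𝓕c Lh t hlen ht0 (by
      intro q hq
      have hqA : q.1 ∉ A := by
        have h1 := hmem q (hL.symm.subset (List.mem_cons_of_mem _ hq))
        rw [hA, mem_sdiff, not_and, not_not]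
        intro _
        rw [mem_union]
        exact Or.inl (hZa (mem_insert.2 h1))
      refine (hFam2 q hq hqA).mono ?_
      rw [h𝓕]
      refine Subset.trans ?_ subset_union_right
      exact subset_biUnion_of_mem Fam (List.mem_toFinset.2 hq)) hsum'
  -- the final piece
  have hZA : Disjoint Za A := by
    rw [hA, disjoint_left]
    intro w h1 h2
    rw [mem_sdiff, mem_union] at h2
    exact h2.2 (Or.inl h1)
  have hHA : Disjoint H A := by
    rw [hA, disjoint_left]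
    intro w h1 h2
    rw [mem_sdiff, mem_union] at h2
    exact h2.2 (Or.inr h1)
  have hZS : Disjoint Za S := hZA.mono_right hSA
  set P₀ := X \ (Za ∪ S) with hP₀
  have hSc : S.card = AEB.isz Lh := hSE.card
  obtain ⟨x, hx, A₁, hA₁, hxA₁, hex, hE₁⟩ := hfin A Q P₀ hAX (by rw [← hnd]; exact hA2) hQA
    (fun F hF => hQr F (by rw [h𝓕]; exact mem_union_left _ hF)) hQc sdiff_subset (by
      rw [hP₀, disjoint_left]
      intro w h1 h2
      rw [mem_sdiff, mem_union] at h1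
      exact h1.2 (Or.inl h2)) (by
      intro w hw
      rw [hP₀, mem_sdiff, mem_union, not_or]
      exact ⟨hAX (hQA hw), fun h => disjoint_left.1 hZA h (hQA hw), fun h => disjoint_left.1 hSQ h hw⟩) (by
      intro w hw
      rw [hP₀, mem_sdiff, mem_union, not_or]
      exact ⟨hHX hw, fun h => disjoint_left.1 hZH h hw, fun h => disjoint_left.1 hHA hw (hSA h)⟩) (by
      rw [← hnd]
      refine le_trans ?_ hZc
      have h1 : (X \ A) \ P₀ ⊆ Za := by
        intro w hw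
        rw [mem_sdiff, mem_sdiff] at hw
        by_contra hc
        refine hw.2 ?_
        rw [hP₀, mem_sdiff, mem_union]
        exact ⟨hw.1.1, fun h => h.elim hc (fun h => hw.1.2 (hSA h))⟩
      exact_mod_cast card_le_card h1) (by
      have h2 : X ⊆ P₀ ∪ ((Za \ Z) ∪ Z ∪ S) := by
        intro w hw
        rw [hP₀, mem_union, mem_sdiff, mem_union, mem_union, mem_union, mem_sdiff]
        by_cases h3 : w ∈ Z
        · exact Or.inr (Or.inl (Or.inr h3))
        by_cases h4 : w ∈ S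
        · exact Or.inr (Or.inr h4)
        by_cases h5 : w ∈ Za
        · exact Or.inr (Or.inl (Or.inl ⟨h5, h3⟩))
        · exact Or.inl ⟨hw, fun h6 => h6.elim h5 h4⟩
      have h3 := card_le_card h2
      have h4 := card_union_le P₀ ((Za \ Z) ∪ Z ∪ S)
      have h5 := card_union_le ((Za \ Z) ∪ Z) S
      have h6 := card_union_le (Za \ Z) Z
      omega)
  have hSfP : insert x A₁ ⊆ P₀ := insert_subset hx hA₁
  have hZSf : Disjoint Za (insert x A₁) := by
    rw [disjoint_left]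
    intro w h1 h2
    have := hSfP h2
    rw [hP₀, mem_sdiff, mem_union] at this
    exact this.2 (Or.inl h1)
  have hSSf : Disjoint (insert x A₁) S := by
    rw [disjoint_left]
    intro w h2 h1
    have := hSfP h2
    rw [hP₀, mem_sdiff, mem_union] at this
    exact this.2 (Or.inr h1)
  have hX1 : EmbI R L (insert x A₁ ∪ S) :=
    EmbI.perm hL.symm ⟨insert x A₁, S, hSSf, rfl, ⟨x, A₁, hex, hxA₁, rfl, hE₁⟩, hSE⟩
  have hd : Disjoint Za (insert x A₁ ∪ S) := disjoint_union_right.2 ⟨hZSf, hZS⟩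
  have hZZa : Z ⊆ Za := (subset_insert _ _).trans hZa
  exact ⟨insert x A₁ ∪ S, union_subset (hSfP.trans sdiff_subset) (hSA.trans hAX), hd.symm,
    hPE.complete hX1 (hd.mono_left hZZa)⟩

end AEG
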