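import Pool.Agent.AEB.CoreB
import Pool.Agent.AEB.ConstB
import Pool.Agent.AEB.FinalD
import Pool.Agent.AEB.CovE
import Pool.Agent.AEB.FinY

/-!
# Theorem B: the last step for a list of items at several hosts
-/

set_option autoImplicit false

namespace AEG

open Finset AE15 AED AEB
open scoped Classical

variable {V : Type} {R : V → V → Prop}

/-- **Core**: the pending items (all at hosts in `Ks`, except the final one) are embedded in `X`, outside of the set `Za` of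
all used vertices -/
theorem coreW (hT : AE32.Tour R) {p : NP} {X H Ks Za : Finset V} {e : V} {ω c η η₁ κ₁ κ τ s σ₂ μ ε δ : ℝ} {m m₁ : ℕ}
    (P : CstB p X.card ω c η η₁ κ₁ κ τ s σ₂ μ ε δ m m₁)
    {𝓕x : Finset (Finset V)} (h𝓕x : 𝓕x.card ≤ 8 * X.card ^ 2) (hHX : H ⊆ X) (hHc : (H.card : ℝ) ≤ μ / 2 * X.card)
    {cf : Fd} (hfin : ∀ A Q P : Finset V, A ⊆ X → (X.card : ℝ) ≤ 2 * A.card → Q ⊆ A → Rep A 𝓕x ε Q →
        c * A.card ≤ Q.card → P ⊆ X → Disjoint P Za → Q ⊆ P → H ⊆ P →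
        (((X \ A) \ P).card : ℝ) ≤ δ * X.card → Cl R (Good R κ η P) s p cf P (R e))
    (hKX : Ks ⊆ X) (hKh : ∀ y ∈ Ks, ∃ Y ⊆ X, ((X \ Y).card : ℝ) ≤ 5 * η * X.card ∧ SuperG R κ₁ η₁ τ Y y)
    {L Lh : List (V × Fd)} (hmem : ∀ q ∈ Lh, q.1 ∈ Za) (hZH : Disjoint Za H) (hZc : (Za.card : ℝ) ≤ δ * X.card)
    (hL : L.Perm ((e, cf) :: Lh)) (hLh : ∀ q ∈ Lh, q.1 ∈ Ks) (hlen : Lh.length ≤ m)
    {n₁ : ℕ} (hn₁ : 2 * n₁ ≤ X.card) (hhost : ∀ (A : Finset V) (𝓕 : Finset (Finset V)), n₁ ≤ A.card →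
      𝓕.card ≤ A.card ^ 5 →
      ∀ (p : NP) (κ η s K C : ℝ), 0 ≤ K → 0 ≤ C → 0 < η → 14 * η ≤ 1 → ∀ L : List (V × Fd), L.length ≤ m →
        (∀ q ∈ L, OkB R κ η s p A 𝓕 ε m₁ (R q.1)) → (∀ q ∈ L, AEB.EE R κ η s p K C q.2) →
        (K * AEB.isz L + m * C) / (1 - 7 * η) + m * m₁ ≤ (1 - 2 * c) * A.card →
        ∃ S Q : Finset V, S ⊆ A ∧ Q ⊆ A ∧ Disjoint S Q ∧ EmbI R L S ∧ c * A.card ≤ Q.card ∧ Rep A 𝓕 ε Q)
    {K C K' C' : ℝ} (hK : 0 ≤ K) (hC : 0 ≤ C) (hK' : 1 ≤ K') (hC' : 0 ≤ C') (hKK : K ≤ (1 + ω) * K')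
    (hmC : m * C ≤ ω / 4 * X.card)
    (hEE : ∀ q ∈ Lh, AEB.EE R κ η s p K C q.2) (hEf : AEB.EE R κ η s p K' C' cf) {T z : ℝ} (hz0 : 0 ≤ z)
    (hsz' : T = z + ((cf.size : ℝ) + 1) + AEB.isz Lh) (hbig : 2 * ω * T ≤ cf.size + 1)
    (hn : K' * T + C' + Za.card ≤ X.card) :
    ∃ S ⊆ X, Disjoint S Za ∧ EmbI R L S := by
  obtain ⟨n, hnd⟩ : ∃ n : ℝ, n = (X.card : ℝ) := ⟨_, rfl⟩
  rw [← hnd] at P hHc hZc hmC hn
  obtain ⟨hc0, hη0, hc1, hη1, hn0, hμω, hn40, hσn⟩ := P.num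
  obtain ⟨hω, hω1, hc, hη, hη₁, hη₁', hκ₁, hκ₁', hκ, hκ', hσ₂, hσ₂τ, hσ₂κ, hσ₂η, hsτ, hμ, hμσ, hε, hε', hε1, hδ, hδμ,
    hn100, hm₁, hmm⟩ := P
  -- the set `A`
  set A := X \ (Za ∪ H) with hA
  have hAX : A ⊆ X := sdiff_subset
  have hXA : ((X \ A).card : ℝ) ≤ μ * n := by
    have h1 : X \ A ⊆ Za ∪ H := by
      intro w hw
      rw [hA, mem_sdiff, mem_sdiff] at hw
      by_contra hc
      exact hw.2 ⟨hw.1, hc⟩
    have h2 : ((X \ A).card : ℝ) ≤ Za.card + H.card := by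
      have h3 := (card_le_card h1).trans (card_union_le _ _)
      exact_mod_cast h3
    have h5 : δ * n ≤ μ / 2 * n := mul_le_mul_of_nonneg_right hδμ hn0.le
    have h7 : 0 < μ * n := by positivity
    linarith
  have hAc : (1 - μ) * n ≤ A.card := by
    have h1 : X.card = A.card + (X \ A).card := by
      have := card_sdiff_add_card_eq_card hAX
      omega
    have h2 : n = A.card + (X \ A).card := by rw [hnd]; exact_mod_cast h1
    linarith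
  have hμ1 : μ ≤ 1 / 2 := by linarith
  have hA2 : n ≤ 2 * A.card := by
    have : μ * n ≤ 1 / 2 * n := mul_le_mul_of_nonneg_right hμ1 hn0.le
    linarith
  -- the families
  have hfam : ∀ y : V, ∃ 𝓕 : Finset (Finset V), 𝓕.card ≤ 7 * X.card ^ 2 ∧
      (y ∈ Ks → y ∉ A → OkB R κ η s p A 𝓕 ε m₁ (R y)) := by
    intro y
    by_cases hy : y ∈ Ks
    · obtain ⟨Y, hY, hXY, hSY⟩ := hKh y hy
      obtain ⟨𝓕, h1, h2⟩ := piece_lemmaB hT p (σ₂ := σ₂) (μ := μ) (ε := ε) (κ := κ) (s := s) (m := m₁) hY hXY hSY hκ hη0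
        (by linarith) hκ₁ hκ₁' hη₁ hσ₂ hμ hε (by linarith) (by linarith) (by linarith) (by linarith)
        (by rw [← hnd]; exact hσn) hκ' hσ₂κ (by linarith) hε1 hsτ hm₁
      exact ⟨𝓕, h1, fun _ hyA => h2 A hAX hyA (by rw [← hnd]; exact hXA)⟩
    · exact ⟨∅, by simp, fun h => absurd h hy⟩
  choose Fam hFam1 hFam2 using hfam
  set 𝓕 := 𝓕x ∪ Ks.biUnion Fam with h𝓕
  have h𝓕c : 𝓕.card ≤ A.card ^ 5 := by
    have h1 : 𝓕.card ≤ 8 * X.card ^ 2 + Ks.card * (7 * X.card ^ 2) := by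
      refine (card_union_le _ _).trans (Nat.add_le_add h𝓕x ?_)
      exact card_biUnion_le_card_mul _ _ _ (fun y _ => hFam1 y)
    have h2 : Ks.card ≤ X.card := card_le_card hKX
    have h3 : (𝓕.card : ℝ) ≤ 8 * n ^ 2 + n * (7 * n ^ 2) := by
      have h4 : (𝓕.card : ℝ) ≤ 8 * n ^ 2 + Ks.card * (7 * n ^ 2) := by
        rw [hnd]; exact_mod_cast h1
      have h5 : (Ks.card : ℝ) ≤ n := by rw [hnd]; exact_mod_cast h2
      have h6 : (Ks.card : ℝ) * (7 * n ^ 2) ≤ n * (7 * n ^ 2) :=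
        mul_le_mul_of_nonneg_right (by linarith) (by positivity)
      linarith
    have h7 : (n / 2) ^ 5 ≤ (A.card : ℝ) ^ 5 := pow_le_pow_left₀ (by positivity) (by linarith) 5
    have h8 : 8 * n ^ 2 + n * (7 * n ^ 2) ≤ (n / 2) ^ 5 := by
      have h9 : 8 * n ^ 2 + n * (7 * n ^ 2) = n ^ 2 * (7 * n + 8) := by ring
      have h10 : (n / 2) ^ 5 = n ^ 2 * (n * (n * n / 32)) := by ring
      have h11 : 40 * 40 ≤ n * n := mul_le_mul hn40 hn40 (by norm_num) hn0.le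
      have h12 : n * 12 ≤ n * (n * n / 32) := mul_le_mul_of_nonneg_left (by linarith) hn0.le
      rw [h9, h10]
      exact mul_le_mul_of_nonneg_left (by linarith) (by positivity)
    exact_mod_cast h3.trans (h8.trans h7)
  -- sizes
  obtain ⟨tf, htf⟩ : ∃ tf : ℝ, tf = (cf.size : ℝ) + 1 := ⟨_, rfl⟩
  rw [← htf] at hbig hsz'
  have htf0 : 0 ≤ tf := by rw [htf]; positivity
  have hi0 : (0 : ℝ) ≤ AEB.isz Lh := by positivity
  have hT0 : 0 ≤ T := by linarith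
  have hsum : (K * AEB.isz Lh + m * C) / (1 - 7 * η) + m * m₁ ≤ (1 - 2 * c) * A.card := by
    have h1 : K * AEB.isz Lh ≤ (1 - ω) * n := by
      have h2 : (AEB.isz Lh : ℝ) ≤ (1 - 2 * ω) * T := by linarith
      have h3 : K * AEB.isz Lh ≤ (1 + ω) * K' * ((1 - 2 * ω) * T) := by
        refine (mul_le_mul_of_nonneg_right hKK hi0).trans (mul_le_mul_of_nonneg_left h2 (by positivity))
      have h4 : K' * T ≤ n := by
        have : (0 : ℝ) ≤ Za.card := by positivity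
        linarith
      have h5 : (1 + ω) * K' * ((1 - 2 * ω) * T) = ((1 + ω) * (1 - 2 * ω)) * (K' * T) := by ring
      have h6 : (1 + ω) * (1 - 2 * ω) ≤ 1 - ω := by
        have : 0 < ω * ω := by positivity
        linarith
      have h7 : 0 ≤ K' * T := by positivity
      calc K * AEB.isz Lh ≤ ((1 + ω) * (1 - 2 * ω)) * (K' * T) := by rw [← h5]; exact h3
        _ ≤ (1 - ω) * (K' * T) := mul_le_mul_of_nonneg_right h6 h7
        _ ≤ (1 - ω) * n := mul_le_mul_of_nonneg_left h4 (by linarith)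
    have h2 : (K * AEB.isz Lh + m * C) / (1 - 7 * η) ≤ (1 - 5 * ω / 8) * n := by
      rw [div_le_iff₀ (by linarith), hη]
      have h3 : (1 - 3 * ω / 4) * n ≤ (1 - 5 * ω / 8) * n * (1 - 7 * (ω / 56)) := by
        have h4 : (1 - 5 * ω / 8) * n * (1 - 7 * (ω / 56)) = (1 - 3 * ω / 4) * n + 5 * (ω * ω) / 64 * n := by ring
        have h5 : 0 ≤ 5 * (ω * ω) / 64 * n := by positivity
        linarith
      linarith
    have h3 : (1 - ω / 16) * n ≤ A.card := by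
      refine le_trans (mul_le_mul_of_nonneg_right ?_ hn0.le) hAc
      linarith
    have h4 : (1 - 2 * c) * ((1 - ω / 16) * n) ≤ (1 - 2 * c) * A.card := mul_le_mul_of_nonneg_left h3 (by linarith)
    refine le_trans ?_ h4
    rw [hc]
    have h5 : (1 - 2 * (ω / 8)) * ((1 - ω / 16) * n) = (1 - 5 * ω / 16) * n + (ω * ω) / 64 * n := by ring
    have h6 : 0 ≤ (ω * ω) / 64 * n := by positivity
    have h7 : 0 ≤ ω * n := by positivity
    rw [h5]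
    linarith
  obtain ⟨S, Q, hSA, hQA, hSQ, hSE, hQc, hQr⟩ := hhost A 𝓕 (by
      have h1 : 2 * (n₁ : ℝ) ≤ n := by rw [hnd]; exact_mod_cast hn₁
      have h2 : (n₁ : ℝ) ≤ A.card := by linarith
      exact_mod_cast h2) h𝓕c p κ η s K C hK hC hη0 (by linarith) Lh hlen (by
      intro q hq
      have hqK := hLh q hq
      have hqA : q.1 ∉ A := by
        rw [hA, mem_sdiff, not_and, not_not]
        intro _
        rw [mem_union]
        exact Or.inl (hmem q hq)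
      refine (hFam2 q.1 hqK hqA).mono ?_
      rw [h𝓕]
      refine Subset.trans ?_ subset_union_right
      exact subset_biUnion_of_mem Fam hqK) hEE hsum
  -- the final piece
  have hZA : Disjoint Za A := by
    rw [hA, disjoint_left]
    intro w h1 h2
    rw [mem_sdiff, mem_union] at h2
    exact h2.2 (Or.inl h1)
  have hHA : Disjoint H A := by
    rw [hA, disjoint_left]
    intro w h1 h2
    rw [mem_sdiff, mem_union] at h2
    exact h2.2 (Or.inr h1)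
  have hZS : Disjoint Za S := hZA.mono_right hSA
  set P₀ := X \ (Za ∪ S) with hP₀
  have hcls : Cl R (Good R κ η P₀) s p cf P₀ (R e) := by
    refine hfin A Q P₀ hAX (by rw [← hnd]; exact hA2) hQA (fun F hF => hQr F (by rw [h𝓕]; exact mem_union_left _ hF)) hQc
      sdiff_subset ?_ ?_ ?_ ?_
    · rw [hP₀, disjoint_left]
      intro w h1 h2
      rw [mem_sdiff, mem_union] at h1
      exact h1.2 (Or.inl h2)
    · intro w hw
      rw [hP₀, mem_sdiff, mem_union, not_or]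
      exact ⟨hAX (hQA hw), fun h => disjoint_left.1 hZA h (hQA hw), fun h => disjoint_left.1 hSQ h hw⟩
    · intro w hw
      rw [hP₀, mem_sdiff, mem_union, not_or]
      exact ⟨hHX hw, fun h => disjoint_left.1 hZH h hw, fun h => disjoint_left.1 hHA hw (hSA h)⟩
    · rw [← hnd]
      refine le_trans ?_ hZc
      have h1 : (X \ A) \ P₀ ⊆ Za := by
        intro w hw
        rw [mem_sdiff, mem_sdiff] at hw
        by_contra hc
        refine hw.2 ?_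
        rw [hP₀, mem_sdiff, mem_union]
        exact ⟨hw.1.1, fun h => h.elim hc (fun h => hw.1.2 (hSA h))⟩
      exact_mod_cast card_le_card h1
  have hSc : S.card = AEB.isz Lh := hSE.card
  have hPc : n - Za.card - AEB.isz Lh ≤ P₀.card := by
    have h1 : X.card ≤ P₀.card + (Za.card + S.card) := by
      have h2 : X ⊆ P₀ ∪ (Za ∪ S) := by
        intro w hw
        rw [hP₀, mem_union, mem_sdiff]
        tauto
      have h3 := card_le_card h2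
      have h4 := card_union_le P₀ (Za ∪ S)
      have h5 := card_union_le Za S
      omega
    have h3 : n ≤ P₀.card + ((Za.card : ℝ) + S.card) := by
      rw [hnd]; exact_mod_cast h1
    rw [hSc] at h3
    linarith
  obtain ⟨x, hx, A₁, hA₁, hxA₁, hex, hE₁⟩ := hEf P₀ (R e) (by
    refine le_trans ?_ hPc
    rw [← htf]
    have h1 : 0 ≤ (K' - 1) * (T - tf) := mul_nonneg (by linarith) (by linarith)
    linarith) hcls
  have hSfP : insert x A₁ ⊆ P₀ := insert_subset hx hA₁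
  have hZSf : Disjoint Za (insert x A₁) := by
    rw [disjoint_left]
    intro w h1 h2
    have := hSfP h2
    rw [hP₀, mem_sdiff, mem_union] at this
    exact this.2 (Or.inl h1)
  have hSSf : Disjoint (insert x A₁) S := by
    rw [disjoint_left]
    intro w h2 h1
    have := hSfP h2
    rw [hP₀, mem_sdiff, mem_union] at this
    exact this.2 (Or.inr h1)
  have hX1 : EmbI R L (insert x A₁ ∪ S) :=
    EmbI.perm hL.symm ⟨insert x A₁, S, hSSf, rfl, ⟨x, A₁, hex, hxA₁, rfl, hE₁⟩, hSE⟩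
  have hd : Disjoint Za (insert x A₁ ∪ S) := disjoint_union_right.2 ⟨hZSf, hZS⟩
  exact ⟨insert x A₁ ∪ S, union_subset (hSfP.trans sdiff_subset) (hSA.trans hAX), hd.symm, hX1⟩

/-- **The pieces**: all light items hang at hosts in `Ks`, everything used so far is in `Za` -/
theorem finW (p : NP) (hp : p.OK) {D₀ : ℕ} {ω c η η₁ κ₀ κ₁ κ γ₀ τ s σ₂ μ : ℝ}
    (P : KB D₀ ω c η η₁ κ₀ κ₁ κ γ₀ τ s σ₂ μ) {C : ℝ} (hC : 0 ≤ C) (m J : ℕ) : ∃ n₀ : ℕ,
    ∀ {V : Type} {R : V → V → Prop}, AE32.Tour R → ∀ {X G Ks Za : Finset V} {x : V} {D : Fd}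
      {L Lh : List (V × Fd)} {T z : ℝ}, n₀ ≤ X.card → G ⊆ X → (∀ g ∈ G, Good R κ₁ η₁ X g) →
      ((¬ NN D ∧ γ₀ / 16 * X.card ≤ ((nO R G x).card : ℝ)) ∨ CovE R p (γ₀ / 16) X G Za x (p.ub D)) →
      Za.card ≤ J → x ∈ Za → Ks ⊆ X →
      (∀ y ∈ Ks, ∃ Y ⊆ X, ((X \ Y).card : ℝ) ≤ 5 * η * X.card ∧ SuperG R κ₁ η₁ τ Y y) →
      (∀ q ∈ Lh, q.1 ∈ Za) → (∀ q ∈ L, FOK p.b p.l 0 q.2) → L.Perm ((x, D) :: Lh) → (∀ q ∈ Lh, q.1 ∈ Ks) →
      Lh.length ≤ m → 0 ≤ z → T = z + ((D.size : ℝ) + 1) + AEB.isz Lh →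
      T ≤ D₀ * (D.size + 1) → (∀ F' : Fd, FOK p.b p.l 0 F' → AEB.EE R κ η s p 1 C F') →
      T + C + J ≤ X.card → ∃ S ⊆ X, Disjoint S Za ∧ EmbI R L S := by
  obtain ⟨hω0, hω1, hc0, hc1, hη0, hη1, hη₁0, hη₁1, hκ₀0, hκ₁0, hκ₁1, hκ0, hκ1, hs0, hγ₀0, hτ0, hσ₂0, hμ0, hκ₁η, hκs⟩ :=
    P.num
  obtain ⟨hD, hω, hc, hη, hη₁, hκ₀, hκ₁, hκ, hγ₀, hτ, hs, hσ₂, hμ⟩ := P
  have hpc0 : (0 : ℝ) ≤ p.c0 := Nat.cast_nonneg _
  have hpc : (0 : ℝ) ≤ p.c := Nat.cast_nonneg _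
  have hcη : c * η ≤ 1 * η := mul_le_mul_of_nonneg_right (by linarith) hη0.le
  have hη₁1' : η₁ ≤ 1 / 16 := by linarith
  have hcη₁ : c * η₁ ≤ 1 * η₁ := mul_le_mul_of_nonneg_right (by linarith) hη₁0.le
  obtain ⟨σ, hσ⟩ : ∃ σ : ℝ, σ = μ / (8 * (1 + p.c0 + p.c)) := ⟨_, rfl⟩
  obtain ⟨ε, hε⟩ : ∃ ε : ℝ, ε = c * σ / 8 := ⟨_, rfl⟩
  have hσ0 : 0 < σ := by rw [hσ]; positivity
  have hε0 : 0 < ε := by rw [hε]; positivity
  have hσ1 : (1 + (p.c0 : ℝ) + p.c) * σ = μ / 8 := by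
    rw [hσ]
    field_simp
  have hσ2 : σ ≤ μ / 8 := by
    have h1 : 0 ≤ ((p.c0 : ℝ) + p.c) * σ := by positivity
    linarith
  have hcσ : c * σ ≤ 1 * σ := mul_le_mul_of_nonneg_right (by linarith) hσ0.le
  have hεσ : ε ≤ σ / 8 := by rw [hε]; linarith
  have hμκ : μ = κ₁ / 16 := by rw [hμ, hσ₂]; ring
  obtain ⟨m₁, hm₁⟩ : ∃ m₁ : ℕ, m₁ = ⌈16 * ((p.c : ℝ) + p.c0 + 2) / σ₂⌉₊ := ⟨_, rfl⟩
  have hm₁' : 16 * ((p.c : ℝ) + p.c0 + 2) ≤ σ₂ * m₁ := by
    have h1 : 16 * ((p.c : ℝ) + p.c0 + 2) / σ₂ ≤ m₁ := by rw [hm₁]; exact Nat.le_ceil _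
    rw [div_le_iff₀ hσ₂0] at h1
    linarith
  obtain ⟨n₁, hn₁⟩ := host_itemsB (c := c) hε0 (by linarith) hc0 m m₁
  obtain ⟨n₀, hn₀⟩ := exists_big [(100, ε), ((m : ℝ) * m₁, ω / 16),
      (8 * (p.c0 + p.c1 + p.u0 + p.g + 1 : ℝ), c * σ), (2 * n₁, 1), ((J : ℝ), ε), ((m : ℝ) * C, ω / 4), (1, 1)] (by
    intro q hq
    simp only [List.mem_cons, List.not_mem_nil, or_false] at hq
    rcases hq with rfl | rfl | rfl | rfl | rfl | rfl | rfl
    · exact hε0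
    · show 0 < ω / 16
      positivity
    · show 0 < c * σ
      positivity
    · exact one_pos
    · exact hε0
    · show 0 < ω / 4
      positivity
    · exact one_pos)
  refine ⟨n₀, ?_⟩
  intro V R hT X G Ks Za x D L Lh T z hnX hG hGg hcov hZaJ hxZ hKX hKh hmem hF hL hLh hlen hz0 hTz hsize hEE hn
  have hbig := hn₀ X.card hnX
  obtain ⟨n, hnd⟩ : ∃ n : ℝ, n = (X.card : ℝ) := ⟨_, rfl⟩
  rw [← hnd] at hbig hn
  have b1 : (100 : ℝ) ≤ ε * n := hbig (100, ε) (by simp)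
  have b2 : (m : ℝ) * m₁ ≤ ω / 16 * n := hbig ((m : ℝ) * m₁, ω / 16) (by simp)
  have b3 : 8 * (p.c0 + p.c1 + p.u0 + p.g + 1 : ℝ) ≤ c * σ * n :=
    hbig (8 * (p.c0 + p.c1 + p.u0 + p.g + 1 : ℝ), c * σ) (by simp)
  have b6 : 2 * (n₁ : ℝ) ≤ 1 * n := hbig (2 * (n₁ : ℝ), 1) (by simp)
  have b7 : (J : ℝ) ≤ ε * n := hbig ((J : ℝ), ε) (by simp)
  have b8 : (m : ℝ) * C ≤ ω / 4 * n := hbig ((m : ℝ) * C, ω / 4) (by simp)
  have b9 : 1 ≤ 1 * n := hbig (1, 1) (by simp)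
  have hn0 : 0 < n := by linarith
  have hX : X.Nonempty := by
    rw [← card_pos]
    rw [hnd] at hn0
    exact_mod_cast hn0
  have PC : CstB p n ω c η η₁ κ₁ κ τ s σ₂ μ ε ε m m₁ := by
    refine ⟨hω0, by linarith, hc, hη, hη₁0, ?_, hκ₁0, by linarith, hκ0, by linarith, hσ₂0, by linarith, by linarith,
      ?_, ?_, hμ0, by linarith, hε0, by linarith, by linarith, hε0, by linarith, b1, hm₁', b2⟩
    · linarith
    · linarith
    · linarith
  obtain ⟨𝓕x, H, h𝓕x, hHX, hHE, hHc, hfin⟩ := final_clE hT hp (κ := κ) (η := η) (s := s) (σ := σ) (δ := ε) (ε := ε)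
    (c := c) hG hGg hcov hxZ hX hκ0 hη0 hκ₁0 hη₁0 hσ0 hε0.le hε0 hc0 (by linarith) (by linarith) (by linarith)
    (by linarith) (by linarith) (by linarith) hs0 (by rw [hs, hγ₀]; linarith) (by rw [← hnd]; exact b3)
  rw [← hnd] at hHc
  have hJa : (Za.card : ℝ) ≤ J := by exact_mod_cast hZaJ
  refine coreW hT (by rw [← hnd]; exact PC) h𝓕x hHX ?_ hfin hKX hKh hmem hHE.symm ?_ hL hLh hlen (n₁ := n₁) ?_
    (fun A 𝓕 => hn₁ A 𝓕) (K := 1) (C := C) (K' := 1) (C' := C) zero_le_one hC le_rfl hC (by linarith) ?_ ?_ ?_ hz0 hTz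
    ?_ ?_
  · rw [← hnd]
    refine hHc.trans ?_
    have h1 : 3 * (1 + (p.c0 : ℝ) + p.c) * σ * n = 3 * ((1 + (p.c0 : ℝ) + p.c) * σ) * n := by ring
    rw [h1, hσ1]
    have h2 : 0 ≤ μ * n := by positivity
    linarith
  · rw [← hnd]
    linarith
  · have : 2 * (n₁ : ℝ) ≤ X.card := by rw [← hnd]; linarith
    exact_mod_cast this
  · rw [← hnd]
    exact b8
  · intro q hq
    exact hEE q.2 (hF q (hL.symm.subset (List.mem_cons_of_mem _ hq)))
  · exact hEE D (hF (x, D) (hL.symm.subset List.mem_cons_self))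
  · have hD' : (64 : ℝ) ≤ D₀ := by exact_mod_cast hD
    rw [hω]
    have h2 : 2 * (1 / (2 * (D₀ : ℝ))) * T = T / D₀ := by
      field_simp
    rw [h2, div_le_iff₀ (by linarith)]
    linarith
  · rw [← hnd]
    linarith

end AEG
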