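import Pool.Agent.AEG.GCutD
import Pool.Agent.AEG.PackB

/-!
# The reserve for the packing at the exact host in the large part

`exists_res`: a reserve `Hr` in the large part and boundedly many vertices `V₂` of the small part such that after the
removal of any small set which is disjoint from `Hr` all but boundedly many in-neighbours of the exact host have a
dominator with many in-neighbours. `GC.res` and `GCD.res` are the instances for the two group cuts; the conclusion is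
the hypothesis of `AEG.packR`.
-/

set_option autoImplicit false

namespace AEG

open Finset AE15 AEB SPD
open scoped Classical

variable {V : Type*} {R : V → V → Prop}

theorem exists_res (hT : AE32.Tour R) {P₁ P₂ Rsv Dm Gc Ex : Finset V} {Gd : V → Prop} {y : V} {c₀ j B e₁ : ℕ}
    (hDm : ∀ w ∈ Dm, w ∈ P₂ ∧ R y w ∧ Gd w) (hRsv : Rsv ⊆ P₂)
    (hcap : ∀ w ∈ Dm, 2 * c₀ ≤ ((P₁ ∪ P₂).filter (fun v => R v w ∧ Gd v)).card)
    (hcov : ∀ u ∈ P₂, R u y → u ∈ Ex ∨ (∃ w ∈ Rsv, w ∈ Dm ∧ R w u) ∨ u ∈ Gc ∨ j < (Dm.filter (fun w => R w u)).card)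
    (h0 : (Gc.filter (fun u => (Dm.filter (fun w => R w u)).card = 0)).card ≤ e₁)
    (hj : (Gc.filter (fun u => (Dm.filter (fun w => R w u)).card ≤ j)).card ≤ B) :
    ∃ Hr V₂ : Finset V, Hr ⊆ P₂ ∧ V₂ ⊆ P₁ ∧ V₂.card ≤ 2 * c₀ * c₀ ∧ Rsv ⊆ Hr ∧
      Hr.card ≤ (Rsv.card + B) * (1 + c₀) ∧ ∀ S₀ : Finset V, Disjoint S₀ Hr → S₀.card + 2 * c₀ ≤ j →
        ((P₂ \ S₀).filter (fun u => R u y ∧ ¬ ∃ w ∈ P₂ \ S₀, R y w ∧ R w u ∧ Gd w ∧
          c₀ ≤ (((P₂ \ S₀) ∪ V₂).filter (fun v => R v w ∧ Gd v)).card)).card ≤ Ex.card + e₁ := by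
  -- the chosen dominators
  have hdom : ∀ u, ∃ w, (Dm.filter (fun w => R w u)).Nonempty → w ∈ Dm ∧ R w u := by
    intro u
    by_cases h : (Dm.filter (fun w => R w u)).Nonempty
    · obtain ⟨w, hw⟩ := h
      rw [mem_filter] at hw
      exact ⟨w, fun _ => hw⟩
    · exact ⟨y, fun h' => absurd h' h⟩
  choose dom hdom using hdom
  obtain ⟨Gj, hGj⟩ : ∃ Gj, Gj = Gc.filter (fun u => (Dm.filter (fun w => R w u)).Nonempty ∧
    (Dm.filter (fun w => R w u)).card ≤ j) := ⟨_, rfl⟩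
  have hGjc : Gj.card ≤ B := by
    refine le_trans (card_le_card ?_) hj
    intro u hu
    rw [hGj, mem_filter] at hu
    rw [mem_filter]
    exact ⟨hu.1, hu.2.2⟩
  obtain ⟨HD, hHD⟩ : ∃ HD, HD = Rsv ∪ Gj.image dom := ⟨_, rfl⟩
  have hHDc : HD.card ≤ Rsv.card + B := by
    rw [hHD]
    refine (card_union_le _ _).trans (Nat.add_le_add_left (card_image_le.trans hGjc) _)
  have hHD2 : HD ⊆ P₂ := by
    rw [hHD]
    refine union_subset hRsv ?_
    intro w hw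
    obtain ⟨u, hu, rfl⟩ := mem_image.1 hw
    rw [hGj, mem_filter] at hu
    exact (hDm _ (hdom u hu.2.1).1).1
  -- their capacities
  have hcp : ∀ w, ∃ C ⊆ P₂, C.card ≤ c₀ ∧ (c₀ ≤ (P₂.filter (fun v => R v w ∧ Gd v)).card →
      c₀ ≤ (C.filter (fun v => R v w ∧ Gd v)).card) := by
    intro w
    by_cases h : c₀ ≤ (P₂.filter (fun v => R v w ∧ Gd v)).card
    · obtain ⟨C, hC, hCc⟩ := exists_subset_card_eq h
      refine ⟨C, hC.trans (filter_subset _ _), hCc.le, fun _ => ?_⟩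
      rw [filter_true_of_mem (fun v hv => (mem_filter.1 (hC hv)).2)]
      exact hCc.ge
    · exact ⟨∅, empty_subset _, by simp, fun h' => absurd h' h⟩
  choose cp hcp1 hcp2 hcp3 using hcp
  have hcq : ∀ w, ∃ C ⊆ P₁, C.card ≤ c₀ ∧ (c₀ ≤ (P₁.filter (fun v => R v w ∧ Gd v)).card →
      c₀ ≤ (C.filter (fun v => R v w ∧ Gd v)).card) := by
    intro w
    by_cases h : c₀ ≤ (P₁.filter (fun v => R v w ∧ Gd v)).card
    · obtain ⟨C, hC, hCc⟩ := exists_subset_card_eq h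
      refine ⟨C, hC.trans (filter_subset _ _), hCc.le, fun _ => ?_⟩
      rw [filter_true_of_mem (fun v hv => (mem_filter.1 (hC hv)).2)]
      exact hCc.ge
    · exact ⟨∅, empty_subset _, by simp, fun h' => absurd h' h⟩
  choose cq hcq1 hcq2 hcq3 using hcq
  obtain ⟨Lo, hLo⟩ : ∃ Lo, Lo = (P₂.filter Gd).filter (fun w => (nI R (P₂.filter Gd) w).card < c₀) := ⟨_, rfl⟩
  have hLoc : Lo.card ≤ 2 * c₀ := by
    rw [hLo]
    exact AEB.card_lowin hT _ _
  have hnI : ∀ w, nI R (P₂.filter Gd) w = P₂.filter (fun v => R v w ∧ Gd v) := by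
    intro w
    ext v
    rw [mem_nI, mem_filter, mem_filter]
    tauto
  obtain ⟨Hr, hHr⟩ : ∃ Hr, Hr = HD ∪ HD.biUnion cp := ⟨_, rfl⟩
  obtain ⟨V₂, hV₂⟩ : ∃ V₂, V₂ = Lo.biUnion cq := ⟨_, rfl⟩
  have hcapHD : ∀ S₀ : Finset V, Disjoint S₀ Hr → ∀ w ∈ HD, w ∈ Dm → c₀ ≤ (((P₂ \ S₀) ∪ V₂).filter
      (fun v => R v w ∧ Gd v)).card := by
    intro S₀ hS₀ w hw hwD
    by_cases h : c₀ ≤ (P₂.filter (fun v => R v w ∧ Gd v)).card
    · refine (hcp3 w h).trans (card_le_card ?_)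
      intro v hv
      rw [mem_filter] at hv
      rw [mem_filter, mem_union, mem_sdiff]
      refine ⟨Or.inl ⟨hcp1 w hv.1, fun hvS => ?_⟩, hv.2⟩
      refine disjoint_left.1 hS₀ hvS ?_
      rw [hHr, mem_union, mem_biUnion]
      exact Or.inr ⟨w, hw, hv.1⟩
    · have h1 := hcap w hwD
      have h2 : ((P₁ ∪ P₂).filter (fun v => R v w ∧ Gd v)).card ≤ (P₁.filter (fun v => R v w ∧ Gd v)).card +
          (P₂.filter (fun v => R v w ∧ Gd v)).card := by
        rw [filter_union]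
        exact card_union_le _ _
      refine (hcq3 w (by omega)).trans (card_le_card ?_)
      have hwL : w ∈ Lo := by
        rw [hLo, mem_filter, mem_filter, hnI]
        exact ⟨⟨(hDm w hwD).1, (hDm w hwD).2.2⟩, not_le.1 h⟩
      intro v hv
      rw [mem_filter] at hv
      rw [mem_filter, mem_union]
      refine ⟨Or.inr ?_, hv.2⟩
      rw [hV₂, mem_biUnion]
      exact ⟨w, hwL, hv.1⟩
  refine ⟨Hr, V₂, ?_, ?_, ?_, ?_, ?_, ?_⟩
  · rw [hHr]
    refine union_subset hHD2 ?_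
    intro v hv
    obtain ⟨w, -, hv⟩ := mem_biUnion.1 hv
    exact hcp1 w hv
  · rw [hV₂]
    intro v hv
    obtain ⟨w, -, hv⟩ := mem_biUnion.1 hv
    exact hcq1 w hv
  · rw [hV₂]
    exact (card_biUnion_le_card_mul _ _ _ (fun w _ => hcq2 w)).trans (Nat.mul_le_mul_right _ hLoc)
  · rw [hHr, hHD]
    exact subset_union_left.trans subset_union_left
  · rw [hHr]
    have h1 := card_union_le HD (HD.biUnion cp)
    have h2 := card_biUnion_le_card_mul HD cp c₀ (fun w _ => hcp2 w)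
    calc (HD ∪ HD.biUnion cp).card ≤ HD.card + HD.card * c₀ := h1.trans (Nat.add_le_add_left h2 _)
      _ = HD.card * (1 + c₀) := by ring
      _ ≤ (Rsv.card + B) * (1 + c₀) := Nat.mul_le_mul_right _ hHDc
  · intro S₀ hS₀ hSj
    have hHDS : ∀ w ∈ HD, w ∉ S₀ := by
      intro w hw hwS
      refine disjoint_left.1 hS₀ hwS ?_
      rw [hHr]
      exact mem_union_left _ hw
    refine le_trans (card_le_card ?_) ((card_union_le _ _).trans (Nat.add_le_add_left h0 _))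
    intro u hu
    rw [mem_filter, mem_sdiff] at hu
    obtain ⟨⟨hu2, huS⟩, huy, hun⟩ := hu
    rw [mem_union, mem_filter]
    by_contra hcon
    rw [not_or] at hcon
    obtain ⟨huE, huG⟩ := hcon
    apply hun
    have hgood : ∀ w ∈ HD, w ∈ Dm → R w u → ∃ w ∈ P₂ \ S₀, R y w ∧ R w u ∧ Gd w ∧
        c₀ ≤ (((P₂ \ S₀) ∪ V₂).filter (fun v => R v w ∧ Gd v)).card := by
      intro w hw hwD hwu
      exact ⟨w, mem_sdiff.2 ⟨(hDm w hwD).1, hHDS w hw⟩, (hDm w hwD).2.1, hwu, (hDm w hwD).2.2, hcapHD S₀ hS₀ w hw hwD⟩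
    have hbig : j < (Dm.filter (fun w => R w u)).card → ∃ w ∈ P₂ \ S₀, R y w ∧ R w u ∧ Gd w ∧
        c₀ ≤ (((P₂ \ S₀) ∪ V₂).filter (fun v => R v w ∧ Gd v)).card := by
      intro hbig
      have h1 : 2 * c₀ + 1 ≤ ((Dm.filter (fun w => R w u)) \ S₀).card := by
        have := le_card_sdiff S₀ (Dm.filter (fun w => R w u))
        omega
      obtain ⟨w, hw, hwc⟩ := exists_deg_in hT h1
      rw [mem_sdiff, mem_filter] at hw
      refine ⟨w, mem_sdiff.2 ⟨(hDm w hw.1.1).1, hw.2⟩, (hDm w hw.1.1).2.1, hw.1.2, (hDm w hw.1.1).2.2,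
        hwc.trans (card_le_card ?_)⟩
      intro v hv
      rw [mem_nI, mem_sdiff, mem_filter] at hv
      rw [mem_filter, mem_union, mem_sdiff]
      exact ⟨Or.inl ⟨(hDm v hv.1.1.1).1, hv.1.2⟩, hv.2, (hDm v hv.1.1.1).2.2⟩
    rcases hcov u hu2 huy with h | ⟨w, h1, h2, h3⟩ | h | h
    · exact absurd h huE
    · exact hgood w (by rw [hHD]; exact mem_union_left _ h1) h2 h3
    · by_cases h1 : (Dm.filter (fun w => R w u)).card ≤ j
      · have h2 : (Dm.filter (fun w => R w u)).Nonempty := by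
          rw [← card_pos]
          rcases Nat.eq_zero_or_pos (Dm.filter (fun w => R w u)).card with h3 | h3
          · exact absurd ⟨h, h3⟩ huG
          · exact h3
        obtain ⟨h3, h4⟩ := hdom u h2
        refine hgood (dom u) ?_ h3 h4
        rw [hHD, mem_union, mem_image]
        refine Or.inr ⟨u, ?_, rfl⟩
        rw [hGj, mem_filter]
        exact ⟨h, h2, h1⟩
      · exact hbig (not_le.1 h1)
    · exact hbig h

/-- **The reserve at the last host of the group cut** (first part small) -/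
theorem GC.res (hT : AE32.Tour R) {X Bd Bad : Finset V} {p q N e : ℕ} {κ₀ η : ℝ} {G : Finset V} {ys : List V} {y : V}
    {P₁ P₂ U₁ Rsv Gc Ex : Finset V} (h : GC R X Bd Bad p q N e κ₀ η G ys y P₁ P₂ U₁ Rsv Gc Ex) {c₀ j : ℕ}
    (hj : (j : ℝ) < κ₀ * X.card)
    (hcap : ∀ g ∈ G, g ∉ Bad → 2 * c₀ + N ≤ (X.filter (fun v => R v g ∧ Good R (κ₀ ^ 2 / 4) η X v)).card) :
    ∃ Hr V₂ : Finset V, Hr ⊆ P₂ ∧ V₂ ⊆ P₁ ∧ V₂.card ≤ 2 * c₀ * c₀ ∧ Rsv ⊆ Hr ∧
      Hr.card ≤ (2 * q + e + 1 + (6 * j + 4 * Bad.card + 4 * (N * e))) * (1 + c₀) ∧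
      ∀ S₀ : Finset V, Disjoint S₀ Hr → S₀.card + 2 * c₀ ≤ j → ∀ k t : ℝ, k ≤ κ₀ ^ 2 / 4 * X.card → η * X.card ≤ t →
        ((P₂ \ S₀).filter (fun u => R u y ∧ ¬ ∃ w ∈ P₂ \ S₀, R y w ∧ R w u ∧ Rea R X (P₂ \ S₀) k t w ∧
          c₀ ≤ (((P₂ \ S₀) ∪ V₂).filter (fun v => R v w ∧ Rea R X (P₂ \ S₀) k t v)).card)).card ≤
            e + (4 * Bad.card + 4 * (N * e)) ∧
        κ₀ * X.card - S₀.card ≤ (((P₂ \ S₀).filter (fun w => R y w ∧ Rea R X (P₂ \ S₀) k t w)).card : ℝ) := by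
  obtain ⟨Dm, hDm⟩ : ∃ Dm, Dm = P₂.filter (fun w => R y w ∧ w ∈ G ∧ w ∉ Bad) := ⟨_, rfl⟩
  have hP₂X : P₂ ⊆ X := fun w hw => ((h.part w).1 hw).1
  have hfil : ∀ u, Dm.filter (fun w => R w u) = P₂.filter (fun w => R y w ∧ R w u ∧ w ∈ G ∧ w ∉ Bad) := by
    intro u
    ext w
    rw [hDm, mem_filter, mem_filter, mem_filter]
    tauto
  have hκX : (0 : ℝ) ≤ κ₀ * X.card := (Nat.cast_nonneg j).trans hj.le
  obtain ⟨Hr, V₂, a1, a2, a3, a4, a5, a6⟩ := exists_res hT (P₁ := P₁) (P₂ := P₂) (Rsv := Rsv) (Dm := Dm) (Gc := Gc)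
    (Ex := Ex) (Gd := Good R (κ₀ ^ 2 / 4) η X) (y := y) (c₀ := c₀) (j := j) (B := 6 * j + 4 * Bad.card + 4 * (N * e))
    (e₁ := 4 * Bad.card + 4 * (N * e)) (by
      intro w hw
      rw [hDm, mem_filter] at hw
      exact ⟨hw.1, hw.2.1, h.good w hw.2.2.1⟩) (fun w hw => (h.hRsv w hw).1) (by
      intro w hw
      rw [hDm, mem_filter] at hw
      have h1 := hcap w hw.2.2.1 hw.2.2.2
      have h2 : X.filter (fun v => R v w ∧ Good R (κ₀ ^ 2 / 4) η X v) ⊆
          (P₁ ∪ P₂).filter (fun v => R v w ∧ Good R (κ₀ ^ 2 / 4) η X v) ∪ ys.toFinset := by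
        intro v hv
        rw [mem_filter] at hv
        rw [mem_union, mem_filter, mem_union, List.mem_toFinset]
        by_cases h3 : v ∈ ys
        · exact Or.inr h3
        · by_cases h4 : v ∈ P₁
          · exact Or.inl ⟨Or.inl h4, hv.2⟩
          · exact Or.inl ⟨Or.inr ((h.part v).2 ⟨hv.1, h4, h3⟩), hv.2⟩
      have h3 := (card_le_card h2).trans (card_union_le _ _)
      have h4 := ys.toFinset_card_le
      rw [h.len] at h4
      omega) (by
      intro u hu huy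
      rcases h.out u hu huy with h1 | ⟨w, h1, h2, h3⟩ | h1 | h1
      · exact Or.inl h1
      · refine Or.inr (Or.inl ⟨w, h1, ?_, h3⟩)
        rw [hDm, mem_filter]
        obtain ⟨h4, h5, h6⟩ := h.hRsv w h1
        exact ⟨h4, h2, h5, h6⟩
      · exact Or.inr (Or.inr (Or.inl h1))
      · refine Or.inr (Or.inr (Or.inr ?_))
        rw [hfil]
        exact_mod_cast hj.trans_le h1) (by
      have h1 := h.cnt 0 (by simpa using hκX)
      have h2 : (Gc.filter (fun u => (Dm.filter (fun w => R w u)).card = 0)) ⊆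
          Gc.filter (fun u => (P₂.filter (fun w => R y w ∧ R w u ∧ w ∈ G ∧ w ∉ Bad)).card ≤ 0) := by
        intro u hu
        rw [mem_filter, hfil] at hu
        rw [mem_filter]
        exact ⟨hu.1, hu.2.le⟩
      have h3 := card_le_card h2
      omega) (by
      have h1 := h.cnt j hj.le
      have h2 : (Gc.filter (fun u => (Dm.filter (fun w => R w u)).card ≤ j)) ⊆
          Gc.filter (fun u => (P₂.filter (fun w => R y w ∧ R w u ∧ w ∈ G ∧ w ∉ Bad)).card ≤ j) := by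
        intro u hu
        rw [mem_filter, hfil] at hu
        rw [mem_filter]
        exact hu
      exact (card_le_card h2).trans h1)
  refine ⟨Hr, V₂, a1, a2, a3, a4, a5.trans (Nat.mul_le_mul_right _ (Nat.add_le_add_right h.hRc _)), ?_⟩
  intro S₀ hS₀ hSj k t hk ht
  have hrea : ∀ v, Good R (κ₀ ^ 2 / 4) η X v → Rea R X (P₂ \ S₀) k t v := fun v hv =>
    AECut.rea_mono (AECut.Good.rea hv (sdiff_subset.trans hP₂X) ht) hk le_rfl
  constructor
  · refine le_trans (card_le_card ?_) ((a6 S₀ hS₀ hSj).trans (Nat.add_le_add_right h.hEx _))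
    intro u hu
    rw [mem_filter] at hu ⊢
    refine ⟨hu.1, hu.2.1, fun hc => hu.2.2 ?_⟩
    obtain ⟨w, h1, h2, h3, h4, h5⟩ := hc
    refine ⟨w, h1, h2, h3, hrea w h4, h5.trans (card_le_card ?_)⟩
    intro v hv
    rw [mem_filter] at hv ⊢
    exact ⟨hv.1, hv.2.1, hrea v hv.2.2⟩
  · have h1 := h.lin
    have h2 : P₂.filter (fun w => R y w ∧ w ∈ G ∧ w ∉ Bad) ⊆
        (P₂ \ S₀).filter (fun w => R y w ∧ Rea R X (P₂ \ S₀) k t w) ∪ S₀ := by
      intro w hw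
      rw [mem_filter] at hw
      rw [mem_union, mem_filter, mem_sdiff]
      by_cases h3 : w ∈ S₀
      · exact Or.inr h3
      · exact Or.inl ⟨⟨hw.1, h3⟩, hw.2.1, hrea w (h.good w hw.2.2.1)⟩
    have h3 := (card_le_card h2).trans (card_union_le _ _)
    have h4 : ((P₂.filter (fun w => R y w ∧ w ∈ G ∧ w ∉ Bad)).card : ℝ) ≤
        ((P₂ \ S₀).filter (fun w => R y w ∧ Rea R X (P₂ \ S₀) k t w)).card + S₀.card := by exact_mod_cast h3
    linarith

theorem GCD.gc {X Bd Bad : Finset V} {p q N e : ℕ} {κ₀ η : ℝ} {G : Finset V} {ys : List V} {y : V}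
    {P₁ P₂ U₂ Rsv Gc Ex : Finset V} (h : GCD R X Bd Bad p q N e κ₀ η G ys y P₁ P₂ U₂ Rsv Gc Ex) :
    GC (rv R) X Bd Bad p q N e κ₀ η G ys.reverse y P₂ P₁ U₂ Rsv Gc Ex where
  hGX := h.hGX
  hG := h.hG
  good := h.good
  bulk := h.bulk
  len := by rw [List.length_reverse]; exact h.len
  nodup := List.nodup_reverse.2 h.nodup
  chain := isChain_rv_reverse (R := rv R) h.chain
  last := by rw [List.getLast?_reverse]; exact h.first
  hys := by
    intro z hz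
    obtain ⟨h1, h2, h3, h4, h5⟩ := h.hys z (List.mem_reverse.1 hz)
    exact ⟨h1, h2, h4, h3, h5⟩
  hP₁ := h.hP₂
  hU₁ := h.hU₂
  hU₁c := h.hU₂c
  card₁ := h.card₂
  disj := h.disj.symm
  part := by
    intro u
    rw [List.mem_reverse]
    exact h.part u
  inn := fun z hz => h.out z (List.mem_reverse.1 hz)
  inn₁ := by
    intro z hz
    rw [List.head?_reverse] at hz
    exact h.out₁ z hz
  hRsv := h.hRsv
  hRc := h.hRc
  lin := h.lin
  out := h.inn
  cnt := h.cnt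
  hEx := h.hEx

/-- **The reserve at the first host of the dual group cut** (second part small) -/
theorem GCD.res (hT : AE32.Tour R) {X Bd Bad : Finset V} {p q N e : ℕ} {κ₀ η : ℝ} {G : Finset V} {ys : List V} {y : V}
    {P₁ P₂ U₂ Rsv Gc Ex : Finset V} (h : GCD R X Bd Bad p q N e κ₀ η G ys y P₁ P₂ U₂ Rsv Gc Ex) {c₀ j : ℕ}
    (hj : (j : ℝ) < κ₀ * X.card)
    (hcap : ∀ g ∈ G, g ∉ Bad → 2 * c₀ + N ≤ (X.filter (fun v => rv R v g ∧ Good (rv R) (κ₀ ^ 2 / 4) η X v)).card) :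
    ∃ Hr V₂ : Finset V, Hr ⊆ P₁ ∧ V₂ ⊆ P₂ ∧ V₂.card ≤ 2 * c₀ * c₀ ∧ Rsv ⊆ Hr ∧
      Hr.card ≤ (2 * q + e + 1 + (6 * j + 4 * Bad.card + 4 * (N * e))) * (1 + c₀) ∧
      ∀ S₀ : Finset V, Disjoint S₀ Hr → S₀.card + 2 * c₀ ≤ j → ∀ k t : ℝ, k ≤ κ₀ ^ 2 / 4 * X.card → η * X.card ≤ t →
        ((P₁ \ S₀).filter (fun u => rv R u y ∧ ¬ ∃ w ∈ P₁ \ S₀, rv R y w ∧ rv R w u ∧ Rea (rv R) X (P₁ \ S₀) k t w ∧
          c₀ ≤ (((P₁ \ S₀) ∪ V₂).filter (fun v => rv R v w ∧ Rea (rv R) X (P₁ \ S₀) k t v)).card)).card ≤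
            e + (4 * Bad.card + 4 * (N * e)) ∧
        κ₀ * X.card - S₀.card ≤ (((P₁ \ S₀).filter (fun w => rv R y w ∧ Rea (rv R) X (P₁ \ S₀) k t w)).card : ℝ) :=
  GC.res (rv_tour hT) h.gc hj hcap

/-- the set of the good vertices with few good in-neighbours is small -/
theorem card_bad (hT : AE32.Tour R) (X : Finset V) (Gd : V → Prop) (lam : ℕ) :
    ((X.filter Gd).filter (fun g => (X.filter (fun v => R v g ∧ Gd v)).card < lam)).card ≤ 2 * lam := by
  have h1 := AEB.card_lowin hT (X.filter Gd) lam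
  have h2 : ∀ g, nI R (X.filter Gd) g = X.filter (fun v => R v g ∧ Gd v) := by
    intro g
    ext v
    rw [mem_nI, mem_filter, mem_filter]
    tauto
  simp only [h2] at h1
  exact h1

end AEG
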