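import Pool.Agent.AEG.CritM

/-!
# From a critical group to the next group: numbers
-/

set_option autoImplicit false

namespace AEG

open Finset AE15 AED AEB SPD
open scoped Classical

theorem cn_pp {Q' xq' c₁' w₀ W pp sg : ℕ} (hsgQ : 1024 * sg ≤ Q') (hW : W ≤ 2 * sg)
    (hpp : pp = Q' + xq' + c₁' + w₀ + 4 - W) :
    pp + W = Q' + xq' + c₁' + w₀ + 4 ∧ 3 * Q' ≤ 4 * pp ∧ Q' + c₁' ≤ 2 * pp := by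
  refine ⟨by omega, by omega, by omega⟩

theorem cn_ppM {q Q' xq' bb' c₁' C w₀ W pp sg M CT : ℕ} (hM : M = q + Q' + xq' + bb' + c₁' + C) (hsgQ : 1024 * sg ≤ Q')
    (hpp : pp + W = Q' + xq' + c₁' + w₀ + 4) (hw₀ : w₀ + 4 + CT ≤ C) (hsg : sg ≤ 16 * bb' + CT) :
    pp ≤ M ∧ sg ≤ M ∧ 6 * pp + 2 * sg ≤ 64 * M := by
  refine ⟨by omega, by omega, by omega⟩

theorem cn_sum {Pc pp sg mB q Q lam' bb' le' J M mm : ℕ} (h1 : 2048 * M ≤ Pc) (h2 : pp ≤ M) (h3 : sg ≤ M) (h4 : q ≤ M)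
    (h5 : bb' ≤ M) (h6 : J + 1 ≤ M) (h7 : Q ≤ Pc) (hmB : mB = 2 * (le' + 2 * lam' + bb' + J) + 1)
    (hmm : mm = Pc + lam' + le') : Pc + pp + sg + mB + q + Q + lam' + bb' ≤ 8 * mm := by
  omega

theorem cn_sum2 {Pc pp mB lam' bb' le' J M mm Ci : ℕ} (h1 : 2048 * M ≤ Pc) (h2 : pp ≤ M) (h5 : bb' ≤ M)
    (h6 : J + 1 ≤ M) (h8 : Ci ≤ M) (hmB : mB = 2 * (le' + 2 * lam' + bb' + J) + 1) (hmm : mm = Pc + lam' + le') :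
    mB + 6 * pp + Ci ≤ 8 * mm := by
  omega

theorem cn_bb {q Q' xq' bb' c₁' C le' lam' bb pp sg mB J W w₀ Ci CT : ℕ}
    (hbb : 64 * (q + Q' + xq' + bb' + le' + lam' + c₁') + C ≤ bb) (hpp : pp + W = Q' + xq' + c₁' + w₀ + 4)
    (hsg2 : sg ≤ 16 * bb' + CT) (hmB : mB = 2 * (le' + 2 * lam' + bb' + J) + 1)
    (hC : 8 * (w₀ + 4 + CT + J + Ci + 1) ≤ C) : mB + (6 * pp + 2 * sg) + 24 * q + Ci ≤ bb := by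
  omega

theorem cn_w {w C Q' c₁' pp Ct : ℕ} (hΛw : 64 * w + C ≤ Q' + c₁') (h : Q' + c₁' ≤ 2 * pp) (hC : 2 * Ct ≤ C) :
    16 * w + Ct ≤ pp := by
  omega

theorem cn_mass {P X q₁ q₂ q₃ q₄ o₁ o₂ o₃ o₄ Q so ln sg' sL cx Qo tot : ℕ} (hsum : P + X = Qo + tot + cx)
    (htot : tot = q₁ + o₁ + 1 + (q₂ + o₂ + 1 + (q₃ + o₃ + 1 + (q₄ + o₄ + 1 + (sg' + sL)))))
    (hgr : Q + so + ln = sg') : o₁ + o₂ + o₃ + o₄ + so + (sL + cx) ≤ P + X := by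
  omega

theorem cn_card {N X' Q Q' tot PX sL cx W pp w₀ xq' c₁' Nc r : ℕ} (hE : Nc + X' + Q + tot = PX + Q' + sL)
    (hsum : PX = Q + tot + cx) (h1 : N - r ≤ Nc) (h2 : Nc ≤ N) (h3 : N = pp + W)
    (h4 : pp + W = Q' + xq' + c₁' + w₀ + 4) (h5 : r ≤ w₀ + 4) :
    Q' + xq' + c₁' ≤ Nc ∧ Nc ≤ Q' + xq' + c₁' + (w₀ + 4) ∧ Nc + X' = Q' + sL + cx := by
  refine ⟨by omega, by omega, by omega⟩

/-- all numbers of the step -/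
theorem crit_numbers {q Q Q' xq' bb' c₁' C Pc lam' le' C₀ C₂i w₀ J Nn Ci Cc Ct Cp w bb le Λp : ℕ} {η₀ : ℝ}
    (hη₀ : 0 < η₀) (hη₀1 : η₀ ≤ 1 / 8) (hΛη : 2048 ≤ η₀ * (Λp : ℝ))
    (hC : C = 64 * (Ci + Cc + Ct + Cp + (64 + 16 * J + 4 * w₀ + 2 * Nn) + C₀ + C₂i + w₀ + J + Nn + 10))
    (hPl : Q + q + C₀ ≤ Pc) (hPu : Pc ≤ Q + q + C₀ + C₂i)
    (hbb : 64 * (q + Q' + xq' + bb' + le' + lam' + c₁') + C ≤ bb) (hΛp : Λp * (q + Q' + xq' + bb' + c₁' + C) ≤ Pc)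
    (hcase : Λp * (bb' + lam' + c₁' + C) ≤ Q' ∧ xq' ≤ bb' ∨ bb' = 0 ∧ xq' = 0)
    (hΛw : 64 * w + C ≤ Q' + c₁') (hwle : w + C ≤ le) :
    ∃ sg M : ℕ, (bb' = 0 ∨ 16 * bb' + (64 + 16 * J + 4 * w₀ + 2 * Nn) ≤ sg) ∧ Λp * M ≤ Pc ∧
      ∀ W : ℕ, W ≤ 2 * sg → ∃ pp mB : ℕ, pp + W = Q' + xq' + c₁' + w₀ + 4 ∧ mB = 2 * (le' + 2 * lam' + bb' + J) + 1 ∧
        96 * (sg : ℝ) ≤ η₀ * pp ∧ Pc + pp + sg + mB + q + Q + lam' + bb' ≤ 8 * (Pc + lam' + le') ∧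
        pp + sg ≤ Pc + lam' + le' ∧ mB + 6 * pp + Ci ≤ 8 * (Pc + lam' + le') ∧ C ≤ Pc + lam' + le' ∧
        16 * w + Ct ≤ pp ∧ w + Ct ≤ le ∧ 16 * q + Ci ≤ Pc ∧ mB + (6 * pp + 2 * sg) + 24 * q + Ci ≤ bb ∧
        6 * pp + 2 * sg ≤ 64 * M ∧ 2 * (le' + 2 * lam' + bb' + J) ≤ mB ∧ Cp ≤ pp ∧ 2 * sg ≤ Pc + lam' + le' ∧
        Cc ≤ C ∧ Q + q + C₀ ≤ Pc := by
  have hΛp0 : (0 : ℝ) ≤ Λp := Nat.cast_nonneg _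
  have hΛbig : 2048 ≤ Λp := by
    have h1 : η₀ * (Λp : ℝ) ≤ 1 * Λp := mul_le_mul_of_nonneg_right (by linarith) hΛp0
    exact_mod_cast (by linarith : (2048 : ℝ) ≤ Λp)
  obtain ⟨CT, hCT⟩ : ∃ CT, CT = 64 + 16 * J + 4 * w₀ + 2 * Nn := ⟨_, rfl⟩
  rw [← hCT] at hC ⊢
  clear hCT
  have k1 : 8 * (w₀ + 4 + CT + J + Ci + 1) ≤ C := by
    clear hPl hPu hbb hΛp hcase hΛw hwle
    omega
  have k2 : 2 * Ct ≤ C := by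
    clear hPl hPu hbb hΛp hcase hΛw hwle k1
    omega
  have k3 : 2 * Cp ≤ C := by
    clear hPl hPu hbb hΛp hcase hΛw hwle k1 k2
    omega
  have k4 : Cc ≤ C := by
    clear hPl hPu hbb hΛp hcase hΛw hwle k1 k2 k3
    omega
  clear hC
  obtain ⟨M, hM⟩ : ∃ M, M = q + Q' + xq' + bb' + c₁' + C := ⟨_, rfl⟩
  rw [← hM] at hΛp
  have hMP : 2048 * M ≤ Pc := (Nat.mul_le_mul_right _ hΛbig).trans hΛp
  obtain ⟨sg, hsg1, hsg2, hsg3⟩ : ∃ sg : ℕ, (bb' = 0 ∨ 16 * bb' + CT ≤ sg) ∧ sg ≤ 16 * bb' + CT ∧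
      128 * (sg : ℝ) ≤ η₀ * Q' := by
    rcases hcase with h1 | h1
    · refine ⟨16 * bb' + CT, Or.inr le_rfl, le_rfl, ?_⟩
      have h2 : Λp * (16 * bb' + CT) ≤ 16 * Q' := by
        have h3 : Λp * (16 * bb' + CT) ≤ Λp * (16 * (bb' + lam' + c₁' + C)) := by
          apply Nat.mul_le_mul_left
          clear hPl hPu hbb hΛp hΛw hwle hM hMP h1
          omega
        have h4 : Λp * (16 * (bb' + lam' + c₁' + C)) = 16 * (Λp * (bb' + lam' + c₁' + C)) := by ring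
        rw [h4] at h3
        exact h3.trans (Nat.mul_le_mul_left _ h1.1)
      have h3 : (Λp : ℝ) * ((16 * bb' + CT : ℕ) : ℝ) ≤ 16 * Q' := by exact_mod_cast h2
      have h4 : η₀ * ((Λp : ℝ) * ((16 * bb' + CT : ℕ) : ℝ)) ≤ η₀ * (16 * Q') := mul_le_mul_of_nonneg_left h3 hη₀.le
      have h5 : 2048 * ((16 * bb' + CT : ℕ) : ℝ) ≤ η₀ * (Λp : ℝ) * ((16 * bb' + CT : ℕ) : ℝ) :=
        mul_le_mul_of_nonneg_right hΛη (Nat.cast_nonneg _)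
      linarith
    · refine ⟨0, Or.inl h1.1, Nat.zero_le _, ?_⟩
      push_cast
      rw [mul_zero]
      positivity
  have hsgQ : 1024 * sg ≤ Q' := by
    have h1 : η₀ * (Q' : ℝ) ≤ 1 / 8 * Q' := mul_le_mul_of_nonneg_right hη₀1 (Nat.cast_nonneg _)
    have h2 : (1024 * sg : ℝ) ≤ Q' := by linarith
    exact_mod_cast h2
  clear hcase
  refine ⟨sg, M, hsg1, hΛp, ?_⟩
  clear hsg1 hΛp
  intro W hW
  obtain ⟨pp, hpp⟩ : ∃ pp, pp = Q' + xq' + c₁' + w₀ + 4 - W := ⟨_, rfl⟩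
  obtain ⟨mB, hmB⟩ : ∃ mB, mB = 2 * (le' + 2 * lam' + bb' + J) + 1 := ⟨_, rfl⟩
  obtain ⟨p1, p2, p3⟩ := cn_pp hsgQ hW hpp
  clear hpp
  have kM : w₀ + 4 + CT ≤ C := by
    clear hPl hPu hbb hΛw hwle hM hMP p1 p2 p3
    omega
  obtain ⟨p4, p5, p6⟩ := cn_ppM hM hsgQ p1 kM hsg2
  have c1 : q ≤ M := by rw [hM]; clear hPl hPu hbb hΛw hwle hMP p1 p2 p3 p4 p5 p6 hM; omega
  have c2 : bb' ≤ M := by rw [hM]; clear hPl hPu hbb hΛw hwle hMP p1 p2 p3 p4 p5 p6 hM c1; omega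
  have c3 : C ≤ M := by rw [hM]; clear hPl hPu hbb hΛw hwle hMP p1 p2 p3 p4 p5 p6 hM c1 c2; omega
  clear hM
  have c4 : J + 1 ≤ M := by clear hPl hPu hbb hΛw hwle hMP p1 p2 p3 p4 p5 p6 c1 c2; omega
  have c5 : Ci ≤ M := by clear hPl hPu hbb hΛw hwle hMP p1 p2 p3 p4 p5 p6 c1 c2 c4; omega
  have c6 : Q ≤ Pc := by clear hPu hbb hΛw hwle hMP p1 p2 p3 p4 p5 p6 c1 c2 c3 c4 c5 k1 k2 k3 k4 kM; omega
  have d1 := cn_sum hMP p4 p5 c1 c2 c4 c6 hmB rfl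
  have d2 := cn_sum2 hMP p4 c2 c4 c5 hmB rfl
  have d3 := cn_bb hbb p1 hsg2 hmB k1
  have d4 := cn_w hΛw p3 k2
  have d5 : 96 * (sg : ℝ) ≤ η₀ * pp := by
    have h1 : (3 : ℝ) * Q' ≤ 4 * pp := by exact_mod_cast p2
    have h2 : η₀ * (3 * Q') ≤ η₀ * (4 * pp) := mul_le_mul_of_nonneg_left h1 hη₀.le
    linarith
  refine ⟨pp, mB, p1, hmB, d5, d1, ?_, d2, ?_, d4, ?_, ?_, d3, p6, ?_, ?_, ?_, k4, hPl⟩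
  · clear hPl hPu hbb hΛw hwle d1 d2 d3 d4 k1 k2 k3 k4 p1 p2 p3 p6 kM hmB c1 c2 c3 c4 c5 c6 hW hsg2 hsgQ
    omega
  · clear hPl hPu hbb hΛw hwle d1 d2 d3 d4 k1 k2 k3 k4 p1 p2 p3 p6 kM hmB c1 c2 c4 c5 c6 hW hsg2 hsgQ
    omega
  · clear hPl hPu hbb hΛw d1 d2 d3 d4 k1 k3 k4 p1 p2 p3 p6 kM hmB c1 c2 c3 c4 c5 c6 hW hsg2 hsgQ hMP
    omega
  · clear hPl hPu hbb hΛw hwle d1 d2 d3 d4 k1 k2 k3 k4 p1 p2 p3 p6 kM hmB c2 c3 c4 c6 hW hsg2 hsgQ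
    omega
  · clear hPl hPu hbb hΛw hwle d1 d2 d3 d4 k1 k2 k3 k4 p1 p2 p3 p6 kM c1 c2 c3 c4 c5 c6 hW hsg2 hsgQ hMP
    omega
  · clear hPl hPu hbb hwle d1 d2 d3 d4 k1 k2 k4 p1 p2 p6 kM c1 c2 c3 c4 c5 c6 hW hsg2 hsgQ hMP hmB
    omega
  · clear hPl hPu hbb hΛw hwle d1 d2 d3 d4 k1 k2 k3 k4 p1 p2 p3 p6 kM hmB c1 c2 c3 c4 c5 c6 hW hsg2 hsgQ
    omega

end AEG
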