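import Pool.Agent.AEG.CritQ
import Pool.Agent.AEG.CritN
import Pool.Agent.AEB.NPx

/-!
# From a critical group to the next group: `CritB`

`critB_of`: `CritB` with the constants of the concrete states.
-/

set_option autoImplicit false

namespace AEG

open Finset AE15 AED AEB SPD
open scoped Classical

/-- **`CritB`** with the constants of the concrete states in front of the step and behind it -/
theorem critB_of (b l : ℕ) (hb : 1 ≤ b) : ∃ (w₀ : ℕ) (cκ : ℝ) (a₀ : ℕ), 1 ≤ cκ ∧ 1 ≤ a₀ ∧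
    ∀ (Nn : ℕ) (ζ : ℝ), 1 ≤ Nn → 0 < ζ → ζ ≤ 1 → ∃ ηm : ℝ, 0 < ηm ∧ ∀ ηS : ℝ, 0 < ηS → ηS ≤ ηm →
    ∀ κ₀ η₀ : ℝ, 0 < κ₀ → 25 * κ₀ ≤ η₀ → η₀ ≤ 1 / 8 → ∃ (τo : ℝ) (Ko eo : ℕ), 0 < τo ∧
    ∀ (κp ξp sp τp ηp : ℝ) (Kp ep : ℕ), 0 < κp → κp ≤ 1 → 0 < ξp → ξp ≤ 1 → 0 < sp → sp ≤ 1 → 0 < τp →
      2 * (a₀ * Nn * ηp) ≤ 1 →
    ∃ J C₀ : ℕ, ∀ C₂i : ℕ, ∃ κo so : ℝ, 0 < κo ∧ 0 < so ∧ ∀ κS : ℝ, 0 < κS → ∃ K₁ C₁ cc₀ : ℕ,
    ∀ (sS : ℝ) (f Ki cFi cci fo cco Λp K₀ : ℕ), cc₀ ≤ cci → cFi + Nn + 10 ≤ f →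
      2048 * (a₀ * (Nn : ℝ) ^ a₀) / (κp / cκ * (ξp / 2)) ^ 2 ≤ Λp → 2048 / η₀ ≤ Λp →
      ∃ (ξ : ℝ) (C : ℕ), 0 < ξ ∧
      CritB2 (CSof ⟨κp, ξp, sp, τp, ηp, Kp, ep, κS, ηS, sS, f, Ki, cFi, cci⟩)
        (CSof ⟨κ₀ ^ 2 / 512, 1 / 16, η₀ / 512, τo, 25 * η₀, Ko, eo, κo, ηS, so, fo, K₁, K₁ * cco + C₁, cco⟩)
        b l K₀ 64 Λp 48 Nn ζ ξ C C₀ C₂i 0 (w₀ + 4) := by
  obtain ⟨w₀, cκ, a₀, hcκ, ha₀, hin⟩ := crit_in b l hb
  refine ⟨w₀, cκ, a₀, hcκ, ha₀, ?_⟩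
  intro Nn ζ hNn hζ hζ1
  obtain ⟨p, hp, hpb, hpl, hab, -⟩ := exists_np b l 0 hb
  subst hpb hpl
  obtain ⟨md, hmd⟩ := exists_nat_ge (4 / ζ)
  obtain ⟨D₀, hD₀⟩ : ∃ D₀, D₀ = 64 + p.A + md := ⟨_, rfl⟩
  obtain ⟨ω, c, η, η₁, κ₀', κ₁, κ, γ₀, τ, s, σ₂, μ, P'⟩ := exists_KB (D := D₀) (by omega)
  have hη0 : 0 < η := P'.num.2.2.2.2.1
  have hω' : 8 * ω ≤ ζ := by
    have h1 : (md : ℝ) ≤ D₀ := by exact_mod_cast (by omega : md ≤ D₀)
    have h2 : (0 : ℝ) < D₀ := by exact_mod_cast (by omega : 0 < D₀)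
    rw [div_le_iff₀ hζ] at hmd
    rw [P'.hω]
    have h3 : 8 * (1 / (2 * (D₀ : ℝ))) = 4 / D₀ := by field_simp; norm_num
    rw [h3, div_le_iff₀ h2]
    have h4 : (md : ℝ) * ζ ≤ D₀ * ζ := mul_le_mul_of_nonneg_right h1 hζ.le
    linarith
  refine ⟨η / 4, by positivity, ?_⟩
  intro ηS hηS hηSm
  obtain ⟨ηa, hηa, hηa1, hcore⟩ := crit_core p hp hab (D₀ := D₀) (by omega) P' hζ hζ1 hω' hηS (by linarith)
  obtain ⟨κa, hκad⟩ : ∃ κa : ℝ, κa = ηa / 25 := ⟨_, rfl⟩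
  have hκa : 0 < κa := by rw [hκad]; positivity
  have hκηa : 25 * κa ≤ ηa := by rw [hκad]; linarith
  have hcore := hcore hκa hκηa le_rfl
  intro κ₀ η₀ hκ₀ hκη₀ hη₀1
  have hη₀ : 0 < η₀ := by linarith
  obtain ⟨τo, Ko, eo, Cp, hτo, hpool⟩ := crit_pool hκ₀ hκη₀ hη₀1 Nn (w₀ + 4)
  refine ⟨τo, Ko, eo, hτo, ?_⟩
  intro κp ξp sp τp ηp Kp ep hκp hκp1 hξp hξp1 hsp hsp1 hτp hηp
  obtain ⟨dA, hdA, hdA', J, C₀, Ci, hin⟩ := hin (20 + 8 / κa) Nn hNn hκp hκp1 hξp hξp1 hsp hsp1 hτp Kp ep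
  refine ⟨J, C₀, ?_⟩
  intro C₂i
  obtain ⟨κo, so, hκo, hso, hcore⟩ := hcore Nn w₀ J (C₀ + C₂i)
  refine ⟨κo, so, hκo, hso, ?_⟩
  intro κS hκS
  obtain ⟨ξc, K₁, C₁, Cc, hξc, hξc1, hcore⟩ := hcore hκS
  refine ⟨K₁, C₁, Ci, ?_⟩
  intro sS f Ki cFi cci fo cco Λp K₀ hcc hf hΛ1 hΛ2
  obtain ⟨ξt, Ct, hξt, hcut⟩ := crit_cut hκa hκηa hηa1 hκ₀ hκη₀ hη₀1 Nn (cFi + Nn) Ki
  obtain ⟨C, hC⟩ : ∃ C, C = 64 * (Ci + Cc + Ct + Cp + (64 + 16 * J + 4 * w₀ + 2 * Nn) + C₀ + C₂i + w₀ + J + Nn + 10) :=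
    ⟨_, rfl⟩
  obtain ⟨ξ, hξ0, hξ1, hξ2, hξ3, hξ4⟩ : ∃ ξ : ℝ, 0 < ξ ∧ 16 * ξ ≤ ξc ∧ 16 * ξ ≤ ξt ∧ 16 * ξ ≤ κa ∧ 16 * ξ ≤ 1 := by
    refine ⟨min (min ξc ξt) (min κa 1) / 16, ?_, ?_, ?_, ?_, ?_⟩
    · have := lt_min (lt_min hξc hξt) (lt_min hκa one_pos)
      linarith
    · linarith [(min_le_left (min ξc ξt) (min κa 1)).trans (min_le_left _ _)]
    · linarith [(min_le_left (min ξc ξt) (min κa 1)).trans (min_le_right _ _)]
    · linarith [(min_le_right (min ξc ξt) (min κa 1)).trans (min_le_left _ _)]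
    · linarith [(min_le_right (min ξc ξt) (min κa 1)).trans (min_le_right _ _)]
  refine ⟨ξ, C, hξ0, ?_⟩
  intro V R hT P X ys y w bb le lam' bb' le' xq' c₁' cx k₁ k₂ k₃ k₄ gr gr' L hCS hlen hbr hgr hgrN hgr' hgr'N hL hNoD
    hCc hc₁' hPl hPu hsum hζX hbb hΛp hcase hΛw hwle hξ
  clear hL hNoD hCc hc₁'
  obtain ⟨E₀, U, Fx₀, hS⟩ := hCS
  obtain ⟨t, ht, hGS⟩ := hS.side
  have hΛη : 2048 ≤ η₀ * (Λp : ℝ) := by
    rw [div_le_iff₀ hη₀] at hΛ2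
    linarith
  have hΛp0 : (0 : ℝ) ≤ Λp := Nat.cast_nonneg _
  have hX0 : (0 : ℝ) ≤ X.card := Nat.cast_nonneg _
  obtain ⟨sg, M, n1, n2, hnum⟩ := crit_numbers (Cc := Cc) (Ct := Ct) (Cp := Cp) hη₀ hη₀1 hΛη hC hPl hPu hbb hΛp hcase hΛw
    hwle
  clear hbb hΛp hcase hΛw hwle hC
  obtain ⟨W₀, hW₀⟩ : ∃ W₀, W₀ = low R sg X := ⟨_, rfl⟩
  have hW₀c : W₀.card ≤ 2 * sg := by rw [hW₀]; exact card_low_in hT sg X
  obtain ⟨pp, mB, m1, m2, m3, m4, m5, m6, m7, m8, m9, m10, m11, m12, m13, m14, m15, m16, m17⟩ := hnum W₀.card hW₀c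
  clear hnum
  -- sizes
  obtain ⟨mm, hmm⟩ : ∃ mm, mm = P.card + lam' + le' := ⟨_, rfl⟩
  rw [← hmm] at hξ m4 m5 m6 m7 m15
  have hξX : 16 * ξ * (X.card : ℝ) ≤ 1 * X.card := mul_le_mul_of_nonneg_right hξ4 hX0
  have hξX0 : 0 ≤ ξ * (X.card : ℝ) := by positivity
  have hCX : C ≤ X.card := by
    have h1 : (C : ℝ) ≤ mm := by exact_mod_cast m7
    exact_mod_cast (by linarith : (C : ℝ) ≤ X.card)
  have hgl' : 1 ≤ gr'.length := by
    rcases gr' with _ | ⟨x, gr'⟩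
    · exact absurd rfl hgr'
    · exact Nat.succ_le_succ (Nat.zero_le _)
  -- the cut
  obtain ⟨G, ys', y', P₁, P₂, U₁, hG, hroute⟩ := hcut hT (X := X) (E := E₀) (N := R y) (κ := κS) (ηS := ηS) (s := sS)
    (f := f) (w := w) (sg := sg) (p := pp) (gl := gr'.length) (lamE := le) hS.st hgl' hgr'N
    ((Nat.add_le_add_left (by norm_num) _).trans hf) (by
      have h1 : ((pp + sg : ℕ) : ℝ) ≤ mm := by exact_mod_cast m5
      have h2 : 16 * ξ * (X.card : ℝ) ≤ ξt * X.card := mul_le_mul_of_nonneg_right hξ2 hX0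
      linarith) m8 (Or.inr m9)
  obtain ⟨y₁, hy₁⟩ : ∃ y₁, ys'.head? = some y₁ := by
    rcases hys : ys' with _ | ⟨y₁, ys₁⟩
    · exfalso
      have h1 := hG.len
      rw [hys] at h1
      rw [← h1] at hgl'
      exact absurd hgl' (by simp)
    · exact ⟨y₁, rfl⟩
  obtain ⟨v, b₁, a, w', hv, hb₁, hvX, hbX, hNv, haP, hwP, hRvb, hRba, hRaw, hRwy, hvb, hva, hvw, hba, hbw, haw, hvF, hbF,
    haF, hwF⟩ := hroute y₁ hy₁ (Fx₀ ∪ ys'.toFinset) (by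
      have h1 := card_union_le Fx₀ ys'.toFinset
      have h2 := ys'.toFinset_card_le
      have h3 : Fx₀.card ≤ cFi := hS.cF
      rw [hG.len] at h2
      exact h1.trans (Nat.add_le_add h3 (h2.trans hgr'N)))
  simp only [mem_union, List.mem_toFinset, not_or] at hvF hbF haF hwF
  have hP₁X : P₁ ⊆ X := hG.hP₁.trans (hG.hU₁.trans (hG.hG.trans hG.hX₁))
  have hcapm : ∀ h ∈ [v, b₁, a, w'], h ∈ X ∧ h ∉ ys' ∧ CapL R X (P ∪ X) bb cci h := by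
    intro h hh
    simp only [List.mem_cons, List.not_mem_nil, or_false] at hh
    rcases hh with rfl | rfl | rfl | rfl
    · exact ⟨hvX, hvF.2, hS.cap _ hvX hvF.1⟩
    · exact ⟨hbX, hbF.2, hS.cap _ hbX hbF.1⟩
    · exact ⟨hP₁X haP, haF.2, hS.cap _ (hP₁X haP) haF.1⟩
    · exact ⟨hP₁X hwP, hwF.2, hS.cap _ (hP₁X hwP) hwF.1⟩
  have hX₁c : (X.card : ℝ) ≤ 2 * (X \ low R sg X).card := by
    rw [← hW₀]
    have h1 : (X.card : ℝ) ≤ (X \ W₀).card + W₀.card := by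
      have h2 := le_card_sdiff W₀ X
      exact_mod_cast Nat.sub_le_iff_le_add.1 h2
    have h2 : (W₀.card : ℝ) ≤ mm := by exact_mod_cast hW₀c.trans m15
    linarith
  -- the in-items
  obtain ⟨T₁, T, S, E, Bp, So, X₀, hCE, hI, hO, hRD, hRC⟩ := hin hT (P := P) (X := X) (U := U) (G := G) (P₁ := P₁)
    (P₂ := P₂) (U₁ := U₁) (ys := ys) (ys' := ys') (v := v) (b₁ := b₁) (a := a) (w' := w') (y' := y') (t := t) sg bb cci
    mB pp gr'.length (C₀ + C₂i) k₁ k₂ k₃ k₄ gr hGS hS.cardU (by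
      have h1 : 0 ≤ (a₀ : ℝ) * Nn := by positivity
      have h2 : (a₀ : ℝ) * Nn * t ≤ a₀ * Nn * (ηp * P.card) := mul_le_mul_of_nonneg_left ht h1
      have h3 : 2 * (a₀ * Nn * ηp) * (P.card : ℝ) ≤ 1 * P.card := mul_le_mul_of_nonneg_right hηp (Nat.cast_nonneg _)
      linarith) hS.dis hS.hys hS.subU hlen hgr hgrN hG hgr'N (by
      intro x hx
      apply hbr
      rw [List.mem_append] at hx ⊢
      rcases hx with hx | hx
      · exact Or.inl hx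
      · right
        simp only [List.mem_cons, List.not_mem_nil, or_false] at hx
        rcases hx with rfl | rfl | rfl | rfl <;> simp) hcapm m10 m17 (by
      rw [← Nat.add_assoc]
      exact hPu) (by rw [m2]; exact Nat.succ_le_succ (Nat.zero_le _)) (by
      have h1 : ((mB + 6 * pp + Ci : ℕ) : ℝ) ≤ 8 * mm := by exact_mod_cast m6
      have h2 : 16 * ξ * (X.card : ℝ) ≤ κa * X.card := mul_le_mul_of_nonneg_right hξ3 hX0
      have h3 : κa * (X.card : ℝ) ≤ κa * (2 * (X \ low R sg X).card) := mul_le_mul_of_nonneg_left hX₁c hκa.le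
      have h4 : 0 ≤ κa * ((X \ low R sg X).card : ℝ) := by positivity
      linarith) m11 hcc (by
      have hden : 0 < (κp / cκ * (ξp / 2)) ^ 2 := by
        have : 0 < cκ := by linarith
        positivity
      have hNa : 0 < (a₀ : ℝ) * (Nn : ℝ) ^ a₀ := by
        have h1 : (0 : ℝ) < a₀ := by exact_mod_cast (lt_of_lt_of_le one_pos ha₀)
        have h2 : (0 : ℝ) < Nn := by exact_mod_cast (lt_of_lt_of_le one_pos hNn)
        positivity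
      rw [div_le_iff₀ hden] at hΛ1
      rw [div_le_iff₀ hNa] at hdA'
      have h1 : 2048 * (a₀ * (Nn : ℝ) ^ a₀) ≤ Λp * (dA * (a₀ * (Nn : ℝ) ^ a₀)) :=
        hΛ1.trans (mul_le_mul_of_nonneg_left hdA' hΛp0)
      have h2 : 2048 ≤ Λp * dA := by
        have h3 : 2048 * (a₀ * (Nn : ℝ) ^ a₀) ≤ Λp * dA * (a₀ * (Nn : ℝ) ^ a₀) := by linarith
        exact le_of_mul_le_mul_right h3 hNa
      have h3 : (Λp : ℝ) * M ≤ P.card := by exact_mod_cast n2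
      have h4 : dA * ((Λp : ℝ) * M) ≤ dA * P.card := mul_le_mul_of_nonneg_left h3 hdA.le
      have h5 : 2048 * (M : ℝ) ≤ Λp * dA * M := mul_le_mul_of_nonneg_right h2 (Nat.cast_nonneg _)
      have h6 : ((6 * pp + 2 * sg : ℕ) : ℝ) ≤ 64 * M := by exact_mod_cast m12
      have h7 : (0 : ℝ) ≤ M := Nat.cast_nonneg _
      linarith) hκa le_rfl
  -- the lights
  have hZc : (P ∪ X).card = P.card + X.card := card_union_of_disjoint hS.dis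
  have htot : szS (k₁ :: k₂ :: k₃ :: k₄ :: (gr' ++ L)) = k₁.1.size + k₁.2.size + 1 + (k₂.1.size + k₂.2.size + 1 +
      (k₃.1.size + k₃.2.size + 1 + (k₄.1.size + k₄.2.size + 1 + (szS gr' + szS L)))) := by
    rw [szS_cons, szS_cons, szS_cons, szS_cons, ge_szS_append]
  obtain ⟨SD, Fx, hD, hSDX, hSDU, hSt, hFx, hcap⟩ := hcore hT sg bb' cco lam' le' fo mB pp cx (inS [k₁, k₂, k₃, k₄])
    (inS gr) k₁ k₂ k₃ k₄ gr' L hG hgr'N hCE hRD hRC hv hb₁ haP hwP (by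
      intro x hx
      apply hbr
      rw [List.mem_append]
      right
      simp only [List.mem_cons, List.mem_append] at hx ⊢
      rcases hx with hx | hx | hx | hx | hx
      · exact Or.inl hx
      · exact Or.inr (Or.inl hx)
      · exact Or.inr (Or.inr (Or.inl hx))
      · exact Or.inr (Or.inr (Or.inr (Or.inl hx)))
      · exact Or.inr (Or.inr (Or.inr (Or.inr (Or.inl hx))))) (by
      rw [hZc]
      exact cn_mass hsum htot (inS_ouS_le gr')) (by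
      rw [hZc]
      exact hζX) m13 (by
      rcases n1 with h1 | h1
      · exact Or.inl h1
      · exact Or.inr (le_trans (Nat.add_le_add_left (Nat.add_le_add_left (Nat.mul_le_mul_left _ hgr'N) _) _) h1)) (by
      have h1 : ((P.card + pp + sg + mB + inS [k₁, k₂, k₃, k₄] + inS gr + lam' + bb' : ℕ) : ℝ) ≤ 8 * mm := by
        exact_mod_cast m4
      have h2 : 16 * ξ * (X.card : ℝ) ≤ ξc * X.card := mul_le_mul_of_nonneg_right hξ1 hX0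
      linarith) (m16.trans hCX)
  obtain ⟨Hs, hHs⟩ : ∃ Hs : Finset V, Hs = {v, b₁, a, w'} := ⟨_, rfl⟩
  -- the new pool
  have hRm : (T₁ ∪ Hs).card ≤ w₀ + 4 := by
    have h3 := hCE.cH
    rw [← hHs] at h3
    exact (card_union_le T₁ Hs).trans (Nat.add_le_add hCE.cT₁ h3)
  obtain ⟨⟨t', ht', hGS'⟩, hcardU⟩ := hpool hT hG hgr'N (Rm := T₁ ∪ Hs) hRm (by
    intro x hx
    rcases mem_union.1 hx with h1 | h1
    · exact (hCE.hT₁ x h1).2.2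
    · rw [hHs] at h1
      exact (hCE.hH x h1).2) m14 m3
  obtain ⟨hcardE, hgoal⟩ := crit_fin (L := L) hG hCE hlen hNv haP hwP hRvb hRba hRaw (by
      intro z hz
      rw [hy₁] at hz
      simp only [Option.mem_def, Option.some.injEq] at hz
      rw [← hz]
      exact hRwy) hvb hva hvw hba hbw haw hI hO hD hSDX
  rw [← hHs] at hCE hcap hcardE hgoal
  rw [← hW₀] at hCE hcap hcardE hgoal hGS' ht' hcardU
  rw [hZc] at hcardE
  have hWU : ∀ x ∈ W₀, x ∉ U₁ := fun x hx => (hCE.hW₀ x hx).1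
  have hcardN : (P₁ ∪ W₀).card = pp + W₀.card := by
    rw [card_union_of_disjoint, hG.card₁]
    rw [disjoint_left]
    exact fun x hx hx' => hWU x hx' (hG.hP₁ hx)
  have hN1 := le_card_sdiff (T₁ ∪ Hs) (P₁ ∪ W₀)
  have hN2 : ((P₁ ∪ W₀) \ (T₁ ∪ Hs)).card ≤ (P₁ ∪ W₀).card := card_le_card sdiff_subset
  obtain ⟨q1, q2, q3⟩ := cn_card hcardE hsum hN1 hN2 hcardN m1 hRm
  have hnX₀ : ∀ x, x ∈ P₁ ∨ x ∈ W₀ → x ∉ X₀ := by
    rintro x (hx | hx) h1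
    · exact ((hCE.hX₀ x).1 h1).2.1 hx
    · exact ((hCE.hX₀ x).1 h1).2.2.1 hx
  refine ⟨(P₁ ∪ W₀) \ (T₁ ∪ Hs), X₀ \ SD, ys', y', 48 * lam' + Cc, Nat.add_le_add_left m16 _, ?_,
    sdiff_subset.trans hCE.sub, ?_, hG.len, q1, q2, q3, hgoal⟩
  · exact sdiff_subset.trans (union_subset hP₁X hCE.hW₀X)
  · refine ⟨E, (U₁ ∪ W₀) \ (T₁ ∪ Hs), Fx, ?_⟩
    exact
      { dis := by
          rw [disjoint_left]
          intro x hx hx'
          rw [mem_sdiff, mem_union] at hx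
          exact hnX₀ x hx.1 (mem_sdiff.1 hx').1
        hys := by
          intro z hz
          have h1 := hCE.hys z hz
          refine ⟨fun h2 => ?_, fun h2 => ((hCE.hX₀ z).1 (mem_sdiff.1 h2).1).2.2.2.1 hz⟩
          rw [mem_sdiff, mem_union] at h2
          rcases h2.1 with h3 | h3
          · exact h1.2.1 h3
          · exact hWU z h3 h1.1
        subU := by
          intro x hx
          rw [mem_sdiff, mem_union, mem_union, not_or] at hx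
          obtain ⟨h1, h2, h3⟩ := hx
          rw [mem_union, mem_union, mem_sdiff, mem_union, mem_union, not_or, mem_sdiff, List.mem_toFinset]
          by_cases h4 : x ∈ ys'
          · exact Or.inr h4
          rcases h1 with h1 | h1
          · by_cases h5 : x ∈ P₁
            · exact Or.inl (Or.inl ⟨Or.inl h5, h2, h3⟩)
            · exact Or.inl (Or.inr ⟨(hCE.U₁X₀ h1 h5 h4 h3 h2).1, fun h6 => hSDU x h6 h1⟩)
          · exact Or.inl (Or.inl ⟨Or.inr h1, h2, h3⟩)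
        side := ⟨t', ht', hGS'⟩
        cardU := hcardU
        nodup := hG.nodup
        chain := hG.chain
        last := hG.last
        st := hSt
        cF := hFx
        cap := hcap }

end AEG
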