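import Pool.Agent.AEG.CritPk
import Pool.Agent.AEG.CritR

/-!
# `CritF` from `critB_of`
-/

set_option autoImplicit false

namespace AEG

open Finset AE15 AED AEB SPD
open scoped Classical

/-- **From a critical group to the next group** -/
theorem critF {b l : ℕ} (hb : 1 ≤ b) : CritF b l := by
  obtain ⟨w₀, cκ, a₀, h1, h2, h⟩ := critB_of b l hb
  refine ⟨w₀, cκ, a₀, h1, h2, ?_⟩
  intro Nn ζ hNn hζ hζ1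
  obtain ⟨ηm, hηm, h⟩ := h Nn ζ hNn hζ hζ1
  refine ⟨ηm, hηm, ?_⟩
  intro ηS hηS hηSm κ₀ η₀ hκ₀ hκη hη₀
  obtain ⟨τo, Ko, eo, hτo, h⟩ := h ηS hηS hηSm κ₀ η₀ hκ₀ hκη hη₀
  refine ⟨τo, Ko, eo, hτo, ?_⟩
  intro κp ξp sp τp ηp Kp ep h3 h4 h5 h6 h7 h8 h9 _ _ _ h10
  obtain ⟨J, C₀, h⟩ := h κp ξp sp τp ηp Kp ep h3 h4 h5 h6 h7 h8 h9 h10
  refine ⟨C₀, ?_⟩
  intro C₂i
  obtain ⟨κo, so, hκo, hso, h⟩ := h C₂i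
  refine ⟨κo, so, hκo, hso, ?_⟩
  intro κS hκS
  obtain ⟨K₁, C₁, cc₀, h⟩ := h κS hκS
  refine ⟨K₁, C₁, cc₀, ?_⟩
  intro sS f Ki cFi cci fo cco Λp K₀ _ h11 h12 h13 h14
  exact h sS f Ki cFi cci fo cco Λp K₀ h11 h12 h13 h14

end AEG
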