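import Pool.Agent.AEG.ExitA

/-!
# Glue of a heavy stage
-/

set_option autoImplicit false

namespace AEG

open Finset AE15 AED AEB SPD
open scoped Classical

/-- **Glue of a heavy stage**: the hosts are `v`, `a`, `w` (links) and `ys` (group) -/
theorem glue_grp {V : Type} {R : V → V → Prop} {X SA SD : Finset V} {N : V → Prop} {v a w y : V} {ys : List V}
    {l₁ l₂ l₃ : Fd × Fd} {gr L : List (Fd × Fd)} (hlen : ys.length = gr.length) (hlast : ys.getLast? = some y)
    (hnd : (v :: a :: w :: ys).Nodup) (hch : (v :: a :: w :: ys).IsChain R)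
    (h3 : EmbAllB (rv R) ((v, l₁.1) :: (a, l₂.1) :: (w, l₃.1) :: (ys.zip gr).map (fun p => (p.1, p.2.1))) SA)
    (h4 : EmbAllB R ((v, l₁.2) :: (a, l₂.2) :: (w, l₃.2) :: (ys.zip gr).map (fun p => (p.1, p.2.2))) SD)
    (h5 : Disjoint SA SD) (h6 : ∀ u ∈ v :: a :: w :: ys, u ∉ SA ∧ u ∉ SD) (hN : N v)
    (hX : (v :: a :: w :: ys).toFinset ∪ (SA ∪ SD) ⊆ X) :
    (X \ ((v :: a :: w :: ys).toFinset ∪ (SA ∪ SD))).card + szS (l₁ :: l₂ :: l₃ :: (gr ++ L)) = X.card + szS L ∧
      (InS R L (R y) (X \ ((v :: a :: w :: ys).toFinset ∪ (SA ∪ SD))) → InS R (l₁ :: l₂ :: l₃ :: (gr ++ L)) N X) := by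
  have hne : ys ≠ [] := by
    rintro rfl
    simp at hlast
  obtain ⟨ys', hys'⟩ : ∃ ys', ys = ys' ++ [y] := by
    refine ⟨ys.dropLast, ?_⟩
    rw [List.getLast?_eq_getLast_of_ne_nil hne, Option.some_inj] at hlast
    rw [← hlast]
    exact (List.dropLast_append_getLast hne).symm
  obtain ⟨gr', qg, hgr⟩ : ∃ gr' qg, gr = gr' ++ [qg] := by
    have hgne : gr ≠ [] := by
      rintro rfl
      apply hne
      exact List.length_eq_zero_iff.1 hlen
    exact ⟨_, _, (List.dropLast_append_getLast hgne).symm⟩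
  have hlen' : ys'.length = gr'.length := by
    rw [hys', hgr, List.length_append, List.length_append, List.length_singleton, List.length_singleton] at hlen
    omega
  have hzip : ys.zip gr = ys'.zip gr' ++ [(y, qg)] := by
    rw [hys', hgr, List.zip_append hlen']
    rfl
  have hfst : (ys.zip gr).map Prod.fst = ys := List.map_fst_zip hlen.le
  have hsnd : (ys.zip gr).map Prod.snd = gr := List.map_snd_zip hlen.symm.le
  obtain ⟨os₀, hos₀⟩ : ∃ os₀, os₀ = (v, l₁) :: (a, l₂) :: (w, l₃) :: ys'.zip gr' := ⟨_, rfl⟩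
  have hos : os₀ ++ [(y, qg)] = (v, l₁) :: (a, l₂) :: (w, l₃) :: ys.zip gr := by
    rw [hos₀, hzip]
    rfl
  have hm1 : (os₀ ++ [(y, qg)]).map Prod.fst = v :: a :: w :: ys := by
    rw [hos, List.map_cons, List.map_cons, List.map_cons, hfst]
  have hm2 : (os₀ ++ [(y, qg)]).map Prod.snd = l₁ :: l₂ :: l₃ :: gr := by
    rw [hos, List.map_cons, List.map_cons, List.map_cons, hsnd]
  have h := line_glue (R := R) (os₀ := os₀) (z := y) (q := qg) (L' := L) (Nn := N) (X₀ := X) (SA := SA) (SD := SD)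
    (by rw [hm1]; exact hnd) (by rw [hm1]; exact hch) (by rw [hos]; exact h3) (by rw [hos]; exact h4) h5
    (by
      intro p hp
      apply h6
      rw [← hm1]
      exact List.mem_map_of_mem hp)
    (by
      intro u hu
      rw [hm1, List.head?_cons, Option.some_inj] at hu
      rw [← hu]
      exact hN) (by rw [hm1]; exact hX)
  rw [hm1, hm2] at h
  exact h

end AEG
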