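import Pool.Agent.AEG.DefsC
import Pool.Agent.AEG.GlueGr
import Pool.Agent.AEG.FinSm

/-!
# Critical groups: glue

`glue_open`: links `hs` and a group `ys` are hosted, the out-items of all of them and the in-items of the links are placed,
the in-items of the group are not. `glue_enter`, `glue_crit`: the forms for `EnterB` and `CritB`.
-/

set_option autoImplicit false

namespace AEG

open Finset AE15 AED AEB SPD
open scoped Classical

theorem map_zip_fst1 {V : Type} : ∀ (ys : List V) (gr : List (Fd × Fd)),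
    (ys.zip gr).map (fun p => (p.1, p.2.1)) = ys.zip (gr.map Prod.fst)
  | [], _ => by simp
  | _ :: _, [] => by simp
  | y :: ys, q :: gr => by
    rw [List.zip_cons_cons, List.map_cons, map_zip_fst1 ys gr]
    rfl

theorem map_zip_snd1 {V : Type} : ∀ (ys : List V) (gr : List (Fd × Fd)),
    (ys.zip gr).map (fun p => (p.1, p.2.2)) = ys.zip (gr.map Prod.snd)
  | [], _ => by simp
  | _ :: _, [] => by simp
  | y :: ys, q :: gr => by
    rw [List.zip_cons_cons, List.map_cons, map_zip_snd1 ys gr]
    rfl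

theorem totB_zip_fst {V : Type} : ∀ (ys : List V) (gr : List (Fd × Fd)), ys.length = gr.length →
    totB (ys.zip (gr.map Prod.fst)) = inS gr
  | [], [], _ => rfl
  | y :: ys, q :: gr, h => by
    have h1 := totB_zip_fst ys gr (by simpa using h)
    simp only [totB, inS, List.map_cons, List.zip_cons_cons, List.sum_cons] at h1 ⊢
    omega

theorem totB_zip_snd {V : Type} : ∀ (ys : List V) (gr : List (Fd × Fd)), ys.length = gr.length →
    totB (ys.zip (gr.map Prod.snd)) = FS.ouS gr
  | [], [], _ => rfl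
  | y :: ys, q :: gr, h => by
    have h1 := totB_zip_snd ys gr (by simpa using h)
    simp only [totB, FS.ouS, List.map_cons, List.zip_cons_cons, List.sum_cons] at h1 ⊢
    omega

/-- **Glue of an open group** -/
theorem glue_open {V : Type} {R : V → V → Prop} {Z P' X' SI SD : Finset V} {N : V → Prop} {hs ys : List V} {y : V}
    {ks gr L : List (Fd × Fd)} (hlk : hs.length = ks.length) (hlen : ys.length = gr.length)
    (hlast : ys.getLast? = some y) (hnd : (hs ++ ys).Nodup) (hch : (hs ++ ys).IsChain R)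
    (hN : ∀ u, (hs ++ ys).head? = some u → N u) (hI : EmbAllB (rv R) (hs.zip (ks.map Prod.fst)) SI)
    (hD : EmbAllB R ((hs ++ ys).zip ((ks ++ gr).map Prod.snd)) SD) (h5 : Disjoint SI SD)
    (h6 : ∀ u ∈ hs ++ ys, u ∉ SI ∧ u ∉ SD) (hZ : (hs ++ ys).toFinset ∪ (SI ∪ SD) ⊆ Z)
    (hPX : P' ∪ X' = Z \ ((hs ++ ys).toFinset ∪ (SI ∪ SD))) (hd : Disjoint P' X') :
    P'.card + X'.card + szS (ks ++ (gr ++ L)) = Z.card + inS gr + szS L ∧
      (PGoal R ys gr y L (P' ∪ X') → InS R (ks ++ (gr ++ L)) N Z) := by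
  have hne : ys ≠ [] := by
    rintro rfl
    simp at hlast
  refine ⟨?_, ?_⟩
  · have e1 : (P' ∪ X').card = P'.card + X'.card := card_union_of_disjoint hd
    have e2 : Z.card = (Z \ ((hs ++ ys).toFinset ∪ (SI ∪ SD))).card + ((hs ++ ys).toFinset ∪ (SI ∪ SD)).card :=
      (card_sdiff_add_card_eq_card hZ).symm
    have e3 : Disjoint (hs ++ ys).toFinset (SI ∪ SD) := by
      rw [disjoint_left]
      intro x hx hx'
      rw [List.mem_toFinset] at hx
      rcases mem_union.1 hx' with h | h
      · exact (h6 x hx).1 h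
      · exact (h6 x hx).2 h
    have e4 : ((hs ++ ys).toFinset ∪ (SI ∪ SD)).card = (hs ++ ys).length + (SI.card + SD.card) := by
      rw [card_union_of_disjoint e3, card_union_of_disjoint h5, List.toFinset_card_of_nodup hnd]
    have e5 : SI.card = inS ks := by rw [EmbAllB.card hI, totB_zip_fst hs ks hlk]
    have e6 : SD.card = FS.ouS (ks ++ gr) := by
      rw [EmbAllB.card hD, totB_zip_snd (hs ++ ys) (ks ++ gr) (by rw [List.length_append, List.length_append]; omega)]
    have e7 : szS (ks ++ (gr ++ L)) = szS (ks ++ gr) + szS L := by rw [← List.append_assoc, FS.szS_append]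
    have e8 := FS.szS_split (ks ++ gr)
    have e9 : inS (ks ++ gr) = inS ks + inS gr := by simp [inS]
    rw [List.length_append] at e4 e8
    rw [← hPX] at e2
    omega
  · rintro ⟨S, T, s1, s2, s3, s4, w₀, w1, w2, S', w3, w4, w5⟩
    obtain ⟨ys', hys'⟩ : ∃ ys', ys = ys' ++ [y] := by
      refine ⟨ys.dropLast, ?_⟩
      rw [List.getLast?_eq_getLast_of_ne_nil hne, Option.some_inj] at hlast
      rw [← hlast]
      exact (List.dropLast_append_getLast hne).symm
    obtain ⟨gr', qg, hgr⟩ : ∃ gr' qg, gr = gr' ++ [qg] := by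
      have hgne : gr ≠ [] := by
        rintro rfl
        exact hne (List.length_eq_zero_iff.1 hlen)
      exact ⟨_, _, (List.dropLast_append_getLast hgne).symm⟩
    have hlen' : ys'.length = gr'.length := by
      rw [hys', hgr, List.length_append, List.length_append, List.length_singleton, List.length_singleton] at hlen
      omega
    have hlenA : (hs ++ ys).length = (ks ++ gr).length := by
      rw [List.length_append, List.length_append]
      omega
    obtain ⟨os₀, hos₀⟩ : ∃ os₀, os₀ = (hs ++ ys').zip (ks ++ gr') := ⟨_, rfl⟩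
    have hos : os₀ ++ [(y, qg)] = (hs ++ ys).zip (ks ++ gr) := by
      have hl : (hs ++ ys').length = (ks ++ gr').length := by
        rw [List.length_append, List.length_append]
        omega
      have hz := List.zip_append (l₁ := hs ++ ys') (r₁ := [y]) (l₂ := ks ++ gr') (r₂ := [qg]) hl
      rw [hos₀, hys', hgr, ← List.append_assoc, ← List.append_assoc, hz]
      rfl
    have hm1 : (os₀ ++ [(y, qg)]).map Prod.fst = hs ++ ys := by
      rw [hos]
      exact List.map_fst_zip hlenA.le
    have hm2 : (os₀ ++ [(y, qg)]).map Prod.snd = ks ++ gr := by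
      rw [hos]
      exact List.map_snd_zip hlenA.symm.le
    have hSd : ∀ x ∈ S, x ∈ Z ∧ x ∉ (hs ++ ys).toFinset ∪ (SI ∪ SD) := by
      intro x hx
      have := s1 hx
      rw [hPX, mem_sdiff] at this
      exact this
    have hTd : ∀ x ∈ T, x ∈ Z ∧ x ∉ (hs ++ ys).toFinset ∪ (SI ∪ SD) := by
      intro x hx
      have := s2 hx
      rw [hPX, mem_sdiff] at this
      exact this
    have dIS : Disjoint SI S := by
      rw [disjoint_left]
      intro x hx hx'
      exact (hSd x hx').2 (mem_union_right _ (mem_union_left _ hx))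
    have dSD : Disjoint S SD := by
      rw [disjoint_left]
      intro x hx hx'
      exact (hSd x hx).2 (mem_union_right _ (mem_union_right _ hx'))
    have g := line_glue (R := R) (os₀ := os₀) (z := y) (q := qg) (L' := L) (Nn := N) (X₀ := Z) (SA := SI ∪ S) (SD := SD)
      (by rw [hm1]; exact hnd) (by rw [hm1]; exact hch) (by
        rw [hos, map_zip_fst1, List.map_append, List.zip_append (by rw [List.length_map]; exact hlk)]
        exact embAllB_append.2 ⟨SI, S, dIS, rfl, hI, s4⟩) (by
        rw [hos, map_zip_snd1]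
        exact hD) (disjoint_union_left.2 ⟨h5, dSD⟩) (by
        intro p hp
        have hp1 : p.1 ∈ hs ++ ys := by
          rw [← hm1]
          exact List.mem_map_of_mem hp
        obtain ⟨a1, a2⟩ := h6 _ hp1
        refine ⟨?_, a2⟩
        rw [mem_union]
        rintro (h | h)
        · exact a1 h
        · exact (hSd _ h).2 (mem_union_left _ (List.mem_toFinset.2 hp1))) (by rw [hm1]; exact hN) (by
        rw [hm1]
        intro x hx
        rcases mem_union.1 hx with h | h
        · exact hZ (mem_union_left _ h)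
        · rcases mem_union.1 h with h | h
          · rcases mem_union.1 h with h | h
            · exact hZ (mem_union_right _ (mem_union_left _ h))
            · exact (hSd x h).1
          · exact hZ (mem_union_right _ (mem_union_right _ h)))
    rw [hm1, hm2] at g
    rw [← List.append_assoc]
    apply g.2
    have hT : T ⊆ Z \ ((hs ++ ys).toFinset ∪ (SI ∪ S ∪ SD)) := by
      intro x hx
      obtain ⟨a1, a2⟩ := hTd x hx
      rw [mem_sdiff]
      refine ⟨a1, fun h => ?_⟩
      rcases mem_union.1 h with h | h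
      · exact a2 (mem_union_left _ h)
      · rcases mem_union.1 h with h | h
        · rcases mem_union.1 h with h | h
          · exact a2 (mem_union_right _ (mem_union_left _ h))
          · exact (disjoint_left.1 s3) h hx
        · exact a2 (mem_union_right _ (mem_union_right _ h))
    exact ⟨w₀, hT w1, w2, S', w3.trans hT, w4, w5⟩

/-- **Glue for `EnterB`**: the links are `v`, `a`, `w` -/
theorem glue_enter {V : Type} {R : V → V → Prop} {X P' X' SI SD : Finset V} {N : V → Prop} {v a w y : V} {ys : List V}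
    {l₁ l₂ l₃ : Fd × Fd} {gr L : List (Fd × Fd)} (hlen : ys.length = gr.length) (hlast : ys.getLast? = some y)
    (hnd : (v :: a :: w :: ys).Nodup) (hch : (v :: a :: w :: ys).IsChain R) (hN : N v)
    (hI : EmbAllB (rv R) [(v, l₁.1), (a, l₂.1), (w, l₃.1)] SI)
    (hD : EmbAllB R ((v, l₁.2) :: (a, l₂.2) :: (w, l₃.2) :: (ys.zip gr).map (fun p => (p.1, p.2.2))) SD)
    (h5 : Disjoint SI SD) (h6 : ∀ u ∈ v :: a :: w :: ys, u ∉ SI ∧ u ∉ SD)
    (hX : (v :: a :: w :: ys).toFinset ∪ (SI ∪ SD) ⊆ X)
    (hPX : P' ∪ X' = X \ ((v :: a :: w :: ys).toFinset ∪ (SI ∪ SD))) (hd : Disjoint P' X') :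
    P'.card + X'.card + szS (l₁ :: l₂ :: l₃ :: (gr ++ L)) = X.card + inS gr + szS L ∧
      (PGoal R ys gr y L (P' ∪ X') → InS R (l₁ :: l₂ :: l₃ :: (gr ++ L)) N X) := by
  rw [map_zip_snd1] at hD
  exact glue_open (hs := [v, a, w]) (ks := [l₁, l₂, l₃]) (L := L) (N := N) rfl hlen hlast hnd hch
    (by
      intro u hu
      rw [List.cons_append, List.head?_cons, Option.some_inj] at hu
      rw [← hu]
      exact hN) hI hD h5 h6 hX hPX hd

/-- **Glue for `CritB`**: the links are `v`, `b`, `a`, `w`, the in-items of the old group are placed, too -/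
theorem glue_crit {V : Type} {R : V → V → Prop} {Z P' X' SI SD SO : Finset V} {v b a w y y' : V} {ys ys' : List V}
    {k₁ k₂ k₃ k₄ : Fd × Fd} {gr gr' L : List (Fd × Fd)} (hlen₀ : ys.length = gr.length)
    (hlen : ys'.length = gr'.length) (hlast : ys'.getLast? = some y')
    (hnd : (v :: b :: a :: w :: ys').Nodup) (hch : (v :: b :: a :: w :: ys').IsChain R) (hN : R y v)
    (hO : EmbAllB (rv R) (ys.zip (gr.map Prod.fst)) SO)
    (hI : EmbAllB (rv R) [(v, k₁.1), (b, k₂.1), (a, k₃.1), (w, k₄.1)] SI)
    (hD : EmbAllB R ((v, k₁.2) :: (b, k₂.2) :: (a, k₃.2) :: (w, k₄.2) :: (ys'.zip gr').map (fun p => (p.1, p.2.2))) SD)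
    (h5 : Disjoint SI SD) (h6 : ∀ u ∈ v :: b :: a :: w :: ys', u ∉ SI ∧ u ∉ SD)
    (hX : (v :: b :: a :: w :: ys').toFinset ∪ (SI ∪ SD) ⊆ Z) (hSO : SO ⊆ Z)
    (hd' : Disjoint SO ((v :: b :: a :: w :: ys').toFinset ∪ (SI ∪ SD)))
    (hPX : P' ∪ X' = Z \ (SO ∪ ((v :: b :: a :: w :: ys').toFinset ∪ (SI ∪ SD)))) (hd : Disjoint P' X') :
    P'.card + X'.card + inS gr + szS (k₁ :: k₂ :: k₃ :: k₄ :: (gr' ++ L)) = Z.card + inS gr' + szS L ∧
      (PGoal R ys' gr' y' L (P' ∪ X') → PGoal R ys gr y (k₁ :: k₂ :: k₃ :: k₄ :: (gr' ++ L)) Z) := by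
  rw [map_zip_snd1] at hD
  have hsub : (v :: b :: a :: w :: ys').toFinset ∪ (SI ∪ SD) ⊆ Z \ SO := by
    intro x hx
    rw [mem_sdiff]
    exact ⟨hX hx, fun h => (disjoint_left.1 hd') h hx⟩
  obtain ⟨g1, g2⟩ := glue_open (Z := Z \ SO) (hs := [v, b, a, w]) (ks := [k₁, k₂, k₃, k₄]) (L := L) (N := R y) rfl hlen
    hlast hnd hch
    (by
      intro u hu
      rw [List.cons_append, List.head?_cons, Option.some_inj] at hu
      rw [← hu]
      exact hN) hI hD h5 h6 hsub (by
      rw [hPX]
      exact (sdiff_sdiff_left).symm) hd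
  have e1 : (Z \ SO).card + SO.card = Z.card := card_sdiff_add_card_eq_card hSO
  have e2 : SO.card = inS gr := by rw [EmbAllB.card hO, totB_zip_fst ys gr hlen₀]
  refine ⟨?_, fun h => ?_⟩
  · rw [List.cons_append, List.cons_append, List.cons_append, List.cons_append, List.nil_append] at g1
    omega
  · exact ⟨SO, Z \ SO, hSO, sdiff_subset, disjoint_sdiff, hO, g2 h⟩

end AEG
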