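import Pool.Agent.AEG.GroupR
import Pool.Agent.AEG.GCut2

/-!
# The cut of a critical stage, with two pairs of constants

`GrpC2`: as `GrpC`, the inner pair `(κ₀, η)` belongs to the first part and its ambient set, the outer pair `(κa, ηa)` to
the structure set of the whole set. `crit_cut`: the cut of a state with an exceptional set, with exactly four links.
-/

set_option autoImplicit false

namespace AEG

open Finset AE15 AED AEB SPD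
open scoped Classical

/-- **The cut of a stage with two pairs of constants.** See `GrpC` -/
structure GrpC2 {V : Type} (R : V → V → Prop) (X X₁ P₁ P₂ U₁ G : Finset V) (ys : List V) (y : V) (κa ηa κ₀ η : ℝ)
    (p gl e₁ : ℕ) : Prop where
  side : GSd (rv R) U₁ P₁ ys.toFinset (κ₀ ^ 2 / 8) (2 * η * U₁.card) (η / 8) (η / 8) 4 e₁
  hX₁ : X₁ ⊆ X
  hG : G ⊆ X₁
  hU₁ : U₁ ⊆ G
  hP₁ : P₁ ⊆ U₁
  card₁ : P₁.card = p
  cardU : U₁.card ≤ 6 * p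
  len : ys.length = gl
  nodup : ys.Nodup
  chain : ys.IsChain R
  last : ys.getLast? = some y
  hys : ∀ z ∈ ys, z ∈ G ∧ z ∈ U₁ ∧ z ∉ P₁ ∧ z ∉ P₂
  disj : Disjoint P₁ P₂
  part : ∀ u, u ∈ P₂ ↔ u ∈ X₁ ∧ u ∉ P₁ ∧ u ∉ ys
  good : ∀ g ∈ G, Good R (κa ^ 2 / 8) (2 * ηa) X g
  lin : κa / 2 * X.card ≤ ((P₂.filter (fun w => R y w ∧ w ∈ G)).card : ℝ)
  cnt : ∀ j : ℕ, (j : ℝ) ≤ κa / 4 * X.card →
    (P₂.filter (fun u => R u y ∧ (nI R (P₂.filter (fun w => R y w ∧ w ∈ G)) u).card ≤ j)).card ≤ 6 * j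
  bulk : ∀ u ∈ X₁, u ∉ G → ((nO R G u).card : ℝ) < 2 * κa * X₁.card
  hGc : 15 * (κa * X₁.card) ≤ G.card

/-- the cut, with an in-neighbour of the first host which has many in-neighbours -/
theorem grp2_core {κa ηa κ₀ η : ℝ} (h0a : 0 < κa) (hηa : 25 * κa ≤ ηa) (hηa1 : ηa ≤ 1 / 8) (h0 : 0 < κ₀)
    (hη : 25 * κ₀ ≤ η) (hη1 : η ≤ 1 / 8) (Nn f₀ : ℕ) : ∃ (ξ : ℝ) (C : ℕ),
    0 < ξ ∧ ∀ {V : Type} {R : V → V → Prop}, AE32.Tour R → ∀ {X : Finset V} {sg p gl : ℕ}, 1 ≤ gl → gl ≤ Nn →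
      ((p + sg : ℕ) : ℝ) ≤ ξ * X.card → C ≤ p →
      ∃ G ys y P₁ P₂ U₁, GrpC2 R X (X \ low R sg X) P₁ P₂ U₁ G ys y κa ηa κ₀ η p gl (4 * Nn) ∧
        ∀ y₁ ∈ ys.head?, ∀ F : Finset V, F.card ≤ f₀ →
          ∃ w' ∈ P₁, w' ∉ F ∧ R w' y₁ ∧ P₁.card ≤ 16 * (nI R P₁ w').card := by
  have hη0 : 0 < η := by linarith
  have hηa0 : 0 < ηa := by linarith
  obtain ⟨C₁, hC₁⟩ := exists_nat_ge ((8 + 4 * (Nn : ℝ)) / κ₀ + (f₀ : ℝ) / κ₀)
  refine ⟨κa / 8, C₁ + Nn + 1, by positivity, ?_⟩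
  intro V R hT X sg p gl hgl hglN hpX hCp
  have hN0 : (0 : ℝ) ≤ Nn := Nat.cast_nonneg _
  have hf0 : (0 : ℝ) ≤ f₀ := Nat.cast_nonneg _
  have hCpr : (C₁ : ℝ) ≤ p := by exact_mod_cast (by omega : C₁ ≤ p)
  have b0 : (0 : ℝ) ≤ (8 + 4 * (Nn : ℝ)) / κ₀ := by positivity
  have b1 : (0 : ℝ) ≤ (f₀ : ℝ) / κ₀ := by positivity
  have c0 : 8 + 4 * (Nn : ℝ) ≤ κ₀ * p := by
    have h : (8 + 4 * (Nn : ℝ)) / κ₀ ≤ p := by linarith
    rw [div_le_iff₀ h0] at h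
    linarith
  have c1 : (f₀ : ℝ) ≤ κ₀ * p := by
    have h : (f₀ : ℝ) / κ₀ ≤ p := by linarith
    rw [div_le_iff₀ h0] at h
    linarith
  push_cast at hpX
  have hp0 : (1 : ℝ) ≤ p := by exact_mod_cast (by omega : 1 ≤ p)
  have hsg0 : (0 : ℝ) ≤ sg := Nat.cast_nonneg _
  have hX0 : (0 : ℝ) < X.card := by
    by_contra hc
    push Not at hc
    have h1 : κa / 8 * (X.card : ℝ) ≤ 0 := mul_nonpos_of_nonneg_of_nonpos (by positivity) hc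
    linarith
  -- the vertices which are cut
  obtain ⟨X₁, hX₁⟩ : ∃ X₁, X₁ = X \ low R sg X := ⟨_, rfl⟩
  rw [← hX₁]
  have hX₁X : X₁ ⊆ X := by rw [hX₁]; exact sdiff_subset
  have hlowX : low R sg X ⊆ X := by rw [low]; exact filter_subset _ _
  have hlowc : ((low R sg X).card : ℝ) ≤ 2 * sg := by exact_mod_cast card_low_in hT sg X
  have hX₁c : (X₁.card : ℝ) + (low R sg X).card = X.card := by
    rw [hX₁]
    exact_mod_cast card_sdiff_add_card_eq_card hlowX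
  have hXX₁ : ((X \ X₁).card : ℝ) ≤ 2 * sg := by
    have h1 : X \ X₁ ⊆ low R sg X := by
      intro u hu
      rw [mem_sdiff, hX₁, mem_sdiff] at hu
      by_contra h
      exact hu.2 ⟨hu.1, h⟩
    have h2 : ((X \ X₁).card : ℝ) ≤ (low R sg X).card := by exact_mod_cast card_le_card h1
    linarith
  have hκ8 : κa / 8 * (X.card : ℝ) ≤ 1 / 1600 * X.card := mul_le_mul_of_nonneg_right (by linarith) hX0.le
  have hX₁2 : (X.card : ℝ) ≤ 2 * X₁.card := by linarith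
  have hX₁0 : (0 : ℝ) ≤ X₁.card := Nat.cast_nonneg _
  have hκX₁ : κa / 2 * (X.card : ℝ) ≤ κa * X₁.card := by
    have := mul_le_mul_of_nonneg_left hX₁2 (by positivity : (0 : ℝ) ≤ κa / 2)
    linarith
  have hpr3 : 3 * (p : ℝ) ≤ κa * X₁.card := by linarith
  obtain ⟨G, ys, y, P₁, P₂, U₁, Gc, hGC, -, -, hhop⟩ := gcut2R hT (X := X₁) (Bd := ∅) (Bad := ∅) (p := p) (q := 3 * p)
    (N := gl) (e := 0) (b₀ := 0) (κa := κa) (ηa := ηa) (κ₀ := κ₀) (η := η) h0a hηa hηa1 h0 hη hη1 hgl (by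
      have h1 : (((gl * (0 + 1) : ℕ)) : ℝ) ≤ Nn := by exact_mod_cast (by omega : gl * (0 + 1) ≤ Nn)
      linarith) (by omega) (by
      push_cast
      linarith) (by simp) (by
      have : (0 : ℝ) ≤ κ₀ * p := by positivity
      simpa using this) (by simp)
  have hhop' := hhop rfl rfl
  refine ⟨G, ys, y, P₁, P₂, U₁, ⟨⟨hGC.hP₁, ?_, ?_, ?_, ?_, ?_⟩, hX₁X, hGC.hGX, hGC.hU₁, hGC.hP₁, hGC.card₁, ?_,
    hGC.len, hGC.nodup, hGC.chain, hGC.last, ?_, hGC.disj, hGC.part, ?_, ?_, ?_, hGC.bulk, hGC.hG⟩, ?_⟩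
  · intro z hz
    exact (hGC.hys z (List.mem_toFinset.1 hz)).2.1
  · rw [disjoint_left]
    intro z hz
    exact (hGC.hys z (List.mem_toFinset.1 hz)).2.2.1
  · intro z hz
    exact (hGC.inn z (List.mem_toFinset.1 hz)).reach
  · intro z hz
    exact (hGC.inn z (List.mem_toFinset.1 hz)).lin
  · intro z hz j hj
    refine ((hGC.inn z (List.mem_toFinset.1 hz)).cnt j hj).trans ?_
    omega
  · have := hGC.hU₁c
    omega
  · intro z hz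
    obtain ⟨h1, h2, h3, h4, -⟩ := hGC.hys z hz
    exact ⟨h1, h2, h3, h4⟩
  · intro g hg
    refine good_add (hGC.good g hg) hX₁X ?_ ?_
    · have h1 := mul_le_mul_of_nonneg_left hX₁2 (by positivity : (0 : ℝ) ≤ κa ^ 2 / 8)
      linarith
    · have h1 : ηa * (X₁.card : ℝ) ≤ ηa * X.card := mul_le_mul_of_nonneg_left (by linarith [(Nat.cast_nonneg _ :
        (0 : ℝ) ≤ ((low R sg X).card : ℝ))]) hηa0.le
      have h2 : 25 * κa * (X.card : ℝ) ≤ ηa * X.card := mul_le_mul_of_nonneg_right hηa hX0.le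
      have h3 : (0 : ℝ) ≤ κa * X.card := by positivity
      linarith
  · refine hκX₁.trans (hGC.lin.trans ?_)
    apply Nat.cast_le.2
    apply card_le_card
    intro w hw
    rw [mem_filter] at hw ⊢
    exact ⟨hw.1, hw.2.1, hw.2.2.1⟩
  · intro j hj
    have h1 := hGC.cnt j (by
      have : (0 : ℝ) ≤ κa * X.card := by positivity
      linarith)
    simp only [card_empty, Nat.mul_zero, Nat.add_zero] at h1
    refine le_trans (card_le_card ?_) h1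
    intro u hu
    rw [mem_filter] at hu
    obtain ⟨hu1, hu2, hu3⟩ := hu
    have hsub : P₂.filter (fun w => R y w ∧ R w u ∧ w ∈ G ∧ w ∉ (∅ : Finset V)) ⊆
        nI R (P₂.filter (fun w => R y w ∧ w ∈ G)) u := by
      intro w hw
      rw [mem_filter] at hw
      exact mem_nI.2 ⟨mem_filter.2 ⟨hw.1, hw.2.1, hw.2.2.2.1⟩, hw.2.2.1⟩
    have h2 := (card_le_card hsub).trans hu3
    rw [mem_filter]
    refine ⟨?_, h2⟩
    rcases hGC.out u hu1 hu2 with h3 | h3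
    · exact h3
    · exfalso
      have h4 : ((P₂.filter (fun w => R y w ∧ R w u ∧ w ∈ G ∧ w ∉ (∅ : Finset V))).card : ℝ) ≤ j := by
        exact_mod_cast h2
      have h5 : (0 : ℝ) < κa * X.card := by positivity
      linarith
  · intro y₁ hy₁ F hF
    refine hhop' y₁ hy₁ F ?_
    rw [hGC.card₁]
    have : (F.card : ℝ) ≤ f₀ := by exact_mod_cast hF
    linarith

theorem GrpC2.P₁X {V : Type} {R : V → V → Prop} {X X₁ P₁ P₂ U₁ G : Finset V} {ys : List V} {y : V}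
    {κa ηa κ₀ η : ℝ} {p gl e₁ : ℕ} (h : GrpC2 R X X₁ P₁ P₂ U₁ G ys y κa ηa κ₀ η p gl e₁) : P₁ ⊆ X :=
  h.hP₁.trans (h.hU₁.trans (h.hG.trans h.hX₁))

/-- **The cut of a heavy stage, with the three links**, with two pairs of constants. The mass of the group is large
against `w`, `sig` and `r`. -/
theorem grp_cut2 {κa ηa κ₀ η : ℝ} (h0a : 0 < κa) (hηa : 25 * κa ≤ ηa) (hηa1 : ηa ≤ 1 / 8) (h0 : 0 < κ₀)
    (hη : 25 * κ₀ ≤ η) (hη1 : η ≤ 1 / 8) (Nn f₀ K' : ℕ) : ∃ (ξ : ℝ) (C : ℕ),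
    0 < ξ ∧ ∀ {V : Type} {R : V → V → Prop}, AE32.Tour R → ∀ {X : Finset V} {N : V → Prop} {κ ηS s : ℝ}
      {lam sig f w sg p r gl : ℕ}, StE R X ∅ N κ ηS s lam sig f w K' 0 → 1 ≤ gl → gl ≤ Nn → f₀ + 3 ≤ f → r ≤ lam →
      ((p + sg : ℕ) : ℝ) ≤ ξ * X.card → 16 * (w + 2 * sig + 2 * r) + C ≤ p →
      ∃ G ys y P₁ P₂ U₁, GrpC2 R X (X \ low R sg X) P₁ P₂ U₁ G ys y κa ηa κ₀ η p gl (4 * Nn) ∧
        ∀ y₁ ∈ ys.head?, ∀ F : Finset V, F.card ≤ f₀ →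
          ∃ v a w', (v ∈ cg R X ∅ N κ ηS lam ∨ v ∈ P₁) ∧ v ∈ X ∧ N v ∧ a ∈ P₁ ∧ w' ∈ P₁ ∧ v ∉ F ∧ a ∉ F ∧ w' ∉ F ∧
            v ≠ a ∧ v ≠ w' ∧ a ≠ w' ∧ R v a ∧ R a w' ∧ R w' y₁ ∧ r ≤ (nI R X v).card ∧ r ≤ (nI R X a).card ∧
            r ≤ (nI R X w').card := by
  obtain ⟨ξ, C, hξ, hcore⟩ := grp2_core h0a hηa hηa1 h0 hη hη1 Nn f₀
  refine ⟨ξ, C + 16 * (K' * (f₀ + 3) + f₀ + 5), hξ, ?_⟩
  intro V R hT X N κ ηS s lam sig f w sg p r gl hS hgl hglN hf hr hpX hp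
  obtain ⟨G, ys, y, P₁, P₂, U₁, hG, hhop⟩ := hcore hT hgl hglN hpX (by omega)
  refine ⟨G, ys, y, P₁, P₂, U₁, hG, fun y₁ hy₁ F hF => ?_⟩
  have hKF : K' * (F.card + 3) ≤ K' * (f₀ + 3) := Nat.mul_le_mul_left _ (by omega)
  refine front_hop hT hS hG.P₁X (by omega) hr (hhop y₁ hy₁ F hF) ?_
  rw [hG.card₁]
  omega

theorem exists_path3 {V : Type} {R : V → V → Prop} (hT : AE32.Tour R) {S : Finset V} (hS : 3 ≤ S.card) :
    ∃ x ∈ S, ∃ y ∈ S, ∃ z ∈ S, x ≠ y ∧ x ≠ z ∧ y ≠ z ∧ R x y ∧ R y z := by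
  obtain ⟨a, ha, b, hb, c, hc, hab, hac, hbc⟩ := two_lt_card.1 (by omega : 2 < S.card)
  rcases hT.tot a b hab with h1 | h1
  · rcases hT.tot b c hbc with h2 | h2
    · exact ⟨a, ha, b, hb, c, hc, hab, hac, hbc, h1, h2⟩
    · rcases hT.tot a c hac with h3 | h3
      · exact ⟨a, ha, c, hc, b, hb, hac, hab, hbc.symm, h3, h2⟩
      · exact ⟨c, hc, a, ha, b, hb, hac.symm, hbc.symm, hab, h3, h1⟩
  · rcases hT.tot b c hbc with h2 | h2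
    · rcases hT.tot a c hac with h3 | h3
      · exact ⟨b, hb, a, ha, c, hc, hab.symm, hbc, hac, h1, h3⟩
      · exact ⟨b, hb, c, hc, a, ha, hbc, hab.symm, hac.symm, h2, h3⟩
    · exact ⟨c, hc, b, hb, a, ha, hbc.symm, hac.symm, hab.symm, h2, h1⟩

theorem exists_path2 {V : Type} {R : V → V → Prop} (hT : AE32.Tour R) {S : Finset V} (hS : 2 ≤ S.card) :
    ∃ x ∈ S, ∃ y ∈ S, x ≠ y ∧ R x y := by
  obtain ⟨a, ha, b, hb, hab⟩ := one_lt_card.1 (by omega : 1 < S.card)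
  rcases hT.tot a b hab with h1 | h1
  · exact ⟨a, ha, b, hb, hab, h1⟩
  · exact ⟨b, hb, a, ha, hab.symm, h1⟩

/-- **The four links**: exactly four links, the state may have an exceptional set -/
theorem front_four {V : Type} {R : V → V → Prop} (hT : AE32.Tour R) {X E P₁ F : Finset V} {N : V → Prop} {κ η s : ℝ}
    {f w K' lamE f₀ : ℕ} {y₁ : V} (hS : StE R X E N κ η s 0 0 f w K' lamE) (hP : P₁ ⊆ X) (hF : F.card ≤ f₀)
    (hf : f₀ + 6 ≤ f) (hop : ∃ w' ∈ P₁, w' ∉ F ∧ R w' y₁ ∧ P₁.card ≤ 16 * (nI R P₁ w').card)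
    (hbig : 16 * (w + K' * (f₀ + 4) + f₀ + 3) ≤ P₁.card) (hE : E = ∅ ∨ w + K' * (f₀ + 4) + f₀ + 3 ≤ lamE) :
    ∃ v b a w', (Good R κ η X v ∨ v ∈ P₁) ∧ (Good R κ η X b ∨ b ∈ P₁) ∧ v ∈ X ∧ b ∈ X ∧ N v ∧ a ∈ P₁ ∧ w' ∈ P₁ ∧
      R v b ∧ R b a ∧ R a w' ∧ R w' y₁ ∧ v ≠ b ∧ v ≠ a ∧ v ≠ w' ∧ b ≠ a ∧ b ≠ w' ∧ a ≠ w' ∧
      v ∉ F ∧ b ∉ F ∧ a ∉ F ∧ w' ∉ F := by
  obtain ⟨w', hw', hwF, hwy, hwd⟩ := hop
  have hirr := hT.irr
  -- the vertices without dominators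
  obtain ⟨Bd, hBd⟩ : ∃ Bd, Bd = (X \ E).filter (fun u => ¬ N u ∧
      (nI R (cg R X ∅ N κ η 0) u).card ≤ f₀ + 4) := ⟨_, rfl⟩
  have hBdm : ∀ {u}, u ∈ Bd ↔ (u ∈ X ∧ u ∉ E) ∧ ¬ N u ∧ (nI R (cg R X ∅ N κ η 0) u).card ≤ f₀ + 4 := by
    intro u
    rw [hBd, mem_filter, mem_sdiff]
  have hBdc : Bd.card ≤ w + K' * (f₀ + 4) := by
    refine le_trans (card_le_card ?_) (hS.cnt (f₀ + 4) (by omega))
    intro u hu
    rw [hBdm] at hu
    rw [mem_filter, mem_sdiff]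
    exact ⟨hu.1, hu.2.1, Nat.zero_le _, hu.2.2⟩
  have hcg : ∀ {v}, v ∈ cg R X ∅ N κ η 0 → v ∈ X ∧ N v ∧ Good R κ η X v := by
    intro v hv
    have := mem_cg.1 hv
    exact ⟨this.1, this.2.1, this.2.2.1⟩
  obtain ⟨A, hA⟩ : ∃ A, A = (nI R P₁ w' \ F) \ Bd := ⟨_, rfl⟩
  have hAm : ∀ {a}, a ∈ A ↔ ((a ∈ P₁ ∧ R a w') ∧ a ∉ F) ∧ a ∉ Bd := by
    intro a
    rw [hA, mem_sdiff, mem_sdiff, mem_nI]
  have hAc : 3 ≤ A.card := by
    have h1 := le_card_sdiff F (nI R P₁ w')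
    have h2 := le_card_sdiff Bd (nI R P₁ w' \ F)
    rw [← hA] at h2
    omega
  by_cases h1 : ∃ a ∈ A, a ∉ E ∧ ¬ N a
  · -- many dominators
    obtain ⟨a, ha, haE, haN⟩ := h1
    have ha' := hAm.1 ha
    have h2 : f₀ + 4 < (nI R (cg R X ∅ N κ η 0) a).card := by
      by_contra hc
      push Not at hc
      exact ha'.2 (hBdm.2 ⟨⟨hP ha'.1.1.1, haE⟩, haN, hc⟩)
    have h3 : 2 ≤ (nI R (cg R X ∅ N κ η 0) a \ (F ∪ {w'})).card := by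
      have h5 := le_card_sdiff (F ∪ {w'}) (nI R (cg R X ∅ N κ η 0) a)
      have h6 := card_union_le F {w'}
      rw [card_singleton] at h6
      omega
    obtain ⟨v, hv, b, hb, hvb, hRvb⟩ := exists_path2 hT h3
    rw [mem_sdiff, mem_nI, mem_union, mem_singleton, not_or] at hv hb
    obtain ⟨⟨hv1, hv2⟩, hv3, hv4⟩ := hv
    obtain ⟨⟨hb1, hb2⟩, hb3, hb4⟩ := hb
    refine ⟨v, b, a, w', Or.inl (hcg hv1).2.2, Or.inl (hcg hb1).2.2, (hcg hv1).1, (hcg hb1).1, (hcg hv1).2.1,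
      ha'.1.1.1, hw', hRvb, hb2, ha'.1.1.2, hwy, hvb, ?_, hv4, ?_, hb4, ?_, hv3, hb3, ha'.1.2, hwF⟩
    · rintro rfl
      exact hirr _ hv2
    · rintro rfl
      exact hirr _ hb2
    · rintro rfl
      exact hirr _ ha'.1.1.2
  by_cases h2 : ∃ a ∈ A, a ∈ E
  · -- the exceptional set
    obtain ⟨a, ha, haE⟩ := h2
    have ha' := hAm.1 ha
    have hlam : w + K' * (f₀ + 4) + f₀ + 3 ≤ lamE := by
      rcases hE with h3 | h3
      · rw [h3] at haE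
        exact absurd haE (notMem_empty _)
      · exact h3
    have haw : a ≠ w' := by
      rintro rfl
      exact hirr _ ha'.1.1.2
    obtain ⟨B, hB⟩ : ∃ B, B = ((X \ E).filter (fun b => R b a ∧ Good R κ η X b ∧ 0 ≤ (nI R X b).card)) \ (F ∪ {w'}) :=
      ⟨_, rfl⟩
    have hBm : ∀ {b}, b ∈ B ↔ ((b ∈ X ∧ b ∉ E) ∧ R b a ∧ Good R κ η X b) ∧ b ∉ F ∧ b ≠ w' := by
      intro b
      rw [hB, mem_sdiff, mem_filter, mem_sdiff, mem_union, mem_singleton, not_or]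
      simp only [Nat.zero_le, and_true, ne_eq]
    have hBc : w + K' * (f₀ + 4) + 2 ≤ B.card := by
      have h5 := le_card_sdiff (F ∪ {w'}) ((X \ E).filter (fun b => R b a ∧ Good R κ η X b ∧ 0 ≤ (nI R X b).card))
      have h6 := card_union_le F {w'}
      rw [card_singleton] at h6
      have h7 := hS.thr a haE
      rw [← hB] at h5
      omega
    by_cases h3 : ∃ b ∈ B, ¬ N b ∧ b ∉ Bd
    · obtain ⟨b, hb, hbN, hbB⟩ := h3
      have hb' := hBm.1 hb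
      have h4 : f₀ + 4 < (nI R (cg R X ∅ N κ η 0) b).card := by
        by_contra hc
        push Not at hc
        exact hbB (hBdm.2 ⟨hb'.1.1, hbN, hc⟩)
      have h5 : 0 < (nI R (cg R X ∅ N κ η 0) b \ (F ∪ {w', a})).card := by
        have h5 := le_card_sdiff (F ∪ {w', a}) (nI R (cg R X ∅ N κ η 0) b)
        have h6 := card_union_le F {w', a}
        have h7 : ({w', a} : Finset V).card ≤ 2 := card_le_two
        omega
      obtain ⟨v, hv⟩ := card_pos.1 h5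
      rw [mem_sdiff, mem_nI, mem_union, mem_insert, mem_singleton, not_or, not_or] at hv
      obtain ⟨⟨hv1, hv2⟩, hv3, hv4, hv5⟩ := hv
      refine ⟨v, b, a, w', Or.inl (hcg hv1).2.2, Or.inl hb'.1.2.2, (hcg hv1).1, hb'.1.1.1, (hcg hv1).2.1,
        ha'.1.1.1, hw', hv2, hb'.1.2.1, ha'.1.1.2, hwy, ?_, hv5, hv4, ?_, hb'.2.2, haw, hv3, hb'.2.1, ha'.1.2, hwF⟩
      · rintro rfl
        exact hirr _ hv2
      · rintro rfl
        exact hirr _ hb'.1.2.1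
    · push Not at h3
      have h4 : 2 ≤ (B \ Bd).card := by
        have := le_card_sdiff Bd B
        omega
      obtain ⟨v, hv, b, hb, hvb, hRvb⟩ := exists_path2 hT h4
      rw [mem_sdiff] at hv hb
      have hv' := hBm.1 hv.1
      have hb' := hBm.1 hb.1
      have hvN : N v := by
        by_contra hc
        exact hv.2 (h3 v hv.1 hc)
      refine ⟨v, b, a, w', Or.inl hv'.1.2.2, Or.inl hb'.1.2.2, hv'.1.1.1, hb'.1.1.1, hvN,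
        ha'.1.1.1, hw', hRvb, hb'.1.2.1, ha'.1.1.2, hwy, hvb, ?_, hv'.2.2, ?_, hb'.2.2, haw, hv'.2.1, hb'.2.1,
        ha'.1.2, hwF⟩
      · rintro rfl
        exact hirr _ hv'.1.2.1
      · rintro rfl
        exact hirr _ hb'.1.2.1
  · -- three members of `N`
    push Not at h1 h2
    obtain ⟨v, hv, b, hb, a, ha, hvb, hva, hba, hRvb, hRba⟩ := exists_path3 hT hAc
    have hv' := hAm.1 hv
    have hb' := hAm.1 hb
    have ha' := hAm.1 ha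
    refine ⟨v, b, a, w', Or.inr hv'.1.1.1, Or.inr hb'.1.1.1, hP hv'.1.1.1, hP hb'.1.1.1, h1 v hv (h2 v hv),
      ha'.1.1.1, hw', hRvb, hRba, ha'.1.1.2, hwy, hvb, hva, ?_, hba, ?_, ?_, hv'.1.2, hb'.1.2, ha'.1.2, hwF⟩
    · rintro rfl
      exact hirr _ hv'.1.1.2
    · rintro rfl
      exact hirr _ hb'.1.1.2
    · rintro rfl
      exact hirr _ ha'.1.1.2

/-- **The cut of a critical stage, with exactly four links.** -/
theorem crit_cut {κa ηa κ₀ η : ℝ} (h0a : 0 < κa) (hηa : 25 * κa ≤ ηa) (hηa1 : ηa ≤ 1 / 8) (h0 : 0 < κ₀)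
    (hη : 25 * κ₀ ≤ η) (hη1 : η ≤ 1 / 8) (Nn f₀ K' : ℕ) : ∃ (ξ : ℝ) (C : ℕ),
    0 < ξ ∧ ∀ {V : Type} {R : V → V → Prop}, AE32.Tour R → ∀ {X E : Finset V} {N : V → Prop} {κ ηS s : ℝ}
      {f w sg p gl lamE : ℕ}, StE R X E N κ ηS s 0 0 f w K' lamE → 1 ≤ gl → gl ≤ Nn → f₀ + 6 ≤ f →
      ((p + sg : ℕ) : ℝ) ≤ ξ * X.card → 16 * w + C ≤ p → (E = ∅ ∨ w + C ≤ lamE) →
      ∃ G ys y P₁ P₂ U₁, GrpC2 R X (X \ low R sg X) P₁ P₂ U₁ G ys y κa ηa κ₀ η p gl (4 * Nn) ∧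
        ∀ y₁ ∈ ys.head?, ∀ F : Finset V, F.card ≤ f₀ →
          ∃ v b a w', (Good R κ ηS X v ∨ v ∈ P₁) ∧ (Good R κ ηS X b ∨ b ∈ P₁) ∧ v ∈ X ∧ b ∈ X ∧ N v ∧ a ∈ P₁ ∧
            w' ∈ P₁ ∧ R v b ∧ R b a ∧ R a w' ∧ R w' y₁ ∧ v ≠ b ∧ v ≠ a ∧ v ≠ w' ∧ b ≠ a ∧ b ≠ w' ∧ a ≠ w' ∧
            v ∉ F ∧ b ∉ F ∧ a ∉ F ∧ w' ∉ F := by
  obtain ⟨ξ, C, hξ, hcore⟩ := grp2_core h0a hηa hηa1 h0 hη hη1 Nn f₀
  refine ⟨ξ, C + 16 * (K' * (f₀ + 4) + f₀ + 3), hξ, ?_⟩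
  intro V R hT X E N κ ηS s f w sg p gl lamE hS hgl hglN hf hpX hp hE
  obtain ⟨G, ys, y, P₁, P₂, U₁, hG, hhop⟩ := hcore hT hgl hglN hpX (by omega)
  refine ⟨G, ys, y, P₁, P₂, U₁, hG, fun y₁ hy₁ F hF => ?_⟩
  refine front_four hT hS hG.P₁X hF hf (hhop y₁ hy₁ F hF) ?_ ?_
  · rw [hG.card₁]
    omega
  · rcases hE with h | h
    · exact Or.inl h
    · exact Or.inr (by omega)

end AEG
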