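import Pool.Agent.AEG.CritS
import Pool.Agent.AEG.LinkX
import Pool.Agent.AEG.PackQ
import Pool.Agent.AEG.GlueCr
import Pool.Agent.AEG.GroupR2

/-!
# From a critical group to the next group: the in-items

`crit_in`: the in-items of the four links are placed against the old pool, then the old pool is packed.
-/

set_option autoImplicit false

namespace AEG

open Finset AE15 AED AEB SPD
open scoped Classical

private theorem inS_four (l₁ l₂ l₃ l₄ : Fd × Fd) : inS [l₁, l₂, l₃, l₄] = l₁.1.size + l₂.1.size + l₃.1.size + l₄.1.size := by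
  simp [inS]
  omega

/-- the retention of the dominators -/
def RetD {V : Type} (R : V → V → Prop) (P₂ U₁ My : Finset V) (y : V) (T₁ T : Finset V) (w₀ : ℕ) : Prop :=
  ∀ u ∈ P₂, R u y → (nI R (My ∩ U₁) u).card ≤ (nI R (My \ U₁) u).card →
    (nI R (My \ U₁) u).card ≤ 4 * (nI R (My \ U₁) u \ (T₁ ∪ T)).card + w₀

/-- the retention of the capacity -/
def RetC {V : Type} (R : V → V → Prop) (X P₂ U₁ T₁ T : Finset V) (w₀ : ℕ) : Prop :=
  ∀ u ∈ P₂, (nI R (X \ (P₂ \ U₁)) u).card ≤ (nI R (P₂ \ U₁) u).card →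
    (nI R (P₂ \ U₁) u).card ≤ 4 * (nI R (P₂ \ U₁) u \ (T₁ ∪ T)).card + w₀

theorem crit_in (b l : ℕ) (hb : 1 ≤ b) : ∃ (w₀ : ℕ) (cκ : ℝ) (a₀ : ℕ), 1 ≤ cκ ∧ 1 ≤ a₀ ∧
    ∀ (Kg : ℝ) (Nn : ℕ), 1 ≤ Nn → ∀ {κ ξ s τ : ℝ}, 0 < κ → κ ≤ 1 → 0 < ξ → ξ ≤ 1 → 0 < s → s ≤ 1 → 0 < τ →
    ∀ K e : ℕ, ∃ dA : ℝ, 0 < dA ∧ (κ / cκ * (ξ / 2)) ^ 2 / (a₀ * (Nn : ℝ) ^ a₀) ≤ dA ∧ ∃ J C₀ C : ℕ,
    ∀ {V : Type} {R : V → V → Prop}, AE32.Tour R → ∀ {P X U G P₁ P₂ U₁ : Finset V} {ys ys' : List V}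
      {v b₁ a w' y' : V} {t κa ηa κ₀ η : ℝ} (sg bb cc mB pp gl J₂ : ℕ) (k₁ k₂ k₃ k₄ : Fd × Fd) (gr : List (Fd × Fd)),
      GSd (rv R) U P ys.toFinset κ t s τ K e → ξ * U.card ≤ P.card → 2 * (a₀ * Nn * t) ≤ P.card → Disjoint P X →
      (∀ z ∈ ys, z ∉ P ∧ z ∉ X) → U ⊆ P ∪ X ∪ ys.toFinset → ys.length = gr.length → gr ≠ [] → gr.length ≤ Nn →
      GrpC2 R X (X \ low R sg X) P₁ P₂ U₁ G ys' y' κa ηa κ₀ η pp gl (4 * Nn) → gl ≤ Nn →
      (∀ q ∈ gr ++ [k₁, k₂, k₃, k₄], BrO b l q) → (∀ h ∈ [v, b₁, a, w'], h ∈ X ∧ h ∉ ys' ∧ CapL R X (P ∪ X) bb cc h) →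
      16 * inS [k₁, k₂, k₃, k₄] + C ≤ P.card → inS gr + inS [k₁, k₂, k₃, k₄] + C₀ ≤ P.card →
      P.card ≤ inS gr + inS [k₁, k₂, k₃, k₄] + J₂ → 1 ≤ mB →
      2 * κa * (X \ low R sg X).card + ((mB + 6 * pp + C : ℕ) : ℝ) ≤ 15 * (κa * (X \ low R sg X).card) →
      mB + (6 * pp + 2 * sg) + 24 * inS [k₁, k₂, k₃, k₄] + C ≤ bb → C ≤ cc →
      2 * ((6 * pp + 2 * sg : ℕ) : ℝ) ≤ dA * P.card → 0 < κa → 20 + 8 / κa ≤ Kg →
      ∃ T₁ T S E Bp So X₀ : Finset V,
        CEd R P X G P₁ P₂ U₁ (low R sg X) ys' {v, b₁, a, w'} T₁ T S E Bp So X₀ (inS [k₁, k₂, k₃, k₄]) (inS gr) mB w₀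
          J J₂ gl pp ∧
        EmbAllB (rv R) [(v, k₁.1), (b₁, k₂.1), (a, k₃.1), (w', k₄.1)] (T₁ ∪ (T ∪ S)) ∧
        EmbAllB (rv R) (ys.zip (gr.map Prod.fst)) So ∧
        RetD R P₂ U₁ (P₂.filter (fun w => R y' w ∧ w ∈ G)) y' T₁ T w₀ ∧ RetC R X P₂ U₁ T₁ T w₀ := by
  obtain ⟨w₀, cκ, hcκ, hlink⟩ := link_exact2 b l hb 4
  obtain ⟨a₀, ha₀, hpack⟩ := pack_GSdq b l hb
  refine ⟨w₀, cκ, a₀, hcκ, ha₀, ?_⟩
  intro Kg Nn hNn κ ξ s τ hκ hκ1 hξ hξ1 hs hs1 hτ K e
  obtain ⟨s', τ', K', g1, g2, g3, g4, hlink⟩ := hlink Kg hκ hκ1 hξ hξ1 hs hs1 hτ K e Nn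
  have hcκ0 : 0 < cκ := by linarith
  obtain ⟨dA, hdA, hdA', hpack⟩ := hpack Nn hNn (κ / cκ) (ξ / 2) s' τ' (by positivity)
    ((div_le_one hcκ0).2 (by linarith)) (by positivity) (by linarith) g1 g3
  obtain ⟨C₁, e', hlink⟩ := hlink (w₀ + 4 + Nn)
  obtain ⟨J, C₀, hpack⟩ := hpack K' e'
  refine ⟨dA, hdA, hdA', J, C₀, C₁ + 1, ?_⟩
  intro V R hT P X U G P₁ P₂ U₁ ys ys' v b₁ a w' y' t κa ηa κ₀ η sg bb cc mB pp gl J₂ k₁ k₂ k₃ k₄ gr hGS hξP ht hPX
    hys hUs hlen hgr hgrN hG hglN hbr hh hq1 hq2 hq3 hmB hbulk hbb hcc hAd hκa hKg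
  obtain ⟨q, hq⟩ : ∃ q, q = inS [k₁, k₂, k₃, k₄] := ⟨_, rfl⟩
  rw [← hq] at hq1 hq2 hq3 hbb ⊢
  obtain ⟨W₀, hW₀⟩ : ∃ W₀, W₀ = low R sg X := ⟨_, rfl⟩
  rw [← hW₀] at hG hbulk ⊢
  have hW₀X : W₀ ⊆ X := by rw [hW₀, low]; exact filter_subset _ _
  have hW₀c : W₀.card ≤ 2 * sg := by rw [hW₀]; exact card_low_in hT sg X
  obtain ⟨Hs, hHs⟩ : ∃ Hs : Finset V, Hs = {v, b₁, a, w'} := ⟨_, rfl⟩
  rw [← hHs]
  obtain ⟨os, hos⟩ : ∃ os : List (V × Fd), os = [(v, k₁.1), (b₁, k₂.1), (a, k₃.1), (w', k₄.1)] := ⟨_, rfl⟩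
  rw [← hos]
  obtain ⟨Qc, hQc⟩ : ∃ Qc, Qc = P₂ \ U₁ := ⟨_, rfl⟩
  obtain ⟨My, hMy⟩ : ∃ My, My = P₂.filter (fun w => R y' w ∧ w ∈ G) := ⟨_, rfl⟩
  have hosq : totB os = q := by
    rw [hos, hq, inS_four]
    simp [totB]
    omega
  have hHsc : Hs.card ≤ 4 := by rw [hHs]; exact card_le_four
  have hHsm : ∀ h ∈ Hs, h ∈ [v, b₁, a, w'] := by
    intro h hh'
    rw [hHs] at hh'
    simpa using hh'
  have hHsX : Hs ⊆ X := fun h hh' => (hh h (hHsm h hh')).1
  -- the sets of the cut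
  have hP₂X : P₂ ⊆ X := fun u hu => hG.hX₁ ((hG.part u).1 hu).1
  have hU₁X : U₁ ⊆ X := hG.hU₁.trans (hG.hG.trans hG.hX₁)
  have hQcX : Qc ⊆ X := by rw [hQc]; exact sdiff_subset.trans hP₂X
  have hX₁m : ∀ u, u ∈ X → u ∉ W₀ → u ∈ X \ W₀ := fun u h1 h2 => mem_sdiff.2 ⟨h1, h2⟩
  have hpart : ∀ x ∈ X, x ∈ W₀ ∨ x ∈ P₁ ∨ x ∈ P₂ ∨ x ∈ ys' := by
    intro x hx
    by_cases h1 : x ∈ W₀
    · exact Or.inl h1
    by_cases h2 : x ∈ P₁
    · exact Or.inr (Or.inl h2)
    by_cases h3 : x ∈ ys'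
    · exact Or.inr (Or.inr (Or.inr h3))
    · exact Or.inr (Or.inr (Or.inl ((hG.part x).2 ⟨hX₁m x hx h1, h2, h3⟩)))
  have hXQ : (X \ Qc).card ≤ 6 * pp + 2 * sg := by
    have h1 : X \ Qc ⊆ U₁ ∪ W₀ := by
      intro x hx
      rw [mem_sdiff, hQc, mem_sdiff] at hx
      rw [mem_union]
      rcases hpart x hx.1 with h2 | h2 | h2 | h2
      · exact Or.inr h2
      · exact Or.inl (hG.hP₁ h2)
      · by_contra h3
        rw [not_or] at h3
        exact hx.2 ⟨h2, h3.1⟩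
      · exact Or.inl (hG.hys x h2).2.1
    have h2 := (card_le_card h1).trans (card_union_le _ _)
    have h3 := hG.cardU
    omega
  -- the families
  obtain ⟨I₁, hI₁⟩ : ∃ I₁, I₁ = P₂.filter (fun u => R u y' ∧ (nI R (My ∩ U₁) u).card ≤ (nI R (My \ U₁) u).card) :=
    ⟨_, rfl⟩
  obtain ⟨I₂, hI₂⟩ : ∃ I₂, I₂ = P₂.filter (fun u => (nI R (X \ Qc) u).card ≤ (nI R Qc u).card) := ⟨_, rfl⟩
  have hMyU : My \ U₁ ⊆ Qc := by
    rw [hMy, hQc]
    exact sdiff_subset_sdiff (filter_subset _ _) (Subset.refl _)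
  have hX0 : (0 : ℝ) ≤ X.card := Nat.cast_nonneg _
  have hcount : ∀ k : ℕ, (((I₁.disjSum I₂).filter (fun j => (Sum.elim (fun u => nI R (My \ U₁) u)
      (fun u => nI R Qc u) j).card = k)).card : ℝ) ≤ Kg * (k + 1) := by
    intro k
    have h1 : (I₁.disjSum I₂).filter (fun j => (Sum.elim (fun u => nI R (My \ U₁) u)
        (fun u => nI R Qc u) j).card = k) =
        (I₁.filter (fun u => (nI R (My \ U₁) u).card = k)).disjSum (I₂.filter (fun u => (nI R Qc u).card = k)) := by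
      ext u
      rw [mem_filter, mem_disjSum, mem_disjSum]
      constructor
      · rintro ⟨⟨x, hx, rfl⟩ | ⟨x, hx, rfl⟩, h⟩
        · exact Or.inl ⟨x, mem_filter.2 ⟨hx, h⟩, rfl⟩
        · exact Or.inr ⟨x, mem_filter.2 ⟨hx, h⟩, rfl⟩
      · rintro (⟨x, hx, rfl⟩ | ⟨x, hx, rfl⟩)
        · exact ⟨Or.inl ⟨x, (mem_filter.1 hx).1, rfl⟩, (mem_filter.1 hx).2⟩
        · exact ⟨Or.inr ⟨x, (mem_filter.1 hx).1, rfl⟩, (mem_filter.1 hx).2⟩
    rw [h1, card_disjSum]
    push_cast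
    have hk0 : (0 : ℝ) ≤ k := Nat.cast_nonneg _
    have h2 : ((I₁.filter (fun u => (nI R (My \ U₁) u).card = k)).card : ℝ) ≤ (12 + 8 / κa) * k := by
      have h8 : 0 ≤ 8 / κa := by positivity
      by_cases hk : ((2 * k : ℕ) : ℝ) ≤ κa / 4 * X.card
      · have h3 := hG.cnt (2 * k) hk
        have h4 : I₁.filter (fun u => (nI R (My \ U₁) u).card = k) ⊆
            P₂.filter (fun u => R u y' ∧ (nI R (P₂.filter (fun w => R y' w ∧ w ∈ G)) u).card ≤ 2 * k) := by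
          intro u hu
          rw [mem_filter, hI₁, mem_filter] at hu
          obtain ⟨⟨h5, h6, h7⟩, h9⟩ := hu
          rw [mem_filter, ← hMy]
          refine ⟨h5, h6, ?_⟩
          have h10 : nI R My u ⊆ nI R (My ∩ U₁) u ∪ nI R (My \ U₁) u := by
            intro x hx
            rw [mem_nI] at hx
            rw [mem_union, mem_nI, mem_nI, mem_inter, mem_sdiff]
            by_cases h11 : x ∈ U₁
            · exact Or.inl ⟨⟨hx.1, h11⟩, hx.2⟩
            · exact Or.inr ⟨⟨hx.1, h11⟩, hx.2⟩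
          have h11 := (card_le_card h10).trans (card_union_le _ _)
          omega
        have h5 : ((I₁.filter (fun u => (nI R (My \ U₁) u).card = k)).card : ℝ) ≤ (12 * k : ℕ) := by
          exact_mod_cast ((card_le_card h4).trans h3).trans (by omega)
        push_cast at h5
        have h6 := mul_nonneg h8 hk0
        linarith
      · push Not at hk
        push_cast at hk
        have h3 : ((I₁.filter (fun u => (nI R (My \ U₁) u).card = k)).card : ℝ) ≤ X.card := by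
          apply Nat.cast_le.2
          apply card_le_card
          refine (filter_subset _ _).trans ?_
          rw [hI₁]
          exact (filter_subset _ _).trans hP₂X
        have h4 : (X.card : ℝ) ≤ 8 / κa * k := by
          rw [div_mul_eq_mul_div, le_div_iff₀ hκa]
          linarith
        have h5 : (0 : ℝ) ≤ 12 * k := by positivity
        linarith
    have h3 : ((I₂.filter (fun u => (nI R Qc u).card = k)).card : ℝ) ≤ 4 * k + 2 := by
      have h4 : I₂.filter (fun u => (nI R Qc u).card = k) ⊆ X.filter (fun w => (nI R X w).card < 2 * k + 1) := by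
        intro u hu
        rw [mem_filter, hI₂, mem_filter] at hu
        obtain ⟨⟨h5, h6⟩, h7⟩ := hu
        rw [mem_filter]
        refine ⟨hP₂X h5, ?_⟩
        have h10 : nI R X u ⊆ nI R (X \ Qc) u ∪ nI R Qc u := by
          intro x hx
          rw [mem_nI] at hx
          rw [mem_union, mem_nI, mem_nI, mem_sdiff]
          by_cases h11 : x ∈ Qc
          · exact Or.inr ⟨h11, hx.2⟩
          · exact Or.inl ⟨⟨hx.1, h11⟩, hx.2⟩
        have h11 := (card_le_card h10).trans (card_union_le _ _)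
        omega
      have h5 := (card_le_card h4).trans (AECut.card_lowin hT (2 * k + 1) X)
      have h6 : (I₂.filter (fun u => (nI R Qc u).card = k)).card ≤ 4 * k + 2 := by omega
      exact_mod_cast h6
    have h4 : (20 + 8 / κa) * ((k : ℝ) + 1) ≤ Kg * (k + 1) := mul_le_mul_of_nonneg_right hKg (by positivity)
    have h5 : 0 ≤ 8 / κa := by positivity
    linarith
  -- the in-items of the links
  have hnorm : ∀ (W : Finset V) (z : V), nO (rv R) W z = nI R W z := fun _ _ => rfl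
  have hnorm' : ∀ (W : Finset V) (z : V), nI (rv R) W z = nO R W z := fun _ _ => rfl
  obtain ⟨s₀, hs₀⟩ : ∃ s₀ : ℕ, s₀ = ⌊2 * κa * ((X \ W₀).card : ℝ)⌋₊ := ⟨_, rfl⟩
  have hPysd : Disjoint ys.toFinset X := by
    rw [disjoint_left]
    intro z hz
    exact (hys z (List.mem_toFinset.1 hz)).2
  obtain ⟨T₁, T, S, E, Bp, f1, f2, f3, f4, f5, f6, f7, f8, f9, f10, f11, f12, f13, f14, f15, f16, f17, f18⟩ :=
    hlink (rv_tour hT) (X := X) (U := U) (P := P) (Q := Qc) (ys := ys.toFinset) (G := G) (Hs := Hs)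
      (Av := ys'.toFinset) (t := t) (s₀ := s₀) (mB := mB) (mX := 6 * pp + 2 * sg) (bb := bb) (cc := cc) (os := os)
      hGS hξP (by omega) ((List.toFinset_card_le _).trans (by omega)) (by rw [hos]; simp) hHsc hHsX (by
        intro p hp
        rw [hos] at hp
        simp only [List.mem_cons, List.not_mem_nil, or_false] at hp
        have h1 : ∀ x : Fd × Fd, x ∈ [k₁, k₂, k₃, k₄] → FOK b l 0 x.1 ∧ ∀ q ∈ x.1.trees, q.1 = true := by
          intro x hx
          have h2 := hbr x (List.mem_append_right _ hx)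
          exact ⟨h2.1, h2.2.2.1⟩
        rcases hp with rfl | rfl | rfl | rfl
        · exact ⟨by rw [hHs]; simp, h1 k₁ (by simp)⟩
        · exact ⟨by rw [hHs]; simp, h1 k₂ (by simp)⟩
        · exact ⟨by rw [hHs]; simp, h1 k₃ (by simp)⟩
        · exact ⟨by rw [hHs]; simp, h1 k₄ (by simp)⟩) hPX hPysd hQcX hXQ ((List.toFinset_card_le _).trans (by
        rw [hG.len]
        omega)) (by
        intro u hu huG
        rw [hnorm']
        rw [hQc, mem_sdiff] at hu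
        have h1 := hG.bulk u ((hG.part u).1 hu.1).1 huG
        rw [hs₀]
        exact Nat.le_floor h1.le) hmB (by
        have h1 : G ⊆ (G ∩ Qc) ∪ U₁ := by
          intro x hx
          rw [mem_union, mem_inter, hQc, mem_sdiff]
          by_cases h2 : x ∈ U₁
          · exact Or.inr h2
          · left
            have h3 := hG.hG hx
            refine ⟨hx, (hG.part x).2 ⟨h3, fun h4 => h2 (hG.hP₁ h4), fun h4 => h2 (hG.hys x h4).2.1⟩, h2⟩
        have h2 := (card_le_card h1).trans (card_union_le _ _)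
        have h3 := hG.cardU
        have h4 := hG.hGc
        have h5 : (s₀ : ℝ) ≤ 2 * κa * (X \ W₀).card := by
          rw [hs₀]
          exact Nat.floor_le (by positivity)
        have h6 : ((s₀ + mB + 6 * pp + (C₁ + 1) : ℕ) : ℝ) ≤ G.card := by
          push_cast
          push_cast at hbulk
          linarith
        have h7 : s₀ + mB + 6 * pp + (C₁ + 1) ≤ G.card := by exact_mod_cast h6
        omega) (by omega) (by omega) (by
        intro p hp
        have h1 : p.1 ∈ [v, b₁, a, w'] := by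
          rw [hos] at hp
          simp only [List.mem_cons, List.not_mem_nil, or_false] at hp ⊢
          rcases hp with rfl | rfl | rfl | rfl <;> simp
        exact (hh p.1 h1).2.2) (I₁.disjSum I₂) (Sum.elim (fun u => nI R (My \ U₁) u) (fun u => nI R Qc u)) (by
        intro j hj
        rcases mem_disjSum.1 hj with ⟨x, hx, rfl⟩ | ⟨x, hx, rfl⟩
        · exact nI_sub.trans hMyU
        · exact nI_sub) hcount
  rw [hosq] at f13 f14 f15
  rw [disjoint_union_right] at f2 f5 f8 f10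
  -- the old pool
  obtain ⟨S', hS'⟩ : ∃ S' : Finset V, S' = (T ∪ (S ∪ E)) ∪ ((T₁ ∪ Hs) ∪ ys'.toFinset) := ⟨_, rfl⟩
  have hPnX : ∀ x ∈ P, x ∉ X := fun x hx h => disjoint_left.1 hPX hx h
  have hys'X : ∀ x ∈ ys', x ∈ X := fun x hx => hU₁X (hG.hys x hx).2.1
  have hS'y : Disjoint S' ys.toFinset := by
    rw [disjoint_left]
    intro x hx hxy
    rw [List.mem_toFinset] at hxy
    obtain ⟨k1, k2⟩ := hys x hxy
    rw [hS'] at hx
    simp only [mem_union, List.mem_toFinset] at hx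
    rcases hx with (h | h | h) | (h | h) | h
    · exact k2 (hQcX (f4 h))
    · exact k1 (f7 h)
    · exact k1 (f9 h)
    · exact k2 (f1 h)
    · exact k2 (hHsX h)
    · exact k2 (hys'X x h)
  have hPS' : P \ S' = P \ (S ∪ E) := by
    ext x
    rw [mem_sdiff, mem_sdiff, hS']
    simp only [mem_union, List.mem_toFinset]
    constructor
    · rintro ⟨h1, h2⟩
      exact ⟨h1, fun h3 => h2 (Or.inl (Or.inr h3))⟩
    · rintro ⟨h1, h2⟩
      refine ⟨h1, ?_⟩
      have h3 := hPnX x h1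
      rintro ((h | h) | (h | h) | h)
      · exact h3 (hQcX (f4 h))
      · exact h2 h
      · exact h3 (f1 h)
      · exact h3 (hHsX h)
      · exact h3 (hys'X x h)
  have hPS'c : (P \ S').card + (S.card + E.card) = P.card := by
    rw [hPS', ← card_union_of_disjoint f11]
    exact card_sdiff_add_card_eq_card (union_subset f7 f9)
  have hGS' := f18 S' (by
    have h1 : S' \ (T ∪ (S ∪ E)) ⊆ (T₁ ∪ Hs) ∪ ys'.toFinset := by
      intro x hx
      rw [mem_sdiff, hS', mem_union] at hx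
      exact hx.1.resolve_left hx.2
    have h2 := (card_le_card h1).trans (card_union_le _ _)
    have h3 := card_union_le T₁ Hs
    have h4 := List.toFinset_card_le ys'
    have h5 := hG.len
    omega) hS'y
  have hP0 : (0 : ℝ) ≤ P.card := Nat.cast_nonneg _
  have hP2 : (P.card : ℝ) ≤ 2 * (P \ S').card := by
    exact_mod_cast (by omega : P.card ≤ 2 * (P \ S').card)
  obtain ⟨So, p1, p2, p3, p4, p5⟩ := hpack (rv_tour hT) hGS' (by
      have h1 : ((U \ S').card : ℝ) ≤ U.card := by exact_mod_cast card_le_card sdiff_subset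
      have h2 : ξ / 2 * ((U \ S').card : ℝ) ≤ ξ / 2 * U.card := mul_le_mul_of_nonneg_left h1 (by positivity)
      linarith) (by linarith) ((List.toFinset_card_le _).trans (by omega)) (ys.zip (gr.map Prod.fst)) (U₁ ∪ W₀) (by
      rw [List.length_zip, List.length_map]
      omega) (by
      intro h
      have h1 : (ys.zip (gr.map Prod.fst)).length = 0 := by rw [h]; rfl
      rw [List.length_zip, List.length_map] at h1
      apply hgr
      exact List.length_eq_zero_iff.1 (by omega)) (by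
      intro x hx
      have h1 := List.of_mem_zip hx
      obtain ⟨z, hz, hzx⟩ := List.mem_map.1 h1.2
      have h2 := hbr z (List.mem_append_left _ hz)
      rw [← hzx]
      exact ⟨List.mem_toFinset.2 h1.1, h2.1, h2.2.2.1⟩) (by
      have h1 : ((U₁ ∪ W₀).card : ℝ) ≤ ((6 * pp + 2 * sg : ℕ) : ℝ) := by
        apply Nat.cast_le.2
        have h2 := card_union_le U₁ W₀
        have h3 := hG.cardU
        omega
      have h2 : ((P \ S').card : ℝ) ≤ (U \ S').card := by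
        exact_mod_cast card_le_card (sdiff_subset_sdiff hGS.sub (Subset.refl _))
      have h3 : dA * (P \ S').card ≤ dA * (U \ S').card := mul_le_mul_of_nonneg_left h2 hdA.le
      have h4 : dA * P.card ≤ dA * (2 * (P \ S').card) := mul_le_mul_of_nonneg_left hP2 hdA.le
      linarith) (by
      rw [totB_zip_fst ys gr hlen]
      omega)
  -- the members of `So`
  have hSom : ∀ x ∈ So, (x ∈ P ∨ x ∈ X) ∧ x ∉ U₁ ∧ x ∉ W₀ ∧ x ∉ Hs ∧ x ∉ T₁ ∧ x ∉ T ∧ x ∉ S ∧ x ∉ E := by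
    intro x hx
    have h1 := p2 hx
    rw [mem_sdiff, hS'] at h1
    simp only [mem_union, List.mem_toFinset, not_or] at h1
    obtain ⟨h2, ⟨h3, h4, h5⟩, ⟨h6, h7⟩, h8⟩ := h1
    have h9 : x ∈ P ∨ x ∈ X := by
      have h10 := hUs h2
      rw [mem_union, mem_union] at h10
      rcases h10 with h10 | h10
      · exact h10
      · exact absurd h10 (disjoint_left.1 p4 hx)
    refine ⟨h9, ?_, ?_, h7, h6, h3, h4, h5⟩
    · intro h10
      have h11 : x ∈ So \ (P \ S') := by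
        rw [mem_sdiff, mem_sdiff]
        exact ⟨hx, fun h12 => hPnX x h12.1 (hU₁X h10)⟩
      exact disjoint_left.1 p3 h11 (mem_union_left _ h10)
    · intro h10
      have h11 : x ∈ So \ (P \ S') := by
        rw [mem_sdiff, mem_sdiff]
        exact ⟨hx, fun h12 => hPnX x h12.1 (hW₀X h10)⟩
      exact disjoint_left.1 p3 h11 (mem_union_right _ h10)
  obtain ⟨X₀, hX₀⟩ : ∃ X₀ : Finset V, X₀ = (P ∪ X) \ ((((P₁ ∪ W₀) ∪ (ys'.toFinset ∪ Hs)) ∪ (T₁ ∪ (T ∪ S))) ∪ So) :=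
    ⟨_, rfl⟩
  refine ⟨T₁, T, S, E, Bp, So, X₀, ?_, f12, p1, ?_, ?_⟩
  · refine ⟨hPnX, hG.hP₁, hU₁X, hP₂X, hW₀X, ?_, hpart, fun x hx h => disjoint_left.1 hG.disj hx h, fun x hx =>
      ⟨(hG.hys x hx).2.1, (hG.hys x hx).2.2.1, (hG.hys x hx).2.2.2⟩, hG.len, hG.card₁, fun x hx =>
      ⟨hHsX hx, (hh x (hHsm x hx)).2.1⟩, hHsc, ?_, f3, ?_, f7, f9, fun x hx h => disjoint_left.1 f11 hx h, f13, f14, f15,
      ?_, hSom, ?_, ?_, by omega, ?_⟩
    · intro x hx
      refine ⟨fun h => (mem_sdiff.1 (hG.hG (hG.hU₁ h))).2 hx, fun h => (mem_sdiff.1 ((hG.part x).1 h).1).2 hx⟩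
    · intro x hx
      refine ⟨f1 hx, fun h => disjoint_left.1 f2.2 hx h, fun h => disjoint_left.1 f2.1 hx (List.mem_toFinset.2 h)⟩
    · intro x hx
      have h1 := f4 hx
      rw [hQc, mem_sdiff] at h1
      exact ⟨h1.1, h1.2, fun h => disjoint_left.1 f5.2 hx h, fun h => disjoint_left.1 f6 h hx⟩
    · intro hE
      obtain ⟨r1, r2, r3, r4, r5, r6⟩ := f17 hE
      rw [disjoint_union_right] at r3 r4
      refine ⟨r1, fun x hx => ?_, r5, r6⟩
      have h1 := r2 hx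
      rw [hQc, mem_sdiff] at h1
      exact ⟨h1.1, h1.2, fun h => disjoint_left.1 r4.2 hx h, fun h => disjoint_left.1 r3.1 hx h,
        fun h => disjoint_left.1 r3.2 hx h⟩
    · rw [EmbAllB.card p1, totB_zip_fst ys gr hlen]
    · refine (card_le_card ?_).trans p5
      exact sdiff_subset_sdiff (Subset.refl _) sdiff_subset
    · intro x
      rw [hX₀]
      simp only [mem_sdiff, mem_union, List.mem_toFinset, not_or]
      tauto
  · intro u hu huy hc
    rw [← hMy] at hc ⊢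
    have h1 := f16 (Sum.inl u) (mem_disjSum.2 (Or.inl ⟨u, by rw [hI₁, mem_filter]; exact ⟨hu, huy, hc⟩, rfl⟩))
    exact h1
  · intro u hu hc
    rw [← hQc] at hc ⊢
    have h1 := f16 (Sum.inr u) (mem_disjSum.2 (Or.inr ⟨u, by rw [hI₂, mem_filter]; exact ⟨hu, hc⟩, rfl⟩))
    exact h1

end AEG
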