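import Pool.Agent.AEG.GroupI
import Pool.Agent.AEG.GlueGr
import Pool.Agent.AEG.P2T

/-!
# The heavy stage from the cut and the route

`group_core`: the items of the links, the group, the light items in two phases, and the state at the last host.
-/

set_option autoImplicit false

namespace AEG

open Finset AE15 AED AEB SPD
open scoped Classical

theorem totB_cons' {V : Type} (x : V × Fd) (os : List (V × Fd)) : totB (x :: os) = x.2.size + totB os := by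
  simp [totB]

theorem inS_three (l₁ l₂ l₃ : Fd × Fd) : inS [l₁, l₂, l₃] = l₁.1.size + l₂.1.size + l₃.1.size := by
  simp [inS]
  omega

theorem inS_ouS_le (gr : List (Fd × Fd)) : inS gr + (gr.map (fun q => q.2.size)).sum + gr.length = szS gr := by
  induction gr with
  | nil => rfl
  | cons q gr ih =>
    rw [szS_cons, ← ih, List.map_cons, List.sum_cons, List.length_cons]
    simp only [inS, List.map_cons, List.sum_cons]
    omega

/-- **The heavy stage from the cut and the route** -/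
theorem group_core (p : NP) (hp : p.OK) (hab : ab p.b p.l ≤ p.a) {D₀ : ℕ} (hD₀ : p.A ≤ D₀)
    {ω c η η₁ κ₀ κ₁ κ γ₀ τ s σ₂ μ : ℝ} (P : KB D₀ ω c η η₁ κ₀ κ₁ κ γ₀ τ s σ₂ μ) {D₀' : ℕ} (hD₀' : p.A ≤ D₀')
    {ω' c' η' η₁' κ₀' κ₁' κ' γ₀' τ' s' σ₂' μ' : ℝ} (P' : KB D₀' ω' c' η' η₁' κ₀' κ₁' κ' γ₀' τ' s' σ₂' μ')
    {K₀ : ℕ} (hωK : 2 * ω * (K₀ + 1) ≤ 1) {ζ ηw κS ηS : ℝ} (hζ : 0 < ζ) (hω' : 4 * ω' ≤ ζ) (hηw : 0 < ηw) (hκS : 0 < κS)
    (hηS : 2 * ηS ≤ η) (Nn : ℕ) : ∃ ηm : ℝ, 0 < ηm ∧ ηm ≤ 1 / 8 ∧ ∀ {k₀ ηc : ℝ}, 0 < k₀ → 25 * k₀ ≤ ηc → ηc ≤ ηm →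
    ∃ (κw sw ξ : ℝ) (K₁ C : ℕ), 0 < κw ∧ 0 < sw ∧ 0 < ξ ∧ ∀ {V : Type} {R : V → V → Prop}, AE32.Tour R →
      ∀ {X P₁ P₂ U₁ G : Finset V} {ys : List V} {y v a w₀ : V} {N : V → Prop} (pp sg lam' f cx : ℕ)
      (l₁ l₂ l₃ : Fd × Fd) (gr L : List (Fd × Fd)),
      GrpC R X (X \ low R sg X) P₁ P₂ U₁ G ys y k₀ ηc pp gr.length (4 * Nn) → gr ≠ [] → gr.length ≤ Nn →
      (∀ q ∈ l₁ :: l₂ :: l₃ :: (gr ++ L), BrO p.b p.l q) → NoDs K₀ (l₁ :: l₂ :: l₃ :: gr) L →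
      szS (l₁ :: l₂ :: l₃ :: (gr ++ L)) + cx = X.card → ζ * X.card ≤ (szS L + cx : ℕ) →
      (Good R κS ηS X v ∨ v ∈ P₁) → v ∈ X → N v → a ∈ P₁ → w₀ ∈ P₁ → v ∉ ys → v ≠ a → v ≠ w₀ → a ≠ w₀ →
      R v a → R a w₀ → (∀ y₁ ∈ ys.head?, R w₀ y₁) → 16 * inS [l₁, l₂, l₃] + C ≤ (nI R X v).card →
      16 * inS [l₁, l₂, l₃] + C ≤ (nI R X a).card → 16 * inS [l₁, l₂, l₃] + C ≤ (nI R X w₀).card →
      inS gr + inS [l₁, l₂, l₃] + C ≤ pp → ((pp + sg + lam' : ℕ) : ℝ) ≤ ξ * X.card →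
      ∃ w', w' + inS gr ≤ pp + 48 * lam' + C ∧
        AfterG R κw ηw sw f K₁ lam' sg w' 0 X ∅ N (l₁ :: l₂ :: l₃ :: (gr ++ L)) L := by
  obtain ⟨hω0, hω1, hc0, hc1, hη0, hη1, hη₁0, hη₁1, hκ₀0, hκ₁0, hκ₁1, hκ0, hκ1, hs0, hγ₀0, hτ0, hσ₂0, hμ0, hκ₁η, hκs⟩ :=
    P.num
  obtain ⟨hω0', hω1', hc0', hc1', hη0', hη1', hη₁0', hη₁1', hκ₀0', hκ₁0', hκ₁1', hκ0', hκ1', hs0', hγ₀0', hτ0', hσ₂0',
    hμ0', hκ₁η', hκs'⟩ := P'.num
  obtain ⟨ηp, hηp0, hηp1, hin⟩ := group_in p.b p.l hp.hb Nn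
  obtain ⟨ηm, hηm0, hηm1, hηm2, hηm3, hηm4, hηm5⟩ : ∃ ηm : ℝ, 0 < ηm ∧ ηm ≤ 1 / 8 ∧ 96 * ηm ≤ ηp ∧
      16 * ηm ≤ c * η' ∧ 16 * ηm ≤ c * (c' * ηw) ∧ 8 * ηm ≤ η := by
    refine ⟨min (min (1 / 8) (ηp / 96)) (min (min (c * η' / 16) (c * (c' * ηw) / 16)) (η / 8)), ?_, ?_, ?_, ?_, ?_, ?_⟩
    · refine lt_min (lt_min (by norm_num) (by positivity)) (lt_min (lt_min (by positivity) (by positivity))
        (by positivity))
    · exact (min_le_left _ _).trans (min_le_left _ _)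
    · linarith [(min_le_left (min (1 / 8 : ℝ) (ηp / 96)) (min (min (c * η' / 16) (c * (c' * ηw) / 16)) (η / 8))).trans
        (min_le_right _ _)]
    · linarith [((min_le_right (min (1 / 8 : ℝ) (ηp / 96)) (min (min (c * η' / 16) (c * (c' * ηw) / 16)) (η / 8))).trans
        (min_le_left _ _)).trans (min_le_left _ _)]
    · linarith [((min_le_right (min (1 / 8 : ℝ) (ηp / 96)) (min (min (c * η' / 16) (c * (c' * ηw) / 16)) (η / 8))).trans
        (min_le_left _ _)).trans (min_le_right _ _)]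
    · linarith [(min_le_right (min (1 / 8 : ℝ) (ηp / 96)) (min (min (c * η' / 16) (c * (c' * ηw) / 16)) (η / 8))).trans
        (min_le_right _ _)]
  refine ⟨ηm, hηm0, hηm1, ?_⟩
  intro k₀ ηc hk₀ hkη hηc
  have hηc0 : 0 < ηc := by linarith
  obtain ⟨J, C₁, hin⟩ := hin hk₀ hkη (by linarith)
  obtain ⟨κU, hκU0, hκU1, hκU2, hκU3⟩ : ∃ κU : ℝ, 0 < κU ∧ 2 * κU ≤ κ ∧ κU ≤ κS ∧ κU ≤ k₀ ^ 2 / 8 := by
    refine ⟨min (κ / 2) (min κS (k₀ ^ 2 / 8)), lt_min (by positivity) (lt_min hκS (by positivity)), ?_, ?_, ?_⟩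
    · linarith [min_le_left (κ / 2) (min κS (k₀ ^ 2 / 8))]
    · exact (min_le_right _ _).trans (min_le_left _ _)
    · exact (min_le_right _ _).trans (min_le_right _ _)
  obtain ⟨Kd, hKd⟩ : ∃ Kd : ℕ, Kd = 24 + ⌈64 / k₀⌉₊ := ⟨_, rfl⟩
  obtain ⟨κ₂, s₂, δ, Mt, Ct, K₁, C₂, C₃, hκ₂, hs₂, hδ, hMt, h2⟩ := p2_two p hp hab hD₀ P hD₀' P' (κU := κU)
    (κg := k₀ ^ 2 / 8) (ηg := 2 * ηc) (γ := k₀ / 4) (ζ := ζ / 2) (η₂ := ηw) hκU0 hκU1 (by positivity) (by positivity)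
    (by positivity) (by linarith) (by positivity) (by linarith) hηw (by linarith) (by linarith) (Nn + 2) Kd
  obtain ⟨ξ, hξ0, hξ1, hξ2, hξ3, hξ4, hξ5⟩ : ∃ ξ : ℝ, 0 < ξ ∧ (2 * Mt + 4 : ℝ) * ξ ≤ δ / 2 ∧ 2 * ξ ≤ ω / 4 ∧
      2 * ξ ≤ ζ / 4 ∧ 2 * ξ ≤ k₀ / 64 ∧ ξ ≤ 1 := by
    have hM0 : (0 : ℝ) ≤ Mt := Nat.cast_nonneg _
    refine ⟨min (min (δ / 2 / (2 * Mt + 4)) (ω / 8)) (min (ζ / 8) (min (k₀ / 128) 1)), ?_, ?_, ?_, ?_, ?_, ?_⟩
    · exact lt_min (lt_min (by positivity) (by positivity)) (lt_min (by positivity) (lt_min (by positivity) one_pos))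
    · have h1 : min (min (δ / 2 / (2 * Mt + 4)) (ω / 8)) (min (ζ / 8) (min (k₀ / 128) 1)) ≤ δ / 2 / (2 * Mt + 4) :=
        (min_le_left _ _).trans (min_le_left _ _)
      rw [le_div_iff₀ (by positivity)] at h1
      linarith
    · linarith [(min_le_left (min (δ / 2 / (2 * Mt + 4)) (ω / 8)) (min (ζ / 8) (min (k₀ / 128) 1))).trans
        (min_le_right _ _)]
    · linarith [(min_le_right (min (δ / 2 / (2 * Mt + 4)) (ω / 8)) (min (ζ / 8) (min (k₀ / 128) 1))).trans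
        (min_le_left _ _)]
    · linarith [((min_le_right (min (δ / 2 / (2 * Mt + 4)) (ω / 8)) (min (ζ / 8) (min (k₀ / 128) 1))).trans
        (min_le_right _ _)).trans (min_le_left _ _)]
    · exact ((min_le_right _ _).trans (min_le_right _ _)).trans (min_le_right _ _)
  obtain ⟨n₂, hn₂⟩ := exists_big [((3 * Nn + 3 + 2 * Ct : ℝ), δ / 2), ((Nn : ℝ), ω / 4), ((C₃ : ℝ), ω / 2),
      ((Nn : ℝ), ζ / 4), ((J + 3 : ℝ), k₀ / 64), ((C₃ : ℝ), 1)] (by
    intro q hq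
    simp only [List.mem_cons, List.not_mem_nil, or_false] at hq
    rcases hq with rfl | rfl | rfl | rfl | rfl | rfl
    · show 0 < δ / 2
      positivity
    · show 0 < ω / 4
      positivity
    · show 0 < ω / 2
      positivity
    · show 0 < ζ / 4
      positivity
    · show 0 < k₀ / 64
      positivity
    · exact one_pos)
  refine ⟨κ₂, s₂, ξ, K₁, C₁ + n₂ + 25 * J + 72 + C₂ + 1, hκ₂, hs₂, hξ0, ?_⟩
  intro V R hT X P₁ P₂ U₁ G ys y v a w₀ N pp sg lam' f cx l₁ l₂ l₃ gr L hG hgr hgrN hbr hnd hszc hζX hvg hvX hNv haP hwP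
    hvys hva hvw haw hRva hRaw hRwy hcv hca hcw hpp hsm
  obtain ⟨q, hq⟩ : ∃ q, q = inS [l₁, l₂, l₃] := ⟨_, rfl⟩
  obtain ⟨Q, hQ⟩ : ∃ Q, Q = inS gr := ⟨_, rfl⟩
  obtain ⟨n, hn⟩ : ∃ n : ℝ, n = (X.card : ℝ) := ⟨_, rfl⟩
  push_cast at hsm
  have hpp0 : (0 : ℝ) ≤ pp := Nat.cast_nonneg _
  have hsg0 : (0 : ℝ) ≤ sg := Nat.cast_nonneg _
  have hlam0 : (0 : ℝ) ≤ lam' := Nat.cast_nonneg _
  have hn₂X : n₂ ≤ X.card := by
    have h1 : ((n₂ : ℕ) : ℝ) ≤ pp := by exact_mod_cast (by omega : n₂ ≤ pp)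
    have h3 : ξ * X.card ≤ 1 * X.card := mul_le_mul_of_nonneg_right hξ5 (Nat.cast_nonneg _)
    have h4 : (n₂ : ℝ) ≤ X.card := by linarith
    exact_mod_cast h4
  have g := hn₂ X.card hn₂X
  have g1 : (3 * Nn + 3 + 2 * Ct : ℝ) ≤ δ / 2 * n := by rw [hn]; exact g ((3 * Nn + 3 + 2 * Ct : ℝ), δ / 2) (by simp)
  have g2 : (Nn : ℝ) ≤ ω / 4 * n := by rw [hn]; exact g ((Nn : ℝ), ω / 4) (by simp)
  have g3 : (C₃ : ℝ) ≤ ω / 2 * n := by rw [hn]; exact g ((C₃ : ℝ), ω / 2) (by simp)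
  have g4 : (Nn : ℝ) ≤ ζ / 4 * n := by rw [hn]; exact g ((Nn : ℝ), ζ / 4) (by simp)
  have g5 : (J + 3 : ℝ) ≤ k₀ / 64 * n := by rw [hn]; exact g ((J + 3 : ℝ), k₀ / 64) (by simp)
  have g6 : (C₃ : ℝ) ≤ 1 * n := by rw [hn]; exact g ((C₃ : ℝ), 1) (by simp)
  rw [← hn] at hζX hsm
  have hn0 : 0 < n := by
    have h1 : (1 : ℝ) ≤ pp := by exact_mod_cast (by omega : 1 ≤ pp)
    by_contra hc
    push Not at hc
    have : ξ * n ≤ 0 := mul_nonpos_of_nonneg_of_nonpos hξ0.le hc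
    linarith
  -- the in-items
  have hP₁X₁ : ∀ {u}, u ∈ P₁ → u ∈ X \ low R sg X := fun hu => hG.hG (hG.hU₁ (hG.hP₁ hu))
  have hP₁X : ∀ {u}, u ∈ P₁ → u ∈ X := fun hu => hG.hX₁ (hP₁X₁ hu)
  have hysP₁ : ∀ {u}, u ∈ ys → u ∉ P₁ := fun hu => (hG.hys _ hu).2.2.1
  obtain ⟨Si, Sg, i1, i2, i3, i4, i5, i6, i7, i8, i9, i10⟩ := hin hT v a w₀ l₁ l₂ l₃ gr hG hgr hgrN (fun x hx => by
      have h1 := hbr x (by
        simp only [List.mem_cons, List.mem_append] at hx ⊢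
        tauto)
      exact ⟨h1.1, h1.2.2.1⟩) hvys (fun h => hysP₁ h haP) (fun h => hysP₁ h hwP) (by omega) (by omega) (by omega)
    (by omega)
  rw [← hq] at i7 hcv hca hcw hpp
  rw [← hQ] at i8 hpp ⊢
  obtain ⟨H, hH⟩ : ∃ H : Finset V, H = (v :: a :: w₀ :: ys).toFinset := ⟨_, rfl⟩
  have hHm : ∀ u, u ∈ H ↔ u = v ∨ u = a ∨ u = w₀ ∨ u ∈ ys := by
    intro u
    rw [hH, List.mem_toFinset]
    simp only [List.mem_cons]
  have hHX : ∀ u ∈ H, u ∈ X := by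
    intro u hu
    rcases (hHm u).1 hu with rfl | rfl | rfl | h
    · exact hvX
    · exact hP₁X haP
    · exact hP₁X hwP
    · exact hG.hX₁ (hG.hG (hG.hys u h).1)
  obtain ⟨X₀, hX₀⟩ : ∃ X₀, X₀ = X \ (H ∪ (Si ∪ Sg)) := ⟨_, rfl⟩
  have hX₀m : ∀ u, u ∈ X₀ ↔ u ∈ X ∧ u ∉ H ∧ u ∉ Si ∧ u ∉ Sg := by
    intro u
    rw [hX₀, mem_sdiff, mem_union, mem_union, not_or, not_or]
  have hX₀X : X₀ ⊆ X := fun u hu => ((hX₀m u).1 hu).1
  obtain ⟨My, hMy⟩ : ∃ My, My = P₂.filter (fun w => R y w ∧ w ∈ G) := ⟨_, rfl⟩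
  rw [← hMy] at i10
  have hMym : ∀ u, u ∈ My ↔ u ∈ P₂ ∧ R y u ∧ u ∈ G := by
    intro u
    rw [hMy, mem_filter]
  have hlin : k₀ / 2 * n ≤ My.card := by
    rw [hn, hMy]
    exact hG.lin
  have hP₂X : P₂ ⊆ X := fun u hu => hG.hX₁ ((hG.part u).1 hu).1
  obtain ⟨PZ, hPZ⟩ : ∃ PZ, PZ = X₀.filter (fun v => (nI R X₀ v).card < Mt * lam' + Ct) ∪ (X₀ \ P₂) := ⟨_, rfl⟩
  have hPZX : PZ ⊆ X₀ := by
    rw [hPZ]
    exact union_subset (filter_subset _ _) sdiff_subset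
  obtain ⟨Inc, hInc⟩ : ∃ Inc, Inc = PZ.filter (fun v => (nI R PZ v).card < lam') := ⟨_, rfl⟩
  have hIncc : Inc.card ≤ 2 * lam' := by
    rw [hInc]
    exact card_lowin hT PZ lam'
  obtain ⟨Dz, hDz⟩ : ∃ Dz, Dz = (My ∩ X₀) \ Inc := ⟨_, rfl⟩
  have hDzm : ∀ u, u ∈ Dz ↔ (u ∈ My ∧ u ∈ X₀) ∧ u ∉ Inc := by
    intro u
    rw [hDz, mem_sdiff, mem_inter]
  have hylast : y ∈ ys := List.mem_of_getLast? hG.last
  have hysc : ys.length ≤ Nn := by
    rw [hG.len]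
    exact hgrN
  have hHc : H.card ≤ Nn + 3 := by
    rw [hH]
    refine (List.toFinset_card_le _).trans ?_
    simp only [List.length_cons]
    omega
  -- what `My` loses
  have hMyloss : ∀ (E : Finset V), E ⊆ My → E.card ≤ (E ∩ Si).card + (E ∩ Dz).card + (J + 3 + 2 * lam') := by
    intro E hE
    have h1 : E ⊆ (E ∩ Si) ∪ (E ∩ Dz) ∪ ((Sg \ P₁) ∪ {v, a, w₀} ∪ Inc) := by
      intro u hu
      have h2 := (hMym u).1 (hE hu)
      have h3 := (hG.part u).1 h2.1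
      by_cases h4 : u ∈ Si
      · exact mem_union_left _ (mem_union_left _ (mem_inter.2 ⟨hu, h4⟩))
      by_cases h5 : u ∈ Inc
      · exact mem_union_right _ (mem_union_right _ h5)
      by_cases h6 : u ∈ Sg
      · exact mem_union_right _ (mem_union_left _ (mem_union_left _ (mem_sdiff.2 ⟨h6, h3.2.1⟩)))
      by_cases h7 : u ∈ H
      · apply mem_union_right _ (mem_union_left _ (mem_union_right _ _))
        rcases (hHm u).1 h7 with h8 | h8 | h8 | h8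
        · simp [h8]
        · simp [h8]
        · simp [h8]
        · exact absurd h8 h3.2.2
      · exact mem_union_left _ (mem_union_right _ (mem_inter.2 ⟨hu, (hDzm u).2
          ⟨⟨hE hu, (hX₀m u).2 ⟨hP₂X h2.1, h7, h4, h6⟩⟩, h5⟩⟩))
    have h2 := (card_le_card h1).trans (card_union_le _ _)
    have h3 := card_union_le (E ∩ Si) (E ∩ Dz)
    have h4 := card_union_le ((Sg \ P₁) ∪ {v, a, w₀}) Inc
    have h5 := card_union_le (Sg \ P₁) ({v, a, w₀} : Finset V)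
    have h6 : ({v, a, w₀} : Finset V).card ≤ 3 := card_le_three
    omega
  -- numbers
  have hXP₂ : ((X \ P₂).card : ℝ) ≤ pp + 2 * sg + Nn := by
    have h1 : X \ P₂ ⊆ P₁ ∪ (low R sg X ∪ ys.toFinset) := by
      intro u hu
      rw [mem_sdiff, hG.part, mem_sdiff] at hu
      rw [mem_union, mem_union, List.mem_toFinset]
      by_contra hcon
      rw [not_or, not_or] at hcon
      exact hu.2 ⟨⟨hu.1, hcon.2.1⟩, hcon.1, hcon.2.2⟩
    have h2 := (card_le_card h1).trans (card_union_le _ _)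
    have h3 := card_union_le (low R sg X) ys.toFinset
    have h4 := card_low_in hT sg X
    have h5 := List.toFinset_card_le ys
    have h6 := hG.card₁
    have h7 : (X \ P₂).card ≤ pp + 2 * sg + Nn := by omega
    exact_mod_cast h7
  have hXX₀ : ((X \ X₀).card : ℝ) ≤ Nn + 3 + pp := by
    have h1 : X \ X₀ ⊆ H ∪ (Si ∪ Sg) := by
      intro u hu
      rw [mem_sdiff, hX₀, mem_sdiff] at hu
      by_contra hcon
      exact hu.2 ⟨hu.1, hcon⟩
    have h2 := (card_le_card h1).trans (card_union_le _ _)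
    have h3 := card_union_le Si Sg
    have h4 : (X \ X₀).card ≤ Nn + 3 + pp := by omega
    exact_mod_cast h4
  have hPZc : (PZ.card : ℝ) ≤ 2 * (Mt * lam' + Ct) + (pp + 2 * sg + Nn) := by
    have h1 := card_union_le (X₀.filter (fun v => (nI R X₀ v).card < Mt * lam' + Ct)) (X₀ \ P₂)
    rw [← hPZ] at h1
    have h2 := card_lowin hT X₀ (Mt * lam' + Ct)
    have h3 : ((X₀ \ P₂).card : ℝ) ≤ (X \ P₂).card := by
      exact_mod_cast card_le_card (sdiff_subset_sdiff hX₀X (Subset.refl _))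
    have h4 : (PZ.card : ℝ) ≤ 2 * (Mt * lam' + Ct) + (X₀ \ P₂).card := by
      exact_mod_cast h1.trans (Nat.add_le_add_right h2 _)
    linarith
  have hP₂c : n - (2 * ξ * n + Nn) ≤ (P₂.card : ℝ) := by
    have h1 := card_sdiff_add_card_eq_card hP₂X
    have h3 : n = (X \ P₂).card + P₂.card := by
      rw [hn]
      exact_mod_cast h1.symm
    linarith
  have hξω : 2 * ξ * n ≤ ω / 4 * n := mul_le_mul_of_nonneg_right hξ2 hn0.le
  have hξζ : 2 * ξ * n ≤ ζ / 4 * n := mul_le_mul_of_nonneg_right hξ3 hn0.le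
  have hξk : 2 * ξ * n ≤ k₀ / 64 * n := mul_le_mul_of_nonneg_right hξ4 hn0.le
  have hfst : (ys.zip gr).map Prod.fst = ys := List.map_fst_zip hG.len.le
  have hsnd : (ys.zip gr).map Prod.snd = gr := List.map_snd_zip hG.len.symm.le
  have hzm : ∀ p ∈ ys.zip gr, p.1 ∈ ys ∧ p.2 ∈ gr := by
    intro p hp
    constructor
    · rw [← hfst]
      exact List.mem_map_of_mem hp
    · rw [← hsnd]
      exact List.mem_map_of_mem hp
  obtain ⟨os₂, hos₂⟩ : ∃ os₂, os₂ = (a, l₂.2) :: (w₀, l₃.2) :: (ys.zip gr).map (fun p => (p.1, p.2.2)) := ⟨_, rfl⟩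
  have hzt : totB ((ys.zip gr).map (fun p => (p.1, p.2.2))) = (gr.map (fun q => q.2.size)).sum :=
    totB_zip (f := Prod.snd) hG.len
  have hos₂t : totB os₂ = l₂.2.size + (l₃.2.size + (gr.map (fun q => q.2.size)).sum) := by
    rw [hos₂, totB_cons', totB_cons', hzt]
  have hos₁t : totB [(v, l₁.2)] = l₁.2.size := by simp [totB]
  have hos₂l : os₂.length ≤ Nn + 2 := by
    rw [hos₂, List.length_cons, List.length_cons, List.length_map, List.length_zip, hG.len, Nat.min_self]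
    omega
  have hszL : szS (l₁ :: l₂ :: l₃ :: (gr ++ L)) = l₁.1.size + l₁.2.size + 1 + szS (l₂ :: l₃ :: (gr ++ L)) := szS_cons _ _
  have hszL2 : szS (l₂ :: l₃ :: (gr ++ L)) = l₂.1.size + l₂.2.size + 1 + (l₃.1.size + l₃.2.size + 1 +
      (szS gr + szS L)) := by
    rw [szS_cons, szS_cons]
    congr 2
    simp [szS]
  have hgrs := inS_ouS_le gr
  have hL1 : (l₁.2.size : ℝ) ≤ n - 2 * ω * n := by
    have h1 : l₁.2.size ≤ K₀ * szS (l₂ :: l₃ :: (gr ++ L)) := hnd.1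
    have h3 : (K₀ + 1) * l₁.2.size ≤ K₀ * X.card := by
      have h4 : l₁.2.size + szS (l₂ :: l₃ :: (gr ++ L)) ≤ X.card := by omega
      have h5 := Nat.mul_le_mul_left K₀ h4
      have h6 : K₀ * (l₁.2.size + szS (l₂ :: l₃ :: (gr ++ L))) =
          K₀ * l₁.2.size + K₀ * szS (l₂ :: l₃ :: (gr ++ L)) := by ring
      have h7 : (K₀ + 1) * l₁.2.size = K₀ * l₁.2.size + l₁.2.size := by ring
      omega
    have h4 : ((K₀ : ℝ) + 1) * l₁.2.size ≤ K₀ * n := by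
      rw [hn]
      exact_mod_cast h3
    have h5 : 2 * ω * (K₀ + 1) * n ≤ 1 * n := mul_le_mul_of_nonneg_right hωK hn0.le
    have h6 : ((K₀ : ℝ) + 1) * l₁.2.size ≤ (K₀ + 1) * (n - 2 * ω * n) := by
      have h7 : ((K₀ : ℝ) + 1) * (n - 2 * ω * n) = K₀ * n + n - 2 * ω * (K₀ + 1) * n := by ring
      linarith
    exact le_of_mul_le_mul_left h6 (by positivity)
  have hgoodG : ∀ u ∈ G, Good R (k₀ ^ 2 / 8) (2 * ηc) X u := hG.good
  have hP₁G : ∀ {u}, u ∈ P₁ → u ∈ G := fun hu => hG.hU₁ (hG.hP₁ hu)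
  have hX2P₂ : (X.card : ℝ) ≤ 2 * P₂.card := by
    rw [← hn]
    have : ω * n ≤ 1 * n := mul_le_mul_of_nonneg_right (by linarith) hn0.le
    linarith
  have hP₂0 : (0 : ℝ) ≤ P₂.card := Nat.cast_nonneg _
  have hX0 : (0 : ℝ) ≤ X.card := Nat.cast_nonneg _
  have hvU : GdU R κU η X P₂ v := by
    rcases hvg with h | h
    · refine GdU.of_good h hP₂X hκU2 ?_
      rcases le_total ηS 0 with h0 | h0
      · exact (mul_nonpos_of_nonpos_of_nonneg h0 hX0).trans (by positivity)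
      · have h1 : ηS * X.card ≤ ηS * (2 * P₂.card) := mul_le_mul_of_nonneg_left hX2P₂ h0
        have h3 : 2 * ηS * P₂.card ≤ η * P₂.card := mul_le_mul_of_nonneg_right hηS hP₂0
        linarith
    · refine GdU.of_good (hgoodG v (hP₁G h)) hP₂X hκU3 ?_
      have h1 : 2 * ηc * X.card ≤ 2 * ηc * (2 * P₂.card) := mul_le_mul_of_nonneg_left hX2P₂ (by positivity)
      have h3 : 4 * ηc * P₂.card ≤ η * P₂.card := mul_le_mul_of_nonneg_right (by linarith) hP₂0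
      linarith
  have hHX₀ : ∀ u ∈ H, u ∉ X₀ := fun u hu h => ((hX₀m u).1 h).2.1 hu
  have hbrm : ∀ x ∈ l₁ :: l₂ :: l₃ :: gr, FOK p.b p.l 0 x.2 ∧ ∀ t ∈ x.2.trees, t.1 = true := by
    intro x hx
    have h1 := hbr x (by
      simp only [List.mem_cons, List.mem_append] at hx ⊢
      tauto)
    exact ⟨h1.2.1, h1.2.2.2⟩
  have hDzc : k₀ / 4 * n ≤ (Dz.card : ℝ) := by
    have h1 := hMyloss My (Subset.refl _)
    have h3 : (My ∩ Si).card ≤ Si.card := card_le_card inter_subset_right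
    have h4 : (My ∩ Dz).card ≤ Dz.card := card_le_card inter_subset_right
    have h5 : (My.card : ℝ) ≤ q + Dz.card + (J + 3 + 2 * lam') := by
      have : My.card ≤ q + Dz.card + (J + 3 + 2 * lam') := by omega
      exact_mod_cast this
    have h6 : (q : ℝ) ≤ pp := by exact_mod_cast (by omega : q ≤ pp)
    have hk0n : 0 ≤ k₀ * n := by positivity
    linarith
  have hcnt : ∀ j : ℕ, (X₀.filter (fun u => ¬ R y u ∧ sg ≤ (nI R X₀ u).card ∧ (nI R Dz u).card ≤ j)).card ≤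
      (pp - Q + J + (24 * (J + 3) + 48 * lam')) + Kd * (j + 1) := by
    intro j
    obtain ⟨j', hj'⟩ : ∃ j', j' = 4 * (j + (J + 3 + 2 * lam')) := ⟨_, rfl⟩
    obtain ⟨Fj, hFj⟩ : ∃ Fj, Fj = P₂.filter (fun u => R u y ∧ (nI R My u).card ≤ j') := ⟨_, rfl⟩
    have h1 : X₀.filter (fun u => ¬ R y u ∧ sg ≤ (nI R X₀ u).card ∧ (nI R Dz u).card ≤ j) ⊆ (P₁ \ Sg) ∪ Fj := by
      intro u hu
      rw [mem_filter] at hu
      obtain ⟨hu, hyu, hsgu, hju⟩ := hu
      have hu' := (hX₀m u).1 hu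
      have huys : u ∉ ys := fun h => hu'.2.1 ((hHm u).2 (Or.inr (Or.inr (Or.inr h))))
      have huX₁ : u ∈ X \ low R sg X := by
        rw [mem_sdiff, mem_low, not_and, not_lt]
        exact ⟨hu'.1, fun _ => hsgu.trans (card_le_card (nI_mono hX₀X))⟩
      by_cases huP : u ∈ P₁
      · exact mem_union_left _ (mem_sdiff.2 ⟨huP, hu'.2.2.2⟩)
      · have huP₂ : u ∈ P₂ := (hG.part u).2 ⟨huX₁, huP, huys⟩
        have huy : R u y := by
          have hne : u ≠ y := fun h => huys (h ▸ hylast)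
          exact (hT.tot u y hne).resolve_right hyu
        apply mem_union_right
        rw [hFj, mem_filter]
        refine ⟨huP₂, huy, ?_⟩
        have h3 := i10 u huP₂ huy
        have h4 := hMyloss (nI R My u) nI_sub
        have h5 := hMyloss (nI R My u \ Si) (sdiff_subset.trans nI_sub)
        have h6 : ((nI R My u \ Si) ∩ Si).card = 0 := by
          rw [card_eq_zero, sdiff_inter_self]
        have h7 : ((nI R My u \ Si) ∩ Dz).card ≤ (nI R Dz u).card := by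
          apply card_le_card
          intro x hx
          rw [mem_inter, mem_sdiff, mem_nI] at hx
          exact mem_nI.2 ⟨hx.2, hx.1.1.2⟩
        omega
    have h3 := (card_le_card h1).trans (card_union_le _ _)
    have h4 : (P₁ \ Sg).card ≤ pp - Q + J := by
      have h5 := card_sdiff_add_card_inter P₁ Sg
      have h6 := card_sdiff_add_card_inter Sg P₁
      rw [inter_comm] at h6
      rw [hG.card₁] at h5
      omega
    have h5 : Fj.card ≤ 24 * (J + 3) + 48 * lam' + Kd * (j + 1) := by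
      by_cases hjs : (j' : ℝ) ≤ k₀ / 4 * X.card
      · have h6 := hG.cnt j' hjs
        rw [← hMy, ← hFj] at h6
        have h7 : 24 * j ≤ Kd * (j + 1) := Nat.mul_le_mul (by rw [hKd]; omega) (by omega)
        omega
      · push Not at hjs
        rw [← hn] at hjs
        have h6 : Fj.card ≤ X.card := card_le_card (by
          rw [hFj]
          exact (filter_subset _ _).trans hP₂X)
        have h7 : (Fj.card : ℝ) ≤ Kd * (j + 1) := by
          have h8 : (Fj.card : ℝ) ≤ n := by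
            rw [hn]
            exact_mod_cast h6
          have h9 : (j' : ℝ) = 4 * (j + (J + 3 + 2 * lam')) := by
            rw [hj']
            push_cast
            ring
          have h10 : (64 / k₀ : ℝ) ≤ Kd := by
            rw [hKd]
            push_cast
            have := Nat.le_ceil (64 / k₀)
            linarith
          have h11 : k₀ / 32 * n ≤ j := by
            have hk0n : 0 ≤ k₀ * n := by positivity
            linarith
          have h12 : n ≤ 64 / k₀ * j := by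
            have h13 : n = 32 / k₀ * (k₀ / 32 * n) := by field_simp
            have h14 : 32 / k₀ * (k₀ / 32 * n) ≤ 32 / k₀ * j := mul_le_mul_of_nonneg_left h11 (by positivity)
            have h15 : 32 / k₀ * (j : ℝ) ≤ 64 / k₀ * j := by
              apply mul_le_mul_of_nonneg_right _ (Nat.cast_nonneg _)
              exact div_le_div_of_nonneg_right (by norm_num) hk₀.le
            linarith
          have h16 : 64 / k₀ * (j : ℝ) ≤ Kd * (j + 1) := by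
            apply mul_le_mul h10 (by linarith) (Nat.cast_nonneg _) (Nat.cast_nonneg _)
          linarith
        have h8 : Fj.card ≤ Kd * (j + 1) := by exact_mod_cast h7
        omega
    omega
  obtain ⟨S₁, S₂, e1, e2, e3, e4, e5, e6⟩ := h2 hT (X := X) (X₀ := X₀) (Y := P₂) (Dz := Dz) (PZ := PZ) (y := y) lam'
    (pp - Q + J + (24 * (J + 3) + 48 * lam')) sg f [(v, l₁.2)] os₂ (by
      have h1 : (C₃ : ℝ) ≤ X.card := by
        rw [← hn]
        linarith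
      exact_mod_cast h1) hP₂X hX₀X (by simp) hos₂l (by
      intro x hx
      rw [List.mem_singleton] at hx
      subst hx
      exact ⟨hvX, hHX₀ v ((hHm v).2 (Or.inl rfl)), hvU, hbrm l₁ (by simp)⟩) (by
      intro x hx
      rw [hos₂, List.mem_cons, List.mem_cons, List.mem_map] at hx
      rcases hx with rfl | rfl | ⟨x', hx', rfl⟩
      · exact ⟨hP₁X haP, hHX₀ a ((hHm a).2 (Or.inr (Or.inl rfl))), hgoodG a (hP₁G haP), hbrm l₂ (by simp)⟩
      · exact ⟨hP₁X hwP, hHX₀ w₀ ((hHm w₀).2 (Or.inr (Or.inr (Or.inl rfl)))), hgoodG w₀ (hP₁G hwP), hbrm l₃ (by simp)⟩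
      · obtain ⟨h1, h3⟩ := hzm x' hx'
        exact ⟨hHX x'.1 ((hHm _).2 (Or.inr (Or.inr (Or.inr h1)))), hHX₀ x'.1 ((hHm _).2 (Or.inr (Or.inr (Or.inr h1)))),
          hgoodG x'.1 (hG.hys _ h1).1, hbrm x'.2 (by simp [h3])⟩) (by
      rw [hPZ]
      exact subset_union_right) (by
      rw [hPZ]
      exact subset_union_left) hPZX (by
      rw [← hn]
      push_cast
      have hM0 : (0 : ℝ) ≤ Mt := Nat.cast_nonneg _
      have h1 : (2 * Mt + 4 : ℝ) * (pp + sg + lam') ≤ (2 * Mt + 4) * (ξ * n) := mul_le_mul_of_nonneg_left hsm (by positivity)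
      have h3 : (2 * Mt + 4 : ℝ) * ξ * n ≤ δ / 2 * n := mul_le_mul_of_nonneg_right hξ1 hn0.le
      have h4 : 0 ≤ (Mt : ℝ) * pp := by positivity
      have h5 : 0 ≤ (Mt : ℝ) * sg := by positivity
      linarith) (fun u hu => ((hMym u).1 ((hDzm u).1 hu).1.1).1) (fun u hu => ((hDzm u).1 hu).1.2) (by
      intro u hu
      have h1 := (hMym u).1 ((hDzm u).1 hu).1.1
      exact ⟨h1.2.1, hgoodG u h1.2.2⟩) (by rw [← hn]; exact hDzc) (by
      intro u hu huP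
      by_contra hcon
      push Not at hcon
      apply ((hDzm u).1 hu).2
      rw [hInc, mem_filter]
      exact ⟨huP, hcon⟩) hcnt (by
      rw [hos₁t]
      have h1 : (1 - ω) * (n - ω / 2 * n) ≤ (1 - ω) * P₂.card := mul_le_mul_of_nonneg_left (by linarith) (by linarith)
      have h3 : 0 ≤ ω * ω * n := by positivity
      have h4 : (1 - ω) * (n - ω / 2 * n) = n - ω * n - ω / 2 * n + ω * ω * n / 2 := by ring
      linarith) (by
      rw [hos₁t, hos₂t, ← hn]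
      have h1 : l₁.2.size + (l₂.2.size + (l₃.2.size + (gr.map (fun q => q.2.size)).sum)) + (szS L + cx) ≤ X.card := by
        omega
      have h3 : ((l₁.2.size + (l₂.2.size + (l₃.2.size + (gr.map (fun q => q.2.size)).sum)) : ℕ) : ℝ) +
          ((szS L + cx : ℕ) : ℝ) ≤ n := by
        rw [hn]
        exact_mod_cast h1
      linarith)
  -- glue
  have hSD : S₁ ∪ S₂ ⊆ X₀ := union_subset e3 e4
  have hSA : Disjoint (Si ∪ Sg) (S₁ ∪ S₂) := by
    rw [disjoint_left]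
    intro u hu hu'
    have h1 := (hX₀m u).1 (hSD hu')
    exact (mem_union.1 hu).elim h1.2.2.1 h1.2.2.2
  obtain ⟨hcard, hglue⟩ := glue_grp (R := R) (X := X) (SA := Si ∪ Sg) (SD := S₁ ∪ S₂) (N := N) (v := v) (a := a)
    (w := w₀) (y := y) (ys := ys) (l₁ := l₁) (l₂ := l₂) (l₃ := l₃) (gr := gr) (L := L) hG.len hG.last (by
      simp only [List.nodup_cons, List.mem_cons, not_or]
      exact ⟨⟨hva, hvw, hvys⟩, ⟨haw, fun h => hysP₁ h haP⟩, fun h => hysP₁ h hwP, hG.nodup⟩) (by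
      cases hys : ys with
      | nil => 
        rw [hys] at hylast
        simp at hylast
      | cons y₁ ys' =>
        have h1 := hG.chain
        rw [hys] at h1
        exact (((h1.cons_cons (hRwy y₁ (by rw [hys]; simp))).cons_cons hRaw).cons_cons hRva)) (by
      have h1 : (v, l₁.1) :: (a, l₂.1) :: (w₀, l₃.1) :: (ys.zip gr).map (fun p => (p.1, p.2.1)) =
          [(v, l₁.1), (a, l₂.1), (w₀, l₃.1)] ++ (ys.zip gr).map (fun p => (p.1, p.2.1)) := rfl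
      rw [h1]
      exact embAllB_append.2 ⟨Si, Sg, i3, rfl, i5, i6⟩) (by
      have h1 : (v, l₁.2) :: (a, l₂.2) :: (w₀, l₃.2) :: (ys.zip gr).map (fun p => (p.1, p.2.2)) =
          [(v, l₁.2)] ++ os₂ := by rw [hos₂]; rfl
      rw [h1]
      exact embAllB_append.2 ⟨S₁, S₂, e5, rfl, e1, e2⟩) hSA (by
      intro u hu
      rw [← List.mem_toFinset, ← hH] at hu
      have h1 := i4 u (by
        rw [← List.mem_toFinset, ← hH]
        exact hu)
      refine ⟨fun h => (mem_union.1 h).elim h1.1 h1.2, fun h => hHX₀ u hu (hSD h)⟩) hNv (by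
      rw [← hH]
      refine union_subset hHX (union_subset (union_subset i1 ?_) (hSD.trans hX₀X))
      exact i2.trans (hG.hU₁.trans (hG.hG.trans hG.hX₁)))
  rw [← hH] at hcard hglue
  have hX' : X₀ \ (S₁ ∪ S₂) = X \ (H ∪ ((Si ∪ Sg) ∪ (S₁ ∪ S₂))) := by
    rw [hX₀]
    ext u
    simp only [mem_sdiff, mem_union]
    tauto
  rw [hX'] at e6
  exact ⟨pp - Q + J + (24 * (J + 3) + 48 * lam') + C₂, by omega, X \ (H ∪ ((Si ∪ Sg) ∪ (S₁ ∪ S₂))), y, sdiff_subset,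
    hcard, e6, hglue⟩

end AEG
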