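import Pool.Agent.AEG.ListG

/-!
# Class M2 (two-sided): the final statement from the coded statement
-/

namespace AEG

open Finset Relation AE15 AED AEB
open scoped Classical

/-- the branches have at most `B` vertices -/
def smB (B : ℕ) (q : Fd × Fd) : Prop := q.1.size + q.2.size ≤ B

theorem smB_out {B : ℕ} : ∀ q : Fd × Fd, B < q.1.size → ¬ smB B q := fun q h => by
  unfold smB
  omega

/-- the coded statement: every coded line of the class with `szS L` vertices is contained in every tournament with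
`szS L + C` vertices -/
def CodII (b l B N : ℕ) (C : ℕ) : Prop := ∀ {V : Type} {R : V → V → Prop}, AE32.Tour R → ∀ L : List (Fd × Fd), L ≠ [] →
  (∀ q ∈ L, FOK b l 0 q.1 ∧ FOK b l 0 q.2 ∧ (∀ t ∈ q.1.trees, t.1 = true) ∧ ∀ t ∈ q.2.trees, t.1 = true) →
  ClsB (smB B) 6 B N L → ClsA (smB B) 6 B N L →
  ∀ X : Finset V, szS L + C ≤ X.card → ∃ y ∈ X, ∃ S ⊆ X, y ∉ S ∧ EmbS R L y S

theorem final_of_CodII (Δ l B N C : ℕ) (hC : CodII (Δ + 1) l B N C) : ∀ k n : ℕ, k + (C + 1) ≤ n →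
    ∀ R : Fin n → Fin n → Prop,
    (∀ a, ¬ R a a) → (∀ a b, a ≠ b → R a b ∨ R b a) → (∀ a b, R a b → ¬ R b a) →
    ∀ E : Fin (k + 1) → Fin (k + 1) → Prop,
      (∀ a b, E a b → ¬ E b a) →
      (SimpleGraph.fromRel E).IsTree →
      (∀ v, ((SimpleGraph.fromRel E).neighborSet v).ncard ≤ Δ) →
      (∃ (m : ℕ) (p : ℕ → Fin (k + 1)), (∀ i < m, E (p i) (p (i + 1))) ∧
        (∀ i ≤ m, ∀ u, E (p i) u → (∀ j ≤ m, u ≠ p j) → ∀ q : ℕ → Fin (k + 1), ¬ ∀ j ≤ l, E (q j) (q (j + 1)) ∧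
          (SimpleGraph.fromRel E).dist (p i) (q (j + 1)) < (SimpleGraph.fromRel E).dist (p i) (q j) ∧
          (SimpleGraph.fromRel E).dist u (q j) < (SimpleGraph.fromRel E).dist (p i) (q j)) ∧
        (∀ i ≤ m, ∀ u, E u (p i) → (∀ j ≤ m, u ≠ p j) → ∀ q : ℕ → Fin (k + 1), ¬ ∀ j ≤ l, E (q (j + 1)) (q j) ∧
          (SimpleGraph.fromRel E).dist (p i) (q (j + 1)) < (SimpleGraph.fromRel E).dist (p i) (q j) ∧
          (SimpleGraph.fromRel E).dist u (q j) < (SimpleGraph.fromRel E).dist (p i) (q j)) ∧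
        (∀ i ≤ m, B < {x | ∃ u, E u (p i) ∧ (∀ t ≤ m, u ≠ p t) ∧
            (SimpleGraph.fromRel E).dist (p i) x = (SimpleGraph.fromRel E).dist u x + 1}.ncard →
          (N ≤ i → ∃ j, i ≤ j + N ∧ j + 6 ≤ i ∧ ∀ s < 6, {x | ∃ u, (E (p (j + s)) u ∨ E u (p (j + s))) ∧
            (∀ t ≤ m, u ≠ p t) ∧
            (SimpleGraph.fromRel E).dist (p (j + s)) x = (SimpleGraph.fromRel E).dist u x + 1}.ncard ≤ B) ∧
          (i + N ≤ m → ∃ j, i < j ∧ j + 6 ≤ i + 1 + N ∧ ∀ s < 6, {x | ∃ u, (E (p (j + s)) u ∨ E u (p (j + s))) ∧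
            (∀ t ≤ m, u ≠ p t) ∧
            (SimpleGraph.fromRel E).dist (p (j + s)) x = (SimpleGraph.fromRel E).dist u x + 1}.ncard ≤ B))) →
      ∃ f : Fin (k + 1) → Fin n, Function.Injective f ∧ ∀ a b, E a b → R (f a) (f b) := by
  intro k n hn R h1 h2 h3 E h4 h5 h6 ⟨m, p, hp, h7, h8, h9⟩
  have h6' : ∀ v, {w | E v w ∨ E w v}.ncard ≤ Δ + 1 := by
    intro v
    refine le_trans (le_of_eq ?_) ((h6 v).trans (Nat.le_succ Δ))
    congr 1
    ext w
    simp only [Set.mem_ofPred_eq, SimpleGraph.mem_neighborSet, SimpleGraph.fromRel_adj]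
    constructor
    · intro h
      refine ⟨?_, h⟩
      rintro rfl
      rcases h with h | h <;> exact h4 _ _ h h
    · exact fun h => h.2
  obtain ⟨L, l1, l2, l0, l3, l4⟩ := glueT h4 h5 h6' hp h7 h8
  have hbig : ∀ i, BgL B L i → i ≤ m ∧ B < {x | ∃ u, E u (p i) ∧ (∀ t ≤ m, u ≠ p t) ∧
      (SimpleGraph.fromRel E).dist (p i) x = (SimpleGraph.fromRel E).dist u x + 1}.ncard := by
    intro i hb
    have him : i ≤ m := by
      have := hb.lt
      omega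
    obtain ⟨q, hq, hB⟩ := hb
    obtain ⟨q₀, hq₀, hs₀, -⟩ := l0 i him
    rw [hq] at hq₀
    obtain rfl : q = q₀ := by simpa using hq₀
    rw [hs₀] at hB
    exact ⟨him, hB⟩
  have hrun : ∀ j, j + 6 ≤ m + 1 → (∀ s < 6, {x | ∃ u, (E (p (j + s)) u ∨ E u (p (j + s))) ∧ (∀ t ≤ m, u ≠ p t) ∧
      (SimpleGraph.fromRel E).dist (p (j + s)) x = (SimpleGraph.fromRel E).dist u x + 1}.ncard ≤ B) →
      RunG (smB B) 6 L j := by
    intro j hj h s hs
    obtain ⟨q, hq, -, hs'⟩ := l0 (j + s) (by omega)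
    refine ⟨q, hq, ?_⟩
    unfold smB
    rw [hs']
    exact h s hs
  have hB : ClsB (smB B) 6 B N L := by
    intro i hi hb
    obtain ⟨him, hb'⟩ := hbig i hb
    obtain ⟨j, j1, j2, j3⟩ := (h9 i him hb').1 hi
    exact ⟨j, j1, j2, hrun j (by omega) j3⟩
  have hA : ClsA (smB B) 6 B N L := by
    intro i hi hb
    obtain ⟨him, hb'⟩ := hbig i hb
    obtain ⟨j, j1, j2, j3⟩ := (h9 i him hb').2 (by omega)
    exact ⟨j, j1, j2, hrun j (by omega) j3⟩
  obtain ⟨y, -, S, -, hy, hS⟩ := hC (R := R) ⟨h1, h2, h3⟩ L (by rintro rfl; simp at l1) l3 hB hA univ (by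
    rw [card_univ, Fintype.card_fin, szS, l2]; omega)
  exact l4 hy hS

end AEG
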