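import Pool.Agent.AEG.State
import Pool.Agent.AEG.FinalM2
import Pool.Agent.AEG.Short
import Pool.Agent.AEB.StepB

/-!
# The driver of the class M2

The rounds are stated as propositions `TameR`, `RoundR`, with the order of the constants made explicit; the driver is a
strong induction on the length of the line.

Constants: `b`, `l`: class of the branches; `B`: small vertices have at most `B` vertices in their branches; `N`: length of
a group; `κ η s`: constants of the state. The rounds fix (in this order) the output constants `K₁`, `w₁`, then (depending on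
the input constants `K`, `w`) the size `B₂` of a large in-branch, then the capacity `lam`, then `sig`, then `C`.
-/

set_option autoImplicit false

namespace AEG

open Finset Relation AE15 AED AEB
open scoped Classical

/-- the class of the lines -/
def Cl (b l : ℕ) (L : List (Fd × Fd)) : Prop := ∀ q ∈ L, BrOk b l q

theorem Cl.drop {b l : ℕ} {L : List (Fd × Fd)} (h : Cl b l L) (n : ℕ) : Cl b l (L.drop n) :=
  fun q hq => h q (List.mem_of_mem_drop hq)

theorem Cl.sub {b l : ℕ} {L L' : List (Fd × Fd)} (h : Cl b l L) (hs : ∀ q ∈ L', q ∈ L) : Cl b l L' :=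
  fun q hq => h q (hs q hq)

/-- what a round gets: a state and a line of the class which fits (the driver chooses `C`, so that equality holds) -/
structure Inp {T : Type} (b l : ℕ) (R : T → T → Prop) (κ η s : ℝ) (lam sig K w C : ℕ) (L : List (Fd × Fd))
    (P : T → Prop) (Y V : Finset T) : Prop where
  tour : AE32.Tour R
  cl : Cl b l L
  st : StM R Y V P κ η s lam sig K
  low : (V \ low R sig (Y ∪ V)).card ≤ w
  card : szS L + C = (Y ∪ V).card

/-- **Tame round**: the first three vertices of the line have in-branches of size at most `h`; final, or one or two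
vertices of the line are embedded -/
def TameR (b l : ℕ) (κ η s : ℝ) : Prop := ∃ M₁ C₁ K₁ : ℕ, ∀ K w h lam lam' sig : ℕ, M₁ * h + C₁ ≤ lam →
  M₁ * (lam' + h) + C₁ ≤ sig → ∃ C₀ : ℕ, ∀ C, C₀ ≤ C → ∀ {T : Type} {R : T → T → Prop} {L : List (Fd × Fd)} {P : T → Prop}
    {Y V : Finset T}, Inp b l R κ η s lam sig K w C L P Y V → L ≠ [] → (∀ i < 3, ¬ BgL h L i) →
    InS R L P (Y ∪ V) ∨ Nxt R κ η s lam' sig K₁ w L P (Y ∪ V) (L.drop 1) C ∨
      Nxt R κ η s lam' sig K₁ w L P (Y ∪ V) (L.drop 2) C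

/-- **Cluster round**: final, or the group `gr` and one or two vertices behind it are embedded. The capacity `lam₁` of the
next state is arbitrary; `w₁` may depend on it, but not on `K`, `w`, `B₂`, `sig` -/
def RoundR (b l B N : ℕ) (κ η s : ℝ) : Prop := ∃ lam₀ K₁ : ℕ, ∀ lam₁, lam₀ ≤ lam₁ → ∃ w₁ : ℕ, ∀ K w : ℕ,
  ∃ B₂' : ℕ, ∀ B₂, B₂' ≤ B₂ → ∃ sig' : ℕ, ∀ sig, sig' ≤ sig → ∃ C₀ : ℕ, ∀ C, C₀ ≤ C → ∀ lam, lam₀ ≤ lam →
    ∀ {T : Type} {R : T → T → Prop} {l₁ l₂ t₁ t₂ : Fd × Fd} {gr rest : List (Fd × Fd)} {P : T → Prop}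
    {Y V : Finset T}, Inp b l R κ η s lam sig K w C (l₁ :: l₂ :: (gr ++ t₁ :: t₂ :: rest)) P Y V →
    smB B l₁ → smB B l₂ → smB B t₁ → smB B t₂ → gr ≠ [] → gr.length ≤ N → rest ≠ [] → B₂ < inS gr →
    InS R (l₁ :: l₂ :: (gr ++ t₁ :: t₂ :: rest)) P (Y ∪ V) ∨
      Nxt R κ η s lam₁ sig K₁ w₁ (l₁ :: l₂ :: (gr ++ t₁ :: t₂ :: rest)) P (Y ∪ V) (t₂ :: rest) C ∨
      Nxt R κ η s lam₁ sig K₁ w₁ (l₁ :: l₂ :: (gr ++ t₁ :: t₂ :: rest)) P (Y ∪ V) rest C

/-! ### Monotonicity -/

theorem Nxt.mono {T : Type*} {R : T → T → Prop} {κ η s : ℝ} {lam sig K K' w w' : ℕ} {L L' : List (Fd × Fd)}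
    {N : T → Prop} {X : Finset T} {C : ℕ} (h : Nxt R κ η s lam sig K w L N X L' C) (hK : K ≤ K') (hw : w ≤ w') :
    Nxt R κ η s lam sig K' w' L N X L' C := by
  obtain ⟨h0, Y', V', y, h1, h2, h3, h4, h5⟩ := h
  exact ⟨h0, Y', V', y, h1.mono le_rfl le_rfl hK, h2.trans hw, h3, h4, h5⟩

theorem szS_le_of_drop (L : List (Fd × Fd)) (n : ℕ) : szS (L.drop n) ≤ szS L := by
  conv_rhs => rw [← List.take_append_drop n L]
  rw [szS_append]
  omega

/-! ### Front parts and end parts -/

theorem embS_front {T : Type*} {R : T → T → Prop} {L L' : List (Fd × Fd)} (hL : L ≠ []) : ∀ {y : T} {S : Finset T},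
    EmbS R (L ++ L') y S → ∃ S' ⊆ S, EmbS R L y S' := by
  induction L with
  | nil => exact absurd rfl hL
  | cons q L ih =>
    intro y S h
    cases L with
    | nil =>
      cases L' with
      | nil => exact ⟨S, Subset.rfl, by simpa using h⟩
      | cons q' L' =>
        obtain ⟨S₁, S₂, z, S₃, h1, h2, h3, h4, rfl, h5, h6, h7⟩ := h
        exact ⟨S₁ ∪ S₂, subset_union_left, S₁, S₂, h1, rfl, h5, h6⟩
    | cons q' L =>
      obtain ⟨S₁, S₂, z, S₃, h1, h2, h3, h4, rfl, h5, h6, h7⟩ := h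
      obtain ⟨S', hS', h8⟩ := ih (by simp) h7
      exact ⟨(S₁ ∪ S₂) ∪ insert z S', union_subset_union_right (insert_subset_insert _ hS'), S₁, S₂, z, S', h1,
        h2.mono_right (insert_subset_insert _ hS'), fun h => h3 (hS' h), h4, rfl, h5, h6, h8⟩

theorem InS.of_append {T : Type*} {R : T → T → Prop} {L L' : List (Fd × Fd)} (hL : L ≠ []) {N : T → Prop}
    {X : Finset T} (h : InS R (L ++ L') N X) : InS R L N X := by
  obtain ⟨y, hy, hN, S, hS, hyS, hE⟩ := h
  obtain ⟨S', hS', hE'⟩ := embS_front hL hE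
  exact ⟨y, hy, hN, S', hS'.trans hS, fun h => hyS (hS' h), hE'⟩

theorem InS.of_cons {T : Type*} {R : T → T → Prop} {q : Fd × Fd} {L : List (Fd × Fd)} (hL : L ≠ []) {N : T → Prop}
    {X : Finset T} (h : InS R (q :: L) N X) : InS R L (fun _ => True) X := by
  obtain ⟨y, hy, hN, S, hS, hyS, hE⟩ := h
  cases L with
  | nil => exact absurd rfl hL
  | cons q' L =>
    obtain ⟨S₁, S₂, z, S₃, h1, h2, h3, h4, rfl, h5, h6, h7⟩ := hE
    refine ⟨z, hS (mem_union_right _ (mem_insert_self _ _)), trivial, S₃, ?_, h3, h7⟩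
    exact ((subset_insert _ _).trans subset_union_right).trans hS

theorem InS.of_append_left {T : Type*} {R : T → T → Prop} {L L' : List (Fd × Fd)} (hL : L' ≠ []) {N : T → Prop}
    {X : Finset T} (h : InS R (L ++ L') N X) : InS R L' (fun _ => True) X := by
  induction L generalizing N with
  | nil =>
    obtain ⟨y, hy, hN, S, hS, hyS, hE⟩ := h
    exact ⟨y, hy, trivial, S, hS, hyS, hE⟩
  | cons q L ih => exact ih (InS.of_cons (by simp [hL]) h)

/-! ### Bare vertices -/

/-- a vertex without branches -/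
def bare : Fd × Fd := (Fd.nil, Fd.nil)

theorem fok_nil (b l : ℕ) : FOK b l 0 Fd.nil := by
  simp [FOK, Fd.len, Fd.Deg, InR]

theorem smB_bare (B : ℕ) : smB B bare := by
  simp [smB, bare, Fd.size]

theorem Cl.cons_bare {b l : ℕ} {L : List (Fd × Fd)} (h : Cl b l L) : Cl b l (bare :: L) := by
  intro q hq
  rcases List.mem_cons.1 hq with rfl | hq
  · exact ⟨fok_nil b l, fok_nil b l, by simp [bare, Fd.trees], by simp [bare, Fd.trees]⟩
  · exact h q hq

theorem Cl.append {b l : ℕ} {L L' : List (Fd × Fd)} (h : Cl b l L) (h' : Cl b l L') : Cl b l (L ++ L') := by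
  intro q hq
  rcases List.mem_append.1 hq with hq | hq
  · exact h q hq
  · exact h' q hq

theorem Cl.nil {b l : ℕ} : Cl b l [] := fun q hq => absurd hq (by simp)

/-- a line consisting of one bare vertex fits -/
theorem InS.bare {T : Type*} {R : T → T → Prop} {N : T → Prop} {X : Finset T} {y : T} (hy : y ∈ X) (hN : N y) :
    InS R [AEG.bare] N X := by
  refine ⟨y, hy, hN, ∅, by simp, by simp, ∅, ∅, by simp, by simp, ?_, ?_⟩ <;> simp [AEG.bare, AED.Emb]

/-- a line consisting of two bare vertices fits -/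
theorem InS.bare2 {T : Type*} {R : T → T → Prop} {N : T → Prop} {X : Finset T} {y z : T} (hy : y ∈ X) (hN : N y)
    (hz : z ∈ X) (hyz : R y z) (hne : y ≠ z) : InS R [AEG.bare, AEG.bare] N X := by
  refine ⟨y, hy, hN, {z}, by simpa using hz, by simpa using hne, ∅, ∅, z, ∅, by simp, by simp, by simp, hyz, by simp,
    ?_, ?_, ∅, ∅, by simp, by simp, ?_, ?_⟩ <;> simp [AEG.bare, AED.Emb]

/-! ### The initial state -/

theorem good_mono {T : Type*} {R : T → T → Prop} {κ κ' η η' : ℝ} {X : Finset T} {v : T} (h : Good R κ' η' X v)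
    (hκ : κ ≤ κ') (hη : η' ≤ η) : Good R κ η X v := by
  intro C hC hv hcl
  refine (h C hC hv ?_).trans (mul_le_mul_of_nonneg_right hη (Nat.cast_nonneg _))
  intro z hz hzC
  exact (hcl z hz hzC).trans_le (mul_le_mul_of_nonneg_right hκ (Nat.cast_nonneg _))

/-- **The initial state** -/
theorem init_st {D₀ : ℕ} {ω c η η₁ κ₀ κ₁ κ γ₀ τ s σ₂ μ : ℝ} (P : KB D₀ ω c η η₁ κ₀ κ₁ κ γ₀ τ s σ₂ μ) (lam : ℕ) :
    ∃ n₀ : ℕ, ∀ {T : Type} {R : T → T → Prop}, AE32.Tour R → ∀ {X : Finset T}, n₀ ≤ X.card → ∀ sig K : ℕ,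
      StM R X ∅ (fun _ => True) κ η s lam sig K := by
  obtain ⟨hω0, hω1, hc0, hc1, hη0, hη1, hη₁0, hη₁1, hκ₀0, hκ₁0, hκ₁1, hκ0, hκ1, hs0, hγ₀0, hτ0, hσ₂0, hμ0, hκ₁η, hκs⟩ :=
    P.num
  obtain ⟨n₀, hn₀⟩ := exists_big [((1 : ℝ), κ₀), ((2 * lam : ℝ), γ₀ / 2)] (by
    intro q hq
    simp only [List.mem_cons, List.not_mem_nil, or_false] at hq
    rcases hq with rfl | rfl
    · exact hκ₀0
    · show 0 < γ₀ / 2
      positivity)
  refine ⟨n₀, ?_⟩
  intro T R hT X hn sig K
  have hbig := hn₀ X.card hn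
  have b1 : (1 : ℝ) ≤ κ₀ * X.card := hbig ((1 : ℝ), κ₀) (by simp)
  have b2 : (2 * lam : ℝ) ≤ γ₀ / 2 * X.card := hbig ((2 * lam : ℝ), γ₀ / 2) (by simp)
  obtain ⟨G, hG, hGg, hGc, -⟩ := exists_G P hT X b1
  have hcη : c * η ≤ 1 * η := mul_le_mul_of_nonneg_right (by linarith) hη0.le
  have hsub : G \ low R lam X ⊆ cg R X ∅ (fun _ => True) κ η lam := by
    intro v hv
    rw [mem_sdiff, mem_low, not_and, not_lt] at hv
    rw [mem_cg, union_empty]
    exact ⟨hG hv.1, trivial, good_mono (hGg v hv.1) (by linarith) (by linarith), hv.2 (hG hv.1)⟩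
  have hsd : (G.card : ℝ) ≤ ((cg R X ∅ (fun _ => True) κ η lam).card : ℝ) + 2 * lam := by
    have h1 : G ⊆ (G \ low R lam X) ∪ low R lam X := fun x hx => by
      by_cases hxE : x ∈ low R lam X
      · exact mem_union_right _ hxE
      · exact mem_union_left _ (mem_sdiff.2 ⟨hx, hxE⟩)
    have h2 := (card_le_card h1).trans (card_union_le _ _)
    have h3 := card_le_card hsub
    have h4 : (low R lam X).card ≤ 2 * lam := card_lowin hT X lam
    have h5 : G.card ≤ (cg R X ∅ (fun _ => True) κ η lam).card + 2 * lam := by omega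
    exact_mod_cast h5
  refine ⟨disjoint_empty_right _, ?_, ?_⟩
  · have h1 : s ≤ γ₀ / 2 := by
      obtain ⟨hD, hω, hc, hη, hη₁, hκ₀, hκ₁, hκ, hγ₀, hτ, hs, hσ₂, hμ⟩ := P
      rw [hs, hγ₀]
      have : c * η₁ ≤ 1 * η₁ := mul_le_mul_of_nonneg_right (by linarith) hη₁0.le
      linarith
    have h2 : s * X.card ≤ γ₀ / 2 * X.card := mul_le_mul_of_nonneg_right h1 (Nat.cast_nonneg _)
    linarith
  · intro j
    simp

/-! ### The driver -/

/-- **The driver of M2** -/
theorem driverM {b l B N : ℕ} {D₀ : ℕ} {ω c η η₁ κ₀ κ₁ κ γ₀ τ s σ₂ μ : ℝ}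
    (P : KB D₀ ω c η η₁ κ₀ κ₁ κ γ₀ τ s σ₂ μ) (hT : TameR b l κ η s) (hC : RoundR b l B (2 * (N + 6)) κ η s) :
    ∃ C : ℕ, CodII b l B N C := by
  have hs0 : 0 < s ∧ 0 < κ ∧ κ ≤ 1 - η := by
    obtain ⟨hω0, hω1, hc0, hc1, hη0, hη1, hη₁0, hη₁1, hκ₀0, hκ₁0, hκ₁1, hκ0, hκ1, hs0, hγ₀0, hτ0, hσ₂0, hμ0, hκ₁η, hκs⟩ :=
      P.num
    have hcη : c * η ≤ 1 * η := mul_le_mul_of_nonneg_right (by linarith) hη0.le
    exact ⟨hs0, hκ0, by linarith⟩
  obtain ⟨hs0, hκ0, hκη⟩ := hs0
  obtain ⟨M₁, C₁, K₁, hT⟩ := hT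
  obtain ⟨c₂, K₂, hC⟩ := hC
  obtain ⟨K, hK⟩ : ∃ K, K = max K₁ K₂ := ⟨_, rfl⟩
  obtain ⟨lam, hlam⟩ : ∃ lam, lam = max (M₁ * B + C₁) c₂ := ⟨_, rfl⟩
  have hlc : c₂ ≤ lam := by rw [hlam]; exact le_max_right _ _
  obtain ⟨w, hC⟩ := hC lam hlc
  obtain ⟨B₂', hC⟩ := hC K w
  obtain ⟨B₂, hB₂⟩ : ∃ B₂, B₂ = max B B₂' := ⟨_, rfl⟩
  obtain ⟨lam₂, hlam₂⟩ : ∃ lam₂, lam₂ = max (M₁ * B₂ + C₁) lam := ⟨_, rfl⟩
  obtain ⟨sig₂, hC⟩ := hC B₂ (by rw [hB₂]; exact le_max_right _ _)
  obtain ⟨sig, hsig⟩ : ∃ sig, sig = max (M₁ * (lam₂ + B₂) + C₁) sig₂ := ⟨_, rfl⟩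
  obtain ⟨C₃, hC⟩ := hC sig (by rw [hsig]; exact le_max_right _ _)
  have hBB : B ≤ B₂ := by rw [hB₂]; exact le_max_left _ _
  have hll : lam ≤ lam₂ := by rw [hlam₂]; exact le_max_right _ _
  obtain ⟨C₄, hT₂⟩ := hT K w B₂ lam₂ lam₂ sig (by rw [hlam₂]; exact le_max_left _ _) (by rw [hsig]; exact le_max_left _ _)
  obtain ⟨C₅, hT₁⟩ := hT K w B lam lam₂ sig (by rw [hlam]; exact le_max_left _ _) (by
    rw [hsig]
    refine le_trans ?_ (le_max_left _ _)
    gcongr)
  obtain ⟨n₀, hI⟩ := init_st P lam₂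
  obtain ⟨C₀, hC₀⟩ : ∃ C₀, C₀ = C₃ + C₄ + C₅ + n₀ + 5 + w + 2 * sig := ⟨_, rfl⟩
  -- the induction
  have main : ∀ n : ℕ, ∀ {T : Type} {R : T → T → Prop} {L : List (Fd × Fd)} {Q : T → Prop} {Y V : Finset T},
      L.length = n → L ≠ [] → AE32.Tour R → Cl b l L → StM R Y V Q κ η s lam sig K →
      (StM R Y V Q κ η s lam₂ sig K ∨ ∀ i < 3, ¬ BgL B L i) →
      (V \ low R sig (Y ∪ V)).card ≤ w → szS L + C₀ ≤ (Y ∪ V).card → ClsB (smB B) 6 B (N + 6) L →
      ClsA (smB B) 6 B (N + 6) L → QG (smB B) 3 B₂ L → InS R L Q (Y ∪ V) := by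
    intro n
    induction n using Nat.strong_induction_on with
    | _ n ih =>
      intro T R L Q Y V hn hL hT0 hcl hSt hSt₂ hlow hcard hcB hcA hQ
      have hLpos : 0 < L.length := List.length_pos_iff.2 hL
      obtain ⟨C, hCd⟩ : ∃ C, C = (Y ∪ V).card - szS L := ⟨_, rfl⟩
      have hCC : C₀ ≤ C := by omega
      have hI : Inp b l R κ η s lam sig K w C L Q Y V := ⟨hT0, hcl, hSt, hlow, by omega⟩
      -- a tame round
      have tame : (∀ i < 3, ¬ BgL B₂ L i) → QG (smB B) 3 B₂ (L.drop 1) → QG (smB B) 3 B₂ (L.drop 2) →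
          InS R L Q (Y ∪ V) := by
        intro h1 h2 h3
        have hK1 : K₁ ≤ K := by rw [hK]; exact le_max_left _ _
        have next : ∀ d, 1 ≤ d → QG (smB B) 3 B₂ (L.drop d) → Nxt R κ η s lam₂ sig K₁ w L Q (Y ∪ V) (L.drop d) C →
            InS R L Q (Y ∪ V) := by
          intro d hd hQ' hN
          obtain ⟨hne', Y', V', y, h1, h2, h3, -, h5⟩ := hN
          have h6 := h1.mono (lam' := lam₂) le_rfl le_rfl hK1
          exact h5 (ih (L.drop d).length (by rw [List.length_drop]; omega) rfl hne' hT0 (hcl.drop d)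
            (h6.mono hll le_rfl le_rfl) (Or.inl h6) h2 (by omega) (hcB.drop d) (hcA.drop d) hQ')
        rcases hSt₂ with hSt₂ | hSt₂
        · rcases hT₂ C (by omega) ⟨hT0, hcl, hSt₂, hlow, by omega⟩ hL h1 with h | h | h
          · exact h
          · exact next 1 (by omega) h2 h
          · exact next 2 (by omega) h3 h
        · rcases hT₁ C (by omega) hI hL hSt₂ with h | h | h
          · exact h
          · exact next 1 (by omega) h2 h
          · exact next 2 (by omega) h3 h
      rcases stepII (k := 3) (by norm_num) hBB smB_out hcB hcA hQ with h | h | h | h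
      · exact tame (fun i _ => h i) (QG.of_no h 1) (QG.of_no h 2)
      · obtain ⟨l₁, l₂, gr, t₁, t₂, rest, rfl, hre, e1, e2, e3, e4, hne, hlen, hin, hB', hA', hFo⟩ := h
        have hK2 : K₂ ≤ K := by rw [hK]; exact le_max_right _ _
        have hlt : rest.length + 1 < n := by
          simp only [List.length_cons, List.length_append] at hn
          omega
        have hdrop : t₂ :: rest = (l₁ :: l₂ :: (gr ++ t₁ :: t₂ :: rest)).drop (2 + gr.length + 1) := by
          rw [show 2 + gr.length + 1 = (gr.length + 1) + 2 by omega]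
          show t₂ :: rest = (gr ++ t₁ :: t₂ :: rest).drop (gr.length + 1)
          rw [List.drop_append]
          simp
        rcases hC C (by omega) lam hlc hI e1 e2 e3 e4 hne hlen hre hin with h | h | h
        · exact h
        · obtain ⟨hne', Y', V', y, h1, h2, h3, -, h5⟩ := h
          have hbt : ∀ {B' i : ℕ}, B ≤ B' → BgL B' (t₂ :: rest) i → ∃ j, i = j + 1 ∧ BgL B' rest j := by
            intro B' i hBB' hi
            obtain ⟨q, hq, hb⟩ := hi
            cases i with
            | zero =>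
              obtain rfl : t₂ = q := by simpa using hq
              unfold smB at e4
              omega
            | succ i => exact ⟨i, rfl, q, by simpa using hq, hb⟩
          refine h5 (ih (t₂ :: rest).length (by rw [List.length_cons]; exact hlt) rfl hne' hT0
            (hcl.sub fun q hq => ?_) (h1.mono le_rfl le_rfl hK2) (Or.inr fun i hi hb => ?_) h2 (by omega) ?_ ?_ ?_)
          · rcases List.mem_cons.1 hq with rfl | hq
            · simp
            · simp [hq]
          · obtain ⟨j, rfl, hb'⟩ := hbt le_rfl hb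
            exact hFo.small j (by omega) hb'
          · rw [hdrop]
            exact hcB.drop _
          · rw [hdrop]
            exact hcA.drop _
          · intro g hg
            obtain ⟨j, rfl, hb'⟩ := hbt hBB hg
            obtain ⟨i, hi, hr⟩ := hFo j (hb'.mono hBB)
            refine Or.inl ⟨i + 1, by omega, ?_⟩
            intro s' hs'
            obtain ⟨q, hq, hsm⟩ := hr s' hs'
            refine ⟨q, ?_, hsm⟩
            rw [show i + 1 + s' = (i + s') + 1 by omega, List.getElem?_cons_succ, hq]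
        · obtain ⟨hne', Y', V', y, h1, h2, h3, -, h5⟩ := h
          exact h5 (ih rest.length (by omega) rfl hne' hT0 (hcl.sub fun q hq => by simp [hq]) (h1.mono le_rfl le_rfl hK2)
            (Or.inr fun i hi => hFo.small i (by omega)) h2 (by omega) hB' hA' (hFo.QG hBB))
      · obtain ⟨l₁, l₂, gr, rfl, e1, e2, hne, hlen, hin⟩ := h
        have hI' : Inp b l R κ η s lam sig K w (C - 3) (l₁ :: l₂ :: (gr ++ bare :: bare :: [bare])) Q Y V := by
          refine ⟨hT0, ?_, hI.st, hI.low, ?_⟩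
          · have := hcl.append (Cl.cons_bare (Cl.cons_bare (Cl.cons_bare (Cl.nil (b := b) (l := l)))))
            simpa using this
          · have h1 := hI.card
            have h2 : szS (l₁ :: l₂ :: (gr ++ bare :: bare :: [bare])) = szS (l₁ :: l₂ :: gr) + 3 := by
              simp [szS, bare, Fd.size]
              omega
            omega
        have key : InS R (l₁ :: l₂ :: (gr ++ bare :: bare :: [bare])) Q (Y ∪ V) := by
          have hpos : ∀ {Y' V' : Finset T} {y : T} {L' : List (Fd × Fd)}, StM R Y' V' (R y) κ η s lam sig K₂ →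
              (V' \ low R sig (Y' ∪ V')).card ≤ w → szS L' + (C - 3) ≤ (Y' ∪ V').card →
              0 < (cg R Y' V' (R y) κ η lam).card ∧ 0 < Y'.card := by
            intro Y' V' y L' h1 h2 h3
            have hY'0 : 0 < Y'.card := by
              rw [Nat.pos_iff_ne_zero]
              intro hY'
              have h7 := card_union_le Y' V'
              have h8 : (low R sig (Y' ∪ V')).card ≤ 2 * sig := card_lowin hT0 _ sig
              have h9 : V'.card ≤ (V' \ low R sig (Y' ∪ V')).card + (low R sig (Y' ∪ V')).card := by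
                have h10 : V' ⊆ (V' \ low R sig (Y' ∪ V')) ∪ low R sig (Y' ∪ V') := fun x hx => by
                  by_cases hxE : x ∈ low R sig (Y' ∪ V')
                  · exact mem_union_right _ hxE
                  · exact mem_union_left _ (mem_sdiff.2 ⟨hx, hxE⟩)
                exact (card_le_card h10).trans (card_union_le _ _)
              omega
            refine ⟨?_, hY'0⟩
            have h7 : (0 : ℝ) < Y'.card := by exact_mod_cast hY'0
            have h8 := h1.dense
            have h9 : (0 : ℝ) < s * Y'.card := by positivity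
            have h10 : (0 : ℝ) < ((cg R Y' V' (R y) κ η lam).card : ℝ) := by linarith
            exact_mod_cast h10
          rcases hC (C - 3) (by omega) lam hlc hI' e1 e2 (smB_bare B) (smB_bare B) hne hlen (by simp)
            hin with h | h | h
          · exact h
          · obtain ⟨-, Y', V', y, h1, h2, h3, h4, h5⟩ := h
            apply h5
            obtain ⟨h6, h7⟩ := hpos h1 h2 h3
            obtain ⟨v, hv⟩ := card_pos.1 h6
            rw [mem_cg] at hv
            have h8 := hv.2.2.1.deg hκη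
            have h9 : (0 : ℝ) < Y'.card := by exact_mod_cast h7
            have h10 : (0 : ℝ) < κ * Y'.card := by positivity
            have h11 : (0 : ℝ) < ((nO R Y' v).card : ℝ) := by linarith
            obtain ⟨z, hz⟩ := card_pos.1 (by exact_mod_cast h11 : 0 < (nO R Y' v).card)
            rw [mem_nO] at hz
            exact InS.bare2 (mem_union_left _ hv.1) hv.2.1 (mem_union_left _ hz.1) hz.2 (fun h => by
              subst h
              exact hT0.irr _ hz.2)
          · obtain ⟨-, Y', V', y, h1, h2, h3, h4, h5⟩ := h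
            apply h5
            obtain ⟨v, hv⟩ := card_pos.1 (hpos h1 h2 h3).1
            rw [mem_cg] at hv
            exact InS.bare (mem_union_left _ hv.1) hv.2.1
        have h1 : InS R ((l₁ :: l₂ :: gr) ++ bare :: bare :: [bare]) Q (Y ∪ V) := by simpa using key
        exact h1.of_append (by simp)
      · refine tame ?_ h.2.2.1 h.2.2.2
        intro i hi hb
        by_cases hi2 : i < 2
        · exact h.1 i hi2 hb
        · obtain rfl : i = 2 := by omega
          have h1 : BgL B₂ (L.drop 2) 0 := by rw [bgL_drop]; exact hb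
          rcases h.2.2.2 0 h1 with ⟨j, hj, -⟩ | ⟨hj, -⟩
          · omega
          · omega
  -- the start: six bare vertices in front
  refine ⟨C₀ + 6, ?_⟩
  intro T R hT0 L hL hcl hcB hcA X hX
  have hlen6 : (List.replicate 6 bare).length = 6 := List.length_replicate ..
  have hget : ∀ i, (List.replicate 6 bare ++ L)[6 + i]? = L[i]? := by
    intro i
    rw [List.getElem?_append_right (by rw [hlen6]; omega), hlen6, show 6 + i - 6 = i by omega]
  have hget6 : ∀ i, i < 6 → (List.replicate 6 bare ++ L)[i]? = some bare := by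
    intro i hi
    rw [List.getElem?_append_left (by rw [hlen6]; omega), List.getElem?_replicate, if_pos hi]
  have hrun : ∀ {K : ℕ} {j : ℕ}, RunG (smB B) K L j → RunG (smB B) K (List.replicate 6 bare ++ L) (6 + j) := by
    intro K j h s' hs'
    obtain ⟨q, hq, hsm⟩ := h s' hs'
    exact ⟨q, by rw [add_assoc, hget, hq], hsm⟩
  have hrun0 : RunG (smB B) 6 (List.replicate 6 bare ++ L) 0 := by
    intro s' hs'
    exact ⟨bare, by rw [zero_add]; exact hget6 s' hs', smB_bare B⟩
  have hbig : ∀ {B' : ℕ} {i : ℕ}, BgL B' (List.replicate 6 bare ++ L) i → ∃ j, i = 6 + j ∧ BgL B' L j := by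
    intro B' i hi
    obtain ⟨q, hq, hb⟩ := hi
    by_cases h6 : i < 6
    · rw [hget6 i h6] at hq
      obtain rfl : bare = q := by simpa using hq
      simp [bare, Fd.size] at hb
    · refine ⟨i - 6, by omega, q, ?_, hb⟩
      rw [← hget, show 6 + (i - 6) = i by omega, hq]
  have hlenL : (List.replicate 6 bare ++ L).length = 6 + L.length := by
    rw [List.length_append, hlen6]
  have hcB' : ClsB (smB B) 6 B (N + 6) (List.replicate 6 bare ++ L) := by
    intro i hi hb
    obtain ⟨j, rfl, hb'⟩ := hbig hb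
    obtain ⟨j', h1, h2, h3⟩ := hcB j (by omega) hb'
    exact ⟨6 + j', by omega, by omega, hrun h3⟩
  have hcA' : ClsA (smB B) 6 B (N + 6) (List.replicate 6 bare ++ L) := by
    intro i hi hb
    obtain ⟨j, rfl, hb'⟩ := hbig hb
    rw [hlenL] at hi
    obtain ⟨j', h1, h2, h3⟩ := hcA j (by omega) hb'
    exact ⟨6 + j', by omega, by omega, hrun h3⟩
  have hQ : QG (smB B) 3 B₂ (List.replicate 6 bare ++ L) := by
    intro g hg
    obtain ⟨j, rfl, -⟩ := hbig hg
    exact Or.inl ⟨0, by omega, hrun0.sub 0 (by omega)⟩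
  have hclb : Cl b l (List.replicate 6 bare ++ L) := by
    intro q hq
    rcases List.mem_append.1 hq with hq | hq
    · rw [List.eq_of_mem_replicate hq]
      exact (Cl.cons_bare (b := b) (l := l) Cl.nil) bare (by simp)
    · exact hcl q hq
  have hsz : szS (List.replicate 6 bare ++ L) = 6 + szS L := by
    rw [szS_append]
    simp [szS, bare, Fd.size, List.replicate]
  have h0 := hI hT0 (X := X) (by omega) sig K
  have h1 := main _ rfl (by simp [List.replicate]) hT0 hclb (h0.mono hll le_rfl le_rfl) (Or.inl h0) (by simp) (by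
    rw [union_empty, hsz]
    omega) hcB' hcA' hQ
  rw [union_empty] at h1
  obtain ⟨y, hy, -, S, hS, hyS, hE⟩ := h1.of_append_left hL
  exact ⟨y, hy, S, hS, hyS, hE⟩

end AEG
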