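import Pool.Agent.AEG.StC
import Pool.Agent.AEG.DriverM

/-!
# Monotonicity of the states with a critical group

`StE.weaken`, `StC.mono`: weaker constants. `CSof`: the concrete abstract state. `CritB2`: `CritB` with one state in front
of the step and another one behind it. `EnterB.mono`, `CritB2.mono`, `FinB.mono`: change of the states and of the constants.
-/

set_option autoImplicit false

namespace AEG

open Finset AE15 AED AEB SPD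
open scoped Classical

/-- weaker constants -/
theorem StE.weaken {T : Type*} {R : T → T → Prop} {X E : Finset T} {N : T → Prop} {κ κ' η η' s s' : ℝ}
    {lam lam' sig sig' f f' w w' K K' lamE lamE' : ℕ} (h : StE R X E N κ η s lam sig f w K lamE) (hκ : κ' ≤ κ)
    (hη : η ≤ η') (hs : s' ≤ s) (h1 : lam' ≤ lam) (h2 : sig ≤ sig') (hf : f' ≤ f) (h3 : w ≤ w') (h4 : K ≤ K')
    (h5 : lamE' ≤ lamE) : StE R X E N κ' η' s' lam' sig' f' w' K' lamE' := by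
  have hsub : cg R X ∅ N κ η lam ⊆ cg R X ∅ N κ' η' lam' := by
    intro v hv
    rw [mem_cg] at hv ⊢
    exact ⟨hv.1, hv.2.1, good_mono hv.2.2.1 hκ hη, h1.trans hv.2.2.2⟩
  refine ⟨h.sub, ?_, fun j hj => ?_, fun u hu => ?_⟩
  · exact (mul_le_mul_of_nonneg_right hs (Nat.cast_nonneg _)).trans (h.dense.trans (Nat.cast_le.2 (card_le_card hsub)))
  · refine (card_le_card ?_).trans ((h.cnt j (hj.trans hf)).trans (Nat.add_le_add h3 (Nat.mul_le_mul_right _ h4)))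
    intro u hu
    rw [mem_filter] at hu ⊢
    exact ⟨hu.1, hu.2.1, h2.trans hu.2.2.1, (card_le_card (nI_mono hsub)).trans hu.2.2.2⟩
  · refine h5.trans ((h.thr u hu).trans (card_le_card ?_))
    intro v hv
    rw [mem_filter] at hv ⊢
    exact ⟨hv.1, hv.2.1, good_mono hv.2.2.1 hκ hη, h1.trans hv.2.2.2⟩

/-- weaker constants -/
theorem StC.mono {V : Type} {R : V → V → Prop} {P X E U Fx : Finset V} {ys : List V} {y : V}
    {κp κp' ξp ξp' sp sp' τp τp' ηp ηp' : ℝ} {Kp Kp' ep ep' : ℕ} {κ κ' η η' s s' : ℝ}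
    {f f' K K' cF cF' cc cc' lam lam' w w' bb bb' le le' : ℕ}
    (h : StC R P X E U Fx ys y κp ξp sp τp ηp Kp ep κ η s f K cF cc lam w bb le)
    (h1 : κp' ≤ κp) (h2 : ξp' ≤ ξp) (h3 : sp' ≤ sp) (h4 : τp' ≤ τp) (h5 : ηp ≤ ηp') (h6 : Kp ≤ Kp') (h7 : ep ≤ ep')
    (h8 : κ' ≤ κ) (h9 : η ≤ η') (h10 : s' ≤ s) (h11 : f' ≤ f) (h12 : K ≤ K') (h13 : cF ≤ cF') (h14 : cc' ≤ cc)
    (h15 : lam' ≤ lam) (h16 : w ≤ w') (h17 : bb' ≤ bb) (h18 : le' ≤ le) :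
    StC R P X E U Fx ys y κp' ξp' sp' τp' ηp' Kp' ep' κ' η' s' f' K' cF' cc' lam' w' bb' le' := by
  obtain ⟨t, ht, hg⟩ := h.side
  exact
    { dis := h.dis
      hys := h.hys
      subU := h.subU
      side := ⟨t, ht.trans (mul_le_mul_of_nonneg_right h5 (Nat.cast_nonneg _)), hg.mono h1 le_rfl h3 h4 h6 h7⟩
      cardU := (mul_le_mul_of_nonneg_right h2 (Nat.cast_nonneg _)).trans h.cardU
      nodup := h.nodup
      chain := h.chain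
      last := h.last
      st := h.st.weaken h8 h9 h10 h15 le_rfl h11 h16 h12 h18
      cF := h.cF.trans h13
      cap := fun v hv hF => (h.cap v hv hF).mono (Subset.refl _) (Subset.refl _) h17 h14 }

/-- **The constants of a concrete state** -/
structure CK where
  κp : ℝ
  ξp : ℝ
  sp : ℝ
  τp : ℝ
  ηp : ℝ
  Kp : ℕ
  ep : ℕ
  κ : ℝ
  η : ℝ
  s : ℝ
  f : ℕ
  K : ℕ
  cF : ℕ
  cc : ℕ

/-- `k'` is weaker than `k` -/
structure CK.Le (k k' : CK) : Prop where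
  κp : k'.κp ≤ k.κp
  ξp : k'.ξp ≤ k.ξp
  sp : k'.sp ≤ k.sp
  τp : k'.τp ≤ k.τp
  ηp : k.ηp ≤ k'.ηp
  Kp : k.Kp ≤ k'.Kp
  ep : k.ep ≤ k'.ep
  κ : k'.κ ≤ k.κ
  η : k.η ≤ k'.η
  s : k'.s ≤ k.s
  f : k'.f ≤ k.f
  K : k.K ≤ k'.K
  cF : k.cF ≤ k'.cF
  cc : k'.cc ≤ k.cc

theorem CK.Le.refl (k : CK) : k.Le k :=
  ⟨le_rfl, le_rfl, le_rfl, le_rfl, le_rfl, le_rfl, le_rfl, le_rfl, le_rfl, le_rfl, le_rfl, le_rfl, le_rfl, le_rfl⟩

theorem CK.Le.trans {k₁ k₂ k₃ : CK} (h : k₁.Le k₂) (h' : k₂.Le k₃) : k₁.Le k₃ :=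
  ⟨h'.κp.trans h.κp, h'.ξp.trans h.ξp, h'.sp.trans h.sp, h'.τp.trans h.τp, h.ηp.trans h'.ηp, h.Kp.trans h'.Kp,
    h.ep.trans h'.ep, h'.κ.trans h.κ, h.η.trans h'.η, h'.s.trans h.s, h'.f.trans h.f, h.K.trans h'.K, h.cF.trans h'.cF,
    h'.cc.trans h.cc⟩

/-- a common weaker vector of constants -/
noncomputable def CK.inf (k k' : CK) : CK where
  κp := min k.κp k'.κp
  ξp := min k.ξp k'.ξp
  sp := min k.sp k'.sp
  τp := min k.τp k'.τp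
  ηp := max k.ηp k'.ηp
  Kp := max k.Kp k'.Kp
  ep := max k.ep k'.ep
  κ := min k.κ k'.κ
  η := max k.η k'.η
  s := min k.s k'.s
  f := min k.f k'.f
  K := max k.K k'.K
  cF := max k.cF k'.cF
  cc := min k.cc k'.cc

theorem CK.inf_left (k k' : CK) : k.Le (k.inf k') :=
  ⟨min_le_left _ _, min_le_left _ _, min_le_left _ _, min_le_left _ _, le_max_left _ _, le_max_left _ _,
    le_max_left _ _, min_le_left _ _, le_max_left _ _, min_le_left _ _, min_le_left _ _, le_max_left _ _,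
    le_max_left _ _, min_le_left _ _⟩

theorem CK.inf_right (k k' : CK) : k'.Le (k.inf k') :=
  ⟨min_le_right _ _, min_le_right _ _, min_le_right _ _, min_le_right _ _, le_max_right _ _, le_max_right _ _,
    le_max_right _ _, min_le_right _ _, le_max_right _ _, min_le_right _ _, min_le_right _ _, le_max_right _ _,
    le_max_right _ _, min_le_right _ _⟩

/-- **The concrete state** with the constants `k` -/
def CSof (k : CK) : CSt := fun V R P X ys y lam w bb le => ∃ E U Fx : Finset V,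
  StC (V := V) R P X E U Fx ys y k.κp k.ξp k.sp k.τp k.ηp k.Kp k.ep k.κ k.η k.s k.f k.K k.cF k.cc lam w bb le

/-- the states imply each other -/
def CSt.Imp (CS CS' : CSt) : Prop :=
  ∀ (V : Type) (R : V → V → Prop) (P X : Finset V) (ys : List V) (y : V) (lam w bb le : ℕ),
    CS V R P X ys y lam w bb le → CS' V R P X ys y lam w bb le

theorem CSt.Imp.refl (CS : CSt) : CS.Imp CS := fun _ _ _ _ _ _ _ _ _ _ h => h

theorem CSt.Imp.trans {CS₁ CS₂ CS₃ : CSt} (h : CS₁.Imp CS₂) (h' : CS₂.Imp CS₃) : CS₁.Imp CS₃ :=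
  fun _ _ _ _ _ _ _ _ _ _ h₁ => h' _ _ _ _ _ _ _ _ _ _ (h _ _ _ _ _ _ _ _ _ _ h₁)

theorem CSof.imp {k k' : CK} (h : k.Le k') : (CSof k).Imp (CSof k') := by
  intro V R P X ys y lam w bb le hc
  obtain ⟨E, U, Fx, h₁⟩ := hc
  exact ⟨E, U, Fx, h₁.mono h.κp h.ξp h.sp h.τp h.ηp h.Kp h.ep h.κ h.η h.s h.f h.K h.cF h.cc le_rfl le_rfl le_rfl le_rfl⟩

/-- **Entering**, change of the state and of the constants -/
theorem EnterB.mono {CS CS' : CSt} {b l K₀ : ℕ} {κ η s : ℝ} {Λ Λ' Λp Λp' A A' f f' K K' Nn Nn' : ℕ} {ζ ζ' ξ ξ' : ℝ}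
    {C C' C₀ C₀' C₂ C₂' : ℕ} (h : EnterB CS b l K₀ κ η s Λ Λp A f K Nn ζ ξ C C₀ C₂) (hCS : CS.Imp CS')
    (hΛ : Λ ≤ Λ') (hΛp : Λp ≤ Λp') (hA : A ≤ A') (hf : f ≤ f') (hK : K' ≤ K) (hNn : Nn' ≤ Nn) (hζ : ζ ≤ ζ')
    (hξ : ξ' ≤ ξ) (hC : C ≤ C') (hC₀ : C₀ ≤ C₀') (hC₂ : C₂ ≤ C₂') :
    EnterB CS' b l K₀ κ η s Λ' Λp' A' f' K' Nn' ζ' ξ' C' C₀' C₂' := by
  intro V R hT X N lam sig w lam' bb le xq c₁ c l₁ l₂ l₃ gr L a1 a2 a3 a4 a5 a6 a7 a8 a9 a10 a11 a12 a13 a14 a15 a16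
  obtain ⟨P, X', ys, y, w', d1, d2, d3, d4, d5, d6, d7, d8, d9⟩ := h hT X N lam sig w lam' bb le xq c₁ c l₁ l₂ l₃ gr L
    (a1.weaken le_rfl le_rfl le_rfl le_rfl le_rfl hf le_rfl hK le_rfl) a2 a3 (a4.trans hNn) a5 a6 (hC.trans a7)
    (hC₀.trans a8) a9 a10 ((mul_le_mul_of_nonneg_right hζ (Nat.cast_nonneg _)).trans a11)
    ((Nat.add_le_add (Nat.mul_le_mul_right _ hΛ) hC).trans a12) a13
    ((Nat.add_le_add (Nat.mul_le_mul_right _ hΛ) hC).trans a14)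
    ((Nat.mul_le_mul hΛp (Nat.add_le_add_left hC _)).trans a15)
    (a16.trans (mul_le_mul_of_nonneg_right hξ (Nat.cast_nonneg _)))
  exact ⟨P, X', ys, y, w', d1.trans (Nat.add_le_add (Nat.mul_le_mul_right _ hA) hC), d2, d3,
    hCS _ _ _ _ _ _ _ _ _ _ d4, d5, d6, d7.trans (Nat.add_le_add_left hC₂ _), d8, d9⟩

/-- `CritB` with the state `CSi` in front of the step, the state `CSo` behind it. The slack of the old part is between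
`C₀i` and `C₀i + C₂i`; the slack of the new part is at least `C₀o`, and the surplus of the new part is at most `C₂o`. -/
def CritB2 (CSi CSo : CSt) (b l K₀ : ℕ) (Λ Λp A Nn : ℕ) (ζ ξ : ℝ) (C C₀i C₂i C₀o C₂o : ℕ) : Prop :=
  ∀ {V : Type} {R : V → V → Prop}, AE32.Tour R →
  ∀ (P X : Finset V) (ys : List V) (y : V) (w bb le lam' bb' le' xq' c₁' c : ℕ) (k₁ k₂ k₃ k₄ : Fd × Fd)
    (gr gr' L : List (Fd × Fd)),
    CSi V R P X ys y 0 w bb le → ys.length = gr.length →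
    (∀ q ∈ gr ++ k₁ :: k₂ :: k₃ :: k₄ :: (gr' ++ L), BrO b l q) → gr ≠ [] → gr.length ≤ Nn →
    gr' ≠ [] → gr'.length ≤ Nn → L ≠ [] → NoDs K₀ (k₁ :: k₂ :: k₃ :: k₄ :: gr') L → C ≤ c → C₀o ≤ c₁' →
    inS gr + inS [k₁, k₂, k₃, k₄] + C₀i ≤ P.card → P.card ≤ inS gr + inS [k₁, k₂, k₃, k₄] + C₀i + C₂i →
    P.card + X.card = inS gr + szS (k₁ :: k₂ :: k₃ :: k₄ :: (gr' ++ L)) + c →
    ζ * ((P.card + X.card : ℕ) : ℝ) ≤ (szS L + c : ℕ) →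
    Λ * (inS [k₁, k₂, k₃, k₄] + inS gr' + xq' + bb' + le' + lam' + c₁') + C ≤ bb →
    Λp * (inS [k₁, k₂, k₃, k₄] + inS gr' + xq' + bb' + c₁' + C) ≤ P.card →
    (Λp * (bb' + lam' + c₁' + C) ≤ inS gr' ∧ xq' ≤ bb' ∨ bb' = 0 ∧ xq' = 0) → Λ * w + C ≤ inS gr' + c₁' → w + C ≤ le →
    ((P.card + lam' + le' : ℕ) : ℝ) ≤ ξ * X.card →
    ∃ (P' X' : Finset V) (ys' : List V) (y' : V) (w' : ℕ), w' ≤ A * lam' + C ∧ P' ⊆ X ∧ X' ⊆ P ∪ X ∧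
      CSo V R P' X' ys' y' lam' w' bb' le' ∧ ys'.length = gr'.length ∧
      inS gr' + xq' + c₁' ≤ P'.card ∧ P'.card ≤ inS gr' + xq' + c₁' + C₂o ∧
      P'.card + X'.card = inS gr' + szS L + c ∧
      (PGoal R ys' gr' y' L (P' ∪ X') → PGoal R ys gr y (k₁ :: k₂ :: k₃ :: k₄ :: (gr' ++ L)) (P ∪ X))

theorem CritB2.toCritB {CS : CSt} {b l K₀ Λ Λp A Nn : ℕ} {ζ ξ : ℝ} {C C₀ C₂ : ℕ}
    (h : CritB2 CS CS b l K₀ Λ Λp A Nn ζ ξ C C₀ C₂ C₀ C₂) : CritB CS b l K₀ Λ Λp A Nn ζ ξ C C₀ C₂ := h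

theorem CritB2.ofCritB {CS : CSt} {b l K₀ Λ Λp A Nn : ℕ} {ζ ξ : ℝ} {C C₀ C₂ : ℕ}
    (h : CritB CS b l K₀ Λ Λp A Nn ζ ξ C C₀ C₂) : CritB2 CS CS b l K₀ Λ Λp A Nn ζ ξ C C₀ C₂ C₀ C₂ := h

/-- **From a critical group to the next group**, change of the states and of the constants -/
theorem CritB2.mono {CSi CSi' CSo CSo' : CSt} {b l K₀ Λ Λ' Λp Λp' A A' Nn Nn' : ℕ} {ζ ζ' ξ ξ' : ℝ}
    {C C' C₀i C₀i' C₂i C₂i' C₀o C₀o' C₂o C₂o' : ℕ}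
    (h : CritB2 CSi CSo b l K₀ Λ Λp A Nn ζ ξ C C₀i C₂i C₀o C₂o) (hi : CSi'.Imp CSi) (ho : CSo.Imp CSo')
    (hΛ : Λ ≤ Λ') (hΛp : Λp ≤ Λp') (hA : A ≤ A') (hNn : Nn' ≤ Nn) (hζ : ζ ≤ ζ')
    (hξ : ξ' ≤ ξ) (hC : C ≤ C') (h1 : C₀i ≤ C₀i') (h2 : C₀i' + C₂i' ≤ C₀i + C₂i) (h3 : C₀o ≤ C₀o') (h4 : C₂o ≤ C₂o') :
    CritB2 CSi' CSo' b l K₀ Λ' Λp' A' Nn' ζ' ξ' C' C₀i' C₂i' C₀o' C₂o' := by
  intro V R hT P X ys y w bb le lam' bb' le' xq' c₁' c k₁ k₂ k₃ k₄ gr gr' L a1 a2 a3 a4 a5 a6 a7 a8 a9 a10 a11 a12 a13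
    a14 a15 a16 a17 a18 a19 a20 a21
  obtain ⟨P', X', ys', y', w', d1, d2, d3, d4, d5, d6, d7, d8, d9⟩ := h hT P X ys y w bb le lam' bb' le' xq' c₁' c
    k₁ k₂ k₃ k₄ gr gr' L (hi _ _ _ _ _ _ _ _ _ _ a1) a2 a3 a4 (a5.trans hNn) a6 (a7.trans hNn) a8 a9 (hC.trans a10)
    (h3.trans a11) ((Nat.add_le_add_left h1 _).trans a12) (by omega) a14
    ((mul_le_mul_of_nonneg_right hζ (Nat.cast_nonneg _)).trans a15)
    ((Nat.add_le_add (Nat.mul_le_mul_right _ hΛ) hC).trans a16)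
    ((Nat.mul_le_mul hΛp (Nat.add_le_add_left hC _)).trans a17)
    (a18.imp (fun hx => ⟨(Nat.mul_le_mul hΛp (Nat.add_le_add_left hC _)).trans hx.1, hx.2⟩) id)
    ((Nat.add_le_add (Nat.mul_le_mul_right _ hΛ) hC).trans a19) ((Nat.add_le_add_left hC _).trans a20)
    (a21.trans (mul_le_mul_of_nonneg_right hξ (Nat.cast_nonneg _)))
  exact ⟨P', X', ys', y', w', d1.trans (Nat.add_le_add (Nat.mul_le_mul_right _ hA) hC), d2, d3,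
    ho _ _ _ _ _ _ _ _ _ _ d4, d5, d6, d7.trans (Nat.add_le_add_left h4 _), d8, d9⟩

/-- **Closing**, change of the state and of the constants -/
theorem FinB.mono {CS CS' : CSt} {b l : ℕ} {κw κw' ηw ηw' sw sw' : ℝ} {f f' K₁ K₁' Nn Nn' : ℕ} {ξ ξ' : ℝ}
    {C C' C₀ C₀' C₂ C₂' : ℕ} (h : FinB CS b l κw ηw sw f K₁ Nn ξ C C₀ C₂) (hCS : CS'.Imp CS) (h1 : κw' ≤ κw)
    (h2 : ηw ≤ ηw') (h3 : sw' ≤ sw) (hf : f' ≤ f) (hK : K₁ ≤ K₁') (hNn : Nn' ≤ Nn) (hξ : ξ' ≤ ξ) (hC : C ≤ C')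
    (hC₀ : C₀ ≤ C₀') (hC₂ : C₂' ≤ C₂) : FinB CS' b l κw' ηw' sw' f' K₁' Nn' ξ' C' C₀' C₂' := by
  intro V R hT P X ys y lam w bb le c₁ gr L a1 a2 a3 a4 a5 a6 a7 a8 a9 a10
  obtain ⟨X', E, w', lamE, d1, d2, d3, d4, d5, d6⟩ := h hT P X ys y lam w bb le c₁ gr L (hCS _ _ _ _ _ _ _ _ _ _ a1) a2
    a3 a4 (a5.trans hNn) (hC₀.trans a6) a7 (a8.trans (Nat.add_le_add_left hC₂ _))
    (a9.trans (mul_le_mul_of_nonneg_right hξ (Nat.cast_nonneg _))) (hC.trans a10)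
  exact ⟨X', E, w', lamE, d1.trans (Nat.add_le_add_left hC _), d2.trans (Nat.add_le_add_left hC _), d3, d4,
    d5.weaken h1 h2 h3 (Nat.sub_le_sub_left hC _) le_rfl hf le_rfl hK le_rfl, d6⟩

end AEG
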