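import Pool.Agent.AEG.ReaZ
import Pool.Agent.AEG.Med
import Pool.Agent.AECut.Cut
import Pool.Agent.AEF.PiecesG

/-!
# The pool side of a group and its random-like parts

`GSd R U P ys κ t s τ K e`: all hosts `y ∈ ys` reach robustly almost all of the pool `P` inside `U`, linearly many
vertices of `P` do the same, and the numbers of their dominators are graded. (It is used for the reversed tournament.)
`GSd.thin`: there is a set `Z` containing a proportion of boundedly many given sets such that the data survive if any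
subset of `Z` and any bounded set is removed.
-/

set_option autoImplicit false

namespace AEG

open Finset AE15 SPD AECut
open scoped Classical

/-- the pool side of a group with hosts `ys` -/
structure GSd {V : Type} (R : V → V → Prop) (U P ys : Finset V) (κ t s τ : ℝ) (K e : ℕ) : Prop where
  sub : P ⊆ U
  ysU : ys ⊆ U
  ysP : Disjoint ys P
  reach : ∀ y ∈ ys, Rea R U P (κ * U.card) t y
  lin : ∀ y ∈ ys, s * P.card ≤ ((P.filter (fun w => R y w ∧ Rea R U P (κ * U.card) t w)).card : ℝ)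
  cnt : ∀ y ∈ ys, ∀ j : ℕ, (j : ℝ) ≤ τ * P.card →
    (P.filter (fun u => R u y ∧ (P.filter (fun w => R y w ∧ R w u ∧ Rea R U P (κ * U.card) t w)).card ≤ j)).card ≤
      K * j + e

/-- the dominators -/
noncomputable def Dg' {V : Type} (R : V → V → Prop) (U P : Finset V) (k t : ℝ) (p : V × V) : Finset V :=
  P.filter (fun w => R p.1 w ∧ R w p.2 ∧ Rea R U P k t w)

/-- the sets which have to be kept for the robust reach of all vertices -/
theorem rea_family_all {V : Type} {R : V → V → Prop} (U P : Finset V) (k : ℝ) :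
    ∃ FA : Finset (Finset V), FA.card ≤ U.card * U.card ∧ (∀ F ∈ FA, F ⊆ U ∧ k ≤ (F.card : ℝ)) ∧
      ∀ w ∈ U, ∀ t : ℝ, Rea R U P k t w → ∀ (S : Finset V) (k' : ℝ), (∀ F ∈ FA, k' ≤ ((F \ S).card : ℝ)) →
        Rea R (U \ S) (P \ S) k' t w := by
  have hex : ∀ p : V, ∃ FF : Finset (Finset V), FF.card ≤ U.card ∧ (∀ F ∈ FF, F ⊆ U ∧ k ≤ (F.card : ℝ)) ∧
      ∀ t : ℝ, Rea R U P k t p → ∀ (S : Finset V) (k' : ℝ), (∀ F ∈ FF, k' ≤ ((F \ S).card : ℝ)) →
        Rea R (U \ S) (P \ S) k' t p := by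
    intro p
    obtain ⟨W, hW, hmax⟩ : ∃ W, Rch R U k p W ∧ ∀ W', Rch R U k p W' → W' ⊆ W := by
      obtain ⟨W, hW, hmax⟩ := exists_max_image (U.powerset.filter (fun W => Rch R U k p W)) card
        ⟨nO R U p, mem_filter.2 ⟨mem_powerset.2 nO_sub, Rch.base⟩⟩
      rw [mem_filter] at hW
      refine ⟨W, hW.2, ?_⟩
      have hbase : nO R U p ⊆ W := by
        have : ∀ W, Rch R U k p W → nO R U p ⊆ W := by
          intro W hW
          induction hW with
          | base => exact Subset.refl _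
          | step W z _ _ _ _ ih => exact ih.trans (subset_insert _ _)
        exact this W hW.2
      intro W' hW'
      induction hW' with
      | base => exact hbase
      | step W' z _ hz _ hk ih =>
        refine insert_subset ?_ ih
        by_contra hzW
        have h4 : Rch R U k p (insert z W) := by
          refine Rch.step W z hW.2 hz hzW (hk.trans ?_)
          apply Nat.cast_le.2
          apply card_le_card
          intro u hu
          rw [mem_nI] at hu ⊢
          exact ⟨ih hu.1, hu.2⟩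
        have h5 := hmax (insert z W) (mem_filter.2 ⟨mem_powerset.2 (AEG.rch_sub h4), h4⟩)
        rw [card_insert_of_notMem hzW] at h5
        omega
    obtain ⟨FF, h1, h2, h3⟩ := rch_family hW
    refine ⟨FF, h1.trans (card_le_card (AEG.rch_sub hW)), h2, ?_⟩
    rintro t ⟨W', hW', ht⟩ S k' hS
    refine ⟨W \ S, h3 S k' hS, le_trans ?_ ht⟩
    apply Nat.cast_le.2
    apply card_le_card
    intro u hu
    rw [mem_sdiff, mem_sdiff, mem_sdiff] at hu
    rw [mem_sdiff]
    exact ⟨hu.1.1, fun h => hu.2 ⟨hmax W' hW' h, hu.1.2⟩⟩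
  choose FF hF1 hF2 hF3 using hex
  refine ⟨U.biUnion FF, ?_, ?_, ?_⟩
  · refine card_biUnion_le.trans ((sum_le_sum (fun u _ => hF1 u)).trans ?_)
    rw [sum_const, smul_eq_mul]
  · intro F hF
    rw [mem_biUnion] at hF
    obtain ⟨w, -, hF⟩ := hF
    exact hF2 w F hF
  · intro w hw t hR S k' hS
    refine hF3 w t hR S k' (fun F hF => hS F ?_)
    rw [mem_biUnion]
    exact ⟨w, hw, hF⟩


/-- **The kept part.** Boundedly many sets have at least half of their elements outside the kept part `Q`, which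
represents a family of sets and keeps a proportion of every member of a graded family. -/
theorem exists_free (H Kg : ℕ) {ε : ℝ} (hε : 0 < ε) (hε1 : ε ≤ 1) : ∃ n₁ M c : ℕ, 1 ≤ M ∧
    ∀ {V : Type} (A : Finset V) (𝓕 : Finset (Finset V)), n₁ ≤ A.card → 𝓕.card ≤ A.card ^ 5 →
      ∀ {ι : Type} (G : Finset ι) (D : ι → Finset V), (∀ u ∈ G, D u ⊆ A) → (∀ u ∈ G, (D u).Nonempty) →
        Pool.Agent.AEF.Graded G D Kg → ∀ {ι' : Type} (Hs : Finset ι') (E : ι' → Finset V), Hs.card ≤ H → 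
        (∀ h ∈ Hs, E h ⊆ A) →
        ∃ Q ⊆ A, A.card ≤ 4 * (H + 1) * Q.card ∧ Rep A 𝓕 ε Q ∧
          (∀ u ∈ G, (D u ∩ Q).Nonempty ∧ (D u).card ≤ M * (D u ∩ Q).card) ∧
          ∀ h ∈ Hs, (E h).card ≤ 2 * (E h \ Q).card + c := by
  obtain ⟨n1, M, c9, hmain⟩ := Pool.Agent.AEF.exists_pieces_graded (ε := ε / 2) (c := 1 / 4) (by positivity)
    (by linarith) (by norm_num) (H + 1) Kg
  obtain ⟨r0, hr0⟩ : ∃ r0 : ℕ, r0 = Kg * (c9 + 1) := ⟨_, rfl⟩
  obtain ⟨n2, hn2⟩ := exists_nat_ge (16 * ((H : ℝ) + 1) * (r0 + 1) / ε)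
  refine ⟨n1 + n2 + 1, max M (c9 + 1), 2 * r0, le_trans (by omega) (le_max_right _ _), ?_⟩
  intro V A 𝓕 hA h𝓕 ι G D hD hDne hGD ι' Hs E hHs hE
  have hA0 : (0 : ℝ) < A.card := by
    have : 0 < A.card := by omega
    exact_mod_cast this
  have hH0 : (0 : ℝ) < (H : ℝ) + 1 := by positivity
  obtain ⟨P, Q₀, p1, p2, p3, p4, p5, p6, p7, p8, p9, p10, p11⟩ := hmain A 𝓕 (by omega) h𝓕 G D hD hGD (H + 1)
    (fun _ => (1 : ℝ) / (4 * (H + 1)) * A.card) le_rfl (fun _ => by positivity) (by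
      rw [sum_const, card_univ, Fintype.card_fin, nsmul_eq_mul]
      push_cast
      have h1 : ((H : ℝ) + 1) * (1 / (4 * (H + 1)) * A.card) = A.card / 4 := by
        field_simp
      rw [h1]
      linarith)
  -- the piece
  obtain ⟨i, hi⟩ : ∃ i : Fin (H + 1), ∀ h ∈ Hs, (E h).card ≤ 2 * (E h \ P i).card := by
    by_contra hcon
    push Not at hcon
    choose g hg1 hg2 using hcon
    have hinj : Function.Injective g := by
      intro i j hij
      by_contra hne
      have h1 := hg2 i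
      have h2 := hg2 j
      rw [← hij] at h2
      have h3 : (E (g i) \ P i).card + (E (g i) \ P j).card ≥ (E (g i)).card := by
        have h4 : E (g i) ⊆ (E (g i) \ P i) ∪ (E (g i) \ P j) := by
          intro x hx
          rw [mem_union, mem_sdiff, mem_sdiff]
          by_cases hxi : x ∈ P i
          · exact Or.inr ⟨hx, fun h => disjoint_left.1 (p3 i j hne) hxi h⟩
          · exact Or.inl ⟨hx, hxi⟩
        exact (card_le_card h4).trans (card_union_le _ _)
      omega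
    have h5 : Fintype.card (Fin (H + 1)) ≤ Hs.card := by
      rw [← card_univ]
      exact card_le_card_of_injOn g (fun i _ => hg1 i) hinj.injOn
    rw [Fintype.card_fin] at h5
    omega
  -- the reserved elements
  have hch : ∀ u : ι, ∃ v : V, u ∈ G → v ∈ D u := by
    intro u
    by_cases hu : u ∈ G
    · obtain ⟨v, hv⟩ := hDne u hu
      exact ⟨v, fun _ => hv⟩
    · have hne : A.Nonempty := card_pos.1 (by omega)
      exact ⟨hne.choose, fun h => absurd h hu⟩
  choose v hv using hch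
  obtain ⟨Res, hRes⟩ : ∃ Res : Finset V, Res = (G.filter (fun u => (D u).card ≤ c9)).image v := ⟨_, rfl⟩
  have hRc : Res.card ≤ r0 := by
    rw [hRes, hr0]
    exact card_image_le.trans (hGD c9)
  have hRA : Res ⊆ A := by
    intro w hw
    rw [hRes, mem_image] at hw
    obtain ⟨u, hu, rfl⟩ := hw
    have hu' := (mem_filter.1 hu).1
    exact hD u hu' (hv u hu')
  have hPi := p6 i
  have hn2' : (n2 : ℝ) ≤ A.card := by exact_mod_cast (by omega : n2 ≤ A.card)
  have hbig : 4 * ((r0 : ℝ) + 1) ≤ ε * (P i).card := by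
    have h1 := hn2.trans hn2'
    rw [div_le_iff₀ hε] at h1
    have h2 : ε * (1 / (4 * ((H : ℝ) + 1)) * A.card) ≤ ε * (P i).card := mul_le_mul_of_nonneg_left hPi hε.le
    have h3 : ε * (1 / (4 * ((H : ℝ) + 1)) * A.card) = A.card * ε / (4 * (H + 1)) := by
      field_simp
    rw [h3] at h2
    refine le_trans ?_ h2
    rw [le_div_iff₀ (by positivity)]
    nlinarith
  refine ⟨P i ∪ Res, union_subset (p1 i) hRA, ?_, ?_, ?_, ?_⟩
  · have h1 : ((P i).card : ℝ) ≤ (P i ∪ Res).card := by exact_mod_cast card_le_card subset_union_left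
    have h2 : (A.card : ℝ) ≤ 4 * (H + 1) * (P i ∪ Res).card := by
      have h3 : 4 * ((H : ℝ) + 1) * (1 / (4 * (H + 1)) * A.card) ≤ 4 * (H + 1) * (P i ∪ Res).card :=
        mul_le_mul_of_nonneg_left (hPi.trans h1) (by positivity)
      have h4 : 4 * ((H : ℝ) + 1) * (1 / (4 * (H + 1)) * A.card) = A.card := by
        field_simp
      linarith
    exact_mod_cast h2
  · refine Pool.Agent.AEF.rep_change hε (p7 i) (r := r0) ?_ ?_ ?_
    · have : P i \ (P i ∪ Res) = ∅ := by
        rw [sdiff_eq_empty_iff_subset]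
        exact subset_union_left
      rw [this]
      simp
    · refine (card_le_card ?_).trans hRc
      intro w hw
      rw [mem_sdiff, mem_union] at hw
      exact hw.1.resolve_left hw.2
    · linarith
  · intro u hu
    by_cases h9 : (D u).card ≤ c9
    · have h1 : v u ∈ D u ∩ (P i ∪ Res) := by
        rw [mem_inter, mem_union, hRes]
        exact ⟨hv u hu, Or.inr (mem_image.2 ⟨u, mem_filter.2 ⟨hu, h9⟩, rfl⟩)⟩
      refine ⟨⟨_, h1⟩, ?_⟩
      have h2 : 1 ≤ (D u ∩ (P i ∪ Res)).card := card_pos.2 ⟨_, h1⟩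
      calc (D u).card ≤ c9 + 1 := by omega
        _ ≤ max M (c9 + 1) := le_max_right _ _
        _ = max M (c9 + 1) * 1 := (mul_one _).symm
        _ ≤ max M (c9 + 1) * (D u ∩ (P i ∪ Res)).card := Nat.mul_le_mul_left _ h2
    · push Not at h9
      have h1 := p11 u hu h9.le i
      have h2 : (D u ∩ P i).card ≤ (D u ∩ (P i ∪ Res)).card := card_le_card (inter_subset_inter_left subset_union_left)
      have h3 : (D u).card ≤ max M (c9 + 1) * (D u ∩ (P i ∪ Res)).card :=
        h1.trans (Nat.mul_le_mul (le_max_left _ _) h2)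
      refine ⟨?_, h3⟩
      rw [← card_pos]
      by_contra hc'
      have h4 : (D u ∩ (P i ∪ Res)).card = 0 := by omega
      rw [h4, mul_zero] at h3
      omega
  · intro h hh
    have h1 := hi h hh
    have h2 : (E h \ P i).card ≤ (E h \ (P i ∪ Res)).card + r0 := by
      have h3 : E h \ P i ⊆ (E h \ (P i ∪ Res)) ∪ Res := by
        intro x hx
        rw [mem_sdiff] at hx
        rw [mem_union, mem_sdiff, mem_union]
        by_cases hxR : x ∈ Res
        · exact Or.inr hxR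
        · exact Or.inl ⟨hx.1, fun h => h.elim hx.2 hxR⟩
      exact (card_le_card h3).trans ((card_union_le _ _).trans (Nat.add_le_add_left hRc _))
    omega


/-- **Removing vertices from the pool side of a group.** -/
theorem GSd.thin {κ ξ s τ : ℝ} (hκ : 0 < κ) (hκ1 : κ ≤ 1) (hξ : 0 < ξ) (hξ1 : ξ ≤ 1) (hs : 0 < s) (hs1 : s ≤ 1)
    (hτ : 0 < τ) (K e N H Kd : ℕ) : ∃ (M c : ℕ) (κ' s' τ' : ℝ) (K' : ℕ), 1 ≤ M ∧ 0 < κ' ∧ κ' ≤ κ ∧ 0 < s' ∧ s' ≤ s ∧
    0 < τ' ∧ τ' ≤ τ ∧ ∀ cA : ℕ, ∃ n₀ e' : ℕ, ∀ {V : Type} {R : V → V → Prop} {U P ys : Finset V} {t : ℝ},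
      GSd R U P ys κ t s τ K e → ξ * U.card ≤ P.card → n₀ ≤ P.card → ys.card ≤ N →
      ∀ {ι : Type} (G : Finset ι) (D : ι → Finset V), (∀ u ∈ G, D u ⊆ U \ ys) → (∀ u ∈ G, (D u).Nonempty) →
        Pool.Agent.AEF.Graded G D Kd →
      ∀ {ι' : Type} (Hs : Finset ι') (E : ι' → Finset V), Hs.card ≤ H → (∀ h ∈ Hs, E h ⊆ U \ ys) →
        ∃ Q ⊆ U \ ys, (∀ u ∈ G, (D u ∩ Q).Nonempty ∧ (D u).card ≤ M * (D u ∩ Q).card) ∧
          (∀ h ∈ Hs, (E h).card ≤ 2 * (E h \ Q).card + c) ∧
          ∀ S : Finset V, (S ∩ Q).card ≤ cA → Disjoint S ys → GSd R (U \ S) (P \ S) ys κ' t s' τ' K' e' := by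
  obtain ⟨ε, hεd⟩ : ∃ ε : ℝ, ε = κ * (s * ξ) / 4 := ⟨_, rfl⟩
  have hsξ : 0 < s * ξ := by positivity
  have hsξ1 : s * ξ ≤ 1 := by nlinarith
  have hε : 0 < ε := by rw [hεd]; positivity
  have hε1 : ε ≤ κ / 4 := by rw [hεd]; nlinarith
  have hε2 : ε ≤ s * ξ / 4 := by rw [hεd]; nlinarith
  have hε3 : ε ≤ 1 := by linarith
  obtain ⟨T, hT⟩ : ∃ T : ℕ, T = ⌈1 / τ⌉₊ := ⟨_, rfl⟩
  have hT1 : 1 ≤ τ * T := by
    have h1 : 1 / τ ≤ T := by rw [hT]; exact Nat.le_ceil _
    rw [div_le_iff₀ hτ] at h1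
    linarith
  obtain ⟨n₁, M, c, hM, hfree⟩ := exists_free H (Kd + N * (K + e + T)) hε hε3
  obtain ⟨H₁, hH₁⟩ : ∃ H₁ : ℝ, H₁ = 4 * ((H : ℝ) + 1) := ⟨_, rfl⟩
  have hH₁0 : 4 ≤ H₁ := by
    rw [hH₁]
    have : (0 : ℝ) ≤ H := Nat.cast_nonneg _
    linarith
  have hM0 : (1 : ℝ) ≤ M := by exact_mod_cast hM
  refine ⟨M, c, κ / (8 * H₁), s / (4 * H₁), τ / (2 * M), K * M, hM, by positivity, ?_, by positivity, ?_, by positivity,
    ?_, ?_⟩
  · rw [div_le_iff₀ (by positivity)]
    nlinarith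
  · rw [div_le_iff₀ (by positivity)]
    nlinarith
  · rw [div_le_iff₀ (by positivity)]
    nlinarith
  intro cA
  obtain ⟨n₂, hn₂⟩ := exists_nat_ge ((((N : ℝ) + 1) * 4 + 8 * H₁ * (cA + 1)) / (κ * (s * ξ)) + 1 / ξ +
    2 * M * (cA + 1) / τ)
  refine ⟨n₁ + n₂ + N + 2, K * M * cA + e, ?_⟩
  intro V R U P ys t hG hξP hn hys ι G D hD hDne hGD ι' Hs E hHs hE
  have hP0 : (0 : ℝ) < P.card := by
    have : 0 < P.card := by omega
    exact_mod_cast this
  have hU0 : (0 : ℝ) ≤ U.card := Nat.cast_nonneg _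
  have hPU : (P.card : ℝ) ≤ U.card := by exact_mod_cast card_le_card hG.sub
  have hn2' : (n₂ : ℝ) ≤ P.card := by exact_mod_cast (by omega : n₂ ≤ P.card)
  have hc0 : (0 : ℝ) ≤ cA := Nat.cast_nonneg _
  have hN0 : (0 : ℝ) ≤ N := Nat.cast_nonneg _
  have t1 : 0 ≤ (((N : ℝ) + 1) * 4 + 8 * H₁ * (cA + 1)) / (κ * (s * ξ)) := by positivity
  have t2 : 0 ≤ 1 / ξ := by positivity
  have t3 : 0 ≤ 2 * M * ((cA : ℝ) + 1) / τ := by positivity
  have b1 : ((N : ℝ) + 1) * 4 + 8 * H₁ * (cA + 1) ≤ κ * (s * ξ) * P.card := by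
    have h1 : (((N : ℝ) + 1) * 4 + 8 * H₁ * (cA + 1)) / (κ * (s * ξ)) ≤ P.card := by linarith
    rw [div_le_iff₀ (by positivity)] at h1
    linarith
  have b2 : 1 / ξ ≤ P.card := by linarith
  have b3 : 2 * M * ((cA : ℝ) + 1) ≤ τ * P.card := by
    have h1 : 2 * M * ((cA : ℝ) + 1) / τ ≤ P.card := by linarith
    rw [div_le_iff₀ hτ] at h1
    linarith
  have b1a : κ * (s * ξ) * P.card ≤ κ * P.card := by
    apply mul_le_mul_of_nonneg_right _ hP0.le
    nlinarith
  have b1b : κ * (s * ξ) * P.card ≤ s * ξ * P.card := by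
    apply mul_le_mul_of_nonneg_right _ hP0.le
    nlinarith
  have b1c : s * ξ * P.card ≤ s * P.card := by
    apply mul_le_mul_of_nonneg_right _ hP0.le
    nlinarith
  have b1d : κ * P.card ≤ κ * U.card := mul_le_mul_of_nonneg_left hPU hκ.le
  -- the ground set
  obtain ⟨A, hA⟩ : ∃ A, A = U \ ys := ⟨_, rfl⟩
  rw [← hA] at hD hE ⊢
  have hAU : A ⊆ U := by rw [hA]; exact sdiff_subset
  have hPA : P ⊆ A := by
    intro u hu
    rw [hA, mem_sdiff]
    exact ⟨hG.sub hu, fun h => disjoint_left.1 hG.ysP h hu⟩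
  have hPAc : P.card ≤ A.card := card_le_card hPA
  have hAU' : (A.card : ℝ) ≤ U.card := by exact_mod_cast card_le_card hAU
  have hA0 : (0 : ℝ) < A.card := lt_of_lt_of_le hP0 (by exact_mod_cast hPAc)
  have hUA : ∀ F : Finset V, F ⊆ U → F.card ≤ (F ∩ A).card + N := by
    intro F hF
    have h1 : F ⊆ (F ∩ A) ∪ ys := by
      intro x hx
      rw [mem_union, mem_inter, hA, mem_sdiff]
      by_cases hxy : x ∈ ys
      · exact Or.inr hxy
      · exact Or.inl ⟨hx, hF hx, hxy⟩
    exact (card_le_card h1).trans ((card_union_le _ _).trans (Nat.add_le_add_left hys _))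
  have hUPP : U.card ≤ P.card * P.card := by
    have h2 : (U.card : ℝ) ≤ 1 / ξ * P.card := by
      rw [one_div, inv_mul_eq_div, le_div_iff₀ hξ]
      linarith
    have h3 : (U.card : ℝ) ≤ (P.card : ℝ) * P.card := h2.trans (mul_le_mul_of_nonneg_right b2 hP0.le)
    exact_mod_cast h3
  -- the families
  obtain ⟨FA, hF1, hF2, hF3⟩ := rea_family_all (R := R) U P (κ * U.card)
  obtain ⟨Lin, hLin⟩ : ∃ Lin : V → Finset V, Lin = fun y => P.filter (fun w => R y w ∧ Rea R U P (κ * U.card) t w) :=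
    ⟨_, rfl⟩
  obtain ⟨𝓕, h𝓕⟩ : ∃ 𝓕 : Finset (Finset V), 𝓕 = FA ∪ ys.image Lin := ⟨_, rfl⟩
  have h𝓕c : 𝓕.card ≤ A.card ^ 5 := by
    have h1 : 𝓕.card ≤ U.card * U.card + N := by
      rw [h𝓕]
      exact (card_union_le _ _).trans (Nat.add_le_add hF1 (card_image_le.trans hys))
    have h2 : U.card * U.card ≤ A.card ^ 4 := by
      have h3 := Nat.mul_le_mul hUPP hUPP
      have h4 : P.card * P.card * (P.card * P.card) = P.card ^ 4 := by ring
      rw [h4] at h3
      exact h3.trans (Nat.pow_le_pow_left hPAc 4)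
    have h5 : A.card ^ 5 = A.card ^ 4 * A.card := by ring
    have h6 : 1 ≤ A.card ^ 4 := Nat.one_le_pow _ _ (by omega)
    have h7 : A.card ^ 4 * (N + 1) ≤ A.card ^ 4 * A.card := Nat.mul_le_mul_left _ (by omega)
    have h8 : A.card ^ 4 * (N + 1) = A.card ^ 4 * N + A.card ^ 4 := by ring
    have h9 : N ≤ A.card ^ 4 * N := Nat.le_mul_of_pos_left _ (by omega)
    omega
  obtain ⟨G₂, hG₂⟩ : ∃ G₂ : Finset (V × V), G₂ = (ys ×ˢ P).filter (fun p => R p.2 p.1 ∧
      (Dg' R U P (κ * U.card) t p).Nonempty) := ⟨_, rfl⟩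
  have hDgP : ∀ p, Dg' R U P (κ * U.card) t p ⊆ P := fun p => filter_subset _ _
  have hgr : Pool.Agent.AEF.Graded G₂ (Dg' R U P (κ * U.card) t) (N * (K + e + T)) := by
    intro j
    have h1 : G₂.filter (fun p => (Dg' R U P (κ * U.card) t p).card ≤ j) ⊆
        ys.biUnion (fun y => ((P.filter (fun u => R u y ∧ (Dg' R U P (κ * U.card) t (y, u)).card ≤ j)).image
          (fun u => (y, u)))) := by
      intro p hp
      rw [hG₂, mem_filter, mem_filter, mem_product] at hp
      rw [mem_biUnion]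
      refine ⟨p.1, hp.1.1.1, ?_⟩
      rw [mem_image]
      exact ⟨p.2, mem_filter.2 ⟨hp.1.1.2, hp.1.2.1, hp.2⟩, rfl⟩
    have h2 : ∀ y ∈ ys, ((P.filter (fun u => R u y ∧ (Dg' R U P (κ * U.card) t (y, u)).card ≤ j)).image
          (fun u => (y, u))).card ≤ (K + e + T) * (j + 1) := by
      intro y hy
      refine card_image_le.trans ?_
      by_cases hj : (j : ℝ) ≤ τ * P.card
      · have h3 := hG.cnt y hy j hj
        have h4 : (P.filter (fun u => R u y ∧ (Dg' R U P (κ * U.card) t (y, u)).card ≤ j)).card ≤ K * j + e := h3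
        refine h4.trans ?_
        nlinarith [Nat.zero_le (e * j), Nat.zero_le (T * j), Nat.zero_le K, Nat.zero_le T]
      · push Not at hj
        have h3 : (P.filter (fun u => R u y ∧ (Dg' R U P (κ * U.card) t (y, u)).card ≤ j)).card ≤ P.card :=
          card_le_card (filter_subset _ _)
        have h4 : (P.card : ℝ) ≤ T * j := by
          have h5 : (P.card : ℝ) * 1 ≤ P.card * (τ * T) := mul_le_mul_of_nonneg_left hT1 hP0.le
          have h6 : T * (τ * P.card) ≤ T * j := mul_le_mul_of_nonneg_left hj.le (Nat.cast_nonneg _)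
          nlinarith
        have h5 : P.card ≤ T * j := by exact_mod_cast h4
        refine h3.trans (h5.trans ?_)
        nlinarith [Nat.zero_le ((K + e) * j), Nat.zero_le K, Nat.zero_le e, Nat.zero_le T]
    refine (card_le_card h1).trans ((card_biUnion_le_card_mul _ _ _ h2).trans ?_)
    have h3 : N * (K + e + T) * (j + 1) = N * ((K + e + T) * (j + 1)) := by ring
    rw [h3]
    exact Nat.mul_le_mul_right _ hys
  obtain ⟨Q, hQA, hQc, hRep, hkeep, hE'⟩ := hfree A 𝓕 (by omega) h𝓕c (G.disjSum G₂)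
    (Sum.elim D (Dg' R U P (κ * U.card) t)) (by
      intro u hu
      rcases mem_disjSum.1 hu with ⟨x, hx, rfl⟩ | ⟨x, hx, rfl⟩
      · exact hD x hx
      · exact (hDgP x).trans hPA) (by
      intro u hu
      rcases mem_disjSum.1 hu with ⟨x, hx, rfl⟩ | ⟨x, hx, rfl⟩
      · exact hDne x hx
      · rw [hG₂, mem_filter] at hx
        exact hx.2.2) (by
      intro j
      have h1 : (G.disjSum G₂).filter (fun u => (Sum.elim D (Dg' R U P (κ * U.card) t) u).card ≤ j) =
          (G.filter (fun u => (D u).card ≤ j)).disjSum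
            (G₂.filter (fun u => (Dg' R U P (κ * U.card) t u).card ≤ j)) := by
        ext u
        rw [mem_filter, mem_disjSum, mem_disjSum]
        constructor
        · rintro ⟨⟨x, hx, rfl⟩ | ⟨x, hx, rfl⟩, h⟩
          · exact Or.inl ⟨x, mem_filter.2 ⟨hx, h⟩, rfl⟩
          · exact Or.inr ⟨x, mem_filter.2 ⟨hx, h⟩, rfl⟩
        · rintro (⟨x, hx, rfl⟩ | ⟨x, hx, rfl⟩)
          · exact ⟨Or.inl ⟨x, (mem_filter.1 hx).1, rfl⟩, (mem_filter.1 hx).2⟩
          · exact ⟨Or.inr ⟨x, (mem_filter.1 hx).1, rfl⟩, (mem_filter.1 hx).2⟩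
      rw [h1, card_disjSum]
      have h2 := hGD j
      have h3 := hgr j
      have h4 : (Kd + N * (K + e + T)) * (j + 1) = Kd * (j + 1) + N * (K + e + T) * (j + 1) := by ring
      omega) Hs E hHs hE
  have hQc' : (A.card : ℝ) ≤ H₁ * Q.card := by
    rw [hH₁]
    exact_mod_cast hQc
  have hQ0 : (0 : ℝ) ≤ Q.card := Nat.cast_nonneg _
  -- members of the family are kept
  have key : ∀ F ∈ 𝓕, 2 * ε * A.card ≤ ((F ∩ A).card : ℝ) → ((F ∩ A).card : ℝ) ≤ 2 * H₁ * (F ∩ Q).card := by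
    intro F hF hFA
    have h1 := hRep F hF
    have h2 : ε ≤ ((F ∩ A).card : ℝ) / A.card / 2 := by
      rw [div_div, le_div_iff₀ (by positivity)]
      linarith
    have h3 : ((F ∩ A).card : ℝ) / A.card / 2 * Q.card ≤ (((F ∩ A).card : ℝ) / A.card - ε) * Q.card :=
      mul_le_mul_of_nonneg_right (by linarith) hQ0
    have h4 : ((F ∩ A).card : ℝ) / A.card / 2 * Q.card ≤ (F ∩ Q).card := h3.trans h1
    have h5 : ((F ∩ A).card : ℝ) / A.card / 2 * Q.card * (2 * H₁) ≤ (F ∩ Q).card * (2 * H₁) :=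
      mul_le_mul_of_nonneg_right h4 (by positivity)
    have h6 : ((F ∩ A).card : ℝ) / A.card / 2 * Q.card * (2 * H₁) = ((F ∩ A).card : ℝ) / A.card * (H₁ * Q.card) := by
      ring
    have h7 : ((F ∩ A).card : ℝ) / A.card * A.card ≤ ((F ∩ A).card : ℝ) / A.card * (H₁ * Q.card) :=
      mul_le_mul_of_nonneg_left hQc' (by positivity)
    have h8 : ((F ∩ A).card : ℝ) / A.card * A.card = (F ∩ A).card := by
      field_simp
    linarith
  refine ⟨Q, hQA, fun u hu => hkeep (Sum.inl u) (mem_disjSum.2 (Or.inl ⟨u, hu, rfl⟩)), hE', ?_⟩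
  intro S hSQ hSys
  have hSQ' : ∀ F : Finset V, (F ∩ Q).card ≤ (F \ S ∩ Q).card + cA := by
    intro F
    have h1 : F ∩ Q ⊆ (F \ S ∩ Q) ∪ (S ∩ Q) := by
      intro x hx
      rw [mem_inter] at hx
      rw [mem_union, mem_inter, mem_sdiff, mem_inter]
      by_cases hxS : x ∈ S
      · exact Or.inr ⟨hxS, hx.2⟩
      · exact Or.inl ⟨⟨hx.1, hxS⟩, hx.2⟩
    exact (card_le_card h1).trans ((card_union_le _ _).trans (Nat.add_le_add_left hSQ _))
  have hUS : ((U \ S).card : ℝ) ≤ U.card := by exact_mod_cast card_le_card sdiff_subset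
  have hPS : ((P \ S).card : ℝ) ≤ P.card := by exact_mod_cast card_le_card sdiff_subset
  -- reach
  have hrea : ∀ w ∈ U, Rea R U P (κ * U.card) t w → Rea R (U \ S) (P \ S) (κ / (8 * H₁) * (U \ S).card) t w := by
    intro w hw hR
    refine hF3 w hw t hR S _ ?_
    intro F hF
    obtain ⟨hFU, hFk⟩ := hF2 F hF
    have h1 : (F.card : ℝ) ≤ (F ∩ A).card + N := by exact_mod_cast hUA F hFU
    have h2 : κ * U.card / 2 ≤ (F ∩ A).card := by nlinarith
    have h2' : 2 * ε * A.card ≤ ((F ∩ A).card : ℝ) := by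
      have h3 : 2 * ε * A.card ≤ κ / 2 * U.card := by
        have h4 : 2 * ε * A.card ≤ κ / 2 * A.card := mul_le_mul_of_nonneg_right (by linarith) hA0.le
        have h5 : κ / 2 * A.card ≤ κ / 2 * U.card := mul_le_mul_of_nonneg_left hAU' (by positivity)
        linarith
      linarith
    have h3 := key F (by rw [h𝓕]; exact mem_union_left _ hF) h2'
    have h4 : ((F ∩ Q).card : ℝ) ≤ (F \ S ∩ Q).card + cA := by exact_mod_cast hSQ' F
    have h5 : ((F \ S ∩ Q).card : ℝ) ≤ (F \ S).card := by exact_mod_cast card_le_card inter_subset_left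
    have h6 : 2 * H₁ * (F ∩ Q).card ≤ 2 * H₁ * ((F \ S).card + cA) := mul_le_mul_of_nonneg_left (by linarith) (by positivity)
    have h7 : κ * U.card / 2 ≤ 2 * H₁ * ((F \ S).card + cA) := h2.trans (h3.trans h6)
    have h8 : κ / (8 * H₁) * (U \ S).card ≤ κ / (8 * H₁) * U.card := mul_le_mul_of_nonneg_left hUS (by positivity)
    refine h8.trans ?_
    have h9 : κ / (8 * H₁) * U.card = κ * U.card / (8 * H₁) := by ring
    rw [h9, div_le_iff₀ (by positivity)]
    have h10 : 8 * H₁ * ((cA : ℝ) + 1) ≤ κ * U.card := by nlinarith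
    nlinarith
  have hκ2 : κ / (8 * H₁) * (U \ S).card ≤ κ / (8 * H₁) * (U \ S).card := le_rfl
  refine ⟨sdiff_subset_sdiff hG.sub (Subset.refl _), ?_, ?_, ?_, ?_, ?_⟩
  · intro y hy
    exact mem_sdiff.2 ⟨hG.ysU hy, fun h => disjoint_left.1 hSys h hy⟩
  · exact disjoint_of_subset_right sdiff_subset hG.ysP
  · intro y hy
    exact hrea y (hG.ysU hy) (hG.reach y hy)
  · intro y hy
    have h1 := hG.lin y hy
    have hLP : Lin y ⊆ P := by rw [hLin]; exact filter_subset _ _
    have h1' : s * P.card ≤ ((Lin y).card : ℝ) := by rw [hLin]; exact h1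
    have hLA : Lin y ∩ A = Lin y := inter_eq_left.2 (hLP.trans hPA)
    have h2 : 2 * ε * A.card ≤ ((Lin y ∩ A).card : ℝ) := by
      rw [hLA]
      have h3 : 2 * ε * A.card ≤ s * ξ / 2 * A.card := mul_le_mul_of_nonneg_right (by linarith) hA0.le
      have h4 : s * ξ / 2 * A.card ≤ s * ξ / 2 * U.card := mul_le_mul_of_nonneg_left hAU' (by positivity)
      have h5 : s * (ξ * U.card) ≤ s * P.card := mul_le_mul_of_nonneg_left hξP hs.le
      have h6 : 0 ≤ s * ξ * U.card := by positivity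
      linarith
    have h3 := key (Lin y) (by rw [h𝓕]; exact mem_union_right _ (mem_image_of_mem _ hy)) h2
    rw [hLA] at h3
    have h4 : ((Lin y ∩ Q).card : ℝ) ≤ (Lin y \ S ∩ Q).card + cA := by exact_mod_cast hSQ' (Lin y)
    have h5 : ((Lin y \ S ∩ Q).card : ℝ) ≤ (((P \ S).filter (fun w => R y w ∧
        Rea R (U \ S) (P \ S) (κ / (8 * H₁) * (U \ S).card) t w)).card : ℝ) := by
      apply Nat.cast_le.2
      apply card_le_card
      intro w hw
      rw [mem_inter, mem_sdiff, hLin, mem_filter] at hw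
      rw [mem_filter, mem_sdiff]
      exact ⟨⟨hw.1.1.1, hw.1.2⟩, hw.1.1.2.1, hrea w (hG.sub hw.1.1.1) hw.1.1.2.2⟩
    refine le_trans ?_ h5
    have h6 : s / (4 * H₁) * (P \ S).card ≤ s / (4 * H₁) * P.card := mul_le_mul_of_nonneg_left hPS (by positivity)
    refine h6.trans ?_
    have h7 : s / (4 * H₁) * P.card = s * P.card / (4 * H₁) := by ring
    rw [h7, div_le_iff₀ (by positivity)]
    have h8 : 8 * H₁ * ((cA : ℝ) + 1) ≤ s * P.card := by nlinarith
    have h9 : 2 * H₁ * (Lin y ∩ Q).card ≤ 2 * H₁ * ((Lin y \ S ∩ Q).card + cA) :=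
      mul_le_mul_of_nonneg_left h4 (by positivity)
    nlinarith
  · intro y hy j hj
    have hj' : ((M * (j + cA) : ℕ) : ℝ) ≤ τ * P.card := by
      push_cast
      have h1 : (j : ℝ) ≤ τ / (2 * M) * P.card := hj.trans (mul_le_mul_of_nonneg_left hPS (by positivity))
      have h2 : M * (j : ℝ) ≤ τ / 2 * P.card := by
        have h3 : M * (j : ℝ) ≤ M * (τ / (2 * M) * P.card) := mul_le_mul_of_nonneg_left h1 (by positivity)
        have h4 : M * (τ / (2 * M) * P.card) = τ / 2 * P.card := by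
          field_simp
        linarith
      have h3 : M * (cA : ℝ) ≤ τ / 2 * P.card := by nlinarith
      nlinarith
    have h1 := hG.cnt y hy (M * (j + cA)) hj'
    have h2 : K * (M * (j + cA)) + e = K * M * j + (K * M * cA + e) := by ring
    rw [h2] at h1
    refine (card_le_card ?_).trans h1
    intro u hu
    rw [mem_filter, mem_sdiff] at hu
    rw [mem_filter]
    refine ⟨hu.1.1, hu.2.1, ?_⟩
    by_cases hne : (Dg' R U P (κ * U.card) t (y, u)).Nonempty
    · have hmem : (Sum.inr (y, u) : ι ⊕ (V × V)) ∈ G.disjSum G₂ := by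
        refine mem_disjSum.2 (Or.inr ⟨(y, u), ?_, rfl⟩)
        rw [hG₂, mem_filter, mem_product]
        exact ⟨⟨hy, hu.1.1⟩, hu.2.1, hne⟩
      have h3 := (hkeep _ hmem).2
      have h3' : (Dg' R U P (κ * U.card) t (y, u)).card ≤ M * (Dg' R U P (κ * U.card) t (y, u) ∩ Q).card := h3
      have h4 := hSQ' (Dg' R U P (κ * U.card) t (y, u))
      have h5 : (Dg' R U P (κ * U.card) t (y, u) \ S ∩ Q).card ≤ j := by
        refine (card_le_card ?_).trans hu.2.2
        intro w hw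
        rw [mem_inter, mem_sdiff, Dg', mem_filter] at hw
        rw [mem_filter, mem_sdiff]
        exact ⟨⟨hw.1.1.1, hw.1.2⟩, hw.1.1.2.1, hw.1.1.2.2.1, hrea w (hG.sub hw.1.1.1) hw.1.1.2.2.2⟩
      exact h3'.trans (Nat.mul_le_mul_left _ (by omega))
    · rw [not_nonempty_iff_eq_empty] at hne
      have : (P.filter (fun w => R y w ∧ R w u ∧ Rea R U P (κ * U.card) t w)) = ∅ := hne
      rw [this]
      simp

end AEG
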