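import Pool.Agent.AEG.DefsC
import Pool.Agent.AEG.ThinM
import Pool.Agent.AEG.GCut

/-!
# The concrete state with a critical group

`CapL`: the ladder of capacities; `StC`: the state; `GSd.add`: vertices of small in-degree are added to the pool.
-/

set_option autoImplicit false

namespace AEG

open Finset AE15 AED AEB SPD
open scoped Classical

/-- `h` has `m` in-neighbours in `Z`, or `c` in-neighbours in `X` which have `m` in-neighbours in `Z` -/
def CapL {V : Type} (R : V → V → Prop) (X Z : Finset V) (m c : ℕ) (h : V) : Prop :=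
  m ≤ (nI R Z h).card ∨ c ≤ (X.filter (fun x => R x h ∧ m ≤ (nI R Z x).card)).card

theorem CapL.mono {V : Type} {R : V → V → Prop} {X X' Z Z' : Finset V} {m m' c c' : ℕ} {h : V}
    (hc : CapL R X Z m c h) (hX : X ⊆ X') (hZ : Z ⊆ Z') (hm : m' ≤ m) (hcc : c' ≤ c) : CapL R X' Z' m' c' h := by
  rcases hc with hc | hc
  · exact Or.inl (hm.trans (hc.trans (card_le_card (nI_mono hZ))))
  · refine Or.inr (hcc.trans (hc.trans (card_le_card ?_)))
    intro x hx
    rw [mem_filter] at hx ⊢
    exact ⟨hX hx.1, hx.2.1, hm.trans (hx.2.2.trans (card_le_card (nI_mono hZ)))⟩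

/-- **The state with a critical group.** `P`: the pool, `X`: the other free vertices, `E`: its exceptional set, `U`: the
ambient set of the pool, `ys`: the hosts of the group, `y`: the last one, `Fx`: vertices without capacity -/
structure StC {V : Type} (R : V → V → Prop) (P X E U Fx : Finset V) (ys : List V) (y : V) (κp ξp sp τp ηp : ℝ)
    (Kp ep : ℕ) (κ η s : ℝ) (f K cF cc lam w bb le : ℕ) : Prop where
  dis : Disjoint P X
  hys : ∀ z ∈ ys, z ∉ P ∧ z ∉ X
  subU : U ⊆ P ∪ X ∪ ys.toFinset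
  side : ∃ t : ℝ, t ≤ ηp * P.card ∧ GSd (rv R) U P ys.toFinset κp t sp τp Kp ep
  cardU : ξp * U.card ≤ P.card
  nodup : ys.Nodup
  chain : ys.IsChain R
  last : ys.getLast? = some y
  st : StE R X E (R y) κ η s lam 0 f w K le
  cF : Fx.card ≤ cF
  cap : ∀ h ∈ X, h ∉ Fx → CapL R X (P ∪ X) bb cc h

/-- weaker constants -/
theorem GSd.mono {V : Type} {R : V → V → Prop} {U P ys : Finset V} {κ κ' t t' s s' τ τ' : ℝ} {K K' e e' : ℕ}
    (h : GSd R U P ys κ t s τ K e) (h1 : κ' ≤ κ) (h2 : t ≤ t') (h3 : s' ≤ s) (h4 : τ' ≤ τ) (h5 : K ≤ K')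
    (h6 : e ≤ e') : GSd R U P ys κ' t' s' τ' K' e' := by
  have hk : κ' * (U.card : ℝ) ≤ κ * U.card := mul_le_mul_of_nonneg_right h1 (Nat.cast_nonneg _)
  have hr : ∀ w, Rea R U P (κ * U.card) t w → Rea R U P (κ' * U.card) t' w := fun w hw => AECut.rea_mono hw hk h2
  refine ⟨h.sub, h.ysU, h.ysP, fun y hy => hr y (h.reach y hy), fun y hy => ?_, fun y hy j hj => ?_⟩
  · refine (mul_le_mul_of_nonneg_right h3 (Nat.cast_nonneg _)).trans ((h.lin y hy).trans ?_)
    apply Nat.cast_le.2
    apply card_le_card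
    intro w hw
    rw [mem_filter] at hw ⊢
    exact ⟨hw.1, hw.2.1, hr w hw.2.2⟩
  · refine (card_le_card ?_).trans ((h.cnt y hy j (hj.trans (mul_le_mul_of_nonneg_right h4 (Nat.cast_nonneg _)))).trans
      (Nat.add_le_add (Nat.mul_le_mul_right _ h5) h6))
    intro u hu
    rw [mem_filter] at hu ⊢
    refine ⟨hu.1, hu.2.1, (card_le_card ?_).trans hu.2.2⟩
    intro w hw
    rw [mem_filter] at hw ⊢
    exact ⟨hw.1, hw.2.1, hw.2.2.1, hr w hw.2.2.2⟩

/-- **Vertices of small out-degree are added to the pool** -/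
theorem GSd.add {V : Type} {R : V → V → Prop} (hT : AE32.Tour R) {U P ys W : Finset V} {κ t s τ : ℝ} {K e T : ℕ}
    (h : GSd R U P ys κ t s τ K e) (hκ : 0 ≤ κ) (hs : 0 ≤ s) (hWy : Disjoint W ys) (hWP : Disjoint W P)
    (hW : ∀ w ∈ W, (nO R P w).card < T)
    (hWc : ((W.card + T : ℕ) : ℝ) ≤ s / 4 * P.card) (hs1 : s ≤ 1) :
    GSd R (U ∪ W) (P ∪ W) ys (κ / 2) (t + W.card) (s / 2) (min (τ / 2) (s / 4)) K e := by
  have hP0 : (0 : ℝ) ≤ P.card := Nat.cast_nonneg _
  have hPU : (P.card : ℝ) ≤ U.card := by exact_mod_cast card_le_card h.sub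
  push_cast at hWc
  have hT0 : (0 : ℝ) ≤ T := Nat.cast_nonneg _
  have hW0 : (0 : ℝ) ≤ W.card := Nat.cast_nonneg _
  have hsP : s / 4 * (P.card : ℝ) ≤ 1 / 4 * P.card := mul_le_mul_of_nonneg_right (by linarith) hP0
  have hWP' : (W.card : ℝ) ≤ P.card := by linarith
  have hUW : ((U ∪ W).card : ℝ) ≤ 2 * U.card := by
    have h1 : ((U ∪ W).card : ℝ) ≤ U.card + W.card := by exact_mod_cast card_union_le U W
    linarith
  have hPW : ((P ∪ W).card : ℝ) ≤ 2 * P.card := by
    have h1 : ((P ∪ W).card : ℝ) ≤ P.card + W.card := by exact_mod_cast card_union_le P W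
    linarith
  have hk : κ / 2 * ((U ∪ W).card : ℝ) ≤ κ * U.card := by
    have := mul_le_mul_of_nonneg_left hUW (by linarith : 0 ≤ κ / 2)
    linarith
  have hr : ∀ w, Rea R U P (κ * U.card) t w → Rea R (U ∪ W) (P ∪ W) (κ / 2 * (U ∪ W).card) (t + W.card) w := by
    intro w hw
    obtain ⟨Z, h1, h2⟩ := AECut.rea_mono (rea_univ hw (subset_union_left (s₂ := W))) hk le_rfl
    refine ⟨Z, h1, ?_⟩
    have h3 : (P ∪ W) \ Z ⊆ (P \ Z) ∪ W := by
      intro x hx
      rw [mem_sdiff, mem_union] at hx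
      rw [mem_union, mem_sdiff]
      tauto
    have h4 : (((P ∪ W) \ Z).card : ℝ) ≤ (P \ Z).card + W.card := by
      exact_mod_cast (card_le_card h3).trans (card_union_le _ _)
    linarith
  refine ⟨union_subset_union h.sub (Subset.refl _), h.ysU.trans subset_union_left, ?_, fun y hy => hr y (h.reach y hy),
    fun y hy => ?_, fun y hy j hj => ?_⟩
  · rw [disjoint_union_right]
    exact ⟨h.ysP, hWy.symm⟩
  · have h1 := h.lin y hy
    have h2 : ((P.filter (fun w => R y w ∧ Rea R U P (κ * U.card) t w)).card : ℝ) ≤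
        (((P ∪ W).filter (fun w => R y w ∧ Rea R (U ∪ W) (P ∪ W) (κ / 2 * (U ∪ W).card) (t + W.card) w)).card : ℝ) := by
      apply Nat.cast_le.2
      apply card_le_card
      intro w hw
      rw [mem_filter] at hw ⊢
      exact ⟨mem_union_left _ hw.1, hw.2.1, hr w hw.2.2⟩
    have h3 : s / 2 * ((P ∪ W).card : ℝ) ≤ s / 2 * (2 * P.card) := mul_le_mul_of_nonneg_left hPW (by linarith)
    linarith
  · have hj1 : (j : ℝ) ≤ τ * P.card ∨ P.card = 0 ∧ j = 0 := by
      by_cases h0 : P.card = 0
      · right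
        refine ⟨h0, ?_⟩
        have h1 : ((P ∪ W).card : ℝ) ≤ 0 := by
          rw [h0] at hPW
          simpa using hPW
        have h2 : ((P ∪ W).card : ℝ) = 0 := le_antisymm h1 (Nat.cast_nonneg _)
        rw [h2, mul_zero] at hj
        exact_mod_cast le_antisymm hj (Nat.cast_nonneg _)
      · left
        by_cases hτ0 : 0 ≤ τ
        · have h1 : min (τ / 2) (s / 4) * ((P ∪ W).card : ℝ) ≤ τ / 2 * (P ∪ W).card :=
            mul_le_mul_of_nonneg_right (min_le_left _ _) (Nat.cast_nonneg _)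
          have h2 := mul_le_mul_of_nonneg_left hPW (by linarith : 0 ≤ τ / 2)
          linarith
        · exfalso
          push Not at hτ0
          have h1 : min (τ / 2) (s / 4) < 0 := lt_of_le_of_lt (min_le_left _ _) (by linarith)
          have h2 : (0 : ℝ) < (P ∪ W).card := by
            have : 0 < P.card := by omega
            have h3 : P.card ≤ (P ∪ W).card := card_le_card subset_union_left
            exact_mod_cast lt_of_lt_of_le this h3
          have h3 := mul_neg_of_neg_of_pos h1 h2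
          have h4 : (0 : ℝ) ≤ j := Nat.cast_nonneg _
          linarith
    have hj2 : (j : ℝ) ≤ s / 2 * P.card := by
      have h1 : min (τ / 2) (s / 4) * ((P ∪ W).card : ℝ) ≤ s / 4 * (P ∪ W).card :=
        mul_le_mul_of_nonneg_right (min_le_right _ _) (Nat.cast_nonneg _)
      have h2 := mul_le_mul_of_nonneg_left hPW (by linarith : 0 ≤ s / 4)
      linarith
    have hcnt : (P.filter (fun u => R u y ∧ (P.filter (fun w => R y w ∧ R w u ∧
        Rea R U P (κ * U.card) t w)).card ≤ j)).card ≤ K * j + e := by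
      rcases hj1 with hj1 | ⟨h0, hj0⟩
      · exact h.cnt y hy j hj1
      · rw [card_eq_zero] at h0
        simp [h0]
    refine (card_le_card ?_).trans hcnt
    intro u hu
    rw [mem_filter] at hu ⊢
    obtain ⟨hu1, hu2, hu3⟩ := hu
    have hsub : P.filter (fun w => R y w ∧ R w u ∧ Rea R U P (κ * U.card) t w) ⊆
        (P ∪ W).filter (fun w => R y w ∧ R w u ∧ Rea R (U ∪ W) (P ∪ W) (κ / 2 * (U ∪ W).card) (t + W.card) w) := by
      intro w hw
      rw [mem_filter] at hw ⊢
      exact ⟨mem_union_left _ hw.1, hw.2.1, hw.2.2.1, hr w hw.2.2.2⟩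
    rcases mem_union.1 hu1 with h1 | h1
    · exact ⟨h1, hu2, (card_le_card hsub).trans hu3⟩
    · exfalso
      have h2 := h.lin y hy
      have h3 : P.filter (fun w => R y w ∧ Rea R U P (κ * U.card) t w) ⊆
          P.filter (fun w => R y w ∧ R w u ∧ Rea R U P (κ * U.card) t w) ∪ (nO R P u) := by
        intro w hw
        rw [mem_filter] at hw
        rw [mem_union, mem_filter, mem_nO]
        have hwu : w ≠ u := by
          rintro rfl
          exact disjoint_left.1 hWP h1 hw.1
        rcases hT.tot w u hwu with h4 | h4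
        · exact Or.inl ⟨hw.1, hw.2.1, h4, hw.2.2⟩
        · exact Or.inr ⟨hw.1, h4⟩
      have h4 := (card_le_card h3).trans (card_union_le _ _)
      have h5 := (card_le_card hsub).trans hu3
      have h6 := hW u h1
      have h7 : ((P.filter (fun w => R y w ∧ Rea R U P (κ * U.card) t w)).card : ℝ) < j + T := by
        exact_mod_cast (by omega : (P.filter (fun w => R y w ∧ Rea R U P (κ * U.card) t w)).card < j + T)
      have h8 : s * (P.card : ℝ) < s / 2 * P.card + s / 4 * P.card := by linarith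
      have h9 : s * (P.card : ℝ) = s / 2 * P.card + s / 4 * P.card + s / 4 * P.card := by ring
      have h10 : 0 ≤ s / 4 * (P.card : ℝ) := by positivity
      linarith

end AEG
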