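import Pool.Agent.AEG.P2F
import Pool.Agent.AEG.P2T
import Pool.Agent.AEG.StC

/-!
# The side of the structure at a critical group
-/

set_option autoImplicit false

namespace AEG

open Finset AE15 AED AEB SPD
open scoped Classical

/-- **The side of the structure at a critical group.** `Pp` is the part (which stays open), `PZ` the protected set. -/
theorem stc_core (p : NP) (hp : p.OK) (hab : ab p.b p.l ≤ p.a) {D₀ : ℕ} (hD₀ : p.A ≤ D₀)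
    {ω c η η₁ κ₀ κ₁ κ γ₀ τ s σ₂ μ : ℝ} (P : KB D₀ ω c η η₁ κ₀ κ₁ κ γ₀ τ s σ₂ μ) {D₀' : ℕ} (hD₀' : p.A ≤ D₀')
    {ω' c' η' η₁' κ₀' κ₁' κ' γ₀' τ' s' σ₂' μ' : ℝ} (P' : KB D₀' ω' c' η' η₁' κ₀' κ₁' κ' γ₀' τ' s' σ₂' μ')
    {κg ηg γ ζ η₂ : ℝ} (hκg : 0 < κg) (hηg : 0 < ηg) (hγ : 0 < γ) (hγ1 : γ ≤ 1) (hζ : 0 < ζ)
    (hζω : 2 * ω' ≤ ζ) (hη₂ : 0 < η₂) (hg1 : 8 * ηg ≤ c * η') (hg2 : 8 * ηg ≤ c * (c' * η₂)) (N Kd : ℕ) :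
    ∃ κ₂ s₂ : ℝ, 0 < κ₂ ∧ 0 < s₂ ∧ ∀ {κU : ℝ}, 0 < κU → 2 * κU ≤ κ → ∃ (δ : ℝ) (Mt Ct K₁ C₁ C : ℕ), 0 < δ ∧ 1 ≤ Mt ∧
      ∀ {V : Type} {R : V → V → Prop}, AE32.Tour R → ∀ {X X₀ Y Dz PZ Pp E Bp : Finset V} {y : V}
        (bb cc lam' w₁ f le : ℕ) (os₁ os₂ : List (V × Fd)), C ≤ X.card → Y ⊆ X → X₀ ⊆ X → os₁.length ≤ N →
        os₂.length ≤ N →
        (∀ q ∈ os₁, q.1 ∈ X ∧ q.1 ∉ X₀ ∧ GdU R κU η X Y q.1 ∧ FOK p.b p.l 0 q.2 ∧ ∀ t ∈ q.2.trees, t.1 = true) →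
        (∀ q ∈ os₂, q.1 ∈ X ∧ q.1 ∉ X₀ ∧ Good R κg ηg X q.1 ∧ FOK p.b p.l 0 q.2 ∧ ∀ t ∈ q.2.trees, t.1 = true) →
        X₀ \ Y ⊆ PZ → X₀.filter (fun v => (nI R X₀ v).card < Mt * (bb + lam') + Ct) ⊆ PZ → PZ ⊆ X₀ →
        ((PZ.card + (X \ X₀).card + (X \ Y).card : ℕ) : ℝ) ≤ δ * X.card →
        Dz ⊆ Y → Dz ⊆ X₀ → (∀ v ∈ Dz, R y v ∧ Good R κg ηg X v) → γ * X.card ≤ Dz.card →
        (∀ v ∈ Dz, v ∈ PZ → lam' ≤ (nI R PZ v).card) → E ⊆ PZ → Bp ⊆ PZ → (∀ v ∈ Bp, Good R κg ηg X v) →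
        (∀ u ∈ E, le ≤ (Bp.filter (fun v => v ∉ E ∧ R v u ∧ lam' ≤ (nI R PZ v).card)).card) →
        (∀ j : ℕ, ((X₀ \ E).filter (fun u => ¬ R y u ∧ (nI R Dz u).card ≤ j)).card ≤ w₁ + Kd * (j + 1)) →
        (∀ j : ℕ, (X₀.filter (fun h => (nI R (Pp ∪ PZ) h).card < bb ∧ (nI R (X₀ \ PZ) h).card ≤ j)).card ≤
          Kd * (j + 1)) →
        (totB os₁ : ℝ) + C ≤ (1 - ω) * Y.card → ((totB os₁ + totB os₂ : ℕ) : ℝ) + ζ * X.card ≤ Y.card →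
        ∃ S₁ S₂ Fx : Finset V, EmbAllB R os₁ S₁ ∧ EmbAllB R os₂ S₂ ∧ S₁ ⊆ X₀ ∧ S₂ ⊆ X₀ ∧ Disjoint S₁ S₂ ∧
          Disjoint (S₁ ∪ S₂) PZ ∧ StE R (X₀ \ (S₁ ∪ S₂)) E (R y) κ₂ η₂ s₂ lam' 0 f (w₁ + C₁) K₁ le ∧
          Fx.card ≤ K₁ * cc + C₁ ∧
          ∀ h ∈ X₀ \ (S₁ ∪ S₂), h ∉ Fx → CapL R (X₀ \ (S₁ ∪ S₂)) (Pp ∪ (X₀ \ (S₁ ∪ S₂))) bb cc h := by
  obtain ⟨κ₂, s₂, hκ₂, hs₂, h2⟩ := p2F2 p hp hab hD₀ P hD₀' P' hκg hηg hγ hζ hζω hη₂ hg1 hg2 N Kd 2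
  refine ⟨κ₂, s₂, hκ₂, hs₂, ?_⟩
  intro κU hU0 hUκ
  obtain ⟨δ, Mt, Ct, K₁, C₁, C, hδ, hMt, h2⟩ := h2 hU0 hUκ
  refine ⟨δ, Mt, Ct, K₁, C₁, C, hδ, hMt, ?_⟩
  intro V R hT X X₀ Y Dz PZ Pp E Bp y bb cc lam' w₁ f le os₁ os₂ hCX hYX hX₀X hl₁ hl₂ hos₁ hos₂ hPY hPlow hPX hsm hDY hDX
    hDg hDc hDT hEP hBP hBg hthr hcnt₁ hcnt₂ hsz₁ hsz₂
  obtain ⟨G₂, hG₂⟩ : ∃ G₂, G₂ = X₀.filter (fun h => (nI R (Pp ∪ PZ) h).card < bb) := ⟨_, rfl⟩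
  obtain ⟨G₁, hG₁⟩ : ∃ G₁, G₁ = (X₀ \ E).filter (fun u => ¬ R y u) := ⟨_, rfl⟩
  obtain ⟨S₁, S₂, e1, e2, e3, e4, e5, e6, e6', e7, e8, e9, e10⟩ := h2 hT (X := X) (X₀ := X₀) (Y := Y) (PZ := PZ)
    ![G₁, G₂] ![fun u => nI R Dz u, fun h => nI R (X₀ \ PZ) h] ![w₁, 0] {Dz} (bb + lam') os₁ os₂ hCX hYX hX₀X hl₁ hl₂
    hos₁ hos₂ hPY hPlow hPX hsm (by
      rw [Fin.forall_fin_two]
      refine ⟨fun u _ => ⟨nI_sub.trans hDY, nI_sub.trans hDX⟩, fun u _ => ⟨?_, nI_sub.trans sdiff_subset⟩⟩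
      refine nI_sub.trans ?_
      intro x hx
      rw [mem_sdiff] at hx
      by_contra h
      exact hx.2 (hPY (mem_sdiff.2 ⟨hx.1, h⟩))) (by
      rw [Fin.forall_fin_two]
      refine ⟨fun j => ?_, fun j => ?_⟩
      · show (G₁.filter (fun u => (nI R Dz u).card ≤ j)).card ≤ w₁ + Kd * (j + 1)
        rw [hG₁, filter_filter]
        exact hcnt₁ j
      · show (G₂.filter (fun h => (nI R (X₀ \ PZ) h).card ≤ j)).card ≤ 0 + Kd * (j + 1)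
        rw [hG₂, filter_filter, zero_add]
        exact hcnt₂ j) (by simp) (by
      intro F hF
      rw [mem_singleton] at hF
      rw [hF]
      exact ⟨hDX, hDc⟩) hsz₁ hsz₂
  obtain ⟨X', hX'⟩ : ∃ X', X' = X₀ \ (S₁ ∪ S₂) := ⟨_, rfl⟩
  rw [← hX'] at e7 e8 e9 e10
  have hX'm : ∀ v, v ∈ X' ↔ v ∈ X₀ ∧ v ∉ S₁ ∪ S₂ := by
    intro v
    rw [hX', mem_sdiff]
  have hS : Disjoint (S₁ ∪ S₂) PZ := disjoint_union_left.2 ⟨e5, e6⟩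
  have hPZX' : PZ ⊆ X' := fun v hv => (hX'm v).2 ⟨hPX hv, fun h => disjoint_left.1 hS h hv⟩
  have hX'S₁ : ∀ v ∈ X', v ∉ S₁ := fun v hv h => ((hX'm v).1 hv).2 (mem_union_left _ h)
  have hcgm : ∀ v ∈ Dz, v ∈ X' → v ∈ cg R X' ∅ (R y) κ₂ η₂ lam' := by
    intro v hv hvX
    rw [mem_cg, union_empty]
    obtain ⟨h1, h3⟩ := hDg v hv
    refine ⟨hvX, h1, e7 v (hX₀X (hDX hv)) (hX'S₁ v hvX) h3, ?_⟩
    by_cases hvP : v ∈ PZ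
    · exact (hDT v hv hvP).trans (card_le_card (nI_mono hPZX'))
    · exact (Nat.le_add_left _ _).trans (e9 v hvX hvP)
  have e10' : (∀ j, (G₁.filter (fun u => (nI R Dz u ∩ X').card ≤ j)).card ≤ w₁ + (K₁ * j + C₁)) ∧
      ∀ j, (G₂.filter (fun h => (nI R (X₀ \ PZ) h ∩ X').card ≤ j)).card ≤ 0 + (K₁ * j + C₁) := by
    rw [Fin.forall_fin_two] at e10
    exact e10
  refine ⟨S₁, S₂, G₂.filter (fun h => (nI R (X₀ \ PZ) h ∩ X').card ≤ cc), e1, e2, e3, e4, e6', hS, ?_, ?_, ?_⟩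
  · rw [← hX']
    refine ⟨hEP.trans hPZX', ?_, ?_, ?_⟩
    · refine (e8 Dz (mem_singleton_self _)).trans ?_
      apply Nat.cast_le.2
      apply card_le_card
      intro v hv
      rw [mem_inter] at hv
      exact hcgm v hv.1 hv.2
    · intro j _
      have h3 : (X' \ E).filter (fun u => ¬ R y u ∧ 0 ≤ (nI R X' u).card ∧
          (nI R (cg R X' ∅ (R y) κ₂ η₂ lam') u).card ≤ j) ⊆ G₁.filter (fun u => (nI R Dz u ∩ X').card ≤ j) := by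
        intro u hu
        rw [mem_filter, mem_sdiff] at hu
        obtain ⟨⟨hu1, hu2⟩, hu3, -, hu4⟩ := hu
        rw [mem_filter, hG₁, mem_filter, mem_sdiff]
        refine ⟨⟨⟨((hX'm u).1 hu1).1, hu2⟩, hu3⟩, le_trans (card_le_card ?_) hu4⟩
        intro v hv
        rw [mem_inter, mem_nI] at hv
        exact mem_nI.2 ⟨hcgm v hv.1.1 hv.2, hv.1.2⟩
      have h4 := (card_le_card h3).trans (e10'.1 j)
      omega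
    · intro u hu
      refine (hthr u hu).trans (card_le_card ?_)
      intro v hv
      rw [mem_filter] at hv
      obtain ⟨h1, h3, h4, h5⟩ := hv
      rw [mem_filter, mem_sdiff]
      have hvX := hPZX' (hBP h1)
      exact ⟨⟨hvX, h3⟩, h4, e7 v (hX₀X (hPX (hBP h1))) (hX'S₁ v hvX) (hBg v h1), h5.trans (card_le_card (nI_mono hPZX'))⟩
  · have h1 := e10'.2 cc
    omega
  · rw [← hX']
    intro h hh hF
    have hX := (hX'm h).1 hh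
    by_cases hb : (nI R (Pp ∪ PZ) h).card < bb
    · right
      have hG : h ∈ G₂ := by
        rw [hG₂, mem_filter]
        exact ⟨hX.1, hb⟩
      rw [mem_filter, not_and, not_le] at hF
      have h1 := hF hG
      refine h1.le.trans (card_le_card ?_)
      intro x hx
      rw [mem_inter, mem_nI, mem_sdiff] at hx
      rw [mem_filter]
      exact ⟨hx.2, hx.1.2, (Nat.le_add_right _ _).trans ((e9 x hx.2 hx.1.1.2).trans (card_le_card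
        (nI_mono subset_union_right)))⟩
    · left
      exact (not_lt.1 hb).trans (card_le_card (nI_mono (union_subset_union (Subset.refl _) hPZX')))

end AEG
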