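import Pool.Agent.AEG.CritI
import Pool.Agent.AEG.StcCore
import Pool.Agent.AEG.StCm
import Pool.Agent.AEG.GroupC

/-!
# From a critical group to the next group: the light items

`crit_core`: after the in-side was placed (`CEd`), the light items are placed, and the next state remains.
-/

set_option autoImplicit false

namespace AEG

open Finset AE15 AED AEB SPD
open scoped Classical

theorem crit_core (p : NP) (hp : p.OK) (hab : ab p.b p.l ≤ p.a) {D₀ : ℕ} (hD₀ : p.A ≤ D₀)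
    {ω c η η₁ κ₀' κ₁ κ γ₀ τ s σ₂ μ : ℝ} (P' : KB D₀ ω c η η₁ κ₀' κ₁ κ γ₀ τ s σ₂ μ) {ζ ηS : ℝ} (hζ : 0 < ζ) (hζ1 : ζ ≤ 1)
    (hω : 8 * ω ≤ ζ) (hηS : 0 < ηS) (hηS' : 4 * ηS ≤ η) : ∃ ηm : ℝ, 0 < ηm ∧ ηm ≤ 1 / 8 ∧
    ∀ {κa ηa : ℝ}, 0 < κa → 25 * κa ≤ ηa → ηa ≤ ηm → ∀ Nn w₀ J J₂ : ℕ,
    ∃ κo so : ℝ, 0 < κo ∧ 0 < so ∧ ∀ {κS : ℝ}, 0 < κS →
    ∃ (ξ : ℝ) (K₁ C₁ C : ℕ), 0 < ξ ∧ ξ ≤ 1 ∧ ∀ {V : Type} {R : V → V → Prop}, AE32.Tour R →
      ∀ {P X G P₁ P₂ U₁ T₁ T S E Bp So X₀ : Finset V} {ys' : List V} {y' v b₁ a w' : V} {κ₀ η₀ : ℝ}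
      (sg bb' cc' lam' le' fo mB pp cx q Q : ℕ) (k₁ k₂ k₃ k₄ : Fd × Fd) (gr' L : List (Fd × Fd)),
      GrpC2 R X (X \ low R sg X) P₁ P₂ U₁ G ys' y' κa ηa κ₀ η₀ pp gr'.length (4 * Nn) → gr'.length ≤ Nn →
      CEd R P X G P₁ P₂ U₁ (low R sg X) ys' {v, b₁, a, w'} T₁ T S E Bp So X₀ q Q mB w₀ J J₂ gr'.length pp →
      RetD R P₂ U₁ (P₂.filter (fun w => R y' w ∧ w ∈ G)) y' T₁ T w₀ → RetC R X P₂ U₁ T₁ T w₀ →
      (Good R κS ηS X v ∨ v ∈ P₁) → (Good R κS ηS X b₁ ∨ b₁ ∈ P₁) → a ∈ P₁ → w' ∈ P₁ →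
      (∀ q ∈ k₁ :: k₂ :: k₃ :: k₄ :: gr', BrO p.b p.l q) →
      k₁.2.size + k₂.2.size + k₃.2.size + k₄.2.size + (gr'.map (fun q => q.2.size)).sum + (szS L + cx) ≤
        (P ∪ X).card → ζ * (P ∪ X).card ≤ (szS L + cx : ℕ) → 2 * (le' + 2 * lam' + bb' + J) ≤ mB →
      (bb' = 0 ∨ 16 * bb' + (64 + 16 * J + 4 * w₀ + 2 * gr'.length) ≤ sg) →
      ((P.card + pp + sg + mB + q + Q + lam' + bb' : ℕ) : ℝ) ≤ ξ * X.card → C ≤ X.card →
      ∃ SD Fx : Finset V, EmbAllB R ((v, k₁.2) :: (b₁, k₂.2) :: (a, k₃.2) :: (w', k₄.2) ::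
          (ys'.zip gr').map (fun p => (p.1, p.2.2))) SD ∧ SD ⊆ X₀ ∧ (∀ x ∈ SD, x ∉ U₁) ∧
        StE R (X₀ \ SD) E (R y') κo ηS so lam' 0 fo (48 * lam' + C) K₁ le' ∧ Fx.card ≤ K₁ * cc' + C₁ ∧
        ∀ z ∈ X₀ \ SD, z ∉ Fx → CapL R (X₀ \ SD) (((P₁ ∪ low R sg X) \ (T₁ ∪ {v, b₁, a, w'})) ∪ (X₀ \ SD)) bb' cc' z := by
  obtain ⟨hω0, hω1, hc0, hc1, hη0, hη1, hη₁0, hη₁1, hκ₀0, hκ₁0, hκ₁1, hκ0, hκ1, hs0, hγ₀0, hτ0, hσ₂0, hμ0, hκ₁η, hκs⟩ :=
    P'.num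
  obtain ⟨ηm, hηm0, hηm1, hηm2, hηm3⟩ : ∃ ηm : ℝ, 0 < ηm ∧ ηm ≤ 1 / 8 ∧ 32 * ηm ≤ c * η ∧ 32 * ηm ≤ c * (c * ηS) := by
    refine ⟨min (1 / 8) (min (c * η / 32) (c * (c * ηS) / 32)), ?_, min_le_left _ _, ?_, ?_⟩
    · exact lt_min (by norm_num) (lt_min (by positivity) (by positivity))
    · linarith [(min_le_right (1 / 8 : ℝ) (min (c * η / 32) (c * (c * ηS) / 32))).trans (min_le_left _ _)]
    · linarith [(min_le_right (1 / 8 : ℝ) (min (c * η / 32) (c * (c * ηS) / 32))).trans (min_le_right _ _)]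
  refine ⟨ηm, hηm0, hηm1, ?_⟩
  intro κa ηa hκa hκηa hηam Nn w₀ J J₂
  have hηa0 : 0 < ηa := by linarith
  obtain ⟨Kd, hKd⟩ : ∃ Kd : ℕ, Kd = 24 + ⌈64 / κa⌉₊ + (34 + J₂ + w₀ + J) := ⟨_, rfl⟩
  obtain ⟨κo, so, hκo, hso, hcore⟩ := stc_core p hp hab hD₀ P' hD₀ P' (κg := κa ^ 2 / 16) (ηg := 4 * ηa)
    (γ := κa / 8) (ζ := ζ / 2) (η₂ := ηS) (by positivity) (by positivity) (by positivity) (by linarith) (by positivity) (by linarith)
    hηS (by linarith) (by linarith) (Nn + 4) Kd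
  refine ⟨κo, so, hκo, hso, ?_⟩
  intro κS hκS
  obtain ⟨κU, hκU0, hκU1, hκU2, hκU3⟩ : ∃ κU : ℝ, 0 < κU ∧ 2 * κU ≤ κ ∧ κU ≤ κS / 2 ∧ κU ≤ κa ^ 2 / 16 := by
    refine ⟨min (κ / 2) (min (κS / 2) (κa ^ 2 / 16)), lt_min (by positivity) (lt_min (by positivity) (by positivity)),
      ?_, ?_, ?_⟩
    · linarith [min_le_left (κ / 2) (min (κS / 2) (κa ^ 2 / 16))]
    · exact (min_le_right _ _).trans (min_le_left _ _)
    · exact (min_le_right _ _).trans (min_le_right _ _)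
  obtain ⟨δ, Mt, Ct, K₁, C₁, C₃, hδ, hMt, hcore⟩ := hcore hκU0 hκU1
  obtain ⟨ξ, hξ0, hξ1, hξ2, hξ3, hξ4, hξ5, hξ6⟩ : ∃ ξ : ℝ, 0 < ξ ∧ (2 * Mt + 10 : ℝ) * ξ ≤ δ / 2 ∧ 4 * ξ ≤ ζ / 16 ∧
      8 * ξ ≤ κa / 64 ∧ ξ ≤ ηS ∧ ξ ≤ ηa ∧ ξ ≤ 1 / 2 := by
    have hM0 : (0 : ℝ) ≤ Mt := Nat.cast_nonneg _
    refine ⟨min (min (δ / 2 / (2 * Mt + 10)) (ζ / 64)) (min (κa / 512) (min ηS (min ηa (1 / 2)))), ?_, ?_, ?_, ?_, ?_, ?_, ?_⟩
    · exact lt_min (lt_min (by positivity) (by positivity)) (lt_min (by positivity) (lt_min hηS (lt_min hηa0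
        (by norm_num))))
    · have h1 : min (min (δ / 2 / (2 * Mt + 10)) (ζ / 64)) (min (κa / 512) (min ηS (min ηa (1 / 2)))) ≤
          δ / 2 / (2 * Mt + 10) := (min_le_left _ _).trans (min_le_left _ _)
      rw [le_div_iff₀ (by positivity)] at h1
      linarith
    · linarith [(min_le_left (min (δ / 2 / (2 * Mt + 10)) (ζ / 64)) (min (κa / 512) (min ηS (min ηa (1 / 2))))).trans
        (min_le_right _ _)]
    · linarith [(min_le_right (min (δ / 2 / (2 * Mt + 10)) (ζ / 64)) (min (κa / 512) (min ηS (min ηa (1 / 2))))).trans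
        (min_le_left _ _)]
    · exact ((min_le_right _ _).trans (min_le_right _ _)).trans (min_le_left _ _)
    · exact (((min_le_right _ _).trans (min_le_right _ _)).trans (min_le_right _ _)).trans (min_le_left _ _)
    · exact (((min_le_right _ _).trans (min_le_right _ _)).trans (min_le_right _ _)).trans (min_le_right _ _)
  obtain ⟨n₂, hn₂⟩ := exists_big [((2 * Ct + 3 * Nn + 4 : ℝ), δ / 2), ((Nn : ℝ), ζ / 16), ((4 + J : ℝ), κa / 16),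
      ((4 * (4 + J) + 2 * w₀ : ℝ), κa / 64), ((C₃ : ℝ), ζ / 2)] (by
    intro q hq
    simp only [List.mem_cons, List.not_mem_nil, or_false] at hq
    rcases hq with rfl | rfl | rfl | rfl | rfl
    · show 0 < δ / 2
      positivity
    · show 0 < ζ / 16
      positivity
    · show 0 < κa / 16
      positivity
    · show 0 < κa / 64
      positivity
    · show 0 < ζ / 2
      positivity)
  refine ⟨ξ, K₁, C₁, n₂ + C₃ + C₁ + (J₂ + J + 24 * (4 + J) + 13 * w₀), hξ0, by linarith, ?_⟩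
  intro V R hT P X G P₁ P₂ U₁ T₁ T S E Bp So X₀ ys' y' v b₁ a w' κ₀ η₀ sg bb' cc' lam' le' fo mB pp cx q Q k₁ k₂ k₃ k₄
    gr' L hG hgrN h hRD hRC hv hb₁ haP hwP hbr hmass hζn hmB hsg hsm hCX
  obtain ⟨W₀, hW₀⟩ : ∃ W₀, W₀ = low R sg X := ⟨_, rfl⟩
  rw [← hW₀] at hG h ⊢
  obtain ⟨Hs, hHs⟩ : ∃ Hs : Finset V, Hs = {v, b₁, a, w'} := ⟨_, rfl⟩
  rw [← hHs] at h ⊢
  obtain ⟨My, hMy⟩ : ∃ My, My = P₂.filter (fun w => R y' w ∧ w ∈ G) := ⟨_, rfl⟩
  rw [← hMy] at hRD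
  obtain ⟨Z, hZ⟩ : ∃ Z, Z = P ∪ X := ⟨_, rfl⟩
  obtain ⟨n, hn⟩ : ∃ n : ℝ, n = (Z.card : ℝ) := ⟨_, rfl⟩
  rw [← hZ] at hmass hζn
  have hXZ : X ⊆ Z := by rw [hZ]; exact subset_union_right
  have hXn : (X.card : ℝ) ≤ n := by rw [hn]; exact_mod_cast card_le_card hXZ
  have hX0 : (0 : ℝ) ≤ X.card := Nat.cast_nonneg _
  push_cast at hsm
  have hP0 : (0 : ℝ) ≤ P.card := Nat.cast_nonneg _
  have hpp0 : (0 : ℝ) ≤ pp := Nat.cast_nonneg _
  have hsg0 : (0 : ℝ) ≤ sg := Nat.cast_nonneg _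
  have hmB0 : (0 : ℝ) ≤ mB := Nat.cast_nonneg _
  have hq0 : (0 : ℝ) ≤ q := Nat.cast_nonneg _
  have hQ0 : (0 : ℝ) ≤ Q := Nat.cast_nonneg _
  have hlam0 : (0 : ℝ) ≤ lam' := Nat.cast_nonneg _
  have hbb0 : (0 : ℝ) ≤ bb' := Nat.cast_nonneg _
  have hn0 : (0 : ℝ) ≤ n := by rw [hn]; exact Nat.cast_nonneg _
  obtain ⟨m, hm⟩ : ∃ m : ℝ, m = P.card + pp + sg + mB + q + Q + lam' + bb' := ⟨_, rfl⟩
  rw [← hm] at hsm
  have hm0 : 0 ≤ m := by rw [hm]; positivity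
  have hsmn : m ≤ ξ * n := hsm.trans (mul_le_mul_of_nonneg_left hXn hξ0.le)
  have hn2X : n ≤ 2 * X.card := by
    have h1 : (Z.card : ℝ) ≤ P.card + X.card := by rw [hZ]; exact_mod_cast card_union_le P X
    have h2 : ξ * (X.card : ℝ) ≤ 1 / 2 * X.card := mul_le_mul_of_nonneg_right hξ6 hX0
    rw [hn]
    linarith
  have hZX : n ≤ X.card + m := by
    have h1 : (Z.card : ℝ) ≤ P.card + X.card := by rw [hZ]; exact_mod_cast card_union_le P X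
    rw [hn]
    linarith
  have hn₂Z : n₂ ≤ Z.card := by
    have h1 := card_le_card hXZ
    omega
  have g := hn₂ Z.card hn₂Z
  have g1 : (2 * Ct + 3 * Nn + 4 : ℝ) ≤ δ / 2 * n := by rw [hn]; exact g ((2 * Ct + 3 * Nn + 4 : ℝ), δ / 2) (by simp)
  have g2 : (Nn : ℝ) ≤ ζ / 16 * n := by rw [hn]; exact g ((Nn : ℝ), ζ / 16) (by simp)
  have g3 : (4 + J : ℝ) ≤ κa / 16 * n := by rw [hn]; exact g ((4 + J : ℝ), κa / 16) (by simp)
  have g4 : (4 * (4 + J) + 2 * w₀ : ℝ) ≤ κa / 64 * n := by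
    rw [hn]; exact g ((4 * (4 + J) + 2 * w₀ : ℝ), κa / 64) (by simp)
  have g5 : (C₃ : ℝ) ≤ ζ / 2 * n := by rw [hn]; exact g ((C₃ : ℝ), ζ / 2) (by simp)
  have e1 : (2 * Mt + 10 : ℝ) * ξ * n ≤ δ / 2 * n := mul_le_mul_of_nonneg_right hξ1 hn0
  have e2 : 4 * ξ * n ≤ ζ / 16 * n := mul_le_mul_of_nonneg_right hξ2 hn0
  have e3 : 8 * ξ * n ≤ κa / 64 * n := mul_le_mul_of_nonneg_right hξ3 hn0
  have e4 : ξ * n ≤ ηS * n := mul_le_mul_of_nonneg_right hξ4 hn0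
  have e5 : ξ * n ≤ ηa * n := mul_le_mul_of_nonneg_right hξ5 hn0
  have e6 : ζ * n ≤ 1 * n := mul_le_mul_of_nonneg_right hζ1 hn0
  have e7 : 0 ≤ ζ * n := by positivity
  have e8 : 0 ≤ κa * n := by positivity
  -- the sets
  have hW₀c : (W₀.card : ℝ) ≤ 2 * sg := by rw [hW₀]; exact_mod_cast card_low_in hT sg X
  have hX₀Z : X₀ ⊆ Z := by rw [hZ]; exact h.sub
  have hP₂Z : P₂ ⊆ Z := h.hP₂X.trans hXZ
  have hylast : y' ∈ ys' := List.mem_of_getLast? hG.last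
  have hMyP₂ : My ⊆ P₂ := by rw [hMy]; exact filter_subset _ _
  have hMym : ∀ u, u ∈ My ↔ u ∈ P₂ ∧ R y' u ∧ u ∈ G := by
    intro u
    rw [hMy, mem_filter]
  have hNnr : ((gr'.length : ℕ) : ℝ) ≤ Nn := by exact_mod_cast hgrN
  have hout : ((Z \ P₂).card : ℝ) ≤ P.card + 2 * sg + pp + Nn := by
    have h1 : ((Z \ P₂).card : ℝ) ≤ P.card + W₀.card + pp + (gr'.length : ℕ) := by
      rw [hZ]
      exact_mod_cast h.card_out
    linarith
  have hused : ((Z \ X₀).card : ℝ) ≤ pp + 2 * sg + Nn + 4 + q + Q := by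
    have h1 : ((Z \ X₀).card : ℝ) ≤ pp + W₀.card + (gr'.length : ℕ) + 4 + q + Q := by
      rw [hZ]
      exact_mod_cast h.card_used
    linarith
  have hP₂c : n - (4 * m + Nn) ≤ (P₂.card : ℝ) := by
    have h1 := card_sdiff_add_card_eq_card hP₂Z
    have h3 : n = (Z \ P₂).card + P₂.card := by
      rw [hn]
      exact_mod_cast h1.symm
    have h4 : (P.card : ℝ) + 2 * sg + pp ≤ 4 * m := by rw [hm]; linarith
    linarith
  have hP₂n : n - ζ / 8 * n ≤ (P₂.card : ℝ) := by linarith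
  have hn2P₂ : n ≤ 2 * P₂.card := by linarith
  have hP₂0 : (0 : ℝ) ≤ P₂.card := Nat.cast_nonneg _
  obtain ⟨PZ, hPZ⟩ : ∃ PZ, PZ = (X₀.filter (fun v => (nI R X₀ v).card < Mt * (bb' + lam') + Ct) ∪ (X₀ \ P₂)) ∪
      ((X₀ ∩ U₁) ∪ bpC E Bp X₀) := ⟨_, rfl⟩
  have hbpX : bpC E Bp X₀ ⊆ X₀ := fun x hx => (h.bpC_sub x hx).1
  have hPZX : PZ ⊆ X₀ := by
    rw [hPZ]
    exact union_subset (union_subset (filter_subset _ _) sdiff_subset) (union_subset inter_subset_left hbpX)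
  have hPZ1 : ∀ x ∈ X₀, x ∉ P₂ → x ∈ PZ := by
    intro x hx hx'
    rw [hPZ]
    exact mem_union_left _ (mem_union_right _ (mem_sdiff.2 ⟨hx, hx'⟩))
  have hPZ2 : ∀ x ∈ X₀, x ∈ U₁ → x ∈ PZ := by
    intro x hx hx'
    rw [hPZ]
    exact mem_union_right _ (mem_union_left _ (mem_inter.2 ⟨hx, hx'⟩))
  have hPZ3 : bpC E Bp X₀ ⊆ PZ := by
    intro x hx
    rw [hPZ]
    exact mem_union_right _ (mem_union_right _ hx)
  have hPZc : (PZ.card : ℝ) ≤ 2 * (Mt * (bb' + lam') + Ct) + (P.card + 2 * sg + pp + Nn) + 6 * pp + mB := by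
    have h1 := card_union_le (X₀.filter (fun v => (nI R X₀ v).card < Mt * (bb' + lam') + Ct) ∪ (X₀ \ P₂))
      ((X₀ ∩ U₁) ∪ bpC E Bp X₀)
    rw [← hPZ] at h1
    have h2 := card_union_le (X₀.filter (fun v => (nI R X₀ v).card < Mt * (bb' + lam') + Ct)) (X₀ \ P₂)
    have h3 := card_union_le (X₀ ∩ U₁) (bpC E Bp X₀)
    have h4 := AECut.card_lowin hT (Mt * (bb' + lam') + Ct) X₀
    have h5 : (X₀ ∩ U₁).card ≤ U₁.card := card_le_card inter_subset_right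
    have h6 := hG.cardU
    have h7 := h.bpC_card
    have h8 : (X₀ \ P₂).card ≤ (Z \ P₂).card := card_le_card (sdiff_subset_sdiff hX₀Z (Subset.refl _))
    have h9 : PZ.card ≤ 2 * (Mt * (bb' + lam') + Ct) + (Z \ P₂).card + 6 * pp + mB := by omega
    have h10 : (PZ.card : ℝ) ≤ 2 * (Mt * (bb' + lam') + Ct) + (Z \ P₂).card + 6 * pp + mB := by exact_mod_cast h9
    linarith
  obtain ⟨Inc, hInc⟩ : ∃ Inc, Inc = PZ.filter (fun v => (nI R PZ v).card < lam') := ⟨_, rfl⟩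
  have hIncc : Inc.card ≤ 2 * lam' := by
    rw [hInc]
    exact AECut.card_lowin hT lam' PZ
  have hIncm : ∀ x ∈ PZ, x ∉ Inc → lam' ≤ (nI R PZ x).card := by
    intro x hx hxI
    by_contra hc
    push Not at hc
    exact hxI (by rw [hInc, mem_filter]; exact ⟨hx, hc⟩)
  obtain ⟨Dz, hDz⟩ : ∃ Dz, Dz = (My ∩ X₀) \ Inc := ⟨_, rfl⟩
  have hDzm : ∀ u, u ∈ Dz ↔ (u ∈ My ∧ u ∈ X₀) ∧ u ∉ Inc := by
    intro u
    rw [hDz, mem_sdiff, mem_inter]
  -- goodness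
  have hgoodG : ∀ u ∈ G, Good R (κa ^ 2 / 16) (4 * ηa) Z u := by
    intro u hu
    refine good_add (hG.good u hu) hXZ ?_ ?_
    · rw [← hn]
      have h1 := mul_le_mul_of_nonneg_left hn2X (by positivity : (0 : ℝ) ≤ κa ^ 2 / 16)
      linarith
    · have h1 : Z \ X ⊆ P := by
        intro x hx
        rw [mem_sdiff, hZ, mem_union] at hx
        exact hx.1.resolve_right hx.2
      have h2 : ((Z \ X).card : ℝ) ≤ P.card := by exact_mod_cast card_le_card h1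
      have h3 : (P.card : ℝ) ≤ m := by rw [hm]; linarith
      have h4 : 2 * ηa * (X.card : ℝ) ≤ 2 * ηa * n := mul_le_mul_of_nonneg_left hXn (by positivity)
      rw [← hn]
      have h5 : 0 ≤ ηa * n := by positivity
      linarith
  have hgoodS : ∀ u, Good R κS ηS X u → Good R (κS / 2) (2 * ηS) Z u := by
    intro u hu
    refine good_add hu hXZ ?_ ?_
    · rw [← hn]
      have h1 := mul_le_mul_of_nonneg_left hn2X (by positivity : (0 : ℝ) ≤ κS / 2)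
      linarith
    · have h1 : Z \ X ⊆ P := by
        intro x hx
        rw [mem_sdiff, hZ, mem_union] at hx
        exact hx.1.resolve_right hx.2
      have h2 : ((Z \ X).card : ℝ) ≤ P.card := by exact_mod_cast card_le_card h1
      have h3 : (P.card : ℝ) ≤ m := by rw [hm]; linarith
      have h4 : ηS * (X.card : ℝ) ≤ ηS * n := mul_le_mul_of_nonneg_left hXn hηS.le
      rw [← hn]
      linarith
  have hcη : c * η ≤ 1 * η := mul_le_mul_of_nonneg_right (by linarith) hη0.le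
  have hGdG : ∀ u ∈ G, GdU R κU η Z P₂ u := by
    intro u hu
    refine GdU.of_good (hgoodG u hu) hP₂Z hκU3 ?_
    rw [← hn]
    have h1 : 4 * ηa * n ≤ 4 * ηa * (2 * P₂.card) := mul_le_mul_of_nonneg_left hn2P₂ (by positivity)
    have h3 : 8 * ηa * P₂.card ≤ η * P₂.card := mul_le_mul_of_nonneg_right (by linarith) hP₂0
    linarith
  have hGdS : ∀ u, Good R κS ηS X u → GdU R κU η Z P₂ u := by
    intro u hu
    refine GdU.of_good (hgoodS u hu) hP₂Z hκU2 ?_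
    rw [← hn]
    have h1 : 2 * ηS * n ≤ 2 * ηS * (2 * P₂.card) := mul_le_mul_of_nonneg_left hn2P₂ (by positivity)
    have h3 : 4 * ηS * P₂.card ≤ η * P₂.card := mul_le_mul_of_nonneg_right hηS' hP₂0
    linarith
  have hP₁G : ∀ {u}, u ∈ P₁ → u ∈ G := fun hu => hG.hU₁ (hG.hP₁ hu)
  have hysG : ∀ {u}, u ∈ ys' → u ∈ G := fun hu => (hG.hys _ hu).1
  have hHsX₀ : ∀ u ∈ Hs, u ∈ Z ∧ u ∉ X₀ := by
    intro u hu
    exact ⟨hXZ (h.hH u hu).1, fun h1 => ((h.hX₀ u).1 h1).2.2.2.2.1 hu⟩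
  have hysX₀ : ∀ u ∈ ys', u ∈ Z ∧ u ∉ X₀ := by
    intro u hu
    exact ⟨hXZ (h.hU₁X (h.hys u hu).1), fun h1 => ((h.hX₀ u).1 h1).2.2.2.1 hu⟩
  -- the lights
  obtain ⟨os, hos⟩ : ∃ os : List (V × Fd), os = (v, k₁.2) :: (b₁, k₂.2) :: (a, k₃.2) :: (w', k₄.2) ::
      (ys'.zip gr').map (fun p => (p.1, p.2.2)) := ⟨_, rfl⟩
  rw [← hos]
  have hzt : totB ((ys'.zip gr').map (fun p => (p.1, p.2.2))) = (gr'.map (fun q => q.2.size)).sum :=
    totB_zip (f := Prod.snd) hG.len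
  have host : totB os = k₁.2.size + (k₂.2.size + (k₃.2.size + (k₄.2.size + (gr'.map (fun q => q.2.size)).sum))) := by
    rw [hos, totB_cons', totB_cons', totB_cons', totB_cons', hzt]
  have hosl : os.length ≤ Nn + 4 := by
    rw [hos]
    simp only [List.length_cons, List.length_map, List.length_zip, hG.len, Nat.min_self]
    omega
  have hbrm : ∀ x ∈ k₁ :: k₂ :: k₃ :: k₄ :: gr', FOK p.b p.l 0 x.2 ∧ ∀ t ∈ x.2.trees, t.1 = true := by
    intro x hx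
    have h1 := hbr x hx
    exact ⟨h1.2.1, h1.2.2.2⟩
  have hsnd : ∀ x ∈ ys'.zip gr', x.1 ∈ ys' ∧ x.2 ∈ gr' := fun x hx => List.of_mem_zip hx
  have hhost : ∀ x ∈ os, x.1 ∈ Z ∧ x.1 ∉ X₀ ∧ GdU R κU η Z P₂ x.1 ∧ FOK p.b p.l 0 x.2 ∧ ∀ t ∈ x.2.trees, t.1 = true := by
    intro x hx
    rw [hos] at hx
    simp only [List.mem_cons, List.mem_map] at hx
    rcases hx with rfl | rfl | rfl | rfl | ⟨z, hz, rfl⟩
    · have h1 := hHsX₀ v (by rw [hHs]; simp)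
      exact ⟨h1.1, h1.2, hv.elim (hGdS v) (fun h2 => hGdG v (hP₁G h2)), hbrm k₁ (by simp)⟩
    · have h1 := hHsX₀ b₁ (by rw [hHs]; simp)
      exact ⟨h1.1, h1.2, hb₁.elim (hGdS b₁) (fun h2 => hGdG b₁ (hP₁G h2)), hbrm k₂ (by simp)⟩
    · have h1 := hHsX₀ a (by rw [hHs]; simp)
      exact ⟨h1.1, h1.2, hGdG a (hP₁G haP), hbrm k₃ (by simp)⟩
    · have h1 := hHsX₀ w' (by rw [hHs]; simp)
      exact ⟨h1.1, h1.2, hGdG w' (hP₁G hwP), hbrm k₄ (by simp)⟩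
    · obtain ⟨h1, h2⟩ := hsnd z hz
      have h3 := hysX₀ z.1 h1
      exact ⟨h3.1, h3.2, hGdG z.1 (hysG h1), hbrm z.2 (by simp [h2])⟩
  -- the dominators
  have hDzc : κa / 8 * n ≤ (Dz.card : ℝ) := by
    have h1 : My ⊆ Dz ∪ ((T₁ ∪ T) ∪ ((Hs ∪ (So \ P)) ∪ Inc)) := by
      intro u hu
      have h2 := (hMym u).1 hu
      by_cases h3 : u ∈ T₁
      · exact mem_union_right _ (mem_union_left _ (mem_union_left _ h3))
      by_cases h4 : u ∈ T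
      · exact mem_union_right _ (mem_union_left _ (mem_union_right _ h4))
      by_cases h5 : u ∈ Hs
      · exact mem_union_right _ (mem_union_right _ (mem_union_left _ (mem_union_left _ h5)))
      by_cases h6 : u ∈ Inc
      · exact mem_union_right _ (mem_union_right _ (mem_union_right _ h6))
      rcases h.P₂X₀ h2.1 h5 h3 h4 with h7 | h7
      · exact mem_union_left _ ((hDzm u).2 ⟨⟨hu, h7⟩, h6⟩)
      · exact mem_union_right _ (mem_union_right _ (mem_union_left _ (mem_union_right _ h7)))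
    have h2 := (card_le_card h1).trans (card_union_le _ _)
    have h3 := card_union_le (T₁ ∪ T) ((Hs ∪ (So \ P)) ∪ Inc)
    have h4 := card_union_le T₁ T
    have h5 := card_union_le (Hs ∪ (So \ P)) Inc
    have h6 := card_union_le Hs (So \ P)
    have h7 := h.cT
    have h8 := h.cH
    have h9 := h.cSo'
    have h10 : My.card ≤ Dz.card + q + (4 + J) + 2 * lam' := by omega
    have h11 : (My.card : ℝ) ≤ Dz.card + q + (4 + J) + 2 * lam' := by exact_mod_cast h10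
    have h12 : κa / 2 * (X.card : ℝ) ≤ My.card := by rw [hMy]; exact hG.lin
    have h13 : κa / 4 * n ≤ κa / 2 * X.card := by
      have := mul_le_mul_of_nonneg_left hn2X (by positivity : (0 : ℝ) ≤ κa / 4)
      linarith
    have h14 : (q : ℝ) + 2 * lam' ≤ 2 * m := by rw [hm]; linarith
    linarith
  have hκKd : 32 / (κa / 2) ≤ (Kd : ℝ) := by
    have h1 : (64 / κa : ℝ) ≤ ⌈64 / κa⌉₊ := Nat.le_ceil _
    have h2 : (32 / (κa / 2) : ℝ) = 64 / κa := by field_simp; norm_num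
    rw [h2, hKd]
    push_cast
    have h3 : (0 : ℝ) ≤ J₂ := Nat.cast_nonneg _
    have h4 : (0 : ℝ) ≤ w₀ := Nat.cast_nonneg _
    have h5 : (0 : ℝ) ≤ J := Nat.cast_nonneg _
    linarith
  have hcnt := CEd.cnt hT h (y := y') hylast (My := My) (Inc := Inc) (κ₀ := κa / 2) (lam := lam') (Kd := Kd) hMyP₂
    (by positivity) (by
      intro j hj
      rw [← hZ, ← hn] at hj
      rw [hMy]
      have h1 := mul_le_mul_of_nonneg_left hn2X (by positivity : (0 : ℝ) ≤ κa / 8)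
      exact hG.cnt j (by linarith)) hRD hIncc (by
      rw [← hZ, ← hn]
      push_cast
      have h1 : (q : ℝ) + 8 * lam' ≤ 8 * m := by rw [hm]; linarith
      linarith) (by omega) hκKd
  have hcap := CEd.cap hT h (N' := (P₁ ∪ W₀) \ (T₁ ∪ Hs)) (PZ := PZ) (bb := bb') (sg := sg) (Kd := Kd) (by
      intro x hx
      have h1 := ((hG.part x).1 hx).1
      rw [mem_sdiff, hW₀, mem_low, not_and, not_lt] at h1
      exact h1.2 h1.1) hRC (by
      intro x hx h1 h2 h3 h4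
      rw [mem_union, mem_sdiff, mem_union, mem_union, not_or]
      rcases h.part x hx with h5 | h5 | h5 | h5
      · exact Or.inl ⟨Or.inr h5, h4, h3⟩
      · exact Or.inl ⟨Or.inl h5, h4, h3⟩
      · right
        have h6 : x ∈ U₁ := by
          by_contra h7
          exact h1 (mem_sdiff.2 ⟨h5, h7⟩)
        exact hPZ2 x (h.U₁X₀ h6 (fun h7 => h.disj x h7 h5) h2 h3 h4).1 h6
      · exact absurd h5 h2) (h.capE hPZ3 (by omega)) hsg (by omega)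
  obtain ⟨S₁, S₂, Fx, f1, f2, f3, f4, f5, f6, f7, f8, f9⟩ := hcore hT (X := Z) (X₀ := X₀) (Y := P₂) (Dz := Dz)
    (PZ := PZ) (Pp := (P₁ ∪ W₀) \ (T₁ ∪ Hs)) (E := E) (Bp := bpC E Bp X₀) (y := y') bb' cc' lam'
    (J₂ + J + 24 * (4 + J) + 13 * w₀ + 48 * lam') fo le' os [] (by
      have h1 := card_le_card hXZ
      omega) hP₂Z hX₀Z hosl (by simp) hhost (by simp) (fun x hx => hPZ1 x (mem_sdiff.1 hx).1 (mem_sdiff.1 hx).2) (by
      intro x hx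
      rw [hPZ]
      exact mem_union_left _ (mem_union_left _ hx)) hPZX (by
      rw [← hn]
      push_cast
      have hM0 : (0 : ℝ) ≤ Mt := Nat.cast_nonneg _
      have h1 : (2 * Mt + 10 : ℝ) * m ≤ (2 * Mt + 10) * (ξ * n) := mul_le_mul_of_nonneg_left hsmn (by positivity)
      have h2 : (2 * Mt : ℝ) * (bb' + lam') ≤ 2 * Mt * m := by
        apply mul_le_mul_of_nonneg_left _ (by positivity)
        rw [hm]
        linarith
      have h3 : 2 * (P.card + 2 * sg + pp) + 6 * pp + mB + (pp + 2 * sg + q + Q) ≤ 10 * m := by rw [hm]; linarith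
      linarith) (fun u hu => hMyP₂ ((hDzm u).1 hu).1.1) (fun u hu => ((hDzm u).1 hu).1.2) (by
      intro u hu
      have h1 := (hMym u).1 ((hDzm u).1 hu).1.1
      exact ⟨h1.2.1, hgoodG u h1.2.2⟩) (by rw [← hn]; exact hDzc) (fun u hu huP => hIncm u huP ((hDzm u).1 hu).2) (by
      intro u hu
      have h1 := h.EX₀ u hu
      exact hPZ1 u h1.1 h1.2.1) hPZ3 (fun u hu => hgoodG u (h.bpC_sub u hu).2.1)
      (h.thr hIncm hIncc hPZ3 (by omega)) (by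
      intro j
      have h1 := hcnt j
      rw [← hDz] at h1
      exact h1) hcap (by
      rw [host]
      have h1 : k₁.2.size + (k₂.2.size + (k₃.2.size + (k₄.2.size + (gr'.map (fun q => q.2.size)).sum))) +
          (szS L + cx) ≤ Z.card := by omega
      have h2 : ((k₁.2.size + (k₂.2.size + (k₃.2.size + (k₄.2.size + (gr'.map (fun q => q.2.size)).sum))) : ℕ) : ℝ) +
          ((szS L + cx : ℕ) : ℝ) ≤ n := by
        rw [hn]
        exact_mod_cast h1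
      rw [← hn] at hζn
      have h3 : (1 - ω) * (n - ζ / 8 * n) ≤ (1 - ω) * P₂.card := mul_le_mul_of_nonneg_left hP₂n (by linarith)
      have h4 : (1 - ω) * (n - ζ / 8 * n) = n - ζ / 8 * n - ω * n + ω * (ζ * n) / 8 := by ring
      have h5 : 8 * ω * n ≤ ζ * n := mul_le_mul_of_nonneg_right hω hn0
      have h6 : 0 ≤ ω * (ζ * n) := by positivity
      linarith) (by
      rw [← hn]
      have h0 : totB ([] : List (V × Fd)) = 0 := rfl
      rw [host, h0, Nat.add_zero]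
      have h1 : k₁.2.size + (k₂.2.size + (k₃.2.size + (k₄.2.size + (gr'.map (fun q => q.2.size)).sum))) +
          (szS L + cx) ≤ Z.card := by omega
      have h2 : ((k₁.2.size + (k₂.2.size + (k₃.2.size + (k₄.2.size + (gr'.map (fun q => q.2.size)).sum))) : ℕ) : ℝ) +
          ((szS L + cx : ℕ) : ℝ) ≤ n := by
        rw [hn]
        exact_mod_cast h1
      rw [← hn] at hζn
      linarith)
  have hS₂ : S₂ = ∅ := f2
  rw [hS₂, union_empty] at f6 f7 f9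
  refine ⟨S₁, Fx, f1, f3, ?_, ?_, f8, f9⟩
  · intro x hx hxU
    exact disjoint_left.1 f6 hx (hPZ2 x (f3 hx) hxU)
  · exact f7.weaken le_rfl le_rfl le_rfl le_rfl le_rfl le_rfl (by omega) le_rfl le_rfl

end AEG
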