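import Pool.Agent.AEG.StC
import Pool.Agent.AEG.ThinQ
import Pool.Agent.AEG.GroupR2

/-!
# From a critical group to the next group: the new pool
-/

set_option autoImplicit false

namespace AEG

open Finset AE15 AED AEB SPD
open scoped Classical

/-- **The new pool**: the low vertices are added, boundedly many vertices are removed -/
theorem crit_pool {κ₀ η₀ : ℝ} (h0 : 0 < κ₀) (hη : 25 * κ₀ ≤ η₀) (hη1 : η₀ ≤ 1 / 8) (Nn cA : ℕ) :
    ∃ (τo : ℝ) (Ko eo C : ℕ), 0 < τo ∧ ∀ {V : Type} {R : V → V → Prop}, AE32.Tour R →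
      ∀ {X P₁ P₂ U₁ G Rm : Finset V} {ys : List V} {y : V} {κa ηa : ℝ} {pp gl sg : ℕ},
      GrpC2 R X (X \ low R sg X) P₁ P₂ U₁ G ys y κa ηa κ₀ η₀ pp gl (4 * Nn) → gl ≤ Nn → Rm.card ≤ cA →
      (∀ x ∈ Rm, x ∉ ys) → C ≤ pp → 96 * (sg : ℝ) ≤ η₀ * pp →
      (∃ t : ℝ, t ≤ 25 * η₀ * ((P₁ ∪ low R sg X) \ Rm).card ∧
        GSd (rv R) ((U₁ ∪ low R sg X) \ Rm) ((P₁ ∪ low R sg X) \ Rm) ys.toFinset (κ₀ ^ 2 / 512) t (η₀ / 512) τo Ko eo) ∧
      1 / 16 * (((U₁ ∪ low R sg X) \ Rm).card : ℝ) ≤ ((P₁ ∪ low R sg X) \ Rm).card := by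
  have hη0 : 0 < η₀ := by linarith
  have hκ2 : κ₀ ^ 2 / 16 ≤ 1 := by
    have h1 : κ₀ ≤ 1 := by linarith
    have h2 : κ₀ ^ 2 ≤ 1 := pow_le_one₀ h0.le h1
    linarith
  obtain ⟨M, c, κ', s', τ', K', hM, hκ', hs', g1, g2, g3, g4, g5, g6, hthin⟩ := GSd.thinq (κ := κ₀ ^ 2 / 8 / 2)
    (ξ := 1 / 16) (s := η₀ / 8 / 2) (τ := min (η₀ / 8 / 2) (η₀ / 8 / 4)) (by positivity) (by linarith) (by norm_num)
    (by norm_num) (by positivity) (by linarith) (lt_min (by positivity) (by positivity)) 4 (4 * Nn) Nn 0 0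
  obtain ⟨n₀, e', hthin⟩ := hthin cA
  refine ⟨τ', K', e', n₀ + 4 * cA + 4, g5, ?_⟩
  intro V R hT X P₁ P₂ U₁ G Rm ys y κa ηa pp gl sg hG hgl hRm hRy hpp hsg
  obtain ⟨W₀, hW₀⟩ : ∃ W₀, W₀ = low R sg X := ⟨_, rfl⟩
  rw [← hW₀] at hG ⊢
  have hW₀c : W₀.card ≤ 2 * sg := by rw [hW₀]; exact card_low_in hT sg X
  have hW₀c' : (W₀.card : ℝ) ≤ 2 * sg := by exact_mod_cast hW₀c
  have hpp0 : (0 : ℝ) ≤ pp := Nat.cast_nonneg _
  have hsg0 : (0 : ℝ) ≤ sg := Nat.cast_nonneg _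
  have hcA0 : (0 : ℝ) ≤ cA := Nat.cast_nonneg _
  have hηpp : η₀ * (pp : ℝ) ≤ 1 / 8 * pp := mul_le_mul_of_nonneg_right hη1 hpp0
  have hWU : ∀ x ∈ W₀, x ∉ U₁ := fun x hx h => (mem_sdiff.1 (hG.hG (hG.hU₁ h))).2 hx
  have hysU : ∀ x ∈ ys, x ∈ U₁ := fun x hx => (hG.hys x hx).2.1
  have hcard : (P₁ ∪ W₀).card = pp + W₀.card := by
    rw [card_union_of_disjoint, hG.card₁]
    rw [disjoint_left]
    exact fun x hx hx' => hWU x hx' (hG.hP₁ hx)
  have hU₁c : (U₁.card : ℝ) ≤ 6 * pp := by exact_mod_cast hG.cardU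
  have hUWc : ((U₁ ∪ W₀).card : ℝ) ≤ 6 * pp + 2 * sg := by
    have h1 : ((U₁ ∪ W₀).card : ℝ) ≤ U₁.card + W₀.card := by exact_mod_cast card_union_le U₁ W₀
    linarith
  have hadd := GSd.add (rv_tour hT) (W := W₀) (T := sg) hG.side (by positivity) (by positivity) (by
      rw [disjoint_left]
      exact fun x hx hx' => hWU x hx (hysU x (List.mem_toFinset.1 hx'))) (by
      rw [disjoint_left]
      exact fun x hx hx' => hWU x hx (hG.hP₁ hx')) (by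
      intro w hw
      rw [hW₀, mem_low] at hw
      refine lt_of_le_of_lt (card_le_card ?_) hw.2
      have h1 : nO (rv R) P₁ w = nI R P₁ w := rfl
      rw [h1]
      exact nI_mono (hG.hP₁.trans (hG.hU₁.trans (hG.hG.trans hG.hX₁)))) (by
      rw [hG.card₁]
      push_cast
      linarith) (by linarith)
  have hRem := hthin hadd (by
      rw [hcard]
      push_cast
      have : (0 : ℝ) ≤ W₀.card := Nat.cast_nonneg _
      linarith) (by rw [hcard]; omega) ((List.toFinset_card_le _).trans (by rw [hG.len]; omega)) (∅ : Finset Unit)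
      (fun _ => ∅) (by simp) (by simp) (by intro j; simp) (∅ : Finset Unit) (fun _ => ∅) (by simp) (by simp)
  obtain ⟨Q, hQ, -, -, hRem⟩ := hRem
  have hN' : pp + W₀.card ≤ ((P₁ ∪ W₀) \ Rm).card + cA := by
    have h1 := le_card_sdiff Rm (P₁ ∪ W₀)
    omega
  have hN'r : (pp : ℝ) ≤ ((P₁ ∪ W₀) \ Rm).card + cA := by
    exact_mod_cast (by omega : pp ≤ ((P₁ ∪ W₀) \ Rm).card + cA)
  have hppC : 4 * (cA : ℝ) + 4 ≤ pp := by exact_mod_cast (by omega : 4 * cA + 4 ≤ pp)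
  refine ⟨⟨2 * η₀ * U₁.card + W₀.card, ?_, ?_⟩, ?_⟩
  · have h1 : 2 * η₀ * (U₁.card : ℝ) ≤ 2 * η₀ * (6 * pp) := mul_le_mul_of_nonneg_left hU₁c (by positivity)
    have h2 : 25 * η₀ * (3 / 4 * (pp : ℝ)) ≤ 25 * η₀ * ((P₁ ∪ W₀) \ Rm).card :=
      mul_le_mul_of_nonneg_left (by linarith) (by positivity)
    have h3 : 0 ≤ η₀ * (pp : ℝ) := by positivity
    linarith
  · have h1 := hRem Rm ((card_le_card inter_subset_left).trans hRm) (by
      rw [disjoint_left]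
      exact fun x hx hx' => hRy x hx (List.mem_toFinset.1 hx'))
    refine h1.mono ?_ le_rfl ?_ le_rfl le_rfl le_rfl
    · rw [hκ']
      push_cast
      have : κ₀ ^ 2 / 8 / 2 / (32 * (0 + 1)) = κ₀ ^ 2 / 512 := by ring
      rw [this]
    · rw [hs']
      push_cast
      have : η₀ / 8 / 2 / (16 * (0 + 1)) = η₀ / 256 := by ring
      rw [this]
      linarith
  · have h1 : (((U₁ ∪ W₀) \ Rm).card : ℝ) ≤ (U₁ ∪ W₀).card := by exact_mod_cast card_le_card sdiff_subset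
    linarith

end AEG
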