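import Pool.Agent.AEG.CritM
import Pool.Agent.AEG.CritP

/-!
# From a critical group to the next group: `CritB`

`crit_fin`: the sets give the conclusion of `CritB`.
-/

set_option autoImplicit false

namespace AEG

open Finset AE15 AED AEB SPD
open scoped Classical

/-- **The conclusion of `CritB`** from the sets -/
theorem crit_fin {V : Type} {R : V → V → Prop} {P X G P₁ P₂ U₁ T₁ T S E Bp So X₀ SD : Finset V}
    {ys ys' : List V} {y y' v b₁ a w' : V} {κa ηa κ₀ η₀ : ℝ} {sg mB pp q w₀ J J₂ : ℕ} {k₁ k₂ k₃ k₄ : Fd × Fd}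
    {gr gr' L : List (Fd × Fd)} {e₁ : ℕ} (hG : GrpC2 R X (X \ low R sg X) P₁ P₂ U₁ G ys' y' κa ηa κ₀ η₀ pp gr'.length e₁)
    (h : CEd R P X G P₁ P₂ U₁ (low R sg X) ys' {v, b₁, a, w'} T₁ T S E Bp So X₀ q (inS gr) mB w₀ J J₂ gr'.length pp)
    (hlen : ys.length = gr.length) (hNv : R y v) (haP : a ∈ P₁) (hwP : w' ∈ P₁) (hRvb : R v b₁) (hRba : R b₁ a)
    (hRaw : R a w') (hRwy : ∀ y₁ ∈ ys'.head?, R w' y₁) (hvb : v ≠ b₁) (hva : v ≠ a) (hvw : v ≠ w') (hba : b₁ ≠ a)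
    (hbw : b₁ ≠ w') (haw : a ≠ w')
    (hI : EmbAllB (rv R) [(v, k₁.1), (b₁, k₂.1), (a, k₃.1), (w', k₄.1)] (T₁ ∪ (T ∪ S)))
    (hO : EmbAllB (rv R) (ys.zip (gr.map Prod.fst)) So)
    (hD : EmbAllB R ((v, k₁.2) :: (b₁, k₂.2) :: (a, k₃.2) :: (w', k₄.2) ::
      (ys'.zip gr').map (fun p => (p.1, p.2.2))) SD) (hSD : SD ⊆ X₀) :
    ((P₁ ∪ low R sg X) \ (T₁ ∪ {v, b₁, a, w'})).card + (X₀ \ SD).card + inS gr +
        szS (k₁ :: k₂ :: k₃ :: k₄ :: (gr' ++ L)) = (P ∪ X).card + inS gr' + szS L ∧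
      (PGoal R ys' gr' y' L (((P₁ ∪ low R sg X) \ (T₁ ∪ {v, b₁, a, w'})) ∪ (X₀ \ SD)) →
        PGoal R ys gr y (k₁ :: k₂ :: k₃ :: k₄ :: (gr' ++ L)) (P ∪ X)) := by
  obtain ⟨W₀, hW₀⟩ : ∃ W₀, W₀ = low R sg X := ⟨_, rfl⟩
  rw [← hW₀] at h ⊢
  obtain ⟨Hs, hHs⟩ : ∃ Hs : Finset V, Hs = {v, b₁, a, w'} := ⟨_, rfl⟩
  rw [← hHs] at h ⊢
  have hHsm : ∀ x, x ∈ (v :: b₁ :: a :: w' :: ys').toFinset ↔ x ∈ Hs ∨ x ∈ ys' := by
    intro x
    rw [List.mem_toFinset, hHs]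
    simp only [List.mem_cons, mem_insert, mem_singleton]
    tauto
  have hvys : v ∉ ys' := (h.hH v (by rw [hHs]; simp)).2
  have hbys : b₁ ∉ ys' := (h.hH b₁ (by rw [hHs]; simp)).2
  have hays : a ∉ ys' := (h.hH a (by rw [hHs]; simp)).2
  have hwys : w' ∉ ys' := (h.hH w' (by rw [hHs]; simp)).2
  have hylast : y' ∈ ys' := List.mem_of_getLast? hG.last
  have hP₁X : ∀ x ∈ P₁, x ∈ X := fun x hx => h.hU₁X (h.hP₁U₁ hx)
  have hnew : ∀ x, x ∈ P₁ ∨ x ∈ W₀ → x ∈ X ∧ x ∉ P ∧ x ∉ So ∧ x ∉ ys' ∧ x ∉ T ∧ x ∉ S ∧ x ∉ X₀ := by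
    rintro x (hx | hx)
    · have hX := hP₁X x hx
      have hP : x ∉ P := fun h1 => h.hPX x h1 hX
      refine ⟨hX, hP, fun h1 => (h.hSo x h1).2.1 (h.hP₁U₁ hx), fun h1 => (h.hys x h1).2.1 hx,
        fun h1 => h.disj x hx (h.hT x h1).1, fun h1 => hP (h.hS h1), fun h1 => ((h.hX₀ x).1 h1).2.1 hx⟩
    · have hX := h.hW₀X hx
      have hP : x ∉ P := fun h1 => h.hPX x h1 hX
      refine ⟨hX, hP, fun h1 => (h.hSo x h1).2.2.1 hx, fun h1 => (h.hW₀ x hx).1 (h.hys x h1).1,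
        fun h1 => (h.hW₀ x hx).2 (h.hT x h1).1, fun h1 => hP (h.hS h1), fun h1 => ((h.hX₀ x).1 h1).2.2.1 hx⟩
  exact glue_crit (R := R) (Z := P ∪ X) (P' := (P₁ ∪ W₀) \ (T₁ ∪ Hs)) (X' := X₀ \ SD) (SI := T₁ ∪ (T ∪ S)) (SD := SD)
    (SO := So) (v := v) (b := b₁) (a := a) (w := w') (y := y) (y' := y') (ys := ys) (ys' := ys') hlen hG.len hG.last (by
      simp only [List.nodup_cons, List.mem_cons, not_or]
      exact ⟨⟨hvb, hva, hvw, hvys⟩, ⟨hba, hbw, hbys⟩, ⟨haw, hays⟩, hwys, hG.nodup⟩) (by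
      cases hys : ys' with
      | nil =>
        rw [hys] at hylast
        simp at hylast
      | cons y₁ ys₁ =>
        have h1 := hG.chain
        rw [hys] at h1
        exact ((((h1.cons_cons (hRwy y₁ (by rw [hys]; simp))).cons_cons hRaw).cons_cons hRba).cons_cons hRvb)) hNv hO
    hI hD (by
      rw [disjoint_left]
      intro x hx hxD
      have h1 := ((h.hX₀ x).1 (hSD hxD)).2
      simp only [mem_union] at hx
      tauto) (by
      intro u hu
      rw [← List.mem_toFinset, hHsm] at hu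
      simp only [mem_union, not_or]
      rcases hu with hu | hu
      · have hX := (h.hH u hu).1
        exact ⟨⟨fun h1 => (h.hT₁ u h1).2.1 hu, fun h1 => (h.hT u h1).2.2.1 hu, fun h1 => h.hPX u (h.hS h1) hX⟩,
          fun h1 => ((h.hX₀ u).1 (hSD h1)).2.2.2.2.1 hu⟩
      · have hX := h.hU₁X (h.hys u hu).1
        exact ⟨⟨fun h1 => (h.hT₁ u h1).2.2 hu, fun h1 => (h.hT u h1).2.1 (h.hys u hu).1,
          fun h1 => h.hPX u (h.hS h1) hX⟩, fun h1 => ((h.hX₀ u).1 (hSD h1)).2.2.2.1 hu⟩) (by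
      intro x hx
      rw [mem_union, hHsm, mem_union, mem_union, mem_union] at hx
      rw [mem_union]
      rcases hx with (hx | hx) | ((hx | hx | hx) | hx)
      · exact Or.inr (h.hH x hx).1
      · exact Or.inr (h.hU₁X (h.hys x hx).1)
      · exact Or.inr (h.hT₁ x hx).1
      · exact Or.inr (h.hP₂X (h.hT x hx).1)
      · exact Or.inl (h.hS hx)
      · exact mem_union.1 (h.sub (hSD hx))) (fun x hx => mem_union.2 (h.hSo x hx).1) (by
      rw [disjoint_left]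
      intro x hx hx'
      obtain ⟨-, h1, h2, h3, h4, h5, h6, h7⟩ := h.hSo x hx
      rw [mem_union, hHsm, mem_union, mem_union, mem_union] at hx'
      rcases hx' with (hx' | hx') | ((hx' | hx' | hx') | hx')
      · exact h3 hx'
      · exact h1 (h.hys x hx').1
      · exact h4 hx'
      · exact h5 hx'
      · exact h6 hx'
      · exact ((h.hX₀ x).1 (hSD hx')).2.2.2.2.2.2.2.2 hx) (by
      ext x
      rw [mem_union, mem_sdiff, mem_sdiff, mem_sdiff, mem_union, mem_union, mem_union, mem_union, mem_union, hHsm,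
        mem_union, mem_union, mem_union]
      constructor
      · rintro (⟨h1, h2⟩ | ⟨h1, h2⟩)
        · obtain ⟨n1, n2, n3, n4, n5, n6, n7⟩ := hnew x h1
          refine ⟨Or.inr n1, ?_⟩
          rintro (h3 | (h3 | h3) | ((h3 | h3 | h3) | h3))
          · exact n3 h3
          · exact h2 (Or.inr h3)
          · exact n4 h3
          · exact h2 (Or.inl h3)
          · exact n5 h3
          · exact n6 h3
          · exact n7 (hSD h3)
        · have h3 := (h.hX₀ x).1 h1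
          obtain ⟨n1, n2, n3, n4, n5, n6, n7, n8, n9⟩ := h3
          refine ⟨n1, ?_⟩
          rintro (h3 | (h3 | h3) | ((h3 | h3 | h3) | h3))
          · exact n9 h3
          · exact n5 h3
          · exact n4 h3
          · exact n6 h3
          · exact n7 h3
          · exact n8 h3
          · exact h2 h3
      · rintro ⟨h1, h2⟩
        push Not at h2
        obtain ⟨n1, ⟨n2, n3⟩, ⟨n4, n5, n6⟩, n7⟩ := h2
        by_cases h3 : x ∈ P₁ ∨ x ∈ W₀
        · left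
          exact ⟨h3, fun h4 => h4.elim n4 n2⟩
        · right
          rw [not_or] at h3
          exact ⟨(h.hX₀ x).2 ⟨h1, h3.1, h3.2, n3, n2, n4, n5, n6, n1⟩, n7⟩) (by
      rw [disjoint_left]
      intro x hx hx'
      rw [mem_sdiff, mem_union] at hx
      exact (hnew x hx.1).2.2.2.2.2.2 (mem_sdiff.1 hx').1)

end AEG
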