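import Pool.Agent.AEG.GroupEA
import Pool.Agent.AEG.StC

/-!
# From a critical group to the next group: the sets

`CEd`: the sets after the in-side was placed: `P` is the old pool, `P₁ ∪ W₀` the new one, the hosts of the links are `Hs`,
`T₁`, `T`, `S` are the items of the links, `E` is set aside, `So` are the items of the old group, `X₀` is what is left
(outside the new pool).
-/

set_option autoImplicit false

namespace AEG

open Finset AE15 AED AEB SPD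
open scoped Classical

/-- the sets -/
structure CEd {V : Type} (R : V → V → Prop) (P X G P₁ P₂ U₁ W₀ : Finset V) (ys : List V)
    (Hs T₁ T S E Bp So X₀ : Finset V) (q Q mB w₀ J J₂ gl pp : ℕ) : Prop where
  hPX : ∀ x ∈ P, x ∉ X
  hP₁U₁ : P₁ ⊆ U₁
  hU₁X : U₁ ⊆ X
  hP₂X : P₂ ⊆ X
  hW₀X : W₀ ⊆ X
  hW₀ : ∀ x ∈ W₀, x ∉ U₁ ∧ x ∉ P₂
  part : ∀ x ∈ X, x ∈ W₀ ∨ x ∈ P₁ ∨ x ∈ P₂ ∨ x ∈ ys
  disj : ∀ x ∈ P₁, x ∉ P₂
  hys : ∀ x ∈ ys, x ∈ U₁ ∧ x ∉ P₁ ∧ x ∉ P₂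
  len : ys.length = gl
  card₁ : P₁.card = pp
  hH : ∀ x ∈ Hs, x ∈ X ∧ x ∉ ys
  cH : Hs.card ≤ 4
  hT₁ : ∀ x ∈ T₁, x ∈ X ∧ x ∉ Hs ∧ x ∉ ys
  cT₁ : T₁.card ≤ w₀
  hT : ∀ x ∈ T, x ∈ P₂ ∧ x ∉ U₁ ∧ x ∉ Hs ∧ x ∉ T₁
  hS : S ⊆ P
  hE : E ⊆ P
  hSE : ∀ x ∈ S, x ∉ E
  cT : T₁.card + (T.card + S.card) = q
  cSE : S.card + E.card ≤ q
  cSE' : q ≤ S.card + E.card + w₀
  hBp : E.Nonempty → Bp ⊆ G ∧ (∀ x ∈ Bp, x ∈ P₂ ∧ x ∉ U₁ ∧ x ∉ Hs ∧ x ∉ T₁ ∧ x ∉ T) ∧ Bp.card = mB ∧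
    ∀ u ∈ E, Bp.card ≤ 2 * (nI R Bp u).card
  hSo : ∀ x ∈ So, (x ∈ P ∨ x ∈ X) ∧ x ∉ U₁ ∧ x ∉ W₀ ∧ x ∉ Hs ∧ x ∉ T₁ ∧ x ∉ T ∧ x ∉ S ∧ x ∉ E
  cSo : So.card = Q
  cSo' : (So \ P).card ≤ J
  cP : P.card ≤ Q + q + J₂
  hX₀ : ∀ x, x ∈ X₀ ↔ (x ∈ P ∨ x ∈ X) ∧ x ∉ P₁ ∧ x ∉ W₀ ∧ x ∉ ys ∧ x ∉ Hs ∧ x ∉ T₁ ∧ x ∉ T ∧ x ∉ S ∧ x ∉ So

variable {V : Type} {R : V → V → Prop} {P X G P₁ P₂ U₁ W₀ : Finset V} {ys : List V}
  {Hs T₁ T S E Bp So X₀ : Finset V} {q Q mB w₀ J J₂ gl pp : ℕ}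

theorem CEd.sub (h : CEd R P X G P₁ P₂ U₁ W₀ ys Hs T₁ T S E Bp So X₀ q Q mB w₀ J J₂ gl pp) : X₀ ⊆ P ∪ X :=
  fun x hx => mem_union.2 ((h.hX₀ x).1 hx).1

theorem CEd.EX₀ (h : CEd R P X G P₁ P₂ U₁ W₀ ys Hs T₁ T S E Bp So X₀ q Q mB w₀ J J₂ gl pp) :
    ∀ x ∈ E, x ∈ X₀ ∧ x ∉ P₂ ∧ x ∉ X := by
  intro x hx
  have h1 := h.hE hx
  have h2 := h.hPX x h1
  refine ⟨(h.hX₀ x).2 ⟨Or.inl h1, ?_, ?_, ?_, ?_, ?_, ?_, ?_, ?_⟩, fun h3 => h2 (h.hP₂X h3), h2⟩
  · exact fun h3 => h2 (h.hU₁X (h.hP₁U₁ h3))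
  · exact fun h3 => h2 (h.hW₀X h3)
  · exact fun h3 => h2 (h.hU₁X (h.hys x h3).1)
  · exact fun h3 => h2 (h.hH x h3).1
  · exact fun h3 => h2 (h.hT₁ x h3).1
  · exact fun h3 => h2 (h.hP₂X (h.hT x h3).1)
  · exact fun h3 => h.hSE x h3 hx
  · exact fun h3 => (h.hSo x h3).2.2.2.2.2.2.2 hx

/-- a member of `P₂` which is not used -/
theorem CEd.P₂X₀ (h : CEd R P X G P₁ P₂ U₁ W₀ ys Hs T₁ T S E Bp So X₀ q Q mB w₀ J J₂ gl pp) {x : V} (hx : x ∈ P₂)
    (h1 : x ∉ Hs) (h2 : x ∉ T₁) (h3 : x ∉ T) : x ∈ X₀ ∨ x ∈ So \ P := by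
  have h4 := h.hP₂X hx
  have hP : x ∉ P := fun h5 => h.hPX x h5 h4
  by_cases hS : x ∈ So
  · exact Or.inr (mem_sdiff.2 ⟨hS, hP⟩)
  · exact Or.inl ((h.hX₀ x).2 ⟨Or.inr h4, fun h5 => h.disj x h5 hx, fun h5 => (h.hW₀ x h5).2 hx,
      fun h5 => (h.hys x h5).2.2 hx, h1, h2, h3, fun h5 => hP (h.hS h5), hS⟩)

/-- the rest of the ambient set of the new pool -/
theorem CEd.U₁X₀ (h : CEd R P X G P₁ P₂ U₁ W₀ ys Hs T₁ T S E Bp So X₀ q Q mB w₀ J J₂ gl pp) {x : V} (hx : x ∈ U₁)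
    (h1 : x ∉ P₁) (h2 : x ∉ ys) (h3 : x ∉ Hs) (h4 : x ∉ T₁) : x ∈ X₀ ∧ x ∈ P₂ := by
  have hxX := h.hU₁X hx
  have hP₂ : x ∈ P₂ := by
    rcases h.part x hxX with h5 | h5 | h5 | h5
    · exact absurd hx (h.hW₀ x h5).1
    · exact absurd h5 h1
    · exact h5
    · exact absurd h5 h2
  refine ⟨?_, hP₂⟩
  rcases h.P₂X₀ hP₂ h3 h4 (fun h5 => (h.hT x h5).2.1 hx) with h5 | h5
  · exact h5
  · exact absurd hx (h.hSo x (mem_sdiff.1 h5).1).2.1

/-- the number of the used vertices -/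
theorem CEd.card_used (h : CEd R P X G P₁ P₂ U₁ W₀ ys Hs T₁ T S E Bp So X₀ q Q mB w₀ J J₂ gl pp) :
    ((P ∪ X) \ X₀).card ≤ pp + W₀.card + gl + 4 + q + Q := by
  have h1 : (P ∪ X) \ X₀ ⊆ (P₁ ∪ W₀) ∪ ((ys.toFinset ∪ Hs) ∪ ((T₁ ∪ (T ∪ S)) ∪ So)) := by
    intro x hx
    rw [mem_sdiff, h.hX₀, mem_union] at hx
    simp only [mem_union, List.mem_toFinset]
    by_contra hc
    push Not at hc
    exact hx.2 ⟨hx.1, hc.1.1, hc.1.2, hc.2.1.1, hc.2.1.2, hc.2.2.1.1, hc.2.2.1.2.1, hc.2.2.1.2.2, hc.2.2.2⟩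
  have h2 := (card_le_card h1).trans (card_union_le _ _)
  have h3 := card_union_le P₁ W₀
  have h4 := card_union_le (ys.toFinset ∪ Hs) ((T₁ ∪ (T ∪ S)) ∪ So)
  have h5 := card_union_le ys.toFinset Hs
  have h6 := card_union_le (T₁ ∪ (T ∪ S)) So
  have h7 := card_union_le T₁ (T ∪ S)
  have h8 := card_union_le T S
  have h9 := ys.toFinset_card_le
  have h10 := h.cT
  have h11 := h.cSo
  have h12 := h.len
  have h13 := h.cH
  have h14 := h.card₁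
  omega

theorem CEd.card_out (h : CEd R P X G P₁ P₂ U₁ W₀ ys Hs T₁ T S E Bp So X₀ q Q mB w₀ J J₂ gl pp) :
    ((P ∪ X) \ P₂).card ≤ P.card + W₀.card + pp + gl := by
  have h1 : (P ∪ X) \ P₂ ⊆ (P ∪ W₀) ∪ (P₁ ∪ ys.toFinset) := by
    intro x hx
    rw [mem_sdiff, mem_union] at hx
    simp only [mem_union, List.mem_toFinset]
    rcases hx.1 with h2 | h2
    · exact Or.inl (Or.inl h2)
    · rcases h.part x h2 with h3 | h3 | h3 | h3
      · exact Or.inl (Or.inr h3)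
      · exact Or.inr (Or.inl h3)
      · exact absurd h3 hx.2
      · exact Or.inr (Or.inr h3)
  have h2 := (card_le_card h1).trans (card_union_le _ _)
  have h3 := card_union_le P W₀
  have h4 := card_union_le P₁ ys.toFinset
  have h9 := ys.toFinset_card_le
  have h12 := h.len
  have h14 := h.card₁
  omega

/-- what is left of the old pool -/
theorem CEd.card_rest (h : CEd R P X G P₁ P₂ U₁ W₀ ys Hs T₁ T S E Bp So X₀ q Q mB w₀ J J₂ gl pp) :
    ((X₀ \ P₂) \ E).card ≤ J₂ + w₀ + J := by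
  have h1 : (X₀ \ P₂) \ E ⊆ P \ ((S ∪ E) ∪ (So ∩ P)) := by
    intro x hx
    rw [mem_sdiff, mem_sdiff, h.hX₀] at hx
    obtain ⟨⟨⟨h1, h2, h3, h4, h5, h6, h7, h8, h9⟩, h10⟩, h11⟩ := hx
    rw [mem_sdiff, mem_union, mem_union, mem_inter]
    refine ⟨?_, ?_⟩
    · rcases h1 with h12 | h12
      · exact h12
      · rcases h.part x h12 with h13 | h13 | h13 | h13
        · exact absurd h13 h3
        · exact absurd h13 h2
        · exact absurd h13 h10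
        · exact absurd h13 h4
    · rintro ((h12 | h12) | h12)
      · exact h8 h12
      · exact h11 h12
      · exact h9 h12.1
  have h2 : (S ∪ E) ∪ (So ∩ P) ⊆ P := union_subset (union_subset h.hS h.hE) inter_subset_right
  have h3 := card_le_card h1
  have h4 := card_sdiff_add_card_eq_card h2
  have h5 : ((S ∪ E) ∪ (So ∩ P)).card = S.card + E.card + (So ∩ P).card := by
    rw [card_union_of_disjoint, card_union_of_disjoint]
    · rw [disjoint_left]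
      exact h.hSE
    · rw [disjoint_left]
      intro x hx hx'
      have h6 := h.hSo x (mem_inter.1 hx').1
      rcases mem_union.1 hx with h7 | h7
      · exact h6.2.2.2.2.2.2.1 h7
      · exact h6.2.2.2.2.2.2.2 h7
  have h6 : So.card ≤ (So ∩ P).card + (So \ P).card := by
    rw [add_comm, card_sdiff_add_card_inter]
  have h8 := h.cSE'
  have h9 := h.cSo
  have h10 := h.cSo'
  have h11 := h.cP
  omega

/-- the protected dominators of `E` -/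
noncomputable def bpC (E Bp X₀ : Finset V) : Finset V := (Bp ∩ X₀).filter (fun _ => E.Nonempty)

theorem CEd.bpC_sub (h : CEd R P X G P₁ P₂ U₁ W₀ ys Hs T₁ T S E Bp So X₀ q Q mB w₀ J J₂ gl pp) :
    ∀ x ∈ bpC E Bp X₀, x ∈ X₀ ∧ x ∈ G ∧ x ∈ P₂ := by
  intro x hx
  rw [bpC, mem_filter, mem_inter] at hx
  obtain ⟨⟨h1, h2⟩, h3⟩ := hx
  obtain ⟨g1, g2, -, -⟩ := h.hBp h3
  exact ⟨h2, g1 h1, (g2 x h1).1⟩

theorem CEd.bpC_card (h : CEd R P X G P₁ P₂ U₁ W₀ ys Hs T₁ T S E Bp So X₀ q Q mB w₀ J J₂ gl pp) :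
    (bpC E Bp X₀).card ≤ mB := by
  by_cases hE : E.Nonempty
  · refine (card_le_card ((filter_subset _ _).trans inter_subset_left)).trans ?_
    rw [(h.hBp hE).2.2.1]
  · have : bpC E Bp X₀ = ∅ := by
      rw [bpC, filter_eq_empty_iff]
      exact fun _ _ => hE
    rw [this]
    simp

theorem CEd.bpC_nI (h : CEd R P X G P₁ P₂ U₁ W₀ ys Hs T₁ T S E Bp So X₀ q Q mB w₀ J J₂ gl pp) :
    ∀ u ∈ E, mB ≤ 2 * (nI R (bpC E Bp X₀) u).card + 2 * J := by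
  intro u hu
  obtain ⟨g1, g2, g3, g4⟩ := h.hBp ⟨u, hu⟩
  have h1 := g4 u hu
  have h2 : nI R Bp u ⊆ nI R (bpC E Bp X₀) u ∪ (So \ P) := by
    intro x hx
    rw [mem_nI] at hx
    rw [mem_union, mem_nI, bpC, mem_filter, mem_inter]
    obtain ⟨k1, -, k3, k4, k5⟩ := g2 x hx.1
    rcases h.P₂X₀ k1 k3 k4 k5 with h3 | h3
    · exact Or.inl ⟨⟨⟨hx.1, h3⟩, ⟨u, hu⟩⟩, hx.2⟩
    · exact Or.inr h3
  have h3 := (card_le_card h2).trans (card_union_le _ _)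
  have h4 := h.cSo'
  omega

/-- the members of `E` have many protected in-neighbours -/
theorem CEd.thr (h : CEd R P X G P₁ P₂ U₁ W₀ ys Hs T₁ T S E Bp So X₀ q Q mB w₀ J J₂ gl pp) {PZ Inc : Finset V}
    {lam le : ℕ} (hInc : ∀ x ∈ PZ, x ∉ Inc → lam ≤ (nI R PZ x).card) (hIncc : Inc.card ≤ 2 * lam)
    (hB : bpC E Bp X₀ ⊆ PZ) (hm : 2 * le + 4 * lam + 2 * J ≤ mB) : ∀ u ∈ E,
      le ≤ ((bpC E Bp X₀).filter (fun v => v ∉ E ∧ R v u ∧ lam ≤ (nI R PZ v).card)).card := by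
  intro u hu
  have h1 := h.bpC_nI u hu
  have h2 : nI R (bpC E Bp X₀) u ⊆
      ((bpC E Bp X₀).filter (fun v => v ∉ E ∧ R v u ∧ lam ≤ (nI R PZ v).card)) ∪ Inc := by
    intro x hx
    rw [mem_nI] at hx
    rw [mem_union, mem_filter]
    by_cases hxI : x ∈ Inc
    · exact Or.inr hxI
    · exact Or.inl ⟨hx.1, fun h4 => (h.EX₀ x h4).2.1 (h.bpC_sub x hx.1).2.2, hx.2, hInc x (hB hx.1) hxI⟩
  have h3 := (card_le_card h2).trans (card_union_le _ _)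
  omega

/-- the members of `E` have a capacity -/
theorem CEd.capE (h : CEd R P X G P₁ P₂ U₁ W₀ ys Hs T₁ T S E Bp So X₀ q Q mB w₀ J J₂ gl pp) {PZ : Finset V}
    {bb : ℕ} (hB : bpC E Bp X₀ ⊆ PZ) (hm : 2 * bb + 2 * J ≤ mB) : ∀ u ∈ E, bb ≤ (nI R PZ u).card := by
  intro u hu
  have h1 := h.bpC_nI u hu
  have h2 := card_le_card (nI_mono (R := R) (v := u) hB)
  omega

/-- the count for the side of the structure -/
theorem CEd.cnt (hT : AE32.Tour R) (h : CEd R P X G P₁ P₂ U₁ W₀ ys Hs T₁ T S E Bp So X₀ q Q mB w₀ J J₂ gl pp) {y : V}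
    (hy : y ∈ ys) {My Inc : Finset V} {κ₀ : ℝ} {lam Kd : ℕ} (hMy : My ⊆ P₂) (h0 : 0 < κ₀)
    (hcnt : ∀ j : ℕ, (j : ℝ) ≤ κ₀ / 4 * (P ∪ X).card → (P₂.filter (fun u => R u y ∧ (nI R My u).card ≤ j)).card ≤ 6 * j)
    (hI : ∀ u ∈ P₂, R u y → (nI R (My ∩ U₁) u).card ≤ (nI R (My \ U₁) u).card →
      (nI R (My \ U₁) u).card ≤ 4 * (nI R (My \ U₁) u \ (T₁ ∪ T)).card + w₀) (hIncc : Inc.card ≤ 2 * lam)
    (hsmall : ((q + 4 * (4 + J + 2 * lam) + 2 * w₀ : ℕ) : ℝ) ≤ κ₀ / 16 * (P ∪ X).card) (hK1 : 24 ≤ Kd)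
    (hK2 : 32 / κ₀ ≤ Kd) :
    ∀ j : ℕ, ((X₀ \ E).filter (fun u => ¬ R y u ∧ (nI R ((My ∩ X₀) \ Inc) u).card ≤ j)).card ≤
      (J₂ + J + 24 * (4 + J) + 13 * w₀ + 48 * lam) + Kd * (j + 1) := by
  intro j
  obtain ⟨Jn, hJn⟩ : ∃ Jn : Finset V, Jn = Hs ∪ (So \ P) := ⟨_, rfl⟩
  have hJc : Jn.card ≤ 4 + J := by
    rw [hJn]
    have h1 := card_union_le Hs (So \ P)
    have h2 := h.cH
    have h3 := h.cSo'
    omega
  have hyX : y ∉ X₀ := fun h2 => ((h.hX₀ y).1 h2).2.2.2.1 hy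
  have h1 := ge_cnt hT (X := P ∪ X) (P₂ := P₂) (My := My) (T := T₁ ∪ T) (Jn := Jn) (Inc := Inc) (X₀ := X₀) (E := E)
    (y := y) (w₀ := 2 * w₀) (i := 4 + J + 2 * lam) (Kd := Kd) h0 h.sub hyX hcnt (by
      intro u hu huy _
      have k1 : (nI R My u).card = (nI R (My ∩ U₁) u).card + (nI R (My \ U₁) u).card := by
        rw [← card_union_of_disjoint]
        · congr 1
          ext x
          simp only [mem_union, mem_nI, mem_inter, mem_sdiff]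
          tauto
        · rw [disjoint_left]
          intro x hx hx'
          rw [mem_nI, mem_inter] at hx
          rw [mem_nI, mem_sdiff] at hx'
          exact hx'.1.2 hx.1.2
      have k2 : (nI R (My ∩ U₁) u \ (T₁ ∪ T)).card + (nI R (My \ U₁) u \ (T₁ ∪ T)).card ≤
          (nI R My u \ (T₁ ∪ T)).card := by
        rw [← card_union_of_disjoint]
        · apply card_le_card
          intro x hx
          simp only [mem_union, mem_nI, mem_inter, mem_sdiff] at hx ⊢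
          tauto
        · rw [disjoint_left]
          intro x hx hx'
          rw [mem_sdiff, mem_nI, mem_inter] at hx
          rw [mem_sdiff, mem_nI, mem_sdiff] at hx'
          exact hx'.1.1.2 hx.1.1.2
      have k3 : (nI R (My ∩ U₁) u).card ≤ (nI R (My ∩ U₁) u \ (T₁ ∪ T)).card + w₀ := by
        have k4 : nI R (My ∩ U₁) u ⊆ (nI R (My ∩ U₁) u \ (T₁ ∪ T)) ∪ T₁ := by
          intro x hx
          have k5 := (mem_nI.1 hx).1
          rw [mem_inter] at k5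
          rw [mem_union, mem_sdiff, mem_union, not_or]
          by_cases k6 : x ∈ T₁
          · exact Or.inr k6
          · exact Or.inl ⟨hx, k6, fun k7 => (h.hT x k7).2.1 k5.2⟩
        have k5 := (card_le_card k4).trans (card_union_le _ _)
        have k6 := h.cT₁
        omega
      by_cases hc : (nI R (My ∩ U₁) u).card ≤ (nI R (My \ U₁) u).card
      · have k4 := hI u hu huy hc
        omega
      · omega) (by
      intro u hu huX
      by_cases huT₁ : u ∈ T₁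
      · exact Or.inl (mem_union_left _ huT₁)
      by_cases huT : u ∈ T
      · exact Or.inl (mem_union_right _ huT)
      right
      rw [hJn, mem_union]
      by_cases huH : u ∈ Hs
      · exact Or.inl huH
      · rcases h.P₂X₀ (hMy hu) huH huT₁ huT with h2 | h2
        · exact absurd h2 huX
        · exact Or.inr h2) (by omega) (by
      refine le_trans ?_ hsmall
      have h2 := h.cT
      have h3 := card_union_le T₁ T
      exact_mod_cast (by omega : (T₁ ∪ T).card + 4 * (4 + J + 2 * lam) + 2 * w₀ ≤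
        q + 4 * (4 + J + 2 * lam) + 2 * w₀)) hK1 hK2 j
  have h2 := h.card_rest
  simp only [Nat.zero_le, true_and] at h1
  omega

/-- the count for the capacity -/
theorem CEd.cap (hT : AE32.Tour R) (h : CEd R P X G P₁ P₂ U₁ W₀ ys Hs T₁ T S E Bp So X₀ q Q mB w₀ J J₂ gl pp)
    {N' PZ : Finset V} {bb sg Kd : ℕ} (hlow : ∀ x ∈ P₂, sg ≤ (nI R X x).card)
    (hI : ∀ u ∈ P₂, (nI R (X \ (P₂ \ U₁)) u).card ≤ (nI R (P₂ \ U₁) u).card →
      (nI R (P₂ \ U₁) u).card ≤ 4 * (nI R (P₂ \ U₁) u \ (T₁ ∪ T)).card + w₀)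
    (hN' : ∀ x ∈ X, x ∉ P₂ \ U₁ → x ∉ ys → x ∉ Hs → x ∉ T₁ → x ∈ N' ∪ PZ)
    (hE' : ∀ u ∈ E, bb ≤ (nI R PZ u).card) (hsg : bb = 0 ∨ 16 * bb + (64 + 16 * J + 4 * w₀ + 2 * gl) ≤ sg)
    (hKd : 34 + J₂ + w₀ + J ≤ Kd) :
    ∀ j : ℕ, (X₀.filter (fun z => (nI R (N' ∪ PZ) z).card < bb ∧ (nI R (X₀ \ PZ) z).card ≤ j)).card ≤ Kd * (j + 1) := by
  intro j
  rcases hsg with hsg | hsg
  · have : X₀.filter (fun z => (nI R (N' ∪ PZ) z).card < bb ∧ (nI R (X₀ \ PZ) z).card ≤ j) = ∅ := by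
      rw [filter_eq_empty_iff]
      intro x _ hx
      omega
    rw [this]
    simp
  have h1 : X₀.filter (fun z => (nI R (N' ∪ PZ) z).card < bb ∧ (nI R (X₀ \ PZ) z).card ≤ j) ⊆
      ((X₀ \ P₂) \ E) ∪ X.filter (fun w => (nI R X w).card < 16 * j + 1) := by
    intro z hz
    rw [mem_filter] at hz
    obtain ⟨hz1, hz2, hz3⟩ := hz
    rw [mem_union, mem_sdiff, mem_sdiff, mem_filter]
    by_cases hzP : z ∈ P₂
    · right
      refine ⟨h.hP₂X hzP, ?_⟩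
      have k1 : (nI R X z).card = (nI R (X \ (P₂ \ U₁)) z).card + (nI R (P₂ \ U₁) z).card := by
        rw [← card_union_of_disjoint]
        · congr 1
          ext x
          simp only [mem_union, mem_nI, mem_sdiff]
          constructor
          · rintro ⟨k2, k3⟩
            by_cases k4 : x ∈ P₂ ∧ x ∉ U₁
            · exact Or.inr ⟨k4, k3⟩
            · exact Or.inl ⟨⟨k2, k4⟩, k3⟩
          · rintro (⟨⟨k2, -⟩, k3⟩ | ⟨⟨k2, -⟩, k3⟩)
            · exact ⟨k2, k3⟩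
            · exact ⟨h.hP₂X k2, k3⟩
        · rw [disjoint_left]
          intro x hx hx'
          rw [mem_nI, mem_sdiff] at hx
          rw [mem_nI] at hx'
          exact hx.1.2 hx'.1
      have k2 := hlow z hzP
      by_cases hc : (nI R (X \ (P₂ \ U₁)) z).card ≤ (nI R (P₂ \ U₁) z).card
      · have k3 := hI z hzP hc
        have k4 : nI R (P₂ \ U₁) z \ (T₁ ∪ T) ⊆ (nI R (X₀ \ PZ) z ∪ nI R (N' ∪ PZ) z) ∪ (Hs ∪ (So \ P)) := by
          intro x hx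
          rw [mem_sdiff, mem_nI, mem_sdiff, mem_union, not_or] at hx
          obtain ⟨⟨⟨k5, k6⟩, k7⟩, k8, k9⟩ := hx
          by_cases k10 : x ∈ Hs
          · exact mem_union_right _ (mem_union_left _ k10)
          rcases h.P₂X₀ k5 k10 k8 k9 with k11 | k11
          · apply mem_union_left
            by_cases k12 : x ∈ PZ
            · exact mem_union_right _ (mem_nI.2 ⟨mem_union_right _ k12, k7⟩)
            · exact mem_union_left _ (mem_nI.2 ⟨mem_sdiff.2 ⟨k11, k12⟩, k7⟩)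
          · exact mem_union_right _ (mem_union_right _ k11)
        have k5 := (card_le_card k4).trans (card_union_le _ _)
        have k6 := card_union_le (nI R (X₀ \ PZ) z) (nI R (N' ∪ PZ) z)
        have k7 := card_union_le Hs (So \ P)
        have k8 := h.cH
        have k9 := h.cSo'
        omega
      · exfalso
        have k4 : nI R (X \ (P₂ \ U₁)) z ⊆ nI R (N' ∪ PZ) z ∪ (ys.toFinset ∪ (Hs ∪ T₁)) := by
          intro x hx
          rw [mem_nI, mem_sdiff] at hx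
          obtain ⟨⟨k5, k6⟩, k7⟩ := hx
          simp only [mem_union, mem_nI, List.mem_toFinset]
          by_cases k8 : x ∈ ys
          · exact Or.inr (Or.inl k8)
          by_cases k9 : x ∈ Hs
          · exact Or.inr (Or.inr (Or.inl k9))
          by_cases k10 : x ∈ T₁
          · exact Or.inr (Or.inr (Or.inr k10))
          have k11 := hN' x k5 k6 k8 k9 k10
          rw [mem_union] at k11
          exact Or.inl ⟨k11, k7⟩
        have k5 := (card_le_card k4).trans (card_union_le _ _)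
        have k6 := card_union_le ys.toFinset (Hs ∪ T₁)
        have k7 := card_union_le Hs T₁
        have k8 := h.cH
        have k9 := h.cT₁
        have k10 := ys.toFinset_card_le
        have k11 := h.len
        omega
    · left
      refine ⟨⟨hz1, hzP⟩, fun hzE => ?_⟩
      have k1 := hE' z hzE
      have k2 := card_le_card (nI_mono (R := R) (v := z) (subset_union_right (s₁ := N') (s₂ := PZ)))
      omega
  have h2 := (card_le_card h1).trans (card_union_le _ _)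
  have h3 := h.card_rest
  have h4 := AECut.card_lowin hT (16 * j + 1) X
  have h5 : (34 + J₂ + w₀ + J) * (j + 1) ≤ Kd * (j + 1) := Nat.mul_le_mul_right _ hKd
  have h6 : (34 + J₂ + w₀ + J) * (j + 1) = 34 * (j + 1) + (J₂ + w₀ + J) * j + (J₂ + w₀ + J) := by ring
  omega

end AEG
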