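import Pool.Agent.H12AE.Half
import Pool.Agent.H12AE.Cap

/-!
# The reserved part of the cut-off set for the link items

`exists_class_avoid`: `H12AE.exists_class` for a class which avoids a given set.

`exists_Z`: a random-like half of `P`, all whose members are dominated by at least half of `B` (where
every member of `B` has few in-neighbours in `P`), which leaves a quarter of every member of a graded
family outside and has a proportional part of the in-neighbourhoods of boundedly many hosts.
-/

set_option autoImplicit false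

namespace AEG

open Finset AE15
open scoped Classical

theorem exists_class_avoid (N : ℕ) (K : ℝ) (M : ℕ) (hN : 2 ≤ N) :
    ∃ c : ℕ, ∀ {V ι κ : Type*} (A L : Finset V) (I : Finset ι) (D : ι → Finset V), (∀ j ∈ I, D j ⊆ A) →
      (∀ k : ℕ, ((I.filter (fun j => (D j).card = k)).card : ℝ) ≤ K * (k + 1)) →
      ∀ (H : Finset κ) (E : κ → Finset V), (∀ h ∈ H, E h ⊆ A) → H.card ≤ M →
      ∃ Z ⊆ A \ L, N * Z.card ≤ A.card ∧ (A \ L).card ≤ 2 * N * Z.card + c ∧
        (∀ j ∈ I, (D j).card ≤ 4 * (D j \ Z).card) ∧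
        (∀ h ∈ H, (E h \ L).card ≤ 2 * N * (E h ∩ Z).card + c) := by
  obtain ⟨c, hc⟩ := Pool.Agent.H12AE.exists_class N K (M + 1) hN
  refine ⟨c, fun {V ι κ} A L I D hD hK H E hE hH => ?_⟩
  obtain ⟨Z₀, h1, h2, h3, h4, h5, h6⟩ := hc A I D hD hK (insert none (H.map ⟨some, Option.some_injective κ⟩))
    (fun o => o.elim (A \ L) (fun h => E h \ L)) (by
      rintro (_ | h) hh
      · exact sdiff_subset
      · refine sdiff_subset.trans (hE h ?_)
        rw [mem_insert, mem_map] at hh
        rcases hh with hh | ⟨x, hx, hxh⟩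
        · exact absurd hh (by simp)
        · have : x = h := Option.some_injective _ hxh
          rwa [this] at hx) (by
      refine (card_insert_le _ _).trans ?_
      rw [card_map]
      omega)
  refine ⟨Z₀ \ L, sdiff_subset_sdiff h1 (Subset.refl _), ?_, ?_, ?_, ?_⟩
  · exact (Nat.mul_le_mul_left _ (card_le_card sdiff_subset)).trans h2
  · have h7 := h5 none (mem_insert_self _ _)
    simp only [Option.elim_none] at h7
    have h8 : ((A \ L) ∩ Z₀).card ≤ (Z₀ \ L).card := by
      apply card_le_card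
      intro u hu
      rw [mem_inter, mem_sdiff] at hu
      rw [mem_sdiff]
      exact ⟨hu.2, hu.1.2⟩
    have h9 := Nat.mul_le_mul_left (2 * N) h8
    omega
  · intro j hj
    refine (h4 j hj).trans (Nat.mul_le_mul_left _ (card_le_card ?_))
    intro u hu
    rw [mem_sdiff] at hu ⊢
    exact ⟨hu.1, fun h => hu.2 (mem_sdiff.1 h).1⟩
  · intro h hh
    have h7 := h5 (some h) (mem_insert_of_mem (mem_map.2 ⟨h, hh, rfl⟩))
    simp only [Option.elim_some] at h7
    have h8 : ((E h \ L) ∩ Z₀).card ≤ (E h ∩ (Z₀ \ L)).card := by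
      apply card_le_card
      intro u hu
      rw [mem_inter, mem_sdiff] at hu
      rw [mem_inter, mem_sdiff]
      exact ⟨hu.1.1, hu.2, hu.1.2⟩
    have h9 := Nat.mul_le_mul_left (2 * N) h8
    omega

theorem exists_Z (K : ℝ) (M : ℕ) : ∃ c : ℕ, ∀ {V ι : Type*} {R : V → V → Prop}, AE32.Tour R →
    ∀ (P B : Finset V) (t : ℕ), Disjoint P B → (∀ b ∈ B, (nI R P b).card < t) →
    ∀ (I : Finset ι) (D : ι → Finset V), (∀ j ∈ I, D j ⊆ P) →
      (∀ k : ℕ, ((I.filter (fun j => (D j).card = k)).card : ℝ) ≤ K * (k + 1)) →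
      ∀ H : Finset V, H.card ≤ M → ∃ Z ⊆ P, (∀ a ∈ Z, B.card ≤ 2 * (nI R B a).card) ∧
        (∀ j ∈ I, (D j).card ≤ 4 * (D j \ Z).card) ∧
        (∀ h ∈ H, (nI R P h).card ≤ 4 * (nI R Z h).card + 2 * t + c) ∧
        P.card ≤ 4 * Z.card + 2 * t + c ∧ 2 * Z.card ≤ P.card := by
  obtain ⟨c, hc⟩ := exists_class_avoid 2 K M le_rfl
  refine ⟨c, fun {V ι R} hT P B t hPB hB I D hD hK H hH => ?_⟩
  obtain ⟨L, hL⟩ : ∃ L, L = P.filter (fun a => 2 * (nI R B a).card < B.card) := ⟨_, rfl⟩
  have hLc : L.card ≤ 2 * t := by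
    rcases B.eq_empty_or_nonempty with h0 | h0
    · have : L = ∅ := by
        rw [hL, h0, filter_eq_empty_iff]
        intro a _ h
        simp at h
      rw [this]
      simp
    · rw [hL]
      exact Pool.Agent.H12AE.card_not_half hT hPB h0 hB
  obtain ⟨Z, h1, h2, h3, h4, h5⟩ := hc P L I D hD hK H (fun h => nI R P h) (fun h _ => nI_sub) hH
  have hPL : P.card ≤ (P \ L).card + L.card := by
    have := le_card_sdiff L P
    omega
  refine ⟨Z, h1.trans sdiff_subset, ?_, h4, ?_, by omega, h2⟩
  · intro a ha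
    have ha' := h1 ha
    rw [mem_sdiff, hL, mem_filter] at ha'
    by_contra hc'
    exact ha'.2 ⟨ha'.1, by omega⟩
  · intro h hh
    have h7 := h5 h hh
    have h8 : (nI R P h ∩ Z).card ≤ (nI R Z h).card := by
      apply card_le_card
      intro u hu
      rw [mem_inter, mem_nI] at hu
      rw [mem_nI]
      exact ⟨hu.2, hu.1.2⟩
    have h9 : (nI R P h).card ≤ (nI R P h \ L).card + L.card := by
      have := le_card_sdiff L (nI R P h)
      omega
    omega

/-- reach of the leftover: if every member of `Lam` has at least half of `B` as in-neighbours, and all but `s` of the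
vertices of `B` are well covered, then every member of `Lam` has a well covered in-neighbour in `B` -/
theorem exists_cov {V : Type*} {R : V → V → Prop} {B : Finset V} {s : ℕ} {Q : V → Prop} {a : V}
    (ha : B.card ≤ 2 * (nI R B a).card) (hs : (B.filter (fun b => ¬ Q b)).card ≤ s) (hB : 2 * s < B.card) :
    ∃ b ∈ B, R b a ∧ Q b := by
  by_contra hc
  push Not at hc
  have h1 : (nI R B a).card ≤ (B.filter (fun b => ¬ Q b)).card := by
    apply card_le_card
    intro b hb
    rw [mem_nI] at hb
    rw [mem_filter]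
    exact ⟨hb.1, hc b hb.1 hb.2⟩
  omega

end AEG
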