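import Pool.Agent.AEG.LinkB
import Pool.Agent.AEG.LinkZ

/-!
# The items of the link vertices

`P₁` is the part which is going to be filled exactly, `Q` is the rest, `Av` is a small subset which has to be avoided. The
forests hang at boundedly many hosts. (Everything is stated for the direction of the packing: the arcs leave the host.)

`links_one`: if few good vertices of `Q` have fewer than `M` out-neighbours in `P₁` then all forests are embedded in `P₁`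
up to boundedly many vertices.

`links_two`: otherwise there is a set `B` of vertices of `Q` with few out-neighbours in `P₁`. The forests are embedded
anywhere, and a set `Λ` of vertices of `P₁` is set aside such that `P₁` loses exactly as many vertices as the forests
have; all members of `Λ` have at least half of `B` as out-neighbours.

The predicate `Pr` is the property of the part `Z` of `P₁` which may be used.
-/

set_option autoImplicit false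

namespace AEG

open Finset AE15 AED AEB SPD
open scoped Classical

theorem links_one (b l : ℕ) (hb : 1 ≤ b) (h₀ : ℕ) : ∃ w₀ h₁ C : ℕ, ∀ {V : Type} {R : V → V → Prop}, AE32.Tour R →
    ∀ {P₁ Q Av G B Hs : Finset V} {M m s₀ : ℕ} {os : List (V × Fd)} {Pr : Finset V → Prop}, os.length ≤ h₀ →
      Hs.card ≤ h₀ → (∀ p ∈ os, p.1 ∈ Hs ∧ FOK b l 0 p.2 ∧ (∀ q ∈ p.2.trees, q.1 = true)) → Disjoint P₁ Q →
      (∀ u ∈ G ∩ Q, (nO R P₁ u).card < M → u ∈ B) → (∀ u ∈ Q, u ∉ G → (nI R G u).card ≤ s₀) →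
      s₀ + B.card + Av.card + m ≤ (G ∩ Q).card →
      (∀ p ∈ os, M ≤ (nO R P₁ p.1).card ∨ B.card + Av.card + m ≤ (nO R Q p.1).card) → Av.card + C ≤ m →
      (∀ H : Finset V, H.card ≤ h₁ → ∃ Z ⊆ P₁, Pr Z ∧
        ∀ h ∈ H, M ≤ (nO R P₁ h).card → totB os + C ≤ (nO R Z h).card) →
      ∃ T Z S : Finset V, T ⊆ Q ∧ Disjoint T (Av ∪ Hs) ∧ T.card ≤ w₀ ∧ Z ⊆ P₁ ∧ Pr Z ∧ S ⊆ Z ∧
        EmbAllB R os (T ∪ S) ∧ T.card + S.card = totB os := by
  obtain ⟨C₁, hfill⟩ := fillB b l hb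
  refine ⟨h₀ * (b * wB b (ab b l) 2), h₀ * (b * vB b (ab b l) 2), C₁ + h₀ +
    (h₀ + 1) * (b * wB b (ab b l) 2 + 1 + 2 ^ ab b l), ?_⟩
  intro V R hT P₁ Q Av G B Hs M m s₀ os Pr hlen hHs hos hPQ hB hbulk hG hcap hm hZ
  have hlev : ∀ p ∈ os, p.1 ∈ Lv R ((Q \ Av) ∪ Hs) (Kp R P₁ ((Q \ Av) ∪ Hs) M) m 2 := by
    intro p hp
    rcases hcap p hp with h | h
    · exact sub_Lv 2 (mem_Kp.2 ⟨mem_union_right _ (hos p hp).1, h⟩)
    · exact lv_good hT hB hbulk hG h (hos p hp).1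
  have hmul : (os.length + 1) * (b * wB b (ab b l) 2 + 1 + 2 ^ ab b l) ≤
      (h₀ + 1) * (b * wB b (ab b l) 2 + 1 + 2 ^ ab b l) := Nat.mul_le_mul_right _ (by omega)
  have hAH := card_union_le Av Hs
  obtain ⟨T, L, h1, h2, h3, h4, h5, h6⟩ := tops hT hb 2 (P₁ := P₁) (Q := Q) (Av := Av) (Hs := Hs) (M := M) (m := m) os
    (fun p hp => (hos p hp).2) hlev (by omega)
  obtain ⟨H, hH⟩ : ∃ H : Finset V, H = (L.map Prod.fst).toFinset := ⟨_, rfl⟩
  have hHc : H.card ≤ h₀ * (b * vB b (ab b l) 2) := by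
    rw [hH]
    refine (List.toFinset_card_le _).trans ?_
    rw [List.length_map]
    exact h5.trans (Nat.mul_le_mul_right _ hlen)
  obtain ⟨Z, hZP, hPr, hZH⟩ := hZ H hHc
  obtain ⟨S, hS, hE, hc⟩ := hfill hT h1 (disjoint_of_subset_left h2 (disjoint_of_subset_right hZP hPQ.symm)) (by
    intro q hq
    obtain ⟨g1, g2, -⟩ := h6 q hq
    have g3 : q.1 ∈ H := by
      rw [hH, List.mem_toFinset]
      exact List.mem_map_of_mem hq
    have g4 := hZH q.1 g3 g2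
    exact ⟨g1, by omega⟩)
  exact ⟨T, Z, S, h2, h3, h4.trans (Nat.mul_le_mul_right _ hlen), hZP, hPr, hS, hE, hc⟩

theorem links_two (b l : ℕ) (hb : 1 ≤ b) (h₀ : ℕ) (Kg : ℝ) : ∃ C : ℕ, ∀ {V : Type} {R : V → V → Prop}, AE32.Tour R →
    ∀ {P₁ Q Av B Hs : Finset V} {M A₀ t : ℕ} {os : List (V × Fd)} {Pr : Finset V → Prop}, os.length ≤ h₀ →
      Hs.card ≤ h₀ → (∀ p ∈ os, p.1 ∈ Hs ∧ FOK b l 0 p.2 ∧ (∀ q ∈ p.2.trees, q.1 = true)) → Disjoint P₁ Q →
      B ⊆ Q → B.Nonempty → (∀ u ∈ B, (nO R P₁ u).card < t) →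
      (∀ p ∈ os, M ≤ (nO R P₁ p.1).card ∨
        4 * totB os + C ≤ (nO R (Q \ (Av ∪ B)) p.1).card) → 2 * t + 2 * totB os + C ≤ A₀ →
      (∃ Z ⊆ P₁, Pr Z ∧ A₀ ≤ Z.card ∧ ∀ h ∈ Hs, M ≤ (nO R P₁ h).card → A₀ ≤ (nO R Z h).card) →
      ∀ {ι : Type} (I : Finset ι) (D : ι → Finset V), (∀ j ∈ I, D j ⊆ Q) →
        (∀ k : ℕ, ((I.filter (fun j => (D j).card = k)).card : ℝ) ≤ Kg * (k + 1)) →
      ∃ T Z S Lam : Finset V, T ⊆ Q \ (Av ∪ B) ∧ Z ⊆ P₁ ∧ Pr Z ∧ S ⊆ Z ∧ Lam ⊆ Z ∧ Disjoint S Lam ∧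
        EmbAllB R os (T ∪ S) ∧ T.card + S.card = totB os ∧ S.card + Lam.card = totB os ∧
        (∀ a ∈ Lam, B.card ≤ 2 * (nO R B a).card) ∧ (∀ j ∈ I, (D j).card ≤ 4 * (D j \ T).card) := by
  obtain ⟨C₁, hfill⟩ := fillB b l hb
  obtain ⟨c₂, hcls⟩ := exists_class_avoid 2 Kg h₀ le_rfl
  refine ⟨4 * C₁ + c₂, ?_⟩
  intro V R hT P₁ Q Av B Hs M A₀ t os Pr hlen hHs hos hPQ hBQ hBne hBt hcap hA₀ hZ ι I D hD hK
  obtain ⟨Z, hZP, hPr, hZc, hZH⟩ := hZ
  obtain ⟨Ls, hLs⟩ : ∃ Ls, Ls = P₁.filter (fun a => 2 * (nO R B a).card < B.card) := ⟨_, rfl⟩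
  have hLsc : Ls.card ≤ 2 * t := by
    rw [hLs]
    exact Pool.Agent.H12AE.card_not_half (R := rv R) (rv_tour hT)
      (disjoint_of_subset_right hBQ hPQ) hBne hBt
  obtain ⟨Z₂, k1, k2, k3, k4, k5⟩ := hcls Q (Av ∪ B) I D hD hK Hs (fun h => nO R Q h) (fun h _ => nO_sub) hHs
  obtain ⟨L, hL⟩ := pend_allB (R := R) os (fun p hp => (hos p hp).2.2)
  obtain ⟨S₀, hS₀, hE, hc⟩ := hfill hT (Z := (Z \ Ls) ∪ Z₂) hL (disjoint_empty_left _) (by
    intro q hq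
    obtain ⟨g1, g2⟩ := hL.mem (fun p hp => (hos p hp).2.1) q hq
    refine ⟨g2, ?_⟩
    obtain ⟨p, hp, hqp⟩ := g1.resolve_left (notMem_empty _)
    rw [hqp]
    rcases hcap p hp with h | h
    · have h2 := hZH p.1 (hos p hp).1 h
      have h3 : nO R Z p.1 ⊆ nO R ((Z \ Ls) ∪ Z₂) p.1 ∪ Ls := by
        intro x hx
        rw [mem_nO] at hx
        rw [mem_union, mem_nO, mem_union, mem_sdiff]
        by_cases hxL : x ∈ Ls
        · exact Or.inr hxL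
        · exact Or.inl ⟨Or.inl ⟨hx.1, hxL⟩, hx.2⟩
      have h4 := (card_le_card h3).trans (card_union_le _ _)
      omega
    · have h2 := k5 p.1 (hos p hp).1
      have h3 : nO R (Q \ (Av ∪ B)) p.1 ⊆ nO R Q p.1 \ (Av ∪ B) := by
        intro x hx
        rw [mem_nO, mem_sdiff] at hx
        rw [mem_sdiff, mem_nO]
        exact ⟨⟨hx.1.1, hx.2⟩, hx.1.2⟩
      have h4 : nO R Q p.1 ∩ Z₂ ⊆ nO R ((Z \ Ls) ∪ Z₂) p.1 := by
        intro x hx
        rw [mem_inter, mem_nO] at hx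
        rw [mem_nO, mem_union]
        exact ⟨Or.inr hx.2, hx.1.2⟩
      have h5 := card_le_card h3
      have h6 := card_le_card h4
      omega)
  rw [empty_union] at hE
  rw [card_empty, zero_add] at hc
  have hZ₂Q : Z₂ ⊆ Q := k1.trans sdiff_subset
  have hdP : Disjoint P₁ Z₂ := disjoint_of_subset_right hZ₂Q hPQ
  have hS1 : S₀ ∩ P₁ ⊆ Z \ Ls := by
    intro x hx
    rw [mem_inter] at hx
    rcases mem_union.1 (hS₀ hx.1) with h | h
    · exact h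
    · exact absurd h (disjoint_left.1 hdP hx.2)
  have hS2 : S₀ \ P₁ ⊆ Z₂ := by
    intro x hx
    rw [mem_sdiff] at hx
    rcases mem_union.1 (hS₀ hx.1) with h | h
    · exact absurd (hZP (mem_sdiff.1 h).1) hx.2
    · exact h
  have hSc : (S₀ \ P₁).card + (S₀ ∩ P₁).card = totB os := by
    rw [← hc]
    exact card_sdiff_add_card_inter S₀ P₁
  have hZc' : totB os ≤ ((Z \ Ls) \ (S₀ ∩ P₁)).card + (S₀ ∩ P₁).card := by
    have h1 := le_card_sdiff Ls Z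
    have h2 := le_card_sdiff (S₀ ∩ P₁) (Z \ Ls)
    omega
  obtain ⟨Lam, hLam, hLamc⟩ := exists_subset_card_eq
    (show totB os - (S₀ ∩ P₁).card ≤ ((Z \ Ls) \ (S₀ ∩ P₁)).card by omega)
  refine ⟨S₀ \ P₁, Z, S₀ ∩ P₁, Lam, hS2.trans k1, hZP, hPr, hS1.trans sdiff_subset,
    hLam.trans (sdiff_subset.trans sdiff_subset), ?_, ?_, hSc, by omega, ?_, ?_⟩
  · rw [disjoint_left]
    intro x hx hx'
    exact (mem_sdiff.1 (hLam hx')).2 hx
  · have h1 : S₀ \ P₁ ∪ S₀ ∩ P₁ = S₀ := sdiff_union_inter S₀ P₁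
    rw [h1]
    exact hE
  · intro a ha
    have h1 := (mem_sdiff.1 (hLam ha)).1
    rw [mem_sdiff, hLs, mem_filter, not_and, not_lt] at h1
    exact h1.2 (hZP h1.1)
  · intro j hj
    exact (k4 j hj).trans (Nat.mul_le_mul_left _ (card_le_card (sdiff_subset_sdiff (Subset.refl _) hS2)))

end AEG
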