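import Pool.Agent.AEG.DefsG
import Pool.Agent.AEG.LinkC

/-!
# The fine class: critical groups

A critical group is a group whose in-mass is large against everything behind it. Its in-items are not packed when its
hosts are chosen: the part `P` for them is kept until the next group is cut, and it takes the in-items of the four links
between the two groups, too. `CSt`: an abstract state with such a part (`P`: the part, `X`: the other free vertices, `ys`: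
the hosts of the group, `y`: the last one, `lam`, `w`: as in `StE`, `bb`: the capacity of the next links, `le`: the number
of the vertices through which the members of the exceptional set of `X` are covered).
-/

set_option autoImplicit false

namespace AEG

open Finset AE15 AED AEB SPD
open scoped Classical

/-- the in-items of the hosts `ys` and the line `L` behind the last host `y` can be placed in `Z` -/
def PGoal {V : Type} (R : V → V → Prop) (ys : List V) (gr : List (Fd × Fd)) (y : V) (L : List (Fd × Fd))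
    (Z : Finset V) : Prop :=
  ∃ S X' : Finset V, S ⊆ Z ∧ X' ⊆ Z ∧ Disjoint S X' ∧ EmbAllB (rv R) (ys.zip (gr.map Prod.fst)) S ∧ InS R L (R y) X'

/-- an abstract state with a critical group: `CS V R P X ys y lam w bb le` -/
abbrev CSt := ∀ (V : Type), (V → V → Prop) → Finset V → Finset V → List V → V → ℕ → ℕ → ℕ → ℕ → Prop

/-- **Entering**: a state without an open group, then a critical group. `xq` is the mass of the next four links if these
are to be placed in `P`, too; `c₁` is the slack of `P`. -/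
def EnterB (CS : CSt) (b l K₀ : ℕ) (κ η s : ℝ) (Λ Λp A f K' Nn : ℕ) (ζ ξ : ℝ) (C C₀ C₂ : ℕ) : Prop :=
  ∀ {V : Type} {R : V → V → Prop}, AE32.Tour R →
  ∀ (X : Finset V) (N : V → Prop) (lam sig w lam' bb le xq c₁ c : ℕ) (l₁ l₂ l₃ : Fd × Fd) (gr L : List (Fd × Fd)),
    StE R X ∅ N κ η s lam sig f w K' 0 → (∀ q ∈ l₁ :: l₂ :: l₃ :: (gr ++ L), BrO b l q) →
    gr ≠ [] → gr.length ≤ Nn → L ≠ [] → NoDs K₀ (l₁ :: l₂ :: l₃ :: gr) L → C ≤ c → C₀ ≤ c₁ → xq ≤ bb →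
    szS (l₁ :: l₂ :: l₃ :: (gr ++ L)) + c = X.card → ζ * X.card ≤ (szS L + c : ℕ) →
    Λ * (inS [l₁, l₂, l₃] + bb + le + lam') + C ≤ lam → lam ≤ sig → Λ * (w + sig + inS [l₁, l₂, l₃]) + C ≤ inS gr →
    Λp * (bb + lam' + c₁ + C) ≤ inS gr →
    ((inS [l₁, l₂, l₃] + inS gr : ℕ) : ℝ) ≤ ξ * X.card →
    ∃ (P X' : Finset V) (ys : List V) (y : V) (w' : ℕ), w' ≤ A * lam' + C ∧ P ⊆ X ∧ X' ⊆ X ∧
      CS V R P X' ys y lam' w' bb le ∧ ys.length = gr.length ∧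
      inS gr + xq + c₁ ≤ P.card ∧ P.card ≤ inS gr + xq + c₁ + C₂ ∧
      P.card + X'.card + szS (l₁ :: l₂ :: l₃ :: (gr ++ L)) = X.card + inS gr + szS L ∧
      (PGoal R ys gr y L (P ∪ X') → InS R (l₁ :: l₂ :: l₃ :: (gr ++ L)) N X)

/-- **From a critical group to the next group** `gr'`: if `gr'` is critical, too, the capacity `bb'` is positive, if
`bb' = 0` then `gr'` is arbitrary (its part `P'` is then packed by `FinB`). The slack of `P` is `C₀`. -/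
def CritB (CS : CSt) (b l K₀ : ℕ) (Λ Λp A Nn : ℕ) (ζ ξ : ℝ) (C C₀ C₂ : ℕ) : Prop :=
  ∀ {V : Type} {R : V → V → Prop}, AE32.Tour R →
  ∀ (P X : Finset V) (ys : List V) (y : V) (w bb le lam' bb' le' xq' c₁' c : ℕ) (k₁ k₂ k₃ k₄ : Fd × Fd)
    (gr gr' L : List (Fd × Fd)),
    CS V R P X ys y 0 w bb le → ys.length = gr.length →
    (∀ q ∈ gr ++ k₁ :: k₂ :: k₃ :: k₄ :: (gr' ++ L), BrO b l q) → gr ≠ [] → gr.length ≤ Nn →
    gr' ≠ [] → gr'.length ≤ Nn → L ≠ [] → NoDs K₀ (k₁ :: k₂ :: k₃ :: k₄ :: gr') L → C ≤ c → C₀ ≤ c₁' →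
    inS gr + inS [k₁, k₂, k₃, k₄] + C₀ ≤ P.card → P.card ≤ inS gr + inS [k₁, k₂, k₃, k₄] + C₀ + C₂ →
    P.card + X.card = inS gr + szS (k₁ :: k₂ :: k₃ :: k₄ :: (gr' ++ L)) + c →
    ζ * ((P.card + X.card : ℕ) : ℝ) ≤ (szS L + c : ℕ) →
    Λ * (inS [k₁, k₂, k₃, k₄] + inS gr' + xq' + bb' + le' + lam' + c₁') + C ≤ bb →
    Λp * (inS [k₁, k₂, k₃, k₄] + inS gr' + xq' + bb' + c₁' + C) ≤ P.card →
    (Λp * (bb' + lam' + c₁' + C) ≤ inS gr' ∧ xq' ≤ bb' ∨ bb' = 0 ∧ xq' = 0) → Λ * w + C ≤ inS gr' + c₁' → w + C ≤ le →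
    ((P.card + lam' + le' : ℕ) : ℝ) ≤ ξ * X.card →
    ∃ (P' X' : Finset V) (ys' : List V) (y' : V) (w' : ℕ), w' ≤ A * lam' + C ∧ P' ⊆ X ∧ X' ⊆ P ∪ X ∧
      CS V R P' X' ys' y' lam' w' bb' le' ∧ ys'.length = gr'.length ∧
      inS gr' + xq' + c₁' ≤ P'.card ∧ P'.card ≤ inS gr' + xq' + c₁' + C₂ ∧
      P'.card + X'.card = inS gr' + szS L + c ∧
      (PGoal R ys' gr' y' L (P' ∪ X') → PGoal R ys gr y (k₁ :: k₂ :: k₃ :: k₄ :: (gr' ++ L)) (P ∪ X))

/-- **Closing**: the part of the last group is packed; the next vertices are those of an exit -/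
def FinB (CS : CSt) (b l : ℕ) (κw ηw sw : ℝ) (f K₁ Nn : ℕ) (ξ : ℝ) (C C₀ C₂ : ℕ) : Prop :=
  ∀ {V : Type} {R : V → V → Prop}, AE32.Tour R →
  ∀ (P X : Finset V) (ys : List V) (y : V) (lam w bb le c₁ : ℕ) (gr L : List (Fd × Fd)),
    CS V R P X ys y lam w bb le → ys.length = gr.length → (∀ q ∈ gr, BrO b l q) → gr ≠ [] → gr.length ≤ Nn →
    C₀ ≤ c₁ → inS gr + c₁ ≤ P.card → P.card ≤ inS gr + c₁ + C₂ → (P.card : ℝ) ≤ ξ * X.card → C ≤ X.card →
    ∃ (X' E : Finset V) (w' lamE : ℕ), w' ≤ w + c₁ + C ∧ le ≤ lamE + C ∧ X' ⊆ P ∪ X ∧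
      X'.card + inS gr = P.card + X.card ∧ StE R X' E (R y) κw ηw sw (lam - C) 0 f w' K₁ lamE ∧
      (InS R L (R y) X' → PGoal R ys gr y L (P ∪ X))

/-- **Critical groups.** The factor `a₀ * Nn ^ k₀` (mass of a critical group against the mass behind it) is polynomial in
the length of the groups, the other constants are not. `Λ`, `A` do not depend on `Nn`. -/
def CritPack (b l K₀ : ℕ) (κ η s : ℝ) (Λ A a₀ k₀ : ℕ) : Prop := ∀ (Nn : ℕ) (ζ ηw : ℝ), 1 ≤ Nn → 0 < ζ → 0 < ηw →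
  ∃ κw sw : ℝ, 0 < κw ∧ 0 < sw ∧ ∃ f₀ K₁ C₀ C₂ : ℕ, ∀ f K' : ℕ, f₀ ≤ f → ∃ (CS : CSt) (ξ : ℝ) (C : ℕ), 0 < ξ ∧
    EnterB CS b l K₀ κ η s Λ (a₀ * Nn ^ k₀) A f K' Nn ζ ξ C C₀ C₂ ∧
    CritB CS b l K₀ Λ (a₀ * Nn ^ k₀) A Nn ζ ξ C C₀ C₂ ∧ FinB CS b l κw ηw sw f K₁ Nn ξ C C₀ C₂

end AEG
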