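import Pool.Agent.AEG.State
import Pool.Agent.AEG.ListM

/-!
# The fine class: the state and the rounds

`StE`: the state between two rounds. `X` is the set of all free vertices, `N` the property of the possible next hosts (the
out-neighbours of the last host), `w` bounds the number of the uncovered vertices of in-degree at least `sig`, `lam` is
the capacity (in-degree) of the dominators; the vertices of `E` are covered through two intermediate vertices only.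

`RoundL`, `CloseN`, `CloseD`, `CloseE`: the rounds. `c` is the excess of the number of the free vertices.
-/

set_option autoImplicit false

namespace AEG

open Finset AE15 AED AEB
open scoped Classical

/-- the state between two rounds of the fine class -/
structure StE {T : Type*} (R : T → T → Prop) (X E : Finset T) (N : T → Prop) (κ η s : ℝ) (lam sig f w K lamE : ℕ) :
    Prop where
  sub : E ⊆ X
  dense : s * X.card ≤ ((cg R X ∅ N κ η lam).card : ℝ)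
  cnt : ∀ j ≤ f, ((X \ E).filter (fun u => ¬ N u ∧ sig ≤ (nI R X u).card ∧
    (nI R (cg R X ∅ N κ η lam) u).card ≤ j)).card ≤ w + K * j
  thr : ∀ u ∈ E, lamE ≤ ((X \ E).filter (fun b => R b u ∧ Good R κ η X b ∧ lam ≤ (nI R X b).card)).card

/-- the branches have bounded runs (are pure, if `l = 0`), and the roots hang on the path vertex in the right direction -/
def BrO (b l : ℕ) (q : Fd × Fd) : Prop :=
  FOK b l 0 q.1 ∧ FOK b l 0 q.2 ∧ (∀ t ∈ q.1.trees, t.1 = true) ∧ ∀ t ∈ q.2.trees, t.1 = true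

/-- no out-drop: the out-branches at the vertex in front of `L` have at most `K` times the size of `L` -/
def NoD (K : ℕ) (q : Fd × Fd) (L : List (Fd × Fd)) : Prop := q.2.size ≤ K * szS L

/-- no out-drop at any of the vertices of `gr`, which stand in front of `L` -/
def NoDs (K : ℕ) : List (Fd × Fd) → List (Fd × Fd) → Prop
  | [], _ => True
  | q :: gr, L => NoD K q (gr ++ L) ∧ NoDs K gr L

/-- **The light round**: one or two vertices are placed. `K'` is the slope of the input, `K₁` that of the output, `M₉` the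
retention. -/
def RoundL (b l K₀ : ℕ) (κ η s δ : ℝ) (M₉ K₁ : ℕ) : Prop := ∀ f K' : ℕ, ∃ C : ℕ, ∀ {V : Type} {R : V → V → Prop},
  AE32.Tour R → ∀ (X : Finset V) (N : V → Prop) (lam sig w lam' : ℕ) (q₁ q₂ q₃ : Fd × Fd) (L : List (Fd × Fd)),
    StE R X ∅ N κ η s lam sig f w K' 0 → (∀ q ∈ q₁ :: q₂ :: q₃ :: L, BrO b l q) →
    L ≠ [] → NoDs K₀ [q₁, q₂, q₃] L →
    16 * inS [q₁, q₂, q₃] + C ≤ lam → 16 * inS [q₁, q₂, q₃] + M₉ * lam' + C ≤ sig →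
    ((w + sig + inS [q₁, q₂, q₃] : ℕ) : ℝ) ≤ δ * X.card → C ≤ X.card → szS (q₁ :: q₂ :: q₃ :: L) + C ≤ X.card →
    ∃ (i : ℕ) (X' : Finset V) (z : V) (w' : ℕ), 1 ≤ i ∧ i ≤ 2 ∧ X' ⊆ X ∧
      X'.card + szS (q₁ :: q₂ :: q₃ :: L) = X.card + szS ((q₁ :: q₂ :: q₃ :: L).drop i) ∧
      StE R X' ∅ (R z) κ η s lam' sig f w' K₁ 0 ∧
      w' ≤ max (w - inS ((q₁ :: q₂ :: q₃ :: L).take i)) (4 * inS ((q₁ :: q₂ :: q₃ :: L).take i)) ∧
      (InS R ((q₁ :: q₂ :: q₃ :: L).drop i) (R z) X' → InS R (q₁ :: q₂ :: q₃ :: L) N X)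

/-- what a heavy stage leaves: the first one, two or three vertices `t₁`, `t₂`, `t₃` behind the group are hosted, too, the
state is at the host `z` of the last one -/
def After {V : Type} (R : V → V → Prop) (κ η s : ℝ) (f K₁ lam' sig' w' : ℕ) (X : Finset V) (N : V → Prop)
    (Lt : List (Fd × Fd)) (t₂ t₃ : Fd × Fd) (L : List (Fd × Fd)) : Prop :=
  ∃ (L' : List (Fd × Fd)) (X' : Finset V) (z : V), (L' = t₂ :: t₃ :: L ∨ L' = t₃ :: L ∨ L' = L) ∧ X' ⊆ X ∧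
    X'.card + szS Lt = X.card + szS L' ∧ StE R X' ∅ (R z) κ η s lam' sig' f w' K₁ 0 ∧
    (InS R L' (R z) X' → InS R Lt N X)

/-- **Heavy stage, the mass behind is comparable**: links `l₁ l₂ l₃`, group `gr` (mass `Q`), then `t₁`, `t₂`, `t₃`; the low
vertices stay aside. `A` does not depend on `Nn` (the length of the group). -/
def CloseN (b l K₀ : ℕ) (κ η s : ℝ) (Λ A : ℕ) : Prop := ∀ (Nn : ℕ) (ζ : ℝ), 0 < ζ → ∃ f₀ K₁ : ℕ, ∀ f K' : ℕ, f₀ ≤ f →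
  ∃ (ξ : ℝ) (C : ℕ), 0 < ξ ∧ ∀ {V : Type} {R : V → V → Prop}, AE32.Tour R →
  ∀ (X : Finset V) (N : V → Prop) (lam sig w lam' c : ℕ) (l₁ l₂ l₃ t₁ t₂ t₃ : Fd × Fd) (gr L : List (Fd × Fd)),
    StE R X ∅ N κ η s lam sig f w K' 0 → (∀ q ∈ l₁ :: l₂ :: l₃ :: (gr ++ t₁ :: t₂ :: t₃ :: L), BrO b l q) →
    gr.length ≤ Nn → L ≠ [] → NoDs K₀ (l₁ :: l₂ :: l₃ :: (gr ++ [t₁, t₂, t₃])) L → C ≤ c →
    szS (l₁ :: l₂ :: l₃ :: (gr ++ t₁ :: t₂ :: t₃ :: L)) + c = X.card → ζ * X.card ≤ (szS L + c : ℕ) →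
    Λ * inS [l₁, l₂, l₃] + C ≤ lam → Λ * (inS [l₁, l₂, l₃] + inS [t₁, t₂, t₃] + lam' + 1) + C ≤ sig → C ≤ inS gr →
    ((w + sig + inS [l₁, l₂, l₃] + inS gr : ℕ) : ℝ) ≤ ξ * X.card →
    ∃ w', w' ≤ max (w - inS gr) (inS [l₁, l₂, l₃]) + A * (inS [t₁, t₂, t₃] + lam') + C ∧
      After R κ η s f K₁ lam' sig w' X N (l₁ :: l₂ :: l₃ :: (gr ++ t₁ :: t₂ :: t₃ :: L)) t₂ t₃ L

/-- **Heavy stage, drop**: the mass of the group is large against `w` and `sig`; the cut is made in the whole set (only the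
vertices of in-degree `≤ A * (inS [t₁, t₂, t₃] + lam' + 1)` stay aside), the threshold `sig` is reset to `0` -/
def CloseD (b l K₀ : ℕ) (κ η s : ℝ) (Λ A : ℕ) : Prop := ∀ (Nn : ℕ) (ζ : ℝ), 0 < ζ → ∃ f₀ K₁ : ℕ, ∀ f K' : ℕ, f₀ ≤ f →
  ∃ (ξ : ℝ) (C : ℕ), 0 < ξ ∧ ∀ {V : Type} {R : V → V → Prop}, AE32.Tour R →
  ∀ (X : Finset V) (N : V → Prop) (lam sig w lam' c : ℕ) (l₁ l₂ l₃ t₁ t₂ t₃ : Fd × Fd) (gr L : List (Fd × Fd)),
    StE R X ∅ N κ η s lam sig f w K' 0 → (∀ q ∈ l₁ :: l₂ :: l₃ :: (gr ++ t₁ :: t₂ :: t₃ :: L), BrO b l q) →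
    gr.length ≤ Nn → L ≠ [] → NoDs K₀ (l₁ :: l₂ :: l₃ :: (gr ++ [t₁, t₂, t₃])) L → C ≤ c →
    szS (l₁ :: l₂ :: l₃ :: (gr ++ t₁ :: t₂ :: t₃ :: L)) + c = X.card → ζ * X.card ≤ (szS L + c : ℕ) →
    Λ * inS [l₁, l₂, l₃] + C ≤ lam → lam ≤ sig →
    Λ * (w + sig + inS [l₁, l₂, l₃] + inS [t₁, t₂, t₃] + lam') + C ≤ inS gr →
    ((inS [l₁, l₂, l₃] + inS gr : ℕ) : ℝ) ≤ ξ * X.card →
    ∃ w', w' ≤ inS [l₁, l₂, l₃] + A * (inS [t₁, t₂, t₃] + lam') + C ∧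
      After R κ η s f K₁ lam' 0 w' X N (l₁ :: l₂ :: l₃ :: (gr ++ t₁ :: t₂ :: t₃ :: L)) t₂ t₃ L

/-- **Heavy stage, drop, steep**: the items of the links are placed exactly, or their surplus is covered by the host of the
last exit vertex, too -/
def CloseE (b l K₀ : ℕ) (κ η s : ℝ) (Λ A : ℕ) : Prop := ∀ (Nn : ℕ) (ζ : ℝ), 0 < ζ → ∃ f₀ K₁ : ℕ, ∀ f K' : ℕ,
  f₀ ≤ f → ∃ (ξ : ℝ) (C : ℕ), 0 < ξ ∧ ∀ {V : Type} {R : V → V → Prop}, AE32.Tour R →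
  ∀ (X : Finset V) (N : V → Prop) (lam sig w lam' c : ℕ) (l₁ l₂ l₃ t₁ t₂ t₃ : Fd × Fd) (gr L : List (Fd × Fd)),
    StE R X ∅ N κ η s lam sig f w K' 0 → (∀ q ∈ l₁ :: l₂ :: l₃ :: (gr ++ t₁ :: t₂ :: t₃ :: L), BrO b l q) →
    gr.length ≤ Nn → L ≠ [] → NoDs K₀ (l₁ :: l₂ :: l₃ :: (gr ++ [t₁, t₂, t₃])) L → C ≤ c →
    szS (l₁ :: l₂ :: l₃ :: (gr ++ t₁ :: t₂ :: t₃ :: L)) + c = X.card → ζ * X.card ≤ (szS L + c : ℕ) →
    Λ * inS [l₁, l₂, l₃] + C ≤ lam → lam ≤ sig → A * (inS [t₁, t₂, t₃] + lam') + C ≤ inS [l₁, l₂, l₃] →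
    Λ * (w + sig + inS [l₁, l₂, l₃] + inS [t₁, t₂, t₃] + lam') + C ≤ inS gr →
    ((inS [l₁, l₂, l₃] + inS gr : ℕ) : ℝ) ≤ ξ * X.card →
    ∃ w', w' ≤ A * (inS [t₁, t₂, t₃] + lam') + C ∧
      After R κ η s f K₁ lam' 0 w' X N (l₁ :: l₂ :: l₃ :: (gr ++ t₁ :: t₂ :: t₃ :: L)) t₂ t₃ L

/-- the start: no host yet -/
def StartF (κ η s : ℝ) : Prop := ∃ n₀ : ℕ, ∀ {V : Type} {R : V → V → Prop}, AE32.Tour R → ∀ (X : Finset V) (lam : ℕ),
  n₀ ≤ X.card → (lam : ℝ) ≤ s * X.card → s * X.card ≤ ((cg R X ∅ (fun _ => True) κ η lam).card : ℝ)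

end AEG
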