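import Pool.Agent.AEG.DefsF

/-!
# The fine class: heavy stages up to the last host of the group, and the exit

A heavy stage is `GroupN`, `GroupD` or `GroupE` (up to the last host `y` of the group, where the state is weak: its
constants `κw`, `sw` depend on the length of the group and on the share `ζ`), followed by `ExitR`.
-/

set_option autoImplicit false

namespace AEG

open Finset AE15 AED AEB
open scoped Classical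

/-- what the exit leaves: one, two or three vertices are hosted -/
def After3 {V : Type} (R : V → V → Prop) (κ η s : ℝ) (f K₁ lam' sig' w' : ℕ) (X : Finset V) (N : V → Prop)
    (Lt : List (Fd × Fd)) (t₂ t₃ : Fd × Fd) (L : List (Fd × Fd)) : Prop :=
  ∃ (L' : List (Fd × Fd)) (X' : Finset V) (z : V), (L' = t₂ :: t₃ :: L ∨ L' = t₃ :: L ∨ L' = L) ∧ X' ⊆ X ∧
    X'.card + szS Lt = X.card + szS L' ∧ StE R X' ∅ (R z) κ η s lam' sig' f w' K₁ 0 ∧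
    (InS R L' (R z) X' → InS R Lt N X)

/-- **The exit**: from a weak state to a strong state, whose constants `κ η s` depend on `b l K₀` only. The set `E` (the
surplus of the items of the links) is absorbed. -/
def ExitR (b l K₀ : ℕ) (κ η s ηw : ℝ) (Λ A : ℕ) : Prop := ∀ κw sw : ℝ, 0 < κw → 0 < sw → ∃ K₁ : ℕ, ∀ f K' : ℕ,
  ∃ (δ : ℝ) (C : ℕ), 0 < δ ∧ ∀ {V : Type} {R : V → V → Prop}, AE32.Tour R →
  ∀ (X E : Finset V) (N : V → Prop) (lam sig w lamE lam' : ℕ) (t₁ t₂ t₃ : Fd × Fd) (L : List (Fd × Fd)),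
    StE R X E N κw ηw sw lam sig f w K' lamE → (E = ∅ ∨ w + 2 * sig + C ≤ lamE) →
    (∀ q ∈ t₁ :: t₂ :: t₃ :: L, BrO b l q) → L ≠ [] → NoDs K₀ [t₁, t₂, t₃] L →
    Λ * inS [t₁, t₂, t₃] + C ≤ lam → ((w + sig + inS [t₁, t₂, t₃] + lam' : ℕ) : ℝ) ≤ δ * X.card → C ≤ X.card →
    szS (t₁ :: t₂ :: t₃ :: L) ≤ X.card →
    ∃ w', w' ≤ w + A * (inS [t₁, t₂, t₃] + lam') + C ∧
      After3 R κ η s f K₁ lam' sig w' X N (t₁ :: t₂ :: t₃ :: L) t₂ t₃ L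

/-- what a heavy stage leaves: the group is hosted, `y` is the last host -/
def AfterG {V : Type} (R : V → V → Prop) (κw ηw sw : ℝ) (f K₁ lam' sig' w' lamE : ℕ) (X E : Finset V) (N : V → Prop)
    (Lt : List (Fd × Fd)) (L : List (Fd × Fd)) : Prop :=
  ∃ (X' : Finset V) (y : V), X' ⊆ X ∧ X'.card + szS Lt = X.card + szS L ∧
    StE R X' E (R y) κw ηw sw lam' sig' f w' K₁ lamE ∧ (InS R L (R y) X' → InS R Lt N X)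

/-- **Heavy stage, the mass behind is comparable** -/
def GroupN (b l K₀ : ℕ) (κ η s : ℝ) (Λ A : ℕ) : Prop := ∀ (Nn : ℕ) (ζ ηw : ℝ), 0 < ζ → 0 < ηw →
  ∃ κw sw : ℝ, 0 < κw ∧ 0 < sw ∧ ∃ f₀ K₁ : ℕ, ∀ f K' : ℕ, f₀ ≤ f →
  ∃ (ξ : ℝ) (C : ℕ), 0 < ξ ∧ ∀ {V : Type} {R : V → V → Prop}, AE32.Tour R →
  ∀ (X : Finset V) (N : V → Prop) (lam sig w lam' c : ℕ) (l₁ l₂ l₃ : Fd × Fd) (gr L : List (Fd × Fd)),
    StE R X ∅ N κ η s lam sig f w K' 0 → (∀ q ∈ l₁ :: l₂ :: l₃ :: (gr ++ L), BrO b l q) →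
    gr.length ≤ Nn → L ≠ [] → NoDs K₀ (l₁ :: l₂ :: l₃ :: gr) L → C ≤ c →
    szS (l₁ :: l₂ :: l₃ :: (gr ++ L)) + c = X.card → ζ * X.card ≤ (szS L + c : ℕ) →
    Λ * inS [l₁, l₂, l₃] + C ≤ lam → Λ * (inS [l₁, l₂, l₃] + lam' + 1) + C ≤ sig → C ≤ inS gr →
    ((w + sig + inS [l₁, l₂, l₃] + inS gr : ℕ) : ℝ) ≤ ξ * X.card →
    ∃ w', w' ≤ max (w - inS gr) (inS [l₁, l₂, l₃]) + A * lam' + C ∧
      AfterG R κw ηw sw f K₁ lam' sig w' 0 X ∅ N (l₁ :: l₂ :: l₃ :: (gr ++ L)) L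

/-- **Heavy stage, drop** -/
def GroupD (b l K₀ : ℕ) (κ η s : ℝ) (Λ A : ℕ) : Prop := ∀ (Nn : ℕ) (ζ ηw : ℝ), 0 < ζ → 0 < ηw →
  ∃ κw sw : ℝ, 0 < κw ∧ 0 < sw ∧ ∃ f₀ K₁ : ℕ, ∀ f K' : ℕ, f₀ ≤ f →
  ∃ (ξ : ℝ) (C : ℕ), 0 < ξ ∧ ∀ {V : Type} {R : V → V → Prop}, AE32.Tour R →
  ∀ (X : Finset V) (N : V → Prop) (lam sig w lam' c : ℕ) (l₁ l₂ l₃ : Fd × Fd) (gr L : List (Fd × Fd)),
    StE R X ∅ N κ η s lam sig f w K' 0 → (∀ q ∈ l₁ :: l₂ :: l₃ :: (gr ++ L), BrO b l q) →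
    gr.length ≤ Nn → L ≠ [] → NoDs K₀ (l₁ :: l₂ :: l₃ :: gr) L → C ≤ c →
    szS (l₁ :: l₂ :: l₃ :: (gr ++ L)) + c = X.card → ζ * X.card ≤ (szS L + c : ℕ) →
    Λ * inS [l₁, l₂, l₃] + C ≤ lam → lam ≤ sig → Λ * (w + sig + inS [l₁, l₂, l₃] + lam') + C ≤ inS gr →
    ((inS [l₁, l₂, l₃] + inS gr : ℕ) : ℝ) ≤ ξ * X.card →
    ∃ w', w' ≤ inS [l₁, l₂, l₃] + A * lam' + C ∧
      AfterG R κw ηw sw f K₁ lam' 0 w' 0 X ∅ N (l₁ :: l₂ :: l₃ :: (gr ++ L)) L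

/-- **Heavy stage, drop, steep**: the items of the links are placed exactly, or the surplus `E` is covered through many
vertices -/
def GroupE (b l K₀ : ℕ) (κ η s : ℝ) (Λ Λ₁ A : ℕ) : Prop := ∀ (Nn : ℕ) (ζ ηw : ℝ), 0 < ζ → 0 < ηw →
  ∃ κw sw : ℝ, 0 < κw ∧ 0 < sw ∧ ∃ f₀ K₁ : ℕ, ∀ f K' : ℕ, f₀ ≤ f →
  ∃ (ξ : ℝ) (C : ℕ), 0 < ξ ∧ ∀ {V : Type} {R : V → V → Prop}, AE32.Tour R →
  ∀ (X : Finset V) (N : V → Prop) (lam sig w lam' c : ℕ) (l₁ l₂ l₃ : Fd × Fd) (gr L : List (Fd × Fd)),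
    StE R X ∅ N κ η s lam sig f w K' 0 → (∀ q ∈ l₁ :: l₂ :: l₃ :: (gr ++ L), BrO b l q) →
    gr.length ≤ Nn → L ≠ [] → NoDs K₀ (l₁ :: l₂ :: l₃ :: gr) L → C ≤ c →
    szS (l₁ :: l₂ :: l₃ :: (gr ++ L)) + c = X.card → ζ * X.card ≤ (szS L + c : ℕ) →
    Λ * inS [l₁, l₂, l₃] + C ≤ lam → lam ≤ sig → lam' ≤ inS [l₁, l₂, l₃] → C ≤ inS [l₁, l₂, l₃] →
    Λ * (w + sig + inS [l₁, l₂, l₃] + lam') + C ≤ inS gr →
    ((inS [l₁, l₂, l₃] + inS gr : ℕ) : ℝ) ≤ ξ * X.card →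
    ∃ (w' : ℕ) (E : Finset V), w' ≤ A * lam' + C ∧ E.card ≤ inS [l₁, l₂, l₃] ∧
      AfterG R κw ηw sw f K₁ lam' 0 w' (Λ₁ * inS [l₁, l₂, l₃]) X E N (l₁ :: l₂ :: l₃ :: (gr ++ L)) L

end AEG
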