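import Pool.Agent.AEG.NumF

/-!
# The fine class: the driver
-/

set_option autoImplicit false

namespace AEG

open Finset AE15 AED AEB
open scoped Classical

/-! ### Monotonicity of the rounds in their constants -/

section
variable {b l K₀ : ℕ} {κ η s δ : ℝ} {M₉ Λ A Nn : ℕ} {ζ : ℝ} {K₁ K₁' f K' : ℕ} {ξ ξ' : ℝ} {C C' : ℕ}

theorem RoundLC.mono (h : RoundLC b l K₀ κ η s δ M₉ K₁ f K' C) (hK : K₁ ≤ K₁') (hC : C ≤ C') :
    RoundLC b l K₀ κ η s δ M₉ K₁' f K' C' := by
  intro V R hT X N lam sig w lam' q₁ q₂ q₃ L a1 a2 a3 a4 a5 a6 a7 a8 a9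
  obtain ⟨i, X', z, w', b1, b2, b3, b4, b5, b6, b7⟩ :=
    h hT X N lam sig w lam' q₁ q₂ q₃ L a1 a2 a3 a4 (by omega) (by omega) a7 (by omega) (by omega)
  exact ⟨i, X', z, w', b1, b2, b3, b4, b5.mono le_rfl le_rfl le_rfl hK, b6, b7⟩

theorem After.mono {V : Type} {R : V → V → Prop} {lam' sig' w' : ℕ} {X : Finset V}
    {N : V → Prop} {Lt : List (Fd × Fd)} {t₂ t₃ : Fd × Fd} {L : List (Fd × Fd)}
    (h : After R κ η s f K₁ lam' sig' w' X N Lt t₂ t₃ L) (hK : K₁ ≤ K₁') :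
    After R κ η s f K₁' lam' sig' w' X N Lt t₂ t₃ L := by
  obtain ⟨L', X', z, h1, h2, h3, h4, h5⟩ := h
  exact ⟨L', X', z, h1, h2, h3, h4.mono le_rfl le_rfl le_rfl hK, h5⟩

theorem le_xi {ξ ξ' : ℝ} {a : ℕ} {n : ℕ} (h : (a : ℝ) ≤ ξ' * n) (hx : ξ' ≤ ξ) : (a : ℝ) ≤ ξ * n :=
  h.trans (mul_le_mul_of_nonneg_right hx (Nat.cast_nonneg _))

theorem CloseNC.mono (h : CloseNC b l K₀ κ η s Λ A Nn ζ K₁ f K' ξ C) (hK : K₁ ≤ K₁') (hC : C ≤ C') (hξ : ξ' ≤ ξ) :
    CloseNC b l K₀ κ η s Λ A Nn ζ K₁' f K' ξ' C' := by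
  intro V R hT X N lam sig w lam' c l₁ l₂ l₃ t₁ t₂ t₃ gr L a1 a2 a3 a4 a5 a6 a7 a8 a9 a10 a11 a12
  obtain ⟨w', b1, b2⟩ := h hT X N lam sig w lam' c l₁ l₂ l₃ t₁ t₂ t₃ gr L a1 a2 a3 a4 a5 (by omega) a7 a8 (by omega)
    (by omega) (by omega) (le_xi a12 hξ)
  exact ⟨w', by omega, b2.mono hK⟩

theorem CloseDC.mono (h : CloseDC b l K₀ κ η s Λ A Nn ζ K₁ f K' ξ C) (hK : K₁ ≤ K₁') (hC : C ≤ C') (hξ : ξ' ≤ ξ) :
    CloseDC b l K₀ κ η s Λ A Nn ζ K₁' f K' ξ' C' := by
  intro V R hT X N lam sig w lam' c l₁ l₂ l₃ t₁ t₂ t₃ gr L a1 a2 a3 a4 a5 a6 a7 a8 a9 a10 a11 a12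
  obtain ⟨w', b1, b2⟩ := h hT X N lam sig w lam' c l₁ l₂ l₃ t₁ t₂ t₃ gr L a1 a2 a3 a4 a5 (by omega) a7 a8 (by omega)
    a10 (by omega) (le_xi a12 hξ)
  exact ⟨w', by omega, b2.mono hK⟩

theorem CloseEC.mono (h : CloseEC b l K₀ κ η s Λ A Nn ζ K₁ f K' ξ C) (hK : K₁ ≤ K₁') (hC : C ≤ C') (hξ : ξ' ≤ ξ) :
    CloseEC b l K₀ κ η s Λ A Nn ζ K₁' f K' ξ' C' := by
  intro V R hT X N lam sig w lam' c l₁ l₂ l₃ t₁ t₂ t₃ gr L a1 a2 a3 a4 a5 a6 a7 a8 a9 a10 a11 a12 a13
  obtain ⟨w', b1, b2⟩ := h hT X N lam sig w lam' c l₁ l₂ l₃ t₁ t₂ t₃ gr L a1 a2 a3 a4 a5 (by omega) a7 a8 (by omega)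
    a10 (by omega) (by omega) (le_xi a13 hξ)
  exact ⟨w', by omega, b2.mono hK⟩

end

/-! ### Positions -/

/-- the next run (of `r` vertices) begins behind `k` vertices; before it the line is light -/
structure PosF (K₂ K₃ B : ℕ) (L : List (Fd × Fd)) (k r : ℕ) : Prop where
  r8 : r ≤ 8
  run : K₂ * inS ((L.drop k).take r) ≤ inS (L.drop (k + r)) + B
  trv : ∀ i < k, K₃ * inS ((L.drop i).take 3) ≤ inS (L.drop i) + B

theorem take_drop_le (L : List (Fd × Fd)) {a i r r' : ℕ} (h : r' + i ≤ r) :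
    inS ((L.drop (a + i)).take r') ≤ inS ((L.drop a).take r) := by
  have h1 : (L.drop (a + i)).take r' = (((L.drop a).take r).drop i).take r' := by
    rw [List.drop_take, List.take_take, List.drop_drop, min_eq_left (by omega)]
  rw [h1]
  exact (inS_take_le _ _).trans (inS_drop_le _ _)

/-- the position after `i` vertices of the light part -/
theorem PosF.next {K₂ K₃ B : ℕ} {L : List (Fd × Fd)} {k : ℕ} (h : PosF K₂ K₃ B L k 8) {i : ℕ} (hk : 1 ≤ k) (hi : i ≤ 2) :
    PosF K₂ K₃ B (L.drop i) (k - i) (8 - (i - k)) := by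
  refine ⟨by omega, ?_, ?_⟩
  · rw [List.drop_drop, List.drop_drop]
    by_cases hik : i ≤ k
    · rw [show i + (k - i) = k by omega, show 8 - (i - k) = 8 by omega, show i + (k - i + 8) = k + 8 by omega]
      exact h.run
    · have e1 : i + (k - i) = k + (i - k) := by omega
      rw [e1, show i + (k - i + (8 - (i - k))) = k + 8 by omega]
      exact (Nat.mul_le_mul_left _ (take_drop_le L (by omega))).trans h.run
  · intro i' hi'
    rw [List.drop_drop]
    exact h.trv (i + i') (by omega)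

/-- the position after a heavy stage -/
theorem PosF.heavy {K₂ K₃ B : ℕ} {L : List (Fd × Fd)} {j : ℕ}
    (h : K₂ * inS ((L.drop j).take 8) ≤ inS (L.drop (j + 8)) + B) {i : ℕ} (hi : i ≤ 3) :
    PosF K₂ K₃ B (L.drop (j + i)) 0 (8 - i) := by
  refine ⟨by omega, ?_, fun i' hi' => by omega⟩
  rw [List.drop_zero, List.drop_drop, show j + i + (0 + (8 - i)) = j + 8 by omega]
  exact (Nat.mul_le_mul_left _ (take_drop_le L (by omega))).trans h

theorem take_three (L : List (Fd × Fd)) (i : ℕ) : inS ((L.drop i).take 3) =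
    inS ((L.drop i).take 1) + inS ((L.drop (i + 1)).take 1) + inS ((L.drop (i + 2)).take 1) := by
  have h : ∀ L : List (Fd × Fd), inS (L.take 3) = inS (L.take 1) + inS ((L.drop 1).take 1) + inS ((L.drop 2).take 1) := by
    intro L
    match L with
    | [] => simp [inS]
    | [q] => simp [inS]
    | [q, q'] => simp [inS]
    | q :: q' :: q'' :: L => simp [inS]; omega
  rw [h, List.drop_drop, List.drop_drop]

/-- the new position at a decision: no heavy vertex before the next run -/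
theorem PosF.light {K₂ K₃ Kh B : ℕ} {L : List (Fd × Fd)} {r j : ℕ} (h : PosF K₂ K₃ B L 0 r) (hK₂ : 3 * K₃ ≤ K₂)
    (hKh : 24 * K₃ ≤ Kh) (hrun : K₂ * inS ((L.drop j).take 8) ≤ inS (L.drop (j + 8)) + B)
    (hl : ∀ i, r ≤ i → i < j → Kh * inS ((L.drop i).take 1) ≤ 8 * inS (L.drop j)) : PosF K₂ K₃ B L j 8 := by
  refine ⟨le_rfl, hrun, ?_⟩
  intro i hi
  -- a single vertex
  have key : ∀ t, i ≤ t → t < i + 3 → 3 * (K₃ * inS ((L.drop t).take 1)) ≤ inS (L.drop i) + B := by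
    intro t ht1 ht2
    by_cases htr : t < r
    · have h1 : inS ((L.drop t).take 1) ≤ inS (L.take r) := by
        have := take_drop_le L (a := 0) (i := t) (r := r) (r' := 1) (by omega)
        simpa using this
      have h2 := h.run
      rw [List.drop_zero, Nat.zero_add] at h2
      have h3 : inS (L.drop r) ≤ inS (L.drop i) := inS_drop_anti L (by omega)
      have h4 : K₂ * inS ((L.drop t).take 1) ≤ K₂ * inS (L.take r) := Nat.mul_le_mul_left _ h1
      have h5 : 3 * (K₃ * inS ((L.drop t).take 1)) ≤ K₂ * inS ((L.drop t).take 1) := by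
        rw [← mul_assoc]
        exact Nat.mul_le_mul_right _ hK₂
      omega
    · by_cases htj : t < j
      · have h1 := hl t (by omega) htj
        have h3 : inS (L.drop j) ≤ inS (L.drop i) := inS_drop_anti L (by omega)
        have h5 : 8 * (3 * (K₃ * inS ((L.drop t).take 1))) ≤ Kh * inS ((L.drop t).take 1) := by
          calc 8 * (3 * (K₃ * inS ((L.drop t).take 1))) = 24 * K₃ * inS ((L.drop t).take 1) := by ring
            _ ≤ Kh * inS ((L.drop t).take 1) := Nat.mul_le_mul_right _ hKh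
        omega
      · have h1 : inS ((L.drop t).take 1) ≤ inS ((L.drop j).take 8) := by
          have := take_drop_le L (a := j) (i := t - j) (r := 8) (r' := 1) (by omega)
          rwa [show j + (t - j) = t by omega] at this
        have h3 : inS (L.drop (j + 8)) ≤ inS (L.drop i) := inS_drop_anti L (by omega)
        have h4 : K₂ * inS ((L.drop t).take 1) ≤ K₂ * inS ((L.drop j).take 8) := Nat.mul_le_mul_left _ h1
        have h5 : 3 * (K₃ * inS ((L.drop t).take 1)) ≤ K₂ * inS ((L.drop t).take 1) := by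
          rw [← mul_assoc]
          exact Nat.mul_le_mul_right _ hK₂
        omega
  rw [take_three]
  have k1 := key i le_rfl (by omega)
  have k2 := key (i + 1) (by omega) (by omega)
  have k3 := key (i + 2) (by omega) (by omega)
  rw [mul_add, mul_add]
  omega

/-- the size of a single in-branch -/
theorem ClsF.single {b l K₀ K₂ N₁ B : ℕ} {θ : ℝ} {L : List (Fd × Fd)} (h : ClsF b l K₀ K₂ N₁ B θ L) (hθ : 0 ≤ θ) (t : ℕ) :
    (inS ((L.drop t).take 1) : ℝ) ≤ θ * szS L + B := by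
  by_cases hd : L.drop t = []
  · rw [hd]
    simp only [List.take_nil, inS, List.map_nil, List.sum_nil, Nat.cast_zero]
    positivity
  · obtain ⟨q, L', hq⟩ := List.exists_cons_of_ne_nil hd
    have h1 := h.inn q L' (by rw [← hq]; exact List.drop_suffix t L)
    have h2 : inS ((L.drop t).take 1) = q.1.size := by rw [hq]; simp [inS]
    have h3 : szS (q :: L') ≤ szS L := by
      rw [← hq]
      conv_rhs => rw [← List.take_append_drop t L]
      rw [szS_append]
      omega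
    rw [h2]
    have h4 : θ * szS (q :: L') ≤ θ * szS L := mul_le_mul_of_nonneg_left (by exact_mod_cast h3) hθ
    linarith

end AEG
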