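import Pool.Agent.AEG.BookF

/-!
# The fine class: the end phase

The mass of the in-branches is bounded by a constant: light rounds with constant numbers.
-/

set_option autoImplicit false

namespace AEG

open Finset AE15 AED AEB
open scoped Classical

/-- the light round with the constant `C` -/
def RoundLC (b l K₀ : ℕ) (κ η s δ : ℝ) (M₉ K₁ f K' C : ℕ) : Prop := ∀ {V : Type} {R : V → V → Prop},
  AE32.Tour R → ∀ (X : Finset V) (N : V → Prop) (lam sig w lam' : ℕ) (q₁ q₂ q₃ : Fd × Fd) (L : List (Fd × Fd)),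
    StE R X ∅ N κ η s lam sig f w K' 0 → (∀ q ∈ q₁ :: q₂ :: q₃ :: L, BrO b l q) →
    L ≠ [] → NoDs K₀ [q₁, q₂, q₃] L →
    16 * inS [q₁, q₂, q₃] + C ≤ lam → 16 * inS [q₁, q₂, q₃] + M₉ * lam' + C ≤ sig →
    ((w + sig + inS [q₁, q₂, q₃] : ℕ) : ℝ) ≤ δ * X.card → C ≤ X.card → szS (q₁ :: q₂ :: q₃ :: L) + C ≤ X.card →
    ∃ (i : ℕ) (X' : Finset V) (z : V) (w' : ℕ), 1 ≤ i ∧ i ≤ 2 ∧ X' ⊆ X ∧
      X'.card + szS (q₁ :: q₂ :: q₃ :: L) = X.card + szS ((q₁ :: q₂ :: q₃ :: L).drop i) ∧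
      StE R X' ∅ (R z) κ η s lam' sig f w' K₁ 0 ∧
      w' ≤ max (w - inS ((q₁ :: q₂ :: q₃ :: L).take i)) (4 * inS ((q₁ :: q₂ :: q₃ :: L).take i)) ∧
      (InS R ((q₁ :: q₂ :: q₃ :: L).drop i) (R z) X' → InS R (q₁ :: q₂ :: q₃ :: L) N X)

theorem roundL_iff {b l K₀ : ℕ} {κ η s δ : ℝ} {M₉ K₁ : ℕ} : RoundL b l K₀ κ η s δ M₉ K₁ ↔
    ∀ f K' : ℕ, ∃ C : ℕ, RoundLC b l K₀ κ η s δ M₉ K₁ f K' C := Iff.rfl

/-- the light round, list form -/
theorem RoundLC.step {b l K₀ : ℕ} {κ η s δ : ℝ} {M₉ K₁ f K' C : ℕ} (h : RoundLC b l K₀ κ η s δ M₉ K₁ f K' C)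
    {V : Type} {R : V → V → Prop} (hT : AE32.Tour R) {X : Finset V} {N : V → Prop} {lam sig w : ℕ}
    (lam' : ℕ) {K₂ N₁ B : ℕ} {θ : ℝ} {L : List (Fd × Fd)} (hcl : ClsF b l K₀ K₂ N₁ B θ L) (hlen : 4 ≤ L.length)
    (hSt : StE R X ∅ N κ η s lam sig f w K' 0)
    (h1 : 16 * inS (L.take 3) + C ≤ lam) (h2 : 16 * inS (L.take 3) + M₉ * lam' + C ≤ sig)
    (h3 : ((w + sig + inS (L.take 3) : ℕ) : ℝ) ≤ δ * X.card) (h4 : szS L + C ≤ X.card) :
    ∃ (i : ℕ) (X' : Finset V) (z : V) (w' : ℕ), 1 ≤ i ∧ i ≤ 2 ∧ X' ⊆ X ∧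
      X'.card + szS L = X.card + szS (L.drop i) ∧
      StE R X' ∅ (R z) κ η s lam' sig f w' K₁ 0 ∧
      w' ≤ max (w - inS (L.take i)) (4 * inS (L.take i)) ∧
      (InS R (L.drop i) (R z) X' → InS R L N X) := by
  obtain ⟨q₁, q₂, q₃, L', rfl, hL'⟩ : ∃ q₁ q₂ q₃ L', L = q₁ :: q₂ :: q₃ :: L' ∧ L' ≠ [] := by
    match L, hlen with
    | q₁ :: q₂ :: q₃ :: q₄ :: L, _ => exact ⟨q₁, q₂, q₃, q₄ :: L, rfl, by simp⟩
  have e : (q₁ :: q₂ :: q₃ :: L').take 3 = [q₁, q₂, q₃] := by simp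
  rw [e] at h1 h2 h3
  have hN : NoDs K₀ [q₁, q₂, q₃] L' := ClsF.noDs (L := L') (gr := [q₁, q₂, q₃]) (by simpa using hcl) hL'
  exact h hT X N lam sig w lam' q₁ q₂ q₃ L' hSt hcl.br hL' hN h1 h2 h3 (by omega) h4

/-- **The end phase** -/
theorem endF {b l K₀ : ℕ} {κ η s δ : ℝ} {M₉ K₁ f K C : ℕ} (hs : 0 < s) (hδ : 0 < δ) (hK : K₁ ≤ K)
    (hL : RoundLC b l K₀ κ η s δ M₉ K₁ f K C) (B₃ sig : ℕ) (hsig : 16 * B₃ + M₉ * (16 * B₃ + C) + C ≤ sig)
    (W K₂ N₁ B : ℕ) (hW : 4 * B₃ ≤ W) : ∃ C₀ : ℕ, ∀ {V : Type} {R : V → V → Prop}, AE32.Tour R → ∀ {θ : ℝ}, θ ≤ 1 / 2 →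
      ∀ n : ℕ, ∀ {L : List (Fd × Fd)}, L.length = n → L ≠ [] → ClsF b l K₀ K₂ N₁ B θ L →
        ∀ {X : Finset V} {N : V → Prop} {lam w : ℕ},
        StE R X ∅ N κ η s lam sig f w K 0 → w ≤ W → inS L ≤ B₃ → 16 * inS (L.take 3) + C ≤ lam →
        szS L + C₀ ≤ X.card → InS R L N X := by
  obtain ⟨C₁, hC₁⟩ := exists_nat_ge (4 * ((2 * K₀ + 4 : ℕ) ^ 3 * (2 * B + 2) : ℕ) / s)
  obtain ⟨C₂, hC₂⟩ := exists_nat_ge (((W + sig + B₃ : ℕ) : ℝ) / δ)
  rw [div_le_iff₀ hs] at hC₁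
  rw [div_le_iff₀ hδ] at hC₂
  refine ⟨C + C₁ + C₂, ?_⟩
  intro V R hT θ hθ n
  induction n using Nat.strong_induction_on with
  | _ n ih =>
    intro L hn hne hcl X N lam w hSt hw hin hlam hX
    by_cases hlen : L.length ≤ 3
    · -- the line is short
      apply hSt.finish hT hne
      have h1 := hcl.small hθ hlen
      have h2 : (szS L : ℝ) ≤ ((2 * K₀ + 4 : ℕ) ^ 3 * (2 * B + 2) : ℕ) := by exact_mod_cast h1
      have h3 : (C₁ : ℝ) ≤ X.card := by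
        have : C₁ ≤ X.card := by omega
        exact_mod_cast this
      have h4 := mul_le_mul_of_nonneg_left h3 hs.le
      linarith
    · have h3 : inS (L.take 3) ≤ B₃ := (inS_take_le L 3).trans hin
      have hδX : ((w + sig + inS (L.take 3) : ℕ) : ℝ) ≤ δ * X.card := by
        have h4 : (C₂ : ℝ) ≤ X.card := by
          have : C₂ ≤ X.card := by omega
          exact_mod_cast this
        have h5 := mul_le_mul_of_nonneg_left h4 hδ.le
        have h6 : ((w + sig + inS (L.take 3) : ℕ) : ℝ) ≤ ((W + sig + B₃ : ℕ) : ℝ) := by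
          have : w + sig + inS (L.take 3) ≤ W + sig + B₃ := by omega
          exact_mod_cast this
        linarith
      have hM : 16 * inS (L.take 3) ≤ 16 * B₃ := by omega
      obtain ⟨i, X', z, w', i1, i2, hX', hcard, hSt', hw1, hback⟩ := hL.step hT (16 * B₃ + C) hcl (by omega) hSt
        hlam (by omega) hδX (by omega)
      have hw' : w' ≤ W := by
        have h7 : inS (L.take i) ≤ B₃ := (inS_take_le L i).trans hin
        omega
      have hlen' : (L.drop i).length = L.length - i := by rw [List.length_drop]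
      have hin' : inS (L.drop i) ≤ B₃ := (inS_drop_le L i).trans hin
      have h9 : inS ((L.drop i).take 3) ≤ B₃ := (inS_take_le _ 3).trans hin'
      apply hback
      refine ih (L.drop i).length (by omega) rfl ?_ (hcl.drop i) (hSt'.mono le_rfl le_rfl le_rfl hK) hw' hin'
        (by omega) (by omega)
      intro h10
      rw [h10] at hlen'
      simp at hlen'
      omega

end AEG
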