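import Pool.Agent.AEF.Thin

/-!
# Representative pieces with a graded family, the factor first
-/

set_option autoImplicit false

namespace Pool.Agent.AEF

open Finset Filter Topology _root_.AE15
open scoped Classical

/-- **Graded pieces**: representative pieces `P i` and rest `Q`, each of which meets every large member of a
graded family in a fixed proportion. -/
theorem exists_pieces_gradedQ {c : ℝ} (hc : 0 < c) (m : ℕ) : ∃ M₉ : ℕ, ∀ {ε : ℝ} (hε : 0 < ε) (hε1 : ε ≤ 1)
    (Kg : ℕ), ∃ n₁ c₉ : ℕ, ∀ {V : Type} (A : Finset V) (𝓕 : Finset (Finset V)), n₁ ≤ A.card → 𝓕.card ≤ A.card ^ 5 →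
      ∀ {ι : Type} (G : Finset ι) (D : ι → Finset V), (∀ u ∈ G, D u ⊆ A) → Graded G D Kg →
      ∀ (r : ℕ) (s : Fin r → ℝ), r ≤ m → (∀ i, 0 ≤ s i) → ∑ i, s i ≤ (1 - 2 * c) * A.card →
        ∃ (P : Fin r → Finset V) (Q : Finset V), (∀ i, P i ⊆ A) ∧ (∀ i, (P i).Nonempty) ∧
          (∀ i j, i ≠ j → Disjoint (P i) (P j)) ∧ (∀ i, Disjoint (P i) Q) ∧ Q ⊆ A ∧
          (∀ i, s i ≤ (P i).card) ∧ (∀ i, Rep A 𝓕 ε (P i)) ∧ c * A.card ≤ Q.card ∧ Rep A 𝓕 ε Q ∧
          (∀ u ∈ G, c₉ ≤ (D u).card → (D u).card ≤ M₉ * (D u ∩ Q).card) ∧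
          (∀ u ∈ G, c₉ ≤ (D u).card → ∀ i, (D u).card ≤ M₉ * (D u ∩ P i).card) := by
  obtain ⟨N, hN⟩ := exists_nat_ge (2 * (m : ℝ) / c + 1)
  have hN1 : (1 : ℝ) ≤ N := by
    have : (0 : ℝ) ≤ 2 * (m : ℝ) / c := by positivity
    linarith
  have hNpos : 0 < N := by
    have : (0 : ℝ) < N := by linarith
    exact_mod_cast this
  have hNr : (0 : ℝ) < N := by exact_mod_cast hNpos
  have hNm : 2 * (m : ℝ) ≤ c * N := by
    have h1 : 2 * (m : ℝ) / c ≤ N := by linarith
    rw [div_le_iff₀ hc] at h1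
    linarith
  refine ⟨16 * N, ?_⟩
  intro ε hε hε1 Kg
  obtain ⟨n2, hn2⟩ := exists_large_pow 6 N hNpos (ε / 2) (by positivity)
  obtain ⟨c9, hc9⟩ := exists_split_graded N (Kg * (N + 1)) hNpos
  obtain ⟨n3, hn3⟩ := exists_nat_ge (2 * (N : ℝ) / ε)
  obtain ⟨n4, hn4⟩ := exists_nat_ge (2 * (N : ℝ) / c)
  refine ⟨max n2 (max n3 (max n4 (max N 2))), c9 + N + 2 * N, ?_⟩
  intro V A 𝓕 hA h𝓕 ι G D hD hgr r s hr hs hsum
  set n := A.card with hn
  have hnn2 : n2 ≤ n := (le_max_left _ _).trans hA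
  have hnn3 : n3 ≤ n := ((le_max_left _ _).trans (le_max_right _ _)).trans hA
  have hnn4 : n4 ≤ n := ((le_max_left _ _).trans ((le_max_right _ _).trans (le_max_right _ _))).trans hA
  have hnN : N ≤ n := ((le_max_left _ _).trans ((le_max_right _ _).trans ((le_max_right _ _).trans
    (le_max_right _ _)))).trans hA
  have hn2' : 2 ≤ n := ((le_max_right _ _).trans ((le_max_right _ _).trans ((le_max_right _ _).trans
    (le_max_right _ _)))).trans hA
  have hnpos : (0 : ℝ) < n := by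
    have : 0 < n := hNpos.trans_le hnN
    exact_mod_cast this
  have h2N : 2 * (N : ℝ) ≤ ε * n := by
    have h1 : (n3 : ℝ) ≤ n := by exact_mod_cast hnn3
    have h2 := hn3.trans h1
    rw [div_le_iff₀ hε] at h2
    linarith
  have h2c : 2 * (N : ℝ) ≤ c * n := by
    have h1 : (n4 : ℝ) ≤ n := by exact_mod_cast hnn4
    have h2 := hn4.trans h1
    rw [div_le_iff₀ hc] at h2
    linarith
  set m' := n / N with hm'
  have hmod := Nat.mod_lt n hNpos
  have hdm := Nat.div_add_mod n N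
  have hm'0 : 0 < m' := Nat.div_pos hnN hNpos
  have hm'r : (0 : ℝ) < m' := by exact_mod_cast hm'0
  have hNm1 : (N : ℝ) * m' ≤ n := by
    have : N * m' ≤ n := by rw [hm']; omega
    exact_mod_cast this
  have hNm2 : (n : ℝ) ≤ N * m' + N := by
    have : n ≤ N * m' + N := by rw [hm']; omega
    exact_mod_cast this
  obtain ⟨X, hXA, hX⟩ := Finset.exists_subset_card_eq (s := A) (n := N * m') (by
    rw [← hn, hm']; omega)
  have hAX : (A \ X).card ≤ N := by
    rw [card_sdiff_of_subset hXA, hX, hm']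
    omega
  have hDX : ∀ u ∈ G, (D u).card ≤ (D u ∩ X).card + N := by
    intro u hu
    have h5 : D u ⊆ (D u ∩ X) ∪ (A \ X) := by
      intro x hx
      by_cases h : x ∈ X
      · simp [hx, h]
      · simp [hD u hu hx, h]
    exact ((card_le_card h5).trans (card_union_le _ _)).trans (Nat.add_le_add_left hAX _)
  obtain ⟨f, hf1, hf2, hf3⟩ := hc9 X m' hX
    (𝓕.image (fun F => F ∩ X))
    (by
      intro S' hS'
      rw [mem_image] at hS'
      obtain ⟨S, _, rfl⟩ := hS'
      exact inter_subset_right) G (fun u => D u ∩ X) (fun u _ => inter_subset_right)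
    (by
      intro j
      refine (card_le_card (t := G.filter (fun u => (D u).card ≤ j + N)) ?_).trans
        ((hgr (j + N)).trans ?_)
      · intro u hu
        rw [mem_filter] at hu ⊢
        exact ⟨hu.1, (hDX u hu.1).trans (Nat.add_le_add_right hu.2 N)⟩
      · rw [mul_assoc]
        apply Nat.mul_le_mul_left
        nlinarith [Nat.zero_le (N * j)]) (ε / 2) (by positivity) (by linarith)
    (by
      have h1 := hn2 n hnn2
      have h2 : ((𝓕.image (fun F => F ∩ X)).card : ℝ) ≤ (n : ℝ) ^ 5 := by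
        have h3 : (𝓕.image (fun F => F ∩ X)).card ≤ n ^ 5 := Finset.card_image_le.trans h𝓕
        exact_mod_cast h3
      have h4 : Real.exp ((ε / 2) ^ 2 * (m' : ℝ) / 4) * Real.exp (-((ε / 2) ^ 2 * (m' : ℝ) / 4)) = 1 := by
        rw [← Real.exp_add, add_neg_cancel, Real.exp_zero]
      have h5 := Real.exp_pos (-((ε / 2) ^ 2 * (m' : ℝ) / 4))
      have h6 : (2 : ℝ) ≤ n := by exact_mod_cast hn2'
      have h7 : 2 * ((n : ℝ) ^ 5 * N) ≤ (n : ℝ) ^ 6 * N := by
        have h8 : (0 : ℝ) ≤ (n : ℝ) ^ 5 * N := by positivity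
        calc 2 * ((n : ℝ) ^ 5 * N) ≤ n * ((n : ℝ) ^ 5 * N) := mul_le_mul_of_nonneg_right h6 h8
          _ = (n : ℝ) ^ 6 * N := by ring
      have h9 : 2 * ((n : ℝ) ^ 5 * N) < Real.exp ((ε / 2) ^ 2 * (m' : ℝ) / 4) := lt_of_le_of_lt h7 h1
      have h10 : 2 * (((𝓕.image (fun F => F ∩ X)).card : ℝ) * N) < Real.exp ((ε / 2) ^ 2 * (m' : ℝ) / 4) :=
        lt_of_le_of_lt (mul_le_mul_of_nonneg_left (mul_le_mul_of_nonneg_right h2 hNr.le) (by norm_num)) h9
      have h11 := mul_lt_mul_of_pos_right h10 h5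
      rw [h4] at h11
      linarith)
  -- representativity of unions of classes
  have hrep : ∀ a b : ℕ, a ≤ b → b ≤ N →
      Rep A 𝓕 ε (X.filter (fun x => a ≤ (f x : ℕ) ∧ (f x : ℕ) < b)) := by
    intro a b hab hb F hF
    have h1 := classes_meet (F ∩ X) f _ (hf2 (F ∩ X) (mem_image_of_mem _ hF)) a b hab hb
    have h2 : F ∩ X.filter (fun x => a ≤ (f x : ℕ) ∧ (f x : ℕ) < b) =
        (F ∩ X).filter (fun x => a ≤ (f x : ℕ) ∧ (f x : ℕ) < b) := by
      ext x
      simp only [mem_inter, mem_filter]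
      tauto
    rw [h2, card_classes X f hf1 a b hb]
    refine le_trans ?_ h1
    rw [Nat.cast_mul, Nat.cast_sub hab]
    have hba : (0 : ℝ) ≤ (b : ℝ) - a := by
      have : (a : ℝ) ≤ b := by exact_mod_cast hab
      linarith
    have h3 : (((F ∩ A).card : ℝ) / n - ε) * m' ≤ ((F ∩ X).card : ℝ) / N - ε / 2 * m' := by
      have h4 : ((F ∩ A).card : ℝ) ≤ (F ∩ X).card + N := by
        have h5 : F ∩ A ⊆ (F ∩ X) ∪ (A \ X) := by
          intro x hx
          rw [mem_inter] at hx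
          by_cases h : x ∈ X
          · simp [hx.1, h]
          · simp [hx.2, h]
        have h6 : (A \ X).card ≤ N := by
          rw [card_sdiff_of_subset hXA, hX, hm']
          omega
        have h7 := (card_le_card h5).trans (card_union_le _ _)
        exact_mod_cast h7.trans (Nat.add_le_add_left h6 _)
      have h8 : ((F ∩ A).card : ℝ) / n ≤ ((F ∩ X).card : ℝ) / (N * m') + ε / 2 := by
        have h9 : ((F ∩ A).card : ℝ) / n ≤ ((F ∩ X).card : ℝ) / n + N / n := by
          rw [← add_div]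
          exact div_le_div_of_nonneg_right h4 hnpos.le
        have h10 : ((F ∩ X).card : ℝ) / n ≤ ((F ∩ X).card : ℝ) / (N * m') :=
          div_le_div_of_nonneg_left (by positivity) (by positivity) hNm1
        have h11 : (N : ℝ) / n ≤ ε / 2 := by
          rw [div_le_iff₀ hnpos]
          linarith
        linarith
      have h12 : ((F ∩ X).card : ℝ) / (N * m') * m' = ((F ∩ X).card : ℝ) / N := by
        field_simp
      calc (((F ∩ A).card : ℝ) / n - ε) * m' ≤ (((F ∩ X).card : ℝ) / (N * m') - ε / 2) * m' :=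
            mul_le_mul_of_nonneg_right (by linarith) hm'r.le
        _ = _ := by rw [sub_mul, h12]
    calc (((F ∩ A).card : ℝ) / n - ε) * (((b : ℝ) - a) * m')
        = ((b : ℝ) - a) * ((((F ∩ A).card : ℝ) / n - ε) * m') := by ring
      _ ≤ ((b : ℝ) - a) * (((F ∩ X).card : ℝ) / N - ε / 2 * m') :=
          mul_le_mul_of_nonneg_left h3 hba
  -- numbers of classes
  let q : Fin r → ℕ := fun i => max 1 ⌈s i / m'⌉₊
  have hq1 : ∀ i, s i ≤ (q i : ℝ) * m' := by
    intro i
    have h1 : s i / m' ≤ (q i : ℝ) := by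
      have h2 := Nat.le_ceil (s i / (m' : ℝ))
      have h3 : (⌈s i / (m' : ℝ)⌉₊ : ℝ) ≤ (q i : ℝ) := by exact_mod_cast le_max_right _ _
      exact h2.trans h3
    rw [div_le_iff₀ hm'r] at h1
    exact h1
  have hq2 : ∀ i, (q i : ℝ) ≤ s i / m' + 1 := by
    intro i
    have h0 : 0 ≤ s i / m' := div_nonneg (hs i) hm'r.le
    have h1 : (⌈s i / (m' : ℝ)⌉₊ : ℝ) < s i / m' + 1 := Nat.ceil_lt_add_one h0
    show ((max 1 ⌈s i / (m' : ℝ)⌉₊ : ℕ) : ℝ) ≤ _
    rw [Nat.cast_max]
    apply max_le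
    · simpa using h0
    · exact h1.le
  have hq0 : ∀ i, 1 ≤ q i := fun i => le_max_left _ _
  let σ : ℕ → ℕ := fun j => ∑ i ∈ Finset.univ.filter (fun i : Fin r => (i : ℕ) < j), q i
  have hσ : ∀ j : Fin r, σ (j + 1) = σ j + q j := by
    intro j
    have h4 : Finset.univ.filter (fun i : Fin r => (i : ℕ) < (j : ℕ) + 1) =
        insert j (Finset.univ.filter (fun i : Fin r => (i : ℕ) < j)) := by
      ext i
      simp only [mem_filter, mem_univ, true_and, mem_insert]
      rw [Nat.lt_succ_iff, le_iff_eq_or_lt, Fin.ext_iff]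
    show ∑ i ∈ Finset.univ.filter (fun i : Fin r => (i : ℕ) < (j : ℕ) + 1), q i = _
    rw [h4, Finset.sum_insert (by simp), add_comm]
  have hmono : ∀ i j : ℕ, i ≤ j → σ i ≤ σ j := by
    intro i j hij
    apply Finset.sum_le_sum_of_subset
    intro l hl
    rw [mem_filter] at hl ⊢
    exact ⟨mem_univ _, hl.2.trans_le hij⟩
  have hσr : σ r = ∑ i, q i := by
    show ∑ i ∈ Finset.univ.filter (fun i : Fin r => (i : ℕ) < r), q i = _
    congr 1
    apply Finset.filter_true_of_mem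
    intro i _
    exact i.2
  have hσle : (σ r : ℝ) * m' ≤ (1 - 2 * c) * n + m * m' := by
    rw [hσr, Nat.cast_sum, Finset.sum_mul]
    have h1 : ∀ i : Fin r, (q i : ℝ) * m' ≤ s i + m' := by
      intro i
      have h2 := mul_le_mul_of_nonneg_right (hq2 i) hm'r.le
      rw [add_mul, one_mul, div_mul_cancel₀ _ hm'r.ne'] at h2
      exact h2
    have h3 := Finset.sum_le_sum (s := Finset.univ) (fun i _ => h1 i)
    rw [Finset.sum_add_distrib, Finset.sum_const, Finset.card_univ, Fintype.card_fin,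
      nsmul_eq_mul] at h3
    have h4 : (r : ℝ) * m' ≤ m * m' := by
      apply mul_le_mul_of_nonneg_right _ hm'r.le
      exact_mod_cast hr
    linarith
  have hmm : (m : ℝ) * m' ≤ c / 2 * n := by
    have h1 : 2 * (m : ℝ) * m' ≤ c * N * m' := mul_le_mul_of_nonneg_right hNm hm'r.le
    have h2 : c * (N * m') ≤ c * n := mul_le_mul_of_nonneg_left hNm1 hc.le
    linarith
  have hQ : c * n + (σ r : ℝ) * m' ≤ N * m' := by
    linarith
  have hσN : σ r ≤ N := by
    have h1 : (σ r : ℝ) * m' ≤ N * m' := by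
      have : 0 ≤ c * n := by positivity
      linarith
    have h2 : (σ r : ℝ) ≤ N := le_of_mul_le_mul_right h1 hm'r
    exact_mod_cast h2
  have hσN' : ∀ j : Fin r, σ (j + 1) ≤ N := fun j => (hmono _ _ j.2).trans hσN
  have hmeet : ∀ u ∈ G, c9 + N + 2 * N ≤ (D u).card → ∀ a b : ℕ, a < b → b ≤ N →
      (D u).card ≤ 16 * N * (D u ∩ X.filter (fun x => a ≤ (f x : ℕ) ∧ (f x : ℕ) < b)).card := by
    intro u hu hcu a b hab hb
    have h1 := hDX u hu
    have h2 := hf3 u hu (by show c9 ≤ (D u ∩ X).card; omega) ⟨a, by omega⟩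
    have h3 : ((D u ∩ X).filter (fun x => f x = ⟨a, by omega⟩)).card ≤
        (D u ∩ X.filter (fun x => a ≤ (f x : ℕ) ∧ (f x : ℕ) < b)).card := by
      apply card_le_card
      intro x hx
      rw [mem_filter, mem_inter] at hx
      rw [mem_inter, mem_filter]
      refine ⟨hx.1.1, hx.1.2, ?_, ?_⟩
      · rw [hx.2]
      · rw [hx.2]; exact hab
    have h4 : (D u ∩ X).card ≤ 8 * N * (D u ∩ X.filter (fun x => a ≤ (f x : ℕ) ∧ (f x : ℕ) < b)).card :=
      h2.trans (Nat.mul_le_mul_left _ h3)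
    have h5 : (D u).card ≤ 2 * (D u ∩ X).card := by omega
    calc (D u).card ≤ 2 * (D u ∩ X).card := h5
      _ ≤ 2 * (8 * N * (D u ∩ X.filter (fun x => a ≤ (f x : ℕ) ∧ (f x : ℕ) < b)).card) :=
        Nat.mul_le_mul_left _ h4
      _ = _ := by ring
  refine ⟨fun j => X.filter (fun x => σ j ≤ (f x : ℕ) ∧ (f x : ℕ) < σ (j + 1)),
    X.filter (fun x => σ r ≤ (f x : ℕ) ∧ (f x : ℕ) < N), ?_, ?_, ?_, ?_, ?_, ?_, ?_, ?_, ?_, ?_, ?_⟩
  · intro j
    exact (filter_subset _ _).trans hXA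
  · intro j
    rw [← Finset.card_pos, card_classes X f hf1 _ _ (hσN' j), hσ j]
    have h1 := hq0 j
    have h2 : 0 < σ j + q j - σ j := by omega
    exact Nat.mul_pos h2 hm'0
  · intro i j hij
    rw [Finset.disjoint_left]
    intro x hx hx'
    rw [mem_filter] at hx hx'
    rcases lt_or_gt_of_ne hij with h | h
    · have h4 := hmono ((i : ℕ) + 1) j h
      omega
    · have h4 := hmono ((j : ℕ) + 1) i h
      omega
  · intro j
    rw [Finset.disjoint_left]
    intro x hx hx'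
    rw [mem_filter] at hx hx'
    have h4 := hmono ((j : ℕ) + 1) r j.2
    omega
  · exact (filter_subset _ _).trans hXA
  · intro j
    rw [card_classes X f hf1 _ _ (hσN' j), hσ j]
    have h1 : σ j + q j - σ j = q j := by omega
    rw [h1, Nat.cast_mul]
    exact hq1 j
  · intro j
    exact hrep _ _ (hmono _ _ (Nat.le_succ _)) (hσN' j)
  · rw [card_classes X f hf1 _ _ le_rfl, Nat.cast_mul, Nat.cast_sub hσN, sub_mul]
    linarith
  · exact hrep _ _ hσN le_rfl
  · intro u hu hcu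
    exact hmeet u hu hcu (σ r) N (by
      by_contra hcon
      have h1 : σ r = N := by omega
      rw [h1] at hQ
      have : 0 < c * n := by positivity
      linarith) le_rfl
  · intro u hu hcu j
    exact hmeet u hu hcu (σ j) (σ (j + 1)) (by
      have h1 := hσ j
      have h2 := hq0 j
      omega) (hσN' j)

end Pool.Agent.AEF
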