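import Pool.Agent.AEG.LinkC
import Pool.Agent.AEG.ThinR

/-!
# The items of the link vertices, exactly, with a graded family in the ambient set of the part

`link_exactM`: as `link_exact`; the set `Bp` has a prescribed size `mB`, and a graded family in `U \ ys` is kept with a
factor which depends on `b` and `l` only. (Everything is stated for the direction of the packing.)
-/

set_option autoImplicit false

namespace AEG

open Finset AE15 AED AEB SPD
open scoped Classical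

theorem link_exactM (b l : ℕ) (hb : 1 ≤ b) : ∃ M H : ℕ, 1 ≤ M ∧ ∀ (Kg : ℝ) {κ ξ s τ : ℝ} (hκ : 0 < κ) (hκ1 : κ ≤ 1)
    (hξ : 0 < ξ) (hξ1 : ξ ≤ 1) (hs : 0 < s) (hs1 : s ≤ 1) (hτ : 0 < τ) (K e N Kd : ℕ),
    ∃ (w₀ : ℕ) (τ' : ℝ) (K' : ℕ), 0 < τ' ∧ τ' ≤ τ ∧ ∀ cA : ℕ, ∃ C e' : ℕ,
      ∀ {V : Type} {R : V → V → Prop}, AE32.Tour R → ∀ {X U P P₂ ys G Hs Av : Finset V} {t : ℝ} {s₀ mB : ℕ}
      {os : List (V × Fd)}, GSd R U P ys κ t s τ K e → ξ * U.card ≤ P.card → 16 * totB os + C ≤ P.card → ys.card ≤ N →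
      os.length ≤ 3 → Hs.card ≤ 3 → Disjoint Hs ys → (∀ p ∈ os, p.1 ∈ Hs ∧ FOK b l 0 p.2 ∧ ∀ q ∈ p.2.trees, q.1 = true) →
      Disjoint P P₂ → Disjoint ys P₂ → (∀ x ∈ X, x ∈ P ∨ x ∈ P₂ ∨ x ∈ ys) → Av.card ≤ cA → 1 ≤ mB →
      (∀ u ∈ P₂, u ∉ G → (nI R G u).card ≤ s₀) → s₀ + mB + C ≤ (G ∩ P₂).card →
      (∀ p ∈ os, mB + 24 * totB os + C ≤ (nO R X p.1).card) →
      ∀ {ι : Type} (I : Finset ι) (D : ι → Finset V), (∀ j ∈ I, D j ⊆ P₂) →
        (∀ k : ℕ, ((I.filter (fun j => (D j).card = k)).card : ℝ) ≤ Kg * (k + 1)) →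
      ∀ {ι₂ : Type} (I₂ : Finset ι₂) (D₂ : ι₂ → Finset V), (∀ j ∈ I₂, D₂ j ⊆ U \ ys) →
        (∀ j ∈ I₂, (D₂ j).Nonempty) → Pool.Agent.AEF.Graded I₂ D₂ Kd →
      ∃ T S E Bp : Finset V, T ⊆ P₂ ∧ Disjoint T (Av ∪ Hs) ∧ S ⊆ P ∧ Disjoint S (Av ∪ Hs) ∧ E ⊆ P ∧
        Disjoint E (Av ∪ Hs) ∧ Disjoint S E ∧ EmbAllB R os (T ∪ S) ∧ T.card + S.card = totB os ∧
        S.card + E.card ≤ totB os ∧ totB os ≤ S.card + E.card + w₀ ∧
        (∀ j ∈ I, (D j).card ≤ 4 * (D j \ T).card + w₀) ∧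
        (∀ j ∈ I₂, (D₂ j).card ≤ M * (D₂ j \ (T ∪ (S ∪ E))).card + w₀) ∧
        (E.Nonempty → Bp ⊆ G ∧ Bp ⊆ P₂ ∧ Disjoint Bp T ∧ Disjoint Bp (Av ∪ Hs) ∧ Bp.card = mB ∧
          ∀ a ∈ E, Bp.card ≤ 2 * (nO R Bp a).card) ∧
        ∀ S' : Finset V, (S' \ (T ∪ (S ∪ E))).card ≤ cA → Disjoint S' ys →
          GSd R (U \ S') (P \ S') ys (κ / (32 * (H + 1))) t (s / (16 * (H + 1))) τ' K' e' := by
  obtain ⟨w₁, h₁, C₁, hone⟩ := links_one b l hb 3
  obtain ⟨M, hM, hthin0⟩ := GSd.thinR (h₁ + 7)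
  refine ⟨M, h₁ + 7, hM, ?_⟩
  intro Kg κ ξ s τ hκ hκ1 hξ hξ1 hs hs1 hτ K e N Kd
  obtain ⟨C₂, htwo⟩ := links_two b l hb 3 Kg
  obtain ⟨M', c, κ', s', τ', K', -, hκ', hs', -, -, -, -, g1, g2, hthin1⟩ := hthin0 hκ hκ1 hξ hξ1 hs hs1 hτ K e N Kd
  obtain ⟨w₀, hw₀⟩ : ∃ w₀, w₀ = w₁ + M * w₁ + c := ⟨_, rfl⟩
  refine ⟨w₀, τ', K', g1, g2, fun cA => ?_⟩
  subst hκ' hs'
  obtain ⟨n₀, e', hthin⟩ := hthin1 (cA + w₁)
  obtain ⟨C, hC⟩ : ∃ C, C = n₀ + 16 * (C₁ + C₂ + c + cA + N + w₀) + 64 := ⟨_, rfl⟩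
  refine ⟨C, e', ?_⟩
  intro V R hT X U P P₂ ys G Hs Av t s₀ mB os hG hξP hPc hys hlen hHs hHys hos hPP hysP hX hAv hmB hbulk hGP hcap ι I D hD
    hK ι₂ I₂ D₂ hD₂ hD₂n hgr
  obtain ⟨q, hq⟩ : ∃ q, q = totB os := ⟨_, rfl⟩
  rw [← hq] at hPc hcap ⊢
  obtain ⟨A₁, hA₁⟩ : ∃ A₁, A₁ = Av ∪ Hs := ⟨_, rfl⟩
  have hA₁c : A₁.card ≤ cA + 3 := by
    rw [hA₁]
    have := card_union_le Av Hs
    omega
  rw [← hA₁]
  have hout : ∀ (W : Finset V) (B : Finset V) (h : V), (nO R W h).card ≤ (nO R (W \ B) h).card + B.card := by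
    intro W B h
    refine le_trans (card_le_card (t := nO R (W \ B) h ∪ B) ?_) (card_union_le _ _)
    intro u hu
    rw [mem_nO] at hu
    rw [mem_union, mem_nO, mem_sdiff]
    by_cases h4 : u ∈ B
    · exact Or.inr h4
    · exact Or.inl ⟨⟨hu.1, h4⟩, hu.2⟩
  have hXP : ∀ h : V, (nO R X h).card ≤ (nO R P h).card + (nO R P₂ h).card + N := by
    intro h
    have h1 : nO R X h ⊆ nO R P h ∪ nO R P₂ h ∪ ys := by
      intro u hu
      rw [mem_nO] at hu
      rw [mem_union, mem_union, mem_nO, mem_nO]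
      rcases hX u hu.1 with h | h | h
      · exact Or.inl (Or.inl ⟨h, hu.2⟩)
      · exact Or.inl (Or.inr ⟨h, hu.2⟩)
      · exact Or.inr h
    have h2 := (card_le_card h1).trans (card_union_le _ _)
    have h3 := card_union_le (nO R P h) (nO R P₂ h)
    omega
  have hPys : ∀ u ∈ P, u ∈ U \ ys := by
    intro u hu
    exact mem_sdiff.2 ⟨hG.sub hu, fun h => disjoint_left.1 hG.ysP h hu⟩
  -- the numbers
  obtain ⟨t₀, ht₀⟩ : ∃ t₀, t₀ = 2 * q + 2 * C₁ + c + cA + 3 := ⟨_, rfl⟩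
  obtain ⟨A₀, hA₀⟩ : ∃ A₀, A₀ = 2 * t₀ + 2 * q + C₂ := ⟨_, rfl⟩
  obtain ⟨M₂, hM₂⟩ : ∃ M₂, M₂ = 2 * A₀ + c + cA + 3 := ⟨_, rfl⟩
  obtain ⟨B, hB⟩ : ∃ B, B = (G ∩ P₂).filter (fun u => (nO R P u).card < t₀) := ⟨_, rfl⟩
  have hBG : B ⊆ G ∩ P₂ := by rw [hB]; exact filter_subset _ _
  by_cases hBc : B.card ≤ mB + cA + 3
  · -- few vertices with few out-neighbours in `P`
    obtain ⟨T, Z, S, k1, k2, k3, k4, k5, k6, k7, k8⟩ := hone hT (P₁ := P) (Q := P₂) (Av := Av) (G := G) (B := B) (Hs := Hs)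
      (M := t₀) (m := cA + C₁) (s₀ := s₀) (os := os)
      (Pr := fun Z => ∃ Qk : Finset V, Disjoint Z (Qk ∪ A₁) ∧ (∀ j ∈ I₂, (D₂ j).card ≤ M * (D₂ j ∩ Qk).card + c) ∧
        ∀ S' : Finset V, (S' ∩ Qk).card ≤ cA + w₁ → Disjoint S' ys →
          GSd R (U \ S') (P \ S') ys (κ / (32 * ((h₁ + 7 : ℕ) + 1))) t (s / (16 * ((h₁ + 7 : ℕ) + 1))) τ' K' e') hlen hHs hos hPP (by
        intro u hu hut
        rw [hB, mem_filter]
        exact ⟨hu, hut⟩) hbulk (by omega) (by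
        intro p hp
        have h1 := hcap p hp
        have h2 := hXP p.1
        by_cases h4 : t₀ ≤ (nO R P p.1).card
        · exact Or.inl h4
        · right
          omega) (by omega) (by
        intro H hH
        obtain ⟨Qk, hQk, hK2, hE, hS⟩ := hthin hG hξP (by omega) hys I₂ D₂ hD₂ hD₂n hgr H
          (fun h => nO R (P \ A₁) h) (by omega) (by
          intro h _ u hu
          rw [mem_nO, mem_sdiff] at hu
          exact hPys u hu.1.1)
        refine ⟨P \ (Qk ∪ A₁), sdiff_subset, ⟨Qk, disjoint_sdiff_self_left, fun j hj => (hK2 j hj).2.2, hS⟩, ?_⟩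
        intro h hh hM
        have h1 := hE h hh
        have h2 := hout P A₁ h
        have h3 : nO R (P \ A₁) h \ Qk ⊆ nO R (P \ (Qk ∪ A₁)) h := by
          intro u hu
          rw [mem_sdiff, mem_nO, mem_sdiff] at hu
          rw [mem_nO, mem_sdiff, mem_union, not_or]
          exact ⟨⟨hu.1.1.1, hu.2, hu.1.1.2⟩, hu.1.2⟩
        have h4 := card_le_card h3
        omega)
    obtain ⟨Qk, hZQ, hK2, hGS⟩ := k5
    rw [disjoint_union_right] at hZQ
    refine ⟨T, S, ∅, ∅, k1, by rw [hA₁]; exact k2, k6.trans k4, disjoint_of_subset_left k6 hZQ.2, empty_subset _,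
      disjoint_empty_left _, disjoint_empty_right _, k7, by rw [hq]; exact k8, by rw [card_empty]; omega, by
        rw [card_empty]; omega, ?_, ?_, fun h => absurd h not_nonempty_empty, ?_⟩
    · intro j _
      have h1 := le_card_sdiff T (D j)
      omega
    · intro j hj
      have h1 := hK2 j hj
      have h2 : (D₂ j ∩ Qk).card ≤ (D₂ j \ (T ∪ (S ∪ ∅))).card + w₁ := by
        have h3 : D₂ j ∩ Qk ⊆ (D₂ j \ (T ∪ (S ∪ ∅))) ∪ T := by
          intro u hu
          rw [mem_inter] at hu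
          rw [mem_union, mem_sdiff, mem_union, mem_union]
          by_cases h2 : u ∈ T
          · exact Or.inr h2
          · left
            refine ⟨hu.1, ?_⟩
            rintro (h3 | h3 | h3)
            · exact h2 h3
            · exact disjoint_left.1 hZQ.1 (k6 h3) hu.2
            · exact absurd h3 (notMem_empty u)
        exact (card_le_card h3).trans ((card_union_le _ _).trans (by omega))
      have h3 := Nat.mul_le_mul_left M h2
      rw [Nat.mul_add] at h3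
      omega
    · intro S' hS' hS'y
      apply hGS S' _ hS'y
      have h1 : S' ∩ Qk ⊆ (S' \ (T ∪ (S ∪ ∅))) ∪ T := by
        intro u hu
        rw [mem_inter] at hu
        rw [mem_union, mem_sdiff, mem_union, mem_union]
        by_cases h2 : u ∈ T
        · exact Or.inr h2
        · left
          refine ⟨hu.1, ?_⟩
          rintro (h3 | h3 | h3)
          · exact h2 h3
          · exact disjoint_left.1 hZQ.1 (k6 h3) hu.2
          · exact absurd h3 (notMem_empty u)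
      exact (card_le_card h1).trans ((card_union_le _ _).trans (by omega))
  · -- many vertices with few out-neighbours in `P`
    push Not at hBc
    obtain ⟨Bp, hBp, hBpc⟩ := exists_subset_card_eq (show mB ≤ (B \ A₁).card by
      have := le_card_sdiff A₁ B
      omega)
    have hBpm : ∀ u ∈ Bp, u ∈ G ∧ u ∈ P₂ ∧ (nO R P u).card < t₀ ∧ u ∉ A₁ := by
      intro u hu
      have h1 := mem_sdiff.1 (hBp hu)
      rw [hB, mem_filter, mem_inter] at h1
      exact ⟨h1.1.1.1, h1.1.1.2, h1.1.2, h1.2⟩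
    have hB0 : Bp.Nonempty := by
      rw [← card_pos]
      omega
    -- the kept part
    obtain ⟨Hx, hHx⟩ : ∃ Hx : Finset (Option (V × Bool)),
        Hx = insert none ((Hs ×ˢ (univ : Finset Bool)).map ⟨some, Option.some_injective _⟩) := ⟨_, rfl⟩
    have hHxc : Hx.card ≤ h₁ + 7 := by
      rw [hHx]
      refine (card_insert_le _ _).trans ?_
      rw [card_map, card_product, card_univ, Fintype.card_bool]
      omega
    have hHxm : ∀ h ∈ Hs, ∀ β : Bool, some (h, β) ∈ Hx := by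
      intro h hh β
      rw [hHx, mem_insert, mem_map]
      exact Or.inr ⟨(h, β), mem_product.2 ⟨hh, mem_univ _⟩, rfl⟩
    obtain ⟨Qk, hQk, hK2, hE, hGS⟩ := hthin hG hξP (by omega) hys I₂ D₂ hD₂ hD₂n hgr Hx (fun o => match o with
        | none => P \ A₁
        | some (h, false) => nO R (P \ A₁) h
        | some (h, true) => nO R ((U ∩ P₂) \ (A₁ ∪ Bp)) h) hHxc (by
      rintro (_ | ⟨h, _ | _⟩) _ u hu
      · exact hPys u (mem_sdiff.1 hu).1
      · have hu' : u ∈ nO R (P \ A₁) h := hu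
        rw [mem_nO, mem_sdiff] at hu'
        exact hPys u hu'.1.1
      · have hu' : u ∈ nO R ((U ∩ P₂) \ (A₁ ∪ Bp)) h := hu
        rw [mem_nO, mem_sdiff, mem_inter] at hu'
        exact mem_sdiff.2 ⟨hu'.1.1.1, fun h => disjoint_left.1 hysP h hu'.1.1.2⟩)
    have hE0 : (P \ A₁).card ≤ 2 * ((P \ A₁) \ Qk).card + c := hE none (by rw [hHx]; exact mem_insert_self _ _)
    have hE1 : ∀ h ∈ Hs, (nO R (P \ A₁) h).card ≤ 2 * (nO R (P \ A₁) h \ Qk).card + c :=
      fun h hh => hE (some (h, false)) (hHxm h hh false)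
    have hE2 : ∀ h ∈ Hs, (nO R ((U ∩ P₂) \ (A₁ ∪ Bp)) h).card ≤
        2 * (nO R ((U ∩ P₂) \ (A₁ ∪ Bp)) h \ Qk).card + c := fun h hh => hE (some (h, true)) (hHxm h hh true)
    obtain ⟨T, Z, S, Lam, k1, k2, k3, k4, k5, k6, k7, k8, k9, k10, k11⟩ := htwo hT (P₁ := P) (Q := P₂) (Av := A₁ ∪ Qk)
      (B := Bp) (Hs := Hs) (M := M₂) (A₀ := A₀) (t := t₀) (os := os) (Pr := fun Z => Disjoint Z (Qk ∪ A₁)) hlen hHs hos hPP
      (fun u hu => (hBpm u hu).2.1) hB0 (fun u hu => (hBpm u hu).2.2.1) (by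
        intro p hp
        have h1 := hcap p hp
        have h2 := hXP p.1
        by_cases h4 : M₂ ≤ (nO R P p.1).card
        · exact Or.inl h4
        · right
          have h5 := hout P₂ (A₁ ∪ Bp) p.1
          have h6 := card_union_le A₁ Bp
          have h7 := hE2 p.1 (hos p hp).1
          have h8 : nO R (P₂ \ (A₁ ∪ Bp)) p.1 ⊆ nO R ((U ∩ P₂) \ (A₁ ∪ Bp)) p.1 ∪ nO R ((P₂ \ (A₁ ∪ Bp)) \ U) p.1 := by
            intro u hu
            rw [mem_nO, mem_sdiff] at hu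
            rw [mem_union, mem_nO, mem_nO, mem_sdiff, mem_sdiff, mem_sdiff, mem_inter]
            by_cases h9 : u ∈ U
            · exact Or.inl ⟨⟨⟨h9, hu.1.1⟩, hu.1.2⟩, hu.2⟩
            · exact Or.inr ⟨⟨⟨hu.1.1, hu.1.2⟩, h9⟩, hu.2⟩
          have h9 := (card_le_card h8).trans (card_union_le _ _)
          have h10 : (nO R ((U ∩ P₂) \ (A₁ ∪ Bp)) p.1 \ Qk).card + (nO R ((P₂ \ (A₁ ∪ Bp)) \ U) p.1).card ≤
              (nO R (P₂ \ (A₁ ∪ Qk ∪ Bp)) p.1).card := by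
            rw [← card_union_of_disjoint]
            · apply card_le_card
              intro u hu
              rw [mem_union, mem_sdiff, mem_nO, mem_nO, mem_sdiff, mem_sdiff, mem_sdiff, mem_inter, mem_union,
                not_or] at hu
              rw [mem_nO, mem_sdiff, mem_union, mem_union, not_or, not_or]
              rcases hu with ⟨⟨⟨⟨g1, g2⟩, g3, g4⟩, g5⟩, g6⟩ | ⟨⟨⟨g2, g3, g4⟩, g1⟩, g5⟩
              · exact ⟨⟨g2, ⟨g3, g6⟩, g4⟩, g5⟩
              · exact ⟨⟨g2, ⟨g3, fun h => g1 (mem_sdiff.1 (hQk h)).1⟩, g4⟩, g5⟩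
            · rw [disjoint_left]
              intro u hu hu'
              rw [mem_sdiff, mem_nO, mem_sdiff, mem_inter] at hu
              rw [mem_nO, mem_sdiff] at hu'
              exact hu'.1.2 hu.1.1.1.1
          omega) (by omega) ⟨P \ (Qk ∪ A₁), sdiff_subset, disjoint_sdiff_self_left, by
        have h1 : (P \ A₁) \ Qk ⊆ P \ (Qk ∪ A₁) := by
          intro u hu
          rw [mem_sdiff, mem_sdiff] at hu
          rw [mem_sdiff, mem_union, not_or]
          exact ⟨hu.1.1, hu.2, hu.1.2⟩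
        have h2 := card_le_card h1
        have h3 := le_card_sdiff A₁ P
        omega, by
        intro h hh hM
        have h1 := hE1 h hh
        have h2 := hout P A₁ h
        have h3 : nO R (P \ A₁) h \ Qk ⊆ nO R (P \ (Qk ∪ A₁)) h := by
          intro u hu
          rw [mem_sdiff, mem_nO, mem_sdiff] at hu
          rw [mem_nO, mem_sdiff, mem_union, not_or]
          exact ⟨⟨hu.1.1.1, hu.2, hu.1.1.2⟩, hu.1.2⟩
        have h4 := card_le_card h3
        omega⟩ I D hD hK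
    rw [disjoint_union_right] at k3
    have hTm : ∀ u ∈ T, u ∈ P₂ ∧ u ∉ A₁ ∧ u ∉ Qk ∧ u ∉ Bp := by
      intro u hu
      have h1 := mem_sdiff.1 (k1 hu)
      rw [mem_union, mem_union, not_or, not_or] at h1
      exact ⟨h1.1, h1.2.1.1, h1.2.1.2, h1.2.2⟩
    refine ⟨T, S, Lam, Bp, fun u hu => (hTm u hu).1, ?_, k4.trans k2, disjoint_of_subset_left k4 k3.2, k5.trans k2,
      disjoint_of_subset_left k5 k3.2, k6, k7, by rw [hq]; exact k8, by omega, by omega, ?_, ?_, ?_, ?_⟩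
    · rw [disjoint_left]
      exact fun u hu => (hTm u hu).2.1
    · intro j hj
      have := k11 j hj
      omega
    · intro j hj
      have h1 := (hK2 j hj).2.2
      have h2 : (D₂ j ∩ Qk).card ≤ (D₂ j \ (T ∪ (S ∪ Lam))).card := by
        apply card_le_card
        intro u hu
        rw [mem_inter] at hu
        rw [mem_sdiff, mem_union, mem_union]
        refine ⟨hu.1, ?_⟩
        rintro (h3 | h3 | h3)
        · exact (hTm u h3).2.2.1 hu.2
        · exact disjoint_left.1 k3.1 (k4 h3) hu.2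
        · exact disjoint_left.1 k3.1 (k5 h3) hu.2
      have h3 := Nat.mul_le_mul_left M h2
      omega
    · intro _
      refine ⟨fun u hu => (hBpm u hu).1, fun u hu => (hBpm u hu).2.1, ?_, ?_, hBpc, k10⟩
      · rw [disjoint_left]
        exact fun u hu hu' => (hTm u hu').2.2.2 hu
      · rw [disjoint_left]
        exact fun u hu => (hBpm u hu).2.2.2
    · intro S' hS' hS'y
      apply hGS S' _ hS'y
      have h1 : S' ∩ Qk ⊆ S' \ (T ∪ (S ∪ Lam)) := by
        intro u hu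
        rw [mem_inter] at hu
        rw [mem_sdiff, mem_union, mem_union]
        refine ⟨hu.1, ?_⟩
        rintro (h3 | h3 | h3)
        · exact (hTm u h3).2.2.1 hu.2
        · exact disjoint_left.1 k3.1 (k4 h3) hu.2
        · exact disjoint_left.1 k3.1 (k5 h3) hu.2
      exact (card_le_card h1).trans (by omega)

end AEG
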