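import Pool.Agent.AEG.GroupR2
import Pool.Agent.AEG.LinkM
import Pool.Agent.AEG.StC
import Pool.Agent.AEG.LightsD

/-!
# Entering a critical group: the items of the links
-/

set_option autoImplicit false

namespace AEG

open Finset AE15 AED AEB SPD
open scoped Classical

theorem card_disjSum_filterE {α β : Type} (A : Finset α) (B : Finset β) (g : α ⊕ β → ℕ) (j : ℕ) :
    ((A.disjSum B).filter (fun x => g x = j)).card = (A.filter (fun a => g (Sum.inl a) = j)).card +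
      (B.filter (fun b => g (Sum.inr b) = j)).card := by
  have h : (A.disjSum B).filter (fun x => g x = j) =
      (A.filter (fun a => g (Sum.inl a) = j)).disjSum (B.filter (fun b => g (Sum.inr b) = j)) := by
    ext x
    rcases x with a | b
    · rw [mem_filter, inl_mem_disjSum, inl_mem_disjSum, mem_filter]
    · rw [mem_filter, inr_mem_disjSum, inr_mem_disjSum, mem_filter]
  rw [h, card_disjSum]

/-- few vertices have few in-neighbours -/
theorem card_low_le {V : Type} {R : V → V → Prop} (hT : AE32.Tour R) (X : Finset V) (k : ℕ) :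
    (X.filter (fun h => (nI R X h).card ≤ k)).card ≤ 2 * (k + 1) := by
  refine (card_le_card ?_).trans (card_lowin hT X (k + 1))
  intro h hh
  rw [mem_filter] at hh ⊢
  exact ⟨hh.1, by omega⟩

/-- **The items of the links, exactly**, when a critical group is entered -/
theorem enter_in (b l : ℕ) (hb : 1 ≤ b) : ∃ M H : ℕ, 1 ≤ M ∧ ∀ {κa ηa κ₀ η₀ : ℝ}, 0 < κa → 25 * κa ≤ ηa → ηa ≤ 1 / 8 →
    0 < κ₀ → 25 * κ₀ ≤ η₀ → η₀ ≤ 1 / 8 → ∀ Nn : ℕ, ∃ (w₀ : ℕ) (τ' : ℝ) (K' e' C : ℕ) (ξ : ℝ), 0 < τ' ∧ 0 < ξ ∧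
    ∀ {V : Type} {R : V → V → Prop}, AE32.Tour R → ∀ {X P₁ P₂ U₁ G : Finset V} {ys : List V} {y : V} {pp sg : ℕ}
      (v a w : V) (l₁ l₂ l₃ : Fd × Fd) (gl mB : ℕ),
      GrpC2 R X (X \ low R sg X) P₁ P₂ U₁ G ys y κa ηa κ₀ η₀ pp gl (4 * Nn) → gl ≤ Nn →
      (∀ q ∈ [l₁, l₂, l₃], FOK b l 0 q.1 ∧ ∀ t ∈ q.1.trees, t.1 = true) → v ∉ ys → a ∉ ys → w ∉ ys → 1 ≤ mB →
      mB + 24 * inS [l₁, l₂, l₃] + 2 * sg + C ≤ (nI R X v).card →
      mB + 24 * inS [l₁, l₂, l₃] + 2 * sg + C ≤ (nI R X a).card →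
      mB + 24 * inS [l₁, l₂, l₃] + 2 * sg + C ≤ (nI R X w).card → 16 * inS [l₁, l₂, l₃] + C ≤ pp →
      ((pp + sg + mB : ℕ) : ℝ) ≤ ξ * X.card →
      ∃ T S E Bp : Finset V, T ⊆ P₂ ∧ S ⊆ P₁ ∧ E ⊆ P₁ ∧ Disjoint T ({v, a, w} : Finset V) ∧
        Disjoint S ({v, a, w} : Finset V) ∧ Disjoint E ({v, a, w} : Finset V) ∧ Disjoint Bp ({v, a, w} : Finset V) ∧
        Disjoint S E ∧ EmbAllB (rv R) [(v, l₁.1), (a, l₂.1), (w, l₃.1)] (T ∪ S) ∧
        T.card + S.card = inS [l₁, l₂, l₃] ∧ S.card + E.card ≤ inS [l₁, l₂, l₃] ∧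
        inS [l₁, l₂, l₃] ≤ S.card + E.card + w₀ ∧
        (∀ u ∈ P₂, R u y → (nI R (P₂.filter (fun w => R y w ∧ w ∈ G)) u).card ≤
          4 * (nI R (P₂.filter (fun w => R y w ∧ w ∈ G)) u \ T).card + w₀) ∧
        (∀ h ∈ X, (nI R X h).card ≤ 4 * (nI R (P₂ \ U₁) h).card →
          (nI R (P₂ \ U₁) h).card ≤ 4 * (nI R (P₂ \ U₁) h \ T).card + w₀) ∧
        (∀ h ∈ X, 1 ≤ (nI R X h).card → (nI R X h).card ≤ 4 * (nI R (U₁ \ ys.toFinset) h).card →
          (nI R (U₁ \ ys.toFinset) h).card ≤ M * (nI R (U₁ \ ys.toFinset) h \ (T ∪ (S ∪ E))).card + w₀) ∧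
        Bp ⊆ G ∧ Bp ⊆ P₂ ∧ Disjoint Bp T ∧ Bp.card ≤ mB ∧ (∀ u ∈ E, mB ≤ 2 * (nI R Bp u).card) ∧
        GSd (rv R) (U₁ \ (T ∪ (S ∪ E) ∪ {v, a, w})) (P₁ \ (T ∪ (S ∪ E) ∪ {v, a, w})) ys.toFinset
          (κ₀ ^ 2 / 8 / (32 * (H + 1))) (2 * η₀ * U₁.card) (η₀ / 8 / (16 * (H + 1))) τ' K' e' := by
  obtain ⟨M, H, hM, hlink⟩ := link_exactM b l hb
  refine ⟨M, H, hM, ?_⟩
  intro κa ηa κ₀ η₀ h0a hηa hηa1 h0 hη hη1 Nn
  have hη₀ : 0 < η₀ := by linarith
  obtain ⟨w₀, τ', K', g1, g2, hlink⟩ := hlink (7 + 4 / κa + 8) (κ := κ₀ ^ 2 / 8) (ξ := 1 / 6)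
    (s := η₀ / 8) (τ := η₀ / 8) (by positivity) (by nlinarith) (by norm_num) (by norm_num) (by positivity) (by linarith)
    (by positivity) 4 (4 * Nn) Nn 8
  obtain ⟨C₁, e', hlink⟩ := hlink 3
  obtain ⟨n₂, hn₂⟩ := exists_big [((C₁ + Nn + 2 : ℝ), κa)] (by
    intro q hq
    simp only [List.mem_cons, List.not_mem_nil, or_false] at hq
    rcases hq with rfl
    exact h0a)
  refine ⟨w₀, τ', K', e', C₁ + n₂ + 1, min κa (1 / 8), g1, lt_min h0a (by norm_num), ?_⟩
  intro V R hT X P₁ P₂ U₁ G ys y pp sg v a w l₁ l₂ l₃ gl mB hG hgl hbr hv ha hw hmB hcv hca hcw hpp hsm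
  obtain ⟨q, hq⟩ : ∃ q, q = inS [l₁, l₂, l₃] := ⟨_, rfl⟩
  have hq' : totB [(v, l₁.1), (a, l₂.1), (w, l₃.1)] = q := by
    rw [hq]
    simp [totB, inS]
  rw [← hq] at hcv hca hcw hpp ⊢
  obtain ⟨My, hMy⟩ : ∃ My, My = P₂.filter (fun w => R y w ∧ w ∈ G) := ⟨_, rfl⟩
  rw [← hMy]
  obtain ⟨Hs, hHs⟩ : ∃ Hs : Finset V, Hs = {v, a, w} := ⟨_, rfl⟩
  rw [← hHs]
  have hHsc : Hs.card ≤ 3 := by
    rw [hHs]
    exact card_le_three
  have hHsm : ∀ u, u ∈ Hs ↔ u = v ∨ u = a ∨ u = w := by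
    intro u
    rw [hHs]
    simp
  obtain ⟨X₁, hX₁⟩ : ∃ X₁, X₁ = X \ low R sg X := ⟨_, rfl⟩
  rw [← hX₁] at hG
  have hlow : (low R sg X).card ≤ 2 * sg := card_low_in hT sg X
  have hlowX : low R sg X ⊆ X := by rw [low]; exact filter_subset _ _
  have hP₂X₁ : P₂ ⊆ X₁ := fun u hu => ((hG.part u).1 hu).1
  have hP₂X : P₂ ⊆ X := hP₂X₁.trans hG.hX₁
  have hMyP : My ⊆ P₂ := by
    rw [hMy]
    exact filter_subset _ _
  have hyslen : ys.length ≤ Nn := by
    rw [hG.len]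
    exact hgl
  have hysc : ys.toFinset.card ≤ Nn := (List.toFinset_card_le ys).trans hyslen
  have hX0 : (0 : ℝ) ≤ X.card := Nat.cast_nonneg _
  push_cast at hsm
  have hpp0 : (0 : ℝ) ≤ pp := Nat.cast_nonneg _
  have hsg0 : (0 : ℝ) ≤ sg := Nat.cast_nonneg _
  have hmB0 : (0 : ℝ) ≤ mB := Nat.cast_nonneg _
  have hξ1 : min κa (1 / 8) * (X.card : ℝ) ≤ κa * X.card := mul_le_mul_of_nonneg_right (min_le_left _ _) hX0
  have hξ2 : min κa (1 / 8) * (X.card : ℝ) ≤ 1 / 8 * X.card := mul_le_mul_of_nonneg_right (min_le_right _ _) hX0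
  have hn₂X : n₂ ≤ X.card := by
    have h1 : ((n₂ : ℕ) : ℝ) ≤ pp := by exact_mod_cast (by omega : n₂ ≤ pp)
    have h4 : (n₂ : ℝ) ≤ X.card := by linarith
    exact_mod_cast h4
  have g3 : (C₁ + Nn + 2 : ℝ) ≤ κa * X.card := hn₂ X.card hn₂X ((C₁ + Nn + 2 : ℝ), κa) (by simp)
  have hX₁c : (X.card : ℝ) ≤ X₁.card + 2 * sg := by
    have h1 : X ⊆ X₁ ∪ low R sg X := by
      intro u hu
      rw [mem_union, hX₁, mem_sdiff]
      by_cases h : u ∈ low R sg X
      · exact Or.inr h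
      · exact Or.inl ⟨hu, h⟩
    have h2 := (card_le_card h1).trans (card_union_le _ _)
    exact_mod_cast (by omega : X.card ≤ X₁.card + 2 * sg)
  have hdeg : ∀ h : V, (nI R X h).card ≤ (nI R X₁ h).card + 2 * sg := by
    intro h
    have h1 : nI R X h ⊆ nI R X₁ h ∪ low R sg X := by
      intro u hu
      rw [mem_nI] at hu
      rw [mem_union, mem_nI, hX₁, mem_sdiff]
      by_cases h3 : u ∈ low R sg X
      · exact Or.inr h3
      · exact Or.inl ⟨⟨hu.1, h3⟩, hu.2⟩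
    have h2 := (card_le_card h1).trans (card_union_le _ _)
    omega
  have hGP : ⌊2 * κa * X₁.card⌋₊ + mB + C₁ ≤ (G ∩ P₂).card := by
    have h1 : G ⊆ (G ∩ P₂) ∪ (P₁ ∪ ys.toFinset) := by
      intro u hu
      rw [mem_union, mem_union, mem_inter, List.mem_toFinset]
      by_cases h2 : u ∈ P₁
      · exact Or.inr (Or.inl h2)
      by_cases h3 : u ∈ ys
      · exact Or.inr (Or.inr h3)
      · exact Or.inl ⟨hu, (hG.part u).2 ⟨hG.hG hu, h2, h3⟩⟩
    have h2 := (card_le_card h1).trans (card_union_le _ _)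
    have h3 := card_union_le P₁ ys.toFinset
    rw [hG.card₁] at h3
    have h4 : (G.card : ℝ) ≤ (G ∩ P₂).card + (pp + Nn) := by
      exact_mod_cast (by omega : G.card ≤ (G ∩ P₂).card + (pp + Nn))
    have h5 := hG.hGc
    have h6 : (⌊2 * κa * X₁.card⌋₊ : ℝ) ≤ 2 * κa * X₁.card := Nat.floor_le (by positivity)
    have h7 : κa * (X.card : ℝ) ≤ κa * (X₁.card + 2 * sg) := mul_le_mul_of_nonneg_left hX₁c h0a.le
    have h8 : κa * (2 * (sg : ℝ)) ≤ κa * (1 / 4 * X.card) := mul_le_mul_of_nonneg_left (by linarith) h0a.le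
    have h9 : ((⌊2 * κa * X₁.card⌋₊ + mB + C₁ : ℕ) : ℝ) ≤ (G ∩ P₂).card := by
      push_cast
      linarith
    exact_mod_cast h9
  obtain ⟨Q, hQ⟩ : ∃ Q, Q = P₂ \ U₁ := ⟨_, rfl⟩
  rw [← hQ]
  obtain ⟨I, hI⟩ : ∃ I : Finset (V ⊕ V), I = (P₂.filter (fun u => R u y)).disjSum
      (X.filter (fun h => (nI R X h).card ≤ 4 * (nI R Q h).card)) := ⟨_, rfl⟩
  obtain ⟨I₂, hI₂⟩ : ∃ I₂ : Finset V, I₂ = X.filter (fun h => 1 ≤ (nI R X h).card ∧
      (nI R X h).card ≤ 4 * (nI R (U₁ \ ys.toFinset) h).card) := ⟨_, rfl⟩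
  obtain ⟨T, S, E, Bp, k1, k2, k3, k4, k5, k6, k7, k8, k9, k10, k11, k12, k13, k14, k15⟩ := hlink (rv_tour hT) (X := X₁)
    (U := U₁) (P := P₁) (P₂ := P₂) (ys := ys.toFinset) (G := G) (Hs := Hs) (Av := ∅) (t := 2 * η₀ * U₁.card)
    (s₀ := ⌊2 * κa * X₁.card⌋₊) (mB := mB) (os := [(v, l₁.1), (a, l₂.1), (w, l₃.1)]) hG.side (by
      have h1 : (U₁.card : ℝ) ≤ 6 * P₁.card := by
        rw [hG.card₁]
        exact_mod_cast hG.cardU
      linarith) (by rw [hG.card₁, hq']; omega) hysc (by simp) hHsc (by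
      rw [disjoint_left]
      intro u hu hu'
      rw [List.mem_toFinset] at hu'
      rcases (hHsm u).1 hu with rfl | rfl | rfl
      · exact hv hu'
      · exact ha hu'
      · exact hw hu') (by
      intro p hp
      simp only [List.mem_cons, List.not_mem_nil, or_false] at hp
      rcases hp with rfl | rfl | rfl
      · exact ⟨(hHsm _).2 (Or.inl rfl), hbr l₁ (by simp)⟩
      · exact ⟨(hHsm _).2 (Or.inr (Or.inl rfl)), hbr l₂ (by simp)⟩
      · exact ⟨(hHsm _).2 (Or.inr (Or.inr rfl)), hbr l₃ (by simp)⟩) hG.disj (by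
      rw [disjoint_left]
      intro u hu
      exact (hG.hys u (List.mem_toFinset.1 hu)).2.2.2) (by
      intro x hx
      rw [List.mem_toFinset]
      by_cases h2 : x ∈ P₁
      · exact Or.inl h2
      by_cases h3 : x ∈ ys
      · exact Or.inr (Or.inr h3)
      · exact Or.inr (Or.inl ((hG.part x).2 ⟨hx, h2, h3⟩))) (by simp) hmB (by
      intro u hu huG
      rw [nI_rv]
      exact Nat.le_floor (hG.bulk u (hP₂X₁ hu) huG).le) hGP (by
      intro p hp
      rw [hq', nO_rv]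
      simp only [List.mem_cons, List.not_mem_nil, or_false] at hp
      rcases hp with rfl | rfl | rfl
      · have := hdeg v
        show _ ≤ (nI R X₁ v).card
        omega
      · have := hdeg a
        show _ ≤ (nI R X₁ a).card
        omega
      · have := hdeg w
        show _ ≤ (nI R X₁ w).card
        omega) I (Sum.elim (fun u => nI R My u) (fun h => nI R Q h)) (by
      rintro (u | u) _
      · exact nI_sub.trans hMyP
      · refine nI_sub.trans ?_
        rw [hQ]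
        exact sdiff_subset) (by
      intro k
      rw [hI]
      have h0' := card_disjSum_filterE (P₂.filter (fun u => R u y))
        (X.filter (fun h => (nI R X h).card ≤ 4 * (nI R Q h).card))
        (fun x => (Sum.elim (fun u => nI R My u) (fun h => nI R Q h) x).card) k
      have h1 : ((P₂.filter (fun u => R u y)).filter (fun u => (nI R My u).card = k)).card ≤
          (P₂.filter (fun u => R u y ∧ (nI R My u).card ≤ k)).card := by
        apply card_le_card
        intro u hu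
        rw [mem_filter, mem_filter] at hu
        rw [mem_filter]
        exact ⟨hu.1.1, hu.1.2, hu.2.le⟩
      have h2 : ((X.filter (fun h => (nI R X h).card ≤ 4 * (nI R Q h).card)).filter (fun h => (nI R Q h).card = k)).card ≤
          2 * (4 * k + 1) := by
        refine (card_le_card ?_).trans (card_low_le hT X (4 * k))
        intro u hu
        rw [mem_filter, mem_filter] at hu
        rw [mem_filter]
        have := hu.1.2
        rw [hu.2] at this
        exact ⟨hu.1.1, this⟩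
      have hk0 : (0 : ℝ) ≤ k := Nat.cast_nonneg _
      have h4k : 0 ≤ 4 / κa := by positivity
      have h3 : ((P₂.filter (fun u => R u y ∧ (nI R My u).card ≤ k)).card : ℝ) ≤ 6 * k + 4 / κa * k := by
        by_cases hk : (k : ℝ) ≤ κa / 4 * X.card
        · have h4 := hG.cnt k hk
          rw [← hMy] at h4
          have h5 : ((P₂.filter (fun u => R u y ∧ (nI R My u).card ≤ k)).card : ℝ) ≤ 6 * k := by exact_mod_cast h4
          have h6 : 0 ≤ 4 / κa * (k : ℝ) := by positivity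
          linarith
        · push Not at hk
          have h4 : ((P₂.filter (fun u => R u y ∧ (nI R My u).card ≤ k)).card : ℝ) ≤ X.card := by
            exact_mod_cast card_le_card ((filter_subset _ _).trans hP₂X)
          have h5 : (X.card : ℝ) = 4 / κa * (κa / 4 * X.card) := by field_simp
          have h6 : 4 / κa * (κa / 4 * X.card) ≤ 4 / κa * k := mul_le_mul_of_nonneg_left hk.le h4k
          linarith
      have h5 : (((P₂.filter (fun u => R u y)).disjSum
          (X.filter (fun h => (nI R X h).card ≤ 4 * (nI R Q h).card))).filter (fun x =>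
          (Sum.elim (fun u => nI R My u) (fun h => nI R Q h) x).card = k)).card ≤
          (P₂.filter (fun u => R u y ∧ (nI R My u).card ≤ k)).card + 2 * (4 * k + 1) :=
        (le_of_eq h0').trans (Nat.add_le_add h1 h2)
      have h6 : ((((P₂.filter (fun u => R u y)).disjSum
          (X.filter (fun h => (nI R X h).card ≤ 4 * (nI R Q h).card))).filter (fun x =>
          (Sum.elim (fun u => nI R My u) (fun h => nI R Q h) x).card = k)).card : ℝ) ≤
          (P₂.filter (fun u => R u y ∧ (nI R My u).card ≤ k)).card + 2 * (4 * k + 1) := by exact_mod_cast h5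
      refine h6.trans ?_
      have h7 : (7 + 4 / κa + 8) * ((k : ℝ) + 1) = 15 * k + 4 / κa * k + 15 + 4 / κa := by ring
      rw [h7]
      linarith) I₂ (fun h => nI R (U₁ \ ys.toFinset) h) (fun h _ => nI_sub) (by
      intro h hh
      rw [hI₂, mem_filter] at hh
      rw [← card_pos]
      omega) (by
      intro j
      refine (card_le_card ?_).trans ((card_low_le hT X (4 * j)).trans (by omega))
      intro h hh
      rw [mem_filter, hI₂, mem_filter] at hh
      rw [mem_filter]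
      have := hh.1.2.2
      have h3 : (nI R (U₁ \ ys.toFinset) h).card ≤ j := hh.2
      exact ⟨hh.1.1, by omega⟩)
  rw [empty_union] at k2 k4 k6
  rw [hq'] at k9 k10 k11
  have hS' := k15 (T ∪ (S ∪ E) ∪ Hs) (by
    refine (card_le_card ?_).trans hHsc
    intro u hu
    rw [mem_sdiff, mem_union] at hu
    exact hu.1.resolve_left hu.2) (by
    rw [disjoint_union_left, disjoint_union_left, disjoint_union_left]
    refine ⟨⟨?_, ?_, ?_⟩, ?_⟩
    · rw [disjoint_left]
      intro u hu hu'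
      exact (hG.hys u (List.mem_toFinset.1 hu')).2.2.2 (k1 hu)
    · rw [disjoint_left]
      intro u hu hu'
      exact (hG.hys u (List.mem_toFinset.1 hu')).2.2.1 (k3 hu)
    · rw [disjoint_left]
      intro u hu hu'
      exact (hG.hys u (List.mem_toFinset.1 hu')).2.2.1 (k5 hu)
    · rw [disjoint_left]
      intro u hu hu'
      rw [List.mem_toFinset] at hu'
      rcases (hHsm u).1 hu with rfl | rfl | rfl
      · exact hv hu'
      · exact ha hu'
      · exact hw hu')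
  obtain ⟨Bq, q1, q2, q3, q4, q5, q6⟩ : ∃ Bq : Finset V, Disjoint Bq Hs ∧ Bq ⊆ G ∧ Bq ⊆ P₂ ∧ Disjoint Bq T ∧
      Bq.card ≤ mB ∧ ∀ u ∈ E, mB ≤ 2 * (nI R Bq u).card := by
    rcases E.eq_empty_or_nonempty with h0' | h0'
    · refine ⟨∅, disjoint_empty_left _, empty_subset _, empty_subset _, disjoint_empty_left _, by simp, ?_⟩
      rw [h0']
      intro u hu
      exact absurd hu (notMem_empty u)
    · obtain ⟨r1, r2, r3, r4, r5, r6⟩ := k14 h0'
      rw [empty_union] at r4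
      refine ⟨Bp, r4, r1, r2, r3, r5.le, ?_⟩
      intro u hu
      have := r6 u hu
      rw [nO_rv, r5] at this
      exact this
  refine ⟨T, S, E, Bq, k1, k3, k5, k2, k4, k6, q1, k7, k8, k9, k10, k11, ?_, ?_, ?_, q2, q3, q4, q5, q6, hS'⟩
  · intro u hu hR
    exact k12 (Sum.inl u) (by
      rw [hI, inl_mem_disjSum, mem_filter]
      exact ⟨hu, hR⟩)
  · intro h hh hin
    exact k12 (Sum.inr h) (by
      rw [hI, inr_mem_disjSum, mem_filter]
      exact ⟨hh, hin⟩)
  · intro h hh h1 hin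
    exact k13 h (by
      rw [hI₂, mem_filter]
      exact ⟨hh, h1, hin⟩)

end AEG
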