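import Pool.Agent.AEG.EnterA
import Pool.Agent.AEG.StcCore
import Pool.Agent.AEG.GlueCr
import Pool.Agent.AEG.GroupC
import Pool.Agent.AEG.StCm
import Pool.Agent.AEB.NPx

/-!
# Entering a critical group
-/

set_option autoImplicit false

namespace AEG

open Finset AE15 AED AEB SPD
open scoped Classical

/-- **The ladder of capacities**: few vertices have few in-neighbours in `Pp ∪ PZ` and few others -/
theorem enter_cap {V : Type} {R : V → V → Prop} (hT : AE32.Tour R) {X W P₂ U₁ X₀ Pp PZ T SE Hs Y : Finset V}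
    {M bb w₀ sg Nn : ℕ} (hX : ∀ u ∈ X, u ∈ W ∨ u ∈ U₁ \ Y ∨ u ∈ P₂ \ U₁ ∨ u ∈ Y) (hW : W ⊆ Pp)
    (hα : ∀ u ∈ U₁ \ Y, u ∉ T ∪ SE → u ∉ Hs → u ∈ Pp ∪ PZ) (hγ : ∀ u ∈ P₂ \ U₁, u ∉ T → u ∉ Hs → u ∈ X₀)
    (hX₀ : X₀ ⊆ X) (hdeg : ∀ h ∈ X₀, sg ≤ (nI R X h).card) (hY : Y.card ≤ Nn) (hHs : Hs.card ≤ 3)
    (h1 : ∀ h ∈ X, (nI R X h).card ≤ 4 * (nI R (P₂ \ U₁) h).card →
      (nI R (P₂ \ U₁) h).card ≤ 4 * (nI R (P₂ \ U₁) h \ T).card + w₀)
    (h2 : ∀ h ∈ X, 1 ≤ (nI R X h).card → (nI R X h).card ≤ 4 * (nI R (U₁ \ Y) h).card →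
      (nI R (U₁ \ Y) h).card ≤ M * (nI R (U₁ \ Y) h \ (T ∪ SE)).card + w₀)
    (hsg : (8 * M + 64) * bb + (12 * M + 8 * w₀ + 2 * Nn + 97) ≤ sg) (j : ℕ) :
    (X₀.filter (fun h => (nI R (Pp ∪ PZ) h).card < bb ∧ (nI R (X₀ \ PZ) h).card ≤ j)).card ≤ 66 * (j + 1) := by
  refine (card_le_card (t := X.filter (fun h => (nI R X h).card ≤ 32 * j)) ?_).trans
    ((card_low_le hT X (32 * j)).trans (by omega))
  intro h hh
  rw [mem_filter] at hh
  obtain ⟨hh, hb, hj⟩ := hh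
  rw [mem_filter]
  refine ⟨hX₀ hh, ?_⟩
  have hd := hdeg h hh
  have hMb : (8 * M + 64) * bb = 8 * (M * bb) + 64 * bb := by ring
  have e1 : (nI R X h).card ≤ (nI R W h).card + ((nI R (U₁ \ Y) h).card + ((nI R (P₂ \ U₁) h).card + Nn)) := by
    have e2 : nI R X h ⊆ nI R W h ∪ (nI R (U₁ \ Y) h ∪ (nI R (P₂ \ U₁) h ∪ Y)) := by
      intro u hu
      rw [mem_nI] at hu
      rw [mem_union, mem_union, mem_union, mem_nI, mem_nI, mem_nI]
      rcases hX u hu.1 with h3 | h3 | h3 | h3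
      · exact Or.inl ⟨h3, hu.2⟩
      · exact Or.inr (Or.inl ⟨h3, hu.2⟩)
      · exact Or.inr (Or.inr (Or.inl ⟨h3, hu.2⟩))
      · exact Or.inr (Or.inr (Or.inr h3))
    have e3 := (card_le_card e2).trans (card_union_le _ _)
    have e4 := card_union_le (nI R (U₁ \ Y) h) (nI R (P₂ \ U₁) h ∪ Y)
    have e5 := card_union_le (nI R (P₂ \ U₁) h) Y
    omega
  have e2 : (nI R W h).card ≤ (nI R (Pp ∪ PZ) h).card := card_le_card (nI_mono (hW.trans subset_union_left))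
  have hα' : ¬ (nI R X h).card ≤ 4 * (nI R (U₁ \ Y) h).card := by
    intro hc
    have e3 := h2 h (hX₀ hh) (by omega) hc
    have e4 : (nI R (U₁ \ Y) h \ (T ∪ SE)).card ≤ (nI R (Pp ∪ PZ) h).card + 3 := by
      have e5 : nI R (U₁ \ Y) h \ (T ∪ SE) ⊆ nI R (Pp ∪ PZ) h ∪ Hs := by
        intro u hu
        rw [mem_sdiff, mem_nI] at hu
        rw [mem_union, mem_nI]
        by_cases h3 : u ∈ Hs
        · exact Or.inr h3
        · exact Or.inl ⟨hα u hu.1.1 hu.2 h3, hu.1.2⟩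
      exact (card_le_card e5).trans ((card_union_le _ _).trans (by omega))
    have e5 : M * (nI R (U₁ \ Y) h \ (T ∪ SE)).card ≤ M * (bb + 3) := Nat.mul_le_mul_left _ (by omega)
    rw [Nat.mul_add] at e5
    omega
  have hγ' := h1 h (hX₀ hh) (by omega)
  have e4 : (nI R (P₂ \ U₁) h \ T).card ≤ (nI R (X₀ \ PZ) h).card + ((nI R (Pp ∪ PZ) h).card + 3) := by
    have e5 : nI R (P₂ \ U₁) h \ T ⊆ nI R (X₀ \ PZ) h ∪ (nI R (Pp ∪ PZ) h ∪ Hs) := by
      intro u hu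
      rw [mem_sdiff, mem_nI] at hu
      rw [mem_union, mem_union, mem_nI, mem_nI, mem_sdiff, mem_union]
      by_cases h3 : u ∈ Hs
      · exact Or.inr (Or.inr h3)
      · by_cases h4 : u ∈ PZ
        · exact Or.inr (Or.inl ⟨Or.inr h4, hu.1.2⟩)
        · exact Or.inl ⟨⟨hγ u hu.1.1 hu.2 h3, h4⟩, hu.1.2⟩
    have e6 := (card_le_card e5).trans (card_union_le _ _)
    have e7 := card_union_le (nI R (Pp ∪ PZ) h) Hs
    omega
  omega

theorem exists_small' : ∀ (l : List (ℝ × ℝ)), (∀ q ∈ l, 0 < q.1 ∧ 0 < q.2) → ∃ ξ : ℝ, 0 < ξ ∧ ∀ q ∈ l, q.1 * ξ ≤ q.2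
  | [], _ => ⟨1, one_pos, by simp⟩
  | q :: l, h => by
    obtain ⟨ξ, h1, h2⟩ := exists_small' l (fun x hx => h x (List.mem_cons_of_mem _ hx))
    obtain ⟨h3, h4⟩ := h q List.mem_cons_self
    refine ⟨min ξ (q.2 / q.1), lt_min h1 (by positivity), ?_⟩
    intro x hx
    rcases List.mem_cons.1 hx with rfl | hx
    · have := mul_le_mul_of_nonneg_left (min_le_right ξ (x.2 / x.1)) h3.le
      rwa [mul_div_cancel₀ _ h3.ne'] at this
    · obtain ⟨h5, -⟩ := h x (List.mem_cons_of_mem _ hx)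
      exact (mul_le_mul_of_nonneg_left (min_le_left _ _) h5.le).trans (h2 x hx)

theorem enter_num {MB bb q le lam' C lam w sig Q c₁ T' CT W0 xq pp mB C₄ C₅ : ℕ}
    (k1 : 16 * MB + 200 * (q + bb + le + lam') + C ≤ lam) (hsig : lam ≤ sig) (k2 : 200 * (w + sig + q) + C ≤ Q)
    (k3 : bb + lam' + c₁ + C ≤ Q) (hT' : T' = 8 * MB + 64 * bb + CT) (hC : 2 * CT + C₄ + C₅ + 100 ≤ C) (hxq : xq ≤ bb)
    (hW : W0 ≤ 2 * T') (hpp : pp = Q + xq + c₁ + q + 3 - W0) (hmB : mB = 2 * le + 4 * lam' + 2) :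
    2 * T' ≤ lam ∧ pp + W0 = Q + xq + c₁ + q + 3 ∧ pp + T' + mB ≤ 6 * Q ∧ 16 * (w + 2 * sig + 2 * lam) + C₅ ≤ pp ∧
      mB + 24 * q + 2 * T' + C₄ ≤ lam ∧ 16 * q + C₄ ≤ pp := by
  have h1 : 2 * T' ≤ lam := by linarith
  have h0 : W0 ≤ Q + xq + c₁ + q + 3 := by linarith
  have h2 : pp + W0 = Q + xq + c₁ + q + 3 := by rw [hpp]; exact Nat.sub_add_cancel h0
  clear hpp
  refine ⟨h1, h2, ?_, ?_, ?_, ?_⟩
  · linarith
  · linarith
  · linarith
  · linarith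

theorem enterB_core (p : NP) (hp : p.OK) (hab : ab p.b p.l ≤ p.a) : ∃ M H : ℕ, 1 ≤ M ∧ ∀ {D₀ : ℕ}, p.A ≤ D₀ →
    ∀ {ω c η η₁ κ₀ κ₁ κ γ₀ τ s σ₂ μ : ℝ}, KB D₀ ω c η η₁ κ₀ κ₁ κ γ₀ τ s σ₂ μ → ∀ {D₀' : ℕ}, p.A ≤ D₀' →
    ∀ {ω' c' η' η₁' κ₀' κ₁' κ' γ₀' τ' s' σ₂' μ' : ℝ}, KB D₀' ω' c' η' η₁' κ₀' κ₁' κ' γ₀' τ' s' σ₂' μ' →
    ∀ {K₀ : ℕ}, 2 * ω * (K₀ + 1) ≤ 1 → ∀ {ζ ηw κa ηa : ℝ}, 0 < ζ → 4 * ω' ≤ ζ → 0 < ηw → 0 < κa → 25 * κa ≤ ηa →
    ηa ≤ 1 / 8 → 16 * ηa ≤ c * η' → 16 * ηa ≤ c * (c' * ηw) → 8 * ηa ≤ η → ∀ Nn : ℕ, ∃ κ₂ s₂ : ℝ, 0 < κ₂ ∧ 0 < s₂ ∧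
    ∀ {κi ηi : ℝ}, 0 < κi → 25 * κi ≤ ηi → ηi ≤ 1 / 8 → ∃ (τp : ℝ) (Kp ep C₂ : ℕ), 0 < τp ∧
    ∀ {κS ηS : ℝ}, 0 < κS → 2 * ηS ≤ η → ∃ K₁ C₁ : ℕ, ∀ (sS : ℝ) (f K' f₁ cc Λp : ℕ), Nn + 3 ≤ f →
      ((3072 * (H + 1) * (8 * M + 64) : ℕ) : ℝ) / ηi ≤ Λp → ∃ (ξ : ℝ) (C : ℕ), 0 < ξ ∧
      EnterB (CSof ⟨κi ^ 2 / (512 * (H + 1)), 1 / 16, ηi / (256 * (H + 1)), τp, 25 * ηi, Kp, ep, κ₂, ηw, s₂, f₁, K₁,
        K₁ * cc + C₁, cc⟩) p.b p.l K₀ κS ηS sS (16 * M + 200) Λp 48 f K' Nn ζ ξ C 0 C₂ := by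
  obtain ⟨M, H, hM, hin⟩ := enter_in p.b p.l hp.hb
  refine ⟨M, H, hM, ?_⟩
  intro D₀ hD₀ ω c η η₁ κ₀ κ₁ κ γ₀ τ s σ₂ μ P D₀' hD₀' ω' c' η' η₁' κ₀' κ₁' κ' γ₀' τ' s' σ₂' μ' P' K₀ hωK ζ ηw κa ηa hζ
    hω' hηw h0a hηa hηa1 hηa2 hηa3 hηa4 Nn
  obtain ⟨hω0, hω1, hc0, hc1, hη0, hη1, hη₁0, hη₁1, hκ₀0, hκ₁0, hκ₁1, hκ0, hκ1, hs0, hγ₀0, hτ0, hσ₂0, hμ0, hκ₁η, hκs⟩ :=
    P.num
  have hηa0 : 0 < ηa := by linarith
  obtain ⟨Kd, hKd⟩ : ∃ Kd : ℕ, Kd = 66 + ⌈64 / κa⌉₊ := ⟨_, rfl⟩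
  obtain ⟨κ₂, s₂, hκ₂, hs₂, h2⟩ := stc_core p hp hab hD₀ P hD₀' P' (κg := κa ^ 2 / 8) (ηg := 2 * ηa) (γ := κa / 4)
    (ζ := ζ / 2) (η₂ := ηw) (by positivity) (by positivity) (by positivity) (by linarith) (by positivity) (by linarith) hηw
    (by linarith) (by linarith) (Nn + 2) Kd
  refine ⟨κ₂, s₂, hκ₂, hs₂, ?_⟩
  intro κi ηi h0i hκηi hηi1
  have hηi0 : 0 < ηi := by linarith
  obtain ⟨w₀, τ₁, Kp, ep, C₄, ξ₁, hτ₁, hξ₁, hin⟩ := hin h0a hηa hηa1 h0i hκηi hηi1 Nn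
  refine ⟨min (τ₁ / 2) (ηi / 8 / (16 * (H + 1)) / 4), Kp, ep, w₀ + 3, by positivity, ?_⟩
  intro κS ηS hκS hηS
  obtain ⟨κU, hκU0, hκU1, hκU2, hκU3⟩ : ∃ κU : ℝ, 0 < κU ∧ 2 * κU ≤ κ ∧ κU ≤ κS ∧ κU ≤ κa ^ 2 / 8 := by
    refine ⟨min (κ / 2) (min κS (κa ^ 2 / 8)), lt_min (by positivity) (lt_min hκS (by positivity)), ?_, ?_, ?_⟩
    · linarith [min_le_left (κ / 2) (min κS (κa ^ 2 / 8))]
    · exact (min_le_right _ _).trans (min_le_left _ _)
    · exact (min_le_right _ _).trans (min_le_right _ _)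
  obtain ⟨δ, Mt, Ct, K₁, C₁, C₃, hδ, hMt, h2⟩ := h2 hκU0 hκU1
  refine ⟨K₁, C₁, ?_⟩
  intro sS f K' f₁ cc Λp hf hΛp
  obtain ⟨ξ₂, C₅, hξ₂, hcut⟩ := grp_cut2 (κa := κa) (ηa := ηa) (κ₀ := κi) (η := ηi) h0a hηa hηa1 h0i hκηi hηi1 Nn Nn K'
  obtain ⟨ξ, hξ0, hξ⟩ := exists_small' [((40 + 2 * Mt : ℝ), δ / 2), (5, ω / 4), (5, ζ / 4), (5, κa / 64), (6, ξ₁),
      (6, ξ₂), (1, 1)] (by
    intro q hq
    simp only [List.mem_cons, List.not_mem_nil, or_false] at hq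
    rcases hq with rfl | rfl | rfl | rfl | rfl | rfl | rfl <;> constructor <;> dsimp only <;> positivity)
  obtain ⟨n₂, hn₂⟩ := exists_big [((3 + 2 * Nn + 2 * Ct : ℝ), δ / 2), ((Nn : ℝ), ω / 4), ((C₃ : ℝ), ω / 2),
      ((Nn : ℝ), ζ / 4), ((12 + w₀ : ℝ), κa / 64), ((C₃ : ℝ), 1)] (by
    intro q hq
    simp only [List.mem_cons, List.not_mem_nil, or_false] at hq
    rcases hq with rfl | rfl | rfl | rfl | rfl | rfl <;> dsimp only <;> positivity)
  obtain ⟨CT, hCT⟩ : ∃ CT, CT = 12 * M + 8 * w₀ + 2 * Nn + 97 := ⟨_, rfl⟩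
  obtain ⟨C, hC⟩ : ∃ C, C = 2 * CT + C₄ + C₅ + n₂ + C₁ + 6 * w₀ + 72 + Nn + 100 := ⟨_, rfl⟩
  refine ⟨ξ, C, hξ0, ?_⟩
  intro V R hT X N lam sig w lam' bb le xq c₁ cx l₁ l₂ l₃ gr L hSt hbr hgr hgrN hL hnd hcC hc₁ hxq hszc hζX hlam hsig hQw
    hQp hξX
  obtain ⟨q, hq⟩ : ∃ q, q = inS [l₁, l₂, l₃] := ⟨_, rfl⟩
  obtain ⟨Q, hQ⟩ : ∃ Q, Q = inS gr := ⟨_, rfl⟩
  obtain ⟨n, hn⟩ : ∃ n : ℝ, n = (X.card : ℝ) := ⟨_, rfl⟩
  rw [← hq] at hlam hQw hξX
  rw [← hQ] at hQw hQp hξX ⊢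
  -- numbers of the masses
  have k1 : 16 * (M * bb) + 200 * (q + bb + le + lam') + C ≤ lam := by
    have e1 : (16 * M + 200) * (q + bb + le + lam') = 16 * (M * (q + le + lam')) + 16 * (M * bb) +
        200 * (q + bb + le + lam') := by ring
    rw [e1] at hlam
    have e2 := Nat.zero_le (16 * (M * (q + le + lam')))
    clear * - e2 hlam
    linarith
  have k2 : 200 * (w + sig + q) + C ≤ Q := by
    have e1 : (16 * M + 200) * (w + sig + q) = 16 * (M * (w + sig + q)) + 200 * (w + sig + q) := by ring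
    rw [e1] at hQw
    have e2 := Nat.zero_le (16 * (M * (w + sig + q)))
    clear * - e2 hQw
    linarith
  have hΛ1 : (1 : ℝ) ≤ Λp := by
    refine le_trans ?_ hΛp
    rw [le_div_iff₀ hηi0, one_mul]
    have h1 : 1 ≤ 3072 * (H + 1) * (8 * M + 64) := Nat.mul_pos (Nat.mul_pos (by norm_num) (Nat.succ_pos _))
      (Nat.succ_pos _)
    have h3 : (1 : ℝ) ≤ ((3072 * (H + 1) * (8 * M + 64) : ℕ) : ℝ) := by exact_mod_cast h1
    clear * - h3 hηi1
    linarith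
  have hΛ1' : 0 < Λp := by exact_mod_cast (lt_of_lt_of_le one_pos hΛ1 : (0 : ℝ) < Λp)
  have k3 : bb + lam' + c₁ + C ≤ Q := (Nat.le_mul_of_pos_left _ hΛ1').trans hQp
  obtain ⟨T', hT'⟩ : ∃ T', T' = (8 * M + 64) * bb + CT := ⟨_, rfl⟩
  have hMb : (8 * M + 64) * bb = 8 * (M * bb) + 64 * bb := by ring
  have k5 : (3072 * ((H : ℝ) + 1)) * T' ≤ ηi * Q := by
    have e1 : ((3072 * (H + 1) * (8 * M + 64) : ℕ) : ℝ) ≤ Λp * ηi := (div_le_iff₀ hηi0).1 hΛp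
    have e2 : T' ≤ (8 * M + 64) * (bb + lam' + c₁ + C) := by
      have e3 : (8 * M + 64) * (bb + lam' + c₁ + C) = (8 * M + 64) * bb + (8 * M + 64) * (lam' + c₁ + C) := by ring
      have e4 : C ≤ (8 * M + 64) * (lam' + c₁ + C) := (Nat.le_mul_of_pos_left C (Nat.succ_pos _)).trans
        (Nat.mul_le_mul_left _ (Nat.le_add_left _ _))
      rw [e3, hT']
      clear * - e4 hC
      linarith
    have e3 : (T' : ℝ) ≤ (8 * M + 64) * (bb + lam' + c₁ + C) := by exact_mod_cast e2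
    have e4 : (Λp : ℝ) * (bb + lam' + c₁ + C) ≤ Q := by exact_mod_cast hQp
    have e5 := mul_le_mul_of_nonneg_left e3 (by positivity : (0 : ℝ) ≤ 3072 * ((H : ℝ) + 1))
    have e6 := mul_le_mul_of_nonneg_right e1 (by positivity : (0 : ℝ) ≤ (bb : ℝ) + lam' + c₁ + C)
    have e7 := mul_le_mul_of_nonneg_left e4 hηi0.le
    push_cast at e6
    calc (3072 * ((H : ℝ) + 1)) * T' ≤ 3072 * ((H : ℝ) + 1) * ((8 * M + 64) * (bb + lam' + c₁ + C)) := e5
      _ = 3072 * ((H : ℝ) + 1) * (8 * M + 64) * (bb + lam' + c₁ + C) := by ring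
      _ ≤ Λp * ηi * (bb + lam' + c₁ + C) := e6
      _ = ηi * (Λp * (bb + lam' + c₁ + C)) := by ring
      _ ≤ ηi * Q := e7
  have hQξ : (Q : ℝ) ≤ ξ * n := by
    rw [hn]
    refine le_trans ?_ hξX
    exact_mod_cast Nat.le_add_left Q q
  have hQ0 : (0 : ℝ) ≤ Q := Nat.cast_nonneg _
  have hn0' : 0 ≤ n := by rw [hn]; exact Nat.cast_nonneg _
  have x1 : (40 + 2 * Mt : ℝ) * Q ≤ δ / 2 * n := by
    have e1 := mul_le_mul_of_nonneg_left hQξ (by positivity : (0 : ℝ) ≤ 40 + 2 * Mt)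
    have e2 := mul_le_mul_of_nonneg_right (hξ ((40 + 2 * Mt : ℝ), δ / 2) (by simp)) hn0'
    dsimp only at e2
    clear * - e2 e1
    linarith
  have x2 : 5 * (Q : ℝ) ≤ ω / 4 * n := by
    have e2 := mul_le_mul_of_nonneg_right (hξ (5, ω / 4) (by simp)) hn0'
    dsimp only at e2
    clear * - e2 hQξ
    linarith
  have x3 : 5 * (Q : ℝ) ≤ ζ / 4 * n := by
    have e2 := mul_le_mul_of_nonneg_right (hξ (5, ζ / 4) (by simp)) hn0'
    dsimp only at e2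
    clear * - e2 hQξ
    linarith
  have x4 : 5 * (Q : ℝ) ≤ κa / 64 * n := by
    have e2 := mul_le_mul_of_nonneg_right (hξ (5, κa / 64) (by simp)) hn0'
    dsimp only at e2
    clear * - e2 hQξ
    linarith
  have x5 : 6 * (Q : ℝ) ≤ ξ₁ * n := by
    have e2 := mul_le_mul_of_nonneg_right (hξ (6, ξ₁) (by simp)) hn0'
    dsimp only at e2
    clear * - e2 hQξ
    linarith
  have x6 : 6 * (Q : ℝ) ≤ ξ₂ * n := by
    have e2 := mul_le_mul_of_nonneg_right (hξ (6, ξ₂) (by simp)) hn0'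
    dsimp only at e2
    clear * - e2 hQξ
    linarith
  have x7 : (Q : ℝ) ≤ 1 * n := by
    have e2 := mul_le_mul_of_nonneg_right (hξ (1, 1) (by simp)) hn0'
    dsimp only at e2
    clear * - e2 hQξ
    linarith
  have hn₂X : n₂ ≤ X.card := by
    have h1 : ((n₂ : ℕ) : ℝ) ≤ Q := by exact_mod_cast (by clear * - k3 hC; linarith : n₂ ≤ Q)
    have h4 : (n₂ : ℝ) ≤ X.card := by rw [← hn]; clear * - h1 x7; linarith
    exact_mod_cast h4
  have g := hn₂ X.card hn₂X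
  have g1 : (3 + 2 * Nn + 2 * Ct : ℝ) ≤ δ / 2 * n := by rw [hn]; exact g ((3 + 2 * Nn + 2 * Ct : ℝ), δ / 2) (by simp)
  have g2 : (Nn : ℝ) ≤ ω / 4 * n := by rw [hn]; exact g ((Nn : ℝ), ω / 4) (by simp)
  have g3 : (C₃ : ℝ) ≤ ω / 2 * n := by rw [hn]; exact g ((C₃ : ℝ), ω / 2) (by simp)
  have g4 : (Nn : ℝ) ≤ ζ / 4 * n := by rw [hn]; exact g ((Nn : ℝ), ζ / 4) (by simp)
  have g5 : (12 + w₀ : ℝ) ≤ κa / 64 * n := by rw [hn]; exact g ((12 + w₀ : ℝ), κa / 64) (by simp)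
  have g6 : (C₃ : ℝ) ≤ 1 * n := by rw [hn]; exact g ((C₃ : ℝ), 1) (by simp)
  have hn0 : 0 < n := by
    have h1 : (1 : ℝ) ≤ Q := by exact_mod_cast (by clear * - k3 hC; linarith : 1 ≤ Q)
    clear * - h1 x7
    linarith
  -- the cut
  obtain ⟨W0, hW0⟩ : ∃ W0, W0 = low R T' X := ⟨_, rfl⟩
  have hW0c : W0.card ≤ 2 * T' := by
    rw [hW0]
    exact card_low_in hT T' X
  obtain ⟨pp, hpp⟩ : ∃ pp, pp = Q + xq + c₁ + q + 3 - W0.card := ⟨_, rfl⟩
  have hgl : 1 ≤ gr.length := List.length_pos_iff.2 hgr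
  obtain ⟨mB, hmB⟩ : ∃ mB, mB = 2 * le + 4 * lam' + 2 := ⟨_, rfl⟩
  obtain ⟨k4, hppW, hpp5, k6, k7, k8⟩ := enter_num (MB := M * bb) (W0 := W0.card) (C₄ := C₄) (C₅ := C₅) k1 hsig k2 k3
    (by rw [hT', hMb]) (by clear * - hC; linarith) hxq hW0c hpp hmB
  clear hpp
  have hpp5' : ((pp + T' + mB : ℕ) : ℝ) ≤ 6 * Q := by exact_mod_cast hpp5
  obtain ⟨G, ys, y, P₁, P₂, U₁, hG, hroute⟩ := hcut hT (X := X) (N := N) (p := pp) (sg := T') (r := lam)
    (gl := gr.length) hSt hgl hgrN hf le_rfl (by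
      have h1 : ((pp + T' : ℕ) : ℝ) ≤ ((pp + T' + mB : ℕ) : ℝ) := by exact_mod_cast Nat.le_add_right _ _
      rw [← hn]
      clear * - h1 hpp5' x6
      linarith) k6
  have hysne : ys ≠ [] := by
    intro h
    have := hG.len
    rw [h] at this
    rw [← this] at hgl
    simp at hgl
  obtain ⟨y₁, hy₁⟩ : ∃ y₁, y₁ ∈ ys.head? := by
    obtain ⟨y₁, ys', rfl⟩ := List.exists_cons_of_ne_nil hysne
    exact ⟨y₁, by simp⟩
  have hysc : ys.length ≤ Nn := by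
    rw [hG.len]
    exact hgrN
  have hysF : ys.toFinset.card ≤ Nn := (List.toFinset_card_le ys).trans hysc
  obtain ⟨v, a, w', r1, hvX, hNv, haP, hwP, r6, r6a, r6w, hva, hvw, haw, hRva, hRaw, r12, r13, r14, r15⟩ :=
    hroute y₁ hy₁ ys.toFinset hysF
  have hvg : Good R κS ηS X v ∨ v ∈ P₁ := r1.imp_left fun h => (mem_cg.1 h).2.2.1
  have hvys : v ∉ ys := fun h => r6 (List.mem_toFinset.2 h)
  have hRwy : ∀ y₂ ∈ ys.head?, R w' y₂ := by
    intro y₂ hy₂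
    have h5 : ys.head? = some y₁ := hy₁
    rw [h5] at hy₂
    obtain rfl : y₁ = y₂ := by simpa using hy₂
    exact r12
  have hP₁X₁ : ∀ {u}, u ∈ P₁ → u ∈ X \ low R T' X := fun hu => hG.hG (hG.hU₁ (hG.hP₁ hu))
  have hP₁X : ∀ {u}, u ∈ P₁ → u ∈ X := fun hu => hG.hX₁ (hP₁X₁ hu)
  have hysP₁ : ∀ {u}, u ∈ ys → u ∉ P₁ := fun hu => (hG.hys _ hu).2.2.1
  -- the items of the links
  obtain ⟨T, Sg, E, Bp, i1, i2, i3, i4, i5, i6, i7, i8, i9, i10, i11, i12, i13, i14, i15, i16, i17, i18, i19, i20, i21⟩ :=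
    hin hT (X := X) (P₁ := P₁) (P₂ := P₂) (U₁ := U₁) (G := G) (ys := ys) (y := y) (pp := pp) (sg := T') v a w' l₁ l₂ l₃
      gr.length mB hG hgrN (fun x hx => by
        have h1 := hbr x (by
          simp only [List.mem_cons, List.not_mem_nil, or_false] at hx
          rcases hx with rfl | rfl | rfl <;> simp)
        exact ⟨h1.1, h1.2.2.1⟩) hvys (fun h => hysP₁ h haP) (fun h => hysP₁ h hwP) (by
        rw [hmB]
        exact Nat.succ_pos _) (by rw [← hq]; exact k7.trans r13) (by rw [← hq]; exact k7.trans r14)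
      (by rw [← hq]; exact k7.trans r15) (by rw [← hq]; exact k8) (by
        rw [← hn]
        clear * - hpp5' x5
        linarith)
  rw [← hq] at i10 i11 i12
  obtain ⟨Hs, hHs⟩ : ∃ Hs : Finset V, Hs = {v, a, w'} := ⟨_, rfl⟩
  rw [← hHs] at i4 i5 i6 i7 i21
  have hHsc : Hs.card ≤ 3 := by
    rw [hHs]
    exact card_le_three
  have hHsm : ∀ u, u ∈ Hs ↔ u = v ∨ u = a ∨ u = w' := by
    intro u
    rw [hHs]
    simp
  obtain ⟨S', hS'⟩ : ∃ S', S' = T ∪ (Sg ∪ E) ∪ Hs := ⟨_, rfl⟩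
  rw [← hS'] at i21
  have hS'm : ∀ u, u ∈ S' ↔ u ∈ T ∨ u ∈ Sg ∨ u ∈ E ∨ u ∈ Hs := by
    intro u
    rw [hS', mem_union, mem_union, mem_union]
    clear * -
    tauto
  have hPP : ∀ {u}, u ∈ P₁ → u ∉ P₂ := fun hu hu' => disjoint_left.1 hG.disj hu hu'
  have hP₂m : ∀ {u}, u ∈ P₂ → u ∈ X ∧ u ∉ W0 ∧ u ∉ P₁ ∧ u ∉ ys := by
    intro u hu
    obtain ⟨h1, h3, h4⟩ := (hG.part u).1 hu
    rw [mem_sdiff, ← hW0] at h1
    exact ⟨h1.1, h1.2, h3, h4⟩
  have hP₁W : ∀ {u}, u ∈ P₁ → u ∉ W0 := by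
    intro u hu
    have := hP₁X₁ hu
    rw [mem_sdiff, ← hW0] at this
    exact this.2
  have hysW : ∀ {u}, u ∈ ys → u ∈ X ∧ u ∉ W0 := by
    intro u hu
    have := hG.hG (hG.hys u hu).1
    rw [mem_sdiff, ← hW0] at this
    exact this
  have hvW : v ∉ W0 := by
    rw [hW0, mem_low]
    rintro ⟨-, h⟩
    clear * - h k4 r13
    linarith
  obtain ⟨Hh, hHh⟩ : ∃ Hh : Finset V, Hh = (v :: a :: w' :: ys).toFinset := ⟨_, rfl⟩
  have hHm : ∀ u, u ∈ Hh ↔ u ∈ Hs ∨ u ∈ ys := by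
    intro u
    rw [hHh, List.mem_toFinset, hHsm]
    simp only [List.mem_cons]
    clear * -
    tauto
  have hHX : ∀ {u}, u ∈ Hh → u ∈ X ∧ u ∉ W0 := by
    intro u hu
    rcases (hHm u).1 hu with h | h
    · rcases (hHsm u).1 h with rfl | rfl | rfl
      · exact ⟨hvX, hvW⟩
      · exact ⟨hP₁X haP, hP₁W haP⟩
      · exact ⟨hP₁X hwP, hP₁W hwP⟩
    · exact hysW h
  have hHc : Hh.card ≤ Nn + 3 := by
    rw [hHh]
    refine (List.toFinset_card_le _).trans ?_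
    simp only [List.length_cons]
    clear * - hysc
    linarith
  -- the pool
  obtain ⟨Pq, hPq⟩ : ∃ Pq, Pq = (P₁ \ S') ∪ W0 := ⟨_, rfl⟩
  have hPqm : ∀ u, u ∈ Pq ↔ (u ∈ P₁ ∧ u ∉ S') ∨ u ∈ W0 := by
    intro u
    rw [hPq, mem_union, mem_sdiff]
  have hW0X : W0 ⊆ X := by
    rw [hW0, low]
    exact filter_subset _ _
  have hPqX : Pq ⊆ X := by
    intro u hu
    rcases (hPqm u).1 hu with h | h
    · exact hP₁X h.1
    · exact hW0X h
  have hPqH : ∀ {u}, u ∈ Pq → u ∉ Hh := by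
    intro u hu hu'
    rcases (hPqm u).1 hu with h | h
    · rcases (hHm u).1 hu' with h3 | h3
      · exact h.2 ((hS'm u).2 (Or.inr (Or.inr (Or.inr h3))))
      · exact hysP₁ h3 h.1
    · exact (hHX hu').2 h
  have hPqT : ∀ {u}, u ∈ Pq → u ∉ T := by
    intro u hu hu'
    rcases (hPqm u).1 hu with h | h
    · exact h.2 ((hS'm u).2 (Or.inl hu'))
    · exact (hP₂m (i1 hu')).2.1 h
  have hPqS : ∀ {u}, u ∈ Pq → u ∉ Sg := by
    intro u hu hu'
    rcases (hPqm u).1 hu with h | h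
    · exact h.2 ((hS'm u).2 (Or.inr (Or.inl hu')))
    · exact hP₁W (i2 hu') h
  have hPqE : ∀ {u}, u ∈ Pq → u ∉ E := by
    intro u hu hu'
    rcases (hPqm u).1 hu with h | h
    · exact h.2 ((hS'm u).2 (Or.inr (Or.inr (Or.inl hu'))))
    · exact hP₁W (i3 hu') h
  have hcq1 : (P₁ \ S').card + (P₁ ∩ S').card = pp := by
    rw [card_sdiff_add_card_inter, hG.card₁]
  have hSE : (Sg ∪ E).card = Sg.card + E.card := card_union_of_disjoint i8
  have hcq2 : (P₁ ∩ S').card ≤ q + 3 := by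
    have h1 : P₁ ∩ S' ⊆ (Sg ∪ E) ∪ Hs := by
      intro u hu
      rw [mem_inter, hS'm] at hu
      rw [mem_union, mem_union]
      rcases hu.2 with h | h | h | h
      · exact absurd (i1 h) (hPP hu.1)
      · exact Or.inl (Or.inl h)
      · exact Or.inl (Or.inr h)
      · exact Or.inr h
    have h3 := (card_le_card h1).trans (card_union_le _ _)
    clear * - h3 hSE hHsc i11
    linarith
  have hcq3 : q ≤ (P₁ ∩ S').card + w₀ := by
    have h1 : Sg ∪ E ⊆ P₁ ∩ S' := by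
      intro u hu
      rw [mem_inter, hS'm]
      rcases mem_union.1 hu with h | h
      · exact ⟨i2 h, Or.inr (Or.inl h)⟩
      · exact ⟨i3 h, Or.inr (Or.inr (Or.inl h))⟩
    have h3 := card_le_card h1
    clear * - h3 hSE i12
    linarith
  have hcq4 : Pq.card = (P₁ \ S').card + W0.card := by
    rw [hPq]
    apply card_union_of_disjoint
    rw [disjoint_left]
    intro u hu
    exact hP₁W (mem_sdiff.1 hu).1
  have hPql : Q + xq + c₁ ≤ Pq.card := by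
    clear * - hcq1 hcq2 hcq4 hppW
    linarith
  have hPqu : Pq.card ≤ Q + xq + c₁ + (w₀ + 3) := by
    clear * - hcq1 hcq3 hcq4 hppW
    linarith
  have hC100 : 100 ≤ C := by
    clear * - hC
    linarith
  -- the side of the pool
  have hQr : (Q : ℝ) ≤ 2 * ((P₁ \ S').card : ℝ) := by
    have h1 : Q ≤ 2 * (P₁ \ S').card := by
      clear * - hcq1 hcq2 hppW hW0c k4 hsig k2
      linarith
    exact_mod_cast h1
  have hH0 : (0 : ℝ) ≤ (H : ℝ) := Nat.cast_nonneg _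
  obtain ⟨sI, hsI⟩ : ∃ sI : ℝ, sI = ηi / 8 / (16 * (H + 1)) := ⟨_, rfl⟩
  have hsI0 : 0 < sI := by
    rw [hsI]
    positivity
  have hsI1 : sI * (128 * ((H : ℝ) + 1)) = ηi := by
    rw [hsI]
    field_simp
    norm_num
  have hT'0 : (0 : ℝ) ≤ T' := Nat.cast_nonneg _
  have hWc : ((W0.card + T' : ℕ) : ℝ) ≤ sI / 4 * (P₁ \ S').card := by
    have h1 : ((W0.card + T' : ℕ) : ℝ) ≤ 3 * T' := by
      exact_mod_cast (by clear * - hW0c; linarith : W0.card + T' ≤ 3 * T')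
    have h3 : ηi * Q ≤ ηi * (2 * ((P₁ \ S').card : ℝ)) := mul_le_mul_of_nonneg_left hQr hηi0.le
    have h5 := mul_le_mul_of_nonneg_left h1 (by positivity : (0 : ℝ) ≤ 512 * ((H : ℝ) + 1))
    have h6 : (512 * ((H : ℝ) + 1)) * (sI / 4 * (P₁ \ S').card) =
      (sI * (128 * ((H : ℝ) + 1))) * (P₁ \ S').card := by ring
    have h4 : (512 * ((H : ℝ) + 1)) * ((W0.card + T' : ℕ) : ℝ) ≤
        (512 * ((H : ℝ) + 1)) * (sI / 4 * (P₁ \ S').card) := by
      rw [h6, hsI1]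
      clear * - h5 h3 k5
      linarith
    exact le_of_mul_le_mul_left h4 (by positivity)
  obtain ⟨Uq, hUq⟩ : ∃ Uq, Uq = (U₁ \ S') ∪ W0 := ⟨_, rfl⟩
  have hside : GSd (rv R) Uq Pq ys.toFinset (κi ^ 2 / (512 * (H + 1))) (2 * ηi * U₁.card + W0.card)
      (ηi / (256 * (H + 1))) (min (τ₁ / 2) (ηi / 8 / (16 * (H + 1)) / 4)) Kp ep := by
    have h1 := GSd.add (rv_tour hT) i21 (W := W0) (T := T') (by positivity) (by positivity) (by
      rw [disjoint_left]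
      intro u hu hu'
      exact (hysW (List.mem_toFinset.1 hu')).2 hu) (by
      rw [disjoint_left]
      intro u hu hu'
      exact hP₁W (mem_sdiff.1 hu').1 hu) (by
      intro u hu
      rw [nO_rv]
      rw [hW0, mem_low] at hu
      exact (card_le_card (nI_mono (sdiff_subset.trans hG.P₁X))).trans_lt hu.2) (by rw [← hsI]; exact hWc) (by
      rw [← hsI]
      have h1 : sI ≤ sI * (128 * ((H : ℝ) + 1)) := le_mul_of_one_le_right hsI0.le (by clear * - hH0; linarith)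
      rw [hsI1] at h1
      clear * - h1 hηi1
      linarith)
    rw [hUq, hPq]
    refine h1.mono (le_of_eq ?_) le_rfl (le_of_eq ?_) le_rfl le_rfl le_rfl
    · clear * -
      field_simp
      ring
    · clear * -
      field_simp
      ring
  have hU₁q : U₁.card ≤ 7 * Pq.card := by
    have h3 := hG.cardU
    clear * - h3 hppW hPql k2 hC100
    linarith
  have hUc : Uq.card ≤ 16 * Pq.card := by
    have h1 : Uq.card ≤ U₁.card + W0.card := by
      rw [hUq]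
      exact (card_union_le _ _).trans (Nat.add_le_add_right (card_le_card sdiff_subset) _)
    clear * - h1 hU₁q hPql hW0c k4 hsig k2
    linarith
  have htq : 2 * ηi * U₁.card + W0.card ≤ 25 * ηi * (Pq.card : ℝ) := by
    have h1 : (U₁.card : ℝ) ≤ 7 * Pq.card := by exact_mod_cast hU₁q
    have h3 : (W0.card : ℝ) ≤ 2 * T' := by exact_mod_cast hW0c
    have h4 : (Q : ℝ) ≤ Pq.card := by exact_mod_cast (by clear * - hPql; linarith : Q ≤ Pq.card)
    have h5 := mul_le_mul_of_nonneg_left h1 hηi0.le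
    have h6 := mul_le_mul_of_nonneg_left h4 hηi0.le
    have h7 : 0 ≤ (H : ℝ) * T' := mul_nonneg hH0 hT'0
    have h8 : 0 ≤ ηi * (Pq.card : ℝ) := mul_nonneg hηi0.le (Nat.cast_nonneg _)
    clear * - h5 h6 h3 h7 h8 k5 hT'0
    linarith
  -- the rest
  obtain ⟨X₀, hX₀⟩ : ∃ X₀, X₀ = X \ (Hh ∪ ((T ∪ Sg) ∪ Pq)) := ⟨_, rfl⟩
  have hX₀m : ∀ u, u ∈ X₀ ↔ u ∈ X ∧ u ∉ Hh ∧ u ∉ T ∧ u ∉ Sg ∧ u ∉ Pq := by
    intro u
    rw [hX₀, mem_sdiff, mem_union, mem_union, mem_union, not_or, not_or, not_or]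
    clear * -
    tauto
  have hX₀X : X₀ ⊆ X := fun u hu => ((hX₀m u).1 hu).1
  have hP₂X₀ : ∀ {u}, u ∈ P₂ → u ∉ T → u ∉ Hs → u ∈ X₀ := by
    intro u hu h1 h3
    obtain ⟨h4, h5, h6, h7⟩ := hP₂m hu
    refine (hX₀m u).2 ⟨h4, fun h => ((hHm u).1 h).elim h3 h7, h1, fun h => h6 (i2 h), fun h => ?_⟩
    rcases (hPqm u).1 h with h8 | h8
    · exact h6 h8.1
    · exact h5 h8
  have hX₀P₂ : ∀ {u}, u ∈ X₀ → u ∉ P₂ → u ∈ E := by
    intro u hu h1
    obtain ⟨h3, h4, h5, h6, h7⟩ := (hX₀m u).1 hu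
    have h8 : u ∉ W0 := fun h => h7 ((hPqm u).2 (Or.inr h))
    have h9 : u ∉ ys := fun h => h4 ((hHm u).2 (Or.inr h))
    have h10 : u ∈ P₁ := by
      by_contra hcon
      exact h1 ((hG.part u).2 ⟨by rw [mem_sdiff, ← hW0]; exact ⟨h3, h8⟩, hcon, h9⟩)
    have h11 : u ∈ S' := by
      by_contra hcon
      exact h7 ((hPqm u).2 (Or.inl ⟨h10, hcon⟩))
    rcases (hS'm u).1 h11 with h | h | h | h
    · exact absurd h h5
    · exact absurd h h6
    · exact h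
    · exact absurd ((hHm u).2 (Or.inl h)) h4
  have hEX₀ : E ⊆ X₀ := by
    intro u hu
    refine (hX₀m u).2 ⟨hP₁X (i3 hu), fun h => ?_, fun h => hPP (i3 hu) (i1 h), fun h => disjoint_left.1 i8 h hu,
      fun h => hPqE h hu⟩
    rcases (hHm u).1 h with h1 | h1
    · exact disjoint_left.1 i6 hu h1
    · exact hysP₁ h1 (i3 hu)
  have hBpX₀ : Bp ⊆ X₀ := fun u hu => hP₂X₀ (i17 hu) (fun h => disjoint_left.1 i18 hu h) (fun h => disjoint_left.1 i7 hu h)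
  have hP₂E : ∀ {u}, u ∈ P₂ → u ∉ E := fun hu h => hPP (i3 h) hu
  have hHX₀ : ∀ u ∈ Hh, u ∉ X₀ := fun u hu h => ((hX₀m u).1 h).2.1 hu
  obtain ⟨My, hMy⟩ : ∃ My, My = P₂.filter (fun w => R y w ∧ w ∈ G) := ⟨_, rfl⟩
  rw [← hMy] at i13
  have hMym : ∀ u, u ∈ My ↔ u ∈ P₂ ∧ R y u ∧ u ∈ G := by
    intro u
    rw [hMy, mem_filter]
  obtain ⟨PZ, hPZ⟩ : ∃ PZ, PZ = ((U₁ ∪ Bp) ∩ X₀) ∪ E ∪ X₀.filter (fun v => (nI R X₀ v).card < Mt * (bb + lam') + Ct) :=
    ⟨_, rfl⟩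
  have hPZX : PZ ⊆ X₀ := by
    rw [hPZ]
    exact union_subset (union_subset inter_subset_right hEX₀) (filter_subset _ _)
  have hPZE : E ⊆ PZ := by
    rw [hPZ]
    exact fun u hu => mem_union_left _ (mem_union_right _ hu)
  have hPZU : ∀ {u}, u ∈ U₁ → u ∈ X₀ → u ∈ PZ := by
    intro u hu hu'
    rw [hPZ]
    exact mem_union_left _ (mem_union_left _ (mem_inter.2 ⟨mem_union_left _ hu, hu'⟩))
  have hPZB : Bp ⊆ PZ := by
    intro u hu
    rw [hPZ]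
    exact mem_union_left _ (mem_union_left _ (mem_inter.2 ⟨mem_union_right _ hu, hBpX₀ hu⟩))
  obtain ⟨Inc, hInc⟩ : ∃ Inc, Inc = PZ.filter (fun v => (nI R PZ v).card < lam') := ⟨_, rfl⟩
  have hIncc : Inc.card ≤ 2 * lam' := by
    rw [hInc]
    exact card_lowin hT PZ lam'
  obtain ⟨Dz, hDz⟩ : ∃ Dz, Dz = (My ∩ X₀) \ Inc := ⟨_, rfl⟩
  have hDzm : ∀ u, u ∈ Dz ↔ (u ∈ My ∧ u ∈ X₀) ∧ u ∉ Inc := by
    intro u
    rw [hDz, mem_sdiff, mem_inter]
  have hylast : y ∈ ys := List.mem_of_getLast? hG.last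
  -- what `My` loses
  have hMyloss : ∀ (F : Finset V), F ⊆ My → (F \ T).card ≤ (F ∩ Dz).card + (3 + 2 * lam') := by
    intro F hF
    have h1 : F \ T ⊆ (F ∩ Dz) ∪ (Hs ∪ Inc) := by
      intro u hu
      rw [mem_sdiff] at hu
      have h3 := (hMym u).1 (hF hu.1)
      by_cases h4 : u ∈ Hs
      · exact mem_union_right _ (mem_union_left _ h4)
      by_cases h5 : u ∈ Inc
      · exact mem_union_right _ (mem_union_right _ h5)
      · exact mem_union_left _ (mem_inter.2 ⟨hu.1, (hDzm u).2 ⟨⟨hF hu.1, hP₂X₀ h3.1 hu.2 h4⟩, h5⟩⟩)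
    have h3 := (card_le_card h1).trans (card_union_le _ _)
    have h4 := card_union_le Hs Inc
    clear * - h3 h4 hHsc hIncc
    omega
  -- sizes
  have hXP₂c : (X \ P₂).card ≤ 5 * Q + Nn := by
    have h1 : X \ P₂ ⊆ P₁ ∪ (W0 ∪ ys.toFinset) := by
      intro u hu
      rw [mem_sdiff, hG.part, mem_sdiff, ← hW0] at hu
      rw [mem_union, mem_union, List.mem_toFinset]
      by_contra hcon
      rw [not_or, not_or] at hcon
      exact hu.2 ⟨⟨hu.1, hcon.2.1⟩, hcon.1, hcon.2.2⟩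
    have h3 := (card_le_card h1).trans (card_union_le _ _)
    have h4 := card_union_le W0 ys.toFinset
    have h5 := hG.card₁
    clear * - h3 h4 h5 hysF hppW hxq k3 k2 hC100
    linarith
  have hXX₀c : (X \ X₀).card ≤ 6 * Q + 3 + Nn := by
    have h1 : X \ X₀ ⊆ Hh ∪ ((T ∪ Sg) ∪ Pq) := by
      intro u hu
      rw [mem_sdiff, hX₀, mem_sdiff] at hu
      by_contra hcon
      exact hu.2 ⟨hu.1, hcon⟩
    have h3 := (card_le_card h1).trans (card_union_le _ _)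
    have h4 := card_union_le (T ∪ Sg) Pq
    have h5 := card_union_le T Sg
    clear * - h3 h4 h5 hHc i10 hcq4 hcq1 hppW k2 k3 hxq hW0c k4 hsig hC100
    linarith
  have hPZc : PZ.card ≤ 29 * Q + 2 * (Mt * Q + Ct) := by
    have h1 := card_union_le (((U₁ ∪ Bp) ∩ X₀) ∪ E) (X₀.filter (fun v => (nI R X₀ v).card < Mt * (bb + lam') + Ct))
    rw [← hPZ] at h1
    have h3 := card_lowin hT X₀ (Mt * (bb + lam') + Ct)
    have h4 := card_union_le ((U₁ ∪ Bp) ∩ X₀) E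
    have h5 : ((U₁ ∪ Bp) ∩ X₀).card ≤ (U₁ ∪ Bp).card := card_le_card inter_subset_left
    have h6 := card_union_le U₁ Bp
    have h7 := hG.cardU
    have h8 : Mt * (bb + lam') ≤ Mt * Q := Nat.mul_le_mul_left _ (by clear * - k3; linarith)
    have h9 := Nat.zero_le (16 * (M * bb))
    clear * - h1 h3 h4 h5 h6 h7 h8 h9 i11 i19 hmB k1 k2 k3 hsig hppW hxq hC100
    linarith
  have hP₂X : P₂ ⊆ X := fun u hu => (hP₂m hu).1
  have hP₂c : n - (5 * Q + Nn) ≤ (P₂.card : ℝ) := by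
    have h1 := card_sdiff_add_card_eq_card hP₂X
    have h3 : n = (X \ P₂).card + P₂.card := by
      rw [hn]
      exact_mod_cast h1.symm
    have h4 : ((X \ P₂).card : ℝ) ≤ 5 * Q + Nn := by exact_mod_cast hXP₂c
    clear * - h3 h4
    linarith
  have hfst : (ys.zip gr).map Prod.fst = ys := List.map_fst_zip hG.len.le
  have hsnd : (ys.zip gr).map Prod.snd = gr := List.map_snd_zip hG.len.symm.le
  have hzm : ∀ p ∈ ys.zip gr, p.1 ∈ ys ∧ p.2 ∈ gr := by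
    intro p hp
    constructor
    · rw [← hfst]
      exact List.mem_map_of_mem hp
    · rw [← hsnd]
      exact List.mem_map_of_mem hp
  obtain ⟨os₂, hos₂⟩ : ∃ os₂, os₂ = (a, l₂.2) :: (w', l₃.2) :: (ys.zip gr).map (fun p => (p.1, p.2.2)) := ⟨_, rfl⟩
  have hzt : totB ((ys.zip gr).map (fun p => (p.1, p.2.2))) = (gr.map (fun q => q.2.size)).sum :=
    totB_zip (f := Prod.snd) hG.len
  have hos₂t : totB os₂ = l₂.2.size + (l₃.2.size + (gr.map (fun q => q.2.size)).sum) := by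
    rw [hos₂, totB_cons', totB_cons', hzt]
  have hos₁t : totB [(v, l₁.2)] = l₁.2.size := by
    clear * -
    simp [totB]
  have hos₂l : os₂.length ≤ Nn + 2 := by
    rw [hos₂, List.length_cons, List.length_cons, List.length_map, List.length_zip, hG.len, Nat.min_self]
    clear * - hgrN
    linarith
  have hszL : szS (l₁ :: l₂ :: l₃ :: (gr ++ L)) = l₁.1.size + l₁.2.size + 1 + szS (l₂ :: l₃ :: (gr ++ L)) := szS_cons _ _
  have hszL2 : szS (l₂ :: l₃ :: (gr ++ L)) = l₂.1.size + l₂.2.size + 1 + (l₃.1.size + l₃.2.size + 1 +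
      (szS gr + szS L)) := by
    rw [szS_cons, szS_cons]
    congr 2
    clear * -
    simp [szS]
  have hgrs := inS_ouS_le gr
  have hL1 : (l₁.2.size : ℝ) ≤ n - 2 * ω * n := by
    have h1 : l₁.2.size ≤ K₀ * szS (l₂ :: l₃ :: (gr ++ L)) := hnd.1
    have h3 : (K₀ + 1) * l₁.2.size ≤ K₀ * X.card := by
      have h4 : l₁.2.size + szS (l₂ :: l₃ :: (gr ++ L)) ≤ X.card := by
        clear * - hszL hszc
        omega
      have h5 := Nat.mul_le_mul_left K₀ h4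
      have h6 : K₀ * (l₁.2.size + szS (l₂ :: l₃ :: (gr ++ L))) =
          K₀ * l₁.2.size + K₀ * szS (l₂ :: l₃ :: (gr ++ L)) := by ring
      have h7 : (K₀ + 1) * l₁.2.size = K₀ * l₁.2.size + l₁.2.size := by ring
      rw [h6] at h5
      rw [h7]
      clear * - h5 h1
      linarith
    have h4 : ((K₀ : ℝ) + 1) * l₁.2.size ≤ K₀ * n := by
      rw [hn]
      exact_mod_cast h3
    have h5 : 2 * ω * (K₀ + 1) * n ≤ 1 * n := mul_le_mul_of_nonneg_right hωK hn0.le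
    have h6 : ((K₀ : ℝ) + 1) * l₁.2.size ≤ (K₀ + 1) * (n - 2 * ω * n) := by
      have h7 : ((K₀ : ℝ) + 1) * (n - 2 * ω * n) = K₀ * n + n - 2 * ω * (K₀ + 1) * n := by ring
      rw [h7]
      clear * - h4 h5
      linarith
    exact le_of_mul_le_mul_left h6 (by clear * -; positivity)
  have hgoodG : ∀ u ∈ G, Good R (κa ^ 2 / 8) (2 * ηa) X u := hG.good
  have hP₁G : ∀ {u}, u ∈ P₁ → u ∈ G := fun hu => hG.hU₁ (hG.hP₁ hu)
  have hP₂0 : (0 : ℝ) ≤ P₂.card := Nat.cast_nonneg _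
  have hX0 : (0 : ℝ) ≤ X.card := Nat.cast_nonneg _
  have hX2P₂ : (X.card : ℝ) ≤ 2 * P₂.card := by
    rw [← hn]
    have h1 : ω * n ≤ 1 * n := mul_le_mul_of_nonneg_right (by clear * - hω1; linarith) hn0.le
    clear * - h1 hP₂c x2 g2
    linarith
  have hvU : GdU R κU η X P₂ v := by
    rcases hvg with h | h
    · refine GdU.of_good h hP₂X hκU2 ?_
      rcases le_total ηS 0 with h0 | h0
      · exact (mul_nonpos_of_nonpos_of_nonneg h0 hX0).trans (mul_nonneg hη0.le hP₂0)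
      · have h1 : ηS * X.card ≤ ηS * (2 * P₂.card) := mul_le_mul_of_nonneg_left hX2P₂ h0
        have h3 : 2 * ηS * P₂.card ≤ η * P₂.card := mul_le_mul_of_nonneg_right hηS hP₂0
        clear * - h1 h3
        linarith
    · refine GdU.of_good (hgoodG v (hP₁G h)) hP₂X hκU3 ?_
      have h1 : 2 * ηa * X.card ≤ 2 * ηa * (2 * P₂.card) := mul_le_mul_of_nonneg_left hX2P₂ (by
        clear * - hηa0
        linarith)
      have h3 : 4 * ηa * P₂.card ≤ η * P₂.card := mul_le_mul_of_nonneg_right (by clear * - hηa4 hηa0; linarith) hP₂0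
      clear * - h1 h3
      linarith
  have hbrm : ∀ x ∈ l₁ :: l₂ :: l₃ :: gr, FOK p.b p.l 0 x.2 ∧ ∀ t ∈ x.2.trees, t.1 = true := by
    intro x hx
    have h1 := hbr x (by
      simp only [List.mem_cons, List.mem_append] at hx ⊢
      clear * - hx
      tauto)
    exact ⟨h1.2.1, h1.2.2.2⟩
  have hDzc : κa / 4 * n ≤ (Dz.card : ℝ) := by
    have h1 := hMyloss My (Subset.refl _)
    have h3 : (My ∩ Dz).card ≤ Dz.card := card_le_card inter_subset_right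
    have h4 := le_card_sdiff T My
    have h5 : My.card ≤ T.card + Dz.card + (3 + 2 * lam') := by
      clear * - h1 h3 h4
      omega
    have h6 : My.card ≤ 3 * Q + Dz.card + 3 := by
      clear * - h5 i10 k2 k3
      linarith
    have h7 : (My.card : ℝ) ≤ 3 * Q + Dz.card + 3 := by exact_mod_cast h6
    have h8 : κa / 2 * n ≤ My.card := by
      rw [hn, hMy]
      exact hG.lin
    have h9 : 0 ≤ κa * n := mul_nonneg h0a.le hn0.le
    have h10 : (0 : ℝ) ≤ w₀ := Nat.cast_nonneg _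
    clear * - h7 h8 h9 h10 x4 g5 hQ0
    linarith
  have hcnt₁ : ∀ j : ℕ, ((X₀ \ E).filter (fun u => ¬ R y u ∧ (nI R Dz u).card ≤ j)).card ≤
      (48 * lam' + 72 + 6 * w₀) + Kd * (j + 1) := by
    intro j
    obtain ⟨j', hj'⟩ : ∃ j', j' = 4 * (j + (3 + 2 * lam')) + w₀ := ⟨_, rfl⟩
    obtain ⟨Fj, hFj⟩ : ∃ Fj, Fj = P₂.filter (fun u => R u y ∧ (nI R My u).card ≤ j') := ⟨_, rfl⟩
    have h1 : (X₀ \ E).filter (fun u => ¬ R y u ∧ (nI R Dz u).card ≤ j) ⊆ Fj := by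
      intro u hu
      rw [mem_filter, mem_sdiff] at hu
      obtain ⟨⟨hu, huE⟩, hyu, hju⟩ := hu
      have hu' := (hX₀m u).1 hu
      have huys : u ∉ ys := fun h => hu'.2.1 ((hHm u).2 (Or.inr h))
      have huP₂ : u ∈ P₂ := by
        by_contra hcon
        exact huE (hX₀P₂ hu hcon)
      have huy : R u y := by
        have hne : u ≠ y := fun h => huys (h ▸ hylast)
        exact (hT.tot u y hne).resolve_right hyu
      rw [hFj, mem_filter]
      refine ⟨huP₂, huy, ?_⟩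
      have h3 := i13 u huP₂ huy
      have h5 := hMyloss (nI R My u) nI_sub
      have h7 : (nI R My u ∩ Dz).card ≤ (nI R Dz u).card := by
        apply card_le_card
        intro x hx
        rw [mem_inter, mem_nI] at hx
        exact mem_nI.2 ⟨hx.2, hx.1.2⟩
      rw [hj']
      clear * - h3 h5 h7 hju
      omega
    refine (card_le_card h1).trans ?_
    by_cases hjs : (j' : ℝ) ≤ κa / 4 * X.card
    · have h6 := hG.cnt j' hjs
      rw [← hMy, ← hFj] at h6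
      have h7 : 24 * j ≤ Kd * (j + 1) := Nat.mul_le_mul (by
        rw [hKd]
        clear * -
        omega) (Nat.le_succ _)
      clear * - h6 h7 hj'
      omega
    · push Not at hjs
      rw [← hn] at hjs
      have h6 : Fj.card ≤ X.card := card_le_card (by
        rw [hFj]
        exact (filter_subset _ _).trans hP₂X)
      have h7 : (Fj.card : ℝ) ≤ Kd * (j + 1) := by
        have h8 : (Fj.card : ℝ) ≤ n := by
          rw [hn]
          exact_mod_cast h6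
        have h9 : (j' : ℝ) = 4 * (j + (3 + 2 * lam')) + w₀ := by
          rw [hj']
          push_cast
          ring
        have h10 : (64 / κa : ℝ) ≤ Kd := by
          rw [hKd]
          push_cast
          have := Nat.le_ceil (64 / κa)
          clear * - this
          linarith
        have hlamQ : (lam' : ℝ) ≤ Q := by exact_mod_cast (by clear * - k3; linarith : lam' ≤ Q)
        have h11 : κa / 32 * n ≤ j := by
          have hk0n : 0 ≤ κa * n := mul_nonneg h0a.le hn0.le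
          clear * - hjs h9 hk0n x4 g5 hlamQ hQ0
          linarith
        have h12 : n ≤ 64 / κa * j := by
          have h13 : n = 32 / κa * (κa / 32 * n) := by
            clear * - h0a
            field_simp
          have h14 : 32 / κa * (κa / 32 * n) ≤ 32 / κa * j := mul_le_mul_of_nonneg_left h11 (by
            clear * - h0a
            positivity)
          have h15 : 32 / κa * (j : ℝ) ≤ 64 / κa * j := by
            apply mul_le_mul_of_nonneg_right _ (Nat.cast_nonneg _)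
            exact div_le_div_of_nonneg_right (by norm_num) h0a.le
          rw [← h13] at h14
          exact h14.trans h15
        have h16 : 64 / κa * (j : ℝ) ≤ Kd * (j + 1) := by
          apply mul_le_mul h10 (by clear * -; linarith) (Nat.cast_nonneg _) (Nat.cast_nonneg _)
        exact h8.trans (h12.trans h16)
      have h8 : Fj.card ≤ Kd * (j + 1) := by exact_mod_cast h7
      clear * - h8
      linarith
  have hcnt₂ : ∀ j : ℕ, (X₀.filter (fun h => (nI R (Pq ∪ PZ) h).card < bb ∧ (nI R (X₀ \ PZ) h).card ≤ j)).card ≤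
      Kd * (j + 1) := by
    intro j
    refine (enter_cap hT (X := X) (W := W0) (P₂ := P₂) (U₁ := U₁) (X₀ := X₀) (Pp := Pq) (PZ := PZ) (T := T)
      (SE := Sg ∪ E) (Hs := Hs) (Y := ys.toFinset) (M := M) (w₀ := w₀) (sg := T') (Nn := Nn) ?_ ?_ ?_ ?_ hX₀X ?_ hysF hHsc
      i14 i15 ?_ j).trans (Nat.mul_le_mul_right _ ?_)
    · intro u hu
      rw [mem_sdiff, mem_sdiff, List.mem_toFinset]
      by_cases h1 : u ∈ W0
      · exact Or.inl h1
      by_cases h3 : u ∈ ys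
      · exact Or.inr (Or.inr (Or.inr h3))
      by_cases h4 : u ∈ U₁
      · exact Or.inr (Or.inl ⟨h4, h3⟩)
      · refine Or.inr (Or.inr (Or.inl ⟨(hG.part u).2 ⟨?_, fun h => h4 (hG.hP₁ h), h3⟩, h4⟩))
        rw [mem_sdiff, ← hW0]
        exact ⟨hu, h1⟩
    · intro u hu
      exact (hPqm u).2 (Or.inr hu)
    · intro u hu h1 h3
      rw [mem_sdiff, List.mem_toFinset] at hu
      rw [mem_union, mem_union, not_or, not_or] at h1
      by_cases h4 : u ∈ P₁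
      · refine mem_union_left _ ((hPqm u).2 (Or.inl ⟨h4, fun h => ?_⟩))
        rcases (hS'm u).1 h with h5 | h5 | h5 | h5
        · exact h1.1 h5
        · exact h1.2.1 h5
        · exact h1.2.2 h5
        · exact h3 h5
      · exact mem_union_right _ (hPZU hu.1 (hP₂X₀ ((hG.part u).2 ⟨hG.hG (hG.hU₁ hu.1), h4, hu.2⟩) h1.1 h3))
    · intro u hu h1 h3
      exact hP₂X₀ (mem_sdiff.1 hu).1 h1 h3
    · intro h hh
      by_contra hcon
      push Not at hcon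
      apply ((hX₀m h).1 hh).2.2.2.2
      rw [hPqm, hW0, mem_low]
      exact Or.inr ⟨hX₀X hh, hcon⟩
    · rw [hT', hCT]
    · rw [hKd]
      exact Nat.le_add_right _ _
  obtain ⟨S₁, S₂, Fx, e1, e2, e3, e4, e5, e6, e7, e8, e9⟩ := h2 hT (X := X) (X₀ := X₀) (Y := P₂) (Dz := Dz) (PZ := PZ)
    (Pp := Pq) (E := E) (Bp := Bp) (y := y) bb cc lam' (48 * lam' + 72 + 6 * w₀) f₁ le [(v, l₁.2)] os₂ (by
      have h1 : (C₃ : ℝ) ≤ X.card := by
        rw [← hn]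
        clear * - g6
        linarith
      exact_mod_cast h1) hP₂X hX₀X (by
      rw [List.length_singleton]
      exact Nat.succ_le_succ (Nat.zero_le _)) hos₂l (by
      intro x hx
      rw [List.mem_singleton] at hx
      subst hx
      exact ⟨hvX, hHX₀ v ((hHm v).2 (Or.inl ((hHsm v).2 (Or.inl rfl)))), hvU, hbrm l₁ List.mem_cons_self⟩) (by
      intro x hx
      rw [hos₂, List.mem_cons, List.mem_cons, List.mem_map] at hx
      rcases hx with rfl | rfl | ⟨x', hx', rfl⟩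
      · exact ⟨hP₁X haP, hHX₀ a ((hHm a).2 (Or.inl ((hHsm a).2 (Or.inr (Or.inl rfl))))), hgoodG a (hP₁G haP),
          hbrm l₂ (List.mem_cons_of_mem _ List.mem_cons_self)⟩
      · exact ⟨hP₁X hwP, hHX₀ w' ((hHm w').2 (Or.inl ((hHsm w').2 (Or.inr (Or.inr rfl))))), hgoodG w' (hP₁G hwP),
          hbrm l₃ (List.mem_cons_of_mem _ (List.mem_cons_of_mem _ List.mem_cons_self))⟩
      · obtain ⟨h1, h3⟩ := hzm x' hx'
        exact ⟨(hHX ((hHm x'.1).2 (Or.inr h1))).1, hHX₀ x'.1 ((hHm _).2 (Or.inr h1)),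
          hgoodG x'.1 (hG.hys _ h1).1, hbrm x'.2 (List.mem_cons_of_mem _ (List.mem_cons_of_mem _
            (List.mem_cons_of_mem _ h3)))⟩) (by
      intro u hu
      rw [mem_sdiff] at hu
      exact hPZE (hX₀P₂ hu.1 hu.2)) (by
      rw [hPZ]
      exact subset_union_right) hPZX (by
      rw [← hn]
      have h1 : PZ.card + (X \ X₀).card + (X \ P₂).card ≤ (40 + 2 * Mt) * Q + (3 + 2 * Nn + 2 * Ct) := by
        have h3 : (40 + 2 * Mt) * Q = 40 * Q + 2 * (Mt * Q) := by ring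
        rw [h3]
        clear * - hPZc hXX₀c hXP₂c
        linarith
      have h3 : ((PZ.card + (X \ X₀).card + (X \ P₂).card : ℕ) : ℝ) ≤ (40 + 2 * Mt) * Q + (3 + 2 * Nn + 2 * Ct) := by
        exact_mod_cast h1
      clear * - h3 x1 g1
      linarith) (fun u hu => ((hMym u).1 ((hDzm u).1 hu).1.1).1) (fun u hu => ((hDzm u).1 hu).1.2) (by
      intro u hu
      have h1 := (hMym u).1 ((hDzm u).1 hu).1.1
      exact ⟨h1.2.1, hgoodG u h1.2.2⟩) (by rw [← hn]; exact hDzc) (by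
      intro u hu huP
      by_contra hcon
      push Not at hcon
      apply ((hDzm u).1 hu).2
      rw [hInc, mem_filter]
      exact ⟨huP, hcon⟩) hPZE hPZB (fun u hu => hgoodG u (i16 hu)) (by
      intro u hu
      have h1 := i20 u hu
      have h3 : nI R Bp u \ Inc ⊆ Bp.filter (fun v => v ∉ E ∧ R v u ∧ lam' ≤ (nI R PZ v).card) := by
        intro x hx
        rw [mem_sdiff, mem_nI] at hx
        rw [mem_filter]
        refine ⟨hx.1.1, hP₂E (i17 hx.1.1), hx.1.2, ?_⟩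
        by_contra hcon
        push Not at hcon
        apply hx.2
        rw [hInc, mem_filter]
        exact ⟨hPZB hx.1.1, hcon⟩
      have h4 := card_le_card h3
      have h5 := le_card_sdiff Inc (nI R Bp u)
      clear * - h1 h4 h5 hmB hIncc
      omega) hcnt₁ hcnt₂ (by
      rw [hos₁t]
      have h1 : (1 - ω) * (n - ω / 2 * n) ≤ (1 - ω) * P₂.card := mul_le_mul_of_nonneg_left (by
        clear * - hP₂c x2 g2
        linarith) (by clear * - hω1; linarith)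
      have h3 : 0 ≤ ω * ω * n := mul_nonneg (mul_nonneg hω0.le hω0.le) hn0.le
      have h4 : (1 - ω) * (n - ω / 2 * n) = n - ω * n - ω / 2 * n + ω * ω * n / 2 := by ring
      rw [h4] at h1
      clear * - h1 h3 hL1 g3
      linarith) (by
      rw [hos₁t, hos₂t, ← hn]
      have h1 : l₁.2.size + (l₂.2.size + (l₃.2.size + (gr.map (fun q => q.2.size)).sum)) + (szS L + cx) ≤ X.card := by
        clear * - hszL hszL2 hgrs hszc
        omega
      have h3 : ((l₁.2.size + (l₂.2.size + (l₃.2.size + (gr.map (fun q => q.2.size)).sum)) : ℕ) : ℝ) +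
          ((szS L + cx : ℕ) : ℝ) ≤ n := by
        rw [hn]
        exact_mod_cast h1
      rw [← hn] at hζX
      clear * - h3 hζX hP₂c x3 g4
      linarith)
  -- glue
  have hSD : S₁ ∪ S₂ ⊆ X₀ := union_subset e3 e4
  obtain ⟨Xq, hXq⟩ : ∃ Xq, Xq = X₀ \ (S₁ ∪ S₂) := ⟨_, rfl⟩
  rw [← hXq] at e7 e9
  have hXqX₀ : Xq ⊆ X₀ := by
    rw [hXq]
    exact sdiff_subset
  have hdis : Disjoint Pq Xq := by
    rw [disjoint_left]
    intro u hu hu'
    exact ((hX₀m u).1 (hXqX₀ hu')).2.2.2.2 hu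
  have hSA : Disjoint (T ∪ Sg) (S₁ ∪ S₂) := by
    rw [disjoint_left]
    intro u hu hu'
    have h1 := (hX₀m u).1 (hSD hu')
    exact (mem_union.1 hu).elim h1.2.2.1 h1.2.2.2.1
  have hHT : ∀ {u}, u ∈ Hh → u ∉ T ∧ u ∉ Sg := by
    intro u hu
    rcases (hHm u).1 hu with h | h
    · exact ⟨fun h' => disjoint_left.1 i4 h' h, fun h' => disjoint_left.1 i5 h' h⟩
    · exact ⟨fun h' => (hP₂m (i1 h')).2.2.2 h, fun h' => hysP₁ h (i2 h')⟩
  obtain ⟨hcard, hglue⟩ := glue_enter (R := R) (X := X) (P' := Pq) (X' := Xq) (SI := T ∪ Sg) (SD := S₁ ∪ S₂) (N := N)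
    (v := v) (a := a) (w := w') (y := y) (ys := ys) (l₁ := l₁) (l₂ := l₂) (l₃ := l₃) (gr := gr) (L := L) hG.len hG.last (by
      simp only [List.nodup_cons, List.mem_cons, not_or]
      exact ⟨⟨hva, hvw, hvys⟩, ⟨haw, fun h => hysP₁ h haP⟩, fun h => hysP₁ h hwP, hG.nodup⟩) (by
      cases hys : ys with
      | nil =>
        exact absurd hys hysne
      | cons y₁ ys' =>
        have h1 := hG.chain
        rw [hys] at h1
        exact (((h1.cons_cons (hRwy y₁ (by rw [hys]; rfl))).cons_cons hRaw).cons_cons hRva)) hNv i9 (by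
      have h1 : (v, l₁.2) :: (a, l₂.2) :: (w', l₃.2) :: (ys.zip gr).map (fun p => (p.1, p.2.2)) =
          [(v, l₁.2)] ++ os₂ := by rw [hos₂]; rfl
      rw [h1]
      exact embAllB_append.2 ⟨S₁, S₂, e5, rfl, e1, e2⟩) hSA (by
      intro u hu
      rw [← List.mem_toFinset, ← hHh] at hu
      refine ⟨fun h => (mem_union.1 h).elim (hHT hu).1 (hHT hu).2, fun h => hHX₀ u hu (hSD h)⟩) (by
      rw [← hHh]
      refine union_subset (fun u hu => (hHX hu).1) (union_subset (union_subset (i1.trans hP₂X) ?_) (hSD.trans hX₀X))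
      exact fun u hu => hP₁X (i2 hu)) (by
      rw [← hHh]
      ext u
      have hR : u ∈ Hh ∪ ((T ∪ Sg) ∪ (S₁ ∪ S₂)) ↔ u ∈ Hh ∨ (u ∈ T ∨ u ∈ Sg) ∨ u ∈ S₁ ∪ S₂ :=
        mem_union.trans (or_congr Iff.rfl (mem_union.trans (or_congr mem_union Iff.rfl)))
      have hL : u ∈ Pq ∪ Xq ↔ u ∈ Pq ∨ (u ∈ X₀ ∧ u ∉ S₁ ∪ S₂) :=
        mem_union.trans (or_congr Iff.rfl (by rw [hXq, mem_sdiff]))
      rw [hL, mem_sdiff, hR]
      constructor
      · rintro (h | ⟨h1, h7⟩)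
        · refine ⟨hPqX h, fun h' => ?_⟩
          rcases h' with h' | (h' | h') | h'
          · exact hPqH h h'
          · exact hPqT h h'
          · exact hPqS h h'
          · exact ((hX₀m u).1 (hSD h')).2.2.2.2 h
        · obtain ⟨h1, h3, h4, h5, h6⟩ := (hX₀m u).1 h1
          refine ⟨h1, fun h' => ?_⟩
          rcases h' with h' | (h' | h') | h'
          · exact h3 h'
          · exact h4 h'
          · exact h5 h'
          · exact h7 h'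
      · rintro ⟨h1, h3⟩
        rw [not_or, not_or, not_or] at h3
        by_cases h4 : u ∈ Pq
        · exact Or.inl h4
        · exact Or.inr ⟨(hX₀m u).2 ⟨h1, h3.1, h3.2.1.1, h3.2.1.2, h4⟩, h3.2.2⟩) hdis
  have hysPq : ∀ {z}, z ∈ ys → z ∉ Pq := fun hz h => hPqH h ((hHm _).2 (Or.inr hz))
  rw [← hQ] at hcard
  refine ⟨Pq, Xq, ys, y, 48 * lam' + 72 + 6 * w₀ + C₁, ?_, hPqX, hXqX₀.trans hX₀X, ⟨E, Uq, Fx, ?_⟩, hG.len, hPql, hPqu,
    hcard, hglue⟩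
  · clear * - hC
    linarith
  · refine ⟨hdis, fun z hz => ⟨hysPq hz, fun h => hHX₀ z ((hHm z).2 (Or.inr hz)) (hXqX₀ h)⟩, ?_, ⟨_, htq, hside⟩, ?_,
      hG.nodup, hG.chain, hG.last, e7, e8, e9⟩
    · intro u hu
      rw [hUq, mem_union, mem_sdiff] at hu
      rw [mem_union, mem_union, List.mem_toFinset]
      rcases hu with ⟨h1, h3⟩ | h1
      · by_cases h4 : u ∈ ys
        · exact Or.inr h4
        by_cases h5 : u ∈ P₁
        · exact Or.inl (Or.inl ((hPqm u).2 (Or.inl ⟨h5, h3⟩)))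
        · have h6 : u ∈ X₀ := hP₂X₀ ((hG.part u).2 ⟨hG.hG (hG.hU₁ h1), h5, h4⟩) (fun h => h3 ((hS'm u).2 (Or.inl h)))
            (fun h => h3 ((hS'm u).2 (Or.inr (Or.inr (Or.inr h)))))
          refine Or.inl (Or.inr ?_)
          rw [hXq, mem_sdiff]
          exact ⟨h6, fun h => disjoint_left.1 e6 h (hPZU h1 h6)⟩
      · exact Or.inl (Or.inl ((hPqm u).2 (Or.inr h1)))
    · show (1 / 16 : ℝ) * Uq.card ≤ Pq.card
      have h1 : (Uq.card : ℝ) ≤ 16 * Pq.card := by exact_mod_cast hUc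
      clear * - h1
      linarith

end AEG
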