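import Pool.Agent.AEM.Order

/-!
# Median orders: exchange with a closed set

If every vertex of a set `X` outside `C` has at most `k` out-neighbours in `C` (inside `X`), then in a median order
of `X` at most `2 * k * |X \ C|` pairs consist of a vertex outside `C` followed by a vertex of `C`.
-/

set_option autoImplicit false

namespace AEM

open Finset
open scoped Classical

variable {V : Type*} {R : V → V → Prop} {X : Finset V} {p : V → ℕ}

theorem MedO.exch (h : MedO R X p) (hT : AE32.Tour R) (C : Finset V) (k : ℕ)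
    (hC : ∀ x ∈ X, x ∉ C → (X.filter (fun y => y ∈ C ∧ R x y)).card ≤ k) :
    ((X ×ˢ X).filter (fun q => q.1 ∉ C ∧ q.2 ∈ C ∧ p q.1 < p q.2)).card ≤ 2 * k * (X \ C).card := by
  rcases (X \ C).eq_empty_or_nonempty with h0 | h0
  · rw [h0, card_empty, mul_zero, Nat.le_zero, card_eq_zero, filter_eq_empty_iff]
    rintro ⟨x, y⟩ hq ⟨h1, _, _⟩
    have : x ∈ X \ C := mem_sdiff.2 ⟨(mem_product.1 hq).1, h1⟩
    rw [h0] at this
    exact absurd this (notMem_empty _)
  obtain ⟨x, hx, hmin⟩ := exists_min_image (X \ C) p h0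
  rw [mem_sdiff] at hx
  set S := X.filter (fun u => u ∈ C ∧ p x < p u) with hS
  have hmS : ∀ {u}, u ∈ S ↔ u ∈ X ∧ u ∈ C ∧ p x < p u := by
    intro u
    rw [hS, mem_filter]
  have h1 := h.front x hx.1 S (filter_subset _ _) (fun u hu => (hmS.1 hu).2.2)
  -- the two sums
  set A := ∑ u ∈ S, (X.filter (fun w => w ∉ S ∧ p x ≤ p w ∧ p w < p u ∧ R u w)).card with hA
  set B := ∑ u ∈ S, (X.filter (fun w => w ∉ S ∧ p x ≤ p w ∧ p w < p u ∧ R w u)).card with hB
  have hout : ∀ w ∈ X, w ∉ S → p x ≤ p w → w ∉ C := by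
    intro w hw hwS hxw hwC
    rcases Nat.eq_or_lt_of_le hxw with h2 | h2
    · have := h.inj x hx.1 w hw h2
      rw [← this] at hwC
      exact hx.2 hwC
    · exact hwS (hmS.2 ⟨hw, hwC, h2⟩)
  -- number of pairs is at most A + B
  have h2 : ((X ×ˢ X).filter (fun q => q.1 ∉ C ∧ q.2 ∈ C ∧ p q.1 < p q.2)).card ≤ A + B := by
    rw [hA, hB, ← sum_card_filter (S := S) (X := X) (fun u w => w ∉ S ∧ p x ≤ p w ∧ p w < p u ∧ R u w),
      ← sum_card_filter (S := S) (X := X) (fun u w => w ∉ S ∧ p x ≤ p w ∧ p w < p u ∧ R w u)]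
    refine le_trans ?_ (card_union_le _ _)
    apply card_le_card_of_injOn (fun q => (q.2, q.1))
    · rintro ⟨a, b⟩ hq
      simp only [coe_filter, Set.mem_ofPred_eq, mem_product] at hq
      obtain ⟨⟨ha, hb⟩, h3, h4, h5⟩ := hq
      have h6 : p x ≤ p a := hmin a (mem_sdiff.2 ⟨ha, h3⟩)
      have h7 : b ∈ S := hmS.2 ⟨hb, h4, by omega⟩
      have h8 : a ∉ S := fun h9 => h3 (hmS.1 h9).2.1
      have hab : a ≠ b := by
        rintro rfl
        exact h3 h4
      simp only [coe_union, coe_filter, Set.mem_union, Set.mem_ofPred_eq, mem_product]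
      rcases hT.tot a b hab with h9 | h9
      · right
        exact ⟨⟨h7, ha⟩, h8, h6, h5, h9⟩
      · left
        exact ⟨⟨h7, ha⟩, h8, h6, h5, h9⟩
    · rintro ⟨a, b⟩ _ ⟨c, d⟩ _ he
      simp only [Prod.mk.injEq] at he
      rw [he.1, he.2]
  -- B is small
  have h3 : B ≤ k * (X \ C).card := by
    rw [hB, ← sum_card_filter (S := S) (X := X) (fun u w => w ∉ S ∧ p x ≤ p w ∧ p w < p u ∧ R w u)]
    have h4 : (((X \ C) ×ˢ X).filter (fun q => q.2 ∈ C ∧ R q.1 q.2)).card ≤ k * (X \ C).card := by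
      rw [sum_card_filter (S := X \ C) (X := X) (fun x y => y ∈ C ∧ R x y)]
      calc ∑ u ∈ X \ C, (X.filter (fun y => y ∈ C ∧ R u y)).card ≤ ∑ _u ∈ X \ C, k := by
            apply sum_le_sum
            intro u hu
            rw [mem_sdiff] at hu
            exact hC u hu.1 hu.2
        _ = k * (X \ C).card := by
            rw [sum_const, smul_eq_mul, mul_comm]
    refine le_trans ?_ h4
    apply card_le_card_of_injOn (fun q => (q.2, q.1))
    · rintro ⟨a, b⟩ hq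
      simp only [coe_filter, Set.mem_ofPred_eq, mem_product] at hq
      obtain ⟨⟨ha, hb⟩, h5, h6, h7, h8⟩ := hq
      simp only [coe_filter, Set.mem_ofPred_eq, mem_product, mem_sdiff]
      exact ⟨⟨⟨hb, hout b hb h5 h6⟩, (hmS.1 ha).1⟩, (hmS.1 ha).2.1, h8⟩
    · rintro ⟨a, b⟩ _ ⟨c, d⟩ _ he
      simp only [Prod.mk.injEq] at he
      rw [he.1, he.2]
  calc _ ≤ A + B := h2
    _ ≤ B + B := Nat.add_le_add_right h1 _
    _ ≤ k * (X \ C).card + k * (X \ C).card := Nat.add_le_add h3 h3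
    _ = 2 * k * (X \ C).card := by ring

/-- product form: all of `S₁`, outside `C`, precedes all of `S₂`, inside `C` -/
theorem MedO.exch_mul (h : MedO R X p) (hT : AE32.Tour R) (C : Finset V) (k : ℕ)
    (hC : ∀ x ∈ X, x ∉ C → (X.filter (fun y => y ∈ C ∧ R x y)).card ≤ k) {S₁ S₂ : Finset V}
    (h1 : S₁ ⊆ X) (h2 : S₂ ⊆ X) (hS₁ : ∀ x ∈ S₁, x ∉ C) (hS₂ : ∀ y ∈ S₂, y ∈ C)
    (hlt : ∀ x ∈ S₁, ∀ y ∈ S₂, p x < p y) : S₁.card * S₂.card ≤ 2 * k * (X \ C).card := by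
  refine le_trans ?_ (h.exch hT C k hC)
  rw [← card_product]
  apply card_le_card
  rintro ⟨x, y⟩ hq
  rw [mem_product] at hq
  rw [mem_filter, mem_product]
  exact ⟨⟨h1 hq.1, h2 hq.2⟩, hS₁ x hq.1, hS₂ y hq.2, hlt x hq.1 y hq.2⟩

/-- product form for an interval of positions `[a, b)` of the order -/
theorem MedO.exch_interval (h : MedO R X p) (hT : AE32.Tour R) (C : Finset V) (k a b : ℕ)
    (hC : ∀ x ∈ X, a ≤ p x → p x < b → x ∉ C →
      (X.filter (fun y => (a ≤ p y ∧ p y < b) ∧ y ∈ C ∧ R x y)).card ≤ k) {S₁ S₂ : Finset V}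
    (h1 : ∀ x ∈ S₁, x ∈ X ∧ a ≤ p x ∧ p x < b ∧ x ∉ C) (h2 : ∀ y ∈ S₂, y ∈ X ∧ a ≤ p y ∧ p y < b ∧ y ∈ C)
    (hlt : ∀ x ∈ S₁, ∀ y ∈ S₂, p x < p y) :
    S₁.card * S₂.card ≤ 2 * k * (X.filter (fun w => (a ≤ p w ∧ p w < b) ∧ w ∉ C)).card := by
  have h3 := h.interval a b
  have h4 := h3.exch_mul hT C k (by
    intro x hx hxC
    rw [mem_filter] at hx
    rw [filter_filter]
    exact hC x hx.1 hx.2.1 hx.2.2 hxC) (S₁ := S₁) (S₂ := S₂)
    (fun x hx => mem_filter.2 ⟨(h1 x hx).1, (h1 x hx).2.1, (h1 x hx).2.2.1⟩)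
    (fun y hy => mem_filter.2 ⟨(h2 y hy).1, (h2 y hy).2.1, (h2 y hy).2.2.1⟩)
    (fun x hx => (h1 x hx).2.2.2) (fun y hy => (h2 y hy).2.2.2) (by
      intro x hx y hy
      have := hlt x hx y hy
      have := (h1 x hx).2.1
      have := (h2 y hy).2.1
      show p x - a < p y - a
      omega)
  refine le_trans h4 (Nat.mul_le_mul_left _ (card_le_card ?_))
  intro w hw
  rw [mem_sdiff, mem_filter] at hw
  rw [mem_filter]
  exact ⟨hw.1.1, hw.1.2, hw.2⟩

end AEM
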