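import Pool.Agent.AEB.MainB

/-!
# Unrooted forests
-/

set_option autoImplicit false

namespace AEG

open Finset AE15 AED AEB
open scoped Classical

theorem emb_card {V : Type*} {R : V → V → Prop} : ∀ {F : Fd} {v : V} {S : Finset V}, Emb R F v S → S.card = F.size
  | .nil, v, S, h => by rw [show S = ∅ from h]; rfl
  | .node d c s, v, S, ⟨x, A, B, h1, h2, h3, h4, h5, h6, h7⟩ => by
    rw [h5, card_insert_of_notMem (by rw [mem_union, not_or]; exact ⟨h2, h3⟩), card_union_of_disjoint h4, emb_card h6,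
      emb_card h7]
    rfl

/-- **Unrooted forests**: a forest, all trees of which hang by arcs away from the common vertex, in a set of
out-neighbours of the host -/
theorem unroot {D : ℕ} {ω c η η₁ κ₀ κ₁ κ γ₀ τ s σ₂ μ : ℝ} (P : KB D ω c η η₁ κ₀ κ₁ κ γ₀ τ s σ₂ μ) (p : NP) (C : ℝ) :
    ∃ C₀ : ℕ, ∀ {V : Type} {R : V → V → Prop}, AE32.Tour R → (∀ F : Fd, FOK p.b p.l 0 F → EE R κ η s p 1 C F) →
      ∀ F : Fd, FOK p.b p.l 0 F → (∀ q ∈ F.trees, q.1 = true) → ∀ (v : V) (S : Finset V), (∀ w ∈ S, R v w) →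
        F.size + C₀ ≤ S.card → ∃ S' ⊆ S, Emb R F v S' := by
  have hκ₀0 : 0 < κ₀ := P.num.2.2.2.2.2.2.2.2.1
  refine ⟨⌈C⌉₊ + ⌈1 / κ₀⌉₊, fun {V R} hT hEE F => ?_⟩
  induction F with
  | nil => exact fun _ _ v S _ _ => ⟨∅, empty_subset _, rfl⟩
  | node d c s _ ihs =>
    intro hF hfl v S hS hSc
    have hd : d = true := hfl (d, c) (by simp [Fd.trees])
    subst hd
    have hs : FOK p.b p.l 0 s := by
      obtain ⟨g1, g2, g3⟩ := hF
      refine ⟨?_, g2.2.2, g3.2⟩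
      simp only [Fd.len] at g1
      omega
    have hc : FOK p.b p.l 0 c := by
      have := (hF.child (p := (true, c)) (by simp [Fd.trees])).1
      simpa using this
    simp only [Fd.size] at hSc
    obtain ⟨B, hBS, hB⟩ := ihs hs (fun q hq => hfl q (by simp [Fd.trees, hq])) v S hS (by omega)
    have hBc := emb_card hB
    have h1 : (S \ B).card = S.card - B.card := card_sdiff_of_subset hBS
    have h2 : c.size + 1 + (⌈C⌉₊ + ⌈1 / κ₀⌉₊) ≤ (S \ B).card := by omega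
    obtain ⟨x, hx, A, hA, hxA, -, hE⟩ := hEE c hc (S \ B) (fun _ => True) (by
      have h3 : C ≤ ⌈C⌉₊ := Nat.le_ceil _
      have h4 : ((c.size : ℝ) + 1 + (⌈C⌉₊ + ⌈1 / κ₀⌉₊)) ≤ (S \ B).card := by exact_mod_cast h2
      have h5 : (0 : ℝ) ≤ (⌈1 / κ₀⌉₊ : ℝ) := Nat.cast_nonneg _
      linarith) (cl_true P hT p c (S \ B) (by
        have h1 : 1 / κ₀ ≤ (⌈1 / κ₀⌉₊ : ℝ) := Nat.le_ceil _
        have h2 : ((⌈1 / κ₀⌉₊ : ℕ) : ℝ) ≤ (S \ B).card := by exact_mod_cast (by omega : ⌈1 / κ₀⌉₊ ≤ (S \ B).card)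
        have h3 : 1 / κ₀ ≤ (S \ B).card := h1.trans h2
        rw [div_le_iff₀ hκ₀0] at h3
        linarith) _ fun _ => trivial)
    rw [mem_sdiff] at hx
    have hA' : ∀ w ∈ A, w ∈ S ∧ w ∉ B := fun w hw => mem_sdiff.1 (hA hw)
    refine ⟨insert x (A ∪ B), insert_subset hx.1 (union_subset (fun w hw => (hA' w hw).1) hBS), x, A, B, hS x hx.1, hxA,
      hx.2, ?_, rfl, hE, hB⟩
    rw [disjoint_left]
    exact fun w hw => (hA' w hw).2

end AEG
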