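import Pool.Agent.AEG.P2S
import Pool.Agent.AEG.DefsG
import Pool.Agent.AEG.Unroot
import Pool.Agent.AEG.ClusG
import Pool.Agent.H12AE.Half

/-!
# The exit: auxiliary statements
-/

set_option autoImplicit false

namespace AEG

open Finset AE15 AED AEB SPD
open scoped Classical

/-- **The super vertex `z` of `Y`**, the exceptional set being small (a share of `Y`) -/
theorem super_zE {D₀ : ℕ} {ω c η η₁ κ₀ κ₁ κ γ₀ τ s σ₂ μ : ℝ} (P : KB D₀ ω c η η₁ κ₀ κ₁ κ γ₀ τ s σ₂ μ) :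
    ∃ Kz n₀ : ℕ, ∀ {T : Type} {R : T → T → Prop}, AE32.Tour R → ∀ {Y Ex : Finset T}, n₀ ≤ Y.card →
      (Ex.card : ℝ) ≤ γ₀ / 16 * Y.card → ∃ G ⊆ Y, ∃ z ∈ Y, (∀ g ∈ G, Good R κ₁ η₁ Y g) ∧ z ∈ G ∧ z ∉ Ex ∧
        γ₀ / 4 * Y.card ≤ ((nO R (G \ Ex) z).card : ℝ) ∧
        ∀ j : ℕ, (Y.filter (fun u => u ∉ Ex ∧ R u z ∧ (nI R (nO R (G \ Ex) z) u).card ≤ j)).card ≤ Kz * j := by
  obtain ⟨hω0, hω1, hc0, hc1, hη0, hη1, hη₁0, hη₁1, hκ₀0, hκ₁0, hκ₁1, hκ0, hκ1, hs0, hγ₀0, hτ0, hσ₂0, hμ0, hκ₁η, hκs⟩ :=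
    P.num
  obtain ⟨n₀, hn₀⟩ := exists_big [((1 : ℝ), κ₀), ((4 : ℝ), γ₀)] (by
    intro q hq
    simp only [List.mem_cons, List.not_mem_nil, or_false] at hq
    rcases hq with rfl | rfl
    · exact hκ₀0
    · exact hγ₀0)
  refine ⟨⌈4 / γ₀⌉₊ + 2, n₀, ?_⟩
  intro T R hT Y Ex hn hEx
  have hbig := hn₀ Y.card hn
  have b1 : (1 : ℝ) ≤ κ₀ * Y.card := hbig ((1 : ℝ), κ₀) (by simp)
  have b2 : (4 : ℝ) ≤ γ₀ * Y.card := hbig ((4 : ℝ), γ₀) (by simp)
  obtain ⟨G, hG, hGg, hGc, hGo⟩ := exists_G P hT Y b1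
  have hsd : (G.card : ℝ) ≤ (G \ Ex).card + Ex.card := by
    have h1 : G ⊆ (G \ Ex) ∪ Ex := fun x hx => by
      by_cases hxE : x ∈ Ex
      · exact mem_union_right _ hxE
      · exact mem_union_left _ (mem_sdiff.2 ⟨hx, hxE⟩)
    exact_mod_cast (card_le_card h1).trans (card_union_le _ _)
  have hn0 : (0 : ℝ) ≤ γ₀ * Y.card := by positivity
  have hne : (G \ Ex).Nonempty := by
    rw [← card_pos]
    have : (0 : ℝ) < (G \ Ex).card := by linarith
    exact_mod_cast this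
  obtain ⟨z, hz⟩ := exists_x hT (X := Y) (G := G) (Z := Ex) (m := ⌊γ₀ / 16 * Y.card⌋₊) hG (fun u hu huG =>
    Nat.le_floor (hGo u hu huG)) hne
  have hzG := mem_sdiff.1 hz.hx
  have hN : γ₀ / 4 * Y.card + γ₀ / 16 * Y.card ≤ ((nO R (G \ Ex) z).card : ℝ) := by
    have h4 : ((G \ Ex).card : ℝ) ≤ 2 * (nO R (G \ Ex) z).card + 1 := by exact_mod_cast hz.h4
    linarith
  have hout : ∀ u ∈ Y, u ∉ G → γ₀ / 4 * Y.card ≤ ((nI R (nO R (G \ Ex) z) u).card : ℝ) := by
    intro u hu huG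
    have h3 : ((nO R (G \ Ex) z).card : ℝ) ≤ (nI R (nO R (G \ Ex) z) u).card + ⌊γ₀ / 16 * Y.card⌋₊ := by
      exact_mod_cast hz.h3 u hu huG
    have h5 : (⌊γ₀ / 16 * Y.card⌋₊ : ℝ) ≤ γ₀ / 16 * Y.card := Nat.floor_le (by positivity)
    linarith
  refine ⟨G, hG, z, hG hzG.1, hGg, hzG.1, hzG.2, by
    have : 0 ≤ γ₀ / 16 * Y.card := by positivity
    linarith, ?_⟩
  intro j
  by_cases hj : (j : ℝ) < γ₀ / 4 * Y.card
  · have h1 : Y.filter (fun u => u ∉ Ex ∧ R u z ∧ (nI R (nO R (G \ Ex) z) u).card ≤ j) ⊆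
        (G \ Ex).filter (fun u => R u z ∧ (nI R (nO R (G \ Ex) z) u).card ≤ j) := by
      intro u hu
      rw [mem_filter] at hu ⊢
      obtain ⟨hu1, hu2, hu3, hu4⟩ := hu
      refine ⟨mem_sdiff.2 ⟨?_, hu2⟩, hu3, hu4⟩
      by_contra huG
      have h2 := hout u hu1 huG
      have h3 : ((nI R (nO R (G \ Ex) z) u).card : ℝ) ≤ j := by exact_mod_cast hu4
      linarith
    refine (card_le_card h1).trans ((hz.h2 j).trans (Nat.mul_le_mul_right _ (by omega)))
  · push Not at hj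
    have h1 : (Y.filter (fun u => u ∉ Ex ∧ R u z ∧ (nI R (nO R (G \ Ex) z) u).card ≤ j)).card ≤ Y.card :=
      card_le_card (filter_subset _ _)
    refine h1.trans ?_
    have h2 : (Y.card : ℝ) ≤ ((⌈4 / γ₀⌉₊ + 2) * j : ℝ) := by
      have h3 : (4 / γ₀ : ℝ) ≤ ⌈4 / γ₀⌉₊ := Nat.le_ceil _
      have h4 : (Y.card : ℝ) = 4 / γ₀ * (γ₀ / 4 * Y.card) := by
        field_simp
      have h5 : 4 / γ₀ * (γ₀ / 4 * Y.card) ≤ 4 / γ₀ * j := mul_le_mul_of_nonneg_left hj (by positivity)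
      have h6 : 4 / γ₀ * (j : ℝ) ≤ (⌈4 / γ₀⌉₊ + 2) * j := mul_le_mul_of_nonneg_right (by linarith) (Nat.cast_nonneg _)
      linarith
    exact_mod_cast h2

/-- **The way to `z`**: at most two further vertices -/
theorem exit_way {V : Type} {R : V → V → Prop} (hT : AE32.Tour R) {X E : Finset V} {N : V → Prop} {κ η s : ℝ}
    {lam sig f w K lamE : ℕ} (h : StE R X E N κ η s lam sig f w K lamE) (hE : E = ∅ ∨ w + 2 * sig + 1 ≤ lamE) {z : V}
    (hz : z ∈ X) (hz1 : sig ≤ (nI R X z).card)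
    (hz2 : z ∉ (X \ E).filter (fun u => ¬ N u ∧ sig ≤ (nI R X u).card ∧ (nI R (cg R X ∅ N κ η lam) u).card ≤ 0)) :
    ∃ pre : List V, pre.length ≤ 2 ∧ (∀ v ∈ pre, v ∈ X ∧ Good R κ η X v ∧ lam ≤ (nI R X v).card) ∧
      (pre ++ [z]).IsChain R ∧ (pre ++ [z]).Nodup ∧ ∀ v, (pre ++ [z]).head? = some v → N v := by
  have hcg : ∀ v ∈ cg R X ∅ N κ η lam, v ∈ X ∧ N v ∧ Good R κ η X v ∧ lam ≤ (nI R X v).card := by
    intro v hv
    rw [mem_cg, union_empty] at hv
    exact hv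
  obtain ⟨V₀, hV₀⟩ : ∃ V₀, V₀ = (X \ E).filter (fun u => ¬ N u ∧ sig ≤ (nI R X u).card ∧
      (nI R (cg R X ∅ N κ η lam) u).card ≤ 0) := ⟨_, rfl⟩
  rw [← hV₀] at hz2
  have hV₀c : V₀.card ≤ w := by
    rw [hV₀]
    have := h.cnt 0 (Nat.zero_le _)
    omega
  -- a covered vertex
  have hcov : ∀ u ∈ X, u ∉ E → sig ≤ (nI R X u).card → u ∉ V₀ → N u ∨ ∃ v ∈ cg R X ∅ N κ η lam, R v u := by
    intro u hu huE hus huV
    rw [or_iff_not_imp_left]
    intro hN
    rw [hV₀, mem_filter] at huV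
    push Not at huV
    have h1 := huV (mem_sdiff.2 ⟨hu, huE⟩) hN hus
    obtain ⟨v, hv⟩ := card_pos.1 h1
    exact ⟨v, (mem_nI.1 hv).1, (mem_nI.1 hv).2⟩
  have hne : ∀ {a b : V}, R a b → a ≠ b := fun {a b} hab e => hT.irr b (e ▸ hab)
  by_cases hzE : z ∈ E
  · have hlam : w + 2 * sig + 1 ≤ lamE := hE.resolve_left (fun h0 => by rw [h0] at hzE; simp at hzE)
    have h1 := h.thr z hzE
    have h2 := card_lowin hT X sig
    obtain ⟨b, hb, hb1, hb2⟩ : ∃ b ∈ (X \ E).filter (fun b => R b z ∧ Good R κ η X b ∧ lam ≤ (nI R X b).card),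
        sig ≤ (nI R X b).card ∧ b ∉ V₀ := by
      by_contra hcon
      push Not at hcon
      have h3 : (X \ E).filter (fun b => R b z ∧ Good R κ η X b ∧ lam ≤ (nI R X b).card) ⊆
          V₀ ∪ X.filter (fun v => (nI R X v).card < sig) := by
        intro b hb
        rw [mem_union, mem_filter]
        by_cases h4 : sig ≤ (nI R X b).card
        · exact Or.inl (hcon b hb h4)
        · exact Or.inr ⟨(mem_sdiff.1 (mem_filter.1 hb).1).1, by omega⟩
      have h4 := (card_le_card h3).trans (card_union_le _ _)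
      omega
    rw [mem_filter, mem_sdiff] at hb
    obtain ⟨⟨hbX, hbE⟩, hbz, hbg, hbl⟩ := hb
    rcases hcov b hbX hbE hb1 hb2 with hNb | ⟨v, hv, hvb⟩
    · refine ⟨[b], by simp, ?_, ?_, ?_, ?_⟩
      · intro v hv
        rw [List.mem_singleton] at hv
        subst hv
        exact ⟨hbX, hbg, hbl⟩
      · simpa using hbz
      · simpa using hne hbz
      · intro v hv
        simp only [List.cons_append, List.nil_append, List.head?_cons, Option.some.injEq] at hv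
        exact hv ▸ hNb
    · obtain ⟨hvX, hvN, hvg, hvl⟩ := hcg v hv
      refine ⟨[v, b], by simp, ?_, ?_, ?_, ?_⟩
      · intro u hu
        simp only [List.mem_cons, List.not_mem_nil, or_false] at hu
        rcases hu with rfl | rfl
        · exact ⟨hvX, hvg, hvl⟩
        · exact ⟨hbX, hbg, hbl⟩
      · simpa using ⟨hvb, hbz⟩
      · have h3 : v ≠ z := by
          rintro rfl
          exact hT.asym _ _ hvb hbz
        simpa using ⟨⟨hne hvb, h3⟩, hne hbz⟩
      · intro u hu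
        simp only [List.cons_append, List.nil_append, List.head?_cons, Option.some.injEq] at hu
        exact hu ▸ hvN
  · rcases hcov z hz hzE hz1 hz2 with hNz | ⟨v, hv, hvz⟩
    · refine ⟨[], by simp, by simp, by simp, by simp, ?_⟩
      intro u hu
      simp only [List.nil_append, List.head?_cons, Option.some.injEq] at hu
      exact hu ▸ hNz
    · obtain ⟨hvX, hvN, hvg, hvl⟩ := hcg v hv
      refine ⟨[v], by simp, ?_, ?_, ?_, ?_⟩
      · intro u hu
        rw [List.mem_singleton] at hu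
        subst hu
        exact ⟨hvX, hvg, hvl⟩
      · simpa using hvz
      · simpa using hne hvz
      · intro u hu
        simp only [List.cons_append, List.nil_append, List.head?_cons, Option.some.injEq] at hu
        exact hu ▸ hvN

/-- crude items, in a set in which every host has many out-neighbours -/
theorem items_crude {D : ℕ} {ω c η η₁ κ₀ κ₁ κ γ₀ τ s σ₂ μ : ℝ} (P : KB D ω c η η₁ κ₀ κ₁ κ γ₀ τ s σ₂ μ) (p : NP) (C : ℝ) :
    ∃ C₀ : ℕ, ∀ {V : Type} {R : V → V → Prop}, AE32.Tour R → (∀ F : Fd, FOK p.b p.l 0 F → EE R κ η s p 1 C F) →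
      ∀ (Z : Finset V) (os : List (V × Fd)), (∀ q ∈ os, FOK p.b p.l 0 q.2 ∧ ∀ t ∈ q.2.trees, t.1 = true) →
        (∀ q ∈ os, totB os + C₀ ≤ (nO R Z q.1).card) → ∃ S ⊆ Z, EmbAllB R os S := by
  obtain ⟨C₀, h⟩ := unroot P p C
  refine ⟨C₀, fun {V R} hT hEE Z os => ?_⟩
  induction os with
  | nil => exact fun _ _ => ⟨∅, empty_subset _, rfl⟩
  | cons q os ih =>
    intro h1 h2
    have htot : totB (q :: os) = q.2.size + totB os := by simp [totB]
    obtain ⟨S₂, hS₂, hE₂⟩ := ih (fun t ht => h1 t (List.mem_cons_of_mem _ ht)) (fun t ht => by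
      have := h2 t (List.mem_cons_of_mem _ ht)
      omega)
    have hc := EmbAllB.card hE₂
    obtain ⟨S₁, hS₁, hE₁⟩ := h hT hEE q.2 (h1 q List.mem_cons_self).1 (h1 q List.mem_cons_self).2 q.1
      (nO R Z q.1 \ S₂) (fun w hw => (mem_nO.1 (mem_sdiff.1 hw).1).2) (by
        have h3 := h2 q List.mem_cons_self
        have h4 := le_card_sdiff S₂ (nO R Z q.1)
        omega)
    refine ⟨S₁ ∪ S₂, union_subset (fun v hv => (mem_nO.1 (mem_sdiff.1 (hS₁ hv)).1).1) hS₂, S₁, S₂, ?_, rfl, hE₁, hE₂⟩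
    rw [disjoint_left]
    exact fun v hv => (mem_sdiff.1 (hS₁ hv)).2

/-- **Glue** for the line -/
theorem line_glue {T : Type} {R : T → T → Prop} {os₀ : List (T × (Fd × Fd))} {z : T}
    {q : Fd × Fd} {L' : List (Fd × Fd)} {Nn : T → Prop} {X₀ SA SD : Finset T}
    (h1 : ((os₀ ++ [(z, q)]).map Prod.fst).Nodup) (h2 : ((os₀ ++ [(z, q)]).map Prod.fst).IsChain R)
    (h3 : EmbAllB (rv R) ((os₀ ++ [(z, q)]).map (fun p => (p.1, p.2.1))) SA)
    (h4 : EmbAllB R ((os₀ ++ [(z, q)]).map (fun p => (p.1, p.2.2))) SD) (h5 : Disjoint SA SD)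
    (h6 : ∀ p ∈ os₀ ++ [(z, q)], p.1 ∉ SA ∧ p.1 ∉ SD)
    (hN : ∀ v, ((os₀ ++ [(z, q)]).map Prod.fst).head? = some v → Nn v)
    (hX : ((os₀ ++ [(z, q)]).map Prod.fst).toFinset ∪ (SA ∪ SD) ⊆ X₀) :
    (X₀ \ (((os₀ ++ [(z, q)]).map Prod.fst).toFinset ∪ (SA ∪ SD))).card + szS ((os₀ ++ [(z, q)]).map Prod.snd ++ L') =
      X₀.card + szS L' ∧
    (InS R L' (R z) (X₀ \ (((os₀ ++ [(z, q)]).map Prod.fst).toFinset ∪ (SA ∪ SD))) →
      InS R ((os₀ ++ [(z, q)]).map Prod.snd ++ L') Nn X₀) := by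
  obtain ⟨os, hos⟩ : ∃ os, os = os₀ ++ [(z, q)] := ⟨_, rfl⟩
  have hlast : os.getLast? = some (z, q) := by rw [hos, List.getLast?_concat]
  rw [← hos] at h1 h2 h3 h4 h6 hN hX ⊢
  have hne : os ≠ [] := by
    rintro rfl
    simp at hlast
  have hlast' : (os.getLast hne).1 = z := by
    rw [List.getLast?_eq_getLast_of_ne_nil hne, Option.some_inj] at hlast
    rw [hlast]
  have hhead : Nn (os.head hne).1 := by
    apply hN
    cases os with
    | nil => exact absurd rfl hne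
    | cons x os => simp
  have hcard : ((os.map Prod.fst).toFinset ∪ (SA ∪ SD)).card = szS (os.map Prod.snd) := by
    have a1 : Disjoint (os.map Prod.fst).toFinset (SA ∪ SD) := by
      rw [disjoint_left]
      intro x hx hx'
      rw [List.mem_toFinset, List.mem_map] at hx
      obtain ⟨p, hp, rfl⟩ := hx
      rcases mem_union.1 hx' with h | h
      · exact (h6 p hp).1 h
      · exact (h6 p hp).2 h
    rw [card_union_of_disjoint a1, card_union_of_disjoint h5, List.toFinset_card_of_nodup h1, List.length_map,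
      EmbAllB.card h3, EmbAllB.card h4]
    have h8 : ∀ os : List (T × (Fd × Fd)), os.length + (totB (os.map (fun p => (p.1, p.2.1))) +
        totB (os.map (fun p => (p.1, p.2.2)))) = szS (os.map Prod.snd) := by
      intro os
      induction os with
      | nil => rfl
      | cons p os ih =>
        rw [List.map_cons, List.map_cons, List.map_cons, szS_cons, ← ih]
        simp only [totB, List.map_cons, List.sum_cons, List.length_cons]
        omega
    exact h8 os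
  have h7 : X₀.card = (X₀ \ ((os.map Prod.fst).toFinset ∪ (SA ∪ SD))).card +
      ((os.map Prod.fst).toFinset ∪ (SA ∪ SD)).card := (card_sdiff_add_card_eq_card hX).symm
  refine ⟨?_, ?_⟩
  · have h8 : szS (os.map Prod.snd ++ L') = szS (os.map Prod.snd) + szS L' := by simp [szS]
    omega
  · rintro ⟨y, hy, hzy, S, hS, hyS, hE⟩
    have hd : Disjoint (insert y S) ((os.map Prod.fst).toFinset ∪ (SA ∪ SD)) := by
      rw [disjoint_left]
      intro x hx
      rcases mem_insert.1 hx with rfl | hx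
      · exact (mem_sdiff.1 hy).2
      · exact (mem_sdiff.1 (hS hx)).2
    have hmain := embS_chain hne h1 h2 h3 h4 h5 h6 (T := insert y S) (L' := L')
      (Or.inr ⟨y, S, hyS, rfl, by rw [hlast']; exact hzy, hE⟩) hd
    have hvm : (os.head hne).1 ∈ (os.map Prod.fst).toFinset := by
      rw [List.mem_toFinset]
      exact List.mem_map_of_mem (List.head_mem hne)
    refine ⟨_, hX (mem_union_left _ hvm), hhead, _, ?_, notMem_erase _ _, hmain⟩
    refine (erase_subset _ _).trans (union_subset hX ?_)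
    intro x hx
    rcases mem_insert.1 hx with rfl | hx
    · exact (mem_sdiff.1 hy).1
    · exact (mem_sdiff.1 (hS hx)).1

end AEG
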