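import Pool.Agent.AEG.FinH

/-!
# The final step at the first vertex of the line, from the state
-/

set_option autoImplicit false

namespace AEG

open Finset AE15 AED AEB
open scoped Classical

/-- **Final step at the first vertex of the line**, from the state; the factor `K` depends only on the class and on `P` -/
theorem finAL (p : NP) (hp : p.OK) (hab : ab p.b p.l ≤ p.a) {D₀ : ℕ} (hD₀ : 2 * p.A ≤ D₀)
    {ω c η η₁ κ₀ κ₁ κ γ₀ τ s σ₂ μ : ℝ} (P : KB D₀ ω c η η₁ κ₀ κ₁ κ γ₀ τ s σ₂ μ) : ∃ K : ℕ,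
    ∀ {κU ηU s' : ℝ}, 0 < κU → κU ≤ κ → ηU ≤ η → 0 < s' → ∀ h lam sig w K1 : ℕ, 4 * h + p.e ≤ lam → ∃ C : ℕ,
    ∀ {V : Type} {R : V → V → Prop}, AE32.Tour R → ∀ {Y W : Finset V} {N : V → Prop},
      StM R Y W N κU ηU s' lam sig K1 → (W \ low R sig (Y ∪ W)).card ≤ w →
      ∀ {q : Fd × Fd} {L : List (Fd × Fd)}, q.1.size ≤ h → (∀ t ∈ L.take 1, t.1.size ≤ h) →
      (∀ t ∈ q.1.trees, t.1 = true) → (∀ t ∈ q :: L, FOK p.b p.l 0 t.1 ∧ FOK p.b p.l 0 t.2) →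
      K * (szS L + 1) ≤ q.2.size → szS (q :: L) + C ≤ (Y ∪ W).card → InS R (q :: L) N (Y ∪ W) := by
  obtain ⟨K, hK⟩ := finTL p hp hab hD₀ P
  refine ⟨K, ?_⟩
  intro κU ηU s' hU0 hUκ hηU hs' h lam sig w K1 hlam
  obtain ⟨C, hC⟩ := hK hU0 hUκ hs' h lam sig (w + 2 * sig) (K1 * (2 * p.c0)) hlam
  refine ⟨C, ?_⟩
  intro V R hT Y W N hS hw q L hq hL hqf hcls hKq hsz
  have hmono : ∀ v, Good R κU ηU Y v → Good R κU η Y v := fun v hv C hC hvC hcl =>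
    (hv C hC hvC hcl).trans (mul_le_mul_of_nonneg_right hηU (Nat.cast_nonneg _))
  have h0 : s' * Y.card ≤ ((Y.filter (fun v => N v ∧ Good R κU η Y v ∧ lam ≤ (nI R (Y ∪ W) v).card)).card : ℝ) := by
    refine hS.dense.trans (Nat.cast_le.2 (card_le_card ?_))
    intro v hv
    rw [mem_cg] at hv
    rw [mem_filter]
    exact ⟨hv.1, hv.2.1, hmono v hv.2.2.1, hv.2.2.2⟩
  have h1 : (Y.filter (fun u => ¬ N u ∧ sig ≤ (nI R (Y ∪ W) u).card ∧
        (Y.filter (fun v => N v ∧ R v u ∧ Good R κU η Y v ∧ lam ≤ (nI R (Y ∪ W) v).card)).card ≤ 2 * p.c0)).card ≤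
        K1 * (2 * p.c0) := by
    refine le_trans (card_le_card ?_) (hS.cnt (2 * p.c0))
    intro u hu
    rw [mem_filter] at hu ⊢
    refine ⟨hu.1, hu.2.1, hu.2.2.1, le_trans (card_le_card ?_) hu.2.2.2⟩
    intro v hv
    rw [mem_nI, mem_cg] at hv
    rw [mem_filter]
    exact ⟨hv.1.1, hv.1.2.1, hv.2, hmono v hv.1.2.2.1, hv.1.2.2.2⟩
  have h2 : W.card ≤ w + 2 * sig := by
    have h1 : W ⊆ (W \ low R sig (Y ∪ W)) ∪ (Y ∪ W).filter (fun v => (nI R (Y ∪ W) v).card < sig) := by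
      intro v hv
      by_cases h2 : v ∈ low R sig (Y ∪ W)
      · exact mem_union_right _ h2
      · exact mem_union_left _ (mem_sdiff.2 ⟨hv, h2⟩)
    have h3 := (card_le_card h1).trans (card_union_le _ _)
    have h4 := card_lowin hT (Y ∪ W) sig
    omega
  have h3 : szS (q :: L) + C ≤ Y.card + W.card := by
    rw [← card_union_of_disjoint hS.disj]
    exact hsz
  obtain ⟨y, hy, hN, S, hS1, hS2, hS3⟩ := hC hT (Y := Y) (W := W) (N := N) h0 h1 h2 hq hL hqf hcls hKq h3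
  exact ⟨y, mem_union_left _ hy, hN, S, hS1, hS2, hS3⟩

end AEG
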