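import Pool.Agent.AEG.FinTA
import Pool.Agent.AEB.Absorb

/-!
# Windows with goodness

A vertex which is not good (for weaker constants) is dominated by almost all good vertices. Hence goodness of the first
host can be put into the window.
-/

set_option autoImplicit false

namespace AEG

open Finset AE15 AED AEB
open scoped Classical

variable {V : Type*} {R : V → V → Prop}

/-- **A vertex which is not good is dominated by almost all good vertices** -/
theorem bad_dom (hT : AE32.Tour R) {X S : Finset V} {u : V} {κ η κ' η' : ℝ} (hS : S ⊆ X)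
    (hSG : ∀ v ∈ S, Good R κ η X v) (hbad : ¬ Good R κ' η' X u) (hκ : 0 < κ) (hκ' : 0 ≤ κ') (h1 : 2 * κ' ≤ κ)
    (h2 : η + κ ≤ η') : (S.card : ℝ) ≤ ((S.filter (fun v => R v u)).card : ℝ) + 2 * κ' / κ * X.card + 1 := by
  unfold Good at hbad
  push Not at hbad
  obtain ⟨C, hC, hnC, hcl, hbig⟩ := hbad
  obtain ⟨n, hn⟩ : ∃ n : ℝ, n = (X.card : ℝ) := ⟨_, rfl⟩
  have hn0 : 0 ≤ n := by rw [hn]; exact Nat.cast_nonneg _
  rw [← hn] at hbig ⊢
  -- the vertices of `S ∩ C` have many out-neighbours outside `C`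
  have hout : ∀ v ∈ S ∩ C, κ / 2 * n ≤ ((nO R (X \ C) v).card : ℝ) := by
    intro v hv
    rw [mem_inter] at hv
    by_contra hcon
    push Not at hcon
    have h3 := hSG v hv.1 (C ∪ nO R X v) (union_subset hC nO_sub) subset_union_right (by
      intro z hz hzC
      rw [mem_union, not_or] at hzC
      have h4 := hcl z hz hzC.1
      have h5 : nI R (C ∪ nO R X v) z ⊆ nI R C z ∪ nO R (X \ C) v := by
        intro w hw
        rw [mem_nI, mem_union] at hw
        rw [mem_union, mem_nI, mem_nO, mem_sdiff]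
        by_cases hwC : w ∈ C
        · exact Or.inl ⟨hwC, hw.2⟩
        · right
          rcases hw.1 with h | h
          · exact absurd h hwC
          · exact ⟨⟨(mem_nO.1 h).1, hwC⟩, (mem_nO.1 h).2⟩
      have h6 : ((nI R (C ∪ nO R X v) z).card : ℝ) ≤ (nI R C z).card + (nO R (X \ C) v).card := by
        exact_mod_cast (card_le_card h5).trans (card_union_le _ _)
      rw [← hn] at h4 ⊢
      have h7 : κ' * n ≤ κ / 2 * n := mul_le_mul_of_nonneg_right (by linarith) hn0
      linarith)
    rw [← hn] at h3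
    have h4 : X \ C ⊆ (X \ (C ∪ nO R X v)) ∪ nO R (X \ C) v := by
      intro w hw
      rw [mem_sdiff] at hw
      rw [mem_union, mem_sdiff, mem_union, mem_nO, mem_nO, mem_sdiff]
      by_cases hwv : R v w
      · exact Or.inr ⟨hw, hwv⟩
      · left
        refine ⟨hw.1, ?_⟩
        rintro (h | h)
        · exact hw.2 h
        · exact hwv h.2
    have h5 : ((X \ C).card : ℝ) ≤ (X \ (C ∪ nO R X v)).card + (nO R (X \ C) v).card := by
      exact_mod_cast (card_le_card h4).trans (card_union_le _ _)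
    have h6 : η * n + κ * n ≤ η' * n := by
      rw [← add_mul]
      exact mul_le_mul_of_nonneg_right h2 hn0
    have h7 : κ / 2 * n ≤ κ * n := mul_le_mul_of_nonneg_right (by linarith) hn0
    linarith
  -- counting the arcs from `C` to `X \ C`
  have hcount : κ / 2 * n * (S ∩ C).card ≤ κ' * n * (X \ C).card := by
    have h3 : (∑ v ∈ S ∩ C, (nO R (X \ C) v).card) ≤ ∑ z ∈ X \ C, (nI R C z).card := by
      have e1 : ∀ v : V, (nO R (X \ C) v).card = ∑ z ∈ X \ C, if R v z then 1 else 0 := by
        intro v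
        have e2 : nO R (X \ C) v = (X \ C).filter (fun z => R v z) := by
          ext z
          rw [mem_nO, mem_filter]
        rw [e2, card_filter]
      have e3 : ∀ z : V, (nI R C z).card = ∑ v ∈ C, if R v z then 1 else 0 := by
        intro z
        have e2 : nI R C z = C.filter (fun v => R v z) := by
          ext v
          rw [mem_nI, mem_filter]
        rw [e2, card_filter]
      simp only [e1, e3]
      rw [sum_comm]
      refine sum_le_sum fun z _ => ?_
      exact sum_le_sum_of_subset inter_subset_right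
    have h4 : κ / 2 * n * (S ∩ C).card ≤ ∑ v ∈ S ∩ C, ((nO R (X \ C) v).card : ℝ) := by
      rw [mul_comm, ← nsmul_eq_mul]
      exact card_nsmul_le_sum _ _ _ hout
    have h5 : ∑ z ∈ X \ C, ((nI R C z).card : ℝ) ≤ κ' * n * (X \ C).card := by
      rw [mul_comm, ← nsmul_eq_mul]
      refine sum_le_card_nsmul _ _ _ fun z hz => ?_
      rw [mem_sdiff] at hz
      have := hcl z hz.1 hz.2
      rw [← hn] at this
      exact this.le
    have h6 : (∑ v ∈ S ∩ C, ((nO R (X \ C) v).card : ℝ)) ≤ ∑ z ∈ X \ C, ((nI R C z).card : ℝ) := by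
      exact_mod_cast h3
    linarith
  have hSC : ((S ∩ C).card : ℝ) ≤ 2 * κ' / κ * n := by
    rcases hn0.eq_or_lt with h0 | h0
    · have h3 : X.card = 0 := by
        rw [hn] at h0
        exact_mod_cast h0.symm
      have h4 : (S ∩ C).card = 0 := by
        have := card_le_card ((inter_subset_left (s₁ := S) (s₂ := C)).trans hS)
        omega
      rw [h4, ← h0]
      simp
    · have h3 : ((X \ C).card : ℝ) ≤ n := by
        rw [hn]
        exact_mod_cast card_le_card sdiff_subset
      have h4 : κ' * n * (X \ C).card ≤ κ' * n * n := mul_le_mul_of_nonneg_left h3 (by positivity)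
      have h5 : κ / 2 * (S ∩ C).card * n ≤ κ' * n * n := by linarith
      have h6 : κ / 2 * (S ∩ C).card ≤ κ' * n := le_of_mul_le_mul_right h5 h0
      rw [div_mul_eq_mul_div, le_div_iff₀ hκ]
      linarith
  have hfin : S ⊆ insert u (S.filter (fun v => R v u) ∪ (S ∩ C)) := by
    intro v hv
    rw [mem_insert, mem_union, mem_filter, mem_inter]
    by_cases hvu : v = u
    · exact Or.inl hvu
    · right
      rcases hT.tot v u hvu with h | h
      · exact Or.inl ⟨hv, h⟩
      · exact Or.inr ⟨hv, hnC (mem_nO.2 ⟨hS hv, h⟩)⟩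
  have h3 : (S.card : ℝ) ≤ ((S.filter (fun v => R v u)).card + (S ∩ C).card : ℕ) + 1 := by
    exact_mod_cast (card_le_card hfin).trans ((card_insert_le _ _).trans (Nat.add_le_add_right (card_union_le _ _) 1))
  push_cast at h3
  linarith

/-- **The class, goodness of the host in the window.** `A` is the ambient set in which the in-degrees are counted -/
theorem cls_good (hT : AE32.Tour R) {p : NP} (hp : p.OK) {X A : Finset V} {N N' : V → Prop} {κ η k η' s' : ℝ}
    {lam sig K1 : ℕ} (hXA : X ⊆ A) (hκ : 0 < κ) (hk : 0 ≤ k) (hkκ : 2 * k ≤ κ) (hη : η + κ ≤ η') (hks : 2 * k / κ ≤ s' / 2)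
    (hn : 2 * (p.c0 : ℝ) + 2 ≤ s' / 2 * X.card)
    (hd : s' * X.card ≤ ((X.filter (fun v => N v ∧ Good R κ η X v ∧ lam ≤ (nI R A v).card)).card : ℝ))
    (hc : (X.filter (fun u => ¬ N u ∧ sig ≤ (nI R A u).card ∧
      (X.filter (fun v => N v ∧ R v u ∧ Good R κ η X v ∧ lam ≤ (nI R A v).card)).card ≤ 2 * p.c0)).card ≤ K1)
    (hu : 2 * max lam sig + K1 ≤ p.u0)
    (hN' : ∀ v, N' v ↔ (N v ∧ lam ≤ (nI R A v).card ∧ Good R k η' X v)) (F : Fd) :
    Cl R (Good R κ η X) s' p F X N' := by
  have hGG : ∀ v, Good R κ η X v → Good R k η' X v := by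
    intro v hv C hC hvC hcl
    refine (hv C hC hvC ?_).trans (mul_le_mul_of_nonneg_right (by linarith) (Nat.cast_nonneg _))
    intro z hz hzC
    exact (hcl z hz hzC).trans_le (mul_le_mul_of_nonneg_right (by linarith) (Nat.cast_nonneg _))
  have hD : ClD (Good R κ η X) s' X N' := by
    refine hd.trans (Nat.cast_le.2 (card_le_card ?_))
    intro v hv
    rw [mem_filter] at hv ⊢
    exact ⟨hv.1, hv.2.2.1, (hN' v).2 ⟨hv.2.1, hv.2.2.2, hGG v hv.2.2.1⟩⟩
  obtain ⟨dm, hdm⟩ : ∃ dm : V → Finset V,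
      dm = fun u => X.filter (fun v => N v ∧ R v u ∧ Good R κ η X v ∧ lam ≤ (nI R A v).card) := ⟨_, rfl⟩
  have hdmm : ∀ u v, v ∈ dm u ↔ v ∈ X ∧ N v ∧ R v u ∧ Good R κ η X v ∧ lam ≤ (nI R A v).card := by
    intro u v
    rw [hdm, mem_filter]
  have hdmc : ∀ u, (dm u).card = (X.filter (fun v => N v ∧ R v u ∧ Good R κ η X v ∧ lam ≤ (nI R A v).card)).card := by
    intro u
    rw [hdm]
  have hlarge : ∀ u, 2 * p.c0 < (dm u).card → ∃ v ∈ X, N' v ∧ R v u ∧ Strong R (Good R κ η X) p.c0 p.c X v := by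
    intro u hu
    obtain ⟨v, hv, hv2⟩ := exists_deg_in hT (S := dm u) (c := p.c0) hu
    rw [hdmm] at hv
    obtain ⟨v1, v2, v3, v4, v5⟩ := hv
    refine ⟨v, v1, (hN' v).2 ⟨v2, v5, hGG v v4⟩, v3, ⟨v4, hv2.trans (card_le_card (nI_mono ?_))⟩,
      hp.c_le.trans (hv2.trans (card_le_card (nI_mono ?_)))⟩
    · intro w hw
      exact ((hdmm u w).1 hw).1
    · intro w hw
      rw [mem_filter]
      exact ⟨((hdmm u w).1 hw).1, ((hdmm u w).1 hw).2.2.2.1⟩
  -- the exceptions
  obtain ⟨U, hU⟩ : ∃ U, U = X.filter (fun u => (nI R A u).card < max lam sig) ∪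
      X.filter (fun u => ¬ N u ∧ sig ≤ (nI R A u).card ∧ (dm u).card ≤ 2 * p.c0) := ⟨_, rfl⟩
  have hUc : U.card ≤ 2 * max lam sig + K1 := by
    rw [hU]
    refine (card_union_le _ _).trans (Nat.add_le_add ?_ ?_)
    · exact (card_le_card (filter_subset_filter _ hXA)).trans (card_lowin hT A _)
    · simp only [hdmc]
      exact hc
  have key : ∀ u ∈ X, N' u ∨ u ∈ U ∨ ∃ v ∈ X, N' v ∧ R v u ∧ Strong R (Good R κ η X) p.c0 p.c X v := by
    intro u hu
    by_cases h1 : (nI R A u).card < max lam sig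
    · right; left
      rw [hU]
      exact mem_union_left _ (mem_filter.2 ⟨hu, h1⟩)
    rw [not_lt, max_le_iff] at h1
    by_cases h2 : N u
    · by_cases h3 : Good R k η' X u
      · exact Or.inl ((hN' u).2 ⟨h2, h1.1, h3⟩)
      · right; right
        apply hlarge u
        have h4 := bad_dom hT (S := X.filter (fun v => N v ∧ Good R κ η X v ∧ lam ≤ (nI R A v).card)) (filter_subset _ _)
          (fun v hv => (mem_filter.1 hv).2.2.1) h3 hκ hk hkκ hη
        have h5 : (X.filter (fun v => N v ∧ Good R κ η X v ∧ lam ≤ (nI R A v).card)).filter (fun v => R v u) ⊆ dm u := by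
          intro v hv
          rw [mem_filter, mem_filter] at hv
          rw [hdmm]
          exact ⟨hv.1.1, hv.1.2.1, hv.2, hv.1.2.2.1, hv.1.2.2.2⟩
        have h6 : (((X.filter (fun v => N v ∧ Good R κ η X v ∧ lam ≤ (nI R A v).card)).filter
            (fun v => R v u)).card : ℝ) ≤ (dm u).card := by
          exact_mod_cast card_le_card h5
        have h8 : 2 * k / κ * X.card ≤ s' / 2 * X.card := mul_le_mul_of_nonneg_right hks (Nat.cast_nonneg _)
        have h9 : (2 * (p.c0 : ℝ)) < (dm u).card := by linarith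
        exact_mod_cast h9
    · by_cases h3 : (dm u).card ≤ 2 * p.c0
      · right; left
        rw [hU]
        exact mem_union_right _ (mem_filter.2 ⟨hu, h2, h1.2, h3⟩)
      · right; right
        exact hlarge u (not_le.1 h3)
  refine ⟨hD, fun _ => ⟨hD, U, ∅, ?_, by simp, ?_, ?_⟩⟩
  · unfold NP.ub
    split_ifs <;> omega
  · intro u hu
    rcases key u hu with h | h | ⟨v, h1, h2, h3, h4⟩
    · exact Or.inl h
    · exact Or.inr (Or.inr (Or.inl h))
    · exact Or.inr (Or.inr (Or.inr ⟨v, h1, h2, h3, h4.1⟩))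
  · intro u hu
    rcases key u hu with h | h | ⟨v, h1, h2, h3, h4⟩
    · exact Or.inl h
    · exact Or.inr (Or.inr (Or.inl h))
    · exact Or.inr (Or.inr (Or.inr (Or.inr ⟨v, h1, h2, h3, h4⟩)))

/-! ### The size of the in-closure -/

private theorem fg_blk_app (F G : Fd) : blk (app F G) = blk F + blk G := by
  induction F with
  | nil => simp [app, blk]
  | node d c s _ ihs => simp only [app, blk, ihs]; omega

theorem fg_blk_chF {b l a : ℕ} (hab : ab b l ≤ a) {q : Fd × Fd} (hq : FOK b l 0 q.2) (L : List (Fd × Fd)) :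
    blk (chF q L) ≤ q.1.size + a := by
  have h1 : blk (toF L) = 0 := by
    cases L with
    | nil => rfl
    | cons q L => simp [toF, blk]
  have h2 := blk_le_size (flip q.1)
  rw [flip_size] at h2
  have h3 := FOK.blk_lt_a hq (Nat.zero_le _) hab
  unfold chF
  rw [fg_blk_app, fg_blk_app, h1]
  omega

end AEG
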