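import Pool.Agent.AEB.ItemsB
import Pool.Agent.AEB.PieceB
import Pool.Agent.AEF.LightHost
import Pool.Agent.AEX.Four

/-!
# Items of any kind at hosts

An item is a tree (given by its children forest) whose root has to be an out-neighbour of a host. `ItOk` says that every
representing subset with at least `t` vertices contains it. Items of different kinds are embedded together in disjoint
pieces.
-/

namespace AEG

open Finset AE15 AED AEB
open scoped Classical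

/-- every representing subset of `A` with at least `t` vertices contains the tree with children forest `D`, its root being
an out-neighbour of `z` -/
def ItOk {V : Type*} (R : V → V → Prop) (A : Finset V) (𝓕 : Finset (Finset V)) (ε t : ℝ) (z : V) (D : Fd) : Prop :=
  ∀ P ⊆ A, t ≤ P.card → Rep A 𝓕 ε P → ∃ x B, R z x ∧ x ∉ B ∧ insert x B ⊆ P ∧ Emb R D x B

theorem ItOk.mono {V : Type*} {R : V → V → Prop} {A : Finset V} {𝓕 𝓕' : Finset (Finset V)} {ε t : ℝ} {z : V} {D : Fd}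
    (h : ItOk R A 𝓕' ε t z D) (hs : 𝓕' ⊆ 𝓕) : ItOk R A 𝓕 ε t z D :=
  fun P hP hne hr => h P hP hne (fun F hF => hr F (hs hF))

/-- the item can be embedded in every large subset of `X`, up to a family of at most `7 |X| ^ 2` test sets -/
def ItX {V : Type*} (R : V → V → Prop) (X : Finset V) (ε μ t : ℝ) (z : V) (D : Fd) : Prop :=
  ∃ 𝓕 : Finset (Finset V), 𝓕.card ≤ 7 * X.card ^ 2 ∧
    ∀ A ⊆ X, ((X \ A).card : ℝ) ≤ μ * X.card → z ∉ A → ItOk R A 𝓕 ε t z D

private theorem embI_of_fin_aux {V : Type*} {R : V → V → Prop} (L : List (V × Fd)) (S : Fin L.length → Finset V)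
    (hS : ∀ i, ∃ x B, R (L.get i).1 x ∧ x ∉ B ∧ S i = insert x B ∧ Emb R (L.get i).2 x B)
    (hd : ∀ i j, i ≠ j → Disjoint (S i) (S j)) : EmbI R L (univ.biUnion S) := by
  induction L with
  | nil =>
    change univ.biUnion S = ∅
    ext y
    simp only [mem_biUnion, mem_univ, true_and, notMem_empty, iff_false, not_exists]
    intro i
    exact i.elim0
  | cons p L ih =>
    refine ⟨S ⟨0, Nat.succ_pos _⟩, univ.biUnion (fun i : Fin L.length => S i.succ), ?_, ?_, hS ⟨0, Nat.succ_pos _⟩, ?_⟩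
    · rw [disjoint_biUnion_right]
      intro i _
      exact hd _ _ (by intro h; simp [Fin.ext_iff] at h)
    · ext y
      simp only [mem_biUnion, mem_univ, true_and, mem_union]
      constructor
      · rintro ⟨i, hi⟩
        rcases Fin.eq_zero_or_eq_succ i with rfl | ⟨j, rfl⟩
        · exact Or.inl hi
        · exact Or.inr ⟨j, hi⟩
      · rintro (h | ⟨j, hj⟩)
        · exact ⟨_, h⟩
        · exact ⟨_, hj⟩
    · exact ih (fun i => S i.succ) (fun i => hS i.succ) (fun i j hij => hd _ _ (by simpa using hij))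

/-- **Items at hosts** -/
theorem host_itemsG {ε c : ℝ} (hε : 0 < ε) (hε1 : ε ≤ 1) (hc : 0 < c) (m : ℕ) : ∃ n₁ : ℕ,
    ∀ {V : Type} {R : V → V → Prop} (A : Finset V) (𝓕 : Finset (Finset V)), n₁ ≤ A.card → 𝓕.card ≤ A.card ^ 5 →
      ∀ (L : List (V × Fd)) (t : V × Fd → ℝ), L.length ≤ m → (∀ q ∈ L, 0 ≤ t q) →
        (∀ q ∈ L, ItOk R A 𝓕 ε (t q) q.1 q.2) → (L.map t).sum ≤ (1 - 2 * c) * A.card →
        ∃ S Q : Finset V, S ⊆ A ∧ Q ⊆ A ∧ Disjoint S Q ∧ EmbI R L S ∧ c * A.card ≤ Q.card ∧ Rep A 𝓕 ε Q := by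
  obtain ⟨n₁, hn₁⟩ := exists_pieces hε hε1 hc m
  refine ⟨n₁, ?_⟩
  intro V R A 𝓕 hA hF L t hLm ht0 hOk hsz
  have hsum : ∑ i : Fin L.length, t (L.get i) ≤ (1 - 2 * c) * A.card := by
    refine le_trans (le_of_eq ?_) hsz
    rw [← List.sum_ofFn]
    congr 1
    apply List.ext_getElem
    · simp
    · intro i h8 h9
      simp
  obtain ⟨P, Q, hPA, hPne, hPd, hPQ, hQA, hPs, hPR, hQc, hQR⟩ := hn₁ A 𝓕 hA hF L.length (fun i => t (L.get i)) hLm
    (fun i => ht0 _ (List.get_mem L i)) hsum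
  have key : ∀ i : Fin L.length, ∃ S ⊆ P i,
      ∃ x B, R (L.get i).1 x ∧ x ∉ B ∧ S = insert x B ∧ Emb R (L.get i).2 x B := by
    intro i
    obtain ⟨x, B, h1, h2, h3, h4⟩ := hOk _ (List.get_mem L i) (P i) (hPA i) (hPs i) (hPR i)
    exact ⟨insert x B, h3, x, B, h1, h2, rfl, h4⟩
  choose S hSP hSE using key
  have hSd : ∀ i j, i ≠ j → Disjoint (S i) (S j) := fun i j hij =>
    disjoint_of_subset_left (hSP i) (disjoint_of_subset_right (hSP j) (hPd i j hij))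
  refine ⟨univ.biUnion S, Q, ?_, hQA, ?_, embI_of_fin_aux L S hSE hSd, hQc, hQR⟩
  · rw [biUnion_subset]
    exact fun i _ => (hSP i).trans (hPA i)
  · rw [disjoint_biUnion_left]
    exact fun i _ => disjoint_of_subset_left (hSP i) (hPQ i)

/-- items satisfying the main statement `EE`, at hosts for which the class holds in representing sets -/
theorem ItOk.of_okB {V : Type*} {R : V → V → Prop} {A : Finset V} {𝓕 : Finset (Finset V)} {ε κ η s K C : ℝ} {p : NP}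
    {m₁ : ℕ} {z : V} {D : Fd} (hK : 0 ≤ K) (hC : 0 ≤ C) (hη1 : 14 * η ≤ 1)
    (hOk : OkB R κ η s p A 𝓕 ε m₁ (R z)) (hEE : EE R κ η s p K C D) :
    ItOk R A 𝓕 ε ((K * (D.size + 1) + C) / (1 - 7 * η) + m₁) z D := by
  intro P hP ht hrep
  have h5 : 0 < 1 - 7 * η := by linarith
  have h8 : (0 : ℝ) ≤ (K * (D.size + 1) + C) / (1 - 7 * η) := by positivity
  have h9 : m₁ ≤ P.card := by
    have : (m₁ : ℝ) ≤ P.card := by linarith
    exact_mod_cast this
  obtain ⟨P', hP', hcard, hD, hcov⟩ := hOk P hP h9 hrep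
  have h6 : K * (D.size + 1) + C ≤ P'.card := by
    refine le_trans ?_ hcard
    have h10 : (K * (D.size + 1) + C) / (1 - 7 * η) ≤ P.card := by
      have : (0 : ℝ) ≤ m₁ := Nat.cast_nonneg _
      linarith
    rw [div_le_iff₀ h5] at h10
    linarith
  obtain ⟨x, hx, B, hB, hxB, hN, hE⟩ := hEE P' _ h6 (Cl_of_Ok p _ hD hcov)
  exact ⟨x, B, hN, hxB, insert_subset (hP' hx) (hB.trans hP'), hE⟩

/-- the same at super hosts -/
theorem itX_super {V : Type} {R : V → V → Prop} (hT : AE32.Tour R) (p : NP) {X Y : Finset V} {y : V}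
    {κ η s κ₁ η₁ τ σ₂ μ ε : ℝ} {m : ℕ} (hY : Y ⊆ X) (hXY : ((X \ Y).card : ℝ) ≤ 5 * η * X.card)
    (hSY : SuperG R κ₁ η₁ τ Y y) (hκ : 0 < κ) (hη : 0 < η) (hη1 : η ≤ 1 / 40) (hκ₁ : 0 < κ₁) (hκ₁' : κ₁ ≤ 1)
    (hη₁ : 0 < η₁) (hσ₂ : 0 < σ₂) (hμ : 0 < μ) (hε : 0 < ε) (h1 : 4 * η₁ ≤ η) (h2 : 2 * μ ≤ σ₂) (h3 : 2 * σ₂ ≤ τ)
    (h4 : 8 * ε ≤ σ₂) (h5 : 4 ≤ σ₂ * X.card) (h6 : κ ≤ κ₁ / 2) (h7 : 8 * σ₂ ≤ κ₁) (h8 : 4 * σ₂ ≤ η)
    (h9 : ε ≤ η₁) (h10 : s ≤ τ / 2) (h11 : 16 * ((p.c : ℝ) + p.c0 + 2) ≤ σ₂ * m) {K C : ℝ} (hK : 0 ≤ K)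
    (hC : 0 ≤ C) {D : Fd} (hEE : EE R κ η s p K C D) :
    ItX R X ε μ ((K * (D.size + 1) + C) / (1 - 7 * η) + m) y D := by
  obtain ⟨𝓕, a1, a2⟩ := piece_lemmaB hT p (σ₂ := σ₂) (μ := μ) (ε := ε) (κ := κ) (s := s) (m := m) hY hXY hSY hκ hη
    (by linarith) hκ₁ hκ₁' hη₁ hσ₂ hμ hε (by linarith) (by linarith) (by linarith) (by linarith)
    h5 h6 h7 (by linarith) h9 h10 h11
  exact ⟨𝓕, a1, fun A hA hXA hy => ItOk.of_okB hK hC (by linarith) (a2 A hA hy hXA) hEE⟩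

/-- **Arbitrary trees at hosts with many out-neighbours** -/
theorem itX_thin {V : Type} {R : V → V → Prop} (hT : AE32.Tour R) {X : Finset V} {z : V} {k μ ε : ℝ} (hX : 1 ≤ X.card)
    (hk : 0 < k) (hμ : μ ≤ k / 4) (hμ1 : μ ≤ 1 / 2) (hε : ε ≤ k / 4)
    (hz : k * X.card ≤ ((nO R X z).card : ℝ)) {b : ℕ} {D : Fd} (hl : D.len ≤ b) (hd : D.Deg b) :
    ItX R X ε μ (8 / k * (D.size + 1)) z D := by
  refine ⟨{nO R X z}, ?_, ?_⟩
  · rw [card_singleton]
    have : 1 ^ 2 ≤ X.card ^ 2 := Nat.pow_le_pow_left hX 2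
    omega
  · intro A hA hXA _ P hP ht hrep
    obtain ⟨n, hnd⟩ : ∃ n : ℝ, n = (X.card : ℝ) := ⟨_, rfl⟩
    rw [← hnd] at hXA hz
    have hn1 : 1 ≤ n := by rw [hnd]; exact_mod_cast hX
    have hXc : n = A.card + (X \ A).card := by
      have h1 := card_sdiff_add_card_eq_card hA
      rw [hnd, ← h1]
      push_cast
      ring
    have hA0 : 0 < (A.card : ℝ) := by
      have : μ * n ≤ 1 / 2 * n := mul_le_mul_of_nonneg_right hμ1 (by linarith)
      linarith
    have hAn : (A.card : ℝ) ≤ n := by rw [hnd]; exact_mod_cast card_le_card hA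
    have h1 := hrep (nO R X z) (mem_singleton_self _)
    have h2 : (k - μ) * n ≤ ((nO R X z ∩ A).card : ℝ) := by
      have h3 : (nO R X z).card ≤ (nO R X z ∩ A).card + (X \ A).card := by
        refine le_trans (card_le_card ?_) (card_union_le _ _)
        intro v hv
        rw [mem_union, mem_inter, mem_sdiff]
        by_cases h : v ∈ A
        · exact Or.inl ⟨hv, h⟩
        · exact Or.inr ⟨nO_sub hv, h⟩
      have h4 : ((nO R X z).card : ℝ) ≤ (nO R X z ∩ A).card + (X \ A).card := by exact_mod_cast h3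
      linarith
    have h3 : k - μ ≤ ((nO R X z ∩ A).card : ℝ) / A.card := by
      rw [le_div_iff₀ hA0]
      refine le_trans (mul_le_mul_of_nonneg_left hAn (by linarith)) h2
    have h4 : k / 2 * P.card ≤ ((nO R X z ∩ P).card : ℝ) := by
      refine le_trans (mul_le_mul_of_nonneg_right ?_ (Nat.cast_nonneg _)) h1
      linarith
    have h5 : 4 * ((D.size : ℝ) + 1) ≤ ((nO R X z ∩ P).card : ℝ) := by
      refine le_trans ?_ h4
      have h6 : k / 2 * (8 / k * ((D.size : ℝ) + 1)) ≤ k / 2 * P.card := mul_le_mul_of_nonneg_left ht (by positivity)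
      have h7 : k / 2 * (8 / k * ((D.size : ℝ) + 1)) = 4 * ((D.size : ℝ) + 1) := by
        field_simp
        ring
      linarith
    obtain ⟨x, hx, B, hB, hxB, -, hE⟩ := AEX.un_four hT b D hl hd (nO R X z ∩ P) (by linarith)
    refine ⟨x, B, ?_, hxB, ?_, hE⟩
    · exact (mem_nO.1 (mem_inter.1 hx).1).2
    · intro v hv
      rcases mem_insert.1 hv with rfl | hv
      · exact (mem_inter.1 hx).2
      · exact (mem_inter.1 (hB hv)).2

/-- a good vertex has many out-neighbours -/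
theorem Good.deg {V : Type*} {R : V → V → Prop} {X : Finset V} {z : V} {κ η : ℝ} (h : Good R κ η X z) (hκη : κ + η < 1)
    (hX : 1 ≤ X.card) : κ * X.card ≤ ((nO R X z).card : ℝ) := by
  by_contra hc
  push Not at hc
  have h1 := h (nO R X z) nO_sub (Subset.refl _) (fun v _ _ => by
    refine lt_of_le_of_lt ?_ hc
    exact_mod_cast card_le_card nI_sub)
  have h2 : (X.card : ℝ) = (X \ nO R X z).card + (nO R X z).card := by
    exact_mod_cast (card_sdiff_add_card_eq_card nO_sub).symm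
  have h3 : (1 : ℝ) ≤ X.card := by exact_mod_cast hX
  nlinarith

/-- **Arbitrary trees with a small in-closure of the root at good hosts** -/
theorem itX_lt {V : Type} {R : V → V → Prop} {X : Finset V} {z : V} {b m₁ : ℕ} {ρ η γ ε μ : ℝ}
    (hρ : 0 ≤ ρ) (hη1 : 16 * η ≤ 1) (hγ : 0 < γ)
    (h : ∃ 𝓕 : Finset (Finset V), 𝓕.card ≤ 6 * X.card ^ 2 ∧ (∀ F ∈ 𝓕, F ⊆ X) ∧
      ∀ A ⊆ X, ((X \ A).card : ℝ) ≤ μ * X.card → AEF.OkL R b ρ (8 * η) γ m₁ A 𝓕 ε (R z))
    {D : Fd} (hl : D.len ≤ b) (hd : D.Deg b) :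
    ItX R X ε μ (ρ * (D.size + 1) / (1 - 8 * η) + ρ * (blk D + 1) / γ + m₁) z D := by
  obtain ⟨𝓕, h1, -, h2⟩ := h
  refine ⟨𝓕, h1.trans (Nat.mul_le_mul_right _ (by norm_num)), fun A hA hXA _ P hP ht hrep => ?_⟩
  have h3 : 0 < 1 - 8 * η := by linarith
  have h4 : (0 : ℝ) ≤ ρ * (D.size + 1) / (1 - 8 * η) := by positivity
  have h5 : (0 : ℝ) ≤ ρ * (blk D + 1) / γ := by positivity
  have h6 : (0 : ℝ) ≤ m₁ := Nat.cast_nonneg _
  have h7 : m₁ ≤ P.card := by
    have : (m₁ : ℝ) ≤ P.card := by linarith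
    exact_mod_cast this
  obtain ⟨x, hx, B, hB, hxB, hN, hE⟩ := h2 A hA hXA P hP h7 hrep D hl hd (by
    have : ρ * (D.size + 1) / (1 - 8 * η) ≤ P.card := by linarith
    rw [div_le_iff₀ h3] at this
    linarith) (by
    have : ρ * (blk D + 1) / γ ≤ P.card := by linarith
    rw [div_le_iff₀ hγ] at this
    linarith)
  exact ⟨x, B, hN, hxB, insert_subset hx hB, hE⟩

end AEG
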