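import Pool.Agent.AEG.PackTwo
import Pool.Agent.AEG.ChainE
import Pool.Agent.AEG.GLinM
import Pool.Agent.AEG.HandS
import Pool.Agent.AEG.Pred
import Pool.Agent.H12AE.Half

/-!
# The last cluster, both parts of linear size
-/

set_option autoImplicit false

namespace AEG

open Finset AE15 AED AEB SPD
open scoped Classical

variable {V : Type} {R : V → V → Prop}

/-- the largest forest first -/
theorem exists_largest {L : List (V × Fd)} (h : L ≠ []) : ∃ x L', L.Perm (x :: L') ∧ ∀ p ∈ L', p.2.size ≤ x.2.size := by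
  obtain ⟨x, hx, hm⟩ := exists_max_image L.toFinset (fun p => p.2.size) (by
    rw [List.toFinset_nonempty_iff]
    exact h)
  rw [List.mem_toFinset] at hx
  refine ⟨x, L.erase x, List.perm_cons_erase hx, fun p hp => hm p ?_⟩
  rw [List.mem_toFinset]
  exact List.mem_of_mem_erase hp

theorem fl_totB_perm {L L' : List (V × Fd)} (h : L.Perm L') : totB L = totB L' := by
  unfold totB
  exact (h.map _).sum_eq

theorem totB_zip {f : Fd × Fd → Fd} {ys : List V} {G : List (Fd × Fd)} (h : ys.length = G.length) :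
    totB ((ys.zip G).map (fun p => (p.1, f p.2))) = (G.map (fun q => (f q).size)).sum := by
  unfold totB
  rw [List.map_map]
  have h1 : (ys.zip G).map Prod.snd = G := List.map_snd_zip h.symm.le
  conv_rhs => rw [← h1]
  rw [List.map_map]
  rfl

/-- the counts in the form used for the side which is prepared first -/
theorem PackH.toY (hT : AE32.Tour R) {b l N K Mc e c₀ : ℕ} {κc ξ₀ s₁ τ₁ η : ℝ} {U P : Finset V} {y : V} {F : Fd}
    {os : List (V × Fd)} {t : ℝ} (h : PackH R b l N K Mc e κc ξ₀ s₁ τ₁ η U P y F os t)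
    (hc : ((2 * c₀ : ℕ) : ℝ) ≤ τ₁ * P.card) :
    PackY R b l N K (Mc * (2 * c₀) + e) c₀ κc ξ₀ s₁ η U P P y F os t := by
  refine ⟨Subset.refl _, h.sub, h.len, h.fok, h.flag, h.osF, h.yU, h.yP, h.osU, h.lin0, h.rea, h.lin, ?_, h.reaos,
    h.ht⟩
  refine le_trans (card_le_card ?_) (h.cnt (2 * c₀) hc)
  intro u hu
  rw [mem_filter] at hu ⊢
  refine ⟨hu.1, hu.2.1, ?_⟩
  by_contra hd
  push Not at hd
  apply hu.2.2
  obtain ⟨Wk, hWk⟩ : ∃ Wk : Finset V, Wk = P.filter (fun w => Rea R U P (κc * U.card) t w) := ⟨_, rfl⟩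
  have hlow := card_lowin hT Wk c₀
  have h2 : ((P.filter (fun w => R y w ∧ R w u ∧ Rea R U P (κc * U.card) t w)) \
      (Wk.filter (fun v => (nI R Wk v).card < c₀))).Nonempty := by
    rw [← card_pos]
    have := le_card_sdiff (Wk.filter (fun v => (nI R Wk v).card < c₀))
      (P.filter (fun w => R y w ∧ R w u ∧ Rea R U P (κc * U.card) t w))
    omega
  obtain ⟨w, hw⟩ := h2
  rw [mem_sdiff, mem_filter, mem_filter, not_and, not_lt] at hw
  obtain ⟨⟨h3, h4, h5, h6⟩, h7⟩ := hw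
  have h8 : c₀ ≤ (nI R Wk w).card := h7 (by rw [hWk, mem_filter]; exact ⟨h3, h6⟩)
  refine ⟨w, h3, h4, h5, h6, h8.trans (card_le_card ?_)⟩
  intro z hz
  rw [mem_nI, hWk, mem_filter] at hz
  rw [mem_filter]
  exact ⟨hz.1.1, hz.2, hz.1.2⟩

/-- a copy of the rest of the line behind the last host, inside a given set -/
theorem exists_rest (hT : AE32.Tour R) (rest : List (Fd × Fd)) {y : V} {W : Finset V} (hW : ∀ w ∈ W, R y w)
    (hc : 4 * szS rest ≤ W.card) : ∃ T ⊆ W, T.card = szS rest ∧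
      ((rest = [] ∧ T = ∅) ∨ ∃ z S', z ∉ S' ∧ T = insert z S' ∧ R y z ∧ EmbS R rest z S') := by
  cases rest with
  | nil => exact ⟨∅, empty_subset _, by simp [szS], Or.inl ⟨rfl, rfl⟩⟩
  | cons q L =>
    obtain ⟨z, hz, -, S', hS', hzS, hE⟩ := embS_of_in q L (tree_four hT (chF q L) (X := W) (by
      rw [chF_size]
      exact hc))
    refine ⟨insert z S', insert_subset hz hS', ?_, Or.inr ⟨z, S', hzS, rfl, hW z hz, hE⟩⟩
    rw [card_insert_of_notMem hzS]
    exact hE.card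

/-- the last cluster from its pieces -/
theorem fin_glue {X S₁ S₂ T : Finset V} {ys : List V} {G rest : List (Fd × Fd)} (hG : G ≠ [])
    (hlen : ys.length = G.length) (hnd : ys.Nodup) (hch : ys.IsChain R) (hX : ∀ y ∈ ys, y ∈ X) {yl : V}
    (hyl : ys.getLast? = some yl) (h1 : EmbAllB (rv R) ((ys.zip G).map (fun p => (p.1, p.2.1))) S₁)
    (h2 : EmbAllB R ((ys.zip G).map (fun p => (p.1, p.2.2))) S₂) (hS₁ : S₁ ⊆ X) (hS₂ : S₂ ⊆ X) (hTX : T ⊆ X)
    (h3 : Disjoint S₁ S₂) (h4 : Disjoint S₁ ys.toFinset) (h5 : Disjoint S₂ ys.toFinset) (h6 : Disjoint S₁ T)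
    (h7 : Disjoint S₂ T) (h8 : Disjoint T ys.toFinset)
    (h9 : (rest = [] ∧ T = ∅) ∨ ∃ z S', z ∉ S' ∧ T = insert z S' ∧ R yl z ∧ EmbS R rest z S') :
    ∃ y ∈ X, ∃ S ⊆ X, y ∉ S ∧ EmbS R (G ++ rest) y S := by
  have hfst : (ys.zip G).map Prod.fst = ys := List.map_fst_zip hlen.le
  have hsnd : (ys.zip G).map Prod.snd = G := List.map_snd_zip hlen.symm.le
  have hne : ys.zip G ≠ [] := by
    intro h
    rw [h] at hsnd
    exact hG hsnd.symm
  have hl : ((ys.zip G).getLast hne).1 = yl := by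
    have h10 : ys.getLast? = some ((ys.zip G).getLast hne).1 := by
      conv_lhs => rw [← hfst]
      rw [List.getLast?_map, List.getLast?_eq_getLast_of_ne_nil hne]
      rfl
    rw [hyl] at h10
    exact (Option.some.inj h10).symm
  have hE := embS_chain hne (SA := S₁) (SD := S₂) (T := T) (L' := rest) (by rw [hfst]; exact hnd)
    (by rw [hfst]; exact hch) h1 h2 h3 (by
      intro p hp
      have h10 : p.1 ∈ ys.toFinset := by
        rw [List.mem_toFinset]
        exact (List.of_mem_zip (a := p.1) (b := p.2) hp).1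
      exact ⟨fun h => disjoint_left.1 h4 h h10, fun h => disjoint_left.1 h5 h h10⟩) (by rw [hl]; exact h9) (by
      rw [hfst, disjoint_union_right, disjoint_union_right]
      exact ⟨h8, h6.symm, h7.symm⟩)
  rw [hfst, hsnd] at hE
  refine ⟨_, ?_, _, ?_, notMem_erase _ _, hE⟩
  · apply hX
    exact (List.of_mem_zip (List.head_mem hne)).1
  · refine (erase_subset _ _).trans (union_subset (union_subset ?_ (union_subset hS₁ hS₂)) hTX)
    intro v hv
    exact hX v (List.mem_toFinset.1 hv)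

/-- **The last cluster, both parts of linear size.** -/
theorem fin_lin (b l N : ℕ) (hb : 1 ≤ b) (hN : 1 ≤ N) {κ : ℝ} (hκ : 0 < κ) : ∃ (δ : ℝ) (C : ℕ), 0 < δ ∧
    ∀ {V : Type} {R : V → V → Prop}, AE32.Tour R → ∀ (G rest : List (Fd × Fd)) (X : Finset V), G ≠ [] → G.length ≤ N →
      (∀ q ∈ G, FOK b l 0 q.1 ∧ FOK b l 0 q.2 ∧ (∀ t ∈ q.1.trees, t.1 = true) ∧ ∀ t ∈ q.2.trees, t.1 = true) →
      szS (G ++ rest) + C ≤ X.card → κ * X.card ≤ (((G.map (fun q => q.1.size)).sum : ℕ) : ℝ) →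
      κ * X.card ≤ (((G.map (fun q => q.2.size)).sum : ℕ) : ℝ) → ((szS rest : ℕ) : ℝ) ≤ δ * X.card →
      ∃ y ∈ X, ∃ S ⊆ X, y ∉ S ∧ EmbS R (G ++ rest) y S := by
  obtain ⟨c₀, η, hη0, hη8, hpack⟩ := packTwo b l N 1 hb hN le_rfl
  obtain ⟨κ', hκ'⟩ : ∃ κ' : ℝ, κ' = min κ 1 := ⟨_, rfl⟩
  have hκ'0 : 0 < κ' := by rw [hκ']; exact lt_min hκ one_pos
  have hκ'κ : κ' ≤ κ := by rw [hκ']; exact min_le_left _ _
  have hκ'1 : κ' ≤ 1 := by rw [hκ']; exact min_le_right _ _
  obtain ⟨β, hβ⟩ : ∃ β : ℝ, β = η * κ' / 4 := ⟨_, rfl⟩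
  have hβ0 : 0 < β := by rw [hβ]; positivity
  have hβη : β ≤ η / 4 := by
    have : η * κ' ≤ η * 1 := mul_le_mul_of_nonneg_left hκ'1 hη0.le
    rw [hβ]
    linarith
  have hβκ : β ≤ κ' / 4 := by
    have : η * κ' ≤ 1 * κ' := mul_le_mul_of_nonneg_right (by linarith) hκ'0.le
    rw [hβ]
    linarith
  have hβ1 : β ≤ 1 / 8 := by linarith
  obtain ⟨κ₀, hκ₀⟩ : ∃ κ₀ : ℝ, κ₀ = β / 20 := ⟨_, rfl⟩
  have hκ₀0 : 0 < κ₀ := by rw [hκ₀]; positivity
  have hκ₀1 : κ₀ ≤ 1 := by rw [hκ₀]; linarith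
  have hκc1 : κ₀ ^ 2 / 4 ≤ 1 := by nlinarith
  obtain ⟨Cp, δp, hδp, hpack⟩ := hpack 16 (16 * (2 * c₀) + 4 * N) (κ₀ ^ 2 / 4) (κ' / 2) (β / 16) (β / 32) (by positivity)
    hκc1 (by positivity) (by linarith) (by positivity) (by positivity)
  obtain ⟨Kc, hKc⟩ : ∃ Kc : ℝ, Kc = 4 + 4 * N + 8 / β := ⟨_, rfl⟩
  obtain ⟨cc, hclass⟩ := Pool.Agent.H12AE.exists_class 2 Kc 1 le_rfl
  obtain ⟨n₁, hn₁⟩ := exists_big [(((8 + 4 * N : ℕ) : ℝ), κ₀), (((2 * c₀ : ℕ) : ℝ), β / 32 * (κ' / 2)),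
      ((cc : ℝ), β * κ' / 16)] (by
    intro q hq
    simp only [List.mem_cons, List.not_mem_nil, or_false] at hq
    rcases hq with rfl | rfl | rfl
    · exact hκ₀0
    · show 0 < β / 32 * (κ' / 2)
      positivity
    · show 0 < β * κ' / 16
      positivity)
  refine ⟨min δp (β * κ' / 256), 2 * Cp + N + n₁ + 2, lt_min hδp (by positivity), ?_⟩
  intro V R hT G rest X hG hGN hcl hsz hA hD hrest
  have hT' : AE32.Tour (rv R) := rv_tour hT
  obtain ⟨n, hn⟩ : ∃ n : ℝ, n = (X.card : ℝ) := ⟨_, rfl⟩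
  obtain ⟨m, hm⟩ : ∃ m : ℕ, m = G.length := ⟨_, rfl⟩
  obtain ⟨Q, hQ⟩ : ∃ Q : ℕ, Q = (G.map (fun q => q.1.size)).sum := ⟨_, rfl⟩
  obtain ⟨O, hO⟩ : ∃ O : ℕ, O = (G.map (fun q => q.2.size)).sum := ⟨_, rfl⟩
  have hszG : szS (G ++ rest) = Q + O + m + szS rest := by
    have h1 : ∀ L : List (Fd × Fd), szS L = (L.map (fun q => q.1.size)).sum + (L.map (fun q => q.2.size)).sum +
        L.length := by
      intro L
      induction L with
      | nil => simp [szS]
      | cons q L ih =>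
        rw [szS_cons, ih]
        simp only [List.map_cons, List.sum_cons, List.length_cons]
        omega
    have h2 : szS (G ++ rest) = szS G + szS rest := by
      unfold szS
      rw [List.map_append, List.sum_append]
    rw [h2, h1 G, hQ, hO, hm]
  rw [← hQ, ← hn] at hA
  rw [← hO, ← hn] at hD
  rw [← hn] at hrest
  have hn0 : 0 ≤ n := by rw [hn]; exact Nat.cast_nonneg _
  have hmN : m ≤ N := by rw [hm]; exact hGN
  have hm1 : 1 ≤ m := by
    rw [hm]
    exact List.length_pos_iff.2 hG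
  have hmNR : (m : ℝ) ≤ N := by exact_mod_cast hmN
  have hXn := hn₁ X.card (by omega)
  rw [← hn] at hXn
  have g1 : ((8 + 4 * N : ℕ) : ℝ) ≤ κ₀ * n := hXn (_, _) (by simp)
  have g2 : ((2 * c₀ : ℕ) : ℝ) ≤ β / 32 * (κ' / 2) * n := hXn (((2 * c₀ : ℕ) : ℝ), β / 32 * (κ' / 2)) (by simp)
  have g3 : (cc : ℝ) ≤ β * κ' / 16 * n := hXn ((cc : ℝ), β * κ' / 16) (by simp)
  push_cast at g1
  have hκ'A : κ' * n ≤ Q := (mul_le_mul_of_nonneg_right hκ'κ hn0).trans hA
  have hκ'D : κ' * n ≤ O := (mul_le_mul_of_nonneg_right hκ'κ hn0).trans hD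
  have hβn : β * n ≤ κ' / 4 * n := mul_le_mul_of_nonneg_right hβκ hn0
  have hszR : (Q : ℝ) + O + m + szS rest + (2 * Cp + N + n₁ + 2) ≤ n := by
    rw [hn]
    exact_mod_cast (by omega : Q + O + m + szS rest + (2 * Cp + N + n₁ + 2) ≤ X.card)
  have hCp0 : (0 : ℝ) ≤ Cp := Nat.cast_nonneg _
  have hn₁0 : (0 : ℝ) ≤ n₁ := Nat.cast_nonneg _
  have hN0 : (0 : ℝ) ≤ N := Nat.cast_nonneg _
  have hr0 : (0 : ℝ) ≤ szS rest := Nat.cast_nonneg _
  -- the cut
  obtain ⟨P₁, P₂, ys, c1, c2, c3, c4, c5, c6, c7, c8, c9, c10, -, c11, -, -, -⟩ := gcut_lin hT (X := X) (Bd := ∅)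
    (p := Q + Cp) (N := m) (e := 0) hκ₀0 (η := β) (by rw [hκ₀]; linarith) hβ1 (by
      rw [← hn]
      push_cast
      linarith) (by
      rw [← hn]
      push_cast
      linarith [mul_nonneg hκ'0.le hn0]) (by
      rw [← hn]
      push_cast
      linarith [mul_nonneg hκ'0.le hn0]) (by simp)
  simp only [Nat.zero_add, mul_one] at c10 c11
  have hP₁c : (P₁.card : ℝ) = Q + Cp := by exact_mod_cast c8
  have hP₂c : X.card = Q + Cp + m + P₂.card := by omega
  have hP₂c' : n = Q + Cp + m + P₂.card := by rw [hn]; exact_mod_cast hP₂c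
  rw [← hn] at c10 c11
  have hP₁κ : κ' * n ≤ P₁.card := by linarith
  have hP₂κ : κ' * n ≤ P₂.card := by linarith
  have hP₂n : (P₂.card : ℝ) ≤ n := by rw [hn]; exact_mod_cast card_le_card c5
  have hlen : ys.length = G.length := c1.trans hm
  have hysne : ys ≠ [] := by
    intro h
    rw [h] at c1
    simp at c1
    omega
  obtain ⟨yl, hyl⟩ : ∃ yl, ys.getLast? = some yl := ⟨_, List.getLast?_eq_getLast_of_ne_nil hysne⟩
  have hylm : yl ∈ ys := List.mem_of_getLast? hyl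
  -- the lists
  have hG' : ys.zip G ≠ [] := by
    intro h
    have := congrArg List.length h
    rw [List.length_zip, hlen, min_self] at this
    simp at this
    exact hG this
  obtain ⟨x₁, L₁, hL₁, hmax₁⟩ := exists_largest (L := (ys.zip G).map (fun p => (p.1, p.2.1))) (by simpa using hG')
  obtain ⟨x₂, L₂, hL₂, hmax₂⟩ := exists_largest (L := (ys.zip G).map (fun p => (p.1, p.2.2))) (by simpa using hG')
  have hmem₁ : ∀ p ∈ x₁ :: L₁, p.1 ∈ ys ∧ FOK b l 0 p.2 ∧ ∀ t ∈ p.2.trees, t.1 = true := by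
    intro p hp
    have h1 := hL₁.symm.subset hp
    rw [List.mem_map] at h1
    obtain ⟨r, hr, rfl⟩ := h1
    have h2 := List.of_mem_zip (a := r.1) (b := r.2) hr
    exact ⟨h2.1, (hcl r.2 h2.2).1, (hcl r.2 h2.2).2.2.1⟩
  have hmem₂ : ∀ p ∈ x₂ :: L₂, p.1 ∈ ys ∧ FOK b l 0 p.2 ∧ ∀ t ∈ p.2.trees, t.1 = true := by
    intro p hp
    have h1 := hL₂.symm.subset hp
    rw [List.mem_map] at h1
    obtain ⟨r, hr, rfl⟩ := h1
    have h2 := List.of_mem_zip (a := r.1) (b := r.2) hr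
    exact ⟨h2.1, (hcl r.2 h2.2).2.1, (hcl r.2 h2.2).2.2.2⟩
  have hlL₁ : L₁.length + 1 ≤ N := by
    have := hL₁.length_eq
    rw [List.length_map, List.length_zip, hlen, min_self, List.length_cons] at this
    omega
  have hlL₂ : L₂.length + 1 ≤ N := by
    have := hL₂.length_eq
    rw [List.length_map, List.length_zip, hlen, min_self, List.length_cons] at this
    omega
  have htot₁ : totB (x₁ :: L₁) = Q := by
    rw [← fl_totB_perm hL₁, totB_zip (f := Prod.fst) hlen, hQ]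
  have htot₂ : totB (x₂ :: L₂) = O := by
    rw [← fl_totB_perm hL₂, totB_zip (f := Prod.snd) hlen, hO]
  have hx₁ := hmem₁ x₁ List.mem_cons_self
  have hx₂ := hmem₂ x₂ List.mem_cons_self
  -- the place for the rest
  obtain ⟨k, hk⟩ : ∃ k : ℝ, k = κ₀ ^ 2 / 4 * n := ⟨_, rfl⟩
  obtain ⟨t, ht⟩ : ∃ t : ℝ, t = 2 * β * n := ⟨_, rfl⟩
  rw [← hk, ← ht] at c10 c11
  obtain ⟨D, hDd⟩ : ∃ D : V → Finset V, D = fun u => P₂.filter (fun w => R x₂.1 w ∧ R w u ∧ Rea R X P₂ k t w) :=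
    ⟨_, rfl⟩
  have hcnt := (c11 x₂.1 hx₂.1).cnt
  obtain ⟨Zt, hZt, -, -, hZD, hZE, -⟩ := hclass P₂ (P₂.filter (fun u => R u x₂.1)) D (by
      intro u _
      rw [hDd]
      exact filter_subset _ _) (by
      intro j
      have hsub : (P₂.filter (fun u => R u x₂.1)).filter (fun u => (D u).card = j) ⊆
          P₂.filter (fun u => R u x₂.1 ∧ (P₂.filter (fun w => R x₂.1 w ∧ R w u ∧ Rea R X P₂ k t w)).card ≤ j) := by
        intro u hu
        rw [mem_filter, mem_filter] at hu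
        rw [mem_filter]
        refine ⟨hu.1.1, hu.1.2, ?_⟩
        have := hu.2
        rw [hDd] at this
        exact this.le
      have hj0 : (0 : ℝ) ≤ j := Nat.cast_nonneg _
      have h8β : (0 : ℝ) ≤ 8 / β := by positivity
      have hKc0 : 0 ≤ 4 + 4 * (N : ℝ) := by positivity
      rcases le_or_gt (j : ℝ) (β / 8 * P₂.card) with h | h
      · have h1 : (((P₂.filter (fun u => R u x₂.1)).filter (fun u => (D u).card = j)).card : ℝ) ≤ 4 * j + 4 * m := by
          exact_mod_cast (card_le_card hsub).trans (hcnt j h)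
        have h2 : 4 * (j : ℝ) + 4 * m ≤ (4 + 4 * N) * (j + 1) := by nlinarith
        have h3 : (4 + 4 * (N : ℝ)) * (j + 1) ≤ Kc * (j + 1) :=
          mul_le_mul_of_nonneg_right (by rw [hKc]; linarith) (by linarith)
        linarith
      · have h1 : (((P₂.filter (fun u => R u x₂.1)).filter (fun u => (D u).card = j)).card : ℝ) ≤ P₂.card := by
          exact_mod_cast card_le_card ((filter_subset _ _).trans (filter_subset _ _))
        have h2 : (P₂.card : ℝ) ≤ 8 / β * j := by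
          have h3 : 8 / β * (β / 8 * P₂.card) = P₂.card := by
            field_simp
          have h4 := mul_le_mul_of_nonneg_left h.le h8β
          linarith
        have h3 : 8 / β * (j : ℝ) ≤ Kc * (j + 1) := by
          have h4 : 8 / β * (j : ℝ) ≤ 8 / β * (j + 1) := mul_le_mul_of_nonneg_left (by linarith) h8β
          have h5 : 8 / β * ((j : ℝ) + 1) ≤ Kc * (j + 1) :=
            mul_le_mul_of_nonneg_right (by rw [hKc]; linarith) (by linarith)
          linarith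
        linarith) (univ : Finset Unit) (fun _ => nO R P₂ yl) (fun _ _ => nO_sub) (by simp)
  have hEc : β / 8 * P₂.card ≤ (nO R P₂ yl).card := by
    refine (c11 yl hylm).lin.trans ?_
    apply Nat.cast_le.2
    apply card_le_card
    intro w hw
    rw [mem_filter] at hw
    exact mem_nO.2 ⟨hw.1, hw.2.1⟩
  have hEZ : ((nO R P₂ yl).card : ℝ) ≤ 4 * (nO R P₂ yl ∩ Zt).card + cc := by
    have := hZE () (mem_univ _)
    exact_mod_cast this
  have hδ1 : min δp (β * κ' / 256) * n ≤ β * κ' / 256 * n := mul_le_mul_of_nonneg_right (min_le_right _ _) hn0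
  have hδ2 : min δp (β * κ' / 256) * n ≤ δp * n := mul_le_mul_of_nonneg_right (min_le_left _ _) hn0
  have hβP : β * κ' * n ≤ β * P₂.card := by
    have := mul_le_mul_of_nonneg_left hP₂κ hβ0.le
    linarith
  obtain ⟨T, hTW, hTc, hTE⟩ := exists_rest hT rest (y := yl) (W := nO R P₂ yl ∩ Zt)
    (fun w hw => (mem_nO.1 (mem_inter.1 hw).1).2) (by
      have h1 : 4 * (szS rest : ℝ) ≤ (nO R P₂ yl ∩ Zt).card := by linarith
      exact_mod_cast h1)
  have hTZ : T ⊆ Zt := fun v hv => (mem_inter.1 (hTW hv)).2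
  have hTP₂ : T ⊆ P₂ := hTZ.trans hZt
  have hTcR : (T.card : ℝ) = szS rest := by exact_mod_cast hTc
  have hTn : (T.card : ℝ) ≤ β * κ' / 256 * n := by linarith
  -- the second part
  obtain ⟨P₂', hP₂'⟩ : ∃ P₂' : Finset V, P₂' = P₂ \ T := ⟨_, rfl⟩
  have hP₂'c : P₂'.card + T.card = P₂.card := by
    rw [hP₂']
    exact card_sdiff_add_card_eq_card hTP₂
  have hP₂'cR : (P₂'.card : ℝ) + T.card = P₂.card := by exact_mod_cast hP₂'c
  have hβκ1 : β * κ' / 256 * n ≤ κ' / 2 * n := mul_le_mul_of_nonneg_right (by nlinarith) hn0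
  have hP₂'κ : κ' / 2 * n ≤ P₂'.card := by linarith
  have hP₂'sub : P₂' ⊆ P₂ := by rw [hP₂']; exact sdiff_subset
  have hH₂ : PackH R b l N 1 16 (4 * N) (κ₀ ^ 2 / 4) (κ' / 2) (β / 16) (β / 32) η X P₂' x₂.1 x₂.2 L₂ t := by
    refine ⟨hP₂'sub.trans c5, hlL₂, hx₂.2.1, hx₂.2.2, ?_, (c7 _ hx₂.1).1, fun h => (c7 _ hx₂.1).2.2.1 (hP₂'sub h),
      ?_, by rw [← hn]; exact hP₂'κ, ?_, ?_, ?_, ?_, ?_⟩
    · intro p hp
      have h1 := hmem₂ p (List.mem_cons_of_mem _ hp)
      refine ⟨h1.2.1, h1.2.2, ?_⟩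
      have := hmax₂ p hp
      omega
    · intro p hp
      have h1 := (hmem₂ p (List.mem_cons_of_mem _ hp)).1
      exact ⟨(c7 _ h1).1, fun h => (c7 _ h1).2.2.1 (hP₂'sub h)⟩
    · rw [← hn, ← hk]
      exact rea_sub (c11 _ hx₂.1).reach hP₂'sub
    · rw [← hn, ← hk]
      have h1 := (c11 _ hx₂.1).lin
      have h2 : P₂.filter (fun w => R x₂.1 w ∧ Rea R X P₂ k t w) ⊆
          (P₂'.filter (fun w => R x₂.1 w ∧ Rea R X P₂' k t w)) ∪ T := by
        intro w hw
        rw [mem_filter] at hw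
        rw [mem_union, mem_filter, hP₂', mem_sdiff]
        by_cases h5 : w ∈ T
        · exact Or.inr h5
        · exact Or.inl ⟨⟨hw.1, h5⟩, hw.2.1, rea_sub hw.2.2 sdiff_subset⟩
      have h3 : ((P₂.filter (fun w => R x₂.1 w ∧ Rea R X P₂ k t w)).card : ℝ) ≤
          (P₂'.filter (fun w => R x₂.1 w ∧ Rea R X P₂' k t w)).card + T.card := by
        exact_mod_cast (card_le_card h2).trans (card_union_le _ _)
      have h4 : β * P₂'.card ≤ β * P₂.card := mul_le_mul_of_nonneg_left (by linarith) hβ0.le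
      linarith
    · intro j hj
      rw [← hn, ← hk]
      have h1 := hcnt (4 * j) (by
        push_cast
        have h4 : β * P₂'.card ≤ β * P₂.card := mul_le_mul_of_nonneg_left (by linarith) hβ0.le
        linarith)
      refine le_trans (card_le_card ?_) (h1.trans (by omega))
      intro u hu
      rw [mem_filter] at hu ⊢
      have huP : u ∈ P₂ := hP₂'sub hu.1
      refine ⟨huP, hu.2.1, ?_⟩
      have h2 := hZD u (mem_filter.2 ⟨huP, hu.2.1⟩)
      have h3 : (D u \ Zt).card ≤ j := by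
        refine le_trans (card_le_card ?_) hu.2.2
        intro w hw
        rw [mem_sdiff, hDd] at hw
        have h4 := mem_filter.1 hw.1
        rw [mem_filter, hP₂', mem_sdiff]
        exact ⟨⟨h4.1, fun h => hw.2 (hTZ h)⟩, h4.2.1, h4.2.2.1, rea_sub h4.2.2.2 sdiff_subset⟩
      rw [hDd] at h2 h3
      have h2' : (P₂.filter (fun w => R x₂.1 w ∧ R w u ∧ Rea R X P₂ k t w)).card ≤
        4 * ((P₂.filter (fun w => R x₂.1 w ∧ R w u ∧ Rea R X P₂ k t w)) \ Zt).card := h2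
      have h3' : ((P₂.filter (fun w => R x₂.1 w ∧ R w u ∧ Rea R X P₂ k t w)) \ Zt).card ≤ j := h3
      omega
    · intro p hp
      rw [← hn, ← hk]
      exact rea_sub (c11 _ (hmem₂ p (List.mem_cons_of_mem _ hp)).1).reach hP₂'sub
    · have h1 : η * (κ' / 2 * n) ≤ η * P₂'.card := mul_le_mul_of_nonneg_left hP₂'κ hη0.le
      rw [ht, hβ]
      linarith
  have hc₀P : ((2 * c₀ : ℕ) : ℝ) ≤ β / 32 * P₂'.card := by
    have h1 : β / 32 * (κ' / 2 * n) ≤ β / 32 * P₂'.card := mul_le_mul_of_nonneg_left hP₂'κ (by positivity)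
    linarith
  have hY₂ := hH₂.toY hT hc₀P
  -- the first part
  have hH₁ : PackH (rv R) b l N 1 16 (16 * (2 * c₀) + 4 * N) (κ₀ ^ 2 / 4) (κ' / 2) (β / 16) (β / 32) η X P₁ x₁.1 x₁.2
      L₁ t := by
    have hP₁0 : (0 : ℝ) ≤ P₁.card := Nat.cast_nonneg _
    refine ⟨c4, hlL₁, hx₁.2.1, hx₁.2.2, ?_, (c7 _ hx₁.1).1, (c7 _ hx₁.1).2.1, ?_, ?_, ?_, ?_, ?_, ?_, ?_⟩
    · intro p hp
      have h1 := hmem₁ p (List.mem_cons_of_mem _ hp)
      refine ⟨h1.2.1, h1.2.2, ?_⟩
      have := hmax₁ p hp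
      omega
    · intro p hp
      have h1 := (hmem₁ p (List.mem_cons_of_mem _ hp)).1
      exact ⟨(c7 _ h1).1, (c7 _ h1).2.1⟩
    · rw [← hn]
      linarith [mul_nonneg hκ'0.le hn0]
    · rw [← hn, ← hk]
      exact (c10 _ hx₁.1).reach
    · rw [← hn, ← hk]
      refine le_trans ?_ (c10 _ hx₁.1).lin
      exact mul_le_mul_of_nonneg_right (by linarith) hP₁0
    · intro j hj
      rw [← hn, ← hk]
      refine ((c10 _ hx₁.1).cnt j (hj.trans (mul_le_mul_of_nonneg_right (by linarith) hP₁0))).trans ?_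
      omega
    · intro p hp
      rw [← hn, ← hk]
      exact (c10 _ (hmem₁ p (List.mem_cons_of_mem _ hp)).1).reach
    · have h1 : η * (κ' * n) ≤ η * P₁.card := mul_le_mul_of_nonneg_left hP₁κ hη0.le
      have h2 : 0 ≤ η * (κ' * n) := by positivity
      rw [ht, hβ]
      linarith
  obtain ⟨S₁, hS₁, S₂, hS₂, e1, e2, e3, e4, e5, e6, e7⟩ := hpack hT X X P₁ P₂' P₂' T ys.toFinset x₁.1 x₂.1 x₁.2 x₂.2
    L₁ L₂ t t hH₁ hY₂ (Subset.refl _) (c6.mono_right hP₂'sub) (c6.symm.mono_left hTP₂) (by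
      rw [hP₂']
      exact disjoint_sdiff) (by
      have h1 : (((T ∩ X).card : ℕ) : ℝ) ≤ T.card := by exact_mod_cast card_le_card inter_subset_left
      rw [← hn]
      linarith) (by rw [← hn]; linarith) ((List.toFinset_card_le _).trans (by omega))
    (List.mem_toFinset.2 hx₁.1) (List.mem_toFinset.2 hx₂.1)
    (fun p hp => List.mem_toFinset.2 (hmem₁ p (List.mem_cons_of_mem _ hp)).1)
    (fun p hp => List.mem_toFinset.2 (hmem₂ p (List.mem_cons_of_mem _ hp)).1) (by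
      rw [disjoint_left]
      intro v hv hv'
      exact (c7 v (List.mem_toFinset.1 hv)).2.1 hv') (by
      rw [disjoint_left]
      intro v hv hv'
      exact (c7 v (List.mem_toFinset.1 hv)).2.2.1 (hP₂'sub hv')) (by
      show totB (x₁ :: L₁) + Cp ≤ P₁.card
      omega) (by
      show totB (x₂ :: L₂) + Cp ≤ P₂'.card
      omega)
  exact fin_glue hG hlen c2 c3 (fun y hy => (c7 y hy).1) hyl (EmbAllB.perm hL₁.symm e6) (EmbAllB.perm hL₂.symm e7) hS₁ hS₂
    (hTP₂.trans c5) e1 e2 e3 e4 e5 (by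
      rw [disjoint_left]
      intro v hv hv'
      exact (c7 v (List.mem_toFinset.1 hv')).2.2.1 (hTP₂ hv)) hTE

end AEG
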