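import Pool.Agent.AEG.HandS
import Pool.Agent.AEB.CovE
import Pool.Agent.AEB.CovA
import Pool.Agent.AEB.PELem

/-!
# The final step at the first vertex of the line: auxiliary statements
-/

set_option autoImplicit false

namespace AEG

open Finset AE15 AED AEB
open scoped Classical

/-- a larger number of exceptions -/
def up (p : NP) (m : ℕ) : NP := { p with u0 := p.u0 + m }

theorem up_ok {p : NP} (hp : p.OK) (m : ℕ) : (up p m).OK :=
  { hb := hp.hb, ha := hp.ha, hc := hp.hc, hcx := hp.hcx, hq := hp.hq, hg := hp.hg, hA0 := hp.hA0, hB := hp.hB,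
    hr0 := hp.hr0, hc0 := hp.hc0, he := hp.he, hc1 := hp.hc1, hM0 := hp.hM0,
    hu0 := hp.hu0.trans (Nat.le_add_right _ _) }

variable {V : Type*} {R : V → V → Prop}

/-- any bounded number of vertices can be deleted at the price of more exceptions -/
theorem covE_any (hT : AE32.Tour R) {p : NP} (hp : p.OK) {γ : ℝ} {X G E : Finset V} {x : V} {m : ℕ}
    (hG : G ⊆ X) (h : CovE R p γ X G E x m) (J k : ℕ) (hn : ((J + E.card + 2 * p.c0 + 1 : ℕ) : ℝ) ≤ γ * X.card)
    {Z : Finset V} (hZ : Z.card ≤ J) :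
    CovE R (up p k) γ X G (E ∪ Z) x (m + (2 * (J + E.card + 2 * p.c0 + 1) + 4 * (p.c1 + p.u0 + p.g))) := by
  obtain ⟨Nx, U, Q, hNG, hNx, hNc, hU, hQ, hcount, hcov, hcov'⟩ := h
  have hcnt := hcount (J + E.card + 2 * p.c0 + 1) hn
  have hlarge : ∀ u, J + E.card + 2 * p.c0 + 1 < (nI R Nx u).card →
      ∃ h ∈ Nx, h ∉ E ∪ Z ∧ R h u ∧ p.c0 ≤ (nI R (X \ (E ∪ Z)) h).card ∧ p.c ≤ (nI R (G \ (E ∪ Z)) h).card := by
    intro u hu
    have h1 : 2 * p.c0 + 1 ≤ (nI R Nx u \ (E ∪ Z)).card := by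
      have h2 := le_card_sdiff (E ∪ Z) (nI R Nx u)
      have h3 := card_union_le E Z
      omega
    obtain ⟨v, hv, hv2⟩ := exists_deg_in hT h1
    rw [mem_sdiff, mem_nI] at hv
    have h2 : nI R Nx u \ (E ∪ Z) ⊆ G \ (E ∪ Z) := sdiff_subset_sdiff (nI_sub.trans hNG) (Subset.refl _)
    have h3 : nI R Nx u \ (E ∪ Z) ⊆ X \ (E ∪ Z) := h2.trans (sdiff_subset_sdiff hG (Subset.refl _))
    exact ⟨v, hv.1.1, hv.2, hv.1.2, hv2.trans (card_le_card (nI_mono h3)),
      (hp.c_le.trans hv2).trans (card_le_card (nI_mono h2))⟩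
  refine ⟨Nx, U ∪ (nI R X x).filter (fun u => (nI R Nx u).card ≤ J + E.card + 2 * p.c0 + 1), Q, hNG, hNx, hNc,
    (card_union_le _ _).trans (Nat.add_le_add hU hcnt), hQ, ?_, ?_, ?_⟩
  · intro j hj
    refine (hcount j hj).trans ?_
    show 2 * j + 4 * (p.c1 + p.u0 + p.g) ≤ 2 * j + 4 * (p.c1 + (p.u0 + k) + p.g)
    omega
  · intro u hu _ hux _ huU
    rw [mem_union, mem_filter, not_or, mem_nI] at huU
    obtain ⟨h, h1, h2, h3, h4, -⟩ := hlarge u (by
      by_contra hc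
      exact huU.2 ⟨⟨hu, hux⟩, not_lt.1 hc⟩)
    exact ⟨h, h1, h2, h3, h4⟩
  · intro u hu _ hux _ huU _
    rw [mem_union, mem_filter, not_or, mem_nI] at huU
    exact hlarge u (by
      by_contra hc
      exact huU.2 ⟨⟨hu, hux⟩, not_lt.1 hc⟩)

theorem pe_app {F G : Fd} {v : V} {Z₁ Z₂ : Finset V} {L₁ L₂ : List (V × Fd)} (h₁ : PE R F v Z₁ L₁)
    (h₂ : PE R G v Z₂ L₂) (hd : Disjoint Z₁ Z₂) : PE R (app F G) v (Z₁ ∪ Z₂) (L₁ ++ L₂) := by
  induction F generalizing Z₁ L₁ with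
  | nil =>
    cases h₁
    rw [empty_union, List.nil_append]
    exact h₂
  | node d c s _ ihs =>
    cases h₁ with
    | pend _ _ _ _ L' hs => exact PE.pend c _ v _ _ (ihs hs hd)
    | place _ _ _ _ x A B L₁ L₂' h1 h2 h3 h4 h5 h6 =>
      rw [disjoint_insert_left, disjoint_union_left] at hd
      rw [insert_union, union_assoc, List.append_assoc]
      exact PE.place d c _ v x A (B ∪ Z₂) L₁ _ h1 h2 (by
        rw [mem_union, not_or]
        exact ⟨h3, hd.1⟩) (disjoint_union_right.2 ⟨h4, hd.2.1⟩) h5 (ihs h6 hd.2.2)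

theorem flip_emb {F : Fd} {v : V} {S : Finset V} (h : Emb (SPD.rv R) F v S) : Emb R (flip F) v S := by
  induction F generalizing v S with
  | nil => exact h
  | node d c s ihc ihs =>
    obtain ⟨x, A, B, h1, h2, h3, h4, h5, h6, h7⟩ := h
    refine ⟨x, A, B, ?_, h2, h3, h4, h5, ihc h6, ihs h7⟩
    cases d with
    | true => simpa [Adj, SPD.rv] using h1
    | false => simpa [Adj, SPD.rv] using h1

theorem app_emb {F G : Fd} {v : V} {S₁ S₂ : Finset V} (hd : Disjoint S₁ S₂) (h₁ : Emb R F v S₁) (h₂ : Emb R G v S₂) :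
    Emb R (app F G) v (S₁ ∪ S₂) := by
  induction F generalizing S₁ with
  | nil =>
    rw [show S₁ = ∅ from h₁, empty_union]
    exact h₂
  | node d c s _ ihs =>
    obtain ⟨x, A, B, g1, g2, g3, g4, rfl, g6, g7⟩ := h₁
    rw [disjoint_insert_left, disjoint_union_left] at hd
    refine ⟨x, A, B ∪ S₂, g1, g2, ?_, disjoint_union_right.2 ⟨g4, hd.2.1⟩, ?_, g6, ihs hd.2.2 g7⟩
    · rw [mem_union, not_or]
      exact ⟨g3, hd.1⟩
    · rw [insert_union, union_assoc]

/-- the class, from the count of the vertices with few dominators; `A` is the ambient set in which the in-degrees are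
counted -/
theorem cls_state (hT : AE32.Tour R) {p : NP} (hp : p.OK) {X A : Finset V} {N N' Gd : V → Prop} {k s' : ℝ}
    {lam sig K1 : ℕ} (hXA : X ⊆ A) (hk : ∀ v ∈ X, Gd v → k * X.card ≤ ((nO R X v).card : ℝ)) (hks : k ≤ s' / 2)
    (hn : 2 * (p.c0 : ℝ) + 2 ≤ s' / 2 * X.card)
    (hd : s' * X.card ≤ ((X.filter (fun v => N v ∧ Gd v ∧ lam ≤ (nI R A v).card)).card : ℝ))
    (hc : (X.filter (fun u => ¬ N u ∧ sig ≤ (nI R A u).card ∧
      (X.filter (fun v => N v ∧ R v u ∧ Gd v ∧ lam ≤ (nI R A v).card)).card ≤ 2 * p.c0)).card ≤ K1)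
    (hu : 2 * max lam sig + K1 ≤ p.u0)
    (hN' : ∀ v, N' v ↔ (N v ∧ lam ≤ (nI R A v).card ∧ k * X.card ≤ ((nO R X v).card : ℝ))) (F : Fd) :
    Cl R Gd s' p F X N' := by
  have hD : ClD Gd s' X N' := by
    refine hd.trans (Nat.cast_le.2 (card_le_card ?_))
    intro v hv
    rw [mem_filter] at hv ⊢
    exact ⟨hv.1, hv.2.2.1, (hN' v).2 ⟨hv.2.1, hv.2.2.2, hk v hv.1 hv.2.2.1⟩⟩
  obtain ⟨dm, hdm⟩ : ∃ dm : V → Finset V, dm = fun u => X.filter (fun v => N v ∧ R v u ∧ Gd v ∧ lam ≤ (nI R A v).card) :=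
    ⟨_, rfl⟩
  have hdmm : ∀ u v, v ∈ dm u ↔ v ∈ X ∧ N v ∧ R v u ∧ Gd v ∧ lam ≤ (nI R A v).card := by
    intro u v
    rw [hdm, mem_filter]
  have hdmc : ∀ u, (dm u).card = (X.filter (fun v => N v ∧ R v u ∧ Gd v ∧ lam ≤ (nI R A v).card)).card := by
    intro u
    rw [hdm]
  have hlarge : ∀ u, 2 * p.c0 < (dm u).card → ∃ v ∈ X, N' v ∧ R v u ∧ Strong R Gd p.c0 p.c X v := by
    intro u hu
    obtain ⟨v, hv, hv2⟩ := exists_deg_in hT (S := dm u) (c := p.c0) hu
    rw [hdmm] at hv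
    obtain ⟨v1, v2, v3, v4, v5⟩ := hv
    refine ⟨v, v1, (hN' v).2 ⟨v2, v5, hk v v1 v4⟩, v3, ⟨v4, hv2.trans (card_le_card (nI_mono ?_))⟩,
      hp.c_le.trans (hv2.trans (card_le_card (nI_mono ?_)))⟩
    · intro w hw
      exact ((hdmm u w).1 hw).1
    · intro w hw
      rw [mem_filter]
      exact ⟨((hdmm u w).1 hw).1, ((hdmm u w).1 hw).2.2.2.1⟩
  -- the exceptions
  obtain ⟨U, hU⟩ : ∃ U, U = X.filter (fun u => (nI R A u).card < max lam sig) ∪
      X.filter (fun u => ¬ N u ∧ sig ≤ (nI R A u).card ∧ (dm u).card ≤ 2 * p.c0) := ⟨_, rfl⟩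
  have hUc : U.card ≤ 2 * max lam sig + K1 := by
    rw [hU]
    refine (card_union_le _ _).trans (Nat.add_le_add ?_ ?_)
    · exact (card_le_card (filter_subset_filter _ hXA)).trans (card_lowin hT A _)
    · simp only [hdmc]
      exact hc
  have key : ∀ u ∈ X, N' u ∨ u ∈ U ∨ ∃ v ∈ X, N' v ∧ R v u ∧ Strong R Gd p.c0 p.c X v := by
    intro u hu
    by_cases h1 : (nI R A u).card < max lam sig
    · right; left
      rw [hU]
      exact mem_union_left _ (mem_filter.2 ⟨hu, h1⟩)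
    rw [not_lt, max_le_iff] at h1
    by_cases h2 : N u
    · by_cases h3 : k * X.card ≤ ((nO R X u).card : ℝ)
      · exact Or.inl ((hN' u).2 ⟨h2, h1.1, h3⟩)
      · right; right
        push Not at h3
        apply hlarge u
        -- all but few of the good vertices dominate `u`
        have h4 : X.filter (fun v => N v ∧ Gd v ∧ lam ≤ (nI R A v).card) ⊆ insert u (dm u ∪ nO R X u) := by
          intro v hv
          rw [mem_filter] at hv
          rw [mem_insert, mem_union, hdmm, mem_nO]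
          by_cases hvu : v = u
          · exact Or.inl hvu
          · right
            rcases hT.tot v u hvu with h5 | h5
            · exact Or.inl ⟨hv.1, hv.2.1, h5, hv.2.2.1, hv.2.2.2⟩
            · exact Or.inr ⟨hv.1, h5⟩
        have h5 := (card_le_card h4).trans (card_insert_le _ _)
        have h6 := card_union_le (dm u) (nO R X u)
        have h7 : ((X.filter (fun v => N v ∧ Gd v ∧ lam ≤ (nI R A v).card)).card : ℝ) ≤
            (dm u).card + (nO R X u).card + 1 := by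
          exact_mod_cast h5.trans (Nat.add_le_add_right h6 1)
        have h8 : k * X.card ≤ s' / 2 * X.card := mul_le_mul_of_nonneg_right hks (Nat.cast_nonneg _)
        have h9 : (2 * (p.c0 : ℝ)) < (dm u).card := by linarith
        exact_mod_cast h9
    · by_cases h3 : (dm u).card ≤ 2 * p.c0
      · right; left
        rw [hU]
        exact mem_union_right _ (mem_filter.2 ⟨hu, h2, h1.2, h3⟩)
      · right; right
        exact hlarge u (not_le.1 h3)
  refine ⟨hD, fun _ => ⟨hD, U, ∅, ?_, by simp, ?_, ?_⟩⟩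
  · unfold NP.ub
    split_ifs <;> omega
  · intro u hu
    rcases key u hu with h | h | ⟨v, h1, h2, h3, h4⟩
    · exact Or.inl h
    · exact Or.inr (Or.inr (Or.inl h))
    · exact Or.inr (Or.inr (Or.inr ⟨v, h1, h2, h3, h4.1⟩))
  · intro u hu
    rcases key u hu with h | h | ⟨v, h1, h2, h3, h4⟩
    · exact Or.inl h
    · exact Or.inr (Or.inr (Or.inl h))
    · exact Or.inr (Or.inr (Or.inr (Or.inr ⟨v, h1, h2, h3, h4⟩)))

end AEG
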