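import Pool.Agent.AEG.GlueS

/-!
# From an oriented tree with a directed path to a list of coded forests: with the sizes of the in-branches
-/

namespace AEG

open Finset Relation AE15 AED AEB
open scoped Classical

set_option linter.unusedSectionVars false

section line

variable {τ : Type*} [Fintype τ] {E P : τ → τ → Prop}

/-- one vertex of the line: the side trees -/
theorem sidesT {h : τ → ℕ} (hE : ∀ a b, P a b → h a < h b) (hin : ∀ a b c, P a c → P b c → a = b)
    (hP : ∀ a c, P a c → E a c ∨ E c a) (has : ∀ a c, E a c → ¬ E c a) {b l : ℕ}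
    (hdeg : ∀ v, {w | E v w ∨ E w v}.ncard ≤ b) (v : τ) (M : Finset τ) (hM : ∀ u ∈ M, E v u ∧ P v u)
    (h7 : ∀ u, u ∉ M → P v u → E v u → ∀ f : ℕ → τ, ¬ ∀ i ≤ l, E (f i) (f (i + 1)) ∧ P (f (i + 1)) (f i) ∧
      ReflTransGen P u (f i))
    (h8 : ∀ u, u ∉ M → P v u → E u v → ∀ f : ℕ → τ, ¬ ∀ i ≤ l, E (f (i + 1)) (f i) ∧ P (f (i + 1)) (f i) ∧
      ReflTransGen P u (f i)) :
    ∃ (A D : Fd) (B : Finset τ), (A.size = {x | ∃ u, u ∉ M ∧ P v u ∧ E u v ∧ ReflTransGen P u x}.ncard ∧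
        A.size + D.size = {x | ∃ u, u ∉ M ∧ P v u ∧ (E v u ∨ E u v) ∧ ReflTransGen P u x}.ncard) ∧
      FOK b l 0 A ∧ FOK b l 0 D ∧ (∀ q ∈ A.trees, q.1 = true) ∧ (∀ q ∈ D.trees, q.1 = true) ∧
      A.size + D.size = B.card ∧ Disjoint B (M.biUnion (AE32.desc P)) ∧
      AE32.desc P v = insert v (B ∪ M.biUnion (AE32.desc P)) ∧ v ∉ B ∪ M.biUnion (AE32.desc P) ∧
      (∀ a, P v a → a ∈ B ∪ M.biUnion (AE32.desc P)) ∧
      ∀ {V : Type} {R : V → V → Prop} {x : V} {S₁ S₂ : Finset V}, Disjoint S₁ S₂ → Emb (SPD.rv R) A x S₁ →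
        Emb R D x S₂ → ∃ f, Blk E P R v x B (S₁ ∪ S₂) f := by
  set K₂ : Finset τ := univ.filter (fun u => u ∉ M ∧ P v u ∧ E v u) with hK2
  set K₁ : Finset τ := univ.filter (fun u => u ∉ M ∧ P v u ∧ E u v) with hK1
  have m2 : ∀ u, u ∈ K₂ ↔ u ∉ M ∧ P v u ∧ E v u := by simp [hK2]
  have m1 : ∀ u, u ∈ K₁ ↔ u ∉ M ∧ P v u ∧ E u v := by simp [hK1]
  obtain ⟨D, a1, a2, a3, a4, a5, a6⟩ := side_gen (E := E) hE hin hP hdeg v K₂
    (fun u hu => ⟨((m2 u).1 hu).2.2, ((m2 u).1 hu).2.1⟩) (fun u hu => h7 u ((m2 u).1 hu).1 ((m2 u).1 hu).2.1 ((m2 u).1 hu).2.2)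
  obtain ⟨A, b1, b2, b3, b4, b5, b6⟩ := side_gen (E := fun a c => E c a) (b := b) hE hin (fun a c h => (hP a c h).symm)
    (fun w => by
      have := hdeg w
      rw [show {u | E u w ∨ E w u} = {u | E w u ∨ E u w} from by ext u; simp [or_comm]]
      exact this) v K₁
    (fun u hu => ⟨((m1 u).1 hu).2.2, ((m1 u).1 hu).2.1⟩) (fun u hu => h8 u ((m1 u).1 hu).1 ((m1 u).1 hu).2.1 ((m1 u).1 hu).2.2)
  have hdj : ∀ K K' : Finset τ, (∀ u ∈ K, P v u) → (∀ u ∈ K', P v u) → Disjoint K K' →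
      Disjoint (K.biUnion (AE32.desc P)) (K'.biUnion (AE32.desc P)) := by
    intro K K' h1 h2 h3
    rw [disjoint_biUnion_left]
    intro u hu
    rw [disjoint_biUnion_right]
    intro w hw
    refine AE32.desc_disjoint hE hin (h1 u hu) (h2 w hw) ?_
    rintro rfl
    exact (Finset.disjoint_left.1 h3) hu hw
  have c12 : Disjoint (K₁.biUnion (AE32.desc P)) (K₂.biUnion (AE32.desc P)) := by
    refine hdj _ _ (fun u hu => ((m1 u).1 hu).2.1) (fun u hu => ((m2 u).1 hu).2.1) ?_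
    rw [Finset.disjoint_left]
    intro u h1 h2
    exact has _ _ ((m1 u).1 h1).2.2 ((m2 u).1 h2).2.2
  have c1M : Disjoint (K₁.biUnion (AE32.desc P)) (M.biUnion (AE32.desc P)) := by
    refine hdj _ _ (fun u hu => ((m1 u).1 hu).2.1) (fun u hu => (hM u hu).2) ?_
    rw [Finset.disjoint_left]
    intro u h1 h2
    exact ((m1 u).1 h1).1 h2
  have c2M : Disjoint (K₂.biUnion (AE32.desc P)) (M.biUnion (AE32.desc P)) := by
    refine hdj _ _ (fun u hu => ((m2 u).1 hu).2.1) (fun u hu => (hM u hu).2) ?_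
    rw [Finset.disjoint_left]
    intro u h1 h2
    exact ((m2 u).1 h1).1 h2
  have hchild : ∀ a, P v a → a ∈ K₁ ∨ a ∈ K₂ ∨ a ∈ M := by
    intro a ha
    by_cases haM : a ∈ M
    · exact Or.inr (Or.inr haM)
    · rcases hP _ _ ha with h | h
      · exact Or.inr (Or.inl ((m2 a).2 ⟨haM, ha, h⟩))
      · exact Or.inl ((m1 a).2 ⟨haM, ha, h⟩)
  have hself : ∀ K : Finset τ, ∀ u ∈ K, u ∈ K.biUnion (AE32.desc P) := fun K u hu =>
    mem_biUnion.2 ⟨u, hu, AE32.self_mem_desc u⟩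
  have hcl : ∀ K : Finset τ, ∀ a ∈ K.biUnion (AE32.desc P), ∀ a', P a a' → a' ∈ K.biUnion (AE32.desc P) := by
    intro K a ha a' haa
    obtain ⟨u, hu, hau⟩ := mem_biUnion.1 ha
    exact mem_biUnion.2 ⟨u, hu, AE32.mem_desc.2 ((AE32.mem_desc.1 hau).tail haa)⟩
  have hnv : ∀ K : Finset τ, (∀ u ∈ K, P v u) → v ∉ K.biUnion (AE32.desc P) := by
    intro K hK hmem
    obtain ⟨u, hu, h⟩ := mem_biUnion.1 hmem
    exact AE32.notMem_desc hE (hK u hu) h
  have b0 : A.size = {x | ∃ u, u ∉ M ∧ P v u ∧ E u v ∧ ReflTransGen P u x}.ncard := by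
    rw [b1, ← Set.ncard_coe_finset]
    congr 1
    ext x
    rw [mem_coe, mem_biUnion]
    constructor
    · rintro ⟨u, hu, hx⟩
      exact ⟨u, ((m1 u).1 hu).1, ((m1 u).1 hu).2.1, ((m1 u).1 hu).2.2, AE32.mem_desc.1 hx⟩
    · rintro ⟨u, h1, h2, h3, h4⟩
      exact ⟨u, (m1 u).2 ⟨h1, h2, h3⟩, AE32.mem_desc.2 h4⟩
  have b00 : A.size + D.size = {x | ∃ u, u ∉ M ∧ P v u ∧ (E v u ∨ E u v) ∧ ReflTransGen P u x}.ncard := by
    rw [a1, b1, ← card_union_of_disjoint c12, ← Set.ncard_coe_finset]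
    congr 1
    ext x
    rw [mem_coe, mem_union, mem_biUnion, mem_biUnion]
    constructor
    · rintro (⟨u, hu, hx⟩ | ⟨u, hu, hx⟩)
      · exact ⟨u, ((m1 u).1 hu).1, ((m1 u).1 hu).2.1, Or.inr ((m1 u).1 hu).2.2, AE32.mem_desc.1 hx⟩
      · exact ⟨u, ((m2 u).1 hu).1, ((m2 u).1 hu).2.1, Or.inl ((m2 u).1 hu).2.2, AE32.mem_desc.1 hx⟩
    · rintro ⟨u, h1, h2, h3, h4⟩
      rcases h3 with h3 | h3
      · exact Or.inr ⟨u, (m2 u).2 ⟨h1, h2, h3⟩, AE32.mem_desc.2 h4⟩
      · exact Or.inl ⟨u, (m1 u).2 ⟨h1, h2, h3⟩, AE32.mem_desc.2 h4⟩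
  refine ⟨A, D, K₁.biUnion (AE32.desc P) ∪ K₂.biUnion (AE32.desc P), ⟨b0, b00⟩, ⟨b2, b3, b4⟩, ⟨a2, a3, a4⟩, b5, a5, ?_, ?_, ?_, ?_,
    ?_, ?_⟩
  · rw [card_union_of_disjoint c12, a1, b1]
  · rw [disjoint_union_left]
    exact ⟨c1M, c2M⟩
  · ext a
    rw [AE32.mem_desc, ReflTransGen.cases_head_iff]
    simp only [mem_insert, mem_union]
    constructor
    · rintro (h1 | ⟨c, h1, h2⟩)
      · exact Or.inl h1.symm
      · right
        rcases hchild c h1 with h | h | h
        · exact Or.inl (Or.inl (mem_biUnion.2 ⟨c, h, AE32.mem_desc.2 h2⟩))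
        · exact Or.inl (Or.inr (mem_biUnion.2 ⟨c, h, AE32.mem_desc.2 h2⟩))
        · exact Or.inr (mem_biUnion.2 ⟨c, h, AE32.mem_desc.2 h2⟩)
    · rintro (h1 | (h1 | h1) | h1)
      · exact Or.inl h1.symm
      · obtain ⟨u, hu, h⟩ := mem_biUnion.1 h1
        exact Or.inr ⟨u, ((m1 u).1 hu).2.1, AE32.mem_desc.1 h⟩
      · obtain ⟨u, hu, h⟩ := mem_biUnion.1 h1
        exact Or.inr ⟨u, ((m2 u).1 hu).2.1, AE32.mem_desc.1 h⟩
      · obtain ⟨u, hu, h⟩ := mem_biUnion.1 h1
        exact Or.inr ⟨u, (hM u hu).2, AE32.mem_desc.1 h⟩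
  · rw [mem_union, mem_union]
    rintro ((h | h) | h)
    · exact hnv K₁ (fun u hu => ((m1 u).1 hu).2.1) h
    · exact hnv K₂ (fun u hu => ((m2 u).1 hu).2.1) h
    · exact hnv M (fun u hu => (hM u hu).2) h
  · intro a ha
    rw [mem_union, mem_union]
    rcases hchild a ha with h | h | h
    · exact Or.inl (Or.inl (hself _ _ h))
    · exact Or.inl (Or.inr (hself _ _ h))
    · exact Or.inr (hself _ _ h)
  · intro V R x S₁ S₂ hd he1 he2
    obtain ⟨f₁, q1, q2, q3, q4⟩ := b6 he1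
    obtain ⟨f₂, p1, p2, p3, p4⟩ := a6 he2
    have hroot : ∀ K : Finset τ, (∀ u ∈ K, P v u) → ∀ a ∈ K.biUnion (AE32.desc P), P v a → a ∈ K := by
      intro K hK a ha hva
      obtain ⟨u, hu, h⟩ := mem_biUnion.1 ha
      have : a = u := by
        by_contra hne
        exact (Finset.disjoint_left.1 (AE32.desc_disjoint hE hin hva (hK u hu) hne)) (AE32.self_mem_desc a) h
      rw [this]
      exact hu
    have k1 : Blk E P R v x (K₁.biUnion (AE32.desc P)) S₁ f₁ := by
      refine ⟨q2, q3, ?_, fun a ha a' haa => ⟨hcl K₁ a ha a' haa, ?_⟩⟩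
      · intro a ha hva
        have h1 := hroot K₁ (fun u hu => ((m1 u).1 hu).2.1) a ha hva
        exact ⟨fun h => absurd ((m1 a).1 h1).2.2 (has _ _ h), fun _ => q1 a h1⟩
      · have h := q4 a ha a' haa
        refine ⟨fun h' => ?_, fun h' => ?_⟩
        · have h'' : ¬ E a' a := has _ _ h'
          simpa [Adj, h'', SPD.rv] using h
        · simpa [Adj, h', SPD.rv] using h
    have k2 : Blk E P R v x (K₂.biUnion (AE32.desc P)) S₂ f₂ := by
      refine ⟨p2, p3, ?_, fun a ha a' haa => ⟨hcl K₂ a ha a' haa, ?_⟩⟩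
      · intro a ha hva
        have h1 := hroot K₂ (fun u hu => ((m2 u).1 hu).2.1) a ha hva
        exact ⟨fun _ => p1 a h1, fun h => absurd ((m2 a).1 h1).2.2 (has _ _ h)⟩
      · have h := p4 a ha a' haa
        refine ⟨fun h' => ?_, fun h' => ?_⟩
        · simpa [Adj, h'] using h
        · have h'' : ¬ E a a' := has _ _ h'
          simpa [Adj, h''] using h
    exact ⟨_, k1.union k2 c12 hd⟩

/-- the tree below a vertex of the line is coded by a list of pairs of forests -/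
theorem lineT {h : τ → ℕ} (hh : ∀ a c, P a c → h c = h a + 1) (hin : ∀ a b c, P a c → P b c → a = b)
    (hP : ∀ a c, P a c → E a c ∨ E c a) (has : ∀ a c, E a c → ¬ E c a) {b l : ℕ}
    (hdeg : ∀ v, {w | E v w ∨ E w v}.ncard ≤ b) {m : ℕ} {p : ℕ → τ} (hp : ∀ i < m, E (p i) (p (i + 1)) ∧ P (p i) (p (i + 1)))
    (h7 : ∀ i ≤ m, ∀ u, (∀ j ≤ m, u ≠ p j) → P (p i) u → E (p i) u → ∀ f : ℕ → τ, ¬ ∀ j ≤ l, E (f j) (f (j + 1)) ∧
      P (f (j + 1)) (f j) ∧ ReflTransGen P u (f j))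
    (h8 : ∀ i ≤ m, ∀ u, (∀ j ≤ m, u ≠ p j) → P (p i) u → E u (p i) → ∀ f : ℕ → τ, ¬ ∀ j ≤ l, E (f (j + 1)) (f j) ∧
      P (f (j + 1)) (f j) ∧ ReflTransGen P u (f j)) (n : ℕ) :
    ∀ i, i + n = m → ∃ L : List (Fd × Fd), L.length = n + 1 ∧
      (L.map (fun q => q.1.size + q.2.size + 1)).sum = (AE32.desc P (p i)).card ∧
      (∀ s ≤ n, ∃ q, L[s]? = some q ∧ q.1.size =
        {x | ∃ u, (∀ j ≤ m, u ≠ p j) ∧ P (p (i + s)) u ∧ E u (p (i + s)) ∧ ReflTransGen P u x}.ncard ∧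
        q.1.size + q.2.size = {x | ∃ u, (∀ j ≤ m, u ≠ p j) ∧ P (p (i + s)) u ∧
          (E (p (i + s)) u ∨ E u (p (i + s))) ∧ ReflTransGen P u x}.ncard) ∧
      (∀ q ∈ L, FOK b l 0 q.1 ∧ FOK b l 0 q.2 ∧ (∀ t ∈ q.1.trees, t.1 = true) ∧ ∀ t ∈ q.2.trees, t.1 = true) ∧
      ∀ {V : Type} {R : V → V → Prop} {y : V} {S : Finset V}, y ∉ S → EmbS R L y S → Dec E P R (p i) y S := by
  have hE : ∀ a b, P a b → h a < h b := fun a c hac => by rw [hh a c hac]; omega
  have hrank : ∀ i ≤ m, h (p i) = h (p 0) + i := by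
    intro i hi
    induction i with
    | zero => rfl
    | succ i ih =>
      rw [hh _ _ (hp i (by omega)).2, ih (by omega)]
      omega
  have hnext : ∀ i ≤ m, ∀ j ≤ m, P (p i) (p j) → j = i + 1 := by
    intro i hi j hj hij
    have h1 := hh _ _ hij
    rw [hrank i hi, hrank j hj] at h1
    omega
  induction n with
  | zero =>
    intro i hi
    have him : i = m := by omega
    subst him
    have hne : ∀ u, P (p i) u → ∀ j ≤ i, u ≠ p j := by
      rintro u hu j hj rfl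
      have := hnext i le_rfl j hj hu
      omega
    obtain ⟨A, D, B, g0, g1, g2, g3, g4, g5, g6, g7, g8, g9, g10⟩ := sidesT (E := E) hE hin hP has hdeg (p i) ∅ (by simp)
      (fun u _ hu1 hu2 => h7 i le_rfl u (hne u hu1) hu1 hu2) (fun u _ hu1 hu2 => h8 i le_rfl u (hne u hu1) hu1 hu2)
    rw [biUnion_empty, union_empty] at g7 g8 g9
    refine ⟨[(A, D)], rfl, ?_, ?_, ?_, ?_⟩
    · rw [g7, card_insert_of_notMem g8, ← g5]
      simp
    · intro s hs
      obtain rfl : s = 0 := by omega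
      refine ⟨(A, D), rfl, ?_, ?_⟩
      · rw [g0.1, add_zero]
        congr 1
        ext x
        simp only [Set.mem_ofPred_eq]
        exact ⟨fun ⟨u, _, h⟩ => ⟨u, hne u h.1, h⟩, fun ⟨u, _, h⟩ => ⟨u, notMem_empty _, h⟩⟩
      · rw [g0.2, add_zero]
        congr 1
        ext x
        simp only [Set.mem_ofPred_eq]
        exact ⟨fun ⟨u, _, h⟩ => ⟨u, hne u h.1, h⟩, fun ⟨u, _, h⟩ => ⟨u, notMem_empty _, h⟩⟩
    · intro q hq
      rw [List.mem_singleton] at hq
      subst hq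
      exact ⟨g1, g2, g3, g4⟩
    · intro V R y S hy hS
      obtain ⟨S₁, S₂, s1, rfl, s2, s3⟩ := hS
      obtain ⟨f, hf⟩ := g10 s1 s2 s3
      exact hf.root g8 g7 hy g9
  | succ n ih =>
    intro i hi
    obtain ⟨L', l1, l2, l0, l3, l4⟩ := ih (i + 1) (by omega)
    obtain ⟨pe, pp⟩ := hp i (by omega)
    have hne : ∀ u, u ∉ ({p (i + 1)} : Finset τ) → P (p i) u → ∀ j ≤ m, u ≠ p j := by
      rintro u hu1 hu j hj rfl
      have := hnext i (by omega) j hj hu
      subst this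
      exact hu1 (mem_singleton_self _)
    obtain ⟨A, D, B, g0, g1, g2, g3, g4, g5, g6, g7, g8, g9, g10⟩ := sidesT (E := E) hE hin hP has hdeg (p i) {p (i + 1)}
      (fun u hu => by rw [mem_singleton] at hu; subst hu; exact ⟨pe, pp⟩)
      (fun u hu0 hu1 hu2 => h7 i (by omega) u (hne u hu0 hu1) hu1 hu2)
      (fun u hu0 hu1 hu2 => h8 i (by omega) u (hne u hu0 hu1) hu1 hu2)
    rw [singleton_biUnion] at g6 g7 g8 g9
    obtain ⟨q', L'', rfl⟩ : ∃ q' L'', L' = q' :: L'' := by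
      cases L' with
      | nil => simp at l1
      | cons q' L'' => exact ⟨q', L'', rfl⟩
    refine ⟨(A, D) :: q' :: L'', by rw [List.length_cons, l1], ?_, ?_, ?_, ?_⟩
    · rw [List.map_cons, List.sum_cons, l2, g7, card_insert_of_notMem g8, card_union_of_disjoint g6, ← g5]
      simp only
      omega
    · intro s hs
      rcases s with _ | s
      · refine ⟨(A, D), rfl, ?_, ?_⟩
        · rw [g0.1, add_zero]
          congr 1
          ext x
          simp only [Set.mem_ofPred_eq]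
          refine ⟨fun ⟨u, h1, h2⟩ => ⟨u, hne u h1 h2.1, h2⟩, fun ⟨u, h1, h2⟩ => ⟨u, ?_, h2⟩⟩
          rw [mem_singleton]
          exact h1 (i + 1) (by omega)
        · rw [g0.2, add_zero]
          congr 1
          ext x
          simp only [Set.mem_ofPred_eq]
          refine ⟨fun ⟨u, h1, h2⟩ => ⟨u, hne u h1 h2.1, h2⟩, fun ⟨u, h1, h2⟩ => ⟨u, ?_, h2⟩⟩
          rw [mem_singleton]
          exact h1 (i + 1) (by omega)
      · obtain ⟨q, hq1, hq2, hq3⟩ := l0 s (by omega)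
        refine ⟨q, by simpa using hq1, ?_, ?_⟩
        · rw [hq2, show i + 1 + s = i + (s + 1) by omega]
        · rw [hq3, show i + 1 + s = i + (s + 1) by omega]
    · intro q hq
      rcases List.mem_cons.1 hq with rfl | hq
      · exact ⟨g1, g2, g3, g4⟩
      · exact l3 q hq
    · intro V R y S hy hS
      obtain ⟨S₁, S₂, z, S₃, s1, s2, s3, s4, rfl, s5, s6, s7⟩ := hS
      obtain ⟨f, hf⟩ := g10 s1 s5 s6
      obtain ⟨f', hf'⟩ := (l4 s3 s7).blk hE hin pp pe (has _ _ pe) s4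
      exact (hf.union hf' g6 s2).root g8 g7 hy g9

end line

/-- the vertices on the other side of an edge -/
theorem below_of_dist {τ : Type*} [Fintype τ] {G : SimpleGraph τ} (hG : G.IsTree) (r : τ) {q u : τ}
    (hu : G.Adj q u ∧ G.dist r u = G.dist r q + 1) (n : ℕ) :
    ∀ x, G.dist u x = n → G.dist q x = G.dist u x + 1 →
      ReflTransGen (fun a c => G.Adj a c ∧ G.dist r c = G.dist r a + 1) u x := by
  induction n with
  | zero =>
    intro x hx _
    rw [hG.connected.dist_eq_zero_iff] at hx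
    rw [hx]
  | succ n ih =>
    intro x hx hq
    obtain ⟨w, hw⟩ := hG.connected.exists_walk_length_eq_dist u x
    have hnil : ¬ w.Nil := by
      intro hn
      have := SimpleGraph.Walk.length_eq_zero_iff.2 hn
      omega
    have hadj := w.adj_penultimate hnil
    have h1 : G.dist u w.penultimate ≤ n := by
      have h2 := SimpleGraph.dist_le w.dropLast
      have h3 : w.dropLast.length + 1 = w.length := by
        have := congrArg SimpleGraph.Walk.length (w.concat_dropLast hadj)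
        rw [SimpleGraph.Walk.length_concat] at this
        exact this
      omega
    have h1' : G.dist u x ≤ G.dist u w.penultimate + G.dist w.penultimate x := hG.connected.dist_triangle
    rw [SimpleGraph.dist_eq_one_iff_adj.2 hadj] at h1'
    have h2 : G.dist q x ≤ G.dist q w.penultimate + G.dist w.penultimate x := hG.connected.dist_triangle
    rw [SimpleGraph.dist_eq_one_iff_adj.2 hadj] at h2
    have h3 : G.dist q w.penultimate ≤ G.dist q u + G.dist u w.penultimate := hG.connected.dist_triangle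
    rw [SimpleGraph.dist_eq_one_iff_adj.2 hu.1] at h3
    have hy := ih w.penultimate (by omega) (by omega)
    rcases hG.dist_eq_dist_add_one_of_adj r hadj with h | h
    · -- `x` is the parent of the vertex before it
      rcases hy.cases_tail with h5 | ⟨c, h5, h6⟩
      · exfalso
        have h7 : x = q := by
          refine parent_unique hG r hadj.symm ?_ h ?_
          · rw [h5]; exact hu.1
          · rw [h5]; exact hu.2
        rw [h7, SimpleGraph.dist_self] at hq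
        omega
      · have h7 : x = c := parent_unique hG r hadj.symm h6.1 h h6.2
        rw [h7]
        exact h5
    · exact hy.tail ⟨hadj, h⟩

/-- An oriented tree with degrees at most `b` and a directed path `p 0, …, p m` such that runs towards the path are short in
the trees attached to it by arcs leaving it, and runs away from the path are short in the trees attached to it by arcs
entering it, is coded by a list of pairs of forests of the class. -/
theorem glueT {k b l : ℕ} {E : Fin (k + 1) → Fin (k + 1) → Prop} (h4 : ∀ a c, E a c → ¬ E c a)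
    (h5 : (SimpleGraph.fromRel E).IsTree) (h6 : ∀ v, {w | E v w ∨ E w v}.ncard ≤ b) {m : ℕ} {p : ℕ → Fin (k + 1)}
    (hp : ∀ i < m, E (p i) (p (i + 1)))
    (h7 : ∀ i ≤ m, ∀ u, E (p i) u → (∀ j ≤ m, u ≠ p j) → ∀ f : ℕ → Fin (k + 1), ¬ ∀ j ≤ l, E (f j) (f (j + 1)) ∧
      (SimpleGraph.fromRel E).dist (p i) (f (j + 1)) < (SimpleGraph.fromRel E).dist (p i) (f j) ∧
      (SimpleGraph.fromRel E).dist u (f j) < (SimpleGraph.fromRel E).dist (p i) (f j))
    (h8 : ∀ i ≤ m, ∀ u, E u (p i) → (∀ j ≤ m, u ≠ p j) → ∀ f : ℕ → Fin (k + 1), ¬ ∀ j ≤ l, E (f (j + 1)) (f j) ∧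
      (SimpleGraph.fromRel E).dist (p i) (f (j + 1)) < (SimpleGraph.fromRel E).dist (p i) (f j) ∧
      (SimpleGraph.fromRel E).dist u (f j) < (SimpleGraph.fromRel E).dist (p i) (f j)) :
    ∃ L : List (Fd × Fd), L.length = m + 1 ∧ (L.map (fun q => q.1.size + q.2.size + 1)).sum = k + 1 ∧
      (∀ i ≤ m, ∃ q, L[i]? = some q ∧ q.1.size = {x | ∃ u, E u (p i) ∧ (∀ j ≤ m, u ≠ p j) ∧
        (SimpleGraph.fromRel E).dist (p i) x = (SimpleGraph.fromRel E).dist u x + 1}.ncard ∧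
        q.1.size + q.2.size = {x | ∃ u, (E (p i) u ∨ E u (p i)) ∧ (∀ j ≤ m, u ≠ p j) ∧
        (SimpleGraph.fromRel E).dist (p i) x = (SimpleGraph.fromRel E).dist u x + 1}.ncard) ∧
      (∀ q ∈ L, FOK b l 0 q.1 ∧ FOK b l 0 q.2 ∧ (∀ t ∈ q.1.trees, t.1 = true) ∧ ∀ t ∈ q.2.trees, t.1 = true) ∧
      ∀ {V : Type} {R : V → V → Prop} {y : V} {S : Finset V}, y ∉ S → EmbS R L y S →
        ∃ f : Fin (k + 1) → V, Function.Injective f ∧ ∀ a c, E a c → R (f a) (f c) := by
  set G : SimpleGraph (Fin (k + 1)) := SimpleGraph.fromRel E with hG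
  have hadj : ∀ a c, G.Adj a c → E a c ∨ E c a := by
    intro a c h
    rw [hG, SimpleGraph.fromRel_adj] at h
    exact h.2
  have hadj' : ∀ a c, E a c → G.Adj a c := by
    intro a c h
    rw [hG, SimpleGraph.fromRel_adj]
    refine ⟨?_, Or.inl h⟩
    rintro rfl
    exact h4 _ _ h h
  set r : Fin (k + 1) := p 0 with hr
  set P : Fin (k + 1) → Fin (k + 1) → Prop := fun a c => G.Adj a c ∧ G.dist r c = G.dist r a + 1 with hPdef
  have hin : ∀ a b c, P a c → P b c → a = b := by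
    rintro a b c ⟨h1, h2⟩ ⟨h3, h4⟩
    exact parent_unique h5 r h1 h3 h2 h4
  have hpp : ∀ i < m, P (p i) (p (i + 1)) := by
    intro i
    induction i with
    | zero =>
      intro hi
      have h1 := hadj' _ _ (hp 0 hi)
      refine ⟨h1, ?_⟩
      rw [hr, SimpleGraph.dist_self, SimpleGraph.dist_eq_one_iff_adj.2 h1]
    | succ i ih =>
      intro hi
      have h1 := hadj' _ _ (hp (i + 1) hi)
      refine ⟨h1, ?_⟩
      rcases h5.dist_eq_dist_add_one_of_adj r h1 with h | h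
      · exfalso
        have h2 : p i = p (i + 1 + 1) := hin _ _ _ (ih (by omega)) ⟨h1.symm, h⟩
        have h3 := hp i (by omega)
        rw [h2] at h3
        exact h4 _ _ h3 (hp (i + 1) hi)
      · exact h
  -- the parent of a vertex below `u`
  have hpar : ∀ {q u : Fin (k + 1)}, P q u → ∀ {x y : Fin (k + 1)}, ReflTransGen P u x → P y x →
      G.dist q y < G.dist q x ∧ G.dist u x < G.dist q x := by
    intro q u hqu x y hx hy
    have e1 := dist_below' h5 r hqu hx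
    refine ⟨?_, by omega⟩
    rcases hx.cases_tail with h | ⟨c, h1, h2⟩
    · subst h
      have : y = q := hin _ _ _ hy hqu
      rw [this, SimpleGraph.dist_self, e1]
      omega
    · have : y = c := hin _ _ _ hy h2
      subst this
      have e2 := dist_below' h5 r hqu h1
      have e3 := dist_below h5 r u hx
      have e4 := dist_below h5 r u h1
      have e5 := h2.2
      omega
  obtain ⟨L, l1, l2, l0, l3, l4⟩ := lineT (E := E) (P := P) (h := fun v => G.dist r v) (fun a c h => h.2) hin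
    (fun a c h => hadj a c h.1) h4 h6 (fun i hi => ⟨hp i hi, hpp i hi⟩)
    (fun i hi u hu1 hu2 hu3 f hf => h7 i hi u hu3 hu1 f (fun j hj =>
      ⟨(hf j hj).1, hpar hu2 (hf j hj).2.2 (hf j hj).2.1⟩))
    (fun i hi u hu1 hu2 hu3 f hf => h8 i hi u hu3 hu1 f (fun j hj =>
      ⟨(hf j hj).1, hpar hu2 (hf j hj).2.2 (hf j hj).2.1⟩)) m 0 (by omega)
  have hroot : AE32.desc P r = univ := by
    rw [eq_univ_iff_forall]
    intro v
    exact AE32.mem_desc.2 (root_reach h5 r _ v rfl)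
  rw [← hr, hroot, card_univ, Fintype.card_fin] at l2
  refine ⟨L, l1, l2, ?_, l3, ?_⟩
  · intro i hi
    obtain ⟨q, hq1, hq2, hq3⟩ := l0 i (by omega)
    have hPu : ∀ u, (E (p i) u ∨ E u (p i)) → (∀ j ≤ m, u ≠ p j) → P (p i) u := by
      intro u u3 u1
      have hadu : G.Adj (p i) u := by
        rcases u3 with h | h
        · exact hadj' _ _ h
        · exact (hadj' _ _ h).symm
      refine ⟨hadu, ?_⟩
      rcases h5.dist_eq_dist_add_one_of_adj r hadu with h | h
      · exfalso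
        rcases i with _ | i
        · rw [hr, SimpleGraph.dist_self] at h
          omega
        · exact u1 i (by omega) (hin _ _ _ ⟨hadu.symm, h⟩ (hpp i (by omega)))
      · exact h
    refine ⟨q, hq1, ?_, ?_⟩
    · rw [hq2, zero_add]
      congr 1
      ext x
      constructor
      · rintro ⟨u, u1, u2, u3, hx⟩
        exact ⟨u, u3, u1, dist_below' h5 r u2 hx⟩
      · rintro ⟨u, u3, u1, hx⟩
        have h := hPu u (Or.inr u3) u1
        exact ⟨u, u1, h, u3, below_of_dist h5 r h _ x rfl hx⟩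
    · rw [hq3, zero_add]
      congr 1
      ext x
      constructor
      · rintro ⟨u, u1, u2, u3, hx⟩
        exact ⟨u, u3, u1, dist_below' h5 r u2 hx⟩
      · rintro ⟨u, u3, u1, hx⟩
        have h := hPu u u3 u1
        exact ⟨u, u1, h, u3, below_of_dist h5 r h _ x rfl hx⟩
  intro V R y S hy hS
  obtain ⟨f, -, -, f3, f4⟩ := l4 hy hS
  rw [← hr, hroot] at f3 f4
  refine ⟨f, fun a a' haa => f3 a (mem_univ _) a' (mem_univ _) haa, fun a c hac => ?_⟩
  rcases h5.dist_eq_dist_add_one_of_adj r (hadj' a c hac) with h | h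
  · exact (f4 c (mem_univ _) a ⟨(hadj' a c hac).symm, h⟩).2 hac
  · exact (f4 a (mem_univ _) c ⟨hadj' a c hac, h⟩).1 hac

end AEG
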