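import Pool.Agent.AEG.IndF
import Pool.Agent.AEG.NumG
import Pool.Agent.AEG.DriverM

/-!
# The fine class: the coded statement from the rounds
-/

set_option autoImplicit false

namespace AEG

open Finset AE15 AED AEB
open scoped Classical

theorem tail_bare {q : Fd × Fd} {L' L : List (Fd × Fd)} {n : ℕ} (h : (q :: L') <:+ (List.replicate n bare ++ L)) :
    q = bare ∨ (q :: L') <:+ L := by
  induction n with
  | zero => exact Or.inr (by simpa using h)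
  | succ n ih =>
    rw [List.replicate_succ, List.cons_append, List.suffix_cons_iff] at h
    rcases h with h | h
    · exact Or.inl (List.cons.inj h).1
    · exact ih h

theorem drop_bare {L : List (Fd × Fd)} {n i : ℕ} : (List.replicate n bare ++ L).drop (n + i) = L.drop i := by
  rw [← List.drop_drop]
  congr 1
  rw [List.drop_left' (by simp)]

theorem ClsF.bare {b l K₀ K₂ N₁ B : ℕ} {θ : ℝ} {L : List (Fd × Fd)} (h : ClsF b l K₀ K₂ N₁ B θ L) (hθ : 0 ≤ θ) :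
    ClsF b l K₀ K₂ (N₁ + 8) B θ (List.replicate 8 AEG.bare ++ L) := by
  have hb1 : AEG.bare.1.size = 0 := by simp [AEG.bare, Fd.size]
  have hb2 : AEG.bare.2.size = 0 := by simp [AEG.bare, Fd.size]
  refine ⟨?_, ?_, ?_, ?_, ?_⟩
  · intro q hq
    rcases List.mem_append.1 hq with hq | hq
    · rw [List.eq_of_mem_replicate hq]
      exact ⟨fok_nil b l, fok_nil b l, by simp [AEG.bare, Fd.trees], by simp [AEG.bare, Fd.trees]⟩
    · exact h.br q hq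
  · intro q L' hs hL'
    rcases tail_bare hs with rfl | hs
    · unfold NoD
      rw [hb2]
      exact Nat.zero_le _
    · exact h.noD q L' hs hL'
  · intro q hs
    rcases tail_bare hs with rfl | hs
    · rw [hb1, hb2]
      exact Nat.zero_le _
    · exact h.last q hs
  · intro q L' hs
    rcases tail_bare hs with rfl | hs
    · rw [hb1]
      push_cast
      positivity
    · exact h.inn q L' hs
  · intro i hi
    rw [List.length_append, List.length_replicate] at hi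
    by_cases h8 : 8 ≤ i
    · obtain ⟨j, h1, h2, h3⟩ := h.flat (i - 8) (by omega)
      refine ⟨8 + j, by omega, by omega, ?_⟩
      rw [add_assoc, drop_bare, drop_bare]
      exact h3
    · obtain ⟨j, h1, h2, h3⟩ := h.flat 0 (by omega)
      refine ⟨8 + j, by omega, by omega, ?_⟩
      rw [add_assoc, drop_bare, drop_bare]
      exact h3

theorem szS_bare (n : ℕ) (L : List (Fd × Fd)) : szS (List.replicate n bare ++ L) = n + szS L := by
  rw [szS_append]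
  congr 1
  simp [szS, bare, Fd.size]

theorem inS_bare8 (L : List (Fd × Fd)) : inS ((List.replicate 8 bare ++ L).take 8) = 0 := by
  rw [List.take_left' (by simp)]
  simp [inS, bare, Fd.size]

/-- **The driver of the fine class without critical groups** -/
theorem driverF {b l K₀ M₉ K₁ Λ A : ℕ} {κ η s δ : ℝ} (hs : 0 < s) (hδ : 0 < δ) (hΛ : 16 ≤ Λ)
    (hL : RoundL b l K₀ κ η s δ M₉ K₁) (hN : CloseN b l K₀ κ η s Λ A) (hD : CloseD b l K₀ κ η s Λ A)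
    (hE : CloseE b l K₀ κ η s Λ A) (hS : StartF κ η s) :
    ∃ K₂ : ℕ, ∀ N₁ B : ℕ, ∃ (θ : ℝ) (C : ℕ), 0 < θ ∧ ∀ {V : Type} {R : V → V → Prop}, AE32.Tour R →
      ∀ L : List (Fd × Fd), L ≠ [] → ClsF b l K₀ K₂ N₁ B θ L → ∀ X : Finset V, szS L + C ≤ X.card → InX R L X := by
  obtain ⟨e, k1, k2, K₃, Kh, K₂, he0, hnum⟩ := exists_numF hδ M₉ Λ A hΛ
  refine ⟨K₂, ?_⟩
  intro N₁ B
  obtain ⟨Nn, hNn⟩ : ∃ Nn, Nn = N₁ + 8 := ⟨_, rfl⟩
  obtain ⟨ζ, hζ⟩ : ∃ ζ : ℝ, ζ = 1 / ((2 * K₀ + 4 : ℕ) ^ (Nn + 3) * (2 * B + 3) : ℕ) := ⟨_, rfl⟩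
  have hpos : (0 : ℝ) < ((2 * K₀ + 4 : ℕ) ^ (Nn + 3) * (2 * B + 3) : ℕ) := by
    have : 0 < (2 * K₀ + 4 : ℕ) ^ (Nn + 3) * (2 * B + 3) := by positivity
    exact_mod_cast this
  have hζ0 : 0 < ζ := by rw [hζ]; positivity
  have hζ1 : ζ * ((2 * K₀ + 4 : ℕ) ^ (Nn + 3) * (2 * B + 3) : ℕ) ≤ 1 := by
    rw [hζ, one_div, inv_mul_cancel₀ hpos.ne']
  obtain ⟨fN, KN, hN⟩ := closeN_iff.1 hN Nn ζ hζ0
  obtain ⟨fD, KD, hD⟩ := closeD_iff.1 hD Nn ζ hζ0
  obtain ⟨fE, KE, hE⟩ := closeE_iff.1 hE Nn ζ hζ0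
  obtain ⟨f, hf⟩ : ∃ f, f = fN + fD + fE := ⟨_, rfl⟩
  obtain ⟨K, hK⟩ : ∃ K, K = K₁ + KN + KD + KE := ⟨_, rfl⟩
  obtain ⟨CL, hL⟩ := roundL_iff.1 hL f K
  obtain ⟨ξN, CN, hξN, hN⟩ := hN f K (by omega)
  obtain ⟨ξD, CD, hξD, hD⟩ := hD f K (by omega)
  obtain ⟨ξE, CE, hξE, hE⟩ := hE f K (by omega)
  obtain ⟨C, hC⟩ : ∃ C, C = CL + CN + CD + CE := ⟨_, rfl⟩
  obtain ⟨ξ, hξ⟩ : ∃ ξ : ℝ, ξ = min ξN (min ξD ξE) := ⟨_, rfl⟩
  have hξ0 : 0 < ξ := by rw [hξ]; exact lt_min hξN (lt_min hξD hξE)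
  have hξN' : ξ ≤ ξN := by rw [hξ]; exact min_le_left _ _
  have hξD' : ξ ≤ ξD := by rw [hξ]; exact (min_le_right _ _).trans (min_le_left _ _)
  have hξE' : ξ ≤ ξE := by rw [hξ]; exact (min_le_right _ _).trans (min_le_right _ _)
  have hL' : RoundLC b l K₀ κ η s δ M₉ K f K C := hL.mono (by omega) (by omega)
  have hN' : CloseNC b l K₀ κ η s Λ A Nn ζ K f K ξ C := hN.mono (by omega) (by omega) hξN'
  have hD' : CloseDC b l K₀ κ η s Λ A Nn ζ K f K ξ C := hD.mono (by omega) (by omega) hξD'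
  have hE' : CloseEC b l K₀ κ η s Λ A Nn ζ K f K ξ C := hE.mono (by omega) (by omega) hξE'
  obtain ⟨θ, C₅, Bq, B₂, W₀, hθ0, hnum⟩ := hnum Nn B C ξ hξ0
  obtain ⟨W, hW⟩ : ∃ W, W = W₀ + 8 * B₂ := ⟨_, rfl⟩
  have num := hnum W (by omega)
  obtain ⟨sigE, hsigE⟩ : ∃ sigE, sigE = 16 * (2 * B₂) + M₉ * (16 * (2 * B₂) + C) + C := ⟨_, rfl⟩
  obtain ⟨CEnd, hEnd⟩ := endF hs hδ le_rfl hL' (2 * B₂) sigE hsigE.ge W K₂ Nn B (by omega)
  obtain ⟨n₀, hS⟩ := hS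
  obtain ⟨C₁, hC₁⟩ := exists_nat_ge (4 * (((2 * K₀ + 4) ^ (Nn + 12) * (2 * B + 2) : ℕ) : ℝ) / s)
  obtain ⟨C₂, hC₂⟩ := exists_nat_ge ((C₅ : ℝ) / s)
  rw [div_le_iff₀ hs] at hC₁ hC₂
  obtain ⟨C₀, hC₀⟩ : ∃ C₀, C₀ = C + 1 + CEnd + n₀ + C₁ + C₂ := ⟨_, rfl⟩
  refine ⟨θ, C₀ + 8, hθ0, ?_⟩
  intro V R hT L hne hcl X hX
  have hcl' := hcl.bare hθ0.le
  rw [← hNn] at hcl'
  have hsz := szS_bare 8 L
  obtain ⟨L₁, hL₁⟩ : ∃ L₁, L₁ = List.replicate 8 bare ++ L := ⟨_, rfl⟩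
  rw [← hL₁] at hcl' hsz
  have hne₁ : L₁ ≠ [] := by rw [hL₁]; simp [List.replicate]
  -- the initial state
  have hst : ∀ sig : ℕ, StE R X ∅ (fun _ => True) κ η s C₅ sig f 0 K 0 := by
    intro sig
    refine ⟨empty_subset _, ?_, ?_, ?_⟩
    · apply hS hT X C₅ (by omega)
      have h1 : (C₂ : ℝ) ≤ X.card := by
        have : C₂ ≤ X.card := by omega
        exact_mod_cast this
      have h2 := mul_le_mul_of_nonneg_left h1 hs.le
      linarith
    · intro j hj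
      simp
    · intro u hu
      exact absurd hu (by simp)
  have hEnd' : ∀ {L : List (Fd × Fd)}, L ≠ [] → ClsF b l K₀ K₂ Nn B θ L → ∀ {X : Finset V} {N : V → Prop} {lam w : ℕ},
      StE R X ∅ N κ η s lam sigE f w K 0 → w ≤ W → inS L ≤ 2 * B₂ → 16 * inS (L.take 3) + C ≤ lam →
      szS L + C₀ ≤ X.card → InS R L N X := by
    intro L hne hcl X N lam w h1 h2 h3 h4 h5
    exact hEnd hT num.θ2 L.length rfl hne hcl h1 h2 h3 h4 (by omega)
  have hC₀s : 4 * (((2 * K₀ + 4) ^ (Nn + 12) * (2 * B + 2) : ℕ) : ℝ) ≤ s * C₀ := by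
    have h1 : (C₁ : ℝ) ≤ C₀ := by
      have : C₁ ≤ C₀ := by omega
      exact_mod_cast this
    have h2 := mul_le_mul_of_nonneg_left h1 hs.le
    linarith
  have htake : inS (L₁.take 8) = 0 := by rw [hL₁]; exact inS_bare8 L
  have key : InS R L₁ (fun _ => True) X := by
    by_cases hB : B₂ ≤ inS L₁
    · refine driver_ind hs num hζ0 hζ1 hL' hN' hD' hE' (C₀ := C₀) (by omega) hC₀s hT (sigE := sigE) (by omega) hEnd'
        L₁.length rfl hne₁ hcl' (M := inS L₁) (w := 0) (lam := C₅) (k := 0) (r := 8) (hst _) (by omega) le_rfl (by omega)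
        hB ?_ ⟨le_rfl, ?_, fun i hi => by omega⟩ (Or.inl ⟨rfl, by omega, ?_⟩)
      · apply JF.start he0.le (Nat.cast_nonneg _)
        push_cast
        positivity
      · rw [List.drop_zero, htake]
        omega
      · rw [htake]
        omega
    · refine hEnd' hne₁ hcl' (hst _) (Nat.zero_le _) (by omega) ?_ (by omega)
      have h1 : inS (L₁.take 3) ≤ inS (L₁.take 8) := inS_take_mono _ (by omega)
      have := num.C₅a
      omega
  rw [hL₁] at key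
  obtain ⟨y, hy, -, S, hS', hyS, hE''⟩ := key.of_append_left hne
  exact ⟨y, hy, S, hS', hyS, hE''⟩

end AEG
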