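import Pool.Agent.AEG.FinalF

/-!
# The class with critical groups: from trees to coded lines
-/

set_option autoImplicit false

namespace AEG

open Finset Relation AE15 AED AEB
open scoped Classical

/-- the graph form without the condition on the growth of the in-branches -/
theorem final_of_CodG (Δ l K₀ B : ℕ) (θ : ℝ) (C : ℕ) (hC : CodF (Δ + 1) l K₀ 0 8 B θ C) : ∀ k n : ℕ,
    k + (C + 1) ≤ n → ∀ R : Fin n → Fin n → Prop,
    (∀ a, ¬ R a a) → (∀ a b, a ≠ b → R a b ∨ R b a) → (∀ a b, R a b → ¬ R b a) →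
    ∀ E : Fin (k + 1) → Fin (k + 1) → Prop,
      (∀ a b, E a b → ¬ E b a) →
      (SimpleGraph.fromRel E).IsTree →
      (∀ v, ((SimpleGraph.fromRel E).neighborSet v).ncard ≤ Δ) →
      (∃ (m : ℕ) (p : ℕ → Fin (k + 1)) (a d s : ℕ → ℕ), (∀ i < m, E (p i) (p (i + 1))) ∧
        (∀ i ≤ m, ∀ u, E (p i) u → (∀ j ≤ m, u ≠ p j) → ∀ q : ℕ → Fin (k + 1), ¬ ∀ j ≤ l, E (q j) (q (j + 1)) ∧
          (SimpleGraph.fromRel E).dist (p i) (q (j + 1)) < (SimpleGraph.fromRel E).dist (p i) (q j) ∧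
          (SimpleGraph.fromRel E).dist u (q j) < (SimpleGraph.fromRel E).dist (p i) (q j)) ∧
        (∀ i ≤ m, ∀ u, E u (p i) → (∀ j ≤ m, u ≠ p j) → ∀ q : ℕ → Fin (k + 1), ¬ ∀ j ≤ l, E (q (j + 1)) (q j) ∧
          (SimpleGraph.fromRel E).dist (p i) (q (j + 1)) < (SimpleGraph.fromRel E).dist (p i) (q j) ∧
          (SimpleGraph.fromRel E).dist u (q j) < (SimpleGraph.fromRel E).dist (p i) (q j)) ∧
        (∀ i ≤ m, a i = {x | ∃ u, E u (p i) ∧ (∀ j ≤ m, u ≠ p j) ∧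
          (SimpleGraph.fromRel E).dist (p i) x = (SimpleGraph.fromRel E).dist u x + 1}.ncard) ∧
        (∀ i ≤ m, d i = {x | ∃ u, E (p i) u ∧ (∀ j ≤ m, u ≠ p j) ∧
          (SimpleGraph.fromRel E).dist (p i) x = (SimpleGraph.fromRel E).dist u x + 1}.ncard) ∧
        (∀ i ≤ m, s i = {x | (SimpleGraph.fromRel E).dist (p 0) x =
          (SimpleGraph.fromRel E).dist (p 0) (p i) + (SimpleGraph.fromRel E).dist (p i) x}.ncard) ∧
        (∀ i < m, d i ≤ K₀ * s (i + 1)) ∧ a m + d m ≤ B ∧ (∀ i ≤ m, (a i : ℝ) ≤ θ * s i + B)) →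
      ∃ f : Fin (k + 1) → Fin n, Function.Injective f ∧ ∀ a b, E a b → R (f a) (f b) := by
  intro k n hn R h1 h2 h3 E h4 h5 h6 ⟨m, p, a, d, s, hp, h7, h8, ha, hd, hs, c1, c2, c3⟩
  exact final_of_CodF Δ l K₀ 0 8 B θ C hC k n hn R h1 h2 h3 E h4 h5 h6
    ⟨m, p, a, d, s, hp, h7, h8, ha, hd, hs, c1, c2, c3, fun i hi => ⟨i, le_rfl, by omega, by simp⟩⟩

end AEG
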