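import Pool.Agent.AEG.DefsF
import Pool.Agent.AEG.Route

/-!
# The entry links of a group round of the fine class

`front3`: the three link hosts `v`, `a`, `w'` in front of the first host `y₁` of the next group: `v` has property `N`, `a`
and `w'` are in the first part `P₁` of the cut.
-/

set_option autoImplicit false

namespace AEG

open Finset AE15 AED AEB SPD
open scoped Classical

variable {V : Type*} {R : V → V → Prop}

/-- few vertices of a tournament have small out-degree in it -/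
theorem card_small_out (hT : AE32.Tour R) (B : Finset V) (j : ℕ) :
    (B.filter (fun u => (nO R B u).card ≤ j)).card ≤ 2 * (j + 1) := by
  have h1 := card_low_in (rv_tour hT) (j + 1) B
  refine (card_le_card ?_).trans h1
  intro u hu
  rw [mem_filter] at hu
  rw [mem_low]
  exact ⟨hu.1, Nat.lt_succ_of_le hu.2⟩

/-- **The entry links of a group round.** -/
theorem front3 (hT : AE32.Tour R) {X P₁ F : Finset V} {N : V → Prop} {κ η s : ℝ} {lam sig f w K' e r lr ls : ℕ}
    {y₁ : V} (hS : StE R X ∅ N κ η s lam sig f w K' 0) (hP : P₁ ⊆ X) (hy : y₁ ∉ P₁) (hf : F.card + 3 ≤ f)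
    (hr : r ≤ lam) (hlr : (P₁.filter (fun u => (nI R X u).card < r)).card ≤ lr)
    (hls : (P₁.filter (fun u => (nI R X u).card < sig)).card ≤ ls)
    (hc : (P₁.filter (fun u => R y₁ u ∧ (P₁.filter (fun w => R u w ∧ R w y₁)).card ≤ F.card + 3 + lr)).card ≤ e)
    (hbig : w + K' * (F.card + 3) + lr + ls + 2 * (F.card + 3 + lr) + e + F.card + 4 ≤ P₁.card) :
    ∃ v a w', (v ∈ cg R X ∅ N κ η lam ∨ v ∈ P₁) ∧ v ∈ X ∧ N v ∧ a ∈ P₁ ∧ w' ∈ P₁ ∧ v ∉ F ∧ a ∉ F ∧ w' ∉ F ∧ v ≠ a ∧
      v ≠ w' ∧ a ≠ w' ∧ R v a ∧ R a w' ∧ R w' y₁ ∧ r ≤ (nI R X v).card ∧ r ≤ (nI R X a).card ∧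
      r ≤ (nI R X w').card := by
  obtain ⟨J, hJ⟩ : ∃ J, J = F.card + 3 + lr := ⟨_, rfl⟩
  obtain ⟨B, hB⟩ : ∃ B, B = P₁.filter (fun u => R u y₁) := ⟨_, rfl⟩
  obtain ⟨A, hA⟩ : ∃ A, A = P₁.filter (fun a => a ∉ F ∧ r ≤ (nI R X a).card ∧
      (N a ∨ F.card + 3 < (nI R (cg R X ∅ N κ η lam) a).card) ∧
      J < (P₁.filter (fun w => R a w ∧ R w y₁)).card) := ⟨_, rfl⟩
  -- the third link
  have hw : ∀ a ∈ A, ∃ w' ∈ P₁, w' ∉ F ∧ R a w' ∧ R w' y₁ ∧ r ≤ (nI R X w').card := by
    intro a ha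
    rw [hA, mem_filter] at ha
    have h1 : (F ∪ P₁.filter (fun u => (nI R X u).card < r)).card ≤ J := by
      have := card_union_le F (P₁.filter (fun u => (nI R X u).card < r))
      omega
    obtain ⟨w', h2, h3⟩ := exists_mem_notMem_of_card_lt_card (lt_of_le_of_lt h1 ha.2.2.2.2)
    rw [mem_filter] at h2
    rw [mem_union, not_or, mem_filter, not_and, not_lt] at h3
    exact ⟨w', h2.1, h3.1, h2.2.1, h2.2.2, h3.2 h2.1⟩
  -- the number of the usable vertices
  have hA2 : 1 < A.card := by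
    have h1 : P₁ ⊆ A ∪ (F ∪ (P₁.filter (fun u => (nI R X u).card < r) ∪ (P₁.filter (fun u => (nI R X u).card < sig) ∪
        ((X \ ∅).filter (fun u => ¬ N u ∧ sig ≤ (nI R X u).card ∧
          (nI R (cg R X ∅ N κ η lam) u).card ≤ F.card + 3) ∪ (B.filter (fun u => (nO R B u).card ≤ J) ∪
        P₁.filter (fun u => R y₁ u ∧ (P₁.filter (fun w => R u w ∧ R w y₁)).card ≤ F.card + 3 + lr)))))) := by
      intro a ha
      by_cases h1 : a ∈ F
      · exact mem_union_right _ (mem_union_left _ h1)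
      by_cases h2 : (nI R X a).card < r
      · exact mem_union_right _ (mem_union_right _ (mem_union_left _ (mem_filter.2 ⟨ha, h2⟩)))
      by_cases h3 : (nI R X a).card < sig
      · exact mem_union_right _ (mem_union_right _ (mem_union_right _ (mem_union_left _ (mem_filter.2 ⟨ha, h3⟩))))
      by_cases h4 : ¬ N a ∧ (nI R (cg R X ∅ N κ η lam) a).card ≤ F.card + 3
      · refine mem_union_right _ (mem_union_right _ (mem_union_right _ (mem_union_right _ (mem_union_left _ ?_))))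
        rw [mem_filter, mem_sdiff]
        exact ⟨⟨hP ha, notMem_empty _⟩, h4.1, by omega, h4.2⟩
      have hne : a ≠ y₁ := fun h => hy (h ▸ ha)
      by_cases h5 : (P₁.filter (fun w => R a w ∧ R w y₁)).card ≤ J
      · rcases hT.tot a y₁ hne with h6 | h6
        · refine mem_union_right _ (mem_union_right _ (mem_union_right _ (mem_union_right _ (mem_union_right _
            (mem_union_left _ ?_)))))
          rw [mem_filter]
          refine ⟨by rw [hB, mem_filter]; exact ⟨ha, h6⟩, (card_le_card ?_).trans h5⟩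
          intro u hu
          rw [mem_nO, hB, mem_filter] at hu
          rw [mem_filter]
          exact ⟨hu.1.1, hu.2, hu.1.2⟩
        · refine mem_union_right _ (mem_union_right _ (mem_union_right _ (mem_union_right _ (mem_union_right _
            (mem_union_right _ ?_)))))
          rw [mem_filter]
          exact ⟨ha, h6, by omega⟩
      · refine mem_union_left _ ?_
        rw [hA, mem_filter]
        refine ⟨ha, h1, by omega, ?_, by omega⟩
        by_cases h7 : N a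
        · exact Or.inl h7
        · right
          by_contra h8
          exact h4 ⟨h7, by omega⟩
    have h2 := card_le_card h1
    have h3 := card_union_le A (F ∪ (P₁.filter (fun u => (nI R X u).card < r) ∪ (P₁.filter (fun u => (nI R X u).card < sig) ∪
        ((X \ ∅).filter (fun u => ¬ N u ∧ sig ≤ (nI R X u).card ∧
          (nI R (cg R X ∅ N κ η lam) u).card ≤ F.card + 3) ∪ (B.filter (fun u => (nO R B u).card ≤ J) ∪
        P₁.filter (fun u => R y₁ u ∧ (P₁.filter (fun w => R u w ∧ R w y₁)).card ≤ F.card + 3 + lr))))))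
    have h4 := card_union_le F (P₁.filter (fun u => (nI R X u).card < r) ∪ (P₁.filter (fun u => (nI R X u).card < sig) ∪
        ((X \ ∅).filter (fun u => ¬ N u ∧ sig ≤ (nI R X u).card ∧
          (nI R (cg R X ∅ N κ η lam) u).card ≤ F.card + 3) ∪ (B.filter (fun u => (nO R B u).card ≤ J) ∪
        P₁.filter (fun u => R y₁ u ∧ (P₁.filter (fun w => R u w ∧ R w y₁)).card ≤ F.card + 3 + lr)))))
    have h5 := card_union_le (P₁.filter (fun u => (nI R X u).card < r)) (P₁.filter (fun u => (nI R X u).card < sig) ∪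
        ((X \ ∅).filter (fun u => ¬ N u ∧ sig ≤ (nI R X u).card ∧
          (nI R (cg R X ∅ N κ η lam) u).card ≤ F.card + 3) ∪ (B.filter (fun u => (nO R B u).card ≤ J) ∪
        P₁.filter (fun u => R y₁ u ∧ (P₁.filter (fun w => R u w ∧ R w y₁)).card ≤ F.card + 3 + lr))))
    have h6 := card_union_le (P₁.filter (fun u => (nI R X u).card < sig))
        ((X \ ∅).filter (fun u => ¬ N u ∧ sig ≤ (nI R X u).card ∧
          (nI R (cg R X ∅ N κ η lam) u).card ≤ F.card + 3) ∪ (B.filter (fun u => (nO R B u).card ≤ J) ∪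
        P₁.filter (fun u => R y₁ u ∧ (P₁.filter (fun w => R u w ∧ R w y₁)).card ≤ F.card + 3 + lr)))
    have h7 := card_union_le ((X \ ∅).filter (fun u => ¬ N u ∧ sig ≤ (nI R X u).card ∧
          (nI R (cg R X ∅ N κ η lam) u).card ≤ F.card + 3)) (B.filter (fun u => (nO R B u).card ≤ J) ∪
        P₁.filter (fun u => R y₁ u ∧ (P₁.filter (fun w => R u w ∧ R w y₁)).card ≤ F.card + 3 + lr))
    have h8 := card_union_le (B.filter (fun u => (nO R B u).card ≤ J))
        (P₁.filter (fun u => R y₁ u ∧ (P₁.filter (fun w => R u w ∧ R w y₁)).card ≤ F.card + 3 + lr))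
    have h9 := hS.cnt (F.card + 3) hf
    have h10 := card_small_out hT B J
    omega
  obtain ⟨a, ha, b, hb, hab⟩ := one_lt_card.1 hA2
  have key : ∀ a ∈ A, ¬ N a → ∃ v a w', (v ∈ cg R X ∅ N κ η lam ∨ v ∈ P₁) ∧ v ∈ X ∧ N v ∧ a ∈ P₁ ∧ w' ∈ P₁ ∧ v ∉ F ∧
      a ∉ F ∧ w' ∉ F ∧ v ≠ a ∧ v ≠ w' ∧ a ≠ w' ∧ R v a ∧ R a w' ∧ R w' y₁ ∧ r ≤ (nI R X v).card ∧
      r ≤ (nI R X a).card ∧ r ≤ (nI R X w').card := by
    intro a ha hN
    obtain ⟨w', w1, w2, w3, w4, w5⟩ := hw a ha
    rw [hA, mem_filter] at ha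
    obtain ⟨a1, a2, a3, a4, -⟩ := ha
    have h1 : (insert w' F).card < (nI R (cg R X ∅ N κ η lam) a).card := by
      have h2 := card_insert_le w' F
      have h3 := a4.resolve_left hN
      omega
    obtain ⟨v, v1, v2⟩ := exists_mem_notMem_of_card_lt_card h1
    rw [mem_nI] at v1
    rw [mem_insert, not_or] at v2
    have v3 := v1.1
    rw [mem_cg, union_empty] at v3
    exact ⟨v, a, w', Or.inl v1.1, v3.1, v3.2.1, a1, w1, v2.2, a2, w2, fun h => hT.irr a (h ▸ v1.2), v2.1,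
      fun h => hT.irr a (by rw [← h] at w3; exact w3), v1.2, w3, w4, hr.trans v3.2.2.2, a3, w5⟩
  have key2 : ∀ a ∈ A, ∀ b ∈ A, N a → R a b → ∃ v a w', (v ∈ cg R X ∅ N κ η lam ∨ v ∈ P₁) ∧ v ∈ X ∧ N v ∧ a ∈ P₁ ∧
      w' ∈ P₁ ∧ v ∉ F ∧ a ∉ F ∧ w' ∉ F ∧ v ≠ a ∧ v ≠ w' ∧ a ≠ w' ∧ R v a ∧ R a w' ∧ R w' y₁ ∧ r ≤ (nI R X v).card ∧
      r ≤ (nI R X a).card ∧ r ≤ (nI R X w').card := by
    intro a ha b hb hN hab
    obtain ⟨w', w1, w2, w3, w4, w5⟩ := hw b hb
    rw [hA, mem_filter] at ha hb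
    obtain ⟨a1, a2, a3, -, -⟩ := ha
    obtain ⟨b1, b2, b3, -, -⟩ := hb
    exact ⟨a, b, w', Or.inr a1, hP a1, hN, b1, w1, a2, b2, w2, fun h => hT.irr b (by rw [h] at hab; exact hab),
      fun h => hT.asym _ _ hab (h ▸ w3), fun h => hT.irr b (by rw [← h] at w3; exact w3), hab, w3, w4, a3, b3, w5⟩
  by_cases hNa : N a
  · by_cases hNb : N b
    · rcases hT.tot a b hab with h | h
      · exact key2 a ha b hb hNa h
      · exact key2 b hb a ha hNb h
    · exact key b hb hNb
  · exact key a ha hNa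

end AEG
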