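import Pool.Agent.AEG.GCut

/-!
# The group cut, second part small: the dual of `AEG.gcut`

Everything is obtained from `AEG.gcut` for the reversed tournament; the list of the hosts is reversed.
-/

set_option autoImplicit false

namespace AEG

open Finset AE15 SPD
open scoped Classical

variable {V : Type*} {R : V → V → Prop}

/-- the conclusion of the group cut lemma, second part small: `y` is the first host, the out-side of every host is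
`P₂` in the small set `U₂`, the in-side of the first host is `P₁` -/
structure GCD (R : V → V → Prop) (X Bd Bad : Finset V) (p q N e : ℕ) (κ₀ η : ℝ) (G : Finset V) (ys : List V) (y : V)
    (P₁ P₂ U₂ Rsv Gc Ex : Finset V) : Prop where
  hGX : G ⊆ X
  hG : 15 * (κ₀ * X.card) ≤ G.card
  good : ∀ g ∈ G, Good (rv R) (κ₀ ^ 2 / 4) η X g
  bulk : ∀ u ∈ X, u ∉ G → ((nI R G u).card : ℝ) < 2 * κ₀ * X.card
  len : ys.length = N
  nodup : ys.Nodup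
  chain : ys.IsChain R
  first : ys.head? = some y
  hys : ∀ z ∈ ys, z ∈ G ∧ z ∈ U₂ ∧ z ∉ P₁ ∧ z ∉ P₂ ∧ z ∉ Bd
  hP₂ : P₂ ⊆ U₂
  hU₂ : U₂ ⊆ G
  hU₂c : U₂.card ≤ 2 * q
  card₂ : P₂.card = p
  disj : Disjoint P₁ P₂
  part : ∀ u, u ∈ P₁ ↔ u ∈ X ∧ u ∉ P₂ ∧ u ∉ ys
  out : ∀ z ∈ ys, MSide R U₂ P₂ (κ₀ ^ 2 / 8 * U₂.card) (2 * η * U₂.card) (η / 8) (η / 8) (4 * (N * (e + 1))) z
  out₁ : ∀ z ∈ ys.getLast?, MSide R U₂ P₂ (κ₀ ^ 2 / 8 * U₂.card) (2 * η * U₂.card) (η / 8) (η / 8) (N * e) z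
  hRsv : ∀ w ∈ Rsv, w ∈ P₁ ∧ w ∈ G ∧ w ∉ Bad
  hRc : Rsv.card ≤ 2 * q + e + 1
  lin : κ₀ * X.card ≤ ((P₁.filter (fun w => R w y ∧ w ∈ G ∧ w ∉ Bad)).card : ℝ)
  inn : ∀ u ∈ P₁, R y u → u ∈ Ex ∨ (∃ w ∈ Rsv, R w y ∧ R u w) ∨ u ∈ Gc ∨
    κ₀ * X.card ≤ ((P₁.filter (fun w => R w y ∧ R u w ∧ w ∈ G ∧ w ∉ Bad)).card : ℝ)
  cnt : ∀ j : ℕ, (j : ℝ) ≤ κ₀ * X.card →
    (Gc.filter (fun u => (P₁.filter (fun w => R w y ∧ R u w ∧ w ∈ G ∧ w ∉ Bad)).card ≤ j)).card ≤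
      6 * j + 4 * Bad.card + 4 * (N * e)
  hEx : Ex.card ≤ e

/-- the reversal of a chain -/
theorem isChain_rv_reverse {ys : List V} (h : ys.IsChain (rv R)) : ys.reverse.IsChain R := by
  rw [List.isChain_reverse]
  exact h

theorem GC.dual {X Bd Bad : Finset V} {p q N e : ℕ} {κ₀ η : ℝ} {G : Finset V} {ys : List V} {y : V}
    {P₁ P₂ U₂ Rsv Gc Ex : Finset V} (h : GC (rv R) X Bd Bad p q N e κ₀ η G ys y P₂ P₁ U₂ Rsv Gc Ex) :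
    GCD R X Bd Bad p q N e κ₀ η G ys.reverse y P₁ P₂ U₂ Rsv Gc Ex where
  hGX := h.hGX
  hG := h.hG
  good := h.good
  bulk := h.bulk
  len := by rw [List.length_reverse]; exact h.len
  nodup := List.nodup_reverse.2 h.nodup
  chain := isChain_rv_reverse h.chain
  first := by rw [List.head?_reverse]; exact h.last
  hys := by
    intro z hz
    obtain ⟨h1, h2, h3, h4, h5⟩ := h.hys z (List.mem_reverse.1 hz)
    exact ⟨h1, h2, h4, h3, h5⟩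
  hP₂ := h.hP₁
  hU₂ := h.hU₁
  hU₂c := h.hU₁c
  card₂ := h.card₁
  disj := h.disj.symm
  part := by
    intro u
    rw [List.mem_reverse]
    exact h.part u
  out := fun z hz => h.inn z (List.mem_reverse.1 hz)
  out₁ := by
    intro z hz
    rw [List.getLast?_reverse] at hz
    exact h.inn₁ z hz
  hRsv := h.hRsv
  hRc := h.hRc
  lin := h.lin
  inn := h.out
  cnt := h.cnt
  hEx := h.hEx

/-- **The group cut lemma, second part small** -/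
theorem gcut_dual (hT : AE32.Tour R) {X Bd Bad : Finset V} {p q N e : ℕ} {κ₀ η : ℝ} (h0 : 0 < κ₀) (hη : 20 * κ₀ ≤ η)
    (hη1 : η ≤ 1 / 8) (hN : 1 ≤ N) (hpN : 8 + 4 * (N * (e + 1) : ℕ) ≤ κ₀ * p) (hpq : p + N ≤ q) (hq4 : q ≤ 4 * p)
    (hqX : ((q + e : ℕ) : ℝ) ≤ κ₀ * X.card) (hBd : Bd.card ≤ e)
    (hBad : ∀ g ∈ Bad, (X.filter (fun w => R g w ∧ Good (rv R) (κ₀ ^ 2 / 4) η X w)).card < q) :
    ∃ G ys y P₁ P₂ U₂ Rsv Gc Ex, GCD R X Bd Bad p q N e κ₀ η G ys y P₁ P₂ U₂ Rsv Gc Ex := by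
  obtain ⟨G, ys, y, P₁, P₂, U₂, Rsv, Gc, Ex, h⟩ := gcut (R := rv R) (rv_tour hT) h0 hη hη1 hN hpN hpq hq4 hqX hBd hBad
  exact ⟨G, ys.reverse, y, P₂, P₁, U₂, Rsv, Gc, Ex, h.dual⟩

end AEG
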