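import Pool.Agent.AEG.Hop

/-!
# The group cut without a reserve, with a large in-degree in the first part

The statements of `AEG.medcut` and `AEG.GCutG` with the additional conclusion `Hop`: outside every small set the first
host has an in-neighbour in the first part which has a fixed proportion of the first part as in-neighbours.
-/

set_option autoImplicit false

namespace AEG

open Finset AE15 SPD AECut
open scoped Classical

variable {V : Type*} {R : V → V → Prop}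

/-- the median cut, with `Hop` -/
theorem medcutH (hT : AE32.Tour R) {U Bd : Finset V} {p N e : ℕ} {κ₀ η : ℝ} (h0 : 0 < κ₀) (hη : 20 * κ₀ ≤ η)
    (hη1 : η ≤ 1 / 8) (hp : η * U.card ≤ p) (hpN : 8 + 4 * (N * (e + 1) : ℕ) ≤ κ₀ * p) (hU : p + N ≤ U.card)
    (hBd : Bd.card ≤ e) :
    ∃ (P Z : Finset V) (ys : List V), ys.length = N ∧ ys.Nodup ∧ ys.IsChain R ∧ P ⊆ U ∧ Z ⊆ U ∧ Disjoint P Z ∧
      (∀ y ∈ ys, y ∈ U ∧ y ∉ P ∧ y ∉ Z ∧ y ∉ Bd) ∧ P.card = p ∧ P.card + N + Z.card = U.card ∧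
      (∀ y ∈ ys, MSide (rv R) U P (κ₀ ^ 2 / 4 * U.card) (2 * η * U.card) (η / 8) (η / 8) (4 * (N * (e + 1))) y) ∧
      (∀ y ∈ ys.head?, MSide (rv R) U P (κ₀ ^ 2 / 4 * U.card) (2 * η * U.card) (η / 8) (η / 8) (N * e) y) ∧
      (∀ y ∈ ys, ∀ j : ℕ, (Z.filter (fun u => R u y ∧ (Z.filter (fun w => R y w ∧ R w u)).card ≤ j)).card ≤
        4 * j + 4 * (N * (e + 1))) ∧
      (∀ y ∈ ys.getLast?, ∀ j : ℕ, (Z.filter (fun u => R u y ∧ (Z.filter (fun w => R y w ∧ R w u)).card ≤ j)).card ≤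
        4 * j + 4 * (N * e)) ∧ (e = 0 → Hop R P κ₀ ys) := by
  obtain ⟨n, hnd⟩ : ∃ n : ℝ, n = (U.card : ℝ) := ⟨_, rfl⟩
  have hNe : N * (e + 1) = N * e + N := by ring
  have hpn : (p : ℝ) ≤ n := by
    rw [hnd]
    exact_mod_cast (show p ≤ U.card by omega)
  have hn0 : 0 ≤ n := by rw [hnd]; exact Nat.cast_nonneg _
  have hκp : κ₀ * p ≤ κ₀ * n := mul_le_mul_of_nonneg_left hpn h0.le
  have hκ8 : κ₀ ≤ 1 / 160 := by linarith
  have hE : 8 + 4 * ((N * e : ℕ) : ℝ) + 4 * N ≤ κ₀ * n := by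
    rw [hNe] at hpN
    push_cast at hpN ⊢
    linarith
  have hNe0 : (0 : ℝ) ≤ ((N * e : ℕ) : ℝ) := Nat.cast_nonneg _
  have hN0 : (0 : ℝ) ≤ N := Nat.cast_nonneg _
  have hηn : 20 * (κ₀ * n) ≤ η * n := by
    have := mul_le_mul_of_nonneg_right hη hn0
    linarith
  rw [← hnd] at hp
  -- the structure set
  obtain ⟨U₀, hU₀, hU₀c, hstr, hcl⟩ := AECut.struct_size (rv_tour hT) U (κ₀ := κ₀) (s := n - p + η * n) h0
    (by linarith) (by rw [← hnd]; linarith) (by rw [← hnd]; linarith)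
  obtain ⟨Z, hZ⟩ : ∃ Z, AECut.base (rv R) κ₀ U U₀ = Z := ⟨_, rfl⟩
  have hFc := AECut.card_sdiff_base (rv_tour hT) (κ₀ := κ₀) h0.le hU₀
  rw [hZ, ← hnd] at hFc
  have hZU : Z ⊆ U := by
    rw [← hZ]
    exact AECut.base_sub.trans hU₀
  have hFp : ((U \ Z).card : ℝ) ≤ p := by linarith
  have hFpn : (U \ Z).card ≤ p := by exact_mod_cast hFp
  have hFZ : (U \ Z).card + Z.card = U.card := card_sdiff_add_card_eq_card hZU
  obtain ⟨a₀, ha₀⟩ : ∃ a₀ : ℕ, a₀ + (U \ Z).card = p := ⟨p - (U \ Z).card, by omega⟩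
  have ha₀r : (a₀ : ℝ) + (U \ Z).card = p := by exact_mod_cast ha₀
  have ha₀1 : η * n - 4 * (κ₀ * n) - 1 ≤ a₀ := by linarith
  obtain ⟨π, hπ⟩ := AEM.exists_medO R Z
  have hπr : AEM.MedO (rv R) Z (fun u => Z.card - 1 - π u) := hπ.rev
  obtain ⟨a, haa, haN, hwin⟩ := exists_window (Z := Z) (π := π) (a₀ := a₀) (N := N) (e := e) (by
    have h1 : ((N * e : ℕ) : ℝ) ≤ a₀ := by linarith
    exact_mod_cast h1) hBd
  have haz : a₀ + N ≤ Z.card := by omega
  obtain ⟨v₀, hv₀⟩ : U.Nonempty := by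
    rw [← card_pos]
    have h1 : (0 : ℝ) < U.card := by
      rw [← hnd]
      by_contra hc
      push Not at hc
      have h2 : κ₀ * n ≤ 0 := mul_nonpos_of_nonneg_of_nonpos h0.le hc
      linarith
    exact_mod_cast h1
  have hg : ∀ t, ∃ u, t < Z.card → u ∈ Z ∧ π u = t := by
    intro t
    by_cases ht : t < Z.card
    · obtain ⟨u, hu, hut⟩ := hπ.exists_pos ht
      exact ⟨u, fun _ => ⟨hu, hut⟩⟩
    · exact ⟨v₀, fun h => absurd h ht⟩
  choose g hg using hg
  have hgi : ∀ i < N, g (a + i) ∈ Z ∧ π (g (a + i)) = a + i := fun i hi => hg _ (by omega)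
  obtain ⟨Zg, hZg⟩ : ∃ Zg, Zg = Z.filter (fun w => 0 ≤ π w ∧ π w < a) := ⟨_, rfl⟩
  obtain ⟨Sk, hSk⟩ : ∃ Sk, Sk = Z.filter (fun w => a + N ≤ π w ∧ π w < a₀ + N) := ⟨_, rfl⟩
  obtain ⟨Z₂, hZ₂⟩ : ∃ Z₂, Z₂ = Z.filter (fun w => a₀ + N ≤ π w ∧ π w < Z.card) := ⟨_, rfl⟩
  have hZgc : Zg.card = a := by rw [hZg, hπ.card_seg (by omega), Nat.sub_zero]
  have hSkc : Sk.card = a₀ - a := by rw [hSk, hπ.card_seg (by omega)]; omega
  have hZ₂c : Z₂.card = Z.card - (a₀ + N) := by rw [hZ₂, hπ.card_seg le_rfl]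
  have hZgm : ∀ {w}, w ∈ Zg ↔ w ∈ Z ∧ π w < a := by
    intro w
    rw [hZg, mem_filter]
    simp
  have hSkm : ∀ {w}, w ∈ Sk ↔ w ∈ Z ∧ a + N ≤ π w ∧ π w < a₀ + N := by
    intro w
    rw [hSk, mem_filter]
  have hZ₂m : ∀ {w}, w ∈ Z₂ ↔ w ∈ Z ∧ a₀ + N ≤ π w := by
    intro w
    rw [hZ₂, mem_filter]
    constructor
    · rintro ⟨h1, h2, _⟩
      exact ⟨h1, h2⟩
    · rintro ⟨h1, h2⟩
      exact ⟨h1, h2, hπ.lt w h1⟩
  have hZgZ : Zg ⊆ Z := fun w hw => (hZgm.1 hw).1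
  have hSkZ : Sk ⊆ Z := fun w hw => (hSkm.1 hw).1
  obtain ⟨P, hP⟩ : ∃ P, P = Zg ∪ (Sk ∪ (U \ Z)) := ⟨_, rfl⟩
  have hPm : ∀ {w}, w ∈ P ↔ w ∈ Zg ∨ w ∈ Sk ∨ w ∈ U \ Z := by
    intro w
    rw [hP, mem_union, mem_union]
  have hPc : P.card = p := by
    have h1 : (Sk ∪ (U \ Z)).card = Sk.card + (U \ Z).card := by
      apply card_union_of_disjoint
      rw [disjoint_left]
      intro w h1 h2
      exact (mem_sdiff.1 h2).2 (hSkZ h1)
    have h2 : P.card = Zg.card + (Sk ∪ (U \ Z)).card := by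
      rw [hP]
      apply card_union_of_disjoint
      rw [disjoint_left]
      intro w h1 h2
      rcases mem_union.1 h2 with h2 | h2
      · have h3 := hZgm.1 h1
        have h4 := hSkm.1 h2
        omega
      · exact (mem_sdiff.1 h2).2 (hZgZ h1)
    omega
  have hPr : (P.card : ℝ) = p := by exact_mod_cast hPc
  have hSkNe : Sk.card ≤ N * e := by omega
  have hmain : ∀ i < N, MSide (rv R) U P (κ₀ ^ 2 / 4 * U.card) (2 * η * U.card) (η / 8) (η / 8) (4 * i + N * e)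
      (g (a + i)) := by
    intro i hi
    obtain ⟨hgZ, hgπ⟩ := hgi i hi
    have hi' : (i : ℝ) ≤ N := by exact_mod_cast hi.le
    have har : (a₀ : ℝ) ≤ a + (N * e : ℕ) := by exact_mod_cast haN
    have hηp : η * p ≤ η * n := mul_le_mul_of_nonneg_left hpn (by linarith)
    refine mside (rv_tour hT) (s₀ := n - p + η * n) (U₀ := U₀) (Z := Z) (Zg := Zg) (Sk := Sk)
      (Ex := Z.filter (fun w => a ≤ π w ∧ π w < a + i)) (π := fun u => Z.card - 1 - π u) (e₁ := i) (e₂ := N * e) h0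
      (by rw [← hnd]; linarith) hU₀ hstr hcl hZ hπr hgZ hZgZ ?_ ?_ ?_ ?_ hSkZ hSkNe hP ?_ ?_ ?_ ?_
    · intro x hx hxg b hb
      have h1 := hZgm.1 hb
      have h2 : a ≤ π x := by
        by_contra hc
        push Not at hc
        exact hxg (hZgm.2 ⟨hx, hc⟩)
      have h3 := hπ.lt x hx
      show Z.card - 1 - π x < Z.card - 1 - π b
      omega
    · intro h1
      have h2 := hZgm.1 h1
      omega
    · intro w hw h1
      have h2 := hπ.lt w hw
      have h3 : π w < a + i := by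
        have h4 : Z.card - 1 - π (g (a + i)) < Z.card - 1 - π w := h1
        omega
      by_cases h4 : π w < a
      · exact Or.inl (hZgm.2 ⟨hw, h4⟩)
      · exact Or.inr (mem_filter.2 ⟨hw, by omega, h3⟩)
    · rw [hπ.card_seg (by omega)]
      omega
    · rw [← hnd]; linarith
    · rw [← hnd]; linarith
    · rw [hZgc, hPr]; linarith
    · rw [hZgc, hPr, ← hnd]; linarith
  have hout : ∀ i < N, ∀ j : ℕ, (Z₂.filter (fun u => R u (g (a + i)) ∧
      (Z₂.filter (fun w => R (g (a + i)) w ∧ R w u)).card ≤ j)).card ≤ 4 * (j + (a₀ + N - (a + i + 1))) := by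
    intro i hi j
    obtain ⟨hgZ, hgπ⟩ := hgi i hi
    refine le_trans (card_le_card ?_) (hπ.few hT hgZ (j + (a₀ + N - (a + i + 1))))
    intro u hu
    rw [mem_filter] at hu ⊢
    obtain ⟨hu1, hu2, hu3⟩ := hu
    have hu4 := hZ₂m.1 hu1
    refine ⟨hu4.1, by omega, hu2, ?_⟩
    have h1 : AEM.btw R Z π (g (a + i)) u ⊆ (Z₂.filter (fun w => R (g (a + i)) w ∧ R w u)) ∪
        Z.filter (fun w => a + i + 1 ≤ π w ∧ π w < a₀ + N) := by
      intro w hw
      rw [AEM.mem_btw] at hw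
      rw [mem_union, mem_filter, mem_filter]
      by_cases h2 : a₀ + N ≤ π w
      · exact Or.inl ⟨hZ₂m.2 ⟨hw.1, h2⟩, hw.2.2.2.1, hw.2.2.2.2⟩
      · exact Or.inr ⟨hw.1, by omega, by omega⟩
    have h2 := (card_le_card h1).trans (card_union_le _ _)
    rw [hπ.card_seg (by omega)] at h2
    omega
  refine ⟨P, Z₂, (List.range N).map (fun i => g (a + i)), ?_, ?_, ?_, ?_, ?_, ?_, ?_, hPc, ?_, ?_, ?_, ?_, ?_, ?_⟩
  · rw [List.length_map, List.length_range]
  · apply List.Nodup.map_on _ List.nodup_range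
    intro i hi j hj hij
    rw [List.mem_range] at hi hj
    have h1 := (hgi i hi).2
    have h2 := (hgi j hj).2
    rw [hij] at h1
    omega
  · rw [List.isChain_map, List.isChain_range]
    intro m hm
    have h1 := hgi m (by omega)
    have h2 := hgi (m + 1) (by omega)
    exact hπ.succ hT h1.1 h2.1 (by
      show π (g (a + (m + 1))) = π (g (a + m)) + 1
      omega)
  · intro w hw
    rcases hPm.1 hw with h1 | h1 | h1
    · exact hZU (hZgZ h1)
    · exact hZU (hSkZ h1)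
    · exact (mem_sdiff.1 h1).1
  · intro w hw
    exact hZU (hZ₂m.1 hw).1
  · rw [disjoint_left]
    intro w h1 h2
    have h3 := hZ₂m.1 h2
    rcases hPm.1 h1 with h4 | h4 | h4
    · have h5 := hZgm.1 h4
      omega
    · have h5 := hSkm.1 h4
      omega
    · exact (mem_sdiff.1 h4).2 h3.1
  · intro y hy
    rw [List.mem_map] at hy
    obtain ⟨i, hi, rfl⟩ := hy
    rw [List.mem_range] at hi
    obtain ⟨hgZ, hgπ⟩ := hgi i hi
    refine ⟨hZU hgZ, ?_, ?_, hwin _ hgZ (by omega) (by omega)⟩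
    · intro h1
      rcases hPm.1 h1 with h2 | h2 | h2
      · have h3 := hZgm.1 h2
        omega
      · have h3 := hSkm.1 h2
        omega
      · exact (mem_sdiff.1 h2).2 hgZ
    · intro h1
      have h2 := hZ₂m.1 h1
      omega
  · omega
  · intro y hy
    rw [List.mem_map] at hy
    obtain ⟨i, hi, rfl⟩ := hy
    rw [List.mem_range] at hi
    exact (hmain i hi).mono (by omega)
  · intro y hy
    rcases Nat.eq_zero_or_pos N with hN | hN
    · rw [hN] at hy
      simp at hy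
    · rw [List.head?_map, List.head?_range, if_neg (by omega)] at hy
      simp only [Option.map_some, Option.mem_def, Option.some.injEq] at hy
      rw [← hy]
      exact (hmain 0 hN).mono (by omega)
  · intro y hy j
    rw [List.mem_map] at hy
    obtain ⟨i, hi, rfl⟩ := hy
    rw [List.mem_range] at hi
    exact (hout i hi j).trans (by omega)
  · intro y hy j
    rcases Nat.eq_zero_or_pos N with hN | hN
    · rw [hN] at hy
      simp at hy
    · rw [List.getLast?_map, List.getLast?_range, if_neg (by omega)] at hy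
      simp only [Option.map_some, Option.mem_def, Option.some.injEq] at hy
      rw [← hy]
      exact (hout (N - 1) (by omega) j).trans (by omega)
  · intro he y hy F hF
    rcases Nat.eq_zero_or_pos N with hN | hN
    · rw [hN] at hy
      simp at hy
    · rw [List.head?_map, List.head?_range, if_neg (by omega)] at hy
      simp only [Option.map_some, Option.mem_def, Option.some.injEq] at hy
      rw [he, Nat.mul_zero] at haN
      have haa0 : a = a₀ := by omega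
      obtain ⟨hgZ, hgπ⟩ := hgi 0 hN
      rw [hPr] at hF
      have hpr : (0 : ℝ) ≤ p := Nat.cast_nonneg _
      have hκp1 : κ₀ * p ≤ 1 / 160 * p := mul_le_mul_of_nonneg_right hκ8 hpr
      have hκp8 : (8 : ℝ) ≤ κ₀ * p := by
        have : (0 : ℝ) ≤ ((N * (e + 1) : ℕ) : ℝ) := Nat.cast_nonneg _
        linarith
      refine hop_core hT (Zg := Zg) (E := U \ Z) (F := F) (y := y) (k := 2 * (κ₀ * n)) (by omega) ?_ ?_ ?_ ?_ ?_
        (by linarith) ?_ ?_ ?_
      · intro w hw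
        exact hPm.2 (Or.inl hw)
      · intro w hw
        exact hPm.2 (Or.inr (Or.inr hw))
      · rw [disjoint_left]
        intro w hw hw2
        exact (mem_sdiff.1 hw2).2 (hZgZ hw)
      · have h1 := hπ.indeg hT hgZ
        rw [hgπ] at h1
        have h2 : Z.filter (fun w => π w < a + 0 ∧ R w (g (a + 0))) ⊆ nI R Zg y := by
          intro w hw
          rw [mem_filter] at hw
          rw [mem_nI, ← hy]
          exact ⟨hZgm.2 ⟨hw.1, by omega⟩, hw.2.2⟩
        have h3 := card_le_card h2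
        omega
      · intro u hu
        rw [mem_sdiff] at hu
        have h5 := AECut.few_of_notMem_base h0.le hstr hu.1 (by rw [hZ]; exact hu.2)
        have h6 : (nI R Zg u).card ≤ (nO (rv R) U₀ u).card := by
          apply card_le_card
          intro w hw
          rw [mem_nI] at hw
          refine mem_nO.2 ⟨?_, hw.2⟩
          have h7 := hZgZ hw.1
          rw [← hZ] at h7
          exact AECut.base_sub h7
        have h8 : ((nI R Zg u).card : ℝ) ≤ (nO (rv R) U₀ u).card := by exact_mod_cast h6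
        rw [← hnd] at h5
        linarith
      · have h1 : ((Zg.card : ℕ) : ℝ) = a₀ := by rw [hZgc, haa0]
        rw [h1]
        linarith
      · have h1 : (1 : ℝ) ≤ a₀ := by linarith
        have h2 : 1 ≤ a₀ := by exact_mod_cast h1
        omega
      · have h1 : ((32 * F.card + 32 : ℕ) : ℝ) ≤ P.card := by
          rw [hPr]
          push_cast
          linarith
        exact_mod_cast h1

/-- the first case -/
theorem gcutH_one (hT : AE32.Tour R) {X Bd Bad : Finset V} {p q N e : ℕ} {κ₀ η : ℝ} (h0 : 0 < κ₀) (hη : 20 * κ₀ ≤ η)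
    (hη1 : η ≤ 1 / 8) (hN : 1 ≤ N) (hpN : 8 + 4 * (N * (e + 1) : ℕ) ≤ κ₀ * p) (hpq : p + N ≤ q) (hBd : Bd.card ≤ e)
    {G Γ U₀ : Finset V} {x : V} (hGX : G ⊆ X) (hGc : 15 * (κ₀ * X.card) ≤ G.card)
    (hGd : ∀ g ∈ G, Good R (κ₀ ^ 2 / 4) η X g) (hGf : ∀ u ∈ X, u ∉ G → ((nO R G u).card : ℝ) < 2 * κ₀ * X.card)
    (hΓG : Γ ⊆ G) (hΓB : ∀ g ∈ Γ, g ∉ Bad) (hx : x ∈ Γ) (hxB : x ∉ Bd) (hxq : p + N - 1 ≤ (nI R G x).card)
    (hU₀ : U₀ ⊆ nI R G x) (hU₀c : U₀.card ≤ p + N - 1)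
    (hlin : 4 * (κ₀ * X.card) ≤ ((nO R Γ x).card : ℝ))
    (hcov : ∀ u ∈ G, R u x → u ∈ U₀ ∨ u ∈ Γ)
    (hΓc : ∀ j : ℕ, (j : ℝ) ≤ κ₀ * X.card →
      ((nI R Γ x).filter (fun u => (nI R (nO R Γ x) u).card ≤ j)).card ≤ 4 * j)
    (hqX : 8 ≤ κ₀ * X.card) :
    ∃ ys y P₁ P₂ U₁ Gc, GC R X Bd Bad p q N e κ₀ η G ys y P₁ P₂ U₁ ∅ Gc ∅ ∧ (e = 0 → Hop R P₁ κ₀ ys) := by
  have hη0 : 0 < η := by linarith
  have hpos : (0 : ℝ) ≤ (p : ℝ) := Nat.cast_nonneg _
  have hκp : κ₀ * p ≤ 1 / 160 * p := mul_le_mul_of_nonneg_right (by linarith) hpos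
  have hNp : ((N * (e + 1) : ℕ) : ℝ) ≤ p := by
    have : (0 : ℝ) ≤ ((N * (e + 1) : ℕ) : ℝ) := Nat.cast_nonneg _
    linarith
  have hNe : N ≤ N * (e + 1) := Nat.le_mul_of_pos_right _ (by omega)
  have hNp' : N ≤ p := by
    have : N * (e + 1) ≤ p := by exact_mod_cast hNp
    omega
  -- the set of the first part and the first hosts
  obtain ⟨P, hPU, hPx, hPc⟩ := exists_subsuperset_card_eq hU₀ hU₀c hxq
  have hPG : P ⊆ G := hPx.trans nI_sub
  have hPR : ∀ u ∈ P, R u x := fun u hu => (mem_nI.1 (hPx hu)).2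
  have hxP : x ∉ P := fun h => hT.irr x (hPR x h)
  have hPcr : (P.card : ℝ) ≤ 2 * p := by
    have : P.card ≤ 2 * p := by omega
    exact_mod_cast this
  have hN1 : (((N - 1) * (e + 1) : ℕ) : ℝ) ≤ ((N * (e + 1) : ℕ) : ℝ) := by
    exact_mod_cast Nat.mul_le_mul_right _ (Nat.sub_le N 1)
  obtain ⟨P₁, Z, zs, h1, h2, h3, h4, h5, h6, h7, h8, h9, h10, h11, -, -, hhop⟩ := medcutH hT (U := P) (Bd := Bd) (p := p)
    (N := N - 1) (e := e) h0 hη hη1 (by
      have := mul_le_mul hη1 hPcr (Nat.cast_nonneg _) (by norm_num : (0 : ℝ) ≤ 1 / 8)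
      linarith) (by linarith) (by omega) hBd
  have hZ0 : Z = ∅ := by
    rw [← card_eq_zero]
    omega
  subst hZ0
  have hU : P₁ ∪ zs.toFinset = P := by
    apply eq_of_subset_of_card_le
    · apply union_subset h4
      intro y hy
      exact (h7 y (List.mem_toFinset.1 hy)).1
    · rw [card_union_of_disjoint, List.toFinset_card_of_nodup h2, h1]
      · rw [card_empty] at h9
        omega
      · rw [disjoint_left]
        intro y hy hy'
        exact (h7 y (List.mem_toFinset.1 hy')).2.1 hy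
  have hxP₁ : x ∉ P₁ := fun h => hxP (h4 h)
  have hxz : x ∉ zs := fun h => hxP (h7 x h).1
  have hxG : x ∈ G := hΓG hx
  set U₁ := insert x P with hU₁
  have hU₁c : U₁.card = p + N := by
    rw [hU₁, card_insert_of_notMem hxP, hPc]
    omega
  have hPU₁ : P ⊆ U₁ := subset_insert _ _
  have hU₁r : (U₁.card : ℝ) = P.card + 1 := by
    rw [hU₁, card_insert_of_notMem hxP]
    push_cast
    rfl
  have hP1r : (1 : ℝ) ≤ P.card := by
    have : 1 ≤ P.card := by
      have : 8 ≤ p := by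
        have : (8 : ℝ) ≤ p := by linarith [(Nat.cast_nonneg _ : (0 : ℝ) ≤ ((N * (e + 1) : ℕ) : ℝ))]
        exact_mod_cast this
      omega
    exact_mod_cast this
  have hkk : κ₀ ^ 2 / 8 * (U₁.card : ℝ) ≤ κ₀ ^ 2 / 4 * P.card := by
    have h : (U₁.card : ℝ) ≤ 2 * P.card := by linarith
    have := mul_le_mul_of_nonneg_left h (by positivity : (0 : ℝ) ≤ κ₀ ^ 2 / 8)
    linarith
  have htt : 2 * η * (P.card : ℝ) ≤ 2 * η * U₁.card := by
    apply mul_le_mul_of_nonneg_left _ (by linarith)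
    linarith
  set ys := zs ++ [x] with hys
  have hmem : ∀ z, z ∈ ys ↔ z ∈ zs ∨ z = x := by
    intro z
    rw [hys, List.mem_append, List.mem_singleton]
  set P₂ := X \ (P₁ ∪ ys.toFinset) with hP₂
  have hP₂m : ∀ u, u ∈ P₂ ↔ u ∈ X ∧ u ∉ P₁ ∧ u ∉ ys := by
    intro u
    rw [hP₂, mem_sdiff, mem_union, not_or, List.mem_toFinset]
  have hnP : ∀ u ∈ X, u ∉ P → u ≠ x → u ∈ P₂ := by
    intro u hu hu' hux
    rw [hP₂m]
    refine ⟨hu, fun h => hu' (h4 h), fun h => ?_⟩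
    rcases (hmem u).1 h with h | h
    · exact hu' (h7 u h).1
    · exact hux h
  have hP₂n : ∀ u ∈ P₂, u ∉ P := by
    intro u hu h
    rw [hP₂m] at hu
    rw [← hU, mem_union, List.mem_toFinset] at h
    rcases h with h | h
    · exact hu.2.1 h
    · exact hu.2.2 ((hmem u).2 (Or.inl h))
  have hout : ∀ w ∈ G, R x w → w ∈ P₂ := by
    intro w hw hxw
    apply hnP w (hGX hw)
    · intro h
      exact hT.asym _ _ hxw (hPR w h)
    · rintro rfl
      exact hT.irr _ hxw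
  have hside : MSide (rv R) U₁ P₁ (κ₀ ^ 2 / 8 * U₁.card) (2 * η * U₁.card) (η / 8) (η / 8) 0 x := by
    refine ⟨⟨nO (rv R) U₁ x, Rch.base, ?_⟩, ?_, ?_⟩
    · have : P₁ \ nO (rv R) U₁ x = ∅ := by
        rw [sdiff_eq_empty_iff_subset]
        intro u hu
        exact mem_nO.2 ⟨hPU₁ (h4 hu), hPR u (h4 hu)⟩
      rw [this]
      simp only [card_empty, Nat.cast_zero]
      positivity
    · have hUc : (insert x P₁).card = p + 1 := by rw [card_insert_of_notMem hxP₁, h8]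
      have hsub : insert x P₁ ⊆ U₁ := insert_subset_insert _ h4
      have hUr : ((insert x P₁).card : ℝ) = p + 1 := by exact_mod_cast hUc
      have hNpr : (N : ℝ) ≤ p := by exact_mod_cast hNp'
      have hU₁p : (U₁.card : ℝ) = p + N := by exact_mod_cast hU₁c
      have hc0 : (0 : ℝ) ≤ ((N * (e + 1) : ℕ) : ℝ) := Nat.cast_nonneg _
      have hκ1 : κ₀ * p ≤ κ₀ * (insert x P₁).card := by
        rw [hUr]
        apply mul_le_mul_of_nonneg_left _ h0.le
        linarith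
      obtain ⟨G₁, hG₁, hG₁c, hG₁g, -⟩ := structure_lemma (rv_tour hT) (insert x P₁) (η := η) (κ₀ := κ₀) h0
        (by linarith) (by linarith) (by linarith)
      have hr : ∀ w ∈ G₁, Rea (rv R) U₁ P₁ (κ₀ ^ 2 / 8 * U₁.card) (2 * η * U₁.card) w := by
        intro w hw
        have h := Good.rea (P := P₁) (t := η * (insert x P₁).card) (hG₁g w hw) (subset_insert _ _) le_rfl
        refine rea_mono (rea_univ h hsub) ?_ ?_
        · rw [hUr, hU₁p]
          have := mul_nonneg (by positivity : (0 : ℝ) ≤ κ₀ ^ 2 / 8) (by linarith : (0 : ℝ) ≤ p + 2 - N)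
          linarith
        · rw [hUr, hU₁p]
          have h1N : (1 : ℝ) ≤ N := by exact_mod_cast hN
          have := mul_nonneg hη0.le (by linarith : (0 : ℝ) ≤ p + 2 * N - 1)
          linarith
      have h12 : G₁ ⊆ insert x (P₁.filter (fun w => rv R x w ∧ Rea (rv R) U₁ P₁ (κ₀ ^ 2 / 8 * U₁.card)
          (2 * η * U₁.card) w)) := by
        intro w hw
        rcases mem_insert.1 (hG₁ hw) with rfl | h
        · exact mem_insert_self _ _
        · apply mem_insert_of_mem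
          rw [mem_filter]
          exact ⟨h, hPR w (h4 h), hr w hw⟩
      have h13 : (G₁.card : ℝ) ≤ (P₁.filter (fun w => rv R x w ∧ Rea (rv R) U₁ P₁ (κ₀ ^ 2 / 8 * U₁.card)
          (2 * η * U₁.card) w)).card + 1 := by
        exact_mod_cast (card_le_card h12).trans (card_insert_le _ _)
      have h14 : (η - 5 * κ₀) * (p + 1) ≤ G₁.card := by rw [← hUr]; exact hG₁c
      have h15 : 3 / 4 * η * p ≤ (η - 5 * κ₀) * p := by
        apply mul_le_mul_of_nonneg_right _ hpos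
        linarith
      have h16 : 20 * (κ₀ * p) ≤ η * p := by
        have := mul_le_mul_of_nonneg_right hη hpos
        linarith
      rw [h8]
      have h17 : 0 ≤ η - 5 * κ₀ := by linarith
      linarith
    · intro j _
      rw [filter_false_of_mem]
      · simp
      · rintro u hu ⟨h, -⟩
        exact hT.asym _ _ h (hPR u (h4 hu))
  have hNe1 : 4 * ((N - 1) * (e + 1)) ≤ 4 * (N * (e + 1)) :=
    Nat.mul_le_mul_left _ (Nat.mul_le_mul_right _ (Nat.sub_le N 1))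
  refine ⟨ys, x, P₁, P₂, U₁, (nI R Γ x) ∩ P₂, ⟨hGX, hGc, hGd, hGf, ?_, ?_, ?_, ?_, ?_,
    h4.trans hPU₁, insert_subset hxG hPG, by omega, h8, ?_, hP₂m, ?_, ?_, ?_, by simp, ?_, ?_, ?_, by simp⟩, ?_⟩
  · rw [hys, List.length_append, List.length_singleton, h1]
    omega
  · rw [hys, List.nodup_append]
    refine ⟨h2, List.nodup_singleton _, ?_⟩
    intro a ha b hb
    rw [List.mem_singleton] at hb
    rintro rfl
    exact hxz (hb ▸ ha)
  · rw [hys, List.isChain_append]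
    refine ⟨h3, List.isChain_singleton _, ?_⟩
    intro a ha b hb
    rw [List.head?_cons, Option.mem_some_iff] at hb
    rw [← hb]
    exact hPR a (h7 a (List.mem_of_mem_getLast? ha)).1
  · rw [hys, List.getLast?_append]
    simp
  · intro z hz
    rcases (hmem z).1 hz with h | rfl
    · obtain ⟨g1, g2, -, g4⟩ := h7 z h
      exact ⟨hPG g1, hPU₁ g1, g2, fun h' => hP₂n z h' g1, g4⟩
    · exact ⟨hxG, mem_insert_self _ _, hxP₁, fun h' => ((hP₂m _).1 h').2.2 hz, hxB⟩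
  · rw [disjoint_left]
    intro u hu hu'
    exact ((hP₂m u).1 hu').2.1 hu
  · intro z hz
    rcases (hmem z).1 hz with h | rfl
    · exact (h10 z h).mono5 hPU₁ hkk htt le_rfl le_rfl hNe1
    · exact hside.mono5 (Subset.refl _) le_rfl le_rfl le_rfl le_rfl (Nat.zero_le _)
  · intro z hz
    rcases zs with _ | ⟨a, l⟩
    · rw [hys, List.nil_append, List.head?_cons, Option.mem_some_iff] at hz
      rw [← hz]
      exact hside.mono5 (Subset.refl _) le_rfl le_rfl le_rfl le_rfl (Nat.zero_le _)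
    · rw [hys, List.cons_append, List.head?_cons, Option.mem_some_iff] at hz
      refine (h11 z ?_).mono5 hPU₁ hkk htt le_rfl le_rfl (Nat.mul_le_mul_right _ (Nat.sub_le N 1))
      rw [List.head?_cons, Option.mem_some_iff]
      exact hz
  · intro w hw
    simp at hw
  · refine le_trans (by linarith [(by positivity : 0 ≤ κ₀ * (X.card : ℝ))] : κ₀ * X.card ≤ ((nO R Γ x).card : ℝ)) ?_
    apply Nat.cast_le.2
    apply card_le_card
    intro w hw
    rw [mem_nO] at hw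
    rw [mem_filter]
    exact ⟨hout w (hΓG hw.1) hw.2, hw.2, hΓG hw.1, hΓB w hw.1⟩
  · intro u hu hux
    by_cases huG : u ∈ G
    · rcases hcov u huG hux with h | h
      · exact absurd (hPU h) (hP₂n u hu)
      · right; right; left
        exact mem_inter.2 ⟨mem_nI.2 ⟨h, hux⟩, hu⟩
    · right; right; right
      have h12 := hGf u ((hP₂m u).1 hu).1 huG
      have h13 : nO R Γ x \ nO R G u ⊆ P₂.filter (fun w => R x w ∧ R w u ∧ w ∈ G ∧ w ∉ Bad) := by
        intro w hw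
        rw [mem_sdiff, mem_nO] at hw
        have hwG := hΓG hw.1.1
        rw [mem_filter]
        refine ⟨hout w hwG hw.1.2, hw.1.2, ?_, hwG, hΓB w hw.1.1⟩
        have hne : w ≠ u := fun e => huG (e ▸ hwG)
        rcases hT.tot w u hne with h | h
        · exact h
        · exact absurd (mem_nO.2 ⟨hwG, h⟩) hw.2
      have h14 := le_card_sdiff (nO R G u) (nO R Γ x)
      have h15 : ((nO R Γ x).card : ℝ) ≤ (nO R Γ x \ nO R G u).card + (nO R G u).card := by
        exact_mod_cast (by omega : (nO R Γ x).card ≤ (nO R Γ x \ nO R G u).card + (nO R G u).card)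
      have h16 : ((nO R Γ x \ nO R G u).card : ℝ) ≤ (P₂.filter (fun w => R x w ∧ R w u ∧ w ∈ G ∧ w ∉ Bad)).card := by
        exact_mod_cast card_le_card h13
      linarith
  · intro j hj
    refine (le_trans (card_le_card ?_) (hΓc j hj)).trans (by omega)
    intro u hu
    rw [mem_filter, mem_inter] at hu
    rw [mem_filter]
    refine ⟨hu.1.1, le_trans (card_le_card ?_) hu.2⟩
    intro w hw
    rw [mem_nI, mem_nO] at hw
    rw [mem_filter]
    exact ⟨hout w (hΓG hw.1.1) hw.1.2, hw.1.2, hw.2, hΓG hw.1.1, hΓB w hw.1.1⟩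
  · intro he y hy F hF
    rcases zs with _ | ⟨a, l⟩
    · rw [hys, List.nil_append, List.head?_cons, Option.mem_some_iff] at hy
      rw [h8] at hF
      have hκp8 : (8 : ℝ) ≤ κ₀ * p := by
        have : (0 : ℝ) ≤ ((N * (e + 1) : ℕ) : ℝ) := Nat.cast_nonneg _
        linarith
      have hF1 : 32 * F.card + 32 ≤ p := by
        have h1 : ((32 * F.card + 32 : ℕ) : ℝ) ≤ p := by
          push_cast
          linarith
        exact_mod_cast h1
      have hB := le_card_sdiff F P₁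
      obtain ⟨w, hw, hw2⟩ := exists_indeg hT (B := P₁ \ F) (by omega)
      rw [mem_sdiff] at hw
      refine ⟨w, hw.1, hw.2, ?_, ?_⟩
      · rw [← hy]
        exact hPR w (h4 hw.1)
      · have h2 := card_le_card (nI_mono (R := R) (v := w) (sdiff_subset : P₁ \ F ⊆ P₁))
        omega
    · rw [hys, List.cons_append, List.head?_cons, Option.mem_some_iff] at hy
      refine hhop he y ?_ F hF
      rw [List.head?_cons, Option.mem_some_iff]
      exact hy


/-- the second case -/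
theorem gcutH_two (hT : AE32.Tour R) {X Bd Bad : Finset V} {p q N e b₀ : ℕ} {κ₀ η : ℝ} (h0 : 0 < κ₀) (hη : 25 * κ₀ ≤ η)
    (hη1 : η ≤ 1 / 8) (hN : 1 ≤ N) (hpN : 8 + 4 * (N * (e + 1) : ℕ) ≤ κ₀ * p) (hpq : 3 * (p + N) ≤ 2 * q)
    (hqX : ((q + e : ℕ) : ℝ) ≤ κ₀ * X.card) (hBd : Bd.card ≤ e) (hb : (b₀ : ℝ) ≤ κ₀ * p)
    {G : Finset V} (hGX : G ⊆ X) (hGc : 15 * (κ₀ * X.card) ≤ G.card)
    (hGd : ∀ g ∈ G, Good R (κ₀ ^ 2 / 4) η X g) (hGf : ∀ u ∈ X, u ∉ G → ((nO R G u).card : ℝ) < 2 * κ₀ * X.card)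
    (hBad : ∀ g ∈ Bad, (nI R G g).card < b₀)
    (hcase : ∀ (D : Finset V) (π : V → ℕ) (x : V), G ∩ (Bad ∪ Bd) ⊆ D → D ⊆ G → D.card ≤ p + N - 1 →
      AEM.MedO R (G \ D) π → x ∈ G \ D → π x = 0 → (nI R G x).card < p + N - 1) :
    ∃ ys y P₁ P₂ U₁ Gc, GC R X Bd Bad p q N e κ₀ η G ys y P₁ P₂ U₁ ∅ Gc ∅ ∧
      (e = 0 → Bad = ∅ → Hop R P₁ κ₀ ys) := by
  obtain ⟨m, hm⟩ : ∃ m, m = p + N - 1 := ⟨_, rfl⟩
  rw [← hm] at hcase
  have hη0 : 0 < η := by linarith
  have hpos : (0 : ℝ) ≤ (p : ℝ) := Nat.cast_nonneg _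
  have hN1 : (1 : ℝ) ≤ N := by exact_mod_cast hN
  have hNeq : N * (e + 1) = N * e + N := by ring
  have hNeR : 8 + 4 * ((N * e : ℕ) : ℝ) + 4 * N ≤ κ₀ * p := by
    rw [hNeq] at hpN
    push_cast at hpN ⊢
    linarith
  have heN : (e : ℝ) ≤ ((N * e : ℕ) : ℝ) := by exact_mod_cast Nat.le_mul_of_pos_left e (by omega)
  have he0 : (0 : ℝ) ≤ (e : ℝ) := Nat.cast_nonneg _
  have hκp : κ₀ * p ≤ 1 / 200 * p := mul_le_mul_of_nonneg_right (by linarith) hpos
  have hNp : (N : ℝ) ≤ 1 / 800 * p := by linarith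
  have hep : (e : ℝ) ≤ 1 / 800 * p := by linarith
  have hb₀p : b₀ ≤ p := by
    have : (b₀ : ℝ) ≤ p := by linarith
    exact_mod_cast this
  have hbm : b₀ ≤ m := by omega
  have hmr : (m : ℝ) = p + N - 1 := by
    have : m + 1 = p + N := by omega
    have h2 : (m : ℝ) + 1 = p + N := by exact_mod_cast this
    linarith
  have hpqr : 3 * ((p : ℝ) + N) ≤ 2 * q := by exact_mod_cast hpq
  have hqe : (q : ℝ) + e ≤ κ₀ * X.card := by
    have := hqX
    push_cast at this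
    exact this
  -- the sets
  obtain ⟨B₀, hB₀⟩ : ∃ B₀, B₀ = G ∩ (Bad ∪ Bd) := ⟨_, rfl⟩
  obtain ⟨G₀, hG₀⟩ : ∃ G₀, G₀ = G.filter (fun g => (nI R G g).card < m) := ⟨_, rfl⟩
  obtain ⟨U, hU⟩ : ∃ U, U = G₀ ∪ (G ∩ Bd) := ⟨_, rfl⟩
  have hB₀G : B₀ ⊆ G := by rw [hB₀]; exact inter_subset_left
  have hG₀G : G₀ ⊆ G := by rw [hG₀]; exact filter_subset _ _
  have hUG : U ⊆ G := by rw [hU]; exact union_subset hG₀G inter_subset_left
  have hG₀c : G₀.card ≤ 2 * m := by rw [hG₀]; exact card_lowin hT m G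
  have hGBd : (G ∩ Bd).card ≤ e := (card_le_card inter_subset_right).trans hBd
  have hB₀c : B₀.card ≤ 2 * b₀ + e := by
    have h1 : B₀ ⊆ G.filter (fun g => (nI R G g).card < b₀) ∪ (G ∩ Bd) := by
      intro u hu
      rw [hB₀, mem_inter, mem_union] at hu
      rcases hu.2 with h2 | h2
      · exact mem_union_left _ (mem_filter.2 ⟨hu.1, hBad u h2⟩)
      · exact mem_union_right _ (mem_inter.2 ⟨hu.1, h2⟩)
    have h2 := (card_le_card h1).trans (card_union_le _ _)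
    have h3 := card_lowin hT b₀ G
    omega
  have hB₀U : B₀ ⊆ U := by
    intro u hu
    rw [hB₀, mem_inter, mem_union] at hu
    rw [hU, mem_union]
    rcases hu.2 with h2 | h2
    · left
      rw [hG₀, mem_filter]
      exact ⟨hu.1, lt_of_lt_of_le (hBad u h2) hbm⟩
    · exact Or.inr (mem_inter.2 ⟨hu.1, h2⟩)
  have hUc : U.card ≤ 2 * m + e := by
    rw [hU]
    exact (card_union_le _ _).trans (Nat.add_le_add hG₀c hGBd)
  have hGcr : 15 * ((q : ℝ) + e) ≤ G.card := by linarith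
  have hGcm : m < G.card := by
    have : (m : ℝ) < G.card := by linarith
    exact_mod_cast this
  have hUge : p + N ≤ U.card := by
    by_contra hcon
    push Not at hcon
    obtain ⟨π, hπ⟩ := AEM.exists_medO R (G \ U)
    have h1 : 0 < (G \ U).card := by
      have := le_card_sdiff U G
      omega
    obtain ⟨x, hx, hx0⟩ := hπ.exists_pos h1
    have h2 := hcase U π x (by rw [← hB₀]; exact hB₀U) hUG (by omega) hπ hx hx0
    have h3 := mem_sdiff.1 hx
    apply h3.2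
    rw [hU, hG₀]
    exact mem_union_left _ (mem_filter.2 ⟨h3.1, h2⟩)
  obtain ⟨n, hnd⟩ : ∃ n : ℝ, n = (U.card : ℝ) := ⟨_, rfl⟩
  have hnge : (p : ℝ) + N ≤ n := by rw [hnd]; exact_mod_cast hUge
  have hnle : n ≤ 2 * m + e := by rw [hnd]; exact_mod_cast hUc
  have hn0 : 0 ≤ n := by linarith
  have hκpn : κ₀ * p ≤ κ₀ * n := mul_le_mul_of_nonneg_left (by linarith) h0.le
  have hηn : 25 * (κ₀ * n) ≤ η * n := by
    have := mul_le_mul_of_nonneg_right hη hn0
    linarith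
  have hηn8 : η * n ≤ 1 / 8 * n := mul_le_mul_of_nonneg_right hη1 hn0
  obtain ⟨κ₁, hκ₁⟩ : ∃ κ₁ : ℝ, κ₁ = 5 / 4 * κ₀ := ⟨_, rfl⟩
  have hκ₁0 : 0 < κ₁ := by rw [hκ₁]; linarith
  have hκ₁n : κ₁ * n = 5 / 4 * (κ₀ * n) := by rw [hκ₁]; ring
  have hκ₁1 : κ₁ ≤ 1 := by rw [hκ₁]; linarith
  -- the structure set
  obtain ⟨U₀, hU₀, hU₀c, hstr, hcl⟩ := AECut.struct_size (rv_tour hT) U (κ₀ := κ₁) (s := n - p + η * n) hκ₁0
    hκ₁1 (by rw [← hnd]; linarith) (by rw [← hnd, hκ₁n]; linarith)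
  obtain ⟨Z, hZ⟩ : ∃ Z, Z = AECut.base (rv R) κ₁ U U₀ := ⟨_, rfl⟩
  have hFc := AECut.card_sdiff_base (rv_tour hT) (κ₀ := κ₁) hκ₁0.le hU₀
  rw [← hZ, ← hnd] at hFc
  have hZU₀ : Z ⊆ U₀ := by rw [hZ]; exact AECut.base_sub
  have hZU : Z ⊆ U := hZU₀.trans hU₀
  obtain ⟨E, hE⟩ : ∃ E, E = (U \ Z) ∪ B₀ := ⟨_, rfl⟩
  have hEU : E ⊆ U := by rw [hE]; exact union_subset sdiff_subset hB₀U
  have hEG : E ⊆ G := hEU.trans hUG
  have hB₀E : B₀ ⊆ E := by rw [hE]; exact subset_union_right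
  have hEcr : (E.card : ℝ) ≤ p - η * n + 29 / 4 * (κ₀ * n) := by
    have h1 : (E.card : ℝ) ≤ (U \ Z).card + (2 * b₀ + e) := by
      have h2 : E.card ≤ (U \ Z).card + (2 * b₀ + e) := by
        rw [hE]
        exact (card_union_le _ _).trans (Nat.add_le_add_left hB₀c _)
      exact_mod_cast h2
    have h3 : 4 * κ₁ * n = 5 * (κ₀ * n) := by rw [hκ₁]; ring
    rw [h3] at hFc
    linarith
  have hEp : E.card ≤ p := by
    have h1 : (E.card : ℝ) ≤ p := by linarith [mul_nonneg h0.le hn0]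
    exact_mod_cast h1
  obtain ⟨a₀, ha₀⟩ : ∃ a₀ : ℕ, a₀ + E.card = p := ⟨p - E.card, by omega⟩
  have ha₀r : (a₀ : ℝ) + E.card = p := by exact_mod_cast ha₀
  have ha₀1 : η * n - 29 / 4 * (κ₀ * n) ≤ a₀ := by linarith
  -- the order
  obtain ⟨W, hW⟩ : ∃ W, W = G \ E := ⟨_, rfl⟩
  have hWG : W ⊆ G := by rw [hW]; exact sdiff_subset
  have hWm : ∀ {u}, u ∈ W ↔ u ∈ G ∧ u ∉ E := by
    intro u
    rw [hW, mem_sdiff]
  obtain ⟨π, hπ⟩ := AEM.exists_medO R W
  have hWc : G.card ≤ W.card + p := by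
    have := le_card_sdiff E G
    rw [← hW] at this
    omega
  have hWcr : (G.card : ℝ) ≤ W.card + p := by exact_mod_cast hWc
  have hmW : 2 * m + a₀ + N ≤ W.card := by
    have h1 : a₀ ≤ p := by omega
    have h2 : ((2 * m + a₀ + N : ℕ) : ℝ) ≤ W.card := by
      have h3 : (a₀ : ℝ) ≤ p := by exact_mod_cast h1
      push_cast
      linarith
    exact_mod_cast h2
  have hWZ : ∀ w ∈ W, π w < a₀ + N → w ∈ Z := by
    intro w hw hwπ
    obtain ⟨D, hD⟩ : ∃ D, D = E ∪ W.filter (fun v => 0 ≤ π v ∧ π v < π w) := ⟨_, rfl⟩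
    have h1 : D.card ≤ m := by
      have h2 : D.card ≤ E.card + (W.filter (fun v => 0 ≤ π v ∧ π v < π w)).card := by
        rw [hD]
        exact card_union_le _ _
      rw [hπ.card_seg (hπ.lt w hw).le] at h2
      omega
    have h2 : G \ D = W.filter (fun v => π w ≤ π v ∧ π v < W.card) := by
      ext v
      rw [mem_sdiff, mem_filter, hD, mem_union, mem_filter, hWm]
      constructor
      · rintro ⟨h3, h4⟩
        have h5 : v ∉ E := fun h => h4 (Or.inl h)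
        refine ⟨⟨h3, h5⟩, ?_, hπ.lt v (hWm.2 ⟨h3, h5⟩)⟩
        by_contra h6
        push Not at h6
        exact h4 (Or.inr ⟨⟨h3, h5⟩, Nat.zero_le _, h6⟩)
      · rintro ⟨⟨h3, h4⟩, h5, -⟩
        refine ⟨h3, ?_⟩
        rintro (h6 | h6)
        · exact h4 h6
        · have := h6.2.2
          omega
    have h3 := hcase D (fun u => π u - π w) w (by
        rw [← hB₀, hD]
        exact hB₀E.trans subset_union_left)
      (by
        rw [hD]
        exact union_subset hEG ((filter_subset _ _).trans hWG)) h1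
      (by rw [h2]; exact hπ.interval _ _)
      (by
        rw [h2, mem_filter]
        exact ⟨hw, le_rfl, hπ.lt w hw⟩) (by simp)
    have h4 := hWm.1 hw
    by_contra h5
    apply h4.2
    rw [hE]
    refine mem_union_left _ (mem_sdiff.2 ⟨?_, h5⟩)
    rw [hU, hG₀]
    exact mem_union_left _ (mem_filter.2 ⟨h4.1, h3⟩)
  have hUW : ∀ u ∈ U, u ∉ E → u ∈ W ∧ π u < 2 * m := by
    intro u hu huE
    have h1 : u ∈ W := hWm.2 ⟨hUG hu, huE⟩
    refine ⟨h1, ?_⟩
    have h2 : (nI R G u).card < m := by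
      rw [hU, mem_union] at hu
      rcases hu with h3 | h3
      · rw [hG₀, mem_filter] at h3
        exact h3.2
      · exfalso
        apply huE
        apply hB₀E
        rw [hB₀, mem_inter, mem_union]
        exact ⟨(mem_inter.1 h3).1, Or.inr (mem_inter.1 h3).2⟩
    have h3 := hπ.indeg hT h1
    have h4 : (W.filter (fun w => π w < π u ∧ R w u)).card ≤ (nI R G u).card := by
      apply card_le_card
      intro w hw
      rw [mem_filter] at hw
      exact mem_nI.2 ⟨hWG hw.1, hw.2.2⟩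
    omega
  -- the parts
  obtain ⟨v₀, hv₀⟩ : W.Nonempty := by
    rw [← card_pos]
    omega
  have hg : ∀ t, ∃ u, t < W.card → u ∈ W ∧ π u = t := by
    intro t
    by_cases ht : t < W.card
    · obtain ⟨u, hu, hut⟩ := hπ.exists_pos ht
      exact ⟨u, fun _ => ⟨hu, hut⟩⟩
    · exact ⟨v₀, fun h => absurd h ht⟩
  choose g hg using hg
  have hgi : ∀ i < N, g (a₀ + i) ∈ W ∧ π (g (a₀ + i)) = a₀ + i := fun i hi => hg _ (by omega)
  obtain ⟨Zg, hZg⟩ : ∃ Zg, Zg = W.filter (fun w => 0 ≤ π w ∧ π w < a₀) := ⟨_, rfl⟩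
  obtain ⟨W', hW'⟩ : ∃ W', W' = W.filter (fun w => 0 ≤ π w ∧ π w < 2 * m) := ⟨_, rfl⟩
  obtain ⟨U₁, hU₁⟩ : ∃ U₁, U₁ = E ∪ W' := ⟨_, rfl⟩
  obtain ⟨P₁, hP₁⟩ : ∃ P₁, P₁ = Zg ∪ E := ⟨_, rfl⟩
  have hZgc : Zg.card = a₀ := by rw [hZg, hπ.card_seg (by omega), Nat.sub_zero]
  have hW'c : W'.card = 2 * m := by rw [hW', hπ.card_seg (by omega), Nat.sub_zero]
  have hZgm : ∀ {w}, w ∈ Zg ↔ w ∈ W ∧ π w < a₀ := by
    intro w
    rw [hZg, mem_filter]
    simp
  have hW'm : ∀ {w}, w ∈ W' ↔ w ∈ W ∧ π w < 2 * m := by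
    intro w
    rw [hW', mem_filter]
    simp
  have hZgZ : Zg ⊆ Z := fun w hw => hWZ w (hZgm.1 hw).1 (by have := (hZgm.1 hw).2; omega)
  have hm1 : 1 ≤ m := by
    have h1 : (1 : ℝ) ≤ m := by linarith
    exact_mod_cast h1
  have ham : a₀ + N ≤ 2 * m := by omega
  have hZgW' : Zg ⊆ W' := fun w hw => hW'm.2 ⟨(hZgm.1 hw).1, by have := (hZgm.1 hw).2; omega⟩
  have hP₁m : ∀ {w}, w ∈ P₁ ↔ w ∈ Zg ∨ w ∈ E := by
    intro w
    rw [hP₁, mem_union]
  have hP₁c : P₁.card = p := by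
    rw [hP₁, card_union_of_disjoint, hZgc, ha₀]
    rw [disjoint_left]
    intro w h1 h2
    exact (hWm.1 (hZgm.1 h1).1).2 h2
  have hPr : (P₁.card : ℝ) = p := by exact_mod_cast hP₁c
  have hU₁G : U₁ ⊆ G := by
    rw [hU₁, hW']
    exact union_subset hEG ((filter_subset _ _).trans hWG)
  have hU₁c : U₁.card ≤ p + 2 * m := by
    rw [hU₁]
    exact (card_union_le _ _).trans (by omega)
  have hU₁r : (U₁.card : ℝ) ≤ p + 2 * m := by exact_mod_cast hU₁c
  have hUU₁ : U ⊆ U₁ := by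
    intro u hu
    rw [hU₁, mem_union]
    by_cases h1 : u ∈ E
    · exact Or.inl h1
    · exact Or.inr (hW'm.2 (hUW u hu h1))
  have hnU₁ : n ≤ U₁.card := by rw [hnd]; exact_mod_cast card_le_card hUU₁
  have hP₁U₁ : P₁ ⊆ U₁ := by
    rw [hP₁, hU₁]
    exact union_subset (hZgW'.trans subset_union_right) subset_union_left
  have hκU₁ : κ₀ * n ≤ κ₀ * U₁.card := mul_le_mul_of_nonneg_left hnU₁ h0.le
  have hηU₁ : η * n ≤ η * U₁.card := mul_le_mul_of_nonneg_left hnU₁ hη0.le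
  have hηκU₁ : 25 * (κ₀ * U₁.card) ≤ η * U₁.card := by
    have := mul_le_mul_of_nonneg_right hη (Nat.cast_nonneg U₁.card : (0 : ℝ) ≤ U₁.card)
    linarith
  have hmed' : AEM.MedO (rv R) W' (fun u => W'.card - 1 - (π u - 0)) := by
    have h1 := hπ.interval 0 (2 * m)
    rw [← hW'] at h1
    exact h1.rev
  have hkk : κ₀ ^ 2 / 8 * U₁.card ≤ κ₁ ^ 2 / 4 * U.card := by
    have h1 : (U₁.card : ℝ) ≤ 3 * n := by linarith
    have h2 := mul_le_mul_of_nonneg_left h1 (by positivity : (0 : ℝ) ≤ κ₀ ^ 2 / 8)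
    have h3 : (0 : ℝ) ≤ κ₀ ^ 2 * n := by positivity
    have h4 : κ₁ ^ 2 = 25 / 16 * κ₀ ^ 2 := by rw [hκ₁]; ring
    rw [← hnd, h4]
    linarith
  have hUpos : 0 < U.card := by omega
  have hrea : ∀ w ∈ Z, Rea (rv R) U₁ P₁ (κ₀ ^ 2 / 8 * U₁.card) (2 * η * U₁.card) w := by
    intro w hw
    refine reach_two (rv_tour hT) (s₀ := n - p + η * n) (W := W') (Zg := Zg) (E := E) (B₀ := B₀)
      (π := fun u => W'.card - 1 - (π u - 0)) (b := 2 * b₀ + e) h0 hκ₁0 hUpos hU₀ hUU₁ hcl hkk hmed'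
      (by rw [hU₁]; exact subset_union_right) hZgW' ?_ (by rw [hU₁]) hP₁ (by rw [← hZ, hE]) hB₀c (by rw [← hZ]; exact hw)
      ?_ ?_
    · intro x hx hxg y hy
      have h1 := hZgm.1 hy
      have h2 := hW'm.1 hx
      have h3 : a₀ ≤ π x := by
        by_contra hc
        push Not at hc
        exact hxg (hZgm.2 ⟨h2.1, hc⟩)
      show W'.card - 1 - (π x - 0) < W'.card - 1 - (π y - 0)
      rw [hW'c]
      omega
    · rw [← hnd]
      have h3 : 4 * κ₁ * n = 5 * (κ₀ * n) := by rw [hκ₁]; ring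
      rw [h3]
      push_cast
      linarith
    · rw [← hnd, hPr]
      linarith
  have hdeg : ∀ i < N, a₀ ≤ 2 * (nI R Zg (g (a₀ + i))).card + i := by
    intro i hi
    obtain ⟨hgW, hgπ⟩ := hgi i hi
    have h1 := hπ.indeg hT hgW
    have h2 : W.filter (fun w => π w < π (g (a₀ + i)) ∧ R w (g (a₀ + i))) ⊆
        nI R Zg (g (a₀ + i)) ∪ W.filter (fun w => a₀ ≤ π w ∧ π w < a₀ + i) := by
      intro w hw
      rw [mem_filter, hgπ] at hw
      rw [mem_union]
      by_cases h3 : π w < a₀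
      · exact Or.inl (mem_nI.2 ⟨hZgm.2 ⟨hw.1, h3⟩, hw.2.2⟩)
      · exact Or.inr (mem_filter.2 ⟨hw.1, by omega, hw.2.1⟩)
    have h3 := (card_le_card h2).trans (card_union_le _ _)
    rw [hπ.card_seg (by omega)] at h3
    omega
  have hmain : ∀ i < N, MSide (rv R) U₁ P₁ (κ₀ ^ 2 / 8 * U₁.card) (2 * η * U₁.card) (η / 8) (η / 8) (4 * i + e)
      (g (a₀ + i)) := by
    intro i hi
    obtain ⟨hgW, hgπ⟩ := hgi i hi
    have hd := hdeg i hi
    have hdr : (a₀ : ℝ) ≤ 2 * (nI R Zg (g (a₀ + i))).card + N := by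
      have h1 : a₀ ≤ 2 * (nI R Zg (g (a₀ + i))).card + N := by omega
      exact_mod_cast h1
    have hηp : η * p ≤ η * n := mul_le_mul_of_nonneg_left (by linarith) hη0.le
    refine ⟨hrea _ (hWZ _ hgW (by omega)), ?_, ?_⟩
    · have h1 : ((nI R Zg (g (a₀ + i))).card : ℝ) ≤ ((P₁.filter (fun w => rv R (g (a₀ + i)) w ∧
          Rea (rv R) U₁ P₁ (κ₀ ^ 2 / 8 * U₁.card) (2 * η * U₁.card) w)).card : ℝ) := by
        apply Nat.cast_le.2
        apply card_le_card
        intro w hw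
        rw [mem_nI] at hw
        rw [mem_filter]
        exact ⟨hP₁m.2 (Or.inl hw.1), hw.2, hrea w (hZgZ hw.1)⟩
      rw [hPr]
      linarith
    · intro j hj
      obtain ⟨D, hD⟩ : ∃ D : V → Finset V, D = fun u => P₁.filter (fun w => rv R (g (a₀ + i)) w ∧ rv R w u ∧
          Rea (rv R) U₁ P₁ (κ₀ ^ 2 / 8 * U₁.card) (2 * η * U₁.card) w) := ⟨_, rfl⟩
      have hDg : ∀ u, nO R (nI R Zg (g (a₀ + i))) u ⊆ D u := by
        intro u w hw
        rw [mem_nO, mem_nI] at hw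
        rw [hD]
        simp only [mem_filter]
        exact ⟨hP₁m.2 (Or.inl hw.1.1), hw.1.2, hw.2, hrea w (hZgZ hw.1.1)⟩
      have h1 : P₁.filter (fun u => rv R u (g (a₀ + i)) ∧ (D u).card ≤ j) ⊆
          W.filter (fun u => π u < π (g (a₀ + i)) ∧ R (g (a₀ + i)) u ∧
            (AEM.btw R W π u (g (a₀ + i))).card ≤ j + i) ∪ (G ∩ Bd) := by
        intro u hu
        rw [mem_filter, hP₁m] at hu
        obtain ⟨hu1, hu2, hu3⟩ := hu
        rw [mem_union]
        have hlarge : (((nI R Zg (g (a₀ + i))).card : ℝ) - 5 / 2 * (κ₀ * n) ≤ (D u).card) → False := by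
          intro h4
          have h6 : ((D u).card : ℝ) ≤ j := by exact_mod_cast hu3
          rw [hPr] at hj
          linarith
        rcases hu1 with hu1 | hu1
        · left
          have hu4 := hZgm.1 hu1
          rw [mem_filter]
          refine ⟨hu4.1, by rw [hgπ]; omega, hu2, ?_⟩
          have h2 : AEM.btw R W π u (g (a₀ + i)) ⊆ D u ∪ W.filter (fun w => a₀ ≤ π w ∧ π w < a₀ + i) := by
            intro w hw
            rw [AEM.mem_btw, hgπ] at hw
            rw [mem_union]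
            by_cases h3 : π w < a₀
            · left
              exact hDg u (mem_nO.2 ⟨mem_nI.2 ⟨hZgm.2 ⟨hw.1, h3⟩, hw.2.2.2.2⟩, hw.2.2.2.1⟩)
            · exact Or.inr (mem_filter.2 ⟨hw.1, by omega, hw.2.2.1⟩)
          have h3 := (card_le_card h2).trans (card_union_le _ _)
          rw [hπ.card_seg (by omega)] at h3
          omega
        · have hu4 : u ∉ nI R Zg (g (a₀ + i)) := by
            intro h
            exact (hWm.1 (hZgm.1 (nI_sub h)).1).2 hu1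
          have h2 := card_nO_add_nI hT (X := nI R Zg (g (a₀ + i))) (v := u) hu4
          have h3 := card_le_card (hDg u)
          rw [hE, mem_union] at hu1
          rcases hu1 with hu5 | hu5
          · exfalso
            apply hlarge
            have h4 := mem_sdiff.1 hu5
            have h5 := AECut.few_of_notMem_base hκ₁0.le hstr h4.1 (by rw [← hZ]; exact h4.2)
            rw [← hnd] at h5
            have h6 : (nI R (nI R Zg (g (a₀ + i))) u).card ≤ (nO (rv R) U₀ u).card := by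
              apply card_le_card
              intro w hw
              rw [mem_nI, mem_nI] at hw
              exact mem_nO.2 ⟨hZU₀ (hZgZ hw.1.1), hw.2⟩
            have h7 : 2 * κ₁ * n = 5 / 2 * (κ₀ * n) := by rw [hκ₁]; ring
            have h8 : ((nI R Zg (g (a₀ + i))).card : ℝ) ≤ (D u).card + (nO (rv R) U₀ u).card := by
              exact_mod_cast (by omega : (nI R Zg (g (a₀ + i))).card ≤ (D u).card + (nO (rv R) U₀ u).card)
            linarith
          · rw [hB₀, mem_inter, mem_union] at hu5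
            rcases hu5.2 with hu6 | hu6
            · exfalso
              apply hlarge
              have h6 : (nI R (nI R Zg (g (a₀ + i))) u).card ≤ (nI R G u).card := by
                apply card_le_card
                intro w hw
                rw [mem_nI, mem_nI] at hw
                exact mem_nI.2 ⟨hWG (hZgm.1 hw.1.1).1, hw.2⟩
              have h7 := hBad u hu6
              have h8 : ((nI R Zg (g (a₀ + i))).card : ℝ) ≤ (D u).card + b₀ := by
                exact_mod_cast (by omega : (nI R Zg (g (a₀ + i))).card ≤ (D u).card + b₀)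
              linarith [mul_nonneg h0.le hn0]
            · exact Or.inr (mem_inter.2 ⟨hu5.1, hu6⟩)
      have h2 := hπ.few' hT hgW (j + i)
      have h3 := (card_le_card h1).trans (card_union_le _ _)
      simp only [hD] at h3
      omega
  -- the last host and the second part
  obtain ⟨ys, hys⟩ : ∃ ys, ys = (List.range N).map (fun i => g (a₀ + i)) := ⟨_, rfl⟩
  obtain ⟨y, hy⟩ : ∃ y, y = g (a₀ + (N - 1)) := ⟨_, rfl⟩
  have hyW : y ∈ W ∧ π y = a₀ + (N - 1) := by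
    rw [hy]
    exact hgi (N - 1) (by omega)
  have hmem : ∀ z, z ∈ ys ↔ ∃ i < N, g (a₀ + i) = z := by
    intro z
    rw [hys, List.mem_map]
    simp only [List.mem_range]
  have hysW : ∀ z, z ∈ ys ↔ z ∈ W ∧ a₀ ≤ π z ∧ π z < a₀ + N := by
    intro z
    rw [hmem]
    constructor
    · rintro ⟨i, hi, rfl⟩
      obtain ⟨h1, h2⟩ := hgi i hi
      exact ⟨h1, by omega, by omega⟩
    · rintro ⟨h1, h2, h3⟩
      obtain ⟨h4, h5⟩ := hgi (π z - a₀) (by omega)
      exact ⟨π z - a₀, by omega, hπ.inj _ h4 _ h1 (by omega)⟩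
  obtain ⟨P₂, hP₂⟩ : ∃ P₂, P₂ = X \ (P₁ ∪ ys.toFinset) := ⟨_, rfl⟩
  have hP₂m : ∀ u, u ∈ P₂ ↔ u ∈ X ∧ u ∉ P₁ ∧ u ∉ ys := by
    intro u
    rw [hP₂, mem_sdiff, mem_union, not_or, List.mem_toFinset]
  have hP₂G : ∀ u ∈ G, (u ∈ P₂ ↔ u ∈ W ∧ a₀ + N ≤ π u) := by
    intro u hu
    rw [hP₂m, hP₁m, hZgm, hysW]
    constructor
    · rintro ⟨h1, h2, h3⟩
      have h4 : u ∈ W := hWm.2 ⟨hu, fun h => h2 (Or.inr h)⟩
      refine ⟨h4, ?_⟩
      by_contra h5
      push Not at h5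
      apply h3
      refine ⟨h4, ?_, h5⟩
      by_contra h6
      push Not at h6
      exact h2 (Or.inl ⟨h4, h6⟩)
    · rintro ⟨h1, h2⟩
      refine ⟨hGX hu, ?_, ?_⟩
      · rintro (h3 | h3)
        · omega
        · exact (hWm.1 h1).2 h3
      · rintro ⟨-, -, h3⟩
        omega
  have hBadW : ∀ w ∈ W, w ∉ Bad ∧ w ∉ Bd := by
    intro w hw
    have h1 := hWm.1 hw
    have h2 : w ∉ B₀ := fun h => h1.2 (hB₀E h)
    rw [hB₀, mem_inter, mem_union] at h2
    exact ⟨fun h => h2 ⟨h1.1, Or.inl h⟩, fun h => h2 ⟨h1.1, Or.inr h⟩⟩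
  obtain ⟨A, hA⟩ : ∃ A, A = W.filter (fun w => π y < π w ∧ R y w) := ⟨_, rfl⟩
  have hAP : ∀ w ∈ A, w ∈ P₂ ∧ R y w ∧ w ∈ G ∧ w ∉ Bad := by
    intro w hw
    rw [hA, mem_filter, hyW.2] at hw
    exact ⟨(hP₂G w (hWG hw.1)).2 ⟨hw.1, by omega⟩, hw.2.2, hWG hw.1, (hBadW w hw.1).1⟩
  have hAc : W.card ≤ 2 * A.card + a₀ + N := by
    have h1 := hπ.outdeg hT hyW.1
    rw [← hA, hyW.2] at h1
    omega
  have hAr : 6 * (κ₀ * X.card) ≤ A.card := by
    have h1 : (W.card : ℝ) ≤ 2 * A.card + a₀ + N := by exact_mod_cast hAc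
    have h2 : (a₀ : ℝ) ≤ p := by linarith [(Nat.cast_nonneg _ : (0 : ℝ) ≤ (E.card : ℝ))]
    have h3 : (0 : ℝ) ≤ q := Nat.cast_nonneg _
    linarith
  have hκX : 0 ≤ κ₀ * (X.card : ℝ) := by positivity
  refine ⟨ys, y, P₁, P₂, U₁, P₂.filter (fun u => u ∈ G ∧ R u y), ⟨hGX, hGc, hGd, hGf, ?_, ?_, ?_, ?_, ?_, hP₁U₁, hU₁G,
    by omega, hP₁c, ?_, hP₂m, ?_, ?_, by simp, by simp, ?_, ?_, ?_, by simp⟩, ?_⟩
  · rw [hys, List.length_map, List.length_range]
  · rw [hys]
    apply List.Nodup.map_on _ List.nodup_range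
    intro i hi j hj hij
    rw [List.mem_range] at hi hj
    have h1 := (hgi i hi).2
    have h2 := (hgi j hj).2
    rw [hij] at h1
    omega
  · rw [hys, List.isChain_map, List.isChain_range]
    intro k hk
    have h1 := hgi k (by omega)
    have h2 := hgi (k + 1) (by omega)
    exact hπ.succ hT h1.1 h2.1 (by
      show π (g (a₀ + (k + 1))) = π (g (a₀ + k)) + 1
      omega)
  · rw [hys, List.getLast?_map, List.getLast?_range, if_neg (by omega), hy]
    rfl
  · intro z hz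
    have h1 := (hysW z).1 hz
    refine ⟨hWG h1.1, ?_, ?_, fun h => ((hP₂m z).1 h).2.2 hz, (hBadW z h1.1).2⟩
    · rw [hU₁]
      exact mem_union_right _ (hW'm.2 ⟨h1.1, by omega⟩)
    · rw [hP₁m, hZgm]
      rintro (h2 | h2)
      · omega
      · exact (hWm.1 h1.1).2 h2
  · rw [disjoint_left]
    intro u hu hu'
    exact ((hP₂m u).1 hu').2.1 hu
  · intro z hz
    obtain ⟨i, hi, rfl⟩ := (hmem z).1 hz
    refine (hmain i hi).mono ?_
    have h1 : N * e + N = N * (e + 1) := hNeq.symm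
    have h2 : e ≤ N * e := Nat.le_mul_of_pos_left e (by omega)
    omega
  · intro z hz
    rw [hys, List.head?_map, List.head?_range, if_neg (by omega)] at hz
    simp only [Option.map_some, Option.mem_def, Option.some.injEq] at hz
    rw [← hz]
    refine (hmain 0 (by omega)).mono ?_
    have h2 : e ≤ N * e := Nat.le_mul_of_pos_left e (by omega)
    omega
  · refine le_trans (by linarith : κ₀ * (X.card : ℝ) ≤ (A.card : ℝ)) ?_
    apply Nat.cast_le.2
    apply card_le_card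
    intro w hw
    obtain ⟨h1, h2, h3, h4⟩ := hAP w hw
    exact mem_filter.2 ⟨h1, h2, h3, h4⟩
  · intro u hu huy
    by_cases huG : u ∈ G
    · right; right; left
      exact mem_filter.2 ⟨hu, huG, huy⟩
    · right; right; right
      have h12 := hGf u ((hP₂m u).1 hu).1 huG
      have h13 : A \ nO R G u ⊆ P₂.filter (fun w => R y w ∧ R w u ∧ w ∈ G ∧ w ∉ Bad) := by
        intro w hw
        rw [mem_sdiff] at hw
        obtain ⟨g1, g2, g3, g4⟩ := hAP w hw.1
        rw [mem_filter]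
        refine ⟨g1, g2, ?_, g3, g4⟩
        have hne : w ≠ u := fun e => huG (e ▸ g3)
        rcases hT.tot w u hne with h | h
        · exact h
        · exact absurd (mem_nO.2 ⟨g3, h⟩) hw.2
      have h14 := le_card_sdiff (nO R G u) A
      have h15 : (A.card : ℝ) ≤ (A \ nO R G u).card + (nO R G u).card := by
        exact_mod_cast (by omega : A.card ≤ (A \ nO R G u).card + (nO R G u).card)
      have h16 : ((A \ nO R G u).card : ℝ) ≤ (P₂.filter (fun w => R y w ∧ R w u ∧ w ∈ G ∧ w ∉ Bad)).card := by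
        exact_mod_cast card_le_card h13
      linarith
  · intro j _
    refine (le_trans (card_le_card ?_) (hπ.few hT hyW.1 j)).trans (by omega)
    intro u hu
    rw [mem_filter, mem_filter] at hu
    obtain ⟨⟨h1, h2, h3⟩, h4⟩ := hu
    have h5 := (hP₂G u h2).1 h1
    rw [mem_filter, hyW.2]
    refine ⟨h5.1, by omega, h3, le_trans (card_le_card ?_) h4⟩
    intro w hw
    rw [AEM.mem_btw, hyW.2] at hw
    rw [mem_filter]
    exact ⟨(hP₂G w (hWG hw.1)).2 ⟨hw.1, by omega⟩, hw.2.2.2.1, hw.2.2.2.2, hWG hw.1, (hBadW w hw.1).1⟩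
  · intro he hBad0 y₁ hy₁ F hF
    rw [hys, List.head?_map, List.head?_range, if_neg (by omega)] at hy₁
    simp only [Option.map_some, Option.mem_def, Option.some.injEq] at hy₁
    rw [hPr] at hF
    have hBd0 : Bd = ∅ := by
      rw [← card_eq_zero]
      omega
    have hB₀0 : B₀ = ∅ := by
      rw [hB₀, hBad0, hBd0]
      simp
    have hE' : E = U \ Z := by rw [hE, hB₀0, union_empty]
    refine hop_core hT (Zg := Zg) (E := E) (F := F) (y := y₁) (k := 5 / 2 * (κ₀ * n)) (by omega) ?_ ?_ ?_ ?_ ?_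
      (by positivity) ?_ ?_ ?_
    · intro w hw
      exact hP₁m.2 (Or.inl hw)
    · intro w hw
      exact hP₁m.2 (Or.inr hw)
    · rw [disjoint_left]
      intro w hw hw2
      exact (hWm.1 (hZgm.1 hw).1).2 hw2
    · have h1 := hdeg 0 (by omega)
      rw [hy₁] at h1
      omega
    · intro u hu
      rw [hE', mem_sdiff] at hu
      have h5 := AECut.few_of_notMem_base hκ₁0.le hstr hu.1 (by rw [← hZ]; exact hu.2)
      rw [← hnd] at h5
      have h6 : (nI R Zg u).card ≤ (nO (rv R) U₀ u).card := by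
        apply card_le_card
        intro w hw
        rw [mem_nI] at hw
        exact mem_nO.2 ⟨hZU₀ (hZgZ hw.1), hw.2⟩
      have h7 : 2 * κ₁ * n = 5 / 2 * (κ₀ * n) := by rw [hκ₁]; ring
      have h8 : ((nI R Zg u).card : ℝ) ≤ (nO (rv R) U₀ u).card := by exact_mod_cast h6
      linarith
    · rw [hZgc]
      linarith
    · have h1 : (1 : ℝ) ≤ a₀ := by
        have : (0 : ℝ) ≤ N := Nat.cast_nonneg _
        have : (0 : ℝ) ≤ ((N * e : ℕ) : ℝ) := Nat.cast_nonneg _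
        linarith
      have h2 : 1 ≤ a₀ := by exact_mod_cast h1
      omega
    · have h1 : ((32 * F.card + 32 : ℕ) : ℝ) ≤ P₁.card := by
        rw [hPr]
        push_cast
        have : (0 : ℝ) ≤ N := Nat.cast_nonneg _
        have : (0 : ℝ) ≤ ((N * e : ℕ) : ℝ) := Nat.cast_nonneg _
        linarith
      exact_mod_cast h1


/-- for a given structure set -/
theorem gcutH_of (hT : AE32.Tour R) {X Bd Bad : Finset V} {p q N e b₀ : ℕ} {κ₀ η : ℝ} (h0 : 0 < κ₀) (hη : 25 * κ₀ ≤ η)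
    (hη1 : η ≤ 1 / 8) (hN : 1 ≤ N) (hpN : 8 + 4 * (N * (e + 1) : ℕ) ≤ κ₀ * p) (hpq : 3 * (p + N) ≤ 2 * q)
    (hqX : ((q + e : ℕ) : ℝ) ≤ κ₀ * X.card) (hBd : Bd.card ≤ e) (hb : (b₀ : ℝ) ≤ κ₀ * p)
    (hBad : ∀ g ∈ Bad, (X.filter (fun w => R w g ∧ Good R (κ₀ ^ 2 / 4) η X w)).card < b₀)
    {G : Finset V} (hGX : G ⊆ X) (hGd : ∀ g ∈ G, Good R (κ₀ ^ 2 / 4) η X g)
    (hGf : ∀ u ∈ X, u ∉ G → ((nO R G u).card : ℝ) < 2 * κ₀ * X.card) (hGc : 15 * (κ₀ * X.card) ≤ G.card) :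
    ∃ ys y P₁ P₂ U₁ Gc, GC R X Bd Bad p q N e κ₀ η G ys y P₁ P₂ U₁ ∅ Gc ∅ ∧
      (e = 0 → Bad = ∅ → Hop R P₁ κ₀ ys) := by
  have hp8 : (8 : ℝ) ≤ κ₀ * p := by
    have : (0 : ℝ) ≤ ((N * (e + 1) : ℕ) : ℝ) := Nat.cast_nonneg _
    linarith
  have hpr : κ₀ * (p : ℝ) ≤ 1 * p := mul_le_mul_of_nonneg_right (by linarith) (Nat.cast_nonneg _)
  have hpq' : (p : ℝ) ≤ ((q + e : ℕ) : ℝ) := by exact_mod_cast (by omega : p ≤ q + e)
  have hn8 : 8 ≤ κ₀ * X.card := by linarith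
  have hBadG : ∀ g ∈ Bad, (nI R G g).card < b₀ := by
    intro g hg
    refine lt_of_le_of_lt (card_le_card ?_) (hBad g hg)
    intro w hw
    rw [mem_nI] at hw
    rw [mem_filter]
    exact ⟨hGX hw.1, hw.2, hGd w hw.1⟩
  by_cases hcase : ∃ (D : Finset V) (π : V → ℕ) (x : V), G ∩ (Bad ∪ Bd) ⊆ D ∧ D ⊆ G ∧ D.card ≤ p + N - 1 ∧
      AEM.MedO R (G \ D) π ∧ x ∈ G \ D ∧ π x = 0 ∧ p + N - 1 ≤ (nI R G x).card
  · obtain ⟨D, π, x, h1, h2, h3, h4, h5, h6, h7⟩ := hcase
    have hout := h4.outdeg hT h5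
    have hsub : (G \ D).filter (fun w => π x < π w ∧ R x w) ⊆ nO R (G \ D) x := by
      intro w hw
      rw [mem_filter] at hw
      exact mem_nO.2 ⟨hw.1, hw.2.2⟩
    have hoc := card_le_card hsub
    have hDc := le_card_sdiff D G
    have hGo : G.card ≤ 2 * (nO R (G \ D) x).card + q := by omega
    have hGor : (G.card : ℝ) ≤ 2 * (nO R (G \ D) x).card + q := by exact_mod_cast hGo
    have hqr : (q : ℝ) ≤ ((q + e : ℕ) : ℝ) := by exact_mod_cast Nat.le_add_right q e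
    obtain ⟨ys, y, P₁, P₂, U₁, Gc, hgc, hhop⟩ : ∃ ys y P₁ P₂ U₁ Gc, GC R X Bd Bad p q N e κ₀ η G ys y P₁ P₂ U₁ ∅ Gc ∅ ∧
      (e = 0 → Hop R P₁ κ₀ ys) := by
     refine gcutH_one hT h0 (by linarith) hη1 hN hpN (by omega) hBd hGX hGc hGd hGf (Γ := G \ D) (U₀ := nI R D x) (x := x)
       sdiff_subset ?_ h5 ?_ h7 ?_ ?_ ?_ ?_ ?_ hn8
     · intro g hg hgB
       rw [mem_sdiff] at hg
       exact hg.2 (h1 (mem_inter.2 ⟨hg.1, mem_union_left _ hgB⟩))
     · intro hxB
       have h8 := mem_sdiff.1 h5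
       exact h8.2 (h1 (mem_inter.2 ⟨h8.1, mem_union_right _ hxB⟩))
     · exact nI_mono h2
     · exact (card_le_card nI_sub).trans h3
     · linarith
     · intro u hu hux
       by_cases h8 : u ∈ D
       · exact Or.inl (mem_nI.2 ⟨h8, hux⟩)
       · exact Or.inr (mem_sdiff.2 ⟨hu, h8⟩)
     · intro j _
       refine le_trans (card_le_card ?_) (h4.few hT h5 j)
       intro u hu
       rw [mem_filter, mem_nI] at hu
       obtain ⟨⟨g1, g2⟩, g3⟩ := hu
       rw [mem_filter]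
       refine ⟨g1, ?_, g2, le_trans (card_le_card ?_) g3⟩
       · rw [h6]
         rcases Nat.eq_zero_or_pos (π u) with h8 | h8
         · exfalso
           have h9 : u = x := h4.inj u g1 x h5 (by omega)
           rw [h9] at g2
           exact hT.irr _ g2
         · exact h8
       · intro w hw
         rw [AEM.mem_btw] at hw
         exact mem_nI.2 ⟨mem_nO.2 ⟨hw.1, hw.2.2.2.1⟩, hw.2.2.2.2⟩
    exact ⟨ys, y, P₁, P₂, U₁, Gc, hgc, fun he _ => hhop he⟩
  · push Not at hcase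
    exact gcutH_two hT h0 hη hη1 hN hpN hpq hqX hBd hb hGX hGc hGd hGf hBadG
      (fun D π x h1 h2 h3 h4 h5 h6 => hcase D π x h1 h2 h3 h4 h5 h6)

/-- **The group cut without a reserve, first part small**, with `Hop` -/
theorem gcutHR (hT : AE32.Tour R) {X Bd Bad : Finset V} {p q N e b₀ : ℕ} {κ₀ η : ℝ} (h0 : 0 < κ₀) (hη : 25 * κ₀ ≤ η)
    (hη1 : η ≤ 1 / 8) (hN : 1 ≤ N) (hpN : 8 + 4 * (N * (e + 1) : ℕ) ≤ κ₀ * p) (hpq : 3 * (p + N) ≤ 2 * q)
    (hqX : ((q + e : ℕ) : ℝ) ≤ κ₀ * X.card) (hBd : Bd.card ≤ e) (hb : (b₀ : ℝ) ≤ κ₀ * p)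
    (hBad : ∀ g ∈ Bad, (X.filter (fun w => R w g ∧ Good R (κ₀ ^ 2 / 4) η X w)).card < b₀) :
    ∃ G ys y P₁ P₂ U₁ Gc, GC R X Bd Bad p q N e κ₀ η G ys y P₁ P₂ U₁ ∅ Gc ∅ ∧
      (∀ g ∈ G, κ₀ * X.card ≤ ((P₂.filter (fun w => R g w ∧ Good R (κ₀ ^ 2 / 4) η X w)).card : ℝ)) ∧
      (∀ g ∈ G, Rea R X P₂ (κ₀ ^ 2 / 4 * X.card) (η * X.card) g) ∧
      (e = 0 → Bad = ∅ → Hop R P₁ κ₀ ys) := by
  have hη0 : 0 < η := by linarith
  have hp8 : (8 : ℝ) ≤ κ₀ * p := by
    have : (0 : ℝ) ≤ ((N * (e + 1) : ℕ) : ℝ) := Nat.cast_nonneg _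
    linarith
  have hpr : κ₀ * (p : ℝ) ≤ 1 * p := mul_le_mul_of_nonneg_right (by linarith) (Nat.cast_nonneg _)
  have hpq' : (p : ℝ) ≤ ((q + e : ℕ) : ℝ) := by exact_mod_cast (by omega : p ≤ q + e)
  have hn8 : 8 ≤ κ₀ * X.card := by linarith
  obtain ⟨G', hGX', hG1, hGd', hGf'⟩ := structure_lemma hT X (η := η) (κ₀ := κ₀) h0 (by linarith) (by linarith)
    (by linarith)
  set G := G'.filter (fun g => 2 * κ₀ * X.card ≤ ((nO R G' g).card : ℝ)) with hGdef
  have hGG' : G ⊆ G' := filter_subset _ _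
  have hGX : G ⊆ X := hGG'.trans hGX'
  have hGd : ∀ g ∈ G, Good R (κ₀ ^ 2 / 4) η X g := fun g hg => hGd' g (hGG' hg)
  have hGf : ∀ u ∈ X, u ∉ G → ((nO R G u).card : ℝ) < 2 * κ₀ * X.card := by
    intro u hu huG
    have h1 : ((nO R G u).card : ℝ) ≤ (nO R G' u).card := by exact_mod_cast card_le_card (nO_mono hGG')
    refine lt_of_le_of_lt h1 ?_
    by_cases h2 : u ∈ G'
    · by_contra h3
      push Not at h3
      exact huG (mem_filter.2 ⟨h2, h3⟩)
    · exact hGf' u hu h2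
  have hGc : 15 * (κ₀ * X.card) ≤ G.card := by
    have h1 : (20 * κ₀) * (X.card : ℝ) ≤ (η - 5 * κ₀) * X.card :=
      mul_le_mul_of_nonneg_right (by linarith) (Nat.cast_nonneg _)
    have h2 := card_low hT G' ⌊2 * κ₀ * X.card⌋₊
    have h3 : G' ⊆ G ∪ G'.filter (fun v => (nO R G' v).card ≤ ⌊2 * κ₀ * X.card⌋₊) := by
      intro u hu
      by_cases h4 : u ∈ G
      · exact mem_union_left _ h4
      · refine mem_union_right _ (mem_filter.2 ⟨hu, Nat.le_floor ?_⟩)
        by_contra h5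
        push Not at h5
        exact h4 (mem_filter.2 ⟨hu, h5.le⟩)
    have h4 := (card_le_card h3).trans (card_union_le _ _)
    have h5 : (G'.card : ℝ) ≤ G.card + (2 * (⌊2 * κ₀ * X.card⌋₊ : ℝ) + 1) := by
      exact_mod_cast h4.trans (Nat.add_le_add_left h2 _)
    have h6 : (⌊2 * κ₀ * X.card⌋₊ : ℝ) ≤ 2 * κ₀ * X.card := Nat.floor_le (by positivity)
    linarith
  have hfin : ∀ {ys y P₁ P₂ U₁ Gc}, GC R X Bd Bad p q N e κ₀ η G ys y P₁ P₂ U₁ ∅ Gc ∅ →
      (∀ g ∈ G, κ₀ * X.card ≤ ((P₂.filter (fun w => R g w ∧ Good R (κ₀ ^ 2 / 4) η X w)).card : ℝ)) ∧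
      ∀ g ∈ G, Rea R X P₂ (κ₀ ^ 2 / 4 * X.card) (η * X.card) g := by
    intro ys y P₁ P₂ U₁ Gc h
    refine ⟨fun g hg => ?_, fun g hg => ?_⟩
    · have h1 : nO R G' g ⊆ P₂.filter (fun w => R g w ∧ Good R (κ₀ ^ 2 / 4) η X w) ∪ (P₁ ∪ ys.toFinset) := by
        intro w hw
        rw [mem_nO] at hw
        by_cases h2 : w ∈ P₂
        · exact mem_union_left _ (mem_filter.2 ⟨h2, hw.2, hGd' w hw.1⟩)
        · refine mem_union_right _ ?_
          rw [h.part] at h2
          by_contra h3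
          rw [mem_union, List.mem_toFinset] at h3
          push Not at h3
          exact h2 ⟨hGX' hw.1, h3.1, h3.2⟩
      have h2 := (card_le_card h1).trans (card_union_le _ _)
      have h3 := card_union_le P₁ ys.toFinset
      have h4 := ys.toFinset_card_le
      rw [h.len] at h4
      have h5 : 2 * κ₀ * X.card ≤ ((nO R G' g).card : ℝ) := (mem_filter.1 hg).2
      have h6 : ((nO R G' g).card : ℝ) ≤
          (P₂.filter (fun w => R g w ∧ Good R (κ₀ ^ 2 / 4) η X w)).card + ((q + e : ℕ) : ℝ) := by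
        have h7 := h.card₁
        exact_mod_cast (by omega : (nO R G' g).card ≤
          (P₂.filter (fun w => R g w ∧ Good R (κ₀ ^ 2 / 4) η X w)).card + (q + e))
      linarith
    · exact AECut.Good.rea (hGd g hg) (fun w hw => ((h.part w).1 hw).1) le_rfl
  obtain ⟨ys, y, P₁, P₂, U₁, Gc, hh, hhop⟩ := gcutH_of hT h0 hη hη1 hN hpN hpq hqX hBd hb hBad hGX hGd hGf hGc
  exact ⟨G, ys, y, P₁, P₂, U₁, Gc, hh, (hfin hh).1, (hfin hh).2, hhop⟩

end AEG
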