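import Pool.Agent.AEG.GCut

/-!
# Group cuts with a small first part: the last host sees a given set

`gcutW_of` is `gcut_of` with the additional conclusion that the last host has at least `|F| / 4` out-neighbours in a
given set `F` of linear size; the super vertex `x` has maximal weighted out-degree, where the weights are large on `F`.
-/

set_option autoImplicit false

namespace AEG

open Finset AE15 SPD AECut
open scoped Classical

variable {V : Type*} {R : V → V → Prop}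

/-- the conclusion of the group cut lemma, first part small -/
structure GCW (R : V → V → Prop) (X Bd Bad : Finset V) (p q N e K : ℕ) (κ₀ η : ℝ) (G : Finset V) (x : V) (ys : List V)
    (y : V)
    (P₁ P₂ U₁ Rsv Gc Ex : Finset V) : Prop where
  hGX : G ⊆ X
  hG : 15 * (κ₀ * X.card) ≤ G.card
  good : ∀ g ∈ G, Good R (κ₀ ^ 2 / 4) η X g
  bulk : ∀ u ∈ X, u ∉ G → ((nO R G u).card : ℝ) < 2 * κ₀ * X.card
  len : ys.length = N
  nodup : ys.Nodup
  chain : ys.IsChain R
  last : ys.getLast? = some y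
  hys : ∀ z ∈ ys, z ∈ G ∧ z ∈ U₁ ∧ z ∉ P₁ ∧ z ∉ P₂ ∧ z ∉ Bd
  hP₁ : P₁ ⊆ U₁
  hU₁ : U₁ ⊆ G
  hU₁c : U₁.card ≤ 2 * q
  card₁ : P₁.card = p
  disj : Disjoint P₁ P₂
  part : ∀ u, u ∈ P₂ ↔ u ∈ X ∧ u ∉ P₁ ∧ u ∉ ys
  inn : ∀ z ∈ ys, MSide (rv R) U₁ P₁ (κ₀ ^ 2 / 8 * U₁.card) (2 * η * U₁.card) (η / 8) (η / 8) (4 * (N * (e + 1))) z
  inn₁ : ∀ z ∈ ys.head?, MSide (rv R) U₁ P₁ (κ₀ ^ 2 / 8 * U₁.card) (2 * η * U₁.card) (η / 8) (η / 8) (N * e) z
  hRsv : ∀ w ∈ Rsv, w ∈ P₂ ∧ w ∈ G ∧ w ∉ Bad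
  hRc : Rsv.card ≤ 2 * q + e + 1
  lin : κ₀ * X.card ≤ ((P₂.filter (fun w => R y w ∧ w ∈ G ∧ w ∉ Bad)).card : ℝ)
  out : ∀ u ∈ P₂, R u y → u ∈ Ex ∨ (∃ w ∈ Rsv, R y w ∧ R w u) ∨ u ∈ Gc ∨
    κ₀ * X.card ≤ ((P₂.filter (fun w => R y w ∧ R w u ∧ w ∈ G ∧ w ∉ Bad)).card : ℝ)
  cnt : ∀ j : ℕ, (j : ℝ) ≤ κ₀ * X.card →
    (Gc.filter (fun u => (P₂.filter (fun w => R y w ∧ R w u ∧ w ∈ G ∧ w ∉ Bad)).card ≤ j)).card ≤
      K * j + 4 * j + 4 * Bad.card + 4 * (N * e)
  hEx : Ex.card ≤ e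
  see : ∀ w ∈ G, w ∉ Bad → R x w → w ∈ P₂ ∧ R y w

/-- the first case: few vertices have to be above the super vertex `x` -/
theorem gcutW_one (hT : AE32.Tour R) {X Bd Bad : Finset V} {p q N e K : ℕ} {κ₀ η : ℝ} (h0 : 0 < κ₀) (hη : 20 * κ₀ ≤ η)
    (hη1 : η ≤ 1 / 8) (hN : 1 ≤ N) (hpN : 8 + 4 * (N * (e + 1) : ℕ) ≤ κ₀ * p) (hpq : p + N ≤ q) (hBd : Bd.card ≤ e)
    {G Γ U₀ : Finset V} {x : V} (hGX : G ⊆ X) (hGc : 15 * (κ₀ * X.card) ≤ G.card)
    (hGd : ∀ g ∈ G, Good R (κ₀ ^ 2 / 4) η X g) (hGf : ∀ u ∈ X, u ∉ G → ((nO R G u).card : ℝ) < 2 * κ₀ * X.card)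
    (hΓG : Γ ⊆ G) (hΓB : ∀ g ∈ Γ, g ∉ Bad) (hx : x ∈ Γ) (hxB : x ∉ Bd) (hxq : q ≤ (nI R G x).card)
    (hU₀ : U₀ ⊆ nI R G x) (hU₀c : U₀.card ≤ p + N - 1)
    {Dc : V → V} {Ex Cs : Finset V} (hEx : Ex.card ≤ e) (hCs : Cs.card ≤ 2 * q + e)
    (hDc : ∀ u ∈ Cs, Dc u ∈ G ∧ Dc u ∉ Bad ∧ R x (Dc u) ∧ R (Dc u) u)
    (hlin : 4 * (κ₀ * X.card) ≤ ((nO R Γ x).card : ℝ))
    (hcov : ∀ u ∈ G, R u x → u ∈ U₀ ∨ u ∈ Cs ∨ u ∈ Ex ∨ u ∈ Γ)
    (hΓc : ∀ j : ℕ, (j : ℝ) ≤ κ₀ * X.card →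
      ((nI R Γ x).filter (fun u => (nI R (nO R Γ x) u).card ≤ j)).card ≤ K * j)
    (hqX : 8 ≤ κ₀ * X.card) :
    ∃ ys y P₁ P₂ U₁ Rsv Gc Ex, GCW R X Bd Bad p q N e K κ₀ η G x ys y P₁ P₂ U₁ Rsv Gc Ex := by
  have hη0 : 0 < η := by linarith
  have hpos : (0 : ℝ) ≤ (p : ℝ) := Nat.cast_nonneg _
  have hκp : κ₀ * p ≤ 1 / 160 * p := mul_le_mul_of_nonneg_right (by linarith) hpos
  have hNp : ((N * (e + 1) : ℕ) : ℝ) ≤ p := by
    have : (0 : ℝ) ≤ ((N * (e + 1) : ℕ) : ℝ) := Nat.cast_nonneg _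
    linarith
  have hNe : N ≤ N * (e + 1) := Nat.le_mul_of_pos_right _ (by omega)
  have hNp' : N ≤ p := by
    have : N * (e + 1) ≤ p := by exact_mod_cast hNp
    omega
  -- the set of the first part and the first hosts
  obtain ⟨P, hPU, hPx, hPc⟩ := exists_subsuperset_card_eq hU₀ hU₀c (by omega : p + N - 1 ≤ (nI R G x).card)
  have hPG : P ⊆ G := hPx.trans nI_sub
  have hPR : ∀ u ∈ P, R u x := fun u hu => (mem_nI.1 (hPx hu)).2
  have hxP : x ∉ P := fun h => hT.irr x (hPR x h)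
  have hPcr : (P.card : ℝ) ≤ 2 * p := by
    have : P.card ≤ 2 * p := by omega
    exact_mod_cast this
  have hN1 : (((N - 1) * (e + 1) : ℕ) : ℝ) ≤ ((N * (e + 1) : ℕ) : ℝ) := by
    exact_mod_cast Nat.mul_le_mul_right _ (Nat.sub_le N 1)
  obtain ⟨P₁, Z, zs, h1, h2, h3, h4, h5, h6, h7, h8, h9, h10, h11, -, -⟩ := medcut hT (U := P) (Bd := Bd) (p := p)
    (N := N - 1) (e := e) h0 hη hη1 (by
      have := mul_le_mul hη1 hPcr (Nat.cast_nonneg _) (by norm_num : (0 : ℝ) ≤ 1 / 8)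
      linarith) (by linarith) (by omega) hBd
  have hZ0 : Z = ∅ := by
    rw [← card_eq_zero]
    omega
  subst hZ0
  have hU : P₁ ∪ zs.toFinset = P := by
    apply eq_of_subset_of_card_le
    · apply union_subset h4
      intro y hy
      exact (h7 y (List.mem_toFinset.1 hy)).1
    · rw [card_union_of_disjoint, List.toFinset_card_of_nodup h2, h1]
      · rw [card_empty] at h9
        omega
      · rw [disjoint_left]
        intro y hy hy'
        exact (h7 y (List.mem_toFinset.1 hy')).2.1 hy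
  have hxP₁ : x ∉ P₁ := fun h => hxP (h4 h)
  have hxz : x ∉ zs := fun h => hxP (h7 x h).1
  have hxG : x ∈ G := hΓG hx
  set U₁ := insert x P with hU₁
  have hU₁c : U₁.card = p + N := by
    rw [hU₁, card_insert_of_notMem hxP, hPc]
    omega
  have hPU₁ : P ⊆ U₁ := subset_insert _ _
  have hU₁r : (U₁.card : ℝ) = P.card + 1 := by
    rw [hU₁, card_insert_of_notMem hxP]
    push_cast
    rfl
  have hP1r : (1 : ℝ) ≤ P.card := by
    have : 1 ≤ P.card := by
      have : 8 ≤ p := by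
        have : (8 : ℝ) ≤ p := by linarith [(Nat.cast_nonneg _ : (0 : ℝ) ≤ ((N * (e + 1) : ℕ) : ℝ))]
        exact_mod_cast this
      omega
    exact_mod_cast this
  have hkk : κ₀ ^ 2 / 8 * (U₁.card : ℝ) ≤ κ₀ ^ 2 / 4 * P.card := by
    have h : (U₁.card : ℝ) ≤ 2 * P.card := by linarith
    have := mul_le_mul_of_nonneg_left h (by positivity : (0 : ℝ) ≤ κ₀ ^ 2 / 8)
    linarith
  have htt : 2 * η * (P.card : ℝ) ≤ 2 * η * U₁.card := by
    apply mul_le_mul_of_nonneg_left _ (by linarith)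
    linarith
  set ys := zs ++ [x] with hys
  have hmem : ∀ z, z ∈ ys ↔ z ∈ zs ∨ z = x := by
    intro z
    rw [hys, List.mem_append, List.mem_singleton]
  set P₂ := X \ (P₁ ∪ ys.toFinset) with hP₂
  have hP₂m : ∀ u, u ∈ P₂ ↔ u ∈ X ∧ u ∉ P₁ ∧ u ∉ ys := by
    intro u
    rw [hP₂, mem_sdiff, mem_union, not_or, List.mem_toFinset]
  have hnP : ∀ u ∈ X, u ∉ P → u ≠ x → u ∈ P₂ := by
    intro u hu hu' hux
    rw [hP₂m]
    refine ⟨hu, fun h => hu' (h4 h), fun h => ?_⟩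
    rcases (hmem u).1 h with h | h
    · exact hu' (h7 u h).1
    · exact hux h
  have hP₂n : ∀ u ∈ P₂, u ∉ P := by
    intro u hu h
    rw [hP₂m] at hu
    rw [← hU, mem_union, List.mem_toFinset] at h
    rcases h with h | h
    · exact hu.2.1 h
    · exact hu.2.2 ((hmem u).2 (Or.inl h))
  have hout : ∀ w ∈ G, R x w → w ∈ P₂ := by
    intro w hw hxw
    apply hnP w (hGX hw)
    · intro h
      exact hT.asym _ _ hxw (hPR w h)
    · rintro rfl
      exact hT.irr _ hxw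
  have hside : MSide (rv R) U₁ P₁ (κ₀ ^ 2 / 8 * U₁.card) (2 * η * U₁.card) (η / 8) (η / 8) 0 x := by
    refine ⟨⟨nO (rv R) U₁ x, Rch.base, ?_⟩, ?_, ?_⟩
    · have : P₁ \ nO (rv R) U₁ x = ∅ := by
        rw [sdiff_eq_empty_iff_subset]
        intro u hu
        exact mem_nO.2 ⟨hPU₁ (h4 hu), hPR u (h4 hu)⟩
      rw [this]
      simp only [card_empty, Nat.cast_zero]
      positivity
    · have hUc : (insert x P₁).card = p + 1 := by rw [card_insert_of_notMem hxP₁, h8]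
      have hsub : insert x P₁ ⊆ U₁ := insert_subset_insert _ h4
      have hUr : ((insert x P₁).card : ℝ) = p + 1 := by exact_mod_cast hUc
      have hNpr : (N : ℝ) ≤ p := by exact_mod_cast hNp'
      have hU₁p : (U₁.card : ℝ) = p + N := by exact_mod_cast hU₁c
      have hc0 : (0 : ℝ) ≤ ((N * (e + 1) : ℕ) : ℝ) := Nat.cast_nonneg _
      have hκ1 : κ₀ * p ≤ κ₀ * (insert x P₁).card := by
        rw [hUr]
        apply mul_le_mul_of_nonneg_left _ h0.le
        linarith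
      obtain ⟨G₁, hG₁, hG₁c, hG₁g, -⟩ := structure_lemma (rv_tour hT) (insert x P₁) (η := η) (κ₀ := κ₀) h0
        (by linarith) (by linarith) (by linarith)
      have hr : ∀ w ∈ G₁, Rea (rv R) U₁ P₁ (κ₀ ^ 2 / 8 * U₁.card) (2 * η * U₁.card) w := by
        intro w hw
        have h := Good.rea (P := P₁) (t := η * (insert x P₁).card) (hG₁g w hw) (subset_insert _ _) le_rfl
        refine rea_mono (rea_univ h hsub) ?_ ?_
        · rw [hUr, hU₁p]
          have := mul_nonneg (by positivity : (0 : ℝ) ≤ κ₀ ^ 2 / 8) (by linarith : (0 : ℝ) ≤ p + 2 - N)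
          linarith
        · rw [hUr, hU₁p]
          have h1N : (1 : ℝ) ≤ N := by exact_mod_cast hN
          have := mul_nonneg hη0.le (by linarith : (0 : ℝ) ≤ p + 2 * N - 1)
          linarith
      have h12 : G₁ ⊆ insert x (P₁.filter (fun w => rv R x w ∧ Rea (rv R) U₁ P₁ (κ₀ ^ 2 / 8 * U₁.card)
          (2 * η * U₁.card) w)) := by
        intro w hw
        rcases mem_insert.1 (hG₁ hw) with rfl | h
        · exact mem_insert_self _ _
        · apply mem_insert_of_mem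
          rw [mem_filter]
          exact ⟨h, hPR w (h4 h), hr w hw⟩
      have h13 : (G₁.card : ℝ) ≤ (P₁.filter (fun w => rv R x w ∧ Rea (rv R) U₁ P₁ (κ₀ ^ 2 / 8 * U₁.card)
          (2 * η * U₁.card) w)).card + 1 := by
        exact_mod_cast (card_le_card h12).trans (card_insert_le _ _)
      have h14 : (η - 5 * κ₀) * (p + 1) ≤ G₁.card := by rw [← hUr]; exact hG₁c
      have h15 : 3 / 4 * η * p ≤ (η - 5 * κ₀) * p := by
        apply mul_le_mul_of_nonneg_right _ hpos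
        linarith
      have h16 : 20 * (κ₀ * p) ≤ η * p := by
        have := mul_le_mul_of_nonneg_right hη hpos
        linarith
      rw [h8]
      have h17 : 0 ≤ η - 5 * κ₀ := by linarith
      linarith
    · intro j _
      rw [filter_false_of_mem]
      · simp
      · rintro u hu ⟨h, -⟩
        exact hT.asym _ _ h (hPR u (h4 hu))
  have hNe1 : 4 * ((N - 1) * (e + 1)) ≤ 4 * (N * (e + 1)) :=
    Nat.mul_le_mul_left _ (Nat.mul_le_mul_right _ (Nat.sub_le N 1))
  refine ⟨ys, x, P₁, P₂, U₁, insert x (Cs.image Dc) \ {x}, (nI R Γ x) ∩ P₂, Ex, hGX, hGc, hGd, hGf, ?_, ?_, ?_, ?_, ?_,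
    h4.trans hPU₁, insert_subset hxG hPG, by omega, h8, ?_, hP₂m, ?_, ?_, ?_, ?_, ?_, ?_, ?_, hEx,
    fun w hw _ hxw => ⟨hout w hw hxw, hxw⟩⟩
  · rw [hys, List.length_append, List.length_singleton, h1]
    omega
  · rw [hys, List.nodup_append]
    refine ⟨h2, List.nodup_singleton _, ?_⟩
    intro a ha b hb
    rw [List.mem_singleton] at hb
    rintro rfl
    exact hxz (hb ▸ ha)
  · rw [hys, List.isChain_append]
    refine ⟨h3, List.isChain_singleton _, ?_⟩
    intro a ha b hb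
    rw [List.head?_cons, Option.mem_some_iff] at hb
    rw [← hb]
    exact hPR a (h7 a (List.mem_of_mem_getLast? ha)).1
  · rw [hys, List.getLast?_append]
    simp
  · intro z hz
    rcases (hmem z).1 hz with h | rfl
    · obtain ⟨g1, g2, -, g4⟩ := h7 z h
      exact ⟨hPG g1, hPU₁ g1, g2, fun h' => hP₂n z h' g1, g4⟩
    · exact ⟨hxG, mem_insert_self _ _, hxP₁, fun h' => ((hP₂m _).1 h').2.2 hz, hxB⟩
  · rw [disjoint_left]
    intro u hu hu'
    exact ((hP₂m u).1 hu').2.1 hu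
  · intro z hz
    rcases (hmem z).1 hz with h | rfl
    · exact (h10 z h).mono5 hPU₁ hkk htt le_rfl le_rfl hNe1
    · exact hside.mono5 (Subset.refl _) le_rfl le_rfl le_rfl le_rfl (Nat.zero_le _)
  · intro z hz
    rcases zs with _ | ⟨a, l⟩
    · rw [hys, List.nil_append, List.head?_cons, Option.mem_some_iff] at hz
      rw [← hz]
      exact hside.mono5 (Subset.refl _) le_rfl le_rfl le_rfl le_rfl (Nat.zero_le _)
    · rw [hys, List.cons_append, List.head?_cons, Option.mem_some_iff] at hz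
      refine (h11 z ?_).mono5 hPU₁ hkk htt le_rfl le_rfl (Nat.mul_le_mul_right _ (Nat.sub_le N 1))
      rw [List.head?_cons, Option.mem_some_iff]
      exact hz
  · intro w hw
    rw [mem_sdiff, mem_singleton, mem_insert] at hw
    rcases hw.1 with h | h
    · exact absurd h hw.2
    · rw [mem_image] at h
      obtain ⟨u, hu, rfl⟩ := h
      obtain ⟨g1, g2, g3, -⟩ := hDc u hu
      exact ⟨hout _ g1 g3, g1, g2⟩
  · have h12 := card_insert_le x (Cs.image Dc)
    have h13 := card_image_le (s := Cs) (f := Dc)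
    have h14 := card_le_card (sdiff_subset : insert x (Cs.image Dc) \ {x} ⊆ insert x (Cs.image Dc))
    omega
  · refine le_trans (by linarith [(by positivity : 0 ≤ κ₀ * (X.card : ℝ))] : κ₀ * X.card ≤ ((nO R Γ x).card : ℝ)) ?_
    apply Nat.cast_le.2
    apply card_le_card
    intro w hw
    rw [mem_nO] at hw
    rw [mem_filter]
    exact ⟨hout w (hΓG hw.1) hw.2, hw.2, hΓG hw.1, hΓB w hw.1⟩
  · intro u hu hux
    by_cases huG : u ∈ G
    · rcases hcov u huG hux with h | h | h | h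
      · exact absurd (hPU h) (hP₂n u hu)
      · right; left
        obtain ⟨g1, g2, g3, g4⟩ := hDc u h
        refine ⟨Dc u, ?_, g3, g4⟩
        rw [mem_sdiff, mem_singleton, mem_insert]
        refine ⟨Or.inr (mem_image_of_mem _ h), ?_⟩
        intro h'
        rw [h'] at g3
        exact hT.irr _ g3
      · exact Or.inl h
      · right; right; left
        exact mem_inter.2 ⟨mem_nI.2 ⟨h, hux⟩, hu⟩
    · right; right; right
      have h12 := hGf u ((hP₂m u).1 hu).1 huG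
      have h13 : nO R Γ x \ nO R G u ⊆ P₂.filter (fun w => R x w ∧ R w u ∧ w ∈ G ∧ w ∉ Bad) := by
        intro w hw
        rw [mem_sdiff, mem_nO] at hw
        have hwG := hΓG hw.1.1
        rw [mem_filter]
        refine ⟨hout w hwG hw.1.2, hw.1.2, ?_, hwG, hΓB w hw.1.1⟩
        have hne : w ≠ u := fun e => huG (e ▸ hwG)
        rcases hT.tot w u hne with h | h
        · exact h
        · exact absurd (mem_nO.2 ⟨hwG, h⟩) hw.2
      have h14 := le_card_sdiff (nO R G u) (nO R Γ x)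
      have h15 : ((nO R Γ x).card : ℝ) ≤ (nO R Γ x \ nO R G u).card + (nO R G u).card := by
        exact_mod_cast (by omega : (nO R Γ x).card ≤ (nO R Γ x \ nO R G u).card + (nO R G u).card)
      have h16 : ((nO R Γ x \ nO R G u).card : ℝ) ≤ (P₂.filter (fun w => R x w ∧ R w u ∧ w ∈ G ∧ w ∉ Bad)).card := by
        exact_mod_cast card_le_card h13
      linarith
  · intro j hj
    refine (le_trans (card_le_card ?_) (hΓc j hj)).trans (by omega)
    intro u hu
    rw [mem_filter, mem_inter] at hu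
    rw [mem_filter]
    refine ⟨hu.1.1, le_trans (card_le_card ?_) hu.2⟩
    intro w hw
    rw [mem_nI, mem_nO] at hw
    rw [mem_filter]
    exact ⟨hout w (hΓG hw.1.1) hw.1.2, hw.1.2, hw.2, hΓG hw.1.1, hΓB w hw.1.1⟩

/-- the second case: many vertices have to be above the super vertex `x`; the cut is made among them -/
theorem gcutW_two (hT : AE32.Tour R) {X Bd Bad : Finset V} {p q N e K : ℕ} {κ₀ η : ℝ} (h0 : 0 < κ₀) (hη : 20 * κ₀ ≤ η)
    (hη1 : η ≤ 1 / 8) (hN : 1 ≤ N) (hpN : 8 + 4 * (N * (e + 1) : ℕ) ≤ κ₀ * p) (hq4 : q ≤ 4 * p) (hBd : Bd.card ≤ e)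
    {G Γ U₀ : Finset V} {x : V} (hGX : G ⊆ X) (hGc : 15 * (κ₀ * X.card) ≤ G.card)
    (hGd : ∀ g ∈ G, Good R (κ₀ ^ 2 / 4) η X g) (hGf : ∀ u ∈ X, u ∉ G → ((nO R G u).card : ℝ) < 2 * κ₀ * X.card)
    (hΓG : Γ ⊆ G) (hΓB : ∀ g ∈ Γ, g ∉ Bad) (hx : x ∈ Γ)
    (hU₀ : U₀ ⊆ nI R G x) (hU₀c : p + N ≤ U₀.card) (hU₀q : U₀.card ≤ 2 * q)
    (hU₀x : ∀ z ∈ U₀, ∀ w ∈ G, R x w → w ∉ Bad → ¬ R w z)
    {Dc : V → V} {Ex Cs : Finset V} (hEx : Ex.card ≤ e) (hCs : Cs.card ≤ 2 * q + e)
    (hDc : ∀ u ∈ Cs, Dc u ∈ G ∧ Dc u ∉ Bad ∧ R x (Dc u) ∧ R (Dc u) u)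
    (hlin : 4 * (κ₀ * X.card) ≤ ((nO R Γ x).card : ℝ))
    (hcov : ∀ u ∈ G, R u x → u ∈ U₀ ∨ u ∈ Cs ∨ u ∈ Ex ∨ u ∈ Γ)
    (hΓc : ∀ j : ℕ, (j : ℝ) ≤ κ₀ * X.card →
      ((nI R Γ x).filter (fun u => (nI R (nO R Γ x) u).card ≤ j)).card ≤ K * j) :
    ∃ ys y P₁ P₂ U₁ Rsv Gc Ex, GCW R X Bd Bad p q N e K κ₀ η G x ys y P₁ P₂ U₁ Rsv Gc Ex := by
  have hη0 : 0 < η := by linarith
  have hU8 : (U₀.card : ℝ) ≤ 8 * p := by exact_mod_cast (by omega : U₀.card ≤ 8 * p)
  have hηU : η * (U₀.card : ℝ) ≤ p := by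
    have := mul_le_mul hη1 hU8 (Nat.cast_nonneg _) (by norm_num : (0 : ℝ) ≤ 1 / 8)
    linarith
  obtain ⟨P₁, Z, ys, h1, h2, h3, h4, h5, h6, h7, h8, h9, h10, h11, -, h13⟩ := medcut hT (U := U₀) (Bd := Bd) (p := p)
    (N := N) (e := e) h0 hη hη1 hηU hpN hU₀c hBd
  have hU₀G : U₀ ⊆ G := hU₀.trans nI_sub
  have hU₀R : ∀ u ∈ U₀, R u x := fun u hu => (mem_nI.1 (hU₀ hu)).2
  have hxU : x ∉ U₀ := fun h => hT.irr x (hU₀R x h)
  have hxG : x ∈ G := hΓG hx
  have hyne : ys ≠ [] := by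
    rintro rfl
    rw [List.length_nil] at h1
    omega
  obtain ⟨y, hy⟩ : ∃ y, ys.getLast? = some y := ⟨ys.getLast hyne, List.getLast?_eq_some_getLast hyne⟩
  have hyy : y ∈ ys := List.mem_of_mem_getLast? hy
  have hyU : y ∈ U₀ := (h7 y hyy).1
  have hU : ∀ u ∈ U₀, u ∉ P₁ → u ∉ ys → u ∈ Z := by
    intro u hu hu1 hu2
    have h14 : (P₁ ∪ ys.toFinset) ∪ Z = U₀ := by
      apply eq_of_subset_of_card_le
      · apply union_subset (union_subset h4 _) h5
        intro z hz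
        exact (h7 z (List.mem_toFinset.1 hz)).1
      · rw [card_union_of_disjoint, card_union_of_disjoint, List.toFinset_card_of_nodup h2, h1]
        · exact h9.symm.le
        · rw [disjoint_left]
          intro z hz hz'
          exact (h7 z (List.mem_toFinset.1 hz')).2.1 hz
        · rw [disjoint_union_left]
          refine ⟨h6, ?_⟩
          rw [disjoint_left]
          intro z hz hz'
          exact (h7 z (List.mem_toFinset.1 hz)).2.2.1 hz'
    rw [← h14, mem_union, mem_union, List.mem_toFinset] at hu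
    rcases hu with (h | h) | h
    · exact absurd h hu1
    · exact absurd h hu2
    · exact h
  set P₂ := X \ (P₁ ∪ ys.toFinset) with hP₂
  have hP₂m : ∀ u, u ∈ P₂ ↔ u ∈ X ∧ u ∉ P₁ ∧ u ∉ ys := by
    intro u
    rw [hP₂, mem_sdiff, mem_union, not_or, List.mem_toFinset]
  have hnP : ∀ u ∈ X, u ∉ U₀ → u ∈ P₂ := by
    intro u hu hu'
    rw [hP₂m]
    exact ⟨hu, fun h => hu' (h4 h), fun h => hu' (h7 u h).1⟩
  have hZP : ∀ u ∈ Z, u ∈ P₂ := by
    intro u hu
    rw [hP₂m]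
    exact ⟨hGX (hU₀G (h5 hu)), fun h => (disjoint_left.1 h6) h hu, fun h => (h7 u h).2.2.1 hu⟩
  have hout : ∀ w ∈ G, R x w → w ∈ P₂ := by
    intro w hw hxw
    apply hnP w (hGX hw)
    intro h
    exact hT.asym _ _ hxw (hU₀R w h)
  have hxP₂ : x ∈ P₂ := hnP x (hGX hxG) hxU
  have hyR : ∀ w ∈ G, R x w → w ∉ Bad → R y w := by
    intro w hw hxw hwB
    have hne : y ≠ w := by
      rintro rfl
      exact hT.asym _ _ hxw (hU₀R y hyU)
    rcases hT.tot y w hne with h | h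
    · exact h
    · exact absurd h (hU₀x y hyU w hw hxw hwB)
  have hkk : κ₀ ^ 2 / 8 * (U₀.card : ℝ) ≤ κ₀ ^ 2 / 4 * U₀.card := by
    have : (0 : ℝ) ≤ κ₀ ^ 2 * U₀.card := by positivity
    linarith
  refine ⟨ys, y, P₁, P₂, U₀, insert x (Cs.image Dc), (nI R Γ x) ∩ P₂ ∪ Z.filter (fun u => R u y), Ex, hGX, hGc, hGd, hGf,
    h1, h2, h3, hy, ?_, h4, hU₀G, hU₀q, h8, ?_, hP₂m, ?_, ?_, ?_, ?_, ?_, ?_, ?_, hEx,
    fun w hw hwB hxw => ⟨hout w hw hxw, hyR w hw hxw hwB⟩⟩
  · intro z hz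
    obtain ⟨g1, g2, -, g4⟩ := h7 z hz
    exact ⟨hU₀G g1, g1, g2, fun h' => ((hP₂m _).1 h').2.2 hz, g4⟩
  · rw [disjoint_left]
    intro u hu hu'
    exact ((hP₂m u).1 hu').2.1 hu
  · intro z hz
    exact (h10 z hz).mono5 (Subset.refl _) hkk le_rfl le_rfl le_rfl le_rfl
  · intro z hz
    exact (h11 z hz).mono5 (Subset.refl _) hkk le_rfl le_rfl le_rfl le_rfl
  · intro w hw
    rw [mem_insert] at hw
    rcases hw with rfl | h
    · exact ⟨hxP₂, hxG, hΓB _ hx⟩
    · rw [mem_image] at h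
      obtain ⟨u, hu, rfl⟩ := h
      obtain ⟨g1, g2, g3, -⟩ := hDc u hu
      exact ⟨hout _ g1 g3, g1, g2⟩
  · have h14 := card_insert_le x (Cs.image Dc)
    have h15 := card_image_le (s := Cs) (f := Dc)
    omega
  · refine le_trans (by linarith [(by positivity : 0 ≤ κ₀ * (X.card : ℝ))] : κ₀ * X.card ≤ ((nO R Γ x).card : ℝ)) ?_
    apply Nat.cast_le.2
    apply card_le_card
    intro w hw
    rw [mem_nO] at hw
    rw [mem_filter]
    exact ⟨hout w (hΓG hw.1) hw.2, hyR w (hΓG hw.1) hw.2 (hΓB w hw.1), hΓG hw.1, hΓB w hw.1⟩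
  · intro u hu huy
    by_cases huG : u ∈ G
    · have hux : u ≠ x := by
        rintro rfl
        exact hT.asym _ _ huy (hU₀R y hyU)
      rcases hT.tot u x hux with h | h
      · rcases hcov u huG h with h' | h' | h' | h'
        · right; right; left
          have h16 := (hP₂m u).1 hu
          exact mem_union_right _ (mem_filter.2 ⟨hU u h' h16.2.1 h16.2.2, huy⟩)
        · right; left
          obtain ⟨g1, g2, g3, g4⟩ := hDc u h'
          exact ⟨Dc u, mem_insert_of_mem (mem_image_of_mem _ h'), hyR _ g1 g3 g2, g4⟩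
        · exact Or.inl h'
        · right; right; left
          exact mem_union_left _ (mem_inter.2 ⟨mem_nI.2 ⟨h', h⟩, hu⟩)
      · right; left
        exact ⟨x, mem_insert_self _ _, hU₀R y hyU, h⟩
    · right; right; right
      have h12 := hGf u ((hP₂m u).1 hu).1 huG
      have h13 : nO R Γ x \ nO R G u ⊆ P₂.filter (fun w => R y w ∧ R w u ∧ w ∈ G ∧ w ∉ Bad) := by
        intro w hw
        rw [mem_sdiff, mem_nO] at hw
        have hwG := hΓG hw.1.1
        rw [mem_filter]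
        refine ⟨hout w hwG hw.1.2, hyR w hwG hw.1.2 (hΓB w hw.1.1), ?_, hwG, hΓB w hw.1.1⟩
        have hne : w ≠ u := fun e => huG (e ▸ hwG)
        rcases hT.tot w u hne with h | h
        · exact h
        · exact absurd (mem_nO.2 ⟨hwG, h⟩) hw.2
      have h14 := le_card_sdiff (nO R G u) (nO R Γ x)
      have h15 : ((nO R Γ x).card : ℝ) ≤ (nO R Γ x \ nO R G u).card + (nO R G u).card := by
        exact_mod_cast (by omega : (nO R Γ x).card ≤ (nO R Γ x \ nO R G u).card + (nO R G u).card)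
      have h16 : ((nO R Γ x \ nO R G u).card : ℝ) ≤ (P₂.filter (fun w => R y w ∧ R w u ∧ w ∈ G ∧ w ∉ Bad)).card := by
        exact_mod_cast card_le_card h13
      linarith
  · intro j hj
    have h14 := hΓc j hj
    have h15 := h13 y hy (j + Bad.card)
    have h16 : ((nI R Γ x) ∩ P₂ ∪ Z.filter (fun u => R u y)).filter
        (fun u => (P₂.filter (fun w => R y w ∧ R w u ∧ w ∈ G ∧ w ∉ Bad)).card ≤ j) ⊆
        ((nI R Γ x).filter (fun u => (nI R (nO R Γ x) u).card ≤ j)) ∪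
        (Z.filter (fun u => R u y ∧ (Z.filter (fun w => R y w ∧ R w u)).card ≤ j + Bad.card)) := by
      intro u hu
      rw [mem_filter, mem_union, mem_inter, mem_filter] at hu
      rw [mem_union, mem_filter, mem_filter]
      rcases hu with ⟨h | h, h'⟩
      · left
        refine ⟨h.1, le_trans (card_le_card ?_) h'⟩
        intro w hw
        rw [mem_nI, mem_nO] at hw
        rw [mem_filter]
        exact ⟨hout w (hΓG hw.1.1) hw.1.2, hyR w (hΓG hw.1.1) hw.1.2 (hΓB w hw.1.1), hw.2, hΓG hw.1.1, hΓB w hw.1.1⟩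
      · right
        refine ⟨h.1, h.2, ?_⟩
        have h17 : Z.filter (fun w => R y w ∧ R w u) ⊆
            (P₂.filter (fun w => R y w ∧ R w u ∧ w ∈ G ∧ w ∉ Bad)) ∪ Bad := by
          intro w hw
          rw [mem_filter] at hw
          rw [mem_union, mem_filter]
          by_cases hwB : w ∈ Bad
          · exact Or.inr hwB
          · exact Or.inl ⟨hZP w hw.1, hw.2.1, hw.2.2, hU₀G (h5 hw.1), hwB⟩
        exact (card_le_card h17).trans ((card_union_le _ _).trans (by omega))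
    refine (card_le_card h16).trans ((card_union_le _ _).trans ?_)
    omega

/-- the weight of a set -/
noncomputable def wc (w : V → ℕ) (S : Finset V) : ℕ := ∑ v ∈ S, w v

theorem wc_union {w : V → ℕ} {A B : Finset V} (h : Disjoint A B) : wc w (A ∪ B) = wc w A + wc w B := sum_union h

theorem wc_mono {w : V → ℕ} {A B : Finset V} (h : A ⊆ B) : wc w A ≤ wc w B := sum_le_sum_of_subset h

/-- the weighted number of arcs of a tournament -/
theorem wsum_two (hT : AE32.Tour R) (A : Finset V) (w : V → ℕ) :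
    2 * ∑ a ∈ A, w a * wc w (nO R A a) + ∑ a ∈ A, w a * w a = wc w A * wc w A := by
  have h1 : ∀ a ∈ A, w a * wc w A = w a * w a + w a * wc w (nO R A a) + w a * wc w (nI R A a) := by
    intro a ha
    have h2 : A = {a} ∪ (nO R A a ∪ nI R A a) := by
      ext b
      rw [mem_union, mem_union, mem_singleton, mem_nO, mem_nI]
      constructor
      · intro hb
        by_cases hba : b = a
        · exact Or.inl hba
        · rcases hT.tot a b (Ne.symm hba) with h | h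
          · exact Or.inr (Or.inl ⟨hb, h⟩)
          · exact Or.inr (Or.inr ⟨hb, h⟩)
      · rintro (h | h | h)
        · rw [h]; exact ha
        · exact h.1
        · exact h.1
    have h3 : Disjoint (nO R A a) (nI R A a) := by
      rw [disjoint_left]
      intro b h4 h5
      exact hT.asym _ _ (mem_nO.1 h4).2 (mem_nI.1 h5).2
    have h4 : Disjoint ({a} : Finset V) (nO R A a ∪ nI R A a) := by
      rw [disjoint_singleton_left, mem_union, mem_nO, mem_nI]
      rintro (h | h)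
      · exact hT.irr _ h.2
      · exact hT.irr _ h.2
    have h5 : wc w A = w a + (wc w (nO R A a) + wc w (nI R A a)) := by
      conv_lhs => rw [h2]
      rw [wc_union h4, wc_union h3]
      simp [wc]
    rw [h5]
    ring
  have h2 : ∑ a ∈ A, w a * wc w (nI R A a) = ∑ a ∈ A, w a * wc w (nO R A a) := by
    unfold wc
    simp only [mul_sum]
    unfold nI nO
    simp only [sum_filter]
    rw [sum_comm]
    apply sum_congr rfl
    intro a _
    apply sum_congr rfl
    intro b _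
    split_ifs
    · ring
    · rfl
  have h3 : wc w A * wc w A = ∑ a ∈ A, w a * wc w A := by
    rw [← sum_mul]
    rfl
  rw [h3, sum_congr rfl h1, sum_add_distrib, sum_add_distrib, h2]
  ring

/-- few vertices have small weighted out-degree -/
theorem wcard_low (hT : AE32.Tour R) (A : Finset V) {w : V → ℕ} {B : ℕ} (hB : ∀ v, w v ≤ B) (t : ℕ) :
    wc w (A.filter (fun v => wc w (nO R A v) ≤ t)) ≤ 2 * t + B := by
  set L := A.filter (fun v => wc w (nO R A v) ≤ t) with hL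
  have h1 := wsum_two hT L w
  have h2 : ∑ a ∈ L, w a * wc w (nO R L a) ≤ wc w L * t := by
    unfold wc
    rw [sum_mul]
    apply sum_le_sum
    intro a ha
    apply Nat.mul_le_mul_left
    exact (wc_mono (nO_mono (filter_subset _ _))).trans (mem_filter.1 ha).2
  have h3 : ∑ a ∈ L, w a * w a ≤ wc w L * B := by
    unfold wc
    rw [sum_mul]
    apply sum_le_sum
    intro a _
    exact Nat.mul_le_mul_left _ (hB a)
  rcases Nat.eq_zero_or_pos (wc w L) with h0 | h0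
  · omega
  · have h4 : wc w L * wc w L ≤ wc w L * (2 * t + B) := by
      calc wc w L * wc w L = 2 * ∑ a ∈ L, w a * wc w (nO R L a) + ∑ a ∈ L, w a * w a := h1.symm
        _ ≤ 2 * (wc w L * t) + wc w L * B := by omega
        _ = wc w L * (2 * t + B) := by ring
    exact Nat.le_of_mul_le_mul_left h4 h0

/-- the vertex of maximal weighted out-degree -/
theorem wsuper (hT : AE32.Tour R) {G : Finset V} (hne : G.Nonempty) {w : V → ℕ} {B : ℕ} (h1w : ∀ v, 1 ≤ w v)
    (hB : ∀ v, w v ≤ B) : ∃ x ∈ G, (∀ u ∈ G, R u x → wc w (nO R (nI R G x) u) + 1 ≤ wc w (nI R (nO R G x) u)) ∧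
      wc w G ≤ 2 * wc w (nO R G x) + B := by
  obtain ⟨x, hx, hmax⟩ := exists_max_image G (fun v => wc w (nO R G v)) hne
  refine ⟨x, hx, ?_, ?_⟩
  · intro u hu hux
    have h1 := hmax u hu
    have h2 : insert x (nO R (nI R G x) u ∪ nO R (nO R G x) u) ⊆ nO R G u := by
      intro v hv
      rw [mem_insert, mem_union] at hv
      rcases hv with h' | h' | h'
      · rw [h']; exact mem_nO.2 ⟨hx, hux⟩
      · exact mem_nO.2 ⟨nI_sub (nO_sub h'), (mem_nO.1 h').2⟩
      · exact mem_nO.2 ⟨nO_sub (nO_sub h'), (mem_nO.1 h').2⟩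
    have h3 := wc_mono (w := w) h2
    have h4 : wc w (insert x (nO R (nI R G x) u ∪ nO R (nO R G x) u)) =
        w x + (wc w (nO R (nI R G x) u) + wc w (nO R (nO R G x) u)) := by
      have h5 : x ∉ nO R (nI R G x) u ∪ nO R (nO R G x) u := by
        rw [mem_union, not_or]
        exact ⟨fun h' => hT.irr x (mem_nI.1 (nO_sub h')).2, fun h' => hT.irr x (mem_nO.1 (nO_sub h')).2⟩
      have h6 : Disjoint (nO R (nI R G x) u) (nO R (nO R G x) u) := by
        rw [disjoint_left]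
        intro v h7 h8
        exact hT.asym _ _ (mem_nI.1 (nO_sub h7)).2 (mem_nO.1 (nO_sub h8)).2
      rw [← wc_union h6]
      unfold wc
      rw [sum_insert h5]
    have h5 : wc w (nO R G x) = wc w (nO R (nO R G x) u) + wc w (nI R (nO R G x) u) := by
      rw [← wc_union]
      · congr 1
        ext v
        rw [mem_union, mem_nO (X := nO R G x), mem_nI]
        constructor
        · intro hv
          have hne : u ≠ v := by
            rintro rfl
            exact hT.asym _ _ hux (mem_nO.1 hv).2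
          rcases hT.tot u v hne with h6 | h6
          · exact Or.inl ⟨hv, h6⟩
          · exact Or.inr ⟨hv, h6⟩
        · rintro (h6 | h6) <;> exact h6.1
      · rw [disjoint_left]
        intro v h7 h8
        exact hT.asym _ _ (mem_nO.1 h7).2 (mem_nI.1 h8).2
    have h6 := h1w x
    omega
  · have h1 := wsum_two hT G w
    have h2 : ∑ a ∈ G, w a * wc w (nO R G a) ≤ wc w G * wc w (nO R G x) := by
      conv_rhs => rw [wc, sum_mul]
      apply sum_le_sum
      intro a ha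
      exact Nat.mul_le_mul_left _ (hmax a ha)
    have h3 : ∑ a ∈ G, w a * w a ≤ wc w G * B := by
      unfold wc
      rw [sum_mul]
      apply sum_le_sum
      intro a _
      exact Nat.mul_le_mul_left _ (hB a)
    rcases Nat.eq_zero_or_pos (wc w G) with h0 | h0
    · omega
    · have h4 : wc w G * wc w G ≤ wc w G * (2 * wc w (nO R G x) + B) := by
        calc wc w G * wc w G = 2 * ∑ a ∈ G, w a * wc w (nO R G a) + ∑ a ∈ G, w a * w a := h1.symm
          _ ≤ 2 * (wc w G * wc w (nO R G x)) + wc w G * B := by omega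
          _ = wc w G * (2 * wc w (nO R G x) + B) := by ring
      exact Nat.le_of_mul_le_mul_left h4 h0

/-- **Group cut with a small first part, the last host sees `F`** -/
theorem gcutW_of (hT : AE32.Tour R) {X Bd Bad G F : Finset V} {p q N e M : ℕ} {κ₀ η φ : ℝ} (h0 : 0 < κ₀)
    (hη : 20 * κ₀ ≤ η) (hη1 : η ≤ 1 / 8) (hN : 1 ≤ N) (hpN : 8 + 4 * (N * (e + 1) : ℕ) ≤ κ₀ * p) (hpq : p + N ≤ q)
    (hq4 : q ≤ 4 * p) (hqX : ((q + e : ℕ) : ℝ) ≤ κ₀ * X.card) (hBd : Bd.card ≤ e)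
    (hBad : ∀ g ∈ Bad, (X.filter (fun w => R w g ∧ Good R (κ₀ ^ 2 / 4) η X w)).card < q)
    (hGX : G ⊆ X) (hGd : ∀ g ∈ G, Good R (κ₀ ^ 2 / 4) η X g)
    (hGf : ∀ u ∈ X, u ∉ G → ((nO R G u).card : ℝ) < 2 * κ₀ * X.card)
    (hFG : F ⊆ G) (hF : φ * X.card ≤ F.card) (hφ : 32 * κ₀ ≤ φ) (hM : 4 ≤ φ * M) :
    ∃ x ys y P₁ P₂ U₁ Rsv Gc Ex, GCW R X Bd Bad p q N e (3 * (M + 1)) κ₀ η G x ys y P₁ P₂ U₁ Rsv Gc Ex ∧
      (F.card : ℝ) / 4 ≤ ((P₂.filter (fun w => w ∈ F ∧ R y w)).card : ℝ) := by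
  have hη0 : 0 < η := by linarith
  have hp8 : (8 : ℝ) ≤ κ₀ * p := by
    have : (0 : ℝ) ≤ ((N * (e + 1) : ℕ) : ℝ) := Nat.cast_nonneg _
    linarith
  have hpr : κ₀ * (p : ℝ) ≤ 1 * p := mul_le_mul_of_nonneg_right (by linarith) (Nat.cast_nonneg _)
  have hpq' : (p : ℝ) ≤ ((q + e : ℕ) : ℝ) := by exact_mod_cast (by omega : p ≤ q + e)
  have hn8 : 8 ≤ κ₀ * X.card := by linarith
  set G₀ := G.filter (fun g => (nI R G g).card < q) with hG₀
  have hG₀G : G₀ ⊆ G := filter_subset _ _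
  have hG₀c : G₀.card ≤ 2 * q := card_lowin hT q G
  set Γ := (G \ G₀) \ Bd with hΓ
  have hΓG : Γ ⊆ G := sdiff_subset.trans sdiff_subset
  have hΓq : ∀ g ∈ Γ, q ≤ (nI R G g).card := by
    intro g hg
    rw [hΓ, mem_sdiff, mem_sdiff, hG₀, mem_filter] at hg
    by_contra hc
    push Not at hc
    exact hg.1.2 ⟨hg.1.1, hc⟩
  have hΓB : ∀ g ∈ Γ, g ∉ Bad := by
    intro g hg hgB
    have h1 := hBad g hgB
    have h2 := hΓq g hg
    have h3 : nI R G g ⊆ X.filter (fun w => R w g ∧ Good R (κ₀ ^ 2 / 4) η X w) := by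
      intro w hw
      rw [mem_nI] at hw
      rw [mem_filter]
      exact ⟨hGX hw.1, hw.2, hGd w hw.1⟩
    have := card_le_card h3
    omega
  -- the part of `F` in `Γ`
  set F' := F.filter (fun v => v ∈ Γ) with hF'
  have hF'c : F.card ≤ F'.card + 2 * q + e := by
    have h1 : F ⊆ F' ∪ (G₀ ∪ Bd) := by
      intro v hv
      rw [mem_union, mem_union, hF', mem_filter, hΓ, mem_sdiff, mem_sdiff]
      by_cases h2 : v ∈ G₀
      · exact Or.inr (Or.inl h2)
      · by_cases h3 : v ∈ Bd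
        · exact Or.inr (Or.inr h3)
        · exact Or.inl ⟨hv, ⟨hFG hv, h2⟩, h3⟩
    have h2 := (card_le_card h1).trans ((card_union_le _ _).trans (Nat.add_le_add_left (card_union_le _ _) _))
    omega
  have hF'r : (F.card : ℝ) ≤ F'.card + 2 * (κ₀ * X.card) := by
    have h1 : (F.card : ℝ) ≤ F'.card + 2 * ((q + e : ℕ) : ℝ) := by
      exact_mod_cast (by omega : F.card ≤ F'.card + 2 * (q + e))
    linarith
  have hκφ : 32 * κ₀ * (X.card : ℝ) ≤ φ * X.card := mul_le_mul_of_nonneg_right hφ (Nat.cast_nonneg _)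
  have hne : Γ.Nonempty := by
    have h1 : (0 : ℝ) < F'.card := by linarith
    have h2 : 0 < F'.card := by exact_mod_cast h1
    obtain ⟨v, hv⟩ := card_pos.1 h2
    exact ⟨v, (mem_filter.1 hv).2⟩
  obtain ⟨w, hw⟩ : ∃ w : V → ℕ, w = fun v => if v ∈ F then M + 1 else 1 := ⟨_, rfl⟩
  have h1w : ∀ v, 1 ≤ w v := by
    intro v
    rw [hw]
    simp only
    split_ifs <;> omega
  have hBw : ∀ v, w v ≤ M + 1 := by
    intro v
    rw [hw]
    simp only
    split_ifs <;> omega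
  have hcw : ∀ S : Finset V, S.card ≤ wc w S := by
    intro S
    calc S.card = ∑ v ∈ S, 1 := by simp
      _ ≤ wc w S := sum_le_sum (fun v _ => h1w v)
  have hwS : ∀ S : Finset V, wc w S = S.card + M * (S.filter (fun v => v ∈ F)).card := by
    intro S
    unfold wc
    rw [hw]
    have h1 : ∀ v ∈ S, (if v ∈ F then M + 1 else 1) = 1 + (if v ∈ F then M else 0) := by
      intro v _
      split_ifs <;> omega
    rw [sum_congr rfl h1, sum_add_distrib, ← sum_filter, sum_const, sum_const]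
    simp [mul_comm]
  obtain ⟨x, hx, hx1, hx2⟩ := wsuper hT hne h1w hBw
  -- the out-degree of `x` in `F`
  have hΓF : Γ.filter (fun v => v ∈ F) = F' := by
    ext v
    rw [mem_filter, hF', mem_filter]
    tauto
  have hdeg : (F.card : ℝ) / 4 ≤ (((nO R Γ x).filter (fun v => v ∈ F)).card : ℝ) := by
    rw [hwS Γ, hwS (nO R Γ x), hΓF] at hx2
    have h1 : (nO R Γ x).card ≤ Γ.card := card_le_card nO_sub
    have h2 : Γ.card ≤ X.card := card_le_card (hΓG.trans hGX)
    have h3 : M * F'.card ≤ X.card + 2 * (M * ((nO R Γ x).filter (fun v => v ∈ F)).card) + (M + 1) := by omega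
    obtain ⟨f, hf⟩ : ∃ f : ℝ, f = (((nO R Γ x).filter (fun v => v ∈ F)).card : ℝ) := ⟨_, rfl⟩
    have h4 : (M : ℝ) * F'.card ≤ X.card + 2 * (M * f) + (M + 1) := by
      rw [hf]
      exact_mod_cast h3
    rw [← hf]
    have hMpos : (0 : ℝ) < M := by
      rcases Nat.eq_zero_or_pos M with h5 | h5
      · rw [h5] at hM
        norm_num at hM
      · exact_mod_cast h5
    have hφ0 : 0 < φ := by linarith
    have hXn : (X.card : ℝ) ≤ M * (F.card / 4) := by
      have h5 : 4 * (X.card : ℝ) ≤ φ * M * X.card := mul_le_mul_of_nonneg_right hM (Nat.cast_nonneg _)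
      have h6 : (M : ℝ) * (φ * X.card) ≤ M * F.card := mul_le_mul_of_nonneg_left hF hMpos.le
      linarith
    have h5 : (M : ℝ) * (F.card - 2 * (κ₀ * X.card)) ≤ M * F'.card :=
      mul_le_mul_of_nonneg_left (by linarith) hMpos.le
    have h6 : (M : ℝ) * (F.card / 4) ≤ M * f := by
      have h7 : (M : ℝ) * (κ₀ * X.card) ≤ M * (F.card / 32) := by
        apply mul_le_mul_of_nonneg_left _ hMpos.le
        linarith
      have h8 : (M : ℝ) * 64 ≤ M * (F.card / 4) := by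
        apply mul_le_mul_of_nonneg_left _ hMpos.le
        linarith
      have h9 : (1 : ℝ) ≤ M := by
        have : 0 < M := by exact_mod_cast hMpos
        exact_mod_cast this
      linarith
    exact le_of_mul_le_mul_left h6 hMpos
  have hlin : 4 * (κ₀ * X.card) ≤ ((nO R Γ x).card : ℝ) := by
    have h1 : (((nO R Γ x).filter (fun v => v ∈ F)).card : ℝ) ≤ (nO R Γ x).card := by
      exact_mod_cast card_filter_le _ _
    linarith
  have hcnt : ∀ j : ℕ, (j : ℝ) ≤ κ₀ * X.card →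
      ((nI R Γ x).filter (fun u => (nI R (nO R Γ x) u).card ≤ j)).card ≤ 3 * (M + 1) * j := by
    intro j _
    have hub : ∀ S : Finset V, wc w S ≤ (M + 1) * S.card := by
      intro S
      calc wc w S ≤ ∑ _v ∈ S, (M + 1) := sum_le_sum (fun v _ => hBw v)
        _ = (M + 1) * S.card := by rw [sum_const, smul_eq_mul, mul_comm]
    have h4 : (nI R Γ x).filter (fun u => (nI R (nO R Γ x) u).card ≤ j) ⊆
        (nI R Γ x).filter (fun u => wc w (nO R (nI R Γ x) u) + 1 ≤ (M + 1) * j) := by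
      intro u hu
      rw [mem_filter, mem_nI] at hu
      rw [mem_filter, mem_nI]
      refine ⟨hu.1, (hx1 u hu.1.1 hu.1.2).trans ((hub _).trans (Nat.mul_le_mul_left _ hu.2))⟩
    refine (card_le_card h4).trans ?_
    rcases j with _ | j
    · simp
    · have h5 := wcard_low hT (nI R Γ x) hBw ((M + 1) * (j + 1) - 1)
      have h6 : (nI R Γ x).filter (fun u => wc w (nO R (nI R Γ x) u) + 1 ≤ (M + 1) * (j + 1)) ⊆
          (nI R Γ x).filter (fun v => wc w (nO R (nI R Γ x) v) ≤ (M + 1) * (j + 1) - 1) := by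
        intro u hu
        rw [mem_filter] at hu ⊢
        exact ⟨hu.1, by omega⟩
      have h7 := (card_le_card h6).trans ((hcw _).trans h5)
      have h8 : M + 1 ≤ (M + 1) * (j + 1) := Nat.le_mul_of_pos_right _ (by omega)
      have h9 : 3 * (M + 1) * (j + 1) = 3 * ((M + 1) * (j + 1)) := by ring
      omega
  set U₀ := G₀.filter (fun u => R u x ∧ ∀ w ∈ G, R x w → w ∉ Bad → ¬ R w u) with hU₀
  set Cs := (G₀ ∪ (G ∩ Bd)).filter (fun u => ∃ w ∈ G, w ∉ Bad ∧ R x w ∧ R w u) with hCs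
  set Ex := (G ∩ Bd) with hEx
  have hExc : Ex.card ≤ e := (card_le_card inter_subset_right).trans hBd
  have hCsc : Cs.card ≤ 2 * q + e := by
    have h1 : (G ∩ Bd).card ≤ e := (card_le_card inter_subset_right).trans hBd
    exact (card_le_card (filter_subset _ _)).trans ((card_union_le _ _).trans (by omega))
  have hD : ∀ u ∈ Cs, ∃ w, w ∈ G ∧ w ∉ Bad ∧ R x w ∧ R w u := by
    intro u hu
    rw [hCs, mem_filter] at hu
    obtain ⟨w, h1, h2, h3, h4⟩ := hu.2
    exact ⟨w, h1, h2, h3, h4⟩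
  have hinh : Nonempty V := ⟨x⟩
  choose! Dc hDc using hD
  have hU₀x : U₀ ⊆ nI R G x := by
    intro u hu
    rw [hU₀, mem_filter] at hu
    exact mem_nI.2 ⟨hG₀G hu.1, hu.2.1⟩
  have hU₀q : U₀.card ≤ 2 * q := (card_le_card (filter_subset _ _)).trans hG₀c
  have hcov : ∀ u ∈ G, R u x → u ∈ U₀ ∨ u ∈ Cs ∨ u ∈ Ex ∨ u ∈ Γ := by
    intro u hu hux
    by_cases h1 : u ∈ G₀
    · by_cases h2 : ∃ w ∈ G, w ∉ Bad ∧ R x w ∧ R w u
      · right; left
        rw [hCs, mem_filter]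
        exact ⟨mem_union_left _ h1, h2⟩
      · left
        push Not at h2
        rw [hU₀, mem_filter]
        exact ⟨h1, hux, fun w hw hxw hwB => h2 w hw hwB hxw⟩
    · by_cases h3 : u ∈ Bd
      · right; right; left
        exact mem_inter.2 ⟨hu, h3⟩
      · right; right; right
        rw [hΓ, mem_sdiff, mem_sdiff]
        exact ⟨⟨hu, h1⟩, h3⟩
  have hxB : x ∉ Bd := by
    rw [hΓ, mem_sdiff] at hx
    exact hx.2
  have hfin : ∀ {ys : List V} {y : V} {P₁ P₂ U₁ Rsv Gc Ex' : Finset V},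
      GCW R X Bd Bad p q N e (3 * (M + 1)) κ₀ η G x ys y P₁ P₂ U₁ Rsv Gc Ex' →
      (F.card : ℝ) / 4 ≤ ((P₂.filter (fun w => w ∈ F ∧ R y w)).card : ℝ) := by
    intro ys y P₁ P₂ U₁ Rsv Gc Ex' h
    refine hdeg.trans ?_
    apply Nat.cast_le.2
    apply card_le_card
    intro v hv
    rw [mem_filter, mem_nO] at hv
    rw [mem_filter]
    obtain ⟨h1, h2⟩ := h.see v (hΓG hv.1.1) (hΓB v hv.1.1) hv.1.2
    exact ⟨h1, hv.2, h2⟩
  rcases Nat.lt_or_ge (p + N - 1) U₀.card with h | h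
  · obtain ⟨ys, y, P₁, P₂, U₁, Rsv, Gc, Ex', hh⟩ := gcutW_two hT h0 hη hη1 hN hpN hq4 hBd hGX (by
        have h1 : (F.card : ℝ) ≤ G.card := by exact_mod_cast card_le_card hFG
        have h2 : 0 ≤ κ₀ * (X.card : ℝ) := by linarith
        linarith) hGd hGf hΓG hΓB hx hU₀x
      (by omega) hU₀q (fun z hz w hw hxw hwB => by
        rw [hU₀, mem_filter] at hz
        exact hz.2.2 w hw hxw hwB) hExc hCsc hDc hlin hcov hcnt
    exact ⟨x, ys, y, P₁, P₂, U₁, Rsv, Gc, Ex', hh, hfin hh⟩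
  · obtain ⟨ys, y, P₁, P₂, U₁, Rsv, Gc, Ex', hh⟩ := gcutW_one hT h0 hη hη1 hN hpN hpq hBd hGX (by
        have h1 : (F.card : ℝ) ≤ G.card := by exact_mod_cast card_le_card hFG
        have h2 : 0 ≤ κ₀ * (X.card : ℝ) := by linarith
        linarith) hGd hGf hΓG hΓB hx hxB
      (hΓq x hx) hU₀x h hExc hCsc hDc hlin hcov hcnt hn8
    exact ⟨x, ys, y, P₁, P₂, U₁, Rsv, Gc, Ex', hh, hfin hh⟩

end AEG
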