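import Pool.Agent.AEG.GCutD

/-!
# The group cut with the reserve outside of the small ambient set

The statements of `AEG.GCut` and `AEG.GCutD` with the additional conclusion that the reserve `Rsv` is disjoint from the
small ambient set (`U₁`, for the dual cut `U₂`).
-/

set_option autoImplicit false

namespace AEG

open Finset AE15 SPD AECut
open scoped Classical

variable {V : Type*} {R : V → V → Prop}

/-- the first case: few vertices have to be above the super vertex `x` -/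
theorem gcut_one' (hT : AE32.Tour R) {X Bd Bad : Finset V} {p q N e : ℕ} {κ₀ η : ℝ} (h0 : 0 < κ₀) (hη : 20 * κ₀ ≤ η)
    (hη1 : η ≤ 1 / 8) (hN : 1 ≤ N) (hpN : 8 + 4 * (N * (e + 1) : ℕ) ≤ κ₀ * p) (hpq : p + N ≤ q) (hBd : Bd.card ≤ e)
    {G Γ U₀ : Finset V} {x : V} (hGX : G ⊆ X) (hGc : 15 * (κ₀ * X.card) ≤ G.card)
    (hGd : ∀ g ∈ G, Good R (κ₀ ^ 2 / 4) η X g) (hGf : ∀ u ∈ X, u ∉ G → ((nO R G u).card : ℝ) < 2 * κ₀ * X.card)
    (hΓG : Γ ⊆ G) (hΓB : ∀ g ∈ Γ, g ∉ Bad) (hx : x ∈ Γ) (hxB : x ∉ Bd) (hxq : q ≤ (nI R G x).card)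
    (hU₀ : U₀ ⊆ nI R G x) (hU₀c : U₀.card ≤ p + N - 1)
    {Dc : V → V} {Ex Cs : Finset V} (hEx : Ex.card ≤ e) (hCs : Cs.card ≤ 2 * q + e)
    (hDc : ∀ u ∈ Cs, Dc u ∈ G ∧ Dc u ∉ Bad ∧ R x (Dc u) ∧ R (Dc u) u)
    (hlin : 4 * (κ₀ * X.card) ≤ ((nO R Γ x).card : ℝ))
    (hcov : ∀ u ∈ G, R u x → u ∈ U₀ ∨ u ∈ Cs ∨ u ∈ Ex ∨ u ∈ Γ)
    (hΓc : ∀ j : ℕ, (j : ℝ) ≤ κ₀ * X.card →
      ((nI R Γ x).filter (fun u => (nI R (nO R Γ x) u).card ≤ j)).card ≤ 2 * j)
    (hqX : 8 ≤ κ₀ * X.card) :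
    ∃ ys y P₁ P₂ U₁ Rsv Gc Ex, GC R X Bd Bad p q N e κ₀ η G ys y P₁ P₂ U₁ Rsv Gc Ex ∧ Disjoint Rsv U₁ := by
  have hη0 : 0 < η := by linarith
  have hpos : (0 : ℝ) ≤ (p : ℝ) := Nat.cast_nonneg _
  have hκp : κ₀ * p ≤ 1 / 160 * p := mul_le_mul_of_nonneg_right (by linarith) hpos
  have hNp : ((N * (e + 1) : ℕ) : ℝ) ≤ p := by
    have : (0 : ℝ) ≤ ((N * (e + 1) : ℕ) : ℝ) := Nat.cast_nonneg _
    linarith
  have hNe : N ≤ N * (e + 1) := Nat.le_mul_of_pos_right _ (by omega)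
  have hNp' : N ≤ p := by
    have : N * (e + 1) ≤ p := by exact_mod_cast hNp
    omega
  -- the set of the first part and the first hosts
  obtain ⟨P, hPU, hPx, hPc⟩ := exists_subsuperset_card_eq hU₀ hU₀c (by omega : p + N - 1 ≤ (nI R G x).card)
  have hPG : P ⊆ G := hPx.trans nI_sub
  have hPR : ∀ u ∈ P, R u x := fun u hu => (mem_nI.1 (hPx hu)).2
  have hxP : x ∉ P := fun h => hT.irr x (hPR x h)
  have hPcr : (P.card : ℝ) ≤ 2 * p := by
    have : P.card ≤ 2 * p := by omega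
    exact_mod_cast this
  have hN1 : (((N - 1) * (e + 1) : ℕ) : ℝ) ≤ ((N * (e + 1) : ℕ) : ℝ) := by
    exact_mod_cast Nat.mul_le_mul_right _ (Nat.sub_le N 1)
  obtain ⟨P₁, Z, zs, h1, h2, h3, h4, h5, h6, h7, h8, h9, h10, h11, -, -⟩ := medcut hT (U := P) (Bd := Bd) (p := p)
    (N := N - 1) (e := e) h0 hη hη1 (by
      have := mul_le_mul hη1 hPcr (Nat.cast_nonneg _) (by norm_num : (0 : ℝ) ≤ 1 / 8)
      linarith) (by linarith) (by omega) hBd
  have hZ0 : Z = ∅ := by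
    rw [← card_eq_zero]
    omega
  subst hZ0
  have hU : P₁ ∪ zs.toFinset = P := by
    apply eq_of_subset_of_card_le
    · apply union_subset h4
      intro y hy
      exact (h7 y (List.mem_toFinset.1 hy)).1
    · rw [card_union_of_disjoint, List.toFinset_card_of_nodup h2, h1]
      · rw [card_empty] at h9
        omega
      · rw [disjoint_left]
        intro y hy hy'
        exact (h7 y (List.mem_toFinset.1 hy')).2.1 hy
  have hxP₁ : x ∉ P₁ := fun h => hxP (h4 h)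
  have hxz : x ∉ zs := fun h => hxP (h7 x h).1
  have hxG : x ∈ G := hΓG hx
  set U₁ := insert x P with hU₁
  have hU₁c : U₁.card = p + N := by
    rw [hU₁, card_insert_of_notMem hxP, hPc]
    omega
  have hPU₁ : P ⊆ U₁ := subset_insert _ _
  have hU₁r : (U₁.card : ℝ) = P.card + 1 := by
    rw [hU₁, card_insert_of_notMem hxP]
    push_cast
    rfl
  have hP1r : (1 : ℝ) ≤ P.card := by
    have : 1 ≤ P.card := by
      have : 8 ≤ p := by
        have : (8 : ℝ) ≤ p := by linarith [(Nat.cast_nonneg _ : (0 : ℝ) ≤ ((N * (e + 1) : ℕ) : ℝ))]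
        exact_mod_cast this
      omega
    exact_mod_cast this
  have hkk : κ₀ ^ 2 / 8 * (U₁.card : ℝ) ≤ κ₀ ^ 2 / 4 * P.card := by
    have h : (U₁.card : ℝ) ≤ 2 * P.card := by linarith
    have := mul_le_mul_of_nonneg_left h (by positivity : (0 : ℝ) ≤ κ₀ ^ 2 / 8)
    linarith
  have htt : 2 * η * (P.card : ℝ) ≤ 2 * η * U₁.card := by
    apply mul_le_mul_of_nonneg_left _ (by linarith)
    linarith
  set ys := zs ++ [x] with hys
  have hmem : ∀ z, z ∈ ys ↔ z ∈ zs ∨ z = x := by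
    intro z
    rw [hys, List.mem_append, List.mem_singleton]
  set P₂ := X \ (P₁ ∪ ys.toFinset) with hP₂
  have hP₂m : ∀ u, u ∈ P₂ ↔ u ∈ X ∧ u ∉ P₁ ∧ u ∉ ys := by
    intro u
    rw [hP₂, mem_sdiff, mem_union, not_or, List.mem_toFinset]
  have hnP : ∀ u ∈ X, u ∉ P → u ≠ x → u ∈ P₂ := by
    intro u hu hu' hux
    rw [hP₂m]
    refine ⟨hu, fun h => hu' (h4 h), fun h => ?_⟩
    rcases (hmem u).1 h with h | h
    · exact hu' (h7 u h).1
    · exact hux h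
  have hP₂n : ∀ u ∈ P₂, u ∉ P := by
    intro u hu h
    rw [hP₂m] at hu
    rw [← hU, mem_union, List.mem_toFinset] at h
    rcases h with h | h
    · exact hu.2.1 h
    · exact hu.2.2 ((hmem u).2 (Or.inl h))
  have hout : ∀ w ∈ G, R x w → w ∈ P₂ := by
    intro w hw hxw
    apply hnP w (hGX hw)
    · intro h
      exact hT.asym _ _ hxw (hPR w h)
    · rintro rfl
      exact hT.irr _ hxw
  have hside : MSide (rv R) U₁ P₁ (κ₀ ^ 2 / 8 * U₁.card) (2 * η * U₁.card) (η / 8) (η / 8) 0 x := by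
    refine ⟨⟨nO (rv R) U₁ x, Rch.base, ?_⟩, ?_, ?_⟩
    · have : P₁ \ nO (rv R) U₁ x = ∅ := by
        rw [sdiff_eq_empty_iff_subset]
        intro u hu
        exact mem_nO.2 ⟨hPU₁ (h4 hu), hPR u (h4 hu)⟩
      rw [this]
      simp only [card_empty, Nat.cast_zero]
      positivity
    · have hUc : (insert x P₁).card = p + 1 := by rw [card_insert_of_notMem hxP₁, h8]
      have hsub : insert x P₁ ⊆ U₁ := insert_subset_insert _ h4
      have hUr : ((insert x P₁).card : ℝ) = p + 1 := by exact_mod_cast hUc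
      have hNpr : (N : ℝ) ≤ p := by exact_mod_cast hNp'
      have hU₁p : (U₁.card : ℝ) = p + N := by exact_mod_cast hU₁c
      have hc0 : (0 : ℝ) ≤ ((N * (e + 1) : ℕ) : ℝ) := Nat.cast_nonneg _
      have hκ1 : κ₀ * p ≤ κ₀ * (insert x P₁).card := by
        rw [hUr]
        apply mul_le_mul_of_nonneg_left _ h0.le
        linarith
      obtain ⟨G₁, hG₁, hG₁c, hG₁g, -⟩ := structure_lemma (rv_tour hT) (insert x P₁) (η := η) (κ₀ := κ₀) h0
        (by linarith) (by linarith) (by linarith)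
      have hr : ∀ w ∈ G₁, Rea (rv R) U₁ P₁ (κ₀ ^ 2 / 8 * U₁.card) (2 * η * U₁.card) w := by
        intro w hw
        have h := Good.rea (P := P₁) (t := η * (insert x P₁).card) (hG₁g w hw) (subset_insert _ _) le_rfl
        refine rea_mono (rea_univ h hsub) ?_ ?_
        · rw [hUr, hU₁p]
          have := mul_nonneg (by positivity : (0 : ℝ) ≤ κ₀ ^ 2 / 8) (by linarith : (0 : ℝ) ≤ p + 2 - N)
          linarith
        · rw [hUr, hU₁p]
          have h1N : (1 : ℝ) ≤ N := by exact_mod_cast hN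
          have := mul_nonneg hη0.le (by linarith : (0 : ℝ) ≤ p + 2 * N - 1)
          linarith
      have h12 : G₁ ⊆ insert x (P₁.filter (fun w => rv R x w ∧ Rea (rv R) U₁ P₁ (κ₀ ^ 2 / 8 * U₁.card)
          (2 * η * U₁.card) w)) := by
        intro w hw
        rcases mem_insert.1 (hG₁ hw) with rfl | h
        · exact mem_insert_self _ _
        · apply mem_insert_of_mem
          rw [mem_filter]
          exact ⟨h, hPR w (h4 h), hr w hw⟩
      have h13 : (G₁.card : ℝ) ≤ (P₁.filter (fun w => rv R x w ∧ Rea (rv R) U₁ P₁ (κ₀ ^ 2 / 8 * U₁.card)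
          (2 * η * U₁.card) w)).card + 1 := by
        exact_mod_cast (card_le_card h12).trans (card_insert_le _ _)
      have h14 : (η - 5 * κ₀) * (p + 1) ≤ G₁.card := by rw [← hUr]; exact hG₁c
      have h15 : 3 / 4 * η * p ≤ (η - 5 * κ₀) * p := by
        apply mul_le_mul_of_nonneg_right _ hpos
        linarith
      have h16 : 20 * (κ₀ * p) ≤ η * p := by
        have := mul_le_mul_of_nonneg_right hη hpos
        linarith
      rw [h8]
      have h17 : 0 ≤ η - 5 * κ₀ := by linarith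
      linarith
    · intro j _
      rw [filter_false_of_mem]
      · simp
      · rintro u hu ⟨h, -⟩
        exact hT.asym _ _ h (hPR u (h4 hu))
  have hNe1 : 4 * ((N - 1) * (e + 1)) ≤ 4 * (N * (e + 1)) :=
    Nat.mul_le_mul_left _ (Nat.mul_le_mul_right _ (Nat.sub_le N 1))
  refine ⟨ys, x, P₁, P₂, U₁, insert x (Cs.image Dc) \ {x}, (nI R Γ x) ∩ P₂, Ex, ⟨hGX, hGc, hGd, hGf, ?_, ?_, ?_, ?_, ?_,
    h4.trans hPU₁, insert_subset hxG hPG, by omega, h8, ?_, hP₂m, ?_, ?_, ?_, ?_, ?_, ?_, ?_, hEx⟩, ?_⟩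
  · rw [hys, List.length_append, List.length_singleton, h1]
    omega
  · rw [hys, List.nodup_append]
    refine ⟨h2, List.nodup_singleton _, ?_⟩
    intro a ha b hb
    rw [List.mem_singleton] at hb
    rintro rfl
    exact hxz (hb ▸ ha)
  · rw [hys, List.isChain_append]
    refine ⟨h3, List.isChain_singleton _, ?_⟩
    intro a ha b hb
    rw [List.head?_cons, Option.mem_some_iff] at hb
    rw [← hb]
    exact hPR a (h7 a (List.mem_of_mem_getLast? ha)).1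
  · rw [hys, List.getLast?_append]
    simp
  · intro z hz
    rcases (hmem z).1 hz with h | rfl
    · obtain ⟨g1, g2, -, g4⟩ := h7 z h
      exact ⟨hPG g1, hPU₁ g1, g2, fun h' => hP₂n z h' g1, g4⟩
    · exact ⟨hxG, mem_insert_self _ _, hxP₁, fun h' => ((hP₂m _).1 h').2.2 hz, hxB⟩
  · rw [disjoint_left]
    intro u hu hu'
    exact ((hP₂m u).1 hu').2.1 hu
  · intro z hz
    rcases (hmem z).1 hz with h | rfl
    · exact (h10 z h).mono5 hPU₁ hkk htt le_rfl le_rfl hNe1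
    · exact hside.mono5 (Subset.refl _) le_rfl le_rfl le_rfl le_rfl (Nat.zero_le _)
  · intro z hz
    rcases zs with _ | ⟨a, l⟩
    · rw [hys, List.nil_append, List.head?_cons, Option.mem_some_iff] at hz
      rw [← hz]
      exact hside.mono5 (Subset.refl _) le_rfl le_rfl le_rfl le_rfl (Nat.zero_le _)
    · rw [hys, List.cons_append, List.head?_cons, Option.mem_some_iff] at hz
      refine (h11 z ?_).mono5 hPU₁ hkk htt le_rfl le_rfl (Nat.mul_le_mul_right _ (Nat.sub_le N 1))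
      rw [List.head?_cons, Option.mem_some_iff]
      exact hz
  · intro w hw
    rw [mem_sdiff, mem_singleton, mem_insert] at hw
    rcases hw.1 with h | h
    · exact absurd h hw.2
    · rw [mem_image] at h
      obtain ⟨u, hu, rfl⟩ := h
      obtain ⟨g1, g2, g3, -⟩ := hDc u hu
      exact ⟨hout _ g1 g3, g1, g2⟩
  · have h12 := card_insert_le x (Cs.image Dc)
    have h13 := card_image_le (s := Cs) (f := Dc)
    have h14 := card_le_card (sdiff_subset : insert x (Cs.image Dc) \ {x} ⊆ insert x (Cs.image Dc))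
    omega
  · refine le_trans (by linarith [(by positivity : 0 ≤ κ₀ * (X.card : ℝ))] : κ₀ * X.card ≤ ((nO R Γ x).card : ℝ)) ?_
    apply Nat.cast_le.2
    apply card_le_card
    intro w hw
    rw [mem_nO] at hw
    rw [mem_filter]
    exact ⟨hout w (hΓG hw.1) hw.2, hw.2, hΓG hw.1, hΓB w hw.1⟩
  · intro u hu hux
    by_cases huG : u ∈ G
    · rcases hcov u huG hux with h | h | h | h
      · exact absurd (hPU h) (hP₂n u hu)
      · right; left
        obtain ⟨g1, g2, g3, g4⟩ := hDc u h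
        refine ⟨Dc u, ?_, g3, g4⟩
        rw [mem_sdiff, mem_singleton, mem_insert]
        refine ⟨Or.inr (mem_image_of_mem _ h), ?_⟩
        intro h'
        rw [h'] at g3
        exact hT.irr _ g3
      · exact Or.inl h
      · right; right; left
        exact mem_inter.2 ⟨mem_nI.2 ⟨h, hux⟩, hu⟩
    · right; right; right
      have h12 := hGf u ((hP₂m u).1 hu).1 huG
      have h13 : nO R Γ x \ nO R G u ⊆ P₂.filter (fun w => R x w ∧ R w u ∧ w ∈ G ∧ w ∉ Bad) := by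
        intro w hw
        rw [mem_sdiff, mem_nO] at hw
        have hwG := hΓG hw.1.1
        rw [mem_filter]
        refine ⟨hout w hwG hw.1.2, hw.1.2, ?_, hwG, hΓB w hw.1.1⟩
        have hne : w ≠ u := fun e => huG (e ▸ hwG)
        rcases hT.tot w u hne with h | h
        · exact h
        · exact absurd (mem_nO.2 ⟨hwG, h⟩) hw.2
      have h14 := le_card_sdiff (nO R G u) (nO R Γ x)
      have h15 : ((nO R Γ x).card : ℝ) ≤ (nO R Γ x \ nO R G u).card + (nO R G u).card := by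
        exact_mod_cast (by omega : (nO R Γ x).card ≤ (nO R Γ x \ nO R G u).card + (nO R G u).card)
      have h16 : ((nO R Γ x \ nO R G u).card : ℝ) ≤ (P₂.filter (fun w => R x w ∧ R w u ∧ w ∈ G ∧ w ∉ Bad)).card := by
        exact_mod_cast card_le_card h13
      linarith
  · intro j hj
    refine (le_trans (card_le_card ?_) (hΓc j hj)).trans (by omega)
    intro u hu
    rw [mem_filter, mem_inter] at hu
    rw [mem_filter]
    refine ⟨hu.1.1, le_trans (card_le_card ?_) hu.2⟩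
    intro w hw
    rw [mem_nI, mem_nO] at hw
    rw [mem_filter]
    exact ⟨hout w (hΓG hw.1.1) hw.1.2, hw.1.2, hw.2, hΓG hw.1.1, hΓB w hw.1.1⟩
  · rw [disjoint_left]
    intro w hw hwU
    rw [mem_sdiff, mem_singleton, mem_insert] at hw
    rw [hU₁, mem_insert] at hwU
    rcases hwU with h | h
    · exact hw.2 h
    · rcases hw.1 with h' | h'
      · exact hw.2 h'
      · obtain ⟨u, hu, rfl⟩ := mem_image.1 h'
        exact hT.asym _ _ (hDc u hu).2.2.1 (hPR _ h)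

/-- the second case: many vertices have to be above the super vertex `x`; the cut is made among them -/
theorem gcut_two' (hT : AE32.Tour R) {X Bd Bad : Finset V} {p q N e : ℕ} {κ₀ η : ℝ} (h0 : 0 < κ₀) (hη : 20 * κ₀ ≤ η)
    (hη1 : η ≤ 1 / 8) (hN : 1 ≤ N) (hpN : 8 + 4 * (N * (e + 1) : ℕ) ≤ κ₀ * p) (hq4 : q ≤ 4 * p) (hBd : Bd.card ≤ e)
    {G Γ U₀ : Finset V} {x : V} (hGX : G ⊆ X) (hGc : 15 * (κ₀ * X.card) ≤ G.card)
    (hGd : ∀ g ∈ G, Good R (κ₀ ^ 2 / 4) η X g) (hGf : ∀ u ∈ X, u ∉ G → ((nO R G u).card : ℝ) < 2 * κ₀ * X.card)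
    (hΓG : Γ ⊆ G) (hΓB : ∀ g ∈ Γ, g ∉ Bad) (hx : x ∈ Γ)
    (hU₀ : U₀ ⊆ nI R G x) (hU₀c : p + N ≤ U₀.card) (hU₀q : U₀.card ≤ 2 * q)
    (hU₀x : ∀ z ∈ U₀, ∀ w ∈ G, R x w → w ∉ Bad → ¬ R w z)
    {Dc : V → V} {Ex Cs : Finset V} (hEx : Ex.card ≤ e) (hCs : Cs.card ≤ 2 * q + e)
    (hDc : ∀ u ∈ Cs, Dc u ∈ G ∧ Dc u ∉ Bad ∧ R x (Dc u) ∧ R (Dc u) u)
    (hlin : 4 * (κ₀ * X.card) ≤ ((nO R Γ x).card : ℝ))
    (hcov : ∀ u ∈ G, R u x → u ∈ U₀ ∨ u ∈ Cs ∨ u ∈ Ex ∨ u ∈ Γ)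
    (hΓc : ∀ j : ℕ, (j : ℝ) ≤ κ₀ * X.card →
      ((nI R Γ x).filter (fun u => (nI R (nO R Γ x) u).card ≤ j)).card ≤ 2 * j) :
    ∃ ys y P₁ P₂ U₁ Rsv Gc Ex, GC R X Bd Bad p q N e κ₀ η G ys y P₁ P₂ U₁ Rsv Gc Ex ∧ Disjoint Rsv U₁ := by
  have hη0 : 0 < η := by linarith
  have hU8 : (U₀.card : ℝ) ≤ 8 * p := by exact_mod_cast (by omega : U₀.card ≤ 8 * p)
  have hηU : η * (U₀.card : ℝ) ≤ p := by
    have := mul_le_mul hη1 hU8 (Nat.cast_nonneg _) (by norm_num : (0 : ℝ) ≤ 1 / 8)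
    linarith
  obtain ⟨P₁, Z, ys, h1, h2, h3, h4, h5, h6, h7, h8, h9, h10, h11, -, h13⟩ := medcut hT (U := U₀) (Bd := Bd) (p := p)
    (N := N) (e := e) h0 hη hη1 hηU hpN hU₀c hBd
  have hU₀G : U₀ ⊆ G := hU₀.trans nI_sub
  have hU₀R : ∀ u ∈ U₀, R u x := fun u hu => (mem_nI.1 (hU₀ hu)).2
  have hxU : x ∉ U₀ := fun h => hT.irr x (hU₀R x h)
  have hxG : x ∈ G := hΓG hx
  have hyne : ys ≠ [] := by
    rintro rfl
    rw [List.length_nil] at h1
    omega
  obtain ⟨y, hy⟩ : ∃ y, ys.getLast? = some y := ⟨ys.getLast hyne, List.getLast?_eq_some_getLast hyne⟩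
  have hyy : y ∈ ys := List.mem_of_mem_getLast? hy
  have hyU : y ∈ U₀ := (h7 y hyy).1
  have hU : ∀ u ∈ U₀, u ∉ P₁ → u ∉ ys → u ∈ Z := by
    intro u hu hu1 hu2
    have h14 : (P₁ ∪ ys.toFinset) ∪ Z = U₀ := by
      apply eq_of_subset_of_card_le
      · apply union_subset (union_subset h4 _) h5
        intro z hz
        exact (h7 z (List.mem_toFinset.1 hz)).1
      · rw [card_union_of_disjoint, card_union_of_disjoint, List.toFinset_card_of_nodup h2, h1]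
        · exact h9.symm.le
        · rw [disjoint_left]
          intro z hz hz'
          exact (h7 z (List.mem_toFinset.1 hz')).2.1 hz
        · rw [disjoint_union_left]
          refine ⟨h6, ?_⟩
          rw [disjoint_left]
          intro z hz hz'
          exact (h7 z (List.mem_toFinset.1 hz)).2.2.1 hz'
    rw [← h14, mem_union, mem_union, List.mem_toFinset] at hu
    rcases hu with (h | h) | h
    · exact absurd h hu1
    · exact absurd h hu2
    · exact h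
  set P₂ := X \ (P₁ ∪ ys.toFinset) with hP₂
  have hP₂m : ∀ u, u ∈ P₂ ↔ u ∈ X ∧ u ∉ P₁ ∧ u ∉ ys := by
    intro u
    rw [hP₂, mem_sdiff, mem_union, not_or, List.mem_toFinset]
  have hnP : ∀ u ∈ X, u ∉ U₀ → u ∈ P₂ := by
    intro u hu hu'
    rw [hP₂m]
    exact ⟨hu, fun h => hu' (h4 h), fun h => hu' (h7 u h).1⟩
  have hZP : ∀ u ∈ Z, u ∈ P₂ := by
    intro u hu
    rw [hP₂m]
    exact ⟨hGX (hU₀G (h5 hu)), fun h => (disjoint_left.1 h6) h hu, fun h => (h7 u h).2.2.1 hu⟩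
  have hout : ∀ w ∈ G, R x w → w ∈ P₂ := by
    intro w hw hxw
    apply hnP w (hGX hw)
    intro h
    exact hT.asym _ _ hxw (hU₀R w h)
  have hxP₂ : x ∈ P₂ := hnP x (hGX hxG) hxU
  have hyR : ∀ w ∈ G, R x w → w ∉ Bad → R y w := by
    intro w hw hxw hwB
    have hne : y ≠ w := by
      rintro rfl
      exact hT.asym _ _ hxw (hU₀R y hyU)
    rcases hT.tot y w hne with h | h
    · exact h
    · exact absurd h (hU₀x y hyU w hw hxw hwB)
  have hkk : κ₀ ^ 2 / 8 * (U₀.card : ℝ) ≤ κ₀ ^ 2 / 4 * U₀.card := by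
    have : (0 : ℝ) ≤ κ₀ ^ 2 * U₀.card := by positivity
    linarith
  refine ⟨ys, y, P₁, P₂, U₀, insert x (Cs.image Dc), (nI R Γ x) ∩ P₂ ∪ Z.filter (fun u => R u y), Ex, ⟨hGX, hGc, hGd, hGf,
    h1, h2, h3, hy, ?_, h4, hU₀G, hU₀q, h8, ?_, hP₂m, ?_, ?_, ?_, ?_, ?_, ?_, ?_, hEx⟩, ?_⟩
  · intro z hz
    obtain ⟨g1, g2, -, g4⟩ := h7 z hz
    exact ⟨hU₀G g1, g1, g2, fun h' => ((hP₂m _).1 h').2.2 hz, g4⟩
  · rw [disjoint_left]
    intro u hu hu'
    exact ((hP₂m u).1 hu').2.1 hu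
  · intro z hz
    exact (h10 z hz).mono5 (Subset.refl _) hkk le_rfl le_rfl le_rfl le_rfl
  · intro z hz
    exact (h11 z hz).mono5 (Subset.refl _) hkk le_rfl le_rfl le_rfl le_rfl
  · intro w hw
    rw [mem_insert] at hw
    rcases hw with rfl | h
    · exact ⟨hxP₂, hxG, hΓB _ hx⟩
    · rw [mem_image] at h
      obtain ⟨u, hu, rfl⟩ := h
      obtain ⟨g1, g2, g3, -⟩ := hDc u hu
      exact ⟨hout _ g1 g3, g1, g2⟩
  · have h14 := card_insert_le x (Cs.image Dc)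
    have h15 := card_image_le (s := Cs) (f := Dc)
    omega
  · refine le_trans (by linarith [(by positivity : 0 ≤ κ₀ * (X.card : ℝ))] : κ₀ * X.card ≤ ((nO R Γ x).card : ℝ)) ?_
    apply Nat.cast_le.2
    apply card_le_card
    intro w hw
    rw [mem_nO] at hw
    rw [mem_filter]
    exact ⟨hout w (hΓG hw.1) hw.2, hyR w (hΓG hw.1) hw.2 (hΓB w hw.1), hΓG hw.1, hΓB w hw.1⟩
  · intro u hu huy
    by_cases huG : u ∈ G
    · have hux : u ≠ x := by
        rintro rfl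
        exact hT.asym _ _ huy (hU₀R y hyU)
      rcases hT.tot u x hux with h | h
      · rcases hcov u huG h with h' | h' | h' | h'
        · right; right; left
          have h16 := (hP₂m u).1 hu
          exact mem_union_right _ (mem_filter.2 ⟨hU u h' h16.2.1 h16.2.2, huy⟩)
        · right; left
          obtain ⟨g1, g2, g3, g4⟩ := hDc u h'
          exact ⟨Dc u, mem_insert_of_mem (mem_image_of_mem _ h'), hyR _ g1 g3 g2, g4⟩
        · exact Or.inl h'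
        · right; right; left
          exact mem_union_left _ (mem_inter.2 ⟨mem_nI.2 ⟨h', h⟩, hu⟩)
      · right; left
        exact ⟨x, mem_insert_self _ _, hU₀R y hyU, h⟩
    · right; right; right
      have h12 := hGf u ((hP₂m u).1 hu).1 huG
      have h13 : nO R Γ x \ nO R G u ⊆ P₂.filter (fun w => R y w ∧ R w u ∧ w ∈ G ∧ w ∉ Bad) := by
        intro w hw
        rw [mem_sdiff, mem_nO] at hw
        have hwG := hΓG hw.1.1
        rw [mem_filter]
        refine ⟨hout w hwG hw.1.2, hyR w hwG hw.1.2 (hΓB w hw.1.1), ?_, hwG, hΓB w hw.1.1⟩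
        have hne : w ≠ u := fun e => huG (e ▸ hwG)
        rcases hT.tot w u hne with h | h
        · exact h
        · exact absurd (mem_nO.2 ⟨hwG, h⟩) hw.2
      have h14 := le_card_sdiff (nO R G u) (nO R Γ x)
      have h15 : ((nO R Γ x).card : ℝ) ≤ (nO R Γ x \ nO R G u).card + (nO R G u).card := by
        exact_mod_cast (by omega : (nO R Γ x).card ≤ (nO R Γ x \ nO R G u).card + (nO R G u).card)
      have h16 : ((nO R Γ x \ nO R G u).card : ℝ) ≤ (P₂.filter (fun w => R y w ∧ R w u ∧ w ∈ G ∧ w ∉ Bad)).card := by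
        exact_mod_cast card_le_card h13
      linarith
  · intro j hj
    have h14 := hΓc j hj
    have h15 := h13 y hy (j + Bad.card)
    have h16 : ((nI R Γ x) ∩ P₂ ∪ Z.filter (fun u => R u y)).filter
        (fun u => (P₂.filter (fun w => R y w ∧ R w u ∧ w ∈ G ∧ w ∉ Bad)).card ≤ j) ⊆
        ((nI R Γ x).filter (fun u => (nI R (nO R Γ x) u).card ≤ j)) ∪
        (Z.filter (fun u => R u y ∧ (Z.filter (fun w => R y w ∧ R w u)).card ≤ j + Bad.card)) := by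
      intro u hu
      rw [mem_filter, mem_union, mem_inter, mem_filter] at hu
      rw [mem_union, mem_filter, mem_filter]
      rcases hu with ⟨h | h, h'⟩
      · left
        refine ⟨h.1, le_trans (card_le_card ?_) h'⟩
        intro w hw
        rw [mem_nI, mem_nO] at hw
        rw [mem_filter]
        exact ⟨hout w (hΓG hw.1.1) hw.1.2, hyR w (hΓG hw.1.1) hw.1.2 (hΓB w hw.1.1), hw.2, hΓG hw.1.1, hΓB w hw.1.1⟩
      · right
        refine ⟨h.1, h.2, ?_⟩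
        have h17 : Z.filter (fun w => R y w ∧ R w u) ⊆
            (P₂.filter (fun w => R y w ∧ R w u ∧ w ∈ G ∧ w ∉ Bad)) ∪ Bad := by
          intro w hw
          rw [mem_filter] at hw
          rw [mem_union, mem_filter]
          by_cases hwB : w ∈ Bad
          · exact Or.inr hwB
          · exact Or.inl ⟨hZP w hw.1, hw.2.1, hw.2.2, hU₀G (h5 hw.1), hwB⟩
        exact (card_le_card h17).trans ((card_union_le _ _).trans (by omega))
    refine (card_le_card h16).trans ((card_union_le _ _).trans ?_)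
    omega
  · rw [disjoint_left]
    intro w hw hwU
    rcases mem_insert.1 hw with h | h
    · exact hxU (h ▸ hwU)
    · obtain ⟨u, hu, rfl⟩ := mem_image.1 h
      exact hT.asym _ _ (hDc u hu).2.2.1 (hU₀R _ hwU)

/-- the group cut from a structure set -/
theorem gcut_of' (hT : AE32.Tour R) {X Bd Bad G : Finset V} {p q N e : ℕ} {κ₀ η : ℝ} (h0 : 0 < κ₀) (hη : 20 * κ₀ ≤ η)
    (hη1 : η ≤ 1 / 8) (hN : 1 ≤ N) (hpN : 8 + 4 * (N * (e + 1) : ℕ) ≤ κ₀ * p) (hpq : p + N ≤ q) (hq4 : q ≤ 4 * p)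
    (hqX : ((q + e : ℕ) : ℝ) ≤ κ₀ * X.card) (hBd : Bd.card ≤ e)
    (hBad : ∀ g ∈ Bad, (X.filter (fun w => R w g ∧ Good R (κ₀ ^ 2 / 4) η X w)).card < q)
    (hGX : G ⊆ X) (hGd : ∀ g ∈ G, Good R (κ₀ ^ 2 / 4) η X g)
    (hGf : ∀ u ∈ X, u ∉ G → ((nO R G u).card : ℝ) < 2 * κ₀ * X.card) (hGc : 15 * (κ₀ * X.card) ≤ G.card) :
    ∃ ys y P₁ P₂ U₁ Rsv Gc Ex, GC R X Bd Bad p q N e κ₀ η G ys y P₁ P₂ U₁ Rsv Gc Ex ∧ Disjoint Rsv U₁ := by
  have hη0 : 0 < η := by linarith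
  have hp8 : (8 : ℝ) ≤ κ₀ * p := by
    have : (0 : ℝ) ≤ ((N * (e + 1) : ℕ) : ℝ) := Nat.cast_nonneg _
    linarith
  have hpr : κ₀ * (p : ℝ) ≤ 1 * p := mul_le_mul_of_nonneg_right (by linarith) (Nat.cast_nonneg _)
  have hpq' : (p : ℝ) ≤ ((q + e : ℕ) : ℝ) := by exact_mod_cast (by omega : p ≤ q + e)
  have hn8 : 8 ≤ κ₀ * X.card := by linarith
  set G₀ := G.filter (fun g => (nI R G g).card < q) with hG₀
  have hG₀G : G₀ ⊆ G := filter_subset _ _
  have hG₀c : G₀.card ≤ 2 * q := card_lowin hT q G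
  set Γ := (G \ G₀) \ Bd with hΓ
  have hΓG : Γ ⊆ G := sdiff_subset.trans sdiff_subset
  have hΓc : G.card ≤ Γ.card + 2 * q + e := by
    have h1 := le_card_sdiff Bd (G \ G₀)
    have h2 := le_card_sdiff G₀ G
    rw [← hΓ] at h1
    omega
  have hΓr : 13 * (κ₀ * X.card) ≤ Γ.card := by
    have h1 : (G.card : ℝ) ≤ Γ.card + 2 * ((q + e : ℕ) : ℝ) := by
      exact_mod_cast (by omega : G.card ≤ Γ.card + 2 * (q + e))
    linarith
  have hne : Γ.Nonempty := by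
    rw [← card_pos]
    have : (0 : ℝ) < Γ.card := by linarith
    exact_mod_cast this
  have hΓq : ∀ g ∈ Γ, q ≤ (nI R G g).card := by
    intro g hg
    rw [hΓ, mem_sdiff, mem_sdiff, hG₀, mem_filter] at hg
    by_contra hc
    push Not at hc
    exact hg.1.2 ⟨hg.1.1, hc⟩
  have hΓB : ∀ g ∈ Γ, g ∉ Bad := by
    intro g hg hgB
    have h1 := hBad g hgB
    have h2 := hΓq g hg
    have h3 : nI R G g ⊆ X.filter (fun w => R w g ∧ Good R (κ₀ ^ 2 / 4) η X w) := by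
      intro w hw
      rw [mem_nI] at hw
      rw [mem_filter]
      exact ⟨hGX hw.1, hw.2, hGd w hw.1⟩
    have := card_le_card h3
    omega
  obtain ⟨x, hx, hx1, -, hx3⟩ := super_vertex hT (X := X) (G := Γ) hne (m := Γ.card)
    (fun u _ _ => card_le_card nO_sub)
  have hlin : 4 * (κ₀ * X.card) ≤ ((nO R Γ x).card : ℝ) := by
    have h1 : (Γ.card : ℝ) ≤ 2 * (nO R Γ x).card + 1 := by exact_mod_cast hx3
    linarith
  have hcnt : ∀ j : ℕ, (j : ℝ) ≤ κ₀ * X.card →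
      ((nI R Γ x).filter (fun u => (nI R (nO R Γ x) u).card ≤ j)).card ≤ 2 * j := by
    intro j _
    have h4 : (nI R Γ x).filter (fun u => (nI R (nO R Γ x) u).card ≤ j) ⊆
        (nI R Γ x).filter (fun u => (nO R (nI R Γ x) u).card + 1 ≤ j) := by
      intro u hu
      rw [mem_filter, mem_nI] at hu
      rw [mem_filter, mem_nI]
      exact ⟨hu.1, (hx1 u hu.1.1 hu.1.2).trans hu.2⟩
    refine (card_le_card h4).trans ?_
    rcases j with _ | j
    · simp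
    · have h5 := card_low hT (nI R Γ x) j
      simp only [add_le_add_iff_right]
      omega
  set U₀ := G₀.filter (fun u => R u x ∧ ∀ w ∈ G, R x w → w ∉ Bad → ¬ R w u) with hU₀
  set Cs := (G₀ ∪ (G ∩ Bd)).filter (fun u => ∃ w ∈ G, w ∉ Bad ∧ R x w ∧ R w u) with hCs
  set Ex := (G ∩ Bd) with hEx
  have hExc : Ex.card ≤ e := (card_le_card inter_subset_right).trans hBd
  have hCsc : Cs.card ≤ 2 * q + e := by
    have h1 : (G ∩ Bd).card ≤ e := (card_le_card inter_subset_right).trans hBd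
    exact (card_le_card (filter_subset _ _)).trans ((card_union_le _ _).trans (by omega))
  have hD : ∀ u ∈ Cs, ∃ w, w ∈ G ∧ w ∉ Bad ∧ R x w ∧ R w u := by
    intro u hu
    rw [hCs, mem_filter] at hu
    obtain ⟨w, h1, h2, h3, h4⟩ := hu.2
    exact ⟨w, h1, h2, h3, h4⟩
  have hinh : Nonempty V := ⟨x⟩
  choose! Dc hDc using hD
  have hU₀x : U₀ ⊆ nI R G x := by
    intro u hu
    rw [hU₀, mem_filter] at hu
    exact mem_nI.2 ⟨hG₀G hu.1, hu.2.1⟩
  have hU₀q : U₀.card ≤ 2 * q := (card_le_card (filter_subset _ _)).trans hG₀c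
  have hcov : ∀ u ∈ G, R u x → u ∈ U₀ ∨ u ∈ Cs ∨ u ∈ Ex ∨ u ∈ Γ := by
    intro u hu hux
    by_cases h1 : u ∈ G₀
    · by_cases h2 : ∃ w ∈ G, w ∉ Bad ∧ R x w ∧ R w u
      · right; left
        rw [hCs, mem_filter]
        exact ⟨mem_union_left _ h1, h2⟩
      · left
        push Not at h2
        rw [hU₀, mem_filter]
        exact ⟨h1, hux, fun w hw hxw hwB => h2 w hw hwB hxw⟩
    · by_cases h3 : u ∈ Bd
      · right; right; left
        exact mem_inter.2 ⟨hu, h3⟩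
      · right; right; right
        rw [hΓ, mem_sdiff, mem_sdiff]
        exact ⟨⟨hu, h1⟩, h3⟩
  have hxB : x ∉ Bd := by
    rw [hΓ, mem_sdiff] at hx
    exact hx.2
  rcases Nat.lt_or_ge (p + N - 1) U₀.card with h | h
  · obtain ⟨ys, y, P₁, P₂, U₁, Rsv, Gc, Ex', hh⟩ := gcut_two' hT h0 hη hη1 hN hpN hq4 hBd hGX hGc hGd hGf hΓG hΓB hx hU₀x
      (by omega) hU₀q (fun z hz w hw hxw hwB => by
        rw [hU₀, mem_filter] at hz
        exact hz.2.2 w hw hxw hwB) hExc hCsc hDc hlin hcov hcnt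
    exact ⟨ys, y, P₁, P₂, U₁, Rsv, Gc, Ex', hh⟩
  · obtain ⟨ys, y, P₁, P₂, U₁, Rsv, Gc, Ex', hh⟩ := gcut_one' hT h0 hη hη1 hN hpN hpq hBd hGX hGc hGd hGf hΓG hΓB hx hxB
      (hΓq x hx) hU₀x h hExc hCsc hDc hlin hcov hcnt hn8
    exact ⟨ys, y, P₁, P₂, U₁, Rsv, Gc, Ex', hh⟩

/-- **The group cut lemma, first part small** -/
theorem gcut' (hT : AE32.Tour R) {X Bd Bad : Finset V} {p q N e : ℕ} {κ₀ η : ℝ} (h0 : 0 < κ₀) (hη : 20 * κ₀ ≤ η)
    (hη1 : η ≤ 1 / 8) (hN : 1 ≤ N) (hpN : 8 + 4 * (N * (e + 1) : ℕ) ≤ κ₀ * p) (hpq : p + N ≤ q) (hq4 : q ≤ 4 * p)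
    (hqX : ((q + e : ℕ) : ℝ) ≤ κ₀ * X.card) (hBd : Bd.card ≤ e)
    (hBad : ∀ g ∈ Bad, (X.filter (fun w => R w g ∧ Good R (κ₀ ^ 2 / 4) η X w)).card < q) :
    ∃ G ys y P₁ P₂ U₁ Rsv Gc Ex, GC R X Bd Bad p q N e κ₀ η G ys y P₁ P₂ U₁ Rsv Gc Ex ∧ Disjoint Rsv U₁ := by
  have hp8 : (8 : ℝ) ≤ κ₀ * p := by
    have : (0 : ℝ) ≤ ((N * (e + 1) : ℕ) : ℝ) := Nat.cast_nonneg _
    linarith
  have hpr : κ₀ * (p : ℝ) ≤ 1 * p := mul_le_mul_of_nonneg_right (by linarith) (Nat.cast_nonneg _)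
  have hpq' : (p : ℝ) ≤ ((q + e : ℕ) : ℝ) := by exact_mod_cast (by omega : p ≤ q + e)
  have hn8 : 8 ≤ κ₀ * X.card := by linarith
  obtain ⟨G, hGX, hG1, hGd, hGf⟩ := structure_lemma hT X (η := η) (κ₀ := κ₀) h0 (by linarith) (by linarith)
    (by linarith)
  have hGc : 15 * (κ₀ * X.card) ≤ G.card := by
    have h1 : (15 * κ₀) * (X.card : ℝ) ≤ (η - 5 * κ₀) * X.card :=
      mul_le_mul_of_nonneg_right (by linarith) (Nat.cast_nonneg _)
    linarith
  obtain ⟨ys, y, P₁, P₂, U₁, Rsv, Gc, Ex, hh⟩ := gcut_of' hT h0 hη hη1 hN hpN hpq hq4 hqX hBd hBad hGX hGd hGf hGc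
  exact ⟨G, ys, y, P₁, P₂, U₁, Rsv, Gc, Ex, hh⟩

/-- the same, every vertex of `G` (in particular every host) has many good out-neighbours in `P₂` -/
theorem gcutR' (hT : AE32.Tour R) {X Bd Bad : Finset V} {p q N e : ℕ} {κ₀ η : ℝ} (h0 : 0 < κ₀) (hη : 25 * κ₀ ≤ η)
    (hη1 : η ≤ 1 / 8) (hN : 1 ≤ N) (hpN : 8 + 4 * (N * (e + 1) : ℕ) ≤ κ₀ * p) (hpq : p + N ≤ q) (hq4 : q ≤ 4 * p)
    (hqX : ((q + e : ℕ) : ℝ) ≤ κ₀ * X.card) (hBd : Bd.card ≤ e)
    (hBad : ∀ g ∈ Bad, (X.filter (fun w => R w g ∧ Good R (κ₀ ^ 2 / 4) η X w)).card < q) :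
    ∃ G ys y P₁ P₂ U₁ Rsv Gc Ex, GC R X Bd Bad p q N e κ₀ η G ys y P₁ P₂ U₁ Rsv Gc Ex ∧ Disjoint Rsv U₁ ∧
      (∀ g ∈ G, κ₀ * X.card ≤ ((P₂.filter (fun w => R g w ∧ Good R (κ₀ ^ 2 / 4) η X w)).card : ℝ)) ∧
      ∀ g ∈ G, Rea R X P₂ (κ₀ ^ 2 / 4 * X.card) (η * X.card) g := by
  have hη0 : 0 < η := by linarith
  have hp8 : (8 : ℝ) ≤ κ₀ * p := by
    have : (0 : ℝ) ≤ ((N * (e + 1) : ℕ) : ℝ) := Nat.cast_nonneg _
    linarith
  have hpr : κ₀ * (p : ℝ) ≤ 1 * p := mul_le_mul_of_nonneg_right (by linarith) (Nat.cast_nonneg _)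
  have hpq' : (p : ℝ) ≤ ((q + e : ℕ) : ℝ) := by exact_mod_cast (by omega : p ≤ q + e)
  have hn8 : 8 ≤ κ₀ * X.card := by linarith
  obtain ⟨G', hGX', hG1, hGd', hGf'⟩ := structure_lemma hT X (η := η) (κ₀ := κ₀) h0 (by linarith) (by linarith)
    (by linarith)
  set G := G'.filter (fun g => 2 * κ₀ * X.card ≤ ((nO R G' g).card : ℝ)) with hGdef
  have hGG' : G ⊆ G' := filter_subset _ _
  have hGX : G ⊆ X := hGG'.trans hGX'
  have hGd : ∀ g ∈ G, Good R (κ₀ ^ 2 / 4) η X g := fun g hg => hGd' g (hGG' hg)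
  have hGf : ∀ u ∈ X, u ∉ G → ((nO R G u).card : ℝ) < 2 * κ₀ * X.card := by
    intro u hu huG
    have h1 : ((nO R G u).card : ℝ) ≤ (nO R G' u).card := by exact_mod_cast card_le_card (nO_mono hGG')
    refine lt_of_le_of_lt h1 ?_
    by_cases h2 : u ∈ G'
    · by_contra h3
      push Not at h3
      exact huG (mem_filter.2 ⟨h2, h3⟩)
    · exact hGf' u hu h2
  have hGc : 15 * (κ₀ * X.card) ≤ G.card := by
    have h1 : (20 * κ₀) * (X.card : ℝ) ≤ (η - 5 * κ₀) * X.card :=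
      mul_le_mul_of_nonneg_right (by linarith) (Nat.cast_nonneg _)
    have h2 := card_low hT G' ⌊2 * κ₀ * X.card⌋₊
    have h3 : G' ⊆ G ∪ G'.filter (fun v => (nO R G' v).card ≤ ⌊2 * κ₀ * X.card⌋₊) := by
      intro u hu
      by_cases h4 : u ∈ G
      · exact mem_union_left _ h4
      · refine mem_union_right _ (mem_filter.2 ⟨hu, Nat.le_floor ?_⟩)
        by_contra h5
        push Not at h5
        exact h4 (mem_filter.2 ⟨hu, h5.le⟩)
    have h4 := (card_le_card h3).trans (card_union_le _ _)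
    have h5 : (G'.card : ℝ) ≤ G.card + (2 * (⌊2 * κ₀ * X.card⌋₊ : ℝ) + 1) := by
      exact_mod_cast h4.trans (Nat.add_le_add_left h2 _)
    have h6 : (⌊2 * κ₀ * X.card⌋₊ : ℝ) ≤ 2 * κ₀ * X.card := Nat.floor_le (by positivity)
    linarith
  have hfin : ∀ {ys y P₁ P₂ U₁ Rsv Gc Ex}, GC R X Bd Bad p q N e κ₀ η G ys y P₁ P₂ U₁ Rsv Gc Ex →
      (∀ g ∈ G, κ₀ * X.card ≤ ((P₂.filter (fun w => R g w ∧ Good R (κ₀ ^ 2 / 4) η X w)).card : ℝ)) ∧
      ∀ g ∈ G, Rea R X P₂ (κ₀ ^ 2 / 4 * X.card) (η * X.card) g := by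
    intro ys y P₁ P₂ U₁ Rsv Gc Ex h
    refine ⟨fun g hg => ?_, fun g hg => ?_⟩
    · have h1 : nO R G' g ⊆ P₂.filter (fun w => R g w ∧ Good R (κ₀ ^ 2 / 4) η X w) ∪ (P₁ ∪ ys.toFinset) := by
        intro w hw
        rw [mem_nO] at hw
        by_cases h2 : w ∈ P₂
        · exact mem_union_left _ (mem_filter.2 ⟨h2, hw.2, hGd' w hw.1⟩)
        · refine mem_union_right _ ?_
          rw [h.part] at h2
          by_contra h3
          rw [mem_union, List.mem_toFinset] at h3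
          push Not at h3
          exact h2 ⟨hGX' hw.1, h3.1, h3.2⟩
      have h2 := (card_le_card h1).trans (card_union_le _ _)
      have h3 := card_union_le P₁ ys.toFinset
      have h4 := ys.toFinset_card_le
      rw [h.len] at h4
      have h5 : 2 * κ₀ * X.card ≤ ((nO R G' g).card : ℝ) := (mem_filter.1 hg).2
      have h6 : ((nO R G' g).card : ℝ) ≤
          (P₂.filter (fun w => R g w ∧ Good R (κ₀ ^ 2 / 4) η X w)).card + ((q + e : ℕ) : ℝ) := by
        have h7 := h.card₁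
        exact_mod_cast (by omega : (nO R G' g).card ≤
          (P₂.filter (fun w => R g w ∧ Good R (κ₀ ^ 2 / 4) η X w)).card + (q + e))
      linarith
    · exact AECut.Good.rea (hGd g hg) (fun w hw => ((h.part w).1 hw).1) le_rfl
  obtain ⟨ys, y, P₁, P₂, U₁, Rsv, Gc, Ex, hh⟩ := gcut_of' hT h0 (by linarith) hη1 hN hpN hpq hq4 hqX hBd hBad hGX hGd
    hGf hGc
  exact ⟨G, ys, y, P₁, P₂, U₁, Rsv, Gc, Ex, hh.1, hh.2, hfin hh.1⟩


/-- **The group cut lemma, second part small**, with the reserve outside of `U₂` -/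
theorem gcut_dual' (hT : AE32.Tour R) {X Bd Bad : Finset V} {p q N e : ℕ} {κ₀ η : ℝ} (h0 : 0 < κ₀) (hη : 20 * κ₀ ≤ η)
    (hη1 : η ≤ 1 / 8) (hN : 1 ≤ N) (hpN : 8 + 4 * (N * (e + 1) : ℕ) ≤ κ₀ * p) (hpq : p + N ≤ q) (hq4 : q ≤ 4 * p)
    (hqX : ((q + e : ℕ) : ℝ) ≤ κ₀ * X.card) (hBd : Bd.card ≤ e)
    (hBad : ∀ g ∈ Bad, (X.filter (fun w => R g w ∧ Good (rv R) (κ₀ ^ 2 / 4) η X w)).card < q) :
    ∃ G ys y P₁ P₂ U₂ Rsv Gc Ex, GCD R X Bd Bad p q N e κ₀ η G ys y P₁ P₂ U₂ Rsv Gc Ex ∧ Disjoint Rsv U₂ := by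
  obtain ⟨G, ys, y, P₁, P₂, U₂, Rsv, Gc, Ex, h⟩ := gcut' (R := rv R) (rv_tour hT) h0 hη hη1 hN hpN hpq hq4 hqX hBd hBad
  exact ⟨G, ys.reverse, y, P₂, P₁, U₂, Rsv, Gc, Ex, h.1.dual, h.2⟩

end AEG
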