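import Pool.Agent.AECut.Side
import Pool.Agent.AEM.Order

/-!
# Group cuts: definitions
-/

namespace AEG

open Finset AE15 SPD AECut
open scoped Classical

variable {V : Type*} {R : V → V → Prop}

/-- the dominators of `u` in `P` among the out-neighbours of `y` which reach robustly almost all of `P` -/
noncomputable def Dg (R : V → V → Prop) (U P : Finset V) (k t : ℝ) (y u : V) : Finset V :=
  P.filter (fun w => R y w ∧ R w u ∧ Rea R U P k t w)

theorem mem_Dg {U P : Finset V} {k t : ℝ} {y u w : V} : w ∈ Dg R U P k t y u ↔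
    w ∈ P ∧ R y w ∧ R w u ∧ Rea R U P k t w := by
  simp [Dg]

/-- a host for one side -/
structure GHost (R : V → V → Prop) (U P : Finset V) (k t s : ℝ) (y : V) : Prop where
  notMem : y ∉ P
  reach : Rea R U P k t y
  lin : s * P.card ≤ ((P.filter (fun w => R y w ∧ Rea R U P k t w)).card : ℝ)

/-- one side of a group cut at a host `y`: at most `8 (j + e)` vertices of `P \ N⁺(y)` have at most `j` dominators and no
dominator in the reserved set `Rs` -/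
structure GSide (R : V → V → Prop) (U P Rs : Finset V) (k t s τ : ℝ) (e : ℕ) (y : V) : Prop extends
    GHost R U P k t s y where
  cnt : ∀ j : ℕ, (j : ℝ) ≤ τ * P.card →
    (P.filter (fun u => R u y ∧ (Dg R U P k t y u).card ≤ j ∧ ∀ w ∈ Rs, w ∉ Dg R U P k t y u)).card ≤ 8 * (j + e)

/-- the data of one side of a group cut: `U₀` is a set of the structure lemma, the part is `Z₂ ∪ (U \ base)` -/
structure GData (R : V → V → Prop) (κ₀ s₀ : ℝ) (U U₀ E' W Z Z₁ Z₂ : Finset V) : Prop where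
  sub : U₀ ⊆ U
  str : ∀ z ∈ U, z ∉ U₀ → ((nO R U₀ z).card : ℝ) < κ₀ * U.card
  cl : ∀ C ⊆ U, Closed R (κ₀ ^ 2 / 4) U C → 2 * κ₀ * U.card ≤ ((U₀ ∩ C).card : ℝ) →
    U \ U₀ ⊆ C ∧ ((U₀ \ C).card : ℝ) < s₀
  Zb : Z ⊆ base R κ₀ U U₀
  Z1 : Z₁ ⊆ Z
  Z2 : Z₂ ⊆ Z
  part : base R κ₀ U U₀ ⊆ Z₁ ∪ Z₂ ∪ (E' ∪ W)
  few : ∀ a ∈ E', ((nI R Z a).card : ℝ) ≤ 2 * κ₀ * U.card
  clo : ∀ C ⊆ U, Closed R (κ₀ ^ 2 / 4) U C →
    ((Z₁ ∩ C).card : ℝ) ≤ κ₀ * U.card ∨ ((Z₂ \ C).card : ℝ) ≤ κ₀ * U.card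

/-- the two halves of a median order of `Z` around `N` consecutive vertices, seen from the host `y`: `e` hosts follow
`y` -/
structure MCut (R : V → V → Prop) (Z Z₂ : Finset V) (e : ℕ) (y : V) : Prop where
  mem : y ∈ Z
  sub : Z₂ ⊆ Z
  notMem : y ∉ Z₂
  deg : Z₂.card ≤ 2 * (nO R Z₂ y).card + e
  cnt : ∀ j : ℕ, (Z₂.filter (fun u => R u y ∧ (nI R (nO R Z₂ y) u).card ≤ j)).card ≤ 4 * (j + e)

end AEG
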