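import Pool.Agent.AEG.GLinM

/-!
# Group cuts: nested cuts, both parts of linear size

`gcut_lin_fam`: the structure sets and the median order can be chosen for all sizes `p₀ ≤ p ≤ p₁` at once.
`gcut_lin2`: two nested cuts.
-/

set_option autoImplicit false

namespace AEG

open Finset AE15 SPD
open scoped Classical

variable {V : Type*} {R : V → V → Prop}

/-- the conclusion of `gcut_lin` -/
structure LCut (R : V → V → Prop) (X Bd : Finset V) (p N e : ℕ) (κ₀ η : ℝ) (P₁ P₂ : Finset V) (ys : List V) :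
    Prop where
  len : ys.length = N
  nodup : ys.Nodup
  chain : ys.IsChain R
  sub₁ : P₁ ⊆ X
  sub₂ : P₂ ⊆ X
  disj : Disjoint P₁ P₂
  hys : ∀ y ∈ ys, y ∈ X ∧ y ∉ P₁ ∧ y ∉ P₂ ∧ y ∉ Bd
  card₁ : P₁.card = p
  sum : P₁.card + N + P₂.card = X.card
  ins : ∀ y ∈ ys, MSide (rv R) X P₁ (κ₀ ^ 2 / 4 * X.card) (2 * η * X.card) (η / 8) (η / 8) (4 * (N * (e + 1))) y
  head : ∀ y ∈ ys.head?, MSide (rv R) X P₁ (κ₀ ^ 2 / 4 * X.card) (2 * η * X.card) (η / 8) (η / 8) (N * e) y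
  outs : ∀ y ∈ ys, MSide R X P₂ (κ₀ ^ 2 / 4 * X.card) (2 * η * X.card) (η / 8) (η / 8) (4 * (N * (e + 1))) y
  last : ∀ y ∈ ys.getLast?, MSide R X P₂ (κ₀ ^ 2 / 4 * X.card) (2 * η * X.card) (η / 8) (η / 8) (4 * (N * e)) y
  far₂ : ∀ C ⊆ X, Closed R (κ₀ ^ 2 / 4) X C → (X.card : ℝ) - p - N - η * X.card < C.card →
    ((P₂ \ C).card : ℝ) ≤ 2 * η * X.card
  far₁ : ∀ C ⊆ X, Closed (rv R) (κ₀ ^ 2 / 4) X C → (p : ℝ) - η * X.card < C.card →
    ((P₁ \ C).card : ℝ) ≤ 2 * η * X.card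

/-- **Median cuts of all sizes in a range**: the frozen part `F` of the first side, the middle part `Z` and its median
order `π` do not depend on `p`; the first part is `F` and the places up to `p - |F| + N` without the window of `N` hosts -/
theorem gcut_lin_fam (hT : AE32.Tour R) {X : Finset V} {p₀ p₁ N e : ℕ} {κ₀ η : ℝ} (h0 : 0 < κ₀) (hη : 20 * κ₀ ≤ η)
    (hη1 : η ≤ 1 / 8) (hN : 8 + 4 * (N * (e + 1) : ℕ) ≤ κ₀ * X.card) (hp : η * X.card ≤ p₀) (h01 : p₀ ≤ p₁)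
    (hpp : (p₁ : ℝ) ≤ p₀ + η / 8 * X.card) (hp' : (p₁ : ℝ) + N + η * X.card ≤ X.card) :
    ∃ (F Z : Finset V) (π : V → ℕ), AEM.MedO R Z π ∧ F.card ≤ p₀ ∧ ∀ p, p₀ ≤ p → p ≤ p₁ → ∀ Bd : Finset V,
      Bd.card ≤ e → ∃ (a : ℕ) (P₁ P₂ : Finset V) (ys : List V), LCut R X Bd p N e κ₀ η P₁ P₂ ys ∧
        (∀ w, w ∈ P₁ ↔ w ∈ F ∨ (w ∈ Z ∧ π w < p - F.card + N ∧ ¬ (a ≤ π w ∧ π w < a + N))) ∧
        (∀ w, w ∈ P₂ ↔ w ∈ X ∧ w ∉ F ∧ (w ∈ Z → p - F.card + N ≤ π w)) ∧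
        (∀ w, w ∈ ys ↔ w ∈ Z ∧ a ≤ π w ∧ π w < a + N) ∧ a + N ≤ Z.card := by
  obtain ⟨n, hnd⟩ : ∃ n : ℝ, n = (X.card : ℝ) := ⟨_, rfl⟩
  have hn0 : 0 ≤ n := by rw [hnd]; exact Nat.cast_nonneg _
  have hNe : N * (e + 1) = N * e + N := by ring
  rw [hNe] at hN
  push_cast at hN
  rw [← hnd] at hN hp hp' hpp
  obtain ⟨ne, hne⟩ : ∃ ne : ℝ, ne = (N : ℝ) * e := ⟨_, rfl⟩
  rw [← hne] at hN
  have hne0 : 0 ≤ ne := by rw [hne]; positivity
  have hN0 : (0 : ℝ) ≤ N := Nat.cast_nonneg _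
  obtain ⟨k, hk⟩ : ∃ k : ℝ, k = κ₀ * n := ⟨_, rfl⟩
  obtain ⟨h, hh⟩ : ∃ h : ℝ, h = η * n := ⟨_, rfl⟩
  have hkh : 20 * k ≤ h := by
    have := mul_le_mul_of_nonneg_right hη hn0
    rw [hk, hh]
    linarith
  have hh8 : 8 * h ≤ n := by
    have := mul_le_mul_of_nonneg_right hη1 hn0
    rw [hh]
    linarith
  have hκ1 : κ₀ ≤ 1 / 160 := by linarith
  have hκ2 : κ₀ ^ 2 / 2 * n ≤ k := by
    rw [hk]
    have h1 : 0 ≤ κ₀ * n := by positivity
    nlinarith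
  rw [← hk] at hN
  rw [← hh] at hp hp'
  have hpp' : (p₁ : ℝ) ≤ p₀ + h / 8 := by
    rw [hh]
    linarith
  have hp01 : (p₀ : ℝ) ≤ p₁ := by exact_mod_cast h01
  have hk8 : 8 ≤ k := by linarith
  -- the structure sets
  obtain ⟨sU, hsU⟩ : ∃ sU : ℝ, sU = min (p₁ + N + 3 / 2 * h) n := ⟨_, rfl⟩
  have hsU1 : sU ≤ p₁ + N + 3 / 2 * h := by rw [hsU]; exact min_le_left _ _
  have hsU2 : sU ≤ n := by rw [hsU]; exact min_le_right _ _
  have hsU3 : p₁ + N + h ≤ sU := by rw [hsU]; exact le_min (by linarith) (by linarith)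
  have hsU4 : p₁ + N + 3 / 2 * h ≤ sU ∨ n ≤ sU := by
    rw [hsU]
    rcases min_choice ((p₁ : ℝ) + N + 3 / 2 * h) n with h1 | h1
    · left; rw [h1]
    · right; rw [h1]
  obtain ⟨sO, hsO⟩ : ∃ sO : ℝ, sO = min (n - p₀ + 3 / 2 * h) n := ⟨_, rfl⟩
  have hsO1 : sO ≤ n - p₀ + 3 / 2 * h := by rw [hsO]; exact min_le_left _ _
  have hsO2 : sO ≤ n := by rw [hsO]; exact min_le_right _ _
  have hsO3 : n - p₀ + h ≤ sO := by rw [hsO]; exact le_min (by linarith) (by linarith)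
  have hsO4 : n - p₀ + 3 / 2 * h ≤ sO ∨ n ≤ sO := by
    rw [hsO]
    rcases min_choice (n - (p₀ : ℝ) + 3 / 2 * h) n with h1 | h1
    · left; rw [h1]
    · right; rw [h1]
  obtain ⟨U₀, hU₀, hU₀c, hU₀s, hU₀cl⟩ := AECut.struct_size hT X (κ₀ := κ₀) (s := sU) h0 (by linarith)
    (by rw [← hnd]; exact hsU2) (by rw [← hnd, ← hk]; linarith)
  obtain ⟨O₀, hO₀, hO₀c, hO₀s, hO₀cl⟩ := AECut.struct_size (rv_tour hT) X (κ₀ := κ₀) (s := sO) h0 (by linarith)
    (by rw [← hnd]; exact hsO2) (by rw [← hnd, ← hk]; linarith)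
  obtain ⟨GU, hGU⟩ : ∃ GU, AECut.base R κ₀ X U₀ = GU := ⟨_, rfl⟩
  obtain ⟨GO, hGO⟩ : ∃ GO, AECut.base (rv R) κ₀ X O₀ = GO := ⟨_, rfl⟩
  have hGUU : GU ⊆ U₀ := by rw [← hGU]; exact AECut.base_sub
  have hGOO : GO ⊆ O₀ := by rw [← hGO]; exact AECut.base_sub
  have hGUX : GU ⊆ X := hGUU.trans hU₀
  have hGOX : GO ⊆ X := hGOO.trans hO₀
  have hEp : ((X \ GU).card : ℝ) + U₀.card ≤ n + 4 * k + 1 := by
    have h1 := AECut.card_sdiff_base hT (κ₀ := κ₀) h0.le hU₀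
    rw [hGU, ← hnd] at h1
    rw [hk]
    linarith
  have hEm : ((X \ GO).card : ℝ) + O₀.card ≤ n + 4 * k + 1 := by
    have h1 := AECut.card_sdiff_base (rv_tour hT) (κ₀ := κ₀) h0.le hO₀
    rw [hGO, ← hnd] at h1
    rw [hk]
    linarith
  have hfp : ∀ u ∈ X, u ∉ GU → ((nO R U₀ u).card : ℝ) ≤ 2 * κ₀ * X.card := fun u hu hu' =>
    AECut.few_of_notMem_base h0.le hU₀s hu (by rw [hGU]; exact hu')
  have hfm : ∀ u ∈ X, u ∉ GO → ((nI R O₀ u).card : ℝ) ≤ 2 * κ₀ * X.card := fun u hu hu' =>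
    AECut.few_of_notMem_base (R := rv R) h0.le hO₀s hu (by rw [hGO]; exact hu')
  -- no vertex is outside both bases
  have hcov : ∀ u ∈ X, u ∉ GU → u ∈ GO := by
    intro u hu hu1
    by_contra hu2
    have h2 := hfp u hu hu1
    have h3 := hfm u hu hu2
    rw [← hnd] at h2 h3
    have h4 : U₀ ∩ O₀ ⊆ {u} ∪ (nO R U₀ u ∪ nI R O₀ u) := by
      intro w hw
      rw [mem_inter] at hw
      rw [mem_union, mem_union, mem_singleton, mem_nO, mem_nI]
      by_cases hwu : w = u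
      · exact Or.inl hwu
      · rcases hT.tot u w (Ne.symm hwu) with h | h
        · exact Or.inr (Or.inl ⟨hw.1, h⟩)
        · exact Or.inr (Or.inr ⟨hw.2, h⟩)
    have h5 : ((U₀ ∩ O₀).card : ℝ) ≤ 1 + ((nO R U₀ u).card + (nI R O₀ u).card) := by
      have h6 := card_le_card h4
      have h7 := card_union_le {u} (nO R U₀ u ∪ nI R O₀ u)
      have h8 := card_union_le (nO R U₀ u) (nI R O₀ u)
      rw [card_singleton] at h7
      exact_mod_cast (by omega : (U₀ ∩ O₀).card ≤ 1 + ((nO R U₀ u).card + (nI R O₀ u).card))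
    have h6 : (U₀.card : ℝ) + O₀.card ≤ (U₀ ∩ O₀).card + n := by
      have h7 := card_union_add_card_inter U₀ O₀
      have h8 := card_le_card (union_subset hU₀ hO₀)
      rw [hnd]
      exact_mod_cast (by omega : U₀.card + O₀.card ≤ (U₀ ∩ O₀).card + X.card)
    linarith
  -- the middle part
  obtain ⟨Z, hZ⟩ : ∃ Z, Z = GU ∩ GO := ⟨_, rfl⟩
  have hZm : ∀ {w}, w ∈ Z ↔ w ∈ GU ∧ w ∈ GO := by
    intro w
    rw [hZ, mem_inter]
  have hZGU : Z ⊆ GU := fun w hw => (hZm.1 hw).1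
  have hZGO : Z ⊆ GO := fun w hw => (hZm.1 hw).2
  have hZX : Z ⊆ X := hZGU.trans hGUX
  have hpartU : GU = Z ∪ (X \ GO) := by
    ext u
    rw [mem_union, hZm, mem_sdiff]
    constructor
    · intro hu
      by_cases h2 : u ∈ GO
      · exact Or.inl ⟨hu, h2⟩
      · exact Or.inr ⟨hGUX hu, h2⟩
    · rintro (h | h)
      · exact h.1
      · by_contra hc
        exact h.2 (hcov u h.1 hc)
  have hpartO : GO = Z ∪ (X \ GU) := by
    ext u
    rw [mem_union, hZm, mem_sdiff]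
    constructor
    · intro hu
      by_cases h2 : u ∈ GU
      · exact Or.inl ⟨h2, hu⟩
      · exact Or.inr ⟨hGOX hu, h2⟩
    · rintro (h | h)
      · exact h.2
      · exact hcov u h.1 h.2
  have hcard : Z.card + (X \ GO).card + (X \ GU).card = X.card := by
    have h2 : GU.card = Z.card + (X \ GO).card := by
      rw [hpartU, card_union_of_disjoint]
      rw [disjoint_left]
      intro u hu hu'
      exact (mem_sdiff.1 hu').2 (hZGO hu)
    have h3 := card_sdiff_add_card_eq_card hGUX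
    omega
  have hcardR : (Z.card : ℝ) + (X \ GO).card + (X \ GU).card = n := by
    rw [hnd]
    exact_mod_cast hcard
  -- the sizes
  have hz1 : ((X \ GO).card : ℝ) + 3 / 4 * h + k / 2 ≤ p₀ := by linarith
  have hz2 : ((X \ GU).card : ℝ) + 3 / 4 * h + k / 2 + p₁ + N ≤ n := by linarith
  have hz1' : (X \ GO).card ≤ p₀ := by
    have : ((X \ GO).card : ℝ) ≤ p₀ := by linarith
    exact_mod_cast this
  have hz2' : (X \ GU).card + p₁ + N ≤ X.card := by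
    have : ((X \ GU).card : ℝ) + p₁ + N ≤ X.card := by rw [← hnd]; linarith
    exact_mod_cast this
  obtain ⟨π, hπ⟩ := AEM.exists_medO R Z
  have hπr : AEM.MedO (rv R) Z (fun u => Z.card - 1 - π u) := hπ.rev
  obtain ⟨v₀, hv₀⟩ : X.Nonempty := by
    rw [← card_pos]
    have h1 : (0 : ℝ) < X.card := by
      rw [← hnd]
      linarith
    exact_mod_cast h1
  have hg : ∀ t, ∃ u, t < Z.card → u ∈ Z ∧ π u = t := by
    intro t
    by_cases ht : t < Z.card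
    · obtain ⟨u, hu, hut⟩ := hπ.exists_pos ht
      exact ⟨u, fun _ => ⟨hu, hut⟩⟩
    · exact ⟨v₀, fun h => absurd h ht⟩
  choose g hg using hg
  refine ⟨X \ GO, Z, π, hπ, hz1', ?_⟩
  intro p hp₀ hp₁ Bd hBd
  have hp₀' : (p₀ : ℝ) ≤ p := by exact_mod_cast hp₀
  have hp₁' : (p : ℝ) ≤ p₁ := by exact_mod_cast hp₁
  obtain ⟨a₀, ha₀⟩ : ∃ a₀ : ℕ, a₀ + (X \ GO).card = p := ⟨p - (X \ GO).card, by omega⟩
  have ha₀r : (a₀ : ℝ) + (X \ GO).card = p := by exact_mod_cast ha₀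
  have haz : a₀ + N ≤ Z.card := by omega
  obtain ⟨a, haa, haN, hwin⟩ := exists_window (Z := Z) (π := π) (a₀ := a₀) (N := N) (e := e) (by
    have h1 : ((N * e : ℕ) : ℝ) ≤ a₀ := by
      push_cast
      rw [← hne]
      linarith
    exact_mod_cast h1) hBd
  have haNr : (a₀ : ℝ) ≤ a + ne := by
    rw [hne]
    exact_mod_cast haN
  have hgi : ∀ i < N, g (a + i) ∈ Z ∧ π (g (a + i)) = a + i := fun i hi => hg _ (by omega)
  obtain ⟨Zg, hZg⟩ : ∃ Zg, Zg = Z.filter (fun w => 0 ≤ π w ∧ π w < a) := ⟨_, rfl⟩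
  obtain ⟨Sk, hSk⟩ : ∃ Sk, Sk = Z.filter (fun w => a + N ≤ π w ∧ π w < a₀ + N) := ⟨_, rfl⟩
  obtain ⟨Z₂, hZ₂⟩ : ∃ Z₂, Z₂ = Z.filter (fun w => a₀ + N ≤ π w ∧ π w < Z.card) := ⟨_, rfl⟩
  have hZgc : Zg.card = a := by rw [hZg, hπ.card_seg (by omega), Nat.sub_zero]
  have hSkc : Sk.card = a₀ - a := by rw [hSk, hπ.card_seg (by omega)]; omega
  have hZ₂c : Z₂.card = Z.card - (a₀ + N) := by rw [hZ₂, hπ.card_seg le_rfl]
  have hZgm : ∀ {w}, w ∈ Zg ↔ w ∈ Z ∧ π w < a := by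
    intro w
    rw [hZg, mem_filter]
    simp
  have hSkm : ∀ {w}, w ∈ Sk ↔ w ∈ Z ∧ a + N ≤ π w ∧ π w < a₀ + N := by
    intro w
    rw [hSk, mem_filter]
  have hZ₂m : ∀ {w}, w ∈ Z₂ ↔ w ∈ Z ∧ a₀ + N ≤ π w := by
    intro w
    rw [hZ₂, mem_filter]
    constructor
    · rintro ⟨h1, h2, _⟩
      exact ⟨h1, h2⟩
    · rintro ⟨h1, h2⟩
      exact ⟨h1, h2, hπ.lt w h1⟩
  have hZgZ : Zg ⊆ Z := fun w hw => (hZgm.1 hw).1
  have hSkZ : Sk ⊆ Z := fun w hw => (hSkm.1 hw).1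
  have hZ₂Z : Z₂ ⊆ Z := fun w hw => (hZ₂m.1 hw).1
  obtain ⟨P₁, hP₁⟩ : ∃ P₁, P₁ = Zg ∪ (Sk ∪ (X \ GO)) := ⟨_, rfl⟩
  obtain ⟨P₂, hP₂⟩ : ∃ P₂, P₂ = Z₂ ∪ (∅ ∪ (X \ GU)) := ⟨_, rfl⟩
  have hP₁m : ∀ {w}, w ∈ P₁ ↔ w ∈ Zg ∨ w ∈ Sk ∨ w ∈ X \ GO := by
    intro w
    rw [hP₁, mem_union, mem_union]
  have hP₂m : ∀ {w}, w ∈ P₂ ↔ w ∈ Z₂ ∨ w ∈ X \ GU := by
    intro w
    rw [hP₂, mem_union, empty_union]
  have hP₁c : P₁.card = p := by
    have h1 : (Sk ∪ (X \ GO)).card = Sk.card + (X \ GO).card := by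
      apply card_union_of_disjoint
      rw [disjoint_left]
      intro w h1 h2
      exact (mem_sdiff.1 h2).2 (hZGO (hSkZ h1))
    have h2 : P₁.card = Zg.card + (Sk ∪ (X \ GO)).card := by
      rw [hP₁]
      apply card_union_of_disjoint
      rw [disjoint_left]
      intro w h1 h2
      rcases mem_union.1 h2 with h2 | h2
      · have h3 := hZgm.1 h1
        have h4 := hSkm.1 h2
        omega
      · exact (mem_sdiff.1 h2).2 (hZGO (hZgZ h1))
    omega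
  have hP₂c : P₂.card = Z.card - (a₀ + N) + (X \ GU).card := by
    rw [hP₂, empty_union, card_union_of_disjoint, hZ₂c]
    rw [disjoint_left]
    intro w h1 h2
    exact (mem_sdiff.1 h2).2 (hZGU (hZ₂Z h1))
  have hsum : P₁.card + N + P₂.card = X.card := by omega
  have hP₁r : (P₁.card : ℝ) = p := by exact_mod_cast hP₁c
  have hP₂r : (P₂.card : ℝ) = n - p - N := by
    have h1 : (P₁.card : ℝ) + N + P₂.card = X.card := by exact_mod_cast hsum
    rw [hP₁r, ← hnd] at h1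
    linarith
  have hZ₂r : (Z₂.card : ℝ) + (X \ GU).card = n - p - N := by
    rw [← hP₂r]
    exact_mod_cast (by omega : Z₂.card + (X \ GU).card = P₂.card)
  have hSkNe : Sk.card ≤ N * e := by omega
  have hfewO : ∀ b ∈ X \ GO, ((nI R Z b).card : ℝ) ≤ 2 * κ₀ * X.card := by
    intro b hb
    rw [mem_sdiff] at hb
    refine le_trans ?_ (hfm b hb.1 hb.2)
    exact_mod_cast card_le_card (nI_mono (hZGO.trans hGOO))
  have hfewU : ∀ b ∈ X \ GU, ((nI (rv R) Z b).card : ℝ) ≤ 2 * κ₀ * X.card := by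
    intro b hb
    rw [mem_sdiff] at hb
    refine le_trans ?_ (hfp b hb.1 hb.2)
    have : nI (rv R) Z b = nO R Z b := rfl
    rw [this]
    exact_mod_cast card_le_card (nO_mono (hZGU.trans hGUU))
  have hord₂ : ∀ b ∈ Z, b ∉ Z₂ → ∀ c ∈ Z₂, π b < π c := by
    intro b hb hb' c hc
    have h1 := hZ₂m.1 hc
    by_contra h2
    push Not at h2
    exact hb' (hZ₂m.2 ⟨hb, by omega⟩)
  have hord₁ : ∀ b ∈ Z, b ∉ Zg → ∀ c ∈ Zg, Z.card - 1 - π b < Z.card - 1 - π c := by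
    intro x hx hxg b hb
    have h1 := hZgm.1 hb
    have h2 : a ≤ π x := by
      by_contra hc
      push Not at hc
      exact hxg (hZgm.2 ⟨hx, hc⟩)
    have h3 := hπ.lt x hx
    omega
  have hcast : ((N * e : ℕ) : ℝ) = ne := by
    rw [hne]
    push_cast
    ring
  have hn' : 1 ≤ κ₀ * X.card := by rw [← hnd, ← hk]; linarith
  have ht1in : 8 * κ₀ * X.card + ((N * e : ℕ) : ℝ) + 1 ≤ 2 * η * X.card := by
    rw [hcast, ← hnd, mul_assoc, mul_assoc, ← hk, ← hh]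
    linarith
  have ht1out : 8 * κ₀ * X.card + ((0 : ℕ) : ℝ) + 1 ≤ 2 * η * X.card := by
    rw [← hnd, mul_assoc, mul_assoc, ← hk, ← hh, Nat.cast_zero]
    linarith
  have ht2in : (P₁.card : ℝ) + sO + κ₀ * X.card + κ₀ ^ 2 / 2 * X.card ≤ X.card + 2 * η * X.card := by
    rw [hP₁r, ← hnd, mul_assoc 2 η n, ← hk, ← hh]
    linarith
  have ht2out : (P₂.card : ℝ) + sU + κ₀ * X.card + κ₀ ^ 2 / 2 * X.card ≤ X.card + 2 * η * X.card := by
    rw [hP₂r, ← hnd, mul_assoc 2 η n, ← hk, ← hh]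
    linarith
  have hin : ∀ i < N, MSide (rv R) X P₁ (κ₀ ^ 2 / 4 * X.card) (2 * η * X.card) (η / 8) (η / 8) (4 * i + N * e)
      (g (a + i)) := by
    intro i hi
    obtain ⟨hgZ, hgπ⟩ := hgi i hi
    have hi' : (i : ℝ) ≤ N := by exact_mod_cast hi.le
    have hηp : η * p ≤ h := by
      rw [hh]
      exact mul_le_mul_of_nonneg_left (by linarith) (by linarith)
    refine mside2 (rv_tour hT) (s₀ := sO) (U₀ := O₀) (B := GO) (E := X \ GU) (Z := Z) (Zg := Zg) (Sk := Sk)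
      (Ex := Z.filter (fun w => a ≤ π w ∧ π w < a + i)) (π := fun u => Z.card - 1 - π u) (e₁ := i) (e₂ := N * e) h0
      hn' hO₀ hO₀s hO₀cl hGO hpartO hfewU hπr hgZ hZgZ hord₁ ?_ ?_ ?_ hSkNe hP₁ ht1in ht2in ?_ ?_
    · intro h1
      have h2 := hZgm.1 h1
      omega
    · intro w hw h1
      have h2 := hπ.lt w hw
      have h3 : π w < a + i := by
        have h4 : Z.card - 1 - π (g (a + i)) < Z.card - 1 - π w := h1
        omega
      by_cases h4 : π w < a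
      · exact Or.inl (hZgm.2 ⟨hw, h4⟩)
      · exact Or.inr (mem_filter.2 ⟨hw, by omega, h3⟩)
    · rw [hπ.card_seg (by omega)]
      omega
    · rw [hZgc, hP₁r]
      linarith
    · rw [hZgc, hP₁r, ← hnd, mul_assoc 4 κ₀ n, ← hk]
      linarith
  have hout : ∀ i < N, MSide R X P₂ (κ₀ ^ 2 / 4 * X.card) (2 * η * X.card) (η / 8) (η / 8)
      (4 * (a₀ + N - (a + i + 1)) + 0) (g (a + i)) := by
    intro i hi
    obtain ⟨hgZ, hgπ⟩ := hgi i hi
    have hi' : ((a₀ + N - (a + i + 1) : ℕ) : ℝ) ≤ ne + N := by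
      rw [hne]
      exact_mod_cast (by omega : a₀ + N - (a + i + 1) ≤ N * e + N)
    have hηp : η * (n - p - N) ≤ h := by
      rw [hh]
      exact mul_le_mul_of_nonneg_left (by linarith) (by linarith)
    refine mside2 hT (s₀ := sU) (U₀ := U₀) (B := GU) (E := X \ GO) (Z := Z) (Zg := Z₂) (Sk := ∅)
      (Ex := Z.filter (fun w => a + i + 1 ≤ π w ∧ π w < a₀ + N)) (π := π) (e₁ := a₀ + N - (a + i + 1)) (e₂ := 0) h0
      hn' hU₀ hU₀s hU₀cl hGU hpartU hfewO hπ hgZ hZ₂Z hord₂ ?_ ?_ ?_ (by simp) hP₂ ht1out ht2out ?_ ?_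
    · intro h1
      have h2 := hZ₂m.1 h1
      omega
    · intro w hw h1
      by_cases h4 : a₀ + N ≤ π w
      · exact Or.inl (hZ₂m.2 ⟨hw, h4⟩)
      · exact Or.inr (mem_filter.2 ⟨hw, by omega, by omega⟩)
    · rw [hπ.card_seg (by omega)]
    · rw [hP₂r]
      linarith
    · rw [hP₂r, ← hnd, mul_assoc 4 κ₀ n, ← hk]
      linarith
  refine ⟨a, P₁, P₂, (List.range N).map (fun i => g (a + i)), ⟨?_, ?_, ?_, ?_, ?_, ?_, ?_, hP₁c, hsum, ?_, ?_, ?_,
    ?_, ?_, ?_⟩, ?_, ?_, ?_, by omega⟩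
  · rw [List.length_map, List.length_range]
  · apply List.Nodup.map_on _ List.nodup_range
    intro i hi j hj hij
    rw [List.mem_range] at hi hj
    have h1 := (hgi i hi).2
    have h2 := (hgi j hj).2
    rw [hij] at h1
    omega
  · rw [List.isChain_map, List.isChain_range]
    intro m hm
    have h1 := hgi m (by omega)
    have h2 := hgi (m + 1) (by omega)
    exact hπ.succ hT h1.1 h2.1 (by
      show π (g (a + (m + 1))) = π (g (a + m)) + 1
      omega)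
  · intro w hw
    rcases hP₁m.1 hw with h1 | h1 | h1
    · exact hZX (hZgZ h1)
    · exact hZX (hSkZ h1)
    · exact (mem_sdiff.1 h1).1
  · intro w hw
    rcases hP₂m.1 hw with h1 | h1
    · exact hZX (hZ₂Z h1)
    · exact (mem_sdiff.1 h1).1
  · rw [disjoint_left]
    intro w h1 h2
    rcases hP₂m.1 h2 with h3 | h3
    · have h3' := hZ₂m.1 h3
      rcases hP₁m.1 h1 with h4 | h4 | h4
      · have h5 := hZgm.1 h4
        omega
      · have h5 := hSkm.1 h4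
        omega
      · exact (mem_sdiff.1 h4).2 (hZGO h3'.1)
    · rw [mem_sdiff] at h3
      rcases hP₁m.1 h1 with h4 | h4 | h4
      · exact h3.2 (hZGU (hZgZ h4))
      · exact h3.2 (hZGU (hSkZ h4))
      · exact (mem_sdiff.1 h4).2 (hcov w h3.1 h3.2)
  · intro y hy
    rw [List.mem_map] at hy
    obtain ⟨i, hi, rfl⟩ := hy
    rw [List.mem_range] at hi
    obtain ⟨hgZ, hgπ⟩ := hgi i hi
    refine ⟨hZX hgZ, ?_, ?_, hwin _ hgZ (by omega) (by omega)⟩
    · intro h1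
      rcases hP₁m.1 h1 with h2 | h2 | h2
      · have h3 := hZgm.1 h2
        omega
      · have h3 := hSkm.1 h2
        omega
      · exact (mem_sdiff.1 h2).2 (hZGO hgZ)
    · intro h1
      rcases hP₂m.1 h1 with h2 | h2
      · have h2 := hZ₂m.1 h2
        omega
      · exact (mem_sdiff.1 h2).2 (hZGU hgZ)
  · intro y hy
    rw [List.mem_map] at hy
    obtain ⟨i, hi, rfl⟩ := hy
    rw [List.mem_range] at hi
    exact (hin i hi).mono (by omega)
  · intro y hy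
    rcases Nat.eq_zero_or_pos N with hN | hN
    · rw [hN] at hy
      simp at hy
    · rw [List.head?_map, List.head?_range, if_neg (by omega)] at hy
      simp only [Option.map_some, Option.mem_def, Option.some.injEq] at hy
      rw [← hy]
      exact (hin 0 hN).mono (by omega)
  · intro y hy
    rw [List.mem_map] at hy
    obtain ⟨i, hi, rfl⟩ := hy
    rw [List.mem_range] at hi
    exact (hout i hi).mono (by omega)
  · intro y hy
    rcases Nat.eq_zero_or_pos N with hN | hN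
    · rw [hN] at hy
      simp at hy
    · rw [List.getLast?_map, List.getLast?_range, if_neg (by omega)] at hy
      simp only [Option.map_some, Option.mem_def, Option.some.injEq] at hy
      rw [← hy]
      exact (hout (N - 1) (by omega)).mono (by omega)
  · intro C hCX hC hCc
    rw [← hnd, ← hh] at hCc
    rcases hsU4 with h4 | h4
    · refine med_far hT h0 hn' hU₀ hU₀cl hGU hpartU hfewO hπ hZ₂Z hord₂ (Sk := ∅) (e₂ := 0) (by simp) hP₂ ht1out
        ht2out hCX hC ?_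
      have h6 : (U₀.card : ℝ) + C.card ≤ (U₀ ∩ C).card + n := by
        have h7 := card_union_add_card_inter U₀ C
        have h8 := card_le_card (union_subset hU₀ hCX)
        rw [hnd]
        exact_mod_cast (by omega : U₀.card + C.card ≤ (U₀ ∩ C).card + X.card)
      rw [← hnd, mul_assoc, ← hk]
      linarith
    · have h5 : ((P₂ \ C).card : ℝ) ≤ P₂.card := by exact_mod_cast card_le_card sdiff_subset
      rw [hP₂r] at h5
      rw [← hnd, mul_assoc, ← hh]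
      linarith
  · intro C hCX hC hCc
    rw [← hnd, ← hh] at hCc
    rcases hsO4 with h4 | h4
    · refine med_far (rv_tour hT) h0 hn' hO₀ hO₀cl hGO hpartO hfewU hπr hZgZ hord₁ hSkNe hP₁ ht1in
        ht2in hCX hC ?_
      have h6 : (O₀.card : ℝ) + C.card ≤ (O₀ ∩ C).card + n := by
        have h7 := card_union_add_card_inter O₀ C
        have h8 := card_le_card (union_subset hO₀ hCX)
        rw [hnd]
        exact_mod_cast (by omega : O₀.card + C.card ≤ (O₀ ∩ C).card + X.card)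
      rw [← hnd, mul_assoc, ← hk]
      linarith
    · have h5 : ((P₁ \ C).card : ℝ) ≤ P₁.card := by exact_mod_cast card_le_card sdiff_subset
      rw [hP₁r] at h5
      rw [← hnd, mul_assoc, ← hh]
      linarith
  · intro w
    rw [hP₁m, hZgm, hSkm]
    have e1 : p - (X \ GO).card = a₀ := by omega
    rw [e1]
    constructor
    · rintro (h1 | h1 | h1)
      · exact Or.inr ⟨h1.1, by omega, by omega⟩
      · exact Or.inr ⟨h1.1, by omega, by omega⟩
      · exact Or.inl h1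
    · rintro (h1 | h1)
      · exact Or.inr (Or.inr h1)
      · by_cases h2 : π w < a
        · exact Or.inl ⟨h1.1, h2⟩
        · exact Or.inr (Or.inl ⟨h1.1, by omega, by omega⟩)
  · intro w
    have e1 : p - (X \ GO).card = a₀ := by omega
    rw [hP₂m, hZ₂m, e1, mem_sdiff, mem_sdiff]
    constructor
    · rintro (h1 | h1)
      · exact ⟨hZX h1.1, fun h2 => h2.2 (hZGO h1.1), fun _ => h1.2⟩
      · exact ⟨h1.1, fun h2 => h2.2 (hcov w h1.1 h1.2), fun h2 => absurd (hZGU h2) h1.2⟩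
    · rintro ⟨h1, h2, h3⟩
      by_cases h4 : w ∈ Z
      · exact Or.inl ⟨h4, h3 h4⟩
      · right
        refine ⟨h1, fun h5 => h4 (hZm.2 ⟨h5, ?_⟩)⟩
        by_contra h6
        exact h2 ⟨h1, h6⟩
  · intro w
    rw [List.mem_map]
    constructor
    · rintro ⟨i, hi, rfl⟩
      rw [List.mem_range] at hi
      obtain ⟨h1, h2⟩ := hgi i hi
      exact ⟨h1, by omega, by omega⟩
    · rintro ⟨h1, h2, h3⟩
      refine ⟨π w - a, List.mem_range.2 (by omega), ?_⟩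
      obtain ⟨h4, h5⟩ := hgi (π w - a) (by omega)
      exact hπ.inj _ h4 _ h1 (by omega)

/-- **Two nested cuts**: the first part of the smaller cut is contained in the first part of the larger one, except for
some of its `N` hosts -/
theorem gcut_lin2 (hT : AE32.Tour R) {X Bd Bd' : Finset V} {p p' N e : ℕ} {κ₀ η : ℝ} (h0 : 0 < κ₀)
    (hη : 20 * κ₀ ≤ η) (hη1 : η ≤ 1 / 8) (hN : 8 + 4 * (N * (e + 1) : ℕ) ≤ κ₀ * X.card) (hp : η * X.card ≤ p)
    (h01 : p ≤ p') (hpp : (p' : ℝ) ≤ p + η / 8 * X.card) (hp' : (p' : ℝ) + N + η * X.card ≤ X.card)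
    (hBd : Bd.card ≤ e) (hBd' : Bd'.card ≤ e) :
    ∃ (P₁ P₂ P₁' P₂' : Finset V) (ys ys' : List V), LCut R X Bd p N e κ₀ η P₁ P₂ ys ∧
      LCut R X Bd' p' N e κ₀ η P₁' P₂' ys' ∧ (∀ w ∈ P₁, w ∈ P₁' ∨ w ∈ ys') ∧ P₂' ⊆ P₂ ∧ (P₁ \ P₁').card ≤ N := by
  obtain ⟨F, Z, π, hπ, hF, hfam⟩ := gcut_lin_fam hT h0 hη hη1 hN hp h01 hpp hp'
  obtain ⟨a, P₁, P₂, ys, hc, hm, hm₂, hy, ha⟩ := hfam p le_rfl h01 Bd hBd
  obtain ⟨a', P₁', P₂', ys', hc', hm', hm₂', hy', ha'⟩ := hfam p' h01 le_rfl Bd' hBd'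
  have hP : ∀ w ∈ P₁, w ∈ P₁' ∨ w ∈ ys' := by
    intro w hw
    rw [hm] at hw
    rw [hm', hy']
    rcases hw with h1 | h1
    · exact Or.inl (Or.inl h1)
    · by_cases h2 : a' ≤ π w ∧ π w < a' + N
      · exact Or.inr ⟨h1.1, h2⟩
      · exact Or.inl (Or.inr ⟨h1.1, by omega, h2⟩)
  refine ⟨P₁, P₂, P₁', P₂', ys, ys', hc, hc', hP, ?_, ?_⟩
  · intro w hw
    rw [hm₂'] at hw
    rw [hm₂]
    exact ⟨hw.1, hw.2.1, fun h1 => by have := hw.2.2 h1; omega⟩
  · have h1 : P₁ \ P₁' ⊆ ys'.toFinset := by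
      intro w hw
      rw [mem_sdiff] at hw
      rw [List.mem_toFinset]
      exact (hP w hw.1).resolve_left hw.2
    exact (card_le_card h1).trans ((List.toFinset_card_le _).trans hc'.len.le)

end AEG
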