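import Pool.Agent.AEG.GDefs

/-!
# Median cuts
-/

namespace AEG

open Finset AE15 SPD AECut AEM
open scoped Classical

variable {V : Type*} {R : V → V → Prop}

/-- closed sets are at the end of a median order -/
theorem medO_closed {Z : Finset V} {p : V → ℕ} (h : MedO R Z p) (hT : AE32.Tour R) (C : Finset V) {k : ℝ} (hk : 0 ≤ k)
    (hC : ∀ z ∈ Z, z ∉ C → ((nI R C z).card : ℝ) ≤ k) {A B : Finset V} (hA : A ⊆ Z) (hAC : A ⊆ C) (hB : B ⊆ Z)
    (hBC : ∀ z ∈ B, z ∉ C) (hAB : ∀ w ∈ A, ∀ u ∈ B, p w < p u) :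
    (A.card : ℝ) * B.card ≤ 2 * k * Z.card := by
  rcases A.eq_empty_or_nonempty with h0 | ⟨a, ha⟩
  · rw [h0, card_empty, Nat.cast_zero, zero_mul]
    positivity
  -- the first vertex of `C`
  obtain ⟨x, hx, hxmin⟩ := exists_min_image (Z ∩ C) p ⟨a, mem_inter.2 ⟨hA ha, hAC ha⟩⟩
  rw [mem_inter] at hx
  obtain ⟨S, hS⟩ : ∃ S, S = Z.filter (fun w => w ∉ C ∧ p x < p w) := ⟨_, rfl⟩
  have hmS : ∀ {w}, w ∈ S ↔ w ∈ Z ∧ w ∉ C ∧ p x < p w := by intro w; rw [hS, mem_filter]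
  have hSZ : S ⊆ Z := fun w hw => (hmS.1 hw).1
  have h1 := h.front x hx.1 S hSZ (fun u hu => (hmS.1 hu).2.2)
  have h2 : ∀ u ∈ S, (Z.filter (fun w => w ∉ S ∧ p x ≤ p w ∧ p w < p u ∧ R w u)).card ≤ (nI R C u).card := by
    intro u hu
    apply card_le_card
    intro w hw
    rw [mem_filter] at hw
    rw [mem_nI]
    refine ⟨?_, hw.2.2.2.2⟩
    by_contra hwC
    apply hw.2.1
    rw [hmS]
    refine ⟨hw.1, hwC, lt_of_le_of_ne hw.2.2.1 (fun he => hwC ?_)⟩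
    rw [← h.inj x hx.1 w hw.1 he]
    exact hx.2
  have h3 : ∀ u ∈ B, u ∈ S := by
    intro u hu
    rw [hmS]
    refine ⟨hB hu, hBC u hu, ?_⟩
    exact lt_of_le_of_lt (hxmin a (mem_inter.2 ⟨hA ha, hAC ha⟩)) (hAB a ha u hu)
  have h4 : ∀ u ∈ B, A.card ≤ (Z.filter (fun w => w ∉ S ∧ p x ≤ p w ∧ p w < p u ∧ R w u)).card +
      (Z.filter (fun w => w ∉ S ∧ p x ≤ p w ∧ p w < p u ∧ R u w)).card := by
    intro u hu
    refine le_trans (card_le_card ?_) (card_union_le _ _)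
    intro w hw
    have hwC := hAC hw
    have hne : w ≠ u := fun e => hBC u hu (e ▸ hwC)
    have hwS : w ∉ S := fun h' => (hmS.1 h').2.1 hwC
    have hxw := hxmin w (mem_inter.2 ⟨hA hw, hwC⟩)
    rw [mem_union, mem_filter, mem_filter]
    rcases hT.tot w u hne with h5 | h5
    · exact Or.inl ⟨hA hw, hwS, hxw, hAB w hw u hu, h5⟩
    · exact Or.inr ⟨hA hw, hwS, hxw, hAB w hw u hu, h5⟩
  have h5 : (A.card : ℝ) * B.card ≤ ∑ u ∈ S, (((Z.filter (fun w => w ∉ S ∧ p x ≤ p w ∧ p w < p u ∧ R w u)).card : ℝ) +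
      (Z.filter (fun w => w ∉ S ∧ p x ≤ p w ∧ p w < p u ∧ R u w)).card) := by
    have h6 : (B.card : ℝ) * A.card ≤ ∑ u ∈ B, (((Z.filter (fun w => w ∉ S ∧ p x ≤ p w ∧ p w < p u ∧ R w u)).card : ℝ) +
        (Z.filter (fun w => w ∉ S ∧ p x ≤ p w ∧ p w < p u ∧ R u w)).card) := by
      rw [← nsmul_eq_mul]
      apply card_nsmul_le_sum
      intro u hu
      exact_mod_cast h4 u hu
    rw [mul_comm]
    refine h6.trans (sum_le_sum_of_subset_of_nonneg h3 ?_)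
    intro u _ _
    positivity
  rw [sum_add_distrib] at h5
  have h7 : ∑ u ∈ S, ((Z.filter (fun w => w ∉ S ∧ p x ≤ p w ∧ p w < p u ∧ R u w)).card : ℝ) ≤
      ∑ u ∈ S, ((Z.filter (fun w => w ∉ S ∧ p x ≤ p w ∧ p w < p u ∧ R w u)).card : ℝ) := by exact_mod_cast h1
  have h8 : ∑ u ∈ S, ((Z.filter (fun w => w ∉ S ∧ p x ≤ p w ∧ p w < p u ∧ R w u)).card : ℝ) ≤ k * S.card := by
    rw [mul_comm, ← nsmul_eq_mul]
    apply sum_le_card_nsmul
    intro u hu
    have h9 := hC u (hSZ hu) (hmS.1 hu).2.1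
    have h10 : ((Z.filter (fun w => w ∉ S ∧ p x ≤ p w ∧ p w < p u ∧ R w u)).card : ℝ) ≤ (nI R C u).card := by
      exact_mod_cast h2 u hu
    exact h10.trans h9
  have h9 : k * S.card ≤ k * Z.card := by
    apply mul_le_mul_of_nonneg_left _ hk
    exact_mod_cast card_le_card hSZ
  linarith

/-- the part of a median order behind the host `y`, after `e` further hosts -/
theorem medO_mcut {Z : Finset V} {p : V → ℕ} (h : MedO R Z p) (hT : AE32.Tour R) {y : V} (hy : y ∈ Z) (e : ℕ)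
    (he : p y + e < Z.card) : MCut R Z (Z.filter (fun w => p y + e < p w)) e y := by
  obtain ⟨Z₂, hZ₂⟩ : ∃ Z₂, Z₂ = Z.filter (fun w => p y + e < p w) := ⟨_, rfl⟩
  have hm : ∀ {w}, w ∈ Z₂ ↔ w ∈ Z ∧ p y + e < p w := by intro w; rw [hZ₂, mem_filter]
  rw [← hZ₂]
  have hsub : Z₂ ⊆ Z := fun w hw => (hm.1 hw).1
  have hc : Z₂.card = Z.card - (p y + e + 1) := by
    rw [← h.card_seg le_rfl, hZ₂]
    congr 1
    apply filter_congr
    intro w hw
    have := h.lt w hw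
    omega
  -- the few hosts behind `y`
  have hH : (Z.filter (fun w => p y < p w ∧ p w ≤ p y + e)).card ≤ e := by
    have h1 := h.card_seg (a := p y + 1) (b := p y + e + 1) (by omega)
    refine le_trans (le_of_eq ?_) (le_trans h1.le (by omega))
    congr 1
    apply filter_congr
    intro w _
    omega
  refine ⟨hy, hsub, fun h' => by have := (hm.1 h').2; omega, ?_, ?_⟩
  · have h1 := h.outdeg hT hy
    have h2 : (Z.filter (fun w => p y < p w ∧ R y w)).card ≤ (nO R Z₂ y).card + e := by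
      refine le_trans (card_le_card ?_) ((card_union_le _ _).trans (Nat.add_le_add_left hH _))
      intro w hw
      rw [mem_filter] at hw
      rw [mem_union, mem_nO, hm, mem_filter]
      rcases Nat.lt_or_ge (p y + e) (p w) with h3 | h3
      · exact Or.inl ⟨⟨hw.1, h3⟩, hw.2.2⟩
      · exact Or.inr ⟨hw.1, hw.2.1, h3⟩
    omega
  · intro j
    refine le_trans (card_le_card ?_) (h.few hT hy (j + e))
    intro u hu
    rw [mem_filter, hm] at hu
    rw [mem_filter]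
    refine ⟨hu.1.1, by omega, hu.2.1, ?_⟩
    have h3 : btw R Z p y u ⊆ nI R (nO R Z₂ y) u ∪ Z.filter (fun w => p y < p w ∧ p w ≤ p y + e) := by
      intro w hw
      rw [mem_btw] at hw
      rw [mem_union, mem_nI, mem_nO, hm, mem_filter]
      rcases Nat.lt_or_ge (p y + e) (p w) with h4 | h4
      · exact Or.inl ⟨⟨⟨hw.1, h4⟩, hw.2.2.2.1⟩, hw.2.2.2.2⟩
      · exact Or.inr ⟨hw.1, hw.2.1, h4⟩
    exact (card_le_card h3).trans ((card_union_le _ _).trans (Nat.add_le_add hu.2.2 hH))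

/-- **Median cuts.** -/
theorem exists_mcut (hT : AE32.Tour R) (Z : Finset V) (z₁ z₂ N : ℕ) (hN : 1 ≤ N) (h : Z.card = z₁ + z₂ + N) :
    ∃ (Z₁ Z₂ : Finset V) (y : ℕ → V), Z₁ ⊆ Z ∧ Z₂ ⊆ Z ∧ Z₁.card = z₁ ∧ Z₂.card = z₂ ∧ Disjoint Z₁ Z₂ ∧
      (∀ i < N, y i ∈ Z ∧ y i ∉ Z₁ ∧ y i ∉ Z₂) ∧ (∀ i < N, ∀ j < N, y i = y j → i = j) ∧
      Z = Z₁ ∪ Z₂ ∪ (range N).image y ∧ (∀ i, i + 1 < N → R (y i) (y (i + 1))) ∧
      (∀ i < N, MCut R Z Z₂ (N - 1 - i) (y i)) ∧ (∀ i < N, MCut (rv R) Z Z₁ i (y i)) ∧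
      (∀ (C : Finset V) (k : ℝ), 0 ≤ k → (∀ z ∈ Z, z ∉ C → ((nI R C z).card : ℝ) ≤ k) →
        ((Z₁ ∩ C).card : ℝ) * (Z₂ \ C).card ≤ 2 * k * Z.card) ∧
      (∀ (C : Finset V) (k : ℝ), 0 ≤ k → (∀ z ∈ Z, z ∉ C → ((nO R C z).card : ℝ) ≤ k) →
        ((Z₂ ∩ C).card : ℝ) * (Z₁ \ C).card ≤ 2 * k * Z.card) := by
  obtain ⟨p, hp⟩ := exists_medO R Z
  obtain ⟨v₀, hv₀⟩ : Z.Nonempty := card_pos.1 (by omega)
  have hch : ∀ i, ∃ v, i < N → v ∈ Z ∧ p v = z₁ + i := by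
    intro i
    by_cases hi : i < N
    · obtain ⟨v, hv, hv'⟩ := hp.exists_pos (show z₁ + i < Z.card by omega)
      exact ⟨v, fun _ => ⟨hv, hv'⟩⟩
    · exact ⟨v₀, fun h' => absurd h' hi⟩
  choose y hy using hch
  obtain ⟨Z₁, hZ₁⟩ : ∃ Z₁, Z₁ = Z.filter (fun w => p w < z₁) := ⟨_, rfl⟩
  obtain ⟨Z₂, hZ₂⟩ : ∃ Z₂, Z₂ = Z.filter (fun w => z₁ + N ≤ p w) := ⟨_, rfl⟩
  have hm1 : ∀ {w}, w ∈ Z₁ ↔ w ∈ Z ∧ p w < z₁ := by intro w; rw [hZ₁, mem_filter]
  have hm2 : ∀ {w}, w ∈ Z₂ ↔ w ∈ Z ∧ z₁ + N ≤ p w := by intro w; rw [hZ₂, mem_filter]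
  have hs1 : Z₁ ⊆ Z := fun w hw => (hm1.1 hw).1
  have hs2 : Z₂ ⊆ Z := fun w hw => (hm2.1 hw).1
  have hc1 : Z₁.card = z₁ := by
    have h1 := hp.card_seg (a := 0) (b := z₁) (by omega)
    rw [Nat.sub_zero] at h1
    rw [← h1, hZ₁]
    congr 1
    apply filter_congr
    intro w _
    omega
  have hc2 : Z₂.card = z₂ := by
    have h1 := hp.card_seg (a := z₁ + N) (b := Z.card) le_rfl
    have h2 : Z.card - (z₁ + N) = z₂ := by omega
    rw [h2] at h1
    rw [← h1, hZ₂]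
    congr 1
    apply filter_congr
    intro w hw
    have := hp.lt w hw
    omega
  have hout : ∀ i < N, MCut R Z Z₂ (N - 1 - i) (y i) := by
    intro i hi
    obtain ⟨h1, h2⟩ := hy i hi
    have h3 := medO_mcut hp hT h1 (N - 1 - i) (by omega)
    have h4 : Z.filter (fun w => p (y i) + (N - 1 - i) < p w) = Z₂ := by
      rw [hZ₂]
      apply filter_congr
      intro w _
      omega
    rwa [h4] at h3
  have hinn : ∀ i < N, MCut (rv R) Z Z₁ i (y i) := by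
    intro i hi
    obtain ⟨h1, h2⟩ := hy i hi
    have h5 : MedO (rv R) Z (fun u => Z.card - 1 - p u) := hp.rev
    have h3 := medO_mcut h5 (rv_tour hT) h1 i (by
      have := hp.lt _ h1
      show Z.card - 1 - p (y i) + i < Z.card
      omega)
    have h4 : Z.filter (fun w => Z.card - 1 - p (y i) + i < Z.card - 1 - p w) = Z₁ := by
      rw [hZ₁]
      apply filter_congr
      intro w hw
      have := hp.lt w hw
      omega
    rwa [h4] at h3
  refine ⟨Z₁, Z₂, y, hs1, hs2, hc1, hc2, ?_, ?_, ?_, ?_, ?_, hout, hinn, ?_, ?_⟩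
  · rw [disjoint_left]
    intro w h1 h2
    have h3 := (hm1.1 h1).2
    have h4 := (hm2.1 h2).2
    omega
  · intro i hi
    obtain ⟨h1, h2⟩ := hy i hi
    refine ⟨h1, fun h' => ?_, fun h' => ?_⟩
    · have := (hm1.1 h').2
      omega
    · have := (hm2.1 h').2
      omega
  · intro i hi j hj hij
    have h1 := (hy i hi).2
    have h2 := (hy j hj).2
    rw [hij] at h1
    omega
  · ext w
    rw [mem_union, mem_union, hm1, hm2, mem_image]
    constructor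
    · intro hw
      rcases Nat.lt_or_ge (p w) z₁ with h1 | h1
      · exact Or.inl (Or.inl ⟨hw, h1⟩)
      · rcases Nat.lt_or_ge (p w) (z₁ + N) with h2 | h2
        · right
          refine ⟨p w - z₁, mem_range.2 (by omega), ?_⟩
          obtain ⟨h3, h4⟩ := hy (p w - z₁) (by omega)
          exact hp.inj _ h3 _ hw (by omega)
        · exact Or.inl (Or.inr ⟨hw, h2⟩)
    · rintro ((h1 | h1) | ⟨i, hi, rfl⟩)
      · exact h1.1
      · exact h1.1
      · exact (hy i (mem_range.1 hi)).1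
  · intro i hi
    obtain ⟨h1, h2⟩ := hy i (by omega)
    obtain ⟨h3, h4⟩ := hy (i + 1) hi
    exact hp.succ hT h1 h3 (by omega)
  · intro C k hk hC
    refine medO_closed hp hT C hk hC (inter_subset_left.trans hs1) inter_subset_right (sdiff_subset.trans hs2)
      (fun z hz => (mem_sdiff.1 hz).2) ?_
    intro w hw u hu
    have h1 := (hm1.1 (mem_inter.1 hw).1).2
    have h2 := (hm2.1 (mem_sdiff.1 hu).1).2
    omega
  · intro C k hk hC
    have h5 : MedO (rv R) Z (fun u => Z.card - 1 - p u) := hp.rev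
    refine medO_closed h5 (rv_tour hT) C hk hC (inter_subset_left.trans hs2) inter_subset_right (sdiff_subset.trans hs1)
      (fun z hz => (mem_sdiff.1 hz).2) ?_
    intro w hw u hu
    have h0 := hm2.1 (mem_inter.1 hw).1
    have h1 := h0.2
    have h2 := (hm1.1 (mem_sdiff.1 hu).1).2
    have h3 := hp.lt w h0.1
    show Z.card - 1 - p w < Z.card - 1 - p u
    omega

end AEG
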