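import Pool.Agent.AEG.State
import Pool.Agent.AEG.ChainE
import Pool.Agent.AEG.Short

/-!
# The next state from the embedded part of the line

`embS_glue`: the part of the line which has been embedded at the hosts; its number of vertices; the rest of the line behind
the last host.
-/

set_option autoImplicit false

namespace AEG

open Finset AE15 AED AEB SPD
open scoped Classical

section lists

theorem zip_take_left {α β : Type*} (l : List α) (m : List β) : l.zip m = (l.take m.length).zip m := by
  induction m generalizing l with
  | nil => simp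
  | cons b m ih =>
    cases l with
    | nil => simp
    | cons a l => rw [List.length_cons, List.take_succ_cons, List.zip_cons_cons, List.zip_cons_cons, ← ih]

theorem zip_map_fst {α β : Type*} : ∀ (l : List α) (m : List β), l.length = m.length → (l.zip m).map Prod.fst = l
  | [], m, h => by simp
  | a :: l, [], h => by simp at h
  | a :: l, b :: m, h => by
    rw [List.zip_cons_cons, List.map_cons, zip_map_fst l m (by simpa using h)]

theorem zip_map_snd {α β : Type*} : ∀ (l : List α) (m : List β), l.length = m.length → (l.zip m).map Prod.snd = m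
  | [], m, h => by
    rw [List.length_nil] at h
    rw [List.length_eq_zero_iff.1 h.symm]
    rfl
  | a :: l, [], h => by simp at h
  | a :: l, b :: m, h => by
    rw [List.zip_cons_cons, List.map_cons, zip_map_snd l m (by simpa using h)]

theorem zip_map_pair {α β γ : Type*} (f : β → γ) : ∀ (l : List α) (m : List β),
    (l.zip m).map (fun p => (p.1, f p.2)) = l.zip (m.map f)
  | [], m => by simp
  | a :: l, [] => by simp
  | a :: l, b :: m => by
    rw [List.zip_cons_cons, List.map_cons, List.map_cons, List.zip_cons_cons, zip_map_pair f l m]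

/-- the first maximum -/
theorem exists_split_max {α : Type*} (f : α → ℕ) : ∀ (L : List α), L ≠ [] →
    ∃ pre a post, L = pre ++ a :: post ∧ ∀ x ∈ pre ++ post, f x ≤ f a
  | [], h => absurd rfl h
  | [a], _ => ⟨[], a, [], rfl, by simp⟩
  | a :: b :: L, _ => by
    obtain ⟨pre, c, post, h1, h2⟩ := exists_split_max f (b :: L) (by simp)
    rcases Nat.le_total (f a) (f c) with h | h
    · refine ⟨a :: pre, c, post, by rw [h1]; rfl, ?_⟩
      intro x hx
      rw [List.cons_append, List.mem_cons] at hx
      rcases hx with rfl | hx
      · exact h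
      · exact h2 x hx
    · refine ⟨[], a, b :: L, rfl, ?_⟩
      intro x hx
      rw [List.nil_append, h1, List.mem_append, List.mem_cons] at hx
      rcases hx with hx | rfl | hx
      · exact (h2 x (List.mem_append_left _ hx)).trans h
      · exact h
      · exact (h2 x (List.mem_append_right _ hx)).trans h

end lists

variable {V : Type} {R : V → V → Prop}

/-- **The embedded part of the line** -/
theorem embS_glue {X : Finset V} {Pn : V → Prop} {v z : V} {hs : List V} {line : List (Fd × Fd)} {At Dt : Finset V}
    (hlen : (v :: hs).length = line.length) (hnd : (v :: hs).Nodup) (hch : (v :: hs).IsChain R)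
    (hA : EmbAllB (rv R) ((v :: hs).zip (line.map Prod.fst)) At)
    (hD : EmbAllB R ((v :: hs).zip (line.map Prod.snd)) Dt) (hAD : Disjoint At Dt)
    (hh : ∀ h ∈ v :: hs, h ∈ X ∧ h ∉ At ∧ h ∉ Dt) (hAX : At ⊆ X) (hDX : Dt ⊆ X) (hz : (v :: hs).getLast? = some z)
    (hP : Pn v) {Us : Finset V} (hUs : Us = (v :: hs).toFinset ∪ (At ∪ Dt)) :
    Us.card = szS line ∧ Us ⊆ X ∧ ∀ L' : List (Fd × Fd), InS R L' (R z) (X \ Us) → InS R (line ++ L') Pn X := by
  have hA' : EmbAllB (rv R) (((v :: hs).zip line).map (fun p => (p.1, p.2.1))) At := by
    rw [zip_map_pair]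
    exact hA
  have hD' : EmbAllB R (((v :: hs).zip line).map (fun p => (p.1, p.2.2))) Dt := by
    rw [zip_map_pair]
    exact hD
  have hdis : Disjoint (v :: hs).toFinset (At ∪ Dt) := by
    rw [disjoint_left]
    intro h h1 h2
    rw [List.mem_toFinset] at h1
    rcases mem_union.1 h2 with h3 | h3
    · exact (hh h h1).2.1 h3
    · exact (hh h h1).2.2 h3
  obtain ⟨os, hos⟩ : ∃ os, os = (v :: hs).zip line := ⟨_, rfl⟩
  rw [← hos] at hA' hD'
  have hfst : os.map Prod.fst = v :: hs := by
    rw [hos]
    exact zip_map_fst _ _ hlen
  have hsnd : os.map Prod.snd = line := by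
    rw [hos]
    exact zip_map_snd _ _ hlen
  have hne : os ≠ [] := by
    intro h
    rw [h] at hfst
    simp at hfst
  have hhead : (os.head hne).1 = v := by
    have h1 : (os.map Prod.fst).head (by simpa using hne) = (os.head hne).1 := List.head_map ..
    have h2 := List.head?_eq_some_head (l := os.map Prod.fst) (by simpa using hne)
    have h3 : (os.map Prod.fst).head? = some v := by rw [hfst, List.head?_cons]
    rw [← h1]
    exact Option.some.inj (h2.symm.trans h3)
  have hlast : (os.getLast hne).1 = z := by
    have h1 : (os.map Prod.fst).getLast (by simpa using hne) = (os.getLast hne).1 := List.getLast_map ..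
    have h2 := List.getLast?_eq_some_getLast (l := os.map Prod.fst) (by simpa using hne)
    have h3 : (os.map Prod.fst).getLast? = some z := by rw [hfst, hz]
    rw [← h1]
    exact Option.some.inj (h2.symm.trans h3)
  have hvUs : v ∈ Us := by
    rw [hUs]
    exact mem_union_left _ (List.mem_toFinset.2 List.mem_cons_self)
  have hUsX : Us ⊆ X := by
    rw [hUs]
    refine union_subset ?_ (union_subset hAX hDX)
    intro h h1
    exact (hh h (List.mem_toFinset.1 h1)).1
  refine ⟨?_, hUsX, ?_⟩
  · rw [hUs, card_union_of_disjoint hdis, card_union_of_disjoint hAD, List.toFinset_card_of_nodup hnd, hlen]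
    have h1 : At.card = (line.map (fun q => q.1.size)).sum := by
      rw [EmbAllB.card hA', totB, List.map_map]
      rw [← hsnd, List.map_map]
      rfl
    have h2 : Dt.card = (line.map (fun q => q.2.size)).sum := by
      rw [EmbAllB.card hD', totB, List.map_map]
      rw [← hsnd, List.map_map]
      rfl
    rw [h1, h2, szS_eq]
    simp only [inS, outS]
    omega
  · rintro L' ⟨y, hy, hzy, S', hS', hyS, hE⟩
    rw [mem_sdiff] at hy
    have hT8 : Disjoint (insert y S') ((os.map Prod.fst).toFinset ∪ (At ∪ Dt)) := by
      rw [hfst, ← hUs, disjoint_left]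
      intro u hu huU
      rcases mem_insert.1 hu with rfl | hu
      · exact hy.2 huU
      · exact (mem_sdiff.1 (hS' hu)).2 huU
    have h1 := embS_chain (R := R) (L' := L') (T := insert y S') hne (by rw [hfst]; exact hnd) (by rw [hfst]; exact hch)
      hA' hD' hAD (by
        intro p hp
        have h2 : p.1 ∈ v :: hs := by
          rw [← hfst]
          exact List.mem_map.2 ⟨p, hp, rfl⟩
        exact (hh _ h2).2) (Or.inr ⟨y, S', hyS, rfl, by rw [hlast]; exact hzy, hE⟩) hT8
    rw [hsnd, hhead, hfst, ← hUs] at h1
    refine ⟨v, (hh v List.mem_cons_self).1, hP, _, ?_, notMem_erase _ _, h1⟩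
    intro u hu
    rcases mem_union.1 (mem_of_mem_erase hu) with h3 | h3
    · exact hUsX h3
    · rcases mem_insert.1 h3 with rfl | h3
      · exact hy.1
      · exact (mem_sdiff.1 (hS' h3)).1

end AEG
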