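import Pool.Agent.AEG.MidD
import Pool.Agent.AEG.State

/-!
# The round with a small second part: the line from its parts
-/

set_option autoImplicit false

namespace AEG

open Finset AE15 AED AEB SPD
open scoped Classical

variable {V : Type} {R : V → V → Prop}

theorem zip_take {α β : Type*} : ∀ (ys : List α) (L : List β), ys.zip L = (ys.take L.length).zip L
  | [], L => by simp
  | y :: ys, [] => by simp
  | y :: ys, t :: L => by
    rw [List.length_cons, List.take_succ_cons, List.zip_cons_cons, List.zip_cons_cons, zip_take ys L]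

theorem map_zip_fst' (f : Fd × Fd → Fd) (ys : List V) (L : List (Fd × Fd)) :
    (ys.zip L).map (fun p => (p.1, f p.2)) = ys.zip (L.map f) := by
  rw [List.zip_map_right]
  rfl

/-- **The line from the parts of the round** -/
theorem glueD {v a yl : V} {zs ys : List V} {l₁ l₂ qa : Fd × Fd} {pre post L' : List (Fd × Fd)} {X : Finset V}
    {Nn : V → Prop} {SA SD S₂ T : Finset V} (hz : zs.length = pre.length) (hy : post.length + 1 ≤ ys.length)
    (hnd : (v :: a :: (zs ++ ys)).Nodup) (hch : (v :: a :: (zs ++ ys)).IsChain R) (hv : Nn v)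
    (hyl : ys[post.length]? = some yl)
    (hA : EmbAllB (rv R) ((v, l₁.1) :: (a, l₂.1) :: (zs.zip (pre.map Prod.fst) ++ ys.zip ((qa :: post).map Prod.fst))) SA)
    (hD : EmbAllB R ((v, l₁.2) :: (a, l₂.2) :: zs.zip (pre.map Prod.snd)) SD)
    (hS : EmbAllB R (ys.zip ((qa :: post).map Prod.snd)) S₂) (hAD : Disjoint SA SD) (hAS : Disjoint SA S₂)
    (hDS : Disjoint SD S₂) (hh : ∀ z ∈ v :: a :: (zs ++ ys), z ∈ X ∧ z ∉ SA ∧ z ∉ SD ∧ z ∉ S₂ ∧ z ∉ T) (hAX : SA ⊆ X)
    (hDX : SD ⊆ X) (hSX : S₂ ⊆ X) (hTX : T ⊆ X)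
    (hL : (L' = [] ∧ T = ∅) ∨ ∃ z S', z ∉ S' ∧ T = insert z S' ∧ R yl z ∧ EmbS R L' z S')
    (hTA : Disjoint T SA) (hTD : Disjoint T SD) (hTS : Disjoint T S₂) :
    InS R (l₁ :: l₂ :: (pre ++ qa :: (post ++ L'))) Nn X := by
  obtain ⟨os, hos⟩ : ∃ os, os = (v, l₁) :: (a, l₂) :: (zs.zip pre ++ ys.zip (qa :: post)) := ⟨_, rfl⟩
  have hne : os ≠ [] := by rw [hos]; simp
  have hfst : os.map Prod.fst = v :: a :: (zs ++ ys.take (post.length + 1)) := by
    rw [hos, List.map_cons, List.map_cons, List.map_append, List.map_fst_zip hz.le, zip_take ys, List.map_fst_zip (by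
      rw [List.length_take]
      exact min_le_left _ _)]
    rfl
  have hsnd : os.map Prod.snd = l₁ :: l₂ :: (pre ++ qa :: post) := by
    rw [hos, List.map_cons, List.map_cons, List.map_append, List.map_snd_zip hz.ge, List.map_snd_zip (by
      rw [List.length_cons]
      exact hy)]
  have hpf : (v :: a :: (zs ++ ys.take (post.length + 1))) <+: (v :: a :: (zs ++ ys)) := by
    refine ⟨ys.drop (post.length + 1), ?_⟩
    rw [List.cons_append, List.cons_append, List.append_assoc, List.take_append_drop]
  have hmem : ∀ p ∈ os, p.1 ∈ v :: a :: (zs ++ ys) := by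
    intro p hp
    apply hpf.subset
    rw [← hfst]
    exact List.mem_map_of_mem hp
  have h3 : EmbAllB (rv R) (os.map (fun p => (p.1, p.2.1))) SA := by
    have h1 : os.map (fun p => (p.1, p.2.1)) =
        (v, l₁.1) :: (a, l₂.1) :: (zs.zip (pre.map Prod.fst) ++ ys.zip ((qa :: post).map Prod.fst)) := by
      rw [hos, List.map_cons, List.map_cons, List.map_append, map_zip_fst' Prod.fst, map_zip_fst' Prod.fst]
    rw [h1]
    exact hA
  have h4 : EmbAllB R (os.map (fun p => (p.1, p.2.2))) (SD ∪ S₂) := by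
    have h1 : os.map (fun p => (p.1, p.2.2)) =
        ((v, l₁.2) :: (a, l₂.2) :: zs.zip (pre.map Prod.snd)) ++ ys.zip ((qa :: post).map Prod.snd) := by
      rw [hos, List.map_cons, List.map_cons, List.map_append, map_zip_fst' Prod.snd, map_zip_fst' Prod.snd]
      rfl
    rw [h1]
    exact embAllB_append.2 ⟨SD, S₂, hDS, rfl, hD, hS⟩
  have hlast : (os.getLast hne).1 = yl := by
    have h1 : (os.map Prod.fst).getLast? = some yl := by
      rw [hfst, List.getLast?_cons, List.getLast?_cons, List.getLast?_append]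
      have h2 : (ys.take (post.length + 1)).getLast? = some yl := by
        rw [List.take_add_one, hyl, Option.toList_some, List.getLast?_append]
        simp
      rw [h2]
      simp
    rw [List.getLast?_map, List.getLast?_eq_some_getLast hne, Option.map_some, Option.some.injEq] at h1
    exact h1
  have hhead : (os.head hne).1 = v := by simp [hos]
  have hdis : Disjoint T ((os.map Prod.fst).toFinset ∪ (SA ∪ (SD ∪ S₂))) := by
    rw [disjoint_union_right, disjoint_union_right, disjoint_union_right]
    refine ⟨?_, hTA, hTD, hTS⟩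
    rw [disjoint_left]
    intro z hzT hz'
    rw [List.mem_toFinset, hfst] at hz'
    exact (hh z (hpf.subset hz')).2.2.2.2 hzT
  have h5 := embS_chain hne (L' := L') (T := T) (by rw [hfst]; exact hnd.sublist hpf.sublist) (by
    rw [hfst]
    have h6 := hch
    rw [show v :: a :: (zs ++ ys) = (v :: a :: (zs ++ ys.take (post.length + 1))) ++ ys.drop (post.length + 1) by
      rw [List.cons_append, List.cons_append, List.append_assoc, List.take_append_drop], List.isChain_append] at h6
    exact h6.1) h3 h4 (by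
    rw [disjoint_union_right]
    exact ⟨hAD, hAS⟩) (by
    intro p hp
    obtain ⟨-, k1, k2, k3, -⟩ := hh p.1 (hmem p hp)
    rw [mem_union, not_or]
    exact ⟨k1, k2, k3⟩) (by rw [hlast]; exact hL) hdis
  rw [hsnd, hhead] at h5
  have hLe : l₁ :: l₂ :: (pre ++ qa :: post) ++ L' = l₁ :: l₂ :: (pre ++ qa :: (post ++ L')) := by simp
  rw [hLe] at h5
  refine ⟨v, (hh v List.mem_cons_self).1, hv, _, ?_, notMem_erase _ _, h5⟩
  refine (erase_subset _ _).trans ?_
  apply union_subset (union_subset _ (union_subset hAX (union_subset hDX hSX))) hTX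
  intro z hz'
  rw [List.mem_toFinset, hfst] at hz'
  exact (hh z (hpf.subset hz')).1

end AEG
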