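import Pool.Agent.AEB.Heavy
import Pool.Agent.SPD.Defs
import Pool.Agent.AE32.Arb

/-!
# From an oriented tree with a directed path to a list of coded forests
-/

namespace AEG

open Finset Relation AE15 AED AEB
open scoped Classical

set_option linter.unusedSectionVars false

section glue

variable {τ : Type*} [Fintype τ] {E P : τ → τ → Prop}

/-- the forest `F` codes the trees below the vertices of the list `l`, which hang on `v` in the state `j` -/
def CodesL (E P : τ → τ → Prop) (b L : ℕ) (v : τ) (j : ℕ) (l : List τ) (F : Fd) : Prop :=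
  F.size = (l.map (fun c => (AE32.desc P c).card)).sum ∧ F.len = l.length ∧ F.Deg b ∧ InR L j F ∧
    (∀ q ∈ F.trees, ∃ c ∈ l, q.1 = decide (E v c)) ∧
    ∀ {V : Type} {R : V → V → Prop} {x : V} {S : Finset V}, Emb R F x S →
      ∃ f : τ → V, (∀ c ∈ l, Adj R (decide (E v c)) x (f c)) ∧ (∀ c ∈ l, ∀ a ∈ AE32.desc P c, f a ∈ S) ∧
        (∀ c ∈ l, ∀ a ∈ AE32.desc P c, ∀ c' ∈ l, ∀ a' ∈ AE32.desc P c', f a = f a' → a = a') ∧
        ∀ c ∈ l, ∀ a ∈ AE32.desc P c, ∀ a', P a a' → Adj R (decide (E a a')) (f a) (f a')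

/-- the forest `c` codes the trees below the children of `v`, in the state `j` -/
def Codes (E P : τ → τ → Prop) (b L : ℕ) (v : τ) (j : ℕ) (c : Fd) : Prop :=
  c.size + 1 = (AE32.desc P v).card ∧ c.len ≤ b ∧ c.Deg b ∧ InR L j c ∧
    ∀ {V : Type} {R : V → V → Prop} {x : V} {S : Finset V}, x ∉ S → Emb R c x S →
      ∃ f : τ → V, f v = x ∧ (∀ a ∈ AE32.desc P v, f a ∈ insert x S) ∧
        (∀ a ∈ AE32.desc P v, ∀ a' ∈ AE32.desc P v, f a = f a' → a = a') ∧
        ∀ a ∈ AE32.desc P v, ∀ a', P a a' → Adj R (decide (E a a')) (f a) (f a')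

theorem codesL_of (b L : ℕ) (v : τ) (j : ℕ) (l : List τ) (hl : l.Nodup)
    (hdis : ∀ c ∈ l, ∀ d ∈ l, c ≠ d → Disjoint (AE32.desc P c) (AE32.desc P d))
    (h : ∀ c ∈ l, (E v c → ∃ F, Codes E P b L c 0 F) ∧
      (¬ E v c → j + 1 ≤ L ∧ ∃ F, Codes E P b L c (j + 1) F)) : ∃ F, CodesL E P b L v j l F := by
  induction l with
  | nil =>
    refine ⟨.nil, rfl, rfl, trivial, trivial, by simp [Fd.trees], ?_⟩
    intro V R x S _
    exact ⟨fun _ => x, by simp, by simp, by simp, by simp⟩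
  | cons c l ih =>
    rw [List.nodup_cons] at hl
    obtain ⟨F, hF1, hF2, hF3, hF5, hF7, hF4⟩ := ih hl.2
      (fun c hc d hd => hdis c (List.mem_cons_of_mem _ hc) d (List.mem_cons_of_mem _ hd))
      (fun c hc => h c (List.mem_cons_of_mem _ hc))
    obtain ⟨h1, h2⟩ := h c List.mem_cons_self
    obtain ⟨G, j', hG5, hG1, hG2, hG3, hG6, hG4⟩ : ∃ G j',
        (if decide (E v c) then InR L 0 G else j + 1 ≤ L ∧ InR L (j + 1) G) ∧ Codes E P b L c j' G := by
      by_cases he : E v c
      · obtain ⟨G, hG⟩ := h1 he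
        refine ⟨G, 0, ?_, hG⟩
        simp only [he, decide_true, if_true]
        exact hG.2.2.2.1
      · obtain ⟨hj, G, hG⟩ := h2 he
        refine ⟨G, j + 1, ?_, hG⟩
        simp only [he, decide_false, Bool.false_eq_true, if_false]
        exact ⟨hj, hG.2.2.2.1⟩
    have hcl : ∀ d ∈ l, Disjoint (AE32.desc P c) (AE32.desc P d) := fun d hd =>
      hdis c List.mem_cons_self d (List.mem_cons_of_mem _ hd) (fun e => hl.1 (e ▸ hd))
    have hnot : ∀ d ∈ l, ∀ a ∈ AE32.desc P d, a ∉ AE32.desc P c := fun d hd a ha ha' =>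
      (Finset.disjoint_left.1 (hcl d hd)) ha' ha
    refine ⟨.node (decide (E v c)) G F, ?_, ?_, ⟨hG2, hG3, hF3⟩, ⟨hG5, hF5⟩, ?_, ?_⟩
    · simp only [Fd.size, List.map_cons, List.sum_cons, ← hF1, ← hG1]
      omega
    · simp [Fd.len, hF2]
    · intro q hq
      rw [Fd.trees, List.mem_cons] at hq
      rcases hq with rfl | hq
      · exact ⟨c, List.mem_cons_self, rfl⟩
      · obtain ⟨c', h1, h2⟩ := hF7 q hq
        exact ⟨c', List.mem_cons_of_mem _ h1, h2⟩
    · intro V R x S hS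
      obtain ⟨y, A, B, hy, hyA, hyB, hAB, rfl, hA, hB⟩ := hS
      obtain ⟨f₁, p1, p2, p3, p4⟩ := hG4 hyA hA
      obtain ⟨f₂, q1, q2, q3, q4⟩ := hF4 hB
      have hsep : Disjoint (insert y A) B := by
        rw [disjoint_insert_left]
        exact ⟨hyB, hAB⟩
      refine ⟨fun a => if a ∈ AE32.desc P c then f₁ a else f₂ a, ?_, ?_, ?_, ?_⟩
      · intro d hd
        rcases List.mem_cons.1 hd with rfl | hd
        · simp only [AE32.self_mem_desc, if_true, p1]
          exact hy
        · simp only [hnot d hd d (AE32.self_mem_desc d), if_false]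
          exact q1 d hd
      · intro d hd a ha
        rcases List.mem_cons.1 hd with rfl | hd
        · simp only [ha, if_true]
          have := p2 a ha
          rw [mem_insert] at this
          simp only [mem_insert, mem_union]
          tauto
        · simp only [hnot d hd a ha, if_false]
          exact mem_insert_of_mem (mem_union_right _ (q2 d hd a ha))
      · intro d hd a ha d' hd' a' ha' haa
        rcases List.mem_cons.1 hd with e | hd1
        · rw [e] at ha
          rcases List.mem_cons.1 hd' with e' | hd2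
          · rw [e'] at ha'
            simp only [ha, ha', if_true] at haa
            exact p3 a ha a' ha' haa
          · simp only [ha, if_true, hnot d' hd2 a' ha', if_false] at haa
            exact absurd (haa ▸ q2 d' hd2 a' ha') ((Finset.disjoint_left.1 hsep) (p2 a ha))
        · rcases List.mem_cons.1 hd' with e' | hd2
          · rw [e'] at ha'
            simp only [ha', if_true, hnot d hd1 a ha, if_false] at haa
            exact absurd (haa.symm ▸ q2 d hd1 a ha) ((Finset.disjoint_left.1 hsep) (p2 a' ha'))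
          · simp only [hnot d hd1 a ha, hnot d' hd2 a' ha', if_false] at haa
            exact q3 d hd1 a ha d' hd2 a' ha' haa
      · intro d hd a ha a' haa
        rcases List.mem_cons.1 hd with rfl | hd
        · have ha' : a' ∈ AE32.desc P d := AE32.mem_desc.2 ((AE32.mem_desc.1 ha).tail haa)
          simp only [ha, ha', if_true]
          exact p4 a ha a' haa
        · have ha' : a' ∈ AE32.desc P d := AE32.mem_desc.2 ((AE32.mem_desc.1 ha).tail haa)
          simp only [hnot d hd a ha, hnot d hd a' ha', if_false]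
          exact q4 d hd a ha a' haa

/-- a directed walk with `j` arcs starts at `v`, goes towards the root and stays in `D` -/
def Wk (E P : τ → τ → Prop) (D : τ → Prop) (j : ℕ) (v : τ) : Prop :=
  ∃ f : ℕ → τ, f 0 = v ∧ (∀ i ≤ j, D (f i)) ∧ ∀ i < j, E (f i) (f (i + 1)) ∧ P (f (i + 1)) (f i)

theorem wk_zero {D : τ → Prop} {v : τ} (hv : D v) : Wk E P D 0 v :=
  ⟨fun _ => v, rfl, fun _ _ => hv, fun i hi => by omega⟩

theorem wk_succ {D : τ → Prop} {j : ℕ} {v w : τ} (h : Wk E P D j v) (hw : E w v) (hP : P v w) (hD : D w) :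
    Wk E P D (j + 1) w := by
  obtain ⟨f, h1, h3, h2⟩ := h
  refine ⟨fun i => match i with
    | 0 => w
    | i + 1 => f i, rfl, ?_, ?_⟩
  · intro i hi
    cases i with
    | zero => exact hD
    | succ i => exact h3 i (by omega)
  · intro i hi
    cases i with
    | zero =>
      show E w (f 0) ∧ P (f 0) w
      rw [h1]
      exact ⟨hw, hP⟩
    | succ i => exact h2 i (by omega)

theorem wk_le {D : τ → Prop} {l : ℕ}
    (h7 : ∀ f : ℕ → τ, ¬ ∀ i ≤ l, E (f i) (f (i + 1)) ∧ P (f (i + 1)) (f i) ∧ D (f i)) {j : ℕ} {v : τ}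
    (h : Wk E P D j v) : j ≤ l := by
  obtain ⟨f, -, h3, h2⟩ := h
  by_contra hj
  push Not at hj
  exact h7 f fun i hi => ⟨(h2 i (by omega)).1, (h2 i (by omega)).2, h3 i (by omega)⟩

theorem codes_of {D : τ → Prop} (hD : ∀ a c, D a → P a c → D c) {h : τ → ℕ} (hE : ∀ a b, P a b → h a < h b) (hin : ∀ a b c, P a c → P b c → a = b)
    (hP : ∀ a c, P a c → E a c ∨ E c a) {b L : ℕ} (hout : ∀ v, {w | E v w ∨ E w v}.ncard ≤ b)
    (h7 : ∀ f : ℕ → τ, ¬ ∀ i ≤ L, E (f i) (f (i + 1)) ∧ P (f (i + 1)) (f i) ∧ D (f i)) (n : ℕ) :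
    ∀ v j, D v → (AE32.desc P v).card = n → Wk E P D j v → ∃ c, Codes E P b L v j c := by
  induction n using Nat.strong_induction_on with
  | _ n ih =>
    intro v j hDv hv hw
    set ch : Finset τ := univ.filter (fun w => P v w) with hch
    have hmem : ∀ c, c ∈ ch.toList ↔ P v c := by
      intro c
      rw [Finset.mem_toList, hch, mem_filter]
      simp
    have hlt : ∀ c ∈ ch.toList, (AE32.desc P c).card < n := by
      intro c hc
      rw [← hv]
      refine card_lt_card ⟨AE32.desc_subset ((hmem c).1 hc), fun hcon => ?_⟩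
      exact AE32.notMem_desc hE ((hmem c).1 hc) (hcon (AE32.self_mem_desc v))
    obtain ⟨F, hF1, hF2, hF3, hF5, -, hF4⟩ := codesL_of (E := E) (P := P) b L v j ch.toList (Finset.nodup_toList _)
      (fun c hc d hd hcd => AE32.desc_disjoint hE hin ((hmem c).1 hc) ((hmem d).1 hd) hcd)
      (fun c hc => by
        refine ⟨fun he => ?_, fun he => ?_⟩
        · exact ih _ (hlt c hc) c 0 (hD v c hDv ((hmem c).1 hc)) rfl (wk_zero (hD v c hDv ((hmem c).1 hc)))
        · have h0 : E c v := (hP _ _ ((hmem c).1 hc)).resolve_left he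
          have h1 : Wk E P D (j + 1) c := wk_succ hw h0 ((hmem c).1 hc) (hD v c hDv ((hmem c).1 hc))
          exact ⟨wk_le h7 h1, ih _ (hlt c hc) c (j + 1) (hD v c hDv ((hmem c).1 hc)) rfl h1⟩)
    have hdesc : AE32.desc P v = insert v (ch.biUnion (AE32.desc P)) := by
      ext x
      rw [mem_insert, mem_biUnion, AE32.mem_desc, ReflTransGen.cases_head_iff]
      constructor
      · rintro (h1 | ⟨c, h1, h2⟩)
        · exact Or.inl h1.symm
        · exact Or.inr ⟨c, by simp [hch, h1], AE32.mem_desc.2 h2⟩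
      · rintro (h1 | ⟨c, h1, h2⟩)
        · exact Or.inl h1.symm
        · exact Or.inr ⟨c, by simpa [hch] using h1, AE32.mem_desc.1 h2⟩
    have hnv : v ∉ ch.biUnion (AE32.desc P) := by
      rw [mem_biUnion]
      rintro ⟨c, h1, h2⟩
      exact AE32.notMem_desc hE (by simpa [hch] using h1) h2
    refine ⟨F, ?_, ?_, hF3, hF5, ?_⟩
    · rw [hdesc, card_insert_of_notMem hnv, card_biUnion, hF1]
      · congr 1
        rw [Finset.sum_map_toList]
      · intro c hc d hd hcd
        exact AE32.desc_disjoint hE hin (by simpa [hch] using hc) (by simpa [hch] using hd) hcd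
    · rw [hF2, Finset.length_toList, hch]
      have h1 := hout v
      have h2 : {w | P v w}.ncard ≤ {w | E v w ∨ E w v}.ncard :=
        Set.ncard_le_ncard (fun w hw => hP v w hw) (Set.toFinite _)
      have h3 := h2.trans h1
      rwa [Set.ncard_eq_toFinset_card', Set.toFinset_ofPred] at h3
    · intro V R x S hxS hS
      obtain ⟨f, q1, q2, q3, q4⟩ := hF4 hS
      have hcase : ∀ a ∈ AE32.desc P v, a = v ∨ ∃ c ∈ ch.toList, a ∈ AE32.desc P c := by
        intro a ha
        rw [hdesc, mem_insert, mem_biUnion] at ha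
        rcases ha with h1 | ⟨c, h1, h2⟩
        · exact Or.inl h1
        · exact Or.inr ⟨c, Finset.mem_toList.2 h1, h2⟩
      have hne : ∀ c ∈ ch.toList, ∀ a ∈ AE32.desc P c, a ≠ v := by
        rintro c hc a ha rfl
        exact AE32.notMem_desc hE ((hmem c).1 hc) ha
      refine ⟨fun a => if a = v then x else f a, by simp, ?_, ?_, ?_⟩
      · intro a ha
        rcases hcase a ha with rfl | ⟨c, hc, hac⟩
        · simp
        · simp only [hne c hc a hac, if_false]
          exact mem_insert_of_mem (q2 c hc a hac)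
      · intro a ha a' ha' haa
        rcases hcase a ha with rfl | ⟨c, hc, hac⟩
        · rcases hcase a' ha' with rfl | ⟨c', hc', hac'⟩
          · rfl
          · simp only [if_true, hne c' hc' a' hac', if_false] at haa
            exact absurd (haa ▸ q2 c' hc' a' hac') hxS
        · rcases hcase a' ha' with rfl | ⟨c', hc', hac'⟩
          · simp only [if_true, hne c hc a hac, if_false] at haa
            exact absurd (haa.symm ▸ q2 c hc a hac) hxS
          · simp only [hne c hc a hac, hne c' hc' a' hac', if_false] at haa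
            exact q3 c hc a hac c' hc' a' hac' haa
      · intro a ha a' haa
        have ha'v : a' ≠ v := by
          rintro rfl
          have h1 := AE32.rank_le hE (AE32.mem_desc.1 ha)
          have h2 := hE _ _ haa
          omega
        rcases hcase a ha with rfl | ⟨c, hc, hac⟩
        · simp only [if_true, ha'v, if_false]
          exact q1 a' ((hmem a').2 haa)
        · simp only [hne c hc a hac, ha'v, if_false]
          exact q4 c hc a hac a' haa

/-- in a tree every vertex has at most one neighbour which is closer to a fixed vertex -/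
theorem parent_unique {G : SimpleGraph τ} (hG : G.IsTree) (ρ : τ) {a b c : τ} (ha : G.Adj a c)
    (hb : G.Adj b c) (h1 : G.dist ρ c = G.dist ρ a + 1) (h2 : G.dist ρ c = G.dist ρ b + 1) : a = b := by
  obtain ⟨p, hp⟩ := hG.connected.exists_walk_length_eq_dist ρ a
  obtain ⟨q, hq⟩ := hG.connected.exists_walk_length_eq_dist ρ b
  have hp' : (p.concat ha).IsPath := by
    apply SimpleGraph.Walk.isPath_of_length_eq_dist
    rw [SimpleGraph.Walk.length_concat, hp, h1]
  have hq' : (q.concat hb).IsPath := by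
    apply SimpleGraph.Walk.isPath_of_length_eq_dist
    rw [SimpleGraph.Walk.length_concat, hq, h2]
  have he : p.concat ha = q.concat hb := (hG.existsUnique_path ρ c).unique hp' hq'
  have h3 := congrArg (fun w => w.penultimate) he
  simpa using h3

theorem root_reach {G : SimpleGraph τ} (hG : G.IsTree) (ρ : τ) (n : ℕ) :
    ∀ v, G.dist ρ v = n → ReflTransGen (fun a c => G.Adj a c ∧ G.dist ρ c = G.dist ρ a + 1) ρ v := by
  induction n with
  | zero =>
    intro v hv
    rw [hG.connected.dist_eq_zero_iff] at hv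
    rw [hv]
  | succ n ih =>
    intro v hv
    obtain ⟨p, hp⟩ := hG.connected.exists_walk_length_eq_dist ρ v
    have hnil : ¬ p.Nil := by
      intro hn
      have := SimpleGraph.Walk.length_eq_zero_iff.2 hn
      omega
    have hadj := p.adj_penultimate hnil
    have h1 : G.dist ρ p.penultimate = n := by
      have h2 := SimpleGraph.dist_le p.dropLast
      have h3 : p.dropLast.length + 1 = p.length := by
        have := congrArg SimpleGraph.Walk.length (p.concat_dropLast hadj)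
        rw [SimpleGraph.Walk.length_concat] at this
        exact this
      rcases hG.dist_eq_dist_add_one_of_adj ρ hadj with h4 | h4
      · omega
      · omega
    exact (ih _ h1).tail ⟨hadj, by omega⟩


/-- the trees below some children of `v`, all of them joined to `v` by arcs away from `v`, as a coded forest -/
theorem side_gen {h : τ → ℕ} (hE : ∀ a b, P a b → h a < h b) (hin : ∀ a b c, P a c → P b c → a = b)
    (hP : ∀ a c, P a c → E a c ∨ E c a) {b l : ℕ} (hdeg : ∀ v, {w | E v w ∨ E w v}.ncard ≤ b) (v : τ) (K : Finset τ)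
    (hK : ∀ u ∈ K, E v u ∧ P v u)
    (h7 : ∀ u ∈ K, ∀ f : ℕ → τ, ¬ ∀ i ≤ l, E (f i) (f (i + 1)) ∧ P (f (i + 1)) (f i) ∧ ReflTransGen P u (f i)) :
    ∃ F : Fd, F.size = (K.biUnion (AE32.desc P)).card ∧ F.len ≤ b ∧ F.Deg b ∧ InR l 0 F ∧
      (∀ q ∈ F.trees, q.1 = true) ∧ ∀ {V : Type} {R : V → V → Prop} {x : V} {S : Finset V}, Emb R F x S →
        ∃ f : τ → V, (∀ u ∈ K, R x (f u)) ∧ (∀ a ∈ K.biUnion (AE32.desc P), f a ∈ S) ∧
          (∀ a ∈ K.biUnion (AE32.desc P), ∀ a' ∈ K.biUnion (AE32.desc P), f a = f a' → a = a') ∧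
          ∀ a ∈ K.biUnion (AE32.desc P), ∀ a', P a a' → Adj R (decide (E a a')) (f a) (f a') := by
  obtain ⟨F, a1, a2, a3, a5, a6, a4⟩ := codesL_of (E := E) (P := P) b l v 0 K.toList (nodup_toList _)
    (fun c hc d hd hcd => AE32.desc_disjoint hE hin (hK c (mem_toList.1 hc)).2 (hK d (mem_toList.1 hd)).2 hcd)
    (fun u hu => ⟨fun he => codes_of (D := fun w => ReflTransGen P u w) (fun a c h1 h2 => h1.tail h2) hE hin hP hdeg
      (h7 u (mem_toList.1 hu)) _ u 0 ReflTransGen.refl rfl (wk_zero ReflTransGen.refl),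
      fun he => absurd (hK u (mem_toList.1 hu)).1 he⟩)
  refine ⟨F, ?_, ?_, a3, a5, ?_, ?_⟩
  · rw [a1, card_biUnion, Finset.sum_map_toList]
    intro c hc d hd hcd
    exact AE32.desc_disjoint hE hin (hK c hc).2 (hK d hd).2 hcd
  · rw [a2, length_toList]
    refine le_trans ?_ (hdeg v)
    rw [← Set.ncard_coe_finset]
    refine Set.ncard_le_ncard ?_ (Set.toFinite _)
    intro w hw
    exact Or.inl (hK w hw).1
  · intro q hq
    obtain ⟨c, h1, h2⟩ := a6 q hq
    rw [h2, decide_eq_true_eq]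
    exact (hK c (mem_toList.1 h1)).1
  · intro V R x S hS
    obtain ⟨f, p1, p2, p3, p4⟩ := a4 hS
    refine ⟨f, ?_, ?_, ?_, ?_⟩
    · intro u hu
      have := p1 u (mem_toList.2 hu)
      simpa [Adj, (hK u hu).1] using this
    · intro a ha
      obtain ⟨c, hc, hac⟩ := mem_biUnion.1 ha
      exact p2 c (mem_toList.2 hc) a hac
    · intro a ha a' ha' haa
      obtain ⟨c, hc, hac⟩ := mem_biUnion.1 ha
      obtain ⟨c', hc', hac'⟩ := mem_biUnion.1 ha'
      exact p3 c (mem_toList.2 hc) a hac c' (mem_toList.2 hc') a' hac' haa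
    · intro a ha a' haa
      obtain ⟨c, hc, hac⟩ := mem_biUnion.1 ha
      exact p4 c (mem_toList.2 hc) a hac a' haa

/-- the arcs between `a` and `c` are preserved -/
def Ok {V : Type} (E : τ → τ → Prop) (R : V → V → Prop) (f : τ → V) (a c : τ) : Prop :=
  (E a c → R (f a) (f c)) ∧ (E c a → R (f c) (f a))

/-- an embedding of the vertices of `D`, which hang on `v`, placed at `x` -/
def Blk {V : Type} (E P : τ → τ → Prop) (R : V → V → Prop) (v : τ) (x : V) (D : Finset τ) (S : Finset V) (f : τ → V) : Prop :=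
  (∀ a ∈ D, f a ∈ S) ∧ (∀ a ∈ D, ∀ a' ∈ D, f a = f a' → a = a') ∧
    (∀ a ∈ D, P v a → (E v a → R x (f a)) ∧ (E a v → R (f a) x)) ∧ ∀ a ∈ D, ∀ a', P a a' → a' ∈ D ∧ Ok E R f a a'

/-- an embedding of the tree below `v` with `v` placed at `x` -/
def Dec {V : Type} (E P : τ → τ → Prop) (R : V → V → Prop) (v : τ) (x : V) (S : Finset V) : Prop :=
  ∃ f : τ → V, f v = x ∧ (∀ a ∈ AE32.desc P v, f a ∈ insert x S) ∧
    (∀ a ∈ AE32.desc P v, ∀ a' ∈ AE32.desc P v, f a = f a' → a = a') ∧
    ∀ a ∈ AE32.desc P v, ∀ a', P a a' → Ok E R f a a'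

theorem Blk.union {V : Type} {R : V → V → Prop} {v : τ} {x : V} {D₁ D₂ : Finset τ} {S₁ S₂ : Finset V} {f₁ f₂ : τ → V}
    (h1 : Blk E P R v x D₁ S₁ f₁) (h2 : Blk E P R v x D₂ S₂ f₂) (hD : Disjoint D₁ D₂) (hS : Disjoint S₁ S₂) :
    Blk E P R v x (D₁ ∪ D₂) (S₁ ∪ S₂) (fun a => if a ∈ D₁ then f₁ a else f₂ a) := by
  have hn : ∀ a ∈ D₂, a ∉ D₁ := fun a h2 h1 => (Finset.disjoint_left.1 hD) h1 h2
  obtain ⟨a1, a2, a3, a4⟩ := h1
  obtain ⟨b1, b2, b3, b4⟩ := h2
  refine ⟨?_, ?_, ?_, ?_⟩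
  · intro a ha
    rcases mem_union.1 ha with h | h
    · simp only [h, if_true]; exact mem_union_left _ (a1 a h)
    · simp only [hn a h, if_false]; exact mem_union_right _ (b1 a h)
  · intro a ha a' ha' haa
    rcases mem_union.1 ha with h | h <;> rcases mem_union.1 ha' with h' | h'
    · simp only [h, h', if_true] at haa
      exact a2 a h a' h' haa
    · simp only [h, hn a' h', if_true, if_false] at haa
      exact absurd (haa ▸ b1 a' h') ((Finset.disjoint_left.1 hS) (a1 a h))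
    · simp only [hn a h, h', if_true, if_false] at haa
      exact absurd (haa.symm ▸ b1 a h) ((Finset.disjoint_left.1 hS) (a1 a' h'))
    · simp only [hn a h, hn a' h', if_false] at haa
      exact b2 a h a' h' haa
  · intro a ha hva
    rcases mem_union.1 ha with h | h
    · simp only [h, if_true]; exact a3 a h hva
    · simp only [hn a h, if_false]; exact b3 a h hva
  · intro a ha a' haa
    rcases mem_union.1 ha with h | h
    · obtain ⟨c1, c2⟩ := a4 a h a' haa
      refine ⟨mem_union_left _ c1, ?_⟩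
      simp only [Ok, h, c1, if_true]
      exact c2
    · obtain ⟨c1, c2⟩ := b4 a h a' haa
      refine ⟨mem_union_right _ c1, ?_⟩
      simp only [Ok, hn a h, hn a' c1, if_false]
      exact c2

theorem Blk.root {V : Type} {R : V → V → Prop} {v : τ} {x : V} {D : Finset τ} {S : Finset V} {f : τ → V}
    (h : Blk E P R v x D S f) (hv : v ∉ D) (hd : AE32.desc P v = insert v D) (hx : x ∉ S)
    (hch : ∀ a, P v a → a ∈ D) : Dec E P R v x S := by
  obtain ⟨a1, a2, a3, a4⟩ := h
  have hne : ∀ a ∈ D, a ≠ v := fun a h h' => hv (h' ▸ h)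
  refine ⟨fun a => if a = v then x else f a, by simp, ?_, ?_, ?_⟩
  · intro a ha
    rw [hd, mem_insert] at ha
    rcases ha with rfl | ha
    · simp
    · simp only [hne a ha, if_false]
      exact mem_insert_of_mem (a1 a ha)
  · intro a ha a' ha' haa
    rw [hd, mem_insert] at ha ha'
    rcases ha with rfl | ha <;> rcases ha' with rfl | ha'
    · rfl
    · simp only [if_true, hne a' ha', if_false] at haa
      exact absurd (haa ▸ a1 a' ha') hx
    · simp only [if_true, hne a ha, if_false] at haa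
      exact absurd (haa.symm ▸ a1 a ha) hx
    · simp only [hne a ha, hne a' ha', if_false] at haa
      exact a2 a ha a' ha' haa
  · intro a ha a' haa
    rw [hd, mem_insert] at ha
    rcases ha with rfl | ha
    · have h1 := hch a' haa
      simp only [Ok, if_true, hne a' h1, if_false]
      exact a3 a' h1 haa
    · obtain ⟨c1, c2⟩ := a4 a ha a' haa
      simp only [Ok, hne a ha, hne a' c1, if_false]
      exact c2

/-- the tree below a child, as a block -/
theorem Dec.blk {V : Type} {R : V → V → Prop} {h : τ → ℕ} (hE : ∀ a b, P a b → h a < h b)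
    (hin : ∀ a b c, P a c → P b c → a = b) {v w : τ} {x z : V} {S : Finset V} (hvw : P v w) (hEv : E v w)
    (hEw : ¬ E w v) (hxz : R x z) (hd : Dec E P R w z S) : ∃ f, Blk E P R v x (AE32.desc P w) (insert z S) f := by
  obtain ⟨f, h1, h2, h3, h4⟩ := hd
  refine ⟨f, h2, h3, ?_, fun a ha a' haa => ⟨AE32.mem_desc.2 ((AE32.mem_desc.1 ha).tail haa), h4 a ha a' haa⟩⟩
  intro a ha hva
  have haw : a = w := by
    by_contra hne
    exact (Finset.disjoint_left.1 (AE32.desc_disjoint hE hin hva hvw hne)) (AE32.self_mem_desc a) ha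
  subst haw
  rw [h1]
  exact ⟨fun _ => hxz, fun h => absurd h hEw⟩

end glue

/-- the main line with its side trees: the vertex of the main line in the middle of the pair `(A, D)` is placed at `y`, the
trees of `A` (coded for the reversed tournament) and of `D` hang on it, and the rest of the line follows -/
def EmbS {V : Type*} (R : V → V → Prop) : List (Fd × Fd) → V → Finset V → Prop
  | [], _, _ => False
  | [q], y, S => ∃ S₁ S₂, Disjoint S₁ S₂ ∧ S = S₁ ∪ S₂ ∧ Emb (SPD.rv R) q.1 y S₁ ∧ Emb R q.2 y S₂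
  | q :: q' :: L, y, S => ∃ S₁ S₂ z S₃, Disjoint S₁ S₂ ∧ Disjoint (S₁ ∪ S₂) (insert z S₃) ∧ z ∉ S₃ ∧ R y z ∧
      S = (S₁ ∪ S₂) ∪ insert z S₃ ∧ Emb (SPD.rv R) q.1 y S₁ ∧ Emb R q.2 y S₂ ∧ EmbS R (q' :: L) z S₃

section line

variable {τ : Type*} [Fintype τ] {E P : τ → τ → Prop}

/-- one vertex of the line: the side trees -/
theorem sides {h : τ → ℕ} (hE : ∀ a b, P a b → h a < h b) (hin : ∀ a b c, P a c → P b c → a = b)
    (hP : ∀ a c, P a c → E a c ∨ E c a) (has : ∀ a c, E a c → ¬ E c a) {b l : ℕ}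
    (hdeg : ∀ v, {w | E v w ∨ E w v}.ncard ≤ b) (v : τ) (M : Finset τ) (hM : ∀ u ∈ M, E v u ∧ P v u)
    (h7 : ∀ u, u ∉ M → P v u → E v u → ∀ f : ℕ → τ, ¬ ∀ i ≤ l, E (f i) (f (i + 1)) ∧ P (f (i + 1)) (f i) ∧
      ReflTransGen P u (f i))
    (h8 : ∀ u, u ∉ M → P v u → E u v → ∀ f : ℕ → τ, ¬ ∀ i ≤ l, E (f (i + 1)) (f i) ∧ P (f (i + 1)) (f i) ∧
      ReflTransGen P u (f i)) :
    ∃ (A D : Fd) (B : Finset τ), FOK b l 0 A ∧ FOK b l 0 D ∧ (∀ q ∈ A.trees, q.1 = true) ∧ (∀ q ∈ D.trees, q.1 = true) ∧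
      A.size + D.size = B.card ∧ Disjoint B (M.biUnion (AE32.desc P)) ∧
      AE32.desc P v = insert v (B ∪ M.biUnion (AE32.desc P)) ∧ v ∉ B ∪ M.biUnion (AE32.desc P) ∧
      (∀ a, P v a → a ∈ B ∪ M.biUnion (AE32.desc P)) ∧
      ∀ {V : Type} {R : V → V → Prop} {x : V} {S₁ S₂ : Finset V}, Disjoint S₁ S₂ → Emb (SPD.rv R) A x S₁ →
        Emb R D x S₂ → ∃ f, Blk E P R v x B (S₁ ∪ S₂) f := by
  set K₂ : Finset τ := univ.filter (fun u => u ∉ M ∧ P v u ∧ E v u) with hK2
  set K₁ : Finset τ := univ.filter (fun u => u ∉ M ∧ P v u ∧ E u v) with hK1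
  have m2 : ∀ u, u ∈ K₂ ↔ u ∉ M ∧ P v u ∧ E v u := by simp [hK2]
  have m1 : ∀ u, u ∈ K₁ ↔ u ∉ M ∧ P v u ∧ E u v := by simp [hK1]
  obtain ⟨D, a1, a2, a3, a4, a5, a6⟩ := side_gen (E := E) hE hin hP hdeg v K₂
    (fun u hu => ⟨((m2 u).1 hu).2.2, ((m2 u).1 hu).2.1⟩) (fun u hu => h7 u ((m2 u).1 hu).1 ((m2 u).1 hu).2.1 ((m2 u).1 hu).2.2)
  obtain ⟨A, b1, b2, b3, b4, b5, b6⟩ := side_gen (E := fun a c => E c a) (b := b) hE hin (fun a c h => (hP a c h).symm)
    (fun w => by
      have := hdeg w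
      rw [show {u | E u w ∨ E w u} = {u | E w u ∨ E u w} from by ext u; simp [or_comm]]
      exact this) v K₁
    (fun u hu => ⟨((m1 u).1 hu).2.2, ((m1 u).1 hu).2.1⟩) (fun u hu => h8 u ((m1 u).1 hu).1 ((m1 u).1 hu).2.1 ((m1 u).1 hu).2.2)
  have hdj : ∀ K K' : Finset τ, (∀ u ∈ K, P v u) → (∀ u ∈ K', P v u) → Disjoint K K' →
      Disjoint (K.biUnion (AE32.desc P)) (K'.biUnion (AE32.desc P)) := by
    intro K K' h1 h2 h3
    rw [disjoint_biUnion_left]
    intro u hu
    rw [disjoint_biUnion_right]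
    intro w hw
    refine AE32.desc_disjoint hE hin (h1 u hu) (h2 w hw) ?_
    rintro rfl
    exact (Finset.disjoint_left.1 h3) hu hw
  have c12 : Disjoint (K₁.biUnion (AE32.desc P)) (K₂.biUnion (AE32.desc P)) := by
    refine hdj _ _ (fun u hu => ((m1 u).1 hu).2.1) (fun u hu => ((m2 u).1 hu).2.1) ?_
    rw [Finset.disjoint_left]
    intro u h1 h2
    exact has _ _ ((m1 u).1 h1).2.2 ((m2 u).1 h2).2.2
  have c1M : Disjoint (K₁.biUnion (AE32.desc P)) (M.biUnion (AE32.desc P)) := by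
    refine hdj _ _ (fun u hu => ((m1 u).1 hu).2.1) (fun u hu => (hM u hu).2) ?_
    rw [Finset.disjoint_left]
    intro u h1 h2
    exact ((m1 u).1 h1).1 h2
  have c2M : Disjoint (K₂.biUnion (AE32.desc P)) (M.biUnion (AE32.desc P)) := by
    refine hdj _ _ (fun u hu => ((m2 u).1 hu).2.1) (fun u hu => (hM u hu).2) ?_
    rw [Finset.disjoint_left]
    intro u h1 h2
    exact ((m2 u).1 h1).1 h2
  have hchild : ∀ a, P v a → a ∈ K₁ ∨ a ∈ K₂ ∨ a ∈ M := by
    intro a ha
    by_cases haM : a ∈ M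
    · exact Or.inr (Or.inr haM)
    · rcases hP _ _ ha with h | h
      · exact Or.inr (Or.inl ((m2 a).2 ⟨haM, ha, h⟩))
      · exact Or.inl ((m1 a).2 ⟨haM, ha, h⟩)
  have hself : ∀ K : Finset τ, ∀ u ∈ K, u ∈ K.biUnion (AE32.desc P) := fun K u hu =>
    mem_biUnion.2 ⟨u, hu, AE32.self_mem_desc u⟩
  have hcl : ∀ K : Finset τ, ∀ a ∈ K.biUnion (AE32.desc P), ∀ a', P a a' → a' ∈ K.biUnion (AE32.desc P) := by
    intro K a ha a' haa
    obtain ⟨u, hu, hau⟩ := mem_biUnion.1 ha
    exact mem_biUnion.2 ⟨u, hu, AE32.mem_desc.2 ((AE32.mem_desc.1 hau).tail haa)⟩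
  have hnv : ∀ K : Finset τ, (∀ u ∈ K, P v u) → v ∉ K.biUnion (AE32.desc P) := by
    intro K hK hmem
    obtain ⟨u, hu, h⟩ := mem_biUnion.1 hmem
    exact AE32.notMem_desc hE (hK u hu) h
  refine ⟨A, D, K₁.biUnion (AE32.desc P) ∪ K₂.biUnion (AE32.desc P), ⟨b2, b3, b4⟩, ⟨a2, a3, a4⟩, b5, a5, ?_, ?_, ?_, ?_,
    ?_, ?_⟩
  · rw [card_union_of_disjoint c12, a1, b1]
  · rw [disjoint_union_left]
    exact ⟨c1M, c2M⟩
  · ext a
    rw [AE32.mem_desc, ReflTransGen.cases_head_iff]
    simp only [mem_insert, mem_union]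
    constructor
    · rintro (h1 | ⟨c, h1, h2⟩)
      · exact Or.inl h1.symm
      · right
        rcases hchild c h1 with h | h | h
        · exact Or.inl (Or.inl (mem_biUnion.2 ⟨c, h, AE32.mem_desc.2 h2⟩))
        · exact Or.inl (Or.inr (mem_biUnion.2 ⟨c, h, AE32.mem_desc.2 h2⟩))
        · exact Or.inr (mem_biUnion.2 ⟨c, h, AE32.mem_desc.2 h2⟩)
    · rintro (h1 | (h1 | h1) | h1)
      · exact Or.inl h1.symm
      · obtain ⟨u, hu, h⟩ := mem_biUnion.1 h1
        exact Or.inr ⟨u, ((m1 u).1 hu).2.1, AE32.mem_desc.1 h⟩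
      · obtain ⟨u, hu, h⟩ := mem_biUnion.1 h1
        exact Or.inr ⟨u, ((m2 u).1 hu).2.1, AE32.mem_desc.1 h⟩
      · obtain ⟨u, hu, h⟩ := mem_biUnion.1 h1
        exact Or.inr ⟨u, (hM u hu).2, AE32.mem_desc.1 h⟩
  · rw [mem_union, mem_union]
    rintro ((h | h) | h)
    · exact hnv K₁ (fun u hu => ((m1 u).1 hu).2.1) h
    · exact hnv K₂ (fun u hu => ((m2 u).1 hu).2.1) h
    · exact hnv M (fun u hu => (hM u hu).2) h
  · intro a ha
    rw [mem_union, mem_union]
    rcases hchild a ha with h | h | h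
    · exact Or.inl (Or.inl (hself _ _ h))
    · exact Or.inl (Or.inr (hself _ _ h))
    · exact Or.inr (hself _ _ h)
  · intro V R x S₁ S₂ hd he1 he2
    obtain ⟨f₁, q1, q2, q3, q4⟩ := b6 he1
    obtain ⟨f₂, p1, p2, p3, p4⟩ := a6 he2
    have hroot : ∀ K : Finset τ, (∀ u ∈ K, P v u) → ∀ a ∈ K.biUnion (AE32.desc P), P v a → a ∈ K := by
      intro K hK a ha hva
      obtain ⟨u, hu, h⟩ := mem_biUnion.1 ha
      have : a = u := by
        by_contra hne
        exact (Finset.disjoint_left.1 (AE32.desc_disjoint hE hin hva (hK u hu) hne)) (AE32.self_mem_desc a) h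
      rw [this]
      exact hu
    have k1 : Blk E P R v x (K₁.biUnion (AE32.desc P)) S₁ f₁ := by
      refine ⟨q2, q3, ?_, fun a ha a' haa => ⟨hcl K₁ a ha a' haa, ?_⟩⟩
      · intro a ha hva
        have h1 := hroot K₁ (fun u hu => ((m1 u).1 hu).2.1) a ha hva
        exact ⟨fun h => absurd ((m1 a).1 h1).2.2 (has _ _ h), fun _ => q1 a h1⟩
      · have h := q4 a ha a' haa
        refine ⟨fun h' => ?_, fun h' => ?_⟩
        · have h'' : ¬ E a' a := has _ _ h'
          simpa [Adj, h'', SPD.rv] using h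
        · simpa [Adj, h', SPD.rv] using h
    have k2 : Blk E P R v x (K₂.biUnion (AE32.desc P)) S₂ f₂ := by
      refine ⟨p2, p3, ?_, fun a ha a' haa => ⟨hcl K₂ a ha a' haa, ?_⟩⟩
      · intro a ha hva
        have h1 := hroot K₂ (fun u hu => ((m2 u).1 hu).2.1) a ha hva
        exact ⟨fun _ => p1 a h1, fun h => absurd ((m2 a).1 h1).2.2 (has _ _ h)⟩
      · have h := p4 a ha a' haa
        refine ⟨fun h' => ?_, fun h' => ?_⟩
        · simpa [Adj, h'] using h
        · have h'' : ¬ E a a' := has _ _ h'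
          simpa [Adj, h''] using h
    exact ⟨_, k1.union k2 c12 hd⟩

/-- the tree below a vertex of the line is coded by a list of pairs of forests -/
theorem line {h : τ → ℕ} (hh : ∀ a c, P a c → h c = h a + 1) (hin : ∀ a b c, P a c → P b c → a = b)
    (hP : ∀ a c, P a c → E a c ∨ E c a) (has : ∀ a c, E a c → ¬ E c a) {b l : ℕ}
    (hdeg : ∀ v, {w | E v w ∨ E w v}.ncard ≤ b) {m : ℕ} {p : ℕ → τ} (hp : ∀ i < m, E (p i) (p (i + 1)) ∧ P (p i) (p (i + 1)))
    (h7 : ∀ i ≤ m, ∀ u, (∀ j ≤ m, u ≠ p j) → P (p i) u → E (p i) u → ∀ f : ℕ → τ, ¬ ∀ j ≤ l, E (f j) (f (j + 1)) ∧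
      P (f (j + 1)) (f j) ∧ ReflTransGen P u (f j))
    (h8 : ∀ i ≤ m, ∀ u, (∀ j ≤ m, u ≠ p j) → P (p i) u → E u (p i) → ∀ f : ℕ → τ, ¬ ∀ j ≤ l, E (f (j + 1)) (f j) ∧
      P (f (j + 1)) (f j) ∧ ReflTransGen P u (f j)) (n : ℕ) :
    ∀ i, i + n = m → ∃ L : List (Fd × Fd), L.length = n + 1 ∧
      (L.map (fun q => q.1.size + q.2.size + 1)).sum = (AE32.desc P (p i)).card ∧
      (∀ q ∈ L, FOK b l 0 q.1 ∧ FOK b l 0 q.2 ∧ (∀ t ∈ q.1.trees, t.1 = true) ∧ ∀ t ∈ q.2.trees, t.1 = true) ∧
      ∀ {V : Type} {R : V → V → Prop} {y : V} {S : Finset V}, y ∉ S → EmbS R L y S → Dec E P R (p i) y S := by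
  have hE : ∀ a b, P a b → h a < h b := fun a c hac => by rw [hh a c hac]; omega
  have hrank : ∀ i ≤ m, h (p i) = h (p 0) + i := by
    intro i hi
    induction i with
    | zero => rfl
    | succ i ih =>
      rw [hh _ _ (hp i (by omega)).2, ih (by omega)]
      omega
  have hnext : ∀ i ≤ m, ∀ j ≤ m, P (p i) (p j) → j = i + 1 := by
    intro i hi j hj hij
    have h1 := hh _ _ hij
    rw [hrank i hi, hrank j hj] at h1
    omega
  induction n with
  | zero =>
    intro i hi
    have him : i = m := by omega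
    subst him
    have hne : ∀ u, P (p i) u → ∀ j ≤ i, u ≠ p j := by
      rintro u hu j hj rfl
      have := hnext i le_rfl j hj hu
      omega
    obtain ⟨A, D, B, g1, g2, g3, g4, g5, g6, g7, g8, g9, g10⟩ := sides (E := E) hE hin hP has hdeg (p i) ∅ (by simp)
      (fun u _ hu1 hu2 => h7 i le_rfl u (hne u hu1) hu1 hu2) (fun u _ hu1 hu2 => h8 i le_rfl u (hne u hu1) hu1 hu2)
    rw [biUnion_empty, union_empty] at g7 g8 g9
    refine ⟨[(A, D)], rfl, ?_, ?_, ?_⟩
    · rw [g7, card_insert_of_notMem g8, ← g5]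
      simp
    · intro q hq
      rw [List.mem_singleton] at hq
      subst hq
      exact ⟨g1, g2, g3, g4⟩
    · intro V R y S hy hS
      obtain ⟨S₁, S₂, s1, rfl, s2, s3⟩ := hS
      obtain ⟨f, hf⟩ := g10 s1 s2 s3
      exact hf.root g8 g7 hy g9
  | succ n ih =>
    intro i hi
    obtain ⟨L', l1, l2, l3, l4⟩ := ih (i + 1) (by omega)
    obtain ⟨pe, pp⟩ := hp i (by omega)
    have hne : ∀ u, u ∉ ({p (i + 1)} : Finset τ) → P (p i) u → ∀ j ≤ m, u ≠ p j := by
      rintro u hu1 hu j hj rfl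
      have := hnext i (by omega) j hj hu
      subst this
      exact hu1 (mem_singleton_self _)
    obtain ⟨A, D, B, g1, g2, g3, g4, g5, g6, g7, g8, g9, g10⟩ := sides (E := E) hE hin hP has hdeg (p i) {p (i + 1)}
      (fun u hu => by rw [mem_singleton] at hu; subst hu; exact ⟨pe, pp⟩)
      (fun u hu0 hu1 hu2 => h7 i (by omega) u (hne u hu0 hu1) hu1 hu2)
      (fun u hu0 hu1 hu2 => h8 i (by omega) u (hne u hu0 hu1) hu1 hu2)
    rw [singleton_biUnion] at g6 g7 g8 g9
    obtain ⟨q', L'', rfl⟩ : ∃ q' L'', L' = q' :: L'' := by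
      cases L' with
      | nil => simp at l1
      | cons q' L'' => exact ⟨q', L'', rfl⟩
    refine ⟨(A, D) :: q' :: L'', by rw [List.length_cons, l1], ?_, ?_, ?_⟩
    · rw [List.map_cons, List.sum_cons, l2, g7, card_insert_of_notMem g8, card_union_of_disjoint g6, ← g5]
      simp only
      omega
    · intro q hq
      rcases List.mem_cons.1 hq with rfl | hq
      · exact ⟨g1, g2, g3, g4⟩
      · exact l3 q hq
    · intro V R y S hy hS
      obtain ⟨S₁, S₂, z, S₃, s1, s2, s3, s4, rfl, s5, s6, s7⟩ := hS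
      obtain ⟨f, hf⟩ := g10 s1 s5 s6
      obtain ⟨f', hf'⟩ := (l4 s3 s7).blk hE hin pp pe (has _ _ pe) s4
      exact (hf.union hf' g6 s2).root g8 g7 hy g9

end line

/-- distances in the tree below a vertex -/
theorem dist_below {τ : Type*} [Fintype τ] {G : SimpleGraph τ} (hG : G.IsTree) (r u : τ) {v : τ}
    (hv : ReflTransGen (fun a c => G.Adj a c ∧ G.dist r c = G.dist r a + 1) u v) : G.dist r v = G.dist r u + G.dist u v := by
  induction hv with
  | refl => rw [SimpleGraph.dist_self, add_zero]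
  | @tail a c h1 h2 ih =>
    have h3 : G.dist u c ≤ G.dist u a + G.dist a c := hG.connected.dist_triangle
    rw [SimpleGraph.dist_eq_one_iff_adj.2 h2.1] at h3
    have h4 : G.dist r c ≤ G.dist r u + G.dist u c := hG.connected.dist_triangle
    have h5 := h2.2
    omega

theorem dist_below' {τ : Type*} [Fintype τ] {G : SimpleGraph τ} (hG : G.IsTree) (r : τ) {q u v : τ}
    (hu : G.Adj q u ∧ G.dist r u = G.dist r q + 1)
    (hv : ReflTransGen (fun a c => G.Adj a c ∧ G.dist r c = G.dist r a + 1) u v) : G.dist q v = G.dist u v + 1 := by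
  have h1 := dist_below hG r u hv
  have h3 : G.dist q v ≤ G.dist q u + G.dist u v := hG.connected.dist_triangle
  rw [SimpleGraph.dist_eq_one_iff_adj.2 hu.1] at h3
  have h4 : G.dist r v ≤ G.dist r q + G.dist q v := hG.connected.dist_triangle
  have h5 := hu.2
  omega

/-- An oriented tree with degrees at most `b` and a directed path `p 0, …, p m` such that runs towards the path are short in
the trees attached to it by arcs leaving it, and runs away from the path are short in the trees attached to it by arcs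
entering it, is coded by a list of pairs of forests of the class. -/
theorem glueS {k b l : ℕ} {E : Fin (k + 1) → Fin (k + 1) → Prop} (h4 : ∀ a c, E a c → ¬ E c a)
    (h5 : (SimpleGraph.fromRel E).IsTree) (h6 : ∀ v, {w | E v w ∨ E w v}.ncard ≤ b) {m : ℕ} {p : ℕ → Fin (k + 1)}
    (hp : ∀ i < m, E (p i) (p (i + 1)))
    (h7 : ∀ i ≤ m, ∀ u, E (p i) u → (∀ j ≤ m, u ≠ p j) → ∀ f : ℕ → Fin (k + 1), ¬ ∀ j ≤ l, E (f j) (f (j + 1)) ∧
      (SimpleGraph.fromRel E).dist (p i) (f (j + 1)) < (SimpleGraph.fromRel E).dist (p i) (f j) ∧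
      (SimpleGraph.fromRel E).dist u (f j) < (SimpleGraph.fromRel E).dist (p i) (f j))
    (h8 : ∀ i ≤ m, ∀ u, E u (p i) → (∀ j ≤ m, u ≠ p j) → ∀ f : ℕ → Fin (k + 1), ¬ ∀ j ≤ l, E (f (j + 1)) (f j) ∧
      (SimpleGraph.fromRel E).dist (p i) (f (j + 1)) < (SimpleGraph.fromRel E).dist (p i) (f j) ∧
      (SimpleGraph.fromRel E).dist u (f j) < (SimpleGraph.fromRel E).dist (p i) (f j)) :
    ∃ L : List (Fd × Fd), L.length = m + 1 ∧ (L.map (fun q => q.1.size + q.2.size + 1)).sum = k + 1 ∧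
      (∀ q ∈ L, FOK b l 0 q.1 ∧ FOK b l 0 q.2 ∧ (∀ t ∈ q.1.trees, t.1 = true) ∧ ∀ t ∈ q.2.trees, t.1 = true) ∧
      ∀ {V : Type} {R : V → V → Prop} {y : V} {S : Finset V}, y ∉ S → EmbS R L y S →
        ∃ f : Fin (k + 1) → V, Function.Injective f ∧ ∀ a c, E a c → R (f a) (f c) := by
  set G : SimpleGraph (Fin (k + 1)) := SimpleGraph.fromRel E with hG
  have hadj : ∀ a c, G.Adj a c → E a c ∨ E c a := by
    intro a c h
    rw [hG, SimpleGraph.fromRel_adj] at h
    exact h.2
  have hadj' : ∀ a c, E a c → G.Adj a c := by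
    intro a c h
    rw [hG, SimpleGraph.fromRel_adj]
    refine ⟨?_, Or.inl h⟩
    rintro rfl
    exact h4 _ _ h h
  set r : Fin (k + 1) := p 0 with hr
  set P : Fin (k + 1) → Fin (k + 1) → Prop := fun a c => G.Adj a c ∧ G.dist r c = G.dist r a + 1 with hPdef
  have hin : ∀ a b c, P a c → P b c → a = b := by
    rintro a b c ⟨h1, h2⟩ ⟨h3, h4⟩
    exact parent_unique h5 r h1 h3 h2 h4
  have hpp : ∀ i < m, P (p i) (p (i + 1)) := by
    intro i
    induction i with
    | zero =>
      intro hi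
      have h1 := hadj' _ _ (hp 0 hi)
      refine ⟨h1, ?_⟩
      rw [hr, SimpleGraph.dist_self, SimpleGraph.dist_eq_one_iff_adj.2 h1]
    | succ i ih =>
      intro hi
      have h1 := hadj' _ _ (hp (i + 1) hi)
      refine ⟨h1, ?_⟩
      rcases h5.dist_eq_dist_add_one_of_adj r h1 with h | h
      · exfalso
        have h2 : p i = p (i + 1 + 1) := hin _ _ _ (ih (by omega)) ⟨h1.symm, h⟩
        have h3 := hp i (by omega)
        rw [h2] at h3
        exact h4 _ _ h3 (hp (i + 1) hi)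
      · exact h
  -- the parent of a vertex below `u`
  have hpar : ∀ {q u : Fin (k + 1)}, P q u → ∀ {x y : Fin (k + 1)}, ReflTransGen P u x → P y x →
      G.dist q y < G.dist q x ∧ G.dist u x < G.dist q x := by
    intro q u hqu x y hx hy
    have e1 := dist_below' h5 r hqu hx
    refine ⟨?_, by omega⟩
    rcases hx.cases_tail with h | ⟨c, h1, h2⟩
    · subst h
      have : y = q := hin _ _ _ hy hqu
      rw [this, SimpleGraph.dist_self, e1]
      omega
    · have : y = c := hin _ _ _ hy h2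
      subst this
      have e2 := dist_below' h5 r hqu h1
      have e3 := dist_below h5 r u hx
      have e4 := dist_below h5 r u h1
      have e5 := h2.2
      omega
  obtain ⟨L, l1, l2, l3, l4⟩ := line (E := E) (P := P) (h := fun v => G.dist r v) (fun a c h => h.2) hin
    (fun a c h => hadj a c h.1) h4 h6 (fun i hi => ⟨hp i hi, hpp i hi⟩)
    (fun i hi u hu1 hu2 hu3 f hf => h7 i hi u hu3 hu1 f (fun j hj =>
      ⟨(hf j hj).1, hpar hu2 (hf j hj).2.2 (hf j hj).2.1⟩))
    (fun i hi u hu1 hu2 hu3 f hf => h8 i hi u hu3 hu1 f (fun j hj =>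
      ⟨(hf j hj).1, hpar hu2 (hf j hj).2.2 (hf j hj).2.1⟩)) m 0 (by omega)
  have hroot : AE32.desc P r = univ := by
    rw [eq_univ_iff_forall]
    intro v
    exact AE32.mem_desc.2 (root_reach h5 r _ v rfl)
  rw [← hr, hroot, card_univ, Fintype.card_fin] at l2
  refine ⟨L, l1, l2, l3, ?_⟩
  intro V R y S hy hS
  obtain ⟨f, -, -, f3, f4⟩ := l4 hy hS
  rw [← hr, hroot] at f3 f4
  refine ⟨f, fun a a' haa => f3 a (mem_univ _) a' (mem_univ _) haa, fun a c hac => ?_⟩
  rcases h5.dist_eq_dist_add_one_of_adj r (hadj' a c hac) with h | h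
  · exact (f4 c (mem_univ _) a ⟨(hadj' a c hac).symm, h⟩).2 hac
  · exact (f4 a (mem_univ _) c ⟨hadj' a c hac, h⟩).1 hac

end AEG
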