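import Pool.Agent.AET.FinalP
import Pool.Agent.AEG.GlueT
import Pool.Agent.AEG.Short
import Pool.Agent.AEG.ListM

/-!
# From trees to coded lines, with all sizes, for any class of forests
-/

set_option autoImplicit false

namespace AEG

open Finset Relation AE15 AED AEB
open scoped Classical

set_option linter.unusedSectionVars false

section line

variable {τ : Type*} [Fintype τ] {E P : τ → τ → Prop}

/-- one vertex of the line: the side trees -/
theorem sidesU {h : τ → ℕ} (hE : ∀ a b, P a b → h a < h b) (hin : ∀ a b c, P a c → P b c → a = b)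
    (hP : ∀ a c, P a c → E a c ∨ E c a) (has : ∀ a c, E a c → ¬ E c a) {Cl : Fd → Prop} (v : τ) (M : Finset τ)
    (hM : ∀ u ∈ M, E v u ∧ P v u)
    (h7 : ∀ K₂ : Finset τ, (∀ u ∈ K₂, u ∉ M ∧ P v u ∧ E v u) → ∃ D, Cl D ∧ AET.SideF E P v K₂ D)
    (h8 : ∀ K₁ : Finset τ, (∀ u ∈ K₁, u ∉ M ∧ P v u ∧ E u v) → ∃ A, Cl A ∧ AET.SideF (fun a c => E c a) P v K₁ A) :
    ∃ (A D : Fd) (B : Finset τ), (A.size = {x | ∃ u, u ∉ M ∧ P v u ∧ E u v ∧ ReflTransGen P u x}.ncard ∧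
        D.size = {x | ∃ u, u ∉ M ∧ P v u ∧ E v u ∧ ReflTransGen P u x}.ncard) ∧
      Cl A ∧ Cl D ∧ (∀ q ∈ A.trees, q.1 = true) ∧ (∀ q ∈ D.trees, q.1 = true) ∧
      A.size + D.size = B.card ∧ Disjoint B (M.biUnion (AE32.desc P)) ∧
      AE32.desc P v = insert v (B ∪ M.biUnion (AE32.desc P)) ∧ v ∉ B ∪ M.biUnion (AE32.desc P) ∧
      (∀ a, P v a → a ∈ B ∪ M.biUnion (AE32.desc P)) ∧
      ∀ {V : Type} {R : V → V → Prop} {x : V} {S₁ S₂ : Finset V}, Disjoint S₁ S₂ → Emb (SPD.rv R) A x S₁ →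
        Emb R D x S₂ → ∃ f, Blk E P R v x B (S₁ ∪ S₂) f := by
  set K₂ : Finset τ := univ.filter (fun u => u ∉ M ∧ P v u ∧ E v u) with hK2
  set K₁ : Finset τ := univ.filter (fun u => u ∉ M ∧ P v u ∧ E u v) with hK1
  have m2 : ∀ u, u ∈ K₂ ↔ u ∉ M ∧ P v u ∧ E v u := by simp [hK2]
  have m1 : ∀ u, u ∈ K₁ ↔ u ∉ M ∧ P v u ∧ E u v := by simp [hK1]
  obtain ⟨D, a0, a1, a5, a6⟩ := h7 K₂ fun u hu => (m2 u).1 hu
  obtain ⟨A, b0, b1, b5, b6⟩ := h8 K₁ fun u hu => (m1 u).1 hu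
  have hdj : ∀ K K' : Finset τ, (∀ u ∈ K, P v u) → (∀ u ∈ K', P v u) → Disjoint K K' →
      Disjoint (K.biUnion (AE32.desc P)) (K'.biUnion (AE32.desc P)) := by
    intro K K' h1 h2 h3
    rw [disjoint_biUnion_left]
    intro u hu
    rw [disjoint_biUnion_right]
    intro w hw
    refine AE32.desc_disjoint hE hin (h1 u hu) (h2 w hw) ?_
    rintro rfl
    exact (Finset.disjoint_left.1 h3) hu hw
  have c12 : Disjoint (K₁.biUnion (AE32.desc P)) (K₂.biUnion (AE32.desc P)) := by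
    refine hdj _ _ (fun u hu => ((m1 u).1 hu).2.1) (fun u hu => ((m2 u).1 hu).2.1) ?_
    rw [Finset.disjoint_left]
    intro u h1 h2
    exact has _ _ ((m1 u).1 h1).2.2 ((m2 u).1 h2).2.2
  have c1M : Disjoint (K₁.biUnion (AE32.desc P)) (M.biUnion (AE32.desc P)) := by
    refine hdj _ _ (fun u hu => ((m1 u).1 hu).2.1) (fun u hu => (hM u hu).2) ?_
    rw [Finset.disjoint_left]
    intro u h1 h2
    exact ((m1 u).1 h1).1 h2
  have c2M : Disjoint (K₂.biUnion (AE32.desc P)) (M.biUnion (AE32.desc P)) := by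
    refine hdj _ _ (fun u hu => ((m2 u).1 hu).2.1) (fun u hu => (hM u hu).2) ?_
    rw [Finset.disjoint_left]
    intro u h1 h2
    exact ((m2 u).1 h1).1 h2
  have hchild : ∀ a, P v a → a ∈ K₁ ∨ a ∈ K₂ ∨ a ∈ M := by
    intro a ha
    by_cases haM : a ∈ M
    · exact Or.inr (Or.inr haM)
    · rcases hP _ _ ha with h | h
      · exact Or.inr (Or.inl ((m2 a).2 ⟨haM, ha, h⟩))
      · exact Or.inl ((m1 a).2 ⟨haM, ha, h⟩)
  have hself : ∀ K : Finset τ, ∀ u ∈ K, u ∈ K.biUnion (AE32.desc P) := fun K u hu =>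
    mem_biUnion.2 ⟨u, hu, AE32.self_mem_desc u⟩
  have hcl : ∀ K : Finset τ, ∀ a ∈ K.biUnion (AE32.desc P), ∀ a', P a a' → a' ∈ K.biUnion (AE32.desc P) := by
    intro K a ha a' haa
    obtain ⟨u, hu, hau⟩ := mem_biUnion.1 ha
    exact mem_biUnion.2 ⟨u, hu, AE32.mem_desc.2 ((AE32.mem_desc.1 hau).tail haa)⟩
  have hnv : ∀ K : Finset τ, (∀ u ∈ K, P v u) → v ∉ K.biUnion (AE32.desc P) := by
    intro K hK hmem
    obtain ⟨u, hu, h⟩ := mem_biUnion.1 hmem
    exact AE32.notMem_desc hE (hK u hu) h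
  have g0 : A.size = {x | ∃ u, u ∉ M ∧ P v u ∧ E u v ∧ ReflTransGen P u x}.ncard := by
    rw [b1, ← Set.ncard_coe_finset]
    congr 1
    ext x
    rw [mem_coe, mem_biUnion]
    constructor
    · rintro ⟨u, hu, hx⟩
      exact ⟨u, ((m1 u).1 hu).1, ((m1 u).1 hu).2.1, ((m1 u).1 hu).2.2, AE32.mem_desc.1 hx⟩
    · rintro ⟨u, h1, h2, h3, h4⟩
      exact ⟨u, (m1 u).2 ⟨h1, h2, h3⟩, AE32.mem_desc.2 h4⟩
  have g00 : D.size = {x | ∃ u, u ∉ M ∧ P v u ∧ E v u ∧ ReflTransGen P u x}.ncard := by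
    rw [a1, ← Set.ncard_coe_finset]
    congr 1
    ext x
    rw [mem_coe, mem_biUnion]
    constructor
    · rintro ⟨u, hu, hx⟩
      exact ⟨u, ((m2 u).1 hu).1, ((m2 u).1 hu).2.1, ((m2 u).1 hu).2.2, AE32.mem_desc.1 hx⟩
    · rintro ⟨u, h1, h2, h3, h4⟩
      exact ⟨u, (m2 u).2 ⟨h1, h2, h3⟩, AE32.mem_desc.2 h4⟩
  refine ⟨A, D, K₁.biUnion (AE32.desc P) ∪ K₂.biUnion (AE32.desc P), ⟨g0, g00⟩, b0, a0, b5, a5, ?_, ?_, ?_, ?_, ?_, ?_⟩
  · rw [card_union_of_disjoint c12, a1, b1]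
  · rw [disjoint_union_left]
    exact ⟨c1M, c2M⟩
  · ext a
    rw [AE32.mem_desc, ReflTransGen.cases_head_iff]
    simp only [mem_insert, mem_union]
    constructor
    · rintro (h1 | ⟨c, h1, h2⟩)
      · exact Or.inl h1.symm
      · right
        rcases hchild c h1 with h | h | h
        · exact Or.inl (Or.inl (mem_biUnion.2 ⟨c, h, AE32.mem_desc.2 h2⟩))
        · exact Or.inl (Or.inr (mem_biUnion.2 ⟨c, h, AE32.mem_desc.2 h2⟩))
        · exact Or.inr (mem_biUnion.2 ⟨c, h, AE32.mem_desc.2 h2⟩)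
    · rintro (h1 | (h1 | h1) | h1)
      · exact Or.inl h1.symm
      · obtain ⟨u, hu, h⟩ := mem_biUnion.1 h1
        exact Or.inr ⟨u, ((m1 u).1 hu).2.1, AE32.mem_desc.1 h⟩
      · obtain ⟨u, hu, h⟩ := mem_biUnion.1 h1
        exact Or.inr ⟨u, ((m2 u).1 hu).2.1, AE32.mem_desc.1 h⟩
      · obtain ⟨u, hu, h⟩ := mem_biUnion.1 h1
        exact Or.inr ⟨u, (hM u hu).2, AE32.mem_desc.1 h⟩
  · rw [mem_union, mem_union]
    rintro ((h | h) | h)
    · exact hnv K₁ (fun u hu => ((m1 u).1 hu).2.1) h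
    · exact hnv K₂ (fun u hu => ((m2 u).1 hu).2.1) h
    · exact hnv M (fun u hu => (hM u hu).2) h
  · intro a ha
    rw [mem_union, mem_union]
    rcases hchild a ha with h | h | h
    · exact Or.inl (Or.inl (hself _ _ h))
    · exact Or.inl (Or.inr (hself _ _ h))
    · exact Or.inr (hself _ _ h)
  · intro V R x S₁ S₂ hd he1 he2
    obtain ⟨f₁, q1, q2, q3, q4⟩ := b6 he1
    obtain ⟨f₂, p1, p2, p3, p4⟩ := a6 he2
    have hroot : ∀ K : Finset τ, (∀ u ∈ K, P v u) → ∀ a ∈ K.biUnion (AE32.desc P), P v a → a ∈ K := by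
      intro K hK a ha hva
      obtain ⟨u, hu, h⟩ := mem_biUnion.1 ha
      have : a = u := by
        by_contra hne
        exact (Finset.disjoint_left.1 (AE32.desc_disjoint hE hin hva (hK u hu) hne)) (AE32.self_mem_desc a) h
      rw [this]
      exact hu
    have k1 : Blk E P R v x (K₁.biUnion (AE32.desc P)) S₁ f₁ := by
      refine ⟨q2, q3, ?_, fun a ha a' haa => ⟨hcl K₁ a ha a' haa, ?_⟩⟩
      · intro a ha hva
        have h1 := hroot K₁ (fun u hu => ((m1 u).1 hu).2.1) a ha hva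
        exact ⟨fun h => absurd ((m1 a).1 h1).2.2 (has _ _ h), fun _ => q1 a h1⟩
      · have h := q4 a ha a' haa
        refine ⟨fun h' => ?_, fun h' => ?_⟩
        · have h'' : ¬ E a' a := has _ _ h'
          simpa [Adj, h'', SPD.rv] using h
        · simpa [Adj, h', SPD.rv] using h
    have k2 : Blk E P R v x (K₂.biUnion (AE32.desc P)) S₂ f₂ := by
      refine ⟨p2, p3, ?_, fun a ha a' haa => ⟨hcl K₂ a ha a' haa, ?_⟩⟩
      · intro a ha hva
        have h1 := hroot K₂ (fun u hu => ((m2 u).1 hu).2.1) a ha hva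
        exact ⟨fun _ => p1 a h1, fun h => absurd ((m2 a).1 h1).2.2 (has _ _ h)⟩
      · have h := p4 a ha a' haa
        refine ⟨fun h' => ?_, fun h' => ?_⟩
        · simpa [Adj, h'] using h
        · have h'' : ¬ E a a' := has _ _ h'
          simpa [Adj, h''] using h
    exact ⟨_, k1.union k2 c12 hd⟩

/-- the tree below a vertex of the line is coded by a list of pairs of forests -/
theorem lineU {h : τ → ℕ} (hh : ∀ a c, P a c → h c = h a + 1) (hin : ∀ a b c, P a c → P b c → a = b)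
    (hP : ∀ a c, P a c → E a c ∨ E c a) (has : ∀ a c, E a c → ¬ E c a) {Cl : Fd → Prop} {m : ℕ} {p : ℕ → τ}
    (hp : ∀ i < m, E (p i) (p (i + 1)) ∧ P (p i) (p (i + 1)))
    (h7 : ∀ i ≤ m, ∀ K₂ : Finset τ, (∀ u ∈ K₂, (∀ j ≤ m, u ≠ p j) ∧ P (p i) u ∧ E (p i) u) →
      ∃ D, Cl D ∧ AET.SideF E P (p i) K₂ D)
    (h8 : ∀ i ≤ m, ∀ K₁ : Finset τ, (∀ u ∈ K₁, (∀ j ≤ m, u ≠ p j) ∧ P (p i) u ∧ E u (p i)) →
      ∃ A, Cl A ∧ AET.SideF (fun a c => E c a) P (p i) K₁ A) (n : ℕ) :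
    ∀ i, i + n = m → ∃ L : List (Fd × Fd), L.length = n + 1 ∧
      (∀ s ≤ n, szS (L.drop s) = (AE32.desc P (p (i + s))).card) ∧
      (∀ s ≤ n, ∃ q, L[s]? = some q ∧ q.1.size =
        {x | ∃ u, (∀ j ≤ m, u ≠ p j) ∧ P (p (i + s)) u ∧ E u (p (i + s)) ∧ ReflTransGen P u x}.ncard ∧
        q.2.size = {x | ∃ u, (∀ j ≤ m, u ≠ p j) ∧ P (p (i + s)) u ∧
          E (p (i + s)) u ∧ ReflTransGen P u x}.ncard) ∧
      (∀ q ∈ L, Cl q.1 ∧ Cl q.2 ∧ (∀ t ∈ q.1.trees, t.1 = true) ∧ ∀ t ∈ q.2.trees, t.1 = true) ∧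
      ∀ {V : Type} {R : V → V → Prop} {y : V} {S : Finset V}, y ∉ S → EmbS R L y S → Dec E P R (p i) y S := by
  have hE : ∀ a b, P a b → h a < h b := fun a c hac => by rw [hh a c hac]; omega
  have hrank : ∀ i ≤ m, h (p i) = h (p 0) + i := by
    intro i hi
    induction i with
    | zero => rfl
    | succ i ih =>
      rw [hh _ _ (hp i (by omega)).2, ih (by omega)]
      omega
  have hnext : ∀ i ≤ m, ∀ j ≤ m, P (p i) (p j) → j = i + 1 := by
    intro i hi j hj hij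
    have h1 := hh _ _ hij
    rw [hrank i hi, hrank j hj] at h1
    omega
  induction n with
  | zero =>
    intro i hi
    have him : i = m := by omega
    subst him
    have hne : ∀ u, P (p i) u → ∀ j ≤ i, u ≠ p j := by
      rintro u hu j hj rfl
      have := hnext i le_rfl j hj hu
      omega
    obtain ⟨A, D, B, g0, g1, g2, g3, g4, g5, g6, g7, g8, g9, g10⟩ := sidesU (E := E) hE hin hP has (p i) ∅ (by simp)
      (fun K₂ hK => h7 i le_rfl K₂ fun u hu => ⟨hne u (hK u hu).2.1, (hK u hu).2⟩)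
      (fun K₁ hK => h8 i le_rfl K₁ fun u hu => ⟨hne u (hK u hu).2.1, (hK u hu).2⟩)
    rw [biUnion_empty, union_empty] at g7 g8 g9
    refine ⟨[(A, D)], rfl, ?_, ?_, ?_, ?_⟩
    · intro s hs
      obtain rfl : s = 0 := by omega
      rw [add_zero, g7, card_insert_of_notMem g8, ← g5]
      simp [szS]
    · intro s hs
      obtain rfl : s = 0 := by omega
      refine ⟨(A, D), rfl, ?_, ?_⟩
      · rw [g0.1, add_zero]
        congr 1
        ext x
        simp only [Set.mem_ofPred_eq]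
        exact ⟨fun ⟨u, _, h⟩ => ⟨u, hne u h.1, h⟩, fun ⟨u, _, h⟩ => ⟨u, notMem_empty _, h⟩⟩
      · rw [g0.2, add_zero]
        congr 1
        ext x
        simp only [Set.mem_ofPred_eq]
        exact ⟨fun ⟨u, _, h⟩ => ⟨u, hne u h.1, h⟩, fun ⟨u, _, h⟩ => ⟨u, notMem_empty _, h⟩⟩
    · intro q hq
      rw [List.mem_singleton] at hq
      subst hq
      exact ⟨g1, g2, g3, g4⟩
    · intro V R y S hy hS
      obtain ⟨S₁, S₂, s1, rfl, s2, s3⟩ := hS
      obtain ⟨f, hf⟩ := g10 s1 s2 s3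
      exact hf.root g8 g7 hy g9
  | succ n ih =>
    intro i hi
    obtain ⟨L', l1, l2, l0, l3, l4⟩ := ih (i + 1) (by omega)
    obtain ⟨pe, pp⟩ := hp i (by omega)
    have hne : ∀ u, u ∉ ({p (i + 1)} : Finset τ) → P (p i) u → ∀ j ≤ m, u ≠ p j := by
      rintro u hu1 hu j hj rfl
      have := hnext i (by omega) j hj hu
      subst this
      exact hu1 (mem_singleton_self _)
    obtain ⟨A, D, B, g0, g1, g2, g3, g4, g5, g6, g7, g8, g9, g10⟩ := sidesU (E := E) hE hin hP has (p i) {p (i + 1)}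
      (fun u hu => by rw [mem_singleton] at hu; subst hu; exact ⟨pe, pp⟩)
      (fun K₂ hK => h7 i (by omega) K₂ fun u hu => ⟨hne u (hK u hu).1 (hK u hu).2.1, (hK u hu).2⟩)
      (fun K₁ hK => h8 i (by omega) K₁ fun u hu => ⟨hne u (hK u hu).1 (hK u hu).2.1, (hK u hu).2⟩)
    rw [singleton_biUnion] at g6 g7 g8 g9
    obtain ⟨q', L'', rfl⟩ : ∃ q' L'', L' = q' :: L'' := by
      cases L' with
      | nil => simp at l1
      | cons q' L'' => exact ⟨q', L'', rfl⟩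
    refine ⟨(A, D) :: q' :: L'', by rw [List.length_cons, l1], ?_, ?_, ?_, ?_⟩
    · intro s hs
      rcases s with _ | s
      · have h0 := l2 0 (by omega)
        rw [List.drop_zero, add_zero] at h0
        rw [List.drop_zero, szS_cons, h0, add_zero, g7, card_insert_of_notMem g8, card_union_of_disjoint g6, ← g5]
        simp only
        omega
      · have h0 := l2 s (by omega)
        rw [List.drop_succ_cons, h0, show i + 1 + s = i + (s + 1) by omega]
    · intro s hs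
      rcases s with _ | s
      · refine ⟨(A, D), rfl, ?_, ?_⟩
        · rw [g0.1, add_zero]
          congr 1
          ext x
          simp only [Set.mem_ofPred_eq]
          refine ⟨fun ⟨u, h1, h2⟩ => ⟨u, hne u h1 h2.1, h2⟩, fun ⟨u, h1, h2⟩ => ⟨u, ?_, h2⟩⟩
          rw [mem_singleton]
          exact h1 (i + 1) (by omega)
        · rw [g0.2, add_zero]
          congr 1
          ext x
          simp only [Set.mem_ofPred_eq]
          refine ⟨fun ⟨u, h1, h2⟩ => ⟨u, hne u h1 h2.1, h2⟩, fun ⟨u, h1, h2⟩ => ⟨u, ?_, h2⟩⟩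
          rw [mem_singleton]
          exact h1 (i + 1) (by omega)
      · obtain ⟨q, hq1, hq2, hq3⟩ := l0 s (by omega)
        refine ⟨q, by simpa using hq1, ?_, ?_⟩
        · rw [hq2, show i + 1 + s = i + (s + 1) by omega]
        · rw [hq3, show i + 1 + s = i + (s + 1) by omega]
    · intro q hq
      rcases List.mem_cons.1 hq with rfl | hq
      · exact ⟨g1, g2, g3, g4⟩
      · exact l3 q hq
    · intro V R y S hy hS
      obtain ⟨S₁, S₂, z, S₃, s1, s2, s3, s4, rfl, s5, s6, s7⟩ := hS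
      obtain ⟨f, hf⟩ := g10 s1 s5 s6
      obtain ⟨f', hf'⟩ := (l4 s3 s7).blk hE hin pp pe (has _ _ pe) s4
      exact (hf.union hf' g6 s2).root g8 g7 hy g9


end line

/-- the branches at a vertex of the path have bounded runs -/
theorem side_of_runs {τ : Type*} [Fintype τ] {G : SimpleGraph τ} (hG : G.IsTree) {E : τ → τ → Prop}
    (hadj : ∀ a c, G.Adj a c → E a c ∨ E c a) {b l : ℕ} (hdeg : ∀ v, {w | E v w ∨ E w v}.ncard ≤ b) {m : ℕ} {p : ℕ → τ}
    (h7 : ∀ i ≤ m, ∀ u, E (p i) u → (∀ j ≤ m, u ≠ p j) → ∀ f : ℕ → τ, ¬ ∀ j ≤ l, E (f j) (f (j + 1)) ∧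
      G.dist (p i) (f (j + 1)) < G.dist (p i) (f j) ∧ G.dist u (f j) < G.dist (p i) (f j)) {i : ℕ} (hi : i ≤ m)
    (K₂ : Finset τ) (hK : ∀ u ∈ K₂, (∀ j ≤ m, u ≠ p j) ∧ AET.Pr G (p 0) (p i) u ∧ E (p i) u) :
    ∃ D, FOK b l 0 D ∧ AET.SideF E (AET.Pr G (p 0)) (p i) K₂ D := by
  have hE : ∀ a c, AET.Pr G (p 0) a c → G.dist (p 0) a < G.dist (p 0) c := by
    rintro a c ⟨-, h⟩
    omega
  obtain ⟨F, a1, a2, a3, a4, a5, a6⟩ := side_gen (E := E) (b := b) (l := l) hE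
    (fun a b c h1 h2 => AET.Pr.inj hG _ h1 h2) (fun a c h => hadj a c h.1) hdeg (p i) K₂
    (fun u hu => ⟨(hK u hu).2.2, (hK u hu).2.1⟩) (fun u hu f hf => by
      obtain ⟨k1, k2, k3⟩ := hK u hu
      refine h7 i hi u k3 k1 f fun j hj => ?_
      obtain ⟨f1, f2, f3⟩ := hf j hj
      have e1 := dist_below' hG (p 0) k2 f3
      refine ⟨f1, ?_, by omega⟩
      rcases f3.cases_tail with h | ⟨c, g1, g2⟩
      · rw [h] at f2 e1 ⊢
        rw [AET.Pr.inj hG _ f2 k2, SimpleGraph.dist_self]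
        omega
      · rw [AET.Pr.inj hG _ f2 g2]
        have e2 := ((AET.step_iff hG (p 0) k2 g1).1 g2).2
        omega)
  exact ⟨F, ⟨a2, a3, a4⟩, a1, a5, a6⟩

/-- a directed path which starts at the root goes down -/
theorem path_down {τ : Type*} {G : SimpleGraph τ} (hG : G.IsTree) [Fintype τ] {E : τ → τ → Prop}
    (hadj' : ∀ a c, E a c → G.Adj a c) (h4 : ∀ a c, E a c → ¬ E c a) {m : ℕ} {p : ℕ → τ}
    (hp : ∀ i < m, E (p i) (p (i + 1))) : ∀ i < m, AET.Pr G (p 0) (p i) (p (i + 1)) := by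
  intro i
  induction i with
  | zero =>
    intro hi
    have h1 := hadj' _ _ (hp 0 hi)
    refine ⟨h1, ?_⟩
    rw [SimpleGraph.dist_self, SimpleGraph.dist_eq_one_iff_adj.2 h1]
  | succ i ih =>
    intro hi
    have h1 := hadj' _ _ (hp (i + 1) hi)
    refine ⟨h1, ?_⟩
    rcases hG.dist_eq_dist_add_one_of_adj (p 0) h1 with h | h
    · exfalso
      have h2 : p i = p (i + 1 + 1) := AET.Pr.inj hG _ (ih (by omega)) ⟨h1.symm, h⟩
      have h3 := hp i (by omega)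
      rw [h2] at h3
      exact h4 _ _ h3 (hp (i + 1) hi)
    · exact h

/-- the children of the path vertices outside the path -/
theorem child_of_side {τ : Type*} {G : SimpleGraph τ} (hG : G.IsTree) [Fintype τ] {m : ℕ} {p : ℕ → τ}
    (hpp : ∀ i < m, AET.Pr G (p 0) (p i) (p (i + 1))) {i : ℕ} (hi : i ≤ m) {u : τ} (hu : G.Adj (p i) u)
    (hne : ∀ j ≤ m, u ≠ p j) : AET.Pr G (p 0) (p i) u := by
  refine ⟨hu, ?_⟩
  rcases hG.dist_eq_dist_add_one_of_adj (p 0) hu with h | h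
  · exfalso
    rcases i with _ | i
    · rw [SimpleGraph.dist_self] at h
      omega
    · exact hne i (by omega) (AET.Pr.inj hG _ ⟨hu.symm, h⟩ (hpp i (by omega)))
  · exact h

/-- **From the tree to the line, with all sizes**; `Cl` is the class of the forests -/
theorem glueU {k : ℕ} {E : Fin (k + 1) → Fin (k + 1) → Prop} (h4 : ∀ a c, E a c → ¬ E c a)
    (h5 : (SimpleGraph.fromRel E).IsTree) {Cl : Fd → Prop} {m : ℕ} {p : ℕ → Fin (k + 1)}
    (hp : ∀ i < m, E (p i) (p (i + 1)))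
    (h7 : ∀ i ≤ m, ∀ K₂ : Finset (Fin (k + 1)),
      (∀ u ∈ K₂, (∀ j ≤ m, u ≠ p j) ∧ AET.Pr (SimpleGraph.fromRel E) (p 0) (p i) u ∧ E (p i) u) →
      ∃ D, Cl D ∧ AET.SideF E (AET.Pr (SimpleGraph.fromRel E) (p 0)) (p i) K₂ D)
    (h8 : ∀ i ≤ m, ∀ K₁ : Finset (Fin (k + 1)),
      (∀ u ∈ K₁, (∀ j ≤ m, u ≠ p j) ∧ AET.Pr (SimpleGraph.fromRel E) (p 0) (p i) u ∧ E u (p i)) →
      ∃ A, Cl A ∧ AET.SideF (fun a c => E c a) (AET.Pr (SimpleGraph.fromRel E) (p 0)) (p i) K₁ A) :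
    ∃ L : List (Fd × Fd), L.length = m + 1 ∧
      (∀ i ≤ m, szS (L.drop i) = {x | (SimpleGraph.fromRel E).dist (p 0) x =
        (SimpleGraph.fromRel E).dist (p 0) (p i) + (SimpleGraph.fromRel E).dist (p i) x}.ncard) ∧
      (∀ i ≤ m, ∃ q, L[i]? = some q ∧ q.1.size = {x | ∃ u, E u (p i) ∧ (∀ j ≤ m, u ≠ p j) ∧
        (SimpleGraph.fromRel E).dist (p i) x = (SimpleGraph.fromRel E).dist u x + 1}.ncard ∧
        q.2.size = {x | ∃ u, E (p i) u ∧ (∀ j ≤ m, u ≠ p j) ∧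
        (SimpleGraph.fromRel E).dist (p i) x = (SimpleGraph.fromRel E).dist u x + 1}.ncard) ∧
      (∀ q ∈ L, Cl q.1 ∧ Cl q.2 ∧ (∀ t ∈ q.1.trees, t.1 = true) ∧ ∀ t ∈ q.2.trees, t.1 = true) ∧
      szS L = k + 1 ∧
      ∀ {V : Type} {R : V → V → Prop} {y : V} {S : Finset V}, y ∉ S → EmbS R L y S →
        ∃ f : Fin (k + 1) → V, Function.Injective f ∧ ∀ a c, E a c → R (f a) (f c) := by
  set G : SimpleGraph (Fin (k + 1)) := SimpleGraph.fromRel E with hG
  have hadj : ∀ a c, G.Adj a c → E a c ∨ E c a := by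
    intro a c h
    rw [hG, SimpleGraph.fromRel_adj] at h
    exact h.2
  have hadj' : ∀ a c, E a c → G.Adj a c := by
    intro a c h
    rw [hG, SimpleGraph.fromRel_adj]
    refine ⟨?_, Or.inl h⟩
    rintro rfl
    exact h4 _ _ h h
  have hpp := path_down h5 hadj' h4 hp
  obtain ⟨L, l1, l2, l0, l3, l4⟩ := lineU (E := E) (P := AET.Pr G (p 0)) (h := fun v => G.dist (p 0) v) (Cl := Cl)
    (fun a c h => h.2) (fun a b c h1 h2 => AET.Pr.inj h5 _ h1 h2) (fun a c h => hadj a c h.1) h4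
    (fun i hi => ⟨hp i hi, hpp i hi⟩) h7 h8 m 0 (by omega)
  have hroot : AE32.desc (AET.Pr G (p 0)) (p 0) = univ := by
    rw [eq_univ_iff_forall]
    intro v
    rw [AE32.mem_desc]
    refine (AET.reach_iffP h5 (p 0) (p 0) v).2 ?_
    rw [SimpleGraph.dist_self, zero_add]
  have hsz := l2 0 (by omega)
  rw [List.drop_zero, add_zero, hroot, card_univ, Fintype.card_fin] at hsz
  refine ⟨L, l1, ?_, ?_, l3, hsz, ?_⟩
  · intro i hi
    rw [l2 i hi, zero_add, ← Set.ncard_coe_finset]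
    congr 1
    ext x
    rw [mem_coe, AE32.mem_desc]
    exact AET.reach_iffP h5 (p 0) (p i) x
  · intro i hi
    obtain ⟨q, hq1, hq2, hq3⟩ := l0 i (by omega)
    refine ⟨q, hq1, ?_, ?_⟩
    · rw [hq2, zero_add]
      congr 1
      ext x
      constructor
      · rintro ⟨u, u1, u2, u3, hx⟩
        exact ⟨u, u3, u1, dist_below' h5 (p 0) u2 hx⟩
      · rintro ⟨u, u3, u1, hx⟩
        have h := child_of_side h5 hpp hi (hadj' _ _ u3).symm u1
        exact ⟨u, u1, h, u3, below_of_dist h5 (p 0) h _ x rfl hx⟩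
    · rw [hq3, zero_add]
      congr 1
      ext x
      constructor
      · rintro ⟨u, u1, u2, u3, hx⟩
        exact ⟨u, u3, u1, dist_below' h5 (p 0) u2 hx⟩
      · rintro ⟨u, u3, u1, hx⟩
        have h := child_of_side h5 hpp hi (hadj' _ _ u3) u1
        exact ⟨u, u1, h, u3, below_of_dist h5 (p 0) h _ x rfl hx⟩
  · intro V R y S hy hS
    obtain ⟨f, -, -, f3, f4⟩ := l4 hy hS
    rw [hroot] at f3 f4
    refine ⟨f, fun a a' haa => f3 a (mem_univ _) a' (mem_univ _) haa, fun a c hac => ?_⟩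
    rcases h5.dist_eq_dist_add_one_of_adj (p 0) (hadj' a c hac) with h | h
    · exact (f4 c (mem_univ _) a ⟨(hadj' a c hac).symm, h⟩).2 hac
    · exact (f4 a (mem_univ _) c ⟨hadj' a c hac, h⟩).1 hac

/-- a member of a list and what is behind it -/
theorem suffix_idx {α : Type*} {q : α} {L' L : List α} (h : (q :: L') <:+ L) : ∃ i, L.drop i = q :: L' ∧ L[i]? = some q ∧
    L.drop (i + 1) = L' ∧ i + 1 + L'.length = L.length := by
  obtain ⟨t, rfl⟩ := h
  refine ⟨t.length, by simp, by simp, ?_, ?_⟩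
  · rw [← List.drop_drop]
    simp
  · simp only [List.length_append, List.length_cons]
    omega

theorem inS_take {L : List (Fd × Fd)} {a : ℕ → ℕ} (h : ∀ t < L.length, ∃ q, L[t]? = some q ∧ q.1.size = a t) (c : ℕ)
    (hc : c ≤ L.length) : inS (L.take c) = ∑ t ∈ range c, a t := by
  induction c with
  | zero => simp [inS]
  | succ c ih =>
    obtain ⟨q, hq, ha⟩ := h c (by omega)
    rw [List.take_succ, hq, inS_append, ih (by omega), sum_range_succ]
    simp [inS, ha]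

theorem inS_drop {L : List (Fd × Fd)} {a : ℕ → ℕ} (h : ∀ t < L.length, ∃ q, L[t]? = some q ∧ q.1.size = a t) {n c : ℕ}
    (hc : n + c ≤ L.length) : inS ((L.drop n).take c) = ∑ t ∈ Ico n (n + c), a t := by
  rw [inS_take (a := fun t => a (n + t)) (fun t ht => ?_) c (by rw [List.length_drop]; omega), sum_Ico_eq_sum_range,
    Nat.add_sub_cancel_left]
  rw [List.length_drop] at ht
  obtain ⟨q, hq, ha⟩ := h (n + t) (by omega)
  exact ⟨q, by rw [List.getElem?_drop, hq], ha⟩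

end AEG
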