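import Pool.Agent.AEG.P2S

/-!
# The side of the structure, with a set covered through two vertices

`p2_stE`: as `p2_st`, the members of `E` are covered through the protected set `Bp`.
-/

set_option autoImplicit false

namespace AEG

open Finset AE15 AED AEB
open scoped Classical

/-- **The side of the structure.** `U`: the ambient set of the structure, `Y`: its part for the lights, `X₀`: the free set
(hosts and in-items removed) -/
theorem p2_stE (p : NP) (hp : p.OK) (hab : ab p.b p.l ≤ p.a) {D₀ : ℕ} (hD₀ : p.A ≤ D₀)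
    {ω c η η₁ κ₀ κ₁ κ γ₀ τ s σ₂ μ : ℝ} (P : KB D₀ ω c η η₁ κ₀ κ₁ κ γ₀ τ s σ₂ μ) {κU κa ηa γ κ' η' s' : ℝ} (hU0 : 0 < κU)
    (hUκ : 2 * κU ≤ κ) (ha : 0 < κa) (hγ : 0 < γ) (hκ'0 : 0 < κ') (hκ' : κ' ≤ c * κa / 4) (hη'0 : 0 < η')
    (hη' : 4 * ηa ≤ c * η') (hs'0 : 0 < s') (hs' : s' ≤ c * γ / 8) (N Kd : ℕ) :
    ∃ (w₀ M₁ C₁ : ℕ) (δ : ℝ) (C : ℕ), 1 ≤ M₁ ∧ 0 < δ ∧ ∀ {V : Type} {R : V → V → Prop}, AE32.Tour R →
      ∀ {U X₀ Y Dz PZ E Bp : Finset V} {y : V} (b₂ w₁ sig f lamE : ℕ) (os : List (V × Fd)),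
      C ≤ U.card → Y ⊆ U → os.length ≤ N →
      (∀ q ∈ os, q.1 ∈ U ∧ GdU R κU η U Y q.1 ∧ FOK p.b p.l 0 q.2 ∧ ∀ t ∈ q.2.trees, t.1 = true) →
      (∀ q ∈ os, q.1 ∉ X₀) → X₀.filter (fun v => (nI R X₀ v).card < M₁ * b₂ + C₁) ⊆ PZ → PZ ⊆ X₀ →
      ((PZ.card + (U \ X₀).card + (U \ Y).card + (X₀ \ U).card : ℕ) : ℝ) ≤ δ * U.card →
      Dz ⊆ Y → Dz ⊆ X₀ → (∀ v ∈ Dz, R y v ∧ Good R κa ηa U v) → γ * U.card ≤ Dz.card →
      (∀ v ∈ Dz, v ∈ PZ → b₂ ≤ (nI R PZ v).card) → E ⊆ PZ → Bp ⊆ PZ → Bp ⊆ U → (∀ v ∈ Bp, Good R κa ηa U v) →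
      (∀ u ∈ E, lamE ≤ (Bp.filter (fun v => v ∉ E ∧ R v u ∧ b₂ ≤ (nI R PZ v).card)).card) →
      (∀ j : ℕ, ((X₀ \ E).filter (fun u => ¬ R y u ∧ sig ≤ (nI R X₀ u).card ∧ (nI R Dz u).card ≤ j)).card ≤
        w₁ + Kd * (j + 1)) →
      (totB os : ℝ) + C ≤ (1 - ω) * Y.card →
      ∃ Zt S : Finset V, EmbAllB R os (Zt ∪ S) ∧ Zt ⊆ U ∧ Zt ⊆ X₀ ∧ Disjoint Zt PZ ∧ Zt.card ≤ w₀ ∧ S ⊆ Y ∧ S ⊆ X₀ ∧
        Disjoint S Zt ∧ Disjoint S PZ ∧
        StE R (X₀ \ (Zt ∪ S)) E (R y) κ' η' s' b₂ sig f (w₁ + C₁) M₁ lamE := by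
  have hnum := P.num
  obtain ⟨hω0, hω1, hc0, hc1, hη0, hη1, hη₁0, hη₁1, hκ₀0, hκ₁0, hκ₁1, hκ0, hκ1, hs0, hγ₀0, hτ0, hσ₂0, hμ0, hκ₁η, hκs⟩ :=
    hnum
  -- the constant `ε`
  obtain ⟨σ, hσ0, hσ1, hσ2⟩ : ∃ σ : ℝ, 0 < σ ∧ σ ≤ γ ∧ σ ≤ κa :=
    ⟨min γ κa, lt_min hγ ha, min_le_left _ _, min_le_right _ _⟩
  obtain ⟨ε, hε0, hε1, hε2, hε3⟩ : ∃ ε : ℝ, 0 < ε ∧ 8 * ε ≤ σ₂ ∧ ε ≤ η₁ ∧ 4 * ε ≤ c * σ := by
    have h1 : 0 < c * σ := mul_pos hc0 hσ0
    refine ⟨min (σ₂ / 8) (min η₁ (c * σ / 4)), lt_min (by positivity) (lt_min hη₁0 (by positivity)), ?_, ?_, ?_⟩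
    · linarith [min_le_left (σ₂ / 8) (min η₁ (c * σ / 4))]
    · exact (min_le_right _ _).trans (min_le_left _ _)
    · linarith [(min_le_right (σ₂ / 8) (min η₁ (c * σ / 4))).trans (min_le_right _ _)]
  obtain ⟨w₀, M₁, C₁, C, hM₁, hwC, hL⟩ := lights_cap p hp hab hD₀ P hU0 (by linarith) hε0 hε1 hε2 N Kd
  -- the constant `δ`
  obtain ⟨δ, hδ0, hδ1, hδ2, hδ3, hδ4, hδ5, hδ6⟩ : ∃ δ : ℝ, 0 < δ ∧ δ ≤ 1 / 16 ∧ δ ≤ c * σ / 16 ∧ δ ≤ c * η' / 32 ∧
      δ ≤ κU ^ 2 / 1024 ∧ δ ≤ μ / 32 ∧ δ ≤ c / 16 := by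
    have h1 : 0 < c * σ := mul_pos hc0 hσ0
    have h2 : 0 < c * η' := mul_pos hc0 hη'0
    refine ⟨min (1 / 16) (min (c * σ / 16) (min (c * η' / 32) (min (κU ^ 2 / 1024) (min (μ / 32)
      (c / 16))))), ?_, ?_, ?_, ?_, ?_, ?_, ?_⟩
    · refine lt_min (by norm_num) (lt_min (by positivity) (lt_min (by positivity) (lt_min (by positivity)
        (lt_min (by positivity) (by positivity)))))
    · exact min_le_left _ _
    · exact (min_le_right _ _).trans (min_le_left _ _)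
    · exact (min_le_right _ _).trans ((min_le_right _ _).trans (min_le_left _ _))
    · exact (min_le_right _ _).trans ((min_le_right _ _).trans ((min_le_right _ _).trans (min_le_left _ _)))
    · exact (min_le_right _ _).trans ((min_le_right _ _).trans ((min_le_right _ _).trans
        ((min_le_right _ _).trans (min_le_left _ _))))
    · exact (min_le_right _ _).trans ((min_le_right _ _).trans ((min_le_right _ _).trans
        ((min_le_right _ _).trans (min_le_right _ _))))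
  obtain ⟨n₂, hn₂⟩ := exists_big [((w₀ : ℝ), c * σ / 16), ((8 : ℝ), 1), ((w₀ : ℝ), 1 / 16)] (by
    intro q hq
    simp only [List.mem_cons, List.not_mem_nil, or_false] at hq
    rcases hq with rfl | rfl | rfl
    · have : 0 < c * σ := mul_pos hc0 hσ0
      show 0 < c * σ / 16
      positivity
    · exact one_pos
    · norm_num)
  refine ⟨w₀, M₁, C₁, δ, 2 * (C + n₂), hM₁, hδ0, ?_⟩
  intro V R hT U X₀ Y Dz TZ E Bp y b₂ w₁ sig f lamE os hCU hYU hlen hos hosX hTZ hTZX hsm hDY hDX hDg hDc hDT hETZ hBTZ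
    hBU hBg hthr hcnt hsz
  have g := hn₂ U.card (by omega)
  have g1 : (w₀ : ℝ) ≤ c * σ / 16 * U.card := g ((w₀ : ℝ), c * σ / 16) (by simp)
  have g2 : (8 : ℝ) ≤ 1 * U.card := g ((8 : ℝ), 1) (by simp)
  have g3 : (w₀ : ℝ) ≤ 1 / 16 * U.card := g ((w₀ : ℝ), 1 / 16) (by simp)
  obtain ⟨n, hn⟩ : ∃ n : ℝ, n = (U.card : ℝ) := ⟨_, rfl⟩
  rw [← hn] at g1 g2 g3 hsm hDc
  have hn0 : 0 < n := by linarith
  push_cast at hsm
  have hb0 : (0 : ℝ) ≤ (TZ.card : ℝ) := Nat.cast_nonneg _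
  have a1 : (0 : ℝ) ≤ ((U \ X₀).card : ℝ) := Nat.cast_nonneg _
  have a2 : (0 : ℝ) ≤ ((U \ Y).card : ℝ) := Nat.cast_nonneg _
  have a3 : (0 : ℝ) ≤ ((X₀ \ U).card : ℝ) := Nat.cast_nonneg _
  have e1 : δ * n ≤ 1 / 16 * n := mul_le_mul_of_nonneg_right hδ1 hn0.le
  have e2 : δ * n ≤ c * σ / 16 * n := mul_le_mul_of_nonneg_right hδ2 hn0.le
  have e3 : δ * n ≤ c * η' / 32 * n := mul_le_mul_of_nonneg_right hδ3 hn0.le
  have e4 : δ * n ≤ κU ^ 2 / 1024 * n := mul_le_mul_of_nonneg_right hδ4 hn0.le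
  have e5 : δ * n ≤ μ / 32 * n := mul_le_mul_of_nonneg_right hδ5 hn0.le
  have e6 : δ * n ≤ c / 16 * n := mul_le_mul_of_nonneg_right hδ6 hn0.le
  have hδn : 0 ≤ δ * n := by positivity
  have hYc : n = Y.card + (U \ Y).card := by
    have h1 := card_sdiff_add_card_eq_card hYU
    rw [hn]
    have h2 : (U.card : ℝ) = (U \ Y).card + Y.card := by exact_mod_cast h1.symm
    linarith
  have hnY : n ≤ 2 * Y.card := by linarith
  have hY0 : (0 : ℝ) ≤ Y.card := Nat.cast_nonneg _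
  have hκU2 : 0 < κU ^ 2 := by positivity
  -- the family
  obtain ⟨𝓕x, h𝓕x, hfin⟩ := final_good (R := R) (X := U) (G := Dz) (x := y) (κ₁ := κa) (η₁ := ηa) (κ := 2 * κ')
    (η := η' / 2) (γ := γ) (s := 2 * s') (σ := σ) (δ := c * σ / 8) (ε := ε) (c := c) (hDY.trans hYU) (by
      have h1 : nO R Dz y = Dz := by
        ext v
        rw [mem_nO]
        exact ⟨fun h => h.1, fun h => ⟨h, (hDg v h).1⟩⟩
      rw [h1, ← hn]
      exact hDc) (by
      rw [← card_pos]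
      have : (0 : ℝ) < U.card := by rw [← hn]; exact hn0
      exact_mod_cast this) (by linarith) (by linarith) hσ0 hε0 hc0 hσ1 (by
      have : 0 < c * σ := mul_pos hc0 hσ0
      linarith) hσ2 (by linarith) (by linarith) (by linarith) (by linarith)
  obtain ⟨Zt, S, Q, hEm, hZU, hZX, hZT, hZc, hSA, hQA, hSQ, hQc, hRep, hcap, hcnt'⟩ := hL hT (U := U) (X₀ := X₀) (Y := Y)
    (Dz := Dz) (Gu := (X₀ \ E).filter (fun u => ¬ R y u ∧ sig ≤ (nI R X₀ u).card)) (PZ := TZ) b₂ w₁ os (by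
      have h1 : ((2 * (C + n₂) : ℕ) : ℝ) ≤ 2 * Y.card := by
        refine le_trans ?_ hnY
        rw [hn]
        exact_mod_cast hCU
      have h2 : 2 * (C + n₂) ≤ 2 * Y.card := by exact_mod_cast h1
      omega) hYU (by
      rw [← hn]
      have h1 : κU * n ≤ κU * (2 * Y.card) := mul_le_mul_of_nonneg_left hnY hU0.le
      have h2 : 2 * κU * Y.card ≤ κ * Y.card := mul_le_mul_of_nonneg_right hUκ hY0
      linarith) hlen hos hosX hTZ hTZX (by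
      push_cast
      have h1 : κU ^ 2 / 1024 * n ≤ κU ^ 2 / 1024 * (2 * Y.card) := mul_le_mul_of_nonneg_left hnY (by positivity)
      have h4 : 0 ≤ κU ^ 2 * Y.card := by positivity
      linarith) (by
      push_cast
      have h1 : (((U \ X₀) ∩ Y).card : ℝ) ≤ (U \ X₀).card := by exact_mod_cast card_le_card inter_subset_left
      have h2 : μ / 32 * n ≤ μ / 32 * (2 * Y.card) := mul_le_mul_of_nonneg_left hnY (by positivity)
      have h4 : 0 ≤ μ * Y.card := by positivity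
      linarith) hDY hDX (by
      intro j
      refine le_trans (card_le_card ?_) (hcnt j)
      intro u hu
      rw [mem_filter, mem_filter] at hu
      rw [mem_filter]
      exact ⟨hu.1.1, hu.1.2.1, hu.1.2.2, hu.2⟩) (by
      push_cast at hsz
      have h1 : (0 : ℝ) ≤ n₂ := Nat.cast_nonneg _
      have h2 : (0 : ℝ) ≤ C := Nat.cast_nonneg _
      linarith) 𝓕x (by
      have h1 : U.card ≤ 2 * Y.card := by
        have : (U.card : ℝ) ≤ 2 * Y.card := by rw [← hn]; exact hnY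
        exact_mod_cast this
      have h2 : 4 ≤ Y.card := by
        have : (4 : ℝ) ≤ Y.card := by linarith
        exact_mod_cast this
      refine h𝓕x.trans (Nat.mul_le_mul_left _ ?_)
      calc U.card ^ 2 ≤ (2 * Y.card) ^ 2 := Nat.pow_le_pow_left h1 2
        _ = 4 * Y.card ^ 2 := by ring
        _ ≤ Y.card * Y.card ^ 2 := Nat.mul_le_mul_right _ h2
        _ = Y.card ^ 3 := by ring)
  obtain ⟨W, hW⟩ : ∃ W, W = TZ ∪ (U \ X₀) ∪ Zt := ⟨_, rfl⟩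
  have hWm : ∀ x, x ∈ W ↔ x ∈ TZ ∨ (x ∈ U ∧ x ∉ X₀) ∨ x ∈ Zt := by
    intro x
    rw [hW, mem_union, mem_union, mem_sdiff]
    tauto
  rw [← hW] at hSA hQA hQc hRep
  obtain ⟨X', hX'⟩ : ∃ X', X' = X₀ \ (Zt ∪ S) := ⟨_, rfl⟩
  have hX'm : ∀ v, v ∈ X' ↔ v ∈ X₀ ∧ v ∉ Zt ∧ v ∉ S := by
    intro v
    rw [hX', mem_sdiff, mem_union, not_or]
  rw [← hX'] at hcap hcnt'
  have hSm : ∀ v ∈ S, v ∈ Y ∧ v ∈ X₀ ∧ v ∉ TZ ∧ v ∉ Zt := by
    intro v hv
    have h1 := mem_sdiff.1 (hSA hv)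
    rw [hWm] at h1
    push Not at h1
    exact ⟨h1.1, h1.2.2.1 (hYU h1.1), h1.2.1, h1.2.2.2⟩
  have hQm : ∀ v ∈ Q, v ∈ Y ∧ v ∈ X' := by
    intro v hv
    have h1 := mem_sdiff.1 (hQA hv)
    rw [hWm] at h1
    push Not at h1
    rw [hX'm]
    exact ⟨h1.1, h1.2.2.1 (hYU h1.1), h1.2.2.2, fun h => disjoint_left.1 hSQ h hv⟩
  refine ⟨Zt, S, hEm, hZU, hZX, hZT, hZc, fun v hv => (hSm v hv).1, fun v hv => (hSm v hv).2.1, ?_, ?_, ?_⟩
  · rw [disjoint_left]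
    exact fun v hv => (hSm v hv).2.2.2
  · rw [disjoint_left]
    exact fun v hv => (hSm v hv).2.2.1
  rw [← hX']
  -- goodness in the final set
  have hAc : n / 2 ≤ ((Y \ W).card : ℝ) := by
    have h1 : Y.card ≤ (Y \ W).card + (TZ.card + (U \ X₀).card + Zt.card) := by
      have h2 : Y ⊆ (Y \ W) ∪ (TZ ∪ (U \ X₀) ∪ Zt) := by
        intro x hx
        rw [mem_union, mem_sdiff, ← hW]
        by_cases h3 : x ∈ W
        · exact Or.inr h3
        · exact Or.inl ⟨hx, h3⟩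
      have h3 := (card_le_card h2).trans (card_union_le _ _)
      have h4 := card_union_le (TZ ∪ (U \ X₀)) Zt
      have h5 := card_union_le TZ (U \ X₀)
      omega
    have h2 : (Y.card : ℝ) ≤ (Y \ W).card + (TZ.card + (U \ X₀).card + w₀) := by
      have h3 : Y.card ≤ (Y \ W).card + (TZ.card + (U \ X₀).card + w₀) := by omega
      exact_mod_cast h3
    linarith
  have hX'U : X' ∩ U ⊆ X' := inter_subset_left
  have hfin' := hfin (Y \ W) Q (X' ∩ U) (sdiff_subset.trans hYU) (by rw [← hn]; linarith) hQA hRep hQc inter_subset_right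
    (fun v hv => mem_inter.2 ⟨(hQm v hv).2, hYU (hQm v hv).1⟩) (by
      rw [← hn]
      have h1 : (U \ (Y \ W)) \ (X' ∩ U) ⊆ (U \ X₀) ∪ Zt := by
        intro u hu
        rw [mem_sdiff, mem_sdiff, mem_inter, hX'm] at hu
        rw [mem_union, mem_sdiff]
        obtain ⟨⟨h1, h2⟩, h3⟩ := hu
        by_cases h4 : u ∈ X₀
        · by_cases h5 : u ∈ Zt
          · exact Or.inr h5
          · exfalso
            apply h3
            exact ⟨⟨h4, h5, fun h6 => h2 (hSA h6)⟩, h1⟩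
        · exact Or.inl ⟨h1, h4⟩
      have h2 : (((U \ (Y \ W)) \ (X' ∩ U)).card : ℝ) ≤ (U \ X₀).card + Zt.card := by
        exact_mod_cast (card_le_card h1).trans (card_union_le _ _)
      have h3 : (Zt.card : ℝ) ≤ w₀ := by exact_mod_cast hZc
      linarith)
  obtain ⟨hgood, hdense⟩ := hfin'
  have hPc : c * (n / 2) ≤ ((X' ∩ U).card : ℝ) := by
    have h1 : (Q.card : ℝ) ≤ (X' ∩ U).card := by
      exact_mod_cast card_le_card (fun v hv => mem_inter.2 ⟨(hQm v hv).2, hYU (hQm v hv).1⟩)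
    have h2 : c * (n / 2) ≤ c * (Y \ W).card := mul_le_mul_of_nonneg_left hAc hc0.le
    linarith
  have hX'P : (X'.card : ℝ) ≤ (X' ∩ U).card + (X' \ (X' ∩ U)).card := by
    have h1 := card_sdiff_add_card_eq_card hX'U
    have h2 : X'.card ≤ (X' ∩ U).card + (X' \ (X' ∩ U)).card := by omega
    exact_mod_cast h2
  have hX'd : ((X' \ (X' ∩ U)).card : ℝ) ≤ δ * n := by
    have h1 : X' \ (X' ∩ U) ⊆ X₀ \ U := by
      intro u hu
      rw [mem_sdiff, mem_inter] at hu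
      rw [mem_sdiff]
      exact ⟨((hX'm u).1 hu.1).1, fun h => hu.2 ⟨hu.1, h⟩⟩
    have h2 : ((X' \ (X' ∩ U)).card : ℝ) ≤ (X₀ \ U).card := by exact_mod_cast card_le_card h1
    linarith
  have hcn : 0 < c * n := mul_pos hc0 hn0
  have hX'2 : (X'.card : ℝ) ≤ 2 * (X' ∩ U).card := by linarith
  have hPX' : ((X' ∩ U).card : ℝ) ≤ X'.card := by exact_mod_cast card_le_card hX'U
  have hgood' : ∀ v ∈ U, Good R κa ηa U v → Good R κ' η' X' v := by
    intro v hv hvg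
    refine good_add (hgood v hv hvg) hX'U ?_ ?_
    · have h1 : κ' * X'.card ≤ κ' * (2 * (X' ∩ U).card) := mul_le_mul_of_nonneg_left hX'2 hκ'0.le
      linarith
    · have h1 : η' / 2 * (c * (n / 2)) ≤ η' / 2 * (X' ∩ U).card := mul_le_mul_of_nonneg_left hPc (by linarith)
      have h2 : η' * (X' ∩ U).card ≤ η' * X'.card := mul_le_mul_of_nonneg_left hPX' hη'0.le
      have h3 : 0 < c * η' * n := by positivity
      have h4 : η' / 2 * (c * (n / 2)) = c * η' * n / 4 := by ring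
      have h5 : c * η' / 32 * n = c * η' * n / 32 := by ring
      linarith
  have hcgm : ∀ v ∈ Dz, v ∈ X' → v ∈ cg R X' ∅ (R y) κ' η' b₂ := by
    intro v hv hvX
    rw [mem_cg, union_empty]
    refine ⟨hvX, (hDg v hv).1, hgood' v (hYU (hDY hv)) (hDg v hv).2, ?_⟩
    have h1 := (hX'm v).1 hvX
    exact hcap v (hDY hv) h1.1 h1.2.1 (hDT v hv)
  have hTX' : TZ ⊆ X' := by
    intro v hv
    rw [hX'm]
    exact ⟨hTZX hv, fun h => disjoint_left.1 hZT h hv, fun h => (hSm v h).2.2.1 hv⟩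
  refine ⟨hETZ.trans hTX', ?_, ?_, ?_⟩
  · have h1 : nO R Dz y ∩ (X' ∩ U) ⊆ cg R X' ∅ (R y) κ' η' b₂ := by
      intro v hv
      rw [mem_inter, mem_nO, mem_inter] at hv
      exact hcgm v hv.1.1 hv.2.1
    have h2 : ((nO R Dz y ∩ (X' ∩ U)).card : ℝ) ≤ (cg R X' ∅ (R y) κ' η' b₂).card := by exact_mod_cast card_le_card h1
    have h3 : s' * X'.card ≤ s' * (2 * (X' ∩ U).card) := mul_le_mul_of_nonneg_left hX'2 hs'0.le
    linarith
  · intro j _
    refine le_trans (card_le_card ?_) ((hcnt' j).trans (by omega))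
    intro u hu
    rw [mem_filter, mem_sdiff] at hu
    obtain ⟨⟨h1, h1E⟩, h2, h3, h4⟩ := hu
    have h5 := (hX'm u).1 h1
    rw [mem_filter, mem_filter]
    refine ⟨⟨mem_sdiff.2 ⟨h5.1, h1E⟩, h2, h3.trans (card_le_card (nI_mono (by rw [hX']; exact sdiff_subset)))⟩, le_trans (card_le_card ?_) h4⟩
    intro v hv
    rw [mem_nI, mem_inter] at hv
    exact mem_nI.2 ⟨hcgm v hv.1.1 hv.1.2, hv.2⟩
  · intro u hu
    refine (hthr u hu).trans (card_le_card ?_)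
    intro v hv
    rw [mem_filter] at hv
    obtain ⟨hvB, hvE, hvu, hvc⟩ := hv
    rw [mem_filter, mem_sdiff]
    refine ⟨⟨hTX' (hBTZ hvB), hvE⟩, hvu, hgood' v (hBU hvB) (hBg v hvB), hvc.trans (card_le_card (nI_mono hTX'))⟩

end AEG
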