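import Pool.Agent.AEG.P2T
import Pool.Agent.AEG.P2SE

/-!
# The side of the structure, two phases, with a set covered through two vertices

`p2_twoE`: as `p2_two`, the members of `E` are covered through the protected set `Bp`.
-/

set_option autoImplicit false

namespace AEG

open Finset AE15 AED AEB
open scoped Classical

/-- **The side of the structure, two phases, with the set `E`.** -/
theorem p2_twoE (p : NP) (hp : p.OK) (hab : ab p.b p.l ≤ p.a) {D₀ : ℕ} (hD₀ : p.A ≤ D₀)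
    {ω c η η₁ κ₀ κ₁ κ γ₀ τ s σ₂ μ : ℝ} (P : KB D₀ ω c η η₁ κ₀ κ₁ κ γ₀ τ s σ₂ μ) {D₀' : ℕ} (hD₀' : p.A ≤ D₀')
    {ω' c' η' η₁' κ₀' κ₁' κ' γ₀' τ' s' σ₂' μ' : ℝ} (P' : KB D₀' ω' c' η' η₁' κ₀' κ₁' κ' γ₀' τ' s' σ₂' μ')
    {κU κg ηg γ ζ η₂ : ℝ} (hU0 : 0 < κU) (hUκ : 2 * κU ≤ κ) (hκg : 0 < κg) (hηg : 0 < ηg) (hγ : 0 < γ) (hγ1 : γ ≤ 1) (hζ : 0 < ζ)
    (hζω : 2 * ω' ≤ ζ) (hη₂ : 0 < η₂) (hg1 : 8 * ηg ≤ c * η') (hg2 : 8 * ηg ≤ c * (c' * η₂)) (N Kd : ℕ) :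
    ∃ (κ₂ s₂ δ : ℝ) (Mt Ct K₁ C₁ C : ℕ), 0 < κ₂ ∧ 0 < s₂ ∧ 0 < δ ∧ 1 ≤ Mt ∧
      ∀ {V : Type} {R : V → V → Prop}, AE32.Tour R → ∀ {X X₀ Y Dz PZ E Bp : Finset V} {y : V}
        (b₂ w₁ sig f lamE : ℕ) (os₁ os₂ : List (V × Fd)), C ≤ X.card → Y ⊆ X → X₀ ⊆ X → os₁.length ≤ N → os₂.length ≤ N →
        (∀ q ∈ os₁, q.1 ∈ X ∧ q.1 ∉ X₀ ∧ GdU R κU η X Y q.1 ∧ FOK p.b p.l 0 q.2 ∧ ∀ t ∈ q.2.trees, t.1 = true) →
        (∀ q ∈ os₂, q.1 ∈ X ∧ q.1 ∉ X₀ ∧ Good R κg ηg X q.1 ∧ FOK p.b p.l 0 q.2 ∧ ∀ t ∈ q.2.trees, t.1 = true) →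
        X₀ \ Y ⊆ PZ → X₀.filter (fun v => (nI R X₀ v).card < Mt * b₂ + Ct) ⊆ PZ → PZ ⊆ X₀ →
        ((PZ.card + (X \ X₀).card + (X \ Y).card : ℕ) : ℝ) ≤ δ * X.card →
        Dz ⊆ Y → Dz ⊆ X₀ → (∀ v ∈ Dz, R y v ∧ Good R κg ηg X v) → γ * X.card ≤ Dz.card →
        (∀ v ∈ Dz, v ∈ PZ → b₂ ≤ (nI R PZ v).card) → E ⊆ PZ → Bp ⊆ PZ → (∀ v ∈ Bp, Good R κg ηg X v) →
        (∀ u ∈ E, lamE ≤ (Bp.filter (fun v => v ∉ E ∧ R v u ∧ b₂ ≤ (nI R PZ v).card)).card) →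
        (∀ j : ℕ, ((X₀ \ E).filter (fun u => ¬ R y u ∧ sig ≤ (nI R X₀ u).card ∧ (nI R Dz u).card ≤ j)).card ≤
          w₁ + Kd * (j + 1)) →
        (totB os₁ : ℝ) + C ≤ (1 - ω) * Y.card → ((totB os₁ + totB os₂ : ℕ) : ℝ) + ζ * X.card ≤ Y.card →
        ∃ S₁ S₂ : Finset V, EmbAllB R os₁ S₁ ∧ EmbAllB R os₂ S₂ ∧ S₁ ⊆ X₀ ∧ S₂ ⊆ X₀ ∧ Disjoint S₁ S₂ ∧
          StE R (X₀ \ (S₁ ∪ S₂)) E (R y) κ₂ η₂ s₂ b₂ sig f (w₁ + C₁) K₁ lamE := by
  obtain ⟨hω0, hω1, hc0, hc1, hη0, hη1, hη₁0, hη₁1, hκ₀0, hκ₁0, hκ₁1, hκ0, hκ1, hs0, hγ₀0, hτ0, hσ₂0, hμ0, hκ₁η, hκs⟩ :=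
    P.num
  obtain ⟨hω0', hω1', hc0', hc1', hη0', hη1', hη₁0', hη₁1', hκ₀0', hκ₁0', hκ₁1', hκ0', hκ1', hs0', hγ₀0', hτ0', hσ₂0',
    hμ0', hκ₁η', hκs'⟩ := P'.num
  -- the constants of the rest
  obtain ⟨κm, hκm⟩ : ∃ κm : ℝ, κm = c * κg / 2 := ⟨_, rfl⟩
  have hκm0 : 0 < κm := by rw [hκm]; positivity
  obtain ⟨ηm, hηm⟩ : ∃ ηm : ℝ, ηm = 2 * ηg / c := ⟨_, rfl⟩
  have hηm1 : c * ηm = 2 * ηg := by rw [hηm]; field_simp
  have hηm2 : 4 * ηm ≤ η' := by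
    have h1 : c * (4 * ηm) ≤ c * η' := by linarith
    exact le_of_mul_le_mul_left h1 hc0
  have hηm3 : 4 * ηm ≤ c' * η₂ := by
    have h1 : c * (4 * ηm) ≤ c * (c' * η₂) := by linarith
    exact le_of_mul_le_mul_left h1 hc0
  obtain ⟨γm, hγm⟩ : ∃ γm : ℝ, γm = c * γ / 4 := ⟨_, rfl⟩
  have hγm0 : 0 < γm := by rw [hγm]; positivity
  obtain ⟨κU', hκU', hκU'1, hκU'2⟩ : ∃ κU' : ℝ, 0 < κU' ∧ 2 * κU' ≤ κ' ∧ κU' ≤ κm := by
    refine ⟨min (κ' / 2) κm, lt_min (by positivity) hκm0, ?_, min_le_right _ _⟩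
    linarith [min_le_left (κ' / 2) κm]
  obtain ⟨σ, hσ0, hσ1, hσ2⟩ : ∃ σ : ℝ, 0 < σ ∧ σ ≤ γ ∧ σ ≤ κg :=
    ⟨min γ κg, lt_min hγ hκg, min_le_left _ _, min_le_right _ _⟩
  have hcσ : 0 < c * σ := mul_pos hc0 hσ0
  obtain ⟨ε, hε0, hε1, hε2, hε3⟩ : ∃ ε : ℝ, 0 < ε ∧ 8 * ε ≤ σ₂ ∧ ε ≤ η₁ ∧ 4 * ε ≤ c * σ := by
    refine ⟨min (σ₂ / 8) (min η₁ (c * σ / 4)), lt_min (by positivity) (lt_min hη₁0 (by positivity)), ?_, ?_, ?_⟩
    · linarith [min_le_left (σ₂ / 8) (min η₁ (c * σ / 4))]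
    · exact (min_le_right _ _).trans (min_le_left _ _)
    · linarith [(min_le_right (σ₂ / 8) (min η₁ (c * σ / 4))).trans (min_le_right _ _)]
  obtain ⟨w₅, M₅, C₅, C₅', hM₅, hwC, hL⟩ := lights_cap p hp hab hD₀ P hU0 (by linarith) hε0 hε1 hε2 N Kd
  obtain ⟨w₆, M₆, C₆, δ₆, C₆', hM₆, hδ₆, h6⟩ := p2_stE p hp hab hD₀' P' hκU' hκU'1 hκm0 hγm0
    (κ' := c' * κm / 4) (by positivity) le_rfl hη₂ hηm3 (s' := c' * γm / 8) (by positivity) le_rfl N (M₅ + C₅)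
  -- the constant `δ`
  obtain ⟨δ, hδ0, hδ1, hδ2, hδ3, hδ4, hδ5⟩ : ∃ δ : ℝ, 0 < δ ∧ δ ≤ c / 16 ∧ δ ≤ c * σ / 16 ∧
      δ ≤ κU ^ 2 / 1024 ∧ δ ≤ μ / 32 ∧ δ ≤ δ₆ * c / 4 := by
    refine ⟨min (c / 16) (min (c * σ / 16) (min (κU ^ 2 / 1024) (min (μ / 32) (δ₆ * c / 4)))), ?_, ?_, ?_, ?_, ?_, ?_⟩
    · exact lt_min (by positivity) (lt_min (by positivity) (lt_min (by positivity) (lt_min (by positivity)
        (by positivity))))
    · exact min_le_left _ _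
    · exact (min_le_right _ _).trans (min_le_left _ _)
    · exact (min_le_right _ _).trans ((min_le_right _ _).trans (min_le_left _ _))
    · exact (min_le_right _ _).trans ((min_le_right _ _).trans ((min_le_right _ _).trans (min_le_left _ _)))
    · exact (min_le_right _ _).trans ((min_le_right _ _).trans ((min_le_right _ _).trans (min_le_right _ _)))
  obtain ⟨n₂, hn₂⟩ := exists_big [((w₅ : ℝ), c * σ / 16), ((8 : ℝ), 1), ((w₅ : ℝ), 1 / 16), ((C₆' : ℝ), c / 4),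
      ((C₆' : ℝ), ζ / 2)] (by
    intro q hq
    simp only [List.mem_cons, List.not_mem_nil, or_false] at hq
    rcases hq with rfl | rfl | rfl | rfl | rfl
    · show 0 < c * σ / 16
      positivity
    · exact one_pos
    · norm_num
    · show 0 < c / 4
      positivity
    · show 0 < ζ / 2
      positivity)
  refine ⟨c' * κm / 4, c' * γm / 8, δ, M₅ * M₆, M₅ * C₆ + C₅, M₆, C₆, 2 * (C₅' + n₂), by positivity, by positivity, hδ0,
    Nat.mul_pos (by omega) (by omega), ?_⟩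
  intro V R hT X X₀ Y Dz PZ E Bp y b₂ w₁ sig f lamE os₁ os₂ hCX hYX hX₀X hlen₁ hlen₂ hos₁ hos₂ hPY hPlow hPX hsm hDY hDX
    hDg hDc hDT hEP hBP hBg hthr hcnt hsz₁ hsz
  have g := hn₂ X.card (by omega)
  have g1 : (w₅ : ℝ) ≤ c * σ / 16 * X.card := g ((w₅ : ℝ), c * σ / 16) (by simp)
  have g2 : (8 : ℝ) ≤ 1 * X.card := g ((8 : ℝ), 1) (by simp)
  have g3 : (w₅ : ℝ) ≤ 1 / 16 * X.card := g ((w₅ : ℝ), 1 / 16) (by simp)
  have g4 : (C₆' : ℝ) ≤ c / 4 * X.card := g ((C₆' : ℝ), c / 4) (by simp)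
  have g5 : (C₆' : ℝ) ≤ ζ / 2 * X.card := g ((C₆' : ℝ), ζ / 2) (by simp)
  obtain ⟨n, hn⟩ : ∃ n : ℝ, n = (X.card : ℝ) := ⟨_, rfl⟩
  rw [← hn] at g1 g2 g3 g4 g5 hsm hDc hsz
  have hn0 : 0 < n := by linarith
  push_cast at hsm
  have a0 : (0 : ℝ) ≤ (PZ.card : ℝ) := Nat.cast_nonneg _
  have a1 : (0 : ℝ) ≤ ((X \ X₀).card : ℝ) := Nat.cast_nonneg _
  have a2 : (0 : ℝ) ≤ ((X \ Y).card : ℝ) := Nat.cast_nonneg _
  have e1 : δ * n ≤ c / 16 * n := mul_le_mul_of_nonneg_right hδ1 hn0.le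
  have e2 : δ * n ≤ c * σ / 16 * n := mul_le_mul_of_nonneg_right hδ2 hn0.le
  have e3 : δ * n ≤ κU ^ 2 / 1024 * n := mul_le_mul_of_nonneg_right hδ3 hn0.le
  have e4 : δ * n ≤ μ / 32 * n := mul_le_mul_of_nonneg_right hδ4 hn0.le
  have e5 : δ * n ≤ δ₆ * c / 4 * n := mul_le_mul_of_nonneg_right hδ5 hn0.le
  have e6 : c * n ≤ 1 / 1024 * n := mul_le_mul_of_nonneg_right hc1 hn0.le
  have hYc : n = Y.card + (X \ Y).card := by
    have h1 := card_sdiff_add_card_eq_card hYX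
    rw [hn]
    have h2 : (X.card : ℝ) = (X \ Y).card + Y.card := by exact_mod_cast h1.symm
    linarith
  have hnY : n ≤ 2 * Y.card := by linarith
  have hY0 : (0 : ℝ) ≤ Y.card := Nat.cast_nonneg _
  have hYC : C₅' ≤ Y.card := by
    have h1 : (2 * (C₅' + n₂ : ℕ) : ℝ) ≤ n := by rw [hn]; exact_mod_cast hCX
    have h2 : (C₅' : ℝ) ≤ Y.card := by
      push_cast at h1
      have : (0 : ℝ) ≤ n₂ := Nat.cast_nonneg _
      linarith
    exact_mod_cast h2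
  -- the family
  have hX : X.Nonempty := by
    rw [← card_pos]
    have : (0 : ℝ) < X.card := by rw [← hn]; exact hn0
    exact_mod_cast this
  have hDnO : nO R Dz y = Dz := by
    ext v
    rw [mem_nO]
    exact ⟨fun h => h.1, fun h => ⟨h, (hDg v h).1⟩⟩
  obtain ⟨𝓕x, h𝓕x, hfin⟩ := final_good (R := R) (X := X) (G := Dz) (x := y) (κ₁ := κg) (η₁ := ηg) (κ := κm) (η := ηm)
    (γ := γ) (s := γm) (σ := σ) (δ := c * σ / 4) (ε := ε) (c := c) (hDY.trans hYX) (by rw [hDnO, ← hn]; exact hDc) hX hκm0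
    (by rw [hηm]; positivity) hσ0 hε0 hc0 hσ1 (by linarith) hσ2 (by rw [hκm]) (by linarith) hγm0 (by rw [hγm])
  have h𝓕x' : 𝓕x.card ≤ 8 * Y.card ^ 3 := by
    have h1 : (X.card : ℝ) ^ 2 ≤ Y.card ^ 3 := by
      rw [← hn]
      have h2 : n ^ 2 ≤ (2 * Y.card) ^ 2 := pow_le_pow_left₀ hn0.le hnY 2
      have h3 : (4 : ℝ) * Y.card ^ 2 ≤ Y.card * Y.card ^ 2 := by
        apply mul_le_mul_of_nonneg_right _ (by positivity)
        linarith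
      calc n ^ 2 ≤ (2 * (Y.card : ℝ)) ^ 2 := h2
        _ = 4 * Y.card ^ 2 := by ring
        _ ≤ Y.card * Y.card ^ 2 := h3
        _ = Y.card ^ 3 := by ring
    have h2 : X.card ^ 2 ≤ Y.card ^ 3 := by exact_mod_cast h1
    exact h𝓕x.trans (Nat.mul_le_mul_left _ h2)
  obtain ⟨Gu, hGu⟩ : ∃ Gu, Gu = (X₀ \ E).filter (fun u => ¬ R y u ∧ sig ≤ (nI R X₀ u).card) := ⟨_, rfl⟩
  have hsm5 : ((PZ.card + (X \ X₀).card : ℕ) : ℝ) ≤ κU ^ 2 / 128 * Y.card := by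
    push_cast
    have hκU2 : 0 < κU ^ 2 := by positivity
    have h1 : κU ^ 2 / 1024 * n ≤ κU ^ 2 / 1024 * (2 * Y.card) := mul_le_mul_of_nonneg_left hnY (by positivity)
    have h2 : κU ^ 2 / 1024 * (2 * (Y.card : ℝ)) ≤ κU ^ 2 / 128 * Y.card := by nlinarith
    linarith
  have hsm5' : ((PZ.card + ((X \ X₀) ∩ Y).card : ℕ) : ℝ) ≤ μ / 2 * Y.card := by
    push_cast
    have h0 : (((X \ X₀) ∩ Y).card : ℝ) ≤ (X \ X₀).card := by exact_mod_cast card_le_card inter_subset_left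
    have h1 : μ / 32 * n ≤ μ / 32 * (2 * Y.card) := mul_le_mul_of_nonneg_left hnY (by positivity)
    have h2 : μ / 32 * (2 * (Y.card : ℝ)) ≤ μ / 2 * Y.card := by nlinarith
    linarith
  obtain ⟨Zt, S, Q, q1, q2, q3, q4, q5, q6, q7, q8, q9, q10, q11, q12⟩ := hL hT (U := X) (X₀ := X₀) (Y := Y) (Dz := Dz)
    (Gu := Gu) (PZ := PZ) (M₆ * b₂ + C₆) w₁ os₁ hYC hYX (by
      rw [← hn]
      have h1 : κU * n ≤ κU * (2 * Y.card) := mul_le_mul_of_nonneg_left hnY hU0.le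
      have h2 : κU * (2 * (Y.card : ℝ)) = 2 * κU * Y.card := by ring
      have h3 : 2 * κU * Y.card ≤ κ * Y.card := mul_le_mul_of_nonneg_right hUκ hY0
      linarith) hlen₁ (fun q hq => ⟨(hos₁ q hq).1, (hos₁ q hq).2.2.1, (hos₁ q hq).2.2.2.1, (hos₁ q hq).2.2.2.2⟩)
    (fun q hq => (hos₁ q hq).2.1) (by
      refine Subset.trans ?_ hPlow
      intro v hv
      rw [mem_filter] at hv ⊢
      refine ⟨hv.1, ?_⟩
      have h1 : M₅ * (M₆ * b₂ + C₆) + C₅ = M₅ * M₆ * b₂ + (M₅ * C₆ + C₅) := by ring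
      rw [← h1]
      exact hv.2) hPX hsm5 hsm5' hDY hDX (by
      intro j
      refine le_trans (card_le_card ?_) (hcnt j)
      intro u hu
      rw [hGu, mem_filter, mem_filter] at hu
      rw [mem_filter]
      exact ⟨hu.1.1, hu.1.2.1, hu.1.2.2, hu.2⟩) (by
      have h1 : ((C₅' : ℕ) : ℝ) ≤ ((2 * (C₅' + n₂) : ℕ) : ℝ) := by exact_mod_cast (by omega : C₅' ≤ 2 * (C₅' + n₂))
      linarith) 𝓕x h𝓕x'
  obtain ⟨W, hW⟩ : ∃ W, W = PZ ∪ (X \ X₀) ∪ Zt := ⟨_, rfl⟩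
  rw [← hW] at q6 q7 q9 q10
  have hWm : ∀ x, x ∈ W ↔ x ∈ PZ ∨ (x ∈ X ∧ x ∉ X₀) ∨ x ∈ Zt := by
    intro x
    rw [hW, mem_union, mem_union, mem_sdiff]
    tauto
  have hSX₀ : S ⊆ X₀ := by
    intro x hx
    have h1 := mem_sdiff.1 (q6 hx)
    rw [hWm, not_or, not_or] at h1
    by_contra h2
    exact h1.2.2.1 ⟨hYX h1.1, h2⟩
  have hSPZ : ∀ x ∈ S, x ∉ PZ := by
    intro x hx h
    have h1 := mem_sdiff.1 (q6 hx)
    exact h1.2 ((hWm x).2 (Or.inl h))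
  have hS₁X₀ : Zt ∪ S ⊆ X₀ := union_subset q3 hSX₀
  -- the rest
  obtain ⟨X₂, hX₂⟩ : ∃ X₂, X₂ = X \ (Zt ∪ S) := ⟨_, rfl⟩
  obtain ⟨A, hA⟩ : ∃ A, A = Y \ W := ⟨_, rfl⟩
  rw [← hA] at q6 q7 q9 q10
  have hAX : A ⊆ X := by rw [hA]; exact sdiff_subset.trans hYX
  have hXA : ((X \ A).card : ℝ) ≤ δ * n + w₅ := by
    have h1 : X \ A ⊆ (X \ Y) ∪ (PZ ∪ ((X \ X₀) ∪ Zt)) := by
      intro x hx
      rw [mem_sdiff, hA, mem_sdiff, not_and, not_not] at hx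
      rw [mem_union, mem_union, mem_union, mem_sdiff, mem_sdiff]
      by_cases hxY : x ∈ Y
      · have h2 := (hWm x).1 (hx.2 hxY)
        tauto
      · exact Or.inl ⟨hx.1, hxY⟩
    have h2 := card_union_le (X \ Y) (PZ ∪ ((X \ X₀) ∪ Zt))
    have h3 := card_union_le PZ ((X \ X₀) ∪ Zt)
    have h4 := card_union_le (X \ X₀) Zt
    have h5 := card_le_card h1
    have h6 : (X \ A).card ≤ (X \ Y).card + (PZ.card + ((X \ X₀).card + w₅)) := by omega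
    have h7 : ((X \ A).card : ℝ) ≤ (X \ Y).card + (PZ.card + ((X \ X₀).card + w₅)) := by exact_mod_cast h6
    linarith
  have hnA : n ≤ 2 * A.card := by
    have h1 := card_sdiff_add_card_eq_card hAX
    have h2 : n = (X \ A).card + A.card := by
      rw [hn]
      exact_mod_cast h1.symm
    linarith
  have hQX₂ : Q ⊆ X₂ := by
    intro x hx
    have h1 := q7 hx
    rw [hA, mem_sdiff] at h1
    rw [hX₂, mem_sdiff, mem_union, not_or]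
    refine ⟨hYX h1.1, fun h => h1.2 ((hWm x).2 (Or.inr (Or.inr h))), fun h => disjoint_left.1 q8 h hx⟩
  have hX₂X : X₂ ⊆ X := by rw [hX₂]; exact sdiff_subset
  obtain ⟨hgood, hlin⟩ := hfin A Q X₂ hAX (by rw [← hn]; exact hnA) q7 q10 q9 hX₂X hQX₂ (by
    rw [← hn]
    have h1 : (((X \ A) \ X₂).card : ℝ) ≤ (X \ A).card := by exact_mod_cast card_le_card sdiff_subset
    have h2 : c * σ / 16 * n + c * σ / 16 * n ≤ c * σ / 4 * n := by nlinarith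
    linarith)
  have hX₂c : c * n / 2 ≤ X₂.card := by
    have h1 : (Q.card : ℝ) ≤ X₂.card := by exact_mod_cast card_le_card hQX₂
    have h2 : c * (n / 2) ≤ c * A.card := mul_le_mul_of_nonneg_left (by linarith) hc0.le
    linarith
  obtain ⟨X₀', hX₀'⟩ : ∃ X₀', X₀' = X₀ \ (Zt ∪ S) := ⟨_, rfl⟩
  have hX₀'2 : X₀' ⊆ X₂ := by
    rw [hX₀', hX₂]
    exact sdiff_subset_sdiff hX₀X (Subset.refl _)
  have hX₂0 : ((X₂ \ X₀').card : ℝ) ≤ (X \ X₀).card := by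
    apply Nat.cast_le.2
    apply card_le_card
    intro x hx
    rw [hX₂, hX₀', mem_sdiff, mem_sdiff, mem_sdiff, not_and, not_not] at hx
    rw [mem_sdiff]
    exact ⟨hx.1.1, fun h => hx.1.2 (hx.2 h)⟩
  obtain ⟨Y₂, hY₂⟩ : ∃ Y₂, Y₂ = Y \ (Zt ∪ S) := ⟨_, rfl⟩
  have hY₂X : Y₂ ⊆ X₂ := by
    rw [hY₂, hX₂]
    exact sdiff_subset_sdiff hYX (Subset.refl _)
  have hX₂Y : ((X₂ \ Y₂).card : ℝ) ≤ (X \ Y).card := by
    apply Nat.cast_le.2
    apply card_le_card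
    intro x hx
    rw [hX₂, hY₂, mem_sdiff, mem_sdiff, mem_sdiff, not_and, not_not] at hx
    rw [mem_sdiff]
    exact ⟨hx.1.1, fun h => hx.1.2 (hx.2 h)⟩
  have hX₂Y2 : (X₂.card : ℝ) ≤ 2 * Y₂.card := by
    have h1 := card_sdiff_add_card_eq_card hY₂X
    have h2 : (X₂.card : ℝ) = (X₂ \ Y₂).card + Y₂.card := by exact_mod_cast h1.symm
    linarith
  have hYS : (Y.card : ℝ) ≤ Y₂.card + totB os₁ := by
    have h1 : Y ⊆ Y₂ ∪ (Zt ∪ S) := by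
      intro x hx
      rw [mem_union, hY₂, mem_sdiff]
      by_cases h : x ∈ Zt ∪ S
      · exact Or.inr h
      · exact Or.inl ⟨hx, h⟩
    have h2 := (card_le_card h1).trans (card_union_le _ _)
    rw [EmbAllB.card q1] at h2
    exact_mod_cast h2
  obtain ⟨Dz₂, hDz₂⟩ : ∃ Dz₂, Dz₂ = Dz ∩ X₀' := ⟨_, rfl⟩
  obtain ⟨Zt', S', r1, r2, r3, r4, r5, r6, r7, r8, r9, r10⟩ := h6 hT (U := X₂) (X₀ := X₀') (Y := Y₂) (Dz := Dz₂)
    (PZ := PZ) (E := E) (Bp := Bp) (y := y) b₂ w₁ sig f lamE os₂ (by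
      have h1 : (C₆' : ℝ) ≤ X₂.card := by linarith
      exact_mod_cast h1) hY₂X hlen₂ (by
      intro q hq
      obtain ⟨h1, h2, h3, h4, h5⟩ := hos₂ q hq
      have h6 : q.1 ∈ X₂ := by
        rw [hX₂, mem_sdiff]
        exact ⟨h1, fun h => h2 (hS₁X₀ h)⟩
      refine ⟨h6, ?_, h4, h5⟩
      refine GdU.of_good (hgood _ h1 h3) hY₂X hκU'2 ?_
      have hηm0 : 0 ≤ ηm := by rw [hηm]; positivity
      have h7 : ηm * X₂.card ≤ ηm * (2 * Y₂.card) := mul_le_mul_of_nonneg_left hX₂Y2 hηm0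
      have h8 : 2 * ηm * Y₂.card ≤ η' * Y₂.card := mul_le_mul_of_nonneg_right (by linarith) (Nat.cast_nonneg _)
      linarith) (by
      intro q hq h
      rw [hX₀', mem_sdiff] at h
      exact (hos₂ q hq).2.1 h.1) (by
      intro v hv
      rw [mem_filter] at hv
      by_contra hvP
      have hvX : v ∈ X₀ := by
        have := hv.1
        rw [hX₀', mem_sdiff] at this
        exact this.1
      have hvS : v ∉ Zt ∪ S := by
        have := hv.1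
        rw [hX₀', mem_sdiff] at this
        exact this.2
      have hvY : v ∈ Y := by
        by_contra h
        exact hvP (hPY (mem_sdiff.2 ⟨hvX, h⟩))
      have h1 := q11 v hvY hvX (fun h => hvS (mem_union_left _ h)) (fun h => absurd h hvP)
      rw [← hX₀'] at h1
      omega) (by
      intro v hv
      rw [hX₀', mem_sdiff, mem_union, not_or]
      exact ⟨hPX hv, fun h => disjoint_left.1 q4 h hv, fun h => hSPZ v h hv⟩) (by
      push_cast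
      have h0 : (X₀' \ X₂).card = 0 := by
        rw [card_eq_zero, sdiff_eq_empty_iff_subset]
        exact hX₀'2
      rw [h0]
      have h1 : δ₆ * (c * n / 2) ≤ δ₆ * X₂.card := mul_le_mul_of_nonneg_left hX₂c hδ₆.le
      have h2 : 0 ≤ δ₆ * c * n := by positivity
      push_cast
      linarith) (by
      intro v hv
      rw [hDz₂, mem_inter, hX₀', mem_sdiff] at hv
      rw [hY₂, mem_sdiff]
      exact ⟨hDY hv.1, hv.2.2⟩) (by rw [hDz₂]; exact inter_subset_right) (by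
      intro v hv
      rw [hDz₂, mem_inter] at hv
      obtain ⟨h1, h2⟩ := hDg v hv.1
      exact ⟨h1, hgood v (hYX (hDY hv.1)) h2⟩) (by
      refine hlin.trans ?_
      rw [hDnO]
      apply Nat.cast_le.2
      apply card_le_card
      intro v hv
      rw [mem_inter] at hv
      rw [hDz₂, mem_inter, hX₀', mem_sdiff]
      refine ⟨hv.1, hDX hv.1, ?_⟩
      have := hv.2
      rw [hX₂, mem_sdiff] at this
      exact this.2) (by
      intro v hv hvP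
      rw [hDz₂, mem_inter] at hv
      exact hDT v hv.1 hvP) hEP hBP (by
      intro v hv
      apply hX₀'2
      rw [hX₀', mem_sdiff, mem_union, not_or]
      exact ⟨hPX (hBP hv), fun h => disjoint_left.1 q4 h (hBP hv), fun h => hSPZ v h (hBP hv)⟩) (by
      intro v hv
      exact hgood v (hX₀X (hPX (hBP hv))) (hBg v hv)) hthr (by
      intro j
      have h1 := q12 j
      rw [← hX₀', ← hDz₂] at h1
      refine le_trans (card_le_card ?_) (h1.trans ?_)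
      · intro u hu
        rw [mem_filter] at hu
        rw [mem_filter, hGu, mem_filter]
        have hX : u ∈ X₀ \ E := by
          have := hu.1
          rw [hX₀', mem_sdiff, mem_sdiff] at this
          exact mem_sdiff.2 ⟨this.1.1, this.2⟩
        refine ⟨⟨hX, hu.2.1, hu.2.2.1.trans (card_le_card (nI_mono ?_))⟩, hu.2.2.2⟩
        rw [hX₀']
        exact sdiff_subset
      · have h2 : (M₅ + C₅) * (j + 1) = M₅ * j + C₅ + (M₅ + C₅ * j) := by ring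
        rw [h2]
        generalize M₅ * j = a
        generalize C₅ * j = b
        omega) (by
      have h1 : ((totB os₁ + totB os₂ : ℕ) : ℝ) = totB os₁ + totB os₂ := by push_cast; ring
      rw [h1] at hsz
      have h2 : (Y₂.card : ℝ) ≤ n := by
        rw [hn]
        exact_mod_cast card_le_card (hY₂X.trans hX₂X)
      have h3 : ω' * Y₂.card ≤ ζ / 2 * n := mul_le_mul (by linarith) h2 (Nat.cast_nonneg _) (by linarith)
      linarith)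
  refine ⟨Zt ∪ S, Zt' ∪ S', q1, r1, hS₁X₀, ?_, ?_, ?_⟩
  · intro x hx
    rw [mem_union] at hx
    have h1 : x ∈ X₀' := by
      rcases hx with h | h
      · exact r3 h
      · exact r7 h
    rw [hX₀', mem_sdiff] at h1
    exact h1.1
  · rw [disjoint_left]
    intro x hx hx'
    rw [mem_union] at hx'
    have h1 : x ∈ X₀' := by
      rcases hx' with h | h
      · exact r3 h
      · exact r7 h
    rw [hX₀', mem_sdiff] at h1
    exact h1.2 hx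
  · have h1 : X₀ \ ((Zt ∪ S) ∪ (Zt' ∪ S')) = X₀' \ (Zt' ∪ S') := by
      rw [hX₀']
      ext x
      simp only [mem_sdiff, mem_union]
      tauto
    rw [h1]
    exact r10

end AEG
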