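import Pool.Agent.AEG.GroupR
import Pool.Agent.AEG.LinkE
import Pool.Agent.AEG.PackM
import Pool.Agent.AEG.P2TE
import Pool.Agent.AEG.ExitA
import Pool.Agent.AEB.NPx

/-!
# The steep heavy stage: auxiliary statements

`ge_cnt`: the count of the vertices with few dominators after the in-side of the stage was placed.
-/

set_option autoImplicit false

namespace AEG

open Finset AE15 AED AEB SPD
open scoped Classical

theorem ge_zip_in {V : Type} : ∀ (ys : List V) (gr : List (Fd × Fd)), ys.length = gr.length →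
    totB ((ys.zip gr).map (fun p => (p.1, p.2.1))) = inS gr
  | [], [], _ => rfl
  | y :: ys, q :: gr, h => by
    have h1 := ge_zip_in ys gr (by simpa using h)
    simp only [List.zip_cons_cons, List.map_cons, totB, inS, List.sum_cons] at h1 ⊢
    rw [h1]

theorem ge_zip_sz {V : Type} : ∀ (ys : List V) (gr : List (Fd × Fd)), ys.length = gr.length →
    totB ((ys.zip gr).map (fun p => (p.1, p.2.2))) + inS gr + gr.length = szS gr
  | [], [], _ => rfl
  | y :: ys, q :: gr, h => by
    have h1 := ge_zip_sz ys gr (by simpa using h)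
    simp only [List.zip_cons_cons, List.map_cons, totB, inS, List.sum_cons, szS, List.length_cons] at h1 ⊢
    omega

theorem ge_szS_append (L L' : List (Fd × Fd)) : szS (L ++ L') = szS L + szS L' := by simp [szS]

/-- a member of a family survives if it keeps a quarter of its elements -/
theorem ge_cnt {V : Type} {R : V → V → Prop} (hT : AE32.Tour R) {X P₂ My T Jn Inc X₀ E : Finset V} {y : V} {κ₀ : ℝ}
    {w₀ i Kd : ℕ} (h0 : 0 < κ₀) (hXX : X₀ ⊆ X) (hyX : y ∉ X₀)
    (hcnt : ∀ j : ℕ, (j : ℝ) ≤ κ₀ / 4 * X.card → (P₂.filter (fun u => R u y ∧ (nI R My u).card ≤ j)).card ≤ 6 * j)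
    (hI : ∀ u ∈ P₂, R u y → ((nI R My u).card : ℝ) ≤ κ₀ / 4 * X.card →
      (nI R My u).card ≤ 4 * (nI R My u \ T).card + w₀)
    (hrem : ∀ u ∈ My, u ∉ X₀ → u ∈ T ∨ u ∈ Jn) (hi : Jn.card + Inc.card ≤ i)
    (hsmall : ((T.card + 4 * i + w₀ : ℕ) : ℝ) ≤ κ₀ / 16 * X.card) (hK1 : 24 ≤ Kd) (hK2 : 32 / κ₀ ≤ Kd) (j : ℕ) :
    ((X₀ \ E).filter (fun u => ¬ R y u ∧ 0 ≤ (nI R X₀ u).card ∧ (nI R ((My ∩ X₀) \ Inc) u).card ≤ j)).card ≤
      ((X₀ \ P₂) \ E).card + 24 * i + 6 * w₀ + Kd * (j + 1) := by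
  push_cast at hsmall
  have hX0 : (0 : ℝ) ≤ X.card := Nat.cast_nonneg _
  have hT0 : (0 : ℝ) ≤ T.card := Nat.cast_nonneg _
  have hi0 : (0 : ℝ) ≤ i := Nat.cast_nonneg _
  have hw0 : (0 : ℝ) ≤ w₀ := Nat.cast_nonneg _
  have hj0 : (0 : ℝ) ≤ j := Nat.cast_nonneg _
  by_cases hbig : ((4 * (j + i) + w₀ : ℕ) : ℝ) ≤ κ₀ / 4 * X.card
  · have h1 := hcnt _ hbig
    have h2 : (X₀ \ E).filter (fun u => ¬ R y u ∧ 0 ≤ (nI R X₀ u).card ∧ (nI R ((My ∩ X₀) \ Inc) u).card ≤ j) ⊆
        ((X₀ \ P₂) \ E) ∪ P₂.filter (fun u => R u y ∧ (nI R My u).card ≤ 4 * (j + i) + w₀) := by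
      intro u hu
      rw [mem_filter, mem_sdiff] at hu
      obtain ⟨⟨hu1, hu2⟩, hu3, -, hu4⟩ := hu
      rw [mem_union, mem_sdiff, mem_sdiff, mem_filter]
      by_cases hP : u ∈ P₂
      · right
        have huy : R u y := by
          rcases hT.tot u y (by rintro rfl; exact hyX hu1) with h | h
          · exact h
          · exact absurd h hu3
        refine ⟨hP, huy, ?_⟩
        -- the dominators
        have h3 : nI R My u \ T ⊆ nI R ((My ∩ X₀) \ Inc) u ∪ (Jn ∪ Inc) := by
          intro b hb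
          rw [mem_sdiff, mem_nI] at hb
          rw [mem_union, mem_nI, mem_union, mem_sdiff, mem_inter]
          by_cases hbX : b ∈ X₀
          · by_cases hbI : b ∈ Inc
            · exact Or.inr (Or.inr hbI)
            · exact Or.inl ⟨⟨⟨hb.1.1, hbX⟩, hbI⟩, hb.1.2⟩
          · rcases hrem b hb.1.1 hbX with h | h
            · exact absurd h hb.2
            · exact Or.inr (Or.inl h)
        have h4 : (nI R My u \ T).card ≤ j + i := by
          have h5 := (card_le_card h3).trans (card_union_le _ _)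
          have h6 := card_union_le Jn Inc
          omega
        by_cases hq : ((nI R My u).card : ℝ) ≤ κ₀ / 4 * X.card
        · have h5 := hI u hP huy hq
          omega
        · exfalso
          push Not at hq
          have h5 := le_card_sdiff T (nI R My u)
          have h6 : (nI R My u).card ≤ T.card + (j + i) := by omega
          have h7 : ((nI R My u).card : ℝ) ≤ T.card + (j + i) := by exact_mod_cast h6
          push_cast at hbig
          linarith
      · exact Or.inl ⟨⟨hu1, hP⟩, hu2⟩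
    have h3 := (card_le_card h2).trans (card_union_le _ _)
    have h4 : 24 * j ≤ Kd * (j + 1) := Nat.mul_le_mul hK1 (by omega)
    omega
  · push Not at hbig
    push_cast at hbig
    have h1 : κ₀ / 32 * X.card ≤ j := by linarith
    have h2 : (X.card : ℝ) ≤ Kd * (j + 1) := by
      have h3 : 32 / κ₀ * (κ₀ / 32 * X.card) ≤ 32 / κ₀ * j := mul_le_mul_of_nonneg_left h1 (by positivity)
      have h4 : 32 / κ₀ * (κ₀ / 32 * (X.card : ℝ)) = X.card := by field_simp
      have h5 : 32 / κ₀ * j ≤ Kd * j := mul_le_mul_of_nonneg_right hK2 hj0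
      have h6 : (0 : ℝ) ≤ Kd := Nat.cast_nonneg _
      linarith
    have h3 : X.card ≤ Kd * (j + 1) := by exact_mod_cast h2
    have h4 : ((X₀ \ E).filter (fun u => ¬ R y u ∧ 0 ≤ (nI R X₀ u).card ∧
        (nI R ((My ∩ X₀) \ Inc) u).card ≤ j)).card ≤ X.card :=
      card_le_card ((filter_subset _ _).trans (sdiff_subset.trans hXX))
    omega

end AEG
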