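import Pool.Agent.AEG.GroupEA

/-!
# The steep heavy stage: the sets

`GEd`: the sets after the in-side of the stage was placed; the statements below are what the side of the structure needs.
-/

set_option autoImplicit false

namespace AEG

open Finset AE15 AED AEB SPD
open scoped Classical

/-- the in-side of the stage is placed: `T`, `S` are the items of the links, `E` is set aside, `Sg` are the items of the
group, `X₀` is what is left -/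
structure GEd {V : Type} (R : V → V → Prop) (X G P₁ P₂ : Finset V) (ys : List V) (v a w' : V)
    (T S E Bp Sg X₀ : Finset V) (q Q KB w₀ J gl pp : ℕ) : Prop where
  hP₁X : P₁ ⊆ X
  hP₂X : P₂ ⊆ X
  part : ∀ x ∈ X, x ∈ P₁ ∨ x ∈ P₂ ∨ x ∈ ys
  disj : ∀ x ∈ P₁, x ∉ P₂
  ysP : ∀ x ∈ ys, x ∈ X ∧ x ∉ P₁ ∧ x ∉ P₂
  len : ys.length = gl
  card₁ : P₁.card = pp
  hv : v ∈ X
  ha : a ∈ P₁
  hw : w' ∈ P₁
  hT : T ⊆ P₂
  hS : S ⊆ P₁
  hE : E ⊆ P₁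
  hSE : ∀ x ∈ S, x ∉ E
  hhT : v ∉ T ∧ a ∉ T ∧ w' ∉ T
  hhS : v ∉ S ∧ a ∉ S ∧ w' ∉ S
  hhE : v ∉ E ∧ a ∉ E ∧ w' ∉ E
  cTS : T.card + S.card = q
  cSE : S.card + E.card ≤ q
  cSE' : q ≤ S.card + E.card + w₀
  hBp : E.Nonempty → Bp ⊆ G ∧ Bp ⊆ P₂ ∧ (∀ x ∈ Bp, x ∉ T ∧ x ≠ v ∧ x ≠ a ∧ x ≠ w') ∧ Bp.card = KB * q + 1 ∧
    ∀ u ∈ E, Bp.card ≤ 2 * (nI R Bp u).card
  hSg : ∀ x ∈ Sg, x ∈ X ∧ x ∉ T ∧ x ∉ S ∧ x ∉ E ∧ x ≠ v ∧ x ≠ a ∧ x ≠ w' ∧ x ∉ ys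
  cSg : Sg.card = Q
  cSg' : (Sg \ P₁).card ≤ J
  hX₀ : ∀ x, x ∈ X₀ ↔ x ∈ X ∧ x ≠ v ∧ x ≠ a ∧ x ≠ w' ∧ x ∉ ys ∧ x ∉ T ∧ x ∉ S ∧ x ∉ Sg

variable {V : Type} {R : V → V → Prop} {X G P₁ P₂ : Finset V} {ys : List V} {v a w' : V}
  {T S E Bp Sg X₀ : Finset V} {q Q KB w₀ J gl pp : ℕ}

theorem GEd.X₀X (h : GEd R X G P₁ P₂ ys v a w' T S E Bp Sg X₀ q Q KB w₀ J gl pp) : X₀ ⊆ X :=
  fun x hx => ((h.hX₀ x).1 hx).1

theorem GEd.EX₀ (h : GEd R X G P₁ P₂ ys v a w' T S E Bp Sg X₀ q Q KB w₀ J gl pp) : ∀ x ∈ E, x ∈ X₀ ∧ x ∉ P₂ := by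
  intro x hx
  have h1 := h.hE hx
  refine ⟨(h.hX₀ x).2 ⟨h.hP₁X h1, ?_, ?_, ?_, ?_, ?_, ?_, ?_⟩, h.disj x h1⟩
  · rintro rfl; exact h.hhE.1 hx
  · rintro rfl; exact h.hhE.2.1 hx
  · rintro rfl; exact h.hhE.2.2 hx
  · exact fun h2 => (h.ysP x h2).2.1 h1
  · exact fun h2 => h.disj x h1 (h.hT h2)
  · exact fun h2 => h.hSE x h2 hx
  · exact fun h2 => (h.hSg x h2).2.2.2.1 hx

/-- the number of the used vertices -/
theorem GEd.card_used (h : GEd R X G P₁ P₂ ys v a w' T S E Bp Sg X₀ q Q KB w₀ J gl pp) :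
    (X \ X₀).card ≤ 3 + gl + q + Q := by
  have h1 : X \ X₀ ⊆ {v, a, w'} ∪ (ys.toFinset ∪ ((T ∪ S) ∪ Sg)) := by
    intro x hx
    rw [mem_sdiff, h.hX₀] at hx
    rw [mem_union, mem_union, mem_union, mem_union, mem_insert, mem_insert, mem_singleton, List.mem_toFinset]
    by_contra hc
    push Not at hc
    exact hx.2 ⟨hx.1, hc.1.1, hc.1.2.1, hc.1.2.2, hc.2.1, hc.2.2.1.1, hc.2.2.1.2, hc.2.2.2⟩
  have h2 := (card_le_card h1).trans (card_union_le _ _)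
  have h3 := card_union_le ys.toFinset ((T ∪ S) ∪ Sg)
  have h4 := card_union_le (T ∪ S) Sg
  have h5 := card_union_le T S
  have h6 : ({v, a, w'} : Finset V).card ≤ 3 := card_le_three
  have h7 := ys.toFinset_card_le
  have h8 := h.cTS
  have h9 := h.cSg
  have h10 := h.len
  omega

theorem GEd.card_out (h : GEd R X G P₁ P₂ ys v a w' T S E Bp Sg X₀ q Q KB w₀ J gl pp) :
    (X \ P₂).card ≤ pp + gl := by
  have h1 : X \ P₂ ⊆ P₁ ∪ ys.toFinset := by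
    intro x hx
    rw [mem_sdiff] at hx
    rw [mem_union, List.mem_toFinset]
    rcases h.part x hx.1 with h2 | h2 | h2
    · exact Or.inl h2
    · exact absurd h2 hx.2
    · exact Or.inr h2
  have h2 := (card_le_card h1).trans (card_union_le _ _)
  have h7 := ys.toFinset_card_le
  have h9 := h.card₁
  have h10 := h.len
  omega

/-- what is left of `P₁` -/
theorem GEd.card_rest (h : GEd R X G P₁ P₂ ys v a w' T S E Bp Sg X₀ q Q KB w₀ J gl pp) :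
    ((X₀ \ P₂) \ E).card + q + Q ≤ pp + w₀ + J := by
  have h1 : (X₀ \ P₂) \ E ⊆ P₁ \ ((S ∪ E) ∪ (Sg ∩ P₁)) := by
    intro x hx
    rw [mem_sdiff, mem_sdiff, h.hX₀] at hx
    obtain ⟨⟨⟨h1, h2, h3, h4, h5, h6, h7, h8⟩, h9⟩, h10⟩ := hx
    rw [mem_sdiff, mem_union, mem_union, mem_inter]
    refine ⟨?_, ?_⟩
    · rcases h.part x h1 with h11 | h11 | h11
      · exact h11
      · exact absurd h11 h9
      · exact absurd h11 h5
    · rintro ((h11 | h11) | h11)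
      · exact h7 h11
      · exact h10 h11
      · exact h8 h11.1
  have h2 : (S ∪ E) ∪ (Sg ∩ P₁) ⊆ P₁ := union_subset (union_subset h.hS h.hE) inter_subset_right
  have h3 := card_le_card h1
  have h4 := card_sdiff_add_card_eq_card h2
  have h5 : ((S ∪ E) ∪ (Sg ∩ P₁)).card = S.card + E.card + (Sg ∩ P₁).card := by
    rw [card_union_of_disjoint, card_union_of_disjoint]
    · rw [disjoint_left]
      exact h.hSE
    · rw [disjoint_left]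
      intro x hx hx'
      have h6 := h.hSg x (mem_inter.1 hx').1
      rcases mem_union.1 hx with h7 | h7
      · exact h6.2.2.1 h7
      · exact h6.2.2.2.1 h7
  have h6 : Sg.card ≤ (Sg ∩ P₁).card + (Sg \ P₁).card := by
    rw [add_comm, card_sdiff_add_card_inter]
  have h7 := h.card₁
  have h8 := h.cSE'
  have h9 := h.cSg
  have h10 := h.cSg'
  omega

/-- the protected dominators of `E` -/
noncomputable def bpE (E Bp Sg : Finset V) : Finset V := (Bp \ Sg).filter (fun _ => E.Nonempty)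

theorem GEd.bpE_sub (h : GEd R X G P₁ P₂ ys v a w' T S E Bp Sg X₀ q Q KB w₀ J gl pp) :
    ∀ x ∈ bpE E Bp Sg, x ∈ X₀ ∧ x ∈ G ∧ x ∈ P₂ := by
  intro x hx
  rw [bpE, mem_filter, mem_sdiff] at hx
  obtain ⟨⟨h1, h2⟩, h3⟩ := hx
  obtain ⟨g1, g2, g3, -, -⟩ := h.hBp h3
  obtain ⟨g4, g5, g6, g7⟩ := g3 x h1
  have h4 := g2 h1
  refine ⟨(h.hX₀ x).2 ⟨h.hP₂X h4, g5, g6, g7, fun h5 => (h.ysP x h5).2.2 h4, g4, fun h5 => h.disj x (h.hS h5) h4, h2⟩,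
    g1 h1, h4⟩

theorem GEd.bpE_card (h : GEd R X G P₁ P₂ ys v a w' T S E Bp Sg X₀ q Q KB w₀ J gl pp) :
    (bpE E Bp Sg).card ≤ KB * q + 1 := by
  by_cases hE : E.Nonempty
  · refine (card_le_card ((filter_subset _ _).trans sdiff_subset)).trans ?_
    rw [(h.hBp hE).2.2.2.1]
  · have : bpE E Bp Sg = ∅ := by
      rw [bpE, filter_eq_empty_iff]
      exact fun _ _ => hE
    rw [this]
    simp

/-- the members of `E` have many protected in-neighbours -/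
theorem GEd.thr (h : GEd R X G P₁ P₂ ys v a w' T S E Bp Sg X₀ q Q KB w₀ J gl pp) {PZ Inc : Finset V} {b₂ Λ₁ : ℕ}
    (hInc : ∀ x ∈ PZ, x ∉ Inc → b₂ ≤ (nI R PZ x).card) (hIncc : Inc.card ≤ 2 * b₂) (hB : bpE E Bp Sg ⊆ PZ)
    (hKB : KB = 2 * Λ₁ + 6) (hb : b₂ ≤ q) (hJ : J ≤ q) : ∀ u ∈ E,
      Λ₁ * q ≤ ((bpE E Bp Sg).filter (fun v => v ∉ E ∧ R v u ∧ b₂ ≤ (nI R PZ v).card)).card := by
  intro u hu
  obtain ⟨g1, g2, g3, g4, g5⟩ := h.hBp ⟨u, hu⟩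
  have h1 := g5 u hu
  have h2 : nI R Bp u ⊆ ((bpE E Bp Sg).filter (fun v => v ∉ E ∧ R v u ∧ b₂ ≤ (nI R PZ v).card)) ∪ (Sg \ P₁ ∪ Inc) := by
    intro x hx
    rw [mem_nI] at hx
    rw [mem_union, mem_union, mem_sdiff, mem_filter]
    by_cases hxS : x ∈ Sg
    · exact Or.inr (Or.inl ⟨hxS, fun h3 => h.disj x h3 (g2 hx.1)⟩)
    · by_cases hxI : x ∈ Inc
      · exact Or.inr (Or.inr hxI)
      · left
        have h3 : x ∈ bpE E Bp Sg := by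
          rw [bpE, mem_filter, mem_sdiff]
          exact ⟨⟨hx.1, hxS⟩, ⟨u, hu⟩⟩
        exact ⟨h3, fun h4 => h.disj x (h.hE h4) (g2 hx.1), hx.2, hInc x (hB h3) hxI⟩
  have h3 := (card_le_card h2).trans (card_union_le _ _)
  have h4 := card_union_le (Sg \ P₁) Inc
  have h5 := h.cSg'
  rw [g4, hKB] at h1
  have h6 : (2 * Λ₁ + 6) * q = 2 * (Λ₁ * q) + 6 * q := by ring
  omega

/-- the count for the side of the structure -/
theorem GEd.cnt (hT : AE32.Tour R) (h : GEd R X G P₁ P₂ ys v a w' T S E Bp Sg X₀ q Q KB w₀ J gl pp) {y : V}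
    (hy : y ∈ ys) {My Inc : Finset V} {κ₀ : ℝ} {b₂ Kd : ℕ} (hMy : My ⊆ P₂) (h0 : 0 < κ₀)
    (hcnt : ∀ j : ℕ, (j : ℝ) ≤ κ₀ / 4 * X.card → (P₂.filter (fun u => R u y ∧ (nI R My u).card ≤ j)).card ≤ 6 * j)
    (hI : ∀ u ∈ P₂, R u y → ((nI R My u).card : ℝ) ≤ κ₀ / 4 * X.card →
      (nI R My u).card ≤ 4 * (nI R My u \ T).card + w₀) (hIncc : Inc.card ≤ 2 * b₂)
    (hsmall : ((q + 4 * (3 + J + 2 * b₂) + w₀ : ℕ) : ℝ) ≤ κ₀ / 16 * X.card) (hK1 : 24 ≤ Kd) (hK2 : 32 / κ₀ ≤ Kd)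
    {w₁ : ℕ} (hw₁ : pp + w₀ + J + 24 * (3 + J + 2 * b₂) + 6 * w₀ ≤ w₁ + q + Q) :
    ∀ j : ℕ, ((X₀ \ E).filter (fun u => ¬ R y u ∧ 0 ≤ (nI R X₀ u).card ∧ (nI R ((My ∩ X₀) \ Inc) u).card ≤ j)).card ≤
      w₁ + Kd * (j + 1) := by
  intro j
  obtain ⟨Jn, hJn⟩ : ∃ Jn : Finset V, Jn = {v, a, w'} ∪ (Sg \ P₁) := ⟨_, rfl⟩
  have hJc : Jn.card ≤ 3 + J := by
    rw [hJn]
    have h1 := card_union_le ({v, a, w'} : Finset V) (Sg \ P₁)
    have h2 : ({v, a, w'} : Finset V).card ≤ 3 := card_le_three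
    have h3 := h.cSg'
    omega
  have h1 := ge_cnt hT (X := X) (P₂ := P₂) (My := My) (T := T) (Jn := Jn) (Inc := Inc) (X₀ := X₀) (E := E) (y := y)
    (w₀ := w₀) (i := 3 + J + 2 * b₂) (Kd := Kd) h0 h.X₀X (fun h2 => ((h.hX₀ y).1 h2).2.2.2.2.1 hy) hcnt hI (by
      intro u hu huX
      by_cases huT : u ∈ T
      · exact Or.inl huT
      · right
        rw [hJn, mem_union, mem_insert, mem_insert, mem_singleton, mem_sdiff]
        by_contra hc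
        push Not at hc
        apply huX
        have h2 := hMy hu
        refine (h.hX₀ u).2 ⟨h.hP₂X h2, hc.1.1, hc.1.2.1, hc.1.2.2, fun h3 => (h.ysP u h3).2.2 h2, huT,
          fun h3 => h.disj u (h.hS h3) h2, fun h3 => h.disj u (hc.2 h3) h2⟩) (by omega) (by
      refine le_trans ?_ hsmall
      have := h.cTS
      exact_mod_cast (by omega : T.card + 4 * (3 + J + 2 * b₂) + w₀ ≤ q + 4 * (3 + J + 2 * b₂) + w₀)) hK1 hK2 j
  have h2 := h.card_rest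
  omega

end AEG
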