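import Pool.Agent.AEG.GroupEB

/-!
# The steep heavy stage: glue
-/

set_option autoImplicit false

namespace AEG

open Finset AE15 AED AEB SPD
open scoped Classical

variable {V : Type} {R : V → V → Prop} {X G P₁ P₂ : Finset V} {ys : List V} {v a w' : V}
  {T S E Bp Sg X₀ : Finset V} {q Q KB w₀ J gl pp : ℕ}

/-- the hosts of the links and of the group together -/
theorem GEd.glue (h : GEd R X G P₁ P₂ ys v a w' T S E Bp Sg X₀ q Q KB w₀ J gl pp) {y : V} {N : V → Prop}
    {l₁ l₂ l₃ : Fd × Fd} {gr L : List (Fd × Fd)} {S₁ S₂ : Finset V} (hlen : ys.length = gr.length)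
    (hnd : ys.Nodup) (hch : ys.IsChain R) (hlast : ys.getLast? = some y) (hys : v ∉ ys ∧ a ∉ ys ∧ w' ∉ ys)
    (hva : v ≠ a) (hvw : v ≠ w') (haw : a ≠ w') (hN : N v) (r1 : R v a) (r2 : R a w')
    (r3 : ∀ y₁ ∈ ys.head?, R w' y₁)
    (hE1 : EmbAllB (rv R) [(v, l₁.1), (a, l₂.1), (w', l₃.1)] (T ∪ S))
    (hE2 : EmbAllB (rv R) ((ys.zip gr).map (fun p => (p.1, p.2.1))) Sg)
    (hE3 : EmbAllB R [(v, l₁.2)] S₁)
    (hE4 : EmbAllB R ((a, l₂.2) :: (w', l₃.2) :: (ys.zip gr).map (fun p => (p.1, p.2.2))) S₂)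
    (hS₁ : S₁ ⊆ X₀) (hS₂ : S₂ ⊆ X₀) (hd : Disjoint S₁ S₂) :
    (X₀ \ (S₁ ∪ S₂)).card + szS (l₁ :: l₂ :: l₃ :: (gr ++ L)) = X.card + szS L ∧
      (InS R L (R y) (X₀ \ (S₁ ∪ S₂)) → InS R (l₁ :: l₂ :: l₃ :: (gr ++ L)) N X) := by
  obtain ⟨os, hos⟩ : ∃ os, os = (v, l₁) :: (a, l₂) :: (w', l₃) :: ys.zip gr := ⟨_, rfl⟩
  have hm1 : os.map Prod.fst = v :: a :: w' :: ys := by
    rw [hos]
    simp only [List.map_cons]
    rw [List.map_fst_zip (by omega)]
  have hm2 : os.map Prod.snd = l₁ :: l₂ :: l₃ :: gr := by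
    rw [hos]
    simp only [List.map_cons]
    rw [List.map_snd_zip (by omega)]
  have hm3 : os.map (fun p => (p.1, p.2.1)) = [(v, l₁.1), (a, l₂.1), (w', l₃.1)] ++
      (ys.zip gr).map (fun p => (p.1, p.2.1)) := by
    rw [hos]
    rfl
  have hm4 : os.map (fun p => (p.1, p.2.2)) = [(v, l₁.2)] ++
      ((a, l₂.2) :: (w', l₃.2) :: (ys.zip gr).map (fun p => (p.1, p.2.2))) := by
    rw [hos]
    rfl
  have hne : os ≠ [] := by
    rw [hos]
    simp
  obtain ⟨os₀, ⟨z, qz⟩, hos'⟩ : ∃ os₀ x, os = os₀ ++ [x] := by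
    rcases List.eq_nil_or_concat' os with h1 | h1
    · exact absurd h1 hne
    · exact h1
  have hz : z = y := by
    have h1 : (os.map Prod.fst).getLast? = some z := by
      rw [hos', List.map_append]
      simp
    rw [hm1] at h1
    have hyne : ys ≠ [] := by
      rintro rfl
      simp at hlast
    have h2 : (v :: a :: w' :: ys).getLast? = ys.getLast? := by
      rw [List.getLast?_eq_getLast_of_ne_nil (by simp), List.getLast?_eq_getLast_of_ne_nil hyne]
      congr 1
      rw [List.getLast_cons (by simp), List.getLast_cons (by simp), List.getLast_cons hyne]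
    rw [h2, hlast] at h1
    exact (Option.some_inj.1 h1).symm
  have hTSS : Disjoint (T ∪ S) Sg := by
    rw [disjoint_left]
    intro x hx hx'
    have h1 := h.hSg x hx'
    rcases mem_union.1 hx with h2 | h2
    · exact h1.2.1 h2
    · exact h1.2.2.1 h2
  have key := line_glue (R := R) (os₀ := os₀) (z := z) (q := qz) (L' := L) (Nn := N) (X₀ := X)
    (SA := (T ∪ S) ∪ Sg) (SD := S₁ ∪ S₂)
  rw [← hos', hm1, hm2, hm3, hm4] at key
  have hset : X \ ((v :: a :: w' :: ys).toFinset ∪ (((T ∪ S) ∪ Sg) ∪ (S₁ ∪ S₂))) = X₀ \ (S₁ ∪ S₂) := by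
    ext x
    rw [mem_sdiff, mem_sdiff, h.hX₀, mem_union, mem_union, mem_union, mem_union, List.mem_toFinset]
    simp only [List.mem_cons]
    tauto
  rw [hset, hz] at key
  have hpm : ∀ p ∈ os, p.1 = v ∨ p.1 = a ∨ p.1 = w' ∨ p.1 ∈ ys := by
    intro p hp
    have h1 : p.1 ∈ os.map Prod.fst := List.mem_map.2 ⟨p, hp, rfl⟩
    rw [hm1] at h1
    simpa using h1
  have hin : ∀ x ∈ S₁ ∪ S₂, x ∈ X₀ := by
    intro x hx
    rcases mem_union.1 hx with h1 | h1
    · exact hS₁ h1
    · exact hS₂ h1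
  have key' := key (by
      rw [List.nodup_cons, List.nodup_cons, List.nodup_cons]
      simp only [List.mem_cons, not_or]
      exact ⟨⟨hva, hvw, hys.1⟩, ⟨haw, hys.2.1⟩, hys.2.2, hnd⟩) (by
      cases ys with
      | nil => simp [r1, r2]
      | cons y₁ ys => simp [r1, r2, r3 y₁ (by simp)]; simpa using hch) (by
      rw [embAllB_append]
      exact ⟨T ∪ S, Sg, hTSS, rfl, hE1, hE2⟩) (by
      rw [embAllB_append]
      exact ⟨S₁, S₂, hd, rfl, hE3, hE4⟩) (by
      rw [disjoint_left]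
      intro x hx hx'
      have h1 := (h.hX₀ x).1 (hin x hx')
      rw [mem_union, mem_union] at hx
      tauto) (by
      intro p hp
      have h1 := hpm p hp
      refine ⟨?_, ?_⟩
      · intro h2
        rw [mem_union, mem_union] at h2
        rcases h2 with (h2 | h2) | h2
        · rcases h1 with h1 | h1 | h1 | h1
          · rw [h1] at h2; exact h.hhT.1 h2
          · rw [h1] at h2; exact h.hhT.2.1 h2
          · rw [h1] at h2; exact h.hhT.2.2 h2
          · exact (h.ysP _ h1).2.2 (h.hT h2)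
        · rcases h1 with h1 | h1 | h1 | h1
          · rw [h1] at h2; exact h.hhS.1 h2
          · rw [h1] at h2; exact h.hhS.2.1 h2
          · rw [h1] at h2; exact h.hhS.2.2 h2
          · exact (h.ysP _ h1).2.1 (h.hS h2)
        · have h3 := h.hSg _ h2
          tauto
      · intro h2
        have h3 := (h.hX₀ _).1 (hin _ h2)
        tauto) (by
      intro u hu
      simp only [List.head?_cons, Option.some_inj] at hu
      rw [← hu]
      exact hN) (by
      intro x hx
      rw [mem_union, mem_union, mem_union, mem_union, List.mem_toFinset] at hx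
      simp only [List.mem_cons] at hx
      rcases hx with h1 | ((h1 | h1) | h1) | h1
      · rcases h1 with rfl | rfl | rfl | h1
        · exact h.hv
        · exact h.hP₁X h.ha
        · exact h.hP₁X h.hw
        · exact (h.ysP x h1).1
      · exact h.hP₂X (h.hT h1)
      · exact h.hP₁X (h.hS h1)
      · exact (h.hSg x h1).1
      · exact h.X₀X (hin x h1))
  exact key'

end AEG
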