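import Pool.Agent.AEG.LinkB
import Pool.Agent.AEG.LinkZ
import Pool.Agent.AEG.ThinM

/-!
# The items of the link vertices, anywhere

`link_crude`: the forests of the link vertices are embedded somewhere in `X`; a graded family and the structure of the
part of the group are kept.
-/

set_option autoImplicit false

namespace AEG

open Finset AE15 AED AEB SPD
open scoped Classical

/-- **The items of the links, anywhere.** (Everything is stated for the direction of the packing.) -/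
theorem link_crude (b l : ℕ) (hb : 1 ≤ b) (Kg : ℝ) {κ ξ s τ : ℝ} (hκ : 0 < κ) (hκ1 : κ ≤ 1) (hξ : 0 < ξ)
    (hξ1 : ξ ≤ 1) (hs : 0 < s) (hs1 : s ≤ 1) (hτ : 0 < τ) (K e N : ℕ) :
    ∃ (κ' s' τ' : ℝ) (K' : ℕ), 0 < κ' ∧ κ' ≤ κ ∧ 0 < s' ∧ s' ≤ s ∧ 0 < τ' ∧ τ' ≤ τ ∧ ∀ cA : ℕ, ∃ C e' : ℕ,
      ∀ {V : Type} {R : V → V → Prop}, AE32.Tour R → ∀ {X U P ys Hs : Finset V} {t : ℝ} {os : List (V × Fd)},
      GSd R U P ys κ t s τ K e → ξ * U.card ≤ P.card → C ≤ P.card → ys.card ≤ N → U ⊆ X → Hs.card ≤ 3 →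
      (∀ p ∈ os, p.1 ∈ Hs ∧ FOK b l 0 p.2 ∧ ∀ q ∈ p.2.trees, q.1 = true) →
      (∀ p ∈ os, 16 * totB os + C ≤ (nO R X p.1).card) →
      ∀ {ι : Type} (I : Finset ι) (D : ι → Finset V), (∀ j ∈ I, D j ⊆ X) →
        (∀ k : ℕ, ((I.filter (fun j => (D j).card = k)).card : ℝ) ≤ Kg * (k + 1)) →
      ∃ S : Finset V, S ⊆ X ∧ Disjoint S (ys ∪ Hs) ∧ EmbAllB R os S ∧ (∀ j ∈ I, (D j).card ≤ 4 * (D j \ S).card) ∧
        ∀ S' : Finset V, (S' \ S).card ≤ cA → Disjoint S' ys → GSd R (U \ S') (P \ S') ys κ' t s' τ' K' e' := by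
  obtain ⟨C₁, hfill⟩ := fillB b l hb
  obtain ⟨c₂, hcls⟩ := exists_class_avoid 2 Kg 3 le_rfl
  obtain ⟨M, c, κ', s', τ', K', hM, g1, g2, g3, g4, g5, g6, hthin⟩ := GSd.thin hκ hκ1 hξ hξ1 hs hs1 hτ K e N 3 0
  refine ⟨κ', s', τ', K', g1, g2, g3, g4, g5, g6, fun cA => ?_⟩
  obtain ⟨n₀, e', hthin⟩ := hthin cA
  refine ⟨n₀ + 8 * (C₁ + c + c₂ + N + 3), e', ?_⟩
  intro V R hT X U P ys Hs t os hG hξP hPc hys hUX hHs hos hcap ι I D hD hK
  obtain ⟨Z, k1, -, -, k4, k5⟩ := hcls X (ys ∪ Hs) I D hD hK Hs (fun h => nO R X h) (fun h _ => nO_sub) hHs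
  obtain ⟨Q, hQ, -, hE, hS⟩ := hthin hG hξP (by omega) hys (∅ : Finset Unit) (fun _ => ∅) (by simp) (by simp) (by
    intro j
    simp) Hs (fun h => nO R (Z ∩ U) h) hHs (by
    intro h _ u hu
    rw [mem_nO, mem_inter] at hu
    rw [mem_sdiff]
    refine ⟨hu.1.2, fun h => ?_⟩
    exact (mem_sdiff.1 (k1 hu.1.1)).2 (mem_union_left _ h))
  obtain ⟨L, hL⟩ := pend_allB (R := R) os (fun p hp => (hos p hp).2.2)
  obtain ⟨S, hSZ, hEmb, -⟩ := hfill hT (Z := Z \ Q) hL (disjoint_empty_left _) (by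
    intro q hq
    obtain ⟨g1, g2⟩ := hL.mem (fun p hp => (hos p hp).2.1) q hq
    refine ⟨g2, ?_⟩
    obtain ⟨p, hp, hqp⟩ := g1.resolve_left (notMem_empty _)
    rw [hqp]
    have h1 := hcap p hp
    have h2 := k5 p.1 (hos p hp).1
    have h3 := hE p.1 (hos p hp).1
    have h4 := card_union_le ys Hs
    have h5 := le_card_sdiff (ys ∪ Hs) (nO R X p.1)
    have h6 : (nO R X p.1 ∩ Z).card + (nO R (Z ∩ U) p.1 \ Q).card ≤ (nO R (Z \ Q) p.1).card +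
        (nO R (Z ∩ U) p.1).card := by
      rw [← card_union_add_card_inter, ← card_union_add_card_inter (nO R (Z \ Q) p.1)]
      apply Nat.add_le_add
      · apply card_le_card
        intro u hu
        rw [mem_union, mem_inter, mem_sdiff, mem_nO, mem_nO, mem_inter] at hu
        rw [mem_union, mem_nO, mem_nO, mem_sdiff, mem_inter]
        rcases hu with ⟨⟨h7, h8⟩, h9⟩ | ⟨⟨⟨h7, h8⟩, h9⟩, h10⟩
        · by_cases h11 : u ∈ Q
          · exact Or.inr ⟨⟨h9, (mem_sdiff.1 (hQ h11)).1⟩, h8⟩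
          · exact Or.inl ⟨⟨h9, h11⟩, h8⟩
        · exact Or.inr ⟨⟨h7, h8⟩, h9⟩
      · apply card_le_card
        intro u hu
        rw [mem_inter, mem_inter, mem_sdiff, mem_nO, mem_nO, mem_inter] at hu
        rw [mem_inter, mem_nO, mem_nO, mem_sdiff, mem_inter]
        exact ⟨⟨⟨hu.1.2, hu.2.2⟩, hu.1.1.2⟩, hu.2.1⟩
    have h7 : (nO R (Z ∩ U) p.1).card ≤ (nO R X p.1 ∩ Z).card := by
      apply card_le_card
      intro u hu
      rw [mem_nO, mem_inter] at hu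
      rw [mem_inter, mem_nO]
      exact ⟨⟨hUX hu.1.2, hu.2⟩, hu.1.1⟩
    omega)
  rw [empty_union] at hEmb
  have hSm : ∀ u ∈ S, u ∈ X ∧ u ∉ ys ∪ Hs ∧ u ∈ Z ∧ u ∉ Q := by
    intro u hu
    have h1 := mem_sdiff.1 (hSZ hu)
    have h2 := mem_sdiff.1 (k1 h1.1)
    exact ⟨h2.1, h2.2, h1.1, h1.2⟩
  refine ⟨S, fun u hu => (hSm u hu).1, ?_, hEmb, ?_, ?_⟩
  · rw [disjoint_left]
    exact fun u hu => (hSm u hu).2.1
  · intro j hj
    exact (k4 j hj).trans (Nat.mul_le_mul_left _ (card_le_card (sdiff_subset_sdiff (Subset.refl _)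
      (fun u hu => (hSm u hu).2.2.1))))
  · intro S' hS' hS'y
    apply hS S' _ hS'y
    refine (card_le_card ?_).trans hS'
    intro u hu
    rw [mem_inter] at hu
    exact mem_sdiff.2 ⟨hu.1, fun h => (hSm u h).2.2.2 hu.2⟩

end AEG
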