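import Pool.Agent.AEG.GroupR
import Pool.Agent.AEG.LinkN
import Pool.Agent.AEG.PackM
import Pool.Agent.AEG.FinL

/-!
# The in-items of a heavy stage
-/

set_option autoImplicit false

namespace AEG

open Finset AE15 AED AEB SPD
open scoped Classical

/-- **The in-items of a heavy stage** (links: anywhere; group: in `P₁`, up to `J` vertices) -/
theorem group_in (b l : ℕ) (hb : 1 ≤ b) (Nn : ℕ) : ∃ ηp : ℝ, 0 < ηp ∧ ηp ≤ 1 / 8 ∧ ∀ {k₀ ηc : ℝ}, 0 < k₀ →
    25 * k₀ ≤ ηc → 96 * ηc ≤ ηp → ∃ J C : ℕ, ∀ {V : Type} {R : V → V → Prop}, AE32.Tour R →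
      ∀ {X X₁ P₁ P₂ U₁ G : Finset V} {ys : List V} {y : V} {pp : ℕ} (v a w₀ : V) (l₁ l₂ l₃ : Fd × Fd)
      (gr : List (Fd × Fd)), GrpC R X X₁ P₁ P₂ U₁ G ys y k₀ ηc pp gr.length (4 * Nn) → gr ≠ [] → gr.length ≤ Nn →
      (∀ q ∈ l₁ :: l₂ :: l₃ :: gr, FOK b l 0 q.1 ∧ ∀ t ∈ q.1.trees, t.1 = true) → v ∉ ys → a ∉ ys → w₀ ∉ ys →
      16 * inS [l₁, l₂, l₃] + C ≤ (nI R X v).card → 16 * inS [l₁, l₂, l₃] + C ≤ (nI R X a).card →
      16 * inS [l₁, l₂, l₃] + C ≤ (nI R X w₀).card → inS gr + inS [l₁, l₂, l₃] + C ≤ pp →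
      ∃ Si Sg : Finset V, Si ⊆ X ∧ Sg ⊆ U₁ ∧ Disjoint Si Sg ∧ (∀ u ∈ v :: a :: w₀ :: ys, u ∉ Si ∧ u ∉ Sg) ∧
        EmbAllB (rv R) [(v, l₁.1), (a, l₂.1), (w₀, l₃.1)] Si ∧
        EmbAllB (rv R) ((ys.zip gr).map (fun p => (p.1, p.2.1))) Sg ∧ Si.card = inS [l₁, l₂, l₃] ∧ Sg.card = inS gr ∧
        (Sg \ P₁).card ≤ J ∧
        ∀ u ∈ P₂, R u y → (nI R (P₂.filter (fun w => R y w ∧ w ∈ G)) u).card ≤
          4 * (nI R (P₂.filter (fun w => R y w ∧ w ∈ G)) u \ Si).card := by
  obtain ⟨ηp, hηp0, hηp1, hpack⟩ := pack_GSd b l (Nn + 1) hb (by omega)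
  refine ⟨ηp, hηp0, hηp1, ?_⟩
  intro k₀ ηc hk₀ hkη hηc
  have hηc0 : 0 < ηc := by linarith
  have hηc1 : ηc ≤ 1 / 8 := by linarith
  obtain ⟨κ', s', τ', K', g1, g2, g3, g4, g5, g6, hlink⟩ := link_crude b l hb (7 + 4 / k₀) (κ := k₀ ^ 2 / 8) (ξ := 1 / 6)
    (s := ηc / 8) (τ := ηc / 8) (by positivity) (by nlinarith) (by norm_num) (by norm_num) (by positivity) (by linarith)
    (by positivity) 4 (4 * Nn) Nn
  obtain ⟨C₁, e', hlink⟩ := hlink 3
  obtain ⟨J, hpack⟩ := hpack K' e' κ' (1 / 48) s' τ' g1 (g2.trans (by nlinarith)) (by norm_num) (by norm_num) g3 g5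
  obtain ⟨C₃, hpack⟩ := hpack 0
  refine ⟨J, C₁ + C₃ + 32, ?_⟩
  intro V R hT X X₁ P₁ P₂ U₁ G ys y pp v a w₀ l₁ l₂ l₃ gr hG hgr hlen hbr hv ha hw hcv hca hcw hpp
  obtain ⟨q, hq⟩ : ∃ q, q = inS [l₁, l₂, l₃] := ⟨_, rfl⟩
  have hq' : totB [(v, l₁.1), (a, l₂.1), (w₀, l₃.1)] = q := by
    rw [hq]
    simp [totB, inS]
  rw [← hq] at hcv hca hcw hpp ⊢
  obtain ⟨My, hMy⟩ : ∃ My, My = P₂.filter (fun w => R y w ∧ w ∈ G) := ⟨_, rfl⟩
  rw [← hMy]
  have hP₂X : P₂ ⊆ X := fun u hu => hG.hX₁ ((hG.part u).1 hu).1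
  have hP₁X : P₁ ⊆ X := hG.hP₁.trans (hG.hU₁.trans (hG.hG.trans hG.hX₁))
  have hMyX : My ⊆ X := by
    rw [hMy]
    exact (filter_subset _ _).trans hP₂X
  obtain ⟨Hs, hHs⟩ : ∃ Hs : Finset V, Hs = {v, a, w₀} := ⟨_, rfl⟩
  have hHsc : Hs.card ≤ 3 := by
    rw [hHs]
    exact card_le_three
  have hHsm : ∀ u, u ∈ Hs ↔ u = v ∨ u = a ∨ u = w₀ := by
    intro u
    rw [hHs]
    simp
  have hysc : ys.toFinset.card ≤ Nn := by
    have h1 := List.toFinset_card_le ys
    rw [hG.len] at h1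
    exact h1.trans hlen
  -- the family
  obtain ⟨I, hI⟩ : ∃ I : Finset (Option V),
      I = insert none ((P₂.filter (fun u => R u y)).map ⟨some, Option.some_injective _⟩) := ⟨_, rfl⟩
  have hIm : ∀ u ∈ P₂, R u y → some u ∈ I := by
    intro u hu hR
    rw [hI, mem_insert, mem_map]
    exact Or.inr ⟨u, mem_filter.2 ⟨hu, hR⟩, rfl⟩
  obtain ⟨Si, k1, k2, k3, k4, k5⟩ := hlink (rv_tour hT) (X := X) (U := U₁) (P := P₁) (ys := ys.toFinset) (Hs := Hs)
    (t := 2 * ηc * U₁.card) (os := [(v, l₁.1), (a, l₂.1), (w₀, l₃.1)]) hG.side (by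
      have h1 : (U₁.card : ℝ) ≤ 6 * P₁.card := by
        rw [hG.card₁]
        exact_mod_cast hG.cardU
      linarith) (by rw [hG.card₁]; omega) hysc (hG.hU₁.trans (hG.hG.trans hG.hX₁)) hHsc (by
      intro p hp
      simp only [List.mem_cons, List.not_mem_nil, or_false] at hp
      rcases hp with rfl | rfl | rfl
      · exact ⟨(hHsm _).2 (Or.inl rfl), hbr l₁ (by simp)⟩
      · exact ⟨(hHsm _).2 (Or.inr (Or.inl rfl)), hbr l₂ (by simp)⟩
      · exact ⟨(hHsm _).2 (Or.inr (Or.inr rfl)), hbr l₃ (by simp)⟩) (by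
      intro p hp
      rw [hq', nO_rv]
      simp only [List.mem_cons, List.not_mem_nil, or_false] at hp
      rcases hp with rfl | rfl | rfl
      · show _ ≤ (nI R X v).card
        omega
      · show _ ≤ (nI R X a).card
        omega
      · show _ ≤ (nI R X w₀).card
        omega) I (fun o => o.elim P₁ (fun u => nI R My u)) (by
      rintro (_ | u) hu
      · exact hP₁X
      · exact nI_sub.trans hMyX) (by
      intro k
      have h1 : (I.filter (fun o => (o.elim P₁ (fun u => nI R My u)).card = k)).card ≤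
          1 + (P₂.filter (fun u => R u y ∧ (nI R My u).card ≤ k)).card := by
        have h2 : I.filter (fun o => (o.elim P₁ (fun u => nI R My u)).card = k) ⊆
            {none} ∪ (P₂.filter (fun u => R u y ∧ (nI R My u).card ≤ k)).map ⟨some, Option.some_injective _⟩ := by
          rintro (_ | u) hu
          · exact mem_union_left _ (mem_singleton_self _)
          · apply mem_union_right
            rw [mem_filter, hI, mem_insert, mem_map] at hu
            obtain ⟨hu, hu2⟩ := hu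
            rcases hu with hu | ⟨x, hx, hxu⟩
            · exact absurd hu (by simp)
            · have hxu' : x = u := Option.some_injective _ hxu
              subst hxu'
              rw [mem_filter] at hx
              rw [mem_map]
              exact ⟨x, mem_filter.2 ⟨hx.1, hx.2, le_of_eq hu2⟩, rfl⟩
        have h3 := (card_le_card h2).trans (card_union_le _ _)
        rw [card_map, card_singleton] at h3
        exact h3
      have hk0 : (0 : ℝ) ≤ k := Nat.cast_nonneg _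
      have h4k : 0 ≤ 4 / k₀ := by positivity
      by_cases hk : (k : ℝ) ≤ k₀ / 4 * X.card
      · have h2 := hG.cnt k hk
        rw [← hMy] at h2
        have h3 : ((I.filter (fun o => (o.elim P₁ (fun u => nI R My u)).card = k)).card : ℝ) ≤ 1 + 6 * k := by
          exact_mod_cast h1.trans (Nat.add_le_add_left h2 _)
        have h4 : 0 ≤ 4 / k₀ * (k + 1) := by positivity
        linarith
      · push Not at hk
        have h2 : (P₂.filter (fun u => R u y ∧ (nI R My u).card ≤ k)).card ≤ X.card :=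
          card_le_card ((filter_subset _ _).trans hP₂X)
        have h3 : ((I.filter (fun o => (o.elim P₁ (fun u => nI R My u)).card = k)).card : ℝ) ≤ 1 + X.card := by
          exact_mod_cast h1.trans (Nat.add_le_add_left h2 _)
        have h4 : (X.card : ℝ) ≤ 4 / k₀ * k := by
          have h5 : (X.card : ℝ) = 4 / k₀ * (k₀ / 4 * X.card) := by field_simp
          rw [h5]
          exact mul_le_mul_of_nonneg_left hk.le h4k
        linarith)
  have hSic : Si.card = q := by rw [EmbAllB.card k3, hq']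
  rw [disjoint_union_right] at k2
  have hSi : ∀ u ∈ Si, u ∉ ys ∧ u ∉ Hs := by
    intro u hu
    exact ⟨fun h => disjoint_left.1 k2.1 hu (List.mem_toFinset.2 h), fun h => disjoint_left.1 k2.2 hu h⟩
  have hPSi : pp ≤ 4 * (P₁ \ Si).card := by
    have h1 : P₁.card ≤ 4 * (P₁ \ Si).card := k4 none (by rw [hI]; exact mem_insert_self _ _)
    rwa [hG.card₁] at h1
  obtain ⟨S', hS'⟩ : ∃ S', S' = Si ∪ Hs := ⟨_, rfl⟩
  have hGS := k5 S' (by
    refine (card_le_card ?_).trans hHsc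
    intro u hu
    rw [hS', mem_sdiff, mem_union] at hu
    exact hu.1.resolve_left hu.2) (by
    rw [hS', disjoint_union_left]
    refine ⟨k2.1, ?_⟩
    rw [disjoint_left]
    intro u hu hu'
    rw [List.mem_toFinset] at hu'
    rcases (hHsm u).1 hu with rfl | rfl | rfl
    · exact hv hu'
    · exact ha hu'
    · exact hw hu')
  have hPS' : (P₁ \ Si).card ≤ (P₁ \ S').card + 3 := by
    have h1 : P₁ \ Si ⊆ (P₁ \ S') ∪ Hs := by
      intro u hu
      rw [mem_sdiff] at hu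
      rw [mem_union, mem_sdiff, hS', mem_union]
      by_cases h : u ∈ Hs
      · exact Or.inr h
      · left
        exact ⟨hu.1, fun h' => h'.elim hu.2 h⟩
    exact (card_le_card h1).trans ((card_union_le _ _).trans (by omega))
  have hPq : pp ≤ (P₁ \ Si).card + q := by
    have h1 := le_card_sdiff Si P₁
    rw [hG.card₁, hSic] at h1
    omega
  have hp8 : pp ≤ 8 * (P₁ \ S').card := by omega
  have hp8r : (pp : ℝ) ≤ 8 * (P₁ \ S').card := by exact_mod_cast hp8
  have hU6 : (U₁.card : ℝ) ≤ 6 * pp := by exact_mod_cast hG.cardU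
  have htg : totB ((ys.zip gr).map (fun p => (p.1, p.2.1))) = inS gr := by
    rw [totB_zip (f := Prod.fst) hG.len]
    rfl
  have hfst : (ys.zip gr).map Prod.fst = ys := List.map_fst_zip hG.len.le
  have hsnd : (ys.zip gr).map Prod.snd = gr := List.map_snd_zip hG.len.symm.le
  have hzm : ∀ p ∈ ys.zip gr, p.1 ∈ ys ∧ p.2 ∈ gr := by
    intro p hp
    constructor
    · rw [← hfst]
      exact List.mem_map_of_mem hp
    · rw [← hsnd]
      exact List.mem_map_of_mem hp
  have hzl : ((ys.zip gr).map (fun p => (p.1, p.2.1))).length = gr.length := by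
    rw [List.length_map, List.length_zip, hG.len, Nat.min_self]
  obtain ⟨Sg, m1, m2, -, m4, m5⟩ := hpack (rv_tour hT) hGS (by
      have h1 : ((U₁ \ S').card : ℝ) ≤ U₁.card := by exact_mod_cast card_le_card sdiff_subset
      linarith) (by
      have h1 : 2 * ηc * (U₁.card : ℝ) ≤ 2 * ηc * (6 * (8 * (P₁ \ S').card)) :=
        mul_le_mul_of_nonneg_left (by linarith) (by positivity)
      have h2 : 96 * ηc * ((P₁ \ S').card : ℝ) ≤ ηp * (P₁ \ S').card :=
        mul_le_mul_of_nonneg_right hηc (Nat.cast_nonneg _)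
      linarith) (by omega) ((ys.zip gr).map (fun p => (p.1, p.2.1))) ∅ (by rw [hzl]; omega) (by
      intro h
      rw [h, List.length_nil] at hzl
      exact hgr (List.length_eq_zero_iff.1 hzl.symm)) (by
      intro p hp
      rw [List.mem_map] at hp
      obtain ⟨p', hp', rfl⟩ := hp
      obtain ⟨h1, h2⟩ := hzm p' hp'
      exact ⟨List.mem_toFinset.2 h1, hbr _ (by simp [h2])⟩) (by simp) (by
      rw [htg]
      omega)
  have hSgm : ∀ u ∈ Sg, u ∈ U₁ ∧ u ∉ S' := fun u hu => mem_sdiff.1 (m2 hu)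
  refine ⟨Si, Sg, k1, fun u hu => (hSgm u hu).1, ?_, ?_, k3, m1, hSic, by rw [EmbAllB.card m1, htg], ?_, ?_⟩
  · rw [disjoint_left]
    intro u hu hu'
    apply (hSgm u hu').2
    rw [hS']
    exact mem_union_left _ hu
  · intro u hu
    have h1 : u ∈ Hs ∨ u ∈ ys := by
      rw [hHsm]
      simp only [List.mem_cons] at hu
      tauto
    rcases h1 with h1 | h1
    · refine ⟨fun h => (hSi u h).2 h1, fun h => (hSgm u h).2 ?_⟩
      rw [hS']
      exact mem_union_right _ h1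
    · exact ⟨fun h => (hSi u h).1 h1, fun h => disjoint_left.1 m4 h (List.mem_toFinset.2 h1)⟩
  · refine (card_le_card ?_).trans m5
    intro u hu
    rw [mem_sdiff] at hu
    rw [mem_sdiff, mem_sdiff]
    exact ⟨hu.1, fun h => hu.2 h.1⟩
  · intro u hu hR
    exact k4 (some u) (hIm u hu hR)

end AEG
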