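import Pool.Agent.AEG.GCutH
import Pool.Agent.AEG.ThinM
import Pool.Agent.AEG.P2S
import Pool.Agent.AEG.FrontF

/-!
# The cut of a heavy stage and the route to its first host

`GrpC`: the cut of a heavy stage. `front_hop`: the three links, if the mass of the group is large.
-/

set_option autoImplicit false

namespace AEG

open Finset AE15 AED AEB SPD
open scoped Classical

/-- **The cut of a heavy stage.** `X`: all free vertices, `X₁`: the vertices which are cut, `P₁`: the part of the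
in-items (`p` vertices), `ys`: the hosts of the group, `y`: the last one, `G`: a structure set of `X₁` -/
structure GrpC {V : Type} (R : V → V → Prop) (X X₁ P₁ P₂ U₁ G : Finset V) (ys : List V) (y : V) (κ₀ η : ℝ)
    (p gl e₁ : ℕ) : Prop where
  side : GSd (rv R) U₁ P₁ ys.toFinset (κ₀ ^ 2 / 8) (2 * η * U₁.card) (η / 8) (η / 8) 4 e₁
  hX₁ : X₁ ⊆ X
  hG : G ⊆ X₁
  hU₁ : U₁ ⊆ G
  hP₁ : P₁ ⊆ U₁
  card₁ : P₁.card = p
  cardU : U₁.card ≤ 6 * p
  len : ys.length = gl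
  nodup : ys.Nodup
  chain : ys.IsChain R
  last : ys.getLast? = some y
  hys : ∀ z ∈ ys, z ∈ G ∧ z ∈ U₁ ∧ z ∉ P₁ ∧ z ∉ P₂
  disj : Disjoint P₁ P₂
  part : ∀ u, u ∈ P₂ ↔ u ∈ X₁ ∧ u ∉ P₁ ∧ u ∉ ys
  good : ∀ g ∈ G, Good R (κ₀ ^ 2 / 8) (2 * η) X g
  lin : κ₀ / 2 * X.card ≤ ((P₂.filter (fun w => R y w ∧ w ∈ G)).card : ℝ)
  cnt : ∀ j : ℕ, (j : ℝ) ≤ κ₀ / 4 * X.card →
    (P₂.filter (fun u => R u y ∧ (nI R (P₂.filter (fun w => R y w ∧ w ∈ G)) u).card ≤ j)).card ≤ 6 * j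
  bulk : ∀ u ∈ X₁, u ∉ G → ((nO R G u).card : ℝ) < 2 * κ₀ * X₁.card
  hGc : 15 * (κ₀ * X₁.card) ≤ G.card

/-- **The three links**, if some in-neighbour of the first host has many in-neighbours -/
theorem front_hop {V : Type} {R : V → V → Prop} (hT : AE32.Tour R) {X P₁ F : Finset V} {N : V → Prop} {κ η s : ℝ}
    {lam sig f w K' r : ℕ} {y₁ : V} (hS : StE R X ∅ N κ η s lam sig f w K' 0) (hP : P₁ ⊆ X) (hf : F.card + 3 ≤ f)
    (hr : r ≤ lam) (hop : ∃ w' ∈ P₁, w' ∉ F ∧ R w' y₁ ∧ P₁.card ≤ 16 * (nI R P₁ w').card)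
    (hbig : 16 * (w + K' * (F.card + 3) + 2 * sig + 2 * r + F.card + 5) ≤ P₁.card) :
    ∃ v a w', (v ∈ cg R X ∅ N κ η lam ∨ v ∈ P₁) ∧ v ∈ X ∧ N v ∧ a ∈ P₁ ∧ w' ∈ P₁ ∧ v ∉ F ∧ a ∉ F ∧ w' ∉ F ∧
      v ≠ a ∧ v ≠ w' ∧ a ≠ w' ∧ R v a ∧ R a w' ∧ R w' y₁ ∧ r ≤ (nI R X v).card ∧ r ≤ (nI R X a).card ∧
      r ≤ (nI R X w').card := by
  obtain ⟨w', hw', hwF, hwy, hwd⟩ := hop
  have hm0 : max r sig ≤ r + sig := max_le (Nat.le_add_right _ _) (Nat.le_add_left _ _)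
  obtain ⟨A, hA⟩ : ∃ A, A = (nI R P₁ w').filter (fun a => a ∉ F ∧ r ≤ (nI R X a).card ∧ sig ≤ (nI R X a).card) :=
    ⟨_, rfl⟩
  have hAm : ∀ {a}, a ∈ A ↔ (a ∈ P₁ ∧ R a w') ∧ a ∉ F ∧ r ≤ (nI R X a).card ∧ sig ≤ (nI R X a).card := by
    intro a
    rw [hA, mem_filter, mem_nI]
  have hAc : (nI R P₁ w').card ≤ A.card + F.card + 2 * (r + sig) := by
    have h1 : nI R P₁ w' ⊆ A ∪ F ∪ X.filter (fun g => (nI R X g).card < r + sig) := by
      intro a ha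
      rw [mem_nI] at ha
      rw [mem_union, mem_union, mem_filter, hAm]
      by_cases h2 : a ∈ F
      · exact Or.inl (Or.inr h2)
      · by_cases h3 : (nI R X a).card < r + sig
        · exact Or.inr ⟨hP ha.1, h3⟩
        · exact Or.inl (Or.inl ⟨ha, h2, by omega, by omega⟩)
    have h2 := (card_le_card h1).trans ((card_union_le _ _).trans (Nat.add_le_add_right (card_union_le _ _) _))
    have h3 : (X.filter (fun g => (nI R X g).card < r + sig)).card ≤ 2 * (r + sig) := card_low_in hT (r + sig) X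
    omega
  obtain ⟨A₁, hA₁⟩ : ∃ A₁, A₁ = A.filter (fun a => ¬ (¬ N a ∧ (nI R (cg R X ∅ N κ η lam) a).card ≤ F.card + 3)) :=
    ⟨_, rfl⟩
  have hA₁m : ∀ {a}, a ∈ A₁ ↔ a ∈ A ∧ ¬ (¬ N a ∧ (nI R (cg R X ∅ N κ η lam) a).card ≤ F.card + 3) := by
    intro a
    rw [hA₁, mem_filter]
  have hAc1 : A.card ≤ A₁.card + (w + K' * (F.card + 3)) := by
    have h1 := hS.cnt (F.card + 3) hf
    have h2 : A ⊆ A₁ ∪ (X \ ∅).filter (fun u => ¬ N u ∧ sig ≤ (nI R X u).card ∧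
        (nI R (cg R X ∅ N κ η lam) u).card ≤ F.card + 3) := by
      intro a ha
      have h3 := hAm.1 ha
      rw [mem_union, mem_filter, hA₁m, mem_sdiff]
      by_cases h4 : ¬ N a ∧ (nI R (cg R X ∅ N κ η lam) a).card ≤ F.card + 3
      · exact Or.inr ⟨⟨hP h3.1.1, notMem_empty _⟩, h4.1, h3.2.2.2, h4.2⟩
      · exact Or.inl ⟨ha, h4⟩
    have h3 := (card_le_card h2).trans (card_union_le _ _)
    omega
  have hA₁2 : 2 ≤ A₁.card := by omega
  have hrw : r ≤ (nI R X w').card := by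
    have h1 := card_le_card (nI_mono (R := R) (v := w') hP)
    omega
  by_cases hN : ∃ a ∈ A₁, ¬ N a
  · obtain ⟨a, ha, hNa⟩ := hN
    have h1 := hA₁m.1 ha
    have h2 := hAm.1 h1.1
    have h3 : F.card + 3 < (nI R (cg R X ∅ N κ η lam) a).card := by
      by_contra hc
      push Not at hc
      exact h1.2 ⟨hNa, hc⟩
    have h4 : 0 < (nI R (cg R X ∅ N κ η lam) a \ (F ∪ {w'})).card := by
      have h5 := le_card_sdiff (F ∪ {w'}) (nI R (cg R X ∅ N κ η lam) a)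
      have h6 := card_union_le F {w'}
      rw [card_singleton] at h6
      omega
    obtain ⟨v, hv⟩ := card_pos.1 h4
    rw [mem_sdiff, mem_nI, mem_union, mem_singleton, not_or] at hv
    obtain ⟨⟨hv1, hv2⟩, hv3, hv4⟩ := hv
    have hv5 := mem_cg.1 hv1
    rw [union_empty] at hv5
    refine ⟨v, a, w', Or.inl hv1, hv5.1, hv5.2.1, h2.1.1, hw', hv3, h2.2.1, hwF, ?_, hv4, ?_, hv2, h2.1.2, hwy,
      hr.trans hv5.2.2.2, h2.2.2.1, hrw⟩
    · rintro rfl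
      exact hT.irr _ hv2
    · rintro rfl
      exact hT.irr _ h2.1.2
  · push Not at hN
    obtain ⟨a, ha, b, hb, hab⟩ := one_lt_card.1 (by omega : 1 < A₁.card)
    have key : ∀ a b, a ∈ A₁ → b ∈ A₁ → a ≠ b → R a b → ∃ v a w', (v ∈ cg R X ∅ N κ η lam ∨ v ∈ P₁) ∧ v ∈ X ∧ N v ∧
        a ∈ P₁ ∧ w' ∈ P₁ ∧ v ∉ F ∧ a ∉ F ∧ w' ∉ F ∧ v ≠ a ∧ v ≠ w' ∧ a ≠ w' ∧ R v a ∧ R a w' ∧ R w' y₁ ∧
        r ≤ (nI R X v).card ∧ r ≤ (nI R X a).card ∧ r ≤ (nI R X w').card := by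
      intro a b ha hb hab hR
      have h1 := hAm.1 (hA₁m.1 ha).1
      have h2 := hAm.1 (hA₁m.1 hb).1
      refine ⟨a, b, w', Or.inr h1.1.1, hP h1.1.1, hN a ha, h2.1.1, hw', h1.2.1, h2.2.1, hwF, hab, ?_, ?_, hR, h2.1.2,
        hwy, h1.2.2.1, h2.2.2.1, hrw⟩
      · rintro rfl
        exact hT.irr _ h1.1.2
      · rintro rfl
        exact hT.irr _ h2.1.2
    rcases hT.tot a b hab with h | h
    · exact key a b ha hb hab h
    · exact key b a hb ha hab.symm h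

/-- **The cut of a heavy stage, with the three links.** In the first form (`sg = sig`) the low vertices stay aside; in the
second form the part `P₁` is large against `w`, `sig` and `r`. -/
theorem grp_cut {κ₀ η : ℝ} (h0 : 0 < κ₀) (hη : 25 * κ₀ ≤ η) (hη1 : η ≤ 1 / 8) (Nn f₀ K' : ℕ) : ∃ (ξ : ℝ) (C : ℕ),
    0 < ξ ∧ ∀ {V : Type} {R : V → V → Prop}, AE32.Tour R → ∀ {X : Finset V} {N : V → Prop} {κ ηS s : ℝ}
      {lam sig f w sg p r gl : ℕ}, StE R X ∅ N κ ηS s lam sig f w K' 0 → 1 ≤ gl → gl ≤ Nn → f₀ + 3 ≤ f → r ≤ lam →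
      ((p + sg : ℕ) : ℝ) ≤ ξ * X.card →
      ((sg = sig ∧ r ≤ sig ∧ w + C ≤ p) ∨ 16 * (w + 2 * sig + 2 * r) + C ≤ p) →
      ∃ G ys y P₁ P₂ U₁, GrpC R X (X \ low R sg X) P₁ P₂ U₁ G ys y κ₀ η p gl (4 * Nn) ∧
        ∀ y₁ ∈ ys.head?, ∀ F : Finset V, F.card ≤ f₀ →
          ∃ v a w', (v ∈ cg R X ∅ N κ ηS lam ∨ v ∈ P₁) ∧ v ∈ X ∧ N v ∧ a ∈ P₁ ∧ w' ∈ P₁ ∧ v ∉ F ∧ a ∉ F ∧ w' ∉ F ∧
            v ≠ a ∧ v ≠ w' ∧ a ≠ w' ∧ R v a ∧ R a w' ∧ R w' y₁ ∧ r ≤ (nI R X v).card ∧ r ≤ (nI R X a).card ∧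
            r ≤ (nI R X w').card := by
  have hη0 : 0 < η := by linarith
  obtain ⟨C₁, hC₁⟩ := exists_nat_ge ((8 + 4 * (Nn : ℝ)) / κ₀ + (f₀ : ℝ) / κ₀ + 8 * ((f₀ : ℝ) + 3) / η)
  refine ⟨κ₀ / 8, C₁ + Nn + 1 + 16 * (K' * (f₀ + 3) + f₀ + 5) + 7 * (f₀ + 3), by positivity, ?_⟩
  intro V R hT X N κ ηS s lam sig f w sg p r gl hS hgl hglN hf hr hpX hform
  have hK : ∀ F : Finset V, F.card ≤ f₀ → K' * (F.card + 3) ≤ K' * (f₀ + 3) := fun F hF =>
    Nat.mul_le_mul_left _ (by omega)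
  have hCp : C₁ + Nn + 1 ≤ p := by
    rcases hform with h | h <;> omega
  have hN0 : (0 : ℝ) ≤ Nn := Nat.cast_nonneg _
  have hf0 : (0 : ℝ) ≤ f₀ := Nat.cast_nonneg _
  have hCpr : (C₁ : ℝ) ≤ p := by exact_mod_cast (by omega : C₁ ≤ p)
  have b0 : (0 : ℝ) ≤ (8 + 4 * (Nn : ℝ)) / κ₀ := by positivity
  have b1 : (0 : ℝ) ≤ (f₀ : ℝ) / κ₀ := by positivity
  have b2 : (0 : ℝ) ≤ 8 * ((f₀ : ℝ) + 3) / η := by positivity
  have c0 : 8 + 4 * (Nn : ℝ) ≤ κ₀ * p := by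
    have h : (8 + 4 * (Nn : ℝ)) / κ₀ ≤ p := by linarith
    rw [div_le_iff₀ h0] at h
    linarith
  have c1 : (f₀ : ℝ) ≤ κ₀ * p := by
    have h : (f₀ : ℝ) / κ₀ ≤ p := by linarith
    rw [div_le_iff₀ h0] at h
    linarith
  have c2 : (f₀ : ℝ) + 3 ≤ η / 8 * p := by
    have h : 8 * ((f₀ : ℝ) + 3) / η ≤ p := by linarith
    rw [div_le_iff₀ hη0] at h
    linarith
  push_cast at hpX
  have hp0 : (1 : ℝ) ≤ p := by exact_mod_cast (by omega : 1 ≤ p)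
  have hsg0 : (0 : ℝ) ≤ sg := Nat.cast_nonneg _
  have hX0 : (0 : ℝ) < X.card := by
    by_contra hc
    push Not at hc
    have h1 : κ₀ / 8 * (X.card : ℝ) ≤ 0 := mul_nonpos_of_nonneg_of_nonpos (by positivity) hc
    linarith
  -- the vertices which are cut
  obtain ⟨X₁, hX₁⟩ : ∃ X₁, X₁ = X \ low R sg X := ⟨_, rfl⟩
  rw [← hX₁]
  have hX₁X : X₁ ⊆ X := by rw [hX₁]; exact sdiff_subset
  have hlowX : low R sg X ⊆ X := by rw [low]; exact filter_subset _ _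
  have hlowc : ((low R sg X).card : ℝ) ≤ 2 * sg := by exact_mod_cast card_low_in hT sg X
  have hX₁c : (X₁.card : ℝ) + (low R sg X).card = X.card := by
    rw [hX₁]
    exact_mod_cast card_sdiff_add_card_eq_card hlowX
  have hXX₁ : ((X \ X₁).card : ℝ) ≤ 2 * sg := by
    have h1 : X \ X₁ ⊆ low R sg X := by
      intro u hu
      rw [mem_sdiff, hX₁, mem_sdiff] at hu
      by_contra h
      exact hu.2 ⟨hu.1, h⟩
    have h2 : ((X \ X₁).card : ℝ) ≤ (low R sg X).card := by exact_mod_cast card_le_card h1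
    linarith
  have hκ8 : κ₀ / 8 * (X.card : ℝ) ≤ 1 / 1600 * X.card := mul_le_mul_of_nonneg_right (by linarith) hX0.le
  have hX₁2 : (X.card : ℝ) ≤ 2 * X₁.card := by linarith
  have hX₁0 : (0 : ℝ) ≤ X₁.card := Nat.cast_nonneg _
  have hκX₁ : κ₀ / 2 * (X.card : ℝ) ≤ κ₀ * X₁.card := by
    have := mul_le_mul_of_nonneg_left hX₁2 (by positivity : (0 : ℝ) ≤ κ₀ / 2)
    linarith
  have hpr3 : 3 * (p : ℝ) ≤ κ₀ * X₁.card := by linarith
  obtain ⟨G, ys, y, P₁, P₂, U₁, Gc, hGC, -, -, hhop⟩ := gcutHR hT (X := X₁) (Bd := ∅) (Bad := ∅) (p := p) (q := 3 * p)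
    (N := gl) (e := 0) (b₀ := 0) (κ₀ := κ₀) (η := η) h0 hη hη1 hgl (by
      have h1 : (((gl * (0 + 1) : ℕ)) : ℝ) ≤ Nn := by exact_mod_cast (by omega : gl * (0 + 1) ≤ Nn)
      linarith) (by omega) (by
      push_cast
      linarith) (by simp) (by
      have : (0 : ℝ) ≤ κ₀ * p := by positivity
      simpa using this) (by simp)
  have hhop' := hhop rfl rfl
  have hP₁X : P₁ ⊆ X := hGC.hP₁.trans (hGC.hU₁.trans (hGC.hGX.trans hX₁X))
  refine ⟨G, ys, y, P₁, P₂, U₁, ⟨⟨hGC.hP₁, ?_, ?_, ?_, ?_, ?_⟩, hX₁X, hGC.hGX, hGC.hU₁, hGC.hP₁, hGC.card₁, ?_,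
    hGC.len, hGC.nodup, hGC.chain, hGC.last, ?_, hGC.disj, hGC.part, ?_, ?_, ?_, hGC.bulk, hGC.hG⟩, ?_⟩
  · intro z hz
    exact (hGC.hys z (List.mem_toFinset.1 hz)).2.1
  · rw [disjoint_left]
    intro z hz
    exact (hGC.hys z (List.mem_toFinset.1 hz)).2.2.1
  · intro z hz
    exact (hGC.inn z (List.mem_toFinset.1 hz)).reach
  · intro z hz
    exact (hGC.inn z (List.mem_toFinset.1 hz)).lin
  · intro z hz j hj
    refine ((hGC.inn z (List.mem_toFinset.1 hz)).cnt j hj).trans ?_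
    omega
  · have := hGC.hU₁c
    omega
  · intro z hz
    obtain ⟨h1, h2, h3, h4, -⟩ := hGC.hys z hz
    exact ⟨h1, h2, h3, h4⟩
  · intro g hg
    refine good_add (hGC.good g hg) hX₁X ?_ ?_
    · have h1 := mul_le_mul_of_nonneg_left hX₁2 (by positivity : (0 : ℝ) ≤ κ₀ ^ 2 / 8)
      linarith
    · have h1 : η * (X₁.card : ℝ) ≤ η * X.card := mul_le_mul_of_nonneg_left (by linarith [(Nat.cast_nonneg _ :
        (0 : ℝ) ≤ ((low R sg X).card : ℝ))]) hη0.le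
      have h2 : 25 * κ₀ * (X.card : ℝ) ≤ η * X.card := mul_le_mul_of_nonneg_right hη hX0.le
      have h3 : (0 : ℝ) ≤ κ₀ * X.card := by positivity
      linarith
  · refine hκX₁.trans (hGC.lin.trans ?_)
    apply Nat.cast_le.2
    apply card_le_card
    intro w hw
    rw [mem_filter] at hw ⊢
    exact ⟨hw.1, hw.2.1, hw.2.2.1⟩
  · intro j hj
    have h1 := hGC.cnt j (by
      have : (0 : ℝ) ≤ κ₀ * X.card := by positivity
      linarith)
    simp only [card_empty, Nat.mul_zero, Nat.add_zero] at h1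
    refine le_trans (card_le_card ?_) h1
    intro u hu
    rw [mem_filter] at hu
    obtain ⟨hu1, hu2, hu3⟩ := hu
    have hsub : P₂.filter (fun w => R y w ∧ R w u ∧ w ∈ G ∧ w ∉ (∅ : Finset V)) ⊆
        nI R (P₂.filter (fun w => R y w ∧ w ∈ G)) u := by
      intro w hw
      rw [mem_filter] at hw
      exact mem_nI.2 ⟨mem_filter.2 ⟨hw.1, hw.2.1, hw.2.2.2.1⟩, hw.2.2.1⟩
    have h2 := (card_le_card hsub).trans hu3
    rw [mem_filter]
    refine ⟨?_, h2⟩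
    rcases hGC.out u hu1 hu2 with h3 | ⟨w, h3, -⟩ | h3 | h3
    · simp at h3
    · simp at h3
    · exact h3
    · exfalso
      have h4 : ((P₂.filter (fun w => R y w ∧ R w u ∧ w ∈ G ∧ w ∉ (∅ : Finset V))).card : ℝ) ≤ j := by
        exact_mod_cast h2
      have h5 : (0 : ℝ) < κ₀ * X.card := by positivity
      linarith
  · intro y₁ hy₁ F hF
    have hy₁m : y₁ ∈ ys := List.mem_of_mem_head? hy₁
    have hKF := hK F hF
    rcases hform with ⟨hsg, hrs, hwp⟩ | hform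
    · have hin : ∀ u ∈ P₁, sig ≤ (nI R X u).card := by
        intro u hu
        have h1 := hGC.hGX (hGC.hU₁ (hGC.hP₁ hu))
        rw [hX₁, mem_sdiff, mem_low, not_and, not_lt, hsg] at h1
        exact h1.2 h1.1
      refine front3 hT (lr := 0) (ls := 0) (e := 4 * (F.card + 3)) hS hP₁X (hGC.hys y₁ hy₁m).2.2.1 (by omega) hr ?_ ?_ ?_ ?_
      · rw [Nat.le_zero, card_eq_zero, filter_eq_empty_iff]
        intro u hu
        have := hin u hu
        omega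
      · rw [Nat.le_zero, card_eq_zero, filter_eq_empty_iff]
        intro u hu
        have := hin u hu
        omega
      · have h1 := (hGC.inn₁ y₁ hy₁).cnt (F.card + 3) (by
          rw [hGC.card₁]
          have : (F.card : ℝ) ≤ f₀ := by exact_mod_cast hF
          push_cast
          linarith)
        simp only [Nat.mul_zero, Nat.add_zero] at h1
        refine le_trans (card_le_card ?_) h1
        intro u hu
        rw [mem_filter] at hu ⊢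
        refine ⟨hu.1, hu.2.1, le_trans (card_le_card ?_) hu.2.2⟩
        intro w hw
        rw [mem_filter] at hw ⊢
        exact ⟨hw.1, hw.2.2.1, hw.2.1⟩
      · rw [hGC.card₁]
        omega
    · refine front_hop hT hS hP₁X (by omega) hr (hhop' y₁ hy₁ F ?_) ?_
      · rw [hGC.card₁]
        have : (F.card : ℝ) ≤ f₀ := by exact_mod_cast hF
        linarith
      · rw [hGC.card₁]
        omega

end AEG
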