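import Pool.Agent.AEG.EndF

/-!
# The fine class: the heavy stages, list form
-/

set_option autoImplicit false

namespace AEG

open Finset AE15 AED AEB
open scoped Classical

/-- heavy stage with the constants `f`, `K₁`, `K'`, `ξ`, `C`, the mass behind is comparable -/
def CloseNC (b l K₀ : ℕ) (κ η s : ℝ) (Λ A Nn : ℕ) (ζ : ℝ) (K₁ f K' : ℕ) (ξ : ℝ) (C : ℕ) : Prop :=
  ∀ {V : Type} {R : V → V → Prop}, AE32.Tour R →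
  ∀ (X : Finset V) (N : V → Prop) (lam sig w lam' c : ℕ) (l₁ l₂ l₃ t₁ t₂ t₃ : Fd × Fd) (gr L : List (Fd × Fd)),
    StE R X ∅ N κ η s lam sig f w K' 0 → (∀ q ∈ l₁ :: l₂ :: l₃ :: (gr ++ t₁ :: t₂ :: t₃ :: L), BrO b l q) →
    gr.length ≤ Nn → L ≠ [] → NoDs K₀ (l₁ :: l₂ :: l₃ :: (gr ++ [t₁, t₂, t₃])) L → C ≤ c →
    szS (l₁ :: l₂ :: l₃ :: (gr ++ t₁ :: t₂ :: t₃ :: L)) + c = X.card → ζ * X.card ≤ (szS L + c : ℕ) →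
    Λ * inS [l₁, l₂, l₃] + C ≤ lam → Λ * (inS [l₁, l₂, l₃] + inS [t₁, t₂, t₃] + lam' + 1) + C ≤ sig → C ≤ inS gr →
    ((w + sig + inS [l₁, l₂, l₃] + inS gr : ℕ) : ℝ) ≤ ξ * X.card →
    ∃ w', w' ≤ max (w - inS gr) (inS [l₁, l₂, l₃]) + A * (inS [t₁, t₂, t₃] + lam') + C ∧
      After R κ η s f K₁ lam' sig w' X N (l₁ :: l₂ :: l₃ :: (gr ++ t₁ :: t₂ :: t₃ :: L)) t₂ t₃ L

/-- heavy stage, drop -/
def CloseDC (b l K₀ : ℕ) (κ η s : ℝ) (Λ A Nn : ℕ) (ζ : ℝ) (K₁ f K' : ℕ) (ξ : ℝ) (C : ℕ) : Prop :=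
  ∀ {V : Type} {R : V → V → Prop}, AE32.Tour R →
  ∀ (X : Finset V) (N : V → Prop) (lam sig w lam' c : ℕ) (l₁ l₂ l₃ t₁ t₂ t₃ : Fd × Fd) (gr L : List (Fd × Fd)),
    StE R X ∅ N κ η s lam sig f w K' 0 → (∀ q ∈ l₁ :: l₂ :: l₃ :: (gr ++ t₁ :: t₂ :: t₃ :: L), BrO b l q) →
    gr.length ≤ Nn → L ≠ [] → NoDs K₀ (l₁ :: l₂ :: l₃ :: (gr ++ [t₁, t₂, t₃])) L → C ≤ c →
    szS (l₁ :: l₂ :: l₃ :: (gr ++ t₁ :: t₂ :: t₃ :: L)) + c = X.card → ζ * X.card ≤ (szS L + c : ℕ) →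
    Λ * inS [l₁, l₂, l₃] + C ≤ lam → lam ≤ sig →
    Λ * (w + sig + inS [l₁, l₂, l₃] + inS [t₁, t₂, t₃] + lam') + C ≤ inS gr →
    ((inS [l₁, l₂, l₃] + inS gr : ℕ) : ℝ) ≤ ξ * X.card →
    ∃ w', w' ≤ inS [l₁, l₂, l₃] + A * (inS [t₁, t₂, t₃] + lam') + C ∧
      After R κ η s f K₁ lam' 0 w' X N (l₁ :: l₂ :: l₃ :: (gr ++ t₁ :: t₂ :: t₃ :: L)) t₂ t₃ L

/-- heavy stage, steep drop -/
def CloseEC (b l K₀ : ℕ) (κ η s : ℝ) (Λ A Nn : ℕ) (ζ : ℝ) (K₁ f K' : ℕ) (ξ : ℝ) (C : ℕ) : Prop :=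
  ∀ {V : Type} {R : V → V → Prop}, AE32.Tour R →
  ∀ (X : Finset V) (N : V → Prop) (lam sig w lam' c : ℕ) (l₁ l₂ l₃ t₁ t₂ t₃ : Fd × Fd) (gr L : List (Fd × Fd)),
    StE R X ∅ N κ η s lam sig f w K' 0 → (∀ q ∈ l₁ :: l₂ :: l₃ :: (gr ++ t₁ :: t₂ :: t₃ :: L), BrO b l q) →
    gr.length ≤ Nn → L ≠ [] → NoDs K₀ (l₁ :: l₂ :: l₃ :: (gr ++ [t₁, t₂, t₃])) L → C ≤ c →
    szS (l₁ :: l₂ :: l₃ :: (gr ++ t₁ :: t₂ :: t₃ :: L)) + c = X.card → ζ * X.card ≤ (szS L + c : ℕ) →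
    Λ * inS [l₁, l₂, l₃] + C ≤ lam → lam ≤ sig → A * (inS [t₁, t₂, t₃] + lam') + C ≤ inS [l₁, l₂, l₃] →
    Λ * (w + sig + inS [l₁, l₂, l₃] + inS [t₁, t₂, t₃] + lam') + C ≤ inS gr →
    ((inS [l₁, l₂, l₃] + inS gr : ℕ) : ℝ) ≤ ξ * X.card →
    ∃ w', w' ≤ A * (inS [t₁, t₂, t₃] + lam') + C ∧
      After R κ η s f K₁ lam' 0 w' X N (l₁ :: l₂ :: l₃ :: (gr ++ t₁ :: t₂ :: t₃ :: L)) t₂ t₃ L

theorem closeN_iff {b l K₀ : ℕ} {κ η s : ℝ} {Λ A : ℕ} : CloseN b l K₀ κ η s Λ A ↔ ∀ (Nn : ℕ) (ζ : ℝ), 0 < ζ →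
    ∃ f₀ K₁ : ℕ, ∀ f K' : ℕ, f₀ ≤ f → ∃ (ξ : ℝ) (C : ℕ), 0 < ξ ∧ CloseNC b l K₀ κ η s Λ A Nn ζ K₁ f K' ξ C := Iff.rfl

theorem closeD_iff {b l K₀ : ℕ} {κ η s : ℝ} {Λ A : ℕ} : CloseD b l K₀ κ η s Λ A ↔ ∀ (Nn : ℕ) (ζ : ℝ), 0 < ζ →
    ∃ f₀ K₁ : ℕ, ∀ f K' : ℕ, f₀ ≤ f → ∃ (ξ : ℝ) (C : ℕ), 0 < ξ ∧ CloseDC b l K₀ κ η s Λ A Nn ζ K₁ f K' ξ C := Iff.rfl

theorem closeE_iff {b l K₀ : ℕ} {κ η s : ℝ} {Λ A : ℕ} : CloseE b l K₀ κ η s Λ A ↔ ∀ (Nn : ℕ) (ζ : ℝ), 0 < ζ →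
    ∃ f₀ K₁ : ℕ, ∀ f K' : ℕ, f₀ ≤ f → ∃ (ξ : ℝ) (C : ℕ), 0 < ξ ∧
      CloseEC b l K₀ κ η s Λ A Nn ζ K₁ f K' ξ C := Iff.rfl

/-- splitting the line -/
theorem split_j {L : List (Fd × Fd)} {j : ℕ} (hj : 3 ≤ j) (hL : j + 4 ≤ L.length) :
    ∃ (l₁ l₂ l₃ t₁ t₂ t₃ : Fd × Fd) (gr L' : List (Fd × Fd)), L = l₁ :: l₂ :: l₃ :: (gr ++ t₁ :: t₂ :: t₃ :: L') ∧
      L' ≠ [] ∧ gr.length + 3 = j ∧ inS [l₁, l₂, l₃] = inS (L.take 3) ∧ inS [t₁, t₂, t₃] = inS ((L.drop j).take 3) ∧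
      inS (L.take 3) + inS gr + inS (L.drop j) = inS L ∧ t₂ :: t₃ :: L' = L.drop (j + 1) ∧ t₃ :: L' = L.drop (j + 2) ∧
      L' = L.drop (j + 3) := by
  obtain ⟨l₁, l₂, l₃, L₁, rfl⟩ : ∃ l₁ l₂ l₃ L₁, L = l₁ :: l₂ :: l₃ :: L₁ := by
    match L, hL with
    | l₁ :: l₂ :: l₃ :: L, _ => exact ⟨l₁, l₂, l₃, L, rfl⟩
    | [], h => exact absurd h (by simp)
    | [_], h => exact absurd h (by simp)
    | [_, _], h => exact absurd h (by simp)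
  obtain ⟨d, rfl⟩ := Nat.exists_eq_add_of_le hj
  simp only [List.length_cons] at hL
  obtain ⟨t₁, t₂, t₃, L', h1⟩ : ∃ t₁ t₂ t₃ L', L₁.drop d = t₁ :: t₂ :: t₃ :: L' := by
    have h2 : 4 ≤ (L₁.drop d).length := by rw [List.length_drop]; omega
    match L₁.drop d, h2 with
    | t₁ :: t₂ :: t₃ :: L, _ => exact ⟨t₁, t₂, t₃, L, rfl⟩
  have h2 : (L₁.drop d).length = L'.length + 3 := by rw [h1]; simp
  rw [List.length_drop] at h2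
  have h3 : L₁ = L₁.take d ++ t₁ :: t₂ :: t₃ :: L' := by rw [← h1, List.take_append_drop]
  have e1 : List.drop (3 + d) (l₁ :: l₂ :: l₃ :: L₁) = L₁.drop d := by
    rw [show 3 + d = d + 1 + 1 + 1 by omega]
    simp
  have e2 : ∀ i, List.drop (3 + d + i) (l₁ :: l₂ :: l₃ :: L₁) = (t₁ :: t₂ :: t₃ :: L').drop i := by
    intro i
    rw [← List.drop_drop, e1, h1]
  refine ⟨l₁, l₂, l₃, t₁, t₂, t₃, L₁.take d, L', by rw [← h3], ?_, ?_, by simp, ?_, ?_, ?_, ?_, ?_⟩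
  · rintro rfl
    simp at h2
    omega
  · rw [List.length_take]
    omega
  · rw [e1, h1]
    simp
  · rw [e1]
    have h4 := inS_take_add_drop L₁ d
    have h5 : inS (l₁ :: l₂ :: l₃ :: L₁) = inS [l₁, l₂, l₃] + inS L₁ := by
      rw [show l₁ :: l₂ :: l₃ :: L₁ = [l₁, l₂, l₃] ++ L₁ by rfl, inS_append]
    have h6 : (l₁ :: l₂ :: l₃ :: L₁).take 3 = [l₁, l₂, l₃] := by simp
    rw [h6, h5]
    omega
  · rw [e2]; simp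
  · rw [e2]; simp
  · rw [e2]; simp

/-- the result of a heavy stage, list form -/
theorem After.list {V : Type} {R : V → V → Prop} {κ η s : ℝ} {f K₁ lam' sig' w' : ℕ} {X : Finset V}
    {N : V → Prop} {Lt : List (Fd × Fd)} {t₂ t₃ : Fd × Fd} {L : List (Fd × Fd)} {j : ℕ}
    (h : After R κ η s f K₁ lam' sig' w' X N Lt t₂ t₃ L) (h1 : t₂ :: t₃ :: L = Lt.drop (j + 1))
    (h2 : t₃ :: L = Lt.drop (j + 2)) (h3 : L = Lt.drop (j + 3)) :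
    ∃ (i : ℕ) (X' : Finset V) (z : V), 1 ≤ i ∧ i ≤ 3 ∧ X' ⊆ X ∧ X'.card + szS Lt = X.card + szS (Lt.drop (j + i)) ∧
      StE R X' ∅ (R z) κ η s lam' sig' f w' K₁ 0 ∧ (InS R (Lt.drop (j + i)) (R z) X' → InS R Lt N X) := by
  obtain ⟨L', X', z, h4, h5, h6, h7, h8⟩ := h
  rcases h4 with rfl | rfl | rfl
  · exact ⟨1, X', z, le_rfl, by omega, h5, by rw [← h1]; exact h6, h7, by rw [← h1]; exact h8⟩
  · exact ⟨2, X', z, by omega, by omega, h5, by rw [← h2]; exact h6, h7, by rw [← h2]; exact h8⟩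
  · refine ⟨3, X', z, by omega, le_rfl, h5, ?_, h7, ?_⟩
    · rw [← h3]; exact h6
    · rw [← h3]; exact h8

section
variable {b l K₀ : ℕ} {κ η s : ℝ} {Λ A Nn : ℕ} {ζ : ℝ} {K₁ f K' : ℕ} {ξ : ℝ} {C : ℕ}

/-- the list side of the three heavy stages -/
theorem heavy_pre {K₂ N₁ B : ℕ} {θ : ℝ} {V : Type} {X : Finset V} {L : List (Fd × Fd)} {j : ℕ}
    (hcl : ClsF b l K₀ K₂ N₁ B θ L) (hθ : θ ≤ 1 / 2) (hjN : j ≤ Nn)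
    (hζ : ζ * ((2 * K₀ + 4 : ℕ) ^ (Nn + 3) * (2 * B + 3) : ℕ) ≤ 1) (hζ0 : 0 < ζ)
    {l₁ l₂ l₃ t₁ t₂ t₃ : Fd × Fd} {gr L' : List (Fd × Fd)} (hLe : L = l₁ :: l₂ :: l₃ :: (gr ++ t₁ :: t₂ :: t₃ :: L'))
    (hne : L' ≠ []) (hgr : gr.length + 3 = j) (hd : L' = L.drop (j + 3)) {c : ℕ} (hc : 1 ≤ c)
    (hX : szS L + c = X.card) :
    (∀ q ∈ l₁ :: l₂ :: l₃ :: (gr ++ t₁ :: t₂ :: t₃ :: L'), BrO b l q) ∧ gr.length ≤ Nn ∧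
      NoDs K₀ (l₁ :: l₂ :: l₃ :: (gr ++ [t₁, t₂, t₃])) L' ∧ ζ * X.card ≤ (szS L' + c : ℕ) := by
  refine ⟨?_, by omega, ?_, ?_⟩
  · rw [← hLe]
    exact hcl.br
  · apply ClsF.noDs (l := l) (b := b) (K₂ := K₂) (N₁ := N₁) (B := B) (θ := θ) _ hne
    rw [hLe] at hcl
    simpa using hcl
  · have h1 := hcl.grow' hθ (j + 3)
    rw [← hd] at h1
    have h2 : (2 * K₀ + 4) ^ (j + 3) ≤ (2 * K₀ + 4) ^ (Nn + 3) := Nat.pow_le_pow_right (by omega) (by omega)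
    set a := (2 * K₀ + 4) ^ (Nn + 3) with ha
    have ha1 : 1 ≤ a := Nat.one_le_pow _ _ (by omega)
    have h3 : szS L + (2 * B + 2) ≤ a * (szS L' + (2 * B + 2)) := h1.trans (Nat.mul_le_mul_right _ h2)
    have h4 : X.card ≤ a * (2 * B + 3) * (szS L' + c) := by
      rw [← hX]
      have e1 : a * (szS L' + (2 * B + 2)) + c ≤ a * (2 * B + 3) * (szS L' + c) := by
        have e2 : a * (2 * B + 2) ≤ a * (2 * B + 2) * c := Nat.le_mul_of_pos_right _ (by omega)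
        have e3 : c ≤ a * c := Nat.le_mul_of_pos_left _ (by omega)
        have e4 : a * szS L' ≤ a * (2 * B + 3) * szS L' := by
          have : a ≤ a * (2 * B + 3) := Nat.le_mul_of_pos_right _ (by omega)
          exact Nat.mul_le_mul_right _ this
        calc a * (szS L' + (2 * B + 2)) + c = a * szS L' + a * (2 * B + 2) + c := by ring
          _ ≤ a * (2 * B + 3) * szS L' + a * (2 * B + 2) * c + a * c := by omega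
          _ = a * (2 * B + 3) * (szS L' + c) := by ring
      omega
    have h5 : (X.card : ℝ) ≤ (a * (2 * B + 3) : ℕ) * (szS L' + c : ℕ) := by exact_mod_cast h4
    have h6 := mul_le_mul_of_nonneg_left h5 hζ0.le
    have h7 : ζ * ((a * (2 * B + 3) : ℕ) * (szS L' + c : ℕ)) ≤ 1 * ((szS L' + c : ℕ) : ℝ) := by
      rw [← mul_assoc]
      exact mul_le_mul_of_nonneg_right hζ (Nat.cast_nonneg _)
    linarith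

theorem CloseNC.step (h : CloseNC b l K₀ κ η s Λ A Nn ζ K₁ f K' ξ C) {V : Type} {R : V → V → Prop} (hT : AE32.Tour R)
    {X : Finset V} {N : V → Prop} {lam sig w : ℕ} (lam' : ℕ) {K₂ N₁ B : ℕ} {θ : ℝ} {L : List (Fd × Fd)}
    (hcl : ClsF b l K₀ K₂ N₁ B θ L) (hθ : θ ≤ 1 / 2)
    (hζ : ζ * ((2 * K₀ + 4 : ℕ) ^ (Nn + 3) * (2 * B + 3) : ℕ) ≤ 1) (hζ0 : 0 < ζ)
    (hSt : StE R X ∅ N κ η s lam sig f w K' 0) {j : ℕ} (hj : 3 ≤ j) (hjN : j ≤ Nn) (hjL : j + 4 ≤ L.length)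
    (hX : szS L + C + 1 ≤ X.card) (h1 : Λ * inS (L.take 3) + C ≤ lam)
    (h2 : Λ * (inS (L.take 3) + inS ((L.drop j).take 3) + lam' + 1) + C ≤ sig) {Q : ℕ}
    (hQ : inS (L.take 3) + Q + inS (L.drop j) = inS L) (h3 : C ≤ Q)
    (h4 : ((w + sig + inS (L.take 3) + Q : ℕ) : ℝ) ≤ ξ * X.card) :
    ∃ (i : ℕ) (X' : Finset V) (z : V) (w' : ℕ), 1 ≤ i ∧ i ≤ 3 ∧
      w' ≤ max (w - Q) (inS (L.take 3)) + A * (inS ((L.drop j).take 3) + lam') + C ∧ X' ⊆ X ∧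
      X'.card + szS L = X.card + szS (L.drop (j + i)) ∧ StE R X' ∅ (R z) κ η s lam' sig f w' K₁ 0 ∧
      (InS R (L.drop (j + i)) (R z) X' → InS R L N X) := by
  obtain ⟨l₁, l₂, l₃, t₁, t₂, t₃, gr, L', e0, e1, e2, e3, e4, e5, e6, e7, e8⟩ := split_j hj hjL
  obtain rfl : inS gr = Q := by omega
  obtain ⟨c, hc⟩ : ∃ c, szS L + c = X.card := ⟨X.card - szS L, by omega⟩
  obtain ⟨p1, p2, p3, p4⟩ := heavy_pre hcl hθ hjN hζ hζ0 e0 e1 e2 e8 (c := c) (by omega) hc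
  rw [← e3] at h1 h2 h4 ⊢
  rw [← e4] at h2 ⊢
  rw [e0] at hc
  obtain ⟨w', hw', hA⟩ := h hT X N lam sig w lam' c l₁ l₂ l₃ t₁ t₂ t₃ gr L' hSt p1 p2 e1 p3 (by rw [← e0] at hc; omega) hc p4 h1
    h2 h3 h4
  rw [← e0] at hA
  obtain ⟨i, X', z, i1, i2, a1, a2, a3, a4⟩ := hA.list e6 e7 e8
  exact ⟨i, X', z, w', i1, i2, hw', a1, a2, a3, a4⟩

theorem CloseDC.step (h : CloseDC b l K₀ κ η s Λ A Nn ζ K₁ f K' ξ C) {V : Type} {R : V → V → Prop} (hT : AE32.Tour R)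
    {X : Finset V} {N : V → Prop} {lam sig w : ℕ} (lam' : ℕ) {K₂ N₁ B : ℕ} {θ : ℝ} {L : List (Fd × Fd)}
    (hcl : ClsF b l K₀ K₂ N₁ B θ L) (hθ : θ ≤ 1 / 2)
    (hζ : ζ * ((2 * K₀ + 4 : ℕ) ^ (Nn + 3) * (2 * B + 3) : ℕ) ≤ 1) (hζ0 : 0 < ζ)
    (hSt : StE R X ∅ N κ η s lam sig f w K' 0) {j : ℕ} (hj : 3 ≤ j) (hjN : j ≤ Nn) (hjL : j + 4 ≤ L.length)
    (hX : szS L + C + 1 ≤ X.card) (h1 : Λ * inS (L.take 3) + C ≤ lam) (h2 : lam ≤ sig) {Q : ℕ}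
    (hQ : inS (L.take 3) + Q + inS (L.drop j) = inS L)
    (h3 : Λ * (w + sig + inS (L.take 3) + inS ((L.drop j).take 3) + lam') + C ≤ Q)
    (h4 : ((inS (L.take 3) + Q : ℕ) : ℝ) ≤ ξ * X.card) :
    ∃ (i : ℕ) (X' : Finset V) (z : V) (w' : ℕ), 1 ≤ i ∧ i ≤ 3 ∧
      w' ≤ inS (L.take 3) + A * (inS ((L.drop j).take 3) + lam') + C ∧ X' ⊆ X ∧
      X'.card + szS L = X.card + szS (L.drop (j + i)) ∧ StE R X' ∅ (R z) κ η s lam' 0 f w' K₁ 0 ∧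
      (InS R (L.drop (j + i)) (R z) X' → InS R L N X) := by
  obtain ⟨l₁, l₂, l₃, t₁, t₂, t₃, gr, L', e0, e1, e2, e3, e4, e5, e6, e7, e8⟩ := split_j hj hjL
  obtain rfl : inS gr = Q := by omega
  obtain ⟨c, hc⟩ : ∃ c, szS L + c = X.card := ⟨X.card - szS L, by omega⟩
  obtain ⟨p1, p2, p3, p4⟩ := heavy_pre hcl hθ hjN hζ hζ0 e0 e1 e2 e8 (c := c) (by omega) hc
  rw [← e3] at h1 h3 h4 ⊢
  rw [← e4] at h3 ⊢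
  rw [e0] at hc
  obtain ⟨w', hw', hA⟩ := h hT X N lam sig w lam' c l₁ l₂ l₃ t₁ t₂ t₃ gr L' hSt p1 p2 e1 p3 (by rw [← e0] at hc; omega) hc p4 h1
    h2 h3 h4
  rw [← e0] at hA
  obtain ⟨i, X', z, i1, i2, a1, a2, a3, a4⟩ := hA.list e6 e7 e8
  exact ⟨i, X', z, w', i1, i2, hw', a1, a2, a3, a4⟩

theorem CloseEC.step (h : CloseEC b l K₀ κ η s Λ A Nn ζ K₁ f K' ξ C) {V : Type} {R : V → V → Prop}
    (hT : AE32.Tour R) {X : Finset V} {N : V → Prop} {lam sig w : ℕ} (lam' : ℕ) {K₂ N₁ B : ℕ} {θ : ℝ}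
    {L : List (Fd × Fd)} (hcl : ClsF b l K₀ K₂ N₁ B θ L) (hθ : θ ≤ 1 / 2)
    (hζ : ζ * ((2 * K₀ + 4 : ℕ) ^ (Nn + 3) * (2 * B + 3) : ℕ) ≤ 1) (hζ0 : 0 < ζ)
    (hSt : StE R X ∅ N κ η s lam sig f w K' 0) {j : ℕ} (hj : 3 ≤ j) (hjN : j ≤ Nn) (hjL : j + 4 ≤ L.length)
    (hX : szS L + C + 1 ≤ X.card) (h1 : Λ * inS (L.take 3) + C ≤ lam) (h2 : lam ≤ sig)
    (h5 : A * (inS ((L.drop j).take 3) + lam') + C ≤ inS (L.take 3)) {Q : ℕ}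
    (hQ : inS (L.take 3) + Q + inS (L.drop j) = inS L)
    (h3 : Λ * (w + sig + inS (L.take 3) + inS ((L.drop j).take 3) + lam') + C ≤ Q)
    (h4 : ((inS (L.take 3) + Q : ℕ) : ℝ) ≤ ξ * X.card) :
    ∃ (i : ℕ) (X' : Finset V) (z : V) (w' : ℕ), 1 ≤ i ∧ i ≤ 3 ∧
      w' ≤ A * (inS ((L.drop j).take 3) + lam') + C ∧ X' ⊆ X ∧
      X'.card + szS L = X.card + szS (L.drop (j + i)) ∧
      StE R X' ∅ (R z) κ η s lam' 0 f w' K₁ 0 ∧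
      (InS R (L.drop (j + i)) (R z) X' → InS R L N X) := by
  obtain ⟨l₁, l₂, l₃, t₁, t₂, t₃, gr, L', e0, e1, e2, e3, e4, e5, e6, e7, e8⟩ := split_j hj hjL
  obtain rfl : inS gr = Q := by omega
  obtain ⟨c, hc⟩ : ∃ c, szS L + c = X.card := ⟨X.card - szS L, by omega⟩
  obtain ⟨p1, p2, p3, p4⟩ := heavy_pre hcl hθ hjN hζ hζ0 e0 e1 e2 e8 (c := c) (by omega) hc
  rw [← e3] at h1 h3 h4 h5
  rw [← e4] at h3 h5 ⊢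
  rw [e0] at hc
  obtain ⟨w', hw', hA⟩ := h hT X N lam sig w lam' c l₁ l₂ l₃ t₁ t₂ t₃ gr L' hSt p1 p2 e1 p3 (by rw [← e0] at hc; omega) hc p4
    h1 h2 h5 h3 h4
  rw [← e0] at hA
  obtain ⟨i, X', z, i1, i2, a1, a2, a3, a4⟩ := hA.list e6 e7 e8
  exact ⟨i, X', z, w', i1, i2, hw', a1, a2, a3, a4⟩

end

end AEG
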