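import Pool.Agent.AEG.GCutG

/-!
# Many in-neighbours of an in-neighbour of the first host
-/

set_option autoImplicit false

namespace AEG

open Finset AE15 SPD AECut
open scoped Classical

variable {V : Type*} {R : V → V → Prop}

/-- the first vertex of `ys` has, outside every small set `F`, an in-neighbour in `P` which has at least `|P| / 16`
in-neighbours in `P` -/
def Hop (R : V → V → Prop) (P : Finset V) (κ : ℝ) (ys : List V) : Prop := ∀ y ∈ ys.head?, ∀ F : Finset V,
  (F.card : ℝ) ≤ κ * P.card → ∃ w ∈ P, w ∉ F ∧ R w y ∧ P.card ≤ 16 * (nI R P w).card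

/-- a vertex of large in-degree -/
theorem exists_indeg (hT : AE32.Tour R) {B : Finset V} (hB : 2 ≤ B.card) :
    ∃ w ∈ B, B.card ≤ 2 * (nI R B w).card + 1 := by
  by_contra hcon
  push Not at hcon
  have h1 := card_lowin hT ((B.card + 1) / 2) B
  have h2 : B.filter (fun g => (nI R B g).card < (B.card + 1) / 2) = B := by
    rw [filter_eq_self]
    intro w hw
    have := hcon w hw
    omega
  have h3 : ∑ a ∈ B, (2 * (nI R B a).card + 1) < ∑ a ∈ B, B.card := by
    apply sum_lt_sum_of_nonempty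
    · rw [← card_pos]; omega
    · intro a ha
      exact hcon a ha
  rw [sum_add_distrib, ← mul_sum, ← sum_nO_eq_sum_nI, two_mul_sum_nO hT, sum_const, sum_const, smul_eq_mul,
    smul_eq_mul, mul_one] at h3
  have h4 : B.card * (B.card - 1) + B.card = B.card * B.card := by
    obtain ⟨n, hn⟩ : ∃ n, B.card = n + 1 := ⟨B.card - 1, by omega⟩
    rw [hn, Nat.add_sub_cancel]
    ring
  omega

theorem hop_core (hT : AE32.Tour R) {P Zg E F : Finset V} {y : V} {k : ℝ} (hPc : P.card ≤ Zg.card + E.card)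
    (hZP : Zg ⊆ P) (hEP : E ⊆ P) (hdis : Disjoint Zg E) (hdeg : Zg.card ≤ 2 * (nI R Zg y).card)
    (hE : ∀ u ∈ E, ((nI R Zg u).card : ℝ) ≤ k) (hk0 : 0 ≤ k) (hk : 4 * (k + F.card) ≤ (Zg.card : ℝ))
    (hZ0 : 0 < Zg.card) (hF : 32 * F.card + 32 ≤ P.card) :
    ∃ w ∈ P, w ∉ F ∧ R w y ∧ P.card ≤ 16 * (nI R P w).card := by
  obtain ⟨B, hB⟩ : ∃ B, B = nI R Zg y \ F := ⟨_, rfl⟩
  have hBm : ∀ {w}, w ∈ B ↔ (w ∈ Zg ∧ R w y) ∧ w ∉ F := by
    intro w
    rw [hB, mem_sdiff, mem_nI]
  have hBZ : B ⊆ Zg := fun w hw => (hBm.1 hw).1.1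
  have hBc : Zg.card ≤ 2 * (B.card + F.card) := by
    have h1 := le_card_sdiff F (nI R Zg y)
    rw [← hB] at h1
    omega
  by_cases hc : P.card ≤ 2 * E.card
  · by_contra hcon
    push Not at hcon
    have h1 : ∀ u ∈ E, (B.card : ℝ) ≤ (nO R B u).card + k := by
      intro u hu
      have h2 := card_nO_add_nI hT (X := B) (v := u) (fun h => disjoint_left.1 hdis (hBZ h) hu)
      have h3 : ((nI R B u).card : ℝ) ≤ k := by
        refine le_trans ?_ (hE u hu)
        exact_mod_cast card_le_card (nI_mono hBZ)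
      have h4 : ((nO R B u).card : ℝ) + (nI R B u).card = B.card := by exact_mod_cast h2
      linarith
    have hBcr : (Zg.card : ℝ) ≤ 2 * (B.card + F.card) := by exact_mod_cast hBc
    have hF0 : (0 : ℝ) ≤ F.card := Nat.cast_nonneg _
    have h2 : ∀ u ∈ E, B.card ≤ 2 * (nO R B u).card := by
      intro u hu
      have h3 := h1 u hu
      have h4 : (B.card : ℝ) ≤ 2 * (nO R B u).card := by linarith
      exact_mod_cast h4
    have h3 : E.card * B.card ≤ 2 * ∑ u ∈ E, (nO R B u).card := by
      rw [mul_sum, ← smul_eq_mul, ← sum_const]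
      exact sum_le_sum h2
    rw [sum_nO_eq_sum_nI] at h3
    have h4 : ∀ w ∈ B, 8 * (nI R E w).card ≤ E.card := by
      intro w hw
      have h5 := hBm.1 hw
      have h6 := hcon w (hZP h5.1.1) h5.2 h5.1.2
      have h7 := card_le_card (nI_mono (R := R) (v := w) hEP)
      omega
    have h5 : 8 * ∑ w ∈ B, (nI R E w).card ≤ B.card * E.card := by
      rw [mul_sum, ← smul_eq_mul (B.card), ← sum_const]
      exact sum_le_sum h4
    have h6 : 4 * (E.card * B.card) ≤ B.card * E.card := by omega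
    rw [Nat.mul_comm B.card] at h6
    have h7 : E.card * B.card = 0 := by omega
    have hE0 : 0 < E.card := by omega
    have hB0 : 0 < B.card := by
      rcases Nat.eq_zero_or_pos B.card with h8 | h8
      · exfalso
        rw [h8] at hBcr
        have h9 : (0 : ℝ) < Zg.card := by exact_mod_cast hZ0
        push_cast at hBcr
        linarith
      · exact h8
    have := Nat.mul_pos hE0 hB0
    omega
  · have hZ2 : P.card ≤ 2 * Zg.card := by omega
    have hBP : P.card ≤ 4 * (B.card + F.card) := by omega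
    obtain ⟨w, hw, hw2⟩ := exists_indeg hT (B := B) (by omega)
    have h1 := hBm.1 hw
    refine ⟨w, hZP h1.1.1, h1.2, h1.1.2, ?_⟩
    have h2 := card_le_card (nI_mono (R := R) (v := w) (hBZ.trans hZP))
    omega

end AEG
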