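import Pool.Agent.AEG.FinL

/-!
# One side of a cut with counts, and a place for the rest of the line
-/

set_option autoImplicit false

namespace AEG

open Finset AE15 AED AEB SPD
open scoped Classical

variable {V : Type} {R : V → V → Prop}

/-- `AEG.MSide` with an arbitrary factor in the count -/
structure HS (R : V → V → Prop) (U P : Finset V) (k t s τ : ℝ) (Mc e : ℕ) (y : V) : Prop where
  reach : Rea R U P k t y
  lin : s * P.card ≤ ((P.filter (fun w => R y w ∧ Rea R U P k t w)).card : ℝ)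
  cnt : ∀ j : ℕ, (j : ℝ) ≤ τ * P.card →
    (P.filter (fun u => R u y ∧ (P.filter (fun w => R y w ∧ R w u ∧ Rea R U P k t w)).card ≤ j)).card ≤ Mc * j + e

theorem MSide.hs {U P : Finset V} {k t s s' τ τ' : ℝ} {Mc e e' : ℕ} {y : V} (h : MSide R U P k t s τ e y) (hs : s' ≤ s)
    (hτ : τ' ≤ τ) (hM : 4 ≤ Mc) (he : e ≤ e') : HS R U P k t s' τ' Mc e' y := by
  have hP : (0 : ℝ) ≤ P.card := Nat.cast_nonneg _
  refine ⟨h.reach, (mul_le_mul_of_nonneg_right hs hP).trans h.lin, fun j hj => ?_⟩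
  refine (h.cnt j (hj.trans (mul_le_mul_of_nonneg_right hτ hP))).trans ?_
  exact Nat.add_le_add (Nat.mul_le_mul_right _ hM) he

theorem HS.packH {b l N K Mc e : ℕ} {κc ξ₀ s₁ τ₁ η k : ℝ} {U P : Finset V} {y : V} {F : Fd} {os : List (V × Fd)} {t : ℝ}
    (h : HS R U P k t s₁ τ₁ Mc e y) (hk : k = κc * U.card) (hPU : P ⊆ U) (hlen : os.length + 1 ≤ N) (hF : FOK b l 0 F)
    (hfl : ∀ q ∈ F.trees, q.1 = true)
    (hos : ∀ p ∈ os, FOK b l 0 p.2 ∧ (∀ q ∈ p.2.trees, q.1 = true) ∧ p.2.size ≤ K * (F.size + 1)) (hy : y ∈ U ∧ y ∉ P)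
    (hosU : ∀ p ∈ os, p.1 ∈ U ∧ p.1 ∉ P) (h0 : ξ₀ * U.card ≤ P.card) (hr : ∀ p ∈ os, Rea R U P k t p.1)
    (ht : t ≤ η * P.card) : PackH R b l N K Mc e κc ξ₀ s₁ τ₁ η U P y F os t := by
  subst hk
  exact ⟨hPU, hlen, hF, hfl, hos, hy.1, hy.2, hosU, h0, h.reach, h.lin, h.cnt, hr, ht⟩

/-- **A place for the rest of the line** which leaves a fraction of all sets of dominators -/
theorem exists_T (N : ℕ) {β : ℝ} (hβ0 : 0 < β) : ∃ cc : ℕ, ∀ {V : Type} {R : V → V → Prop}, AE32.Tour R →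
    ∀ (X P Fr : Finset V) (rest : List (Fd × Fd)) (yb yl : V) (k t : ℝ), MSide R X P k t (β / 8) (β / 8) (4 * N) yb →
      β / 8 * P.card ≤ ((nO R P yl).card : ℝ) → ((cc + 4 * Fr.card + 16 * szS rest : ℕ) : ℝ) ≤ β / 8 * P.card →
      ∃ T ⊆ P, Disjoint T Fr ∧ T.card = szS rest ∧
        ((rest = [] ∧ T = ∅) ∨ ∃ z S', z ∉ S' ∧ T = insert z S' ∧ R yl z ∧ EmbS R rest z S') ∧
        HS R X (P \ T) k t (β / 16) (β / 32) 16 (4 * N) yb := by
  obtain ⟨Kc, hKc⟩ : ∃ Kc : ℝ, Kc = 4 + 4 * N + 8 / β := ⟨_, rfl⟩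
  obtain ⟨cc, hclass⟩ := Pool.Agent.H12AE.exists_class 2 Kc 1 le_rfl
  refine ⟨cc, ?_⟩
  intro V R hT X P Fr rest yb yl k t hM hE hsz
  obtain ⟨D, hDd⟩ : ∃ D : V → Finset V, D = fun u => P.filter (fun w => R yb w ∧ R w u ∧ Rea R X P k t w) := ⟨_, rfl⟩
  have hcnt := hM.cnt
  obtain ⟨Zt, hZt, -, -, hZD, hZE, -⟩ := hclass P (P.filter (fun u => R u yb)) D (by
      intro u _
      rw [hDd]
      exact filter_subset _ _) (by
      intro j
      have hsub : (P.filter (fun u => R u yb)).filter (fun u => (D u).card = j) ⊆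
          P.filter (fun u => R u yb ∧ (P.filter (fun w => R yb w ∧ R w u ∧ Rea R X P k t w)).card ≤ j) := by
        intro u hu
        rw [mem_filter, mem_filter] at hu
        rw [mem_filter]
        refine ⟨hu.1.1, hu.1.2, ?_⟩
        have := hu.2
        rw [hDd] at this
        exact this.le
      have hj0 : (0 : ℝ) ≤ j := Nat.cast_nonneg _
      have h8β : (0 : ℝ) ≤ 8 / β := by positivity
      have hKc0 : 0 ≤ 4 + 4 * (N : ℝ) := by positivity
      rcases le_or_gt (j : ℝ) (β / 8 * P.card) with h | h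
      · have h1 : (((P.filter (fun u => R u yb)).filter (fun u => (D u).card = j)).card : ℝ) ≤ 4 * j + 4 * N := by
          exact_mod_cast (card_le_card hsub).trans (hcnt j h)
        have h2 : 4 * (j : ℝ) + 4 * N ≤ (4 + 4 * N) * (j + 1) := by
          have h3 : (0 : ℝ) ≤ N * j := by positivity
          linarith only [h3, hj0]
        have h3 : (4 + 4 * (N : ℝ)) * (j + 1) ≤ Kc * (j + 1) :=
          mul_le_mul_of_nonneg_right (by rw [hKc]; linarith only [h8β]) (by linarith only [hj0])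
        linarith only [h1, h2, h3]
      · have h1 : (((P.filter (fun u => R u yb)).filter (fun u => (D u).card = j)).card : ℝ) ≤ P.card := by
          exact_mod_cast card_le_card ((filter_subset _ _).trans (filter_subset _ _))
        have h2 : (P.card : ℝ) ≤ 8 / β * j := by
          have h3 : 8 / β * (β / 8 * P.card) = P.card := by
            field_simp
          have h4 := mul_le_mul_of_nonneg_left h.le h8β
          linarith only [h3, h4]
        have h3 : 8 / β * (j : ℝ) ≤ Kc * (j + 1) := by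
          have h4 : 8 / β * (j : ℝ) ≤ 8 / β * (j + 1) := mul_le_mul_of_nonneg_left (by linarith only []) h8β
          have h5 : 8 / β * ((j : ℝ) + 1) ≤ Kc * (j + 1) :=
            mul_le_mul_of_nonneg_right (by rw [hKc]; linarith only [hKc0]) (by linarith only [hj0])
          linarith only [h4, h5]
        linarith only [h1, h2, h3]) (univ : Finset Unit) (fun _ => nO R P yl) (fun _ _ => nO_sub) (by simp)
  have hEZ : ((nO R P yl).card : ℝ) ≤ 4 * (nO R P yl ∩ Zt).card + cc := by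
    have := hZE () (mem_univ _)
    exact_mod_cast this
  have hWc : ((nO R P yl ∩ Zt).card : ℝ) ≤ ((nO R P yl ∩ Zt) \ Fr).card + Fr.card := by
    have := le_card_sdiff Fr (nO R P yl ∩ Zt)
    exact_mod_cast (by omega : (nO R P yl ∩ Zt).card ≤ ((nO R P yl ∩ Zt) \ Fr).card + Fr.card)
  push_cast at hsz
  obtain ⟨T, hTW, hTc, hTE⟩ := exists_rest hT rest (y := yl) (W := (nO R P yl ∩ Zt) \ Fr)
    (fun w hw => (mem_nO.1 (mem_inter.1 (mem_sdiff.1 hw).1).1).2) (by
      have h1 : 4 * (szS rest : ℝ) ≤ ((nO R P yl ∩ Zt) \ Fr).card := by linarith only [hEZ, hWc, hsz, hE]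
      exact_mod_cast h1)
  have hTZ : T ⊆ Zt := fun v hv => (mem_inter.1 (mem_sdiff.1 (hTW hv)).1).2
  have hTFr : Disjoint T Fr := by
    rw [disjoint_left]
    exact fun v hv => (mem_sdiff.1 (hTW hv)).2
  have hTP : T ⊆ P := hTZ.trans hZt
  have hTcR : (T.card : ℝ) = szS rest := by exact_mod_cast hTc
  have hcc0 : (0 : ℝ) ≤ cc := Nat.cast_nonneg _
  have hFr0 : (0 : ℝ) ≤ Fr.card := Nat.cast_nonneg _
  have hP'c : (P \ T).card + T.card = P.card := card_sdiff_add_card_eq_card hTP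
  have hP'cR : ((P \ T).card : ℝ) + T.card = P.card := by exact_mod_cast hP'c
  have hT0 : (0 : ℝ) ≤ T.card := Nat.cast_nonneg _
  have hβP' : β * (P \ T).card ≤ β * P.card := mul_le_mul_of_nonneg_left (by linarith only [hP'cR, hT0]) hβ0.le
  refine ⟨T, hTP, hTFr, hTc, hTE, rea_sub hM.reach sdiff_subset, ?_, ?_⟩
  · have h1 := hM.lin
    have h2 : P.filter (fun w => R yb w ∧ Rea R X P k t w) ⊆
        ((P \ T).filter (fun w => R yb w ∧ Rea R X (P \ T) k t w)) ∪ T := by
      intro w hw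
      rw [mem_filter] at hw
      rw [mem_union, mem_filter, mem_sdiff]
      by_cases h5 : w ∈ T
      · exact Or.inr h5
      · exact Or.inl ⟨⟨hw.1, h5⟩, hw.2.1, rea_sub hw.2.2 sdiff_subset⟩
    have h3 : ((P.filter (fun w => R yb w ∧ Rea R X P k t w)).card : ℝ) ≤
        ((P \ T).filter (fun w => R yb w ∧ Rea R X (P \ T) k t w)).card + T.card := by
      exact_mod_cast (card_le_card h2).trans (card_union_le _ _)
    linarith only [h1, h3, hβP', hsz, hTcR, hcc0, hFr0, hT0]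
  · intro j hj
    have h1 := hcnt (4 * j) (by
      push_cast
      linarith only [hj, hβP'])
    refine le_trans (card_le_card ?_) (h1.trans (by omega))
    intro u hu
    rw [mem_filter] at hu ⊢
    have huP : u ∈ P := sdiff_subset hu.1
    refine ⟨huP, hu.2.1, ?_⟩
    have h2 := hZD u (mem_filter.2 ⟨huP, hu.2.1⟩)
    have h3 : (D u \ Zt).card ≤ j := by
      refine le_trans (card_le_card ?_) hu.2.2
      intro w hw
      rw [mem_sdiff, hDd] at hw
      have h4 := mem_filter.1 hw.1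
      rw [mem_filter, mem_sdiff]
      exact ⟨⟨h4.1, fun h => hw.2 (hTZ h)⟩, h4.2.1, h4.2.2.1, rea_sub h4.2.2.2 sdiff_subset⟩
    rw [hDd] at h2 h3
    have h2' : (P.filter (fun w => R yb w ∧ R w u ∧ Rea R X P k t w)).card ≤
      4 * ((P.filter (fun w => R yb w ∧ R w u ∧ Rea R X P k t w)) \ Zt).card := h2
    have h3' : ((P.filter (fun w => R yb w ∧ R w u ∧ Rea R X P k t w)) \ Zt).card ≤ j := h3
    omega

end AEG
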