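import Pool.Agent.AEG.DriverF

/-!
# The fine class: the induction of the driver
-/

set_option autoImplicit false

namespace AEG

open Finset AE15 AED AEB
open scoped Classical

theorem sub_add_max {w Q q x p t : ℕ} (h : p ≤ q + Q + t) :
    ((max (w - Q) q + x : ℕ) : ℝ) ≤ max ((w : ℝ) - p + (q + t + x)) (q + x) := by
  by_cases hw : Q + q ≤ w
  · have h1 : max (w - Q) q + x + p ≤ w + (q + t + x) := by
      rw [max_eq_left (by omega)]
      omega
    have h2 : ((max (w - Q) q + x : ℕ) : ℝ) + p ≤ w + (q + t + x) := by exact_mod_cast h1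
    exact le_max_of_le_left (by linarith)
  · by_cases hq : w - Q ≤ q
    · rw [max_eq_right hq]
      apply le_max_of_le_right
      push_cast
      exact le_rfl
    · exfalso
      omega

theorem driver_ind {b l K₀ : ℕ} {κ η s δ e ξ θ ζ : ℝ} {M₉ f K C Λ A Nn K₂ K₃ Kh k1 k2 B C₅ Bq B₂ W : ℕ} (hs : 0 < s)
    (num : NumF δ e ξ θ M₉ C Λ A Nn K₂ K₃ Kh k1 k2 B C₅ Bq B₂ W) (hζ0 : 0 < ζ)
    (hζ : ζ * ((2 * K₀ + 4 : ℕ) ^ (Nn + 3) * (2 * B + 3) : ℕ) ≤ 1)
    (hL : RoundLC b l K₀ κ η s δ M₉ K f K C) (hN : CloseNC b l K₀ κ η s Λ A Nn ζ K f K ξ C)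
    (hD : CloseDC b l K₀ κ η s Λ A Nn ζ K f K ξ C) (hE : CloseEC b l K₀ κ η s Λ A Nn ζ K f K ξ C)
    {C₀ : ℕ} (hC₀ : C + 1 ≤ C₀) (hC₀s : 4 * (((2 * K₀ + 4) ^ (Nn + 12) * (2 * B + 2) : ℕ) : ℝ) ≤ s * C₀)
    {V : Type} {R : V → V → Prop} (hT : AE32.Tour R) {sigE : ℕ} (hsigE : 16 * B₂ ≤ sigE)
    (hEnd : ∀ {L : List (Fd × Fd)}, L ≠ [] → ClsF b l K₀ K₂ Nn B θ L → ∀ {X : Finset V} {N : V → Prop} {lam w : ℕ},
      StE R X ∅ N κ η s lam sigE f w K 0 → w ≤ W → inS L ≤ 2 * B₂ → 16 * inS (L.take 3) + C ≤ lam →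
      szS L + C₀ ≤ X.card → InS R L N X) :
    ∀ n : ℕ, ∀ {L : List (Fd × Fd)}, L.length = n → L ≠ [] → ClsF b l K₀ K₂ Nn B θ L →
      ∀ {X : Finset V} {N : V → Prop} {M w lam k r : ℕ}, StE R X ∅ N κ η s lam (M / k1) f w K 0 →
      szS L + C₀ ≤ X.card → inS L ≤ M → M ≤ 2 * inS L → B₂ ≤ M → JF e M (inS L) w → PosF K₂ K₃ B L k r →
      (k = 0 ∧ 3 ≤ r ∧ Λ * inS (L.take r) + C₅ ≤ lam ∨ 1 ≤ k ∧ r = 8 ∧ M / k2 ≤ lam) → InS R L N X := by
  have he0 := num.e0.le
  have hθ := num.θ2
  intro n
  induction n using Nat.strong_induction_on with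
  | _ n ih =>
    intro L hn hne hcl X N M w lam k r hSt hX hM1 hM2 hBM hJ hpos hcap
    -- short lines
    by_cases hlen : L.length ≤ Nn + 12
    · apply hSt.finish hT hne
      have h1 := hcl.small hθ hlen
      have h2 : (szS L : ℝ) ≤ (((2 * K₀ + 4) ^ (Nn + 12) * (2 * B + 2) : ℕ) : ℝ) := by exact_mod_cast h1
      have h3 : (C₀ : ℝ) ≤ X.card := by
        have : C₀ ≤ X.card := by omega
        exact_mod_cast this
      have h4 := mul_le_mul_of_nonneg_left h3 hs.le
      linarith
    rw [not_le] at hlen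
    have hk1 : ((M / k1 : ℕ) : ℝ) ≤ e / 512 * M := by
      have h1 : (M / k1) * k1 ≤ M := Nat.div_mul_le_self M k1
      have h2 : ((M / k1 : ℕ) : ℝ) * k1 ≤ M := by exact_mod_cast h1
      have h3 : 512 * ((M / k1 : ℕ) : ℝ) ≤ e * k1 * ((M / k1 : ℕ) : ℝ) :=
        mul_le_mul_of_nonneg_right num.k1a (Nat.cast_nonneg _)
      have h4 : e * (((M / k1 : ℕ) : ℝ) * k1) ≤ e * M := mul_le_mul_of_nonneg_left h2 he0
      linarith [h3, h4, (by ring : e * k1 * ((M / k1 : ℕ) : ℝ) = e * (((M / k1 : ℕ) : ℝ) * k1))]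
    have hmM : ((inS L : ℕ) : ℝ) ≤ M := by exact_mod_cast hM1
    have hw : (w : ℝ) ≤ e * M := hJ.bound he0 hmM (Nat.cast_nonneg _)
    have hmX : ((inS L : ℕ) : ℝ) ≤ X.card := by
      have := inS_le_szS L
      have : inS L ≤ X.card := by omega
      exact_mod_cast this
    have hMX : (M : ℝ) ≤ 2 * X.card := by
      have : (M : ℝ) ≤ 2 * (inS L : ℕ) := by exact_mod_cast hM2
      linarith
    -- renormalization
    have hren : ∀ {L' : List (Fd × Fd)}, L'.length < n → L' ≠ [] → ClsF b l K₀ K₂ Nn B θ L' →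
        ∀ {X' : Finset V} {N' : V → Prop} {w' lam' k' r' : ℕ}, StE R X' ∅ N' κ η s lam' (M / k1) f w' K 0 →
        szS L' + C₀ ≤ X'.card → inS L' ≤ M → M ≤ 16 * inS L' → JF e M (inS L') w' → PosF K₂ K₃ B L' k' r' →
        (k' = 0 ∧ 3 ≤ r' ∧ Λ * inS (L'.take r') + C₅ ≤ lam' ∨ 1 ≤ k' ∧ r' = 8 ∧ M / k2 ≤ lam') → InS R L' N' X' := by
      intro L' hlen' hne' hcl' X' N' w' lam' k' r' hSt' hX' hm1 hm16 hJ' hpos' hcap'
      by_cases h2 : M ≤ 2 * inS L'
      · exact ih L'.length hlen' rfl hne' hcl' hSt' hX' hm1 h2 hBM hJ' hpos' hcap'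
      rw [not_le] at h2
      by_cases h3 : B₂ ≤ inS L'
      · have hJ'' : JF e (inS L' : ℕ) (inS L' : ℕ) ((w' + 2 * (M / k1) : ℕ) : ℝ) := by
          have h4 : 2 * ((inS L' : ℕ) : ℝ) ≤ M := by exact_mod_cast h2.le
          have h5 : (M : ℝ) ≤ 16 * ((inS L' : ℕ) : ℝ) := by exact_mod_cast hm16
          have := hJ'.next he0 num.e1 h4 h5 hk1
          push_cast
          exact this
        refine ih L'.length hlen' rfl hne' hcl' (M := inS L') (hSt'.sig_lower hT (inS L' / k1)) hX' le_rfl (by omega) h3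
          hJ'' hpos' ?_
        rcases hcap' with h | ⟨h4, h5, h6⟩
        · exact Or.inl h
        · exact Or.inr ⟨h4, h5, (Nat.div_le_div_right hm1).trans h6⟩
      · rw [not_le] at h3
        have hw' : (w' : ℝ) ≤ e * M := hJ'.bound he0 (by exact_mod_cast hm1) (Nat.cast_nonneg _)
        have hw'' : w' ≤ M := by
          have h4 : e * (M : ℝ) ≤ 1 * M := mul_le_mul_of_nonneg_right num.e1 (Nat.cast_nonneg _)
          have h5 : (w' : ℝ) ≤ M := by linarith
          exact_mod_cast h5
        have hdiv : M / k1 ≤ M := Nat.div_le_self _ _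
        have hW := num.W16
        refine hEnd hne' hcl' (hSt'.mono le_rfl (by omega) le_rfl le_rfl) (by omega) (by omega) ?_ hX'
        rcases hcap' with ⟨h4, h5, h6⟩ | ⟨h4, h5, h6⟩
        · have h7 : inS (L'.take 3) ≤ inS (L'.take r') := inS_take_mono L' h5
          have h8 : 16 * inS (L'.take r') ≤ Λ * inS (L'.take r') := Nat.mul_le_mul_right _ num.Λa
          have h9 := num.C₅a
          omega
        · have h7 := hpos'.trv 0 (by omega)
          rw [List.drop_zero] at h7
          have h8 := (num.light M _ hBM (h7.trans (Nat.add_le_add_right hm1 _))).2.1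
          omega
    -- a light step
    have hlight : ∀ {kk : ℕ}, 1 ≤ kk → PosF K₂ K₃ B L kk 8 → 16 * inS (L.take 3) + C ≤ lam → InS R L N X := by
      intro kk hkk hp hlam
      have h1 := hp.trv 0 (by omega)
      rw [List.drop_zero] at h1
      obtain ⟨a1, -, a3⟩ := num.light M _ hBM (h1.trans (Nat.add_le_add_right hM1 _))
      have hδ : ((w + M / k1 + inS (L.take 3) : ℕ) : ℝ) ≤ δ * X.card := by
        have h2 : δ * X.card ≥ 4 * e * X.card := mul_le_mul_of_nonneg_right num.eδ (Nat.cast_nonneg _)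
        have h3 : e * (M : ℝ) ≤ e * (2 * X.card) := mul_le_mul_of_nonneg_left hMX he0
        push_cast
        linarith
      obtain ⟨i, X', z, w', i1, i2, -, hc, hSt', hw', hback⟩ := hL.step hT (M / k2) hcl (by omega) hSt hlam a1 hδ
        (by omega)
      have hpL : inS (L.take i) ≤ inS (L.take 3) := inS_take_mono L (by omega)
      have hsum := inS_take_add_drop L i
      have hp' : ((inS (L.take i) : ℕ) : ℝ) ≤ e / 256 * M :=
        (by exact_mod_cast hpL : ((inS (L.take i) : ℕ) : ℝ) ≤ ((inS (L.take 3) : ℕ) : ℝ)).trans a3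
      have heM : e * (M : ℝ) ≤ 1 * M := mul_le_mul_of_nonneg_right num.e1 (Nat.cast_nonneg _)
      have hm16 : M ≤ 16 * inS (L.drop i) := by
        have h2 : 256 * ((inS (L.take i) : ℕ) : ℝ) ≤ M := by linarith
        have h3 : 256 * inS (L.take i) ≤ M := by exact_mod_cast h2
        omega
      have hJ' : JF e M (inS (L.drop i) : ℕ) w' := by
        refine hJ.step (p := (inS (L.take i) : ℕ)) (x := 0) (y := 4 * (inS (L.take i) : ℕ)) he0 ?_ hmM
          (Nat.cast_nonneg _) ?_ ?_ (by linarith)
        · have : ((inS (L.take i) + inS (L.drop i) : ℕ) : ℝ) = (inS L : ℕ) := by exact_mod_cast hsum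
          push_cast at this
          linarith
        · have h2 := hw'
          by_cases h3 : 4 * inS (L.take i) ≤ w - inS (L.take i)
          · rw [max_eq_left h3] at h2
            by_cases h4 : inS (L.take i) ≤ w
            · apply le_max_of_le_left
              have h5 : w' + inS (L.take i) ≤ w := by omega
              have h6 : (w' : ℝ) + (inS (L.take i) : ℕ) ≤ w := by exact_mod_cast h5
              linarith
            · apply le_max_of_le_right
              have h5 : w' = 0 := by omega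
              rw [h5]
              push_cast
              positivity
          · rw [not_le] at h3
            rw [max_eq_right h3.le] at h2
            apply le_max_of_le_right
            exact_mod_cast h2
        · positivity
      have hlen' : (L.drop i).length = L.length - i := List.length_drop ..
      have hne' : L.drop i ≠ [] := by
        intro h2
        rw [h2] at hlen'
        simp at hlen'
        omega
      have hpos' := hp.next hkk i2
      apply hback
      refine hren (by omega) hne' (hcl.drop i) hSt' (by omega) (by omega) hm16 hJ' hpos' ?_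
      by_cases h2 : kk - i = 0
      · left
        refine ⟨h2, by omega, ?_⟩
        have h3 := hpos'.run
        rw [h2, List.drop_zero] at h3
        have h4 : inS (List.drop (0 + (8 - (i - kk))) (L.drop i)) ≤ M :=
          (inS_drop_le _ _).trans ((inS_drop_le _ _).trans hM1)
        exact (num.run M _ hBM (h3.trans (Nat.add_le_add_right h4 _))).1
      · right
        exact ⟨by omega, by omega, le_rfl⟩
    -- the two kinds of positions
    rcases hcap with ⟨rfl, hr3, hcap⟩ | ⟨hk, rfl, hcap⟩
    swap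
    · have h1 := hpos.trv 0 (by omega)
      rw [List.drop_zero] at h1
      have a2 := (num.light M _ hBM (h1.trans (Nat.add_le_add_right hM1 _))).2.1
      exact hlight hk hpos (by omega)
    -- the next run
    have hr8 := hpos.r8
    obtain ⟨j, hj1, hj2, hrun⟩ := hcl.flat r (by omega)
    have hjpos : 3 ≤ j := by omega
    have hq3 : inS (L.take 3) ≤ inS (L.take r) := inS_take_mono L hr3
    have hrun0 : K₂ * inS (L.take r) ≤ inS (L.drop r) + B := by
      have := hpos.run
      rwa [List.drop_zero, Nat.zero_add] at this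
    have hq : K₂ * inS (L.take 3) ≤ M + B :=
      ((Nat.mul_le_mul_left _ hq3).trans hrun0).trans (Nat.add_le_add_right ((inS_drop_le _ _).trans hM1) _)
    have hcap3 : Λ * inS (L.take 3) + C₅ ≤ lam :=
      (Nat.add_le_add_right (Nat.mul_le_mul_left _ hq3) _).trans hcap
    have hC₅ := num.C₅a
    by_cases hheavy : ∀ i, r ≤ i → i < j → Kh * inS ((L.drop i).take 1) ≤ 8 * inS (L.drop j)
    · -- the line is light before the next run
      refine hlight (kk := j) (by omega) (hpos.light num.K₂a num.Kha hrun hheavy) ?_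
      have h2 : 16 * inS (L.take 3) ≤ Λ * inS (L.take 3) := Nat.mul_le_mul_right _ num.Λa
      omega
    push Not at hheavy
    obtain ⟨i₀, hi1, hi2, hi3⟩ := hheavy
    obtain ⟨q', hq'⟩ : ∃ q', q' = inS ((L.drop j).take 8) := ⟨_, rfl⟩
    obtain ⟨qt, hqt⟩ : ∃ qt, qt = inS ((L.drop j).take 3) := ⟨_, rfl⟩
    obtain ⟨q, hqd⟩ : ∃ q, q = inS (L.take 3) := ⟨_, rfl⟩
    obtain ⟨R', hR'⟩ : ∃ R', R' = inS (L.drop j) := ⟨_, rfl⟩
    have hqt' : qt ≤ q' := by
      rw [hqt, hq']
      exact inS_take_mono _ (by omega)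
    have hsplit : inS (L.take j) + inS (L.drop j) = inS L := inS_take_add_drop L j
    have hq3j : inS (L.take 3) ≤ inS (L.take j) := inS_take_mono L (by omega)
    obtain ⟨Q, hQ⟩ : ∃ Q, q + Q + R' = inS L := ⟨inS (L.take j) - q, by omega⟩
    have hq'K : K₂ * q' ≤ inS (L.drop (j + 8)) + B := by rw [hq']; exact hrun
    have hq'R : K₂ * q' ≤ R' + B := hq'K.trans (Nat.add_le_add_right (by rw [hR']; exact inS_drop_anti L (by omega)) _)
    have hR'M : R' ≤ M := by omega
    have hq'M : K₂ * q' ≤ M + B := hq'R.trans (Nat.add_le_add_right hR'M _)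
    have hqM : K₂ * q ≤ M + B := by rw [hqd]; exact hq
    have hdl : ∀ {i : ℕ}, 1 ≤ i → i ≤ 3 → (L.drop (j + i)).length < n ∧ L.drop (j + i) ≠ [] ∧
        inS (L.drop (j + i)) ≤ R' ∧ R' ≤ inS (L.drop (j + i)) + q' ∧ K₂ * q' ≤ inS (L.drop (j + i)) + B ∧
        inS ((L.drop (j + i)).take (8 - i)) ≤ q' := by
      intro i h1 h2
      have h3 : (L.drop (j + i)).length = L.length - (j + i) := List.length_drop ..
      refine ⟨by omega, ?_, ?_, ?_, ?_, ?_⟩
      · intro h4
        rw [h4] at h3
        simp at h3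
        omega
      · rw [hR']
        exact inS_drop_anti L (by omega)
      · have h4 := inS_take_add_drop (L.drop j) i
        rw [List.drop_drop] at h4
        have h5 : inS ((L.drop j).take i) ≤ inS ((L.drop j).take 8) := inS_take_mono _ (by omega)
        omega
      · exact hq'K.trans (Nat.add_le_add_right (inS_drop_anti L (by omega)) _)
      · rw [hq']
        exact take_drop_le L (by omega)
    have hposh : ∀ {i : ℕ}, i ≤ 3 → PosF K₂ K₃ B (L.drop (j + i)) 0 (8 - i) := fun hi => PosF.heavy hrun hi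
    obtain ⟨lam', hlam'⟩ : ∃ lam', lam' = Λ * q' + C₅ := ⟨_, rfl⟩
    have hcap' : ∀ {i : ℕ}, 1 ≤ i → i ≤ 3 → Λ * inS ((L.drop (j + i)).take (8 - i)) + C₅ ≤ lam' := by
      intro i h1 h2
      rw [hlam']
      exact Nat.add_le_add_right (Nat.mul_le_mul_left _ (hdl h1 h2).2.2.2.2.2) _
    by_cases hcomp : M ≤ 8 * R'
    · -- the mass behind is comparable
      have ha : inS ((L.drop i₀).take 1) ≤ Q := by
        have h1 : inS ((L.drop i₀).take 1) ≤ inS ((L.drop 3).take (j - 3)) := by
          have := take_drop_le L (a := 3) (i := i₀ - 3) (r := j - 3) (r' := 1) (by omega)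
          rwa [show 3 + (i₀ - 3) = i₀ by omega] at this
        have h2 := inS_take_add_drop (L.drop 3) (j - 3)
        have h3 := inS_take_add_drop L 3
        rw [List.drop_drop, show 3 + (j - 3) = j by omega] at h2
        omega
      have hMa : M ≤ Kh * inS ((L.drop i₀).take 1) := by omega
      have hMQ : M ≤ Kh * Q := hMa.trans (Nat.mul_le_mul_left _ ha)
      obtain ⟨c1, c2⟩ := num.cost M q q' qt Q hBM hqM hq'M hqt' hMQ
      have c3 := num.costM M q q' qt hBM hqM hq'M hqt'
      have c4 := num.nN M q q' qt hBM hqM hq'M hqt'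
      have hsm : ((w + M / k1 + q + Q : ℕ) : ℝ) ≤ ξ * X.card := by
        have h1 := hcl.single num.θ0 i₀
        have h2 : θ * (szS L : ℝ) ≤ θ * X.card := by
          apply mul_le_mul_of_nonneg_left _ num.θ0
          have : szS L ≤ X.card := by omega
          exact_mod_cast this
        have h3 := num.sm M _ X.card hBM (Or.inl hMa) (h1.trans (by linarith))
        have h4 : ((q + Q : ℕ) : ℝ) ≤ M := by
          have : q + Q ≤ M := by omega
          exact_mod_cast this
        have h5 : e * (M : ℝ) ≤ 1 * M := mul_le_mul_of_nonneg_right num.e1 (Nat.cast_nonneg _)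
        have h6 : ((w + M / k1 + q + Q : ℕ) : ℝ) = w + (M / k1 : ℕ) + ((q + Q : ℕ) : ℝ) := by push_cast; ring
        rw [h6]
        linarith
      obtain ⟨i, X', z, w', i1, i2, hw', -, hc, hSt', hback⟩ := hN.step hT lam' hcl hθ hζ hζ0 hSt hjpos (by omega)
        (by omega) (by omega) (by omega) (by rw [← hqd, ← hqt, hlam']; exact c4) (Q := Q) (by omega) c1
        (by rw [← hqd]; exact hsm)
      obtain ⟨d1, d2, d3, d4, d5, d6⟩ := hdl i1 i2
      apply hback
      have hr16 := (num.run M q' hBM hq'M).2.2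
      refine hren d1 d2 (hcl.drop _) hSt' (by omega) (by omega) (by omega) ?_ (hposh i2)
        (Or.inl ⟨rfl, by omega, hcap' i1 i2⟩)
      -- bookkeeping
      obtain ⟨t, ht⟩ : ∃ t, R' = inS (L.drop (j + i)) + t := ⟨R' - inS (L.drop (j + i)), by omega⟩
      have htq : t ≤ qt := by
        have h4 := inS_take_add_drop (L.drop j) i
        rw [List.drop_drop] at h4
        have h5 : inS ((L.drop j).take i) ≤ inS ((L.drop j).take 3) := inS_take_mono _ (by omega)
        omega
      rw [← hqd, ← hqt] at hw'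
      have hw2 : (w' : ℝ) ≤ max ((w : ℝ) - (q + Q + t : ℕ) + (q + qt + (A * (qt + lam') + C : ℕ)))
          (q + (A * (qt + lam') + C : ℕ)) := by
        have h1 := sub_add_max (w := w) (Q := Q) (q := q) (x := A * (qt + lam') + C) (p := q + Q + t) (t := qt) (by omega)
        have h2 : (w' : ℝ) ≤ ((max (w - Q) q + (A * (qt + lam') + C) : ℕ) : ℝ) := by
          have : w' ≤ max (w - Q) q + (A * (qt + lam') + C) := by omega
          exact_mod_cast this
        exact h2.trans h1
      refine hJ.step (p := (q + Q + t : ℕ)) he0 ?_ hmM (Nat.cast_nonneg _) hw2 ?_ ?_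
      · have : ((inS (L.drop (j + i)) + (q + Q + t) : ℕ) : ℝ) = (inS L : ℕ) := by
          have : inS (L.drop (j + i)) + (q + Q + t) = inS L := by omega
          exact_mod_cast this
        push_cast at this ⊢
        linarith
      · have h1 : ((q + qt + A * (qt + (Λ * q' + C₅)) + C : ℕ) : ℝ) = q + qt + (A * (qt + lam') + C : ℕ) := by
          rw [hlam']
          push_cast
          ring
        rw [← h1]
        refine c2.trans (mul_le_mul_of_nonneg_left ?_ (by linarith))
        push_cast
        linarith [(Nat.cast_nonneg q : (0 : ℝ) ≤ q), (Nat.cast_nonneg t : (0 : ℝ) ≤ t)]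
      · have h1 : ((q + A * (qt + (Λ * q' + C₅)) + C : ℕ) : ℝ) = q + (A * (qt + lam') + C : ℕ) := by
          rw [hlam']
          push_cast
          ring
        rw [← h1]
        exact c3
    · -- a drop
      rw [not_le] at hcomp
      have hr1 := (num.run M q hBM hqM).2.2
      have hM4 : M ≤ 4 * Q := by omega
      have c5 := num.nD M q q' qt Q w hBM hqM hq'M hqt' hM4 hw
      have hlow : StE R X ∅ N κ η s (Λ * q + C₅) (M / k1) f w K 0 :=
        hSt.mono (by rw [hqd]; exact hcap3) le_rfl le_rfl le_rfl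
      have hls : Λ * q + C₅ ≤ M / k1 := (num.run M q hBM hqM).2.1
      have hsm : ((q + Q : ℕ) : ℝ) ≤ ξ * X.card := by
        obtain ⟨t, -, ht⟩ := exists_big_in ((L.drop 3).take (j - 3))
        have h2 := inS_take_add_drop (L.drop 3) (j - 3)
        have h3 := inS_take_add_drop L 3
        rw [List.drop_drop, show 3 + (j - 3) = j by omega] at h2
        have hQe : inS ((L.drop 3).take (j - 3)) = Q := by omega
        have h4 : inS ((((L.drop 3).take (j - 3)).drop t).take 1) ≤ inS ((L.drop (3 + t)).take 1) := by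
          rw [List.drop_take, List.take_take, List.drop_drop]
          exact inS_take_mono _ (min_le_left _ _)
        have h5 : ((L.drop 3).take (j - 3)).length ≤ Nn := by
          rw [List.length_take]
          omega
        have h6 : Q ≤ Nn * inS ((L.drop (3 + t)).take 1) := by
          rw [hQe] at ht
          exact ht.trans (Nat.mul_le_mul h5 h4)
        have h7 : M ≤ 4 * Nn * inS ((L.drop (3 + t)).take 1) := by
          rw [mul_assoc]
          omega
        have h1 := hcl.single num.θ0 (3 + t)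
        have h8 : θ * (szS L : ℝ) ≤ θ * X.card := by
          apply mul_le_mul_of_nonneg_left _ num.θ0
          have : szS L ≤ X.card := by omega
          exact_mod_cast this
        have h9 := num.sm M _ X.card hBM (Or.inr h7) (h1.trans (by linarith))
        have h10 : ((q + Q : ℕ) : ℝ) ≤ M := by
          have : q + Q ≤ M := by omega
          exact_mod_cast this
        linarith [(Nat.cast_nonneg M : (0 : ℝ) ≤ M)]
      -- after the drop
      have hafter : ∀ {i w' : ℕ} {X' : Finset V} {z : V}, 1 ≤ i → i ≤ 3 → StE R X' ∅ (R z) κ η s lam' 0 f w' K 0 →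
          X'.card + szS L = X.card + szS (L.drop (j + i)) → (InS R (L.drop (j + i)) (R z) X' → InS R L N X) →
          (∃ q₁ : ℕ, (16 * q₁ : ℝ) ≤ e * R' + Bq ∧ w' ≤ q₁ + A * (qt + lam') + C) → InS R L N X := by
        intro i w' X' z i1 i2 hSt' hc hback ⟨q₁, hq₁, hw'⟩
        obtain ⟨d1, d2, d3, d4, d5, d6⟩ := hdl i1 i2
        apply hback
        by_cases hB : 2 * B₂ ≤ R'
        · have hq'2 : 2 * q' ≤ K₂ * q' := Nat.mul_le_mul_right _ num.K₂b
          have hBB := num.B₂a
          have hBm : B₂ ≤ inS (L.drop (j + i)) := by omega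
          have hR2 : R' ≤ 2 * inS (L.drop (j + i)) := by omega
          have c6 := num.afterD _ R' q₁ q' qt hBm hR2 d5 hqt' hq₁
          refine ih _ d1 rfl d2 (hcl.drop _) (M := inS (L.drop (j + i)))
            (hSt'.mono le_rfl (Nat.zero_le _) le_rfl le_rfl) (by omega) le_rfl (by omega) hBm ?_ (hposh i2)
            (Or.inl ⟨rfl, by omega, hcap' i1 i2⟩)
          apply JF.start he0 (Nat.cast_nonneg _)
          refine le_trans ?_ c6
          rw [← hlam']
          exact_mod_cast hw'
        · rw [not_le] at hB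
          have c7 := num.endW R' q₁ q' qt hB.le hq'R hqt' hq₁
          refine hEnd d2 (hcl.drop _) (hSt'.mono le_rfl (Nat.zero_le _) le_rfl le_rfl) ?_ (by omega) ?_ (by omega)
          · rw [← hlam'] at c7
            omega
          · have h1 : inS ((L.drop (j + i)).take 3) ≤ inS ((L.drop (j + i)).take (8 - i)) := inS_take_mono _ (by omega)
            have h2 : 16 * inS ((L.drop (j + i)).take (8 - i)) ≤ Λ * inS ((L.drop (j + i)).take (8 - i)) :=
              Nat.mul_le_mul_right _ num.Λa
            have h3 := hcap' i1 i2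
            omega
      by_cases hsteep : (16 * q : ℝ) ≤ e * R' + Bq
      · obtain ⟨i, X', z, w', i1, i2, hw', -, hc, hSt', hback⟩ := hD.step hT lam' hcl hθ hζ hζ0 hlow hjpos (by omega)
          (by omega) (by omega) (by rw [hqd]; omega) hls (Q := Q) (by omega)
          (by rw [← hqd, ← hqt, hlam']; exact c5) (by rw [← hqd]; exact hsm)
        refine hafter i1 i2 hSt' hc hback ⟨q, hsteep, ?_⟩
        rw [hqd, hqt]
        exact hw'
      · rw [not_le] at hsteep
        have c8 := num.steep R' q q' qt hq'R hqt' hsteep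
        obtain ⟨i, X', z, w', i1, i2, hw', -, hc, hSt', hback⟩ := hE.step hT lam' hcl hθ hζ hζ0 hlow hjpos (by omega)
          (by omega) (by omega) (by rw [hqd]; omega) hls (by rw [← hqd, ← hqt, hlam']; exact c8) (Q := Q) (by omega)
          (by rw [← hqd, ← hqt, hlam']; exact c5) (by rw [← hqd]; exact hsm)
        refine hafter i1 i2 hSt' hc hback ⟨0, ?_, ?_⟩
        · push_cast
          have := mul_nonneg he0 (Nat.cast_nonneg (α := ℝ) R')
          have h2 := Nat.cast_nonneg (α := ℝ) Bq
          linarith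
        · rw [hqt]
          omega

end AEG
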