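import Pool.Agent.AEB.ItemsB
import Pool.Agent.AEF.Keep

/-!
# Items at hosts; graded families are kept
-/

set_option autoImplicit false

namespace AEG

open Finset AE15 AED AEB
open scoped Classical

theorem embI_of_fin {V : Type*} {R : V → V → Prop} (L : List (V × Fd)) (S : Fin L.length → Finset V)
    (hS : ∀ i, ∃ x B, R (L.get i).1 x ∧ x ∉ B ∧ S i = insert x B ∧ Emb R (L.get i).2 x B)
    (hd : ∀ i j, i ≠ j → Disjoint (S i) (S j)) : EmbI R L (univ.biUnion S) := by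
  induction L with
  | nil =>
    change univ.biUnion S = ∅
    ext y
    simp only [mem_biUnion, mem_univ, true_and, notMem_empty, iff_false, not_exists]
    intro i
    exact i.elim0
  | cons p L ih =>
    refine ⟨S ⟨0, Nat.succ_pos _⟩, univ.biUnion (fun i : Fin L.length => S i.succ), ?_, ?_, hS ⟨0, Nat.succ_pos _⟩, ?_⟩
    · rw [disjoint_biUnion_right]
      intro i _
      exact hd _ _ (by intro h; simp [Fin.ext_iff] at h)
    · ext y
      simp only [mem_biUnion, mem_univ, true_and, mem_union]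
      constructor
      · rintro ⟨i, hi⟩
        rcases Fin.eq_zero_or_eq_succ i with rfl | ⟨j, rfl⟩
        · exact Or.inl hi
        · exact Or.inr ⟨j, hi⟩
      · rintro (h | ⟨j, hj⟩)
        · exact ⟨_, h⟩
        · exact ⟨_, hj⟩
    · exact ih (fun i => S i.succ) (fun i => hS i.succ) (fun i j hij => hd _ _ (by simpa using hij))

/-- **Items at hosts; graded families are kept.** The items `L` are embedded onto `T`; `Q` is the rest, `P₀`, `P₁` and `P₂`
are three further pieces, `P₂` has at least `w` vertices. -/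
theorem items_keep {ε c : ℝ} (hε : 0 < ε) (hε1 : ε ≤ 1) (hc : 0 < c) (m m₁ Kg : ℕ) : ∃ n₁ M₉ c₉ : ℕ, 1 ≤ M₉ ∧
    ∀ {V : Type} {R : V → V → Prop} (A : Finset V) (𝓕 : Finset (Finset V)), n₁ ≤ A.card → 𝓕.card ≤ A.card ^ 5 →
      ∀ {ι : Type} (G : Finset ι) (D : ι → Finset V), (∀ u ∈ G, D u ⊆ A) → (∀ u ∈ G, (D u).Nonempty) →
      Pool.Agent.AEF.Graded G D Kg →
      ∀ (S : Finset V) (I : V → Finset V), (∀ v ∈ S, I v ⊆ A) → Pool.Agent.AEF.Graded S I Kg →
      ∀ (p : NP) (κ η s K C : ℝ), 0 ≤ K → 0 ≤ C → 0 < η → 14 * η ≤ 1 → ∀ L : List (V × Fd), L.length ≤ m →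
        (∀ q ∈ L, OkB R κ η s p A 𝓕 ε m₁ (R q.1)) → (∀ q ∈ L, EE R κ η s p K C q.2) →
        ∀ w : ℝ, 0 ≤ w → (K * AEB.isz L + m * C) / (1 - 7 * η) + m * m₁ + w ≤ (1 - 3 * c) * A.card →
        ∃ T Q P₀ P₁ P₂ : Finset V, T ⊆ A ∧ Q ⊆ A ∧ P₀ ⊆ A ∧ P₁ ⊆ A ∧ Disjoint T Q ∧ Disjoint T P₀ ∧ Disjoint T P₁ ∧
          Disjoint Q P₀ ∧ Disjoint Q P₁ ∧ Disjoint P₀ P₁ ∧ (P₂ ⊆ A ∧ Disjoint T P₂ ∧ Disjoint Q P₂ ∧ Disjoint P₀ P₂ ∧
          Disjoint P₁ P₂ ∧ w ≤ P₂.card ∧ Rep A 𝓕 ε P₂) ∧ EmbI R L T ∧ c * A.card ≤ Q.card ∧ Rep A 𝓕 ε Q ∧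
          (∀ u ∈ G, (D u ∩ Q).Nonempty ∧ (D u).card ≤ M₉ * (D u ∩ Q).card) ∧
          (∀ v ∈ S, c₉ ≤ (I v).card → (I v).card ≤ M₉ * (I v ∩ Q).card ∧ (I v).card ≤ M₉ * (I v ∩ P₀).card ∧
            (I v).card ≤ M₉ * (I v ∩ P₁).card) := by
  obtain ⟨n₁, M₉, c₉, hM₉, hmain⟩ := Pool.Agent.AEF.exists_pieces_keep hε hε1 hc (m + 3) Kg
  refine ⟨n₁, M₉, c₉, hM₉, ?_⟩
  intro V R A 𝓕 hA hF ι G D hD hDne hGD S I hI hSI p κ η s K C hK hC hη hη1 L hLm hOk hEE w hw hsz
  have h5 : 0 < 1 - 7 * η := by linarith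
  obtain ⟨t, ht⟩ : ∃ t : Fin L.length → ℝ, t = fun i => (K * ((L.get i).2.size + 1) + C) / (1 - 7 * η) + m₁ := ⟨_, rfl⟩
  have ht0 : ∀ i, 0 ≤ t i := fun i => by
    rw [ht]
    positivity
  have hsum : ∑ i, t i + w ≤ (1 - 3 * c) * A.card := by
    refine le_trans (add_le_add_left ?_ w) hsz
    simp only [ht]
    rw [Finset.sum_add_distrib, ← Finset.sum_div, Finset.sum_add_distrib, ← Finset.mul_sum, Finset.sum_const,
      Finset.sum_const, card_univ, Fintype.card_fin, nsmul_eq_mul, nsmul_eq_mul]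
    have h6 : ∑ i : Fin L.length, (((L.get i).2.size : ℝ) + 1) = (AEB.isz L : ℝ) := by
      have h7 : AEB.isz L = ∑ i : Fin L.length, ((L.get i).2.size + 1) := by
        rw [AEB.isz, ← List.sum_ofFn]
        congr 1
        apply List.ext_getElem
        · simp
        · intro i h8 h9
          simp
      rw [h7]
      push_cast
      rfl
    rw [h6]
    have h8 : (L.length : ℝ) ≤ m := by exact_mod_cast hLm
    have h9 : (0 : ℝ) ≤ m₁ := Nat.cast_nonneg _
    apply add_le_add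
    · apply div_le_div_of_nonneg_right _ h5.le
      nlinarith
    · exact mul_le_mul_of_nonneg_right h8 h9
  obtain ⟨P, Q, hPA, hPne, hPd, hPQ, hQA, hPs, hPR, hQc, hQR, hk1, hk2⟩ := hmain A 𝓕 hA hF G D hD hDne hGD S I hI hSI
    (L.length + 3) (Fin.append t (fun i : Fin 3 => if i = 2 then w else 0)) (by omega) (by
      intro i
      refine Fin.addCases (fun j => ?_) (fun j => ?_) i
      · rw [Fin.append_left]
        exact ht0 j
      · rw [Fin.append_right]
        split_ifs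
        · exact hw
        · exact le_rfl) (by
      rw [Fin.sum_univ_add]
      simp only [Fin.append_left, Fin.append_right]
      refine le_trans (le_of_eq ?_) hsum
      congr 1
      simp)
  obtain ⟨P', hP'⟩ : ∃ P' : Fin L.length → Finset V, P' = fun i => P (Fin.castAdd 3 i) := ⟨_, rfl⟩
  have hP's : ∀ i, t i ≤ (P' i).card := by
    intro i
    have := hPs (Fin.castAdd 3 i)
    rw [Fin.append_left] at this
    rw [hP']
    exact this
  have hne0 : ∀ (i : Fin L.length) (j : Fin 3), Fin.castAdd 3 i ≠ Fin.natAdd L.length j := by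
    intro i j h
    rw [Fin.ext_iff] at h
    simp only [Fin.val_castAdd, Fin.val_natAdd] at h
    have := i.2
    omega
  have h01 : ∀ i j : Fin 3, i ≠ j → Fin.natAdd L.length i ≠ Fin.natAdd L.length j := by
    intro i j hij h
    apply hij
    rw [Fin.ext_iff] at h ⊢
    simp only [Fin.val_natAdd] at h
    omega
  have key : ∀ i : Fin L.length, ∃ S ⊆ P' i,
      ∃ x B, R (L.get i).1 x ∧ x ∉ B ∧ S = insert x B ∧ Emb R (L.get i).2 x B := by
    intro i
    have hi : L.get i ∈ L := List.get_mem L i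
    have h7 := hP's i
    rw [ht] at h7
    simp only at h7
    have h8 : (0 : ℝ) ≤ (K * ((L.get i).2.size + 1) + C) / (1 - 7 * η) := by positivity
    have h9 : m₁ ≤ (P' i).card := by
      have : (m₁ : ℝ) ≤ (P' i).card := by linarith
      exact_mod_cast this
    obtain ⟨P'', hP'', hcard, hD', hcov⟩ := hOk _ hi (P' i) (by rw [hP']; exact hPA _) h9 (by rw [hP']; exact hPR _)
    have h6 : K * ((L.get i).2.size + 1) + C ≤ P''.card := by
      refine le_trans ?_ hcard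
      have h10 : (K * ((L.get i).2.size + 1) + C) / (1 - 7 * η) ≤ (P' i).card := by
        have : (0 : ℝ) ≤ m₁ := Nat.cast_nonneg _
        linarith
      rw [div_le_iff₀ h5] at h10
      linarith
    obtain ⟨x, hx, B, hB, hxB, hN, hE⟩ := hEE _ hi P'' _ h6 (Cl_of_Ok p _ hD' hcov)
    exact ⟨insert x B, insert_subset (hP'' hx) (hB.trans hP''), x, B, hN, hxB, rfl, hE⟩
  choose T hTP hTE using key
  have hTP' : ∀ i, T i ⊆ P (Fin.castAdd 3 i) := fun i => by
    have := hTP i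
    rw [hP'] at this
    exact this
  have hTd : ∀ i j, i ≠ j → Disjoint (T i) (T j) := fun i j hij =>
    disjoint_of_subset_left (hTP' i) (disjoint_of_subset_right (hTP' j) (hPd _ _ (by
      intro h
      exact hij (Fin.castAdd_injective _ _ h))))
  have hTQ : ∀ Q' : Finset V, (∀ i : Fin L.length, Disjoint (P (Fin.castAdd 3 i)) Q') → Disjoint (univ.biUnion T) Q' := by
    intro Q' h
    rw [disjoint_biUnion_left]
    exact fun i _ => disjoint_of_subset_left (hTP' i) (h i)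
  have hP2 : w ≤ (P (Fin.natAdd L.length 2)).card := by
    have := hPs (Fin.natAdd L.length 2)
    rw [Fin.append_right] at this
    simpa using this
  refine ⟨univ.biUnion T, Q, P (Fin.natAdd L.length 0), P (Fin.natAdd L.length 1), P (Fin.natAdd L.length 2), ?_, hQA,
    hPA _, hPA _, hTQ _ (fun i => hPQ _), hTQ _ (fun i => hPd _ _ (hne0 i 0)), hTQ _ (fun i => hPd _ _ (hne0 i 1)),
    (hPQ _).symm, (hPQ _).symm, hPd _ _ (h01 _ _ (by decide)), ⟨hPA _, hTQ _ (fun i => hPd _ _ (hne0 i 2)), (hPQ _).symm,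
    hPd _ _ (h01 _ _ (by decide)), hPd _ _ (h01 _ _ (by decide)), hP2, hPR _⟩, embI_of_fin L T hTE hTd, hQc, hQR, hk1,
    ?_⟩
  · rw [biUnion_subset]
    exact fun i _ => (hTP' i).trans (hPA _)
  · intro v hv hv9
    obtain ⟨h1, h2⟩ := hk2 v hv hv9
    exact ⟨h1, h2 _, h2 _⟩

end AEG
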