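import Pool.Agent.AEF.Keep
import Pool.Agent.AEF.LightHost
import Pool.Agent.AEB.ItemsB

/-!
# Abstract light items

`Bx R A 𝓕 ε m₁ N c w`: the tree `c` can be embedded, with its root satisfying `N`, in every subset of `A` which
represents `𝓕` and has at least `w` (and `m₁`) vertices. The lemma `lights` embeds a bounded number of such items in
disjoint pieces; the rest keeps a proportion of every member of given graded families.
-/

namespace AEG

open Finset AE15 AED AEB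
open scoped Classical

/-- black box for one item; `w` is the size which is needed -/
def Bx {V : Type*} (R : V → V → Prop) (A : Finset V) (𝓕 : Finset (Finset V)) (ε : ℝ) (m₁ : ℕ) (N : V → Prop) (c : Fd)
    (w : ℝ) : Prop :=
  ∀ P ⊆ A, m₁ ≤ P.card → w ≤ P.card → Rep A 𝓕 ε P → In R c N P

/-- the items are embedded disjointly, onto `S`, the roots satisfying the predicates -/
def EmbN {V : Type*} (R : V → V → Prop) : List ((V → Prop) × Fd) → Finset V → Prop
  | [], S => S = ∅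
  | p :: L, S => ∃ S₁ S₂, Disjoint S₁ S₂ ∧ S = S₁ ∪ S₂ ∧
      (∃ x A, p.1 x ∧ x ∉ A ∧ S₁ = insert x A ∧ Emb R p.2 x A) ∧ EmbN R L S₂

section basic

variable {V : Type*} {R : V → V → Prop}

theorem embI_iff (L : List (V × Fd)) (S : Finset V) :
    EmbI R L S ↔ EmbN R (L.map (fun q => (R q.1, q.2))) S := by
  induction L generalizing S with
  | nil => exact Iff.rfl
  | cons q L ih =>
    constructor
    · rintro ⟨A₁, A₂, h1, h2, h3, h4⟩
      exact ⟨A₁, A₂, h1, h2, h3, (ih A₂).1 h4⟩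
    · rintro ⟨A₁, A₂, h1, h2, h3, h4⟩
      exact ⟨A₁, A₂, h1, h2, h3, (ih A₂).2 h4⟩

theorem embL_iff (v : V) (L : List (Bool × Fd)) (S : Finset V) :
    EmbL R v L S ↔ EmbN R (L.map (fun q => (Adj R q.1 v, q.2))) S := by
  induction L generalizing S with
  | nil => exact Iff.rfl
  | cons q L ih =>
    constructor
    · rintro ⟨A₁, A₂, h1, h2, h3, h4⟩
      exact ⟨A₁, A₂, h1, h2, h3, (ih A₂).1 h4⟩
    · rintro ⟨A₁, A₂, h1, h2, h3, h4⟩
      exact ⟨A₁, A₂, h1, h2, h3, (ih A₂).2 h4⟩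

theorem EmbN.append {L₁ L₂ : List ((V → Prop) × Fd)} {S : Finset V} :
    EmbN R (L₁ ++ L₂) S ↔ ∃ S₁ S₂, Disjoint S₁ S₂ ∧ S = S₁ ∪ S₂ ∧ EmbN R L₁ S₁ ∧ EmbN R L₂ S₂ := by
  induction L₁ generalizing S with
  | nil =>
    constructor
    · intro h
      exact ⟨∅, S, disjoint_empty_left _, by simp, rfl, h⟩
    · rintro ⟨S₁, S₂, -, rfl, h1, h2⟩
      have h3 : S₁ = ∅ := h1
      subst h3
      simpa using h2
  | cons p L ih =>
    constructor
    · rintro ⟨A₁, A₂, h1, rfl, h3, h4⟩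
      obtain ⟨B₁, B₂, h5, rfl, h6, h7⟩ := ih.1 h4
      rw [disjoint_union_right] at h1
      refine ⟨A₁ ∪ B₁, B₂, disjoint_union_left.2 ⟨h1.2, h5⟩, by rw [union_assoc], ⟨A₁, B₁, h1.1, rfl, h3, h6⟩, h7⟩
    · rintro ⟨S₁, S₂, h1, rfl, ⟨A₁, A₂, h2, rfl, h3, h4⟩, h5⟩
      rw [disjoint_union_left] at h1
      refine ⟨A₁, A₂ ∪ S₂, disjoint_union_right.2 ⟨h2, h1.1⟩, by rw [union_assoc], h3, ?_⟩
      exact ih.2 ⟨A₂, S₂, h1.2, rfl, h4, h5⟩

theorem EmbN.perm {L₁ L₂ : List ((V → Prop) × Fd)} (hL : L₁.Perm L₂) {S : Finset V} (h : EmbN R L₁ S) :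
    EmbN R L₂ S := by
  induction hL generalizing S with
  | nil => exact h
  | cons p _ ih =>
    obtain ⟨B₁, B₂, h1, rfl, h2, h3⟩ := h
    exact ⟨B₁, B₂, h1, rfl, h2, ih h3⟩
  | swap p q L =>
    obtain ⟨B₁, B₂, h1, rfl, h2, B₃, B₄, h3, rfl, h4, h5⟩ := h
    rw [disjoint_union_right] at h1
    refine ⟨B₃, B₁ ∪ B₄, disjoint_union_right.2 ⟨h1.1.symm, h3⟩, ?_, h4, B₁, B₄, h1.2, rfl, h2, h5⟩
    rw [← union_assoc, ← union_assoc, union_comm B₁ B₃]
  | trans _ _ ih1 ih2 => exact ih2 (ih1 h)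

theorem EmbN.card {L : List ((V → Prop) × Fd)} {S : Finset V} (h : EmbN R L S) :
    S.card = (L.map (fun q => q.2.size + 1)).sum := by
  induction L generalizing S with
  | nil => rw [show S = ∅ from h]; rfl
  | cons p L ih =>
    obtain ⟨A₁, A₂, h1, rfl, ⟨x, A, _, h5, rfl, h6⟩, h3⟩ := h
    rw [card_union_of_disjoint h1, card_insert_of_notMem h5, h6.card, ih h3, List.map_cons, List.sum_cons]

theorem embN_of_fin (L : List ((V → Prop) × Fd)) (S : Fin L.length → Finset V)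
    (hS : ∀ i, ∃ x B, (L.get i).1 x ∧ x ∉ B ∧ S i = insert x B ∧ Emb R (L.get i).2 x B)
    (hd : ∀ i j, i ≠ j → Disjoint (S i) (S j)) : EmbN R L (univ.biUnion S) := by
  induction L with
  | nil =>
    change univ.biUnion S = ∅
    ext y
    simp only [mem_biUnion, mem_univ, true_and, notMem_empty, iff_false, not_exists]
    intro i
    exact i.elim0
  | cons p L ih =>
    refine ⟨S ⟨0, Nat.succ_pos _⟩, univ.biUnion (fun i : Fin L.length => S i.succ), ?_, ?_, hS ⟨0, Nat.succ_pos _⟩, ?_⟩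
    · rw [disjoint_biUnion_right]
      intro i _
      exact hd _ _ (by intro h; simp [Fin.ext_iff] at h)
    · ext y
      simp only [mem_biUnion, mem_univ, true_and, mem_union]
      constructor
      · rintro ⟨i, hi⟩
        rcases Fin.eq_zero_or_eq_succ i with rfl | ⟨j, rfl⟩
        · exact Or.inl hi
        · exact Or.inr ⟨j, hi⟩
      · rintro (h | ⟨j, hj⟩)
        · exact ⟨_, h⟩
        · exact ⟨_, hj⟩
    · exact ih (fun i => S i.succ) (fun i => hS i.succ) (fun i j hij => hd _ _ (by simpa using hij))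

theorem Bx.mono {A : Finset V} {𝓕 𝓕' : Finset (Finset V)} {ε : ℝ} {m₁ m₁' : ℕ} {N N' : V → Prop} {c : Fd} {w w' : ℝ}
    (h : Bx R A 𝓕' ε m₁ N c w) (hs : 𝓕' ⊆ 𝓕) (hm : m₁ ≤ m₁') (hw : w ≤ w') (hN : ∀ x ∈ A, N x → N' x) :
    Bx R A 𝓕 ε m₁' N' c w' := by
  intro P hP hPm hPw hrep
  obtain ⟨x, hx, B, hB, hxB, hNx, hE⟩ := h P hP (hm.trans hPm) (hw.trans hPw) (fun F hF => hrep F (hs hF))
  exact ⟨x, hx, B, hB, hxB, hN x (hP hx) hNx, hE⟩

/-- instance: bounded runs, the exact theorem B -/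
theorem bx_of_okB {κ η s : ℝ} {p : NP} {A : Finset V} {𝓕 : Finset (Finset V)} {ε : ℝ} {m₁ : ℕ} {N : V → Prop}
    (h : OkB R κ η s p A 𝓕 ε m₁ N) {K C : ℝ} (hη : 7 * η < 1) {c : Fd} (hE : EE R κ η s p K C c) :
    Bx R A 𝓕 ε m₁ N c ((K * (c.size + 1) + C) / (1 - 7 * η)) := by
  intro P hP hPm hPw hrep
  obtain ⟨P', hP', hcard, hD, hcov⟩ := h P hP hPm hrep
  have h6 : K * (c.size + 1) + C ≤ P'.card := by
    refine le_trans ?_ hcard
    rw [div_le_iff₀ (by linarith)] at hPw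
    linarith
  obtain ⟨x, hx, B, hB, hxB, hN, hE⟩ := hE P' _ h6 (Cl_of_Ok p _ hD hcov)
  exact ⟨x, hP' hx, B, hB.trans hP', hxB, hN, hE⟩

/-- instance: arbitrary trees with a small in-closure at good hosts, the light theorem -/
theorem bx_of_okL {b : ℕ} {ρ σ γ : ℝ} {A : Finset V} {𝓕 : Finset (Finset V)} {ε : ℝ} {m₁ : ℕ} {N : V → Prop}
    (h : AEF.OkL R b ρ σ γ m₁ A 𝓕 ε N) (hσ : σ < 1) (hγ : 0 < γ) {c : Fd} (hl : c.len ≤ b) (hd : c.Deg b) :
    Bx R A 𝓕 ε m₁ N c (max (ρ * (c.size + 1) / (1 - σ)) (ρ * (blk c + 1) / γ)) := by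
  intro P hP hPm hPw hrep
  have h1 := (le_max_left _ _).trans hPw
  have h2 := (le_max_right _ _).trans hPw
  rw [div_le_iff₀ (by linarith)] at h1
  rw [div_le_iff₀ hγ] at h2
  exact h P hP hPm hrep c hl hd (by linarith) (by linarith)

/-- instance: crude items, unrooted, in the part of the piece which satisfies `N` -/
theorem bx_crude {b : ℕ} {ρ C : ℝ} (hU : AELT.Un R b ρ C) {A : Finset V} {𝓕 : Finset (Finset V)} {ε τ : ℝ} {m₁ : ℕ}
    {N : V → Prop} (hF : A.filter N ∈ 𝓕) (hτ : τ * A.card ≤ ((A.filter N).card : ℝ)) (hετ : ε < τ) (hm : 1 ≤ m₁) {c : Fd}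
    (hl : c.len ≤ b) (hd : c.Deg b) : Bx R A 𝓕 ε m₁ N c ((ρ * (c.size + 1) + C) / (τ - ε)) := by
  intro P hP hPm hPw hrep
  have hPc : 0 < P.card := by omega
  have hAc : 0 < A.card := hPc.trans_le (card_le_card hP)
  have h1 := hrep _ hF
  have h2 : A.filter N ∩ A = A.filter N := inter_eq_left.2 (filter_subset _ _)
  rw [h2] at h1
  have h3 : τ ≤ ((A.filter N).card : ℝ) / A.card := by
    rw [le_div_iff₀ (by exact_mod_cast hAc)]
    exact hτ
  have h4 : (τ - ε) * P.card ≤ ((A.filter N ∩ P).card : ℝ) :=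
    (mul_le_mul_of_nonneg_right (by linarith) (Nat.cast_nonneg _)).trans h1
  rw [div_le_iff₀ (by linarith)] at hPw
  obtain ⟨x, hx, B, hB, hxB, -, hE⟩ := hU c hl hd (A.filter N ∩ P) (by linarith)
  rw [mem_inter, mem_filter] at hx
  exact ⟨x, hx.2, B, hB.trans inter_subset_right, hxB, hx.1.2, hE⟩

end basic

/-- **Light items.** -/
theorem lights {ε c : ℝ} (hε : 0 < ε) (hε1 : ε ≤ 1) (hc : 0 < c) (m Kg m₁ : ℕ) :
    ∃ n₁ M₉ c₉ : ℕ, 1 ≤ M₉ ∧
    ∀ {V : Type} {R : V → V → Prop} (A : Finset V) (𝓕 : Finset (Finset V)), n₁ ≤ A.card → 𝓕.card ≤ A.card ^ 5 →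
      ∀ {ι : Type} (G : Finset ι) (D : ι → Finset V), (∀ u ∈ G, D u ⊆ A) → (∀ u ∈ G, (D u).Nonempty) →
      Pool.Agent.AEF.Graded G D Kg →
      ∀ (S₀ : Finset V) (I : V → Finset V), (∀ v ∈ S₀, I v ⊆ A) → Pool.Agent.AEF.Graded S₀ I Kg →
      ∀ L : List (((V → Prop) × Fd) × ℝ), L.length ≤ m →
        (∀ q ∈ L, 0 ≤ q.2 ∧ Bx R A 𝓕 ε m₁ q.1.1 q.1.2 q.2) →
        (L.map (fun q => q.2)).sum + m * m₁ ≤ (1 - 3 * c) * A.card →
        ∃ S Q : Finset V, S ⊆ A ∧ Q ⊆ A ∧ Disjoint S Q ∧ EmbN R (L.map (fun q => q.1)) S ∧ c * A.card ≤ Q.card ∧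
          Rep A 𝓕 ε Q ∧ (∀ u ∈ G, (D u ∩ Q).Nonempty ∧ (D u).card ≤ M₉ * (D u ∩ Q).card) ∧
          (∀ v ∈ S₀, c₉ ≤ (I v).card → (I v).card ≤ M₉ * (I v ∩ Q).card) := by
  obtain ⟨n₁, M₉, c₉, hM, hmain⟩ := Pool.Agent.AEF.exists_pieces_keep hε hε1 hc m Kg
  refine ⟨n₁, M₉, c₉, hM, ?_⟩
  intro V R A 𝓕 hA h𝓕 ι G D hD hDne hGD S₀ I hI hSI L hLm hBx hsz
  set t : Fin L.length → ℝ := fun i => (L.get i).2 + m₁ with ht
  have ht0 : ∀ i, 0 ≤ t i := fun i => by
    have h1 := (hBx _ (List.get_mem L i)).1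
    simp only [ht]
    positivity
  have hsum : ∑ i, t i ≤ (1 - 3 * c) * A.card := by
    refine le_trans ?_ hsz
    simp only [ht]
    rw [Finset.sum_add_distrib, Finset.sum_const, card_univ, Fintype.card_fin, nsmul_eq_mul]
    have h7 : ∑ i : Fin L.length, (L.get i).2 = (L.map (fun q => q.2)).sum := by
      rw [← List.sum_ofFn]
      congr 1
      apply List.ext_getElem
      · simp
      · intro i h8 h9
        simp
    rw [h7]
    have h8 : (L.length : ℝ) ≤ m := by exact_mod_cast hLm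
    have h9 : (0 : ℝ) ≤ m₁ := Nat.cast_nonneg _
    exact add_le_add le_rfl (mul_le_mul_of_nonneg_right h8 h9)
  obtain ⟨P, Q, p1, p2, p3, p4, p5, p6, p7, p8, p9, p10, p11⟩ :=
    hmain A 𝓕 hA h𝓕 G D hD hDne hGD S₀ I hI hSI L.length t hLm ht0 hsum
  have key : ∀ i : Fin L.length, ∃ S ⊆ P i,
      ∃ x B, (L.get i).1.1 x ∧ x ∉ B ∧ S = insert x B ∧ Emb R (L.get i).1.2 x B := by
    intro i
    have h7 := p6 i
    simp only [ht] at h7
    obtain ⟨h8, h9⟩ := hBx _ (List.get_mem L i)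
    have h10 : (0 : ℝ) ≤ m₁ := Nat.cast_nonneg _
    have h11 : m₁ ≤ (P i).card := by
      have : (m₁ : ℝ) ≤ (P i).card := by linarith
      exact_mod_cast this
    obtain ⟨x, hx, B, hB, hxB, hN, hE⟩ := h9 (P i) (p1 i) h11 (by linarith) (p7 i)
    exact ⟨insert x B, insert_subset hx hB, x, B, hN, hxB, rfl, hE⟩
  choose S hSP hSE using key
  have hSd : ∀ i j, i ≠ j → Disjoint (S i) (S j) := fun i j hij =>
    disjoint_of_subset_left (hSP i) (disjoint_of_subset_right (hSP j) (p3 i j hij))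
  have hlen : (L.map (fun q => q.1)).length = L.length := List.length_map _
  refine ⟨univ.biUnion S, Q, ?_, p5, ?_, ?_, p8, p9, p10, fun v hv h9 => (p11 v hv h9).1⟩
  · rw [biUnion_subset]
    exact fun i _ => (hSP i).trans (p1 i)
  · rw [disjoint_biUnion_left]
    exact fun i _ => disjoint_of_subset_left (hSP i) (p4 i)
  · have h1 := embN_of_fin (R := R) (L.map (fun q => q.1)) (fun i => S (Fin.cast hlen i)) (by
      intro i
      obtain ⟨x, B, h1, h2, h3, h4⟩ := hSE (Fin.cast hlen i)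
      refine ⟨x, B, ?_, h2, h3, ?_⟩
      · simpa using h1
      · simpa using h4) (by
      intro i j hij
      apply hSd
      intro h
      apply hij
      exact Fin.ext (by simpa using congrArg Fin.val h))
    have h2 : (univ : Finset (Fin (L.map (fun q => q.1)).length)).biUnion (fun i => S (Fin.cast hlen i)) =
        univ.biUnion S := by
      ext y
      simp only [mem_biUnion, mem_univ, true_and]
      constructor
      · rintro ⟨i, hi⟩
        exact ⟨_, hi⟩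
      · rintro ⟨i, hi⟩
        exact ⟨Fin.cast hlen.symm i, by simpa using hi⟩
    rw [h2] at h1
    exact h1

end AEG
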