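import Pool.Agent.AEG.P2Part

/-!
# Light items and capacities

`drop_graded`: from a family with an offset in the count, finitely many members are removed, and it is graded.

`lights_cap`: light items at good hosts; the vertices of small in-degree are protected, every vertex of the rest keeps its
capacity (unless its protected in-neighbourhood is small), and the dominators of a family survive.
-/

set_option autoImplicit false

namespace AEG

open Finset AE15 AED AEB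
open scoped Classical

/-- `w` members are removed, the rest has no offset -/
theorem drop_graded {ι : Type*} (G : Finset ι) (f : ι → ℕ) (w : ℕ) (h : ℕ → ℕ)
    (hG : ∀ j, (G.filter (fun u => f u ≤ j)).card ≤ w + h j) :
    ∃ G₀ ⊆ G, (G \ G₀).card ≤ w ∧ ∀ j, (G₀.filter (fun u => f u ≤ j)).card ≤ h j := by
  -- the removed set is an initial segment with respect to `f`
  by_cases hw : G.card ≤ w
  · exact ⟨∅, empty_subset _, by simpa using hw, fun j => by simp⟩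
  push Not at hw
  -- induction on `w`
  clear hw
  induction w generalizing G with
  | zero =>
    exact ⟨G, Subset.refl _, by simp, fun j => by simpa using hG j⟩
  | succ w ih =>
    rcases G.eq_empty_or_nonempty with h0 | h0
    · exact ⟨∅, empty_subset _, by simp [h0], fun j => by simp⟩
    · obtain ⟨x, hx, hmin⟩ := exists_min_image G f h0
      obtain ⟨G₀, h1, h2, h3⟩ := ih (G.erase x) (by
        intro j
        by_cases hj : f x ≤ j
        · have h4 : ((G.erase x).filter (fun u => f u ≤ j)) = (G.filter (fun u => f u ≤ j)).erase x := by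
            ext u
            simp only [mem_filter, mem_erase]
            tauto
          rw [h4, card_erase_of_mem (mem_filter.2 ⟨hx, hj⟩)]
          have := hG j
          omega
        · have h4 : (G.erase x).filter (fun u => f u ≤ j) = ∅ := by
            rw [filter_eq_empty_iff]
            intro u hu hu'
            exact hj ((hmin u (mem_of_mem_erase hu)).trans hu')
          rw [h4]
          simp)
      refine ⟨G₀, h1.trans (erase_subset _ _), ?_, h3⟩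
      have h4 : G \ G₀ ⊆ insert x (G.erase x \ G₀) := by
        intro u hu
        rw [mem_sdiff] at hu
        rw [mem_insert, mem_sdiff, mem_erase]
        by_cases h5 : u = x
        · exact Or.inl h5
        · exact Or.inr ⟨⟨h5, hu.1⟩, hu.2⟩
      exact (card_le_card h4).trans ((card_insert_le _ _).trans (by omega))

/-- **Light items and capacities.** `X₀`: the free set; `PZ`: a protected set, it contains the vertices of small in-degree;
`Dz`: the possible dominators. -/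
theorem lights_cap (p : NP) (hp : p.OK) (hab : ab p.b p.l ≤ p.a) {D₀ : ℕ} (hD₀ : p.A ≤ D₀)
    {ω c η η₁ κ₀ κ₁ κ γ₀ τ s σ₂ μ : ℝ} (P : KB D₀ ω c η η₁ κ₀ κ₁ κ γ₀ τ s σ₂ μ) {κU ε : ℝ} (hU0 : 0 < κU) (hUκ : κU ≤ κ)
    (hε : 0 < ε) (hεσ : 8 * ε ≤ σ₂) (hεη : ε ≤ η₁) (N Kd : ℕ) :
    ∃ w₀ M₁ C₁ C : ℕ, 1 ≤ M₁ ∧ w₀ ≤ C₁ ∧ ∀ {V : Type} {R : V → V → Prop}, AE32.Tour R →
      ∀ {U X₀ Y Dz Gu PZ : Finset V} (b₂ w₁ : ℕ)
      (os : List (V × Fd)), C ≤ Y.card → Y ⊆ U → κU * U.card ≤ κ * Y.card → os.length ≤ N →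
      (∀ q ∈ os, q.1 ∈ U ∧ GdU R κU η U Y q.1 ∧ FOK p.b p.l 0 q.2 ∧ ∀ t ∈ q.2.trees, t.1 = true) →
      (∀ q ∈ os, q.1 ∉ X₀) → X₀.filter (fun v => (nI R X₀ v).card < M₁ * b₂ + C₁) ⊆ PZ → PZ ⊆ X₀ →
      ((PZ.card + (U \ X₀).card : ℕ) : ℝ) ≤ κU ^ 2 / 128 * Y.card →
      ((PZ.card + ((U \ X₀) ∩ Y).card : ℕ) : ℝ) ≤ μ / 2 * Y.card →
      Dz ⊆ Y → Dz ⊆ X₀ → (∀ j : ℕ, (Gu.filter (fun u => (nI R Dz u).card ≤ j)).card ≤ w₁ + Kd * (j + 1)) →
      (totB os : ℝ) + C ≤ (1 - ω) * Y.card → ∀ 𝓕x : Finset (Finset V), 𝓕x.card ≤ 8 * Y.card ^ 3 →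
      ∃ Zt S Q : Finset V, EmbAllB R os (Zt ∪ S) ∧ Zt ⊆ U ∧ Zt ⊆ X₀ ∧ Disjoint Zt PZ ∧ Zt.card ≤ w₀ ∧
        S ⊆ Y \ (PZ ∪ (U \ X₀) ∪ Zt) ∧ Q ⊆ Y \ (PZ ∪ (U \ X₀) ∪ Zt) ∧ Disjoint S Q ∧
        c * (Y \ (PZ ∪ (U \ X₀) ∪ Zt)).card ≤ Q.card ∧ Rep (Y \ (PZ ∪ (U \ X₀) ∪ Zt)) 𝓕x ε Q ∧
        (∀ v ∈ Y, v ∈ X₀ → v ∉ Zt → (v ∈ PZ → b₂ ≤ (nI R PZ v).card) → b₂ ≤ (nI R (X₀ \ (Zt ∪ S)) v).card) ∧
        ∀ j : ℕ, (Gu.filter (fun u => (nI R (Dz ∩ (X₀ \ (Zt ∪ S))) u).card ≤ j)).card ≤ w₁ + (M₁ * j + C₁) := by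
  obtain ⟨w₀, hL⟩ := lightsG2 p hp hab hD₀ P hU0 hUκ hε hεσ hεη N
  obtain ⟨Kg, hKg⟩ : ∃ Kg : ℕ, Kg = 3 * Kd + 2 := ⟨_, rfl⟩
  obtain ⟨C₀, M₉, c₉, hM₉, hL⟩ := hL Kg
  obtain ⟨M₁, hM₁⟩ : ∃ M₁ : ℕ, M₁ = M₉ + 1 + 3 * M₉ * Kd := ⟨_, rfl⟩
  obtain ⟨C₁, hC₁⟩ : ∃ C₁ : ℕ, C₁ = c₉ + w₀ + Kd * (3 * M₉ * w₀ + 1) := ⟨_, rfl⟩
  have hnum := P.num
  obtain ⟨hω0, hω1, hc0, hc1, hη0, hη1, hη₁0, hη₁1, hκ₀0, hκ₁0, hκ₁1, hκ0, hκ1, hs0, hγ₀0, hτ0, hσ₂0, hμ0, hκ₁η, hκs⟩ :=
    hnum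
  obtain ⟨n₂, hn₂⟩ := exists_big [((w₀ : ℝ), μ / 2)] (by
    intro q hq
    simp only [List.mem_cons, List.not_mem_nil, or_false] at hq
    rcases hq with rfl
    show 0 < μ / 2
    positivity)
  refine ⟨w₀, M₁, C₁, C₀ + n₂, by omega, by omega, ?_⟩
  intro V R hT U X₀ Y Dz Gu TZ b₂ w₁ os hCY hYU hUY hlen hos hosX hTZ hTZX hsm hsm2 hDY hDX hcnt hsz 𝓕x h𝓕x
  have g := hn₂ Y.card (by omega)
  have g2 : (w₀ : ℝ) ≤ μ / 2 * Y.card := g ((w₀ : ℝ), μ / 2) (by simp)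
  -- tops
  obtain ⟨Zt, L, hPEs, hZU, hZF, hZc, hL⟩ := hL hT (U := U) (Y := Y) (F₀ := TZ ∪ (U \ X₀)) os (by omega) hYU hUY hlen hos (by
    have h1 := card_union_le TZ (U \ X₀)
    have h3 : ((TZ ∪ (U \ X₀)).card : ℝ) ≤ ((TZ.card + (U \ X₀).card : ℕ) : ℝ) := by exact_mod_cast h1
    linarith)
  rw [disjoint_union_right] at hZF
  obtain ⟨hZT, hZUX⟩ := hZF
  have hZX : Zt ⊆ X₀ := by
    intro x hx
    by_contra h
    exact disjoint_left.1 hZUX hx (mem_sdiff.2 ⟨hZU hx, h⟩)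
  obtain ⟨W, hW⟩ : ∃ W, W = TZ ∪ (U \ X₀) ∪ Zt := ⟨_, rfl⟩
  have hWm : ∀ x, x ∈ W ↔ x ∈ TZ ∨ (x ∈ U ∧ x ∉ X₀) ∨ x ∈ Zt := by
    intro x
    rw [hW, mem_union, mem_union, mem_sdiff]
    tauto
  refine ⟨Zt, ?_⟩
  rw [← hW]
  -- the dominators
  obtain ⟨G₀, hG₀, hG₀c, hG₀j⟩ := drop_graded Gu (fun u => (nI R Dz u).card) w₁ (fun j => Kd * (j + 1)) hcnt
  obtain ⟨G₁, hG₁⟩ : ∃ G₁, G₁ = G₀.filter (fun u => (nI R Dz u).card ≤ 3 * (nI R (Dz \ W) u).card ∧
      (nI R (Dz \ W) u).Nonempty) := ⟨_, rfl⟩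
  have hgr : Pool.Agent.AEF.Graded G₁ (fun u => nI R (Dz \ W) u) Kg := by
    intro j
    refine le_trans (card_le_card (t := G₀.filter (fun u => (nI R Dz u).card ≤ 3 * j)) ?_) ((hG₀j (3 * j)).trans ?_)
    · intro u hu
      rw [mem_filter, hG₁, mem_filter] at hu
      rw [mem_filter]
      have h1 : (nI R (Dz \ W) u).card ≤ j := hu.2
      exact ⟨hu.1.1, by omega⟩
    · show Kd * (3 * j + 1) ≤ Kg * (j + 1)
      rw [hKg]
      have h1 : Kd * (3 * j + 1) ≤ 3 * Kd * (j + 1) := by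
        have : 3 * Kd * (j + 1) = Kd * (3 * (j + 1)) := by ring
        rw [this]
        exact Nat.mul_le_mul_left _ (by omega)
      have h2 : 3 * Kd * (j + 1) ≤ (3 * Kd + 2) * (j + 1) := Nat.mul_le_mul_right _ (by omega)
      omega
  have hgrI : Pool.Agent.AEF.Graded (Y \ W) (fun v => nI R (Y \ W) v) Kg := by
    intro j
    have h1 := card_lowin hT (Y \ W) (j + 1)
    refine le_trans (card_le_card ?_) (h1.trans ?_)
    · intro v hv
      rw [mem_filter] at hv ⊢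
      have h2 : (nI R (Y \ W) v).card ≤ j := hv.2
      exact ⟨hv.1, by omega⟩
    · rw [hKg]
      exact Nat.mul_le_mul_right _ (by omega)
  obtain ⟨S, Q, hE, hSA, hQA, hSQ, hQc, hRep, hkD, hkI⟩ := hL W (fun x hx => (hWm x).2 (Or.inr (Or.inr hx)))
    (fun q hq => (hWm _).2 (Or.inr (Or.inl ⟨(hos q hq).1, hosX q hq⟩))) (by
      have h1 : W ∩ Y ⊆ TZ ∪ ((U \ X₀) ∩ Y) ∪ Zt := by
        intro x hx
        rw [mem_inter, hWm] at hx
        rw [mem_union, mem_union, mem_inter, mem_sdiff]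
        tauto
      have h2 := (card_le_card h1).trans (card_union_le _ _)
      have h3 := card_union_le TZ ((U \ X₀) ∩ Y)
      have h4 : (W ∩ Y).card ≤ TZ.card + ((U \ X₀) ∩ Y).card + w₀ := by omega
      have h5 : ((W ∩ Y).card : ℝ) ≤ ((TZ.card + ((U \ X₀) ∩ Y).card : ℕ) : ℝ) + w₀ := by exact_mod_cast h4
      linarith) 𝓕x h𝓕x G₁ (fun u => nI R (Dz \ W) u) (by
      intro u _ x hx
      rw [mem_nI, mem_sdiff] at hx
      exact mem_sdiff.2 ⟨hDY hx.1.1, hx.1.2⟩) (by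
      intro u hu
      rw [hG₁, mem_filter] at hu
      exact hu.2.2) hgr (Y \ W) (fun v => nI R (Y \ W) v) (fun v _ => nI_sub) hgrI (by
      have h1 : ((C₀ + n₂ : ℕ) : ℝ) = C₀ + n₂ := by push_cast; ring
      rw [h1] at hsz
      have h2 : (0 : ℝ) ≤ n₂ := Nat.cast_nonneg _
      linarith)
  have hQX : ∀ x ∈ Q, x ∈ X₀ \ (Zt ∪ S) := by
    intro x hx
    have h1 := mem_sdiff.1 (hQA hx)
    rw [hWm] at h1
    push Not at h1
    rw [mem_sdiff, mem_union, not_or]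
    exact ⟨h1.2.2.1 (hYU h1.1), h1.2.2.2, fun h => disjoint_left.1 hSQ h hx⟩
  have hTZf : ∀ x ∈ TZ, x ∈ X₀ \ (Zt ∪ S) := by
    intro x hx
    rw [mem_sdiff, mem_union, not_or]
    exact ⟨hTZX hx, fun h => disjoint_left.1 hZT h hx, fun h => (mem_sdiff.1 (hSA h)).2 ((hWm x).2 (Or.inl hx))⟩
  refine ⟨S, Q, hE, hZU, hZX, hZT, hZc, hSA, hQA, hSQ, hQc, hRep, ?_, ?_⟩
  · -- capacities
    intro v hvY hvX hvZ hvT
    by_cases h0 : v ∈ TZ
    · refine (hvT h0).trans (card_le_card ?_)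
      exact nI_mono hTZf
    · have h1 : M₁ * b₂ + C₁ ≤ (nI R X₀ v).card := by
        by_contra hc
        push Not at hc
        exact h0 (hTZ (by rw [mem_filter]; exact ⟨hvX, hc⟩))
      have hvW : v ∈ Y \ W := by
        rw [mem_sdiff, hWm]
        refine ⟨hvY, ?_⟩
        rintro (h | h | h)
        · exact h0 h
        · exact h.2 hvX
        · exact hvZ h
      have h2 : nI R X₀ v ⊆ nI R (X₀ \ (Zt ∪ S)) v ∪ Zt ∪ nI R (Y \ W) v := by
        intro x hx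
        rw [mem_nI] at hx
        rw [mem_union, mem_union, mem_nI, mem_nI, mem_sdiff, mem_union]
        by_cases h3 : x ∈ Zt
        · exact Or.inl (Or.inr h3)
        · by_cases h4 : x ∈ S
          · exact Or.inr ⟨hSA h4, hx.2⟩
          · exact Or.inl (Or.inl ⟨⟨hx.1, by tauto⟩, hx.2⟩)
      have h3 := (card_le_card h2).trans (card_union_le _ _)
      have h4 := card_union_le (nI R (X₀ \ (Zt ∪ S)) v) Zt
      have h5 : (nI R (Y \ W) v).card ≤ M₉ * (nI R (X₀ \ (Zt ∪ S)) v).card + c₉ := by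
        by_cases h6 : c₉ ≤ (nI R (Y \ W) v).card
        · have h7 := hkI v hvW h6
          have h8 : (nI R (Y \ W) v ∩ Q).card ≤ (nI R (X₀ \ (Zt ∪ S)) v).card := by
            apply card_le_card
            intro x hx
            rw [mem_inter, mem_nI] at hx
            exact mem_nI.2 ⟨hQX x hx.2, hx.1.2⟩
          have h9 := Nat.mul_le_mul_left M₉ h8
          omega
        · omega
      have h6 : (M₉ + 1) * b₂ ≤ (M₉ + 1) * (nI R (X₀ \ (Zt ∪ S)) v).card := by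
        have h7 : (M₉ + 1) * b₂ ≤ M₁ * b₂ := Nat.mul_le_mul_right _ (by omega)
        have h8 : (M₉ + 1) * (nI R (X₀ \ (Zt ∪ S)) v).card =
          M₉ * (nI R (X₀ \ (Zt ∪ S)) v).card + (nI R (X₀ \ (Zt ∪ S)) v).card := by ring
        omega
      exact Nat.le_of_mul_le_mul_left h6 (by omega)
  · -- dominators
    intro j
    have h1 : Gu.filter (fun u => (nI R (Dz ∩ (X₀ \ (Zt ∪ S))) u).card ≤ j) ⊆
        (Gu \ G₀) ∪ G₀.filter (fun u => (nI R Dz u).card ≤ 3 * M₉ * (j + w₀)) := by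
      intro u hu
      rw [mem_filter] at hu
      obtain ⟨hu1, hu2⟩ := hu
      rw [mem_union, mem_sdiff, mem_filter]
      by_cases h2 : u ∈ G₀
      · right
        refine ⟨h2, ?_⟩
        by_cases h3 : u ∈ G₁
        · have h4 := (hkD u h3).2
          rw [hG₁, mem_filter] at h3
          have h5 : (nI R (Dz \ W) u ∩ Q).card ≤ j := by
            refine le_trans (card_le_card ?_) hu2
            intro x hx
            rw [mem_inter, mem_nI, mem_sdiff] at hx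
            rw [mem_nI, mem_inter]
            exact ⟨⟨hx.1.1.1, hQX x hx.2⟩, hx.1.2⟩
          have h6 : (nI R Dz u).card ≤ 3 * (M₉ * j) := by
            have h7 := Nat.mul_le_mul_left M₉ h5
            have h8 := h3.2.1
            omega
          have h7 : 3 * M₉ * (j + w₀) = 3 * (M₉ * j) + 3 * M₉ * w₀ := by ring
          omega
        · have h3' : ¬ ((nI R Dz u).card ≤ 3 * (nI R (Dz \ W) u).card ∧ (nI R (Dz \ W) u).Nonempty) := by
            intro h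
            exact h3 (by rw [hG₁, mem_filter]; exact ⟨h2, h⟩)
          have h4 : nI R Dz u ⊆ nI R (Dz \ W) u ∪ nI R (Dz ∩ (X₀ \ (Zt ∪ S))) u ∪ Zt := by
            intro x hx
            rw [mem_nI] at hx
            rw [mem_union, mem_union, mem_nI, mem_nI, mem_sdiff, mem_inter]
            by_cases h5 : x ∈ W
            · rcases (hWm x).1 h5 with h6 | h6 | h6
              · exact Or.inl (Or.inr ⟨⟨hx.1, hTZf x h6⟩, hx.2⟩)
              · exact absurd (hDX hx.1) h6.2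
              · exact Or.inr h6
            · exact Or.inl (Or.inl ⟨⟨hx.1, h5⟩, hx.2⟩)
          have h5 := (card_le_card h4).trans (card_union_le _ _)
          have h6 := card_union_le (nI R (Dz \ W) u) (nI R (Dz ∩ (X₀ \ (Zt ∪ S))) u)
          have h7 : (nI R Dz u).card ≤ 3 * (j + w₀) := by
            by_cases h8 : (nI R (Dz \ W) u).Nonempty
            · have h9 : ¬ (nI R Dz u).card ≤ 3 * (nI R (Dz \ W) u).card := fun h => h3' ⟨h, h8⟩
              omega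
            · rw [not_nonempty_iff_eq_empty] at h8
              have h9 : (nI R (Dz \ W) u).card = 0 := by rw [h8, card_empty]
              omega
          have h8 : 3 * (j + w₀) ≤ 3 * M₉ * (j + w₀) := Nat.mul_le_mul_right _ (by omega)
          omega
      · exact Or.inl ⟨hu1, h2⟩
    have h2 := (card_le_card h1).trans (card_union_le _ _)
    have h3 := hG₀j (3 * M₉ * (j + w₀))
    have h4 : Kd * (3 * M₉ * (j + w₀) + 1) = 3 * M₉ * Kd * j + Kd * (3 * M₉ * w₀ + 1) := by ring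
    have h5 : 3 * M₉ * Kd * j ≤ M₁ * j := Nat.mul_le_mul_right _ (by omega)
    omega

end AEG
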