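import Pool.Agent.AEG.P2Part

/-!
# Light items with the remaining set chosen first

`lights_res`, `lightsR`: as `lights` and `lightsG2`, but the remaining set `Q` is chosen first, and then the light items are
embedded outside `Q` and outside any given set `W'` of small linear size.
-/

set_option autoImplicit false

namespace AEG

open Finset AE15 AED AEB
open scoped Classical

/-- **Light items, the remaining set first.** -/
theorem lights_res {ε c : ℝ} (hε : 0 < ε) (hε1 : ε ≤ 1) (hc : 0 < c) (m Kg m₁ : ℕ) :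
    ∃ (n₁ M₉ c₉ : ℕ) (δ : ℝ), 1 ≤ M₉ ∧ 0 < δ ∧
    ∀ {V : Type} {R : V → V → Prop} (A : Finset V) (𝓕 : Finset (Finset V)), n₁ ≤ A.card → 𝓕.card ≤ A.card ^ 5 →
      ∀ {ι : Type} (G : Finset ι) (D : ι → Finset V), (∀ u ∈ G, D u ⊆ A) → (∀ u ∈ G, (D u).Nonempty) →
      Pool.Agent.AEF.Graded G D Kg →
      ∀ (S₀ : Finset V) (I : V → Finset V), (∀ v ∈ S₀, I v ⊆ A) → Pool.Agent.AEF.Graded S₀ I Kg →
      ∀ L : List (((V → Prop) × Fd) × ℝ), L.length ≤ m →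
        (∀ q ∈ L, 0 ≤ q.2 ∧ Bx R A 𝓕 ε m₁ q.1.1 q.1.2 q.2) →
        (L.map (fun q => q.2)).sum + m * m₁ ≤ (1 - 4 * c) * A.card →
        ∃ Q ⊆ A, c * A.card ≤ Q.card ∧ Rep A 𝓕 (ε / 2) Q ∧
          (∀ u ∈ G, (D u ∩ Q).Nonempty ∧ (D u).card ≤ M₉ * (D u ∩ Q).card) ∧
          (∀ v ∈ S₀, c₉ ≤ (I v).card → (I v).card ≤ M₉ * (I v ∩ Q).card) ∧
          ∀ W : Finset V, (W.card : ℝ) ≤ δ * A.card →
            ∃ S ⊆ A, Disjoint S Q ∧ Disjoint S W ∧ EmbN R (L.map (fun q => q.1)) S := by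
  have hε2 : 0 < ε / 2 := by linarith
  obtain ⟨n₁, M₉, c₉, hM, hmain⟩ := Pool.Agent.AEF.exists_pieces_keep hε2 (by linarith) hc m Kg
  obtain ⟨s₀, hs₀⟩ : ∃ s₀ : ℝ, s₀ = c / (m + 1) := ⟨_, rfl⟩
  have hs₀0 : 0 < s₀ := by rw [hs₀]; positivity
  have hms₀ : m * s₀ ≤ c := by
    rw [hs₀, mul_div_assoc', div_le_iff₀ (by positivity)]
    nlinarith
  refine ⟨n₁, M₉, c₉, min s₀ (ε / 4 * s₀), hM, by positivity, ?_⟩
  intro V R A 𝓕 hA h𝓕 ι G D hD hDne hGD S₀ I hI hSI L hLm hBx hsz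
  have hA0 : (0 : ℝ) ≤ A.card := Nat.cast_nonneg _
  have hLm' : (L.length : ℝ) ≤ m := by exact_mod_cast hLm
  set t : Fin L.length → ℝ := fun i => (L.get i).2 + m₁ + s₀ * A.card with ht
  have ht0 : ∀ i, 0 ≤ t i := fun i => by
    have h1 := (hBx _ (List.get_mem L i)).1
    simp only [ht]
    positivity
  have hsum : ∑ i, t i ≤ (1 - 3 * c) * A.card := by
    have h7 : ∑ i : Fin L.length, (L.get i).2 = (L.map (fun q => q.2)).sum := by
      rw [← List.sum_ofFn]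
      congr 1
      apply List.ext_getElem
      · simp
      · intro i h8 h9
        simp
    have h6 : ∑ i, t i = (L.map (fun q => q.2)).sum + L.length * m₁ + L.length * (s₀ * A.card) := by
      simp only [ht]
      rw [Finset.sum_add_distrib, Finset.sum_add_distrib, Finset.sum_const, Finset.sum_const, card_univ,
        Fintype.card_fin, nsmul_eq_mul, nsmul_eq_mul, h7]
    rw [h6]
    have h9 : (0 : ℝ) ≤ m₁ := Nat.cast_nonneg _
    have h10 : (L.length : ℝ) * m₁ ≤ m * m₁ := mul_le_mul_of_nonneg_right hLm' h9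
    have h11 : (L.length : ℝ) * (s₀ * A.card) ≤ m * (s₀ * A.card) :=
      mul_le_mul_of_nonneg_right hLm' (by positivity)
    have h12 : m * (s₀ * A.card) ≤ c * A.card := by
      have := mul_le_mul_of_nonneg_right hms₀ hA0
      linarith
    linarith
  obtain ⟨P, Q, p1, p2, p3, p4, p5, p6, p7, p8, p9, p10, p11⟩ :=
    hmain A 𝓕 hA h𝓕 G D hD hDne hGD S₀ I hI hSI L.length t hLm ht0 hsum
  refine ⟨Q, p5, p8, p9, p10, fun v hv h9 => (p11 v hv h9).1, ?_⟩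
  intro W hW
  have hW1 : (W.card : ℝ) ≤ s₀ * A.card := hW.trans (mul_le_mul_of_nonneg_right (min_le_left _ _) hA0)
  have hW2 : (W.card : ℝ) ≤ ε / 4 * s₀ * A.card := hW.trans (mul_le_mul_of_nonneg_right (min_le_right _ _) hA0)
  have key : ∀ i : Fin L.length, ∃ S ⊆ P i \ W,
      ∃ x B, (L.get i).1.1 x ∧ x ∉ B ∧ S = insert x B ∧ Emb R (L.get i).1.2 x B := by
    intro i
    have h7 := p6 i
    simp only [ht] at h7
    obtain ⟨h8, h9⟩ := hBx _ (List.get_mem L i)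
    have h10 : (0 : ℝ) ≤ m₁ := Nat.cast_nonneg _
    have hPc : ((P i).card : ℝ) ≤ (P i \ W).card + W.card := by
      have := le_card_sdiff W (P i)
      exact_mod_cast (by omega : (P i).card ≤ (P i \ W).card + W.card)
    have h11 : m₁ ≤ (P i \ W).card := by
      have : (m₁ : ℝ) ≤ (P i \ W).card := by linarith
      exact_mod_cast this
    have h12 : Rep A 𝓕 ε (P i \ W) := by
      refine Pool.Agent.AEF.rep_change hε (p7 i) (r := W.card) ?_ ?_ ?_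
      · apply card_le_card
        intro x hx
        rw [mem_sdiff, mem_sdiff, not_and, not_not] at hx
        exact hx.2 hx.1
      · rw [sdiff_eq_empty_iff_subset.2 sdiff_subset]
        simp
      · have h13 : s₀ * A.card ≤ (P i).card := by linarith
        have h14 : ε / 2 * (s₀ * A.card) ≤ ε / 2 * (P i).card := mul_le_mul_of_nonneg_left h13 (by linarith)
        linarith
    obtain ⟨x, hx, B, hB, hxB, hN, hE⟩ := h9 (P i \ W) (sdiff_subset.trans (p1 i)) h11 (by linarith) h12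
    exact ⟨insert x B, insert_subset hx hB, x, B, hN, hxB, rfl, hE⟩
  choose S hSP hSE using key
  have hSP' : ∀ i, S i ⊆ P i := fun i => (hSP i).trans sdiff_subset
  have hSd : ∀ i j, i ≠ j → Disjoint (S i) (S j) := fun i j hij =>
    disjoint_of_subset_left (hSP' i) (disjoint_of_subset_right (hSP' j) (p3 i j hij))
  have hlen : (L.map (fun q => q.1)).length = L.length := List.length_map _
  refine ⟨univ.biUnion S, ?_, ?_, ?_, ?_⟩
  · rw [biUnion_subset]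
    exact fun i _ => (hSP' i).trans (p1 i)
  · rw [disjoint_biUnion_left]
    exact fun i _ => disjoint_of_subset_left (hSP' i) (p4 i)
  · rw [disjoint_biUnion_left]
    exact fun i _ => disjoint_of_subset_left (hSP i) sdiff_disjoint
  · have h1 := embN_of_fin (R := R) (L.map (fun q => q.1)) (fun i => S (Fin.cast hlen i)) (by
      intro i
      obtain ⟨x, B, h1, h2, h3, h4⟩ := hSE (Fin.cast hlen i)
      refine ⟨x, B, ?_, h2, h3, ?_⟩
      · simpa using h1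
      · simpa using h4) (by
      intro i j hij
      apply hSd
      intro h
      apply hij
      exact Fin.ext (by simpa using congrArg Fin.val h))
    have h2 : (univ : Finset (Fin (L.map (fun q => q.1)).length)).biUnion (fun i => S (Fin.cast hlen i)) =
        univ.biUnion S := by
      ext y
      simp only [mem_biUnion, mem_univ, true_and]
      constructor
      · rintro ⟨i, hi⟩
        exact ⟨_, hi⟩
      · rintro ⟨i, hi⟩
        exact ⟨Fin.cast hlen.symm i, by simpa using hi⟩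
    rw [h2] at h1
    exact h1


/-- **Out-items at good hosts, the remaining set first.** -/
theorem lightsR (p : NP) (hp : p.OK) (hab : ab p.b p.l ≤ p.a) {D₀ : ℕ} (hD₀ : p.A ≤ D₀)
    {ω c η η₁ κ₀ κ₁ κ γ₀ τ s σ₂ μ : ℝ} (P : KB D₀ ω c η η₁ κ₀ κ₁ κ γ₀ τ s σ₂ μ) {κU ε : ℝ} (hU0 : 0 < κU) (hUκ : κU ≤ κ)
    (hε : 0 < ε) (hεσ : 8 * ε ≤ σ₂) (hεη : ε ≤ η₁) (N : ℕ) :
    ∃ w₀ : ℕ, ∀ Kg : ℕ, ∃ (C M₉ c₉ : ℕ) (δ : ℝ), 1 ≤ M₉ ∧ 0 < δ ∧ ∀ {V : Type} {R : V → V → Prop}, AE32.Tour R → ∀ {U Y F₀ : Finset V}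
      (os : List (V × Fd)), C ≤ Y.card → Y ⊆ U → κU * U.card ≤ κ * Y.card → os.length ≤ N →
      (∀ q ∈ os, q.1 ∈ U ∧ GdU R κU η U Y q.1 ∧ FOK p.b p.l 0 q.2 ∧ ∀ t ∈ q.2.trees, t.1 = true) →
      (F₀.card : ℝ) ≤ κU ^ 2 / 128 * Y.card →
      ∃ (Z : Finset V) (L : List (V × Fd)), PEsB R os Z L ∧ Z ⊆ U ∧ Disjoint Z F₀ ∧ Z.card ≤ w₀ ∧
        ∀ W : Finset V, Z ⊆ W → (∀ q ∈ os, q.1 ∈ W) → ((W ∩ Y).card : ℝ) ≤ μ * Y.card →
          ∀ 𝓕x : Finset (Finset V), 𝓕x.card ≤ 8 * Y.card ^ 3 →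
          ∀ {ι : Type} (G : Finset ι) (D : ι → Finset V), (∀ u ∈ G, D u ⊆ Y \ W) → (∀ u ∈ G, (D u).Nonempty) →
            Pool.Agent.AEF.Graded G D Kg →
          ∀ (S₀ : Finset V) (I : V → Finset V), (∀ v ∈ S₀, I v ⊆ Y \ W) → Pool.Agent.AEF.Graded S₀ I Kg →
            (totB os : ℝ) + C ≤ (1 - ω) * Y.card →
            ∃ Q ⊆ Y \ W, c * (Y \ W).card ≤ Q.card ∧ Rep (Y \ W) 𝓕x (ε / 2) Q ∧
              (∀ u ∈ G, (D u ∩ Q).Nonempty ∧ (D u).card ≤ M₉ * (D u ∩ Q).card) ∧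
              (∀ v ∈ S₀, c₉ ≤ (I v).card → (I v).card ≤ M₉ * (I v ∩ Q).card) ∧
              ∀ W' : Finset V, (W'.card : ℝ) ≤ δ * (Y \ W).card →
                ∃ S : Finset V, EmbAllB R os (Z ∪ S) ∧ S ⊆ Y \ W ∧ Disjoint S Q ∧ Disjoint S W' := by
  obtain ⟨hω0, hω1, hc0, hc1, hη0, hη1, hη₁0, hη₁1, hκ₀0, hκ₁0, hκ₁1, hκ0, hκ1, hs0, hγ₀0, hτ0, hσ₂0, hμ0, hκ₁η, hκs⟩ :=
    P.num
  obtain ⟨CE, hCE, hEE⟩ := ee_all p hp hab hD₀ P
  obtain ⟨hD, hω, hc, hη, hη₁, hκ₀, hκ₁, hκ, hγ₀, hτ, hs, hσ₂, hμ⟩ := P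
  have hcη : c * η ≤ 1 * η := mul_le_mul_of_nonneg_right (by linarith) hη0.le
  obtain ⟨M, hM⟩ : ∃ M : ℕ, M = ⌈8 / κU⌉₊ + 1 := ⟨_, rfl⟩
  obtain ⟨wM, hwM⟩ : ∃ w : ℕ, w = wB p.b (ab p.b p.l) M := ⟨_, rfl⟩
  obtain ⟨vM, hvM⟩ : ∃ w : ℕ, w = vB p.b (ab p.b p.l) M := ⟨_, rfl⟩
  refine ⟨N * (p.b * wM), fun Kg => ?_⟩
  obtain ⟨m, hm⟩ : ∃ m : ℕ, m = N * (p.b * vM) := ⟨_, rfl⟩
  obtain ⟨m₁, hm₁⟩ : ∃ m₁ : ℕ, m₁ = ⌈16 * ((p.c : ℝ) + p.c0 + 2) / σ₂⌉₊ := ⟨_, rfl⟩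
  have hm₁' : 16 * ((p.c : ℝ) + p.c0 + 2) ≤ σ₂ * m₁ := by
    have h1 : 16 * ((p.c : ℝ) + p.c0 + 2) / σ₂ ≤ m₁ := by rw [hm₁]; exact Nat.le_ceil _
    rw [div_le_iff₀ hσ₂0] at h1
    linarith
  have hε1 : ε ≤ 1 := by linarith
  obtain ⟨n₁, M₉, c₉, δ, hM₉, hδ0, hlights⟩ := lights_res (c := c) hε hε1 hc0 m Kg m₁
  obtain ⟨cn, hcn⟩ : ∃ cn : ℕ, cn = (N + 1) * (p.b * wM + 1 + 2 ^ ab p.b p.l) := ⟨_, rfl⟩
  obtain ⟨n3, h3⟩ := exists_big [((2 : ℝ), η), ((8 : ℝ), κ₀), ((cn : ℝ), κU ^ 2 / 128), (2 * (n₁ : ℝ), 1),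
      ((4 : ℝ), σ₂), (40, 1)] (by
    intro q hq
    simp only [List.mem_cons, List.not_mem_nil, or_false] at hq
    rcases hq with rfl | rfl | rfl | rfl | rfl | rfl
    · exact hη0
    · exact hκ₀0
    · show 0 < κU ^ 2 / 128
      positivity
    · exact one_pos
    · exact hσ₂0
    · exact one_pos)
  obtain ⟨C, hC⟩ : ∃ C : ℕ, C = n3 + (m * ⌈CE⌉₊ + 2 * (m * m₁)) := ⟨_, rfl⟩
  refine ⟨C, M₉, c₉, δ, hM₉, hδ0, ?_⟩
  intro V R hT U Y F₀ os hCY hYU hUY hlen hos hF₀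
  have hn3 : n3 ≤ Y.card := by omega
  have g := h3 Y.card hn3
  obtain ⟨n, hnd⟩ : ∃ n : ℝ, n = (Y.card : ℝ) := ⟨_, rfl⟩
  have g1 : (2 : ℝ) ≤ η * Y.card := g (2, η) (by simp)
  have g2 : (8 : ℝ) ≤ κ₀ * Y.card := g (8, κ₀) (by simp)
  have g3 : (cn : ℝ) ≤ κU ^ 2 / 128 * Y.card := g ((cn : ℝ), κU ^ 2 / 128) (by simp)
  have g4 : 2 * (n₁ : ℝ) ≤ 1 * Y.card := g (2 * (n₁ : ℝ), 1) (by simp)
  have g5 : (4 : ℝ) ≤ σ₂ * Y.card := g (4, σ₂) (by simp)
  have g6 : (40 : ℝ) ≤ 1 * Y.card := g (40, 1) (by simp)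
  have hY0 : (0 : ℝ) ≤ Y.card := Nat.cast_nonneg _
  have hYUc : (Y.card : ℝ) ≤ U.card := by exact_mod_cast card_le_card hYU
  obtain ⟨Ks, hKY, hKh, hKc⟩ := exists_K hT (X := Y) (η := η) (η₁ := η₁) hκ₀0 (by
    linarith only [hκ₀, hη₁0]) (by linarith only [hη₁1, hcη, hη1, hη0]) hη0 (by linarith only [hη1]) g1 g2
  rw [← hκ₁, ← hτ] at hKh
  have hlev : ∀ v ∈ U, GdU R κU η U Y v → v ∈ Lv R U Ks (κU ^ 2 / 32 * U.card) M := by
    intro v hv hG
    rw [hM]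
    exact hG.level hT hU0 (by linarith only [hUκ, hκ1, hκ₁1, hκ₁η, hη₁1, hcη, hη1, hη0, hκ₀0, hκ₁0, hκ₀])
      hYU hKY hKc (by
      have : κ * Y.card ≤ 24 * η * Y.card :=
        mul_le_mul_of_nonneg_right (by linarith only [hκ1, hκ₁η, hη₁1, hcη, hη0, hκ₁0, hη₁0]) hY0
      linarith only [this, hUY]) hv
  have hkU : κU ^ 2 / 128 * (Y.card : ℝ) ≤ κU ^ 2 / 128 * U.card := mul_le_mul_of_nonneg_left hYUc (by positivity)
  have hkU0 : 0 ≤ κU ^ 2 * (U.card : ℝ) := by positivity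
  obtain ⟨Z, L, hPEs, hZU, hZF, hZc, hLc, hLK⟩ := place_allB hT hp.hb (hKY.trans hYU) (l := p.l) M
    (k := κU ^ 2 / 32 * U.card) os F₀ (fun q hq =>
      ⟨hlev q.1 (hos q hq).1 (hos q hq).2.1, (hos q hq).2.2.1, (hos q hq).2.2.2⟩) (by
      rw [← hwM]
      have h2 : ((os.length + 1 : ℕ) : ℝ) * (p.b * wM + 1 + 2 ^ ab p.b p.l : ℕ) ≤ cn := by
        rw [hcn]
        exact_mod_cast Nat.mul_le_mul_right _ (Nat.succ_le_succ hlen)
      linarith)
  rw [← hwM] at hZc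
  rw [← hvM] at hLc
  refine ⟨Z, L, hPEs, hZU, hZF, hZc.trans (Nat.mul_le_mul_right _ hlen), ?_⟩
  intro W hZW hosW hWc 𝓕x h𝓕x ι G D hD hDne hGD S₀ I hI hSI hsz
  have hLm : L.length ≤ m := by
    rw [hm]
    exact hLc.trans (Nat.mul_le_mul_right _ hlen)
  have hmem := hPEs.mem (fun q hq => (hos q hq).2.2.1)
  -- the set `A`
  obtain ⟨A, hA⟩ : ∃ A, A = Y \ W := ⟨_, rfl⟩
  rw [← hA] at hD hI ⊢
  have hAY : A ⊆ Y := by rw [hA]; exact sdiff_subset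
  have hYA : ((Y \ A).card : ℝ) ≤ μ * Y.card := by
    refine le_trans ?_ hWc
    have h1 : Y \ A ⊆ W ∩ Y := by
      intro x hx
      rw [hA, mem_sdiff, mem_sdiff, not_and, not_not] at hx
      exact mem_inter.2 ⟨hx.2 hx.1, hx.1⟩
    exact_mod_cast card_le_card h1
  have hAc : (1 - μ) * n ≤ A.card := by
    have h1 : (Y.card : ℝ) = (Y \ A).card + A.card := by exact_mod_cast (card_sdiff_add_card_eq_card hAY).symm
    rw [hnd]
    linarith
  have hμω : μ ≤ ω / 16 := by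
    have h1 : σ₂ ≤ ω / 16 := by
      rw [hσ₂]
      have h2 : η ≤ ω / 56 := by rw [hη]
      linarith
    rw [hμ]
    linarith
  have hn40 : 40 ≤ n := by rw [hnd]; linarith
  have hn0 : 0 < n := by linarith
  have hA2 : n ≤ 2 * A.card := by
    have : μ * n ≤ 1 / 2 * n := mul_le_mul_of_nonneg_right (by linarith) hn0.le
    linarith
  -- the families
  have hfam : ∀ y : V, ∃ 𝓕 : Finset (Finset V), 𝓕.card ≤ 7 * Y.card ^ 2 ∧
      (y ∈ Ks → y ∉ A → OkB R κ η s p A 𝓕 ε m₁ (R y)) := by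
    intro y
    by_cases hy : y ∈ Ks
    · obtain ⟨Y', hY', hXY, hSY⟩ := hKh y hy
      obtain ⟨𝓕, h1, h2⟩ := piece_lemmaB hT p (σ₂ := σ₂) (μ := μ) (ε := ε) (κ := κ) (s := s) (m := m₁) hY' hXY hSY hκ0 hη0
        (by linarith) hκ₁0 (by linarith) hη₁0 hσ₂0 hμ0 hε (by linarith) (by linarith) (by linarith) hεσ
        g5 (by linarith) (by linarith) (by linarith) hεη (by
          have h1 : c * η₁ ≤ 1 * η₁ := mul_le_mul_of_nonneg_right (by linarith) hη₁0.le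
          linarith) hm₁'
      exact ⟨𝓕, h1, fun _ hyA => h2 A hAY hyA hYA⟩
    · exact ⟨∅, by simp, fun h => absurd h hy⟩
  choose Fam hFam1 hFam2 using hfam
  set 𝓕 := 𝓕x ∪ Ks.biUnion Fam with h𝓕
  have h𝓕c : 𝓕.card ≤ A.card ^ 5 := by
    have h1 : 𝓕.card ≤ 8 * Y.card ^ 3 + Ks.card * (7 * Y.card ^ 2) := by
      refine (card_union_le _ _).trans (Nat.add_le_add h𝓕x ?_)
      exact card_biUnion_le_card_mul _ _ _ (fun y _ => hFam1 y)
    have h2 : Ks.card ≤ Y.card := card_le_card hKY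
    have h3 : (𝓕.card : ℝ) ≤ 8 * n ^ 3 + n * (7 * n ^ 2) := by
      have h4 : (𝓕.card : ℝ) ≤ 8 * n ^ 3 + Ks.card * (7 * n ^ 2) := by
        rw [hnd]; exact_mod_cast h1
      have h5 : (Ks.card : ℝ) ≤ n := by rw [hnd]; exact_mod_cast h2
      have h6 : (Ks.card : ℝ) * (7 * n ^ 2) ≤ n * (7 * n ^ 2) :=
        mul_le_mul_of_nonneg_right (by linarith) (by positivity)
      linarith
    have h7 : (n / 2) ^ 5 ≤ (A.card : ℝ) ^ 5 := pow_le_pow_left₀ (by positivity) (by linarith) 5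
    have h8 : 8 * n ^ 3 + n * (7 * n ^ 2) ≤ (n / 2) ^ 5 := by
      have h9 : 8 * n ^ 3 + n * (7 * n ^ 2) = n ^ 3 * 15 := by ring
      have h10 : (n / 2) ^ 5 = n ^ 3 * (n * n / 32) := by ring
      have h11 : 40 * 40 ≤ n * n := mul_le_mul hn40 hn40 (by norm_num) hn0.le
      rw [h9, h10]
      exact mul_le_mul_of_nonneg_left (by linarith) (by positivity)
    exact_mod_cast h3.trans (h8.trans h7)
  have hn1 : n₁ ≤ A.card := by
    have h1 : (n₁ : ℝ) ≤ A.card := by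
      rw [← hnd] at g4
      linarith
    exact_mod_cast h1
  have hη7 : 0 < 1 - 7 * η := by linarith
  -- the list of items
  obtain ⟨wt, hwt⟩ : ∃ wt : V × Fd → ℝ, wt = fun q => (1 * ((q.2.size : ℝ) + 1) + CE) / (1 - 7 * η) := ⟨_, rfl⟩
  have hsum : ((L.map (fun q => (((R q.1, q.2) : (V → Prop) × Fd), wt q))).map (fun q => q.2)).sum + m * m₁ ≤
      (1 - 4 * c) * A.card := by
    rw [List.map_map]
    have h1 : ((fun q : ((V → Prop) × Fd) × ℝ => q.2) ∘ fun q : V × Fd => (((R q.1, q.2) : (V → Prop) × Fd), wt q)) =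
        fun q => (1 * ((q.2.size : ℝ) + 1) + CE) / (1 - 7 * η) := by
      funext q
      simp [hwt]
    rw [h1, isz_weights]
    have h2 : (AEB.isz L : ℝ) ≤ totB os := by
      have := hPEs.size
      exact_mod_cast (by omega : AEB.isz L ≤ totB os)
    have h3 : (L.length : ℝ) * CE ≤ m * ⌈CE⌉₊ := by
      have h4 : (L.length : ℝ) ≤ m := by exact_mod_cast hLm
      exact mul_le_mul h4 (Nat.le_ceil _) hCE (Nat.cast_nonneg _)
    have h4 : (C : ℝ) = n3 + (m * ⌈CE⌉₊ + 2 * (m * m₁)) := by rw [hC]; push_cast; ring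
    have h5 : (0 : ℝ) ≤ m * m₁ := by positivity
    have h6 : (0 : ℝ) ≤ n3 := Nat.cast_nonneg _
    have h7 : ((AEB.isz L : ℝ) + L.length * CE) / (1 - 7 * η) ≤ (1 - 7 * ω / 8) * n - 2 * (m * m₁) := by
      rw [div_le_iff₀ hη7]
      have h8 : (AEB.isz L : ℝ) + L.length * CE ≤ (1 - ω) * n - 2 * (m * m₁) := by
        rw [← hnd] at hsz
        linarith
      refine h8.trans ?_
      have h9 : 1 - 7 * η = 1 - ω / 8 := by rw [hη]; ring
      rw [h9]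
      have h10 : ((1 - 7 * ω / 8) * n - 2 * (m * m₁)) * (1 - ω / 8) =
          (1 - ω) * n + 7 * (ω * ω * n) / 64 - 2 * (m * m₁) + ω / 8 * (2 * (m * m₁)) := by ring
      rw [h10]
      have h11 : 0 ≤ ω * ω * n := by positivity
      have h12 : 0 ≤ ω / 8 * (2 * (m * m₁ : ℝ)) := by positivity
      linarith
    have h8 : (1 - 4 * c) * ((1 - μ) * n) ≤ (1 - 4 * c) * A.card := mul_le_mul_of_nonneg_left hAc (by linarith)
    have h9 : (1 - 7 * ω / 8) * n ≤ (1 - 4 * c) * ((1 - μ) * n) := by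
      have h10 : (1 - 4 * c) * ((1 - μ) * n) = (1 - 4 * c - μ + 4 * c * μ) * n := by ring
      rw [h10]
      refine mul_le_mul_of_nonneg_right ?_ hn0.le
      have h11 : 0 ≤ 4 * c * μ := by positivity
      rw [hc] at h11 ⊢
      linarith
    linarith
  obtain ⟨Q, q2, q5, q6, q7, q8, q9⟩ := hlights (R := R) A 𝓕 hn1 h𝓕c G D hD hDne hGD S₀ I hI hSI
    (L.map (fun q => (((R q.1, q.2) : (V → Prop) × Fd), wt q))) (by rw [List.length_map]; exact hLm) (by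
      intro q' hq'
      rw [List.mem_map] at hq'
      obtain ⟨q, hq, rfl⟩ := hq'
      refine ⟨?_, ?_⟩
      · simp only [hwt]
        positivity
      · have hqA : q.1 ∉ A := by
          rw [hA, mem_sdiff, not_and, not_not]
          intro _
          rcases (hmem q hq).1 with h1 | ⟨r, hr, h1⟩
          · exact hZW h1
          · rw [h1]; exact hosW r hr
        have h1 := bx_of_okB (hFam2 q.1 (hLK q hq) hqA) (K := 1) (C := CE) (by linarith) (hEE hT q.2 (hmem q hq).2)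
        refine h1.mono ?_ le_rfl ?_ (fun x _ hx => hx)
        · rw [h𝓕]
          exact (subset_biUnion_of_mem Fam (hLK q hq)).trans subset_union_right
        · simp only [hwt]
          exact le_rfl) hsum
  refine ⟨Q, q2, q5, fun F hF => q6 F (by rw [h𝓕]; exact mem_union_left _ hF), q7, q8, ?_⟩
  intro W' hW'
  obtain ⟨S, q1, q3, q3', q4⟩ := q9 W' hW'
  have hE : EmbI R L S := by
    rw [embI_iff]
    have h1 : ((L.map (fun q => (((R q.1, q.2) : (V → Prop) × Fd), wt q))).map (fun q => q.1)) =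
        L.map (fun q => (R q.1, q.2)) := by
      rw [List.map_map]
      rfl
    rw [h1] at q4
    exact q4
  have hZS : Disjoint Z S := by
    rw [disjoint_left]
    intro x hx hxS
    have := q1 hxS
    rw [hA, mem_sdiff] at this
    exact this.2 (hZW hx)
  exact ⟨S, hPEs.complete S hZS hE, q1, q3, q3'⟩


end AEG
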