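import Pool.Agent.AEG.PackHosts
import Pool.Agent.SPD.ConstE

/-!
# Link items

Forests hang at hosts which may have few out-neighbours in the pool `P`. `Cap R P U M m k h`: the host `h` has at
least `M` out-neighbours in `P`, or it has at least `m` out-neighbours `u ∈ U` which satisfy `Cap` for `k - 1`.
`place_outs`: the forests can be embedded partially, at most `cnt b k` vertices for each of them, all in `U`, such that
the remaining items hang at vertices with `M` out-neighbours in `P`. `pool_items`: these items are then embedded in a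
part `Z` of the pool, so that the consumption of `P` is known up to the constant `cnt b k` for each host.
-/

set_option autoImplicit false

namespace AEG

open Finset AE15 SPD
open scoped Classical

variable {V : Type} {R : V → V → Prop}

/-- the capacity ladder -/
def Cap (R : V → V → Prop) (P U : Finset V) (M m : ℕ) : ℕ → V → Prop
  | 0, h => M ≤ (nO R P h).card
  | k + 1, h => M ≤ (nO R P h).card ∨ m ≤ (U.filter (fun u => R h u ∧ Cap R P U M m k u)).card

theorem Cap.succ {P U : Finset V} {M m k : ℕ} {h : V} (hh : Cap R P U M m 0 h) : Cap R P U M m k h := by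
  cases k with
  | zero => exact hh
  | succ k => exact Or.inl hh

/-- all trees pending at a host with many out-neighbours in the pool -/
theorem place_pend (P : Finset V) {M : ℕ} (F : Fo) {h : V} (hh : M ≤ (nO R P h).card) :
    ∃ L : List (Item V), PE R F (R h) ∅ L ∧ ∀ p ∈ L, p.1 = R h ∧ M ≤ (nO R P h).card := by
  refine ⟨_, PE.pendall (R h) F, ?_⟩
  intro p hp
  obtain ⟨c, _, rfl⟩ := List.mem_map.1 hp
  exact ⟨rfl, hh⟩

/-- one host -/
theorem place_out {P U : Finset V} {M m b : ℕ} : ∀ (k : ℕ) (F : Fo) (h : V) (W : Finset V), F.len ≤ b → F.Deg b →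
    Cap R P U M m k h → W.card + cnt b k ≤ m →
    ∃ (Z : Finset V) (L : List (Item V)), PE R F (R h) Z L ∧ Z ⊆ U ∧ Disjoint Z W ∧ Z.card ≤ cnt b k ∧
      ∀ p ∈ L, ∃ u, (u = h ∨ u ∈ Z) ∧ p.1 = R u ∧ M ≤ (nO R P u).card := by
  intro k
  induction k with
  | zero =>
    intro F h W _ _ hh _
    obtain ⟨L, h1, h2⟩ := place_pend P F hh
    exact ⟨∅, L, h1, empty_subset _, disjoint_empty_left _, by simp, fun p hp => ⟨h, Or.inl rfl, h2 p hp⟩⟩
  | succ k ih =>
    intro F h W hlen hdeg hh hW
    rcases hh with hh | hh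
    · obtain ⟨L, h1, h2⟩ := place_pend P F hh
      exact ⟨∅, L, h1, empty_subset _, disjoint_empty_left _, by simp, fun p hp => ⟨h, Or.inl rfl, h2 p hp⟩⟩
    · have key : ∀ (s : Fo) (j : ℕ) (W : Finset V), s.len ≤ j → s.Deg b → W.card + j * (cnt b k + 1) ≤ m →
          ∃ (Z : Finset V) (L : List (Item V)), PE R s (R h) Z L ∧ Z ⊆ U ∧ Disjoint Z W ∧
            Z.card ≤ j * (cnt b k + 1) ∧ ∀ p ∈ L, ∃ u, u ∈ Z ∧ p.1 = R u ∧ M ≤ (nO R P u).card := by
        intro s
        induction s with
        | nil =>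
          intro j W _ _ _
          exact ⟨∅, [], PE.nil _, empty_subset _, disjoint_empty_left _, by simp, by simp⟩
        | node c s _ ihs =>
          intro j W hj hd hWj
          rw [Fo.len] at hj
          obtain ⟨j, rfl⟩ : ∃ j', j = j' + 1 := ⟨j - 1, by omega⟩
          have e1 : (j + 1) * (cnt b k + 1) = j * (cnt b k + 1) + cnt b k + 1 := by ring
          rw [e1] at hWj
          obtain ⟨u, hu⟩ : ((U.filter (fun u => R h u ∧ Cap R P U M m k u)) \ W).Nonempty := by
            rw [← card_pos]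
            have := le_card_sdiff W (U.filter (fun u => R h u ∧ Cap R P U M m k u))
            omega
          rw [mem_sdiff, mem_filter] at hu
          obtain ⟨⟨huU, huh, huC⟩, huW⟩ := hu
          have hc1 : (insert u W).card ≤ W.card + 1 := card_insert_le _ _
          obtain ⟨Z₁, L₁, hP1, hZ1U, hZ1W, hZ1c, hL1⟩ := ih c u (insert u W) hd.1 hd.2.1 huC (by omega)
          have hc2 : (insert u W ∪ Z₁).card ≤ W.card + 1 + cnt b k := (card_union_le _ _).trans (by omega)
          obtain ⟨Z₂, L₂, hP2, hZ2U, hZ2W, hZ2c, hL2⟩ := ihs j (insert u W ∪ Z₁) (by omega) hd.2.2 (by omega)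
          rw [disjoint_insert_right] at hZ1W
          rw [disjoint_union_right, disjoint_insert_right] at hZ2W
          refine ⟨insert u (Z₁ ∪ Z₂), L₁ ++ L₂, PE.place c s (R h) u Z₁ Z₂ L₁ L₂ huh hZ1W.1 hZ2W.1.1
            hZ2W.2.symm hP1 hP2, insert_subset huU (union_subset hZ1U hZ2U), ?_, ?_, ?_⟩
          · rw [disjoint_insert_left, disjoint_union_left]
            exact ⟨huW, hZ1W.2, hZ2W.1.2⟩
          · have h1 := card_insert_le u (Z₁ ∪ Z₂)
            have h2 := card_union_le Z₁ Z₂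
            omega
          · intro p hp
            rcases List.mem_append.1 hp with hp | hp
            · obtain ⟨v, hv, h1, h2⟩ := hL1 p hp
              refine ⟨v, ?_, h1, h2⟩
              rcases hv with rfl | hv
              · exact mem_insert_self _ _
              · exact mem_insert_of_mem (mem_union_left _ hv)
            · obtain ⟨v, hv, h1, h2⟩ := hL2 p hp
              exact ⟨v, mem_insert_of_mem (mem_union_right _ hv), h1, h2⟩
      obtain ⟨Z, L, h1, h2, h3, h4, h5⟩ := key F b W hlen hdeg hW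
      exact ⟨Z, L, h1, h2, h3, h4, fun p hp => by
        obtain ⟨u, hu, h6, h7⟩ := h5 p hp
        exact ⟨u, Or.inr hu, h6, h7⟩⟩

/-- several hosts -/
theorem place_outs {P U : Finset V} {M m b : ℕ} (k : ℕ) : ∀ (os : List (V × Fo)) (W : Finset V),
    (∀ p ∈ os, p.2.len ≤ b ∧ p.2.Deg b ∧ Cap R P U M m k p.1) → W.card + os.length * cnt b k ≤ m →
    ∃ (Z : Finset V) (L : List (Item V)), PEs R os Z L ∧ Z ⊆ U ∧ Disjoint Z W ∧ Z.card ≤ os.length * cnt b k ∧
      ∀ q ∈ L, ∃ u, (u ∈ os.map Prod.fst ∨ u ∈ Z) ∧ q.1 = R u ∧ M ≤ (nO R P u).card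
  | [], W, _, _ => ⟨∅, [], ⟨rfl, rfl⟩, empty_subset _, disjoint_empty_left _, by simp, by simp⟩
  | p :: os, W, h, hW => by
    have e1 : (p :: os).length * cnt b k = os.length * cnt b k + cnt b k := by
      simp only [List.length_cons]
      ring
    rw [e1] at hW
    obtain ⟨h1, h2, h3⟩ := h p List.mem_cons_self
    obtain ⟨Z₁, L₁, hP1, hZ1U, hZ1W, hZ1c, hL1⟩ := place_out k p.2 p.1 W h1 h2 h3 (by omega)
    have hc : (W ∪ Z₁).card ≤ W.card + cnt b k := (card_union_le _ _).trans (by omega)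
    obtain ⟨Z₂, L₂, hP2, hZ2U, hZ2W, hZ2c, hL2⟩ := place_outs k os (W ∪ Z₁)
      (fun q hq => h q (List.mem_cons_of_mem _ hq)) (by omega)
    rw [disjoint_union_right] at hZ2W
    refine ⟨Z₁ ∪ Z₂, L₁ ++ L₂, ⟨Z₁, Z₂, L₁, L₂, hZ2W.2.symm, rfl, rfl, hP1, hP2⟩, union_subset hZ1U hZ2U,
      disjoint_union_left.2 ⟨hZ1W, hZ2W.1⟩, ?_, ?_⟩
    · have := card_union_le Z₁ Z₂
      omega
    · intro q hq
      rcases List.mem_append.1 hq with hq | hq
      · obtain ⟨u, hu, h4, h5⟩ := hL1 q hq
        refine ⟨u, ?_, h4, h5⟩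
        rcases hu with rfl | hu
        · exact Or.inl (by simp)
        · exact Or.inr (mem_union_left _ hu)
      · obtain ⟨u, hu, h4, h5⟩ := hL2 q hq
        refine ⟨u, ?_, h4, h5⟩
        rcases hu with hu | hu
        · exact Or.inl (by simp only [List.map_cons, List.mem_cons]; exact Or.inr hu)
        · exact Or.inr (mem_union_right _ hu)

/-- the pending items are embedded in the pool `Z`, one after the other -/
theorem pool_items (b : ℕ) (hb : 1 ≤ b) : ∃ C : ℕ, ∀ {V : Type} {R : V → V → Prop}, AE32.Tour R →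
    ∀ (Z : Finset V) (L : List (Item V)) (A : Finset V),
      (∀ q ∈ L, q.2.len ≤ b ∧ q.2.Deg b ∧ ∃ u, q.1 = R u ∧ A.card + isz L + C ≤ (nO R Z u).card) →
      ∃ S, EmbX R L S ∧ S ⊆ Z ∧ Disjoint S A := by
  obtain ⟨C, hC⟩ := ee_one b hb
  refine ⟨C, fun {V R} hT Z L => ?_⟩
  induction L with
  | nil =>
    intro A _
    exact ⟨∅, rfl, empty_subset _, disjoint_empty_left _⟩
  | cons q L ih =>
    intro A h
    obtain ⟨h1, h2, u, h3, h4⟩ := h q List.mem_cons_self
    rw [isz_cons] at h4
    have h5 : (nO R Z u).card ≤ (nO R (Z \ A) u).card + A.card := by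
      have h6 : nO R Z u ⊆ nO R (Z \ A) u ∪ A := by
        intro x hx
        rw [mem_nO] at hx
        rw [mem_union, mem_nO, mem_sdiff]
        by_cases hxA : x ∈ A
        · exact Or.inr hxA
        · exact Or.inl ⟨⟨hx.1, hxA⟩, hx.2⟩
      exact (card_le_card h6).trans (card_union_le _ _)
    obtain ⟨S₁, hS₁, hE⟩ := hC hT q.2 h1 h2 (nO R (Z \ A) u) q.1 (by
      have h6 : q.2.size + 1 + C ≤ (nO R (Z \ A) u).card := by omega
      have h7 : ((q.2.size + 1 + C : ℕ) : ℝ) ≤ (nO R (Z \ A) u).card := by exact_mod_cast h6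
      push_cast at h7
      linarith) (by
      intro x hx
      left
      rw [h3]
      exact (mem_nO.1 hx).2)
    have hS₁c : S₁.card = q.2.size + 1 := by
      rw [hE.card]
      simp [Fo.size]
    have hS₁Z : S₁ ⊆ Z \ A := hS₁.trans nO_sub
    have hc : (A ∪ S₁).card ≤ A.card + (q.2.size + 1) := (card_union_le _ _).trans (by omega)
    obtain ⟨S₂, hE2, hS₂, hS₂A⟩ := ih (A ∪ S₁) (by
      intro q' hq'
      obtain ⟨h6, h7, u', h8, h9⟩ := h q' (List.mem_cons_of_mem _ hq')
      rw [isz_cons] at h9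
      exact ⟨h6, h7, u', h8, by omega⟩)
    rw [disjoint_union_right] at hS₂A
    refine ⟨S₁ ∪ S₂, ⟨S₁, S₂, hS₂A.2.symm, rfl, hE, hE2⟩, union_subset (hS₁Z.trans sdiff_subset) hS₂, ?_⟩
    rw [disjoint_union_left]
    refine ⟨?_, hS₂A.1⟩
    rw [disjoint_left]
    intro x hx hxA
    exact (mem_sdiff.1 (hS₁Z hx)).2 hxA

/-- **Link items**: the forests of the hosts are embedded, all but `Z₀` in the pool -/
theorem link_done {os : List (V × Fo)} {Z₀ S Z : Finset V} {L : List (Item V)} (h : PEs R os Z₀ L)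
    (hE : EmbX R L S) (hS : S ⊆ Z) (hd : Disjoint Z₀ Z) :
    EmbAll R os (Z₀ ∪ S) ∧ S.card + Z₀.card = tot os := by
  refine ⟨h.complete S (disjoint_of_subset_right hS hd) hE, ?_⟩
  rw [hE.card, h.size]
  omega

end AEG
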