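import Pool.Agent.AEG.PackB
import Pool.Agent.AEB.MainB

/-!
# Link items with bounded runs

`tops`: forests hanging at hosts from which a set `Ks` is reached in at most `i` steps with `k` choices for each step are
embedded partially such that all pending items hang at vertices of `Ks`.
`pool_itemsB`: pending items are embedded, without any condition on the place of their roots, in a pool `Z`.
`lv_good`: the hosts reach `Kp` (the vertices with many out-neighbours in `P₁`) in two steps, if there are few vertices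
of `G` outside `Kp` and every vertex outside `G` dominates almost all of `G`.
-/

set_option autoImplicit false

namespace AEG

open Finset AE15 AED AEB SPD
open scoped Classical

/-- the pending items are embedded in the pool `Z`, one after the other -/
theorem pool_itemsB (b l : ℕ) (hb : 1 ≤ b) : ∃ C : ℕ, ∀ {V : Type} {R : V → V → Prop}, AE32.Tour R →
    ∀ (Z : Finset V) (L : List (V × Fd)) (A : Finset V),
      (∀ q ∈ L, FOK b l 0 q.2 ∧ A.card + AEB.isz L + C ≤ (nO R Z q.1).card) →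
      ∃ S, EmbI R L S ∧ S ⊆ Z ∧ Disjoint S A := by
  obtain ⟨C, hC⟩ := stagesStatement b l hb
  refine ⟨C, fun {V R} hT Z L => ?_⟩
  induction L with
  | nil =>
    intro A _
    exact ⟨∅, rfl, empty_subset _, disjoint_empty_left _⟩
  | cons q L ih =>
    intro A h
    obtain ⟨h1, h4⟩ := h q List.mem_cons_self
    have hisz : AEB.isz (q :: L) = q.2.size + 1 + AEB.isz L := by simp [AEB.isz]
    rw [hisz] at h4
    have h5 : (nO R Z q.1).card ≤ (nO R (Z \ A) q.1).card + A.card := by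
      have h6 : nO R Z q.1 ⊆ nO R (Z \ A) q.1 ∪ A := by
        intro x hx
        rw [mem_nO] at hx
        rw [mem_union, mem_nO, mem_sdiff]
        by_cases hxA : x ∈ A
        · exact Or.inr hxA
        · exact Or.inl ⟨⟨hx.1, hxA⟩, hx.2⟩
      exact (card_le_card h6).trans (card_union_le _ _)
    obtain ⟨x, hx, S₁, hS₁, hxS₁, -, hE⟩ := hC hT q.2 h1 (nO R (Z \ A) q.1) (by omega)
    have hS₁c : (insert x S₁).card = q.2.size + 1 := by
      rw [card_insert_of_notMem hxS₁, EmbB.card hE]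
    have hins : insert x S₁ ⊆ Z \ A := (insert_subset hx hS₁).trans nO_sub
    have hc : (A ∪ insert x S₁).card ≤ A.card + (q.2.size + 1) := (card_union_le _ _).trans (by omega)
    obtain ⟨S₂, hE2, hS₂, hS₂A⟩ := ih (A ∪ insert x S₁) (by
      intro q' hq'
      obtain ⟨h6, h9⟩ := h q' (List.mem_cons_of_mem _ hq')
      rw [hisz] at h9
      exact ⟨h6, by omega⟩)
    rw [disjoint_union_right] at hS₂A
    refine ⟨insert x S₁ ∪ S₂, ⟨insert x S₁, S₂, hS₂A.2.symm, rfl, ⟨x, S₁, (mem_nO.1 hx).2, hxS₁, rfl, hE⟩, hE2⟩,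
      union_subset (hins.trans sdiff_subset) hS₂, ?_⟩
    rw [disjoint_union_left]
    refine ⟨?_, hS₂A.1⟩
    rw [disjoint_left]
    intro y hy hyA
    exact (mem_sdiff.1 (hins hy)).2 hyA

variable {V : Type} {R : V → V → Prop}

/-- the size of a set of items after the top parts were embedded -/
theorem isz_le_tot {os : List (V × Fd)} {Z : Finset V} {L : List (V × Fd)} (h : PEsB R os Z L) :
    AEB.isz L ≤ totB os := by
  have := h.size
  omega

/-- the vertices of `A` with at least `M` out-neighbours in `P` -/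
noncomputable def Kp (R : V → V → Prop) (P A : Finset V) (M : ℕ) : Finset V :=
  A.filter (fun u => M ≤ (nO R P u).card)

theorem mem_Kp {P A : Finset V} {M : ℕ} {u : V} : u ∈ Kp R P A M ↔ u ∈ A ∧ M ≤ (nO R P u).card := by
  unfold Kp
  rw [mem_filter]

theorem Kp_sub {P A : Finset V} {M : ℕ} : Kp R P A M ⊆ A := filter_subset _ _

/-- the next level -/
theorem mem_Lv_succ {X K : Finset V} {k : ℝ} {i : ℕ} {z : V} (hz : z ∈ X)
    (h : k ≤ ((nO R (Lv R X K k i) z).card : ℝ)) : z ∈ Lv R X K k (i + 1) := by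
  change z ∈ K ∪ X.filter (fun z => k ≤ ((nO R (Lv R X K k i) z).card : ℝ))
  rw [mem_union, mem_filter]
  exact Or.inr ⟨hz, h⟩

/-- **Two steps.** `Q`: the vertices which may be used; `B`: the vertices of `G ∩ Q` with fewer than `M` out-neighbours
in `P₁`. -/
theorem lv_good (hT : AE32.Tour R) {P₁ Q Av Hs G B : Finset V} {M m s₀ : ℕ} {h : V}
    (hB : ∀ u ∈ G ∩ Q, (nO R P₁ u).card < M → u ∈ B)
    (hbulk : ∀ u ∈ Q, u ∉ G → (nI R G u).card ≤ s₀)
    (hG : s₀ + B.card + Av.card + m ≤ (G ∩ Q).card)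
    (hh : B.card + Av.card + m ≤ (nO R Q h).card) (hhH : h ∈ Hs) :
    h ∈ Lv R ((Q \ Av) ∪ Hs) (Kp R P₁ ((Q \ Av) ∪ Hs) M) m 2 := by
  obtain ⟨U, hU⟩ : ∃ U, U = (Q \ Av) ∪ Hs := ⟨_, rfl⟩
  rw [← hU]
  have hQU : ∀ u ∈ Q, u ∉ Av → u ∈ U := by
    intro u h1 h2
    rw [hU, mem_union, mem_sdiff]
    exact Or.inl ⟨h1, h2⟩
  have h0 : ∀ u ∈ Q, u ∉ Av → u ∈ G → u ∉ B → u ∈ Kp R P₁ U M := by
    intro u h1 h2 h3 h4
    rw [mem_Kp]
    refine ⟨hQU u h1 h2, ?_⟩
    by_contra h5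
    exact h4 (hB u (mem_inter.2 ⟨h3, h1⟩) (not_le.1 h5))
  have h1 : ∀ u ∈ Q, u ∉ Av → u ∉ B → u ∈ Lv R U (Kp R P₁ U M) m 1 := by
    intro u hu1 hu2 hu3
    by_cases hu4 : u ∈ G
    · exact sub_Lv 1 (h0 u hu1 hu2 hu4 hu3)
    · refine mem_Lv_succ (hQU u hu1 hu2) ?_
      have h2 : (G ∩ Q) ⊆ nO R (Lv R U (Kp R P₁ U M) m 0) u ∪ (nI R G u ∪ (B ∪ Av)) := by
        intro w hw
        rw [mem_inter] at hw
        rw [mem_union, mem_union, mem_union, mem_nO, mem_nI]
        by_cases hw1 : w ∈ Av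
        · exact Or.inr (Or.inr (Or.inr hw1))
        by_cases hw2 : w ∈ B
        · exact Or.inr (Or.inr (Or.inl hw2))
        have hne : u ≠ w := fun e => hu4 (e ▸ hw.1)
        rcases hT.tot u w hne with h3 | h3
        · exact Or.inl ⟨h0 w hw.2 hw1 hw.1 hw2, h3⟩
        · exact Or.inr (Or.inl ⟨hw.1, h3⟩)
      have h3 := (card_le_card h2).trans ((card_union_le _ _).trans (Nat.add_le_add_left ((card_union_le _ _).trans
        (Nat.add_le_add_left (card_union_le _ _) _)) _))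
      have h4 := hbulk u hu1 hu4
      have h5 : m ≤ (nO R (Lv R U (Kp R P₁ U M) m 0) u).card := by
        generalize (nO R (Lv R U (Kp R P₁ U M) m 0) u).card = q at h3 ⊢
        omega
      exact_mod_cast h5
  refine mem_Lv_succ (by rw [hU]; exact mem_union_right _ hhH) ?_
  have h2 : nO R Q h ⊆ nO R (Lv R U (Kp R P₁ U M) m 1) h ∪ (B ∪ Av) := by
    intro u hu
    rw [mem_nO] at hu
    rw [mem_union, mem_union, mem_nO]
    by_cases hw1 : u ∈ Av
    · exact Or.inr (Or.inr hw1)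
    by_cases hw2 : u ∈ B
    · exact Or.inr (Or.inl hw2)
    exact Or.inl ⟨h1 u hu.1 hw1 hw2, hu.2⟩
  have h3 := (card_le_card h2).trans ((card_union_le _ _).trans (Nat.add_le_add_left (card_union_le _ _) _))
  have h5 : m ≤ (nO R (Lv R U (Kp R P₁ U M) m 1) h).card := by
    generalize (nO R (Lv R U (Kp R P₁ U M) m 1) h).card = q at h3 ⊢
    omega
  exact_mod_cast h5

/-- **Three steps**: a host with many out-neighbours which reach `Kp` in two steps -/
theorem lv_good3 {P₁ Q Av Hs W : Finset V} {M m : ℕ} {h : V}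
    (hW : ∀ u ∈ W, R h u ∧ u ∈ Lv R ((Q \ Av) ∪ Hs) (Kp R P₁ ((Q \ Av) ∪ Hs) M) m 2) (hWm : m ≤ W.card) (hhH : h ∈ Hs) :
    h ∈ Lv R ((Q \ Av) ∪ Hs) (Kp R P₁ ((Q \ Av) ∪ Hs) M) m 3 := by
  refine mem_Lv_succ (mem_union_right _ hhH) ?_
  have h1 : W.card ≤ (nO R (Lv R ((Q \ Av) ∪ Hs) (Kp R P₁ ((Q \ Av) ∪ Hs) M) m 2) h).card := by
    apply card_le_card
    intro u hu
    rw [mem_nO]
    exact ⟨(hW u hu).2, (hW u hu).1⟩
  exact_mod_cast hWm.trans h1

/-- **Top parts of the link items.** -/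
theorem tops (hT : AE32.Tour R) {b l : ℕ} (hb : 1 ≤ b) (i : ℕ) {P₁ Q Av Hs : Finset V} {M m : ℕ}
    (os : List (V × Fd)) (hosF : ∀ p ∈ os, FOK b l 0 p.2 ∧ (∀ q ∈ p.2.trees, q.1 = true))
    (hosL : ∀ p ∈ os, p.1 ∈ Lv R ((Q \ Av) ∪ Hs) (Kp R P₁ ((Q \ Av) ∪ Hs) M) m i)
    (hm : (Av ∪ Hs).card + (os.length + 1) * (b * wB b (ab b l) i + 1 + 2 ^ ab b l) ≤ m) :
    ∃ (T : Finset V) (L : List (V × Fd)), PEsB R os T L ∧ T ⊆ Q ∧ Disjoint T (Av ∪ Hs) ∧
      T.card ≤ os.length * (b * wB b (ab b l) i) ∧ L.length ≤ os.length * (b * vB b (ab b l) i) ∧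
      ∀ q ∈ L, FOK b l 0 q.2 ∧ M ≤ (nO R P₁ q.1).card ∧ (q.1 ∈ T ∨ ∃ p ∈ os, q.1 = p.1) := by
  obtain ⟨T, L, h1, h2, h3, h4, h5, h6⟩ := place_allB hT (k := m) hb (Kp_sub (R := R) (P := P₁)
    (A := (Q \ Av) ∪ Hs) (M := M)) i os (Av ∪ Hs) (fun p hp => ⟨hosL p hp, hosF p hp⟩) (by exact_mod_cast hm)
  refine ⟨T, L, h1, ?_, h3, h4, h5, ?_⟩
  · intro u hu
    have h7 := h2 hu
    rw [mem_union, mem_sdiff] at h7
    rcases h7 with h7 | h7
    · exact h7.1
    · exact absurd (mem_union_right _ h7) (disjoint_left.1 h3 hu)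
  · intro q hq
    obtain ⟨h7, h8⟩ := h1.mem (fun p hp => (hosF p hp).1) q hq
    exact ⟨h8, (mem_Kp.1 (h6 q hq)).2, h7⟩

/-- all items pending -/
theorem pend_allB : ∀ (os : List (V × Fd)), (∀ p ∈ os, ∀ q ∈ p.2.trees, q.1 = true) →
    ∃ L : List (V × Fd), PEsB R os ∅ L
  | [], _ => ⟨[], rfl, rfl⟩
  | p :: os, h => by
    obtain ⟨L, hL⟩ := pend_allB os (fun p' hp' => h p' (List.mem_cons_of_mem _ hp'))
    exact ⟨_, ∅, ∅, _, L, disjoint_empty_left _, by simp, rfl, pendallB p.2 p.1 (h p List.mem_cons_self), hL⟩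

/-- **Filling**: the pending items are embedded in the pool -/
theorem fillB (b l : ℕ) (hb : 1 ≤ b) : ∃ C : ℕ, ∀ {V : Type} {R : V → V → Prop}, AE32.Tour R →
    ∀ {os : List (V × Fd)} {T Z : Finset V} {L : List (V × Fd)}, PEsB R os T L → Disjoint T Z →
      (∀ q ∈ L, FOK b l 0 q.2 ∧ totB os + C ≤ (nO R Z q.1).card) →
      ∃ S ⊆ Z, EmbAllB R os (T ∪ S) ∧ T.card + S.card = totB os := by
  obtain ⟨C, hC⟩ := pool_itemsB b l hb
  refine ⟨C, fun {V R} hT {os T Z L} h hd hL => ?_⟩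
  have h0 := h.size
  obtain ⟨S, h1, h2, -⟩ := hC hT Z L ∅ (by
    intro q hq
    obtain ⟨h3, h4⟩ := hL q hq
    rw [card_empty]
    exact ⟨h3, by omega⟩)
  have hdS : Disjoint T S := disjoint_of_subset_right h2 hd
  have h3 := h.complete S hdS h1
  refine ⟨S, h2, h3, ?_⟩
  rw [← EmbAllB.card h3, card_union_of_disjoint hdS]

end AEG
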