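import Pool.Agent.AEG.ListM

/-!
# Class M2: the list side of the driver, general form

Small vertices are given by a predicate, runs of small vertices have length `K`. One-sided class: every vertex with large
in-branches has a run among the `N` vertices before it. Two-sided class: also among the `N` vertices behind it.
-/

namespace AEG

open Finset Relation AE15 AED AEB
open scoped Classical

variable {sm : Fd × Fd → Prop}

/-- `K` consecutive small vertices -/
def RunG (sm : Fd × Fd → Prop) (K : ℕ) (L : List (Fd × Fd)) (j : ℕ) : Prop := ∀ s < K, ∃ q, L[j + s]? = some q ∧ sm q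

/-- every vertex with large in-branches has a run before it -/
def ClsB (sm : Fd × Fd → Prop) (K B N : ℕ) (L : List (Fd × Fd)) : Prop := ∀ i, N ≤ i → BgL B L i →
  ∃ j, i ≤ j + N ∧ j + K ≤ i ∧ RunG sm K L j

/-- every vertex with large in-branches has a run behind it -/
def ClsA (sm : Fd × Fd → Prop) (K B N : ℕ) (L : List (Fd × Fd)) : Prop := ∀ i, i + N < L.length → BgL B L i →
  ∃ j, i < j ∧ j + K ≤ i + 1 + N ∧ RunG sm K L j

/-- before every vertex with large in-branches there is a run of length `K` -/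
def FolG (sm : Fd × Fd → Prop) (K B : ℕ) (L : List (Fd × Fd)) : Prop := ∀ h, BgL B L h → ∃ j, j + K ≤ h ∧ RunG sm K L j

/-- before every vertex with large in-branches there is a run of length `k + 1`, or the list starts with a run of length
`k` -/
def QG (sm : Fd × Fd → Prop) (k B₂ : ℕ) (L : List (Fd × Fd)) : Prop := ∀ g, BgL B₂ L g →
  (∃ j, j + (k + 1) ≤ g ∧ RunG sm (k + 1) L j) ∨ (k ≤ g ∧ RunG sm k L 0)

theorem runG_drop {K n : ℕ} {L : List (Fd × Fd)} {j : ℕ} : RunG sm K (L.drop n) j ↔ RunG sm K L (n + j) := by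
  simp only [RunG, List.getElem?_drop, add_assoc]

theorem RunG.sub {K K' : ℕ} {L : List (Fd × Fd)} {j : ℕ} (h : RunG sm K L j) (i : ℕ) (hi : i + K' ≤ K) :
    RunG sm K' L (j + i) := by
  intro s hs
  have := h (i + s) (by omega)
  rwa [← add_assoc] at this

theorem RunG.le_length {K : ℕ} {L : List (Fd × Fd)} {j : ℕ} (h : RunG sm K L j) (hK : 1 ≤ K) : j + K ≤ L.length := by
  obtain ⟨q, hq, -⟩ := h (K - 1) (by omega)
  by_contra hc
  rw [List.getElem?_eq_none (by omega)] at hq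
  simp at hq

/-- a large vertex is not inside a run -/
theorem RunG.out {B K : ℕ} {L : List (Fd × Fd)} {j h : ℕ} (hsm : ∀ q, B < q.1.size → ¬ sm q) (hr : RunG sm K L j)
    (hb : BgL B L h) (h1 : j ≤ h) : j + K ≤ h := by
  by_contra hc
  obtain ⟨q, h2, h3⟩ := hr (h - j) (by omega)
  rw [show j + (h - j) = h by omega] at h2
  obtain ⟨q', h4, h5⟩ := hb
  rw [h2] at h4
  obtain rfl : q = q' := by simpa using h4
  exact hsm q h5 h3

theorem ClsB.drop {K B N : ℕ} {L : List (Fd × Fd)} (h : ClsB sm K B N L) (n : ℕ) : ClsB sm K B N (L.drop n) := by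
  intro i hi hb
  rw [bgL_drop] at hb
  obtain ⟨j, j1, j2, j3⟩ := h (n + i) (by omega) hb
  refine ⟨j - n, by omega, by omega, ?_⟩
  rw [runG_drop, show n + (j - n) = j by omega]
  exact j3

theorem ClsA.drop {K B N : ℕ} {L : List (Fd × Fd)} (h : ClsA sm K B N L) (n : ℕ) : ClsA sm K B N (L.drop n) := by
  intro i hi hb
  rw [List.length_drop] at hi
  rw [bgL_drop] at hb
  obtain ⟨j, j1, j2, j3⟩ := h (n + i) (by omega) hb
  refine ⟨j - n, by omega, by omega, ?_⟩
  rw [runG_drop, show n + (j - n) = j by omega]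
  exact j3

theorem FolG.QG {k B B₂ : ℕ} (hB : B ≤ B₂) {L : List (Fd × Fd)} (h : FolG sm (k + 1) B L) : QG sm k B₂ L := fun g hg =>
  Or.inl (h g (hg.mono hB))

theorem FolG.small {K B : ℕ} {L : List (Fd × Fd)} (h : FolG sm K B L) : ∀ i < K, ¬ BgL B L i := by
  intro i hi hb
  obtain ⟨j, j1, -⟩ := h i hb
  omega

theorem QG.of_no {k B₂ : ℕ} {L : List (Fd × Fd)} (h : ∀ g, ¬ BgL B₂ L g) (n : ℕ) : AEG.QG sm k B₂ (L.drop n) := by
  intro g hg
  rw [bgL_drop] at hg
  exact absurd hg (h _)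

/-- after dropping two vertices -/
theorem FolG.drop2 {K B : ℕ} {L : List (Fd × Fd)} (h : FolG sm (K + 2) B L) : FolG sm K B (L.drop 2) := by
  intro g hg
  rw [bgL_drop] at hg
  obtain ⟨j, j1, j2⟩ := h _ hg
  by_cases hj : 2 ≤ j
  · refine ⟨j - 2, by omega, ?_⟩
    rw [runG_drop, show 2 + (j - 2) = j + 0 by omega]
    exact j2.sub 0 (by omega)
  · refine ⟨0, by omega, ?_⟩
    rw [runG_drop, show 2 + 0 = j + (2 - j) by omega]
    exact j2.sub _ (by omega)

/-- **the end of a group, one-sided class** -/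
theorem exists_endG {K B N : ℕ} (hK : 1 ≤ K) (hsm : ∀ q, B < q.1.size → ¬ sm q) {L : List (Fd × Fd)} (hc : ClsB sm K B N L)
    {g t : ℕ} (hg : BgL B L g) (hJ : ∀ j, RunG sm K L j → j + K ≤ g → j ≤ t) :
    ∃ e, g ≤ e ∧ e < L.length ∧ e ≤ t + N ∧ FolG sm K B (L.drop (e + 1)) := by
  set Nx : ℕ → Prop := fun e => g ≤ e ∧ BgL B L e ∧ ∀ h, e < h → BgL B L h → ∃ j, e < j ∧ j + K ≤ h ∧ RunG sm K L j with hNx
  have hex : ∃ e, Nx e := by
    set S : Finset ℕ := (Finset.range L.length).filter (fun i => BgL B L i) with hS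
    have hgS : g ∈ S := mem_filter.2 ⟨Finset.mem_range.2 hg.lt, hg⟩
    have hmem := S.max'_mem ⟨g, hgS⟩
    refine ⟨S.max' ⟨g, hgS⟩, S.le_max' g hgS, (mem_filter.1 hmem).2, ?_⟩
    intro h h1 h2
    exfalso
    have := S.le_max' h (mem_filter.2 ⟨Finset.mem_range.2 h2.lt, h2⟩)
    omega
  obtain ⟨e1, e2, e3⟩ := Nat.find_spec hex
  set e := Nat.find hex with he
  refine ⟨e, e1, e2.lt, ?_, ?_⟩
  · by_cases hN : N ≤ e
    · obtain ⟨j, j1, j2, j3⟩ := hc e hN e2
      by_cases h3 : j + K ≤ g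
      · have := hJ j j3 h3
        omega
      · exfalso
        have hgj : g < j := by
          by_contra h
          exact h3 (j3.out hsm hg (by omega))
        set S : Finset ℕ := (Finset.range j).filter (fun i => BgL B L i) with hS
        have hgS : g ∈ S := mem_filter.2 ⟨Finset.mem_range.2 hgj, hg⟩
        have hmem := S.max'_mem ⟨g, hgS⟩
        rw [mem_filter, Finset.mem_range] at hmem
        have hlt : S.max' ⟨g, hgS⟩ < e := by omega
        refine Nat.find_min hex hlt ⟨S.le_max' g hgS, hmem.2, ?_⟩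
        intro h h1 h2
        refine ⟨j, hmem.1, ?_, j3⟩
        have hjh : j ≤ h := by
          by_contra hc'
          have := S.le_max' h (mem_filter.2 ⟨Finset.mem_range.2 (by omega), h2⟩)
          omega
        exact j3.out hsm h2 hjh
    · omega
  · intro h hh
    rw [bgL_drop] at hh
    obtain ⟨j, j1, j2, j3⟩ := e3 (e + 1 + h) (by omega) hh
    refine ⟨j - (e + 1), by omega, ?_⟩
    rw [runG_drop, show e + 1 + (j - (e + 1)) = j by omega]
    exact j3

/-- **where we are**: no large in-branches; or a group comes next; or a tame round is possible -/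
theorem whereG {k K B₂ : ℕ} (hk : 2 ≤ k) (hK : k + 1 ≤ K) {L : List (Fd × Fd)} (hQ : QG sm k B₂ L) :
    (∀ g, ¬ BgL B₂ L g) ∨
      (∃ g, BgL B₂ L g ∧ k ≤ g ∧ RunG sm k L 0 ∧ ∀ j, RunG sm K L j → j + K ≤ g → j = 0) ∨
      ((∀ i < 2, ¬ BgL B₂ L i) ∧ 3 ≤ L.length ∧ QG sm k B₂ (L.drop 1) ∧ QG sm k B₂ (L.drop 2)) := by
  by_cases hno : ∃ g, BgL B₂ L g
  swap
  · left
    exact fun g hg => hno ⟨g, hg⟩
  right
  have hg := Nat.find_spec hno
  have hmin : ∀ g', BgL B₂ L g' → Nat.find hno ≤ g' := fun g' h => Nat.find_min' hno h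
  set g := Nat.find hno with hgdef
  by_cases hJ : ∃ j, j + (k + 1) ≤ g ∧ RunG sm (k + 1) L j
  · set S : Finset ℕ := (Finset.range g).filter (fun j => j + (k + 1) ≤ g ∧ RunG sm (k + 1) L j) with hS
    have hne : S.Nonempty := by
      obtain ⟨j, j1, j2⟩ := hJ
      exact ⟨j, mem_filter.2 ⟨Finset.mem_range.2 (by omega), j1, j2⟩⟩
    obtain ⟨j, hj1, hj2⟩ : ∃ j ∈ S, ∀ j' ∈ S, j' ≤ j := ⟨S.max' hne, S.max'_mem hne, fun j' h => S.le_max' j' h⟩
    rw [mem_filter, Finset.mem_range] at hj1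
    obtain ⟨-, hj3, hj4⟩ := hj1
    rcases Nat.eq_zero_or_pos j with h0 | h0
    · left
      subst h0
      refine ⟨g, hg, by omega, by simpa using hj4.sub 0 (show 0 + k ≤ k + 1 by omega), ?_⟩
      intro j' h1 h2
      have := hj2 j' (mem_filter.2 ⟨Finset.mem_range.2 (by omega), by omega, by simpa using h1.sub 0 (by omega)⟩)
      omega
    · right
      have hgl := hg.lt
      refine ⟨fun i hi hbi => ?_, by omega, ?_, ?_⟩
      · have := hmin i hbi
        omega
      · intro g' hg'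
        rw [bgL_drop] at hg'
        have := hmin _ hg'
        left
        refine ⟨j - 1, by omega, ?_⟩
        rw [runG_drop, show 1 + (j - 1) = j by omega]
        exact hj4
      · intro g' hg'
        rw [bgL_drop] at hg'
        have := hmin _ hg'
        by_cases h2 : 2 ≤ j
        · left
          refine ⟨j - 2, by omega, ?_⟩
          rw [runG_drop, show 2 + (j - 2) = j by omega]
          exact hj4
        · right
          obtain rfl : j = 1 := by omega
          refine ⟨by omega, ?_⟩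
          rw [runG_drop]
          exact hj4.sub 1 (by omega)
  · left
    rcases hQ g hg with h | ⟨h1, h2⟩
    · exact absurd h hJ
    · refine ⟨g, hg, h1, h2, ?_⟩
      intro j' h4 h5
      exact absurd ⟨j', by omega, by simpa using h4.sub 0 (by omega)⟩ hJ

theorem eq_cons_cons {L : List (Fd × Fd)} {k : ℕ} (hk : 2 ≤ k) (h : RunG sm k L 0) : ∃ l₁ l₂, sm l₁ ∧ sm l₂ ∧
    L = l₁ :: l₂ :: L.drop 2 := by
  obtain ⟨q₁, h1, h2⟩ := h 0 (by omega)
  obtain ⟨q₂, h3, h4⟩ := h 1 (by omega)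
  match L, h1, h3 with
  | a :: b :: T, h1, h3 =>
    obtain rfl : a = q₁ := by simpa using h1
    obtain rfl : b = q₂ := by simpa using h3
    exact ⟨a, b, h2, h4, rfl⟩

/-- the part of the list from `t` to `e` -/
theorem split2 (L : List (Fd × Fd)) {t e : ℕ} (h : t ≤ e + 1) :
    L.drop t = (L.drop t).take (e + 1 - t) ++ L.drop (e + 1) := by
  have h1 : L.drop (e + 1) = (L.drop t).drop (e + 1 - t) := by
    rw [List.drop_drop]
    congr 1
    omega
  rw [h1, List.take_append_drop]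

/-- **one-sided class, small = small in-branches** -/
theorem stepI {k B B₂ N : ℕ} (hk : 2 ≤ k) (hB : B ≤ B₂) {L : List (Fd × Fd)}
    (hc : ClsB (fun q => q.1.size ≤ B) (k + 3) B N L) (hQ : QG (fun q => q.1.size ≤ B) k B₂ L) :
    (∀ g, ¬ BgL B₂ L g) ∨
      (∃ l₁ l₂ gr t₁ t₂ rest, L = l₁ :: l₂ :: (gr ++ t₁ :: t₂ :: rest) ∧ rest ≠ [] ∧ l₁.1.size ≤ B ∧ l₂.1.size ≤ B ∧
        t₁.1.size ≤ B ∧ t₂.1.size ≤ B ∧ gr ≠ [] ∧ gr.length ≤ N ∧ B₂ < inS gr ∧
        ClsB (fun q => q.1.size ≤ B) (k + 3) B N rest ∧ FolG (fun q => q.1.size ≤ B) (k + 1) B rest) ∨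
      (∃ l₁ l₂ gr, L = l₁ :: l₂ :: gr ∧ l₁.1.size ≤ B ∧ l₂.1.size ≤ B ∧ gr ≠ [] ∧ gr.length ≤ N + 2 ∧ B₂ < inS gr) ∨
      ((∀ i < 2, ¬ BgL B₂ L i) ∧ 3 ≤ L.length ∧ QG (fun q => q.1.size ≤ B) k B₂ (L.drop 1) ∧
        QG (fun q => q.1.size ≤ B) k B₂ (L.drop 2)) := by
  have hsm : ∀ q : Fd × Fd, B < q.1.size → ¬ q.1.size ≤ B := fun q h => by omega
  rcases whereG hk (K := k + 3) (by omega) hQ with h | ⟨g, hg, hkg, hr, hJ⟩ | h
  · exact Or.inl h
  · right
    obtain ⟨e, e1, e2, e3, e4⟩ := exists_endG (t := 0) (by omega) hsm hc (hg.mono hB) (fun j h1 h2 => by rw [hJ j h1 h2])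
    obtain ⟨l₁, l₂, s1, s2, hL⟩ := eq_cons_cons hk hr
    obtain ⟨q, hq1, hq2⟩ := hg
    have hmem := mem_mid (t := 2) hq1 (by omega) e1
    have hlen : ((L.drop 2).take (e + 1 - 2)).length ≤ N := by
      rw [List.length_take]
      omega
    have hin := lt_inS_of_mem hmem hq2
    have hsp := split2 L (t := 2) (e := e) (by omega)
    by_cases h3 : 3 ≤ (L.drop (e + 1)).length
    · left
      obtain ⟨t₁, t₂, r, rest, hr'⟩ : ∃ t₁ t₂ r rest, L.drop (e + 1) = t₁ :: t₂ :: r :: rest := by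
        match L.drop (e + 1), h3 with
        | a :: b :: c :: T, _ => exact ⟨a, b, c, T, rfl⟩
      have hns := e4.small
      have hd2 : (L.drop (e + 1)).drop 2 = r :: rest := by rw [hr']; rfl
      refine ⟨l₁, l₂, (L.drop 2).take (e + 1 - 2), t₁, t₂, r :: rest, ?_, by simp, s1, s2, ?_, ?_, List.ne_nil_of_mem hmem,
        hlen, hin, ?_, ?_⟩
      · rw [← hr', ← hsp, ← hL]
      · by_contra hc'
        exact hns 0 (by omega) ⟨t₁, by rw [hr']; rfl, by omega⟩
      · by_contra hc'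
        exact hns 1 (by omega) ⟨t₂, by rw [hr']; rfl, by omega⟩
      · rw [← hd2]
        exact (hc.drop _).drop _
      · rw [← hd2]
        exact e4.drop2
    · right; left
      refine ⟨l₁, l₂, L.drop 2, hL, s1, s2, ?_, ?_, ?_⟩
      · rw [hsp]
        exact List.append_ne_nil_of_left_ne_nil (List.ne_nil_of_mem hmem) _
      · rw [hsp, List.length_append]
        omega
      · have : q ∈ L.drop 2 := by
          rw [hsp]
          exact List.mem_append_left _ hmem
        exact lt_inS_of_mem this hq2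
  · exact Or.inr (Or.inr (Or.inr h))

/-- **two-sided class** -/
theorem stepII {k B B₂ N : ℕ} (hk : 2 ≤ k) (hB : B ≤ B₂) (hsm : ∀ q, B < q.1.size → ¬ sm q) {L : List (Fd × Fd)}
    (hc : ClsB sm (k + 3) B N L) (hc' : ClsA sm (k + 3) B N L) (hQ : QG sm k B₂ L) :
    (∀ g, ¬ BgL B₂ L g) ∨
      (∃ l₁ l₂ gr t₁ t₂ rest, L = l₁ :: l₂ :: (gr ++ t₁ :: t₂ :: rest) ∧ rest ≠ [] ∧ sm l₁ ∧ sm l₂ ∧
        sm t₁ ∧ sm t₂ ∧ gr ≠ [] ∧ gr.length ≤ 2 * N ∧ B₂ < inS gr ∧
        ClsB sm (k + 3) B N rest ∧ ClsA sm (k + 3) B N rest ∧ FolG sm (k + 1) B rest) ∨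
      (∃ l₁ l₂ gr, L = l₁ :: l₂ :: gr ∧ sm l₁ ∧ sm l₂ ∧ gr ≠ [] ∧ gr.length ≤ 2 * N ∧ B₂ < inS gr) ∨
      ((∀ i < 2, ¬ BgL B₂ L i) ∧ 3 ≤ L.length ∧ QG sm k B₂ (L.drop 1) ∧ QG sm k B₂ (L.drop 2)) := by
  rcases whereG hk (K := k + 3) (by omega) hQ with h | ⟨g, hg, hkg, hr, hJ⟩ | h
  · exact Or.inl h
  · right
    obtain ⟨l₁, l₂, s1, s2, hL⟩ := eq_cons_cons hk hr
    have hgB := hg.mono hB
    have hgN : g ≤ N := by
      by_cases h : N ≤ g
      · obtain ⟨j, j1, j2, j3⟩ := hc g h hgB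
        have := hJ j j3 j2
        omega
      · omega
    obtain ⟨q, hq1, hq2⟩ := hg
    by_cases hrun : ∃ j, g < j ∧ RunG sm (k + 3) L j
    · left
      obtain ⟨j1, j2⟩ := Nat.find_spec hrun
      have hjmin : ∀ j', g < j' → RunG sm (k + 3) L j' → Nat.find hrun ≤ j' := fun j' h1 h2 => Nat.find_min' hrun ⟨h1, h2⟩
      set j := Nat.find hrun with hj
      have hjl := j2.le_length (by omega)
      have hjN : j ≤ g + 1 + N := by
        by_cases h : g + N < L.length
        · obtain ⟨j', k1, k2, k3⟩ := hc' g h hgB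
          have := hjmin j' k1 k3
          omega
        · omega
      clear_value j
      obtain ⟨e, rfl⟩ : ∃ e, j = e + 1 := ⟨j - 1, by omega⟩
      have hmem := mem_mid (t := 2) hq1 (by omega) (show g ≤ e by omega)
      have hin := lt_inS_of_mem hmem hq2
      have hsp := split2 L (t := 2) (e := e) (by omega)
      obtain ⟨t₁, t₂, u1, u2, hT⟩ := eq_cons_cons (L := L.drop (e + 1)) (k := k + 3) (by omega)
        (by rw [runG_drop, add_zero]; exact j2)
      refine ⟨l₁, l₂, (L.drop 2).take (e + 1 - 2), t₁, t₂, (L.drop (e + 1)).drop 2, ?_, ?_, s1, s2, u1, u2,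
        List.ne_nil_of_mem hmem, ?_, hin, (hc.drop _).drop _, (hc'.drop _).drop _, ?_⟩
      · rw [← hT, ← hsp, ← hL]
      · intro h
        have := congrArg List.length h
        rw [List.length_drop, List.length_drop, List.length_nil] at this
        omega
      · rw [List.length_take]
        omega
      · intro h hh
        refine ⟨0, ?_, ?_⟩
        · rw [bgL_drop, bgL_drop] at hh
          have := j2.out hsm hh (by omega)
          omega
        · rw [runG_drop, runG_drop, show e + 1 + (2 + 0) = e + 1 + 2 by omega]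
          exact j2.sub 2 (by omega)
    · right; left
      have hgl : L.length ≤ g + N := by
        by_contra h
        obtain ⟨j', k1, k2, k3⟩ := hc' g (by omega) hgB
        exact hrun ⟨j', k1, k3⟩
      have hmem : q ∈ L.drop 2 := by
        apply List.mem_of_getElem? (i := g - 2)
        rw [List.getElem?_drop, show 2 + (g - 2) = g by omega, hq1]
      refine ⟨l₁, l₂, L.drop 2, hL, s1, s2, List.ne_nil_of_mem hmem, ?_, lt_inS_of_mem hmem hq2⟩
      rw [List.length_drop]
      omega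
  · exact Or.inr (Or.inr (Or.inr h))

/-- **two-sided class, the start** -/
theorem startII {k B B₂ N : ℕ} (hB : B ≤ B₂) (hsm : ∀ q, B < q.1.size → ¬ sm q) {L : List (Fd × Fd)}
    (hc : ClsB sm (k + 3) B N L) (hc' : ClsA sm (k + 3) B N L) :
    QG sm k B₂ L ∨
      (∃ gr t₁ t₂ rest, L = gr ++ t₁ :: t₂ :: rest ∧ rest ≠ [] ∧ sm t₁ ∧ sm t₂ ∧ gr ≠ [] ∧ gr.length ≤ 2 * N ∧
        B₂ < inS gr ∧ ClsB sm (k + 3) B N rest ∧ ClsA sm (k + 3) B N rest ∧ FolG sm (k + 1) B rest) ∨
      (L.length ≤ 2 * N ∧ B₂ < inS L) := by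
  by_cases hQ : QG sm k B₂ L
  · exact Or.inl hQ
  right
  unfold QG at hQ
  push Not at hQ
  obtain ⟨g, hg, hg1, -⟩ := hQ
  have hgB := hg.mono hB
  have hgN : g < N := by
    by_contra h
    obtain ⟨j, j1, j2, j3⟩ := hc g (by omega) hgB
    exact hg1 j (by omega) (by simpa using j3.sub 0 (by omega))
  obtain ⟨q, hq1, hq2⟩ := hg
  by_cases hrun : ∃ j, g < j ∧ RunG sm (k + 3) L j
  · left
    obtain ⟨j1, j2⟩ := Nat.find_spec hrun
    have hjmin : ∀ j', g < j' → RunG sm (k + 3) L j' → Nat.find hrun ≤ j' := fun j' h1 h2 => Nat.find_min' hrun ⟨h1, h2⟩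
    set j := Nat.find hrun with hj
    have hjl := j2.le_length (by omega)
    have hjN : j ≤ g + 1 + N := by
      by_cases h : g + N < L.length
      · obtain ⟨j', k1, k2, k3⟩ := hc' g h hgB
        have := hjmin j' k1 k3
        omega
      · omega
    clear_value j
    obtain ⟨e, rfl⟩ : ∃ e, j = e + 1 := ⟨j - 1, by omega⟩
    have hmem := mem_mid (t := 0) hq1 (by omega) (show g ≤ e by omega)
    have hin := lt_inS_of_mem hmem hq2
    have hsp := split2 L (t := 0) (e := e) (by omega)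
    rw [List.drop_zero] at hsp hmem hin
    obtain ⟨t₁, t₂, u1, u2, hT⟩ := eq_cons_cons (L := L.drop (e + 1)) (k := k + 3) (by omega)
      (by rw [runG_drop, add_zero]; exact j2)
    refine ⟨L.take (e + 1 - 0), t₁, t₂, (L.drop (e + 1)).drop 2, ?_, ?_, u1, u2,
      List.ne_nil_of_mem hmem, ?_, hin, (hc.drop _).drop _, (hc'.drop _).drop _, ?_⟩
    · rw [← hT, ← hsp]
    · intro h
      have := congrArg List.length h
      rw [List.length_drop, List.length_drop, List.length_nil] at this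
      omega
    · rw [List.length_take]
      omega
    · intro h hh
      refine ⟨0, ?_, ?_⟩
      · rw [bgL_drop, bgL_drop] at hh
        have := j2.out hsm hh (by omega)
        omega
      · rw [runG_drop, runG_drop, show e + 1 + (2 + 0) = e + 1 + 2 by omega]
        exact j2.sub 2 (by omega)
  · right
    have hgl : L.length ≤ g + N := by
      by_contra h
      obtain ⟨j', k1, k2, k3⟩ := hc' g (by omega) hgB
      exact hrun ⟨j', k1, k3⟩
    exact ⟨by omega, lt_inS_of_mem (List.mem_of_getElem? hq1) hq2⟩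

end AEG
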