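import Pool.Agent.AEG.Tame
import Pool.Agent.AEB.NPx

/-!
# The tame final: a large tree in the out-branch of the second vertex

The next two vertices of the line are placed at `v` and `z`; a largest tree of the out-branch of `z` is embedded last, in
the rest of `Y`, which is in the class of every tree with one more vertex of constants.
-/

set_option autoImplicit false

namespace AEG

open Finset AE15 AED AEB
open scoped Classical

/-! ### Blocks of the line -/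

theorem blk_app (F G : Fd) : blk (app F G) = blk F + blk G := by
  induction F with
  | nil => simp [app, blk]
  | node d c s _ ihs =>
    simp only [app, blk, ihs]
    omega

theorem blk_le_size (F : Fd) : blk F ≤ F.size := by
  induction F with
  | nil => exact le_rfl
  | node d c s ihc ihs =>
    simp only [blk, Fd.size]
    split_ifs <;> omega

theorem blk_of_flags (F : Fd) (h : ∀ t ∈ F.trees, t.1 = true) : blk F = 0 := by
  induction F with
  | nil => rfl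
  | node d c s _ ihs =>
    have h1 : d = true := h (d, c) (by simp [Fd.trees])
    subst h1
    have h2 := ihs fun t ht => h t (by simp [Fd.trees, ht])
    simp [blk, h2]

theorem blk_toF (L : List (Fd × Fd)) : blk (toF L) = 0 := by
  cases L with
  | nil => rfl
  | cons q L => simp [toF, blk]

theorem blk_chF (q : Fd × Fd) (L : List (Fd × Fd)) (h : ∀ t ∈ q.2.trees, t.1 = true) : blk (chF q L) ≤ q.1.size := by
  have h1 := blk_le_size (flip q.1)
  rw [flip_size] at h1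
  rw [chF, blk_app, blk_app, blk_of_flags q.2 h, blk_toF]
  omega

/-! ### Parts of a forest -/

theorem inR_iff {l j : ℕ} {F : Fd} : InR l j F ↔ ∀ p ∈ F.trees, InR l (if p.1 then 0 else j + 1) p.2 ∧
    (p.1 = false → j + 1 ≤ l) := by
  refine ⟨fun h p hp => h.child hp, ?_⟩
  induction F with
  | nil => intro _; trivial
  | node d c s _ ihs =>
    intro h
    have h1 := h (d, c) (by simp [Fd.trees])
    refine ⟨?_, ihs fun p hp => h p (by simp [Fd.trees, hp])⟩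
    cases d with
    | true => simpa using h1.1
    | false => exact ⟨h1.2 rfl, by simpa using h1.1⟩

theorem fok_ofT {b l j : ℕ} {F : Fd} {a : Bool × Fd} {L : List (Bool × Fd)} (h : FOK b l j F)
    (hp : F.trees.Perm (a :: L)) : FOK b l j (ofT L) := by
  have hs : ∀ p ∈ L, p ∈ F.trees := fun p hpL => hp.mem_iff.2 (List.mem_cons_of_mem _ hpL)
  have hlen := hp.length_eq
  rw [List.length_cons] at hlen
  obtain ⟨h1, h2, h3⟩ := h
  refine ⟨?_, (Fd.deg_iff b _).2 ?_, inR_iff.2 ?_⟩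
  · rw [Fd.len_eq] at h1 ⊢
    rw [trees_ofT]
    omega
  · rw [trees_ofT]
    exact fun p hpL => (Fd.deg_iff b F).1 h2 p (hs p hpL)
  · rw [trees_ofT]
    exact fun p hpL => inR_iff.1 h3 p (hs p hpL)

theorem size_ofT {F : Fd} {a : Bool × Fd} {L : List (Bool × Fd)} (hp : F.trees.Perm (a :: L)) :
    F.size = a.2.size + 1 + (ofT L).size := by
  rw [Fd.size_eq, Fd.size_eq (ofT L), trees_ofT, (hp.map _).sum_eq]
  simp

theorem emb_join {V : Type*} {R : V → V → Prop} {F : Fd} {a : Bool × Fd} {L : List (Bool × Fd)}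
    (hp : F.trees.Perm (a :: L)) (ha : a.1 = true) {z x : V} {B S : Finset V} (hzx : R z x) (hx : x ∉ B)
    (hB : Emb R a.2 x B) (hS : Emb R (ofT L) z S) (hd : Disjoint (insert x B) S) : Emb R F z (insert x B ∪ S) := by
  refine (emb_iff F z _).2 (EmbL.perm hp.symm ⟨insert x B, S, hd, rfl, ⟨x, B, ?_, hx, rfl, hB⟩, ?_⟩)
  · rw [ha]
    exact hzx
  · have h1 := (emb_iff (ofT L) z S).1 hS
    rw [trees_ofT] at h1
    exact h1

/-! ### The class of the rest -/

/-- **From the state to the class** -/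
theorem StM.cl {V : Type*} {R : V → V → Prop} (hT : AE32.Tour R) {p : NP} (hp : p.OK) {Y V₀ : Finset V} {N : V → Prop}
    {κ η s : ℝ} {lam sig K : ℕ} (h : StM R Y V₀ N κ η s lam sig K) (hu : 2 * sig + K * (2 * p.c0) ≤ p.u0) (F : Fd) :
    AEB.Cl R (Good R κ η Y) s p F Y N := by
  have hD : ClD (Good R κ η Y) s Y N := by
    refine h.dense.trans (Nat.cast_le.2 (card_le_card ?_))
    intro v hv
    rw [mem_cg] at hv
    rw [mem_filter]
    exact ⟨hv.1, hv.2.2.1, hv.2.1⟩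
  obtain ⟨U, hU⟩ : ∃ U, U = Y.filter (fun u => (nI R (Y ∪ V₀) u).card < sig) ∪
    Y.filter (fun u => ¬ N u ∧ sig ≤ (nI R (Y ∪ V₀) u).card ∧ (nI R (cg R Y V₀ N κ η lam) u).card ≤ 2 * p.c0) := ⟨_, rfl⟩
  have hUc : U.card ≤ p.ub F := by
    have h1 : (Y.filter (fun u => (nI R (Y ∪ V₀) u).card < sig)).card ≤ 2 * sig := by
      refine le_trans (card_le_card ?_) (card_lowin hT (Y ∪ V₀) sig)
      intro u hu
      rw [mem_filter] at hu
      rw [mem_filter, mem_union]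
      exact ⟨Or.inl hu.1, hu.2⟩
    have h2 := h.cnt (2 * p.c0)
    have h3 : U.card ≤ 2 * sig + K * (2 * p.c0) := by
      rw [hU]
      exact (card_union_le _ _).trans (Nat.add_le_add h1 h2)
    have h4 : p.u0 ≤ p.ub F := by
      unfold NP.ub
      split_ifs <;> omega
    omega
  have hkey : ∀ u ∈ Y, N u ∨ u ∈ U ∨ ∃ v ∈ Y, N v ∧ R v u ∧ Strong R (Good R κ η Y) p.c0 p.c Y v := by
    intro u huY
    by_cases hN : N u
    · exact Or.inl hN
    right
    by_cases hs : (nI R (Y ∪ V₀) u).card < sig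
    · left
      rw [hU, mem_union, mem_filter]
      exact Or.inl ⟨huY, hs⟩
    push Not at hs
    by_cases hj : (nI R (cg R Y V₀ N κ η lam) u).card ≤ 2 * p.c0
    · left
      rw [hU, mem_union, mem_filter, mem_filter]
      exact Or.inr ⟨huY, hN, hs, hj⟩
    right
    push Not at hj
    obtain ⟨v, hv, hvc⟩ := exists_deg_in hT (S := nI R (cg R Y V₀ N κ η lam) u) (c := p.c0) (by omega)
    rw [mem_nI] at hv
    have hv2 := hv.1
    rw [mem_cg] at hv2
    have hsub : nI R (nI R (cg R Y V₀ N κ η lam) u) v ⊆ nI R (Y.filter (Good R κ η Y)) v := by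
      apply nI_mono
      intro w hw
      have h1 := (mem_nI.1 hw).1
      rw [mem_cg] at h1
      rw [mem_filter]
      exact ⟨h1.1, h1.2.2.1⟩
    have h1 : p.c0 ≤ (nI R (Y.filter (Good R κ η Y)) v).card := hvc.trans (card_le_card hsub)
    have h2 : p.c ≤ p.c0 := by
      have := hp.hc0
      generalize 2 ^ p.r0 = x at this
      omega
    refine ⟨v, hv2.1, hv2.2.1, hv.2, ⟨hv2.2.2.1, h1.trans (card_le_card (nI_mono (filter_subset _ _)))⟩, h2.trans h1⟩
  refine ⟨hD, fun _ => ⟨hD, U, ∅, hUc, by simp, fun u hu => ?_, fun u hu => ?_⟩⟩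
  · rcases hkey u hu with h1 | h1 | ⟨v, h1, h2, h3, h4⟩
    · exact Or.inl h1
    · exact Or.inr (Or.inr (Or.inl h1))
    · exact Or.inr (Or.inr (Or.inr ⟨v, h1, h2, h3, h4.1⟩))
  · rcases hkey u hu with h1 | h1 | h1
    · exact Or.inl h1
    · exact Or.inr (Or.inr (Or.inl h1))
    · exact Or.inr (Or.inr (Or.inr (Or.inr h1)))

/-! ### Putting the line together -/

/-- one vertex of the line in front of the rest of the line -/
theorem InS.cons {V : Type*} {R : V → V → Prop} {q : Fd × Fd} {L : List (Fd × Fd)} {N : V → Prop} {X X' S T : Finset V}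
    {v : V} (hv : v ∈ X) (hN : N v) (hS : Emb (SPD.rv R) q.1 v S) (hT : Emb R q.2 v T) (hST : Disjoint S T)
    (hvS : v ∉ S) (hvT : v ∉ T) (hSX : S ⊆ X) (hTX : T ⊆ X) (hX' : X' ⊆ X) (hvX' : v ∉ X') (hSX' : Disjoint S X')
    (hTX' : Disjoint T X') (h : L = [] ∨ InS R L (R v) X') : InS R (q :: L) N X := by
  have hvST : v ∉ S ∪ T := by
    rw [mem_union, not_or]
    exact ⟨hvS, hvT⟩
  rcases h with rfl | ⟨y, hy, hRy, B, hB, hyB, hE⟩
  · exact ⟨v, hv, hN, S ∪ T, union_subset hSX hTX, hvST, S, T, hST, rfl, hS, hT⟩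
  · cases L with
    | nil => exact absurd hE id
    | cons q' L =>
      have hyB' : insert y B ⊆ X' := insert_subset hy hB
      refine ⟨v, hv, hN, (S ∪ T) ∪ insert y B, union_subset (union_subset hSX hTX) (hyB'.trans hX'), ?_, S, T, y, B, hST,
        ?_, hyB, hRy, rfl, hS, hT, hE⟩
      · rw [mem_union, not_or]
        exact ⟨hvST, fun h => hvX' (hyB' h)⟩
      · exact (disjoint_union_left.2 ⟨hSX', hTX'⟩).mono_right hyB'

/-- the low vertices of a part -/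
theorem low_part {V : Type*} {R : V → V → Prop} {X X' W W' : Finset V} {sig w : ℕ} (hX : X' ⊆ X) (hW : W' ⊆ W)
    (hWX : W' ⊆ X') (h : (W \ low R sig X).card ≤ w) : (W' \ low R sig X').card ≤ w := by
  refine (card_le_card ?_).trans h
  intro v hv
  rw [mem_sdiff, mem_low, not_and, not_lt] at hv ⊢
  exact ⟨hW hv.1, fun _ => (hv.2 (hWX hv.1)).trans (card_le_card (nI_mono hX))⟩

theorem part_eq {V : Type*} {Y W A B : Finset V} (hd : Disjoint Y W) (hA : A ⊆ Y) :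
    (Y \ (A ∪ B)) ∪ (W \ B) = (Y ∪ W) \ (A ∪ B) := by
  ext v
  simp only [mem_union, mem_sdiff]
  constructor
  · rintro (⟨h1, h2⟩ | ⟨h1, h2⟩)
    · exact ⟨Or.inl h1, h2⟩
    · exact ⟨Or.inr h1, fun h => h.elim (fun h3 => disjoint_left.1 hd (hA h3) h1) h2⟩
  · rintro ⟨h1 | h1, h2⟩
    · exact Or.inl ⟨h1, h2⟩
    · exact Or.inr ⟨h1, fun h => h2 (Or.inr h)⟩

/-- two vertices of the line in front of the rest of the line -/
theorem InS.cons2 {V : Type*} {R : V → V → Prop} {q₁ q₂ : Fd × Fd} {L : List (Fd × Fd)} {N : V → Prop}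
    {X X' S₁ T₁ S₂ T₂ : Finset V} {v z : V} (hv : v ∈ X) (hz : z ∈ X) (hN : N v) (hvz : R v z) (hne : v ≠ z)
    (e1 : Emb (SPD.rv R) q₁.1 v S₁) (e2 : Emb R q₁.2 v T₁) (e3 : Emb (SPD.rv R) q₂.1 z S₂) (e4 : Emb R q₂.2 z T₂)
    (d1 : Disjoint S₁ T₁) (d2 : Disjoint S₂ T₂) (d3 : Disjoint (S₁ ∪ T₁) (S₂ ∪ T₂)) (hv' : v ∉ S₁ ∪ T₁ ∪ (S₂ ∪ T₂))
    (hz' : z ∉ S₁ ∪ T₁ ∪ (S₂ ∪ T₂)) (hs : S₁ ∪ T₁ ∪ (S₂ ∪ T₂) ⊆ X) (hX' : X' ⊆ X) (hvX' : v ∉ X') (hzX' : z ∉ X')
    (hd : Disjoint (S₁ ∪ T₁ ∪ (S₂ ∪ T₂)) X') (h : L = [] ∨ InS R L (R z) X') : InS R (q₁ :: q₂ :: L) N X := by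
  simp only [mem_union, not_or] at hv' hz'
  obtain ⟨⟨hv1, hv2⟩, hv3, hv4⟩ := hv'
  obtain ⟨⟨hz1, hz2⟩, hz3, hz4⟩ := hz'
  have k1 : S₁ ⊆ X := fun w hw => hs (by simp [hw])
  have k2 : T₁ ⊆ X := fun w hw => hs (by simp [hw])
  have k3 : S₂ ⊆ X := fun w hw => hs (by simp [hw])
  have k4 : T₂ ⊆ X := fun w hw => hs (by simp [hw])
  rw [disjoint_union_left, disjoint_union_left, disjoint_union_left] at hd
  obtain ⟨⟨g1, g2⟩, g3, g4⟩ := hd
  rw [disjoint_union_left, disjoint_union_right, disjoint_union_right] at d3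
  obtain ⟨⟨f1, f2⟩, f3, f4⟩ := d3
  obtain ⟨Z, hZ⟩ : ∃ Z, Z = X \ ({v} ∪ (S₁ ∪ T₁)) := ⟨_, rfl⟩
  have hZm : ∀ w, w ∈ Z ↔ w ∈ X ∧ w ≠ v ∧ w ∉ S₁ ∧ w ∉ T₁ := by
    intro w
    rw [hZ, mem_sdiff, mem_union, mem_union, mem_singleton, not_or, not_or]
  have h2 : InS R (q₂ :: L) (R v) Z := by
    refine InS.cons (X' := X') ((hZm z).2 ⟨hz, hne.symm, hz1, hz2⟩) hvz e3 e4 d2 hz3 hz4 ?_ ?_ ?_ hzX' g3 g4 h
    · intro w hw
      exact (hZm w).2 ⟨k3 hw, fun e => hv3 (e ▸ hw), fun e => disjoint_left.1 f1 e hw, fun e => disjoint_left.1 f3 e hw⟩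
    · intro w hw
      exact (hZm w).2 ⟨k4 hw, fun e => hv4 (e ▸ hw), fun e => disjoint_left.1 f2 e hw, fun e => disjoint_left.1 f4 e hw⟩
    · intro w hw
      exact (hZm w).2 ⟨hX' hw, fun e => hvX' (e ▸ hw), fun e => disjoint_left.1 g1 e hw, fun e => disjoint_left.1 g2 e hw⟩
  refine InS.cons (X' := Z) hv hN e1 e2 d1 hv1 hv2 k1 k2 (fun w hw => ((hZm w).1 hw).1) (fun e => ((hZm v).1 e).2.1 rfl)
    ?_ ?_ (Or.inr h2)
  · rw [disjoint_left]
    exact fun w hw hw' => ((hZm w).1 hw').2.2.1 hw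
  · rw [disjoint_left]
    exact fun w hw hw' => ((hZm w).1 hw').2.2.2 hw

/-- the next state behind one vertex -/
theorem nxt_one {V : Type*} {R : V → V → Prop} {q : Fd × Fd} {L : List (Fd × Fd)} {N : V → Prop} {Y W S T : Finset V}
    {z : V} {κ η s : ℝ} {lam sig K w C : ℕ} (hL : L ≠ []) (hd : Disjoint Y W) (hlow : (W \ low R sig (Y ∪ W)).card ≤ w)
    (hcard : szS (q :: L) + C = (Y ∪ W).card) (hz : z ∈ Y) (hN : N z) (hS : Emb (SPD.rv R) q.1 z S)
    (hT : Emb R q.2 z T) (hSX : S ⊆ Y ∪ W) (hTY : T ⊆ Y) (hST : Disjoint S T) (hzS : z ∉ S) (hzT : z ∉ T)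
    (hSt : StM R (Y \ ({z} ∪ T ∪ S)) (W \ S) (R z) κ η s lam sig K) :
    Nxt R κ η s lam sig K w (q :: L) N (Y ∪ W) L C := by
  have hA : {z} ∪ T ⊆ Y := union_subset (by simpa using hz) hTY
  have he := part_eq (B := S) hd hA
  have hsub : (Y ∪ W) \ ({z} ∪ T ∪ S) ⊆ Y ∪ W := sdiff_subset
  have h1 := le_card_sdiff ({z} ∪ T ∪ S) (Y ∪ W)
  have h2 := card_union_le ({z} ∪ T) S
  have h3 := card_union_le {z} T
  have h4 : S.card = q.1.size := hS.card
  have h5 : T.card = q.2.size := hT.card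
  rw [szS_cons] at hcard
  rw [card_singleton] at h3
  refine ⟨hL, _, _, z, hSt, ?_, ?_, ?_, ?_⟩
  · exact low_part (by rw [he]; exact hsub) sdiff_subset subset_union_right hlow
  · rw [he]
    omega
  · rw [he]
    exact hsub
  · intro h
    rw [he] at h
    refine InS.cons (X' := (Y ∪ W) \ ({z} ∪ T ∪ S)) (mem_union_left _ hz) hN hS hT hST hzS hzT hSX
      (hTY.trans subset_union_left) hsub (by simp) ?_ ?_ (Or.inr h)
    · rw [disjoint_left]
      intro u hu hu'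
      simp only [mem_sdiff, mem_union, not_or] at hu'
      exact hu'.2.2 hu
    · rw [disjoint_left]
      intro u hu hu'
      simp only [mem_sdiff, mem_union, not_or] at hu'
      exact hu'.2.1.2 hu

/-- the next state behind two vertices -/
theorem nxt_two {V : Type*} {R : V → V → Prop} {q₁ q₂ : Fd × Fd} {L : List (Fd × Fd)} {N : V → Prop}
    {Y W S₁ T₁ S₂ T₂ : Finset V} {v z : V} {κ η s : ℝ} {lam sig K w C : ℕ} (hL : L ≠ []) (hd : Disjoint Y W)
    (hlow : (W \ low R sig (Y ∪ W)).card ≤ w) (hcard : szS (q₁ :: q₂ :: L) + C = (Y ∪ W).card) (hv : v ∈ Y)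
    (hz : z ∈ Y) (hN : N v) (hvz : R v z) (hne : v ≠ z) (e1 : Emb (SPD.rv R) q₁.1 v S₁) (e2 : Emb R q₁.2 v T₁)
    (e3 : Emb (SPD.rv R) q₂.1 z S₂) (e4 : Emb R q₂.2 z T₂) (k1 : S₁ ⊆ Y ∪ W) (k2 : S₂ ⊆ Y ∪ W) (k3 : T₁ ⊆ Y)
    (k4 : T₂ ⊆ Y) (d1 : Disjoint S₁ S₂) (d2 : Disjoint T₁ T₂) (d3 : Disjoint (S₁ ∪ S₂) (T₁ ∪ T₂))
    (hv' : v ∉ S₁ ∪ S₂ ∪ (T₁ ∪ T₂)) (hz' : z ∉ S₁ ∪ S₂ ∪ (T₁ ∪ T₂))
    (hSt : StM R (Y \ ({v, z} ∪ (T₁ ∪ T₂ ∪ ∅) ∪ (S₁ ∪ S₂))) (W \ (S₁ ∪ S₂)) (R z) κ η s lam sig K) :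
    Nxt R κ η s lam sig K w (q₁ :: q₂ :: L) N (Y ∪ W) L C := by
  rw [union_empty] at hSt
  obtain ⟨A, hAd⟩ : ∃ A, A = {v, z} ∪ (T₁ ∪ T₂) := ⟨_, rfl⟩
  obtain ⟨B, hBd⟩ : ∃ B, B = S₁ ∪ S₂ := ⟨_, rfl⟩
  have hA : A ⊆ Y := by
    rw [hAd]
    refine union_subset ?_ (union_subset k3 k4)
    intro u hu
    rw [mem_insert, mem_singleton] at hu
    rcases hu with rfl | rfl
    · exact hv
    · exact hz
  rw [← hAd, ← hBd] at hSt
  have he := part_eq (B := B) hd hA
  have hsub : (Y ∪ W) \ (A ∪ B) ⊆ Y ∪ W := sdiff_subset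
  have h1 := le_card_sdiff (A ∪ B) (Y ∪ W)
  have h2 := card_union_le A B
  have h3 : A.card ≤ 2 + (T₁.card + T₂.card) := by
    rw [hAd]
    exact (card_union_le _ _).trans (Nat.add_le_add card_le_two (card_union_le _ _))
  have h4 : B.card ≤ S₁.card + S₂.card := by
    rw [hBd]
    exact card_union_le _ _
  rw [e1.card, e3.card] at h4
  rw [e2.card, e4.card] at h3
  rw [szS_cons, szS_cons] at hcard
  have hAm : ∀ u, u ∈ A ↔ u = v ∨ u = z ∨ u ∈ T₁ ∨ u ∈ T₂ := by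
    intro u
    rw [hAd, mem_union, mem_union, mem_insert, mem_singleton]
    tauto
  have hBm : ∀ u, u ∈ B ↔ u ∈ S₁ ∨ u ∈ S₂ := by
    intro u
    rw [hBd, mem_union]
  refine ⟨hL, _, _, z, hSt, ?_, ?_, ?_, ?_⟩
  · exact low_part (by rw [he]; exact hsub) sdiff_subset subset_union_right hlow
  · rw [he]
    omega
  · rw [he]
    exact hsub
  · intro h
    rw [he] at h
    rw [disjoint_union_left, disjoint_union_right, disjoint_union_right] at d3
    obtain ⟨⟨f1, f2⟩, f3, f4⟩ := d3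
    refine InS.cons2 (X' := (Y ∪ W) \ (A ∪ B)) (mem_union_left _ hv) (mem_union_left _ hz) hN hvz hne e1 e2 e3 e4 f1 f4 ?_
      ?_ ?_ ?_ hsub ?_ ?_ ?_ (Or.inr h)
    · rw [disjoint_union_left, disjoint_union_right, disjoint_union_right]
      exact ⟨⟨d1, f2⟩, f3.symm, d2⟩
    · simp only [mem_union, not_or] at hv' ⊢
      tauto
    · simp only [mem_union, not_or] at hz' ⊢
      tauto
    · intro u hu
      simp only [mem_union] at hu
      rcases hu with (h | h) | h | h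
      · exact k1 h
      · exact mem_union_left _ (k3 h)
      · exact k2 h
      · exact mem_union_left _ (k4 h)
    · simp only [mem_sdiff, mem_union, hAm]
      tauto
    · simp only [mem_sdiff, mem_union, hAm]
      tauto
    · rw [disjoint_left]
      intro u hu hu'
      simp only [mem_sdiff, mem_union, hAm, hBm] at hu'
      simp only [mem_union] at hu
      tauto

end AEG
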