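import Pool.Agent.AEG.LightGen
import Pool.Agent.AEG.ThinM
import Pool.Agent.AEG.TameFin
import Pool.Agent.AEG.DefsF
import Pool.Agent.AEX.Four

/-!
# The light round of the fine class
-/

set_option autoImplicit false

namespace AEG

open Finset AE15 AED AEB
open scoped Classical

/-! ### In-items -/

/-- a forest, all trees of which hang by arcs away from the common vertex, in a set of out-neighbours of the host which is
four times as large -/
theorem unroot4 {b l : ℕ} {V : Type*} {R : V → V → Prop} (hT : AE32.Tour R) : ∀ F : Fd, FOK b l 0 F →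
    (∀ q ∈ F.trees, q.1 = true) → ∀ (v : V) (S : Finset V), (∀ w ∈ S, R v w) → 4 * F.size ≤ S.card →
    ∃ S' ⊆ S, Emb R F v S' := by
  intro F
  induction F with
  | nil => exact fun _ _ v S _ _ => ⟨∅, empty_subset _, rfl⟩
  | node d c s _ ihs =>
    intro hF hfl v S hS hSc
    have hd : d = true := hfl (d, c) (by simp [Fd.trees])
    subst hd
    have hs : FOK b l 0 s := by
      obtain ⟨g1, g2, g3⟩ := hF
      refine ⟨?_, g2.2.2, g3.2⟩
      simp only [Fd.len] at g1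
      omega
    have hc : FOK b l 0 c := by
      have := (hF.child (p := (true, c)) (by simp [Fd.trees])).1
      simpa using this
    simp only [Fd.size] at hSc
    obtain ⟨x, hx, A, hA, hxA, -, hE⟩ := AEX.un_four hT b c hc.1 hc.2.1 S (by
      have h1 : ((4 * (c.size + 1) : ℕ) : ℝ) ≤ S.card := by exact_mod_cast (by omega : 4 * (c.size + 1) ≤ S.card)
      push_cast at h1
      linarith)
    have hxAS : insert x A ⊆ S := insert_subset hx hA
    have hxAc : (insert x A).card = c.size + 1 := by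
      rw [card_insert_of_notMem hxA, AEG.emb_card hE]
    have h1 : (S \ insert x A).card = S.card - (insert x A).card := card_sdiff_of_subset hxAS
    obtain ⟨B, hBS, hB⟩ := ihs hs (fun q hq => hfl q (by simp [Fd.trees, hq])) v (S \ insert x A)
      (fun w hw => hS w (mem_sdiff.1 hw).1) (by omega)
    have hB' : ∀ w ∈ B, w ∈ S ∧ w ∉ insert x A := fun w hw => mem_sdiff.1 (hBS hw)
    refine ⟨insert x (A ∪ B), insert_subset hx (union_subset hA fun w hw => (hB' w hw).1), x, A, B, hS x hx, hxA,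
      fun h => (hB' x h).2 (mem_insert_self _ _), ?_, rfl, hE, hB⟩
    rw [disjoint_left]
    exact fun w hw hw' => (hB' w hw').2 (mem_insert_of_mem hw)

/-- forests at several hosts -/
theorem unroot4_list {b l : ℕ} {V : Type} {R : V → V → Prop} (hT : AE32.Tour R) : ∀ (is : List (V × Fd)) (S : V → Finset V),
    (∀ o ∈ is, FOK b l 0 o.2 ∧ ∀ q ∈ o.2.trees, q.1 = true) → (∀ o ∈ is, ∀ w ∈ S o.1, R o.1 w) →
    (∀ o ∈ is, 4 * totB is ≤ (S o.1).card) → ∃ T : Finset V, EmbAllB R is T ∧ ∀ w ∈ T, ∃ o ∈ is, w ∈ S o.1 := by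
  intro is
  induction is with
  | nil => exact fun S _ _ _ => ⟨∅, rfl, by simp⟩
  | cons o is ih =>
    intro S hF hS hc
    have ht : totB (o :: is) = o.2.size + totB is := by simp [totB]
    obtain ⟨f1, f2⟩ := hF o List.mem_cons_self
    have hco := hc o List.mem_cons_self
    obtain ⟨S₁, hS₁, hE₁⟩ := unroot4 hT o.2 f1 f2 o.1 (S o.1) (hS o List.mem_cons_self) (by omega)
    have hS₁c := AEG.emb_card hE₁
    obtain ⟨T, hT1, hT2⟩ := ih (fun v => S v \ S₁) (fun o' h => hF o' (List.mem_cons_of_mem _ h))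
      (fun o' h w hw => hS o' (List.mem_cons_of_mem _ h) w (mem_sdiff.1 hw).1) (fun o' h => by
        have h1 := hc o' (List.mem_cons_of_mem _ h)
        have h2 := le_card_sdiff S₁ (S o'.1)
        show 4 * totB is ≤ (S o'.1 \ S₁).card
        omega)
    refine ⟨S₁ ∪ T, ⟨S₁, T, ?_, rfl, hE₁, hT1⟩, ?_⟩
    · rw [disjoint_left]
      intro w hw hw'
      obtain ⟨o', -, h2⟩ := hT2 w hw'
      exact (mem_sdiff.1 h2).2 hw
    · intro w hw
      rcases mem_union.1 hw with h | h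
      · exact ⟨o, List.mem_cons_self, hS₁ h⟩
      · obtain ⟨o', h1, h2⟩ := hT2 w h
        exact ⟨o', List.mem_cons_of_mem _ h1, (mem_sdiff.1 h2).1⟩

/-! ### The dominators of the super vertex -/

theorem xd_cnt {V : Type*} {R : V → V → Prop} (hT : AE32.Tour R) {Y G Z : Finset V} {z : V} {m g₀ : ℕ} {γ : ℝ}
    (hXD : XD R Y G Z m z) (hz : z ∈ Y) (hm : (m : ℝ) ≤ γ / 16 * Y.card)
    (hDc : γ / 4 * Y.card ≤ (nO R (G \ Z) z).card) (hg₀ : 8 ≤ γ * g₀) (j : ℕ) :
    (Y.filter (fun u => u ∉ Z ∧ u ≠ z ∧ ¬ R z u ∧ (nI R (nO R (G \ Z) z) u).card ≤ j)).card ≤ (g₀ + 2) * j := by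
  obtain ⟨n, hnd⟩ : ∃ n : ℝ, n = (Y.card : ℝ) := ⟨_, rfl⟩
  rw [← hnd] at hm hDc
  have hn0 : 0 < n := by
    rw [hnd]
    exact_mod_cast card_pos.2 ⟨z, hz⟩
  have hR : ∀ u, u ≠ z → ¬ R z u → R u z := fun u h1 h2 => (hT.tot u z h1).resolve_right h2
  have hout : ∀ u ∈ Y, u ∉ G → γ / 8 * n ≤ (nI R (nO R (G \ Z) z) u).card := by
    intro u hu huG
    have h1 := hXD.h3 u hu huG
    have h2 : ((nO R (G \ Z) z).card : ℝ) ≤ (nI R (nO R (G \ Z) z) u).card + m := by exact_mod_cast h1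
    linarith
  by_cases hj : (j : ℝ) < γ / 8 * n
  · have hsub : Y.filter (fun u => u ∉ Z ∧ u ≠ z ∧ ¬ R z u ∧ (nI R (nO R (G \ Z) z) u).card ≤ j) ⊆
        (G \ Z).filter (fun u => R u z ∧ (nI R (nO R (G \ Z) z) u).card ≤ j) := by
      intro u hu
      rw [mem_filter] at hu
      obtain ⟨h1, h2, h3, h4, h5⟩ := hu
      rw [mem_filter, mem_sdiff]
      refine ⟨⟨?_, h2⟩, hR u h3 h4, h5⟩
      by_contra huG
      have h6 := hout u h1 huG
      have h7 : ((nI R (nO R (G \ Z) z) u).card : ℝ) ≤ j := by exact_mod_cast h5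
      linarith
    refine (card_le_card hsub).trans ((hXD.h2 j).trans ?_)
    exact Nat.mul_le_mul_right _ (by omega)
  · push Not at hj
    have h1 := card_le_card (filter_subset (fun u => u ∉ Z ∧ u ≠ z ∧ ¬ R z u ∧ (nI R (nO R (G \ Z) z) u).card ≤ j) Y)
    have h2 : (Y.card : ℝ) ≤ ((g₀ + 2) * j : ℕ) := by
      rw [← hnd]
      push_cast
      have h3 : n ≤ g₀ * (γ / 8 * n) := by
        have : n * 1 ≤ n * (γ * g₀ / 8) := mul_le_mul_of_nonneg_left (by linarith) hn0.le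
        linarith
      have h4 : (g₀ : ℝ) * (γ / 8 * n) ≤ g₀ * j := mul_le_mul_of_nonneg_left hj (Nat.cast_nonneg _)
      have h5 : (0 : ℝ) ≤ j := Nat.cast_nonneg _
      linarith
    exact h1.trans (by exact_mod_cast h2)

/-! ### The round -/

/-- **The light round**, for hosts which are already chosen. `Uw` is the set of the uncovered vertices; `z` is a super
vertex of the structure set `G`; the forests of `is` are embedded at their hosts in the reversed tournament, the forests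
of `os` at the same hosts. -/
theorem light_round (p : NP) (hp : p.OK) {D₀ : ℕ} {ω c η η₁ κ₀ κ₁ κ γ₀ τ s σ₂ μ : ℝ}
    (P : KB D₀ ω c η η₁ κ₀ κ₁ κ γ₀ τ s σ₂ μ) (C : ℝ) (hC : 0 ≤ C) :
    ∃ (δ : ℝ) (M₉ K₁ C₉ : ℕ), 0 < δ ∧ ∀ {V : Type} {R : V → V → Prop}, AE32.Tour R →
      (∀ F : Fd, FOK p.b p.l 0 F → AEB.EE R κ η s p 1 C F) →
      ∀ (X G Uw : Finset V) (z : V) (m sig lam' f w : ℕ) (is os : List (V × Fd)), C₉ ≤ X.card → G ⊆ X → Uw ⊆ X →
        (∀ g ∈ G, Good R κ₁ η₁ X g) → γ₀ * X.card ≤ G.card →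
        XD R X G (X.filter (fun u => (nI R X u).card < sig) ∪ Uw) m z → (m : ℝ) ≤ γ₀ / 16 * X.card →
        Uw.card ≤ w → ((w + 2 * sig + totB is : ℕ) : ℝ) ≤ δ * X.card → os.length ≤ 2 → hosts is = hosts os →
        z ∈ hosts os →
        (∀ o ∈ os, o.1 ∈ X ∧ Good R κ η X o.1 ∧ ¬ R z o.1 ∧ FOK p.b p.l 0 o.2 ∧ ∀ q ∈ o.2.trees, q.1 = true) →
        (∀ o ∈ is, 16 * totB is + C₉ ≤ (nI R X o.1).card ∧ FOK p.b p.l 0 o.2 ∧ (∀ q ∈ o.2.trees, q.1 = true) ∧
          o.1 ∉ Uw ∧ ∀ u ∈ Uw, ¬ R z u → R u o.1) →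
        16 * totB is + M₉ * lam' + C₉ ≤ sig → (totB os : ℝ) ≤ (1 - 2 * ω) * X.card →
        ∃ (S T : Finset V) (w' : ℕ), EmbAllB (SPD.rv R) is S ∧ EmbAllB R os T ∧ S ⊆ X ∧ T ⊆ X ∧ Disjoint S T ∧
          Disjoint S (hosts os) ∧ Disjoint T (hosts os) ∧ w' ≤ max (w - totB is) (4 * totB is) ∧
          StE R (X \ (hosts os ∪ T ∪ S)) ∅ (R z) κ η s lam' sig f w' K₁ 0 := by
  have hnum := P.num
  obtain ⟨hω0, hω1, hc0, hc1, hη0, hη1, hη₁0, hη₁1, hκ₀0, hκ₁0, hκ₁1, hκ0, hκ1, hs0, hγ₀0, hτ0, hσ₂0, hμ0, hκ₁η, hκs⟩ :=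
    hnum
  have hγ₀ := P.hγ₀
  have hsd := P.hs
  have hcη : c * η ≤ 1 * η := mul_le_mul_of_nonneg_right (by linarith) hη0.le
  obtain ⟨g₀, hg₀⟩ := exists_nat_ge (8 / γ₀)
  have hg₀' : 8 ≤ γ₀ * g₀ := by
    rw [div_le_iff₀ hγ₀0] at hg₀
    linarith
  obtain ⟨n₁, M, cf, hM, hfree⟩ := exists_free 2 (g₀ + 2) (ε := 1) one_pos le_rfl
  obtain ⟨δZ, n₀, M₉, C₉, K₁, hδZ0, hM₉, hgen⟩ := light_gen p hp P hκ0 le_rfl C hC 2 ((g₀ + 2) * M) (γ := γ₀ / 8)
    (by linarith)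
  obtain ⟨δ, hδ⟩ : ∃ δ : ℝ, δ = min δZ (γ₀ / 8) := ⟨_, rfl⟩
  have hδ0 : 0 < δ := by rw [hδ]; exact lt_min hδZ0 (by positivity)
  have hδ1 : δ ≤ δZ := by rw [hδ]; exact min_le_left _ _
  have hδ2 : δ ≤ γ₀ / 8 := by rw [hδ]; exact min_le_right _ _
  obtain ⟨n₂, hn₂⟩ := exists_big [((4 : ℝ), γ₀)] (by
    intro q hq
    simp only [List.mem_cons, List.not_mem_nil, or_false] at hq
    rcases hq with rfl
    exact hγ₀0)
  refine ⟨δ, M₉, K₁, C₉ + n₀ + n₂ + 2 * n₁ + cf + 5, hδ0, ?_⟩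
  intro V R hT hEE X G Uw z m sig lam' f w is os hX hG hUwX hGg hGc hXD hm hUw hw hlen hhosts hzH hos his hsig hsize
  have hT' : AE32.Tour (SPD.rv R) := ⟨hT.irr, fun a b h => (hT.tot a b h).symm, fun a b h => hT.asym b a h⟩
  obtain ⟨n, hnd⟩ : ∃ n : ℝ, n = (X.card : ℝ) := ⟨_, rfl⟩
  have b1 : 4 ≤ γ₀ * n := by
    rw [hnd]
    exact hn₂ X.card (by omega) ((4 : ℝ), γ₀) (by simp)
  rw [← hnd] at hw hGc hm
  obtain ⟨Low, hLow⟩ : ∃ Low, Low = X.filter (fun u => (nI R X u).card < sig) := ⟨_, rfl⟩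
  rw [← hLow] at hXD
  obtain ⟨Z, hZ⟩ : ∃ Z, Z = Low ∪ Uw := ⟨_, rfl⟩
  rw [← hZ] at hXD
  obtain ⟨Hs, hHs⟩ : ∃ Hs, Hs = hosts os := ⟨_, rfl⟩
  rw [← hHs] at hzH ⊢
  have hn0 : 0 < n := by
    by_contra hc
    push Not at hc
    have := mul_nonpos_of_nonneg_of_nonpos hγ₀0.le hc
    linarith
  have hLowc : Low.card ≤ 2 * sig := by
    rw [hLow]
    exact card_lowin hT X sig
  have hZX : Z ⊆ X := by
    rw [hZ, hLow]
    exact union_subset (filter_subset _ _) hUwX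
  have hZc : Z.card ≤ w + 2 * sig := by
    rw [hZ]
    have := card_union_le Low Uw
    omega
  have hHsc : Hs.card ≤ 2 := by rw [hHs]; exact (hosts_card os).trans hlen
  have hHsX : Hs ⊆ X := by
    intro v hv
    rw [hHs, mem_hosts] at hv
    obtain ⟨o, ho, rfl⟩ := hv
    exact (hos o ho).1
  have hHsz : ∀ v ∈ Hs, ¬ R z v := by
    intro v hv
    rw [hHs, mem_hosts] at hv
    obtain ⟨o, ho, rfl⟩ := hv
    exact (hos o ho).2.2.1
  have hzX : z ∈ X := hHsX hzH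
  have hisH : ∀ v, v ∈ Hs ↔ ∃ o ∈ is, o.1 = v := by
    intro v
    rw [hHs, ← hhosts, mem_hosts]
  obtain ⟨t, ht⟩ : ∃ t, t = totB is := ⟨_, rfl⟩
  rw [← ht] at hw his hsig ⊢
  have htw : (t : ℝ) ≤ δ * n := by
    refine le_trans ?_ hw
    exact_mod_cast (by omega : t ≤ w + 2 * sig + t)
  have hZw : (Z.card : ℝ) ≤ δ * n := by
    refine le_trans ?_ hw
    exact_mod_cast (by omega : Z.card ≤ w + 2 * sig + t)
  -- the dominators
  obtain ⟨Dz, hDz⟩ : ∃ Dz, Dz = nO R (G \ Z) z := ⟨_, rfl⟩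
  have hDzm : ∀ v ∈ Dz, v ∈ X ∧ v ∉ Z ∧ v ∉ Hs ∧ R z v ∧ v ∈ G := by
    intro v hv
    rw [hDz, mem_nO, mem_sdiff] at hv
    exact ⟨hG hv.1.1, hv.1.2, fun h => hHsz v h hv.2, hv.2, hv.1.1⟩
  have hDc : γ₀ / 4 * n ≤ Dz.card := by
    have h1 : (G.card : ℝ) ≤ (G \ Z).card + Z.card := by
      exact_mod_cast card_le_card_sdiff_add_card (s := G) (t := Z)
    have h2 : ((G \ Z).card : ℝ) ≤ 2 * Dz.card + 1 := by
      have := hXD.h4
      rw [← hDz] at this
      exact_mod_cast this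
    have h3 : δ * n ≤ γ₀ / 8 * n := mul_le_mul_of_nonneg_right hδ2 hn0.le
    linarith
  have hcnt₀ := xd_cnt hT hXD hzX (by rw [← hnd]; exact hm) (by rw [← hnd, ← hDz]; exact hDc) hg₀'
  rw [← hDz] at hcnt₀
  -- the kept part
  obtain ⟨A, hA⟩ : ∃ A, A = X \ (Z ∪ Hs) := ⟨_, rfl⟩
  have hAm : ∀ v, v ∈ A ↔ v ∈ X ∧ v ∉ Z ∧ v ∉ Hs := by
    intro v
    rw [hA, mem_sdiff, mem_union, not_or]
  have hAX : A ⊆ X := by rw [hA]; exact sdiff_subset
  have hAc : n₁ ≤ A.card := by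
    have h1 := le_card_sdiff (Z ∪ Hs) X
    rw [← hA] at h1
    have h2 := card_union_le Z Hs
    have h3 : 2 * Z.card ≤ X.card := by
      have h4 : (2 * Z.card : ℝ) ≤ X.card := by
        rw [← hnd]
        have h5 : γ₀ ≤ 1 := by linarith
        have h6 : δ * n ≤ 1 / 2 * n := mul_le_mul_of_nonneg_right (by linarith) hn0.le
        linarith
      exact_mod_cast h4
    omega
  obtain ⟨Gf, hGf⟩ : ∃ Gf, Gf = X.filter (fun u => u ∉ Z ∧ u ∉ Hs ∧ ¬ R z u) := ⟨_, rfl⟩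
  have hGfj : ∀ j : ℕ, (Gf.filter (fun u => (nI R Dz u).card ≤ j)).card ≤ (g₀ + 2) * j := by
    intro j
    refine (card_le_card ?_).trans (hcnt₀ j)
    intro u hu
    rw [mem_filter, hGf, mem_filter] at hu
    rw [mem_filter]
    exact ⟨hu.1.1, hu.1.2.1, fun h => hu.1.2.2.1 (h ▸ hzH), hu.1.2.2.2, hu.2⟩
  have hDzA : Dz ⊆ A := by
    intro v hv
    obtain ⟨h1, h2, h3, -⟩ := hDzm v hv
    exact (hAm v).2 ⟨h1, h2, h3⟩
  obtain ⟨Q₀, hQ₀A, -, -, hQ₀D, hQ₀E⟩ := hfree A ∅ hAc (by simp) Gf (fun u => nI R Dz u)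
    (fun u _ => nI_sub.trans hDzA) (by
      intro u hu
      rw [← card_pos, Nat.pos_iff_ne_zero]
      intro h0
      have h7 := hGfj 0
      rw [Nat.mul_zero, Nat.le_zero, card_eq_zero, filter_eq_empty_iff] at h7
      exact h7 hu (by omega)) (fun j => (hGfj j).trans (Nat.mul_le_mul_left _ (by omega))) Hs (fun v => nI R A v) hHsc
    (fun v _ => nI_sub)
  -- the in-items
  obtain ⟨U', hU'⟩ : ∃ U', U' = Uw.filter (fun u => ¬ R z u) := ⟨_, rfl⟩
  have hU'w : U'.card ≤ w := by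
    rw [hU']
    exact (card_le_card (filter_subset _ _)).trans hUw
  obtain ⟨S, w', hS, hSX, hSH, hSc, hw', hSU, hSQ⟩ : ∃ (S : Finset V) (w' : ℕ), EmbAllB (SPD.rv R) is S ∧ S ⊆ X ∧
      Disjoint S Hs ∧ S.card = t ∧ w' ≤ max (w - t) (4 * t) ∧ (U' \ S).card ≤ w' ∧ Disjoint S (Dz ∩ Q₀) := by
    by_cases hcase : 4 * t ≤ U'.card
    · obtain ⟨S, h1, h2⟩ := unroot4_list hT' is (fun _ => U') (fun o ho => ⟨(his o ho).2.1, (his o ho).2.2.1⟩)
        (fun o ho u hu => by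
          rw [hU', mem_filter] at hu
          exact (his o ho).2.2.2.2 u hu.1 hu.2) (fun o _ => by rw [← ht]; exact hcase)
      have hSU : S ⊆ U' := fun u hu => by
        obtain ⟨o, -, h⟩ := h2 u hu
        exact h
      have hSc : S.card = t := by rw [ht]; exact h1.card
      have hU'm : ∀ u ∈ U', u ∈ Uw := fun u hu => by
        rw [hU', mem_filter] at hu
        exact hu.1
      refine ⟨S, (U' \ S).card, h1, fun u hu => hUwX (hU'm u (hSU hu)), ?_, hSc, ?_, le_rfl, ?_⟩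
      · rw [disjoint_left]
        intro u hu huH
        rw [hisH] at huH
        obtain ⟨o, ho, rfl⟩ := huH
        exact (his o ho).2.2.2.1 (hU'm _ (hSU hu))
      · rw [card_sdiff_of_subset hSU, hSc]
        exact (Nat.sub_le_sub_right hU'w t).trans (le_max_left _ _)
      · rw [disjoint_left]
        intro u hu huD
        refine (hDzm u (mem_inter.1 huD).1).2.1 ?_
        rw [hZ]
        exact mem_union_right _ (hU'm u (hSU hu))
    · push Not at hcase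
      obtain ⟨S, h1, h2⟩ := unroot4_list hT' is (fun v => nI R ((Z \ Hs) ∪ (A \ Q₀)) v)
        (fun o ho => ⟨(his o ho).2.1, (his o ho).2.2.1⟩) (fun o ho u hu => (mem_nI.1 hu).2) (fun o ho => by
          rw [← ht]
          have hoH : o.1 ∈ Hs := (hisH o.1).2 ⟨o, ho, rfl⟩
          have h1 := hQ₀E o.1 hoH
          have h2 := (his o ho).1
          have h3 : nI R X o.1 ⊆ nI R A o.1 ∪ (nI R (Z \ Hs) o.1 ∪ Hs) := by
            intro u hu
            rw [mem_nI] at hu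
            rw [mem_union, mem_union, mem_nI, mem_nI, hAm, mem_sdiff]
            by_cases h4 : u ∈ Hs
            · exact Or.inr (Or.inr h4)
            · by_cases h5 : u ∈ Z
              · exact Or.inr (Or.inl ⟨⟨h5, h4⟩, hu.2⟩)
              · exact Or.inl ⟨⟨hu.1, h5, h4⟩, hu.2⟩
          have h4 := (card_le_card h3).trans ((card_union_le _ _).trans (Nat.add_le_add_left (card_union_le _ _) _))
          have h5 : nI R ((Z \ Hs) ∪ (A \ Q₀)) o.1 = nI R (Z \ Hs) o.1 ∪ (nI R A o.1 \ Q₀) := by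
            ext u
            simp only [mem_nI, mem_union, mem_sdiff]
            tauto
          have h6 : Disjoint (nI R (Z \ Hs) o.1) (nI R A o.1 \ Q₀) := by
            rw [disjoint_left]
            intro u hu hu'
            rw [mem_nI, mem_sdiff] at hu
            rw [mem_sdiff, mem_nI, hAm] at hu'
            exact hu'.1.1.2.1 hu.1.1
          show 4 * t ≤ (nI R ((Z \ Hs) ∪ (A \ Q₀)) o.1).card
          rw [h5, card_union_of_disjoint h6]
          omega)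
      have hSm : ∀ u ∈ S, (u ∈ Z ∧ u ∉ Hs) ∨ (u ∈ A ∧ u ∉ Q₀) := by
        intro u hu
        obtain ⟨o, -, h3⟩ := h2 u hu
        have h4 := (mem_nI.1 h3).1
        rw [mem_union, mem_sdiff, mem_sdiff] at h4
        exact h4
      have hSc : S.card = t := by rw [ht]; exact h1.card
      refine ⟨S, (U' \ S).card, h1, ?_, ?_, hSc, ?_, le_rfl, ?_⟩
      · intro u hu
        rcases hSm u hu with h | h
        · exact hZX h.1
        · exact hAX h.1
      · rw [disjoint_left]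
        intro u hu huH
        rcases hSm u hu with h | h
        · exact h.2 huH
        · exact ((hAm u).1 h.1).2.2 huH
      · have h5 := card_le_card (sdiff_subset : U' \ S ⊆ U')
        exact le_trans (by omega) (le_max_right _ _)
      · rw [disjoint_left]
        intro u hu huD
        rw [mem_inter] at huD
        rcases hSm u hu with h | h
        · exact (hDzm u huD.1).2.1 h.1
        · exact h.2 huD.2
  -- the light items
  obtain ⟨Dz', hDz'⟩ : ∃ Dz', Dz' = Dz \ S := ⟨_, rfl⟩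
  have hDz'm : ∀ v ∈ Dz', v ∈ Dz ∧ v ∉ S := fun v hv => by
    rw [hDz', mem_sdiff] at hv
    exact hv
  have hDz'c : γ₀ / 8 * n ≤ Dz'.card := by
    have h1 := card_le_card_sdiff_add_card (s := Dz) (t := S)
    rw [← hDz'] at h1
    have h2 : (Dz.card : ℝ) ≤ Dz'.card + t := by
      rw [← hSc]
      exact_mod_cast h1
    have h3 : δ * n ≤ γ₀ / 8 * n := mul_le_mul_of_nonneg_right hδ2 hn0.le
    linarith
  have hcnt₁ : ∀ j : ℕ, (X.filter (fun u => u ∉ Z ∪ S ∧ u ∉ Hs ∧ ¬ R z u ∧ (nI R Dz' u).card ≤ j)).card ≤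
      (g₀ + 2) * M * j := by
    intro j
    rw [Nat.mul_assoc]
    refine (card_le_card ?_).trans (hGfj (M * j))
    intro u hu
    rw [mem_filter, mem_union, not_or] at hu
    obtain ⟨h1, ⟨h2, h3⟩, h4, h5, h6⟩ := hu
    have huG : u ∈ Gf := by
      rw [hGf, mem_filter]
      exact ⟨h1, h2, h4, h5⟩
    rw [mem_filter]
    refine ⟨huG, ?_⟩
    have h7 := (hQ₀D u huG).2
    have h8 : nI R Dz u ∩ Q₀ ⊆ nI R Dz' u := by
      intro v hv
      rw [mem_inter, mem_nI] at hv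
      rw [mem_nI, hDz', mem_sdiff]
      exact ⟨⟨hv.1.1, fun h => disjoint_left.1 hSQ h (mem_inter.2 ⟨hv.1.1, hv.2⟩)⟩, hv.1.2⟩
    exact h7.trans (Nat.mul_le_mul_left _ ((card_le_card h8).trans h6))
  obtain ⟨T, Q, hET, hTs, hQs, hTQ, hg, hd, hcj, hcap⟩ := hgen hT hEE (X \ S) X (Z ∪ S) Dz' z os (by omega)
    (fun v hv => (hDzm v (hDz'm v hv).1).1) (by
      rw [disjoint_left]
      intro v hv hv'
      rcases mem_union.1 hv' with h | h
      · exact (hDzm v (hDz'm v hv).1).2.1 h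
      · exact (hDz'm v hv).2 h) (by
      rw [← hHs, disjoint_left]
      exact fun v hv => (hDzm v (hDz'm v hv).1).2.2.1) (fun v hv => hGg v (hDzm v (hDz'm v hv).1).2.2.2.2)
    (by rw [← hnd]; exact hDz'c) (by rw [← hHs]; exact hcnt₁) (by
      rw [← hnd]
      have h1 := card_union_le Z S
      have h2 : ((Z ∪ S).card : ℝ) ≤ ((w + 2 * sig + t : ℕ) : ℝ) := by
        exact_mod_cast (by omega : (Z ∪ S).card ≤ w + 2 * sig + t)
      exact h2.trans (hw.trans (mul_le_mul_of_nonneg_right hδ1 hn0.le))) hlen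
    (fun o ho => ⟨(hos o ho).1, (hos o ho).2.1, (hos o ho).2.2.2.1, (hos o ho).2.2.2.2⟩) hsize
  rw [← hHs] at hTs hQs hcj hcap
  have hTm : ∀ v ∈ T, v ∈ X ∧ v ∉ Z ∧ v ∉ S ∧ v ∉ Hs := by
    intro v hv
    have := hTs hv
    rw [mem_sdiff, mem_union, mem_union, not_or, not_or] at this
    exact ⟨this.1, this.2.1.1, this.2.1.2, this.2.2⟩
  have hQm : ∀ v ∈ Q, v ∈ X ∧ v ∉ Z ∧ v ∉ S ∧ v ∉ Hs := by
    intro v hv
    have := hQs hv
    rw [mem_sdiff, mem_union, mem_union, not_or, not_or] at this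
    exact ⟨this.1, this.2.1.1, this.2.1.2, this.2.2⟩
  obtain ⟨X', hX'⟩ : ∃ X', X' = X \ (Hs ∪ T ∪ S) := ⟨_, rfl⟩
  have hX'm : ∀ v, v ∈ X' ↔ v ∈ X ∧ v ∉ Hs ∧ v ∉ T ∧ v ∉ S := by
    intro v
    rw [hX', mem_sdiff, mem_union, mem_union, not_or, not_or]
    tauto
  have hX'X : X' ⊆ X := by rw [hX']; exact sdiff_subset
  have hQX' : Q ⊆ X' := by
    intro v hv
    obtain ⟨h1, h2, h3, h4⟩ := hQm v hv
    exact (hX'm v).2 ⟨h1, h4, fun h => disjoint_left.1 hTQ h hv, h3⟩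
  refine ⟨S, T, w', hS, hET, hSX, fun v hv => (hTm v hv).1, ?_, hSH, ?_, hw', ?_⟩
  · rw [disjoint_right]
    exact fun v hv => (hTm v hv).2.2.1
  · rw [disjoint_left]
    exact fun v hv => (hTm v hv).2.2.2
  rw [← hX']
  have hcg : ∀ v ∈ Dz' ∩ Q, v ∈ cg R X' ∅ (R z) κ η lam' := by
    intro v hv
    rw [mem_inter] at hv
    obtain ⟨hvD, hvQ⟩ := hv
    obtain ⟨k1, k2, k3, k4, k5⟩ := hDzm v (hDz'm v hvD).1
    rw [mem_cg, union_empty]
    refine ⟨hQX' hvQ, k4, hg X' hX'X hQX' v hvD, ?_⟩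
    have h1 := hcap v hvQ
    have h2 : (nI R ((X \ S) \ X ∪ ((Z ∪ S) ∩ (X \ S)) \ Hs ∪ Q) v).card ≤ (nI R X' v).card := by
      apply card_le_card
      apply nI_mono
      intro u hu
      simp only [mem_union, mem_sdiff, mem_inter] at hu
      rcases hu with (h | h) | h
      · exact absurd h.1.1 h.2
      · rw [hX'm]
        refine ⟨h.1.2.1, h.2, fun h' => ?_, h.1.2.2⟩
        rcases h.1.1 with h3 | h3
        · exact (hTm u h').2.1 h3
        · exact h.1.2.2 h3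
      · exact hQX' h
    have h3 : sig ≤ (nI R X v).card := by
      by_contra hc
      push Not at hc
      apply k2
      rw [hZ, hLow]
      exact mem_union_left _ (mem_filter.2 ⟨k1, hc⟩)
    have h4 : (nI R X v).card ≤ (nI R (X \ S) v).card + t := by
      rw [← hSc]
      refine le_trans (card_le_card ?_) (card_union_le _ _)
      intro u hu
      rw [mem_nI] at hu
      rw [mem_union, mem_nI, mem_sdiff]
      by_cases h5 : u ∈ S
      · exact Or.inr h5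
      · exact Or.inl ⟨⟨hu.1, h5⟩, hu.2⟩
    have h5 : M₉ * lam' ≤ M₉ * (nI R X' v).card := by
      have h6 := Nat.mul_le_mul_left M₉ h2
      omega
    exact Nat.le_of_mul_le_mul_left h5 (by omega)
  refine ⟨empty_subset _, ?_, ?_, by simp⟩
  · have h1 : ((Dz' ∩ Q).card : ℝ) ≤ (cg R X' ∅ (R z) κ η lam').card := by exact_mod_cast card_le_card hcg
    refine le_trans ?_ (hd.trans h1)
    have h2 : (X'.card : ℝ) ≤ X.card := by exact_mod_cast card_le_card hX'X
    refine (mul_le_mul_of_nonneg_left h2 hs0.le).trans (mul_le_mul_of_nonneg_right ?_ (Nat.cast_nonneg _))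
    rw [hsd, hγ₀]
    have : 0 < c * η₁ := by positivity
    linarith
  · intro j _
    have h1 : (X' \ ∅).filter (fun u => ¬ R z u ∧ sig ≤ (nI R X' u).card ∧
        (nI R (cg R X' ∅ (R z) κ η lam') u).card ≤ j) ⊆ (U' \ S) ∪
        X.filter (fun u => u ∉ Z ∪ S ∧ u ∉ Hs ∧ ¬ R z u ∧ (nI R Dz' u ∩ Q).card ≤ j) := by
      intro u hu
      rw [mem_filter, sdiff_empty] at hu
      obtain ⟨k1, k2, k3, k4⟩ := hu
      rw [hX'm] at k1
      obtain ⟨k5, k6, k7, k8⟩ := k1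
      have hnl : u ∉ Low := by
        rw [hLow, mem_filter]
        rintro ⟨-, h⟩
        have := card_le_card (nI_mono (R := R) (v := u) hX'X)
        omega
      by_cases huU : u ∈ Uw
      · apply mem_union_left
        rw [mem_sdiff, hU', mem_filter]
        exact ⟨⟨huU, k2⟩, k8⟩
      · apply mem_union_right
        rw [mem_filter, mem_union, not_or, hZ, mem_union, not_or]
        refine ⟨k5, ⟨⟨hnl, huU⟩, k8⟩, k6, k2, le_trans (card_le_card ?_) k4⟩
        intro v hv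
        rw [mem_inter, mem_nI] at hv
        rw [mem_nI]
        exact ⟨hcg v (mem_inter.2 ⟨hv.1.1, hv.2⟩), hv.1.2⟩
    exact (card_le_card h1).trans ((card_union_le _ _).trans (Nat.add_le_add hSU (hcj j)))

theorem arith_r {ω n d₁ d₂ t K D i δ : ℝ} (hω : 2 * ω * D = 1) (hω0 : 0 ≤ ω) (hω1 : ω ≤ 1 / 8)
    (hD : 2 * (K ^ 2 + 2 * K) ≤ D) (h2 : d₂ ≤ K * t) (h1 : d₁ ≤ K * (i + 1 + d₂ + t)) (hn : d₁ + d₂ + t ≤ n)
    (hi : i ≤ δ * n) (hδ : δ * (8 * K + 8) ≤ 1) (hδ0 : 0 ≤ δ) (hn8 : 8 * K + 8 ≤ n) (hK : 0 ≤ K) (ht : 0 ≤ t) :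
    d₁ + d₂ ≤ (1 - 2 * ω) * n := by
  have hn0 : 0 ≤ n := by linarith
  have e1 : d₁ + d₂ ≤ K * (i + 1) + (K ^ 2 + 2 * K) * t := by nlinarith
  have e2 : 4 * ω * (K ^ 2 + 2 * K) ≤ 1 := by nlinarith
  have e3 : 4 * ω * ((K ^ 2 + 2 * K) * t) ≤ t := by nlinarith
  have e4 : K * i ≤ 1 / 8 * n := by
    have h3 : K * i ≤ K * (δ * n) := mul_le_mul_of_nonneg_left hi hK
    have h4 : 8 * (K * δ) * n ≤ 1 * n := mul_le_mul_of_nonneg_right (by nlinarith) hn0
    linarith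
  have e5 : K * (i + 1) ≤ 1 / 4 * n := by linarith
  have e6 : 4 * ω * (K * (i + 1)) ≤ ω * n := by
    have := mul_le_mul_of_nonneg_left e5 (show 0 ≤ 4 * ω by linarith)
    linarith
  have e7 := mul_le_mul_of_nonneg_left e1 (show 0 ≤ 4 * ω by linarith)
  have e8 : (1 + 4 * ω) * (d₁ + d₂) ≤ (1 + ω) * n := by linarith
  have e9 : (1 + ω) * n ≤ (1 + 4 * ω) * ((1 - 2 * ω) * n) := by
    have h3 : 0 ≤ ω * (1 - 8 * ω) * n := mul_nonneg (mul_nonneg hω0 (by linarith)) hn0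
    nlinarith
  exact le_of_mul_le_mul_left (e8.trans e9) (by linarith)

/-- **The light round of the fine class** -/
theorem roundL (p : NP) (hp : p.OK) (hab : ab p.b p.l ≤ p.a) (K₀ : ℕ) {D₀ : ℕ} (hD₀ : p.A ≤ D₀)
    (hD₁ : 2 * (K₀ ^ 2 + 2 * K₀) ≤ D₀) {ω c η η₁ κ₀ κ₁ κ γ₀ τ s σ₂ μ : ℝ} (P : KB D₀ ω c η η₁ κ₀ κ₁ κ γ₀ τ s σ₂ μ) :
    ∃ (δ₀ : ℝ) (M₉ K₁ : ℕ), 0 < δ₀ ∧ ∀ δ : ℝ, δ ≤ δ₀ → RoundL p.b p.l K₀ κ η s δ M₉ K₁ := by
  obtain ⟨hω0, hω1, hc0, hc1, hη0, hη1, hη₁0, hη₁1, hκ₀0, hκ₁0, hκ₁1, hκ0, hκ1, hs0, hγ₀0, hτ0, hσ₂0, hμ0, hκ₁η, hκs⟩ :=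
    P.num
  have hγ₀ := P.hγ₀
  have hωD : 2 * ω * D₀ = 1 := by
    have h1 : (0 : ℝ) < D₀ := by
      have := P.hD
      exact_mod_cast (by omega : 0 < D₀)
    rw [P.hω]
    field_simp
  have hcη : c * η ≤ 1 * η := mul_le_mul_of_nonneg_right (by linarith) hη0.le
  obtain ⟨CE, hCE, hEE⟩ := ee_all p hp hab hD₀ P
  obtain ⟨δ₁, M₉, K₁, C₉, hδ₁, hround⟩ := light_round p hp P CE hCE
  obtain ⟨δ₀, hδ₀⟩ : ∃ δ₀ : ℝ, δ₀ = min (min (δ₁ / 2) (1 / (8 * K₀ + 8))) (γ₀ / 8) := ⟨_, rfl⟩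
  have hδ₀0 : 0 < δ₀ := by
    rw [hδ₀]
    exact lt_min (lt_min (by positivity) (by positivity)) (by positivity)
  refine ⟨δ₀, M₉, K₁, hδ₀0, ?_⟩
  intro δ hδ f K'
  have hδa : δ ≤ δ₁ / 2 := by rw [hδ₀] at hδ; exact hδ.trans ((min_le_left _ _).trans (min_le_left _ _))
  have hδb : δ ≤ 1 / (8 * K₀ + 8) := by rw [hδ₀] at hδ; exact hδ.trans ((min_le_left _ _).trans (min_le_right _ _))
  have hδc : δ ≤ γ₀ / 8 := by rw [hδ₀] at hδ; exact hδ.trans (min_le_right _ _)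
  obtain ⟨n₂, hn₂⟩ := exists_big [(1, κ₀)] (by
    intro q hq
    simp only [List.mem_cons, List.not_mem_nil, or_false] at hq
    rcases hq with rfl
    exact hκ₀0)
  refine ⟨C₉ + n₂ + 8 * K₀ + 8, ?_⟩
  intro V R hT X N lam sig w lam' q₁ q₂ q₃ L hSt hcl hL hNoD hlam hsig hwδ hX hsz
  obtain ⟨n, hnd⟩ : ∃ n : ℝ, n = (X.card : ℝ) := ⟨_, rfl⟩
  have b1 : (1 : ℝ) ≤ κ₀ * n := by
    rw [hnd]
    exact hn₂ X.card (by omega) (1, κ₀) (by simp)
  have hn8 : 8 * (K₀ : ℝ) + 8 ≤ n := by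
    rw [hnd]
    exact_mod_cast (by omega : 8 * K₀ + 8 ≤ X.card)
  rw [← hnd] at hwδ
  have hn0 : 0 < n := by
    have : (0 : ℝ) ≤ K₀ := Nat.cast_nonneg _
    linarith
  have hδ0 : 0 ≤ δ := by
    by_contra hc
    push Not at hc
    have h1 := mul_neg_of_neg_of_pos hc hn0
    have h2 : (0 : ℝ) ≤ ((w + sig + inS [q₁, q₂, q₃] : ℕ) : ℝ) := Nat.cast_nonneg _
    linarith
  have hin : inS [q₁, q₂, q₃] = q₁.1.size + (q₂.1.size + q₃.1.size) := by simp [inS]
  have hw2 : ∀ t ≤ inS [q₁, q₂, q₃], ((w + 2 * sig + t : ℕ) : ℝ) ≤ δ₁ * n := by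
    intro t ht
    have h1 : ((w + 2 * sig + t : ℕ) : ℝ) ≤ 2 * ((w + sig + inS [q₁, q₂, q₃] : ℕ) : ℝ) := by
      exact_mod_cast (by omega : w + 2 * sig + t ≤ 2 * (w + sig + inS [q₁, q₂, q₃]))
    have h2 : 2 * (δ * n) ≤ δ₁ * n := by
      have := mul_le_mul_of_nonneg_right hδa hn0.le
      linarith
    linarith
  -- the sets
  obtain ⟨Low, hLow⟩ : ∃ Low, Low = X.filter (fun u => (nI R X u).card < sig) := ⟨_, rfl⟩
  obtain ⟨Uw, hUw⟩ : ∃ Uw, Uw = X.filter (fun u => ¬ N u ∧ sig ≤ (nI R X u).card ∧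
    (nI R (cg R X ∅ N κ η lam) u).card ≤ 0) := ⟨_, rfl⟩
  have hUwc : Uw.card ≤ w := by
    have h1 := hSt.cnt 0 (Nat.zero_le _)
    rw [sdiff_empty, ← hUw] at h1
    omega
  have hUwX : Uw ⊆ X := by rw [hUw]; exact filter_subset _ _
  have hZc : ((Low ∪ Uw).card : ℝ) ≤ 2 * (δ * n) := by
    have h1 := card_union_le Low Uw
    have h2 : Low.card ≤ 2 * sig := by
      rw [hLow]
      exact card_lowin hT X sig
    have h3 : (((Low ∪ Uw).card : ℕ) : ℝ) ≤ 2 * ((w + sig + inS [q₁, q₂, q₃] : ℕ) : ℝ) := by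
      exact_mod_cast (by omega : (Low ∪ Uw).card ≤ 2 * (w + sig + inS [q₁, q₂, q₃]))
    linarith
  obtain ⟨G, hG, hGg, hGc, hGo⟩ := exists_G P hT X (by rw [← hnd]; exact b1)
  rw [← hnd] at hGc hGo
  obtain ⟨z, hXD⟩ := exists_x (Z := Low ∪ Uw) hT hG (m := ⌊γ₀ / 16 * n⌋₊) (fun u hu huG => Nat.le_floor (hGo u hu huG)) (by
    rw [sdiff_nonempty]
    intro hsub
    have h1 : (G.card : ℝ) ≤ (Low ∪ Uw).card := by exact_mod_cast card_le_card hsub
    have h2 : δ * n ≤ γ₀ / 8 * n := mul_le_mul_of_nonneg_right hδc hn0.le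
    have h3 : 0 < γ₀ * n := by positivity
    linarith)
  have hmr : ((⌊γ₀ / 16 * n⌋₊ : ℕ) : ℝ) ≤ γ₀ / 16 * n := Nat.floor_le (by positivity)
  have hzG : z ∈ G ∧ z ∉ Low ∪ Uw := mem_sdiff.1 hXD.hx
  have hzX : z ∈ X := hG hzG.1
  have hzs : sig ≤ (nI R X z).card := by
    by_contra hc
    push Not at hc
    exact hzG.2 (mem_union_left _ (by rw [hLow, mem_filter]; exact ⟨hzX, hc⟩))
  have hzU : z ∉ Uw := fun h => hzG.2 (mem_union_right _ h)
  have hzGood : Good R κ η X z := by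
    have h1 := hGg z hzG.1
    exact GdU_self.1 (AEB.Good.gdU h1 (Subset.refl _) (mul_le_mul_of_nonneg_right (by linarith) (Nat.cast_nonneg _))
      (by linarith))
  have hirr : ¬ R z z := hT.irr z
  obtain ⟨hA₁o, hD₁o, hA₁f, hD₁f⟩ := hcl q₁ (by simp)
  obtain ⟨hA₂o, hD₂o, hA₂f, hD₂f⟩ := hcl q₂ (by simp)
  rw [hLow] at hXD
  -- the sizes
  have hs1 : szS (q₁ :: q₂ :: q₃ :: L) = q₁.1.size + q₁.2.size + 1 + szS (q₂ :: q₃ :: L) := szS_cons _ _
  have hs2 : szS (q₂ :: q₃ :: L) = q₂.1.size + q₂.2.size + 1 + szS (q₃ :: L) := szS_cons _ _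
  have hDD : (q₁.2.size : ℝ) + q₂.2.size ≤ (1 - 2 * ω) * n := by
    obtain ⟨g1, g2, -⟩ := hNoD
    have g1' : q₁.2.size ≤ K₀ * szS (q₂ :: q₃ :: L) := g1
    have g2' : q₂.2.size ≤ K₀ * szS (q₃ :: L) := g2
    refine arith_r (D := D₀) (K := K₀) (t := szS (q₃ :: L)) (i := q₂.1.size) (δ := δ) hωD hω0.le (by linarith)
      (by exact_mod_cast hD₁) (by exact_mod_cast g2') ?_ ?_ ?_ ?_ hδ0 hn8 (Nat.cast_nonneg _) (Nat.cast_nonneg _)
    · rw [hs2] at g1'
      exact_mod_cast (by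
        refine g1'.trans (Nat.mul_le_mul_left _ ?_)
        omega : q₁.2.size ≤ K₀ * (q₂.1.size + 1 + q₂.2.size + szS (q₃ :: L)))
    · rw [hnd]
      exact_mod_cast (by omega : q₁.2.size + q₂.2.size + szS (q₃ :: L) ≤ X.card)
    · refine le_trans ?_ hwδ
      exact_mod_cast (by omega : q₂.1.size ≤ w + sig + inS [q₁, q₂, q₃])
    · have h1 : (0 : ℝ) < 8 * K₀ + 8 := by positivity
      rw [le_div_iff₀ h1] at hδb
      exact hδb
  by_cases hNz : N z
  · -- one vertex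
    have hhs : ∀ F : Fd, hosts [(z, F)] = {z} := by
      intro F
      ext v
      rw [mem_hosts, mem_singleton]
      constructor
      · rintro ⟨o, ho, rfl⟩
        rw [List.mem_singleton] at ho
        rw [ho]
      · rintro rfl
        exact ⟨_, List.mem_singleton_self _, rfl⟩
    have ht : totB [(z, q₁.1)] = q₁.1.size := by simp [totB]
    have htd : totB [(z, q₁.2)] = q₁.2.size := by simp [totB]
    obtain ⟨S, T, w', hS, hET, hSX, hTX, hST, hSH, hTH, hw', hStE⟩ := hround hT (hEE hT) X G Uw z ⌊γ₀ / 16 * n⌋₊ sig lam' f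
      w [(z, q₁.1)] [(z, q₁.2)] (by omega) hG hUwX hGg (by rw [← hnd]; exact hGc) hXD (by rw [← hnd]; exact hmr) hUwc
      (by rw [← hnd, ht]; exact hw2 _ (by omega)) (by simp) (by rw [hhs, hhs]) (by rw [hhs]; simp) (by
        intro o ho
        rw [List.mem_singleton] at ho
        rw [ho]
        exact ⟨hzX, hzGood, hirr, hD₁o, hD₁f⟩) (by
        intro o ho
        rw [List.mem_singleton] at ho
        rw [ho, ht]
        refine ⟨by show 16 * q₁.1.size + C₉ ≤ (nI R X z).card; omega, hA₁o, hA₁f, hzU, ?_⟩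
        intro u hu hzu
        exact (hT.tot u z (fun e => hzU (e ▸ hu))).resolve_right hzu) (by rw [ht]; omega) (by
        rw [← hnd, htd]
        have : (0 : ℝ) ≤ q₂.2.size := Nat.cast_nonneg _
        linarith)
    rw [hhs] at hSH hTH hStE
    rw [ht] at hw'
    have hzS : z ∉ S := fun h => disjoint_left.1 hSH h (mem_singleton_self _)
    have hzT : z ∉ T := fun h => disjoint_left.1 hTH h (mem_singleton_self _)
    obtain ⟨S₁, S', -, hS₁, hE₁, hS₂⟩ := hS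
    obtain ⟨T₁, T', -, hT₁, hF₁, hT₂⟩ := hET
    have h5 : S = S₁ := by rw [hS₁, show (_ : Finset V) = ∅ from hS₂, union_empty]
    have h6 : T = T₁ := by rw [hT₁, show (_ : Finset V) = ∅ from hT₂, union_empty]
    rw [← h5] at hE₁
    rw [← h6] at hF₁
    obtain ⟨X', hX'⟩ : ∃ X', X' = X \ ({z} ∪ T ∪ S) := ⟨_, rfl⟩
    rw [← hX'] at hStE
    have hX'X : X' ⊆ X := by rw [hX']; exact sdiff_subset
    have hX'm : ∀ v ∈ X', v ≠ z ∧ v ∉ T ∧ v ∉ S := by
      intro v hv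
      rw [hX', mem_sdiff, mem_union, mem_union, mem_singleton, not_or, not_or] at hv
      exact ⟨hv.2.1.1, hv.2.1.2, hv.2.2⟩
    refine ⟨1, X', z, w', le_rfl, by norm_num, hX'X, ?_, hStE, ?_, ?_⟩
    · have h7 : ({z} ∪ T ∪ S) ⊆ X := union_subset (union_subset (by simpa using hzX) hTX) hSX
      have h8 := card_sdiff_add_card_eq_card h7
      rw [← hX', card_union_of_disjoint (by
        rw [disjoint_union_left]
        exact ⟨hSH.symm, hST.symm⟩), card_union_of_disjoint hTH.symm, card_singleton, show S.card = q₁.1.size from hE₁.card,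
        show T.card = q₁.2.size from hF₁.card] at h8
      rw [hs1]
      show X'.card + _ = X.card + szS (q₂ :: q₃ :: L)
      omega
    · have h7 : inS ((q₁ :: q₂ :: q₃ :: L).take 1) = q₁.1.size := by simp [inS]
      rw [h7]
      exact hw'
    · intro h
      exact InS.cons (X' := X') hzX hNz hE₁ hF₁ hST hzS hzT hSX hTX hX'X (fun h => (hX'm z h).1 rfl)
        (disjoint_right.2 fun v hv => (hX'm v hv).2.2) (disjoint_right.2 fun v hv => (hX'm v hv).2.1) (Or.inr h)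
  · -- two vertices
    obtain ⟨v, hv⟩ : ∃ v, v ∈ nI R (cg R X ∅ N κ η lam) z := by
      by_contra hc
      push Not at hc
      apply hzU
      rw [hUw, mem_filter]
      exact ⟨hzX, hNz, hzs, by rw [eq_empty_of_forall_notMem hc, card_empty]⟩
    rw [mem_nI] at hv
    obtain ⟨hvcg, hvz⟩ := hv
    have hvcg' := hvcg
    rw [mem_cg, union_empty] at hvcg'
    obtain ⟨hvX, hNv, hvG, hvlam⟩ := hvcg'
    have hvz' : v ≠ z := fun e => hirr (by rw [e] at hvz; exact hvz)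
    have hhs : ∀ F F' : Fd, hosts [(v, F), (z, F')] = {v, z} := by
      intro F F'
      ext u
      rw [mem_hosts, mem_insert, mem_singleton]
      constructor
      · rintro ⟨o, ho, rfl⟩
        rw [List.mem_cons, List.mem_singleton] at ho
        rcases ho with rfl | rfl
        · exact Or.inl rfl
        · exact Or.inr rfl
      · rintro (rfl | rfl)
        · exact ⟨_, List.mem_cons_self, rfl⟩
        · exact ⟨_, List.mem_cons_of_mem _ (List.mem_singleton_self _), rfl⟩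
    have ht : totB [(v, q₁.1), (z, q₂.1)] = q₁.1.size + q₂.1.size := by simp [totB]
    have htd : totB [(v, q₁.2), (z, q₂.2)] = q₁.2.size + q₂.2.size := by simp [totB]
    have hUm : ∀ u ∈ Uw, ¬ N u ∧ (nI R (cg R X ∅ N κ η lam) u).card ≤ 0 := by
      intro u hu
      rw [hUw, mem_filter] at hu
      exact ⟨hu.2.1, hu.2.2.2⟩
    have hvU : v ∉ Uw := fun h => (hUm v h).1 hNv
    obtain ⟨S, T, w', hS, hET, hSX, hTX, hST, hSH, hTH, hw', hStE⟩ := hround hT (hEE hT) X G Uw z ⌊γ₀ / 16 * n⌋₊ sig lam' f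
      w [(v, q₁.1), (z, q₂.1)] [(v, q₁.2), (z, q₂.2)] (by omega) hG hUwX hGg (by rw [← hnd]; exact hGc) hXD
      (by rw [← hnd]; exact hmr) hUwc (by rw [← hnd, ht]; exact hw2 _ (by omega)) (by simp) (by rw [hhs, hhs])
      (by rw [hhs]; simp) (by
        intro o ho
        rw [List.mem_cons, List.mem_singleton] at ho
        rcases ho with rfl | rfl
        · exact ⟨hvX, hvG, hT.asym _ _ hvz, hD₁o, hD₁f⟩
        · exact ⟨hzX, hzGood, hirr, hD₂o, hD₂f⟩) (by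
        intro o ho
        rw [ht]
        rw [List.mem_cons, List.mem_singleton] at ho
        rcases ho with rfl | rfl
        · refine ⟨by show 16 * (q₁.1.size + q₂.1.size) + C₉ ≤ (nI R X v).card; omega, hA₁o, hA₁f, hvU, ?_⟩
          intro u hu _
          refine (hT.tot u v (fun e => hvU (e ▸ hu))).resolve_right fun h => ?_
          have h1 := (hUm u hu).2
          rw [Nat.le_zero, card_eq_zero] at h1
          have h2 : v ∈ nI R (cg R X ∅ N κ η lam) u := mem_nI.2 ⟨hvcg, h⟩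
          rw [h1] at h2
          exact notMem_empty _ h2
        · refine ⟨by show 16 * (q₁.1.size + q₂.1.size) + C₉ ≤ (nI R X z).card; omega, hA₂o, hA₂f, hzU, ?_⟩
          intro u hu hzu
          exact (hT.tot u z (fun e => hzU (e ▸ hu))).resolve_right hzu) (by rw [ht]; omega) (by
        rw [← hnd, htd]
        push_cast
        exact hDD)
    rw [hhs] at hSH hTH hStE
    rw [ht] at hw'
    obtain ⟨S₁, S', hd₁, hS₁, hE₁, S₂, S'', -, hS₂, hE₂, hS₃⟩ := hS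
    obtain ⟨T₁, T', hd₂, hT₁, hF₁, T₂, T'', -, hT₂, hF₂, hT₃⟩ := hET
    have h5 : S' = S₂ := by rw [hS₂, show (_ : Finset V) = ∅ from hS₃, union_empty]
    have h6 : T' = T₂ := by rw [hT₂, show (_ : Finset V) = ∅ from hT₃, union_empty]
    rw [h5] at hd₁ hS₁
    rw [h6] at hd₂ hT₁
    have hHS : ∀ u ∈ S, u ≠ v ∧ u ≠ z := by
      intro u hu
      have h7 := disjoint_left.1 hSH hu
      rw [mem_insert, mem_singleton, not_or] at h7
      exact h7
    have hHT : ∀ u ∈ T, u ≠ v ∧ u ≠ z := by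
      intro u hu
      have h7 := disjoint_left.1 hTH hu
      rw [mem_insert, mem_singleton, not_or] at h7
      exact h7
    obtain ⟨X', hX'⟩ : ∃ X', X' = X \ ({v, z} ∪ T ∪ S) := ⟨_, rfl⟩
    rw [← hX'] at hStE
    have hX'X : X' ⊆ X := by rw [hX']; exact sdiff_subset
    have hX'm : ∀ u ∈ X', u ≠ v ∧ u ≠ z ∧ u ∉ T ∧ u ∉ S := by
      intro u hu
      rw [hX', mem_sdiff, mem_union, mem_union, mem_insert, mem_singleton, not_or, not_or, not_or] at hu
      exact ⟨hu.2.1.1.1, hu.2.1.1.2, hu.2.1.2, hu.2.2⟩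
    have k1 : S₁ ⊆ S := by rw [hS₁]; exact subset_union_left
    have k2 : S₂ ⊆ S := by rw [hS₁]; exact subset_union_right
    have k3 : T₁ ⊆ T := by rw [hT₁]; exact subset_union_left
    have k4 : T₂ ⊆ T := by rw [hT₁]; exact subset_union_right
    have kU : S₁ ∪ T₁ ∪ (S₂ ∪ T₂) ⊆ S ∪ T := union_subset (union_subset_union k1 k3) (union_subset_union k2 k4)
    refine ⟨2, X', z, w', by norm_num, le_rfl, hX'X, ?_, hStE, ?_, ?_⟩
    · have h7 : ({v, z} ∪ T ∪ S) ⊆ X := by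
        refine union_subset (union_subset ?_ hTX) hSX
        intro u hu
        rw [mem_insert, mem_singleton] at hu
        rcases hu with rfl | rfl
        · exact hvX
        · exact hzX
      have h8 := card_sdiff_add_card_eq_card h7
      have h9 : S.card = q₁.1.size + q₂.1.size := by
        rw [hS₁, card_union_of_disjoint hd₁, show S₁.card = q₁.1.size from hE₁.card,
          show S₂.card = q₂.1.size from hE₂.card]
      have h10 : T.card = q₁.2.size + q₂.2.size := by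
        rw [hT₁, card_union_of_disjoint hd₂, show T₁.card = q₁.2.size from hF₁.card,
          show T₂.card = q₂.2.size from hF₂.card]
      rw [← hX', card_union_of_disjoint (by
        rw [disjoint_union_left]
        exact ⟨hSH.symm, hST.symm⟩), card_union_of_disjoint hTH.symm, card_pair hvz', h9, h10] at h8
      rw [hs1, hs2]
      show X'.card + _ = X.card + szS (q₃ :: L)
      omega
    · have h7 : inS ((q₁ :: q₂ :: q₃ :: L).take 2) = q₁.1.size + q₂.1.size := by simp [inS]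
      rw [h7]
      exact hw'
    · intro h
      refine InS.cons2 (X' := X') hvX hzX hNv hvz hvz' hE₁ hF₁ hE₂ hF₂ (hST.mono k1 k3) (hST.mono k2 k4) ?_ ?_ ?_
        (kU.trans (union_subset hSX hTX)) hX'X (fun h => (hX'm v h).1 rfl) (fun h => (hX'm z h).2.1 rfl) ?_ (Or.inr h)
      · rw [disjoint_union_left, disjoint_union_right, disjoint_union_right]
        exact ⟨⟨hd₁, hST.mono k1 k4⟩, (hST.mono k2 k3).symm, hd₂⟩
      · intro h
        rcases mem_union.1 (kU h) with h | h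
        · exact (hHS v h).1 rfl
        · exact (hHT v h).1 rfl
      · intro h
        rcases mem_union.1 (kU h) with h | h
        · exact (hHS z h).2 rfl
        · exact (hHT z h).2 rfl
      · refine disjoint_left.2 fun u hu hu' => ?_
        rcases mem_union.1 (kU hu) with h | h
        · exact (hX'm u hu').2.2.2 h
        · exact (hX'm u hu').2.2.1 h

end AEG
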