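import Pool.Agent.AEG.DefsF
import Pool.Agent.AEB.ConstB

/-!
# The fine class: the start
-/

set_option autoImplicit false

namespace AEG

open Finset AE15 AED AEB
open scoped Classical

/-- every big tournament has many good vertices of large in-degree -/
theorem startF_gen {κ η s κ₀ : ℝ} (h0 : 0 < κ₀) (h1 : κ₀ ≤ 1) (h2 : η ≤ 1) (h3 : κ ≤ κ₀ ^ 2 / 4) (h4 : 0 < s)
    (h5 : 4 * s ≤ η - 5 * κ₀) : StartF κ η s := by
  refine ⟨⌈1 / κ₀⌉₊ + ⌈1 / s⌉₊, ?_⟩
  intro V R hT X lam hn hlam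
  have hX0 : (0 : ℝ) ≤ X.card := Nat.cast_nonneg _
  have e1 : 1 ≤ κ₀ * X.card := by
    have h6 : 1 / κ₀ ≤ X.card := (Nat.le_ceil _).trans (by exact_mod_cast (by omega : ⌈1 / κ₀⌉₊ ≤ X.card))
    rw [div_le_iff₀ h0] at h6
    linarith
  have e2 : 1 ≤ s * X.card := by
    have h6 : 1 / s ≤ X.card := (Nat.le_ceil _).trans (by exact_mod_cast (by omega : ⌈1 / s⌉₊ ≤ X.card))
    rw [div_le_iff₀ h4] at h6
    linarith
  obtain ⟨G, hGX, g1, g2, -⟩ := structure_lemma hT X h0 h1 h2 e1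
  -- the vertices of small in-degree
  obtain ⟨Lw, hLw⟩ : ∃ Lw, Lw = X.filter (fun v => (nI R X v).card ≤ lam) := ⟨_, rfl⟩
  have hlw : Lw.card ≤ 2 * lam + 1 := by
    have h6 := card_low (SPD.rv_tour hT) X lam
    rw [hLw]
    exact h6
  have hsub : G ⊆ cg R X ∅ (fun _ => True) κ η lam ∪ Lw := by
    intro g hg
    rw [mem_union, mem_cg, hLw, mem_filter, union_empty]
    by_cases h7 : (nI R X g).card ≤ lam
    · exact Or.inr ⟨hGX hg, h7⟩
    · refine Or.inl ⟨hGX hg, trivial, ?_, by omega⟩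
      intro C hC hgC hcl
      refine g2 g hg C hC hgC fun z hz hzC => (hcl z hz hzC).trans_le ?_
      exact mul_le_mul_of_nonneg_right h3 hX0
  have h8 : (G.card : ℝ) ≤ (cg R X ∅ (fun _ => True) κ η lam).card + Lw.card := by
    exact_mod_cast (card_le_card hsub).trans (card_union_le _ _)
  have h9 : (Lw.card : ℝ) ≤ 2 * lam + 1 := by exact_mod_cast hlw
  have h10 : 4 * s * X.card ≤ (η - 5 * κ₀) * X.card := mul_le_mul_of_nonneg_right h5 hX0
  linarith

/-- the constants of the light rounds are admissible -/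
theorem startF {D₀ : ℕ} {ω c η η₁ κ₀ κ₁ κ γ₀ τ s σ₂ μ : ℝ} (P : KB D₀ ω c η η₁ κ₀ κ₁ κ γ₀ τ s σ₂ μ) : StartF κ η s := by
  obtain ⟨-, -, n1, n2, n3, n4, n5, n6, n7, n8, n9, n10, n11, n12, -, -, -, -, n13, n14⟩ := P.num
  have h1 := P.hκ₁
  have h2 := P.hs
  have h3 := P.hκ₀
  have h4 : η₁ ≤ η / 4096 := by
    have := mul_le_mul_of_nonneg_right n2 n3.le
    linarith
  have h5 : s ≤ η₁ / 128 := by
    rw [h2]
    have := mul_le_mul_of_nonneg_right (show c ≤ 1 by linarith) n5.le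
    linarith
  refine startF_gen (κ₀ := κ₀) n7 (by linarith) (by linarith) ?_ n12 (by linarith)
  linarith

end AEG
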