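import Pool.Agent.AEG.MainF
import Pool.Agent.AEG.CompF
import Pool.Agent.AEG.FinalF
import Pool.Agent.AEG.RoundLt
import Pool.Agent.AEG.ExitR
import Pool.Agent.AEG.StartF
import Pool.Agent.AEB.NPx

/-!
# The fine class: the coded statement from the heavy stages
-/

set_option autoImplicit false

namespace AEG

open Finset AE15 AED AEB
open scoped Classical

/-- the coded statement of the fine class from the three heavy stages -/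
theorem codF_of {b l K₀ : ℕ} (hb : 1 ≤ b)
    (hGN : ∃ D₁ Λ A : ℕ, ∀ D₀, D₁ ≤ D₀ → ∀ {ω c η η₁ κ₀ κ₁ κ γ₀ τ s σ₂ μ : ℝ},
      KB D₀ ω c η η₁ κ₀ κ₁ κ γ₀ τ s σ₂ μ → GroupN b l K₀ κ η s Λ A)
    (hGD : ∃ D₁ Λ A : ℕ, ∀ D₀, D₁ ≤ D₀ → ∀ {ω c η η₁ κ₀ κ₁ κ γ₀ τ s σ₂ μ : ℝ},
      KB D₀ ω c η η₁ κ₀ κ₁ κ γ₀ τ s σ₂ μ → GroupD b l K₀ κ η s Λ A)
    (hGE : ∃ D₁ Λ Λ₁ A : ℕ, 1 ≤ Λ₁ ∧ ∀ D₀, D₁ ≤ D₀ → ∀ {ω c η η₁ κ₀ κ₁ κ γ₀ τ s σ₂ μ : ℝ},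
      KB D₀ ω c η η₁ κ₀ κ₁ κ γ₀ τ s σ₂ μ → GroupE b l K₀ κ η s Λ Λ₁ A) :
    ∃ K₂ : ℕ, ∀ N₁ B : ℕ, ∃ (θ : ℝ) (C : ℕ), 0 < θ ∧ CodF b l K₀ K₂ N₁ B θ C := by
  obtain ⟨p, hp, hpb, hpl, hab, -⟩ := exists_np b l 0 hb
  subst hpb hpl
  obtain ⟨DN, ΛN, AN, hGN⟩ := hGN
  obtain ⟨DD, ΛD, AD, hGD⟩ := hGD
  obtain ⟨DE, ΛE, Λ₁, AE, hΛ₁, hGE⟩ := hGE
  obtain ⟨D₀, hD₀⟩ : ∃ D₀, D₀ = 64 + p.A + 2 * (K₀ ^ 2 + 2 * K₀) + (K₀ + 1) ^ 3 + DN + DD + DE := ⟨_, rfl⟩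
  obtain ⟨ω, c, η, η₁, κ₀, κ₁, κ, γ₀, τ, s, σ₂, μ, P⟩ := exists_KB (D := D₀) (by omega)
  have hnum := P.num
  obtain ⟨-, -, -, -, hη0, -, -, -, -, -, -, -, -, hs0, -⟩ := hnum
  obtain ⟨δ₀, M₉, K₁, hδ₀, hL⟩ := roundL p hp hab K₀ (D₀ := D₀) (by omega) (by omega) P
  have hX := exitR p hp hab K₀ (D₀ := D₀) (by omega) (by omega) P (ηw := η) le_rfl
  obtain ⟨Λ', hΛ'⟩ : ∃ Λ', Λ' = 16 + (ΛN * 5 + AN * 4 + 1) + (ΛD * 5 + AD * 4 + 1) + (ΛE * 5 + AE * 4 + 1) := ⟨_, rfl⟩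
  obtain ⟨A', hA'⟩ : ∃ A', A' = (AN * 4 + 10) + (AD * 4 + 10) + (AE * 4 + 10 + 4) := ⟨_, rfl⟩
  exact driverF hs0 hδ₀ (Λ := Λ') (A := A') (by omega) (hL δ₀ le_rfl)
    (closeN_of hη0 (hGN D₀ (by omega) P) hX (by omega) (by omega))
    (closeD_of hη0 (hGD D₀ (by omega) P) hX (by omega) (by omega))
    (closeE_of hη0 hΛ₁ (hGE D₀ (by omega) P) hX (by omega) (by omega)) (startF P)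

/-- the constants of `KB` are as small as one likes -/
theorem exists_D_eta {η' : ℝ} (h : 0 < η') : ∃ D₁ : ℕ, ∀ D₀, D₁ ≤ D₀ → ∀ {ω c η η₁ κ₀ κ₁ κ γ₀ τ s σ₂ μ : ℝ},
    KB D₀ ω c η η₁ κ₀ κ₁ κ γ₀ τ s σ₂ μ → η ≤ η' := by
  obtain ⟨D₁, hD₁⟩ := exists_nat_ge (1 / η')
  refine ⟨D₁, ?_⟩
  intro D₀ hD ω c η η₁ κ₀ κ₁ κ γ₀ τ s σ₂ μ P
  rw [P.hη, P.hω]
  have h0 : (64 : ℝ) ≤ D₀ := by exact_mod_cast P.hD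
  have h1 : (D₁ : ℝ) ≤ D₀ := by exact_mod_cast hD
  have h2 : 1 / η' ≤ D₀ := hD₁.trans h1
  rw [div_le_iff₀ h] at h2
  rw [div_div, div_le_iff₀ (by positivity)]
  nlinarith

end AEG
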