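import Pool.Agent.AEG.NumG

/-!
# The fine class: the numbers exist, `θ` does not depend on `B`
-/

set_option autoImplicit false

namespace AEG

open Finset AE15 AED AEB
open scoped Classical

theorem exists_numH {δ : ℝ} (hδ : 0 < δ) (M₉ Λ A Kx : ℕ) (hΛ : 16 ≤ Λ) : ∃ (e : ℝ) (k1 k2 K₃ Kh K₂ : ℕ), 0 < e ∧
    Kx ≤ K₂ ∧ ∀ (Nn : ℕ) (ξ : ℝ), 0 < ξ → ∃ θ : ℝ, 0 < θ ∧ ∀ B C : ℕ, ∃ (Bq B₂ W : ℕ),
      ∀ W', W ≤ W' → NumF δ e ξ θ M₉ C Λ A Nn K₂ K₃ Kh k1 k2 B C Bq B₂ W' := by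
  obtain ⟨e, he⟩ : ∃ e : ℝ, e = min (δ / 4) (1 / (32 * (Λ + 1))) := ⟨_, rfl⟩
  have hΛ0 : (0 : ℝ) ≤ Λ := Nat.cast_nonneg _
  have hΛ16 : (16 : ℝ) ≤ Λ := by exact_mod_cast hΛ
  have he0 : 0 < e := by rw [he]; exact lt_min (by linarith) (by positivity)
  have heδ : 4 * e ≤ δ := by
    have : e ≤ δ / 4 := by rw [he]; exact min_le_left _ _
    linarith
  have heΛ : 32 * (e * (Λ + 1)) ≤ 1 := by
    have h1 : e ≤ 1 / (32 * (Λ + 1)) := by rw [he]; exact min_le_right _ _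
    rw [le_div_iff₀ (by positivity)] at h1
    linarith
  have he1 : e ≤ 1 := by nlinarith
  obtain ⟨k1, hk1⟩ := exists_nat_ge (512 / e)
  rw [div_le_iff₀ he0] at hk1
  have hk1' : 512 ≤ e * k1 := by linarith
  have hk1p : 0 < k1 := by
    rcases Nat.eq_zero_or_pos k1 with h | h
    · rw [h] at hk1'
      norm_num at hk1'
    · exact h
  obtain ⟨k2, hk2⟩ : ∃ k2, k2 = 2 * M₉ * k1 + 1 := ⟨_, rfl⟩
  have hk2p : 0 < k2 := by omega
  obtain ⟨K₃, hK₃⟩ : ∃ K₃, K₃ = 128 * k1 + 64 * k2 := ⟨_, rfl⟩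
  obtain ⟨Kh, hKh⟩ : ∃ Kh, Kh = 24 * K₃ := ⟨_, rfl⟩
  have hKhp : 1 ≤ Kh := by omega
  obtain ⟨D, hD⟩ : ∃ D, D = 2 + A * (1 + Λ) + Λ * (2 + Λ) := ⟨_, rfl⟩
  obtain ⟨K₀, hK₀⟩ := exists_nat_ge (512 * Kh * D / e)
  rw [div_le_iff₀ he0] at hK₀
  obtain ⟨K₂, hK₂⟩ : ∃ K₂, K₂ = 3 * K₃ + 32 + 4 * Λ * k2 + 8 * k1 * Λ * (Λ + 1) + 4 * Λ * k1 + K₀ + Kx := ⟨_, rfl⟩
  have hK₂e : 512 * Kh * D ≤ e * K₂ := by
    have h1 : (K₀ : ℝ) ≤ K₂ := by
      have : K₀ ≤ K₂ := by rw [hK₂]; omega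
      exact_mod_cast this
    have h2 := mul_le_mul_of_nonneg_left h1 he0.le
    linarith
  refine ⟨e, k1, k2, K₃, Kh, K₂, he0, by rw [hK₂]; exact Nat.le_add_left _ _, ?_⟩
  intro Nn ξ hξ
  obtain ⟨Km, hKm⟩ : ∃ Km, Km = Kh + 4 * Nn := ⟨_, rfl⟩
  have hKmp : (0 : ℝ) < Km := by
    have : 0 < Km := by omega
    exact_mod_cast this
  obtain ⟨θ, hθ⟩ : ∃ θ : ℝ, θ = min (1 / 2) (ξ / (8 * Km)) := ⟨_, rfl⟩
  have hθ0 : 0 < θ := by rw [hθ]; exact lt_min (by norm_num) (by positivity)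
  have hθ2 : θ ≤ 1 / 2 := by rw [hθ]; exact min_le_left _ _
  have hθξ : 8 * Km * θ ≤ ξ := by
    have h1 : θ ≤ ξ / (8 * Km) := by rw [hθ]; exact min_le_right _ _
    rw [le_div_iff₀ (by positivity)] at h1
    linarith
  refine ⟨θ, hθ0, ?_⟩
  intro B C
  obtain ⟨Bq, hBq⟩ : ∃ Bq, Bq = B + 16 * (A * C + C) := ⟨_, rfl⟩
  obtain ⟨S, hS⟩ : ∃ S, S = B + 2 + 8 * C * k1 + 4 * C * k2 + 2 * k1 * (Λ * (C + 1) + C) + 256 * Kh * (A * C + C) +
    32 * (Λ * C + C) + 8 * (A * C + C + Bq) + 2 * Km * B + Kh * C := ⟨_, rfl⟩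
  obtain ⟨B₂, hB₂⟩ := exists_nat_ge (S / e)
  rw [div_le_iff₀ he0] at hB₂
  have hbig : ∀ M : ℕ, B₂ ≤ M → (S : ℝ) ≤ e * M := by
    intro M hM
    have h1 : (B₂ : ℝ) ≤ M := by exact_mod_cast hM
    have h2 := mul_le_mul_of_nonneg_left h1 he0.le
    linarith
  have hbigN : ∀ M : ℕ, B₂ ≤ M → S ≤ M := by
    intro M hM
    have h1 := hbig M hM
    have h2 : e * (M : ℝ) ≤ 1 * M := mul_le_mul_of_nonneg_right he1 (Nat.cast_nonneg _)
    have h3 : (S : ℝ) ≤ M := by linarith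
    exact_mod_cast h3
  have hSB : S ≤ B₂ := hbigN B₂ le_rfl
  obtain ⟨W, hW⟩ : ∃ W, W = 16 * B₂ + (2 * B₂ + Bq) + A * ((1 + Λ) * (2 * B₂ + B) + C) + C := ⟨_, rfl⟩
  -- the main estimate for small vertices
  have hsmall : ∀ (M x : ℕ), K₂ * x ≤ M + B → 512 * (D * x : ℝ) ≤ e * (M + B) := by
    intro M x h
    have h1 : ((K₂ * x : ℕ) : ℝ) ≤ ((M + B : ℕ) : ℝ) := by exact_mod_cast h
    push_cast at h1
    have h2 := mul_le_mul_of_nonneg_left h1 he0.le
    have h3 : 512 * Kh * D * (x : ℝ) ≤ e * K₂ * x := mul_le_mul_of_nonneg_right hK₂e (Nat.cast_nonneg _)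
    have h4 : (1 : ℝ) ≤ Kh := by exact_mod_cast hKhp
    have h5 : (0 : ℝ) ≤ 512 * (D * x) := by positivity
    have h6 : 1 * (512 * (D * x : ℝ)) ≤ Kh * (512 * (D * x)) := mul_le_mul_of_nonneg_right h4 h5
    linarith [(by ring : e * K₂ * (x : ℝ) = e * (K₂ * x)), (by ring : 512 * Kh * D * (x : ℝ) = Kh * (512 * (D * x)))]
  have hsmallK : ∀ (M x : ℕ), K₂ * x ≤ M + B → Kh * (512 * (D * x : ℝ)) ≤ e * (M + B) := by
    intro M x h
    have h1 : ((K₂ * x : ℕ) : ℝ) ≤ ((M + B : ℕ) : ℝ) := by exact_mod_cast h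
    push_cast at h1
    have h2 := mul_le_mul_of_nonneg_left h1 he0.le
    have h3 : 512 * Kh * D * (x : ℝ) ≤ e * K₂ * x := mul_le_mul_of_nonneg_right hK₂e (Nat.cast_nonneg _)
    linarith [(by ring : e * K₂ * (x : ℝ) = e * (K₂ * x)), (by ring : 512 * Kh * D * (x : ℝ) = Kh * (512 * (D * x)))]
  -- the sum of the small things
  have hsum : ∀ q q' qt : ℕ, qt ≤ q' → ∃ x, (x = q ∨ x = q') ∧ q + qt + A * (qt + Λ * q') ≤ D * x ∧
      Λ * (q + qt + Λ * q') ≤ D * x ∧ q' ≤ x ∧ q ≤ x := by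
    intro q q' qt h
    have key : ∀ x, q ≤ x → q' ≤ x → q + qt + A * (qt + Λ * q') ≤ D * x ∧ Λ * (q + qt + Λ * q') ≤ D * x := by
      intro x h1 h2
      have h3 : Λ * q' ≤ Λ * x := Nat.mul_le_mul_left _ h2
      constructor
      · calc q + qt + A * (qt + Λ * q') ≤ x + x + A * (x + Λ * x) := by
              have : A * (qt + Λ * q') ≤ A * (x + Λ * x) := Nat.mul_le_mul_left _ (by omega)
              omega
          _ ≤ D * x := by
              rw [hD]
              have : (2 + A * (1 + Λ) + Λ * (2 + Λ)) * x = x + x + A * (x + Λ * x) + Λ * (2 + Λ) * x := by ring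
              omega
      · calc Λ * (q + qt + Λ * q') ≤ Λ * (x + x + Λ * x) := Nat.mul_le_mul_left _ (by omega)
          _ ≤ D * x := by
              rw [hD]
              have : (2 + A * (1 + Λ) + Λ * (2 + Λ)) * x = Λ * (x + x + Λ * x) + (2 + A * (1 + Λ)) * x := by ring
              omega
    rcases le_total q q' with h1 | h1
    · exact ⟨q', Or.inr rfl, (key q' h1 le_rfl).1, (key q' h1 le_rfl).2, le_rfl, h1⟩
    · exact ⟨q, Or.inl rfl, (key q le_rfl h1).1, (key q le_rfl h1).2, h1, le_rfl⟩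
  refine ⟨Bq, B₂, W, ?_⟩
  intro W' hWW'
  constructor
  · exact he0
  · exact he1
  · exact heδ
  · exact hθ0.le
  · exact hθ2
  · exact hk1'
  · exact hΛ
  · exact le_rfl
  · omega
  · omega
  · omega
  · omega
  · omega
  · -- light
    intro M x hM hx
    have hSM := hbigN M hM
    have hx' : (128 * k1 + 64 * k2) * x ≤ M + B := by rw [← hK₃]; exact hx
    have e1 : (128 * k1 + 64 * k2) * x = 128 * (k1 * x) + 64 * (k2 * x) := by ring
    refine ⟨le_div_of hk1p ?_, le_div_of hk2p ?_, ?_⟩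
    · have h1 : M / k2 * k2 ≤ M := Nat.div_mul_le_self M k2
      generalize M / k2 = y at h1 ⊢
      have h2 : y * k2 = 2 * (M₉ * y * k1) + y := by rw [hk2]; ring
      have h3 : (16 * x + M₉ * y + C) * k1 = 16 * (k1 * x) + M₉ * y * k1 + C * k1 := by ring
      have h4 : 8 * C * k1 = 8 * (C * k1) := by ring
      omega
    · have h3 : (16 * x + C) * k2 = 16 * (k2 * x) + C * k2 := by ring
      have h4 : 4 * C * k2 = 4 * (C * k2) := by ring
      omega
    · have h1 : ((128 * k1 * x : ℕ) : ℝ) ≤ ((M + B : ℕ) : ℝ) := by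
        have : 128 * k1 * x ≤ M + B := by
          have : 128 * k1 * x = 128 * (k1 * x) := by ring
          omega
        exact_mod_cast this
      push_cast at h1
      have h2 := mul_le_mul_of_nonneg_left h1 he0.le
      have h3 : 512 * (x : ℝ) ≤ e * k1 * x := mul_le_mul_of_nonneg_right hk1' (Nat.cast_nonneg _)
      have h4 : (B : ℝ) ≤ M := by
        have : B ≤ M := by omega
        exact_mod_cast this
      have h5 := mul_le_mul_of_nonneg_left h4 he0.le
      linarith [(by ring : e * (128 * (k1 : ℝ) * x) = 128 * (e * k1 * x))]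
  · -- run
    intro M q hM hq
    have hSM := hbigN M hM
    have h0 : (4 * Λ * k2 + 4 * Λ * k1 + 32) * q ≤ K₂ * q := Nat.mul_le_mul_right _ (by omega)
    have e1 : (4 * Λ * k2 + 4 * Λ * k1 + 32) * q = 4 * (Λ * q * k2) + 4 * (Λ * q * k1) + 32 * q := by ring
    refine ⟨le_div_of hk2p ?_, le_div_of hk1p ?_, by omega⟩
    · have h3 : (Λ * q + C) * k2 = Λ * q * k2 + C * k2 := by ring
      have h4 : 4 * C * k2 = 4 * (C * k2) := by ring
      omega
    · have h3 : (Λ * q + C) * k1 = Λ * q * k1 + C * k1 := by ring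
      have h4 : 8 * C * k1 = 8 * (C * k1) := by ring
      omega
  · -- nN
    intro M q q' qt hM hq hq' hqt
    have hSM := hbigN M hM
    apply le_div_of hk1p
    obtain ⟨x, hx, -, -, hx1, hx2⟩ := hsum q q' qt hqt
    have hxM : K₂ * x ≤ M + B := by
      rcases hx with rfl | rfl
      · exact hq
      · exact hq'
    have h0 : (8 * k1 * Λ * (Λ + 1)) * x ≤ K₂ * x := Nat.mul_le_mul_right _ (by omega)
    have h1 : Λ * (q + qt + (Λ * q' + C) + 1) + C ≤ Λ * (2 * x + Λ * x) + (Λ * (C + 1) + C) := by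
      have h2 : Λ * q' ≤ Λ * x := Nat.mul_le_mul_left _ hx1
      have h3 : Λ * (q + qt + (Λ * q' + C) + 1) ≤ Λ * (2 * x + Λ * x + (C + 1)) := Nat.mul_le_mul_left _ (by omega)
      have h4 : Λ * (2 * x + Λ * x + (C + 1)) = Λ * (2 * x + Λ * x) + Λ * (C + 1) := by ring
      omega
    have h2 := Nat.mul_le_mul_right k1 h1
    have h3 : (Λ * (2 * x + Λ * x) + (Λ * (C + 1) + C)) * k1 =
      2 * (k1 * Λ * x) + k1 * Λ * Λ * x + k1 * (Λ * (C + 1) + C) := by ring
    have h4 : (8 * k1 * Λ * (Λ + 1)) * x = 8 * (k1 * Λ * Λ * x) + 8 * (k1 * Λ * x) := by ring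
    have h5 : 2 * k1 * (Λ * (C + 1) + C) = 2 * (k1 * (Λ * (C + 1) + C)) := by ring
    omega
  · -- cost
    intro M q q' qt Q hM hq hq' hqt hQ
    have hSM := hbigN M hM
    refine ⟨?_, ?_⟩
    · have h1 : Kh * C ≤ Kh * Q := by omega
      exact Nat.le_of_mul_le_mul_left h1 hKhp
    · obtain ⟨x, hx, hx0, -, -, -⟩ := hsum q q' qt hqt
      have hxM : K₂ * x ≤ M + B := by
        rcases hx with rfl | rfl
        · exact hq
        · exact hq'
      have h1 := hsmallK M x hxM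
      have h2 : q + qt + A * (qt + (Λ * q' + C)) + C ≤ D * x + (A * C + C) := by
        have : A * (qt + (Λ * q' + C)) = A * (qt + Λ * q') + A * C := by ring
        omega
      have h3 : ((q + qt + A * (qt + (Λ * q' + C)) + C : ℕ) : ℝ) ≤ D * x + (A * C + C : ℕ) := by exact_mod_cast h2
      have h4 : ((256 * Kh * (A * C + C) : ℕ) : ℝ) ≤ e * M := by
        refine le_trans ?_ (hbig M hM)
        have : 256 * Kh * (A * C + C) ≤ S := by omega
        exact_mod_cast this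
      have hB : (B : ℝ) ≤ M := by
        have : B ≤ M := by omega
        exact_mod_cast this
      have h5 := mul_le_mul_of_nonneg_left hB he0.le
      have h6 : (M : ℝ) ≤ Kh * Q := by exact_mod_cast hQ
      have h7 := mul_le_mul_of_nonneg_left h6 he0.le
      have hKr : (0 : ℝ) < Kh := by exact_mod_cast hKhp
      have h8 : Kh * (128 * (D * x + (A * C + C : ℕ) : ℝ)) ≤ Kh * (e * Q) := by
        push_cast at h4 ⊢
        nlinarith
      have h9 := le_of_mul_le_mul_left h8 hKr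
      linarith
  · -- costM
    intro M q q' qt hM hq hq' hqt
    have hSM := hbigN M hM
    obtain ⟨x, hx, hx0, -, -, -⟩ := hsum q q' qt hqt
    have hxM : K₂ * x ≤ M + B := by
      rcases hx with rfl | rfl
      · exact hq
      · exact hq'
    have h1 := hsmall M x hxM
    have h2 : q + A * (qt + (Λ * q' + C)) + C ≤ D * x + (A * C + C) := by
      have : A * (qt + (Λ * q' + C)) = A * (qt + Λ * q') + A * C := by ring
      omega
    have h3 : ((q + A * (qt + (Λ * q' + C)) + C : ℕ) : ℝ) ≤ D * x + (A * C + C : ℕ) := by exact_mod_cast h2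
    have h4 : ((256 * (A * C + C) : ℕ) : ℝ) ≤ e * M := by
      refine le_trans ?_ (hbig M hM)
      have : 256 * (A * C + C) ≤ 256 * Kh * (A * C + C) := by
        apply Nat.mul_le_mul_right
        omega
      have : 256 * (A * C + C) ≤ S := by omega
      exact_mod_cast this
    have hB : (B : ℝ) ≤ M := by
      have : B ≤ M := by omega
      exact_mod_cast this
    have h5 := mul_le_mul_of_nonneg_left hB he0.le
    push_cast at h4 h3 ⊢
    nlinarith
  · -- nD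
    intro M q q' qt Q w hM hq hq' hqt hQ hw
    have hSM := hbigN M hM
    obtain ⟨x, hx, -, hx0, -, -⟩ := hsum q q' qt hqt
    have hxM : K₂ * x ≤ M + B := by
      rcases hx with rfl | rfl
      · exact hq
      · exact hq'
    have h1 := hsmall M x hxM
    have h2 : Λ * (w + M / k1 + q + qt + (Λ * q' + C)) + C ≤ Λ * w + Λ * (M / k1) + D * x + (Λ * C + C) := by
      have : Λ * (w + M / k1 + q + qt + (Λ * q' + C)) = Λ * w + Λ * (M / k1) + Λ * (q + qt + Λ * q') + Λ * C := by ring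
      omega
    have hk : ((M / k1 : ℕ) : ℝ) ≤ e / 512 * M := by
      have h3 : (M / k1) * k1 ≤ M := Nat.div_mul_le_self M k1
      have h4 : ((M / k1 : ℕ) : ℝ) * k1 ≤ M := by exact_mod_cast h3
      have h5 : 512 * ((M / k1 : ℕ) : ℝ) ≤ e * k1 * ((M / k1 : ℕ) : ℝ) :=
        mul_le_mul_of_nonneg_right hk1' (Nat.cast_nonneg _)
      have h6 : e * (((M / k1 : ℕ) : ℝ) * k1) ≤ e * M := mul_le_mul_of_nonneg_left h4 he0.le
      linarith [h5, h6, (by ring : e * k1 * ((M / k1 : ℕ) : ℝ) = e * (((M / k1 : ℕ) : ℝ) * k1))]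
    have h3 : ((Λ * w + Λ * (M / k1) + D * x + (Λ * C + C) : ℕ) : ℝ) ≤ Q := by
      have h4 : (Λ : ℝ) * w ≤ Λ * (e * M) := mul_le_mul_of_nonneg_left hw hΛ0
      have h5 : (Λ : ℝ) * ((M / k1 : ℕ) : ℝ) ≤ Λ * (e / 512 * M) := mul_le_mul_of_nonneg_left hk hΛ0
      have hM0 : (0 : ℝ) ≤ M := Nat.cast_nonneg _
      have h6 : (Λ * e) * M ≤ 1 / 32 * (M : ℝ) := mul_le_mul_of_nonneg_right (by nlinarith) hM0
      have h7 : ((32 * (Λ * C + C) : ℕ) : ℝ) ≤ M := by
        have : 32 * (Λ * C + C) ≤ M := by omega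
        exact_mod_cast this
      have h8 : (B : ℝ) ≤ M := by
        have : B ≤ M := by omega
        exact_mod_cast this
      have h9 : e * ((M : ℝ) + B) ≤ 1 * (M + B) := mul_le_mul_of_nonneg_right he1 (by positivity)
      have h10 : (M : ℝ) ≤ 4 * Q := by exact_mod_cast hQ
      push_cast at h5 h7 ⊢
      nlinarith
    have h4 : Λ * w + Λ * (M / k1) + D * x + (Λ * C + C) ≤ Q := by exact_mod_cast h3
    omega
  · -- afterD
    intro m R' q q' qt hm hR hq' hqt hq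
    have hSM := hbigN m hm
    have h1 := hsmall m q' hq'
    have h2 : q + A * (qt + (Λ * q' + C)) + C ≤ q + D * q' + (A * C + C) := by
      have h3 : A * (qt + (Λ * q' + C)) ≤ A * (q' + (Λ * q' + C)) := Nat.mul_le_mul_left _ (by omega)
      have h4 : A * (q' + (Λ * q' + C)) = A * (1 + Λ) * q' + A * C := by ring
      have h5 : A * (1 + Λ) * q' ≤ D * q' := Nat.mul_le_mul_right _ (by omega)
      omega
    have h3 : ((q + A * (qt + (Λ * q' + C)) + C : ℕ) : ℝ) ≤ q + D * q' + (A * C + C : ℕ) := by exact_mod_cast h2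
    have h4 : ((8 * (A * C + C + Bq) : ℕ) : ℝ) ≤ e * m := by
      refine le_trans ?_ (hbig m hm)
      have : 8 * (A * C + C + Bq) ≤ S := by omega
      exact_mod_cast this
    have hB : (B : ℝ) ≤ m := by
      have : B ≤ m := by omega
      exact_mod_cast this
    have h5 := mul_le_mul_of_nonneg_left hB he0.le
    have h6 : (R' : ℝ) ≤ 2 * m := by exact_mod_cast hR
    have h7 := mul_le_mul_of_nonneg_left h6 he0.le
    push_cast at h4 h3 ⊢
    nlinarith [(Nat.cast_nonneg Bq : (0 : ℝ) ≤ Bq), (Nat.cast_nonneg (A * C + C) : (0 : ℝ) ≤ (A * C + C : ℕ)),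
      mul_nonneg he0.le (Nat.cast_nonneg m : (0 : ℝ) ≤ m)]
  · -- steep
    intro R' q q' qt hq' hqt hq
    have h1 := hsmall R' q' hq'
    have h2 : A * (qt + (Λ * q' + C)) + C ≤ D * q' + (A * C + C) := by
      have h3 : A * (qt + (Λ * q' + C)) ≤ A * (q' + (Λ * q' + C)) := Nat.mul_le_mul_left _ (by omega)
      have h4 : A * (q' + (Λ * q' + C)) = A * (1 + Λ) * q' + A * C := by ring
      have h5 : A * (1 + Λ) * q' ≤ D * q' := Nat.mul_le_mul_right _ (by omega)
      omega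
    have h3 : ((A * (qt + (Λ * q' + C)) + C : ℕ) : ℝ) ≤ D * q' + (A * C + C : ℕ) := by exact_mod_cast h2
    have h4 : (Bq : ℝ) = B + 16 * (A * C + C : ℕ) := by
      rw [hBq]
      push_cast
      ring
    have h5 : e * (B : ℝ) ≤ 1 * B := mul_le_mul_of_nonneg_right he1 (Nat.cast_nonneg _)
    have h6 : ((A * (qt + (Λ * q' + C)) + C : ℕ) : ℝ) ≤ q := by
      have h7 := mul_nonneg he0.le (Nat.cast_nonneg R' : (0 : ℝ) ≤ R')
      have h8 : (0 : ℝ) ≤ B := Nat.cast_nonneg _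
      linarith
    exact_mod_cast h6
  · -- endW
    intro R' q q' qt hR hq' hqt hq
    have h1 : q' ≤ 2 * B₂ + B := by
      have : 1 * q' ≤ K₂ * q' := Nat.mul_le_mul_right _ (by omega)
      omega
    have h2 : q ≤ 2 * B₂ + Bq := by
      have h3 : e * (R' : ℝ) ≤ 1 * R' := mul_le_mul_of_nonneg_right he1 (Nat.cast_nonneg _)
      have h4 : (16 * q : ℝ) ≤ R' + Bq := by linarith
      have h5 : 16 * q ≤ R' + Bq := by exact_mod_cast h4
      omega
    have h3 : A * (qt + (Λ * q' + C)) ≤ A * ((1 + Λ) * (2 * B₂ + B) + C) := by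
      apply Nat.mul_le_mul_left
      have h4 : Λ * q' ≤ Λ * (2 * B₂ + B) := Nat.mul_le_mul_left _ h1
      have h5 : (1 + Λ) * (2 * B₂ + B) = (2 * B₂ + B) + Λ * (2 * B₂ + B) := by ring
      omega
    omega
  · omega
  · -- sm
    intro M a x hM hMa ha
    have hSM := hbigN M hM
    have h1 : (M : ℝ) ≤ Km * a := by
      have h2 : M ≤ Km * a := by
        rcases hMa with h | h
        · exact h.trans (Nat.mul_le_mul_right _ (by omega))
        · exact h.trans (Nat.mul_le_mul_right _ (by omega))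
      exact_mod_cast h2
    have h2 := mul_le_mul_of_nonneg_left ha hKmp.le
    have h3 : ((2 * Km * B : ℕ) : ℝ) ≤ M := by
      have : 2 * Km * B ≤ M := by omega
      exact_mod_cast this
    push_cast at h3
    have h4 : (M : ℝ) ≤ 2 * Km * θ * x := by nlinarith
    have hM0 : (0 : ℝ) < M := by
      have : 0 < M := by omega
      exact_mod_cast this
    have hx0 : 0 ≤ x := by
      by_contra hx
      rw [not_le] at hx
      have h5 : 0 < 2 * Km * θ := by positivity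
      have h6 : 2 * Km * θ * x < 0 := mul_neg_of_pos_of_neg h5 hx
      linarith
    have h5 : 8 * Km * θ * x ≤ ξ * x := mul_le_mul_of_nonneg_right hθξ hx0
    linarith

end AEG
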