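import Pool.Agent.AEG.MonoC
import Pool.Agent.AEG.NumH
import Pool.Agent.AEG.MainFS
import Pool.Agent.AEG.CompF

/-!
# The fine class with critical groups: the coded statement from the rounds
-/

set_option autoImplicit false

namespace AEG

open Finset AE15 AED AEB SPD
open scoped Classical

/-- a number times a large constant -/
theorem exists_ceil_mul {s : ℝ} (hs : 0 < s) (x : ℝ) : ∃ n : ℕ, ∀ m : ℕ, n ≤ m → x ≤ s * m := by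
  obtain ⟨n, hn⟩ := exists_nat_ge (x / s)
  rw [div_le_iff₀ hs] at hn
  refine ⟨n, fun m hm => ?_⟩
  have h1 : (n : ℝ) ≤ m := by exact_mod_cast hm
  have h2 := mul_le_mul_of_nonneg_left h1 hs.le
  linarith

/-- **The driver of the fine class with critical groups** -/
theorem driverC {b l K₀ M₉ K₁ Λ A A' a₀ k₀ : ℕ} {κ η s δ : ℝ} (hs : 0 < s) (hδ : 0 < δ) (hη : 0 < η) (hΛ : 16 ≤ Λ)
    (hA' : A * (1 + Λ) ≤ A') (hL : RoundL b l K₀ κ η s δ M₉ K₁) (hN : CloseN b l K₀ κ η s Λ A')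
    (hD : CloseD b l K₀ κ η s Λ A') (hE : CloseE b l K₀ κ η s Λ A') (hX : ExitR b l K₀ κ η s η Λ A)
    (hP : CritPack b l K₀ κ η s Λ A a₀ k₀) (hS : StartF κ η s) :
    ∃ θ : ℝ, 0 < θ ∧ ∀ B : ℕ, ∃ C : ℕ, CodF b l K₀ 0 8 B θ C := by
  obtain ⟨Kx, hKx⟩ := exists_ceil_mul hs (Λ : ℝ)
  obtain ⟨e, k1, k2, K₃, Kh, K₂, he0, hKx', hnum⟩ := exists_numH hδ M₉ Λ A' (Kx + 1) hΛ
  have hK₂s : (Λ : ℝ) ≤ s * K₂ := hKx K₂ (by omega)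
  obtain ⟨Λ₂, hΛ₂⟩ : ∃ Λ₂, Λ₂ = Λ * (1 + (A + 2) * Λ) := ⟨_, rfl⟩
  obtain ⟨Λ₃, hΛ₃⟩ : ∃ Λ₃, Λ₃ = 4 * K₂ * Λ₂ + 2 * Λ₂ + 2 := ⟨_, rfl⟩
  obtain ⟨nn, hnn1, hpow⟩ := exists_pow_crit (Kf := 4 * K₂) (by omega) (2 * Λ₃ + 2) a₀ k₀
  obtain ⟨Nn, hNn⟩ : ∃ Nn, Nn = 8 * nn + 16 := ⟨_, rfl⟩
  rw [← hNn] at hpow
  obtain ⟨p, hp⟩ : ∃ p, p = a₀ * Nn ^ k₀ := ⟨_, rfl⟩
  rw [← hp] at hpow
  obtain ⟨g, hg⟩ : ∃ g, g = 2 * (2 * K₀ + 4) ^ (Nn + 8) := ⟨_, rfl⟩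
  have hg1 : 1 ≤ g := by
    rw [hg]
    have : 0 < (2 * K₀ + 4) ^ (Nn + 8) := by positivity
    omega
  have hgr : (0 : ℝ) < g := by exact_mod_cast hg1
  obtain ⟨ζ, hζ⟩ : ∃ ζ : ℝ, ζ = 1 / (2 * g) := ⟨_, rfl⟩
  have hζ0 : 0 < ζ := by rw [hζ]; positivity
  have hζ1 : ζ * (2 * g) = 1 := by rw [hζ, one_div, inv_mul_cancel₀ (by positivity)]
  have hζ2 : ζ * (2 * (2 * K₀ + 4) ^ (Nn + 3) : ℕ) ≤ 1 := by
    have h1 : (2 * (2 * K₀ + 4) ^ (Nn + 3) : ℕ) ≤ 2 * g := by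
      rw [hg]
      have h2 : (2 * K₀ + 4) ^ (Nn + 3) ≤ (2 * K₀ + 4) ^ (Nn + 8) := Nat.pow_le_pow_right (by omega) (by omega)
      omega
    have h2 : ((2 * (2 * K₀ + 4) ^ (Nn + 3) : ℕ) : ℝ) ≤ 2 * g := by exact_mod_cast h1
    have h3 := mul_le_mul_of_nonneg_left h2 hζ0.le
    linarith
  obtain ⟨κw, sw, hκw, hsw, fP, KP, C₀, C₂, hP⟩ := hP Nn ζ η (by omega) hζ0 hη
  obtain ⟨KX, hX⟩ := exitR_iff.1 hX κw sw hκw hsw
  obtain ⟨fN, KN, hN⟩ := closeN_iff.1 hN Nn ζ hζ0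
  obtain ⟨fD, KD, hD⟩ := closeD_iff.1 hD Nn ζ hζ0
  obtain ⟨fE, KE, hE⟩ := closeE_iff.1 hE Nn ζ hζ0
  obtain ⟨f, hf⟩ : ∃ f, f = fN + fD + fE + fP := ⟨_, rfl⟩
  obtain ⟨K, hK⟩ : ∃ K, K = K₁ + KN + KD + KE + KX := ⟨_, rfl⟩
  obtain ⟨CL, hL⟩ := roundL_iff.1 hL f K
  obtain ⟨ξN, CN, hξN, hN⟩ := hN f K (by omega)
  obtain ⟨ξD, CD, hξD, hD⟩ := hD f K (by omega)
  obtain ⟨ξE, CE, hξE, hE⟩ := hE f K (by omega)
  obtain ⟨CS, ξc, Cc, hξc, hEB, hCB, hFB⟩ := hP f K (by omega)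
  rw [← hp] at hEB hCB
  obtain ⟨δx, Cx, hδx, hX⟩ := hX f KP
  obtain ⟨c₅, hc₅⟩ : ∃ c₅, c₅ = Cc + Cx := ⟨_, rfl⟩
  obtain ⟨c₇, hc₇⟩ : ∃ c₇, c₇ = C₀ + Λ * Cc + Cc := ⟨_, rfl⟩
  obtain ⟨c₆, hc₆⟩ : ∃ c₆, c₆ = c₇ + 3 * Cc + Cx := ⟨_, rfl⟩
  obtain ⟨c₂, hc₂⟩ : ∃ c₂, c₂ = Λ * ((A + 2) * c₅ + c₆ + c₇) + Cc := ⟨_, rfl⟩
  obtain ⟨c₄, hc₄⟩ : ∃ c₄, c₄ = 4 * K₂ * (c₂ + 2 * Cc + 1) + c₂ + c₇ + 2 * Cc + C₀ := ⟨_, rfl⟩
  obtain ⟨C, hC⟩ : ∃ C, C = CL + CN + CD + CE + Cc + (A * c₅ + c₆ + Cx) + 8 * ((p + 1) * c₄) := ⟨_, rfl⟩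
  obtain ⟨ξ', hξ'⟩ : ∃ ξ' : ℝ, ξ' = min (1 / 2) (min (ξc / (4 * (1 + (A + 2) * Λ))) (min (ξc / (8 * g))
    (δx / (2 * (A * Λ + 1 + 2 * Λ) * g)))) := ⟨_, rfl⟩
  have hξ'0 : 0 < ξ' := by
    rw [hξ']
    exact lt_min (by norm_num) (lt_min (by positivity) (lt_min (by positivity) (by positivity)))
  have hξ'1 : ξ' ≤ 1 / 2 := by rw [hξ']; exact min_le_left _ _
  have hξ'2 : ξ' ≤ ξc / (4 * (1 + (A + 2) * Λ)) := by rw [hξ']; exact (min_le_right _ _).trans (min_le_left _ _)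
  have hξ'3 : ξ' ≤ ξc / (8 * g) := by
    rw [hξ']; exact (min_le_right _ _).trans ((min_le_right _ _).trans (min_le_left _ _))
  have hξ'4 : ξ' ≤ δx / (2 * (A * Λ + 1 + 2 * Λ) * g) := by
    rw [hξ']; exact (min_le_right _ _).trans ((min_le_right _ _).trans (min_le_right _ _))
  rw [le_div_iff₀ (by positivity)] at hξ'2 hξ'3 hξ'4
  obtain ⟨ξ, hξ⟩ : ∃ ξ : ℝ, ξ = min ξN (min ξD (min ξE (min ξc (ξ' / g)))) := ⟨_, rfl⟩
  have hξ0 : 0 < ξ := by rw [hξ]; exact lt_min hξN (lt_min hξD (lt_min hξE (lt_min hξc (by positivity))))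
  have hξN' : ξ ≤ ξN := by rw [hξ]; exact min_le_left _ _
  have hξD' : ξ ≤ ξD := by rw [hξ]; exact (min_le_right _ _).trans (min_le_left _ _)
  have hξE' : ξ ≤ ξE := by rw [hξ]; exact (min_le_right _ _).trans ((min_le_right _ _).trans (min_le_left _ _))
  have hξc' : ξ ≤ ξc := by
    rw [hξ]
    exact (min_le_right _ _).trans ((min_le_right _ _).trans ((min_le_right _ _).trans (min_le_left _ _)))
  have hξg : ξ ≤ ξ' / g := by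
    rw [hξ]
    exact (min_le_right _ _).trans ((min_le_right _ _).trans ((min_le_right _ _).trans (min_le_right _ _)))
  rw [le_div_iff₀ hgr] at hξg
  have hL' : RoundLC b l K₀ κ η s δ M₉ K f K C := hL.mono (by omega) (by omega)
  have hN' : CloseNC b l K₀ κ η s Λ A' Nn ζ K f K ξ C := hN.mono (by omega) (by omega) hξN'
  have hD' : CloseDC b l K₀ κ η s Λ A' Nn ζ K f K ξ C := hD.mono (by omega) (by omega) hξD'
  have hE' : CloseEC b l K₀ κ η s Λ A' Nn ζ K f K ξ C := hE.mono (by omega) (by omega) hξE'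
  obtain ⟨θ, hθ0, hnum⟩ := hnum Nn ξ hξ0
  refine ⟨θ, hθ0, ?_⟩
  intro B
  obtain ⟨Bq, B₂, W₀, hnum⟩ := hnum B C
  obtain ⟨W, hW⟩ : ∃ W, W = W₀ + 8 * B₂ + (A' * (17 * B₂ + C) + C) := ⟨_, rfl⟩
  have num := hnum W (by omega)
  obtain ⟨sigE, hsigE⟩ : ∃ sigE, sigE = 16 * (2 * B₂) + M₉ * (16 * (2 * B₂) + C) + C := ⟨_, rfl⟩
  obtain ⟨CEnd, hEnd⟩ := endF hs hδ le_rfl hL' (2 * B₂) sigE hsigE.ge W 0 8 B (by omega)
  obtain ⟨n₀, hS⟩ := hS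
  obtain ⟨n₁, hn₁⟩ : ∃ n₁, n₁ = Nn + 20 := ⟨_, rfl⟩
  obtain ⟨n₂, hn₂⟩ : ∃ n₂, n₂ = Nn + n₁ + 12 := ⟨_, rfl⟩
  obtain ⟨b1, hb1⟩ := exists_ceil_mul hs (4 * (((2 * K₀ + 4) ^ n₂ * (2 * B + 2) : ℕ) : ℝ))
  obtain ⟨b2, hb2⟩ := exists_ceil_mul hsw (4 * (((2 * K₀ + 4) ^ n₁ * (2 * B + 2) : ℕ) : ℝ))
  obtain ⟨b3, hb3⟩ := exists_ceil_mul hξc (4 * (((A + 2) * c₅ + c₆ : ℕ) : ℝ))
  obtain ⟨b4, hb4⟩ := exists_ceil_mul hξc (8 * ((c₇ + C₂ : ℕ) : ℝ))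
  obtain ⟨b5, hb5⟩ := exists_ceil_mul hδx (2 * ((A * c₅ + c₆ + C + 17 * B₂ : ℕ) : ℝ))
  obtain ⟨b6, hb6⟩ := exists_ceil_mul hξ'0 (2 * ((2 * B₂ + C₀ + C₂ : ℕ) : ℝ))
  obtain ⟨b7, hb7⟩ := exists_ceil_mul hs (2 * (C : ℝ))
  obtain ⟨Cb, hCb⟩ : ∃ Cb, Cb = C + (2 * B + 2) + CEnd + n₀ + b1 + b2 + b3 + b4 + b5 + b6 + b7 + 2 * (c₇ + C₂) +
    (Cc + Cx) := ⟨_, rfl⟩
  have hC₅B : C ≤ B₂ := by
    have h1 := (num.run B₂ 0 le_rfl (by omega)).1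
    have h2 : B₂ / k2 ≤ B₂ := Nat.div_le_self _ _
    omega
  have nc : NumC ξ ξ' ξc δx ζ Λ A p Λ₂ Λ₃ c₂ c₄ c₅ c₆ c₇ Cc C₀ C₂ Cx K₂ g C B₂ Cb := by
    constructor
    · omega
    · exact hΛ₂.ge
    · exact hc₂.ge
    · exact hc₅
    · exact hc₇
    · exact hc₆
    · exact hΛ₃.ge
    · exact hc₄.ge
    · omega
    · exact hξ'0.le
    · linarith
    · exact hg1
    · exact hζ1.le
    · exact hζ0.le
    · linarith [(by ring : 4 * (1 + (A + 2) * Λ) * ξ' = ξ' * (4 * (1 + (A + 2) * (Λ : ℝ))))]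
    · exact hb3 Cb (by omega)
    · linarith [(by ring : 8 * g * ξ' = ξ' * (8 * (g : ℝ)))]
    · exact hb4 Cb (by omega)
    · have h1 : 2 * (c₇ + C₂) ≤ Cb := by omega
      exact_mod_cast h1
    · linarith [(by ring : 2 * (A * Λ + 1 + 2 * Λ) * g * ξ' = ξ' * (2 * (A * Λ + 1 + 2 * (Λ : ℝ)) * g))]
    · exact hb5 Cb (by omega)
    · exact hξg
    · exact hb6 Cb (by omega)
  refine ⟨Cb + 8, ?_⟩
  intro V R hT L hne hcl X hXc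
  have hcl' : ClsF b l K₀ 0 8 B θ (List.replicate 8 bare ++ L) := by
    have h1 := hcl.bare hθ0.le
    exact ⟨h1.br, h1.noD, h1.last, h1.inn, fun i hi => ⟨i, le_rfl, le_rfl, by simp⟩⟩
  have hsz := szS_bare 8 L
  obtain ⟨L₁, hL₁⟩ : ∃ L₁, L₁ = List.replicate 8 bare ++ L := ⟨_, rfl⟩
  rw [← hL₁] at hcl' hsz
  have hne₁ : L₁ ≠ [] := by rw [hL₁]; simp [List.replicate]
  have hCbX : Cb ≤ X.card := by omega
  -- the initial state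
  obtain ⟨x, hx⟩ : ∃ x, x = inS L₁ / (4 * K₂) := ⟨_, rfl⟩
  have hst : ∀ sig : ℕ, StE R X ∅ (fun _ => True) κ η s (Λ * x + C) sig f 0 K 0 := by
    intro sig
    refine ⟨empty_subset _, ?_, ?_, ?_⟩
    · apply hS hT X (Λ * x + C) (by omega)
      have h1 := hb7 X.card (by omega)
      have h2 : x * (4 * K₂) ≤ X.card := by
        rw [hx]
        exact (Nat.div_mul_le_self _ _).trans ((inS_le_szS L₁).trans (by omega))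
      have h3 : ((x * (4 * K₂) : ℕ) : ℝ) ≤ X.card := by exact_mod_cast h2
      have h4 : (x : ℝ) * Λ ≤ x * (s * K₂) := mul_le_mul_of_nonneg_left hK₂s (Nat.cast_nonneg _)
      have h5 := mul_le_mul_of_nonneg_left h3 hs.le
      push_cast at h5 ⊢
      linarith [(by ring : s * ((x : ℝ) * (4 * K₂)) = 4 * (x * (s * K₂))),
        mul_nonneg (Nat.cast_nonneg (α := ℝ) x) (mul_nonneg hs.le (Nat.cast_nonneg (α := ℝ) K₂))]
    · intro j hj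
      simp
    · intro u hu
      exact absurd hu (by simp)
  have hEnd' : ∀ {L : List (Fd × Fd)}, L ≠ [] → ClsF b l K₀ 0 8 B θ L → ∀ {X : Finset V} {N : V → Prop} {lam w : ℕ},
      StE R X ∅ N κ η s lam sigE f w K 0 → w ≤ W → inS L ≤ 2 * B₂ → 16 * inS (L.take 3) + C ≤ lam →
      szS L + Cb ≤ X.card → InS R L N X := by
    intro L hne hcl X N lam w h1 h2 h3 h4 h5
    exact hEnd hT num.θ2 L.length rfl hne hcl h1 h2 h3 h4 (by omega)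
  have htake : inS (L₁.take 8) = 0 := by rw [hL₁]; exact inS_bare8 L
  have key : InS R L₁ (fun _ => True) X := by
    by_cases hB : B₂ ≤ inS L₁
    · refine driver_indC (D := 2 * Λ₃ + 2) (p := p) (nn := nn) (n₂ := n₂) hs num hζ0 hζ2 hL' hN' hD' hE' (C₀ := Cb)
        (by omega) (hb1 Cb (by omega)) hT (sigE := sigE) (by omega) hEnd' (by omega) (by omega) hpow ?_ L₁.length rfl hne₁
        hcl' (M := inS L₁) (w := 0) (lam := Λ * x + C) (k := 0) (r := 8)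
        ⟨hst _, by omega, le_rfl, by omega, hB, ?_, ⟨le_rfl, ?_, fun i hi => by omega⟩, Or.inl ⟨rfl, by omega, ?_⟩⟩
      · -- the critical groups
        intro n hn hih L hLn hcl X N M w lam r hpos hr3 hcr
        obtain ⟨P, X', ys, y, gr, w', c, hC, hback⟩ := enter_step nc num hEB hg hNn.ge hnn1 (by omega) (by omega) hξ0.le
          hξc' (by omega) le_rfl hT hpos hr3 hcl (by omega) hcr
        apply hback
        have hr8 := hpos.pos.r8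
        have hl' : (L.drop (r + 8 * nn)).length = L.length - (r + 8 * nn) := List.length_drop ..
        exact crit_ind nc num hA' (by omega) (by omega) (by omega) hCB hFB hX hg hNn.ge hn₁.ge hpow (by omega)
          (hb2 Cb (by omega)) hsw (by omega) le_rfl hT hEnd' hih _ (by omega) (by omega) rfl (hcl.drop _) hC
      · apply JF.start he0.le (Nat.cast_nonneg _)
        push_cast
        positivity
      · rw [List.drop_zero, htake]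
        omega
      · rw [htake, ← hx, Nat.zero_add]
    · refine hEnd' hne₁ hcl' (hst _) (Nat.zero_le _) (by omega) ?_ (by omega)
      have h1 : inS (L₁.take 3) ≤ inS (L₁.take 8) := inS_take_mono _ (by omega)
      omega
  rw [hL₁] at key
  obtain ⟨y, hy, -, S, hS', hyS, hE''⟩ := key.of_append_left hne
  exact ⟨y, hy, S, hS', hyS, hE''⟩

end AEG
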