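import Pool.Agent.AEG.MainC
import Pool.Agent.AEG.AllF
import Pool.Agent.AEG.FinalG

/-!
# The fine class with critical groups: the final theorem from the critical groups
-/

set_option autoImplicit false

namespace AEG

open Finset AE15 AED AEB
open scoped Classical

/-- the coded statement without the condition on the growth of the in-branches -/
theorem codC_of {b l K₀ : ℕ} (hb : 1 ≤ b)
    (hCP : ∃ D₁ Λ A a₀ k₀ : ℕ, ∀ D₀, D₁ ≤ D₀ → ∀ {ω c η η₁ κ₀ κ₁ κ γ₀ τ s σ₂ μ : ℝ},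
      KB D₀ ω c η η₁ κ₀ κ₁ κ γ₀ τ s σ₂ μ → CritPack b l K₀ κ η s Λ A a₀ k₀) :
    ∃ θ : ℝ, 0 < θ ∧ ∀ B : ℕ, ∃ C : ℕ, CodF b l K₀ 0 8 B θ C := by
  obtain ⟨p, hp, hpb, hpl, hab, -⟩ := exists_np b l 0 hb
  subst hpb hpl
  obtain ⟨ηN, ΛN, AN, hηN, hGN⟩ := groupN p.b p.l K₀ hb
  obtain ⟨ηD, ΛD, AD, hηD, hGD⟩ := groupD p.b p.l K₀ hb
  obtain ⟨ηE, hηE, hGE⟩ := groupE p.b p.l K₀ hb 1
  obtain ⟨DN, hDN⟩ := exists_D_eta hηN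
  obtain ⟨DD, hDD⟩ := exists_D_eta hηD
  obtain ⟨DE, hDE⟩ := exists_D_eta hηE
  obtain ⟨DC, ΛC, AC, a₀, k₀, hCP⟩ := hCP
  obtain ⟨D₀, hD₀⟩ : ∃ D₀, D₀ = 64 + p.A + 2 * (K₀ ^ 2 + 2 * K₀) + (K₀ + 1) ^ 3 + DN + DD + DE + DC := ⟨_, rfl⟩
  obtain ⟨ω, c, η, η₁, κ₀, κ₁, κ, γ₀, τ, s, σ₂, μ, P⟩ := exists_KB (D := D₀) (by omega)
  obtain ⟨-, -, -, -, hη0, -, -, -, -, -, -, hκ, -, hs0, -⟩ := P.num
  obtain ⟨δ₀, M₉, K₁, hδ₀, hL⟩ := roundL p hp hab K₀ (D₀ := D₀) (by omega) (by omega) P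
  have hX := exitR p hp hab K₀ (D₀ := D₀) (by omega) (by omega) P (ηw := η) le_rfl
  have hGN := hGN κ η s hκ (hDN D₀ (by omega) P)
  have hGD := hGD κ s η hκ hs0 (hDD D₀ (by omega) P)
  have hGE := hGE κ η s hκ (hDE D₀ (by omega) P)
  have hCP := hCP D₀ (by omega) P
  obtain ⟨ΛE, hΛE⟩ : ∃ ΛE, ΛE = 64 * 1 + 1000 := ⟨_, rfl⟩
  rw [← hΛE] at hGE
  obtain ⟨Λ', hΛ'⟩ : ∃ Λ', Λ' = 16 + (ΛN * 5 + AN * 4 + 1) + (ΛD * 5 + AD * 4 + 1) + (ΛE * 5 + 48 * 4 + 1) + ΛC :=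
    ⟨_, rfl⟩
  obtain ⟨A₁, hA₁⟩ : ∃ A₁, A₁ = 10 + AC := ⟨_, rfl⟩
  obtain ⟨A', hA'⟩ : ∃ A', A' = (AN * 4 + 10) + (AD * 4 + 10) + (48 * 4 + 10 + 4) + A₁ * (1 + Λ') := ⟨_, rfl⟩
  exact driverC hs0 hδ₀ hη0 (Λ := Λ') (A := A₁) (A' := A') (by omega) (by omega) (hL δ₀ le_rfl)
    (closeN_of hη0 hGN hX (by omega) (by omega)) (closeD_of hη0 hGD hX (by omega) (by omega))
    (closeE_of hη0 le_rfl hGE hX (by omega) (by omega)) (hX.mono (by omega) (by omega))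
    (hCP.mono (by omega) (by omega)) (startF P)

/-- the same, from the critical groups for all small tolerances -/
theorem codC_of' {b l K₀ : ℕ} (hb : 1 ≤ b)
    (hCP : ∃ (η' : ℝ) (Λ A a₀ k₀ : ℕ), 0 < η' ∧ ∀ κ η s : ℝ, 0 < κ → 0 < s → η ≤ η' →
      CritPack b l K₀ κ η s Λ A a₀ k₀) :
    ∃ θ : ℝ, 0 < θ ∧ ∀ B : ℕ, ∃ C : ℕ, CodF b l K₀ 0 8 B θ C := by
  obtain ⟨η', Λ, A, a₀, k₀, hη', h⟩ := hCP
  obtain ⟨D₁, hD₁⟩ := exists_D_eta hη'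
  refine codC_of hb ⟨D₁, Λ, A, a₀, k₀, ?_⟩
  intro D₀ hD₀ ω c η η₁ κ₀ κ₁ κ γ₀ τ s σ₂ μ P
  obtain ⟨-, -, -, -, -, -, -, -, -, -, -, hκ, -, hs0, -⟩ := P.num
  exact h κ η s hκ hs0 (hD₁ D₀ hD₀ P)

/-- the graph form -/
theorem mainC_of (hCP : ∀ b l K₀ : ℕ, 1 ≤ b → ∃ (η' : ℝ) (Λ A a₀ k₀ : ℕ), 0 < η' ∧ ∀ κ η s : ℝ, 0 < κ → 0 < s →
      η ≤ η' → CritPack b l K₀ κ η s Λ A a₀ k₀) (Δ l K₀ : ℕ) :
    ∃ θ : ℝ, 0 < θ ∧ ∀ B : ℕ, ∃ C : ℕ, ∀ k n : ℕ, k + C ≤ n →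
    ∀ R : Fin n → Fin n → Prop, (∀ a, ¬ R a a) → (∀ a b, a ≠ b → R a b ∨ R b a) → (∀ a b, R a b → ¬ R b a) →
    ∀ E : Fin (k + 1) → Fin (k + 1) → Prop,
      (∀ a b, E a b → ¬ E b a) →
      (SimpleGraph.fromRel E).IsTree →
      (∀ v, ((SimpleGraph.fromRel E).neighborSet v).ncard ≤ Δ) →
      (∃ (m : ℕ) (p : ℕ → Fin (k + 1)) (a d s : ℕ → ℕ), (∀ i < m, E (p i) (p (i + 1))) ∧
        (∀ i ≤ m, ∀ u, E (p i) u → (∀ j ≤ m, u ≠ p j) → ∀ q : ℕ → Fin (k + 1), ¬ ∀ j ≤ l, E (q j) (q (j + 1)) ∧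
          (SimpleGraph.fromRel E).dist (p i) (q (j + 1)) < (SimpleGraph.fromRel E).dist (p i) (q j) ∧
          (SimpleGraph.fromRel E).dist u (q j) < (SimpleGraph.fromRel E).dist (p i) (q j)) ∧
        (∀ i ≤ m, ∀ u, E u (p i) → (∀ j ≤ m, u ≠ p j) → ∀ q : ℕ → Fin (k + 1), ¬ ∀ j ≤ l, E (q (j + 1)) (q j) ∧
          (SimpleGraph.fromRel E).dist (p i) (q (j + 1)) < (SimpleGraph.fromRel E).dist (p i) (q j) ∧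
          (SimpleGraph.fromRel E).dist u (q j) < (SimpleGraph.fromRel E).dist (p i) (q j)) ∧
        (∀ i ≤ m, a i = {x | ∃ u, E u (p i) ∧ (∀ j ≤ m, u ≠ p j) ∧
          (SimpleGraph.fromRel E).dist (p i) x = (SimpleGraph.fromRel E).dist u x + 1}.ncard) ∧
        (∀ i ≤ m, d i = {x | ∃ u, E (p i) u ∧ (∀ j ≤ m, u ≠ p j) ∧
          (SimpleGraph.fromRel E).dist (p i) x = (SimpleGraph.fromRel E).dist u x + 1}.ncard) ∧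
        (∀ i ≤ m, s i = {x | (SimpleGraph.fromRel E).dist (p 0) x =
          (SimpleGraph.fromRel E).dist (p 0) (p i) + (SimpleGraph.fromRel E).dist (p i) x}.ncard) ∧
        (∀ i < m, d i ≤ K₀ * s (i + 1)) ∧ a m + d m ≤ B ∧ (∀ i ≤ m, (a i : ℝ) ≤ θ * s i + B)) →
      ∃ f : Fin (k + 1) → Fin n, Function.Injective f ∧ ∀ a b, E a b → R (f a) (f b) := by
  obtain ⟨θ, hθ, h⟩ := codC_of' (b := Δ + 1) (l := l) (K₀ := K₀) (by omega) (hCP (Δ + 1) l K₀ (by omega))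
  refine ⟨θ, hθ, fun B => ?_⟩
  obtain ⟨C, hC⟩ := h B
  exact ⟨C + 1, fun k n hk => final_of_CodG Δ l K₀ B θ C hC k n (by omega)⟩

end AEG
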