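import Pool.Agent.AEG.MainFS

/-!
# The fine class: the final theorem from the three heavy stages
-/

set_option autoImplicit false

namespace AEG

open Finset AE15 AED AEB
open scoped Classical

/-- the coded statement from the three heavy stages, for all small tolerances -/
theorem codF_of' {b l K₀ : ℕ} (hb : 1 ≤ b)
    (hN : ∃ (η' : ℝ) (Λ A : ℕ), 0 < η' ∧ ∀ κ η s, 0 < κ → η ≤ η' → GroupN b l K₀ κ η s Λ A)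
    (hD : ∃ (η' : ℝ) (Λ A : ℕ), 0 < η' ∧ ∀ κ s η : ℝ, 0 < κ → 0 < s → η ≤ η' → GroupD b l K₀ κ η s Λ A)
    (hE : ∃ (η' : ℝ) (Λ Λ₁ A : ℕ), 0 < η' ∧ 1 ≤ Λ₁ ∧ ∀ κ η s, 0 < κ → η ≤ η' → GroupE b l K₀ κ η s Λ Λ₁ A) :
    ∃ K₂ : ℕ, ∀ N₁ B : ℕ, ∃ (θ : ℝ) (C : ℕ), 0 < θ ∧ CodF b l K₀ K₂ N₁ B θ C := by
  obtain ⟨ηN, ΛN, AN, hηN, hN⟩ := hN
  obtain ⟨ηD, ΛD, AD, hηD, hD⟩ := hD
  obtain ⟨ηE, ΛE, Λ₁, AE, hηE, hΛ₁, hE⟩ := hE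
  obtain ⟨DN, hDN⟩ := exists_D_eta hηN
  obtain ⟨DD, hDD⟩ := exists_D_eta hηD
  obtain ⟨DE, hDE⟩ := exists_D_eta hηE
  refine codF_of hb ⟨DN, ΛN, AN, ?_⟩ ⟨DD, ΛD, AD, ?_⟩ ⟨DE, ΛE, Λ₁, AE, hΛ₁, ?_⟩
  · intro D₀ h ω c η η₁ κ₀ κ₁ κ γ₀ τ s σ₂ μ P
    obtain ⟨-, -, -, -, -, -, -, -, -, -, -, hκ, -⟩ := P.num
    exact hN κ η s hκ (hDN D₀ h P)
  · intro D₀ h ω c η η₁ κ₀ κ₁ κ γ₀ τ s σ₂ μ P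
    obtain ⟨-, -, -, -, -, -, -, -, -, -, -, hκ, -, hs, -⟩ := P.num
    exact hD κ s η hκ hs (hDD D₀ h P)
  · intro D₀ h ω c η η₁ κ₀ κ₁ κ γ₀ τ s σ₂ μ P
    obtain ⟨-, -, -, -, -, -, -, -, -, -, -, hκ, -⟩ := P.num
    exact hE κ η s hκ (hDE D₀ h P)

end AEG
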