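import Pool.Agent.AEG.Short
import Pool.Agent.AEG.FinSm
import Pool.Agent.AEG.FinL

/-!
# Trees along a short directed path: the final theorem
-/

set_option autoImplicit false

namespace AEG

open Finset Relation AE15 AED AEB
open scoped Classical

/-- the coded statement for short paths -/
theorem exists_cod0 (b l N : ℕ) (hb : 1 ≤ b) (hN : 1 ≤ N) : ∃ C : ℕ, Cod0 b l N C := by
  refine cod0 (fun _ hκ => fin_small b l N hb hN hκ) (fun κ hκ => ?_)
  obtain ⟨δ, C, hδ, h⟩ := fin_lin b l N hb hN hκ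
  refine ⟨C, ?_⟩
  intro V R hT L X hL hLN hB hX hin hout
  have h1 := h hT L [] X hL hLN hB (by rw [List.append_nil]; exact hX) hin hout (by
    have : (0 : ℝ) ≤ δ * X.card := by positivity
    simpa [szS] using this)
  rwa [List.append_nil] at h1

theorem mainM0 : ∀ Δ l N : ℕ, ∃ C : ℕ, ∀ k n : ℕ, k + C ≤ n → ∀ R : Fin n → Fin n → Prop,
    (∀ a, ¬ R a a) → (∀ a b, a ≠ b → R a b ∨ R b a) → (∀ a b, R a b → ¬ R b a) →
    ∀ E : Fin (k + 1) → Fin (k + 1) → Prop,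
      (∀ a b, E a b → ¬ E b a) →
      (SimpleGraph.fromRel E).IsTree →
      (∀ v, ((SimpleGraph.fromRel E).neighborSet v).ncard ≤ Δ) →
      (∃ (m : ℕ) (p : ℕ → Fin (k + 1)), m < N ∧ (∀ i < m, E (p i) (p (i + 1))) ∧
        (∀ i ≤ m, ∀ u, E (p i) u → (∀ j ≤ m, u ≠ p j) → ∀ q : ℕ → Fin (k + 1), ¬ ∀ j ≤ l, E (q j) (q (j + 1)) ∧
          (SimpleGraph.fromRel E).dist (p i) (q (j + 1)) < (SimpleGraph.fromRel E).dist (p i) (q j) ∧
          (SimpleGraph.fromRel E).dist u (q j) < (SimpleGraph.fromRel E).dist (p i) (q j)) ∧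
        (∀ i ≤ m, ∀ u, E u (p i) → (∀ j ≤ m, u ≠ p j) → ∀ q : ℕ → Fin (k + 1), ¬ ∀ j ≤ l, E (q (j + 1)) (q j) ∧
          (SimpleGraph.fromRel E).dist (p i) (q (j + 1)) < (SimpleGraph.fromRel E).dist (p i) (q j) ∧
          (SimpleGraph.fromRel E).dist u (q j) < (SimpleGraph.fromRel E).dist (p i) (q j))) →
      ∃ f : Fin (k + 1) → Fin n, Function.Injective f ∧ ∀ a b, E a b → R (f a) (f b) := by
  intro Δ l N
  obtain ⟨C, hC⟩ := exists_cod0 (Δ + 1) l (N + 1) (by omega) (by omega)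
  refine ⟨C + 1, ?_⟩
  intro k n hn R h1 h2 h3 E h4 h5 h6 ⟨m, p, hm, h7⟩
  exact final_of_Cod0 Δ l (N + 1) C hC k n hn R h1 h2 h3 E h4 h5 h6 ⟨m, p, by omega, h7⟩

end AEG
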