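import Pool.Agent.AEG.FinalM2

/-!
# Class M2: the statement about trees from the coded statement
-/

set_option autoImplicit false

namespace AEG

theorem mainM2_of (h : ∀ b l B N : ℕ, 1 ≤ b → ∃ C : ℕ, CodII b l B N C) : ∀ Δ l B N : ℕ, ∃ C : ℕ, ∀ k n : ℕ, k + C ≤ n →
    ∀ R : Fin n → Fin n → Prop,
    (∀ a, ¬ R a a) → (∀ a b, a ≠ b → R a b ∨ R b a) → (∀ a b, R a b → ¬ R b a) →
    ∀ E : Fin (k + 1) → Fin (k + 1) → Prop,
      (∀ a b, E a b → ¬ E b a) →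
      (SimpleGraph.fromRel E).IsTree →
      (∀ v, ((SimpleGraph.fromRel E).neighborSet v).ncard ≤ Δ) →
      (∃ (m : ℕ) (p : ℕ → Fin (k + 1)), (∀ i < m, E (p i) (p (i + 1))) ∧
        (∀ i ≤ m, ∀ u, E (p i) u → (∀ j ≤ m, u ≠ p j) → ∀ q : ℕ → Fin (k + 1), ¬ ∀ j ≤ l, E (q j) (q (j + 1)) ∧
          (SimpleGraph.fromRel E).dist (p i) (q (j + 1)) < (SimpleGraph.fromRel E).dist (p i) (q j) ∧
          (SimpleGraph.fromRel E).dist u (q j) < (SimpleGraph.fromRel E).dist (p i) (q j)) ∧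
        (∀ i ≤ m, ∀ u, E u (p i) → (∀ j ≤ m, u ≠ p j) → ∀ q : ℕ → Fin (k + 1), ¬ ∀ j ≤ l, E (q (j + 1)) (q j) ∧
          (SimpleGraph.fromRel E).dist (p i) (q (j + 1)) < (SimpleGraph.fromRel E).dist (p i) (q j) ∧
          (SimpleGraph.fromRel E).dist u (q j) < (SimpleGraph.fromRel E).dist (p i) (q j)) ∧
        (∀ i ≤ m, B < {x | ∃ u, E u (p i) ∧ (∀ t ≤ m, u ≠ p t) ∧
            (SimpleGraph.fromRel E).dist (p i) x = (SimpleGraph.fromRel E).dist u x + 1}.ncard →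
          (N ≤ i → ∃ j, i ≤ j + N ∧ j + 6 ≤ i ∧ ∀ s < 6, {x | ∃ u, (E (p (j + s)) u ∨ E u (p (j + s))) ∧
            (∀ t ≤ m, u ≠ p t) ∧
            (SimpleGraph.fromRel E).dist (p (j + s)) x = (SimpleGraph.fromRel E).dist u x + 1}.ncard ≤ B) ∧
          (i + N ≤ m → ∃ j, i < j ∧ j + 6 ≤ i + 1 + N ∧ ∀ s < 6, {x | ∃ u, (E (p (j + s)) u ∨ E u (p (j + s))) ∧
            (∀ t ≤ m, u ≠ p t) ∧
            (SimpleGraph.fromRel E).dist (p (j + s)) x = (SimpleGraph.fromRel E).dist u x + 1}.ncard ≤ B))) →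
      ∃ f : Fin (k + 1) → Fin n, Function.Injective f ∧ ∀ a b, E a b → R (f a) (f b) := by
  intro Δ l B N
  obtain ⟨C, hC⟩ := h (Δ + 1) l B N (Nat.le_add_left 1 Δ)
  exact ⟨C + 1, final_of_CodII Δ l B N C hC⟩

end AEG
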