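import Pool.Agent.AEG.StartC
import Pool.Agent.AEG.DriverF

/-!
# The fine class with critical groups: monotonicity of the statements in the constants
-/

set_option autoImplicit false

namespace AEG

open Finset AE15 AED AEB SPD
open scoped Classical

theorem EnterB.monoL {CS : CSt} {b l K₀ : ℕ} {κ η s : ℝ} {Λ Λ' Λp A A' f K' Nn : ℕ} {ζ ξ : ℝ} {C C₀ C₂ : ℕ}
    (h : EnterB CS b l K₀ κ η s Λ Λp A f K' Nn ζ ξ C C₀ C₂) (hΛ : Λ ≤ Λ') (hA : A ≤ A') :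
    EnterB CS b l K₀ κ η s Λ' Λp A' f K' Nn ζ ξ C C₀ C₂ := by
  intro V R hT X N lam sig w lam' bb le xq c₁ c l₁ l₂ l₃ gr L h1 h2 h3 h4 h5 h6 h7 h8 h9 h10 h11 h12 h13 h14 h15 h16
  obtain ⟨P, X', ys, y, w', g1, g2⟩ := h hT X N lam sig w lam' bb le xq c₁ c l₁ l₂ l₃ gr L h1 h2 h3 h4 h5 h6 h7 h8 h9 h10 h11
    ((Nat.add_le_add_right (Nat.mul_le_mul_right _ hΛ) _).trans h12) h13
    ((Nat.add_le_add_right (Nat.mul_le_mul_right _ hΛ) _).trans h14) h15 h16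
  exact ⟨P, X', ys, y, w', g1.trans (Nat.add_le_add_right (Nat.mul_le_mul_right _ hA) _), g2⟩

theorem CritB.mono {CS : CSt} {b l K₀ : ℕ} {Λ Λ' Λp A A' Nn : ℕ} {ζ ξ : ℝ} {C C₀ C₂ : ℕ}
    (h : CritB CS b l K₀ Λ Λp A Nn ζ ξ C C₀ C₂) (hΛ : Λ ≤ Λ') (hA : A ≤ A') :
    CritB CS b l K₀ Λ' Λp A' Nn ζ ξ C C₀ C₂ := by
  intro V R hT P X ys y w bb le lam' bb' le' xq' c₁' c k₁ k₂ k₃ k₄ gr gr' L h1 h2 h3 h4 h5 h6 h7 h8 h9 h10 h11 h12 h13 h14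
    h15 h16 h17 h18 h19 h20 h21
  obtain ⟨P', X', ys', y', w', g1, g2⟩ := h hT P X ys y w bb le lam' bb' le' xq' c₁' c k₁ k₂ k₃ k₄ gr gr' L h1 h2 h3 h4 h5
    h6 h7 h8 h9 h10 h11 h12 h13 h14 h15 ((Nat.add_le_add_right (Nat.mul_le_mul_right _ hΛ) _).trans h16) h17 h18
    ((Nat.add_le_add_right (Nat.mul_le_mul_right _ hΛ) _).trans h19) h20 h21
  exact ⟨P', X', ys', y', w', g1.trans (Nat.add_le_add_right (Nat.mul_le_mul_right _ hA) _), g2⟩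

theorem CritPack.mono {b l K₀ : ℕ} {κ η s : ℝ} {Λ Λ' A A' a₀ k₀ : ℕ} (h : CritPack b l K₀ κ η s Λ A a₀ k₀)
    (hΛ : Λ ≤ Λ') (hA : A ≤ A') : CritPack b l K₀ κ η s Λ' A' a₀ k₀ := by
  intro Nn ζ ηw h1 h2 h3
  obtain ⟨κw, sw, g1, g2, f₀, K₁, C₀, C₂, h4⟩ := h Nn ζ ηw h1 h2 h3
  refine ⟨κw, sw, g1, g2, f₀, K₁, C₀, C₂, fun f K' hf => ?_⟩
  obtain ⟨CS, ξ, C, g3, g4, g5, g6⟩ := h4 f K' hf
  exact ⟨CS, ξ, C, g3, g4.monoL hΛ hA, g5.mono hΛ hA, g6⟩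

theorem ExitR.mono {b l K₀ : ℕ} {κ η s ηw : ℝ} {Λ Λ' A A' : ℕ} (h : ExitR b l K₀ κ η s ηw Λ A)
    (hΛ : Λ ≤ Λ') (hA : A ≤ A') : ExitR b l K₀ κ η s ηw Λ' A' := by
  intro κw sw h1 h2
  obtain ⟨K₁, h3⟩ := h κw sw h1 h2
  refine ⟨K₁, fun f K' => ?_⟩
  obtain ⟨δ, C, h4, h5⟩ := h3 f K'
  refine ⟨δ, C, h4, ?_⟩
  intro V R hT X E N lam sig w lamE lam' t₁ t₂ t₃ L g1 g2 g3 g4 g5 g6 g7 g8 g9
  obtain ⟨w', g10, g11⟩ := h5 hT X E N lam sig w lamE lam' t₁ t₂ t₃ L g1 g2 g3 g4 g5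
    ((Nat.add_le_add_right (Nat.mul_le_mul_right _ hΛ) _).trans g6) g7 g8 g9
  refine ⟨w', g10.trans ?_, g11⟩
  have := Nat.mul_le_mul_right (inS [t₁, t₂, t₃] + lam') hA
  omega

theorem exitR_iff {b l K₀ : ℕ} {κ η s ηw : ℝ} {Λ A : ℕ} : ExitR b l K₀ κ η s ηw Λ A ↔
    ∀ κw sw : ℝ, 0 < κw → 0 < sw → ∃ K₁ : ℕ, ∀ f K' : ℕ, ∃ (δ : ℝ) (C : ℕ), 0 < δ ∧
      ExitRC b l K₀ κ η s κw ηw sw Λ A K₁ f K' δ C := Iff.rfl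

end AEG
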