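import Pool.Agent.AEG.HeavyF

/-!
# The fine class: bookkeeping and numbers
-/

set_option autoImplicit false

namespace AEG

open Finset AE15 AED AEB
open scoped Classical

/-! ### Bookkeeping: `M` is the mass at the start of the period, `m` the present mass, `w` the number of the uncovered
vertices -/

/-- the invariant -/
def JF (e M m w : ℝ) : Prop := w ≤ max (e / 2 * M - (M - m)) (e / 64 * M) + e / 128 * (M - m)

theorem JF.bound {e M m w : ℝ} (h : JF e M m w) (he : 0 ≤ e) (hm : m ≤ M) (hm0 : 0 ≤ m) : w ≤ e * M := by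
  have hM : 0 ≤ M := hm0.trans hm
  have heM : 0 ≤ e * M := mul_nonneg he hM
  have hem : 0 ≤ e * m := mul_nonneg he hm0
  unfold JF at h
  have h1 : max (e / 2 * M - (M - m)) (e / 64 * M) ≤ e / 2 * M := by
    apply max_le <;> nlinarith
  nlinarith

theorem JF.start {e m w : ℝ} (he : 0 ≤ e) (hm0 : 0 ≤ m) (h : w ≤ e / 2 * m) : JF e m m w := by
  unfold JF
  have h1 : e / 2 * m - (m - m) ≤ max (e / 2 * m - (m - m)) (e / 64 * m) := le_max_left _ _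
  have heM : 0 ≤ e * m := mul_nonneg he hm0
  nlinarith

/-- a step inside a period -/
theorem JF.step {e M m w m' w' p x y : ℝ} (h : JF e M m w) (he : 0 ≤ e) (hm : m' = m - p) (hmM : m ≤ M) (hp : 0 ≤ p)
    (hw : w' ≤ max (w - p + x) y) (hx : x ≤ e / 128 * p) (hy : y ≤ e / 64 * M) : JF e M m' w' := by
  unfold JF at h ⊢
  subst hm
  have h0 : 0 ≤ e / 128 * (M - (m - p)) := mul_nonneg (by linarith) (by linarith)
  have h00 : 0 ≤ e / 128 * (M - m) := mul_nonneg (by linarith) (by linarith)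
  rcases le_max_iff.1 hw with h1 | h1
  · rcases le_total (e / 2 * M - (M - m)) (e / 64 * M) with h2 | h2
    · rw [max_eq_right h2] at h
      have h3 := le_max_right (e / 2 * M - (M - (m - p))) (e / 64 * M)
      have h4 : e / 128 * (M - (m - p)) = e / 128 * (M - m) + e / 128 * p := by ring
      linarith
    · rw [max_eq_left h2] at h
      have h3 := le_max_left (e / 2 * M - (M - (m - p))) (e / 64 * M)
      have h4 : e / 128 * (M - (m - p)) = e / 128 * (M - m) + e / 128 * p := by ring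
      linarith
  · have h3 := le_max_right (e / 2 * M - (M - (m - p))) (e / 64 * M)
    linarith

/-- the end of a period -/
theorem JF.next {e M m w σ : ℝ} (h : JF e M m w) (he : 0 ≤ e) (he1 : e ≤ 1) (hm : 2 * m ≤ M) (hm16 : M ≤ 16 * m)
    (hσ : σ ≤ e / 512 * M) : JF e m m (w + 2 * σ) := by
  have hM : 0 ≤ M := by linarith
  have hm0 : 0 ≤ m := by linarith
  have heM : 0 ≤ e * M := mul_nonneg he hM
  have heM1 : e * M ≤ M := by nlinarith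
  have hem : e * M ≤ e * (16 * m) := mul_le_mul_of_nonneg_left hm16 he
  have hem0 : 0 ≤ e * m := mul_nonneg he hm0
  apply JF.start he hm0
  unfold JF at h
  have h1 : max (e / 2 * M - (M - m)) (e / 64 * M) ≤ e / 64 * M := by
    apply max_le
    · nlinarith
    · exact le_rfl
  have h2 : e / 128 * (M - m) ≤ e / 128 * M := by nlinarith
  nlinarith

/-! ### The numbers -/

/-- the relations between the numbers used by the driver. `B₂`: smallest mass of a period, `sig = M / k1`, light capacity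
`M / k2`, `Kh`: light vertices have size at most `8 / Kh` times the mass behind the next run -/
structure NumF (δ e ξ θ : ℝ) (M₉ C Λ A Nn K₂ K₃ Kh k1 k2 B C₅ Bq B₂ W : ℕ) : Prop where
  e0 : 0 < e
  e1 : e ≤ 1
  eδ : 4 * e ≤ δ
  θ0 : 0 ≤ θ
  θ2 : θ ≤ 1 / 2
  k1a : 512 ≤ e * k1
  Λa : 16 ≤ Λ
  C₅a : C ≤ C₅
  K₂a : 3 * K₃ ≤ K₂
  Kha : 24 * K₃ ≤ Kh
  K₂b : 2 ≤ K₂
  B₂a : B ≤ B₂
  B₂b : 2 ≤ B₂
  light : ∀ M x : ℕ, B₂ ≤ M → K₃ * x ≤ M + B → 16 * x + M₉ * (M / k2) + C ≤ M / k1 ∧ 16 * x + C ≤ M / k2 ∧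
    (x : ℝ) ≤ e / 256 * M
  run : ∀ M q : ℕ, B₂ ≤ M → K₂ * q ≤ M + B → Λ * q + C₅ ≤ M / k2 ∧ Λ * q + C₅ ≤ M / k1 ∧ 16 * q ≤ M
  nN : ∀ M q q' qt : ℕ, B₂ ≤ M → K₂ * q ≤ M + B → K₂ * q' ≤ M + B → qt ≤ q' →
    Λ * (q + qt + (Λ * q' + C₅) + 1) + C ≤ M / k1
  cost : ∀ M q q' qt Q : ℕ, B₂ ≤ M → K₂ * q ≤ M + B → K₂ * q' ≤ M + B → qt ≤ q' → M ≤ Kh * Q →
    C ≤ Q ∧ ((q + qt + A * (qt + (Λ * q' + C₅)) + C : ℕ) : ℝ) ≤ e / 128 * Q
  costM : ∀ M q q' qt : ℕ, B₂ ≤ M → K₂ * q ≤ M + B → K₂ * q' ≤ M + B → qt ≤ q' →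
    ((q + A * (qt + (Λ * q' + C₅)) + C : ℕ) : ℝ) ≤ e / 64 * M
  nD : ∀ M q q' qt Q w : ℕ, B₂ ≤ M → K₂ * q ≤ M + B → K₂ * q' ≤ M + B → qt ≤ q' → M ≤ 4 * Q → (w : ℝ) ≤ e * M →
    Λ * (w + M / k1 + q + qt + (Λ * q' + C₅)) + C ≤ Q
  afterD : ∀ m R' q q' qt : ℕ, B₂ ≤ m → R' ≤ 2 * m → K₂ * q' ≤ m + B → qt ≤ q' → (16 * q : ℝ) ≤ e * R' + Bq →
    ((q + A * (qt + (Λ * q' + C₅)) + C : ℕ) : ℝ) ≤ e / 2 * m
  steep : ∀ R' q q' qt : ℕ, K₂ * q' ≤ R' + B → qt ≤ q' → e * R' + Bq < (16 * q : ℝ) →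
    A * (qt + (Λ * q' + C₅)) + C ≤ q
  endW : ∀ R' q q' qt : ℕ, R' ≤ 2 * B₂ → K₂ * q' ≤ R' + B → qt ≤ q' → (16 * q : ℝ) ≤ e * R' + Bq →
    q + A * (qt + (Λ * q' + C₅)) + C ≤ W
  W16 : 16 * B₂ ≤ W
  sm : ∀ (M a : ℕ) (x : ℝ), B₂ ≤ M → (M ≤ Kh * a ∨ M ≤ 4 * Nn * a) → (a : ℝ) ≤ θ * x + B → 4 * (M : ℝ) ≤ ξ * x

end AEG
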