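import Pool.Agent.AEG.CovX
import Pool.Agent.AEG.GCutX
import Pool.Agent.AEG.PackR
import Pool.Agent.AEG.Pred

/-!
# The side of the large first part, when the second part is small

`p1_hosts`: hosts in front of the first host of the cut.

`p1_part`: all in-forests (the largest one exactly at the first host `y` of the cut) and the out-forests of the hosts in
front of `y` are packed into the first part; a given bounded set `F₁` and then a given small set `S₀` are avoided.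
-/

set_option autoImplicit false

namespace AEG

open Finset AE15 AED AEB SPD
open scoped Classical

section hosts

variable {V : Type*} {R : V → V → Prop}

/-- hosts in front of the first host of the cut (second part small) -/
theorem p1_hosts (hT : AE32.Tour R) {X Bd Bad : Finset V} {p q N e : ℕ} {κ₀ η : ℝ} {G : Finset V} {ys : List V} {y : V}
    {P₁ P₂ U₂ Rsv Gc Ex : Finset V} (h : GCD R X Bd Bad p q N e κ₀ η G ys y P₁ P₂ U₂ Rsv Gc Ex) {Fb : Finset V} {r : ℕ}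
    (hr : ((4 * (Fb ∪ Rsv).card + 8 * r : ℕ) : ℝ) ≤ κ₀ * X.card) :
    ∃ zs : List V, zs.length = r ∧ (zs ++ ys).Nodup ∧ (zs ++ ys).IsChain R ∧
      ∀ z ∈ zs, z ∈ P₁ ∧ z ∈ G ∧ z ∉ Bad ∧ R z y ∧ z ∉ Fb ∧ z ∉ Rsv ∧ κ₀ * X.card ≤ 8 * ((nO R P₁ z).card : ℝ) := by
  obtain ⟨W, hW⟩ : ∃ W, W = P₁.filter (fun w => R w y ∧ w ∈ G ∧ w ∉ Bad) := ⟨_, rfl⟩
  have hWc : κ₀ * X.card ≤ (W.card : ℝ) := by rw [hW]; exact h.lin
  have hWP : W ⊆ P₁ := by rw [hW]; exact filter_subset _ _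
  obtain ⟨zs, h1, h2, h3, h4, h5⟩ := exists_pred hT (W := W) (F := Fb ∪ Rsv) (r := r) (y := y)
    (by
      intro w hw
      rw [hW, mem_filter] at hw
      exact hw.2.1) (by exact_mod_cast hr.trans hWc)
  refine ⟨zs, h1, ?_, ?_, ?_⟩
  · rw [List.nodup_append]
    refine ⟨h2, h.nodup, ?_⟩
    intro a ha c hc hac
    exact (h.hys c hc).2.2.1 (hac ▸ hWP (h4 a ha).1)
  · rw [List.isChain_append] at h3 ⊢
    refine ⟨h3.1, h.chain, ?_⟩
    intro a ha c hc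
    rw [h.first, Option.mem_def, Option.some.injEq] at hc
    subst hc
    exact h3.2.2 a ha y (by simp)
  · intro z hz
    obtain ⟨h6, h7⟩ := h4 z hz
    have h8 := h5 z hz
    rw [mem_union, not_or] at h7
    have h9 := h6
    rw [hW, mem_filter] at h9
    refine ⟨h9.1, h9.2.2.1, h9.2.2.2, h9.2.1, h7.1, h7.2, ?_⟩
    have h10 : (nO R (W \ (Fb ∪ Rsv ∪ zs.toFinset)) z).card ≤ (nO R P₁ z).card :=
      card_le_card (nO_mono (sdiff_subset.trans hWP))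
    have h11 : (W.card : ℝ) ≤ 8 * ((nO R P₁ z).card : ℝ) := by exact_mod_cast h8.trans (Nat.mul_le_mul_left _ h10)
    linarith

end hosts

/-- **The side of the large first part** -/
theorem p1_part (b l N K : ℕ) (hb : 1 ≤ b) (hN : 1 ≤ N) (hK : 1 ≤ K) : ∃ (c₀ : ℕ) (ηR : ℝ), 0 < ηR ∧ ηR ≤ 1 / 8 ∧
    ∀ (κ₀ η : ℝ), 0 < κ₀ → 25 * κ₀ ≤ η → 2 * η ≤ ηR → ∀ θ : ℝ, 0 < θ →
    ∃ σ κ' : ℝ, 0 < σ ∧ σ ≤ κ₀ / 64 ∧ 0 < κ' ∧ κ' ≤ κ₀ / 64 ∧ ∀ e f Nh nb : ℕ, ∃ C : ℕ,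
    ∀ {V : Type} {R : V → V → Prop}, AE32.Tour R → ∀ {X Bd Bad : Finset V} {p q : ℕ} {G : Finset V} {ys : List V} {y : V}
      {P₁ P₂ U₂ Rsv Gc Ex : Finset V}, GCD R X Bd Bad p q Nh e κ₀ η G ys y P₁ P₂ U₂ Rsv Gc Ex → Bad.card ≤ nb →
      (∀ g ∈ G, g ∉ Bad → 2 * c₀ + Nh + f ≤ (X.filter (fun v => rv R v g ∧ Good (rv R) (κ₀ ^ 2 / 4) η X v)).card) →
      (q : ℝ) ≤ κ' * X.card → C ≤ X.card → ∀ F₁ : Finset V, F₁.card ≤ f → Disjoint F₁ Rsv →
      ∃ Hr V₂ : Finset V, Hr ⊆ P₁ ∧ Rsv ⊆ Hr ∧ Disjoint Hr F₁ ∧ V₂ ⊆ P₂ ∧ Disjoint V₂ F₁ ∧ V₂.card ≤ 2 * c₀ * c₀ ∧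
        (Hr.card : ℝ) ≤ θ * X.card ∧
        ∀ S₀ : Finset V, Disjoint S₀ Hr → Disjoint S₀ V₂ → (S₀.card : ℝ) ≤ σ * X.card →
        ∀ (F : Fd) (os od : List (V × Fd)), os.length + 1 ≤ N → FOK b l 0 F → (∀ t ∈ F.trees, t.1 = true) →
          (∀ t ∈ os, FOK b l 0 t.2 ∧ (∀ r ∈ t.2.trees, r.1 = true) ∧ t.2.size ≤ K * (F.size + 1) ∧ t.1 ∈ G ∧
            (t.1 ∈ F₁ ∨ t.1 ∈ ys)) →
          (∀ t ∈ od, (∀ r ∈ t.2.trees, r.1 = true) ∧ κ₀ * X.card ≤ 8 * ((nO R P₁ t.1).card : ℝ)) →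
          (totB od : ℝ) ≤ σ * X.card → totB ((y, F) :: os) + totB od + C ≤ (P₁ \ (F₁ ∪ S₀)).card →
          ∃ SA SD : Finset V, EmbAllB (rv R) ((y, F) :: os) SA ∧ EmbAllB R od SD ∧ SD ⊆ P₁ \ (F₁ ∪ S₀ ∪ Hr) ∧
            SA ⊆ (P₁ ∪ V₂) \ (F₁ ∪ S₀) ∧ Disjoint SA SD := by
  obtain ⟨c₀, ηR, hηR, hηR1, hpack⟩ := packR b l N K hb hN hK
  refine ⟨c₀, ηR, hηR, hηR1, ?_⟩
  intro κ₀ η hκ₀ hη hηη θ hθ
  have hη1 : η ≤ 1 / 16 := by linarith
  have hκ₀1 : κ₀ ≤ 1 / 400 := by linarith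
  obtain ⟨δA, hδA, hpack⟩ := hpack (κ₀ ^ 2 / 4) (1 / 2) (κ₀ / 2) (by positivity) (by nlinarith) (by norm_num)
    (by norm_num) (by positivity)
  -- the constants
  obtain ⟨θ', hθ'⟩ : ∃ θ' : ℝ, θ' = min θ (κ₀ / 64) := ⟨_, rfl⟩
  have hθ'0 : 0 < θ' := by rw [hθ']; exact lt_min hθ (by positivity)
  have hθ'1 : θ' ≤ θ := by rw [hθ']; exact min_le_left _ _
  have hθ'2 : θ' ≤ κ₀ / 64 := by rw [hθ']; exact min_le_right _ _
  obtain ⟨σ, hσ⟩ : ∃ σ : ℝ, σ = min (min (θ' / (64 * (1 + c₀))) (δA / 16)) (κ₀ / 64) := ⟨_, rfl⟩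
  have hc₀ : (0 : ℝ) ≤ c₀ := Nat.cast_nonneg _
  have hσ0 : 0 < σ := by
    rw [hσ]
    exact lt_min (lt_min (by positivity) (by positivity)) (by positivity)
  have hσ1 : σ ≤ θ' / (64 * (1 + c₀)) := by rw [hσ]; exact (min_le_left _ _).trans (min_le_left _ _)
  have hσ2 : σ ≤ δA / 16 := by rw [hσ]; exact (min_le_left _ _).trans (min_le_right _ _)
  have hσ3 : σ ≤ κ₀ / 64 := by rw [hσ]; exact min_le_right _ _
  have hσ1' : 64 * σ * (1 + c₀) ≤ θ' := by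
    rw [le_div_iff₀ (by positivity)] at hσ1
    linarith
  refine ⟨σ, σ, hσ0, hσ3, hσ0, hσ3, fun e f Nh nb => ?_⟩
  obtain ⟨eR, heR⟩ : ∃ eR : ℕ, eR = e + (6 * f + 4 * nb + 4 * (Nh * e)) := ⟨_, rfl⟩
  obtain ⟨CR, J, hpack⟩ := hpack eR
  obtain ⟨cc, hcc⟩ : ∃ cc : ℕ, cc = (e + 1 + (6 * f + 4 * nb + 4 * (Nh * e))) * (1 + c₀) + 2 * c₀ + f + Nh + 1 :=
    ⟨_, rfl⟩
  obtain ⟨C, hC⟩ : ∃ C : ℕ, C = CR + ⌈(cc : ℝ) / σ⌉₊ := ⟨_, rfl⟩
  refine ⟨C, ?_⟩
  intro V R hT X Bd Bad p q G ys y P₁ P₂ U₂ Rsv Gc Ex h hBad hcap hq hCX F₁ hF₁ hF₁R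
  obtain ⟨n, hn⟩ : ∃ n : ℝ, n = (X.card : ℝ) := ⟨_, rfl⟩
  have hn0 : 0 ≤ n := by rw [hn]; exact Nat.cast_nonneg _
  have hccn : (cc : ℝ) ≤ σ * n := by
    have h1 : (cc : ℝ) / σ ≤ n := by
      rw [hn]
      refine (Nat.le_ceil _).trans ?_
      exact_mod_cast (by omega : ⌈(cc : ℝ) / σ⌉₊ ≤ X.card)
    rw [div_le_iff₀ hσ0] at h1
    linarith
  have hσn : 0 ≤ σ * n := mul_nonneg hσ0.le hn0
  obtain ⟨j, hj⟩ : ∃ j : ℕ, j = ⌊4 * (σ * n)⌋₊ := ⟨_, rfl⟩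
  have hj1 : (j : ℝ) ≤ 4 * (σ * n) := by rw [hj]; exact Nat.floor_le (by linarith)
  have hj2 : 4 * (σ * n) < j + 1 := by rw [hj]; exact Nat.lt_floor_add_one _
  have hcc1 : (c₀ : ℝ) * 2 + f + Nh + 1 ≤ cc := by
    rw [hcc]
    push_cast
    have : (0 : ℝ) ≤ ((e : ℝ) + 1 + (6 * f + 4 * nb + 4 * (Nh * e))) * (1 + c₀) := by positivity
    linarith
  have hκn : 64 * (σ * n) ≤ κ₀ * n := by
    have := mul_le_mul_of_nonneg_right hσ3 hn0
    linarith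
  have hf0 : (0 : ℝ) ≤ f := Nat.cast_nonneg _
  have hNh0 : (0 : ℝ) ≤ Nh := Nat.cast_nonneg _
  have hnpos : 0 < n := by
    by_contra hc
    push Not at hc
    have : n = 0 := le_antisymm hc hn0
    rw [this, mul_zero] at hccn
    linarith
  obtain ⟨Hr, V₂, a1, a2, a3, a4, a5, a6, a7, a8⟩ := h.res' hT (F₁ := F₁) (c₀ := c₀) (j := j) (f := f) hF₁ hF₁R (by
    rw [← hn]
    push_cast
    have : 0 < σ * n := mul_pos hσ0 hnpos
    linarith) hcap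
  have hHr : (Hr.card : ℝ) ≤ θ' * n := by
    have h1 : (Hr.card : ℝ) ≤ ((2 * q + e + 1 + (6 * (j + f) + 4 * Bad.card + 4 * (Nh * e))) * (1 + c₀) : ℕ) := by
      exact_mod_cast a7
    have h2 : (((2 * q + e + 1 + (6 * (j + f) + 4 * Bad.card + 4 * (Nh * e))) * (1 + c₀) : ℕ) : ℝ) ≤
        (2 * q + 6 * j) * (1 + c₀) + cc := by
      have h3 : (2 * q + e + 1 + (6 * (j + f) + 4 * Bad.card + 4 * (Nh * e))) * (1 + c₀) ≤
          (2 * q + 6 * j) * (1 + c₀) + cc := by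
        rw [hcc]
        have h4 : (2 * q + e + 1 + (6 * (j + f) + 4 * Bad.card + 4 * (Nh * e))) * (1 + c₀) ≤
            ((2 * q + 6 * j) + (e + 1 + (6 * f + 4 * nb + 4 * (Nh * e)))) * (1 + c₀) :=
          Nat.mul_le_mul_right _ (by omega)
        have h5 := Nat.add_mul (2 * q + 6 * j) (e + 1 + (6 * f + 4 * nb + 4 * (Nh * e))) (1 + c₀)
        omega
      exact_mod_cast h3
    have h3 : (2 * (q : ℝ) + 6 * j) * (1 + c₀) ≤ 26 * (σ * n) * (1 + c₀) := by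
      apply mul_le_mul_of_nonneg_right _ (by linarith)
      rw [← hn] at hq
      linarith
    have h4 : 64 * σ * (1 + c₀) * n ≤ θ' * n := mul_le_mul_of_nonneg_right hσ1' hn0
    have h5 : 0 ≤ σ * n * c₀ := mul_nonneg hσn hc₀
    nlinarith
  refine ⟨Hr, V₂, a1, a6, a2, a3, a4, a5, ?_, ?_⟩
  · rw [← hn]
    exact hHr.trans (mul_le_mul_of_nonneg_right hθ'1 hn0)
  intro S₀ hS₀H hS₀V hS₀c F os od hlen hF hFt hos hod hodc hsz
  have hyl : y ∈ ys := List.mem_of_mem_head? (by rw [h.first]; rfl)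
  have hyG : y ∈ G := (h.hys y hyl).1
  have hP₁X : P₁ ⊆ X := fun u hu => ((h.part u).1 hu).1
  have hP₂X : P₂ ⊆ X := h.hP₂.trans (h.hU₂.trans h.hGX)
  -- the out-forests of the first hosts
  obtain ⟨SD, d1, d2, d3⟩ := all_four hT (P₁ \ (F₁ ∪ S₀ ∪ Hr)) od ∅ (by
    intro t ht
    obtain ⟨h1, h2⟩ := hod t ht
    refine ⟨h1, ?_⟩
    rw [card_empty, Nat.add_zero]
    have h3 : (nO R P₁ t.1).card ≤ (nO R (P₁ \ (F₁ ∪ S₀ ∪ Hr)) t.1).card + (F₁.card + S₀.card + Hr.card) := by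
      have h4 : nO R P₁ t.1 ⊆ nO R (P₁ \ (F₁ ∪ S₀ ∪ Hr)) t.1 ∪ (F₁ ∪ S₀ ∪ Hr) := by
        intro u hu
        rw [mem_nO] at hu
        by_cases h5 : u ∈ F₁ ∪ S₀ ∪ Hr
        · exact mem_union_right _ h5
        · exact mem_union_left _ (mem_nO.2 ⟨mem_sdiff.2 ⟨hu.1, h5⟩, hu.2⟩)
      have h5 := (card_le_card h4).trans (card_union_le _ _)
      have h6 := card_union_le (F₁ ∪ S₀) Hr
      have h7 := card_union_le F₁ S₀
      omega
    have h4 : ((nO R P₁ t.1).card : ℝ) ≤ (nO R (P₁ \ (F₁ ∪ S₀ ∪ Hr)) t.1).card + (F₁.card + S₀.card + Hr.card) := by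
      exact_mod_cast h3
    rw [← hn] at h2 hS₀c hodc
    have h5 : (F₁.card : ℝ) ≤ f := by exact_mod_cast hF₁
    have h6 := mul_le_mul_of_nonneg_right hθ'2 hn0
    have h7 : (4 : ℝ) * totB od ≤ (nO R (P₁ \ (F₁ ∪ S₀ ∪ Hr)) t.1).card := by linarith
    exact_mod_cast h7)
  have hSDc : SD.card = totB od := EmbAllB.card d3
  obtain ⟨P, hP⟩ : ∃ P, P = P₁ \ (F₁ ∪ (S₀ ∪ SD)) := ⟨_, rfl⟩
  have hSD' : ∀ u ∈ SD, u ∈ P₁ ∧ u ∉ F₁ ∧ u ∉ S₀ ∧ u ∉ Hr := by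
    intro u hu
    have := d1 hu
    rw [mem_sdiff, mem_union, mem_union, not_or, not_or] at this
    exact ⟨this.1, this.2.1.1, this.2.1.2, this.2.2⟩
  have hS₀'H : Disjoint (S₀ ∪ SD) Hr := by
    rw [disjoint_union_left]
    refine ⟨hS₀H, ?_⟩
    rw [disjoint_left]
    exact fun u hu => (hSD' u hu).2.2.2
  have hS₀'c : (((S₀ ∪ SD).card : ℕ) : ℝ) ≤ 2 * (σ * n) := by
    have h1 : (((S₀ ∪ SD).card : ℕ) : ℝ) ≤ S₀.card + totB od := by
      rw [← hSDc]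
      exact_mod_cast card_union_le _ _
    rw [← hn] at hS₀c hodc
    linarith
  have hS₀'j : (S₀ ∪ SD).card + 2 * c₀ ≤ j := by
    have h1 : ((((S₀ ∪ SD).card + 2 * c₀ : ℕ)) : ℝ) < j + 1 := by
      push_cast
      linarith
    have h2 : (S₀ ∪ SD).card + 2 * c₀ < j + 1 := by exact_mod_cast h1
    omega
  have hPX : P ⊆ X := by rw [hP]; exact sdiff_subset.trans hP₁X
  have hV₂X : V₂ ⊆ X := a3.trans hP₂X
  have hYX : P ∪ V₂ ⊆ X := union_subset hPX hV₂X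
  -- the complement of the packing area
  have hAc : ((X \ (P ∪ V₂)).card : ℝ) ≤ 6 * (σ * n) := by
    have h1 : X \ (P ∪ V₂) ⊆ P₂ ∪ (ys.toFinset ∪ (F₁ ∪ (S₀ ∪ SD))) := by
      intro u hu
      rw [mem_sdiff, mem_union, not_or, hP, mem_sdiff] at hu
      by_cases h2 : u ∈ P₂
      · exact mem_union_left _ h2
      by_cases h3 : u ∈ ys
      · exact mem_union_right _ (mem_union_left _ (List.mem_toFinset.2 h3))
      · refine mem_union_right _ (mem_union_right _ ?_)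
        by_contra h4
        exact hu.2.1 ⟨(h.part u).2 ⟨hu.1, h2, h3⟩, h4⟩
    have h2 := (card_le_card h1).trans (card_union_le _ _)
    have h3 := card_union_le ys.toFinset (F₁ ∪ (S₀ ∪ SD))
    have h4 := card_union_le F₁ (S₀ ∪ SD)
    have h5 := ys.toFinset_card_le
    rw [h.len] at h5
    have h6 := card_le_card h.hP₂
    have h7 := h.hU₂c
    have h8 : ((X \ (P ∪ V₂)).card : ℝ) ≤ 2 * q + Nh + f + (S₀ ∪ SD).card := by
      exact_mod_cast (by omega : (X \ (P ∪ V₂)).card ≤ 2 * q + Nh + f + (S₀ ∪ SD).card)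
    rw [← hn] at hq
    linarith
  have hPc : n ≤ (P.card : ℝ) + 7 * (σ * n) := by
    have h1 : X.card = (X \ (P ∪ V₂)).card + (P ∪ V₂).card := (card_sdiff_add_card_eq_card hYX).symm
    have h2 := card_union_le P V₂
    have h3 : n ≤ (X \ (P ∪ V₂)).card + (P.card + V₂.card) := by
      rw [hn]
      exact_mod_cast (by omega : X.card ≤ (X \ (P ∪ V₂)).card + (P.card + V₂.card))
    -- V₂ is contained in the complement of P
    have h4 : X \ P ⊆ P₂ ∪ (ys.toFinset ∪ (F₁ ∪ (S₀ ∪ SD))) := by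
      intro u hu
      rw [mem_sdiff, hP, mem_sdiff] at hu
      by_cases h2 : u ∈ P₂
      · exact mem_union_left _ h2
      by_cases h3 : u ∈ ys
      · exact mem_union_right _ (mem_union_left _ (List.mem_toFinset.2 h3))
      · refine mem_union_right _ (mem_union_right _ ?_)
        by_contra h4
        exact hu.2 ⟨(h.part u).2 ⟨hu.1, h2, h3⟩, h4⟩
    have h5 := (card_le_card h4).trans (card_union_le _ _)
    have h6 := card_union_le ys.toFinset (F₁ ∪ (S₀ ∪ SD))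
    have h7 := card_union_le F₁ (S₀ ∪ SD)
    have h8 := ys.toFinset_card_le
    rw [h.len] at h8
    have h9 := card_le_card h.hP₂
    have h10 := h.hU₂c
    have h11 : X.card = (X \ P).card + P.card := (card_sdiff_add_card_eq_card hPX).symm
    have h12 : n ≤ 2 * q + Nh + f + (S₀ ∪ SD).card + P.card := by
      rw [hn]
      exact_mod_cast (by omega : X.card ≤ 2 * q + Nh + f + (S₀ ∪ SD).card + P.card)
    rw [← hn] at hq
    linarith
  have hPhalf : n / 2 ≤ P.card := by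
    have : σ * n ≤ 1 / 400 * n := mul_le_mul_of_nonneg_right (by linarith) hn0
    linarith
  have hPn : (P.card : ℝ) ≤ n := by
    rw [hn]
    exact_mod_cast card_le_card hPX
  obtain ⟨r1, r2⟩ := a8 (S₀ ∪ SD) hS₀'H hS₀'j (κ₀ ^ 2 / 4 * X.card) (η * X.card) le_rfl le_rfl P hP
  have hrea : ∀ v ∈ G, Rea (rv R) X P (κ₀ ^ 2 / 4 * X.card) (η * X.card) v := fun v hv =>
    AECut.Good.rea (h.good v hv) hPX le_rfl
  have hyP₁ := (h.hys y hyl).2.2.1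
  have hyP₂ := (h.hys y hyl).2.2.2.1
  have hynV : y ∉ P ∪ V₂ := by
    rw [mem_union, not_or]
    exact ⟨fun hc => hyP₁ (mem_sdiff.1 (hP ▸ hc)).1, fun hc => hyP₂ (a3 hc)⟩
  obtain ⟨SA, g1, g2, g3, -⟩ := hpack (rv_tour hT) X (P ∪ V₂) P (X \ (P ∪ V₂)) y F os (η * X.card) subset_union_left hYX
    hlen hF hFt (fun t ht => ⟨(hos t ht).1, (hos t ht).2.1, (hos t ht).2.2.1⟩) (h.hGX hyG) hynV
    (mem_sdiff.2 ⟨h.hGX hyG, hynV⟩) (by
      intro t ht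
      obtain ⟨-, -, -, h4, h5⟩ := hos t ht
      have h6 : t.1 ∉ P := by
        intro hc
        rw [hP, mem_sdiff, mem_union, not_or] at hc
        rcases h5 with h5 | h5
        · exact hc.2.1 h5
        · exact (h.hys _ h5).2.2.1 hc.1
      have h7 : t.1 ∉ V₂ := by
        intro hc
        rcases h5 with h5 | h5
        · exact disjoint_left.1 a4 hc h5
        · exact (h.hys _ h5).2.2.2.1 (a3 hc)
      exact ⟨h.hGX h4, h6, mem_sdiff.2 ⟨h.hGX h4, by rw [mem_union, not_or]; exact ⟨h6, h7⟩⟩⟩)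
    (by rw [← hn]; linarith) (hrea y hyG) (by
      refine le_trans ?_ r2
      rw [← hn]
      have h1 : κ₀ / 2 * (P.card : ℝ) ≤ κ₀ / 2 * n := mul_le_mul_of_nonneg_left hPn (by linarith)
      have h2 : (((S₀ ∪ SD).card : ℕ) : ℝ) ≤ 2 * (σ * n) := hS₀'c
      linarith)
    (r1.trans (by
      rw [heR]
      have := Nat.mul_le_mul_left 4 hBad
      omega)) (fun t ht => hrea t.1 (hos t ht).2.2.2.1) (by
      rw [← hn]
      have h1 : η * n ≤ ηR / 2 * n := mul_le_mul_of_nonneg_right (by linarith) hn0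
      have h2 : ηR * (n / 2) ≤ ηR * P.card := mul_le_mul_of_nonneg_left hPhalf hηR.le
      linarith) (by
      rw [← hn]
      have h1 : σ * n ≤ δA / 16 * n := mul_le_mul_of_nonneg_right hσ2 hn0
      linarith) (by
      have h1 : (P₁ \ (F₁ ∪ S₀)).card ≤ P.card + SD.card := by
        have h2 : P₁ \ (F₁ ∪ S₀) ⊆ P ∪ SD := by
          intro u hu
          rw [mem_sdiff, mem_union, not_or] at hu
          by_cases h3 : u ∈ SD
          · exact mem_union_right _ h3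
          · refine mem_union_left _ ?_
            rw [hP, mem_sdiff, mem_union, mem_union, not_or, not_or]
            exact ⟨hu.1, hu.2.1, hu.2.2, h3⟩
        exact (card_le_card h2).trans (card_union_le _ _)
      rw [hSDc] at h1
      omega)
  have hSAs : SA ⊆ P ∪ V₂ := by
    intro u hu
    by_contra hc
    exact disjoint_left.1 g3 (mem_sdiff.2 ⟨hu, hc⟩) (mem_sdiff.2 ⟨g2 hu, hc⟩)
  refine ⟨SA, SD, g1, d3, d1, ?_, ?_⟩
  · intro u hu
    rcases mem_union.1 (hSAs hu) with h1 | h1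
    · rw [hP, mem_sdiff, mem_union, mem_union, not_or, not_or] at h1
      rw [mem_sdiff, mem_union, mem_union, not_or]
      exact ⟨Or.inl h1.1, h1.2.1, h1.2.2.1⟩
    · rw [mem_sdiff, mem_union, mem_union, not_or]
      exact ⟨Or.inr h1, fun hc => disjoint_left.1 a4 h1 hc, fun hc => disjoint_left.1 hS₀V hc h1⟩
  · rw [disjoint_left]
    intro u hu hu'
    rcases mem_union.1 (hSAs hu) with h1 | h1
    · rw [hP, mem_sdiff, mem_union, mem_union, not_or, not_or] at h1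
      exact h1.2.2.2 hu'
    · exact disjoint_left.1 h.disj (hSD' u hu').1 (a3 h1)

end AEG
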