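import Pool.Agent.AEG.P2T

/-!
# The side of the structure with several families

`lights_fam`: light items, capacities, and several families the members of which are not used up. `p2F`, `p2F2`: the
out-items of a group (one or two phases), good vertices of the ambient set remain good in the rest.
-/

set_option autoImplicit false

namespace AEG

open Finset AE15 AED AEB
open scoped Classical

/-- **Light items and capacities, with several families.** `X₀`: the free set; `PZ`: a protected set, it contains the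
vertices of small in-degree; the members of the families are not used up. -/
theorem lights_fam (p : NP) (hp : p.OK) (hab : ab p.b p.l ≤ p.a) {D₀ : ℕ} (hD₀ : p.A ≤ D₀)
    {ω c η η₁ κ₀ κ₁ κ γ₀ τ s σ₂ μ : ℝ} (P : KB D₀ ω c η η₁ κ₀ κ₁ κ γ₀ τ s σ₂ μ) {κU ε : ℝ} (hU0 : 0 < κU) (hUκ : κU ≤ κ)
    (hε : 0 < ε) (hεσ : 8 * ε ≤ σ₂) (hεη : ε ≤ η₁) (N Kd nf : ℕ) :
    ∃ w₀ M₁ C₁ C : ℕ, 1 ≤ M₁ ∧ w₀ ≤ C₁ ∧ ∀ {V : Type} {R : V → V → Prop}, AE32.Tour R →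
      ∀ {U X₀ Y PZ : Finset V} {ι : Type} (Gu : Fin nf → Finset ι) (D : Fin nf → ι → Finset V) (w₁ : Fin nf → ℕ)
      (b₂ : ℕ) (os : List (V × Fd)), C ≤ Y.card → Y ⊆ U → κU * U.card ≤ κ * Y.card → os.length ≤ N →
      (∀ q ∈ os, q.1 ∈ U ∧ GdU R κU η U Y q.1 ∧ FOK p.b p.l 0 q.2 ∧ ∀ t ∈ q.2.trees, t.1 = true) →
      (∀ q ∈ os, q.1 ∉ X₀) → X₀.filter (fun v => (nI R X₀ v).card < M₁ * b₂ + C₁) ⊆ PZ → PZ ⊆ X₀ →
      ((PZ.card + (U \ X₀).card : ℕ) : ℝ) ≤ κU ^ 2 / 128 * Y.card →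
      ((PZ.card + ((U \ X₀) ∩ Y).card : ℕ) : ℝ) ≤ μ / 2 * Y.card →
      (∀ i, ∀ u ∈ Gu i, D i u ⊆ Y ∧ D i u ⊆ X₀) →
      (∀ i, ∀ j : ℕ, ((Gu i).filter (fun u => (D i u).card ≤ j)).card ≤ w₁ i + Kd * (j + 1)) →
      (totB os : ℝ) + C ≤ (1 - ω) * Y.card → ∀ 𝓕x : Finset (Finset V), 𝓕x.card ≤ 8 * Y.card ^ 3 →
      ∃ Zt S Q : Finset V, EmbAllB R os (Zt ∪ S) ∧ Zt ⊆ U ∧ Zt ⊆ X₀ ∧ Disjoint Zt PZ ∧ Zt.card ≤ w₀ ∧
        S ⊆ Y \ (PZ ∪ (U \ X₀) ∪ Zt) ∧ Q ⊆ Y \ (PZ ∪ (U \ X₀) ∪ Zt) ∧ Disjoint S Q ∧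
        c * (Y \ (PZ ∪ (U \ X₀) ∪ Zt)).card ≤ Q.card ∧ Rep (Y \ (PZ ∪ (U \ X₀) ∪ Zt)) 𝓕x ε Q ∧
        (∀ v ∈ Y, v ∈ X₀ → v ∉ Zt → (v ∈ PZ → b₂ ≤ (nI R PZ v).card) → b₂ ≤ (nI R (X₀ \ (Zt ∪ S)) v).card) ∧
        ∀ i, ∀ j : ℕ, ((Gu i).filter (fun u => (D i u ∩ (X₀ \ (Zt ∪ S))).card ≤ j)).card ≤ w₁ i + (M₁ * j + C₁) := by
  obtain ⟨w₀, hL⟩ := lightsG2 p hp hab hD₀ P hU0 hUκ hε hεσ hεη N
  obtain ⟨Kg, hKg⟩ : ∃ Kg : ℕ, Kg = nf * (3 * Kd) + 2 := ⟨_, rfl⟩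
  obtain ⟨C₀, M₉, c₉, hM₉, hL⟩ := hL Kg
  obtain ⟨M₁, hM₁⟩ : ∃ M₁ : ℕ, M₁ = M₉ + 1 + 3 * M₉ * Kd := ⟨_, rfl⟩
  obtain ⟨C₁, hC₁⟩ : ∃ C₁ : ℕ, C₁ = c₉ + w₀ + Kd * (3 * M₉ * w₀ + 1) := ⟨_, rfl⟩
  have hnum := P.num
  obtain ⟨hω0, hω1, hc0, hc1, hη0, hη1, hη₁0, hη₁1, hκ₀0, hκ₁0, hκ₁1, hκ0, hκ1, hs0, hγ₀0, hτ0, hσ₂0, hμ0, hκ₁η, hκs⟩ :=
    hnum
  obtain ⟨n₂, hn₂⟩ := exists_big [((w₀ : ℝ), μ / 2)] (by
    intro q hq
    simp only [List.mem_cons, List.not_mem_nil, or_false] at hq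
    rcases hq with rfl
    show 0 < μ / 2
    positivity)
  refine ⟨w₀, M₁, C₁, C₀ + n₂, by omega, by omega, ?_⟩
  intro V R hT U X₀ Y TZ ι Gu D w₁ b₂ os hCY hYU hUY hlen hos hosX hTZ hTZX hsm hsm2 hDYX hcnt hsz 𝓕x h𝓕x
  have g := hn₂ Y.card (by omega)
  have g2 : (w₀ : ℝ) ≤ μ / 2 * Y.card := g ((w₀ : ℝ), μ / 2) (by simp)
  -- tops
  obtain ⟨Zt, L, hPEs, hZU, hZF, hZc, hL⟩ := hL hT (U := U) (Y := Y) (F₀ := TZ ∪ (U \ X₀)) os (by omega) hYU hUY hlen hos (by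
    have h1 := card_union_le TZ (U \ X₀)
    have h3 : ((TZ ∪ (U \ X₀)).card : ℝ) ≤ ((TZ.card + (U \ X₀).card : ℕ) : ℝ) := by exact_mod_cast h1
    linarith)
  rw [disjoint_union_right] at hZF
  obtain ⟨hZT, hZUX⟩ := hZF
  have hZX : Zt ⊆ X₀ := by
    intro x hx
    by_contra h
    exact disjoint_left.1 hZUX hx (mem_sdiff.2 ⟨hZU hx, h⟩)
  obtain ⟨W, hW⟩ : ∃ W, W = TZ ∪ (U \ X₀) ∪ Zt := ⟨_, rfl⟩
  have hWm : ∀ x, x ∈ W ↔ x ∈ TZ ∨ (x ∈ U ∧ x ∉ X₀) ∨ x ∈ Zt := by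
    intro x
    rw [hW, mem_union, mem_union, mem_sdiff]
    tauto
  refine ⟨Zt, ?_⟩
  rw [← hW]
  -- the members of the families
  have hdr : ∀ i, ∃ G₀ ⊆ Gu i, (Gu i \ G₀).card ≤ w₁ i ∧ ∀ j, (G₀.filter (fun u => (D i u).card ≤ j)).card ≤
      Kd * (j + 1) := fun i => drop_graded (Gu i) (fun u => (D i u).card) (w₁ i) (fun j => Kd * (j + 1)) (hcnt i)
  choose G₀ hG₀ hG₀c hG₀j using hdr
  obtain ⟨H, hH⟩ : ∃ H : Fin nf → Finset ι, H = fun i => (G₀ i).filter (fun u => (D i u).card ≤ 3 * (D i u \ W).card ∧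
      (D i u \ W).Nonempty) := ⟨_, rfl⟩
  have hHm : ∀ i u, u ∈ H i ↔ u ∈ G₀ i ∧ (D i u).card ≤ 3 * (D i u \ W).card ∧ (D i u \ W).Nonempty := by
    intro i u
    rw [hH]
    exact mem_filter
  obtain ⟨G₁, hG₁⟩ : ∃ G₁ : Finset (Σ _ : Fin nf, ι), G₁ = univ.sigma H := ⟨_, rfl⟩
  have hgr : Pool.Agent.AEF.Graded G₁ (fun u => D u.1 u.2 \ W) Kg := by
    intro j
    have h1 : G₁.filter (fun u => (D u.1 u.2 \ W).card ≤ j) ⊆
        (univ : Finset (Fin nf)).sigma (fun i => (G₀ i).filter (fun u => (D i u).card ≤ 3 * j)) := by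
      intro u hu
      rw [mem_filter, hG₁, mem_sigma] at hu
      rw [mem_sigma, mem_filter]
      obtain ⟨⟨-, h2⟩, h3⟩ := hu
      rw [hHm] at h2
      exact ⟨mem_univ _, h2.1, by omega⟩
    refine (card_le_card h1).trans ?_
    rw [card_sigma]
    refine (sum_le_sum (g := fun _ => Kd * (3 * j + 1)) fun i _ => hG₀j i (3 * j)).trans ?_
    rw [sum_const, card_univ, Fintype.card_fin, smul_eq_mul, hKg]
    have h2 : Kd * (3 * j + 1) ≤ 3 * Kd * (j + 1) := by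
      have : 3 * Kd * (j + 1) = Kd * (3 * (j + 1)) := by ring
      rw [this]
      exact Nat.mul_le_mul_left _ (by omega)
    calc nf * (Kd * (3 * j + 1)) ≤ nf * (3 * Kd * (j + 1)) := Nat.mul_le_mul_left _ h2
      _ = nf * (3 * Kd) * (j + 1) := by ring
      _ ≤ (nf * (3 * Kd) + 2) * (j + 1) := Nat.mul_le_mul_right _ (by omega)
  have hgrI : Pool.Agent.AEF.Graded (Y \ W) (fun v => nI R (Y \ W) v) Kg := by
    intro j
    have h1 := card_lowin hT (Y \ W) (j + 1)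
    refine le_trans (card_le_card ?_) (h1.trans ?_)
    · intro v hv
      rw [mem_filter] at hv ⊢
      have h2 : (nI R (Y \ W) v).card ≤ j := hv.2
      exact ⟨hv.1, by omega⟩
    · rw [hKg]
      exact Nat.mul_le_mul_right _ (by omega)
  obtain ⟨S, Q, hE, hSA, hQA, hSQ, hQc, hRep, hkD, hkI⟩ := hL W (fun x hx => (hWm x).2 (Or.inr (Or.inr hx)))
    (fun q hq => (hWm _).2 (Or.inr (Or.inl ⟨(hos q hq).1, hosX q hq⟩))) (by
      have h1 : W ∩ Y ⊆ TZ ∪ ((U \ X₀) ∩ Y) ∪ Zt := by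
        intro x hx
        rw [mem_inter, hWm] at hx
        rw [mem_union, mem_union, mem_inter, mem_sdiff]
        tauto
      have h2 := (card_le_card h1).trans (card_union_le _ _)
      have h3 := card_union_le TZ ((U \ X₀) ∩ Y)
      have h4 : (W ∩ Y).card ≤ TZ.card + ((U \ X₀) ∩ Y).card + w₀ := by omega
      have h5 : ((W ∩ Y).card : ℝ) ≤ ((TZ.card + ((U \ X₀) ∩ Y).card : ℕ) : ℝ) + w₀ := by exact_mod_cast h4
      linarith) 𝓕x h𝓕x G₁ (fun u => D u.1 u.2 \ W) (by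
      intro u hu
      rw [hG₁, mem_sigma, hHm] at hu
      exact sdiff_subset_sdiff (hDYX _ _ (hG₀ _ hu.2.1)).1 (Subset.refl _)) (by
      intro u hu
      rw [hG₁, mem_sigma, hHm] at hu
      exact hu.2.2.2) hgr (Y \ W) (fun v => nI R (Y \ W) v) (fun v _ => nI_sub) hgrI (by
      have h1 : ((C₀ + n₂ : ℕ) : ℝ) = C₀ + n₂ := by push_cast; ring
      rw [h1] at hsz
      have h2 : (0 : ℝ) ≤ n₂ := Nat.cast_nonneg _
      linarith)
  have hQX : ∀ x ∈ Q, x ∈ X₀ \ (Zt ∪ S) := by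
    intro x hx
    have h1 := mem_sdiff.1 (hQA hx)
    rw [hWm] at h1
    push Not at h1
    rw [mem_sdiff, mem_union, not_or]
    exact ⟨h1.2.2.1 (hYU h1.1), h1.2.2.2, fun h => disjoint_left.1 hSQ h hx⟩
  have hTZf : ∀ x ∈ TZ, x ∈ X₀ \ (Zt ∪ S) := by
    intro x hx
    rw [mem_sdiff, mem_union, not_or]
    exact ⟨hTZX hx, fun h => disjoint_left.1 hZT h hx, fun h => (mem_sdiff.1 (hSA h)).2 ((hWm x).2 (Or.inl hx))⟩
  refine ⟨S, Q, hE, hZU, hZX, hZT, hZc, hSA, hQA, hSQ, hQc, hRep, ?_, ?_⟩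
  · -- capacities
    intro v hvY hvX hvZ hvT
    by_cases h0 : v ∈ TZ
    · refine (hvT h0).trans (card_le_card ?_)
      exact nI_mono hTZf
    · have h1 : M₁ * b₂ + C₁ ≤ (nI R X₀ v).card := by
        by_contra hc
        push Not at hc
        exact h0 (hTZ (by rw [mem_filter]; exact ⟨hvX, hc⟩))
      have hvW : v ∈ Y \ W := by
        rw [mem_sdiff, hWm]
        refine ⟨hvY, ?_⟩
        rintro (h | h | h)
        · exact h0 h
        · exact h.2 hvX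
        · exact hvZ h
      have h2 : nI R X₀ v ⊆ nI R (X₀ \ (Zt ∪ S)) v ∪ Zt ∪ nI R (Y \ W) v := by
        intro x hx
        rw [mem_nI] at hx
        rw [mem_union, mem_union, mem_nI, mem_nI, mem_sdiff, mem_union]
        by_cases h3 : x ∈ Zt
        · exact Or.inl (Or.inr h3)
        · by_cases h4 : x ∈ S
          · exact Or.inr ⟨hSA h4, hx.2⟩
          · exact Or.inl (Or.inl ⟨⟨hx.1, by tauto⟩, hx.2⟩)
      have h3 := (card_le_card h2).trans (card_union_le _ _)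
      have h4 := card_union_le (nI R (X₀ \ (Zt ∪ S)) v) Zt
      have h5 : (nI R (Y \ W) v).card ≤ M₉ * (nI R (X₀ \ (Zt ∪ S)) v).card + c₉ := by
        by_cases h6 : c₉ ≤ (nI R (Y \ W) v).card
        · have h7 := hkI v hvW h6
          have h8 : (nI R (Y \ W) v ∩ Q).card ≤ (nI R (X₀ \ (Zt ∪ S)) v).card := by
            apply card_le_card
            intro x hx
            rw [mem_inter, mem_nI] at hx
            exact mem_nI.2 ⟨hQX x hx.2, hx.1.2⟩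
          have h9 := Nat.mul_le_mul_left M₉ h8
          omega
        · omega
      have h6 : (M₉ + 1) * b₂ ≤ (M₉ + 1) * (nI R (X₀ \ (Zt ∪ S)) v).card := by
        have h7 : (M₉ + 1) * b₂ ≤ M₁ * b₂ := Nat.mul_le_mul_right _ (by omega)
        have h8 : (M₉ + 1) * (nI R (X₀ \ (Zt ∪ S)) v).card =
          M₉ * (nI R (X₀ \ (Zt ∪ S)) v).card + (nI R (X₀ \ (Zt ∪ S)) v).card := by ring
        omega
      exact Nat.le_of_mul_le_mul_left h6 (by omega)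
  · -- the members of the families
    intro i j
    have h1 : (Gu i).filter (fun u => (D i u ∩ (X₀ \ (Zt ∪ S))).card ≤ j) ⊆
        (Gu i \ G₀ i) ∪ (G₀ i).filter (fun u => (D i u).card ≤ 3 * M₉ * (j + w₀)) := by
      intro u hu
      rw [mem_filter] at hu
      obtain ⟨hu1, hu2⟩ := hu
      rw [mem_union, mem_sdiff, mem_filter]
      by_cases h2 : u ∈ G₀ i
      · right
        refine ⟨h2, ?_⟩
        by_cases h3 : u ∈ H i
        · have h4 := (hkD ⟨i, u⟩ (by rw [hG₁]; exact mem_sigma.2 ⟨mem_univ _, h3⟩)).2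
          rw [hHm] at h3
          have h4' : (D i u \ W).card ≤ M₉ * ((D i u \ W) ∩ Q).card := h4
          have h5 : ((D i u \ W) ∩ Q).card ≤ j := by
            refine le_trans (card_le_card ?_) hu2
            intro x hx
            rw [mem_inter, mem_sdiff] at hx
            rw [mem_inter]
            exact ⟨hx.1.1, hQX x hx.2⟩
          have h6 : (D i u).card ≤ 3 * (M₉ * j) := by
            have h7 := Nat.mul_le_mul_left M₉ h5
            have h8 := h3.2.1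
            omega
          have h7 : 3 * M₉ * (j + w₀) = 3 * (M₉ * j) + 3 * M₉ * w₀ := by ring
          omega
        · have h3' : ¬ ((D i u).card ≤ 3 * (D i u \ W).card ∧ (D i u \ W).Nonempty) := fun h => h3 ((hHm i u).2 ⟨h2, h⟩)
          have h4 : D i u ⊆ (D i u \ W) ∪ (D i u ∩ (X₀ \ (Zt ∪ S))) ∪ Zt := by
            intro x hx
            rw [mem_union, mem_union, mem_sdiff, mem_inter]
            by_cases h5 : x ∈ W
            · rcases (hWm x).1 h5 with h6 | h6 | h6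
              · exact Or.inl (Or.inr ⟨hx, hTZf x h6⟩)
              · exact absurd ((hDYX i u (hG₀ i h2)).2 hx) h6.2
              · exact Or.inr h6
            · exact Or.inl (Or.inl ⟨hx, h5⟩)
          have h5 := (card_le_card h4).trans (card_union_le _ _)
          have h6 := card_union_le (D i u \ W) (D i u ∩ (X₀ \ (Zt ∪ S)))
          have h7 : (D i u).card ≤ 3 * (j + w₀) := by
            by_cases h8 : (D i u \ W).Nonempty
            · have h9 : ¬ (D i u).card ≤ 3 * (D i u \ W).card := fun h => h3' ⟨h, h8⟩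
              omega
            · rw [not_nonempty_iff_eq_empty] at h8
              have h9 : (D i u \ W).card = 0 := by rw [h8, card_empty]
              omega
          have h8 : 3 * (j + w₀) ≤ 3 * M₉ * (j + w₀) := Nat.mul_le_mul_right _ (by omega)
          omega
      · exact Or.inl ⟨hu1, h2⟩
    have h2 := (card_le_card h1).trans (card_union_le _ _)
    have h2' := hG₀c i
    have h3 := hG₀j i (3 * M₉ * (j + w₀))
    have h4 : Kd * (3 * M₉ * (j + w₀) + 1) = 3 * M₉ * Kd * j + Kd * (3 * M₉ * w₀ + 1) := by ring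
    have h5 : 3 * M₉ * Kd * j ≤ M₁ * j := Nat.mul_le_mul_right _ (by omega)
    omega

/-- the remaining set: all good vertices remain good, and the sets of `𝒟` remain dense -/
theorem final_fam {V : Type*} {R : V → V → Prop} {X : Finset V} {𝒟 : Finset (Finset V)} {κ₁ η₁ κ η γ s σ δ ε c : ℝ}
    (h𝒟 : ∀ F ∈ 𝒟, F ⊆ X ∧ γ * X.card ≤ (F.card : ℝ)) (h𝒟c : 𝒟.card ≤ 6) (hX : X.Nonempty) (hκ : 0 < κ)
    (hη : 0 < η) (hσ : 0 < σ) (hε : 0 < ε) (hc : 0 < c)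
    (h1 : σ ≤ γ) (h2 : 2 * (δ + ε) ≤ c * σ) (h3 : σ ≤ κ₁) (h4 : κ ≤ c * κ₁ / 2) (h5 : 2 * η₁ ≤ c * η) (hs : 0 < s)
    (h6 : s ≤ c * γ / 4) :
    ∃ 𝓕 : Finset (Finset V), 𝓕.card ≤ 8 * X.card ^ 2 ∧
      ∀ A Q P : Finset V, A ⊆ X → (X.card : ℝ) ≤ 2 * A.card → Q ⊆ A → Rep A 𝓕 ε Q →
        c * A.card ≤ Q.card → P ⊆ X → Q ⊆ P → (((X \ A) \ P).card : ℝ) ≤ δ * X.card →
        (∀ w ∈ X, Good R κ₁ η₁ X w → Good R κ η P w) ∧ ∀ F ∈ 𝒟, s * P.card ≤ ((F ∩ P).card : ℝ) := by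
  have hn0 : (0 : ℝ) < X.card := by exact_mod_cast hX.card_pos
  have hn1 : 1 ≤ X.card := hX.card_pos
  obtain ⟨FF, hF1, hF2, hF3⟩ := exists_family R κ₁ η₁ X
  refine ⟨𝒟 ∪ FF, ?_, ?_⟩
  · have h8 := card_union_le 𝒟 FF
    nlinarith
  intro A Q P hA hXA hQ hRep hcQ hP hQP hdel
  have hA0 : A.Nonempty := by
    rw [← card_pos]
    have : (0 : ℝ) < A.card := by linarith
    exact_mod_cast this
  have hPX : (P.card : ℝ) ≤ X.card := by exact_mod_cast card_le_card hP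
  have hQP' : (Q.card : ℝ) ≤ P.card := by exact_mod_cast card_le_card hQP
  have key : ∀ F ∈ 𝒟 ∪ FF, F ⊆ X →
      c * F.card - c * σ / 2 * X.card ≤ ((F ∩ P).card : ℝ) := by
    intro F hF hFX
    have h7 := meet_bound hε hc hA hA0 hQ hRep hcQ hQP hdel hF hFX
    have h8 : (δ + ε) * X.card ≤ c * σ / 2 * X.card := mul_le_mul_of_nonneg_right (by linarith) hn0.le
    linarith
  -- goodness in `P`
  have hgood : ∀ w ∈ X, Good R κ₁ η₁ X w → Good R κ η P w := by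
    apply hF3 P hP κ η
    · intro F hF hFc
      have h7 := key F (mem_union_right _ hF) (hF2 F hF)
      have h8 : c * (κ₁ * X.card) ≤ c * F.card := mul_le_mul_of_nonneg_left hFc hc.le
      have h9 : c * σ / 2 * X.card ≤ c * κ₁ / 2 * X.card := by
        apply mul_le_mul_of_nonneg_right _ hn0.le
        have := mul_le_mul_of_nonneg_left h3 hc.le
        linarith
      have h10 : κ * P.card ≤ κ * X.card := mul_le_mul_of_nonneg_left hPX hκ.le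
      have h11 : κ * X.card ≤ c * κ₁ / 2 * X.card := mul_le_mul_of_nonneg_right h4 hn0.le
      linarith
    · intro F hF hFc
      have h7 : ((F ∩ P).card : ℝ) ≤ F.card := by exact_mod_cast card_le_card inter_subset_left
      have h8 : η₁ * X.card ≤ c * η / 2 * X.card := mul_le_mul_of_nonneg_right (by linarith) hn0.le
      have h9 : c * η / 2 * X.card ≤ c * η / 2 * (2 * A.card) := mul_le_mul_of_nonneg_left hXA (by positivity)
      have h10 : η * (c * A.card) ≤ η * P.card := mul_le_mul_of_nonneg_left (hcQ.trans hQP') hη.le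
      linarith
  refine ⟨hgood, fun F hF => ?_⟩
  obtain ⟨hFX, hx⟩ := h𝒟 F hF
  have h7 := key F (mem_union_left _ hF) hFX
  have h9 : c * (γ * X.card) ≤ c * F.card := mul_le_mul_of_nonneg_left hx hc.le
  have h10 : c * σ / 2 * X.card ≤ c * γ / 2 * X.card := by
    apply mul_le_mul_of_nonneg_right _ hn0.le
    have := mul_le_mul_of_nonneg_left h1 hc.le
    linarith
  have h11 : s * P.card ≤ s * X.card := mul_le_mul_of_nonneg_left hPX hs.le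
  have h12 : s * X.card ≤ c * γ / 4 * X.card := mul_le_mul_of_nonneg_right h6 hn0.le
  have h13 : 0 ≤ c * γ / 4 * X.card := by
    have : 0 < γ := lt_of_lt_of_le hσ h1
    positivity
  linarith

/-- **The side of the structure, several families, one phase.** `U`: the ambient set of the structure, `Y`: its part for the
lights, `X₀`: the free set (hosts and in-items removed), `PZ`: a protected set, `Gu`, `D`: the families, `𝒟`: dense sets -/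
theorem p2F (p : NP) (hp : p.OK) (hab : ab p.b p.l ≤ p.a) {D₀ : ℕ} (hD₀ : p.A ≤ D₀)
    {ω c η η₁ κ₀ κ₁ κ γ₀ τ s σ₂ μ : ℝ} (P : KB D₀ ω c η η₁ κ₀ κ₁ κ γ₀ τ s σ₂ μ) {κU κa ηa γ κ' η' s' : ℝ} (hU0 : 0 < κU)
    (hUκ : 2 * κU ≤ κ) (ha : 0 < κa) (hγ : 0 < γ) (hκ'0 : 0 < κ') (hκ' : κ' ≤ c * κa / 4) (hη'0 : 0 < η')
    (hη' : 4 * ηa ≤ c * η') (hs'0 : 0 < s') (hs' : s' ≤ c * γ / 8) (N Kd nf : ℕ) :
    ∃ (w₀ M₁ C₁ : ℕ) (δ : ℝ) (C : ℕ), 1 ≤ M₁ ∧ 0 < δ ∧ ∀ {V : Type} {R : V → V → Prop}, AE32.Tour R →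
      ∀ {U X₀ Y PZ : Finset V} {ι : Type} (Gu : Fin nf → Finset ι) (D : Fin nf → ι → Finset V) (w₁ : Fin nf → ℕ)
      (𝒟 : Finset (Finset V)) (b₂ : ℕ) (os : List (V × Fd)),
      C ≤ U.card → Y ⊆ U → os.length ≤ N →
      (∀ q ∈ os, q.1 ∈ U ∧ GdU R κU η U Y q.1 ∧ FOK p.b p.l 0 q.2 ∧ ∀ t ∈ q.2.trees, t.1 = true) →
      (∀ q ∈ os, q.1 ∉ X₀) → X₀.filter (fun v => (nI R X₀ v).card < M₁ * b₂ + C₁) ⊆ PZ → PZ ⊆ X₀ →
      ((PZ.card + (U \ X₀).card + (U \ Y).card + (X₀ \ U).card : ℕ) : ℝ) ≤ δ * U.card →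
      (∀ i, ∀ u ∈ Gu i, D i u ⊆ Y ∧ D i u ⊆ X₀) →
      (∀ i, ∀ j : ℕ, ((Gu i).filter (fun u => (D i u).card ≤ j)).card ≤ w₁ i + Kd * (j + 1)) →
      𝒟.card ≤ 6 → (∀ F ∈ 𝒟, F ⊆ U ∧ γ * U.card ≤ (F.card : ℝ)) →
      (totB os : ℝ) + C ≤ (1 - ω) * Y.card →
      ∃ Zt S : Finset V, EmbAllB R os (Zt ∪ S) ∧ Zt ⊆ U ∧ Zt ⊆ X₀ ∧ Disjoint Zt PZ ∧ Zt.card ≤ w₀ ∧ S ⊆ Y ∧ S ⊆ X₀ ∧
        Disjoint S Zt ∧ Disjoint S PZ ∧
        (∀ v ∈ U, Good R κa ηa U v → Good R κ' η' (X₀ \ (Zt ∪ S)) v) ∧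
        (∀ F ∈ 𝒟, s' * (X₀ \ (Zt ∪ S)).card ≤ ((F ∩ (X₀ \ (Zt ∪ S))).card : ℝ)) ∧
        (∀ v ∈ Y, v ∈ X₀ → v ∉ Zt → (v ∈ PZ → b₂ ≤ (nI R PZ v).card) → b₂ ≤ (nI R (X₀ \ (Zt ∪ S)) v).card) ∧
        ∀ i, ∀ j : ℕ, ((Gu i).filter (fun u => (D i u ∩ (X₀ \ (Zt ∪ S))).card ≤ j)).card ≤ w₁ i + (M₁ * j + C₁) := by
  have hnum := P.num
  obtain ⟨hω0, hω1, hc0, hc1, hη0, hη1, hη₁0, hη₁1, hκ₀0, hκ₁0, hκ₁1, hκ0, hκ1, hs0, hγ₀0, hτ0, hσ₂0, hμ0, hκ₁η, hκs⟩ :=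
    hnum
  -- the constant `ε`
  obtain ⟨σ, hσ0, hσ1, hσ2⟩ : ∃ σ : ℝ, 0 < σ ∧ σ ≤ γ ∧ σ ≤ κa :=
    ⟨min γ κa, lt_min hγ ha, min_le_left _ _, min_le_right _ _⟩
  obtain ⟨ε, hε0, hε1, hε2, hε3⟩ : ∃ ε : ℝ, 0 < ε ∧ 8 * ε ≤ σ₂ ∧ ε ≤ η₁ ∧ 4 * ε ≤ c * σ := by
    have h1 : 0 < c * σ := mul_pos hc0 hσ0
    refine ⟨min (σ₂ / 8) (min η₁ (c * σ / 4)), lt_min (by positivity) (lt_min hη₁0 (by positivity)), ?_, ?_, ?_⟩
    · linarith [min_le_left (σ₂ / 8) (min η₁ (c * σ / 4))]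
    · exact (min_le_right _ _).trans (min_le_left _ _)
    · linarith [(min_le_right (σ₂ / 8) (min η₁ (c * σ / 4))).trans (min_le_right _ _)]
  obtain ⟨w₀, M₁, C₁, C, hM₁, hwC, hL⟩ := lights_fam p hp hab hD₀ P hU0 (by linarith) hε0 hε1 hε2 N Kd nf
  -- the constant `δ`
  obtain ⟨δ, hδ0, hδ1, hδ2, hδ3, hδ4, hδ5, hδ6⟩ : ∃ δ : ℝ, 0 < δ ∧ δ ≤ 1 / 16 ∧ δ ≤ c * σ / 16 ∧ δ ≤ c * η' / 32 ∧
      δ ≤ κU ^ 2 / 1024 ∧ δ ≤ μ / 32 ∧ δ ≤ c / 16 := by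
    have h1 : 0 < c * σ := mul_pos hc0 hσ0
    have h2 : 0 < c * η' := mul_pos hc0 hη'0
    refine ⟨min (1 / 16) (min (c * σ / 16) (min (c * η' / 32) (min (κU ^ 2 / 1024) (min (μ / 32)
      (c / 16))))), ?_, ?_, ?_, ?_, ?_, ?_, ?_⟩
    · refine lt_min (by norm_num) (lt_min (by positivity) (lt_min (by positivity) (lt_min (by positivity)
        (lt_min (by positivity) (by positivity)))))
    · exact min_le_left _ _
    · exact (min_le_right _ _).trans (min_le_left _ _)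
    · exact (min_le_right _ _).trans ((min_le_right _ _).trans (min_le_left _ _))
    · exact (min_le_right _ _).trans ((min_le_right _ _).trans ((min_le_right _ _).trans (min_le_left _ _)))
    · exact (min_le_right _ _).trans ((min_le_right _ _).trans ((min_le_right _ _).trans
        ((min_le_right _ _).trans (min_le_left _ _))))
    · exact (min_le_right _ _).trans ((min_le_right _ _).trans ((min_le_right _ _).trans
        ((min_le_right _ _).trans (min_le_right _ _))))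
  obtain ⟨n₂, hn₂⟩ := exists_big [((w₀ : ℝ), c * σ / 16), ((8 : ℝ), 1), ((w₀ : ℝ), 1 / 16)] (by
    intro q hq
    simp only [List.mem_cons, List.not_mem_nil, or_false] at hq
    rcases hq with rfl | rfl | rfl
    · have : 0 < c * σ := mul_pos hc0 hσ0
      show 0 < c * σ / 16
      positivity
    · exact one_pos
    · norm_num)
  refine ⟨w₀, M₁, C₁, δ, 2 * (C + n₂), hM₁, hδ0, ?_⟩
  intro V R hT U X₀ Y TZ ι Gu D w₁ 𝒟 b₂ os hCU hYU hlen hos hosX hTZ hTZX hsm hDYX hcnt h𝒟c h𝒟 hsz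
  have g := hn₂ U.card (by omega)
  have g1 : (w₀ : ℝ) ≤ c * σ / 16 * U.card := g ((w₀ : ℝ), c * σ / 16) (by simp)
  have g2 : (8 : ℝ) ≤ 1 * U.card := g ((8 : ℝ), 1) (by simp)
  have g3 : (w₀ : ℝ) ≤ 1 / 16 * U.card := g ((w₀ : ℝ), 1 / 16) (by simp)
  obtain ⟨n, hn⟩ : ∃ n : ℝ, n = (U.card : ℝ) := ⟨_, rfl⟩
  rw [← hn] at g1 g2 g3 hsm
  have hn0 : 0 < n := by linarith
  push_cast at hsm
  have hb0 : (0 : ℝ) ≤ (TZ.card : ℝ) := Nat.cast_nonneg _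
  have a1 : (0 : ℝ) ≤ ((U \ X₀).card : ℝ) := Nat.cast_nonneg _
  have a2 : (0 : ℝ) ≤ ((U \ Y).card : ℝ) := Nat.cast_nonneg _
  have a3 : (0 : ℝ) ≤ ((X₀ \ U).card : ℝ) := Nat.cast_nonneg _
  have e1 : δ * n ≤ 1 / 16 * n := mul_le_mul_of_nonneg_right hδ1 hn0.le
  have e2 : δ * n ≤ c * σ / 16 * n := mul_le_mul_of_nonneg_right hδ2 hn0.le
  have e3 : δ * n ≤ c * η' / 32 * n := mul_le_mul_of_nonneg_right hδ3 hn0.le
  have e4 : δ * n ≤ κU ^ 2 / 1024 * n := mul_le_mul_of_nonneg_right hδ4 hn0.le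
  have e5 : δ * n ≤ μ / 32 * n := mul_le_mul_of_nonneg_right hδ5 hn0.le
  have e6 : δ * n ≤ c / 16 * n := mul_le_mul_of_nonneg_right hδ6 hn0.le
  have hδn : 0 ≤ δ * n := by positivity
  have hYc : n = Y.card + (U \ Y).card := by
    have h1 := card_sdiff_add_card_eq_card hYU
    rw [hn]
    have h2 : (U.card : ℝ) = (U \ Y).card + Y.card := by exact_mod_cast h1.symm
    linarith
  have hnY : n ≤ 2 * Y.card := by linarith
  have hY0 : (0 : ℝ) ≤ Y.card := Nat.cast_nonneg _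
  have hκU2 : 0 < κU ^ 2 := by positivity
  -- the family
  obtain ⟨𝓕x, h𝓕x, hfin⟩ := final_fam (R := R) (X := U) (𝒟 := 𝒟) (κ₁ := κa) (η₁ := ηa) (κ := 2 * κ')
    (η := η' / 2) (γ := γ) (s := 2 * s') (σ := σ) (δ := c * σ / 8) (ε := ε) (c := c) h𝒟 h𝒟c (by
      rw [← card_pos]
      have : (0 : ℝ) < U.card := by rw [← hn]; exact hn0
      exact_mod_cast this) (by linarith) (by linarith) hσ0 hε0 hc0 hσ1 (by
      have : 0 < c * σ := mul_pos hc0 hσ0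
      linarith) hσ2 (by linarith) (by linarith) (by linarith) (by linarith)
  obtain ⟨Zt, S, Q, hEm, hZU, hZX, hZT, hZc, hSA, hQA, hSQ, hQc, hRep, hcap, hcnt'⟩ := hL hT (U := U) (X₀ := X₀) (Y := Y)
    (PZ := TZ) Gu D w₁ b₂ os (by
      have h1 : ((2 * (C + n₂) : ℕ) : ℝ) ≤ 2 * Y.card := by
        refine le_trans ?_ hnY
        rw [hn]
        exact_mod_cast hCU
      have h2 : 2 * (C + n₂) ≤ 2 * Y.card := by exact_mod_cast h1
      omega) hYU (by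
      rw [← hn]
      have h1 : κU * n ≤ κU * (2 * Y.card) := mul_le_mul_of_nonneg_left hnY hU0.le
      have h2 : 2 * κU * Y.card ≤ κ * Y.card := mul_le_mul_of_nonneg_right hUκ hY0
      linarith) hlen hos hosX hTZ hTZX (by
      push_cast
      have h1 : κU ^ 2 / 1024 * n ≤ κU ^ 2 / 1024 * (2 * Y.card) := mul_le_mul_of_nonneg_left hnY (by positivity)
      have h4 : 0 ≤ κU ^ 2 * Y.card := by positivity
      linarith) (by
      push_cast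
      have h1 : (((U \ X₀) ∩ Y).card : ℝ) ≤ (U \ X₀).card := by exact_mod_cast card_le_card inter_subset_left
      have h2 : μ / 32 * n ≤ μ / 32 * (2 * Y.card) := mul_le_mul_of_nonneg_left hnY (by positivity)
      have h4 : 0 ≤ μ * Y.card := by positivity
      linarith) hDYX hcnt (by
      push_cast at hsz
      have h1 : (0 : ℝ) ≤ n₂ := Nat.cast_nonneg _
      have h2 : (0 : ℝ) ≤ C := Nat.cast_nonneg _
      linarith) 𝓕x (by
      have h1 : U.card ≤ 2 * Y.card := by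
        have : (U.card : ℝ) ≤ 2 * Y.card := by rw [← hn]; exact hnY
        exact_mod_cast this
      have h2 : 4 ≤ Y.card := by
        have : (4 : ℝ) ≤ Y.card := by linarith
        exact_mod_cast this
      refine h𝓕x.trans (Nat.mul_le_mul_left _ ?_)
      calc U.card ^ 2 ≤ (2 * Y.card) ^ 2 := Nat.pow_le_pow_left h1 2
        _ = 4 * Y.card ^ 2 := by ring
        _ ≤ Y.card * Y.card ^ 2 := Nat.mul_le_mul_right _ h2
        _ = Y.card ^ 3 := by ring)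
  obtain ⟨W, hW⟩ : ∃ W, W = TZ ∪ (U \ X₀) ∪ Zt := ⟨_, rfl⟩
  have hWm : ∀ x, x ∈ W ↔ x ∈ TZ ∨ (x ∈ U ∧ x ∉ X₀) ∨ x ∈ Zt := by
    intro x
    rw [hW, mem_union, mem_union, mem_sdiff]
    tauto
  rw [← hW] at hSA hQA hQc hRep
  obtain ⟨X', hX'⟩ : ∃ X', X' = X₀ \ (Zt ∪ S) := ⟨_, rfl⟩
  have hX'm : ∀ v, v ∈ X' ↔ v ∈ X₀ ∧ v ∉ Zt ∧ v ∉ S := by
    intro v
    rw [hX', mem_sdiff, mem_union, not_or]
  rw [← hX'] at hcap hcnt'
  have hSm : ∀ v ∈ S, v ∈ Y ∧ v ∈ X₀ ∧ v ∉ TZ ∧ v ∉ Zt := by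
    intro v hv
    have h1 := mem_sdiff.1 (hSA hv)
    rw [hWm] at h1
    push Not at h1
    exact ⟨h1.1, h1.2.2.1 (hYU h1.1), h1.2.1, h1.2.2.2⟩
  have hQm : ∀ v ∈ Q, v ∈ Y ∧ v ∈ X' := by
    intro v hv
    have h1 := mem_sdiff.1 (hQA hv)
    rw [hWm] at h1
    push Not at h1
    rw [hX'm]
    exact ⟨h1.1, h1.2.2.1 (hYU h1.1), h1.2.2.2, fun h => disjoint_left.1 hSQ h hv⟩
  refine ⟨Zt, S, hEm, hZU, hZX, hZT, hZc, fun v hv => (hSm v hv).1, fun v hv => (hSm v hv).2.1, ?_, ?_, ?_⟩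
  · rw [disjoint_left]
    exact fun v hv => (hSm v hv).2.2.2
  · rw [disjoint_left]
    exact fun v hv => (hSm v hv).2.2.1
  rw [← hX']
  -- goodness in the final set
  have hAc : n / 2 ≤ ((Y \ W).card : ℝ) := by
    have h1 : Y.card ≤ (Y \ W).card + (TZ.card + (U \ X₀).card + Zt.card) := by
      have h2 : Y ⊆ (Y \ W) ∪ (TZ ∪ (U \ X₀) ∪ Zt) := by
        intro x hx
        rw [mem_union, mem_sdiff, ← hW]
        by_cases h3 : x ∈ W
        · exact Or.inr h3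
        · exact Or.inl ⟨hx, h3⟩
      have h3 := (card_le_card h2).trans (card_union_le _ _)
      have h4 := card_union_le (TZ ∪ (U \ X₀)) Zt
      have h5 := card_union_le TZ (U \ X₀)
      omega
    have h2 : (Y.card : ℝ) ≤ (Y \ W).card + (TZ.card + (U \ X₀).card + w₀) := by
      have h3 : Y.card ≤ (Y \ W).card + (TZ.card + (U \ X₀).card + w₀) := by omega
      exact_mod_cast h3
    linarith
  have hX'U : X' ∩ U ⊆ X' := inter_subset_left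
  have hfin' := hfin (Y \ W) Q (X' ∩ U) (sdiff_subset.trans hYU) (by rw [← hn]; linarith) hQA hRep hQc inter_subset_right
    (fun v hv => mem_inter.2 ⟨(hQm v hv).2, hYU (hQm v hv).1⟩) (by
      rw [← hn]
      have h1 : (U \ (Y \ W)) \ (X' ∩ U) ⊆ (U \ X₀) ∪ Zt := by
        intro u hu
        rw [mem_sdiff, mem_sdiff, mem_inter, hX'm] at hu
        rw [mem_union, mem_sdiff]
        obtain ⟨⟨h1, h2⟩, h3⟩ := hu
        by_cases h4 : u ∈ X₀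
        · by_cases h5 : u ∈ Zt
          · exact Or.inr h5
          · exfalso
            apply h3
            exact ⟨⟨h4, h5, fun h6 => h2 (hSA h6)⟩, h1⟩
        · exact Or.inl ⟨h1, h4⟩
      have h2 : (((U \ (Y \ W)) \ (X' ∩ U)).card : ℝ) ≤ (U \ X₀).card + Zt.card := by
        exact_mod_cast (card_le_card h1).trans (card_union_le _ _)
      have h3 : (Zt.card : ℝ) ≤ w₀ := by exact_mod_cast hZc
      linarith)
  obtain ⟨hgood, hdense⟩ := hfin'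
  have hPc : c * (n / 2) ≤ ((X' ∩ U).card : ℝ) := by
    have h1 : (Q.card : ℝ) ≤ (X' ∩ U).card := by
      exact_mod_cast card_le_card (fun v hv => mem_inter.2 ⟨(hQm v hv).2, hYU (hQm v hv).1⟩)
    have h2 : c * (n / 2) ≤ c * (Y \ W).card := mul_le_mul_of_nonneg_left hAc hc0.le
    linarith
  have hX'P : (X'.card : ℝ) ≤ (X' ∩ U).card + (X' \ (X' ∩ U)).card := by
    have h1 := card_sdiff_add_card_eq_card hX'U
    have h2 : X'.card ≤ (X' ∩ U).card + (X' \ (X' ∩ U)).card := by omega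
    exact_mod_cast h2
  have hX'd : ((X' \ (X' ∩ U)).card : ℝ) ≤ δ * n := by
    have h1 : X' \ (X' ∩ U) ⊆ X₀ \ U := by
      intro u hu
      rw [mem_sdiff, mem_inter] at hu
      rw [mem_sdiff]
      exact ⟨((hX'm u).1 hu.1).1, fun h => hu.2 ⟨hu.1, h⟩⟩
    have h2 : ((X' \ (X' ∩ U)).card : ℝ) ≤ (X₀ \ U).card := by exact_mod_cast card_le_card h1
    linarith
  have hcn : 0 < c * n := mul_pos hc0 hn0
  have hX'2 : (X'.card : ℝ) ≤ 2 * (X' ∩ U).card := by linarith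
  have hPX' : ((X' ∩ U).card : ℝ) ≤ X'.card := by exact_mod_cast card_le_card hX'U
  have hgood' : ∀ v ∈ U, Good R κa ηa U v → Good R κ' η' X' v := by
    intro v hv hvg
    refine good_add (hgood v hv hvg) hX'U ?_ ?_
    · have h1 : κ' * X'.card ≤ κ' * (2 * (X' ∩ U).card) := mul_le_mul_of_nonneg_left hX'2 hκ'0.le
      linarith
    · have h1 : η' / 2 * (c * (n / 2)) ≤ η' / 2 * (X' ∩ U).card := mul_le_mul_of_nonneg_left hPc (by linarith)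
      have h2 : η' * (X' ∩ U).card ≤ η' * X'.card := mul_le_mul_of_nonneg_left hPX' hη'0.le
      have h3 : 0 < c * η' * n := by positivity
      have h4 : η' / 2 * (c * (n / 2)) = c * η' * n / 4 := by ring
      have h5 : c * η' / 32 * n = c * η' * n / 32 := by ring
      linarith
  refine ⟨hgood', fun F hF => ?_, hcap, hcnt'⟩
  have h1 := hdense F hF
  have h2 : ((F ∩ (X' ∩ U)).card : ℝ) ≤ (F ∩ X').card := by
    exact_mod_cast card_le_card (inter_subset_inter (Subset.refl _) inter_subset_left)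
  have h3 : s' * X'.card ≤ s' * (2 * (X' ∩ U).card) := mul_le_mul_of_nonneg_left hX'2 hs'0.le
  linarith

/-- **The side of the structure, several families, two phases.** -/
theorem p2F2 (p : NP) (hp : p.OK) (hab : ab p.b p.l ≤ p.a) {D₀ : ℕ} (hD₀ : p.A ≤ D₀)
    {ω c η η₁ κ₀ κ₁ κ γ₀ τ s σ₂ μ : ℝ} (P : KB D₀ ω c η η₁ κ₀ κ₁ κ γ₀ τ s σ₂ μ) {D₀' : ℕ} (hD₀' : p.A ≤ D₀')
    {ω' c' η' η₁' κ₀' κ₁' κ' γ₀' τ' s' σ₂' μ' : ℝ} (P' : KB D₀' ω' c' η' η₁' κ₀' κ₁' κ' γ₀' τ' s' σ₂' μ')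
    {κg ηg γ ζ η₂ : ℝ} (hκg : 0 < κg) (hηg : 0 < ηg) (hγ : 0 < γ) (hζ : 0 < ζ)
    (hζω : 2 * ω' ≤ ζ) (hη₂ : 0 < η₂) (hg1 : 8 * ηg ≤ c * η') (hg2 : 8 * ηg ≤ c * (c' * η₂)) (N Kd nf : ℕ) :
    ∃ κ₂ s₂ : ℝ, 0 < κ₂ ∧ 0 < s₂ ∧ ∀ {κU : ℝ}, 0 < κU → 2 * κU ≤ κ →
      ∃ (δ : ℝ) (Mt Ct K₁ C₁ C : ℕ), 0 < δ ∧ 1 ≤ Mt ∧
      ∀ {V : Type} {R : V → V → Prop}, AE32.Tour R → ∀ {X X₀ Y PZ : Finset V} {ι : Type} (Gu : Fin nf → Finset ι)
        (D : Fin nf → ι → Finset V) (w₁ : Fin nf → ℕ) (𝒟 : Finset (Finset V)) (b₂ : ℕ) (os₁ os₂ : List (V × Fd)),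
        C ≤ X.card → Y ⊆ X → X₀ ⊆ X → os₁.length ≤ N → os₂.length ≤ N →
        (∀ q ∈ os₁, q.1 ∈ X ∧ q.1 ∉ X₀ ∧ GdU R κU η X Y q.1 ∧ FOK p.b p.l 0 q.2 ∧ ∀ t ∈ q.2.trees, t.1 = true) →
        (∀ q ∈ os₂, q.1 ∈ X ∧ q.1 ∉ X₀ ∧ Good R κg ηg X q.1 ∧ FOK p.b p.l 0 q.2 ∧ ∀ t ∈ q.2.trees, t.1 = true) →
        X₀ \ Y ⊆ PZ → X₀.filter (fun v => (nI R X₀ v).card < Mt * b₂ + Ct) ⊆ PZ → PZ ⊆ X₀ →
        ((PZ.card + (X \ X₀).card + (X \ Y).card : ℕ) : ℝ) ≤ δ * X.card →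
        (∀ i, ∀ u ∈ Gu i, D i u ⊆ Y ∧ D i u ⊆ X₀) →
        (∀ i, ∀ j : ℕ, ((Gu i).filter (fun u => (D i u).card ≤ j)).card ≤ w₁ i + Kd * (j + 1)) →
        𝒟.card ≤ 6 → (∀ F ∈ 𝒟, F ⊆ X₀ ∧ γ * X.card ≤ (F.card : ℝ)) →
        (totB os₁ : ℝ) + C ≤ (1 - ω) * Y.card → ((totB os₁ + totB os₂ : ℕ) : ℝ) + ζ * X.card ≤ Y.card →
        ∃ S₁ S₂ : Finset V, EmbAllB R os₁ S₁ ∧ EmbAllB R os₂ S₂ ∧ S₁ ⊆ X₀ ∧ S₂ ⊆ X₀ ∧ Disjoint S₁ PZ ∧ Disjoint S₂ PZ ∧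
          Disjoint S₁ S₂ ∧
          (∀ v ∈ X, v ∉ S₁ → Good R κg ηg X v → Good R κ₂ η₂ (X₀ \ (S₁ ∪ S₂)) v) ∧
          (∀ F ∈ 𝒟, s₂ * (X₀ \ (S₁ ∪ S₂)).card ≤ ((F ∩ (X₀ \ (S₁ ∪ S₂))).card : ℝ)) ∧
          (∀ v ∈ X₀ \ (S₁ ∪ S₂), v ∉ PZ → b₂ ≤ (nI R (X₀ \ (S₁ ∪ S₂)) v).card) ∧
          ∀ i, ∀ j : ℕ, ((Gu i).filter (fun u => (D i u ∩ (X₀ \ (S₁ ∪ S₂))).card ≤ j)).card ≤ w₁ i + (K₁ * j + C₁) := by
  obtain ⟨hω0, hω1, hc0, hc1, hη0, hη1, hη₁0, hη₁1, hκ₀0, hκ₁0, hκ₁1, hκ0, hκ1, hs0, hγ₀0, hτ0, hσ₂0, hμ0, hκ₁η, hκs⟩ :=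
    P.num
  obtain ⟨hω0', hω1', hc0', hc1', hη0', hη1', hη₁0', hη₁1', hκ₀0', hκ₁0', hκ₁1', hκ0', hκ1', hs0', hγ₀0', hτ0', hσ₂0',
    hμ0', hκ₁η', hκs'⟩ := P'.num
  -- the constants of the rest
  obtain ⟨κm, hκm⟩ : ∃ κm : ℝ, κm = c * κg / 2 := ⟨_, rfl⟩
  have hκm0 : 0 < κm := by rw [hκm]; positivity
  obtain ⟨ηm, hηm⟩ : ∃ ηm : ℝ, ηm = 2 * ηg / c := ⟨_, rfl⟩
  have hηm1 : c * ηm = 2 * ηg := by rw [hηm]; field_simp
  have hηm2 : 4 * ηm ≤ η' := by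
    have h1 : c * (4 * ηm) ≤ c * η' := by linarith
    exact le_of_mul_le_mul_left h1 hc0
  have hηm3 : 4 * ηm ≤ c' * η₂ := by
    have h1 : c * (4 * ηm) ≤ c * (c' * η₂) := by linarith
    exact le_of_mul_le_mul_left h1 hc0
  obtain ⟨γm, hγm⟩ : ∃ γm : ℝ, γm = c * γ / 4 := ⟨_, rfl⟩
  have hγm0 : 0 < γm := by rw [hγm]; positivity
  obtain ⟨κU', hκU', hκU'1, hκU'2⟩ : ∃ κU' : ℝ, 0 < κU' ∧ 2 * κU' ≤ κ' ∧ κU' ≤ κm := by
    refine ⟨min (κ' / 2) κm, lt_min (by positivity) hκm0, ?_, min_le_right _ _⟩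
    linarith [min_le_left (κ' / 2) κm]
  obtain ⟨σ, hσ0, hσ1, hσ2⟩ : ∃ σ : ℝ, 0 < σ ∧ σ ≤ γ ∧ σ ≤ κg :=
    ⟨min γ κg, lt_min hγ hκg, min_le_left _ _, min_le_right _ _⟩
  have hcσ : 0 < c * σ := mul_pos hc0 hσ0
  obtain ⟨ε, hε0, hε1, hε2, hε3⟩ : ∃ ε : ℝ, 0 < ε ∧ 8 * ε ≤ σ₂ ∧ ε ≤ η₁ ∧ 4 * ε ≤ c * σ := by
    refine ⟨min (σ₂ / 8) (min η₁ (c * σ / 4)), lt_min (by positivity) (lt_min hη₁0 (by positivity)), ?_, ?_, ?_⟩
    · linarith [min_le_left (σ₂ / 8) (min η₁ (c * σ / 4))]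
    · exact (min_le_right _ _).trans (min_le_left _ _)
    · linarith [(min_le_right (σ₂ / 8) (min η₁ (c * σ / 4))).trans (min_le_right _ _)]
  refine ⟨c' * κm / 4, c' * γm / 8, by positivity, by positivity, ?_⟩
  intro κU hU0 hUκ
  obtain ⟨w₅, M₅, C₅, C₅', hM₅, hwC, hL⟩ := lights_fam p hp hab hD₀ P hU0 (by linarith) hε0 hε1 hε2 N Kd nf
  obtain ⟨w₆, M₆, C₆, δ₆, C₆', hM₆, hδ₆, h6⟩ := p2F p hp hab hD₀' P' hκU' hκU'1 hκm0 hγm0
    (κ' := c' * κm / 4) (by positivity) le_rfl hη₂ hηm3 (s' := c' * γm / 8) (by positivity) le_rfl N (M₅ + C₅) nf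
  -- the constant `δ`
  obtain ⟨δ, hδ0, hδ1, hδ2, hδ3, hδ4, hδ5⟩ : ∃ δ : ℝ, 0 < δ ∧ δ ≤ c / 16 ∧ δ ≤ c * σ / 16 ∧
      δ ≤ κU ^ 2 / 1024 ∧ δ ≤ μ / 32 ∧ δ ≤ δ₆ * c / 4 := by
    refine ⟨min (c / 16) (min (c * σ / 16) (min (κU ^ 2 / 1024) (min (μ / 32) (δ₆ * c / 4)))), ?_, ?_, ?_, ?_, ?_, ?_⟩
    · exact lt_min (by positivity) (lt_min (by positivity) (lt_min (by positivity) (lt_min (by positivity)
        (by positivity))))
    · exact min_le_left _ _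
    · exact (min_le_right _ _).trans (min_le_left _ _)
    · exact (min_le_right _ _).trans ((min_le_right _ _).trans (min_le_left _ _))
    · exact (min_le_right _ _).trans ((min_le_right _ _).trans ((min_le_right _ _).trans (min_le_left _ _)))
    · exact (min_le_right _ _).trans ((min_le_right _ _).trans ((min_le_right _ _).trans (min_le_right _ _)))
  obtain ⟨n₂, hn₂⟩ := exists_big [((w₅ : ℝ), c * σ / 16), ((8 : ℝ), 1), ((w₅ : ℝ), 1 / 16), ((C₆' : ℝ), c / 4),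
      ((C₆' : ℝ), ζ / 2)] (by
    intro q hq
    simp only [List.mem_cons, List.not_mem_nil, or_false] at hq
    rcases hq with rfl | rfl | rfl | rfl | rfl
    · show 0 < c * σ / 16
      positivity
    · exact one_pos
    · norm_num
    · show 0 < c / 4
      positivity
    · show 0 < ζ / 2
      positivity)
  refine ⟨δ, M₅ * M₆, M₅ * C₆ + C₅, M₆, C₆, 2 * (C₅' + n₂), hδ0,
    Nat.mul_pos (by omega) (by omega), ?_⟩
  intro V R hT X X₀ Y PZ ι Gu D w₁ 𝒟 b₂ os₁ os₂ hCX hYX hX₀X hlen₁ hlen₂ hos₁ hos₂ hPY hPlow hPX hsm hDYX hcnt h𝒟c h𝒟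
    hsz₁ hsz
  have g := hn₂ X.card (by omega)
  have g1 : (w₅ : ℝ) ≤ c * σ / 16 * X.card := g ((w₅ : ℝ), c * σ / 16) (by simp)
  have g2 : (8 : ℝ) ≤ 1 * X.card := g ((8 : ℝ), 1) (by simp)
  have g3 : (w₅ : ℝ) ≤ 1 / 16 * X.card := g ((w₅ : ℝ), 1 / 16) (by simp)
  have g4 : (C₆' : ℝ) ≤ c / 4 * X.card := g ((C₆' : ℝ), c / 4) (by simp)
  have g5 : (C₆' : ℝ) ≤ ζ / 2 * X.card := g ((C₆' : ℝ), ζ / 2) (by simp)
  obtain ⟨n, hn⟩ : ∃ n : ℝ, n = (X.card : ℝ) := ⟨_, rfl⟩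
  rw [← hn] at g1 g2 g3 g4 g5 hsm hsz
  have hn0 : 0 < n := by linarith
  push_cast at hsm
  have a0 : (0 : ℝ) ≤ (PZ.card : ℝ) := Nat.cast_nonneg _
  have a1 : (0 : ℝ) ≤ ((X \ X₀).card : ℝ) := Nat.cast_nonneg _
  have a2 : (0 : ℝ) ≤ ((X \ Y).card : ℝ) := Nat.cast_nonneg _
  have e1 : δ * n ≤ c / 16 * n := mul_le_mul_of_nonneg_right hδ1 hn0.le
  have e2 : δ * n ≤ c * σ / 16 * n := mul_le_mul_of_nonneg_right hδ2 hn0.le
  have e3 : δ * n ≤ κU ^ 2 / 1024 * n := mul_le_mul_of_nonneg_right hδ3 hn0.le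
  have e4 : δ * n ≤ μ / 32 * n := mul_le_mul_of_nonneg_right hδ4 hn0.le
  have e5 : δ * n ≤ δ₆ * c / 4 * n := mul_le_mul_of_nonneg_right hδ5 hn0.le
  have e6 : c * n ≤ 1 / 1024 * n := mul_le_mul_of_nonneg_right hc1 hn0.le
  have hYc : n = Y.card + (X \ Y).card := by
    have h1 := card_sdiff_add_card_eq_card hYX
    rw [hn]
    have h2 : (X.card : ℝ) = (X \ Y).card + Y.card := by exact_mod_cast h1.symm
    linarith
  have hnY : n ≤ 2 * Y.card := by linarith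
  have hY0 : (0 : ℝ) ≤ Y.card := Nat.cast_nonneg _
  have hYC : C₅' ≤ Y.card := by
    have h1 : (2 * (C₅' + n₂ : ℕ) : ℝ) ≤ n := by rw [hn]; exact_mod_cast hCX
    have h2 : (C₅' : ℝ) ≤ Y.card := by
      push_cast at h1
      have : (0 : ℝ) ≤ n₂ := Nat.cast_nonneg _
      linarith
    exact_mod_cast h2
  -- the family
  have hX : X.Nonempty := by
    rw [← card_pos]
    have : (0 : ℝ) < X.card := by rw [← hn]; exact hn0
    exact_mod_cast this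
  obtain ⟨𝓕x, h𝓕x, hfin⟩ := final_fam (R := R) (X := X) (𝒟 := 𝒟) (κ₁ := κg) (η₁ := ηg) (κ := κm) (η := ηm)
    (γ := γ) (s := γm) (σ := σ) (δ := c * σ / 4) (ε := ε) (c := c) (fun F hF => ⟨(h𝒟 F hF).1.trans hX₀X, (h𝒟 F hF).2⟩) h𝒟c
    hX hκm0 (by rw [hηm]; positivity) hσ0 hε0 hc0 hσ1 (by linarith) hσ2 (by rw [hκm]) (by linarith) hγm0 (by rw [hγm])
  have h𝓕x' : 𝓕x.card ≤ 8 * Y.card ^ 3 := by
    have h1 : (X.card : ℝ) ^ 2 ≤ Y.card ^ 3 := by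
      rw [← hn]
      have h2 : n ^ 2 ≤ (2 * Y.card) ^ 2 := pow_le_pow_left₀ hn0.le hnY 2
      have h3 : (4 : ℝ) * Y.card ^ 2 ≤ Y.card * Y.card ^ 2 := by
        apply mul_le_mul_of_nonneg_right _ (by positivity)
        linarith
      calc n ^ 2 ≤ (2 * (Y.card : ℝ)) ^ 2 := h2
        _ = 4 * Y.card ^ 2 := by ring
        _ ≤ Y.card * Y.card ^ 2 := h3
        _ = Y.card ^ 3 := by ring
    have h2 : X.card ^ 2 ≤ Y.card ^ 3 := by exact_mod_cast h1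
    exact h𝓕x.trans (Nat.mul_le_mul_left _ h2)
  have hsm5 : ((PZ.card + (X \ X₀).card : ℕ) : ℝ) ≤ κU ^ 2 / 128 * Y.card := by
    push_cast
    have hκU2 : 0 < κU ^ 2 := by positivity
    have h1 : κU ^ 2 / 1024 * n ≤ κU ^ 2 / 1024 * (2 * Y.card) := mul_le_mul_of_nonneg_left hnY (by positivity)
    have h2 : κU ^ 2 / 1024 * (2 * (Y.card : ℝ)) ≤ κU ^ 2 / 128 * Y.card := by nlinarith
    linarith
  have hsm5' : ((PZ.card + ((X \ X₀) ∩ Y).card : ℕ) : ℝ) ≤ μ / 2 * Y.card := by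
    push_cast
    have h0 : (((X \ X₀) ∩ Y).card : ℝ) ≤ (X \ X₀).card := by exact_mod_cast card_le_card inter_subset_left
    have h1 : μ / 32 * n ≤ μ / 32 * (2 * Y.card) := mul_le_mul_of_nonneg_left hnY (by positivity)
    have h2 : μ / 32 * (2 * (Y.card : ℝ)) ≤ μ / 2 * Y.card := by nlinarith
    linarith
  obtain ⟨Zt, S, Q, q1, q2, q3, q4, q5, q6, q7, q8, q9, q10, q11, q12⟩ := hL hT (U := X) (X₀ := X₀) (Y := Y)
    (PZ := PZ) Gu D w₁ (M₆ * b₂ + C₆) os₁ hYC hYX (by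
      rw [← hn]
      have h1 : κU * n ≤ κU * (2 * Y.card) := mul_le_mul_of_nonneg_left hnY hU0.le
      have h2 : κU * (2 * (Y.card : ℝ)) = 2 * κU * Y.card := by ring
      have h3 : 2 * κU * Y.card ≤ κ * Y.card := mul_le_mul_of_nonneg_right hUκ hY0
      linarith) hlen₁ (fun q hq => ⟨(hos₁ q hq).1, (hos₁ q hq).2.2.1, (hos₁ q hq).2.2.2.1, (hos₁ q hq).2.2.2.2⟩)
    (fun q hq => (hos₁ q hq).2.1) (by
      refine Subset.trans ?_ hPlow
      intro v hv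
      rw [mem_filter] at hv ⊢
      refine ⟨hv.1, ?_⟩
      have h1 : M₅ * (M₆ * b₂ + C₆) + C₅ = M₅ * M₆ * b₂ + (M₅ * C₆ + C₅) := by ring
      rw [← h1]
      exact hv.2) hPX hsm5 hsm5' hDYX hcnt (by
      have h1 : ((C₅' : ℕ) : ℝ) ≤ ((2 * (C₅' + n₂) : ℕ) : ℝ) := by exact_mod_cast (by omega : C₅' ≤ 2 * (C₅' + n₂))
      linarith) 𝓕x h𝓕x'
  obtain ⟨W, hW⟩ : ∃ W, W = PZ ∪ (X \ X₀) ∪ Zt := ⟨_, rfl⟩
  rw [← hW] at q6 q7 q9 q10
  have hWm : ∀ x, x ∈ W ↔ x ∈ PZ ∨ (x ∈ X ∧ x ∉ X₀) ∨ x ∈ Zt := by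
    intro x
    rw [hW, mem_union, mem_union, mem_sdiff]
    tauto
  have hSX₀ : S ⊆ X₀ := by
    intro x hx
    have h1 := mem_sdiff.1 (q6 hx)
    rw [hWm, not_or, not_or] at h1
    by_contra h2
    exact h1.2.2.1 ⟨hYX h1.1, h2⟩
  have hSPZ : ∀ x ∈ S, x ∉ PZ := by
    intro x hx h
    have h1 := mem_sdiff.1 (q6 hx)
    exact h1.2 ((hWm x).2 (Or.inl h))
  have hS₁X₀ : Zt ∪ S ⊆ X₀ := union_subset q3 hSX₀
  -- the rest
  obtain ⟨X₂, hX₂⟩ : ∃ X₂, X₂ = X \ (Zt ∪ S) := ⟨_, rfl⟩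
  obtain ⟨A, hA⟩ : ∃ A, A = Y \ W := ⟨_, rfl⟩
  rw [← hA] at q6 q7 q9 q10
  have hAX : A ⊆ X := by rw [hA]; exact sdiff_subset.trans hYX
  have hXA : ((X \ A).card : ℝ) ≤ δ * n + w₅ := by
    have h1 : X \ A ⊆ (X \ Y) ∪ (PZ ∪ ((X \ X₀) ∪ Zt)) := by
      intro x hx
      rw [mem_sdiff, hA, mem_sdiff, not_and, not_not] at hx
      rw [mem_union, mem_union, mem_union, mem_sdiff, mem_sdiff]
      by_cases hxY : x ∈ Y
      · have h2 := (hWm x).1 (hx.2 hxY)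
        tauto
      · exact Or.inl ⟨hx.1, hxY⟩
    have h2 := card_union_le (X \ Y) (PZ ∪ ((X \ X₀) ∪ Zt))
    have h3 := card_union_le PZ ((X \ X₀) ∪ Zt)
    have h4 := card_union_le (X \ X₀) Zt
    have h5 := card_le_card h1
    have h6 : (X \ A).card ≤ (X \ Y).card + (PZ.card + ((X \ X₀).card + w₅)) := by omega
    have h7 : ((X \ A).card : ℝ) ≤ (X \ Y).card + (PZ.card + ((X \ X₀).card + w₅)) := by exact_mod_cast h6
    linarith
  have hnA : n ≤ 2 * A.card := by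
    have h1 := card_sdiff_add_card_eq_card hAX
    have h2 : n = (X \ A).card + A.card := by
      rw [hn]
      exact_mod_cast h1.symm
    linarith
  have hQX₂ : Q ⊆ X₂ := by
    intro x hx
    have h1 := q7 hx
    rw [hA, mem_sdiff] at h1
    rw [hX₂, mem_sdiff, mem_union, not_or]
    refine ⟨hYX h1.1, fun h => h1.2 ((hWm x).2 (Or.inr (Or.inr h))), fun h => disjoint_left.1 q8 h hx⟩
  have hX₂X : X₂ ⊆ X := by rw [hX₂]; exact sdiff_subset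
  obtain ⟨hgood, hlin⟩ := hfin A Q X₂ hAX (by rw [← hn]; exact hnA) q7 q10 q9 hX₂X hQX₂ (by
    rw [← hn]
    have h1 : (((X \ A) \ X₂).card : ℝ) ≤ (X \ A).card := by exact_mod_cast card_le_card sdiff_subset
    have h2 : c * σ / 16 * n + c * σ / 16 * n ≤ c * σ / 4 * n := by nlinarith
    linarith)
  have hX₂c : c * n / 2 ≤ X₂.card := by
    have h1 : (Q.card : ℝ) ≤ X₂.card := by exact_mod_cast card_le_card hQX₂
    have h2 : c * (n / 2) ≤ c * A.card := mul_le_mul_of_nonneg_left (by linarith) hc0.le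
    linarith
  obtain ⟨X₀', hX₀'⟩ : ∃ X₀', X₀' = X₀ \ (Zt ∪ S) := ⟨_, rfl⟩
  have hX₀'2 : X₀' ⊆ X₂ := by
    rw [hX₀', hX₂]
    exact sdiff_subset_sdiff hX₀X (Subset.refl _)
  have hX₂0 : ((X₂ \ X₀').card : ℝ) ≤ (X \ X₀).card := by
    apply Nat.cast_le.2
    apply card_le_card
    intro x hx
    rw [hX₂, hX₀', mem_sdiff, mem_sdiff, mem_sdiff, not_and, not_not] at hx
    rw [mem_sdiff]
    exact ⟨hx.1.1, fun h => hx.1.2 (hx.2 h)⟩
  obtain ⟨Y₂, hY₂⟩ : ∃ Y₂, Y₂ = Y \ (Zt ∪ S) := ⟨_, rfl⟩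
  have hY₂X : Y₂ ⊆ X₂ := by
    rw [hY₂, hX₂]
    exact sdiff_subset_sdiff hYX (Subset.refl _)
  have hX₂Y : ((X₂ \ Y₂).card : ℝ) ≤ (X \ Y).card := by
    apply Nat.cast_le.2
    apply card_le_card
    intro x hx
    rw [hX₂, hY₂, mem_sdiff, mem_sdiff, mem_sdiff, not_and, not_not] at hx
    rw [mem_sdiff]
    exact ⟨hx.1.1, fun h => hx.1.2 (hx.2 h)⟩
  have hX₂Y2 : (X₂.card : ℝ) ≤ 2 * Y₂.card := by
    have h1 := card_sdiff_add_card_eq_card hY₂X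
    have h2 : (X₂.card : ℝ) = (X₂ \ Y₂).card + Y₂.card := by exact_mod_cast h1.symm
    linarith
  have hYS : (Y.card : ℝ) ≤ Y₂.card + totB os₁ := by
    have h1 : Y ⊆ Y₂ ∪ (Zt ∪ S) := by
      intro x hx
      rw [mem_union, hY₂, mem_sdiff]
      by_cases h : x ∈ Zt ∪ S
      · exact Or.inr h
      · exact Or.inl ⟨hx, h⟩
    have h2 := (card_le_card h1).trans (card_union_le _ _)
    rw [EmbAllB.card q1] at h2
    exact_mod_cast h2
  obtain ⟨D₂, hD₂⟩ : ∃ D₂ : Fin nf → ι → Finset V, D₂ = fun i u => D i u ∩ X₀' := ⟨_, rfl⟩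
  obtain ⟨𝒟₂, h𝒟₂⟩ : ∃ 𝒟₂ : Finset (Finset V), 𝒟₂ = 𝒟.image (fun F => F ∩ X₀') := ⟨_, rfl⟩
  obtain ⟨Zt', S', r1, r2, r3, r4, r5, r6, r7, r8, r9, r10, r11, r12, r13⟩ := h6 hT (U := X₂) (X₀ := X₀') (Y := Y₂)
    (PZ := PZ) Gu D₂ w₁ 𝒟₂ b₂ os₂ (by
      have h1 : (C₆' : ℝ) ≤ X₂.card := by linarith
      exact_mod_cast h1) hY₂X hlen₂ (by
      intro q hq
      obtain ⟨h1, h2, h3, h4, h5⟩ := hos₂ q hq
      have h6 : q.1 ∈ X₂ := by
        rw [hX₂, mem_sdiff]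
        exact ⟨h1, fun h => h2 (hS₁X₀ h)⟩
      refine ⟨h6, ?_, h4, h5⟩
      refine GdU.of_good (hgood _ h1 h3) hY₂X hκU'2 ?_
      have hηm0 : 0 ≤ ηm := by rw [hηm]; positivity
      have h7 : ηm * X₂.card ≤ ηm * (2 * Y₂.card) := mul_le_mul_of_nonneg_left hX₂Y2 hηm0
      have h8 : 2 * ηm * Y₂.card ≤ η' * Y₂.card := mul_le_mul_of_nonneg_right (by linarith) (Nat.cast_nonneg _)
      linarith) (by
      intro q hq h
      rw [hX₀', mem_sdiff] at h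
      exact (hos₂ q hq).2.1 h.1) (by
      intro v hv
      rw [mem_filter] at hv
      by_contra hvP
      have hvX : v ∈ X₀ := by
        have := hv.1
        rw [hX₀', mem_sdiff] at this
        exact this.1
      have hvS : v ∉ Zt ∪ S := by
        have := hv.1
        rw [hX₀', mem_sdiff] at this
        exact this.2
      have hvY : v ∈ Y := by
        by_contra h
        exact hvP (hPY (mem_sdiff.2 ⟨hvX, h⟩))
      have h1 := q11 v hvY hvX (fun h => hvS (mem_union_left _ h)) (fun h => absurd h hvP)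
      rw [← hX₀'] at h1
      omega) (by
      intro v hv
      rw [hX₀', mem_sdiff, mem_union, not_or]
      exact ⟨hPX hv, fun h => disjoint_left.1 q4 h hv, fun h => hSPZ v h hv⟩) (by
      push_cast
      have h0 : (X₀' \ X₂).card = 0 := by
        rw [card_eq_zero, sdiff_eq_empty_iff_subset]
        exact hX₀'2
      rw [h0]
      have h1 : δ₆ * (c * n / 2) ≤ δ₆ * X₂.card := mul_le_mul_of_nonneg_left hX₂c hδ₆.le
      have h2 : 0 ≤ δ₆ * c * n := by positivity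
      push_cast
      linarith) (by
      intro i u hu
      rw [hD₂]
      refine ⟨?_, inter_subset_right⟩
      intro v hv
      rw [mem_inter, hX₀', mem_sdiff] at hv
      rw [hY₂, mem_sdiff]
      exact ⟨(hDYX i u hu).1 hv.1, hv.2.2⟩) (by
      intro i j
      have h1 := q12 i j
      rw [← hX₀'] at h1
      rw [hD₂]
      refine h1.trans ?_
      have h2 : (M₅ + C₅) * (j + 1) = M₅ * j + C₅ + (M₅ + C₅ * j) := by ring
      rw [h2]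
      generalize M₅ * j = a
      generalize C₅ * j = b
      omega) (by rw [h𝒟₂]; exact card_image_le.trans h𝒟c) (by
      intro F' hF'
      rw [h𝒟₂, mem_image] at hF'
      obtain ⟨F, hF, rfl⟩ := hF'
      refine ⟨inter_subset_right.trans hX₀'2, (hlin F hF).trans ?_⟩
      apply Nat.cast_le.2
      apply card_le_card
      intro v hv
      rw [mem_inter] at hv
      rw [mem_inter, hX₀', mem_sdiff]
      refine ⟨hv.1, (h𝒟 F hF).1 hv.1, ?_⟩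
      have := hv.2
      rw [hX₂, mem_sdiff] at this
      exact this.2) (by
      have h1 : ((totB os₁ + totB os₂ : ℕ) : ℝ) = totB os₁ + totB os₂ := by push_cast; ring
      rw [h1] at hsz
      have h2 : (Y₂.card : ℝ) ≤ n := by
        rw [hn]
        exact_mod_cast card_le_card (hY₂X.trans hX₂X)
      have h3 : ω' * Y₂.card ≤ ζ / 2 * n := mul_le_mul (by linarith) h2 (Nat.cast_nonneg _) (by linarith)
      linarith)
  have hS₂ : ∀ x ∈ Zt' ∪ S', x ∈ X₀' := by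
    intro x hx
    rcases mem_union.1 hx with h | h
    · exact r3 h
    · exact r7 h
  have hrest : X₀ \ ((Zt ∪ S) ∪ (Zt' ∪ S')) = X₀' \ (Zt' ∪ S') := by
    rw [hX₀']
    ext x
    simp only [mem_sdiff, mem_union]
    tauto
  have hrX : X₀' \ (Zt' ∪ S') ⊆ X₀' := sdiff_subset
  refine ⟨Zt ∪ S, Zt' ∪ S', q1, r1, hS₁X₀, ?_, ?_, ?_, ?_, ?_, ?_, ?_, ?_⟩
  · intro x hx
    have h1 := hS₂ x hx
    rw [hX₀', mem_sdiff] at h1
    exact h1.1
  · rw [disjoint_left]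
    intro x hx hxP
    rcases mem_union.1 hx with h | h
    · exact disjoint_left.1 q4 h hxP
    · exact hSPZ x h hxP
  · rw [disjoint_left]
    intro x hx hxP
    rcases mem_union.1 hx with h | h
    · exact disjoint_left.1 r4 h hxP
    · exact disjoint_left.1 r9 h hxP
  · rw [disjoint_left]
    intro x hx hx'
    have h1 := hS₂ x hx'
    rw [hX₀', mem_sdiff] at h1
    exact h1.2 hx
  · intro v hv hvS hg
    rw [hrest]
    have h2 : v ∉ Zt ∪ S → Good R (c' * κm / 4) η₂ (X₀' \ (Zt' ∪ S')) v := by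
      intro h
      exact r10 v (by rw [hX₂]; exact mem_sdiff.2 ⟨hv, h⟩) (hgood v hv hg)
    exact h2 hvS
  · intro F hF
    rw [hrest]
    refine (r11 (F ∩ X₀') (by rw [h𝒟₂]; exact mem_image_of_mem _ hF)).trans ?_
    apply Nat.cast_le.2
    apply card_le_card
    intro v hv
    rw [mem_inter, mem_inter] at hv
    exact mem_inter.2 ⟨hv.1.1, hv.2⟩
  · intro v hv hvP
    rw [hrest] at hv ⊢
    have h1 := hrX hv
    have h2 := h1
    rw [hX₀', mem_sdiff] at h2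
    have hvY : v ∈ Y := by
      by_contra h
      exact hvP (hPY (mem_sdiff.2 ⟨h2.1, h⟩))
    refine r12 v (by rw [hY₂]; exact mem_sdiff.2 ⟨hvY, h2.2⟩) h1 ?_ (fun h => absurd h hvP)
    intro h
    exact (mem_sdiff.1 hv).2 (mem_union_left _ h)
  · intro i j
    rw [hrest]
    refine (card_le_card ?_).trans (r13 i j)
    intro u hu
    rw [mem_filter] at hu ⊢
    refine ⟨hu.1, (card_le_card ?_).trans hu.2⟩
    rw [hD₂]
    exact inter_subset_inter inter_subset_left (Subset.refl _)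

end AEG
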