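import Pool.Agent.AEG.CoreX

/-!
# Several hosts: the common set of super vertices, and the placing of the top parts
-/

namespace AEG

open Finset AE15 SPD
open scoped Classical

variable {V : Type} {R : V → V → Prop}

/-- the forests are embedded disjointly at their hosts, onto `S` -/
def EmbAll (R : V → V → Prop) : List (V × Fo) → Finset V → Prop
  | [], S => S = ∅
  | p :: os, S => ∃ S₁ S₂, Disjoint S₁ S₂ ∧ S = S₁ ∪ S₂ ∧ Emb R p.2 (R p.1) S₁ ∧ EmbAll R os S₂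

/-- partial embeddings of several forests at their hosts -/
def PEs (R : V → V → Prop) : List (V × Fo) → Finset V → List (Item V) → Prop
  | [], Z, L => Z = ∅ ∧ L = []
  | p :: os, Z, L => ∃ Z₁ Z₂ L₁ L₂, Disjoint Z₁ Z₂ ∧ Z = Z₁ ∪ Z₂ ∧ L = L₁ ++ L₂ ∧ PE R p.2 (R p.1) Z₁ L₁ ∧
      PEs R os Z₂ L₂

/-- total number of vertices of the forests -/
def tot (os : List (V × Fo)) : ℕ := (os.map (fun p => p.2.size)).sum

theorem EmbAll.card : ∀ {os : List (V × Fo)} {S : Finset V}, EmbAll R os S → S.card = tot os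
  | [], S, h => by rw [show S = ∅ from h]; rfl
  | p :: os, S, ⟨S₁, S₂, h1, h2, h3, h4⟩ => by
    rw [h2, card_union_of_disjoint h1, h3.card, EmbAll.card h4]
    simp [tot]

theorem PEs.size : ∀ {os : List (V × Fo)} {Z : Finset V} {L : List (Item V)}, PEs R os Z L →
    tot os = Z.card + isz L
  | [], Z, L, ⟨h1, h2⟩ => by rw [h1, h2]; rfl
  | p :: os, Z, L, ⟨Z₁, Z₂, L₁, L₂, h1, h2, h3, h4, h5⟩ => by
    have h6 := PEs.size h5
    have h7 := h4.size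
    rw [h2, h3, card_union_of_disjoint h1]
    have h8 : isz (L₁ ++ L₂) = isz L₁ + isz L₂ := by simp [isz]
    rw [h8]
    have h9 : tot (p :: os) = p.2.size + tot os := by simp [tot]
    omega

/-- completing partial embeddings -/
theorem PEs.complete : ∀ {os : List (V × Fo)} {Z : Finset V} {L : List (Item V)}, PEs R os Z L →
    ∀ A, Disjoint Z A → EmbX R L A → EmbAll R os (Z ∪ A)
  | [], Z, L, ⟨h1, h2⟩, A, _, hA => by
    rw [h2] at hA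
    rw [h1, show A = ∅ from hA]
    simp [EmbAll]
  | p :: os, Z, L, ⟨Z₁, Z₂, L₁, L₂, h1, h2, h3, h4, h5⟩, A, hd, hA => by
    rw [h3] at hA
    rw [h2] at hd ⊢
    obtain ⟨A₁, A₂, h6, rfl, h7, h8⟩ := embX_append.1 hA
    rw [disjoint_union_left, disjoint_union_right, disjoint_union_right] at hd
    obtain ⟨⟨h9, h10⟩, h11, h12⟩ := hd
    refine ⟨Z₁ ∪ A₁, Z₂ ∪ A₂, ?_, ?_, h4.complete A₁ h9 h7, PEs.complete h5 A₂ h12 h8⟩
    · simp only [disjoint_union_left, disjoint_union_right]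
      exact ⟨⟨h1, h11.symm⟩, h10, h6⟩
    · ext v
      simp only [mem_union]
      tauto

/-- placing the top parts of several forests -/
theorem place_all {X Ks : Finset V} {k : ℝ} {b : ℕ} (hb : 1 ≤ b) (hK : Ks ⊆ X) (M : ℕ) :
    ∀ (os : List (V × Fo)) (A : Finset V), (∀ p ∈ os, p.1 ∈ Lv R X Ks k M ∧ p.1 ∈ A ∧ p.2.len ≤ b ∧ p.2.Deg b) →
      (A.card : ℝ) + (os.length + 1 : ℕ) * cnt b M ≤ k →
      ∃ (Z : Finset V) (L : List (Item V)), PEs R os Z L ∧ Z ⊆ X ∧ Disjoint Z A ∧ Z.card ≤ os.length * cnt b M ∧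
        L.length ≤ os.length * b ^ (M + 1) ∧ (∀ q ∈ L, ∃ z ∈ Ks, q.1 = R z)
  | [], A, _, _ => ⟨∅, [], ⟨rfl, rfl⟩, by simp, by simp, by simp, by simp, by simp⟩
  | p :: os, A, h, hk => by
    have hc0 : (0 : ℝ) ≤ cnt b M := by positivity
    have hl : ((p :: os).length + 1 : ℕ) = ((os.length + 1 : ℕ) : ℝ) + 1 := by
      simp only [List.length_cons]
      push_cast
      ring
    rw [hl] at hk
    have hol : (0 : ℝ) ≤ ((os.length + 1 : ℕ) : ℝ) * cnt b M := by positivity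
    obtain ⟨h1, h2, h3, h4⟩ := h p List.mem_cons_self
    obtain ⟨Z₁, L₁, hPE, hZX, hZA, hZc, hLc, hLh⟩ := placing hb hK M p.1 p.2 A h1 h2 h3 h4 (by linarith)
    obtain ⟨Z₂, L₂, hPE2, hZX2, hZA2, hZc2, hLc2, hLh2⟩ := place_all hb hK M os (A ∪ Z₁) (by
      intro q hq
      obtain ⟨h5, h6, h7, h8⟩ := h q (List.mem_cons_of_mem _ hq)
      exact ⟨h5, mem_union_left _ h6, h7, h8⟩) (by
      have h5 : ((A ∪ Z₁).card : ℝ) ≤ A.card + cnt b M := by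
        exact_mod_cast (card_union_le A Z₁).trans (by omega)
      linarith)
    rw [disjoint_union_right] at hZA2
    refine ⟨Z₁ ∪ Z₂, L₁ ++ L₂, ⟨Z₁, Z₂, L₁, L₂, hZA2.2.symm, rfl, rfl, hPE, hPE2⟩, union_subset hZX hZX2,
      disjoint_union_left.2 ⟨hZA, hZA2.1⟩, ?_, ?_, ?_⟩
    · have h5 := card_union_le Z₁ Z₂
      have h6 : (p :: os).length * cnt b M = os.length * cnt b M + cnt b M := by
        simp only [List.length_cons]
        ring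
      omega
    · rw [List.length_append]
      have h6 : (p :: os).length * b ^ (M + 1) = os.length * b ^ (M + 1) + b ^ (M + 1) := by
        simp only [List.length_cons]
        ring
      omega
    · intro q hq
      rcases List.mem_append.1 hq with h5 | h5
      · obtain ⟨z, h6, _, h7⟩ := hLh q h5
        exact ⟨z, h6, h7⟩
      · exact hLh2 q h5

/-- **Hosts**: a small set of super vertices which is reached robustly from all hosts `y ∈ Ys` -/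
theorem multi_hosts (hT : AE32.Tour R) {U P Ys : Finset V} {y x : V} {κc t ξ η κ₀ η₁ ρ : ℝ} (h0 : 0 < κ₀)
    (hκ : 20 * κ₀ ≤ η₁) (hη₁ : η₁ ≤ 1) (hκc : 0 < κc) (hκc1 : κc ≤ 1) (hξ : 0 < ξ) (hξ1 : ξ ≤ 1) (hPU : P ⊆ U)
    (hYU : Ys ⊆ U) (hyY : y ∈ Ys) (hxP : x ∈ P) (hξU : ξ * U.card ≤ P.card)
    (hRea : ∀ z ∈ Ys, Rea R U P (κc * U.card) t z)
    (hdom : ∀ u ∈ P, R y u ∨ ∃ w ∈ P, R y w ∧ R w u ∧ Rea R U P (κc * U.card) t w)
    (ht : (Ys.card + 1) * t ≤ η * P.card)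
    (hη : η ≤ 1 / 8) (hρ0 : 0 < ρ) (hρ : 2 * ρ ≤ η) (hρκ : ρ ≤ κc / 8) (hn : 2 ≤ ρ * P.card) (hn' : 8 ≤ κ₀ * P.card) :
    ∃ (w : V) (Ks : Finset V), w ∈ U ∧ ((w = y ∧ R y x) ∨ (w ∈ P ∧ R y w ∧ R w x)) ∧ Ks ⊆ P ∧
      (∀ z ∈ Ks, ∃ Y ⊆ P, ((P \ Y).card : ℝ) ≤ 2 * η * P.card ∧ Super R (κ₀ ^ 2 / 4) η₁ (η₁ / 8) Y z) ∧
      (Ks.card : ℝ) ≤ ρ * P.card + 2 ∧
      (∀ z ∈ Ys, z ∈ Lv R U Ks (ρ * ξ * κc / 4 * U.card) (⌈8 / κc⌉₊ + 1)) ∧
      w ∈ Lv R U Ks (ρ * ξ * κc / 4 * U.card) (⌈8 / κc⌉₊ + 1) := by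
  have hn0 : (0 : ℝ) ≤ P.card := by positivity
  have hU0 : (0 : ℝ) ≤ U.card := by positivity
  have hWf : ∀ z : V, ∃ W : Finset V, z ∈ Ys → Rch R U (κc * U.card) z W ∧ ((P \ W).card : ℝ) ≤ t := by
    intro z
    by_cases hz : z ∈ Ys
    · obtain ⟨W, h1, h2⟩ := hRea z hz
      exact ⟨W, fun _ => ⟨h1, h2⟩⟩
    · exact ⟨∅, fun h => absurd h hz⟩
  choose Wf hWf using hWf
  have ht0 : 0 ≤ t := le_trans (by positivity) (hWf y hyY).2
  obtain ⟨w, W₂, hwU, hwx, hW₂, hW₂t⟩ : ∃ (w : V) (W₂ : Finset V), w ∈ U ∧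
      ((w = y ∧ R y x) ∨ (w ∈ P ∧ R y w ∧ R w x)) ∧ Rch R U (κc * U.card) w W₂ ∧ ((P \ W₂).card : ℝ) ≤ t := by
    rcases hdom x hxP with h | ⟨w, h1, h2, h3, W₂, h4, h5⟩
    · exact ⟨y, Wf y, hYU hyY, Or.inl ⟨rfl, h⟩, (hWf y hyY).1, (hWf y hyY).2⟩
    · exact ⟨w, W₂, hPU h1, Or.inr ⟨h1, h2, h3⟩, h4, h5⟩
  obtain ⟨W, hWd⟩ : ∃ W : Finset V, W = P.filter (fun v => (∀ z ∈ Ys, v ∈ Wf z) ∧ v ∈ W₂) := ⟨_, rfl⟩
  have hWP : W ⊆ P := by rw [hWd]; exact filter_subset _ _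
  have hWc : ((P \ W).card : ℝ) ≤ η * P.card := by
    have h1 : P \ W ⊆ (Ys.biUnion (fun z => P \ Wf z)) ∪ (P \ W₂) := by
      intro v hv
      rw [hWd, mem_sdiff, mem_filter] at hv
      rw [mem_union, mem_biUnion, mem_sdiff]
      by_cases h2 : v ∈ W₂
      · left
        have h3 : ¬ ∀ z ∈ Ys, v ∈ Wf z := fun h => hv.2 ⟨hv.1, h, h2⟩
        push Not at h3
        obtain ⟨z, hz, h4⟩ := h3
        exact ⟨z, hz, mem_sdiff.2 ⟨hv.1, h4⟩⟩
      · exact Or.inr ⟨hv.1, h2⟩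
    have h2 : ((Ys.biUnion (fun z => P \ Wf z)).card : ℝ) ≤ Ys.card * t := by
      have h3 : ((Ys.biUnion (fun z => P \ Wf z)).card : ℝ) ≤ ∑ z ∈ Ys, ((P \ Wf z).card : ℝ) := by
        exact_mod_cast card_biUnion_le
      refine h3.trans ?_
      calc ∑ z ∈ Ys, ((P \ Wf z).card : ℝ) ≤ ∑ z ∈ Ys, t := sum_le_sum (fun z hz => (hWf z hz).2)
        _ = Ys.card * t := by rw [sum_const, nsmul_eq_mul]
    have h3 : ((P \ W).card : ℝ) ≤ (Ys.biUnion (fun z => P \ Wf z)).card + (P \ W₂).card := by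
      exact_mod_cast (card_le_card h1).trans (card_union_le _ _)
    linarith
  obtain ⟨Ks, hKsW, hKs1, hKs2, hKs3⟩ := exists_hosts hT (η := η) h0 hκ hη₁ hWP hWc hη hρ0 hρ hn hn'
  have hρξ : ρ * ξ ≤ ρ * 1 := mul_le_mul_of_nonneg_left hξ1 hρ0.le
  have hKsc : ρ * ξ * U.card ≤ Ks.card := by
    have h1 : ρ * (ξ * U.card) ≤ ρ * P.card := mul_le_mul_of_nonneg_left hξU hρ0.le
    have h2 : ρ * ξ * U.card = ρ * (ξ * U.card) := by ring
    linarith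
  refine ⟨w, Ks, hwU, hwx, hKsW.trans hWP, hKs1, hKs2, fun z hz => ?_, ?_⟩
  · refine levels hT hκc hκc1 (by positivity) (by linarith) (hWf z hz).1 (hYU hz) (fun v hv => ?_) hKsc
    have h1 := hKsW hv
    rw [hWd, mem_filter] at h1
    exact h1.2.1 z hz
  · refine levels hT hκc hκc1 (by positivity) (by linarith) hW₂ hwU (fun v hv => ?_) hKsc
    have h1 := hKsW hv
    rw [hWd, mem_filter] at h1
    exact h1.2.2

end AEG
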