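import Pool.Agent.AEG.PrepR

/-!
# Packing on both sides of a cut

`packTwo`: forests with arcs towards their hosts are embedded in `P₁` and forests with arcs leaving their hosts are
embedded in `P₂`, only boundedly many vertices outside the two parts are used, and a given set `T` is avoided.
-/

set_option autoImplicit false

namespace AEG

open Finset AE15 AED AEB SPD
open scoped Classical

variable {V : Type} {R : V → V → Prop}

theorem rea_sub {U P P' : Finset V} {k t : ℝ} {w : V} (h : Rea R U P k t w) (hP : P' ⊆ P) : Rea R U P' k t w := by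
  obtain ⟨W, h1, h2⟩ := h
  refine ⟨W, h1, le_trans ?_ h2⟩
  exact_mod_cast card_le_card (sdiff_subset_sdiff hP (Subset.refl _))

/-- removing a bounded set from the part -/
theorem PackH.sdiff {b l N K Mc e e₀ : ℕ} {κc ξ₀ s₁ τ₁ η η' : ℝ} {U P F₀ : Finset V} {y : V} {F : Fd}
    {os : List (V × Fd)} {t : ℝ} (h : PackH R b l N K Mc e κc ξ₀ s₁ τ₁ η' U P y F os t) (hη0 : 0 ≤ η') (hη : 2 * η' ≤ η)
    (hs : 0 ≤ s₁) (hτ : 0 ≤ τ₁) (hF₀ : F₀.card ≤ e₀) (h1 : 2 * e₀ ≤ P.card)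
    (h2 : (e₀ : ℝ) ≤ s₁ / 2 * P.card) (h3 : (e₀ : ℝ) ≤ τ₁ / 2 * P.card) :
    PackH R b l N K Mc (Mc * e₀ + e) κc (ξ₀ / 2) (s₁ / 2) (τ₁ / 2) η U (P \ F₀) y F os t := by
  have hc1 : P.card ≤ (P \ F₀).card + e₀ := by
    have := le_card_sdiff F₀ P
    omega
  have hc2 : (P \ F₀).card ≤ P.card := card_le_card sdiff_subset
  have hc1R : (P.card : ℝ) ≤ (P \ F₀).card + e₀ := by exact_mod_cast hc1
  have hc2R : ((P \ F₀).card : ℝ) ≤ P.card := by exact_mod_cast hc2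
  have h1R : 2 * (e₀ : ℝ) ≤ P.card := by exact_mod_cast h1
  have hhalf : (P.card : ℝ) ≤ 2 * (P \ F₀).card := by linarith
  have hrm : ∀ u : V, (P.filter (fun w => R u w ∧ Rea R U P (κc * U.card) t w)).card ≤
      ((P \ F₀).filter (fun w => R u w ∧ Rea R U (P \ F₀) (κc * U.card) t w)).card + e₀ := by
    intro u
    have h4 : P.filter (fun w => R u w ∧ Rea R U P (κc * U.card) t w) ⊆
        ((P \ F₀).filter (fun w => R u w ∧ Rea R U (P \ F₀) (κc * U.card) t w)) ∪ F₀ := by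
      intro w hw
      rw [mem_filter] at hw
      rw [mem_union, mem_filter, mem_sdiff]
      by_cases h5 : w ∈ F₀
      · exact Or.inr h5
      · exact Or.inl ⟨⟨hw.1, h5⟩, hw.2.1, rea_sub hw.2.2 sdiff_subset⟩
    have h5 := (card_le_card h4).trans (card_union_le _ _)
    omega
  refine ⟨sdiff_subset.trans h.sub, h.len, h.fok, h.flag, h.osF, h.yU, fun hy => h.yP (mem_sdiff.1 hy).1,
    fun p hp => ⟨(h.osU p hp).1, fun hy => (h.osU p hp).2 (mem_sdiff.1 hy).1⟩, ?_, rea_sub h.rea sdiff_subset, ?_, ?_,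
    fun p hp => rea_sub (h.reaos p hp) sdiff_subset, ?_⟩
  · have := h.lin0
    linarith
  · have h4 := h.lin
    have h5 : ((P.filter (fun w => R y w ∧ Rea R U P (κc * U.card) t w)).card : ℝ) ≤
      (((P \ F₀).filter (fun w => R y w ∧ Rea R U (P \ F₀) (κc * U.card) t w)).card : ℝ) + e₀ := by
      exact_mod_cast hrm y
    have h6 : s₁ / 2 * (P \ F₀).card ≤ s₁ / 2 * P.card := mul_le_mul_of_nonneg_left hc2R (by linarith)
    linarith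
  · intro j hj
    have h4 : τ₁ / 2 * (P \ F₀).card ≤ τ₁ / 2 * P.card := mul_le_mul_of_nonneg_left hc2R (by linarith)
    have h5 := h.cnt (j + e₀) (by
      push_cast
      linarith)
    refine le_trans (card_le_card ?_) (h5.trans (le_of_eq (by ring)))
    intro u hu
    rw [mem_filter] at hu ⊢
    refine ⟨(mem_sdiff.1 hu.1).1, hu.2.1, ?_⟩
    have h6 : P.filter (fun w => R y w ∧ R w u ∧ Rea R U P (κc * U.card) t w) ⊆
        ((P \ F₀).filter (fun w => R y w ∧ R w u ∧ Rea R U (P \ F₀) (κc * U.card) t w)) ∪ F₀ := by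
      intro w hw
      rw [mem_filter] at hw
      rw [mem_union, mem_filter, mem_sdiff]
      by_cases h5 : w ∈ F₀
      · exact Or.inr h5
      · exact Or.inl ⟨⟨hw.1, h5⟩, hw.2.1, hw.2.2.1, rea_sub hw.2.2.2 sdiff_subset⟩
    have h7 := (card_le_card h6).trans (card_union_le _ _)
    have h8 := hu.2.2
    omega
  · have h4 := h.ht
    have h5 : η' * P.card ≤ η' * (2 * (P \ F₀).card) := mul_le_mul_of_nonneg_left hhalf hη0
    have h6 : 2 * η' * (P \ F₀).card ≤ η * (P \ F₀).card := mul_le_mul_of_nonneg_right hη (Nat.cast_nonneg _)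
    linarith

theorem PackY.mono {b l N K e c₀ : ℕ} {κc ξ₀ s₁ η η' : ℝ} {U Y P : Finset V} {y : V} {F : Fd}
    {os : List (V × Fd)} {t : ℝ} (h : PackY R b l N K e c₀ κc ξ₀ s₁ η' U Y P y F os t) (hη : η' ≤ η) :
    PackY R b l N K e c₀ κc ξ₀ s₁ η U Y P y F os t :=
  ⟨h.subP, h.subY, h.len, h.fok, h.flag, h.osF, h.yU, h.yY, h.osU, h.lin0, h.rea, h.lin, h.cov, h.reaos,
    h.ht.trans (mul_le_mul_of_nonneg_right hη (Nat.cast_nonneg _))⟩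

/-- **Packing on both sides of a cut.** -/
theorem packTwo (b l N K : ℕ) (hb : 1 ≤ b) (hN : 1 ≤ N) (hK : 1 ≤ K) : ∃ (c₀ : ℕ) (η : ℝ), 0 < η ∧ η ≤ 1 / 8 ∧
    ∀ (Mc e : ℕ) (κc ξ₀ s₁ τ₁ : ℝ), 0 < κc → κc ≤ 1 → 0 < ξ₀ → ξ₀ ≤ 1 → 0 < s₁ → 0 < τ₁ →
    ∃ (C : ℕ) (δ : ℝ), 0 < δ ∧ ∀ {V : Type} {R : V → V → Prop}, AE32.Tour R →
    ∀ (X U₁ P₁ Y₂ P₂ T Hs : Finset V) (y₁ y₂ : V) (F₁ F₂ : Fd) (os₁ os₂ : List (V × Fd)) (t₁ t₂ : ℝ),
      PackH (rv R) b l N K Mc e κc ξ₀ s₁ τ₁ η U₁ P₁ y₁ F₁ os₁ t₁ →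
      PackY R b l N K e c₀ κc ξ₀ s₁ η X Y₂ P₂ y₂ F₂ os₂ t₂ → U₁ ⊆ X → Disjoint P₁ P₂ → Disjoint T P₁ → Disjoint T Y₂ →
      (((T ∩ U₁).card : ℝ) ≤ δ * U₁.card) → ((T.card : ℝ) ≤ δ * X.card) → Hs.card ≤ N → y₁ ∈ Hs → y₂ ∈ Hs →
      (∀ p ∈ os₁, p.1 ∈ Hs) → (∀ p ∈ os₂, p.1 ∈ Hs) → Disjoint Hs P₁ → Disjoint Hs Y₂ →
      totB ((y₁, F₁) :: os₁) + C ≤ P₁.card → totB ((y₂, F₂) :: os₂) + C ≤ P₂.card →
      ∃ S₁ ⊆ X, ∃ S₂ ⊆ X, Disjoint S₁ S₂ ∧ Disjoint S₁ Hs ∧ Disjoint S₂ Hs ∧ Disjoint S₁ T ∧ Disjoint S₂ T ∧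
        EmbAllB (rv R) ((y₁, F₁) :: os₁) S₁ ∧ EmbAllB R ((y₂, F₂) :: os₂) S₂ := by
  obtain ⟨c₀, η₂, hη₂0, hη₂8, h2⟩ := prepR b l N K hb hN hK
  obtain ⟨η₁, hη₁0, hη₁8, h1⟩ := prep b l N K hb hN hK
  obtain ⟨η, hη⟩ : ∃ η : ℝ, η = min (η₁ / 2) η₂ := ⟨_, rfl⟩
  have hη0 : 0 < η := by rw [hη]; exact lt_min (by positivity) hη₂0
  have hηη₁ : 2 * η ≤ η₁ := by
    have : η ≤ η₁ / 2 := by rw [hη]; exact min_le_left _ _
    linarith
  have hηη₂ : η ≤ η₂ := by rw [hη]; exact min_le_right _ _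
  refine ⟨c₀, η, hη0, hηη₂.trans hη₂8, ?_⟩
  intro Mc e κc ξ₀ s₁ τ₁ hκc hκc1 hξ₀ hξ₀1 hs₁ hτ₁
  obtain ⟨w₂, δ₂, hδ₂, h2⟩ := h2 e κc ξ₀ s₁ hκc hκc1 hξ₀ hξ₀1 hs₁
  obtain ⟨w₁, δ₁, hδ₁, h1⟩ := h1 Mc (Mc * w₂ + e) κc (ξ₀ / 2) (s₁ / 2) (τ₁ / 2) hκc hκc1 (by positivity) (by linarith)
    (by positivity) (by positivity)
  obtain ⟨C₂, h₂, h2⟩ := h2 (w₁ + w₂)
  obtain ⟨C₁, h₁, h1⟩ := h1 (w₁ + w₂)
  obtain ⟨n3, h3⟩ := exists_big [((w₂ : ℝ), s₁ / 2), ((w₂ : ℝ), τ₁ / 2), (((N + w₂ + h₂ : ℕ) : ℝ), δ₁ / 2),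
      (((N + w₁ + h₁ : ℕ) : ℝ), δ₂ / 2)] (by
    intro q hq
    simp only [List.mem_cons, List.not_mem_nil, or_false] at hq
    rcases hq with rfl | rfl | rfl | rfl
    · show 0 < s₁ / 2
      positivity
    · show 0 < τ₁ / 2
      positivity
    · show 0 < δ₁ / 2
      positivity
    · show 0 < δ₂ / 2
      positivity)
  refine ⟨C₁ + C₂ + 2 * w₂ + n3, min (δ₁ / 2) (δ₂ / 2), lt_min (by positivity) (by positivity), ?_⟩
  intro V R hT X U₁ P₁ Y₂ P₂ T Hs y₁ y₂ F₁ F₂ os₁ os₂ t₁ t₂ hH₁ hH₂ hUX hPP hTP hTY hTU hTX hHs hy₁ hy₂ ho₁ ho₂ hHP hHY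
    hC₁ hC₂
  have hT' : AE32.Tour (rv R) := rv_tour hT
  have g := h3 P₁.card (by omega)
  have g1 : (w₂ : ℝ) ≤ s₁ / 2 * P₁.card := g (_, _) (by simp)
  have g2 : (w₂ : ℝ) ≤ τ₁ / 2 * P₁.card := g ((w₂ : ℝ), τ₁ / 2) (by simp)
  have hP₁U : P₁.card ≤ U₁.card := card_le_card hH₁.sub
  have hP₂X : P₂.card ≤ X.card := card_le_card (hH₂.subP.trans hH₂.subY)
  have g3 : ((N + w₂ + h₂ : ℕ) : ℝ) ≤ δ₁ / 2 * U₁.card := h3 U₁.card (by omega) (_, δ₁ / 2) (by simp)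
  have g4 : ((N + w₁ + h₁ : ℕ) : ℝ) ≤ δ₂ / 2 * X.card := h3 X.card (by omega) (_, δ₂ / 2) (by simp)
  have hδU : min (δ₁ / 2) (δ₂ / 2) * U₁.card ≤ δ₁ / 2 * U₁.card :=
    mul_le_mul_of_nonneg_right (min_le_left _ _) (Nat.cast_nonneg _)
  have hδX : min (δ₁ / 2) (δ₂ / 2) * X.card ≤ δ₂ / 2 * X.card :=
    mul_le_mul_of_nonneg_right (min_le_right _ _) (Nat.cast_nonneg _)
  -- side 2, first phase
  obtain ⟨E₂, Hm₂, a1, a2, a3, a4, a5, a6⟩ := h2 hT X Y₂ P₂ y₂ F₂ os₂ t₂ (hH₂.mono hηη₂) (by omega)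
  -- side 1, first phase
  have hH₁' := hH₁.sdiff (F₀ := E₂) (η := η₁) hη0.le hηη₁ hs₁.le hτ₁.le a4 (by omega) g1 g2
  obtain ⟨E₁, Hm₁, b1, b2, b3, b4, b5, b6⟩ := h1 hT' U₁ (P₁ \ E₂) y₁ F₁ os₁ t₁ hH₁' (by
    have := le_card_sdiff E₂ P₁
    omega)
  -- side 1, second phase
  obtain ⟨Z₁, c1, c2, c3, c4, c5, c6⟩ := b6 ((T ∩ U₁) ∪ (Hs ∪ (E₂ ∪ Hm₂))) (by
      have e1 := card_union_le (T ∩ U₁) (Hs ∪ (E₂ ∪ Hm₂))
      have e2 := card_union_le Hs (E₂ ∪ Hm₂)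
      have e3 := card_union_le E₂ Hm₂
      have e4 : (((T ∩ U₁) ∪ (Hs ∪ (E₂ ∪ Hm₂))).card : ℝ) ≤ (T ∩ U₁).card + ((N + w₂ + h₂ : ℕ) : ℝ) := by
        exact_mod_cast e1.trans (Nat.add_le_add_left (by omega) _)
      linarith) (mem_union_right _ (mem_union_left _ hy₁))
      (fun p hp => mem_union_right _ (mem_union_left _ (ho₁ p hp)))
  rw [disjoint_union_right, disjoint_union_right, disjoint_union_right] at c3
  obtain ⟨c31, c32, c33, c34⟩ := c3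
  -- side 2, second phase
  obtain ⟨Z₂, d1, d2, d3, d4, d5, d6⟩ := a6 (T ∪ (Hs ∪ (Z₁ ∪ Hm₁))) (by
      have e1 := card_union_le T (Hs ∪ (Z₁ ∪ Hm₁))
      have e2 := card_union_le Hs (Z₁ ∪ Hm₁)
      have e3 := card_union_le Z₁ Hm₁
      have e4 : ((T ∪ (Hs ∪ (Z₁ ∪ Hm₁))).card : ℝ) ≤ T.card + ((N + w₁ + h₁ : ℕ) : ℝ) := by
        exact_mod_cast e1.trans (Nat.add_le_add_left (by omega) _)
      linarith) (mem_union_right _ (mem_union_left _ hy₂))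
      (fun p hp => mem_union_right _ (mem_union_left _ (ho₂ p hp)))
  rw [disjoint_union_right, disjoint_union_right, disjoint_union_right] at d3
  obtain ⟨d31, d32, d33, d34⟩ := d3
  have hsp1 : ∀ v ∈ Z₁, v ∈ E₁ ∨ v ∈ Z₁ \ E₁ := by
    intro v hv
    by_cases h : v ∈ E₁
    · exact Or.inl h
    · exact Or.inr (mem_sdiff.2 ⟨hv, h⟩)
  have hsp2 : ∀ v ∈ Z₂, v ∈ E₂ ∨ v ∈ Z₂ \ E₂ := by
    intro v hv
    by_cases h : v ∈ E₂
    · exact Or.inl h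
    · exact Or.inr (mem_sdiff.2 ⟨hv, h⟩)
  have hP₂Y : P₂ ⊆ Y₂ := hH₂.subP
  have hE₁P : E₁ ⊆ P₁ := b1.trans sdiff_subset
  have hZc : (Z₁ ∪ Z₂).card ≤ w₁ + w₂ := (card_union_le _ _).trans (Nat.add_le_add c5 d5)
  have hZH1 : Disjoint (Z₁ ∪ Z₂) Hm₁ := by
    rw [disjoint_left]
    intro v hv hvH
    rcases mem_union.1 hv with h | h
    · rcases hsp1 v h with h | h
      · exact disjoint_left.1 b3 h hvH
      · exact disjoint_left.1 c4 h hvH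
    · rcases hsp2 v h with h | h
      · exact (mem_sdiff.1 (b2 hvH)).2 h
      · exact disjoint_left.1 d34 h hvH
  have hZH2 : Disjoint (Z₁ ∪ Z₂) Hm₂ := by
    rw [disjoint_left]
    intro v hv hvH
    rcases mem_union.1 hv with h | h
    · rcases hsp1 v h with h | h
      · exact disjoint_left.1 hPP (hE₁P h) (a2 hvH)
      · exact disjoint_left.1 c34 h hvH
    · rcases hsp2 v h with h | h
      · exact disjoint_left.1 a3 h hvH
      · exact disjoint_left.1 d4 h hvH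
  obtain ⟨S₁, f1, f2, f3⟩ := c6 (Z₁ ∪ Z₂) subset_union_left hZc hZH1
  obtain ⟨S₂, k1, k2, k3⟩ := d6 (Z₁ ∪ Z₂) subset_union_right hZc hZH2
  have hS₁P : S₁ ⊆ P₁ := f1.trans sdiff_subset
  have hE₂X : E₂ ⊆ X := a1.trans hH₂.subY
  have hZ₁X : Z₁ ⊆ X := by
    intro v hv
    rcases hsp1 v hv with h | h
    · exact hUX (hH₁.sub (hE₁P h))
    · exact hUX (c2 h)
  have hZ₂X : Z₂ ⊆ X := by
    intro v hv
    rcases hsp2 v hv with h | h
    · exact hE₂X h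
    · exact d2 h
  have hZZ : Disjoint Z₁ Z₂ := by
    rw [disjoint_left]
    intro v hv hv'
    rcases hsp2 v hv' with h | h
    · rcases hsp1 v hv with h' | h'
      · exact (mem_sdiff.1 (b1 h')).2 h
      · exact disjoint_left.1 c33 h' h
    · exact disjoint_left.1 d33 h hv
  have hZ₁H : Disjoint Z₁ Hs := by
    rw [disjoint_left]
    intro v hv hv'
    rcases hsp1 v hv with h | h
    · exact disjoint_left.1 hHP hv' (hE₁P h)
    · exact disjoint_left.1 c32 h hv'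
  have hZ₂H : Disjoint Z₂ Hs := by
    rw [disjoint_left]
    intro v hv hv'
    rcases hsp2 v hv with h | h
    · exact disjoint_left.1 hHY hv' (a1 h)
    · exact disjoint_left.1 d32 h hv'
  have hZ₁T : Disjoint Z₁ T := by
    rw [disjoint_left]
    intro v hv hv'
    rcases hsp1 v hv with h | h
    · exact disjoint_left.1 hTP hv' (hE₁P h)
    · exact disjoint_left.1 c31 h (mem_inter.2 ⟨hv', c2 h⟩)
  have hZ₂T : Disjoint Z₂ T := by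
    rw [disjoint_left]
    intro v hv hv'
    rcases hsp2 v hv with h | h
    · exact disjoint_left.1 hTY hv' (a1 h)
    · exact disjoint_left.1 d31 h hv'
  refine ⟨Z₁ ∪ S₁, union_subset hZ₁X (hS₁P.trans (hH₁.sub.trans hUX)), Z₂ ∪ S₂,
    union_subset hZ₂X (k1.trans (hP₂Y.trans hH₂.subY)), ?_, ?_, ?_, ?_, ?_, f3, k3⟩
  · rw [disjoint_union_left, disjoint_union_right, disjoint_union_right]
    exact ⟨⟨hZZ, (k2.mono_right subset_union_left).symm⟩, f2.mono_right subset_union_right,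
      (hPP.mono_left hS₁P).mono_right k1⟩
  · rw [disjoint_union_left]
    exact ⟨hZ₁H, (hHP.mono_right hS₁P).symm⟩
  · rw [disjoint_union_left]
    exact ⟨hZ₂H, (hHY.mono_right (k1.trans hP₂Y)).symm⟩
  · rw [disjoint_union_left]
    exact ⟨hZ₁T, (hTP.mono_right hS₁P).symm⟩
  · rw [disjoint_union_left]
    exact ⟨hZ₂T, (hTY.mono_right (k1.trans hP₂Y)).symm⟩

end AEG
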