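import Pool.Agent.AEG.PackB

/-!
# Packing on one side of a cut, in three phases, and two-sided packing

Phase 1: a bounded part is embedded inside `P`; phase 2: bounded parts are embedded in the ambient set, avoiding a given
small set; phase 3: the rest is embedded in `P`, avoiding all used vertices.
-/

set_option autoImplicit false

namespace AEG

open Finset AE15 AED AEB SPD
open scoped Classical

variable {V : Type} {R : V → V → Prop}

/-- the class at a host `y` with a linear number of dominators and few badly dominated vertices -/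
theorem mside_cl' (hT : AE32.Tour R) {p : NP} (hp : p.OK) {U P : Finset V} {y : V} {k t κ η s : ℝ} {m : ℕ}
    (hyP : y ∉ P) (hlin : s * P.card ≤ ((P.filter (fun w => R y w ∧ Rea R U P k t w)).card : ℝ))
    (hcnt : (P.filter (fun u => R u y ∧ (P.filter (fun w => R y w ∧ R w u ∧ Rea R U P k t w)).card ≤ 2 * p.c0)).card ≤
      m) (hk : κ * U.card ≤ k) (ht : t ≤ η * P.card) (hu : m ≤ p.u0) (D : Fd) :
    ClU R (GdU R κ η U P) s p D P P (R y) := by
  have hgd : ∀ v, Rea R U P k t v → GdU R κ η U P v := fun v hv => rea_gdU hv hk (Subset.refl _) ht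
  have hcc : p.c ≤ p.c0 := ((Nat.le_add_left p.c _).trans (Nat.le_add_right _ 2)).trans hp.hc0
  have h1 : ClD (GdU R κ η U P) s P (R y) := by
    refine hlin.trans (Nat.cast_le.2 (card_le_card ?_))
    intro w hw
    rw [mem_filter] at hw
    rw [mem_filter]
    exact ⟨hw.1, hgd w hw.2.2, hw.2.1⟩
  obtain ⟨Wk, hWk⟩ : ∃ Wk : Finset V, Wk = P.filter (fun w => Rea R U P k t w) := ⟨_, rfl⟩
  have hlow := card_lowin hT Wk p.c0
  obtain ⟨B, hB⟩ : ∃ B : Finset V, B = P.filter (fun u => R u y ∧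
    (P.filter (fun w => R y w ∧ R w u ∧ Rea R U P k t w)).card ≤ 2 * p.c0) := ⟨_, rfl⟩
  rw [← hB] at hcnt
  have key : ∀ u ∈ P, R y u ∨ u ∈ B ∨ ∃ w ∈ P, R y w ∧ R w u ∧ Strong R (GdU R κ η U P) p.c0 p.c P w := by
    intro u hu
    by_cases hy : R y u
    · exact Or.inl hy
    · have hne : u ≠ y := fun e => hyP (e ▸ hu)
      have huy := (hT.tot u y hne).resolve_right hy
      by_cases hd : (P.filter (fun w => R y w ∧ R w u ∧ Rea R U P k t w)).card ≤ 2 * p.c0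
      · exact Or.inr (Or.inl (by rw [hB, mem_filter]; exact ⟨hu, huy, hd⟩))
      · right; right
        have h2 : ((P.filter (fun w => R y w ∧ R w u ∧ Rea R U P k t w)) \
            (Wk.filter (fun v => (nI R Wk v).card < p.c0))).Nonempty := by
          rw [← card_pos]
          have := le_card_sdiff (Wk.filter (fun v => (nI R Wk v).card < p.c0))
            (P.filter (fun w => R y w ∧ R w u ∧ Rea R U P k t w))
          omega
        obtain ⟨w, hw⟩ := h2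
        rw [mem_sdiff, mem_filter, mem_filter, not_and, not_lt] at hw
        obtain ⟨⟨h3, h4, h5, h6⟩, h7⟩ := hw
        have h8 : p.c0 ≤ (nI R Wk w).card := h7 (by rw [hWk, mem_filter]; exact ⟨h3, h6⟩)
        have h9 : nI R Wk w ⊆ nI R (P.filter (GdU R κ η U P)) w := by
          intro z hz
          rw [mem_nI, hWk, mem_filter] at hz
          rw [mem_nI, mem_filter]
          exact ⟨⟨hz.1.1, hgd z hz.1.2⟩, hz.2⟩
        have h10 : p.c0 ≤ (nI R (P.filter (GdU R κ η U P)) w).card := h8.trans (card_le_card h9)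
        have h11 : (nI R (P.filter (GdU R κ η U P)) w).card ≤ (nI R P w).card :=
          card_le_card (nI_mono (filter_subset _ _))
        exact ⟨w, h3, h4, h5, ⟨hgd w h6, h10.trans h11⟩, hcc.trans h10⟩
  refine ⟨h1, fun _ => ⟨h1, B, ∅, ?_, by simp, ?_, ?_⟩⟩
  · unfold NP.ub
    split_ifs <;> omega
  · intro u hu
    rcases key u hu with h | h | ⟨w, h2, h3, h4, h5⟩
    · exact Or.inl h
    · exact Or.inr (Or.inr (Or.inl h))
    · exact Or.inr (Or.inr (Or.inr ⟨w, h2, h3, h4, h5.1⟩))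
  · intro u hu
    rcases key u hu with h | h | ⟨w, h2, h3, h4, h5⟩
    · exact Or.inl h
    · exact Or.inr (Or.inr (Or.inl h))
    · exact Or.inr (Or.inr (Or.inr (Or.inr ⟨w, h2, h3, h4, h5⟩)))

/-- the hypotheses for packing several forests at several hosts into `P`, in the ambient set `U` -/
structure PackH (R : V → V → Prop) (b l N K Mc e : ℕ) (κc ξ₀ s₁ τ₁ η : ℝ) (U P : Finset V) (y : V) (F : Fd)
    (os : List (V × Fd)) (t : ℝ) : Prop where
  sub : P ⊆ U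
  len : os.length + 1 ≤ N
  fok : FOK b l 0 F
  flag : ∀ q ∈ F.trees, q.1 = true
  osF : ∀ p ∈ os, FOK b l 0 p.2 ∧ (∀ q ∈ p.2.trees, q.1 = true) ∧ p.2.size ≤ K * (F.size + 1)
  yU : y ∈ U
  yP : y ∉ P
  osU : ∀ p ∈ os, p.1 ∈ U ∧ p.1 ∉ P
  lin0 : ξ₀ * U.card ≤ P.card
  rea : Rea R U P (κc * U.card) t y
  lin : s₁ * P.card ≤ ((P.filter (fun w => R y w ∧ Rea R U P (κc * U.card) t w)).card : ℝ)
  cnt : ∀ j : ℕ, (j : ℝ) ≤ τ₁ * P.card → (P.filter (fun u => R u y ∧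
    (P.filter (fun w => R y w ∧ R w u ∧ Rea R U P (κc * U.card) t w)).card ≤ j)).card ≤ Mc * j + e
  reaos : ∀ p ∈ os, Rea R U P (κc * U.card) t p.1
  ht : t ≤ η * P.card

/-- **Packing in three phases.** -/
theorem prep (b l N K : ℕ) (hb : 1 ≤ b) (hN : 1 ≤ N) (hK : 1 ≤ K) : ∃ η : ℝ, 0 < η ∧ η ≤ 1 / 8 ∧
    ∀ (Mc e : ℕ) (κc ξ₀ s₁ τ₁ : ℝ), 0 < κc → κc ≤ 1 → 0 < ξ₀ → ξ₀ ≤ 1 → 0 < s₁ → 0 < τ₁ →
    ∃ (w : ℕ) (δA : ℝ), 0 < δA ∧ ∀ J : ℕ, ∃ C h : ℕ,
    ∀ {V : Type} {R : V → V → Prop}, AE32.Tour R → ∀ (U P : Finset V) (y : V) (F : Fd) (os : List (V × Fd)) (t : ℝ),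
      PackH R b l N K Mc e κc ξ₀ s₁ τ₁ η U P y F os t → totB ((y, F) :: os) + C ≤ P.card →
      ∃ E Hm : Finset V, E ⊆ P ∧ Hm ⊆ P ∧ Disjoint E Hm ∧ E.card ≤ w ∧ Hm.card ≤ h ∧
        ∀ W : Finset V, (W.card : ℝ) ≤ δA * U.card → y ∈ W → (∀ p ∈ os, p.1 ∈ W) →
          ∃ Z : Finset V, E ⊆ Z ∧ Z \ E ⊆ U ∧ Disjoint (Z \ E) W ∧ Disjoint (Z \ E) Hm ∧ Z.card ≤ w ∧
            ∀ Za : Finset V, Z ⊆ Za → Za.card ≤ J → Disjoint Za Hm →
              ∃ S ⊆ P, Disjoint S Za ∧ EmbAllB R ((y, F) :: os) (Z ∪ S) := by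
  obtain ⟨p, hp, hpb, hpl, hab, -⟩ := exists_np b l 0 hb
  subst hpb hpl
  obtain ⟨D₀, hD₀⟩ : ∃ D₀ : ℕ, D₀ = N * (K * 2) * (p.b * p.A) := ⟨_, rfl⟩
  have hbA : p.A ≤ D₀ := by
    rw [hD₀]
    exact (Nat.le_mul_of_pos_left _ hp.hb).trans (Nat.le_mul_of_pos_left _ (by positivity))
  obtain ⟨ω, c, η, η₁, κ₀, κ₁, κ, γ₀, τ, s, σ₂, μ, P⟩ := exists_KB (hp.D₀.trans hbA)
  obtain ⟨hω0, hω1, hc0, hc1, hη0, hη1, hη₁0, hη₁1, hκ₀0, hκ₁0, hκ₁1, hκ0, hκ1, hs0, hγ₀0, hτ0, hσ₂0, hμ0, hκ₁η, hκs⟩ :=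
    P.num
  refine ⟨η, hη0, by linarith only [hη1], ?_⟩
  intro Mc e κc ξ₀ s₁ τ₁ hκc hκc1 hξ₀ hξ₀1 hs₁ hτ₁
  obtain ⟨p₁, hp₁, q1, q2, q3, q4, q5, q6, q7⟩ := exists_np2 p hp (Mc * (2 * p.c0) + e)
  have hab₁ : ab p₁.b p₁.l ≤ p₁.a := by rw [q1, q2, q3]; exact hab
  have hcη : c * η ≤ 1 * η := mul_le_mul_of_nonneg_right (by linarith only [hc1]) hη0.le
  obtain ⟨κU, hκU⟩ : ∃ κU : ℝ, κU = min (min κ κc) (κ * ξ₀) := ⟨_, rfl⟩
  have hU0 : 0 < κU := by rw [hκU]; positivity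
  have hU1 : κU ≤ κ := by rw [hκU]; exact (min_le_left _ _).trans (min_le_left _ _)
  have hU2 : κU ≤ κc := by rw [hκU]; exact (min_le_left _ _).trans (min_le_right _ _)
  have hU3 : κU ≤ κ * ξ₀ := by rw [hκU]; exact min_le_right _ _
  obtain ⟨n1, hcfg⟩ := top_cfg p₁ hp₁ hab₁ P hs₁
  obtain ⟨CE, hCE, hEE⟩ := ee_all p₁ hp₁ hab₁ (by rw [q6]; exact hbA) P
  obtain ⟨M, hM⟩ : ∃ M : ℕ, M = ⌈8 / κU⌉₊ + 1 := ⟨_, rfl⟩
  obtain ⟨wM, hwM⟩ : ∃ w : ℕ, w = wB p.b (ab p.b p.l) M := ⟨_, rfl⟩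
  obtain ⟨vM, hvM⟩ : ∃ w : ℕ, w = vB p.b (ab p.b p.l) M := ⟨_, rfl⟩
  obtain ⟨s₀, hs₀⟩ : ∃ s₀ : ℕ, s₀ = K * (p.b * (p.A + 1)) := ⟨_, rfl⟩
  obtain ⟨w, hw⟩ : ∃ w : ℕ, w = p.e + p.b * (p.e + 1) * wM + N * (p.b * wM) + N * s₀ + 1 := ⟨_, rfl⟩
  obtain ⟨m, hm⟩ : ∃ m : ℕ, m = p.b * (p.e + 1) * vM + N * (p.b * vM) := ⟨_, rfl⟩
  obtain ⟨δA, hδA⟩ : ∃ δA : ℝ, δA = min (κU ^ 2 / 128) (κc * ξ₀ / 4) := ⟨_, rfl⟩
  have hδA0 : 0 < δA := by rw [hδA]; positivity
  have hδA1 : δA ≤ κU ^ 2 / 128 := by rw [hδA]; exact min_le_left _ _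
  have hδA2 : δA ≤ κc * ξ₀ / 4 := by rw [hδA]; exact min_le_right _ _
  refine ⟨w, δA, hδA0, ?_⟩
  intro J
  obtain ⟨f1, hf1⟩ := finW p₁ hp₁ P hCE m J
  obtain ⟨hB, hhB⟩ : ∃ hB : ℕ, hB = (2 * (J + p.e + 2 * p₁.c0 + 1) + 4 * (p₁.c1 + p₁.u0 + p₁.g)) *
    (1 + p₁.c0 + p₁.c) := ⟨_, rfl⟩
  obtain ⟨cn, hcn⟩ : ∃ cn : ℕ, cn = hB + J + (p.e + 1) + (N + 1) * (p.b * wM + 1 + 2 ^ ab p.b p.l) +
    p.b * (p.e + 1) * wM + 2 ^ ab p.b p.l := ⟨_, rfl⟩
  obtain ⟨n3, h3⟩ := exists_big [(((J + p.e + 2 * p₁.c0 + 1 : ℕ) : ℝ), γ₀ / 16), (2, η), (8, κ₀),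
      (((2 * p.c0 : ℕ) : ℝ), τ₁), ((cn : ℝ), κU ^ 2 / 128),
      (((N * s₀ + 2 ^ s₀ : ℕ) : ℝ), κc * ξ₀ / 4)] (by
    intro q hq
    simp only [List.mem_cons, List.not_mem_nil, or_false] at hq
    rcases hq with rfl | rfl | rfl | rfl | rfl | rfl
    · show 0 < γ₀ / 16
      positivity
    · exact hη0
    · exact hκ₀0
    · exact hτ₁
    · show 0 < κU ^ 2 / 128
      positivity
    · show 0 < κc * ξ₀ / 4
      positivity)
  obtain ⟨C, hC⟩ : ∃ C : ℕ, C = n1 + n3 + f1 + ⌈CE⌉₊ + J + 1 := ⟨_, rfl⟩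
  refine ⟨C, hB, ?_⟩
  intro V R hT U P' y F os t hH htot
  obtain ⟨hPU, hlenN, hF, hFf, hos, hyU, hyP, hosU, hξU, hReay, hlin, hcnt, hReaos, ht⟩ := hH
  have hPC : C ≤ P'.card := by omega
  have hU0' : (0 : ℝ) ≤ U.card := Nat.cast_nonneg _
  have hP0 : (0 : ℝ) ≤ P'.card := Nat.cast_nonneg _
  have hPUc : (P'.card : ℝ) ≤ U.card := by exact_mod_cast card_le_card hPU
  have hlen1 : ((os.length : ℝ) + 1) ≤ N := by exact_mod_cast hlenN
  have g := h3 P'.card (by omega)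
  have g1 : ((J + p.e + 2 * p₁.c0 + 1 : ℕ) : ℝ) ≤ γ₀ / 16 * P'.card := g (_, _) (by simp)
  have g2 : (2 : ℝ) ≤ η * P'.card := g (2, η) (by simp)
  have g3 : (8 : ℝ) ≤ κ₀ * P'.card := g (8, κ₀) (by simp)
  have g4 : ((2 * p.c0 : ℕ) : ℝ) ≤ τ₁ * P'.card := g (((2 * p.c0 : ℕ) : ℝ), τ₁) (by simp)
  have g5 : (cn : ℝ) ≤ κU ^ 2 / 128 * P'.card := g ((cn : ℝ), κU ^ 2 / 128) (by simp)
  have g6 : ((N * s₀ + 2 ^ s₀ : ℕ) : ℝ) ≤ κc * ξ₀ / 4 * P'.card :=
    g (((N * s₀ + 2 ^ s₀ : ℕ) : ℝ), κc * ξ₀ / 4) (by simp)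
  by_cases hsz : F.size < p.b * (p.A + 1)
  · -- small forests
    have htP : t ≤ P'.card / 2 := by
      have h1 : η * P'.card ≤ 1 / 7168 * P'.card := mul_le_mul_of_nonneg_right hη1 hP0
      linarith
    have hmany : ∀ z, Rea R U P' (κc * U.card) t z → κc * ξ₀ / 2 * U.card ≤ (nO R U z).card := by
      intro z hz
      refine le_trans ?_ (Rea.many hz)
      refine le_min ?_ ?_
      · have h1 : κc * ξ₀ ≤ κc * 1 := mul_le_mul_of_nonneg_left hξ₀1 hκc.le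
        refine mul_le_mul_of_nonneg_right (by linarith) hU0'
      · have h1 : κc * (ξ₀ * U.card) ≤ 1 * P'.card := mul_le_mul hκc1 hξU (by positivity) (by norm_num)
        have h2 : κc * ξ₀ / 2 * U.card = κc * (ξ₀ * U.card) / 2 := by ring
        rw [h2]
        linarith
    have g6' : ((N * s₀ + 2 ^ s₀ : ℕ) : ℝ) ≤ κc * ξ₀ / 4 * U.card :=
      g6.trans (mul_le_mul_of_nonneg_left hPUc (by positivity))
    refine ⟨∅, ∅, empty_subset _, empty_subset _, disjoint_empty_left _, by simp, by simp, ?_⟩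
    intro A hAc hyA hosA
    have hAc' : (A.card : ℝ) ≤ κc * ξ₀ / 4 * U.card := hAc.trans (mul_le_mul_of_nonneg_right hδA2 hU0')
    have hbig : ∀ z, Rea R U P' (κc * U.card) t z →
        A.card + ((y, F) :: os).length * s₀ + 2 ^ s₀ ≤ (nO R U z).card := by
      intro z hz
      have h1 := hmany z hz
      have h2 : ((y, F) :: os).length * s₀ ≤ N * s₀ :=
        Nat.mul_le_mul_right _ (by rw [List.length_cons]; exact hlenN)
      have h3 : A.card + (N * s₀ + 2 ^ s₀) ≤ (nO R U z).card := by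
        have : (A.card : ℝ) + ((N * s₀ + 2 ^ s₀ : ℕ) : ℝ) ≤ (nO R U z).card := by linarith
        exact_mod_cast this
      omega
    obtain ⟨S, h1, h2, h3, h4⟩ := small_allB hT (U := U) (s₀ := s₀) ((y, F) :: os) A (by
        intro q hq
        rcases List.mem_cons.1 hq with rfl | hq
        · exact ⟨hFf, by rw [hs₀]; exact hsz.le.trans (Nat.le_mul_of_pos_left _ hK), hbig _ hReay⟩
        · obtain ⟨g1, g2, g3⟩ := hos q hq
          exact ⟨g2, by rw [hs₀]; exact g3.trans (Nat.mul_le_mul_left _ hsz), hbig _ (hReaos q hq)⟩)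
    have h5 : ((y, F) :: os).length * s₀ ≤ N * s₀ := Nat.mul_le_mul_right _ (by rw [List.length_cons]; exact hlenN)
    refine ⟨S, empty_subset _, sdiff_subset.trans h2, h3.mono_left sdiff_subset, disjoint_empty_right _, by omega, ?_⟩
    intro Za _ _ _
    exact ⟨∅, empty_subset _, disjoint_empty_left _, by rw [union_empty]; exact h1⟩
  -- the main case
  push Not at hsz
  have hκUU : κU * U.card ≤ κ * P'.card := by
    have h1 : κU * U.card ≤ κ * ξ₀ * U.card := mul_le_mul_of_nonneg_right hU3 hU0'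
    have h2 : κ * (ξ₀ * U.card) ≤ κ * P'.card := mul_le_mul_of_nonneg_left hξU hκ0.le
    linarith only [h1, h2]
  have hk : κU * U.card ≤ κc * U.card := mul_le_mul_of_nonneg_right hU2 hU0'
  have hκκ₁ : κ * P'.card ≤ κ₁ * P'.card := mul_le_mul_of_nonneg_right (by linarith only [hκ1, hκ₁0]) hP0
  have hReaG : ∀ z, Rea R U P' (κc * U.card) t z → GdU R κU η U P' z := fun z hz =>
    rea_gdU hz hk (Subset.refl _) ht
  obtain ⟨G, x, E, L, D, a1, a2, a3, a4, a5, a6, a7, a8, a9, a10⟩ := hcfg hT (U := U) (Y := P') (X := P')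
    (y := y) (κU := κU) (F := F) (by omega) (Subset.refl _) hPU hyU hyP (hκUU.trans hκκ₁) (hReaG y hReay)
    (by rw [q1, q2]; exact hF) hFf (by rw [q1, q6]; exact hsz)
    (fun D => mside_cl' hT hp₁ (m := Mc * (2 * p.c0) + e) hyP hlin (by
      rw [q5]
      exact hcnt (2 * p.c0) g4) hk ht q7 D)
  rw [q4] at a4
  have a10' : (¬ NN D ∧ γ₀ / 16 * P'.card ≤ ((nO R G x).card : ℝ)) ∨
      CovE R p₁ (γ₀ / 16) P' G E x (p₁.ub D) :=
    a10.imp id (fun h => covE_of_cov hp₁ a1 h (by rw [q4]; exact a4))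
  obtain ⟨Ha, d1, d2, d3, d4⟩ := dc_avoid hT hp₁ a1 a10' J p.e a4 g1
  rw [← hhB] at d3
  -- the hosts `Ks`
  obtain ⟨Ks, hKP, hKh, hKc⟩ := exists_K hT (X := P') (η := η) (η₁ := η₁) hκ₀0 (by
    have h5 := P.hκ₀
    linarith only [h5, hη₁0]) (by linarith only [hη₁1, hcη, hη1, hη0]) hη0 (by linarith only [hη1]) g2 g3
  rw [← P.hκ₁, ← P.hτ] at hKh
  have hlev : ∀ v ∈ U, GdU R κU η U P' v → v ∈ Lv R U Ks (κU ^ 2 / 32 * U.card) M := by
    intro v hv hG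
    rw [hM]
    exact hG.level hT hU0 (by linarith only [hU1, hκ1, hκ₁1, hκ₁η, hη₁1, hcη, hη1, hη0, hκ₀0, hκ₁0, P.hκ₀])
      hPU hKP hKc (by
      have : κ * P'.card ≤ 24 * η * P'.card :=
        mul_le_mul_of_nonneg_right (by linarith only [hκ1, hκ₁η, hη₁1, hcη, hη0, hκ₁0, hη₁0]) hP0
      linarith only [this, hκUU]) hv
  -- sizes
  have g5' : (cn : ℝ) ≤ κU ^ 2 / 128 * U.card := g5.trans (mul_le_mul_of_nonneg_left hPUc (by positivity))
  have hcnR : (cn : ℝ) = hB + J + (p.e + 1) + (N + 1) * (p.b * wM + 1 + 2 ^ ab p.b p.l) +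
      p.b * (p.e + 1) * wM + 2 ^ ab p.b p.l := by
    rw [hcn]
    push_cast
    ring
  have hkk : κU ^ 2 / 128 * (U.card : ℝ) + κU ^ 2 / 128 * U.card ≤ κU ^ 2 / 32 * U.card := by
    have : 0 ≤ κU ^ 2 * (U.card : ℝ) := by positivity
    linarith
  have hHaR : (Ha.card : ℝ) ≤ hB := by exact_mod_cast d3
  have hER : (E.card : ℝ) ≤ p.e := by exact_mod_cast a4
  refine ⟨E, Ha, a3, d1, d2.symm, a4.trans (by omega), d3, ?_⟩
  intro A hAc hyA hosA
  have hAc' : (A.card : ℝ) ≤ κU ^ 2 / 128 * U.card := hAc.trans (mul_le_mul_of_nonneg_right hδA1 hU0')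
  -- placing at `y`
  have hFOK : FOK p.b p.l 0 F := hF
  have hmemL := a6.mem (b := p.b) (l := p.l) hFOK
  obtain ⟨L₀, hL⟩ : ∃ L₀, L.Perm ((x, D) :: L₀) := ⟨_, List.perm_cons_erase a7⟩
  have hlenL := a6.length_le hFOK.1 hFOK.2.1
  have hL₀len : L₀.length ≤ p.b * (p.e + 1) := by
    have h1 := hL.length_eq
    rw [List.length_cons] at h1
    have h2 : p.b * (E.card + 1) ≤ p.b * (p.e + 1) := Nat.mul_le_mul_left _ (by omega)
    omega
  have hL' : L.Perm (L₀ ++ [(x, D)]) := hL.trans (List.perm_append_comm (l₁ := [(x, D)]) (l₂ := L₀))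
  have hsub : ∀ q ∈ L₀, q ∈ L := fun q hq => hL.symm.subset (List.mem_cons_of_mem _ hq)
  have hwL : L₀.length * wM ≤ p.b * (p.e + 1) * wM := Nat.mul_le_mul_right _ hL₀len
  have hwLR : (L₀.length : ℝ) * wM ≤ p.b * (p.e + 1) * wM := by exact_mod_cast hwL
  have hNw0 : (0 : ℝ) ≤ (N + 1) * (p.b * wM + 1 + 2 ^ ab p.b p.l) := by positivity
  have hbw0 : (0 : ℝ) ≤ (p.b : ℝ) * (p.e + 1) * wM := by positivity
  have h2ab : (0 : ℝ) ≤ 2 ^ ab p.b p.l := by positivity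
  have hB0 : (0 : ℝ) ≤ hB := Nat.cast_nonneg _
  have hJ0 : (0 : ℝ) ≤ J := Nat.cast_nonneg _
  have hAH : ((A ∪ Ha).card : ℝ) ≤ A.card + Ha.card := by exact_mod_cast card_union_le _ _
  obtain ⟨Z₁, L₁, L₁', hPE1, hL₁, hEZ, hZU, _, hZF, hZc, hLc, hLK⟩ := placing hT hp.hb (hKP.trans hPU) M
    (F₀ := A ∪ Ha) (k := κU ^ 2 / 32 * U.card) (b := p.b) (l := p.l) a6 hL' (fun q hq =>
      ⟨hlev q.1 (a8 q (hsub q hq)).1 (a8 q (hsub q hq)).2, (hmemL q (hsub q hq)).2.1⟩) (by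
      rw [← hwM]
      linarith only [hAc', g5', hcnR, hkk, hHaR, hER, hwLR, hNw0, hbw0, h2ab, hB0, hJ0, hAH])
  rw [← hwM] at hZc
  rw [← hvM] at hLc
  have hZ₁c : Z₁.card ≤ p.e + p.b * (p.e + 1) * wM := by
    have h1 := card_sdiff_add_card_eq_card hEZ
    omega
  have hZ₁R : (Z₁.card : ℝ) ≤ p.e + p.b * (p.e + 1) * wM := by exact_mod_cast hZ₁c
  -- placing at the other hosts
  obtain ⟨Z₂, L₂, hPEs, hZ2U, hZ2F, hZ2c, hL2c, hL2h⟩ := place_allB hT hp.hb (hKP.trans hPU) (l := p.l) M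
    (k := κU ^ 2 / 32 * U.card) os (A ∪ (Ha ∪ Z₁)) (by
      intro q hq
      exact ⟨hlev q.1 (hosU q hq).1 (hReaG q.1 (hReaos q hq)), (hos q hq).1, (hos q hq).2.1⟩) (by
      have h1 : ((A ∪ (Ha ∪ Z₁)).card : ℝ) ≤ A.card + (Ha.card + Z₁.card) := by
        exact_mod_cast (card_union_le _ _).trans (Nat.add_le_add_left (card_union_le _ _) _)
      rw [← hwM]
      have h2 : ((os.length + 1 : ℕ) : ℝ) * (p.b * wM + 1 + 2 ^ ab p.b p.l : ℕ) ≤
          (N + 1) * (p.b * wM + 1 + 2 ^ ab p.b p.l) := by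
        push_cast
        exact mul_le_mul_of_nonneg_right (by linarith only [hlen1]) (by positivity)
      linarith only [h1, h2, hAc', g5', hcnR, hkk, hHaR, hZ₁R, hNw0, hbw0, h2ab, hB0, hJ0])
  rw [← hwM] at hZ2c
  rw [← hvM] at hL2c
  rw [disjoint_union_right, disjoint_union_right] at hZ2F
  obtain ⟨hZ2A, hZ2H, hZ21⟩ := hZ2F
  rw [disjoint_union_right] at hZF
  obtain ⟨hZ1A, hZ1H⟩ := hZF
  -- all placed vertices
  obtain ⟨Z, hZ⟩ : ∃ Z : Finset V, Z = Z₁ ∪ Z₂ := ⟨_, rfl⟩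
  have hZw : Z.card ≤ w := by
    rw [hZ]
    have h1 := card_union_le Z₁ Z₂
    have h2 : os.length * (p.b * wM) ≤ N * (p.b * wM) := Nat.mul_le_mul_right _ (by omega)
    omega
  have hEZ' : E ⊆ Z := by
    rw [hZ]
    exact hEZ.trans subset_union_left
  have hall : PEsB R ((y, F) :: os) Z (L₁' ++ L₂) := ⟨Z₁, Z₂, L₁', L₂, hZ21.symm, hZ, rfl, hPE1, hPEs⟩
  have hsplit : ∀ v ∈ Z \ E, v ∈ Z₁ \ E ∨ v ∈ Z₂ := by
    intro v hv
    rw [mem_sdiff, hZ, mem_union] at hv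
    rcases hv.1 with h | h
    · exact Or.inl (mem_sdiff.2 ⟨h, hv.2⟩)
    · exact Or.inr h
  refine ⟨Z, hEZ', ?_, ?_, ?_, hZw, ?_⟩
  · intro v hv
    rcases hsplit v hv with h | h
    · exact hZU h
    · exact hZ2U h
  · rw [disjoint_left]
    intro v hv hvA
    rcases hsplit v hv with h | h
    · exact disjoint_left.1 hZ1A h hvA
    · exact disjoint_left.1 hZ2A h hvA
  · rw [disjoint_left]
    intro v hv hvA
    rcases hsplit v hv with h | h
    · exact disjoint_left.1 hZ1H h hvA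
    · exact disjoint_left.1 hZ2H h hvA
  intro Za hZZa hZaJ hZaH
  have hEZa : E ⊆ Za := hEZ'.trans hZZa
  have hcov := d4 Za hZaJ hZaH
  rw [union_eq_right.2 hEZa] at hcov
  have hallF : ∀ q ∈ (y, F) :: os, FOK p.b p.l 0 q.2 := by
    intro q hq
    rcases List.mem_cons.1 hq with rfl | hq
    · exact hF
    · exact (hos q hq).1
  have hitems := hall.mem hallF
  have hLperm : (L₁' ++ L₂).Perm ((x, D) :: (L₁ ++ L₂)) := by
    rw [← List.cons_append]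
    refine List.Perm.append_right _ (hL₁.trans ?_)
    exact List.perm_append_comm (l₁ := L₁) (l₂ := [(x, D)])
  have hisz : AEB.isz (L₁' ++ L₂) = D.size + 1 + AEB.isz (L₁ ++ L₂) := by
    have h1 : AEB.isz (L₁' ++ L₂) = AEB.isz ((x, D) :: (L₁ ++ L₂)) := by
      unfold AEB.isz
      exact (hLperm.map _).sum_eq
    rw [h1, AEB.isz_cons]
  have htots := hall.size
  obtain ⟨T, hTP, hTZ, hTE⟩ := hf1 hT (X := P') (G := G) (Ks := Ks) (Za := Za) (x := x) (D := D) (L := L₁' ++ L₂)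
    (Lh := L₁ ++ L₂) (T := (totB ((y, F) :: os) : ℕ)) (z := (Z.card : ℕ)) (by omega) a1 a2 hcov hZaJ (hEZa a5) hKP hKh (by
      intro q hq
      have hqK : q.1 ∈ Ks := by
        rcases List.mem_append.1 hq with h | h
        · exact (hLK q h).1
        · exact hL2h q h
      have hqP : q.1 ∈ P' := hKP hqK
      rcases (hitems q (hLperm.symm.subset (List.mem_cons_of_mem _ hq))).1 with h | ⟨r, hr, h⟩
      · exact hZZa h
      · exfalso
        rcases List.mem_cons.1 hr with rfl | hr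
        · have h' : q.1 = y := h
          rw [h'] at hqP
          exact hyP hqP
        · rw [h] at hqP
          exact (hosU r hr).2 hqP) (by
      intro q hq
      rw [q1, q2]
      exact (hitems q hq).2) hLperm (by
      intro q hq
      rcases List.mem_append.1 hq with h | h
      · exact (hLK q h).1
      · exact hL2h q h) (by
      rw [List.length_append, hm]
      have h1 : L₀.length * vM ≤ p.b * (p.e + 1) * vM := Nat.mul_le_mul_right _ hL₀len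
      have h2 : os.length * (p.b * vM) ≤ N * (p.b * vM) := Nat.mul_le_mul_right _ (by omega)
      omega) (Nat.cast_nonneg _) (by
      have h1 : totB ((y, F) :: os) = Z.card + (D.size + 1) + AEB.isz (L₁ ++ L₂) := by omega
      rw [h1]
      push_cast
      ring) (by
      have h1 : totB ((y, F) :: os) ≤ ((y, F) :: os).length * (K * (F.size + 1)) := totB_le (by
        intro q hq
        rcases List.mem_cons.1 hq with rfl | hq
        · exact (Nat.le_succ _).trans (Nat.le_mul_of_pos_left _ hK)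
        · exact (hos q hq).2.2)
      rw [q1, q6] at a9
      have hF1 : F.size + 1 ≤ 2 * F.size := by
        have : 1 ≤ p.b * (p.A + 1) := Nat.mul_pos hp.hb (Nat.succ_pos _)
        omega
      have h2 : ((y, F) :: os).length * (K * (F.size + 1)) ≤ N * (K * (2 * (p.b * p.A * (D.size + 1)))) :=
        Nat.mul_le_mul (by rw [List.length_cons]; exact hlenN) (Nat.mul_le_mul_left _
          (hF1.trans (Nat.mul_le_mul_left _ a9)))
      have h3 : N * (K * (2 * (p.b * p.A * (D.size + 1)))) = D₀ * (D.size + 1) := by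
        rw [hD₀]
        ring
      exact_mod_cast (h1.trans h2).trans h3.le) (hEE hT) (by
      have h1 := Nat.le_ceil CE
      have h2 : totB ((y, F) :: os) + ⌈CE⌉₊ + J ≤ P'.card := by omega
      have h3 : ((totB ((y, F) :: os) + ⌈CE⌉₊ + J : ℕ) : ℝ) ≤ P'.card := by exact_mod_cast h2
      push_cast at h3
      linarith only [h1, h3])
  exact ⟨T, hTP, hTZ, hall.complete T (hTZ.symm.mono_left hZZa) hTE⟩

end AEG
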