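import Pool.Agent.AEF.Keep
import Pool.Agent.SPD.Defs

/-!
# A part of `P` which can be used for other purposes without destroying the robust reach

`exists_Zc`: `Z` is a linear part of `P` such that for every `S ⊆ Z` the vertices which reach robustly almost all of `P`
inside `U` reach robustly almost all of `P \ S` inside `U \ S`; moreover the members of graded families keep a proportion
outside `Z` and inside `Z`.
-/

set_option autoImplicit false

namespace AEG

open Finset AE15 SPD
open scoped Classical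

theorem rch_sub {V : Type*} {R : V → V → Prop} {U : Finset V} {k : ℝ} {w : V} {W : Finset V} (h : Rch R U k w W) :
    W ⊆ U := by
  induction h with
  | base => exact nO_sub
  | step W z _ hz _ _ ih => exact insert_subset hz ih

/-- the sets which have to be kept for the robust reach of one vertex -/
theorem rch_family {V : Type*} {R : V → V → Prop} {U : Finset V} {k : ℝ} {w : V} {W : Finset V} (h : Rch R U k w W) :
    ∃ FF : Finset (Finset V), FF.card ≤ W.card ∧ (∀ F ∈ FF, F ⊆ U ∧ k ≤ (F.card : ℝ)) ∧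
      ∀ (S : Finset V) (k' : ℝ), (∀ F ∈ FF, k' ≤ ((F \ S).card : ℝ)) → Rch R (U \ S) k' w (W \ S) := by
  induction h with
  | base =>
    refine ⟨∅, by simp, by simp, ?_⟩
    intro S k' _
    have h1 : nO R U w \ S = nO R (U \ S) w := by
      ext u
      simp only [mem_sdiff, mem_nO]
      tauto
    rw [h1]
    exact Rch.base
  | step W z hW hz hzW hk ih =>
    obtain ⟨FF, h1, h2, h3⟩ := ih
    refine ⟨insert (nI R W z) FF, ?_, ?_, ?_⟩
    · refine (card_insert_le _ _).trans ?_
      rw [card_insert_of_notMem hzW]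
      omega
    · intro F hF
      rw [mem_insert] at hF
      rcases hF with rfl | hF
      · exact ⟨nI_sub.trans (rch_sub hW), hk⟩
      · exact h2 F hF
    · intro S k' hS
      have h4 := h3 S k' (fun F hF => hS F (mem_insert_of_mem hF))
      by_cases hzS : z ∈ S
      · rw [insert_sdiff_of_mem _ hzS]
        exact h4
      · rw [insert_sdiff_of_notMem _ hzS]
        refine Rch.step _ z h4 (mem_sdiff.2 ⟨hz, hzS⟩) (fun h => hzW (mem_sdiff.1 h).1) ?_
        have h5 := hS (nI R W z) (mem_insert_self _ _)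
        have h6 : nI R W z \ S = nI R (W \ S) z := by
          ext u
          simp only [mem_sdiff, mem_nI]
          tauto
        rw [h6] at h5
        exact h5

theorem rea_family {V : Type*} {R : V → V → Prop} {U P : Finset V} {k t : ℝ} {w : V} (h : Rea R U P k t w) :
    ∃ FF : Finset (Finset V), FF.card ≤ U.card ∧ (∀ F ∈ FF, F ⊆ U ∧ k ≤ (F.card : ℝ)) ∧
      ∀ (S : Finset V) (k' : ℝ), (∀ F ∈ FF, k' ≤ ((F \ S).card : ℝ)) → Rea R (U \ S) (P \ S) k' t w := by
  obtain ⟨W, hW, ht⟩ := h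
  obtain ⟨FF, h1, h2, h3⟩ := rch_family hW
  refine ⟨FF, h1.trans (card_le_card (rch_sub hW)), h2, fun S k' hS => ⟨W \ S, h3 S k' hS, ?_⟩⟩
  refine le_trans ?_ ht
  apply Nat.cast_le.2
  apply card_le_card
  intro u hu
  rw [mem_sdiff, mem_sdiff, mem_sdiff] at hu
  rw [mem_sdiff]
  exact ⟨hu.1.1, fun h => hu.2 ⟨h, hu.1.2⟩⟩

/-- **The free part.** -/
theorem exists_Zc {κ ξ : ℝ} (hκ : 0 < κ) (hκ1 : κ ≤ 1) (hξ : 0 < ξ) (Kg : ℕ) : ∃ n₀ M c : ℕ, 1 ≤ M ∧
    ∀ {V : Type} {R : V → V → Prop} (U P : Finset V), P ⊆ U → ξ * U.card ≤ P.card → n₀ ≤ P.card →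
      ∀ {ι : Type} (G : Finset ι) (D : ι → Finset V), (∀ u ∈ G, D u ⊆ P) → (∀ u ∈ G, (D u).Nonempty) →
        Pool.Agent.AEF.Graded G D Kg → ∀ (Sx : Finset V) (I : V → Finset V), (∀ v ∈ Sx, I v ⊆ P) → Pool.Agent.AEF.Graded Sx I Kg →
        ∃ Z ⊆ P, P.card ≤ 8 * Z.card ∧ P.card ≤ 8 * (P \ Z).card ∧
          (∀ S ⊆ Z, ∀ w ∈ U, ∀ t : ℝ, Rea R U P (κ * U.card) t w →
            Rea R (U \ S) (P \ S) (κ / 16 * (U.card : ℝ)) t w) ∧
          (∀ u ∈ G, (D u \ Z).Nonempty ∧ (D u).card ≤ M * (D u \ Z).card) ∧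
          (∀ v ∈ Sx, c ≤ (I v).card → (I v).card ≤ M * (I v \ Z).card ∧ (I v).card ≤ M * (I v ∩ Z).card) := by
  obtain ⟨n₁, M, c₉, hM, hkeep⟩ := Pool.Agent.AEF.exists_pieces_keep (ε := κ / 4) (c := 1 / 4) (by positivity) (by linarith)
    (by norm_num) 1 Kg
  obtain ⟨n₂, hn₂⟩ := exists_nat_ge (1 / ξ)
  refine ⟨n₁ + n₂ + 8, M, c₉, hM, ?_⟩
  intro V R U P hPU hξP hn ι G D hD hDne hGD Sx I hI hSI
  -- the family
  have hex : ∀ p : V, ∃ FF : Finset (Finset V), FF.card ≤ U.card ∧ (∀ F ∈ FF, F ⊆ U ∧ κ * U.card ≤ (F.card : ℝ)) ∧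
      ∀ t : ℝ, Rea R U P (κ * U.card) t p → ∀ (S : Finset V) (k' : ℝ), (∀ F ∈ FF, k' ≤ ((F \ S).card : ℝ)) →
        Rea R (U \ S) (P \ S) k' t p := by
    intro p
    -- the largest set which is reached
    by_cases h0 : ∃ W, Rch R U (κ * U.card) p W ∧ ∀ W', Rch R U (κ * U.card) p W' → W' ⊆ W
    · obtain ⟨W, hW, hmax⟩ := h0
      obtain ⟨FF, h1, h2, h3⟩ := rch_family hW
      refine ⟨FF, h1.trans (card_le_card (rch_sub hW)), h2, ?_⟩
      rintro t ⟨W', hW', ht⟩ S k' hS
      refine ⟨W \ S, h3 S k' hS, le_trans ?_ ht⟩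
      apply Nat.cast_le.2
      apply card_le_card
      intro u hu
      rw [mem_sdiff, mem_sdiff, mem_sdiff] at hu
      rw [mem_sdiff]
      exact ⟨hu.1.1, fun h => hu.2 ⟨hmax W' hW' h, hu.1.2⟩⟩
    · exfalso
      apply h0
      -- a maximal reached set contains all reached sets
      obtain ⟨W, hW, hmax⟩ := exists_max_image (U.powerset.filter (fun W => Rch R U (κ * U.card) p W)) card
        ⟨nO R U p, mem_filter.2 ⟨mem_powerset.2 nO_sub, Rch.base⟩⟩
      rw [mem_filter] at hW
      refine ⟨W, hW.2, ?_⟩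
      have hbase : nO R U p ⊆ W := by
        have : ∀ W, Rch R U (κ * U.card) p W → nO R U p ⊆ W := by
          intro W hW
          induction hW with
          | base => exact Subset.refl _
          | step W z _ _ _ _ ih => exact ih.trans (subset_insert _ _)
        exact this W hW.2
      intro W' hW'
      induction hW' with
      | base => exact hbase
      | step W' z _ hz _ hk ih =>
        refine insert_subset ?_ ih
        by_contra hzW
        have h4 : Rch R U (κ * U.card) p (insert z W) := by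
          refine Rch.step W z hW.2 hz hzW (hk.trans ?_)
          apply Nat.cast_le.2
          apply card_le_card
          intro u hu
          rw [mem_nI] at hu ⊢
          exact ⟨ih hu.1, hu.2⟩
        have h5 := hmax (insert z W) (mem_filter.2 ⟨mem_powerset.2 (rch_sub h4), h4⟩)
        rw [card_insert_of_notMem hzW] at h5
        omega
  choose FF hF1 hF2 hF3 using hex
  obtain ⟨FA, hFA⟩ : ∃ FA : Finset (Finset V), FA = U.biUnion FF := ⟨_, rfl⟩
  have hPc : (0 : ℝ) < P.card := by
    have : (8 : ℕ) ≤ P.card := by omega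
    have : (8 : ℝ) ≤ P.card := by exact_mod_cast this
    linarith
  have hUP : U.card ≤ P.card * P.card := by
    have h1 : (n₂ : ℝ) ≤ P.card := by exact_mod_cast (show n₂ ≤ P.card by omega)
    have h2 : (U.card : ℝ) ≤ 1 / ξ * P.card := by
      rw [one_div, inv_mul_eq_div, le_div_iff₀ hξ]
      linarith
    have h3 : (U.card : ℝ) ≤ (P.card : ℝ) * P.card := by
      refine h2.trans (mul_le_mul_of_nonneg_right (hn₂.trans h1) hPc.le)
    exact_mod_cast h3
  have hFAc : FA.card ≤ P.card ^ 5 := by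
    have h1 : FA.card ≤ U.card * U.card := by
      rw [hFA]
      refine card_biUnion_le.trans ?_
      refine (sum_le_sum (fun u _ => hF1 u)).trans ?_
      rw [sum_const, smul_eq_mul]
    have h2 : U.card * U.card ≤ P.card * P.card * (P.card * P.card) := Nat.mul_le_mul hUP hUP
    have h3 : P.card * P.card * (P.card * P.card) = P.card ^ 4 * 1 := by ring
    have h4 : P.card ^ 5 = P.card ^ 4 * P.card := by ring
    rw [h4]
    refine h1.trans (h2.trans ?_)
    rw [h3]
    exact Nat.mul_le_mul_left _ (by omega)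
  obtain ⟨Pc, Q, p1, p2, p3, p4, p5, p6, p7, p8, p9, p10, p11⟩ := hkeep P FA (by omega) hFAc G D hD hDne hGD Sx I hI hSI
    1 (fun _ => (1 : ℝ) / 8 * P.card) le_rfl (fun _ => by positivity) (by
      rw [sum_const, card_univ, Fintype.card_fin, one_smul]
      have : (1 : ℝ) / 8 * P.card ≤ (1 - 3 * (1 / 4)) * P.card := mul_le_mul_of_nonneg_right (by norm_num) hPc.le
      exact this)
  have hQP : Q ⊆ P \ Pc 0 := by
    intro u hu
    rw [mem_sdiff]
    exact ⟨p5 hu, fun h => disjoint_left.1 (p4 0) h hu⟩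
  refine ⟨Pc 0, p1 0, ?_, ?_, ?_, ?_, ?_⟩
  · have h1 := p6 0
    have h2 : (P.card : ℝ) ≤ 8 * (Pc 0).card := by
      linarith
    exact_mod_cast h2
  · have h1 : (Q.card : ℝ) ≤ (P \ Pc 0).card := by exact_mod_cast card_le_card hQP
    have h2 : (P.card : ℝ) ≤ 8 * (P \ Pc 0).card := by linarith
    exact_mod_cast h2
  · intro S hS w hw t hR
    refine hF3 w t hR S _ ?_
    intro F hF
    obtain ⟨hFU, hFk⟩ := hF2 w F hF
    have hFA' : F ∈ FA := by
      rw [hFA, mem_biUnion]
      exact ⟨w, hw, hF⟩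
    have h1 : (F \ S).card ≥ (F \ P).card + (F ∩ Q).card := by
      rw [← card_union_of_disjoint]
      · apply card_le_card
        intro u hu
        rw [mem_union, mem_sdiff, mem_inter] at hu
        rw [mem_sdiff]
        rcases hu with ⟨h2, h3⟩ | ⟨h2, h3⟩
        · exact ⟨h2, fun h => h3 (p1 0 (hS h))⟩
        · exact ⟨h2, fun h => disjoint_left.1 (p4 0) (hS h) h3⟩
      · rw [disjoint_left]
        intro u hu hu'
        exact (mem_sdiff.1 hu).2 (p5 (mem_inter.1 hu').2)
    have h1' : ((F \ P).card : ℝ) + (F ∩ Q).card ≤ (F \ S).card := by exact_mod_cast h1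
    have h2 : (F.card : ℝ) = (F \ P).card + (F ∩ P).card := by
      exact_mod_cast (card_sdiff_add_card_inter F P).symm
    have h3 := p9 F hFA'
    have h4 : ((F ∩ P).card : ℝ) / P.card * P.card = (F ∩ P).card := by
      field_simp
    have hU0 : (0 : ℝ) ≤ U.card := Nat.cast_nonneg _
    have hPU' : (P.card : ℝ) ≤ U.card := by exact_mod_cast card_le_card hPU
    have hκU : κ * P.card ≤ κ * U.card := mul_le_mul_of_nonneg_left hPU' hκ.le
    have hκU0 : 0 ≤ κ * U.card := mul_nonneg hκ.le hU0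
    have hFQ0 : (0 : ℝ) ≤ (F ∩ Q).card := Nat.cast_nonneg _
    have hFP0 : (0 : ℝ) ≤ (F \ P).card := Nat.cast_nonneg _
    have h16 : κ / 16 * (U.card : ℝ) = κ * U.card / 16 := by ring
    rw [h16]
    by_cases h5 : κ * U.card / 2 ≤ (F \ P).card
    · linarith
    · push Not at h5
      have h6 : κ * U.card / 2 ≤ (F ∩ P).card := by linarith
      have h7 : κ / 2 - κ / 4 ≤ ((F ∩ P).card : ℝ) / P.card - κ / 4 := by
        have : κ / 2 ≤ ((F ∩ P).card : ℝ) / P.card := by
          rw [le_div_iff₀ hPc]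
          linarith
        linarith
      have h8 : (κ / 2 - κ / 4) * Q.card ≤ (((F ∩ P).card : ℝ) / P.card - κ / 4) * Q.card :=
        mul_le_mul_of_nonneg_right h7 (Nat.cast_nonneg _)
      have h9 : (κ / 2 - κ / 4) * (1 / 4 * P.card) ≤ (κ / 2 - κ / 4) * Q.card :=
        mul_le_mul_of_nonneg_left p8 (by linarith)
      -- the proportion is bounded below by `|F ∩ P| / |P|`, use it fully
      have h10 : (((F ∩ P).card : ℝ) / P.card - κ / 4) * (1 / 4 * P.card) ≤
          (((F ∩ P).card : ℝ) / P.card - κ / 4) * Q.card := mul_le_mul_of_nonneg_left p8 (by linarith)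
      have h11 : (((F ∩ P).card : ℝ) / P.card - κ / 4) * (1 / 4 * P.card) = (F ∩ P).card / 4 - κ * P.card / 16 := by
        rw [sub_mul]
        have : ((F ∩ P).card : ℝ) / P.card * (1 / 4 * P.card) = (F ∩ P).card / 4 := by
          field_simp
        rw [this]
        ring
      rw [h11] at h10
      linarith
  · intro u hu
    obtain ⟨h1, h2⟩ := p10 u hu
    have h3 : D u ∩ Q ⊆ D u \ Pc 0 := by
      intro x hx
      rw [mem_inter] at hx
      rw [mem_sdiff]
      exact ⟨hx.1, (mem_sdiff.1 (hQP hx.2)).2⟩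
    exact ⟨h1.mono h3, h2.trans (Nat.mul_le_mul_left _ (card_le_card h3))⟩
  · intro v hv hc
    obtain ⟨h1, h2⟩ := p11 v hv hc
    have h3 : I v ∩ Q ⊆ I v \ Pc 0 := by
      intro x hx
      rw [mem_inter] at hx
      rw [mem_sdiff]
      exact ⟨hx.1, (mem_sdiff.1 (hQP hx.2)).2⟩
    exact ⟨h1.trans (Nat.mul_le_mul_left _ (card_le_card h3)), h2 0⟩

end AEG
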