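import Pool.Agent.AEG.Short

/-!
# The choice of the last vertex of a final group

`scale_out`: if few vertices lie in the in-branches of a group and few behind the group, then for some vertex of the
group the out-branch is big compared with everything behind this vertex.
-/

set_option autoImplicit false

namespace AEG

open Finset AE15 AED AEB
open scoped Classical

/-- the property `Φ` (of a line and a number of available vertices) holds if some out-branch is big and everything behind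
it is small -/
def BigOut (N : ℕ) (Φ : List (Fd × Fd) → ℕ → Prop) : Prop := ∀ κ : ℝ, 0 < κ → ∃ (κ₁ δ : ℝ) (C : ℕ), 0 < κ₁ ∧ 0 < δ ∧
  ∀ (G rest : List (Fd × Fd)) (q : Fd × Fd) (n : ℕ), (G ++ [q]).length ≤ N → szS (G ++ q :: rest) + C ≤ n →
    ((inS (G ++ [q]) : ℕ) : ℝ) ≤ κ₁ * n → κ * n ≤ (q.2.size : ℝ) → (szS rest : ℝ) ≤ δ * n → Φ (G ++ q :: rest) n

theorem scale_ind {N : ℕ} {Φ : List (Fd × Fd) → ℕ → Prop} (hS : BigOut N Φ) (k : ℕ) : ∀ κ : ℝ, 0 < κ →
    ∃ (κ₁ δ₀ : ℝ) (C : ℕ), 0 < κ₁ ∧ 0 < δ₀ ∧ ∀ (G G' rest : List (Fd × Fd)) (q : Fd × Fd) (n : ℕ),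
      G'.length ≤ k → (G ++ q :: G').length ≤ N → szS (G ++ q :: (G' ++ rest)) + C ≤ n →
      ((inS (G ++ q :: G') : ℕ) : ℝ) ≤ κ₁ * n → (szS rest : ℝ) ≤ δ₀ * n →
      κ * n ≤ (q.2.size : ℝ) → Φ (G ++ q :: (G' ++ rest)) n := by
  induction k with
  | zero =>
    intro κ hκ
    obtain ⟨κ₁, δ, C, h1, h2, h3⟩ := hS κ hκ
    refine ⟨κ₁, δ, C, h1, h2, ?_⟩
    intro G G' rest q n hr hN hX hin hrest hq
    obtain rfl : G' = [] := List.eq_nil_of_length_eq_zero (by omega)
    rw [List.nil_append] at hX ⊢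
    exact h3 G rest q n hN hX hin hq hrest
  | succ k ih =>
    intro κ hκ
    obtain ⟨κ₁, δ, C, h1, h2, h3⟩ := hS κ hκ
    obtain ⟨ε, hε⟩ : ∃ ε : ℝ, ε = δ / (8 * (N + 1)) := ⟨_, rfl⟩
    have hε0 : 0 < ε := by rw [hε]; positivity
    obtain ⟨κ₂, δ₂, C', h4, h4', h5⟩ := ih ε hε0
    obtain ⟨κ₃, hκ₃⟩ : ∃ κ₃ : ℝ, κ₃ = min (min κ₁ κ₂) (δ / 8) := ⟨_, rfl⟩
    have h6 : 0 < κ₃ := by rw [hκ₃]; positivity
    have h7 : κ₃ ≤ κ₁ := by rw [hκ₃]; exact (min_le_left _ _).trans (min_le_left _ _)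
    have h8 : κ₃ ≤ κ₂ := by rw [hκ₃]; exact (min_le_left _ _).trans (min_le_right _ _)
    have h9 : κ₃ ≤ δ / 8 := by rw [hκ₃]; exact min_le_right _ _
    obtain ⟨δ₃, hδ₃⟩ : ∃ δ₃ : ℝ, δ₃ = min δ₂ (δ / 2) := ⟨_, rfl⟩
    have h6' : 0 < δ₃ := by rw [hδ₃]; positivity
    have h7' : δ₃ ≤ δ₂ := by rw [hδ₃]; exact min_le_left _ _
    have h8' : δ₃ ≤ δ / 2 := by rw [hδ₃]; exact min_le_right _ _
    obtain ⟨C₁, hC₁⟩ : ∃ C₁ : ℕ, C₁ = C + C' + ⌈8 * N / δ⌉₊ := ⟨_, rfl⟩
    refine ⟨κ₃, δ₃, C₁, h6, h6', ?_⟩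
    intro G G' rest q n hr hN hX hin hrest hq
    have hX0 : (0 : ℝ) ≤ n := Nat.cast_nonneg _
    by_cases hsm : (szS (G' ++ rest) : ℝ) ≤ δ * n
    · refine h3 G (G' ++ rest) q n ?_ (by omega) ?_ hq hsm
      · rw [List.length_append, List.length_cons] at hN
        rw [List.length_append, List.length_singleton]
        omega
      · refine le_trans ?_ (mul_le_mul_of_nonneg_right h7 hX0)
        refine le_trans (Nat.cast_le.2 ?_) hin
        rw [inS_append, inS_append]
        simp only [inS, List.map_cons, List.map_nil, List.sum_cons, List.sum_nil]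
        omega
    · push Not at hsm
      have hNX : (N : ℝ) ≤ δ / 8 * n := by
        have hc : (⌈8 * N / δ⌉₊ : ℝ) ≤ n := by exact_mod_cast (by omega : ⌈8 * N / δ⌉₊ ≤ n)
        have h10 : 8 * (N : ℝ) / δ ≤ n := (Nat.le_ceil _).trans hc
        rw [div_le_iff₀ h2] at h10
        linarith
      have hlen : G'.length ≤ N := by
        rw [List.length_append, List.length_cons] at hN
        omega
      have hin' : (inS G' : ℝ) ≤ δ / 8 * n := by
        refine le_trans ?_ (hin.trans (mul_le_mul_of_nonneg_right h9 hX0))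
        refine Nat.cast_le.2 ?_
        rw [inS_append]
        simp only [inS, List.map_cons, List.sum_cons]
        omega
      have hout : (N : ℝ) * (ε * n) < outS G' := by
        have h10 : (szS (G' ++ rest) : ℝ) = inS G' + outS G' + G'.length + szS rest := by
          rw [szS_append, szS_eq G']
          push_cast
          ring
        have h12 : (G'.length : ℝ) ≤ N := by exact_mod_cast hlen
        have h13 : (N : ℝ) * ε ≤ δ / 8 := by
          rw [hε, mul_div_assoc', div_le_div_iff₀ (by positivity) (by norm_num)]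
          nlinarith [(Nat.cast_nonneg N : (0 : ℝ) ≤ N)]
        have h14 := mul_le_mul_of_nonneg_right h13 hX0
        have h15 := hrest.trans (mul_le_mul_of_nonneg_right h8' hX0)
        nlinarith [mul_pos h2 (lt_of_le_of_lt (mul_nonneg h2.le hX0) hsm)]
      obtain ⟨G₁, q', G₂, h15, h16⟩ := exists_big_out (by positivity) hlen hout
      have h17 : G ++ q :: (G' ++ rest) = (G ++ q :: G₁) ++ q' :: (G₂ ++ rest) := by
        rw [h15]
        simp
      have h18 : G ++ q :: G' = (G ++ q :: G₁) ++ q' :: G₂ := by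
        rw [h15]
        simp
      rw [h17] at hX ⊢
      rw [h18] at hN hin
      refine h5 (G ++ q :: G₁) G₂ rest q' n ?_ hN (by omega) (hin.trans (mul_le_mul_of_nonneg_right h8 hX0))
        (hrest.trans (mul_le_mul_of_nonneg_right h7' hX0)) h16.le
      rw [h15, List.length_append, List.length_cons] at hr
      omega

/-- a group with few vertices in the in-branches and few vertices behind it, in a universe which is at most `K` times as
large as the line -/
theorem scale_out {N : ℕ} {Φ : List (Fd × Fd) → ℕ → Prop} (hS : BigOut N Φ) (K : ℕ) :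
    ∃ (κ₁ δ₀ : ℝ) (C : ℕ), 0 < κ₁ ∧ 0 < δ₀ ∧ ∀ (G rest : List (Fd × Fd)) (n : ℕ),
      G.length ≤ N → G ++ rest ≠ [] → szS (G ++ rest) + C ≤ n → n ≤ K * szS (G ++ rest) →
      ((inS G : ℕ) : ℝ) ≤ κ₁ * n → (szS rest : ℝ) ≤ δ₀ * n → Φ (G ++ rest) n := by
  obtain ⟨κ₁, δ₀, C, h1, h1', h2⟩ := scale_ind hS N (1 / (8 * (N + 1) * (K + 1))) (by positivity)
  refine ⟨min κ₁ (1 / (8 * (K + 1))), min δ₀ (1 / (8 * (K + 1))), C + 8 * N * (K + 1), by positivity, by positivity, ?_⟩
  intro G rest n hN hne hX hX2' hin hrest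
  have hX2 : (n : ℝ) ≤ K * szS (G ++ rest) := by exact_mod_cast hX2'
  have hX0 : (0 : ℝ) ≤ n := Nat.cast_nonneg _
  have hK0 : (0 : ℝ) ≤ K := Nat.cast_nonneg _
  have hNX : 8 * (N : ℝ) * (K + 1) ≤ n := by exact_mod_cast (by omega : 8 * N * (K + 1) ≤ n)
  have h3 : (szS (G ++ rest) : ℝ) = inS G + outS G + G.length + szS rest := by
    rw [szS_append, szS_eq G]
    push_cast
    ring
  have h4 : (G.length : ℝ) ≤ N := by exact_mod_cast hN
  have h5 : ((inS G : ℕ) : ℝ) ≤ 1 / (8 * (K + 1)) * n := hin.trans (mul_le_mul_of_nonneg_right (min_le_right _ _) hX0)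
  have h6 : (szS rest : ℝ) ≤ 1 / (8 * (K + 1)) * n := hrest.trans (mul_le_mul_of_nonneg_right (min_le_right _ _) hX0)
  have hpos : 0 < szS (G ++ rest) := by
    cases h : G ++ rest with
    | nil => exact absurd h hne
    | cons q L => rw [szS_cons]; omega
  have hXp : (0 : ℝ) < n := by exact_mod_cast (by omega : 0 < n)
  obtain ⟨t, ht⟩ : ∃ t : ℝ, t = 1 / (8 * (K + 1)) * n := ⟨_, rfl⟩
  have htn : (n : ℝ) = 8 * (K + 1) * t := by
    rw [ht]
    field_simp
  have ht0 : 0 < t := by rw [ht]; positivity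
  have hNt : (N : ℝ) ≤ t := by
    rw [htn] at hNX
    nlinarith
  rw [← ht] at h5 h6
  have hout1 : t < outS G := by
    rw [h3] at hX2
    rw [htn] at hX2
    nlinarith
  have hout : (N : ℝ) * (1 / (8 * (N + 1) * (K + 1)) * n) < outS G := by
    refine lt_of_le_of_lt ?_ hout1
    rw [htn]
    have h7 : (N : ℝ) * (1 / (8 * (N + 1) * (K + 1)) * (8 * (K + 1) * t)) = N / (N + 1) * t := by
      field_simp
    rw [h7]
    have h8 : (N : ℝ) / (N + 1) ≤ 1 := by
      rw [div_le_one (by positivity)]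
      linarith
    nlinarith
  obtain ⟨G₁, q, G₂, h15, h16⟩ := exists_big_out (by positivity) hN hout
  subst h15
  rw [List.append_assoc, List.cons_append] at hX ⊢
  exact h2 G₁ G₂ rest q n (by rw [List.length_append, List.length_cons] at hN; omega) hN (by omega)
    (hin.trans (mul_le_mul_of_nonneg_right (min_le_left _ _) hX0))
    (hrest.trans (mul_le_mul_of_nonneg_right (min_le_left _ _) hX0)) h16.le

end AEG
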