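import Mathlib

/-!
# Stage selection and bookkeeping of the NO-phase

`l` is the list of the sizes of the pure in-cores along the main line.
-/

set_option autoImplicit false

namespace AEG

/-- the mass after the first `k` vertices -/
def rst (l : List ℕ) (k : ℕ) : ℕ := (l.drop k).sum

theorem rst_zero (l : List ℕ) : rst l 0 = l.sum := by simp [rst]

theorem rst_add (l : List ℕ) (j k : ℕ) : rst l j = ((l.drop j).take k).sum + rst l (j + k) := by
  have h := List.sum_take_add_sum_drop (l.drop j) k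
  rw [List.drop_drop] at h
  exact h.symm

theorem rst_anti (l : List ℕ) {j k : ℕ} (h : j ≤ k) : rst l k ≤ rst l j := by
  obtain ⟨d, rfl⟩ := Nat.exists_eq_add_of_le h
  rw [rst_add l j d]
  exact Nat.le_add_left _ _

theorem rst_le (l : List ℕ) (k : ℕ) : rst l k ≤ l.sum := by
  rw [← rst_zero]
  exact rst_anti l (Nat.zero_le _)

/-- stage selection: blocks of length `K` after the open part of length `e`. Either the rest is at most `2 ^ (-J)` of the
mass, or there is a block whose mass is at most the rest behind it, and the rest in front of it is still large -/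
theorem exists_stage (l : List ℕ) (K J e : ℕ) : ∃ s ≤ J, 2 ^ J * rst l (e + s * K) ≤ l.sum ∨
    ∃ t, s = t + 1 ∧ rst l (e + t * K) ≤ 2 * rst l (e + s * K) ∧ l.sum < 2 ^ J * rst l (e + t * K) := by
  by_contra hcon
  push Not at hcon
  have h1 : ∀ s ≤ J, 2 ^ s * rst l (e + s * K) ≤ l.sum := by
    intro s
    induction s with
    | zero =>
      intro _
      simpa using rst_le l (e + 0 * K)
    | succ t ih =>
      intro hs
      have h2 := ih (by omega)
      have h3 := (hcon t (by omega)).1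
      have h4 := (hcon (t + 1) hs).2 t rfl
      by_cases h5 : rst l (e + t * K) ≤ 2 * rst l (e + (t + 1) * K)
      · exact absurd (h4 h5) (by omega)
      · push Not at h5
        calc 2 ^ (t + 1) * rst l (e + (t + 1) * K) = 2 ^ t * (2 * rst l (e + (t + 1) * K)) := by ring
          _ ≤ 2 ^ t * rst l (e + t * K) := Nat.mul_le_mul_left _ h5.le
          _ ≤ l.sum := h2
  exact absurd (h1 J le_rfl) (by have := (hcon J le_rfl).1; omega)

/-- the lightest of `K` disjoint runs of length four -/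
theorem exists_run (l : List ℕ) (a : ℕ) {K : ℕ} (hK : 0 < K) : ∃ t < K, ∃ r, rst l (a + 4 * t) = r + rst l (a + 4 * t + 4) ∧
    K * r + rst l (a + 4 * K) ≤ rst l a := by
  classical
  obtain ⟨r, hr⟩ : ∃ r : ℕ → ℕ, r = fun t => ((l.drop (a + 4 * t)).take 4).sum := ⟨_, rfl⟩
  have h1 : ∀ t, rst l (a + 4 * t) = r t + rst l (a + 4 * t + 4) := by
    intro t
    rw [hr]
    exact rst_add l _ 4
  have h2 : ∀ k, rst l a = (Finset.range k).sum r + rst l (a + 4 * k) := by
    intro k
    induction k with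
    | zero => simp
    | succ k ih =>
      rw [ih, h1 k, Finset.sum_range_succ]
      have : a + 4 * (k + 1) = a + 4 * k + 4 := by ring
      rw [this]
      ring
  obtain ⟨t, ht, hmin⟩ := Finset.exists_min_image (Finset.range K) r ⟨0, Finset.mem_range.2 hK⟩
  refine ⟨t, Finset.mem_range.1 ht, r t, h1 t, ?_⟩
  rw [h2 K]
  have h3 : (Finset.range K).card • r t ≤ (Finset.range K).sum r := Finset.card_nsmul_le_sum _ _ _ (fun x hx => hmin x hx)
  rw [Finset.card_range, smul_eq_mul] at h3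
  omega

/-- the stage: a group `[0, g)` followed by four links, inside `[0, w)`, `w ≤ e + K J`, `w - g ≤ K`; the open part
`[0, e)` belongs to the group -/
theorem exists_group (l : List ℕ) (K J e : ℕ) (hK : 0 < K) : (∃ s ≤ J, 2 ^ J * rst l (e + s * (4 * K)) ≤ l.sum) ∨
    ∃ g w q, e ≤ g ∧ g + 4 ≤ w ∧ w ≤ e + J * (4 * K) ∧ w ≤ g + 4 * K ∧ rst l g = q + rst l (g + 4) ∧ K * q ≤ rst l w ∧
      K * q + rst l w ≤ l.sum ∧ l.sum < 2 ^ (J + 1) * rst l w := by
  obtain ⟨s, hs, h⟩ := exists_stage l (4 * K) J e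
  rcases h with h | ⟨t, rfl, h1, h2⟩
  · exact Or.inl ⟨s, hs, h⟩
  · right
    obtain ⟨i, hi, q, hq, hq2⟩ := exists_run l (e + t * (4 * K)) hK
    have hw : e + t * (4 * K) + 4 * K = e + (t + 1) * (4 * K) := by ring
    rw [hw] at hq2
    have h3 : (t + 1) * (4 * K) ≤ J * (4 * K) := Nat.mul_le_mul_right _ hs
    refine ⟨e + t * (4 * K) + 4 * i, e + (t + 1) * (4 * K), q, by omega, by omega, by omega, by omega, hq, by omega, ?_, ?_⟩
    · exact le_trans hq2 (rst_le _ _)
    · calc l.sum < 2 ^ J * rst l (e + t * (4 * K)) := h2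
        _ ≤ 2 ^ J * (2 * rst l (e + (t + 1) * (4 * K))) := Nat.mul_le_mul_left _ h1
        _ = 2 ^ (J + 1) * rst l (e + (t + 1) * (4 * K)) := by ring

end AEG

/-! ### Bookkeeping

`m` is the mass left on the main line, `w` the number of the vertices of the uncovered set which are not low (in-degree
`< σ`, `σ = 4 * κ * M`, where `M` is the mass at the beginning of the current period), `β` is the mass of the open part.
A period ends when `2 * m < M`. -/

namespace AEG

/-- the invariant of the bookkeeping -/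
def Inv (d e m w M β : ℝ) : Prop :=
  M ≤ 2 * m ∧ m ≤ M ∧ 0 ≤ β ∧ β ≤ m ∧ 3 / 4 * d * M ≤ m - w + 2 * e * (M - m) + e * β

theorem Inv.start {d e m w β : ℝ} (he : 0 ≤ e) (hm : 0 ≤ m) (hβ : 0 ≤ β) (hβm : β ≤ m) (h : 3 / 4 * d * m ≤ m - w) :
    Inv d e m w m β := by
  refine ⟨by linarith, le_rfl, hβ, hβm, ?_⟩
  have := mul_nonneg he hβ
  nlinarith

theorem Inv.mono {d e m w w' M β : ℝ} (h : Inv d e m w M β) (hw : w' ≤ w) : Inv d e m w' M β :=
  ⟨h.1, h.2.1, h.2.2.1, h.2.2.2.1, by linarith [h.2.2.2.2]⟩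

/-- the bound for the uncovered set, the low vertices included -/
theorem Inv.bound {d e κ m w M β : ℝ} (h : Inv d e m w M β) (hd : 0 ≤ d) (he : 0 ≤ e) (he2 : e ≤ d / 40)
    (hκ2 : κ ≤ d / 400) : w + 8 * κ * M ≤ (1 - 13 / 20 * d) * m ∧ 13 / 20 * d * M ≤ m - (w + 8 * κ * M) := by
  obtain ⟨h1, h2, h3, h4, h5⟩ := h
  have hM : 0 ≤ M := by linarith
  have h6 : e * β ≤ e * m := mul_le_mul_of_nonneg_left h4 he
  have h7 : e * M ≤ d / 40 * M := mul_le_mul_of_nonneg_right he2 hM
  have h8 : κ * M ≤ d / 400 * M := mul_le_mul_of_nonneg_right hκ2 hM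
  have h9 : 0 ≤ e * m := mul_nonneg he (by linarith)
  have h10 : d * m ≤ d * M := mul_le_mul_of_nonneg_left h2 hd
  constructor <;> nlinarith

/-- a light round: mass `q` is taken from the uncovered set -/
theorem Inv.light {d e m w M β m' w' β' q : ℝ} (h : Inv d e m w M β) (he : 0 ≤ e) (hq : 0 ≤ q) (hm : m' = m - q)
    (hw : w' ≤ w - q) (hM : M ≤ 2 * m') (hβ0 : 0 ≤ β') (hβm : β' ≤ m') (hβ : β - q ≤ β') : Inv d e m' w' M β' := by
  obtain ⟨h1, h2, h3, h4, h5⟩ := h
  refine ⟨hM, by linarith, hβ0, hβm, ?_⟩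
  subst hm
  have h6 : e * (β - q) ≤ e * β' := mul_le_mul_of_nonneg_left hβ he
  have h7 : 0 ≤ e * q := mul_nonneg he hq
  nlinarith

/-- a heavy stage: mass `g` is taken from the uncovered set, mass `q` of the links is placed elsewhere; `x` is the cost -/
theorem Inv.heavy {d e m w M β m' w' β' g q x : ℝ} (h : Inv d e m w M β) (he : 0 ≤ e) (hq : 0 ≤ q)
    (hm : m' = m - g - q) (hw : w' ≤ w - g + x) (hM : M ≤ 2 * m') (hβ0 : 0 ≤ β') (hβm : β' ≤ m') (hβ : β ≤ g)
    (hx : x + q ≤ e * (g + q + β')) : Inv d e m' w' M β' := by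
  obtain ⟨h1, h2, h3, h4, h5⟩ := h
  have hg : 0 ≤ g := h3.trans hβ
  refine ⟨hM, by linarith, hβ0, hβm, ?_⟩
  subst hm
  have h6 : e * β ≤ e * g := mul_le_mul_of_nonneg_left hβ he
  have h7 : 0 ≤ e * q := mul_nonneg he hq
  nlinarith

/-- the end of a period: the mass has dropped below `M / 2` and the low vertices are added to the uncovered set; `y` is
the cost of the last stage -/
theorem Inv.next {d e κ m w M β m' w' β' g q x : ℝ} (h : Inv d e m w M β) (hd : 0 ≤ d) (he : 0 ≤ e)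
    (he2 : e ≤ d / 40) (hκ2 : κ ≤ d / 400) (hm0 : 0 ≤ m') (hm : m' = m - g - q) (hw : w' ≤ w - g + x + 8 * κ * M)
    (hM : 2 * m' ≤ M) (hβ0 : 0 ≤ β') (hβm : β' ≤ m') (hx : x + q ≤ e * M) : Inv d e m' w' m' β' := by
  obtain ⟨h1, h2, h3, h4, h5⟩ := h
  have hM0 : 0 ≤ M := by linarith
  apply Inv.start he hm0 hβ0 hβm
  have h6 : e * β ≤ e * m := mul_le_mul_of_nonneg_left h4 he
  have h7 : e * M ≤ d / 40 * M := mul_le_mul_of_nonneg_right he2 hM0
  have h8 : κ * M ≤ d / 400 * M := mul_le_mul_of_nonneg_right hκ2 hM0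
  have h9 : 0 ≤ e * m := mul_nonneg he (by linarith)
  have h10 : d * (2 * m') ≤ d * M := mul_le_mul_of_nonneg_left hM hd
  subst hm
  nlinarith

/-- the small case: the uncovered set is at most half of the mass -/
theorem Inv.small {d e m w β : ℝ} (hd1 : d ≤ 2 / 3) (he : 0 ≤ e) (hm : 0 ≤ m) (hβ : 0 ≤ β) (hβm : β ≤ m)
    (h : w ≤ m / 2) : Inv d e m w m β := by
  apply Inv.start he hm hβ hβm
  nlinarith

/-- a critical stage -/
theorem Inv.crit {d e m w β c : ℝ} (hd : 0 ≤ d) (he : 0 ≤ e) (hm : 0 ≤ m) (hβ : 0 ≤ β) (hβm : β ≤ m)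
    (h : w ≤ (1 - 2 * d) * m + c) (hc : c ≤ d * m) : Inv d e m w m β := by
  apply Inv.start he hm hβ hβm
  nlinarith [mul_nonneg hd hm]

end AEG
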