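import Pool.Agent.AEG.Stage

/-!
# Stage selection with runs of any length, and the bookkeeping of the fine class
-/

set_option autoImplicit false

namespace AEG

/-- the lightest of `K` disjoint runs of length `L` -/
theorem exists_runR (l : List ℕ) (a L : ℕ) {K : ℕ} (hK : 0 < K) :
    ∃ t < K, ∃ r, rst l (a + L * t) = r + rst l (a + L * t + L) ∧ K * r + rst l (a + L * K) ≤ rst l a := by
  classical
  obtain ⟨r, hr⟩ : ∃ r : ℕ → ℕ, r = fun t => ((l.drop (a + L * t)).take L).sum := ⟨_, rfl⟩
  have h1 : ∀ t, rst l (a + L * t) = r t + rst l (a + L * t + L) := by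
    intro t
    rw [hr]
    exact rst_add l _ L
  have h2 : ∀ k, rst l a = (Finset.range k).sum r + rst l (a + L * k) := by
    intro k
    induction k with
    | zero => simp
    | succ k ih =>
      rw [ih, h1 k, Finset.sum_range_succ]
      have : a + L * (k + 1) = a + L * k + L := by ring
      rw [this]
      ring
  obtain ⟨t, ht, hmin⟩ := Finset.exists_min_image (Finset.range K) r ⟨0, Finset.mem_range.2 hK⟩
  refine ⟨t, Finset.mem_range.1 ht, r t, h1 t, ?_⟩
  rw [h2 K]
  have h3 : (Finset.range K).card • r t ≤ (Finset.range K).sum r :=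
    Finset.card_nsmul_le_sum _ _ _ (fun x hx => hmin x hx)
  rw [Finset.card_range, smul_eq_mul] at h3
  omega

/-- the stage, runs of length `L` -/
theorem exists_groupR (l : List ℕ) (K J e L : ℕ) (hK : 0 < K) :
    (∃ s ≤ J, 2 ^ J * rst l (e + s * (L * K)) ≤ l.sum) ∨
    ∃ g w q, e ≤ g ∧ g + L ≤ w ∧ w ≤ e + J * (L * K) ∧ w ≤ g + L * K ∧ rst l g = q + rst l (g + L) ∧
      K * q ≤ rst l w ∧ K * q + rst l w ≤ l.sum ∧ l.sum < 2 ^ (J + 1) * rst l w := by
  obtain ⟨s, hs, h⟩ := exists_stage l (L * K) J e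
  rcases h with h | ⟨t, rfl, h1, h2⟩
  · exact Or.inl ⟨s, hs, h⟩
  · right
    obtain ⟨i, hi, q, hq, hq2⟩ := exists_runR l (e + t * (L * K)) L hK
    have hw : e + t * (L * K) + L * K = e + (t + 1) * (L * K) := by ring
    rw [hw] at hq2
    have h3 : (t + 1) * (L * K) ≤ J * (L * K) := Nat.mul_le_mul_right _ hs
    have h4 : L * i + L ≤ L * K := by
      have : L * (i + 1) ≤ L * K := Nat.mul_le_mul_left _ hi
      linarith [mul_add L i 1, this]
    refine ⟨e + t * (L * K) + L * i, e + (t + 1) * (L * K), q, by omega, by linarith, by linarith, ?_, hq, by omega, ?_, ?_⟩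
    · rw [← hw]
      omega
    · exact le_trans hq2 (rst_le _ _)
    · calc l.sum < 2 ^ J * rst l (e + t * (L * K)) := h2
        _ ≤ 2 ^ J * (2 * rst l (e + (t + 1) * (L * K))) := Nat.mul_le_mul_left _ h1
        _ = 2 ^ (J + 1) * rst l (e + (t + 1) * (L * K)) := by ring

end AEG
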