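import Pool.Agent.AEG.ChainC

/-!
# The fine class with critical groups: entering a critical group
-/

set_option autoImplicit false

namespace AEG

open Finset AE15 AED AEB SPD
open scoped Classical

/-- splitting the line -/
theorem split_three {L : List (Fd × Fd)} {j : ℕ} (hj : 4 ≤ j) (hL : j < L.length) :
    ∃ (l₁ l₂ l₃ : Fd × Fd) (gr L' : List (Fd × Fd)), L = l₁ :: l₂ :: l₃ :: (gr ++ L') ∧ L' = L.drop j ∧
      L' ≠ [] ∧ gr ≠ [] ∧ gr.length + 3 = j ∧ inS [l₁, l₂, l₃] = inS (L.take 3) ∧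
      inS (L.take 3) + inS gr + inS L' = inS L ∧ gr = (L.drop 3).take (j - 3) := by
  obtain ⟨l₁, l₂, l₃, L₁, rfl⟩ : ∃ l₁ l₂ l₃ L₁, L = l₁ :: l₂ :: l₃ :: L₁ := by
    match L, hL with
    | l₁ :: l₂ :: l₃ :: L, _ => exact ⟨l₁, l₂, l₃, L, rfl⟩
    | [], h => exact absurd h (by simp)
    | [_], h => exact absurd h (by simp; omega)
    | [_, _], h => exact absurd h (by simp; omega)
  obtain ⟨d, rfl⟩ := Nat.exists_eq_add_of_le hj
  simp only [List.length_cons] at hL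
  have e4 : List.drop 3 (l₁ :: l₂ :: l₃ :: L₁) = L₁ := by simp
  have e5 : List.drop (4 + d) (l₁ :: l₂ :: l₃ :: L₁) = L₁.drop (d + 1) := by
    rw [show 4 + d = (d + 1) + 1 + 1 + 1 by omega]
    simp
  have e6 : (l₁ :: l₂ :: l₃ :: L₁).take 3 = [l₁, l₂, l₃] := by simp
  have hlen : (L₁.drop (d + 1)).length = L₁.length - (d + 1) := List.length_drop ..
  refine ⟨l₁, l₂, l₃, L₁.take (d + 1), L₁.drop (d + 1), by rw [List.take_append_drop], e5.symm, ?_, ?_, ?_, by rw [e6], ?_,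
    ?_⟩
  · intro h
    rw [h] at hlen
    simp at hlen
    omega
  · intro h
    have h1 : (L₁.take (d + 1)).length = 0 := by rw [h]; rfl
    rw [List.length_take] at h1
    omega
  · rw [List.length_take]
    omega
  · have h1 := inS_take_add_drop L₁ (d + 1)
    have h2 : inS (l₁ :: l₂ :: l₃ :: L₁) = inS [l₁, l₂, l₃] + inS L₁ := by
      rw [show l₁ :: l₂ :: l₃ :: L₁ = [l₁, l₂, l₃] ++ L₁ by rfl, inS_append]
    rw [e6, h2]
    omega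
  · rw [e4, show 4 + d - 3 = d + 1 by omega]

section
variable {CS : CSt} {b l K₀ Nn f K : ℕ} {κ η s ξ ξ' ξc δx ζ θ δ e : ℝ}
  {Λ A A' p Λ₂ Λ₃ c₂ c₄ c₅ c₆ c₇ Cc C₀ C₂ Cx K₂ g C₅ B₂ Cb B M₉ K₃ Kh k1 k2 Bq W nn Cd : ℕ}

/-- **Entering a critical group** -/
theorem enter_step (nc : NumC ξ ξ' ξc δx ζ Λ A p Λ₂ Λ₃ c₂ c₄ c₅ c₆ c₇ Cc C₀ C₂ Cx K₂ g C₅ B₂ Cb)
    (num : NumF δ e ξ θ M₉ C₅ Λ A' Nn K₂ K₃ Kh k1 k2 B C₅ Bq B₂ W)
    (hE : EnterB CS b l K₀ κ η s Λ p A f K Nn ζ ξc Cc C₀ C₂) (hg : g = 2 * (2 * K₀ + 4) ^ (Nn + 8))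
    (hnn : 8 * nn + 16 ≤ Nn) (hn1 : 1 ≤ nn) (hpB : 8 * ((p + 1) * c₄) ≤ B₂) (hCc : Cc ≤ C₅) (hξ : 0 ≤ ξ) (hξc : ξ ≤ ξc)
    (hCbB : 2 * B + 2 ≤ Cb) (hCd : Cb ≤ Cd) {V : Type} {R : V → V → Prop} (hT : AE32.Tour R) {L : List (Fd × Fd)}
    {X : Finset V} {N : V → Prop} {M w lam r : ℕ}
    (h : LPos κ η s e f K k1 k2 K₂ K₃ B C₅ Λ B₂ Cd R L X N M w lam 0 r) (hr : 3 ≤ r) (hcl : ClsF b l K₀ 0 8 B θ L)
    (hlen : Nn < L.length) (hcr : (2 * Λ₃ + 2) * (p + 1) * inS (L.drop (r + 8 * nn)) ≤ inS (L.drop r)) :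
    ∃ (P X' : Finset V) (ys : List V) (y : V) (gr : List (Fd × Fd)) (w' c : ℕ),
      CPos CS b l ξ' Λ₂ c₂ p Λ₃ c₄ Cc C₀ C₂ Nn Cb R (L.drop (r + 8 * nn)) P X' ys y gr w' c ∧
      (PGoal R ys gr y (L.drop (r + 8 * nn)) (P ∪ X') → InS R L N X) := by
  have hθ := num.θ2
  have he0 := num.e0.le
  obtain ⟨hSt, hX, hM1, hM2, hBM, hJ, hpos, hcap⟩ := h
  have hr8 := hpos.r8
  have hcap1 : Λ * (inS (L.take r) + inS L / (4 * K₂)) + C₅ ≤ lam := by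
    rcases hcap with h | h
    · exact h.2.2
    · exact absurd h.1 (by omega)
  obtain ⟨j, hj⟩ : ∃ j, j = r + 8 * nn := ⟨_, rfl⟩
  rw [← hj] at hcr ⊢
  obtain ⟨l₁, l₂, l₃, gr, L', e0, e1, e2, e3, e4, e5, e6, e7⟩ := split_three (j := j) (by omega) (L := L) (by omega)
  obtain ⟨c, hc⟩ : ∃ c, szS L + c = X.card := ⟨X.card - szS L, by omega⟩
  have hcb : Cb ≤ c := by omega
  have hg' : szS L + c ≤ g * (szS L' + c) := by
    rw [hg, e1]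
    exact hcl.share' hθ (hCbB.trans hcb) (by omega)
  rw [← e1] at hcr ⊢
  obtain ⟨q, hq⟩ : ∃ q, q = inS (L.take 3) := ⟨_, rfl⟩
  obtain ⟨Q, hQ⟩ : ∃ Q, Q = inS gr := ⟨_, rfl⟩
  obtain ⟨m', hm'⟩ : ∃ m', m' = inS L' := ⟨_, rfl⟩
  obtain ⟨x, hx⟩ : ∃ x, x = inS L / (4 * K₂) := ⟨_, rfl⟩
  rw [← hx] at hcap1
  have hqr : q ≤ inS (L.take r) := by rw [hq]; exact inS_take_mono L hr
  have hrun0 : 4 * K₂ * inS (L.take r) ≤ M + B := by
    have h1 := hpos.run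
    rw [List.drop_zero, Nat.zero_add] at h1
    exact h1.trans (Nat.add_le_add_right ((inS_drop_le _ _).trans hM1) _)
  have hqx : K₂ * (inS (L.take r) + x) ≤ M + B := by
    rw [hx]
    exact sum_small hrun0 hM1
  have hq0 : K₂ * q ≤ M + B := (Nat.mul_le_mul_left _ (hqr.trans (Nat.le_add_right _ x))).trans hqx
  have hq16 := (num.run M q hBM hq0).2.2
  rw [← hq, ← hQ, ← hm'] at e6
  rw [← hm'] at hcr
  have hdr : inS (L.drop r) ≤ inS L := inS_drop_le _ _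
  -- the group is critical
  have hcrit : (p + 1) * (Λ₃ * m' + c₄) ≤ Q := by
    have h1 : (2 * Λ₃ + 2) * (p + 1) * m' = 2 * ((p + 1) * (Λ₃ * m')) + 2 * ((p + 1) * m') := by ring
    have h2 : (p + 1) * (Λ₃ * m' + c₄) = (p + 1) * (Λ₃ * m') + (p + 1) * c₄ := by ring
    have h3 : 1 * m' ≤ (p + 1) * m' := Nat.mul_le_mul_right _ (by omega)
    omega
  have hp1 : Λ₃ * m' + c₄ ≤ Q := by
    have h2 : 1 * (Λ₃ * m' + c₄) ≤ (p + 1) * (Λ₃ * m' + c₄) := Nat.mul_le_mul_right _ (by omega)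
    omega
  have ea3 := nc.a3
  have ea4 := nc.a4
  have ea5 := nc.a5
  have ea6 := nc.a6
  have ea7 := nc.a7
  have hm2 : 2 * m' ≤ Λ₃ * m' := Nat.mul_le_mul_right _ (by omega)
  have hM4 : M ≤ 4 * Q := by omega
  -- the capacity
  have hbb : Λ₂ * m' + c₂ + 2 * Cc ≤ x := by
    rw [hx]
    refine (Nat.le_div_iff_mul_le (by have := num.K₂b; omega)).2 ?_
    have h1 : (Λ₂ * m' + c₂ + 2 * Cc) * (4 * K₂) = 4 * K₂ * Λ₂ * m' + 4 * K₂ * (c₂ + 2 * Cc) := by ring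
    have h2 : 4 * K₂ * Λ₂ * m' ≤ Λ₃ * m' := Nat.mul_le_mul_right _ (by omega)
    have h3 : 4 * K₂ * (c₂ + 2 * Cc) ≤ 4 * K₂ * (c₂ + 2 * Cc + 1) := Nat.mul_le_mul_left _ (by omega)
    omega
  have hlam : Λ * (q + (Λ₂ * m' + c₂) + 2 * Cc + 0) + Cc ≤ Λ * (inS (L.take r) + x) + C₅ := by
    have h1 : Λ * (q + (Λ₂ * m' + c₂) + 2 * Cc + 0) ≤ Λ * (inS (L.take r) + x) := Nat.mul_le_mul_left _ (by omega)
    omega
  have hsig : Λ * (q + (Λ₂ * m' + c₂) + 2 * Cc + 0) + Cc ≤ M / k1 := hlam.trans (num.run M _ hBM hqx).2.1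
  have hwM : (w : ℝ) ≤ e * M := hJ.bound he0 (by exact_mod_cast hM1) (Nat.cast_nonneg _)
  have hnD := num.nD M q 0 0 Q w hBM hq0 (by omega) le_rfl hM4 hwM
  have hwQ : Λ * (w + M / k1 + q) + Cc ≤ Q := by
    have h1 : Λ * (w + M / k1 + q) ≤ Λ * (w + M / k1 + q + 0 + (Λ * 0 + C₅)) := Nat.mul_le_mul_left _ (by omega)
    omega
  have hbQ : Λ₂ * m' + c₂ + c₇ + 2 * Cc + C₀ ≤ Λ₃ * m' + c₄ := by
    have h1 : Λ₂ * m' ≤ Λ₃ * m' := Nat.mul_le_mul_right _ (by omega)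
    omega
  have hpQ : p * (Λ₂ * m' + c₂ + 0 + C₀ + Cc) ≤ Q :=
    (Nat.mul_le_mul (by omega : p ≤ p + 1) (by omega : Λ₂ * m' + c₂ + 0 + C₀ + Cc ≤ Λ₃ * m' + c₄)).trans hcrit
  have hMξ := group_sm num hcl (a := 3) (n := j - 3) (by omega) hBM (by rw [← e7, ← hQ]; exact hM4) (z := X.card)
    (by omega)
  have hQM : ((q + Q : ℕ) : ℝ) ≤ M := by
    have : q + Q ≤ M := by omega
    exact_mod_cast this
  have hM0 : (0 : ℝ) ≤ M := Nat.cast_nonneg _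
  have hX0 : (0 : ℝ) ≤ X.card := Nat.cast_nonneg _
  have hξX : ξ * X.card ≤ ξc * X.card := mul_le_mul_of_nonneg_right hξc hX0
  have hgX : (X.card : ℝ) ≤ g * (szS L' + c : ℕ) := by
    rw [← hc]
    exact_mod_cast hg'
  have ht4 : inS (L'.take 4) ≤ m' := by rw [hm']; exact inS_take_le _ _
  have hm2' : m' ≤ Λ₂ * m' := by
    have h1 : 1 * m' ≤ Λ₂ * m' := by
      apply Nat.mul_le_mul_right
      have h2 : 1 * 1 ≤ Λ * (1 + (A + 2) * Λ) := Nat.mul_le_mul nc.Λ1 (by omega)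
      have h3 := nc.a1
      omega
    omega
  obtain ⟨P, X', ys, y, w', hw', hP, hX', hcs, hlen', hlo, hhi, hsz, hback⟩ := hE hT X N
    (Λ * (q + (Λ₂ * m' + c₂) + 2 * Cc + 0) + Cc) (M / k1) w 0 (Λ₂ * m' + c₂) (2 * Cc) (inS (L'.take 4)) C₀ c
    l₁ l₂ l₃ gr L' (hSt.mono (hlam.trans hcap1) le_rfl le_rfl le_rfl) (by rw [← e0]; exact hcl.br) e3 (by omega) e2
    (by
      apply ClsF.noDs (l := l) (b := b) (K₂ := 0) (N₁ := 8) (B := B) (θ := θ) _ e2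
      rw [e0] at hcl
      simpa using hcl)
    (by have := nc.Cb1; omega) le_rfl (by omega) (by rw [← e0]; exact hc) (by
      have h1 := mul_le_mul_of_nonneg_left hgX nc.ζ0
      have h2 := mul_le_mul_of_nonneg_right nc.z1 (Nat.cast_nonneg (α := ℝ) (szS L' + c))
      have h3 : 0 ≤ ζ * (g * ((szS L' + c : ℕ) : ℝ)) := mul_nonneg nc.ζ0 (by positivity)
      linarith [(by ring : ζ * (2 * g) * ((szS L' + c : ℕ) : ℝ) = 2 * (ζ * (g * ((szS L' + c : ℕ) : ℝ))))])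
    (by rw [e5, ← hq]) hsig (by rw [e5, ← hq, ← hQ]; exact hwQ) (by rw [← hQ]; exact hpQ)
    (by rw [e5, ← hq, ← hQ]; linarith)
  rw [← e0] at hsz hback
  refine ⟨P, X', ys, y, gr, w', c, ⟨by rw [← hm']; exact hcs, hlen', fun q' hq' => hcl.br q' (by rw [e0]; simp [hq']), e3,
    by omega, hlo, hhi, by omega, by rw [← hm', ← hQ]; exact hcrit, by omega, hcb, ?_⟩, hback⟩
  have h1 : P.card ≤ 2 * Q + (C₀ + C₂) := by omega
  have h2 : (P.card : ℝ) ≤ 2 * Q + (C₀ + C₂ : ℕ) := by exact_mod_cast h1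
  have h3 := nc.x8
  have hZ0 : (0 : ℝ) ≤ (szS L' + c : ℕ) := Nat.cast_nonneg _
  have h4 : ξ' * (Cb : ℝ) ≤ ξ' * (szS L' + c : ℕ) := by
    apply mul_le_mul_of_nonneg_left _ nc.ξ0
    have : Cb ≤ szS L' + c := by omega
    exact_mod_cast this
  have h5 := mul_le_mul_of_nonneg_left hgX hξ
  have h6 := mul_le_mul_of_nonneg_right nc.x7 hZ0
  have h7 : (Q : ℝ) ≤ M := by
    have : Q ≤ M := by omega
    exact_mod_cast this
  have h8 : (0 : ℝ) ≤ B₂ := Nat.cast_nonneg _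
  push_cast at h2 h3
  linarith [(by ring : ξ * (g * ((szS L' + c : ℕ) : ℝ)) = ξ * g * ((szS L' + c : ℕ) : ℝ))]

end

end AEG
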