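import Pool.Agent.AEG.State
import Pool.Agent.AEB.StepB
import Pool.Agent.AEB.ChoiceX
import Pool.Agent.AEF.Thin

/-!
# The state at a fresh super vertex

`z` is a vertex of maximal out-degree in the structure set of `Y`; after all the light out-items have been embedded in
`Y`, with a remaining representative set `Q`, the rest of `Y` carries the state behind `z`.
-/

set_option autoImplicit false

namespace AEG

open Finset AE15 AED AEB
open scoped Classical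

/-- the remaining set: all good vertices remain good, and the structure set remains dense -/
theorem final_good {V : Type*} {R : V → V → Prop} {X G : Finset V} {x : V} {κ₁ η₁ κ η γ s σ δ ε c : ℝ} (hG : G ⊆ X)
    (hx : γ * X.card ≤ ((nO R G x).card : ℝ)) (hX : X.Nonempty) (hκ : 0 < κ)
    (hη : 0 < η) (hσ : 0 < σ) (hε : 0 < ε) (hc : 0 < c)
    (h1 : σ ≤ γ) (h2 : 2 * (δ + ε) ≤ c * σ) (h3 : σ ≤ κ₁) (h4 : κ ≤ c * κ₁ / 2) (h5 : 2 * η₁ ≤ c * η) (hs : 0 < s)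
    (h6 : s ≤ c * γ / 4) :
    ∃ 𝓕 : Finset (Finset V), 𝓕.card ≤ 8 * X.card ^ 2 ∧
      ∀ A Q P : Finset V, A ⊆ X → (X.card : ℝ) ≤ 2 * A.card → Q ⊆ A → Rep A 𝓕 ε Q →
        c * A.card ≤ Q.card → P ⊆ X → Q ⊆ P → (((X \ A) \ P).card : ℝ) ≤ δ * X.card →
        (∀ w ∈ X, Good R κ₁ η₁ X w → Good R κ η P w) ∧ s * P.card ≤ ((nO R G x ∩ P).card : ℝ) := by
  have hn0 : (0 : ℝ) < X.card := by exact_mod_cast hX.card_pos
  have hn1 : 1 ≤ X.card := hX.card_pos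
  obtain ⟨FF, hF1, hF2, hF3⟩ := exists_family R κ₁ η₁ X
  refine ⟨insert (nO R G x) FF, ?_, ?_⟩
  · have h8 := card_insert_le (nO R G x) FF
    nlinarith
  intro A Q P hA hXA hQ hRep hcQ hP hQP hdel
  have hA0 : A.Nonempty := by
    rw [← card_pos]
    have : (0 : ℝ) < A.card := by linarith
    exact_mod_cast this
  have hPX : (P.card : ℝ) ≤ X.card := by exact_mod_cast card_le_card hP
  have hQP' : (Q.card : ℝ) ≤ P.card := by exact_mod_cast card_le_card hQP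
  have key : ∀ F ∈ insert (nO R G x) FF, F ⊆ X →
      c * F.card - c * σ / 2 * X.card ≤ ((F ∩ P).card : ℝ) := by
    intro F hF hFX
    have h7 := meet_bound hε hc hA hA0 hQ hRep hcQ hQP hdel hF hFX
    have h8 : (δ + ε) * X.card ≤ c * σ / 2 * X.card := mul_le_mul_of_nonneg_right (by linarith) hn0.le
    linarith
  -- goodness in `P`
  have hgood : ∀ w ∈ X, Good R κ₁ η₁ X w → Good R κ η P w := by
    apply hF3 P hP κ η
    · intro F hF hFc
      have h7 := key F (mem_insert_of_mem hF) (hF2 F hF)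
      have h8 : c * (κ₁ * X.card) ≤ c * F.card := mul_le_mul_of_nonneg_left hFc hc.le
      have h9 : c * σ / 2 * X.card ≤ c * κ₁ / 2 * X.card := by
        apply mul_le_mul_of_nonneg_right _ hn0.le
        have := mul_le_mul_of_nonneg_left h3 hc.le
        linarith
      have h10 : κ * P.card ≤ κ * X.card := mul_le_mul_of_nonneg_left hPX hκ.le
      have h11 : κ * X.card ≤ c * κ₁ / 2 * X.card := mul_le_mul_of_nonneg_right h4 hn0.le
      linarith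
    · intro F hF hFc
      have h7 : ((F ∩ P).card : ℝ) ≤ F.card := by exact_mod_cast card_le_card inter_subset_left
      have h8 : η₁ * X.card ≤ c * η / 2 * X.card := mul_le_mul_of_nonneg_right (by linarith) hn0.le
      have h9 : c * η / 2 * X.card ≤ c * η / 2 * (2 * A.card) := mul_le_mul_of_nonneg_left hXA (by positivity)
      have h10 : η * (c * A.card) ≤ η * P.card := mul_le_mul_of_nonneg_left (hcQ.trans hQP') hη.le
      linarith
  refine ⟨hgood, ?_⟩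
  have h7 := key (nO R G x) (mem_insert_self _ _) (nO_sub.trans hG)
  have h9 : c * (γ * X.card) ≤ c * (nO R G x).card := mul_le_mul_of_nonneg_left hx hc.le
  have h10 : c * σ / 2 * X.card ≤ c * γ / 2 * X.card := by
    apply mul_le_mul_of_nonneg_right _ hn0.le
    have := mul_le_mul_of_nonneg_left h1 hc.le
    linarith
  have h11 : s * P.card ≤ s * X.card := mul_le_mul_of_nonneg_left hPX hs.le
  have h12 : s * X.card ≤ c * γ / 4 * X.card := mul_le_mul_of_nonneg_right h6 hn0.le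
  have h13 : 0 ≤ c * γ / 4 * X.card := by
    have : 0 < γ := lt_of_lt_of_le hσ h1
    positivity
  linarith

/-- **The super vertex `z` of `Y`**, with its set `N` of good out-neighbours: all dominators of `z` outside `Ex` have
dominators in `N`, and few of them have few. -/
theorem super_z {D₀ : ℕ} {ω c η η₁ κ₀ κ₁ κ γ₀ τ s σ₂ μ : ℝ} (P : KB D₀ ω c η η₁ κ₀ κ₁ κ γ₀ τ s σ₂ μ) :
    ∃ Kz : ℕ, ∀ e : ℕ, ∃ n₀ : ℕ, ∀ {T : Type} {R : T → T → Prop}, AE32.Tour R → ∀ {Y Ex : Finset T}, n₀ ≤ Y.card →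
      Ex.card ≤ e → ∃ G ⊆ Y, ∃ z ∈ Y, (∀ g ∈ G, Good R κ₁ η₁ Y g) ∧ z ∉ Ex ∧
        γ₀ / 4 * Y.card ≤ ((nO R (G \ Ex) z).card : ℝ) ∧
        (∀ u ∈ Y, u ∉ Ex → R u z → (nI R (nO R (G \ Ex) z) u).Nonempty) ∧
        ∀ j : ℕ, (Y.filter (fun u => u ∉ Ex ∧ R u z ∧ (nI R (nO R (G \ Ex) z) u).card ≤ j)).card ≤ Kz * j := by
  obtain ⟨hω0, hω1, hc0, hc1, hη0, hη1, hη₁0, hη₁1, hκ₀0, hκ₁0, hκ₁1, hκ0, hκ1, hs0, hγ₀0, hτ0, hσ₂0, hμ0, hκ₁η, hκs⟩ :=
    P.num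
  refine ⟨⌈4 / γ₀⌉₊ + 2, fun e => ?_⟩
  obtain ⟨n₀, hn₀⟩ := exists_big [((1 : ℝ), κ₀), ((e : ℝ) + 1, γ₀ / 8)] (by
    intro q hq
    simp only [List.mem_cons, List.not_mem_nil, or_false] at hq
    rcases hq with rfl | rfl
    · exact hκ₀0
    · show 0 < γ₀ / 8
      positivity)
  refine ⟨n₀, ?_⟩
  intro T R hT Y Ex hn hEx
  have hbig := hn₀ Y.card hn
  have b1 : (1 : ℝ) ≤ κ₀ * Y.card := hbig ((1 : ℝ), κ₀) (by simp)
  have b2 : (e : ℝ) + 1 ≤ γ₀ / 8 * Y.card := hbig ((e : ℝ) + 1, γ₀ / 8) (by simp)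
  obtain ⟨G, hG, hGg, hGc, hGo⟩ := exists_G P hT Y b1
  have hExr : (Ex.card : ℝ) ≤ e := by exact_mod_cast hEx
  have he0 : (0 : ℝ) ≤ e := Nat.cast_nonneg _
  have hsd : (G.card : ℝ) ≤ (G \ Ex).card + Ex.card := by
    have h1 : G ⊆ (G \ Ex) ∪ Ex := fun x hx => by
      by_cases hxE : x ∈ Ex
      · exact mem_union_right _ hxE
      · exact mem_union_left _ (mem_sdiff.2 ⟨hx, hxE⟩)
    exact_mod_cast (card_le_card h1).trans (card_union_le _ _)
  have hn0 : (0 : ℝ) ≤ γ₀ * Y.card := by positivity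
  have hne : (G \ Ex).Nonempty := by
    rw [← card_pos]
    have : (0 : ℝ) < (G \ Ex).card := by linarith
    exact_mod_cast this
  obtain ⟨z, hz⟩ := exists_x hT (X := Y) (G := G) (Z := Ex) (m := ⌊γ₀ / 16 * Y.card⌋₊) hG (fun u hu huG =>
    Nat.le_floor (hGo u hu huG)) hne
  have hzG := mem_sdiff.1 hz.hx
  have hN : γ₀ / 4 * Y.card + γ₀ / 16 * Y.card ≤ ((nO R (G \ Ex) z).card : ℝ) := by
    have h4 : ((G \ Ex).card : ℝ) ≤ 2 * (nO R (G \ Ex) z).card + 1 := by exact_mod_cast hz.h4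
    linarith
  have hout : ∀ u ∈ Y, u ∉ G → γ₀ / 4 * Y.card ≤ ((nI R (nO R (G \ Ex) z) u).card : ℝ) := by
    intro u hu huG
    have h3 : ((nO R (G \ Ex) z).card : ℝ) ≤ (nI R (nO R (G \ Ex) z) u).card + ⌊γ₀ / 16 * Y.card⌋₊ := by
      exact_mod_cast hz.h3 u hu huG
    have h5 : (⌊γ₀ / 16 * Y.card⌋₊ : ℝ) ≤ γ₀ / 16 * Y.card := Nat.floor_le (by positivity)
    linarith
  refine ⟨G, hG, z, hG hzG.1, hGg, hzG.2, by
    have : 0 ≤ γ₀ / 16 * Y.card := by positivity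
    linarith, ?_, ?_⟩
  · intro u hu huE huz
    by_cases huG : u ∈ G
    · exact hz.h1 u huG huE huz
    · have h1 := hout u hu huG
      rw [← card_pos]
      have : (0 : ℝ) < (nI R (nO R (G \ Ex) z) u).card := by linarith
      exact_mod_cast this
  · intro j
    by_cases hj : (j : ℝ) < γ₀ / 4 * Y.card
    · have h1 : Y.filter (fun u => u ∉ Ex ∧ R u z ∧ (nI R (nO R (G \ Ex) z) u).card ≤ j) ⊆
          (G \ Ex).filter (fun u => R u z ∧ (nI R (nO R (G \ Ex) z) u).card ≤ j) := by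
        intro u hu
        rw [mem_filter] at hu ⊢
        obtain ⟨hu1, hu2, hu3, hu4⟩ := hu
        refine ⟨mem_sdiff.2 ⟨?_, hu2⟩, hu3, hu4⟩
        by_contra huG
        have h2 := hout u hu1 huG
        have h3 : ((nI R (nO R (G \ Ex) z) u).card : ℝ) ≤ j := by exact_mod_cast hu4
        linarith
      refine (card_le_card h1).trans ((hz.h2 j).trans (Nat.mul_le_mul_right _ (by omega)))
    · push Not at hj
      have h1 : (Y.filter (fun u => u ∉ Ex ∧ R u z ∧ (nI R (nO R (G \ Ex) z) u).card ≤ j)).card ≤ Y.card :=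
        card_le_card (filter_subset _ _)
      refine h1.trans ?_
      have h2 : (Y.card : ℝ) ≤ ((⌈4 / γ₀⌉₊ + 2) * j : ℝ) := by
        have h3 : (4 / γ₀ : ℝ) ≤ ⌈4 / γ₀⌉₊ := Nat.le_ceil _
        have h4 : (Y.card : ℝ) = 4 / γ₀ * (γ₀ / 4 * Y.card) := by
          field_simp
        have h5 : 4 / γ₀ * (γ₀ / 4 * Y.card) ≤ 4 / γ₀ * j := mul_le_mul_of_nonneg_left hj (by positivity)
        have h6 : 4 / γ₀ * (j : ℝ) ≤ (⌈4 / γ₀⌉₊ + 2) * j := mul_le_mul_of_nonneg_right (by linarith) (Nat.cast_nonneg _)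
        linarith
      exact_mod_cast h2

/-- **The state at the super vertex `z`.** `W`: the vertices which are not available (used or chosen) -/
theorem state_z {D₀ : ℕ} {ω c η η₁ κ₀ κ₁ κ γ₀ τ s σ₂ μ : ℝ} (P : KB D₀ ω c η η₁ κ₀ κ₁ κ γ₀ τ s σ₂ μ) {ε : ℝ}
    (hε : 0 < ε) (hεσ : 8 * ε ≤ c * σ₂) (w₁ : ℕ) :
    ∃ h₀ Kg : ℕ, ∀ M₉ : ℕ, 1 ≤ M₉ → ∃ K₁ : ℕ, ∀ c₉ lam : ℕ, ∃ c₂ : ℕ, lam ≤ c₂ ∧ ∀ f : ℕ, ∃ n₀ : ℕ,
      ∀ {T : Type} {R : T → T → Prop}, AE32.Tour R →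
      ∀ {Y Bz Ex : Finset T}, n₀ ≤ Y.card → Bz.card ≤ f → Ex = Bz ∪ low R c₂ Y →
      ∃ z ∈ Y, z ∉ Ex ∧ γ₀ / 4 * Y.card ≤ ((nO R Y z).card : ℝ) ∧
        ∃ (𝓕x : Finset (Finset T)) (H : Finset T), 𝓕x.card ≤ 8 * Y.card ^ 2 ∧ H ⊆ Y ∧ H.card ≤ h₀ ∧
        Disjoint H Ex ∧ (∀ v ∈ H, R z v) ∧ ∀ W : Finset T, z ∈ W → Disjoint W H → (W ∩ Y).card ≤ w₁ →
          ∃ (G : Finset T) (D : T → Finset T) (S₀ : Finset T) (I : T → Finset T),
            (∀ u ∈ G, D u ⊆ Y \ (W ∪ H ∪ Ex)) ∧ (∀ u ∈ G, (D u).Nonempty) ∧ Pool.Agent.AEF.Graded G D Kg ∧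
            (∀ v ∈ S₀, I v ⊆ Y \ (W ∪ H ∪ Ex)) ∧ Pool.Agent.AEF.Graded S₀ I Kg ∧
            ∀ S Q : Finset T, S ⊆ Y \ (W ∪ H ∪ Ex) → Q ⊆ Y \ (W ∪ H ∪ Ex) → Disjoint S Q →
              c * (Y \ (W ∪ H ∪ Ex)).card ≤ Q.card → Rep (Y \ (W ∪ H ∪ Ex)) 𝓕x ε Q →
              (∀ u ∈ G, (D u ∩ Q).Nonempty ∧ (D u).card ≤ M₉ * (D u ∩ Q).card) →
              (∀ v ∈ S₀, c₉ ≤ (I v).card → (I v).card ≤ M₉ * (I v ∩ Q).card) →
              ∀ (V' : Finset T) (sig : ℕ), Ex \ W ⊆ V' → Disjoint (Y \ (W ∪ Ex ∪ S)) V' →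
                StM R (Y \ (W ∪ Ex ∪ S)) V' (R z) κ η s lam sig K₁ ∧ Q ∪ H ⊆ Y \ (W ∪ Ex ∪ S) := by
  obtain ⟨hω0, hω1, hc0, hc1, hη0, hη1, hη₁0, hη₁1, hκ₀0, hκ₁0, hκ₁1, hκ0, hκ1, hs0, hγ₀0, hτ0, hσ₂0, hμ0, hκ₁η, hκs⟩ :=
    P.num
  obtain ⟨Kz, hKz⟩ := super_z P
  obtain ⟨hD, hω, hc, hη, hη₁, hκ₀, hκ₁, hκ, hγ₀, hτ, hs, hσ₂, hμ⟩ := P
  refine ⟨Kz * w₁, Kz * (1 + w₁ + Kz * w₁) + 2 + Kz * w₁, ?_⟩
  intro M₉ hM₉
  refine ⟨Kz * (w₁ + M₉), fun c₉ lam => ?_⟩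
  obtain ⟨h₀, hh₀⟩ : ∃ h₀ : ℕ, h₀ = Kz * w₁ := ⟨_, rfl⟩
  obtain ⟨c₂, hc₂⟩ : ∃ c₂ : ℕ, c₂ = w₁ + lam + (c₉ + M₉ * lam) := ⟨_, rfl⟩
  refine ⟨c₂, by omega, fun f => ?_⟩
  obtain ⟨n₁, hn₁⟩ := hKz (f + 2 * c₂)
  obtain ⟨n₂, hn₂⟩ := exists_big [((w₁ : ℝ) + h₀ + f + 2 * c₂, ε), (1, 1)] (by
    intro q hq
    simp only [List.mem_cons, List.not_mem_nil, or_false] at hq
    rcases hq with rfl | rfl
    · exact hε
    · exact one_pos)
  refine ⟨max n₁ n₂, ?_⟩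
  intro T R hT Y Bz Ex hn hBz hExd
  have hExc : Ex.card ≤ f + 2 * c₂ := by
    rw [hExd]
    refine (card_union_le _ _).trans (Nat.add_le_add hBz ?_)
    exact card_lowin hT Y c₂
  obtain ⟨G₀, hG₀, z, hzY, hG₀g, hzE, hNz, hne, hcnt⟩ := hn₁ hT ((le_max_left _ _).trans hn) hExc
  have hbig := hn₂ Y.card ((le_max_right _ _).trans hn)
  have b1 : (w₁ : ℝ) + h₀ + f + 2 * c₂ ≤ ε * Y.card := hbig ((w₁ : ℝ) + h₀ + f + 2 * c₂, ε) (by simp)
  have b2 : (1 : ℝ) ≤ 1 * Y.card := hbig ((1 : ℝ), 1) (by simp)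
  obtain ⟨Nz, hNzd⟩ : ∃ Nz, Nz = nO R (G₀ \ Ex) z := ⟨_, rfl⟩
  rw [← hNzd] at hNz hne hcnt
  have hNzm : ∀ v ∈ Nz, v ∈ Y ∧ v ∉ Ex ∧ R z v ∧ Good R κ₁ η₁ Y v := by
    intro v hv
    rw [hNzd, mem_nO, mem_sdiff] at hv
    exact ⟨hG₀ hv.1.1, hv.1.2, hv.2, hG₀g v hv.1.1⟩
  have hY : Y.Nonempty := by
    rw [← card_pos]
    have : (0 : ℝ) < Y.card := by linarith
    exact_mod_cast this
  -- the set `H`
  obtain ⟨B, hB⟩ : ∃ B, B = Y.filter (fun u => u ∉ Ex ∧ R u z ∧ (nI R Nz u).card ≤ w₁) := ⟨_, rfl⟩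
  have hBc : B.card ≤ Kz * w₁ := by rw [hB]; exact hcnt w₁
  have hch : ∀ u : T, ∃ v : T, u ∈ B → v ∈ Nz ∧ R v u := by
    intro u
    by_cases hu : u ∈ B
    · rw [hB, mem_filter] at hu
      obtain ⟨v, hv⟩ := hne u hu.1 hu.2.1 hu.2.2.1
      rw [mem_nI] at hv
      exact ⟨v, fun _ => hv⟩
    · exact ⟨u, fun h => absurd h hu⟩
  choose g hg using hch
  obtain ⟨H, hH⟩ : ∃ H, H = B.image g := ⟨_, rfl⟩
  have hHm : ∀ v ∈ H, v ∈ Nz := by
    intro v hv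
    rw [hH, mem_image] at hv
    obtain ⟨u, hu, rfl⟩ := hv
    exact (hg u hu).1
  have hHc : H.card ≤ h₀ := by
    rw [hH, hh₀]
    exact card_image_le.trans hBc
  -- the family
  obtain ⟨𝓕x, h𝓕, hfin⟩ := final_good (R := R) (X := Y) (G := G₀) (x := z) (κ₁ := κ₁) (η₁ := η₁) (κ := κ) (η := η)
    (γ := γ₀ / 4) (s := s) (σ := σ₂) (δ := ε) (ε := ε) (c := c) hG₀ (by
      refine hNz.trans ?_
      have : Nz ⊆ nO R G₀ z := by rw [hNzd]; exact nO_mono sdiff_subset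
      exact_mod_cast card_le_card this) hY hκ0 hη0 hσ₂0 hε hc0 (by
      rw [hσ₂, hγ₀]; linarith) (by linarith) (by rw [hσ₂]; linarith) (by rw [hκ]; linarith [mul_pos hc0 hκ₁0]) (by
      linarith) hs0 (by
      rw [hs, hγ₀]
      have : 0 < c * η₁ := mul_pos hc0 hη₁0
      linarith)
  refine ⟨z, hzY, hzE, ?_, 𝓕x, H, h𝓕, fun v hv => (hNzm v (hHm v hv)).1, by rw [← hh₀]; exact hHc, ?_,
    fun v hv => (hNzm v (hHm v hv)).2.2.1, ?_⟩
  · refine hNz.trans ?_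
    have : Nz ⊆ nO R Y z := fun v hv => mem_nO.2 ⟨(hNzm v hv).1, (hNzm v hv).2.2.1⟩
    exact_mod_cast card_le_card this
  · rw [disjoint_left]
    intro v hv
    exact (hNzm v (hHm v hv)).2.1
  intro W hzW hWH hWc
  obtain ⟨A, hA⟩ : ∃ A, A = Y \ (W ∪ H ∪ Ex) := ⟨_, rfl⟩
  rw [← hA]
  have hAm : ∀ v, v ∈ A ↔ v ∈ Y ∧ v ∉ W ∧ v ∉ H ∧ v ∉ Ex := by
    intro v
    rw [hA, mem_sdiff, mem_union, mem_union]
    tauto
  have hAY : A ⊆ Y := fun v hv => ((hAm v).1 hv).1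
  -- splitting of the in-neighbourhoods
  have hsplit : ∀ u, (nI R Nz u).card ≤ w₁ + (nI R (Nz ∩ H) u).card + (nI R (Nz ∩ A) u).card := by
    intro u
    have h1 : nI R Nz u ⊆ (W ∩ Y) ∪ nI R (Nz ∩ H) u ∪ nI R (Nz ∩ A) u := by
      intro v hv
      rw [mem_nI] at hv
      have h2 := hNzm v hv.1
      rw [mem_union, mem_union, mem_inter, mem_nI, mem_inter, mem_nI, mem_inter, hAm]
      by_cases hvW : v ∈ W
      · exact Or.inl (Or.inl ⟨hvW, h2.1⟩)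
      · by_cases hvH : v ∈ H
        · exact Or.inl (Or.inr ⟨⟨hv.1, hvH⟩, hv.2⟩)
        · exact Or.inr ⟨⟨hv.1, h2.1, hvW, hvH, h2.2.1⟩, hv.2⟩
    refine (card_le_card h1).trans ((card_union_le _ _).trans ?_)
    have h3 := card_union_le (W ∩ Y) (nI R (Nz ∩ H) u)
    omega
  refine ⟨Y.filter (fun u => u ∉ Ex ∧ R u z ∧ (nI R (Nz ∩ A) u).Nonempty), fun u => nI R (Nz ∩ A) u,
    Y \ (W ∪ Ex), fun v => nI R A v, ?_, ?_, ?_, ?_, ?_, ?_⟩
  · intro u _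
    exact nI_sub.trans inter_subset_right
  · intro u hu
    exact (mem_filter.1 hu).2.2.2
  · intro j
    have h1 : ((Y.filter (fun u => u ∉ Ex ∧ R u z ∧ (nI R (Nz ∩ A) u).Nonempty)).filter
        (fun u => (nI R (Nz ∩ A) u).card ≤ j)).card ≤ Kz * (j + w₁ + h₀) := by
      refine (card_le_card ?_).trans (hcnt (j + w₁ + h₀))
      intro u hu
      rw [mem_filter, mem_filter] at hu
      rw [mem_filter]
      refine ⟨hu.1.1, hu.1.2.1, hu.1.2.2.1, ?_⟩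
      have h2 := hsplit u
      have h3 : (nI R (Nz ∩ H) u).card ≤ H.card := card_le_card (nI_sub.trans inter_subset_right)
      omega
    refine h1.trans ?_
    rw [← hh₀]
    nlinarith [Nat.zero_le (Kz * w₁ * j), Nat.zero_le (Kz * h₀ * j), Nat.zero_le (h₀ * j), Nat.zero_le j, Nat.zero_le h₀]
  · intro v _
    exact nI_sub
  · intro j
    have h1 : (Y \ (W ∪ Ex)).filter (fun v => (nI R A v).card ≤ j) ⊆
        (A.filter (fun v => (nI R A v).card < j + 1)) ∪ H := by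
      intro v hv
      rw [mem_filter, mem_sdiff, mem_union, not_or] at hv
      rw [mem_union, mem_filter, hAm]
      by_cases hvH : v ∈ H
      · exact Or.inr hvH
      · exact Or.inl ⟨⟨hv.1.1, hv.1.2.1, hvH, hv.1.2.2⟩, by omega⟩
    refine (card_le_card h1).trans ((card_union_le _ _).trans ?_)
    have h2 := card_lowin hT A (j + 1)
    rw [← hh₀]
    nlinarith [Nat.zero_le (Kz * (1 + w₁ + h₀) * (j + 1)), Nat.zero_le (h₀ * j)]
  -- the state
  intro S Q hS hQ hSQ hQc hRep hkD hkI V' sig hExV hYV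
  obtain ⟨Y', hY'⟩ : ∃ Y', Y' = Y \ (W ∪ Ex ∪ S) := ⟨_, rfl⟩
  rw [← hY'] at hYV ⊢
  have hY'm : ∀ v, v ∈ Y' ↔ v ∈ Y ∧ v ∉ W ∧ v ∉ Ex ∧ v ∉ S := by
    intro v
    rw [hY', mem_sdiff, mem_union, mem_union]
    tauto
  have hQY' : Q ⊆ Y' := by
    intro v hv
    have h1 := (hAm v).1 (hQ hv)
    exact (hY'm v).2 ⟨h1.1, h1.2.1, h1.2.2.2, fun h => disjoint_left.1 hSQ h hv⟩
  have hHY' : H ⊆ Y' := by
    intro v hv
    have h1 := hNzm v (hHm v hv)
    exact (hY'm v).2 ⟨h1.1, fun h => disjoint_left.1 hWH h hv, h1.2.1, fun h => ((hAm v).1 (hS h)).2.2.1 hv⟩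
  have hAsd : ((Y \ A) \ Y').card ≤ w₁ + f + 2 * c₂ := by
    have h1 : (Y \ A) \ Y' ⊆ (W ∩ Y) ∪ Ex := by
      intro v hv
      rw [mem_sdiff, mem_sdiff, hAm, hY'm] at hv
      rw [mem_union, mem_inter]
      by_cases hvE : v ∈ Ex
      · exact Or.inr hvE
      · left
        by_contra hcon
        have hvW : v ∉ W := fun h => hcon ⟨h, hv.1.1⟩
        have hvH : v ∈ H := by
          by_contra hvH
          exact hv.1.2 ⟨hv.1.1, hvW, hvH, hvE⟩
        exact hv.2 ((hY'm v).1 (hHY' hvH))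
    have h2 := (card_le_card h1).trans (card_union_le _ _)
    omega
  have hYA : (Y \ A).card ≤ w₁ + h₀ + f + 2 * c₂ := by
    have h1 : Y \ A ⊆ (W ∩ Y) ∪ H ∪ Ex := by
      intro v hv
      rw [mem_sdiff, hAm] at hv
      rw [mem_union, mem_union, mem_inter]
      tauto
    have h2 := (card_le_card h1).trans (card_union_le _ _)
    have h3 := card_union_le (W ∩ Y) H
    omega
  have hnr : (0 : ℝ) < Y.card := by linarith
  have hε1 : ε ≤ 1 / 2 := by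
    have h1 : c * σ₂ ≤ 1 * σ₂ := mul_le_mul_of_nonneg_right (by linarith) hσ₂0.le
    have h2 : σ₂ ≤ 1 := by
      rw [hσ₂]
      have : c * η ≤ 1 * η := mul_le_mul_of_nonneg_right (by linarith) hη0.le
      linarith
    linarith
  have hA2 : (Y.card : ℝ) ≤ 2 * A.card := by
    have h1 : (Y.card : ℝ) = (Y \ A).card + A.card := by exact_mod_cast (card_sdiff_add_card_eq_card hAY).symm
    have h2 : ((Y \ A).card : ℝ) ≤ (w₁ : ℝ) + h₀ + f + 2 * c₂ := by exact_mod_cast hYA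
    have h3 : ε * Y.card ≤ 1 / 2 * Y.card := mul_le_mul_of_nonneg_right hε1 hnr.le
    linarith
  obtain ⟨hgood, hdense⟩ := hfin A Q Y' hAY hA2 hQ hRep hQc (fun v hv => ((hY'm v).1 hv).1) hQY' (by
    have h2 : (((Y \ A) \ Y').card : ℝ) ≤ (w₁ : ℝ) + f + 2 * c₂ := by exact_mod_cast hAsd
    have h3 : (0 : ℝ) ≤ h₀ := Nat.cast_nonneg _
    linarith)
  -- capacities
  have hcap : ∀ v ∈ Y', lam ≤ (nI R (Y' ∪ V') v).card := by
    intro v hv
    have hvm := (hY'm v).1 hv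
    have hvl : c₂ ≤ (nI R Y v).card := by
      by_contra hcon
      apply hvm.2.2.1
      rw [hExd, mem_union, mem_low]
      exact Or.inr ⟨hvm.1, by omega⟩
    have h1 : nI R Y v ⊆ (W ∩ Y) ∪ nI R (H ∪ (Ex \ W)) v ∪ nI R A v := by
      intro w hw
      rw [mem_nI] at hw
      rw [mem_union, mem_union, mem_inter, mem_nI, mem_nI, mem_union, mem_sdiff, hAm]
      by_cases h1 : w ∈ W
      · exact Or.inl (Or.inl ⟨h1, hw.1⟩)
      · by_cases h2 : w ∈ H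
        · exact Or.inl (Or.inr ⟨Or.inl h2, hw.2⟩)
        · by_cases h3 : w ∈ Ex
          · exact Or.inl (Or.inr ⟨Or.inr ⟨h3, h1⟩, hw.2⟩)
          · exact Or.inr ⟨⟨hw.1, h1, h2, h3⟩, hw.2⟩
    have h2 := (card_le_card h1).trans (card_union_le _ _)
    have h3 := card_union_le (W ∩ Y) (nI R (H ∪ (Ex \ W)) v)
    by_cases h4 : lam ≤ (nI R (H ∪ (Ex \ W)) v).card
    · exact h4.trans (card_le_card (nI_mono (union_subset_union hHY' hExV)))
    · have h5 : c₉ + M₉ * lam ≤ (nI R A v).card := by omega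
      have h6 : (nI R A v).card ≤ M₉ * (nI R A v ∩ Q).card := hkI v (by
        rw [mem_sdiff, mem_union, not_or]
        exact ⟨hvm.1, hvm.2.1, hvm.2.2.1⟩) (by
        show c₉ ≤ (nI R A v).card
        omega)
      have h7 : M₉ * lam ≤ M₉ * (nI R A v ∩ Q).card := by omega
      have h8 : lam ≤ (nI R A v ∩ Q).card := Nat.le_of_mul_le_mul_left h7 (by omega)
      refine h8.trans (card_le_card ?_)
      intro w hw
      rw [mem_inter, mem_nI] at hw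
      rw [mem_nI]
      exact ⟨mem_union_left _ (hQY' hw.2), hw.1.2⟩
  have hcgm : ∀ v ∈ Nz, v ∈ Y' → v ∈ cg R Y' V' (R z) κ η lam := by
    intro v hv hvY
    have h1 := hNzm v hv
    exact mem_cg.2 ⟨hvY, h1.2.2.1, hgood v h1.1 h1.2.2.2, hcap v hvY⟩
  refine ⟨⟨hYV, ?_, ?_⟩, union_subset hQY' hHY'⟩
  · refine hdense.trans ?_
    have h1 : nO R G₀ z ∩ Y' ⊆ cg R Y' V' (R z) κ η lam := by
      intro v hv
      rw [mem_inter, mem_nO] at hv
      refine hcgm v ?_ hv.2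
      rw [hNzd, mem_nO, mem_sdiff]
      exact ⟨⟨hv.1.1, ((hY'm v).1 hv.2).2.2.1⟩, hv.1.2⟩
    exact_mod_cast card_le_card h1
  · intro j
    have hmain : ∀ u ∈ Y', ¬ R z u → R u z ∧ (nI R Nz u).card ≤ w₁ + M₉ * (nI R (cg R Y' V' (R z) κ η lam) u).card ∧
        1 ≤ (nI R (cg R Y' V' (R z) κ η lam) u).card := by
      intro u hu hzu
      have hum := (hY'm u).1 hu
      have huz : R u z := by
        rcases hT.tot u z (fun h => hum.2.1 (h ▸ hzW)) with h | h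
        · exact h
        · exact absurd h hzu
      obtain ⟨m, hm⟩ : ∃ m, m = (nI R (cg R Y' V' (R z) κ η lam) u).card := ⟨_, rfl⟩
      rw [← hm]
      have h1 : nI R (Nz ∩ H) u ∪ (nI R (Nz ∩ A) u ∩ Q) ⊆ nI R (cg R Y' V' (R z) κ η lam) u := by
        intro v hv
        rw [mem_union, mem_nI, mem_inter, mem_inter, mem_nI, mem_inter] at hv
        rw [mem_nI]
        rcases hv with h | h
        · exact ⟨hcgm v h.1.1 (hHY' h.1.2), h.2⟩
        · exact ⟨hcgm v h.1.1.1 (hQY' h.2), h.1.2⟩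
      have h2 := card_le_card h1
      rw [card_union_of_disjoint (by
        rw [disjoint_left]
        intro v hv hv'
        rw [mem_nI, mem_inter] at hv
        rw [mem_inter, mem_nI, mem_inter] at hv'
        exact ((hAm v).1 hv'.1.1.2).2.2.1 hv.1.2), ← hm] at h2
      have h3 := hsplit u
      by_cases hD : (nI R (Nz ∩ A) u).Nonempty
      · have h4 : (nI R (Nz ∩ A) u ∩ Q).Nonempty ∧ (nI R (Nz ∩ A) u).card ≤ M₉ * (nI R (Nz ∩ A) u ∩ Q).card :=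
          hkD u (mem_filter.2 ⟨hum.1, hum.2.2.1, huz, hD⟩)
        have h5 := card_pos.2 h4.1
        have h6 := h4.2
        refine ⟨huz, ?_, by omega⟩
        have h7 : (nI R (Nz ∩ H) u).card ≤ M₉ * (nI R (Nz ∩ H) u).card := Nat.le_mul_of_pos_left _ (by omega)
        have h8 := Nat.mul_le_mul_left M₉ h2
        rw [Nat.mul_add] at h8
        omega
      · rw [not_nonempty_iff_eq_empty] at hD
        rw [hD, card_empty] at h3
        have h7 : (nI R (Nz ∩ H) u).card ≤ M₉ * (nI R (Nz ∩ H) u).card := Nat.le_mul_of_pos_left _ (by omega)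
        have h8 := Nat.mul_le_mul_left M₉ h2
        rw [Nat.mul_add] at h8
        refine ⟨huz, by omega, ?_⟩
        by_cases h9 : (nI R Nz u).card ≤ w₁
        · have h10 : u ∈ B := by
            rw [hB, mem_filter]
            exact ⟨hum.1, hum.2.2.1, huz, h9⟩
          have h11 := hg u h10
          have h12 : g u ∈ nI R (Nz ∩ H) u := by
            rw [mem_nI, mem_inter]
            refine ⟨⟨h11.1, ?_⟩, h11.2⟩
            rw [hH]
            exact mem_image_of_mem _ h10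
          have h13 := card_pos.2 ⟨_, h12⟩
          omega
        · omega
    rcases Nat.eq_zero_or_pos j with hj | hj
    · rw [hj, mul_zero, Nat.le_zero, card_eq_zero, filter_eq_empty_iff]
      intro u hu
      rw [not_and, not_and, not_le]
      intro h1 _
      exact (hmain u hu h1).2.2
    · refine (card_le_card ?_).trans ((hcnt (w₁ + M₉ * j)).trans ?_)
      · intro u hu
        rw [mem_filter] at hu ⊢
        obtain ⟨hu1, hu2, -, hu4⟩ := hu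
        obtain ⟨h1, h2, -⟩ := hmain u hu1 hu2
        have h3 := (hY'm u).1 hu1
        refine ⟨h3.1, h3.2.2.1, h1, h2.trans ?_⟩
        have := Nat.mul_le_mul_left M₉ hu4
        omega
      · rw [Nat.mul_assoc]
        refine Nat.mul_le_mul_left _ ?_
        rw [Nat.add_mul]
        have : w₁ ≤ w₁ * j := Nat.le_mul_of_pos_right _ hj
        omega

end AEG
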