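import Pool.Agent.AEG.Front
import Pool.Agent.AEG.ChainE

/-!
# The vertices behind the group

`tailD`: behind the last host `yl` of the group the vertex `z` is reached, directly or through one more vertex `w`, with
the small branches of the vertices of the line which are placed at `w` and `z`.
-/

set_option autoImplicit false

namespace AEG

open Finset AE15 AED AEB SPD
open scoped Classical

variable {V : Type} {R : V → V → Prop}

/-- **The vertices behind the group** -/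
theorem tailD (hT : AE32.Tour R) {P₁ P₂ U₂ Rsv H Q : Finset V} {yl z : V} {B c h₀ r : ℕ} {t₁ t₂ : Fd × Fd}
    {rest : List (Fd × Fd)} (hPU : P₂ ⊆ U₂) (hdis : Disjoint P₁ P₂) (hzP : z ∈ P₂)
    (hzH : ∀ v ∈ H, R z v) (hHc : H.card ≤ h₀) (hQ : Q.card ≤ r)
    (hcov : R yl z ∨ ∃ w ∈ P₂, R yl w ∧ R w z ∧ c ≤ (nO R U₂ w).card)
    (hc : h₀ + r + 2 + 3 * B + 2 ^ B ≤ c) (hout : c ≤ (nO R P₂ z).card)
    (hin : ∀ w ∈ P₂, Rsv.card + c ≤ (nI R P₁ w).card)
    (ht₁ : ∀ q ∈ t₁.1.trees, q.1 = true) (ht₁' : ∀ q ∈ t₁.2.trees, q.1 = true) (hB₁ : t₁.1.size + t₁.2.size ≤ B)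
    (ht₂ : ∀ q ∈ t₂.1.trees, q.1 = true) (ht₂' : ∀ q ∈ t₂.2.trees, q.1 = true) (hB₂ : t₂.1.size + t₂.2.size ≤ B)
    (hre : rest ≠ []) :
    ∃ (hs : List V) (ts L' : List (Fd × Fd)) (TA TD : Finset V), ts ++ L' = t₁ :: t₂ :: rest ∧
      (L' = t₂ :: rest ∨ L' = rest) ∧ L' ≠ [] ∧ hs.length = ts.length ∧ hs.length ≤ 2 ∧ hs.getLast? = some z ∧ hs.Nodup ∧
      (yl :: hs).IsChain R ∧ (∀ h ∈ hs, h ∈ P₂ ∧ h ∉ H) ∧ EmbAllB (rv R) (hs.zip (ts.map Prod.fst)) TA ∧
      EmbAllB R (hs.zip (ts.map Prod.snd)) TD ∧ TA ⊆ P₁ ∧ Disjoint TA Rsv ∧ TD ⊆ U₂ ∧ Disjoint TD H ∧ Disjoint TA Q ∧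
      Disjoint TD Q ∧ Disjoint TA TD ∧ (∀ h ∈ hs, h ∉ TA ∧ h ∉ TD) ∧ TA.card + TD.card ≤ 2 * B := by
  have hzH' : z ∉ H := fun h => hT.irr z (hzH z h)
  have hP₁ : ∀ h ∈ P₂, h ∉ P₁ := fun h h1 h2 => disjoint_left.1 hdis h2 h1
  rcases hcov with hyz | ⟨w, hwP, hyw, hwz, hwc⟩
  · -- directly
    have hF₁ : (H ∪ Q).card ≤ h₀ + r := (card_union_le _ _).trans (Nat.add_le_add hHc hQ)
    obtain ⟨D, d1, d2, d3⟩ := small_out hT (X := P₂) (F := H ∪ Q) (h := z) ht₁' (by omega : t₁.2.size ≤ B) (by omega)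
    have hDc := EmbB.card d1
    have hF₂ : (Rsv ∪ (Q ∪ D)).card ≤ Rsv.card + (r + B) := by
      have e1 := card_union_le Rsv (Q ∪ D)
      have e2 := card_union_le Q D
      omega
    obtain ⟨A, a1, a2, a3⟩ := small_out (R := rv R) (rv_tour hT) (X := P₁) (F := Rsv ∪ (Q ∪ D)) (h := z) ht₁
      (by omega : t₁.1.size ≤ B) (by
        have := hin z hzP
        have h1 : (nO (rv R) P₁ z).card = (nI R P₁ z).card := rfl
        omega)
    have hAc := EmbB.card a1
    rw [disjoint_union_right] at d3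
    rw [disjoint_union_right, disjoint_union_right] at a3
    have a2' : A ⊆ nI R P₁ z := a2
    refine ⟨[z], [t₁], t₂ :: rest, A, D, rfl, Or.inl rfl, by simp, rfl, by simp, rfl, List.nodup_singleton z, ?_, ?_,
      ⟨A, ∅, disjoint_empty_right _, (union_empty _).symm, a1, rfl⟩,
      ⟨D, ∅, disjoint_empty_right _, (union_empty _).symm, d1, rfl⟩, a2'.trans nI_sub, a3.1, (d2.trans nO_sub).trans hPU,
      d3.1, a3.2.1, d3.2, a3.2.2, ?_, ?_⟩
    · rw [List.isChain_cons_cons]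
      exact ⟨hyz, List.isChain_singleton z⟩
    · intro h hh
      rw [List.mem_singleton] at hh
      rw [hh]
      exact ⟨hzP, hzH'⟩
    · intro h hh
      rw [List.mem_singleton] at hh
      rw [hh]
      exact ⟨fun hc => hT.irr z (mem_nI.1 (a2' hc)).2, fun hc => hT.irr z (mem_nO.1 (d2 hc)).2⟩
    · omega
  · -- through `w`
    have hwH : w ∉ H := fun h => hT.asym _ _ hwz (hzH w h)
    have hwz' : w ≠ z := by
      rintro rfl
      exact hT.irr _ hwz
    have hF₁ : (insert w (insert z (H ∪ Q))).card ≤ h₀ + r + 2 := by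
      have e1 := card_insert_le w (insert z (H ∪ Q))
      have e2 := card_insert_le z (H ∪ Q)
      have e3 := card_union_le H Q
      omega
    obtain ⟨D₁, d1, d2, d3⟩ := small_out hT (X := U₂) (F := insert w (insert z (H ∪ Q))) (h := w) ht₁'
      (by omega : t₁.2.size ≤ B) (by omega)
    have hD₁c := EmbB.card d1
    have hF₂ : (D₁ ∪ insert w (insert z (H ∪ Q))).card ≤ B + (h₀ + r + 2) :=
      (card_union_le _ _).trans (Nat.add_le_add (by omega) hF₁)
    obtain ⟨D₂, f1, f2, f3⟩ := small_out hT (X := P₂) (F := D₁ ∪ insert w (insert z (H ∪ Q))) (h := z) ht₂'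
      (by omega : t₂.2.size ≤ B) (by omega)
    have hD₂c := EmbB.card f1
    obtain ⟨F₃, hF₃⟩ : ∃ F₃, F₃ = Rsv ∪ (insert w (insert z Q) ∪ (D₁ ∪ D₂)) := ⟨_, rfl⟩
    have hF₃c : F₃.card ≤ Rsv.card + (r + 2 + B + B) := by
      have e1 := card_union_le Rsv (insert w (insert z Q) ∪ (D₁ ∪ D₂))
      have e2 := card_union_le (insert w (insert z Q)) (D₁ ∪ D₂)
      have e3 := card_union_le D₁ D₂
      have e4 := card_insert_le w (insert z Q)
      have e5 := card_insert_le z Q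
      rw [hF₃]
      omega
    obtain ⟨A₁, a1, a2, a3⟩ := small_out (R := rv R) (rv_tour hT) (X := P₁) (F := F₃) (h := w) ht₁
      (by omega : t₁.1.size ≤ B) (by
        have := hin w hwP
        have h1 : (nO (rv R) P₁ w).card = (nI R P₁ w).card := rfl
        omega)
    have hA₁c := EmbB.card a1
    have hF₄ : (A₁ ∪ F₃).card ≤ B + (Rsv.card + (r + 2 + B + B)) :=
      (card_union_le _ _).trans (Nat.add_le_add (by omega) hF₃c)
    obtain ⟨A₂, g1, g2, g3⟩ := small_out (R := rv R) (rv_tour hT) (X := P₁) (F := A₁ ∪ F₃) (h := z) ht₂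
      (by omega : t₂.1.size ≤ B) (by
        have := hin z hzP
        have h1 : (nO (rv R) P₁ z).card = (nI R P₁ z).card := rfl
        omega)
    have hA₂c := EmbB.card g1
    have a2' : A₁ ⊆ nI R P₁ w := a2
    have g2' : A₂ ⊆ nI R P₁ z := g2
    rw [disjoint_insert_right, disjoint_insert_right, disjoint_union_right] at d3
    rw [disjoint_union_right, disjoint_insert_right, disjoint_insert_right, disjoint_union_right] at f3
    rw [hF₃, disjoint_union_right, disjoint_union_right, disjoint_insert_right, disjoint_insert_right,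
      disjoint_union_right] at a3
    rw [hF₃, disjoint_union_right, disjoint_union_right, disjoint_union_right, disjoint_insert_right,
      disjoint_insert_right, disjoint_union_right] at g3
    obtain ⟨d3w, d3z, d3H, d3Q⟩ := d3
    obtain ⟨f31, f3w, f3z, f3H, f3Q⟩ := f3
    obtain ⟨a3R, ⟨a3w, a3z, a3Q⟩, a31, a32⟩ := a3
    obtain ⟨g31, g3R, ⟨g3w, g3z, g3Q⟩, g3D1, g3D2⟩ := g3
    refine ⟨[w, z], [t₁, t₂], rest, A₁ ∪ A₂, D₁ ∪ D₂, rfl, Or.inr rfl, hre, rfl, by simp, rfl, ?_, ?_, ?_,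
      ⟨A₁, A₂, g31.symm, rfl, a1, A₂, ∅, disjoint_empty_right _, (union_empty _).symm, g1, rfl⟩,
      ⟨D₁, D₂, f31.symm, rfl, d1, D₂, ∅, disjoint_empty_right _, (union_empty _).symm, f1, rfl⟩,
      union_subset (a2'.trans nI_sub) (g2'.trans nI_sub), disjoint_union_left.2 ⟨a3R, g3R⟩,
      union_subset (d2.trans nO_sub) ((f2.trans nO_sub).trans hPU), disjoint_union_left.2 ⟨d3H, f3H⟩,
      disjoint_union_left.2 ⟨a3Q, g3Q⟩, disjoint_union_left.2 ⟨d3Q, f3Q⟩, ?_, ?_, ?_⟩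
    · rw [List.nodup_cons, List.mem_singleton]
      exact ⟨hwz', List.nodup_singleton z⟩
    · rw [List.isChain_cons_cons, List.isChain_cons_cons]
      exact ⟨hyw, hwz, List.isChain_singleton z⟩
    · intro h hh
      rw [List.mem_cons, List.mem_singleton] at hh
      rcases hh with rfl | rfl
      · exact ⟨hwP, hwH⟩
      · exact ⟨hzP, hzH'⟩
    · rw [disjoint_union_left, disjoint_union_right, disjoint_union_right]
      exact ⟨⟨a31, a32⟩, g3D1, g3D2⟩
    · intro h hh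
      rw [List.mem_cons, List.mem_singleton] at hh
      rw [mem_union, mem_union, not_or, not_or]
      rcases hh with rfl | rfl
      · exact ⟨⟨a3w, g3w⟩, d3w, f3w⟩
      · exact ⟨⟨a3z, g3z⟩, d3z, f3z⟩
    · have e1 := card_union_le A₁ A₂
      have e2 := card_union_le D₁ D₂
      omega

end AEG
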